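import Pool.Agent.Work.MP_017613_gt.DigA

/-!
# The literal definition of the Menger compactum

`cell l a`: the subcube of `[0,1]^N` of side `3^(-l)` with lower corner `a / 3^l`.
`skel k l a`: the `k`-skeleton of the cube `cell l a`: the union of its faces of dimension at most
`k`, that is, the points of the cube with at most `k` coordinates which are not end points.
`Kept k l a`: the cube `cell l a` is kept at stage `l`: the unit cube is kept, and every kept cube
`cell l a` is subdivided into `3^N` congruent subcubes, and those which meet the `k`-skeleton of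
`cell l a` are kept.
`menger k N`: the intersection of the unions of the kept cubes.

`menger_eq_mu`: this is the digit model `mu k N`.
-/

set_option autoImplicit false

open Set

namespace MG

variable {N : ℕ}

/-- the closed subcube of side `3^(-l)` with lower corner `a / 3^l` -/
def cell (l : ℕ) (a : Fin N → ℕ) : Set (Fin N → ℝ) :=
  {x | ∀ i, (a i : ℝ) / 3 ^ l ≤ x i ∧ x i ≤ ((a i : ℝ) + 1) / 3 ^ l}

open Classical in
/-- the `k`-skeleton of the cube `cell l a` -/
def skel (k l : ℕ) (a : Fin N → ℕ) : Set (Fin N → ℝ) :=
  {x | x ∈ cell l a ∧ (Finset.univ.filter fun i =>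
    x i ≠ (a i : ℝ) / 3 ^ l ∧ x i ≠ ((a i : ℝ) + 1) / 3 ^ l).card ≤ k}

/-- the cubes which are kept at stage `l` of the construction -/
inductive Kept (k : ℕ) : (l : ℕ) → (Fin N → ℕ) → Prop
  /-- the unit cube is kept at stage `0` -/
  | unit : Kept k 0 (fun _ => 0)
  /-- a subcube of a kept cube which meets the `k`-skeleton of this cube is kept -/
  | sub (l : ℕ) (a b : Fin N → ℕ) : Kept k l a → (∀ i, 3 * a i ≤ b i ∧ b i ≤ 3 * a i + 2) →
      (cell (l + 1) b ∩ skel k l a).Nonempty → Kept k (l + 1) b

/-- the `k`-dimensional Menger compactum in `[0,1]^N`, literal definition -/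
def menger (k N : ℕ) : Set (Fin N → ℝ) :=
  ⋂ l : ℕ, ⋃ a : Fin N → ℕ, ⋃ _ : Kept k l a, cell l a

open Classical in
/-- a kept cube of stage `l + 1` has at most `k` middle digits -/
lemma Kept.card_le {k l : ℕ} {b : Fin N → ℕ} (h : Kept k (l + 1) b) :
    (Finset.univ.filter fun i => b i % 3 = 1).card ≤ k := by
  cases h with
  | sub l a b ha hb hne =>
    obtain ⟨x, hx, -, hk⟩ := hne
    refine le_trans (Finset.card_le_card ?_) hk
    intro i hi
    simp only [Finset.mem_filter, Finset.mem_univ, true_and] at hi ⊢
    obtain ⟨h1, h2⟩ := hb i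
    have hbi : b i = 3 * a i + 1 := by omega
    obtain ⟨h3, h4⟩ := hx i
    have hp : (0:ℝ) < 3 ^ l := pow3_pos l
    rw [hbi, pow_succ] at h3 h4
    push_cast at h3 h4
    rw [div_le_iff₀ (by positivity)] at h3
    rw [le_div_iff₀ (by positivity)] at h4
    constructor
    · intro h5
      rw [h5] at h3
      have : (a i : ℝ) / 3 ^ l * (3 ^ l * 3) = 3 * a i := by field_simp
      linarith
    · intro h5
      rw [h5] at h4
      have : ((a i : ℝ) + 1) / 3 ^ l * (3 ^ l * 3) = 3 * a i + 3 := by field_simp
      linarith

/-- the index of the interval of length `3^(-l)` which contains `t`, chosen greedily -/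
noncomputable def gidx (t : ℝ) : ℕ → ℕ
  | 0 => 0
  | l + 1 => if 3 ^ (l + 1) * t ≤ 3 * (gidx t l : ℝ) + 1 then 3 * gidx t l
      else if 3 * (gidx t l : ℝ) + 2 ≤ 3 ^ (l + 1) * t then 3 * gidx t l + 2
      else 3 * gidx t l + 1

lemma gidx_mem {t : ℝ} (ht : t ∈ Icc (0:ℝ) 1) (l : ℕ) :
    (gidx t l : ℝ) ≤ 3 ^ l * t ∧ 3 ^ l * t ≤ (gidx t l : ℝ) + 1 := by
  induction l with
  | zero => simpa [gidx] using ht
  | succ l ih =>
    obtain ⟨h1, h2⟩ := ih
    have h3 : (3:ℝ) ^ (l + 1) * t = 3 * (3 ^ l * t) := by ring
    simp only [gidx]
    split_ifs with h4 h5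
    · push_cast
      constructor <;> linarith
    · push_cast
      constructor <;> linarith
    · push_cast
      push Not at h4 h5
      constructor <;> linarith

lemma gidx_bad {t : ℝ} {l : ℕ} (h : gidx t (l + 1) % 3 = 1) : Bad l t := by
  rw [bad_iff_exists]
  refine ⟨gidx t l, ?_, ?_⟩
  all_goals
    have h3 : (3:ℝ) ^ (l + 1) * t = 3 * (3 ^ l * t) := by ring
    simp only [gidx] at h
    split_ifs at h with h4 h5
    · omega
    · omega
    · push Not at h4 h5
      push_cast
      linarith

open Classical in
lemma kept_gidx {k : ℕ} {x : Fin N → ℝ} (hx : x ∈ mu k N) (l : ℕ) :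
    Kept k l fun i => gidx (x i) l := by
  induction l with
  | zero => exact Kept.unit
  | succ l ih =>
    obtain ⟨hx1, hx2⟩ := hx
    refine Kept.sub l _ _ ih (fun i => ?_) ?_
    · simp only [gidx]
      split_ifs <;> omega
    · have hp : (0:ℝ) < 3 ^ l := pow3_pos l
      -- the point of the subcube on the skeleton
      let y : Fin N → ℝ := fun i =>
        if gidx (x i) (l + 1) % 3 = 0 then (gidx (x i) l : ℝ) / 3 ^ l
        else if gidx (x i) (l + 1) % 3 = 2 then ((gidx (x i) l : ℝ) + 1) / 3 ^ l
        else (gidx (x i) (l + 1) : ℝ) / 3 ^ (l + 1)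
      have hd : ∀ i, gidx (x i) (l + 1) = 3 * gidx (x i) l + gidx (x i) (l + 1) % 3 := by
        intro i
        simp only [gidx]
        split_ifs <;> omega
      have hlt : ∀ i, gidx (x i) (l + 1) % 3 < 3 := fun i => Nat.mod_lt _ (by norm_num)
      have hcell : y ∈ cell (l + 1) fun i => gidx (x i) (l + 1) := by
        intro i
        have hdi := hd i
        simp only [y]
        split_ifs with h0 h2
        · rw [h0] at hdi
          rw [hdi, pow_succ]
          push_cast
          constructor
          · rw [div_le_div_iff₀ (by positivity) hp]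
            apply le_of_eq
            ring
          · rw [div_le_div_iff₀ hp (by positivity)]
            nlinarith
        · rw [h2] at hdi
          rw [hdi, pow_succ]
          push_cast
          constructor
          · rw [div_le_div_iff₀ (by positivity) hp]
            nlinarith
          · rw [div_le_div_iff₀ hp (by positivity)]
            apply le_of_eq
            ring
        · refine ⟨le_refl _, ?_⟩
          gcongr
          linarith
      refine ⟨y, hcell, ?_, ?_⟩
      · intro i
        have hdi := hd i
        have hp0 : (0:ℝ) ≤ 3 ^ l := hp.le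
        simp only [y]
        split_ifs with h0 h2
        · refine ⟨le_refl _, ?_⟩
          gcongr
          linarith
        · refine ⟨?_, le_refl _⟩
          gcongr
          linarith
        · have h1 : gidx (x i) (l + 1) % 3 = 1 := by have := hlt i; omega
          rw [h1] at hdi
          rw [hdi, pow_succ]
          push_cast
          constructor
          · rw [div_le_div_iff₀ hp (by positivity)]
            nlinarith
          · rw [div_le_div_iff₀ (by positivity) hp]
            nlinarith
      · refine le_trans (Finset.card_le_card ?_) (hx2 l)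
        intro i hi
        simp only [Finset.mem_filter, Finset.mem_univ, true_and] at hi ⊢
        refine gidx_bad ?_
        by_contra h1
        have h3 := hlt i
        rcases (by omega : gidx (x i) (l + 1) % 3 = 0 ∨ gidx (x i) (l + 1) % 3 = 2) with h0 | h2
        · exact hi.1 (by simp only [y, h0, if_true])
        · exact hi.2 (by simp [y, h2])

open Classical in
/-- **The digit model is the Menger compactum.** -/
theorem menger_eq_mu (k N : ℕ) : menger k N = mu k N := by
  ext x
  simp only [menger, mem_iInter, mem_iUnion, exists_prop]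
  constructor
  · intro h
    refine ⟨fun i => ?_, fun l => ?_⟩
    · obtain ⟨a, ha, hx⟩ := h 0
      cases ha
      have := hx i
      simpa using this
    · obtain ⟨b, hb, hx⟩ := h (l + 1)
      refine le_trans (Finset.card_le_card ?_) hb.card_le
      intro i hi
      simp only [Finset.mem_filter, Finset.mem_univ, true_and] at hi ⊢
      obtain ⟨n, h1, h2⟩ := bad_iff_exists.1 hi
      obtain ⟨h3, h4⟩ := hx i
      have hp : (0:ℝ) < 3 ^ l := pow3_pos l
      rw [pow_succ, div_le_iff₀ (by positivity)] at h3
      rw [pow_succ, le_div_iff₀ (by positivity)] at h4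
      have h5 : ((b i : ℤ) : ℝ) < ((3 * n + 2 : ℤ) : ℝ) := by
        push_cast
        have : x i * (3 ^ l * 3) = 3 * (3 ^ l * x i) := by ring
        linarith
      have h6 : ((3 * n : ℤ) : ℝ) < ((b i : ℤ) : ℝ) := by
        push_cast
        have : x i * (3 ^ l * 3) = 3 * (3 ^ l * x i) := by ring
        linarith
      have h7 : (b i : ℤ) < 3 * n + 2 := by exact_mod_cast h5
      have h8 : 3 * n < (b i : ℤ) := by exact_mod_cast h6
      omega
  · intro h l
    refine ⟨fun i => gidx (x i) l, kept_gidx h l, fun i => ?_⟩
    have hp : (0:ℝ) < 3 ^ l := pow3_pos l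
    obtain ⟨h1, h2⟩ := gidx_mem (h.1 i) l
    constructor
    · rw [div_le_iff₀ hp]
      linarith
    · rw [le_div_iff₀ hp]
      linarith

end MG
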