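import Mathlib

/-!
Z-sets of a compact metric space: closed sets which maps close to the identity avoid.
-/

set_option linter.unusedSectionVars false

open Set Topology Metric

namespace Pool.Agent.Work.MP_017613_gt

variable {M : Type*} [MetricSpace M] [CompactSpace M]

/-- `A` is a Z-set: it is closed and the identity is a limit of maps avoiding `A`. -/
def ZS (A : Set M) : Prop :=
  IsClosed A ∧ ∀ ε > 0, ∃ φ : C(M, M), (∀ x, dist (φ x) x < ε) ∧ ∀ x, φ x ∉ A

theorem ZS.isClosed {A : Set M} (h : ZS A) : IsClosed A := h.1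

theorem ZS.empty : ZS (∅ : Set M) :=
  ⟨isClosed_empty, fun _ hε => ⟨ContinuousMap.id M, fun x => by simpa using hε, fun _ => id⟩⟩

theorem ZS.mono {A B : Set M} (h : ZS A) (hB : IsClosed B) (hBA : B ⊆ A) : ZS B :=
  ⟨hB, fun ε hε => by
    obtain ⟨φ, h1, h2⟩ := h.2 ε hε
    exact ⟨φ, h1, fun x hx => h2 x (hBA hx)⟩⟩

/-- maps avoiding a closed set form an open set -/
theorem isOpen_avoid {P N : Type*} [MetricSpace P] [CompactSpace P] [MetricSpace N]
    {A : Set N} (hA : IsClosed A) {σ : Set P} (hσ : IsCompact σ) :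
    IsOpen {φ : C(P, N) | ∀ x ∈ σ, φ x ∉ A} :=
  ContinuousMap.isOpen_setOfPred_mapsTo hσ hA.isOpen_compl

/-- maps `P → M` avoiding a Z-set are dense -/
theorem ZS.dense_avoid {P : Type*} [MetricSpace P] [CompactSpace P] {A : Set M} (hA : ZS A) :
    Dense {φ : C(P, M) | ∀ x, φ x ∉ A} := by
  intro f
  rw [Metric.mem_closure_iff]
  intro ε hε
  obtain ⟨φ, h1, h2⟩ := hA.2 (ε / 2) (by positivity)
  refine ⟨φ.comp f, fun x => h2 _, ?_⟩
  rw [dist_comm]
  refine lt_of_le_of_lt ((ContinuousMap.dist_le (by positivity)).2 fun x => (h1 (f x)).le) ?_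
  linarith

/-- countably many Z-sets are avoided at the same time -/
theorem ZS.dense_avoid_seq {P : Type*} [MetricSpace P] [CompactSpace P] {A : ℕ → Set M}
    (hA : ∀ n, ZS (A n)) : Dense {φ : C(P, M) | ∀ x n, φ x ∉ A n} := by
  have h := dense_iInter_of_isOpen_nat (X := C(P, M)) (f := fun n => {φ | ∀ x ∈ univ, φ x ∉ A n})
    (fun n => isOpen_avoid (hA n).1 isCompact_univ) fun n => by
      simpa using (hA n).dense_avoid (P := P)
  refine h.mono fun φ hφ x n => ?_
  have := mem_iInter.1 hφ n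
  exact this x (mem_univ x)

theorem ZS.of_seq {A : ℕ → Set M} (hA : ∀ n, ZS (A n)) {B : Set M} (hB : IsClosed B)
    (hBA : B ⊆ ⋃ n, A n) : ZS B := by
  refine ⟨hB, fun ε hε => ?_⟩
  obtain ⟨φ, h1, h2⟩ := Metric.mem_closure_iff.1
    (ZS.dense_avoid_seq (P := M) hA (ContinuousMap.id M)) ε hε
  refine ⟨φ, fun x => ?_, fun x hx => ?_⟩
  · rw [dist_comm] at h2
    exact (ContinuousMap.dist_apply_le_dist x).trans_lt h2
  · obtain ⟨n, hn⟩ := mem_iUnion.1 (hBA hx)
    exact h1 x n hn

theorem ZS.union {A B : Set M} (hA : ZS A) (hB : ZS B) : ZS (A ∪ B) :=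
  ZS.of_seq (A := fun n => if n = 0 then A else B)
    (fun n => by by_cases h : n = 0 <;> simp [h, hA, hB]) (hA.1.union hB.1) fun x hx =>
    hx.elim (fun h => mem_iUnion.2 ⟨0, by simpa using h⟩) fun h => mem_iUnion.2 ⟨1, by simpa using h⟩

theorem ZS.biUnion {ι : Type*} (s : Finset ι) {A : ι → Set M} (hA : ∀ i ∈ s, ZS (A i)) :
    ZS (⋃ i ∈ s, A i) := by
  classical
  induction s using Finset.induction_on with
  | empty => simpa using ZS.empty
  | insert i s hi ih =>
    rw [Finset.set_biUnion_insert]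
    exact (hA i (Finset.mem_insert_self i s)).union
      (ih fun j hj => hA j (Finset.mem_insert_of_mem hj))

theorem ZS.image {N : Type*} [MetricSpace N] [CompactSpace N] (e : M ≃ₜ N) {A : Set M}
    (hA : ZS A) : ZS (e '' A) := by
  refine ⟨e.isClosedMap _ hA.1, fun ε hε => ?_⟩
  have hu : UniformContinuous e := CompactSpace.uniformContinuous_of_continuous e.continuous
  obtain ⟨δ, hδ, h⟩ := Metric.uniformContinuous_iff.1 hu ε hε
  obtain ⟨φ, h1, h2⟩ := hA.2 δ hδ
  refine ⟨⟨fun y => e (φ (e.symm y)), by fun_prop⟩, fun y => ?_, fun y hy => ?_⟩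
  · have := h (h1 (e.symm y))
    simpa using this
  · obtain ⟨x, hx, he⟩ := hy
    exact h2 _ (by rwa [← e.injective he])

/-- disjoint approximations of the identity -/
def DD (M : Type*) [MetricSpace M] : Prop :=
  ∀ ε > 0, ∃ φ ψ : C(M, M), (∀ x, dist (φ x) x < ε) ∧ (∀ x, dist (ψ x) x < ε) ∧
    ∀ x y, φ x ≠ ψ y

/-- approximations of the identity whose image is a Z-set -/
def ZD (M : Type*) [MetricSpace M] : Prop :=
  ∀ ε > 0, ∃ φ : C(M, M), (∀ x, dist (φ x) x < ε) ∧ ZS (range φ)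

theorem dist_id_lt [Nonempty M] {φ : C(M, M)} {ε : ℝ} (h : ∀ x, dist (φ x) x < ε) :
    dist φ (ContinuousMap.id M) < ε :=
  (ContinuousMap.dist_lt_iff_of_nonempty).2 h

/-- disjoint images, for maps from a compact space -/
theorem isOpen_disj {P N : Type*} [MetricSpace P] [CompactSpace P] [MetricSpace N] :
    IsOpen {p : C(P, N) × C(P, N) | ∀ x y, p.1 x ≠ p.2 y} := by
  rw [Metric.isOpen_iff]
  rintro ⟨f, g⟩ h
  by_cases hP : Nonempty P
  swap
  · refine ⟨1, one_pos, fun q _ x => (hP ⟨x⟩).elim⟩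
  have hd : Disjoint (range f) (range g) := by
    rw [Set.disjoint_left]
    rintro _ ⟨x, rfl⟩ ⟨y, hy⟩
    exact h x y hy.symm
  obtain ⟨δ, hδ, hlow⟩ : ∃ δ > 0, ∀ x y, δ ≤ dist (f x) (g y) := by
    have hc : Continuous fun p : P × P => dist (f p.1) (g p.2) := by fun_prop
    obtain ⟨⟨x0, y0⟩, -, hmin⟩ := isCompact_univ.exists_isMinOn (univ_nonempty) hc.continuousOn
    refine ⟨dist (f x0) (g y0), dist_pos.2 (h x0 y0), fun x y => hmin (mem_univ (x, y))⟩
  refine ⟨δ / 2, by positivity, fun q hq x y he => ?_⟩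
  rw [mem_ball, Prod.dist_eq, max_lt_iff] at hq
  have h1 := (ContinuousMap.dist_apply_le_dist x).trans_lt hq.1
  have h2 := (ContinuousMap.dist_apply_le_dist y).trans_lt hq.2
  simp only at h1 h2
  have h3 := hlow x y
  have h4 : dist (f x) (g y) ≤ dist (q.1 x) (f x) + dist (q.2 y) (g y) := by
    calc dist (f x) (g y) ≤ dist (f x) (q.1 x) + dist (q.1 x) (g y) := dist_triangle _ _ _
      _ = dist (q.1 x) (f x) + dist (q.2 y) (g y) := by rw [dist_comm (f x), he]
  linarith

/-- disjoint approximations give approximations with Z-images -/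
theorem DD.zd (h : DD M) : ZD M := by
  classical
  by_cases hM : Nonempty M
  swap
  · exact fun ε _ => ⟨ContinuousMap.id M, fun x => (hM ⟨x⟩).elim,
      (isCompact_range (ContinuousMap.continuous _)).isClosed,
      fun ε' _ => ⟨ContinuousMap.id M, fun x => (hM ⟨x⟩).elim, fun x => (hM ⟨x⟩).elim⟩⟩
  have hS : Dense {p : C(M, M) × C(M, M) | ∀ x y, p.1 x ≠ p.2 y} := by
    rintro ⟨f, g⟩
    rw [Metric.mem_closure_iff]
    intro ε hε
    obtain ⟨φ, ψ, h1, h2, h3⟩ := h (ε / 2) (by positivity)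
    refine ⟨(φ.comp f, ψ.comp g), fun x y => h3 _ _, ?_⟩
    rw [Prod.dist_eq]
    refine lt_of_le_of_lt (max_le ?_ ?_) (half_lt_self hε)
    · exact (ContinuousMap.dist_le (by positivity)).2 fun x => by
        rw [dist_comm]; exact (h1 (f x)).le
    · exact (ContinuousMap.dist_le (by positivity)).2 fun x => by
        rw [dist_comm]; exact (h2 (g x)).le
  obtain ⟨B, hBc, -, hB⟩ := TopologicalSpace.exists_countable_basis C(M, M)
  have : Countable B := hBc.to_subtype
  -- the generic conditions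
  have D1 : ∀ p : {p : ℕ × ℕ // p.1 ≠ p.2},
      IsOpen {φ : ℕ → C(M, M) | ∀ x y, φ p.1.1 x ≠ φ p.1.2 y} ∧
      Dense {φ : ℕ → C(M, M) | ∀ x y, φ p.1.1 x ≠ φ p.1.2 y} := by
    intro p
    constructor
    · have : Continuous fun φ : ℕ → C(M, M) => (φ p.1.1, φ p.1.2) := by fun_prop
      exact isOpen_disj.preimage this
    · intro f
      have hc : Continuous fun q : C(M, M) × C(M, M) =>
          Function.update (Function.update f p.1.1 q.1) p.1.2 q.2 := by fun_prop
      have h2 := map_mem_closure (t := {φ : ℕ → C(M, M) | ∀ x y, φ p.1.1 x ≠ φ p.1.2 y}) hc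
        (hS (f p.1.1, f p.1.2)) (by
          intro q hq x y
          have hne : p.1.1 ≠ p.1.2 := p.2
          have e1 : Function.update (Function.update f p.1.1 q.1) p.1.2 q.2 p.1.1 = q.1 := by
            rw [Function.update_of_ne hne, Function.update_self]
          have e2 : Function.update (Function.update f p.1.1 q.1) p.1.2 q.2 p.1.2 = q.2 := by
            rw [Function.update_self]
          simp only [e1, e2]
          exact hq x y)
      simpa using h2
  have D2 : ∀ V : B, IsOpen {φ : ℕ → C(M, M) | (V : Set C(M, M)).Nonempty →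
      ∃ n, φ n ∈ (V : Set C(M, M))} ∧ Dense {φ : ℕ → C(M, M) | (V : Set C(M, M)).Nonempty →
      ∃ n, φ n ∈ (V : Set C(M, M))} := by
    intro V
    by_cases hV : (V : Set C(M, M)).Nonempty
    swap
    · simp [hV]
    simp only [hV, forall_const]
    constructor
    · have : {φ : ℕ → C(M, M) | ∃ n, φ n ∈ (V : Set C(M, M))} =
          ⋃ n, (fun φ : ℕ → C(M, M) => φ n) ⁻¹' (V : Set C(M, M)) := by
        ext φ; simp
      rw [this]
      exact isOpen_iUnion fun n => (hB.isOpen V.2).preimage (continuous_apply n)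
    · obtain ⟨v, hv⟩ := hV
      intro f
      have ht : Filter.Tendsto (fun n => Function.update f n v) Filter.atTop (𝓝 f) := by
        rw [tendsto_pi_nhds]
        intro j
        refine tendsto_const_nhds.congr' ?_
        filter_upwards [Filter.eventually_gt_atTop j] with n hn
        rw [Function.update_of_ne hn.ne]
      refine mem_closure_of_tendsto ht (Filter.Eventually.of_forall fun n => ⟨n, ?_⟩)
      simpa using hv
  have D3 := dense_iInter_of_isOpen (X := ℕ → C(M, M))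
    (f := fun i : {p : ℕ × ℕ // p.1 ≠ p.2} ⊕ B => Sum.elim
      (fun p : {p : ℕ × ℕ // p.1 ≠ p.2} => {φ : ℕ → C(M, M) | ∀ x y, φ p.1.1 x ≠ φ p.1.2 y})
      (fun V : B => {φ : ℕ → C(M, M) | (V : Set C(M, M)).Nonempty →
        ∃ n, φ n ∈ (V : Set C(M, M))}) i)
    (by rintro (p | V); exacts [(D1 p).1, (D2 V).1])
    (by rintro (p | V); exacts [(D1 p).2, (D2 V).2])
  have : Nonempty (ℕ → C(M, M)) := ⟨fun _ => ContinuousMap.id M⟩
  obtain ⟨φ, hφ⟩ := D3.nonempty
  rw [mem_iInter] at hφ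
  have h1 : ∀ i j, i ≠ j → ∀ x y, φ i x ≠ φ j y := fun i j hij => hφ (Sum.inl ⟨(i, j), hij⟩)
  have h2 : ∀ V ∈ B, V.Nonempty → ∃ n, φ n ∈ V := fun V hV => hφ (Sum.inr ⟨V, hV⟩)
  have h3 : ∀ U : Set C(M, M), IsOpen U → U.Nonempty → ∃ n, φ n ∈ U := by
    rintro U hU ⟨p, hp⟩
    obtain ⟨V, hV, hpV, hVU⟩ := hB.exists_subset_of_mem_open hp hU
    obtain ⟨n, hn⟩ := h2 V hV ⟨p, hpV⟩
    exact ⟨n, hVU hn⟩
  have h4 : ∀ n, ZS (range (φ n)) := by
    intro n
    refine ⟨(isCompact_range (φ n).continuous).isClosed, fun ε hε => ?_⟩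
    obtain ⟨a, b, ha, hb, hab⟩ := h ε hε
    obtain ⟨m, hm⟩ := h3 (ball (ContinuousMap.id M) ε ∩ {φ n}ᶜ)
      (isOpen_ball.inter isClosed_singleton.isOpen_compl) (by
        by_cases han : a = φ n
        · refine ⟨b, dist_id_lt hb, fun hbn => ?_⟩
          obtain ⟨x⟩ := hM
          exact hab x x (by rw [han, show b = φ n from hbn])
        · exact ⟨a, dist_id_lt ha, han⟩)
    have hmn : m ≠ n := fun hh => hm.2 (by rw [hh]; rfl)
    refine ⟨φ m, fun x => (ContinuousMap.dist_apply_le_dist x).trans_lt hm.1, ?_⟩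
    rintro x ⟨y, hy⟩
    exact h1 m n hmn x y hy.symm
  intro ε hε
  obtain ⟨n, hn⟩ := h3 (ball (ContinuousMap.id M) ε) isOpen_ball ⟨_, mem_ball_self hε⟩
  exact ⟨φ n, fun x => (ContinuousMap.dist_apply_le_dist x).trans_lt hn, h4 n⟩

/-- the two approximation properties are equivalent -/
theorem ZD.dd (h : ZD M) : DD M := by
  intro ε hε
  obtain ⟨φ, h1, h2⟩ := h ε hε
  obtain ⟨ψ, h3, h4⟩ := h2.2 ε hε
  exact ⟨φ, ψ, h1, h3, fun x y he => h4 y (by rw [← he]; exact mem_range_self x)⟩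

/-- maps with Z-images are dense -/
theorem ZD.dense {P : Type*} [MetricSpace P] [CompactSpace P] (h : ZD M) :
    Dense {f : C(P, M) | ZS (range f)} := by
  intro f
  rw [Metric.mem_closure_iff]
  intro ε hε
  obtain ⟨φ, h1, h2⟩ := h (ε / 2) (by positivity)
  refine ⟨φ.comp f, h2.mono (isCompact_range (φ.comp f).continuous).isClosed ?_, ?_⟩
  · rintro _ ⟨x, rfl⟩
    exact mem_range_self _
  rw [dist_comm]
  refine lt_of_le_of_lt ((ContinuousMap.dist_le (by positivity)).2 fun x => (h1 (f x)).le) ?_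
  linarith

end Pool.Agent.Work.MP_017613_gt
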