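import Pool.Agent.Work.MP_017613_gt.Kit.Defs
import Pool.Agent.Work.MP_017613_gt.ZSet

/-!
# Absorption: definitions (block (1))

`CFam A K V Φ`: `V` is obtained from `K` by attaching the cones `Φ a : A × [0,1] → V`.
`Par A e S ia py`: parametrised compact set `S = ⋃ e a '' A`, `e` injective, with a choice of
nearest points. `ALev`: a system of levels `ν` around `S`.
-/

open Set Metric Topology

namespace MG

open Pool.Agent.Work.MP_017613_gt (ZS)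

variable {ι : Type*} {E β M : Type*} [MetricSpace E] [MetricSpace β] [MetricSpace M]

/-- `V` is `K` with the cones `Φ a` over `A` attached. -/
structure CFam (A : Set E) (K V : Set β) (Φ : ι → E → ℝ → β) : Prop where
  cont : ∀ a, ContinuousOn (fun q : E × ℝ => Φ a q.1 q.2) (A ×ˢ Icc (0 : ℝ) 1)
  base : ∀ a, ∀ x ∈ A, Φ a x 0 ∈ K
  apex : ∀ a, ∀ x ∈ A, ∀ x' ∈ A, Φ a x 1 = Φ a x' 1
  off : ∀ a, ∀ x ∈ A, ∀ t, 0 < t → t ≤ 1 → Φ a x t ∉ K
  inj : ∀ a b x x' t t', x ∈ A → x' ∈ A → 0 < t → t ≤ 1 → 0 < t' → t' ≤ 1 →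
    Φ a x t = Φ b x' t' → a = b ∧ t = t' ∧ (t < 1 → x = x')
  union : V = K ∪ {v | ∃ a, ∃ x ∈ A, ∃ t, 0 ≤ t ∧ t ≤ 1 ∧ Φ a x t = v}

/-- parametrised compact set with a choice of nearest points -/
structure Par (A : Set E) (e : ι → E → M) (S : Set M) (ia : M → ι) (py : M → E) : Prop where
  cont : ∀ a, ContinuousOn (e a) A
  inj : ∀ a b x x', x ∈ A → x' ∈ A → e a x = e b x' → a = b ∧ x = x'
  eq : S = ⋃ a, e a '' A
  mem : ∀ x, py x ∈ A
  near : ∀ x, dist x (e (ia x) (py x)) = infDist x S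

/-- filling inside the levels: spheres in `D < d'` bound balls in `D < d`; with control of the
parameters. -/
def FillL (k : ℕ) (A : Set E) (S : Set M) (ia : M → ι) (py : M → E) (η d' d : ℝ) : Prop :=
  ∀ j, 1 ≤ j → j ≤ k → ∀ (a : ι) (α : (Fin j → ℝ) → M), ContinuousOn α (dCu j) →
    (∀ x ∈ dCu j, infDist (α x) S < d' ∧ ia (α x) = a) →
    (∃ F : (Fin j → ℝ) → M, ContinuousOn F (Cu j) ∧ EqOn F α (dCu j) ∧
      ∀ x ∈ Cu j, infDist (F x) S < d ∧ ia (F x) = a) ∧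
    ∀ (y : E) (s s' : ℝ), y ∈ A → s ≤ s' → UV k (fun x => x) A A (s + η) s' →
      (∀ x ∈ dCu j, dist (py (α x)) y < s) →
      ∃ F : (Fin j → ℝ) → M, ContinuousOn F (Cu j) ∧ EqOn F α (dCu j) ∧
        ∀ x ∈ Cu j, infDist (F x) S < d ∧ ia (F x) = a ∧ dist (py (F x)) y < s' + η

/-- push-off: a ball with boundary in `D ≥ d` is pushed into `D ≥ d'` rel boundary, moving `< e`. -/
def PushL (k : ℕ) (S : Set M) (e d d' : ℝ) : Prop :=
  ∀ j ≤ k, ∀ F : (Fin j → ℝ) → M, ContinuousOn F (Cu j) → (∀ x ∈ dCu j, d ≤ infDist (F x) S) →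
    ∃ G : (Fin j → ℝ) → M, ContinuousOn G (Cu j) ∧ EqOn G F (dCu j) ∧
      (∀ x ∈ Cu j, dist (G x) (F x) < e) ∧ ∀ x ∈ Cu j, d' ≤ infDist (G x) S

/-- A system of levels around `S`, of size `< ζ`, with parameter tolerance `η`. -/
structure ALev (k : ℕ) (A : Set E) (e : ι → E → M) (S : Set M) (ia : M → ι) (py : M → E)
    (ζ η : ℝ) (ν : ℕ → ℝ) : Prop where
  pos : ∀ l, 0 < ν l
  small : ν 0 < ζ
  half : ∀ l, ν (l + 1) ≤ ν l / 2
  par : ∀ x x', infDist x S < 2 * ν 0 → infDist x' S < 2 * ν 0 → dist x x' < 2 * ν 0 →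
    ia x = ia x' ∧ dist (py x) (py x') < η
  vert : ∀ a, ∀ y ∈ A, ∀ t, 0 < t → t ≤ ν 0 → ∃ p, infDist p S = t ∧ ia p = a ∧ dist (py p) y < η
  fill : ∀ l, FillL k A S ia py η (ν (l + 1)) (ν l)
  push : ∀ l, PushL k S (min (ν l / 2) ζ) (ν l) (ν (l + 1))

end MG
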