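import Pool.Agent.Work.MP_017613_gt.Skel24
import Pool.Agent.Work.MP_017613_gt.AbsDefs

/-!
# The joint `J_ABS2`: definitions

`Ak k n m`: the `k`-skeleton of the grid of mesh `1/m` on `dCu n`.
`KA k m K χ`: `K` with the cones over `Ak k n m` in the cells `χ i`.
-/

open Set Metric Topology

namespace MG.Abs2

open Pool.Agent.Work.MP_017613_gt.T6

/-- the `k`-skeleton of the grid of mesh `1/m` on the boundary of the cube -/
def Ak (k n m : ℕ) : Set (Fin n → ℝ) := {x | x ∈ dCu n ∧ dm (car m x) ≤ k}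

/-- `K` with the cones over `Ak k n m` in the cells -/
def KA {α ι : Type*} {n : ℕ} (k m : ℕ) (K : Set α) (χ : ι → (Fin n → ℝ) → α) : Set α :=
  K ∪ {v | ∃ i, ∃ a ∈ Ak k n m, ∃ t, 0 ≤ t ∧ t ≤ 1 ∧ χ i (ccn (ce n) a t) = v}

end MG.Abs2
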