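import Pool.Agent.Work.MP_017613_gt.CubHomeo
import Pool.Agent.Work.MP_017613_gt.Kit.Defs

/-!
# COARSE: functions with small oscillation on the cubes of a grid are close to maps

`coarse`: `K` is `ULC^(k-1)`; for every `ε` there is `δ` (independent of the mesh and of the
dimension of the ambient space) such that every function `φ : P → K` on a cubical set `P` of
mesh `1/m` which is continuous on the cubical subset `P₀`, has oscillation `< δ` on the cubes, where
the cubes of `P` not in `P₀` have dimension `≤ k`, is `ε`-close to a map `F : P → K` with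
`F = φ` on `P₀`.
-/

open Set Topology Metric

namespace MG

open Pool.Agent.Work.MP_017613_gt (Cb Bd)

variable {α : Type*} [MetricSpace α] {N : ℕ}

/-- `φ` has oscillation `< δ` on the cubes of mesh `1/m` in `P` -/
def Osc (m : ℕ) (P : Set (Fin N → ℝ)) (φ : (Fin N → ℝ) → α) (δ : ℝ) : Prop :=
  ∀ x ∈ P, ∀ y ∈ cube m (car m x), dist (φ x) (φ y) < δ

lemma Osc.mono {m : ℕ} {P Q : Set (Fin N → ℝ)} {φ : (Fin N → ℝ) → α} {δ δ' : ℝ}
    (h : Osc m P φ δ) (hQ : Q ⊆ P) (hδ : δ ≤ δ') : Osc m Q φ δ' :=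
  fun x hx y hy => (h x (hQ hx) y hy).trans_le hδ

lemma Cu_eq (j : ℕ) : Cu j = Cb j := rfl

lemma dCu_eq (j : ℕ) : dCu j = Bd j := rfl

lemma isCub_Cu {m : ℕ} (hm : 0 < m) (j : ℕ) : IsCub m (Cu j) := isCub_Cb hm j

lemma isCub_dCu {m : ℕ} (hm : 0 < m) (j : ℕ) : IsCub m (dCu j) := isCub_Bd hm j

/-- part of the skeleton -/
lemma IsCub.skel_lt {m : ℕ} {P : Set (Fin N → ℝ)} (hP : IsCub m P) (j : ℕ) :
    IsCub m {x | x ∈ P ∧ dm (car m x) < j} := by
  refine hP.sub (fun x hx => hx.1) fun x hx y hy => ?_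
  exact ⟨hP.sat x hx.1 hy, (dm_car_le hy).trans_lt hx.2⟩

/-- **COARSE**, with bound `< d` on the dimensions. -/
theorem coarse_lt {k : ℕ} {K : Set α} (hK : ULC k K) : ∀ d ≤ k + 1, ∀ ε > 0, ∃ δ > 0,
    ∀ {N m : ℕ} (_ : 0 < m) {P P₀ : Set (Fin N → ℝ)} (_ : IsCub m P) (_ : IsCub m P₀) (_ : P₀ ⊆ P)
      (_ : ∀ x ∈ P, x ∉ P₀ → dm (car m x) < d) (φ : (Fin N → ℝ) → α) (_ : MapsTo φ P K)
      (_ : ContinuousOn φ P₀) (_ : Osc m P φ δ),
      ∃ F : (Fin N → ℝ) → α, IsMap F P K ∧ EqOn F φ P₀ ∧ ∀ x ∈ P, dist (F x) (φ x) < ε := by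
  intro d
  induction d with
  | zero =>
    intro _ ε hε
    refine ⟨1, one_pos, ?_⟩
    intro N m _ P P₀ _ _ hsub hdim φ hφ hc _
    have : P ⊆ P₀ := fun x hx => by
      by_contra h
      exact absurd (hdim x hx h) (by omega)
    have hPP : P = P₀ := Subset.antisymm this hsub
    subst hPP
    exact ⟨φ, ⟨hc, hφ⟩, fun _ _ => rfl, fun x _ => by rw [dist_self]; exact hε⟩
  | succ d ih =>
    intro hd ε hε
    obtain ⟨δ₁, hδ₁, hU⟩ := hK (ε / 2) (half_pos hε)
    obtain ⟨δ₂, hδ₂, hI⟩ := ih (by omega) (min (δ₁ / 2) ε) (lt_min (half_pos hδ₁) hε)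
    refine ⟨min δ₂ (min (δ₁ / 2) (ε / 2)), lt_min hδ₂ (lt_min (half_pos hδ₁) (half_pos hε)), ?_⟩
    intro N m hm P P₀ hP hP₀ hsub hdim φ hφ hc hosc
    set P' : Set (Fin N → ℝ) := P₀ ∪ {x | x ∈ P ∧ dm (car m x) < d} with hP'
    have hP'c : IsCub m P' := hP₀.union (hP.skel_lt d)
    have hP'P : P' ⊆ P := union_subset hsub fun x hx => hx.1
    obtain ⟨F', hF'm, hF'e, hF'd⟩ := hI hm hP'c hP₀ subset_union_left
      (fun x hx hx0 => by
        rcases hx with hx | hx
        · exact absurd hx hx0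
        · exact hx.2) φ (hφ.mono_left hP'P) hc (hosc.mono hP'P (min_le_left _ _))
    have key : ∃ F : (Fin N → ℝ) → α, IsMap F P K ∧ EqOn F F' P' ∧
        ∀ x ∈ P, dist (F x) (φ x) < ε := by
      refine cell_induction hP hP'c hP'P (fun A => ∃ F : (Fin N → ℝ) → α, IsMap F A K ∧
        EqOn F F' P' ∧ ∀ x ∈ A, dist (F x) (φ x) < ε) ?_ ?_
      · exact ⟨F', hF'm, fun _ _ => rfl, fun x hx => (hF'd x hx).trans_le (min_le_right _ _)⟩
      · rintro A w hA hPA hAP hwP ⟨x₀, hx₀, hx₀', hw⟩ hAw hbA ⟨F, hFm, hFe, hFd⟩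
        -- dimension of the cell
        have hdw : dm w = d := by
          have h1 : dm (car m x₀) < d + 1 := hdim x₀ hx₀ fun h => hx₀' (Or.inl h)
          have h2 : ¬ dm (car m x₀) < d := fun h => hx₀' (Or.inr ⟨hx₀, h⟩)
          rw [hw] at h1 h2
          omega
        have hbP' : bdry m w ⊆ P' := by
          intro x hx
          right
          refine ⟨hwP hx.1, ?_⟩
          have := dm_car_lt hx
          omega
        have hy : ∀ x ∈ cube m w, dist (φ x) (φ x₀) < min (δ₁ / 2) (ε / 2) := by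
          intro x hx
          rw [dist_comm]
          exact (hosc x₀ hx₀ x (hw ▸ hx)).trans_le (min_le_right _ _)
        obtain ⟨G, hGm, hGe, hGd⟩ := hU (dm w) (by omega) (φ x₀) (hφ hx₀)
          (fun t => F (emb m w t))
          ⟨hFm.cont.comp (continuous_emb m w).continuousOn
              (fun t ht => hbA (emb_mem_bdry hm ht)),
            fun t ht => hFm.maps (hbA (emb_mem_bdry hm ht))⟩
          (by
            intro t ht
            have h1 := emb_mem_bdry hm ht
            have h2 : F (emb m w t) = F' (emb m w t) := hFe (hbP' h1)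
            have h3 := (hF'd _ (hbP' h1)).trans_le (min_le_left _ _)
            have h4 := (hy _ h1.1).trans_le (min_le_left _ _)
            have h5 := dist_triangle (F (emb m w t)) (φ (emb m w t)) (φ x₀)
            rw [← h2] at h3
            show dist (F (emb m w t)) (φ x₀) < δ₁
            linarith)
        obtain ⟨F₂, h1, h2, h3⟩ := hFm.glue (A' := cube m w) hA.isClosed (isClosed_cube' m w)
          (g := fun x => G (prj m w x))
          ⟨hGm.cont.comp (continuous_prj m w).continuousOn (fun x hx => prj_mem hx),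
            fun x hx => hGm.maps (prj_mem hx)⟩
          (by
            intro x hxA hxw
            have hxb : x ∈ bdry m w := inter_cube_subset hAw ⟨hxA, hxw⟩
            show F x = G (prj m w x)
            rw [hGe (prj_mem_Bd hxb)]
            show F x = F (emb m w (prj m w x))
            rw [emb_prj hm hxw])
        refine ⟨F₂, h1, fun x hx => by rw [h2 (hPA hx), hFe hx], ?_⟩
        rintro x (hx | hx)
        · rw [h2 hx]; exact hFd x hx
        · rw [h3 hx]
          have h4 := hGd _ (prj_mem hx)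
          have h5 := (hy _ hx).trans_le (min_le_right _ _)
          have h6 := dist_triangle (G (prj m w x)) (φ x₀) (φ x)
          rw [dist_comm (φ x₀)] at h6
          show dist (G (prj m w x)) (φ x) < ε
          have h7 : dist (G (prj m w x)) (φ x₀) < ε / 2 := h4
          linarith
    obtain ⟨F, h1, h2, h3⟩ := key
    exact ⟨F, h1, fun x hx => by rw [h2 (Or.inl hx), hF'e hx], h3⟩

/-- **COARSE** -/
theorem coarse {k : ℕ} {K : Set α} (hK : ULC k K) {ε : ℝ} (hε : 0 < ε) : ∃ δ > 0,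
    ∀ {N m : ℕ} (_ : 0 < m) {P P₀ : Set (Fin N → ℝ)} (_ : IsCub m P) (_ : IsCub m P₀) (_ : P₀ ⊆ P)
      (_ : ∀ x ∈ P, x ∉ P₀ → dm (car m x) ≤ k) (φ : (Fin N → ℝ) → α) (_ : MapsTo φ P K)
      (_ : ContinuousOn φ P₀) (_ : Osc m P φ δ),
      ∃ F : (Fin N → ℝ) → α, IsMap F P K ∧ EqOn F φ P₀ ∧ ∀ x ∈ P, dist (F x) (φ x) < ε := by
  obtain ⟨δ, hδ, h⟩ := coarse_lt hK (k + 1) le_rfl ε hε
  refine ⟨δ, hδ, ?_⟩
  intro N m hm P P₀ hP hP₀ hsub hdim φ hφ hc hosc
  exact h hm hP hP₀ hsub (fun x hx hx0 => Nat.lt_succ_of_le (hdim x hx hx0)) φ hφ hc hosc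

end MG
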