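import Mathlib

/-!
# Cubical sets

Grid of mesh `1/m` in `R^N` (`m ≥ 1`).  A cube of the grid is coded by `w : Fin N → ℤ`: coordinate
`i` runs over `{w i / 2}` if `w i` is even and over `[(w i - 1)/2, (w i + 1)/2]` if `w i` is odd
(after multiplication by `m`).  `car m x` is the smallest cube containing `x`.
A (finite) cubical set of mesh `1/m` is a bounded set `P` with `cube m (car m x) ⊆ P` for `x ∈ P`.
-/

open Set Topology Metric

namespace MG

variable {N : ℕ}

/-- closed cube of the grid of mesh `1/m` with code `w` -/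
def cube (m : ℕ) (w : Fin N → ℤ) : Set (Fin N → ℝ) :=
  {x | ∀ i, ((w i / 2 : ℤ) : ℝ) ≤ m * x i ∧ m * x i ≤ (((w i + 1) / 2 : ℤ) : ℝ)}

/-- code of the smallest cube of the grid of mesh `1/m` containing `x` -/
noncomputable def car (m : ℕ) (x : Fin N → ℝ) : Fin N → ℤ := fun i => ⌊(m:ℝ) * x i⌋ + ⌈(m:ℝ) * x i⌉

/-- dimension of a cube -/
def dm (w : Fin N → ℤ) : ℕ := (Finset.univ.filter fun i => Odd (w i)).card

/-- `v` is a face of `w` -/
def Face (v w : Fin N → ℤ) : Prop := ∀ i, w i / 2 ≤ v i / 2 ∧ (v i + 1) / 2 ≤ (w i + 1) / 2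

/-- relative boundary of a cube -/
def bdry (m : ℕ) (w : Fin N → ℤ) : Set (Fin N → ℝ) := {x | x ∈ cube m w ∧ car m x ≠ w}

lemma floor_ceil (t : ℝ) : (⌊t⌋ + ⌈t⌉) / 2 = ⌊t⌋ ∧ (⌊t⌋ + ⌈t⌉ + 1) / 2 = ⌈t⌉ := by
  have h1 : ⌊t⌋ ≤ ⌈t⌉ := Int.floor_le_ceil t
  have h2 : ⌈t⌉ ≤ ⌊t⌋ + 1 := Int.ceil_le_floor_add_one t
  omega

lemma mem_cube_iff {m : ℕ} {w : Fin N → ℤ} {x : Fin N → ℝ} : x ∈ cube m w ↔ Face (car m x) w := by
  unfold cube Face car
  simp only [mem_ofPred_eq]
  refine forall_congr' fun i => ?_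
  rw [(floor_ceil _).1, (floor_ceil _).2, Int.le_floor, Int.ceil_le]

lemma Face.refl (w : Fin N → ℤ) : Face w w := fun _ => ⟨le_rfl, le_rfl⟩

lemma Face.trans {u v w : Fin N → ℤ} (h1 : Face u v) (h2 : Face v w) : Face u w :=
  fun i => ⟨(h2 i).1.trans (h1 i).1, (h1 i).2.trans (h2 i).2⟩

lemma Face.antisymm {v w : Fin N → ℤ} (h1 : Face v w) (h2 : Face w v) : v = w := by
  funext i
  have := h1 i
  have := h2 i
  omega

lemma mem_cube_car (m : ℕ) (x : Fin N → ℝ) : x ∈ cube m (car m x) := mem_cube_iff.2 (Face.refl _)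

lemma cube_subset {m : ℕ} {v w : Fin N → ℤ} (h : Face v w) : cube m v ⊆ cube m w :=
  fun _ hx => mem_cube_iff.2 ((mem_cube_iff.1 hx).trans h)

lemma Face.odd {v w : Fin N → ℤ} (h : Face v w) {i : Fin N} (hi : Odd (v i)) : Odd (w i) := by
  have := h i
  obtain ⟨a, ha⟩ := hi
  by_contra hc
  rw [Int.not_odd_iff_even] at hc
  obtain ⟨b, hb⟩ := hc
  omega

lemma Face.dm_le {v w : Fin N → ℤ} (h : Face v w) : dm v ≤ dm w := by
  apply Finset.card_le_card
  intro i hi
  simp only [Finset.mem_filter, Finset.mem_univ, true_and] at hi ⊢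
  exact h.odd hi

lemma Face.eq_of_dm {v w : Fin N → ℤ} (h : Face v w) (hd : dm w ≤ dm v) : v = w := by
  have hs : (Finset.univ.filter fun i => Odd (v i)) = (Finset.univ.filter fun i => Odd (w i)) := by
    apply Finset.eq_of_subset_of_card_le
    · intro i hi
      simp only [Finset.mem_filter, Finset.mem_univ, true_and] at hi ⊢
      exact h.odd hi
    · exact hd
  funext i
  have h1 := h i
  by_cases hw : Odd (w i)
  · have hv : Odd (v i) := by
      have : i ∈ (Finset.univ.filter fun i => Odd (v i)) := by rw [hs]; simpa using hw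
      simpa using this
    obtain ⟨a, ha⟩ := hw
    obtain ⟨b, hb⟩ := hv
    omega
  · rw [Int.not_odd_iff_even] at hw
    obtain ⟨b, hb⟩ := hw
    omega

lemma Face.dm_lt {v w : Fin N → ℤ} (h : Face v w) (hne : v ≠ w) : dm v < dm w := by
  rcases Nat.lt_or_ge (dm v) (dm w) with h1 | h1
  · exact h1
  · exact absurd (h.eq_of_dm h1) hne

lemma dm_car_le {m : ℕ} {w : Fin N → ℤ} {x : Fin N → ℝ} (hx : x ∈ cube m w) : dm (car m x) ≤ dm w :=
  (mem_cube_iff.1 hx).dm_le

lemma dm_car_lt {m : ℕ} {w : Fin N → ℤ} {x : Fin N → ℝ} (hx : x ∈ bdry m w) :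
    dm (car m x) < dm w := (mem_cube_iff.1 hx.1).dm_lt hx.2

lemma cube_eq_Icc {m : ℕ} (hm : 0 < m) (w : Fin N → ℤ) :
    cube m w = Icc (fun i => ((w i / 2 : ℤ) : ℝ) / m) (fun i => (((w i + 1) / 2 : ℤ) : ℝ) / m) := by
  have hm' : (0:ℝ) < m := by exact_mod_cast hm
  ext x
  simp only [cube, mem_ofPred_eq, mem_Icc, Pi.le_def]
  rw [← forall_and]
  refine forall_congr' fun i => ?_
  rw [div_le_iff₀ hm', le_div_iff₀ hm', mul_comm (x i)]

lemma isCompact_cube' {m : ℕ} (hm : 0 < m) (w : Fin N → ℤ) : IsCompact (cube m w) := by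
  rw [cube_eq_Icc hm]; exact isCompact_Icc

lemma isClosed_cube' (m : ℕ) (w : Fin N → ℤ) : IsClosed (cube m w) := by
  have : cube m w = ⋂ i, ({x : Fin N → ℝ | ((w i / 2 : ℤ) : ℝ) ≤ m * x i} ∩
      {x : Fin N → ℝ | m * x i ≤ (((w i + 1) / 2 : ℤ) : ℝ)}) := by
    ext x; simp [cube]
  rw [this]
  refine isClosed_iInter fun i => ?_
  refine (isClosed_le continuous_const (continuous_const.mul (continuous_apply i))).inter ?_
  exact isClosed_le (continuous_const.mul (continuous_apply i)) continuous_const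

/-- two points of a cube are `1/m`-close in every coordinate -/
lemma dist_le_of_mem_cube {m : ℕ} (hm : 0 < m) {w : Fin N → ℤ} {x y : Fin N → ℝ}
    (hx : x ∈ cube m w) (hy : y ∈ cube m w) : dist x y ≤ 1 / m := by
  have hm' : (0:ℝ) < m := by exact_mod_cast hm
  rw [dist_pi_le_iff (by positivity)]
  intro i
  have h1 := hx i
  have h2 := hy i
  have h3 : ((w i + 1) / 2 : ℤ) ≤ w i / 2 + 1 := by omega
  have h4 : (((w i + 1) / 2 : ℤ) : ℝ) ≤ ((w i / 2 : ℤ) : ℝ) + 1 := by exact_mod_cast h3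
  rw [Real.dist_eq, le_div_iff₀ hm', ← abs_of_pos hm', ← abs_mul, abs_le]
  constructor <;> nlinarith [h1.1, h1.2, h2.1, h2.2]

/-- Cubical sets of mesh `1/m`. -/
structure IsCub (m : ℕ) (P : Set (Fin N → ℝ)) : Prop where
  bdd : Bornology.IsBounded P
  sat : ∀ x ∈ P, cube m (car m x) ⊆ P

lemma IsCub.union {m : ℕ} {P Q : Set (Fin N → ℝ)} (hP : IsCub m P) (hQ : IsCub m Q) :
    IsCub m (P ∪ Q) where
  bdd := hP.bdd.union hQ.bdd
  sat := by
    rintro x (hx | hx)
    · exact (hP.sat x hx).trans subset_union_left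
    · exact (hQ.sat x hx).trans subset_union_right

lemma IsCub.inter {m : ℕ} {P Q : Set (Fin N → ℝ)} (hP : IsCub m P) (hQ : IsCub m Q) :
    IsCub m (P ∩ Q) where
  bdd := hP.bdd.subset inter_subset_left
  sat := fun x hx => subset_inter (hP.sat x hx.1) (hQ.sat x hx.2)

lemma IsCub.empty (m : ℕ) : IsCub m (∅ : Set (Fin N → ℝ)) := ⟨Bornology.isBounded_empty, by simp⟩

lemma isCub_cube {m : ℕ} (hm : 0 < m) (w : Fin N → ℤ) : IsCub m (cube m w) where
  bdd := (isCompact_cube' hm w).isBounded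
  sat := fun _ hx => cube_subset (mem_cube_iff.1 hx)

lemma isCub_bdry {m : ℕ} (hm : 0 < m) (w : Fin N → ℤ) : IsCub m (bdry m w) where
  bdd := (isCompact_cube' hm w).isBounded.subset fun _ hx => hx.1
  sat := by
    intro x hx y hy
    refine ⟨cube_subset (mem_cube_iff.1 hx.1) hy, fun h => ?_⟩
    have h1 := dm_car_lt hx
    have h2 := dm_car_le hy
    rw [h] at h2
    omega

lemma IsCub.cube_subset_of {m : ℕ} {P : Set (Fin N → ℝ)} (hP : IsCub m P) {x : Fin N → ℝ}
    {w : Fin N → ℤ} (hx : x ∈ P) (hw : car m x = w) : cube m w ⊆ P := hw ▸ hP.sat x hx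

lemma IsCub.finite_car {m : ℕ} {P : Set (Fin N → ℝ)} (hP : IsCub m P) : (car m '' P).Finite := by
  obtain ⟨B, hB⟩ := hP.bdd.exists_norm_le
  have hB0 : ∀ x ∈ P, ∀ i, |x i| ≤ B := fun x hx i => (norm_le_pi_norm x i).trans (hB x hx)
  obtain ⟨C, hC⟩ := exists_nat_ge ((m:ℝ) * |B| + 1)
  apply (Set.finite_Icc (fun _ : Fin N => (-2 * (C:ℤ))) (fun _ : Fin N => (2 * (C:ℤ)))).subset
  rintro _ ⟨x, hx, rfl⟩
  have key : ∀ i, -(C:ℝ) + 1 ≤ m * x i ∧ m * x i ≤ C - 1 := by
    intro i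
    have h1 : |(m:ℝ) * x i| ≤ m * |B| := by
      rw [abs_mul, Nat.abs_cast]
      exact mul_le_mul_of_nonneg_left ((hB0 x hx i).trans (le_abs_self B)) (Nat.cast_nonneg m)
    have := abs_le.1 h1
    constructor <;> linarith
  constructor
  · intro i
    have h := key i
    have h1 : (-(C:ℤ)) ≤ ⌊(m:ℝ) * x i⌋ := by
      rw [Int.le_floor]; push_cast; linarith
    have h2 : (-(C:ℤ)) ≤ ⌈(m:ℝ) * x i⌉ := h1.trans (Int.floor_le_ceil _)
    show -2 * (C:ℤ) ≤ ⌊(m:ℝ) * x i⌋ + ⌈(m:ℝ) * x i⌉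
    linarith
  · intro i
    have h := key i
    have h1 : ⌈(m:ℝ) * x i⌉ ≤ (C:ℤ) := by
      rw [Int.ceil_le]; push_cast; linarith
    have h2 : ⌊(m:ℝ) * x i⌋ ≤ (C:ℤ) := (Int.floor_le_ceil _).trans h1
    show ⌊(m:ℝ) * x i⌋ + ⌈(m:ℝ) * x i⌉ ≤ 2 * (C:ℤ)
    linarith

lemma IsCub.eq_iUnion {m : ℕ} {P : Set (Fin N → ℝ)} (hP : IsCub m P) :
    P = ⋃ w ∈ car m '' P, cube m w := by
  apply Subset.antisymm
  · intro x hx
    exact mem_biUnion (mem_image_of_mem _ hx) (mem_cube_car m x)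
  · apply iUnion₂_subset
    rintro _ ⟨x, hx, rfl⟩
    exact hP.sat x hx

lemma IsCub.isClosed {m : ℕ} {P : Set (Fin N → ℝ)} (hP : IsCub m P) : IsClosed P := by
  rw [hP.eq_iUnion]
  exact hP.finite_car.isClosed_biUnion fun w _ => isClosed_cube' m w

lemma IsCub.isCompact {m : ℕ} {P : Set (Fin N → ℝ)} (hP : IsCub m P) : IsCompact P :=
  Metric.isCompact_of_isClosed_isBounded hP.isClosed hP.bdd

/-- a finite union of cubes is cubical -/
lemma isCub_biUnion {m : ℕ} (hm : 0 < m) {W : Set (Fin N → ℤ)} (hW : W.Finite) :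
    IsCub m (⋃ w ∈ W, cube m w) where
  bdd := (Bornology.isBounded_biUnion hW).2 fun w _ => (isCompact_cube' hm w).isBounded
  sat := by
    intro x hx
    simp only [mem_iUnion, exists_prop] at hx
    obtain ⟨w, hw, hx⟩ := hx
    exact (cube_subset (mem_cube_iff.1 hx)).trans (subset_biUnion_of_mem (u := fun w => cube m w) hw)

/-- a saturated subset of a cubical set -/
lemma IsCub.sub {m : ℕ} {P A : Set (Fin N → ℝ)} (hP : IsCub m P) (hA : A ⊆ P)
    (h : ∀ x ∈ A, cube m (car m x) ⊆ A) : IsCub m A := ⟨hP.bdd.subset hA, h⟩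

/-- skeleton -/
lemma IsCub.skel {m : ℕ} {P : Set (Fin N → ℝ)} (hP : IsCub m P) (j : ℕ) :
    IsCub m {x | x ∈ P ∧ dm (car m x) ≤ j} := by
  refine hP.sub (fun x hx => hx.1) fun x hx y hy => ?_
  exact ⟨hP.sat x hx.1 hy, (dm_car_le hy).trans hx.2⟩

/-- the cube meets the rest only in its boundary -/
lemma inter_cube_subset {m : ℕ} {A : Set (Fin N → ℝ)} {w : Fin N → ℤ}
    (h : ∀ x ∈ A, car m x ≠ w) : A ∩ cube m w ⊆ bdry m w := fun _ hx => ⟨hx.2, h _ hx.1⟩

/-- **Cell by cell induction.** -/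
theorem cell_induction {m : ℕ} {P P₀ : Set (Fin N → ℝ)} (hP : IsCub m P)
    (hP₀ : IsCub m P₀) (hsub : P₀ ⊆ P) (motive : Set (Fin N → ℝ) → Prop) (base : motive P₀)
    (step : ∀ A w, IsCub m A → P₀ ⊆ A → A ⊆ P → cube m w ⊆ P → (∃ x ∈ P, x ∉ P₀ ∧ car m x = w) →
      (∀ x ∈ A, car m x ≠ w) → bdry m w ⊆ A → motive A → motive (A ∪ cube m w)) : motive P := by
  -- induction on the number of missing cubes
  have main : ∀ n : ℕ, ∀ A, IsCub m A → P₀ ⊆ A → A ⊆ P → motive A →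
      (car m '' (P \ A)).ncard = n → motive P := by
    intro n
    induction n using Nat.strong_induction_on with
    | _ n ih =>
      intro A hA h0 hAP hmA hcard
      by_cases hPA : P ⊆ A
      · rw [Subset.antisymm hPA hAP]; exact hmA
      · have hfin : (car m '' (P \ A)).Finite := hP.finite_car.subset (image_mono sdiff_subset)
        have hne : (car m '' (P \ A)).Nonempty := by
          obtain ⟨x, hx, hxA⟩ := not_subset.1 hPA
          exact ⟨_, x, ⟨hx, hxA⟩, rfl⟩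
        obtain ⟨w, hw, hmin⟩ := exists_min_image _ dm hfin hne
        obtain ⟨x, ⟨hxP, hxA⟩, rfl⟩ := hw
        have hnot : ∀ y ∈ A, car m y ≠ car m x := fun y hy h =>
          hxA (hA.sat y hy (h ▸ mem_cube_car m x))
        have hb : bdry m (car m x) ⊆ A := by
          intro y hy
          by_contra hyA
          have h1 := hmin (car m y) ⟨y, ⟨hP.sat x hxP hy.1, hyA⟩, rfl⟩
          have h2 := dm_car_lt hy
          omega
        have hcub : IsCub m (A ∪ cube m (car m x)) := by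
          refine hP.sub (union_subset hAP (hP.sat x hxP)) ?_
          rintro y (hy | hy)
          · exact (hA.sat y hy).trans subset_union_left
          · exact (cube_subset (mem_cube_iff.1 hy)).trans subset_union_right
        have hmot := step A (car m x) hA h0 hAP (hP.sat x hxP)
          ⟨x, hxP, fun h => hxA (h0 h), rfl⟩ hnot hb hmA
        refine ih _ ?_ (A ∪ cube m (car m x)) hcub (h0.trans subset_union_left)
          (union_subset hAP (hP.sat x hxP)) hmot rfl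
        rw [← hcard]
        apply Set.ncard_lt_ncard _ hfin
        refine ⟨image_mono (sdiff_subset_sdiff_right subset_union_left), fun h => ?_⟩
        obtain ⟨y, ⟨_, hyA⟩, hy⟩ := h ⟨x, ⟨hxP, hxA⟩, rfl⟩
        apply hyA
        right
        rw [← hy]
        exact mem_cube_car m y
  exact main _ P₀ hP₀ Subset.rfl hsub base rfl

end MG
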