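import Pool.Agent.Work.MP_017613_gt.Abs2Defs
import Pool.Agent.Work.MP_017613_gt.Kit.GridPush
import Pool.Agent.Work.MP_017613_gt.Kit.Hep
import Pool.Agent.Work.MP_017613_gt.Coarse

/-!
# The inclusion of `K ∪` cones over the `k`-skeleton into `K ∪` cells is fine
-/

open Set Metric Topology

namespace MG.Abs2

open Pool.Agent.Work.MP_017613_gt (PushOff pushOff_of_finrank)
open Pool.Agent.Work.MP_017613_gt.T6

/-! ### The radial reparametrisation -/

/-- the stretched radius: `0` for `ρ ≤ η`, `1` for `ρ ≥ 1 - η` -/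
noncomputable def Rr (η ρ : ℝ) : ℝ := max 0 (min 1 ((ρ - η) / (1 - 2 * η)))

/-- the multiplier -/
noncomputable def mu' (η ρ : ℝ) : ℝ := Rr η ρ / max ρ η

section Rr

variable {η : ℝ}

lemma Rr_nonneg (ρ : ℝ) : 0 ≤ Rr η ρ := le_max_left _ _

lemma Rr_le_one (ρ : ℝ) : Rr η ρ ≤ 1 := max_le zero_le_one (min_le_left _ _)

lemma Rr_of_le (hη : 0 < η) (hη' : η < 1 / 4) {ρ : ℝ} (h : ρ ≤ η) : Rr η ρ = 0 := by
  unfold Rr
  apply max_eq_left
  refine (min_le_right _ _).trans ?_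
  apply div_nonpos_of_nonpos_of_nonneg <;> linarith

lemma Rr_of_ge (hη : 0 < η) (hη' : η < 1 / 4) {ρ : ℝ} (h : 1 - η ≤ ρ) : Rr η ρ = 1 := by
  unfold Rr
  have h1 : 1 ≤ (ρ - η) / (1 - 2 * η) := by
    rw [le_div_iff₀ (by linarith)]
    linarith
  rw [min_eq_left h1]
  exact max_eq_right zero_le_one

lemma Rr_close (hη : 0 < η) (hη' : η < 1 / 4) {ρ : ℝ} (h0 : 0 ≤ ρ) (h1 : ρ ≤ 1) :
    |ρ - Rr η ρ| ≤ η := by
  rcases le_total ρ η with h | h
  · rw [Rr_of_le hη hη' h, abs_le]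
    constructor <;> linarith
  · rcases le_total (1 - η) ρ with h2 | h2
    · rw [Rr_of_ge hη hη' h2, abs_le]
      constructor <;> linarith
    · have h3 : 0 < 1 - 2 * η := by linarith
      have h4 : Rr η ρ = (ρ - η) / (1 - 2 * η) := by
        unfold Rr
        rw [min_eq_right, max_eq_right]
        · exact div_nonneg (by linarith) h3.le
        · rw [div_le_one h3]; linarith
      rw [h4]
      have h5 : ρ - (ρ - η) / (1 - 2 * η) = η * (1 - 2 * ρ) / (1 - 2 * η) := by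
        rw [eq_div_iff h3.ne', sub_mul, div_mul_cancel₀ _ h3.ne']
        ring
      rw [h5, abs_div, abs_mul, abs_of_pos hη, abs_of_pos h3, div_le_iff₀ h3]
      apply mul_le_mul_of_nonneg_left _ hη.le
      rw [abs_le]
      constructor <;> linarith

lemma continuous_Rr : Continuous (Rr η) := by
  unfold Rr; fun_prop

lemma continuous_mu' (hη : 0 < η) : Continuous (mu' η) := by
  unfold mu'
  refine continuous_Rr.div (by fun_prop) fun ρ => ?_
  have : η ≤ max ρ η := le_max_right _ _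
  linarith

lemma mu'_nonneg (hη : 0 < η) (ρ : ℝ) : 0 ≤ mu' η ρ :=
  div_nonneg (Rr_nonneg ρ) (hη.le.trans (le_max_right _ _))

lemma mu'_mul (hη : 0 < η) (hη' : η < 1 / 4) {ρ : ℝ} : mu' η ρ * ρ = Rr η ρ := by
  unfold mu'
  rcases le_total ρ η with h | h
  · rw [Rr_of_le hη hη' h, zero_div, zero_mul]
  · rw [max_eq_left h, div_mul_cancel₀]
    linarith

lemma mu'_of_le (hη : 0 < η) (hη' : η < 1 / 4) {ρ : ℝ} (h : ρ ≤ η) : mu' η ρ = 0 := by
  unfold mu'
  rw [Rr_of_le hη hη' h, zero_div]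

lemma mu'_one (hη : 0 < η) (hη' : η < 1 / 4) : mu' η 1 = 1 := by
  unfold mu'
  rw [Rr_of_ge hη hη' (by linarith), max_eq_left (by linarith), div_one]

end Rr

/-- the stretching homotopy of the cube -/
noncomputable def str {n : ℕ} (η τ : ℝ) (z : Fin n → ℝ) : Fin n → ℝ :=
  chom ((1 - τ) + τ * mu' η (crad z)) z

section str

variable {n : ℕ} {η τ : ℝ}

lemma continuous_str (hη : 0 < η) :
    Continuous fun p : (Fin n → ℝ) × ℝ => str η p.2 p.1 := by
  unfold str
  refine continuous_chom_uncurry.comp (Continuous.prodMk ?_ continuous_fst)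
  have h1 := (continuous_mu' hη).comp ((continuous_crad (j := n)).comp
    (continuous_fst (X := Fin n → ℝ) (Y := ℝ)))
  exact (continuous_const.sub continuous_snd).add (continuous_snd.mul h1)

lemma crad_str (hη : 0 < η) (hη' : η < 1 / 4) (h0 : 0 ≤ τ) (h1 : τ ≤ 1) (z : Fin n → ℝ) :
    crad (str η τ z) = (1 - τ) * crad z + τ * Rr η (crad z) := by
  unfold str
  have h2 := mu'_nonneg hη (crad z)
  rw [crad_chom (by nlinarith), add_mul, mul_assoc, mu'_mul hη hη']

lemma str_mem (hη : 0 < η) (hη' : η < 1 / 4) (h0 : 0 ≤ τ) (h1 : τ ≤ 1) {z : Fin n → ℝ}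
    (hz : z ∈ Cu n) : str η τ z ∈ Cu n := by
  rw [mem_Cu_crad, crad_str hη hη' h0 h1]
  have h2 := mem_Cu_crad.1 hz
  have h3 := Rr_le_one (η := η) (crad z)
  nlinarith [crad_nonneg z, Rr_nonneg (η := η) (crad z)]

lemma str_zero (z : Fin n → ℝ) : str η 0 z = z := by
  unfold str
  rw [zero_mul, sub_zero, add_zero, chom_one]

lemma str_bdry (hη : 0 < η) (hη' : η < 1 / 4) {z : Fin n → ℝ} (hz : z ∈ dCu n) :
    str η τ z = z := by
  unfold str
  rw [mem_dCu_crad.1 hz, mu'_one hη hη']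
  have : (1 - τ) + τ * 1 = 1 := by ring
  rw [this, chom_one]

lemma dist_str (hη : 0 < η) (hη' : η < 1 / 4) (h0 : 0 ≤ τ) (h1 : τ ≤ 1) {z : Fin n → ℝ}
    (hz : z ∈ Cu n) : dist (str η τ z) z ≤ η := by
  unfold str
  rw [dist_comm, dist_chom]
  have h2 := crad_nonneg z
  have h3 := mem_Cu_crad.1 hz
  have h4 := Rr_close hη hη' h2 h3
  have h5 : |1 - ((1 - τ) + τ * mu' η (crad z))| * (crad z / 2) =
      τ * |crad z - Rr η (crad z)| / 2 := by
    rw [← mu'_mul hη hη' (ρ := crad z)]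
    have e1 : 1 - ((1 - τ) + τ * mu' η (crad z)) = τ * (1 - mu' η (crad z)) := by ring
    have e2 : crad z - mu' η (crad z) * crad z = (1 - mu' η (crad z)) * crad z := by ring
    rw [e1, e2, abs_mul, abs_mul, abs_of_nonneg h0, abs_of_nonneg h2]
    ring
  rw [h5]
  nlinarith [abs_nonneg (crad z - Rr η (crad z))]

lemma chom_eq_ccn (m : ℝ) (z : Fin n → ℝ) : chom m z = ccn (ce n) z (1 - m) := by
  unfold chom ccn ce
  rw [sub_sub_cancel]

lemma ccn_eq_chom (t : ℝ) (z : Fin n → ℝ) : ccn (ce n) z t = chom (1 - t) z := by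
  unfold chom ccn ce
  rfl

end str

/-! ### Functions on `V` -/

section main

variable {α : Type*} [MetricSpace α] {p k n : ℕ} {K V : Set α} {χ : Fin p → (Fin n → ℝ) → α}

/-- the stretching homotopy of `V` -/
lemma exists_G (hK : IsClosed K) (hF : Fam (Cu n) (dCu n) K V χ) {η : ℝ} (hη : 0 < η)
    (hη' : η < 1 / 4) :
    ∃ G : α × ℝ → α, IsMap G (V ×ˢ Icc (0:ℝ) 1) V ∧
      (∀ v ∈ K, ∀ τ ∈ Icc (0:ℝ) 1, G (v, τ) = v) ∧
      ∀ i, ∀ z ∈ Cu n, ∀ τ ∈ Icc (0:ℝ) 1, G (χ i z, τ) = χ i (str η τ z) := by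
  obtain ⟨G, hG1, hG2, hG3⟩ := (hF.prodSet (Icc (0:ℝ) 1)).glueMap
    ((isCompact_Cu n).prod isCompact_Icc) (hK.prod isClosed_Icc) (T := V)
    (F0 := fun q => q.1) ⟨continuousOn_fst, fun q hq => hF.subset hq.1⟩
    (G := fun i q => χ i (str η q.2 q.1))
    (fun i => ⟨(hF.cont i).comp (continuous_str hη).continuousOn
      (fun q hq => str_mem hη hη' hq.2.1 hq.2.2 hq.1),
      fun q hq => hF.maps i (str_mem hη hη' hq.2.1 hq.2.2 hq.1)⟩)
    (fun i q hq => by
      show χ i (str η q.2 q.1) = χ i q.1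
      rw [str_bdry hη hη' hq.1])
  exact ⟨G, hG1, fun v hv τ hτ => hG2 ⟨hv, hτ⟩, fun i z hz τ hτ => hG3 i (z, τ) ⟨hz, hτ⟩⟩

/-- the radius -/
lemma exists_rho (hK : IsClosed K) (hF : Fam (Cu n) (dCu n) K V χ) :
    ∃ ρ : α → ℝ, ContinuousOn ρ V ∧ (∀ v ∈ K, ρ v = 1) ∧
      ∀ i, ∀ z ∈ Cu n, ρ (χ i z) = crad z := by
  obtain ⟨ρ, h1, h2, h3⟩ := hF.glue (isCompact_Cu n) hK (F0 := fun _ => (1:ℝ))
    continuousOn_const (G := fun _ z => crad z) (fun i => continuous_crad.continuousOn)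
    (fun i z hz => mem_dCu_crad.1 hz)
  exact ⟨ρ, h1, h2, h3⟩

/-- the direction -/
lemma exists_D (hK : IsClosed K) (hF : Fam (Cu n) (dCu n) K V χ) {η : ℝ} (hη : 0 < η)
    (hη' : η < 1 / 4) :
    ∃ D : α → (Fin n → ℝ), ContinuousOn D V ∧
      ∀ i, ∀ z ∈ Cu n, η / 2 ≤ crad z → crad z ≤ 1 - η / 2 → D (χ i z) = chom (1 / crad z) z := by
  let g : ℝ → ℝ := fun ρ => min 1 ((1 - ρ) / (η / 2)) / max ρ (η / 2)
  have hg : Continuous g := by
    refine Continuous.div (by fun_prop) (by fun_prop) fun ρ => ?_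
    have : η / 2 ≤ max ρ (η / 2) := le_max_right _ _
    have h0 : 0 < η / 2 := by linarith
    exact (h0.trans_le this).ne'
  obtain ⟨D, h1, h2, h3⟩ := hF.glue (isCompact_Cu n) hK (F0 := fun _ => chom (0:ℝ) (0 : Fin n → ℝ))
    continuousOn_const (G := fun _ z => chom (g (crad z)) z)
    (fun i => (continuous_chom_uncurry.comp
      ((hg.comp continuous_crad).prodMk continuous_id)).continuousOn)
    (fun i z hz => by
      have h4 : g (crad z) = 0 := by
        simp only [g, mem_dCu_crad.1 hz, sub_self, zero_div]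
        rw [min_eq_right zero_le_one, zero_div]
      show chom (g (crad z)) z = chom 0 0
      rw [h4]
      unfold chom
      simp)
  refine ⟨D, h1, ?_⟩
  intro i z hz h4 h5
  rw [h3 i z hz]
  have h6 : g (crad z) = 1 / crad z := by
    simp only [g]
    rw [max_eq_left h4, min_eq_left]
    rw [le_div_iff₀ (by linarith)]
    linarith
  show chom (g (crad z)) z = _
  rw [h6]

lemma cube_combo {m : ℕ} {w : Fin n → ℤ} {x y : Fin n → ℝ} (hx : x ∈ cube m w)
    (hy : y ∈ cube m w) {s : ℝ} (h0 : 0 ≤ s) (h1 : s ≤ 1) : x + s • (y - x) ∈ cube m w := by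
  intro i
  have h2 := hx i
  have h3 := hy i
  have e : (m:ℝ) * (x + s • (y - x)) i = (1 - s) * (m * x i) + s * (m * y i) := by
    simp only [Pi.add_apply, Pi.smul_apply, Pi.sub_apply, smul_eq_mul]
    ring
  rw [e]
  constructor
  · nlinarith [h2.1, h3.1]
  · nlinarith [h2.2, h3.2]

lemma zero_mem_Ak (hn : 1 ≤ n) (m : ℕ) : (0 : Fin n → ℝ) ∈ Ak k n m := by
  refine ⟨⟨?_, ⟨0, hn⟩, Or.inl rfl⟩, ?_⟩
  · rw [mem_Cu]
    intro i
    simp
  · have : dm (car m (0 : Fin n → ℝ)) = 0 := by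
      unfold dm
      rw [Finset.card_eq_zero, Finset.filter_eq_empty_iff]
      intro i _
      simp [car]
    rw [this]
    exact Nat.zero_le _

/-- uniform modulus of the characteristic maps -/
lemma exists_modulus (hF : Fam (Cu n) (dCu n) K V χ) {ε : ℝ} (hε : 0 < ε) :
    ∃ θ > 0, ∀ i, ∀ z ∈ Cu n, ∀ z' ∈ Cu n, dist z z' < θ → dist (χ i z) (χ i z') < ε := by
  have h1 : ∀ i, ∃ θ > 0, ∀ z ∈ Cu n, ∀ z' ∈ Cu n, dist z z' < θ →
      dist (χ i z) (χ i z') < ε := by
    intro i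
    have := Metric.uniformContinuousOn_iff.1
      ((isCompact_Cu n).uniformContinuousOn_of_continuous (hF.cont i)) ε hε
    exact this
  choose θ hθ hθ' using h1
  rcases Nat.eq_zero_or_pos p with rfl | hp
  · exact ⟨1, one_pos, fun i => i.elim0⟩
  · have : Nonempty (Fin p) := ⟨⟨0, hp⟩⟩
    obtain ⟨i₀, hi₀⟩ := Finite.exists_min θ
    exact ⟨θ i₀, hθ i₀, fun i z hz z' hz' h => hθ' i z hz z' hz' (h.trans_le (hi₀ i))⟩

/-- a point of a cone over `Ak` in a cell -/
lemma pr_mem_Ak (hF : Fam (Cu n) (dCu n) K V χ) {m : ℕ} {i : Fin p} {z : Fin n → ℝ}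
    (hz : z ∈ Cu n) (h0 : 0 < crad z) (h1 : crad z < 1) (h : χ i z ∈ KA k m K χ) :
    chom (1 / crad z) z ∈ Ak k n m := by
  have hzd : z ∉ dCu n := fun h2 => by rw [mem_dCu_crad] at h2; linarith
  rcases h with h | ⟨i', a, ha, t, ht0, ht1, h⟩
  · exact (hF.off i z hz hzd h).elim
  · rw [ccn_eq_chom] at h
    have hca : crad a = 1 := mem_dCu_crad.1 ha.1
    have hcr : crad (chom (1 - t) a) = 1 - t := by
      rw [crad_chom (by linarith), hca, mul_one]
    have hw : chom (1 - t) a ∈ Cu n := by rw [mem_Cu_crad, hcr]; linarith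
    by_cases hwd : chom (1 - t) a ∈ dCu n
    · exact (hF.off i z hz hzd (h ▸ hF.bdry i' hwd)).elim
    · obtain ⟨_, h3⟩ := hF.inj i' i _ _ hw hwd hz hzd h
      rw [← h3, hcr, chom_chom, one_div, inv_mul_cancel₀, chom_one]
      · exact ha
      · rw [← h3, hcr] at h0
        exact h0.ne'

/-- **The inclusion is fine.** -/
theorem incl (hn : 1 ≤ n) (hK : IsClosed K) (hF : Fam (Cu n) (dCu n) K V χ) {ε : ℝ}
    (hε : 0 < ε) : ∃ m : ℕ, 0 < m ∧ L k (fun v => v) (KA k m K χ) V ε := by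
  classical
  obtain ⟨θ, hθ, hθ'⟩ := exists_modulus hF (show (0:ℝ) < ε / 4 by positivity)
  obtain ⟨η, hη, hη', hηθ⟩ : ∃ η : ℝ, 0 < η ∧ η < 1 / 4 ∧ η < θ / 2 :=
    ⟨min (1 / 8) (θ / 4), by positivity, (min_le_left _ _).trans_lt (by norm_num),
      (min_le_right _ _).trans_lt (by linarith)⟩
  obtain ⟨m, hm⟩ := exists_nat_gt (2 / θ)
  have hm0 : (0:ℝ) < m := lt_trans (by positivity) hm
  have hmN : 0 < m := by exact_mod_cast hm0
  have hmθ : 1 / (m:ℝ) < θ / 2 := by
    rw [div_lt_iff₀ hm0]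
    rw [div_lt_iff₀ hθ] at hm
    linarith
  refine ⟨m, hmN, ?_⟩
  intro j hj f f₀ hf hf₀ hff
  obtain ⟨G, hG, hGK, hGχ⟩ := exists_G hK hF hη hη'
  obtain ⟨ρ, hρ, hρK, hρχ⟩ := exists_rho hK hF
  obtain ⟨D, hD, hDχ⟩ := exists_D hK hF hη hη'
  have hI0 : (0:ℝ) ∈ Icc (0:ℝ) 1 := ⟨le_rfl, zero_le_one⟩
  have hI1 : (1:ℝ) ∈ Icc (0:ℝ) 1 := ⟨zero_le_one, le_rfl⟩
  have hcub : IsCub m (dCu n) := isCub_dCu hmN n
  -- representation of the points off `K`
  have hrep : ∀ v ∈ V, ρ v < 1 → ∃ i, ∃ z ∈ Cu n, z ∉ dCu n ∧ χ i z = v ∧ crad z = ρ v := by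
    intro v hv h1
    have hvK : v ∉ K := fun h => by rw [hρK v h] at h1; exact lt_irrefl _ h1
    obtain ⟨i, z, hz, hzd, rfl⟩ := hF.exists_rep hv hvK
    exact ⟨i, z, hz, hzd, rfl, (hρχ i z hz).symm⟩
  -- `G` moves little
  have hGd : ∀ v ∈ V, ∀ τ ∈ Icc (0:ℝ) 1, dist (G (v, τ)) v < ε / 4 := by
    intro v hv τ hτ
    by_cases hvK : v ∈ K
    · rw [hGK v hvK τ hτ, dist_self]; positivity
    · obtain ⟨i, z, hz, hzd, rfl⟩ := hF.exists_rep hv hvK
      rw [hGχ i z hz τ hτ]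
      refine hθ' i _ (str_mem hη hη' hτ.1 hτ.2 hz) _ hz ?_
      exact (dist_str hη hη' hτ.1 hτ.2 hz).trans_lt (by linarith)
  have hG0 : ∀ v ∈ V, G (v, 0) = v := by
    intro v hv
    by_cases hvK : v ∈ K
    · exact hGK v hvK 0 hI0
    · obtain ⟨i, z, hz, hzd, rfl⟩ := hF.exists_rep hv hvK
      rw [hGχ i z hz 0 hI0, str_zero]
  -- `G` preserves `KA`
  have hKAV : KA k m K χ ⊆ V := by
    rintro v (hv | ⟨i, a, ha, t, ht0, ht1, rfl⟩)
    · exact hF.subset hv
    · refine hF.maps i ?_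
      rw [ccn_eq_chom, mem_Cu_crad, crad_chom (by linarith), mem_dCu_crad.1 ha.1]
      linarith
  have hcone : ∀ i, ∀ a ∈ Ak k n m, ∀ c, 0 ≤ c → c ≤ 1 → χ i (chom c a) ∈ KA k m K χ := by
    intro i a ha c h0 h1
    refine Or.inr ⟨i, a, ha, 1 - c, by linarith, by linarith, ?_⟩
    rw [ccn_eq_chom, sub_sub_cancel]
  have hGKA : ∀ v ∈ KA k m K χ, ∀ τ ∈ Icc (0:ℝ) 1, G (v, τ) ∈ KA k m K χ := by
    rintro v (hv | ⟨i, a, ha, t, ht0, ht1, rfl⟩) τ hτ
    · rw [hGK v hv τ hτ]; exact Or.inl hv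
    · have hca : crad a = 1 := mem_dCu_crad.1 ha.1
      have hcr : crad (chom (1 - t) a) = 1 - t := by
        rw [crad_chom (by linarith), hca, mul_one]
      have hw : chom (1 - t) a ∈ Cu n := by rw [mem_Cu_crad, hcr]; linarith
      rw [ccn_eq_chom, hGχ i _ hw τ hτ]
      have h1 := crad_str hη hη' hτ.1 hτ.2 (chom (1 - t) a)
      have h2 : str η τ (chom (1 - t) a) =
          chom (((1 - τ) + τ * mu' η (crad (chom (1 - t) a))) * (1 - t)) a := by
        unfold str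
        rw [chom_chom]
      have h3 := mu'_nonneg hη (crad (chom (1 - t) a))
      have h4 : 0 ≤ ((1 - τ) + τ * mu' η (crad (chom (1 - t) a))) * (1 - t) := by
        apply mul_nonneg _ (by linarith)
        have := hτ.1
        have := hτ.2
        nlinarith
      rw [h2]
      refine hcone i a ha _ h4 ?_
      have h5 := mem_Cu_crad.1 (str_mem hη hη' hτ.1 hτ.2 hw)
      rw [h2, crad_chom h4, hca, mul_one] at h5
      exact h5
  -- the region where the direction has to be pushed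
  have hρf : ContinuousOn (fun x => ρ (f x)) (Cu j) := hρ.comp hf.cont hf.maps
  obtain ⟨P, hP⟩ : ∃ P : Set (Fin j → ℝ), P = {x | x ∈ Cu j ∧ ρ (f x) ∈
      Icc (η / 2) (1 - η / 2)} := ⟨_, rfl⟩
  have hP' : ∀ x, x ∈ P ↔ x ∈ Cu j ∧ ρ (f x) ∈ Icc (η / 2) (1 - η / 2) := by
    intro x; rw [hP]; rfl
  have hPC : P ⊆ Cu j := fun x hx => ((hP' x).1 hx).1
  have clP : IsClosed P := by
    rw [hP]
    exact hρf.preimage_isClosed_of_isClosed (isClosed_Cu j) isClosed_Icc
  have cP : IsCompact P := (isCompact_Cu j).of_isClosed_subset clP hPC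
  have dP : PushOff k P := by
    refine pushOff_of_finrank ?_ cP
    rw [Module.finrank_fin_fun]
    exact hj
  have ha : ContinuousOn (fun x => D (f x)) P := (hD.comp hf.cont hf.maps).mono hPC
  obtain ⟨b₀, cb₀, hb₀, hb₀k, hb₀e⟩ := grid_push hmN cP dP ha
  -- direction at the points of `P`
  have hrepP : ∀ x ∈ P, ∃ i, ∃ z ∈ Cu n, z ∉ dCu n ∧ χ i z = f x ∧ crad z = ρ (f x) ∧
      D (f x) = chom (1 / crad z) z ∧ D (f x) ∈ dCu n := by
    intro x hx
    obtain ⟨hxC, hx1, hx2⟩ := (hP' x).1 hx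
    obtain ⟨i, z, hz, hzd, hzf, hzρ⟩ := hrep (f x) (hf.maps hxC) (by linarith)
    have h1 := hDχ i z hz (by rw [hzρ]; exact hx1) (by rw [hzρ]; exact hx2)
    rw [hzf] at h1
    refine ⟨i, z, hz, hzd, hzf, hzρ, h1, ?_⟩
    have h2 : 0 < crad z := by rw [hzρ]; linarith
    rw [h1, mem_dCu_crad, crad_chom (by positivity), one_div, inv_mul_cancel₀ h2.ne']
  -- the blended direction
  let sc : ℝ → ℝ := fun r => max 0 (min 1 ((r - (1 - η)) / (η / 2)))
  have hsc : Continuous sc := by simp only [sc]; fun_prop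
  have hsc0 : ∀ r, 0 ≤ sc r := fun r => le_max_left _ _
  have hsc1 : ∀ r, sc r ≤ 1 := fun r => max_le zero_le_one (min_le_left _ _)
  have hscl : ∀ r, r ≤ 1 - η → sc r = 0 := by
    intro r hr
    refine max_eq_left ((min_le_right _ _).trans ?_)
    apply div_nonpos_of_nonpos_of_nonneg <;> linarith
  have hscg : ∀ r, 1 - η / 2 ≤ r → sc r = 1 := by
    intro r hr
    have : 1 ≤ (r - (1 - η)) / (η / 2) := by
      rw [le_div_iff₀ (by linarith)]; linarith
    simp only [sc]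
    rw [min_eq_left this]
    exact max_eq_right zero_le_one
  let b : (Fin j → ℝ) → (Fin n → ℝ) := fun x => b₀ x + sc (ρ (f x)) • (D (f x) - b₀ x)
  have cb : ContinuousOn b P :=
    cb₀.add ((hsc.comp_continuousOn (hρf.mono hPC)).smul (ha.sub cb₀))
  have hbc : ∀ x ∈ P, b x ∈ cube m (car m (D (f x))) := fun x hx =>
    cube_combo (hb₀ x hx) (mem_cube_car m _) (hsc0 _) (hsc1 _)
  have hbd : ∀ x ∈ P, b x ∈ dCu n := fun x hx => by
    obtain ⟨i, z, hz, hzd, hzf, hzρ, h1, h2⟩ := hrepP x hx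
    exact hcub.sat _ h2 (hbc x hx)
  let w : (Fin j → ℝ) → (Fin n → ℝ) := fun x => chom (Rr η (ρ (f x))) (b x)
  have cw : ContinuousOn w P :=
    continuous_chom_uncurry.comp_continuousOn
      ((continuous_Rr.comp_continuousOn (hρf.mono hPC)).prodMk cb)
  have hw : ∀ x ∈ P, w x ∈ Cu n := by
    intro x hx
    rw [mem_Cu_crad, crad_chom (Rr_nonneg _), mem_dCu_crad.1 (hbd x hx), mul_one]
    exact Rr_le_one _
  -- the shell
  let Sh : Set (Fin n → ℝ) := {z | z ∈ Cu n ∧ η / 2 ≤ crad z ∧ crad z ≤ 1 - η / 2}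
  have hSh : IsCompact Sh := by
    refine (isCompact_Cu n).of_isClosed_subset ?_ fun z hz => hz.1
    exact (isClosed_Cu n).inter ((isClosed_le continuous_const continuous_crad).inter
      (isClosed_le continuous_crad continuous_const))
  have hShd : ∀ z ∈ Sh, z ∉ dCu n := fun z hz h => by
    rw [mem_dCu_crad] at h
    have := hz.2.2
    linarith
  let F₁ : (Fin j → ℝ) → α := fun x => if h : ∃ i, f x ∈ χ i '' Sh then χ h.choose (w x) else
    G (f x, 1)
  have hF₁a : ∀ x i, f x ∈ χ i '' Sh → F₁ x = χ i (w x) := by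
    intro x i hx
    have h : ∃ i, f x ∈ χ i '' Sh := ⟨i, hx⟩
    have h1 : h.choose = i := by
      obtain ⟨z, hz, hzf⟩ := h.choose_spec
      obtain ⟨z', hz', hzf'⟩ := hx
      exact (hF.inj _ _ _ _ hz.1 (hShd z hz) hz'.1 (hShd z' hz') (hzf.trans hzf'.symm)).1
    simp only [F₁, dif_pos h, h1]
  have hF₁b : ∀ x, (¬ ∃ i, f x ∈ χ i '' Sh) → F₁ x = G (f x, 1) := fun x h => by
    simp only [F₁, dif_neg h]
  -- near the inner and the outer sphere both formulas agree
  have hF₁c : ∀ x ∈ Cu j, (ρ (f x) ≤ η / 2 ∨ 1 - η / 2 ≤ ρ (f x)) → F₁ x = G (f x, 1) := by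
    intro x hx hr
    by_cases h : ∃ i, f x ∈ χ i '' Sh
    · obtain ⟨i, z, hz, hzf⟩ := h
      rw [hF₁a x i ⟨z, hz, hzf⟩, ← hzf, hGχ i z hz.1 1 hI1]
      have hρz : ρ (f x) = crad z := by rw [← hzf]; exact hρχ i z hz.1
      have e1 : str η 1 z = chom (mu' η (crad z)) z := by
        unfold str
        rw [sub_self, one_mul, zero_add]
      rw [e1]
      show χ i (chom (Rr η (ρ (f x))) (b x)) = _
      rw [hρz] at hr ⊢
      rcases hr with hr | hr
      · rw [Rr_of_le hη hη' (by linarith), mu'_of_le hη hη' (by linarith)]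
        unfold chom
        rw [zero_smul, zero_smul]
      · have e2 : b x = D (f x) := by
          show b₀ x + sc (ρ (f x)) • (D (f x) - b₀ x) = _
          rw [hρz, hscg _ hr, one_smul]
          abel
        rw [e2, ← hzf, hDχ i z hz.1 hz.2.1 hz.2.2, chom_chom]
        congr 2
        rw [← mu'_mul hη hη', mul_assoc, mul_one_div_cancel, mul_one]
        linarith
    · exact hF₁b x h
  -- continuity of `F₁`
  have hPT : ∀ x i, x ∈ Cu j → f x ∈ χ i '' Sh → x ∈ P := by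
    rintro x i hx ⟨z, hz, hzf⟩
    rw [hP']
    refine ⟨hx, ?_⟩
    rw [← hzf, hρχ i z hz.1]
    exact hz.2
  have cF₁ : ContinuousOn F₁ (Cu j) := by
    have hcov : Cu j = (⋃ i, {x | x ∈ Cu j ∧ f x ∈ χ i '' Sh}) ∪
        {x | x ∈ Cu j ∧ ρ (f x) ∈ Iic (η / 2) ∪ Ici (1 - η / 2)} := by
      ext x
      simp only [mem_union, mem_iUnion, mem_ofPred_eq, mem_Iic, mem_Ici]
      constructor
      · intro hx
        rcases le_total (ρ (f x)) (η / 2) with h1 | h1
        · exact Or.inr ⟨hx, Or.inl h1⟩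
        · rcases le_total (1 - η / 2) (ρ (f x)) with h2 | h2
          · exact Or.inr ⟨hx, Or.inr h2⟩
          · left
            obtain ⟨i, z, hz, hzd, hzf, hzρ, _, _⟩ := hrepP x ((hP' x).2 ⟨hx, h1, h2⟩)
            exact ⟨i, hx, z, ⟨hz, by rw [hzρ]; exact h1, by rw [hzρ]; exact h2⟩, hzf⟩
      · rintro (⟨i, hx, _⟩ | ⟨hx, _⟩) <;> exact hx
    have hcl : ∀ i, IsClosed {x | x ∈ Cu j ∧ f x ∈ χ i '' Sh} := fun i =>
      hf.cont.preimage_isClosed_of_isClosed (isClosed_Cu j)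
        (hSh.image_of_continuousOn ((hF.cont i).mono fun z hz => hz.1)).isClosed
    have hcl' : IsClosed {x | x ∈ Cu j ∧ ρ (f x) ∈ Iic (η / 2) ∪ Ici (1 - η / 2)} :=
      hρf.preimage_isClosed_of_isClosed (isClosed_Cu j) (isClosed_Iic.union isClosed_Ici)
    rw [hcov]
    refine ContinuousOn.union_of_isClosed ?_ ?_ (isClosed_iUnion_of_finite hcl) hcl'
    · refine continuousOn_iUnion_of_isClosed hcl fun i => ?_
      refine ContinuousOn.congr (f := fun x => χ i (w x)) ?_ fun x hx => hF₁a x i hx.2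
      exact (hF.cont i).comp (cw.mono fun x hx => hPT x i hx.1 hx.2)
        fun x hx => hw x (hPT x i hx.1 hx.2)
    · refine ContinuousOn.congr (f := fun x => G (f x, 1)) ?_ fun x hx => hF₁c x hx.1 hx.2
      refine hG.cont.comp ((hf.cont.mono fun x hx => hx.1).prodMk continuousOn_const)
        fun x hx => ⟨hf.maps hx.1, hI1⟩
  -- values of `F₁`
  have mF₁ : MapsTo F₁ (Cu j) (KA k m K χ) := by
    intro x hx
    by_cases hxP : ∃ i, f x ∈ χ i '' Sh
    · obtain ⟨i, hi⟩ := hxP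
      have hxP := hPT x i hx hi
      rw [hF₁a x i hi]
      rcases le_total (ρ (f x)) (1 - η) with h1 | h1
      · have e2 : b x = b₀ x := by
          show b₀ x + sc (ρ (f x)) • (D (f x) - b₀ x) = _
          rw [hscl _ h1, zero_smul, add_zero]
        show χ i (chom (Rr η (ρ (f x))) (b x)) ∈ _
        refine hcone i (b x) ⟨hbd x hxP, ?_⟩ _ (Rr_nonneg _) (Rr_le_one _)
        rw [e2]; exact hb₀k x hxP
      · left
        refine hF.bdry i ?_
        show chom (Rr η (ρ (f x))) (b x) ∈ dCu n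
        rw [Rr_of_ge hη hη' h1, chom_one]
        exact hbd x hxP
    · rw [hF₁b x hxP]
      by_cases hfK : f x ∈ K
      · rw [hGK _ hfK 1 hI1]; exact Or.inl hfK
      · obtain ⟨i, z, hz, hzd, hzf⟩ := hF.exists_rep (hf.maps hx) hfK
        rw [← hzf, hGχ i z hz 1 hI1]
        have e1 : str η 1 z = chom (mu' η (crad z)) z := by
          unfold str
          rw [sub_self, one_mul, zero_add]
        rw [e1]
        rcases le_total (crad z) (η / 2) with h1 | h1
        · rw [mu'_of_le hη hη' (by linarith)]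
          have e3 : chom (0:ℝ) z = chom (0:ℝ) (0 : Fin n → ℝ) := by
            unfold chom; simp
          rw [e3]
          exact hcone i 0 (zero_mem_Ak hn m) 0 le_rfl zero_le_one
        · rcases le_total (1 - η / 2) (crad z) with h2 | h2
          · left
            refine hF.bdry i ?_
            rw [mem_dCu_crad, crad_chom (mu'_nonneg hη _), mu'_mul hη hη',
              Rr_of_ge hη hη' (by linarith)]
          · exact (hxP ⟨i, z, ⟨hz, h1, h2⟩, hzf⟩).elim
  -- closeness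
  have dF₁ : ∀ x ∈ Cu j, dist (F₁ x) (f x) < ε / 4 := by
    intro x hx
    by_cases hxP : ∃ i, f x ∈ χ i '' Sh
    · obtain ⟨i, z, hz, hzf⟩ := hxP
      have hxP := hPT x i hx ⟨z, hz, hzf⟩
      rw [hF₁a x i ⟨z, hz, hzf⟩, ← hzf]
      refine hθ' i _ (hw x hxP) _ hz.1 ?_
      have hρz : ρ (f x) = crad z := by rw [← hzf]; exact hρχ i z hz.1
      have hz0 : 0 < crad z := by linarith [hz.2.1]
      have e1 : z = chom (crad z) (D (f x)) := by
        rw [← hzf, hDχ i z hz.1 hz.2.1 hz.2.2, chom_chom, mul_one_div_cancel hz0.ne', chom_one]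
      have h1 : dist (b x) (D (f x)) ≤ 1 / m :=
        dist_le_of_mem_cube hmN (hbc x hxP) (mem_cube_car m _)
      have h2 : dist (chom (Rr η (ρ (f x))) (b x)) (chom (Rr η (ρ (f x))) (D (f x))) ≤ 1 / m := by
        rw [dist_eq_norm]
        have : chom (Rr η (ρ (f x))) (b x) - chom (Rr η (ρ (f x))) (D (f x)) =
            Rr η (ρ (f x)) • (b x - D (f x)) := by
          unfold chom
          rw [add_sub_add_left_eq_sub, ← smul_sub, sub_sub_sub_cancel_right]
        rw [this, norm_smul, Real.norm_eq_abs, abs_of_nonneg (Rr_nonneg _), ← dist_eq_norm]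
        have h3 := Rr_le_one (η := η) (ρ (f x))
        have h4 := Rr_nonneg (η := η) (ρ (f x))
        nlinarith [dist_nonneg (x := b x) (y := D (f x))]
      have h3 : dist (chom (Rr η (ρ (f x))) (D (f x))) (chom (crad z) (D (f x))) ≤ η := by
        rw [dist_eq_norm]
        have e2 : chom (Rr η (ρ (f x))) (D (f x)) - chom (crad z) (D (f x)) =
            (Rr η (ρ (f x)) - crad z) • (D (f x) - fun _ => (1 / 2 : ℝ)) := by
          unfold chom
          rw [add_sub_add_left_eq_sub, ← sub_smul]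
        have h4 : ‖D (f x) - fun _ => (1 / 2 : ℝ)‖ ≤ 1 := by
          obtain ⟨_, _, _, _, _, _, _, h5⟩ := hrepP x hxP
          rw [mem_dCu_crad] at h5
          unfold crad at h5
          linarith
        have h5 := Rr_close hη hη' hz0.le (mem_Cu_crad.1 hz.1)
        rw [e2, norm_smul, Real.norm_eq_abs, hρz, abs_sub_comm]
        nlinarith [norm_nonneg (D (f x) - fun _ => (1 / 2 : ℝ)), abs_nonneg (crad z - Rr η (crad z))]
      have h4 := dist_triangle (w x) (chom (Rr η (ρ (f x))) (D (f x))) (chom (crad z) (D (f x)))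
      rw [← e1] at h4 h3
      have h5 : dist (w x) (chom (Rr η (ρ (f x))) (D (f x))) ≤ 1 / m := h2
      linarith
    · rw [hF₁b x hxP]
      exact hGd _ (hf.maps hx) 1 hI1
  -- on the boundary
  have hbdry : ∀ x ∈ dCu j, F₁ x = G (f x, 1) := by
    intro x hx
    have hxC := dCu_subset j hx
    have hfx : f x ∈ KA k m K χ := by
      have h1 := hff x hx
      rw [← h1]; exact hf₀.maps hx
    by_cases hxP : ∃ i, f x ∈ χ i '' Sh
    · obtain ⟨i, z, hz, hzf⟩ := hxP
      have hxP := hPT x i hxC ⟨z, hz, hzf⟩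
      have hz0 : 0 < crad z := by linarith [hz.2.1]
      have h1 := hDχ i z hz.1 hz.2.1 hz.2.2
      rw [hzf] at h1
      have h2 : D (f x) ∈ Ak k n m := by
        rw [h1]
        exact pr_mem_Ak hF hz.1 hz0 (by linarith [hz.2.2]) (by rw [hzf]; exact hfx)
      have h3 : b₀ x = D (f x) := hb₀e x hxP h2.2
      have h4 : b x = D (f x) := by
        show b₀ x + sc (ρ (f x)) • (D (f x) - b₀ x) = _
        rw [h3, sub_self, smul_zero, add_zero]
      have hρz : ρ (f x) = crad z := by rw [← hzf]; exact hρχ i z hz.1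
      rw [hF₁a x i ⟨z, hz, hzf⟩]
      show χ i (chom (Rr η (ρ (f x))) (b x)) = _
      rw [h4, h1, chom_chom, ← hzf, hGχ i z hz.1 1 hI1]
      have e1 : str η 1 z = chom (mu' η (crad z)) z := by
        unfold str
        rw [sub_self, one_mul, zero_add]
      rw [e1]
      congr 2
      rw [hzf, hρz, ← mu'_mul hη hη', mul_assoc, mul_one_div_cancel hz0.ne', mul_one]
    · exact hF₁b x hxP
  -- the collar
  have hfm : IsMap f (dCu j) (KA k m K χ) := by
    refine ⟨hf.cont.mono (dCu_subset j), fun x hx => ?_⟩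
    have h1 := hff x hx
    rw [← h1]; exact hf₀.maps hx
  obtain ⟨H, hH, hH1, hH0, hHd⟩ := cell_hep (Y := α) (γ := α) (T := KA k m K χ) (a := F₁)
    (h := fun q => G (f q.1, 1 - q.2)) ⟨cF₁, mF₁⟩
    (by
      refine ⟨?_, ?_⟩
      · refine hG.cont.comp (((hfm.cont.comp continuousOn_fst fun q hq => hq.1)).prodMk
          (continuous_const.sub continuous_snd).continuousOn) ?_
        rintro q ⟨hq1, hq2, hq3⟩
        exact ⟨hf.maps (dCu_subset j hq1), by simp only; linarith, by simp only; linarith⟩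
      · rintro q ⟨hq1, hq2, hq3⟩
        exact hGKA _ (hfm.maps hq1) _ ⟨by linarith, by linarith⟩)
    (fun x hx => by
      show G (f x, 1 - 0) = F₁ x
      rw [sub_zero, hbdry x hx])
    (c := fun v => v) continuousOn_id (show (0:ℝ) < ε / 2 by positivity)
    (fun x hx t ht => by
      have h1 := hGd (f x) (hf.maps (dCu_subset j hx)) (1 - t) ⟨by linarith [ht.2], by linarith [ht.1]⟩
      have h2 := dF₁ x (dCu_subset j hx)
      have h3 := dist_triangle_right (G (f x, 1 - t)) (F₁ x) (f x)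
      show dist (G (f x, 1 - t)) (F₁ x) < ε / 2
      linarith)
  refine ⟨fun x => H (x, 1), ⟨?_, ?_⟩, ?_, ?_⟩
  · exact hH.cont.comp (continuousOn_id.prodMk continuousOn_const) fun x hx => ⟨hx, hI1⟩
  · exact fun x hx => hH.maps ⟨hx, hI1⟩
  · intro x hx
    show H (x, 1) = f₀ x
    rw [hH1 x hx 1 hI1]
    show G (f x, 1 - 1) = f₀ x
    rw [sub_self, hG0 _ (hf.maps (dCu_subset j hx))]
    exact (hff x hx).symm
  · intro x hx
    have h1 := hHd x hx 1 hI1
    have h2 := dF₁ x hx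
    have h3 := dist_triangle (H (x, 1)) (F₁ x) (f x)
    show dist (H (x, 1)) (f x) < ε
    have h4 : dist (H (x, 1)) (F₁ x) < ε / 2 := h1
    linarith

end main

end MG.Abs2
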