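import Pool.Agent.Work.MP_017613_gt.AbsDefs

/-!
# Absorption: uniform estimates in a cone family
-/

open Set Metric Topology Filter

namespace MG

variable {ι : Type*} {E β : Type*} [MetricSpace E] [MetricSpace β]
variable {A : Set E} {K V : Set β} {Φ : ι → E → ℝ → β}

namespace CFam

theorem unif [Finite ι] (h : CFam A K V Φ) (hA : IsCompact A) {ε : ℝ} (hε : 0 < ε) :
    ∃ δ > 0, ∀ a, ∀ x ∈ A, ∀ x' ∈ A, ∀ t ∈ Icc (0 : ℝ) 1, ∀ t' ∈ Icc (0 : ℝ) 1,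
      dist x x' < δ → |t - t'| < δ → dist (Φ a x t) (Φ a x' t') < ε := by
  have h1 : ∀ a, ∃ δ > 0, ∀ x ∈ A, ∀ x' ∈ A, ∀ t ∈ Icc (0 : ℝ) 1, ∀ t' ∈ Icc (0 : ℝ) 1,
      dist x x' < δ → |t - t'| < δ → dist (Φ a x t) (Φ a x' t') < ε := by
    intro a
    have hc : IsCompact (A ×ˢ Icc (0 : ℝ) 1) := hA.prod isCompact_Icc
    have hu := hc.uniformContinuousOn_of_continuous (h.cont a)
    rw [Metric.uniformContinuousOn_iff] at hu
    obtain ⟨δ, hδ, h2⟩ := hu ε hε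
    refine ⟨δ, hδ, fun x hx x' hx' t ht t' ht' h3 h4 => ?_⟩
    exact h2 (x, t) ⟨hx, ht⟩ (x', t') ⟨hx', ht'⟩ (by
      rw [Prod.dist_eq, Real.dist_eq]
      exact max_lt h3 h4)
  choose δ hδ h2 using h1
  cases isEmpty_or_nonempty ι
  · exact ⟨1, one_pos, fun a => isEmptyElim a⟩
  · obtain ⟨a0, ha0⟩ := Finite.exists_min δ
    exact ⟨δ a0, hδ a0, fun a x hx x' hx' t ht t' ht' h3 h4 =>
      h2 a x hx x' hx' t ht t' ht' (h3.trans_le (ha0 a)) (h4.trans_le (ha0 a))⟩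

theorem low [Finite ι] (h : CFam A K V Φ) (hA : IsCompact A) {ε : ℝ} (hε : 0 < ε) :
    ∃ c > 0, c < 1 / 2 ∧ ∀ a, ∀ x ∈ A, ∀ t, 0 ≤ t → t ≤ c → dist (Φ a x t) (Φ a x 0) < ε := by
  obtain ⟨δ, hδ, h1⟩ := h.unif hA hε
  refine ⟨min (δ / 2) (1 / 4), by positivity, (min_le_right _ _).trans_lt (by norm_num), ?_⟩
  intro a x hx t ht0 ht
  have h2 := ht.trans (min_le_left _ _)
  have h3 := ht.trans (min_le_right _ _)
  refine h1 a x hx x hx t ⟨ht0, by linarith⟩ 0 ⟨le_rfl, zero_le_one⟩ (by simpa using hδ) ?_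
  rw [sub_zero, abs_of_nonneg ht0]
  linarith

theorem high [Finite ι] (h : CFam A K V Φ) (hA : IsCompact A) {ε : ℝ} (hε : 0 < ε) :
    ∃ c > 0, c < 1 / 2 ∧ ∀ a, ∀ x ∈ A, ∀ x' ∈ A, ∀ t, 1 - c ≤ t → t ≤ 1 →
      dist (Φ a x t) (Φ a x' 1) < ε := by
  obtain ⟨δ, hδ, h1⟩ := h.unif hA hε
  refine ⟨min (δ / 2) (1 / 4), by positivity, (min_le_right _ _).trans_lt (by norm_num), ?_⟩
  intro a x hx x' hx' t ht0 ht
  have h2 := min_le_left (δ / 2) (1 / 4 : ℝ)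
  have h3 := min_le_right (δ / 2) (1 / 4 : ℝ)
  rw [← h.apex a x hx x' hx']
  refine h1 a x hx x hx t ⟨by linarith, ht⟩ 1 ⟨zero_le_one, le_rfl⟩ (by simpa using hδ) ?_
  rw [abs_sub_comm, abs_of_nonneg (by linarith)]
  linarith

theorem sep [Finite ι] (h : CFam A K V Φ) (hA : IsCompact A) (hK : IsCompact K) {c : ℝ}
    (hc : 0 < c) : ∃ δ > 0, ∀ a, ∀ x ∈ A, ∀ t, c ≤ t → t ≤ 1 → ∀ y ∈ K, δ ≤ dist (Φ a x t) y := by
  have h1 : ∀ a, ∃ δ > 0, ∀ x ∈ A, ∀ t, c ≤ t → t ≤ 1 → ∀ y ∈ K, δ ≤ dist (Φ a x t) y := by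
    intro a
    have hs : IsCompact ((fun q : E × ℝ => Φ a q.1 q.2) '' (A ×ˢ Icc c 1)) := by
      refine (hA.prod isCompact_Icc).image_of_continuousOn ((h.cont a).mono ?_)
      exact prod_mono le_rfl (Icc_subset_Icc_left hc.le)
    have hd : Disjoint ((fun q : E × ℝ => Φ a q.1 q.2) '' (A ×ˢ Icc c 1)) K := by
      rw [Set.disjoint_left]
      rintro _ ⟨⟨x, t⟩, ⟨hx, ht⟩, rfl⟩
      exact h.off a x hx t (hc.trans_le ht.1) ht.2
    obtain ⟨δ, hδ, h2⟩ := exists_pos_forall_lt_edist hs hK.isClosed hd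
    refine ⟨δ, NNReal.coe_pos.2 hδ, fun x hx t ht ht' y hy => ?_⟩
    have h3 := h2 _ ⟨(x, t), ⟨hx, ht, ht'⟩, rfl⟩ y hy
    rw [edist_nndist, ENNReal.coe_lt_coe] at h3
    exact_mod_cast h3.le
  choose δ hδ h2 using h1
  cases isEmpty_or_nonempty ι
  · exact ⟨1, one_pos, fun a => isEmptyElim a⟩
  · obtain ⟨a0, ha0⟩ := Finite.exists_min δ
    exact ⟨δ a0, hδ a0, fun a x hx t ht ht' y hy => (ha0 a).trans (h2 a x hx t ht ht' y hy)⟩

theorem isCompact_image (h : CFam A K V Φ) (hA : IsCompact A) (a : ι) {s : Set ℝ}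
    (hs : IsCompact s) (hs1 : s ⊆ Icc 0 1) :
    IsCompact ((fun q : E × ℝ => Φ a q.1 q.2) '' (A ×ˢ s)) :=
  (hA.prod hs).image_of_continuousOn ((h.cont a).mono (prod_mono le_rfl hs1))

/-- away from `K` the coordinates are uniformly continuous -/
theorem coord [Finite ι] (h : CFam A K V Φ) (hA : IsCompact A) (hK : IsCompact K) {c ε : ℝ}
    (hc : 0 < c) (hε : 0 < ε) : ∃ δ > 0, ∀ a b, ∀ x ∈ A, ∀ x' ∈ A, ∀ t, c ≤ t → t ≤ 1 →
      ∀ t', 0 ≤ t' → t' ≤ 1 → dist (Φ a x t) (Φ b x' t') < δ →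
      a = b ∧ |t - t'| < ε ∧ (t ≤ 1 - c → dist x x' < ε) := by
  have h1 : ∀ a b, ∃ δ > 0, ∀ x ∈ A, ∀ x' ∈ A, ∀ t, c ≤ t → t ≤ 1 →
      ∀ t', 0 ≤ t' → t' ≤ 1 → dist (Φ a x t) (Φ b x' t') < δ →
      a = b ∧ |t - t'| < ε ∧ (t ≤ 1 - c → dist x x' < ε) := by
    intro a b
    by_contra hcon
    push Not at hcon
    -- a compact set of pairs on which the continuous distance vanishes somewhere
    set T : Set ((E × ℝ) × (E × ℝ)) := (A ×ˢ Icc c 1) ×ˢ (A ×ˢ Icc 0 1) ∩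
      {q | a = b → |q.1.2 - q.2.2| < ε → (q.1.2 ≤ 1 - c ∧ ε ≤ dist q.1.1 q.2.1)} with hT
    have hTc : IsCompact T := by
      refine ((hA.prod isCompact_Icc).prod (hA.prod isCompact_Icc)).inter_right ?_
      by_cases hab : a = b
      · have : {q : (E × ℝ) × (E × ℝ) | a = b → |q.1.2 - q.2.2| < ε →
            (q.1.2 ≤ 1 - c ∧ ε ≤ dist q.1.1 q.2.1)} =
            {q | ε ≤ |q.1.2 - q.2.2|} ∪ ({q | q.1.2 ≤ 1 - c} ∩ {q | ε ≤ dist q.1.1 q.2.1}) := by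
          ext q
          simp only [hab, mem_ofPred_eq, mem_union, mem_inter_iff, forall_const]
          rcases lt_or_ge (|q.1.2 - q.2.2|) ε with h9 | h9
          · simp [h9, not_le.2 h9]
          · simp [h9, not_lt.2 h9]
        rw [this]
        refine (isClosed_le continuous_const (by fun_prop)).union
          ((isClosed_le (by fun_prop) continuous_const).inter
            (isClosed_le continuous_const (by fun_prop)))
      · have : {q : (E × ℝ) × (E × ℝ) | a = b → |q.1.2 - q.2.2| < ε →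
            (q.1.2 ≤ 1 - c ∧ ε ≤ dist q.1.1 q.2.1)} = univ := by
          ext q
          simp [hab]
        rw [this]
        exact isClosed_univ
    have hTn : T.Nonempty := by
      obtain ⟨x, hx, x', hx', t, ht, ht', t', h0, h0', h5, h6⟩ := hcon 1 one_pos
      refine ⟨((x, t), (x', t')), ⟨⟨hx, ht, ht'⟩, hx', h0, h0'⟩, fun h7 h8 => ?_⟩
      exact h6 h7 h8
    have hcont : ContinuousOn (fun q : (E × ℝ) × (E × ℝ) =>
        dist (Φ a q.1.1 q.1.2) (Φ b q.2.1 q.2.2)) T := by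
      refine continuous_dist.comp_continuousOn (ContinuousOn.prodMk ?_ ?_)
      · refine (h.cont a).comp continuousOn_fst fun q hq => ?_
        exact ⟨hq.1.1.1, hc.le.trans hq.1.1.2.1, hq.1.1.2.2⟩
      · exact (h.cont b).comp continuousOn_snd fun q hq => hq.1.2
    obtain ⟨q, hq, hmin⟩ := hTc.exists_isMinOn hTn hcont
    have hpos : 0 < dist (Φ a q.1.1 q.1.2) (Φ b q.2.1 q.2.2) := by
      rw [dist_pos]
      intro heq
      obtain ⟨⟨⟨hx, ht⟩, hx', ht'⟩, h7⟩ := hq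
      have htp : 0 < q.1.2 := hc.trans_le ht.1
      rcases ht'.1.eq_or_lt with h0 | h0
      · refine h.off a _ hx _ htp ht.2 ?_
        rw [heq, ← h0]
        exact h.base b _ hx'
      · obtain ⟨h8, h9, h10⟩ := h.inj a b _ _ _ _ hx hx' htp ht.2 h0 ht'.2 heq
        obtain ⟨h11, h12⟩ := h7 h8 (by rw [h9]; simpa using hε)
        have := h10 (by linarith)
        rw [this, dist_self] at h12
        linarith
    obtain ⟨x, hx, x', hx', t, ht, ht', t', h0, h0', h5, h6⟩ := hcon _ hpos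
    have := hmin (a := ((x, t), (x', t'))) ⟨⟨⟨hx, ht, ht'⟩, hx', h0, h0'⟩, fun h7 h8 => h6 h7 h8⟩
    exact absurd h5 (not_lt.2 this)
  choose δ hδ h2 using h1
  cases isEmpty_or_nonempty ι
  · exact ⟨1, one_pos, fun a => isEmptyElim a⟩
  · obtain ⟨⟨a0, b0⟩, ha0⟩ := Finite.exists_min fun q : ι × ι => δ q.1 q.2
    exact ⟨δ a0 b0, hδ a0 b0, fun a b x hx x' hx' t ht ht1 t' ht' ht1' h3 =>
      h2 a b x hx x' hx' t ht ht1 t' ht' ht1' (h3.trans_le (ha0 (a, b)))⟩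

end CFam

end MG
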