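import Pool.Agent.Work.MP_017613_gt.ZSet

/-!
General position: maps are approximated by embeddings with Z-images (Baire category).
-/

set_option linter.unusedSectionVars false

open Set Topology Metric

namespace Pool.Agent.Work.MP_017613_gt

variable {P M : Type*} [MetricSpace P] [CompactSpace P] [MetricSpace M] [CompactSpace M]

/-- maps which separate two compact sets form an open set -/
theorem isOpen_sep {σ τ : Set P} (hσ : IsCompact σ) (hτ : IsCompact τ) :
    IsOpen {f : C(P, M) | ∀ x ∈ σ, ∀ y ∈ τ, f x ≠ f y} := by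
  rw [Metric.isOpen_iff]
  intro f hf
  by_cases hne : (σ ×ˢ τ).Nonempty
  swap
  · exact ⟨1, one_pos, fun g _ x hx y hy => (hne ⟨(x, y), hx, hy⟩).elim⟩
  obtain ⟨δ, hδ, hlow⟩ : ∃ δ > 0, ∀ x ∈ σ, ∀ y ∈ τ, δ ≤ dist (f x) (f y) := by
    have hc : Continuous fun p : P × P => dist (f p.1) (f p.2) := by fun_prop
    obtain ⟨⟨x0, y0⟩, h0, hmin⟩ := (hσ.prod hτ).exists_isMinOn hne hc.continuousOn
    exact ⟨dist (f x0) (f y0), dist_pos.2 (hf x0 h0.1 y0 h0.2), fun x hx y hy =>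
      hmin (show (x, y) ∈ σ ×ˢ τ from ⟨hx, hy⟩)⟩
  refine ⟨δ / 2, by positivity, fun g hg x hx y hy he => ?_⟩
  rw [mem_ball] at hg
  have h1 := (ContinuousMap.dist_apply_le_dist x).trans_lt hg
  have h2 := (ContinuousMap.dist_apply_le_dist y).trans_lt hg
  have h3 := hlow x hx y hy
  have h4 : dist (f x) (f y) ≤ dist (g x) (f x) + dist (g y) (f y) := by
    calc dist (f x) (f y) ≤ dist (f x) (g x) + dist (g x) (f y) := dist_triangle _ _ _
      _ = dist (g x) (f x) + dist (g y) (f y) := by rw [dist_comm (f x), he]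
  linarith

/-- the local extension property used for general position rel `P₀`: maps on `σ ∪ τ` close to `f`
extend, close to `f`, rel `P₀` -/
def CE (P₀ σ τ : Set P) (M : Type*) [MetricSpace M] : Prop :=
  ∀ ε > 0, ∃ δ > 0, ∀ (f : C(P, M)) (h : P → M), ContinuousOn h (σ ∪ τ) →
    (∀ x ∈ σ ∪ τ, dist (h x) (f x) < δ) → ∃ f' : C(P, M), (∀ x ∈ σ ∪ τ, f' x = h x) ∧
      (∀ x ∈ P₀, f' x = f x) ∧ ∀ x, dist (f' x) (f x) < ε

/-- **General position** rel `P₀`. -/
theorem gen_pos (hM : ZD M) {P₀ : Set P} {ι : Type*} [Countable ι]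
    (S : ι → Set P) (hS : ∀ i, IsClosed (S i))
    (hSc : ∀ x ∉ P₀, ∃ i, x ∈ S i)
    (hSs : ∀ x ∉ P₀, ∀ y ∉ P₀, x ≠ y → ∃ i j, x ∈ S i ∧ y ∈ S j ∧ Disjoint (S i) (S j))
    (hCE : ∀ i j, Disjoint (S i) (S j) → CE P₀ (S i) (S j) M)
    (hCE' : ∀ i, CE P₀ (S i) ∅ M)
    (f : C(P, M)) (hinj : InjOn f P₀) (hf : ZS (f '' P₀)) {A : Set M} (hA : ZS A) {ε : ℝ}
    (hε : 0 < ε) :
    ∃ f' : C(P, M), (∀ x, dist (f' x) (f x) < ε) ∧ (∀ x ∈ P₀, f' x = f x) ∧
      Function.Injective f' ∧ ZS (range f') ∧ ∀ x ∉ P₀, f' x ∉ A := by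
  classical
  -- the space of maps
  let F : Set C(P, M) := {g | ∀ x ∈ P₀, g x = f x}
  have hFc : IsClosed F := by
    have : F = ⋂ x ∈ P₀, {g : C(P, M) | g x = f x} := by
      ext g; simp [F]
    rw [this]
    exact isClosed_biInter fun x _ => isClosed_eq (by fun_prop)
      continuous_const
  have : CompleteSpace F := hFc.completeSpace_coe
  -- a sequence of Z-maps tending to the identity
  have hz : ∀ n : ℕ, ∃ φ : C(M, M), (∀ x, dist (φ x) x < 1 / (n + 1 : ℝ)) ∧ ZS (range φ) :=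
    fun n => hM _ Nat.one_div_pos_of_nat
  choose φ hφ1 hφ2 using hz
  -- pushing off a Z-set on `S i`
  have D2 : ∀ (B : Set M), ZS B → ∀ i, IsOpen {g : F | ∀ x ∈ S i, (g : C(P, M)) x ∉ B} ∧
      Dense {g : F | ∀ x ∈ S i, (g : C(P, M)) x ∉ B} := by
    intro B hB i
    constructor
    · exact (isOpen_avoid hB.1 (hS i).isCompact).preimage continuous_subtype_val
    · intro g
      rw [Metric.mem_closure_iff]
      intro e he
      obtain ⟨δ, hδ, h⟩ := hCE' i (e / 2) (by positivity)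
      obtain ⟨ψ, hψ1, hψ2⟩ := hB.2 δ hδ
      obtain ⟨g', h1, h2, h3⟩ := h g (fun x => ψ (g.1 x)) (by fun_prop) fun x _ => hψ1 _
      refine ⟨⟨g', fun x hx => (h2 x hx).trans (g.2 x hx)⟩, fun x hx => ?_, ?_⟩
      · change g' x ∉ B
        rw [h1 x (Or.inl hx)]
        exact hψ2 _
      · rw [dist_comm, Subtype.dist_eq]
        refine lt_of_le_of_lt ((ContinuousMap.dist_le (by positivity)).2 fun x => (h3 x).le) ?_
        linarith
  -- separating
  have D1 : ∀ p : {p : ι × ι // Disjoint (S p.1) (S p.2)},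
      IsOpen {g : F | ∀ x ∈ S p.1.1, ∀ y ∈ S p.1.2, (g : C(P, M)) x ≠ (g : C(P, M)) y} ∧
      Dense {g : F | ∀ x ∈ S p.1.1, ∀ y ∈ S p.1.2, (g : C(P, M)) x ≠ (g : C(P, M)) y} := by
    rintro ⟨⟨i, j⟩, hij⟩
    simp only at hij ⊢
    constructor
    · exact (isOpen_sep (hS i).isCompact (hS j).isCompact).preimage continuous_subtype_val
    · intro g
      rw [Metric.mem_closure_iff]
      intro e he
      obtain ⟨δ, hδ, h⟩ := hCE i j hij (e / 2) (by positivity)
      obtain ⟨ψ, ψ', hψ1, hψ2, hψ3⟩ := hM.dd δ hδ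
      have hc : ContinuousOn (fun x => if x ∈ S i then ψ (g.1 x) else ψ' (g.1 x))
          (S i ∪ S j) := by
        refine ContinuousOn.union_of_isClosed ?_ ?_ (hS i) (hS j)
        · refine ContinuousOn.congr (f := fun x => ψ (g.1 x)) (by fun_prop) fun x hx => ?_
          simp only [hx, if_true]
        · refine ContinuousOn.congr (f := fun x => ψ' (g.1 x)) (by fun_prop) fun x hx => ?_
          have : x ∉ S i := fun hxi => hij.le_bot ⟨hxi, hx⟩
          simp only [this, if_false]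
      obtain ⟨g', h1, h2, h3⟩ := h g _ hc fun x _ => by
        split_ifs
        exacts [hψ1 _, hψ2 _]
      refine ⟨⟨g', fun x hx => (h2 x hx).trans (g.2 x hx)⟩, fun x hx y hy => ?_, ?_⟩
      · change g' x ≠ g' y
        have hy' : y ∉ S i := fun hyi => hij.le_bot ⟨hyi, hy⟩
        rw [h1 x (Or.inl hx), h1 y (Or.inr hy)]
        simp only [hx, hy', if_true, if_false]
        exact hψ3 _ _
      · rw [dist_comm, Subtype.dist_eq]
        refine lt_of_le_of_lt ((ContinuousMap.dist_le (by positivity)).2 fun x => (h3 x).le) ?_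
        linarith
  have hAZ : ZS (A ∪ f '' P₀) := hA.union hf
  have D3 := dense_iInter_of_isOpen (X := F)
    (f := fun i : {p : ι × ι // Disjoint (S p.1) (S p.2)} ⊕ (ι ⊕ (ι × ℕ)) => Sum.elim
      (fun p : {p : ι × ι // Disjoint (S p.1) (S p.2)} =>
        {g : F | ∀ x ∈ S p.1.1, ∀ y ∈ S p.1.2, (g : C(P, M)) x ≠ (g : C(P, M)) y})
      (Sum.elim (fun i => {g : F | ∀ x ∈ S i, (g : C(P, M)) x ∉ A ∪ f '' P₀})
        fun q => {g : F | ∀ x ∈ S q.1, (g : C(P, M)) x ∉ range (φ q.2)}) i)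
    (by rintro (p | i | q); exacts [(D1 p).1, (D2 _ hAZ i).1, (D2 _ (hφ2 q.2) q.1).1])
    (by rintro (p | i | q); exacts [(D1 p).2, (D2 _ hAZ i).2, (D2 _ (hφ2 q.2) q.1).2])
  obtain ⟨g, hg1, hg2⟩ := Metric.mem_closure_iff.1 (D3 ⟨f, fun x _ => rfl⟩) (ε / 2) (by positivity)
  rw [mem_iInter] at hg1
  have g1 : ∀ i j, Disjoint (S i) (S j) → ∀ x ∈ S i, ∀ y ∈ S j,
      (g : C(P, M)) x ≠ (g : C(P, M)) y := fun i j hij => hg1 (Sum.inl ⟨(i, j), hij⟩)
  have g2 : ∀ i, ∀ x ∈ S i, (g : C(P, M)) x ∉ A ∪ f '' P₀ := fun i => hg1 (Sum.inr (Sum.inl i))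
  have g3 : ∀ i n, ∀ x ∈ S i, (g : C(P, M)) x ∉ range (φ n) :=
    fun i n => hg1 (Sum.inr (Sum.inr (i, n)))
  have g4 : ∀ x ∈ P₀, (g : C(P, M)) x = f x := g.2
  refine ⟨g, fun x => ?_, g4, ?_, ?_, ?_⟩
  · rw [dist_comm, Subtype.dist_eq] at hg2
    exact ((ContinuousMap.dist_apply_le_dist x).trans_lt hg2).trans (by linarith)
  · intro x y hxy
    by_contra hne
    by_cases hx : x ∈ P₀ <;> by_cases hy : y ∈ P₀
    · rw [g4 x hx, g4 y hy] at hxy
      exact hne (hinj hx hy hxy)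
    · obtain ⟨i, hi⟩ := hSc y hy
      exact g2 i y hi (Or.inr ⟨x, hx, by rw [← g4 x hx, hxy]⟩)
    · obtain ⟨i, hi⟩ := hSc x hx
      exact g2 i x hi (Or.inr ⟨y, hy, by rw [← g4 y hy, hxy]⟩)
    · obtain ⟨i, j, hi, hj, hij⟩ := hSs x hx y hy hne
      exact g1 i j hij x hi y hj hxy
  · -- the image is a Z-set
    have hz1 : ∀ i, ZS ((g : C(P, M)) '' S i) := by
      intro i
      refine ⟨((hS i).isCompact.image g.1.continuous).isClosed, fun e he => ?_⟩
      obtain ⟨n, hn⟩ := exists_nat_one_div_lt he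
      refine ⟨φ n, fun x => (hφ1 n x).trans hn, fun x hx => ?_⟩
      obtain ⟨y, hy, he⟩ := hx
      exact g3 i n y hy ⟨x, he.symm⟩
    obtain ⟨en, hen⟩ : ∃ en : ℕ → Option ι, Function.Surjective en := exists_surjective_nat _
    refine ZS.of_seq (A := fun n => match en n with
      | none => f '' P₀
      | some i => (g : C(P, M)) '' S i) (fun n => ?_)
      (isCompact_range (ContinuousMap.continuous _)).isClosed ?_
    · cases h : en n with
      | none => simpa [h] using hf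
      | some i => simpa [h] using hz1 i
    · rintro _ ⟨x, rfl⟩
      rw [mem_iUnion]
      by_cases hx : x ∈ P₀
      · obtain ⟨n, hn⟩ := hen none
        refine ⟨n, ?_⟩
        rw [hn]
        exact ⟨x, hx, (g4 x hx).symm⟩
      · obtain ⟨i, hi⟩ := hSc x hx
        obtain ⟨n, hn⟩ := hen (some i)
        refine ⟨n, ?_⟩
        rw [hn]
        exact ⟨x, hi, rfl⟩
  · intro x hx hxA
    obtain ⟨i, hi⟩ := hSc x hx
    exact g2 i x hi (Or.inl hxA)

end Pool.Agent.Work.MP_017613_gt
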