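import Pool.Agent.Work.MP_017613_gt.AbsGrid
import Pool.Agent.Work.MP_017613_gt.GenPos
import Pool.Agent.Work.MP_017613_gt.Kit.Glue

/-!
# Absorption: the hypothesis `HasEmb`

Families of maps of a cubical set of dimension `≤ k` into a compact `ULC^(k-1)` space with the
disjoint approximation property are close to disjoint families of Z-embeddings.
-/

open Set Metric Topology

namespace MG

open Pool.Agent.Work.MP_017613_gt (ZS ZD CE gen_pos)

/-! ### Maps on a cubical set, as a type -/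

section CubType

variable {N k : ℕ} {Q : Set (Fin N → ℝ)} {M : Type*} [MetricSpace M]

/-- the extension property of `gen_pos` for cubical subsets -/
lemma ce_cub [CompactSpace Q] (hU : ULC k (univ : Set M))
    (hQ : ∀ m : ℕ, 0 < m → IsCub m Q) (hdim : ∀ m : ℕ, 0 < m → ∀ x ∈ Q, dm (car m x) ≤ k)
    {m₀ : ℕ} (hm₀ : 0 < m₀) {R : Set (Fin N → ℝ)} (hR : IsCub m₀ R) (hRQ : R ⊆ Q) {ε : ℝ}
    (hε : 0 < ε) : ∃ δ > 0, ∀ (f : C(Q, M)) (h : Q → M),
      ContinuousOn h {x | (x : Fin N → ℝ) ∈ R} → (∀ x : Q, (x : Fin N → ℝ) ∈ R →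
        dist (h x) (f x) < δ) → ∃ f' : C(Q, M), (∀ x : Q, (x : Fin N → ℝ) ∈ R → f' x = h x) ∧
        ∀ x, dist (f' x) (f x) < ε := by
  classical
  obtain ⟨δ, hδ, hC⟩ := coarse hU (half_pos hε)
  refine ⟨min (δ / 4) (ε / 2), by positivity, fun f h hh hd => ?_⟩
  rcases isEmpty_or_nonempty M with hM | hM
  · refine ⟨f, fun x => (hM.false (f x)).elim, fun x => (hM.false (f x)).elim⟩
  -- the function on the ambient space
  let φ : (Fin N → ℝ) → M := fun x => if hx : x ∈ Q then (if x ∈ R then h ⟨x, hx⟩ else f ⟨x, hx⟩)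
    else Classical.arbitrary M
  have hφR : ∀ x : Q, (x : Fin N → ℝ) ∈ R → φ x = h x := by
    intro x hx
    simp only [φ, dif_pos x.2, if_pos hx]
  have hφQ : ∀ x : Q, (x : Fin N → ℝ) ∉ R → φ x = f x := by
    intro x hx
    simp only [φ, dif_pos x.2, if_neg hx]
  have hφf : ∀ x : Q, dist (φ x) (f x) < min (δ / 4) (ε / 2) := by
    intro x
    by_cases hx : (x : Fin N → ℝ) ∈ R
    · rw [hφR x hx]
      exact hd x hx
    · rw [hφQ x hx, dist_self]
      positivity
  obtain ⟨ρ, hρ, hu⟩ := Metric.uniformContinuous_iff.1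
    (CompactSpace.uniformContinuous_of_continuous f.continuous) (δ / 4) (by positivity)
  obtain ⟨n, hn, hmesh⟩ := exists_lev_mesh (P := Q) hQ hρ
  have hmn : 0 < m₀ * n := Nat.mul_pos hm₀ hn
  have hcontR : ContinuousOn φ R := by
    intro x hx
    have h1 := hh ⟨x, hRQ hx⟩ hx
    have h2 : Filter.Tendsto h (𝓝[{x : Q | (x : Fin N → ℝ) ∈ R}] ⟨x, hRQ hx⟩) (𝓝 (φ x)) := by
      rw [hφR ⟨x, hRQ hx⟩ hx]
      exact h1
    rw [ContinuousWithinAt]
    rw [Metric.tendsto_nhdsWithin_nhds] at h2 ⊢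
    intro e he
    obtain ⟨d, hd0, hd1⟩ := h2 e he
    refine ⟨d, hd0, fun {y} hy hyx => ?_⟩
    have h3 := hd1 (x := ⟨y, hRQ hy⟩) hy hyx
    rw [hφR ⟨y, hRQ hy⟩ hy]
    exact h3
  obtain ⟨F, hF, hFe, hFd⟩ := hC hmn (hQ _ hmn) (hR.mul hn) hRQ
    (fun x hx _ => hdim _ hmn x hx) φ (mapsTo_univ _ _) hcontR (by
      intro x hx y hy
      have hy' : y ∈ cube n (car n x) := by
        rw [mul_comm] at hy
        exact cube_car_mul hm₀ x hy
      obtain ⟨hyQ, hxy⟩ := hmesh x hx y hy'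
      have h1 := (hφf ⟨x, hx⟩).trans_le (min_le_left _ _)
      have h2 := (hφf ⟨y, hyQ⟩).trans_le (min_le_left _ _)
      have h3 : dist (f ⟨x, hx⟩) (f ⟨y, hyQ⟩) < δ / 4 := hu hxy
      have h4 := dist_triangle4 (φ x) (f ⟨x, hx⟩) (f ⟨y, hyQ⟩) (φ y)
      rw [dist_comm] at h2
      simp only at h1 h2
      linarith)
  refine ⟨⟨fun x => F x, ?_⟩, ?_, ?_⟩
  · have := hF.cont
    rw [continuousOn_iff_continuous_domRestrict] at this
    exact this
  · intro x hx
    show F x = h x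
    rw [hFe hx, hφR x hx]
  · intro x
    have h1 := hFd x x.2
    have h2 := (hφf x).trans_le (min_le_right _ _)
    show dist (F x) (f x) < ε
    linarith [dist_triangle (F x) (φ x) (f x)]

/-- general position for cubical sets -/
theorem gp_cub [CompactSpace M] (hZ : ZD M) (hU : ULC k (univ : Set M)) [CompactSpace Q]
    (hQ : ∀ m : ℕ, 0 < m → IsCub m Q) (hdim : ∀ m : ℕ, 0 < m → ∀ x ∈ Q, dm (car m x) ≤ k)
    (f : C(Q, M)) {W : Set M} (hW : ZS W) {ε : ℝ} (hε : 0 < ε) :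
    ∃ f' : C(Q, M), (∀ x, dist (f' x) (f x) < ε) ∧ Function.Injective f' ∧ ZS (range f') ∧
      ∀ x, f' x ∉ W := by
  let I := {p : ℕ × (Fin N → ℤ) // 0 < p.1}
  let S : I → Set Q := fun p => {x | (x : Fin N → ℝ) ∈ cube p.1.1 p.1.2}
  have hS : ∀ i, IsClosed (S i) := fun i =>
    (isClosed_cube' i.1.1 i.1.2).preimage continuous_subtype_val
  have hcubR : ∀ i j : I, IsCub (i.1.1 * j.1.1) ((Q ∩ cube i.1.1 i.1.2) ∪
      (Q ∩ cube j.1.1 j.1.2)) := by
    intro i j
    refine IsCub.union ?_ ?_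
    · exact ((hQ _ i.2).inter (isCub_cube i.2 _)).mul j.2
    · rw [mul_comm]
      exact ((hQ _ j.2).inter (isCub_cube j.2 _)).mul i.2
  obtain ⟨f', h1, -, h3, h4, h5⟩ := gen_pos (P := Q) hZ (P₀ := ∅) S hS
    (by
      intro x _
      exact ⟨⟨(1, car 1 x), one_pos⟩, mem_cube_car 1 (x : Fin N → ℝ)⟩)
    (by
      intro x _ y _ hxy
      have hd : 0 < dist (x : Fin N → ℝ) y := by
        rw [dist_pos]
        exact fun h => hxy (Subtype.ext h)
      obtain ⟨m, hm⟩ := exists_nat_gt (2 / dist (x : Fin N → ℝ) y)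
      have hm0 : (0 : ℝ) < m := lt_trans (by positivity) hm
      have hm1 : 0 < m := by exact_mod_cast hm0
      refine ⟨⟨(m, car m x), hm1⟩, ⟨(m, car m y), hm1⟩, mem_cube_car m (x : Fin N → ℝ),
        mem_cube_car m (y : Fin N → ℝ), ?_⟩
      rw [Set.disjoint_left]
      intro z hz1 hz2
      have e1 := dist_le_of_mem_cube hm1 (mem_cube_car m (x : Fin N → ℝ)) hz1
      have e2 := dist_le_of_mem_cube hm1 hz2 (mem_cube_car m (y : Fin N → ℝ))
      have e3 := dist_triangle (x : Fin N → ℝ) z y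
      rw [div_lt_iff₀ hd] at hm
      have e4 : dist (x : Fin N → ℝ) y ≤ 2 / m := by
        calc _ ≤ 1 / (m : ℝ) + 1 / m := by linarith
          _ = 2 / m := by ring
      rw [le_div_iff₀ hm0] at e4
      linarith)
    (by
      intro i j _ e he
      obtain ⟨δ, hδ, hC⟩ := ce_cub hU hQ hdim (Nat.mul_pos i.2 j.2) (hcubR i j)
        (union_subset inter_subset_left inter_subset_left) he
      refine ⟨δ, hδ, fun g h hh hd => ?_⟩
      have hset : {x : Q | (x : Fin N → ℝ) ∈ (Q ∩ cube i.1.1 i.1.2) ∪ (Q ∩ cube j.1.1 j.1.2)} =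
          S i ∪ S j := by
        ext x
        simp only [S, mem_ofPred_eq, mem_union, mem_inter_iff, x.2, true_and]
      obtain ⟨f', a1, a2⟩ := hC g h (by rw [hset]; exact hh) (fun x hx => hd x (by
        rw [← hset]; exact hx))
      exact ⟨f', fun x hx => a1 x (by rw [← hset] at hx; exact hx), fun x hx => hx.elim, a2⟩)
    (by
      intro i e he
      obtain ⟨δ, hδ, hC⟩ := ce_cub hU hQ hdim i.2 ((hQ _ i.2).inter (isCub_cube i.2 i.1.2))
        inter_subset_left he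
      refine ⟨δ, hδ, fun g h hh hd => ?_⟩
      have hset : {x : Q | (x : Fin N → ℝ) ∈ (Q ∩ cube i.1.1 i.1.2)} = S i ∪ ∅ := by
        ext x
        simp only [S, mem_ofPred_eq, mem_union, mem_inter_iff, x.2, true_and, mem_empty_iff_false,
          or_false]
      obtain ⟨f', a1, a2⟩ := hC g h (by rw [hset]; exact hh) (fun x hx => hd x (by
        rw [← hset]; exact hx))
      exact ⟨f', fun x hx => a1 x (by rw [← hset] at hx; exact hx), fun x hx => hx.elim, a2⟩)
    f (by simp) (by rw [image_empty]; exact ZS.empty) hW hε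
  exact ⟨f', h1, h3, h4, fun x => h5 x (fun hx => hx.elim)⟩

end CubType

/-! ### Disjoint copies of a cubical set -/

/-- `n` disjoint copies of a cubical set -/
def copies (n : ℕ) {N : ℕ} (A : Set (Fin N → ℝ)) : Set (Fin (N + 1) → ℝ) :=
  {x | (∃ a : Fin n, x 0 = ((a : ℕ) : ℝ)) ∧ Fin.tail x ∈ A}

section Copies

variable {n N : ℕ} {A : Set (Fin N → ℝ)}

lemma cons_mem_copies (a : Fin n) {y : Fin N → ℝ} (hy : y ∈ A) :
    (Fin.cons ((a : ℕ) : ℝ) y : Fin (N + 1) → ℝ) ∈ copies n A :=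
  ⟨⟨a, rfl⟩, by rw [Fin.tail_cons]; exact hy⟩

lemma isCub_copies {m : ℕ} (hm : 0 < m) (hA : IsCub m A) : IsCub m (copies n A) where
  bdd := by
    obtain ⟨B, hB⟩ := hA.bdd.exists_norm_le
    apply isBounded_iff_forall_norm_le.2
    refine ⟨max |B| n, fun x hx => ?_⟩
    obtain ⟨⟨a, ha⟩, hx2⟩ := hx
    rw [pi_norm_le_iff_of_nonneg (by positivity)]
    intro i
    refine Fin.cases ?_ (fun i => ?_) i
    · rw [ha, Real.norm_eq_abs, abs_of_nonneg (by positivity)]
      refine le_trans ?_ (le_max_right _ _)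
      exact_mod_cast a.2.le
    · exact ((norm_le_pi_norm (Fin.tail x) i).trans (hB _ hx2)).trans
        ((le_abs_self B).trans (le_max_left _ _))
  sat := by
    rintro x ⟨⟨a, ha⟩, hx⟩ y hy
    refine ⟨⟨a, ?_⟩, hA.sat _ hx (mem_cube_tail hy)⟩
    rw [coord_const hm (a := m * (a : ℕ)) (by rw [ha]; push_cast; ring) hy, ha]

lemma dm_copies {m k : ℕ} (hA : ∀ x ∈ A, dm (car m x) ≤ k) {x : Fin (N + 1) → ℝ}
    (hx : x ∈ copies n A) : dm (car m x) ≤ k := by
  obtain ⟨⟨a, ha⟩, hx2⟩ := hx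
  rw [dm_cons, car_tail]
  have h1 : ¬ Odd (car m x 0) := by
    unfold car
    rw [odd_car_iff]
    push Not
    exact ⟨(m * (a : ℕ) : ℤ), by rw [ha]; push_cast; ring⟩
  rw [if_neg h1, zero_add]
  exact hA _ hx2

end Copies

theorem hasEmb (k : ℕ) (ι : Type*) [Finite ι] (M : Type*) [MetricSpace M] [CompactSpace M]
    (hZ : ZD M) (hU : ULC k (univ : Set M)) {N : ℕ} {A : Set (Fin N → ℝ)}
    (hAcub : ∀ m : ℕ, 0 < m → IsCub m A) (hAdim : ∀ m : ℕ, 0 < m → ∀ x ∈ A, dm (car m x) ≤ k) :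
    HasEmb ι M A := by
  classical
  intro W hW ψ hψ ε hε
  rcases isEmpty_or_nonempty ι with hι | hι
  · refine ⟨ψ, hψ, fun a => (hι.false a).elim, fun a => (hι.false a).elim, ?_, ?_⟩
    · rw [iUnion_of_empty]
      exact ZS.empty
    · rw [iUnion_of_empty]
      exact disjoint_bot_left
  obtain ⟨n, ⟨σ⟩⟩ := Finite.exists_equiv_fin ι
  have hQcub : ∀ m : ℕ, 0 < m → IsCub m (copies n A) := fun m hm => isCub_copies hm (hAcub m hm)
  have hQdim : ∀ m : ℕ, 0 < m → ∀ x ∈ copies n A, dm (car m x) ≤ k := fun m hm x hx =>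
    dm_copies (hAdim m hm) hx
  have hQc : IsCompact (copies n A) := (hQcub 1 one_pos).isCompact
  have : CompactSpace (copies n A) := isCompact_iff_compactSpace.1 hQc
  let idx : (Fin (N + 1) → ℝ) → ι := fun x =>
    if h : ∃ a : Fin n, x 0 = ((a : ℕ) : ℝ) then σ.symm h.choose else Classical.arbitrary ι
  have hidx : ∀ (x : Fin (N + 1) → ℝ) (a : Fin n), x 0 = ((a : ℕ) : ℝ) → idx x = σ.symm a := by
    intro x a ha
    have h : ∃ a : Fin n, x 0 = ((a : ℕ) : ℝ) := ⟨a, ha⟩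
    have h2 : h.choose = a := by
      have h3 := h.choose_spec.symm.trans ha
      apply Fin.ext
      exact_mod_cast h3
    simp only [idx, dif_pos h]
    rw [h2]
  let f₀ : (Fin (N + 1) → ℝ) → M := fun x => ψ (idx x) (Fin.tail x)
  have htail : Continuous (Fin.tail : (Fin (N + 1) → ℝ) → Fin N → ℝ) :=
    continuous_pi fun i => continuous_apply _
  have hAcl : IsClosed A := (hAcub 1 one_pos).isClosed
  have hf₀ : ContinuousOn f₀ (copies n A) := by
    have he : copies n A = ⋃ a : Fin n, ({x : Fin (N + 1) → ℝ | x 0 = ((a : ℕ) : ℝ)} ∩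
        Fin.tail ⁻¹' A) := by
      ext x
      simp only [copies, mem_ofPred_eq, mem_iUnion, mem_inter_iff, mem_preimage]
      exact ⟨fun ⟨⟨a, ha⟩, hx⟩ => ⟨a, ha, hx⟩, fun ⟨a, ha, hx⟩ => ⟨⟨a, ha⟩, hx⟩⟩
    rw [he]
    refine continuousOn_iUnion_of_isClosed (fun a => ?_) fun a => ?_
    · exact (isClosed_eq (continuous_apply 0) continuous_const).inter (hAcl.preimage htail)
    · refine ((hψ (σ.symm a)).comp htail.continuousOn fun x hx => hx.2).congr fun x hx => ?_
      show ψ (idx x) (Fin.tail x) = ψ (σ.symm a) (Fin.tail x)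
      rw [hidx x a hx.1]
  let f : C(copies n A, M) := ⟨fun x => f₀ x, by
    have := hf₀
    rw [continuousOn_iff_continuous_domRestrict] at this
    exact this⟩
  obtain ⟨f', h1, h2, h3, h4⟩ := gp_cub hZ hU hQcub hQdim f hW hε
  -- the embeddings
  let c : ι → ∀ y ∈ A, copies n A := fun a y hy => ⟨Fin.cons (((σ a : Fin n) : ℕ) : ℝ) y,
    cons_mem_copies (σ a) hy⟩
  let e : ι → (Fin N → ℝ) → M := fun a y => if hy : y ∈ A then f' (c a y hy) else ψ a y
  have he : ∀ a y (hy : y ∈ A), e a y = f' (c a y hy) := fun a y hy => dif_pos hy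
  have hrange : ⋃ a, e a '' A = range f' := by
    ext p
    simp only [mem_iUnion, mem_image, mem_range]
    constructor
    · rintro ⟨a, y, hy, rfl⟩
      exact ⟨c a y hy, (he a y hy).symm⟩
    · rintro ⟨⟨x, hx⟩, rfl⟩
      obtain ⟨⟨a, ha⟩, hx2⟩ := hx
      refine ⟨σ.symm a, Fin.tail x, hx2, ?_⟩
      rw [he _ _ hx2]
      congr 1
      apply Subtype.ext
      show (Fin.cons (((σ (σ.symm a) : Fin n) : ℕ) : ℝ) (Fin.tail x) : Fin (N + 1) → ℝ) = x
      rw [Equiv.apply_symm_apply, ← ha]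
      exact Fin.cons_self_tail x
  refine ⟨e, fun a => ?_, fun a x hx => ?_, ?_, ?_, ?_⟩
  · rw [continuousOn_iff_continuous_domRestrict]
    have h5 : A.domRestrict (e a) = fun y : A => f' (c a y y.2) := by
      funext y
      exact he a y y.2
    rw [h5]
    refine f'.continuous.comp (Continuous.subtype_mk ?_ _)
    refine continuous_pi fun i => ?_
    refine Fin.cases ?_ (fun i => ?_) i
    · exact continuous_const
    · exact (continuous_apply i).comp continuous_subtype_val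
  · rw [he a x hx]
    have h5 := h1 (c a x hx)
    have h6 : f (c a x hx) = ψ a x := by
      show ψ (idx (Fin.cons (((σ a : Fin n) : ℕ) : ℝ) x))
        (Fin.tail (Fin.cons (((σ a : Fin n) : ℕ) : ℝ) x : Fin (N + 1) → ℝ)) = ψ a x
      rw [hidx _ (σ a) rfl, Equiv.symm_apply_apply, Fin.tail_cons]
    rwa [h6] at h5
  · intro a b x x' hx hx' hee
    rw [he a x hx, he b x' hx'] at hee
    have h5 : (Fin.cons (((σ a : Fin n) : ℕ) : ℝ) x : Fin (N + 1) → ℝ) =
        Fin.cons (((σ b : Fin n) : ℕ) : ℝ) x' := congrArg Subtype.val (h2 hee)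
    obtain ⟨h6, h7⟩ := Fin.cons_inj.1 h5
    refine ⟨?_, h7⟩
    apply σ.injective
    apply Fin.ext
    exact_mod_cast h6
  · rw [hrange]
    exact h3
  · rw [hrange, Set.disjoint_left]
    rintro _ ⟨x, rfl⟩
    exact h4 x

end MG
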