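import Pool.Agent.Work.MP_017613_gt.T6Kit
import Pool.Agent.Work.MP_017613_gt.AbsDefs

/-!
Toolkit (T6), continued: the cube as a cone over its boundary, and as a cone over its boundary
without one open facet (apex = centre of this facet); cells and blocks as cones.
-/

open Set Topology Metric

namespace MG

open Pool.Agent.Work.MP_017613_gt.T6

/-! ### The boundary without the open facet `x i₀ = 0` -/

/-- The boundary of the cube without the open facet `x i₀ = 0`. -/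
def J0 {n : ℕ} (i₀ : Fin n) : Set (Fin n → ℝ) :=
  {x | x ∈ dCu n ∧ ¬ (x i₀ = 0 ∧ ∀ i, i ≠ i₀ → 0 < x i ∧ x i < 1)}

/-- The centre of the facet `x i₀ = 0`. -/
noncomputable def jc {n : ℕ} (i₀ : Fin n) : Fin n → ℝ := fun i => if i = i₀ then 0 else 1 / 2

/-- The weights. -/
noncomputable def jw {n : ℕ} (i₀ i : Fin n) (x : Fin n → ℝ) : ℝ :=
  if i = i₀ then x i else 2 * |x i - 1 / 2|

/-- The gauge: the cube is `{0 ≤ x i₀, jg ≤ 1}`, `J0` is `{0 ≤ x i₀, jg = 1}`. -/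
noncomputable def jg {n : ℕ} (i₀ : Fin n) (x : Fin n → ℝ) : ℝ :=
  Finset.univ.sup' ⟨i₀, Finset.mem_univ _⟩ fun i => jw i₀ i x

lemma le_jg {n : ℕ} (i₀ i : Fin n) (x : Fin n → ℝ) : jw i₀ i x ≤ jg i₀ x :=
  Finset.le_sup' (fun i => jw i₀ i x) (Finset.mem_univ i)

lemma exists_jg {n : ℕ} (i₀ : Fin n) (x : Fin n → ℝ) : ∃ i, jg i₀ x = jw i₀ i x := by
  obtain ⟨i, -, hi⟩ := Finset.exists_mem_eq_sup' ⟨i₀, Finset.mem_univ _⟩ fun i => jw i₀ i x
  exact ⟨i, hi⟩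

lemma continuous_jg {n : ℕ} (i₀ : Fin n) : Continuous (jg i₀) := by
  unfold jg
  refine Continuous.finset_sup'_apply _ fun i _ => ?_
  unfold jw
  split_ifs
  · fun_prop
  · fun_prop

lemma mem_Cu_iff_jg {n : ℕ} {i₀ : Fin n} {x : Fin n → ℝ} :
    x ∈ Cu n ↔ 0 ≤ x i₀ ∧ jg i₀ x ≤ 1 := by
  rw [mem_Cu]
  constructor
  · intro h
    refine ⟨(h i₀).1, ?_⟩
    obtain ⟨i, hi⟩ := exists_jg i₀ x
    rw [hi]
    unfold jw
    split_ifs
    · exact (h i).2
    · have h1 := h i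
      have : |x i - 1 / 2| ≤ 1 / 2 := abs_le.2 ⟨by linarith, by linarith⟩
      linarith
  · rintro ⟨h0, h1⟩ i
    have h2 := (le_jg i₀ i x).trans h1
    unfold jw at h2
    split_ifs at h2 with hi
    · subst hi; exact ⟨h0, h2⟩
    · obtain ⟨h3, h4⟩ := abs_le.1 (by linarith : |x i - 1 / 2| ≤ 1 / 2)
      constructor <;> linarith

lemma mem_J0_iff {n : ℕ} {i₀ : Fin n} {x : Fin n → ℝ} :
    x ∈ J0 i₀ ↔ 0 ≤ x i₀ ∧ jg i₀ x = 1 := by
  constructor
  · rintro ⟨⟨hx, i, hi⟩, hn⟩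
    refine ⟨(mem_Cu.1 hx i₀).1, le_antisymm (mem_Cu_iff_jg.1 hx).2 ?_⟩
    -- there is a facet different from the removed one
    have : ∃ i, (x i = 1) ∨ (i ≠ i₀ ∧ x i = 0) := by
      rcases hi with hi | hi
      · by_cases hii : i = i₀
        · subst hii
          by_contra hc
          push Not at hc
          refine hn ⟨hi, fun l hl => ?_⟩
          have h1 := mem_Cu.1 hx l
          have h2 := hc l
          exact ⟨lt_of_le_of_ne h1.1 (Ne.symm (h2.2 hl)), lt_of_le_of_ne h1.2 h2.1⟩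
        · exact ⟨i, Or.inr ⟨hii, hi⟩⟩
      · exact ⟨i, Or.inl hi⟩
    obtain ⟨l, hl | ⟨hl, hl'⟩⟩ := this
    · refine le_trans ?_ (le_jg i₀ l x)
      unfold jw
      split_ifs
      · rw [hl]
      · rw [hl]; norm_num [abs_of_pos]
    · refine le_trans ?_ (le_jg i₀ l x)
      unfold jw
      rw [if_neg hl, hl']
      norm_num [abs_of_pos]
  · rintro ⟨h0, h1⟩
    have hx : x ∈ Cu n := mem_Cu_iff_jg.2 ⟨h0, h1.le⟩
    obtain ⟨i, hi⟩ := exists_jg i₀ x
    rw [h1] at hi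
    unfold jw at hi
    split_ifs at hi with hii
    · refine ⟨⟨hx, i, Or.inr hi.symm⟩, fun h2 => ?_⟩
      rw [← hii, ← hi] at h2
      exact one_ne_zero h2.1
    · have h3 : |x i - 1 / 2| = 1 / 2 := by linarith
      rcases (abs_eq (by norm_num : (0:ℝ) ≤ 1 / 2)).1 h3 with h4 | h4
      · have h5 : x i = 1 := by linarith
        refine ⟨⟨hx, i, Or.inr h5⟩, fun h2 => ?_⟩
        have := (h2.2 i hii).2
        linarith
      · have h5 : x i = 0 := by linarith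
        refine ⟨⟨hx, i, Or.inl h5⟩, fun h2 => ?_⟩
        have := (h2.2 i hii).1
        linarith

lemma J0_subset {n : ℕ} (i₀ : Fin n) : J0 i₀ ⊆ dCu n := fun _ hx => hx.1

lemma isCompact_J0 {n : ℕ} (i₀ : Fin n) : IsCompact (J0 i₀) := by
  have : J0 i₀ = Cu n ∩ {x | jg i₀ x = 1} := by
    ext x
    rw [mem_J0_iff, mem_inter_iff, mem_Cu_iff_jg (i₀ := i₀)]
    constructor
    · rintro ⟨h1, h2⟩; exact ⟨⟨h1, h2.le⟩, h2⟩
    · rintro ⟨h1, h2⟩; exact ⟨h1.1, h2⟩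
  rw [this]
  exact (isCompact_Cu n).inter_right (isClosed_eq (continuous_jg i₀) continuous_const)

/-- The reflection of the coordinate `i₀`. -/
noncomputable def jr {n : ℕ} (i₀ : Fin n) (x : Fin n → ℝ) : Fin n → ℝ :=
  fun i => if i = i₀ then 1 - x i else x i

lemma continuous_jr {n : ℕ} (i₀ : Fin n) : Continuous (jr i₀) := by
  unfold jr
  refine continuous_pi fun i => ?_
  split_ifs
  · fun_prop
  · fun_prop

lemma jr_jr {n : ℕ} (i₀ : Fin n) (x : Fin n → ℝ) : jr i₀ (jr i₀ x) = x := by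
  funext i
  unfold jr
  split_ifs
  · ring
  · rfl

lemma jr_mem_Cu {n : ℕ} {i₀ : Fin n} {x : Fin n → ℝ} (hx : x ∈ Cu n) : jr i₀ x ∈ Cu n := by
  rw [mem_Cu] at hx ⊢
  intro i
  unfold jr
  have := hx i
  split_ifs
  · constructor <;> linarith
  · exact this

lemma jr_mem_Jn {n : ℕ} {i₀ : Fin n} {x : Fin n → ℝ} (hx : x ∈ J0 i₀) : jr i₀ x ∈ Jn i₀ := by
  refine ⟨jr_mem_Cu hx.1.1, ?_⟩
  obtain ⟨⟨hx, i, hi⟩, hn⟩ := hx
  rcases hi with hi | hi
  · by_cases hii : i = i₀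
    · have : ∃ l, l ≠ i₀ ∧ (x l = 0 ∨ x l = 1) := by
        by_contra hc
        push Not at hc
        refine hn ⟨hii ▸ hi, fun l hl => ?_⟩
        have h1 := mem_Cu.1 hx l
        have h2 := hc l hl
        exact ⟨lt_of_le_of_ne h1.1 (Ne.symm h2.1), lt_of_le_of_ne h1.2 h2.2⟩
      obtain ⟨l, hl, hl' | hl'⟩ := this
      · exact Or.inl ⟨l, by rw [jr, if_neg hl]; exact hl'⟩
      · exact Or.inr ⟨l, hl, by rw [jr, if_neg hl]; exact hl'⟩
    · exact Or.inl ⟨i, by rw [jr, if_neg hii]; exact hi⟩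
  · by_cases hii : i = i₀
    · exact Or.inl ⟨i, by rw [jr, if_pos hii, hi]; norm_num⟩
    · exact Or.inr ⟨i, hii, by rw [jr, if_neg hii]; exact hi⟩

lemma jr_mem_J0 {n : ℕ} {i₀ : Fin n} {x : Fin n → ℝ} (hx : x ∈ Jn i₀) : jr i₀ x ∈ J0 i₀ := by
  obtain ⟨hx, h⟩ := hx
  have hC : jr i₀ x ∈ Cu n := jr_mem_Cu hx
  rcases h with ⟨i, hi⟩ | ⟨i, hii, hi⟩
  · by_cases hii : i = i₀
    · have h1 : jr i₀ x i = 1 := by rw [jr, if_pos hii, hi]; norm_num
      refine ⟨⟨hC, i, Or.inr h1⟩, fun h2 => ?_⟩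
      subst hii
      have h3 := h2.1
      rw [h1] at h3
      exact one_ne_zero h3
    · have h1 : jr i₀ x i = 0 := by rw [jr, if_neg hii]; exact hi
      refine ⟨⟨hC, i, Or.inl h1⟩, fun h2 => ?_⟩
      have h3 := (h2.2 i hii).1
      rw [h1] at h3
      exact lt_irrefl _ h3
  · have h1 : jr i₀ x i = 1 := by rw [jr, if_neg hii]; exact hi
    refine ⟨⟨hC, i, Or.inr h1⟩, fun h2 => ?_⟩
    have h3 := (h2.2 i hii).2
    rw [h1] at h3
    exact lt_irrefl _ h3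

theorem cn_J0 {n : ℕ} (i₀ : Fin n) (m : ℕ) : CN m (J0 i₀) :=
  (cn_Jn i₀ m).retract (i := jr i₀) (r := jr i₀) (continuous_jr i₀).continuousOn
    (fun _ hx => jr_mem_Jn hx) (continuous_jr i₀).continuousOn (fun _ hx => jr_mem_J0 hx)
    fun x _ => jr_jr i₀ x

theorem ul_J0 {n : ℕ} (i₀ : Fin n) : UL (J0 i₀) :=
  (ul_Jn i₀).retract (i := jr i₀) (r := jr i₀)
    ((isCompact_J0 i₀).uniformContinuousOn_of_continuous (continuous_jr i₀).continuousOn)
    (fun _ hx => jr_mem_Jn hx)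
    ((isCompact_Jn i₀).uniformContinuousOn_of_continuous (continuous_jr i₀).continuousOn)
    (fun _ hx => jr_mem_J0 hx) fun x _ => jr_jr i₀ x

theorem conn_J0 (k : ℕ) {n : ℕ} (i₀ : Fin n) : Conn k (J0 i₀) := (cn_J0 i₀ k).kit

theorem ulc_J0 (k : ℕ) {n : ℕ} (i₀ : Fin n) : ULC k (J0 i₀) := (ul_J0 i₀).kit k

lemma J0_nonempty {n : ℕ} (i₀ : Fin n) : (J0 i₀).Nonempty := (cn_J0 i₀ 0).1

lemma Jn_eq {n : ℕ} (i₀ : Fin n) :
    Jn i₀ = {x | x ∈ dCu n ∧ ¬ (x i₀ = 1 ∧ ∀ i, i ≠ i₀ → 0 < x i ∧ x i < 1)} := by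
  ext x
  constructor
  · intro hx
    refine ⟨Jn_subset i₀ hx, fun h => ?_⟩
    rcases hx.2 with ⟨i, hi⟩ | ⟨i, hii, hi⟩
    · by_cases hii : i = i₀
      · rw [hii, h.1] at hi
        exact one_ne_zero hi
      · have := (h.2 i hii).1
        linarith
    · have := (h.2 i hii).2
      linarith
  · rintro ⟨⟨hx, i, hi⟩, hn⟩
    refine ⟨hx, ?_⟩
    rcases hi with hi | hi
    · exact Or.inl ⟨i, hi⟩
    · by_cases hii : i = i₀
      · have : ∃ l, l ≠ i₀ ∧ (x l = 0 ∨ x l = 1) := by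
          by_contra hc
          push Not at hc
          refine hn ⟨hii ▸ hi, fun l hl => ?_⟩
          have h1 := mem_Cu.1 hx l
          have h2 := hc l hl
          exact ⟨lt_of_le_of_ne h1.1 (Ne.symm h2.1), lt_of_le_of_ne h1.2 h2.2⟩
        obtain ⟨l, hl, hl' | hl'⟩ := this
        · exact Or.inl ⟨l, hl'⟩
        · exact Or.inr ⟨l, hl, hl'⟩
      · exact Or.inr ⟨i, hii, hi⟩

/-! ### Cones -/

/-- The cone coordinates with apex `p`. -/
noncomputable def ccn {n : ℕ} (p x : Fin n → ℝ) (t : ℝ) : Fin n → ℝ := p + (1 - t) • (x - p)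

lemma continuous_ccn {n : ℕ} (p : Fin n → ℝ) :
    Continuous (fun q : (Fin n → ℝ) × ℝ => ccn p q.1 q.2) := by
  unfold ccn
  fun_prop

@[simp] lemma ccn_zero {n : ℕ} (p x : Fin n → ℝ) : ccn p x 0 = x := by simp [ccn]

@[simp] lemma ccn_one {n : ℕ} (p x : Fin n → ℝ) : ccn p x 1 = p := by simp [ccn]

/-- a cone structure from a gauge -/
lemma cfam_of_gauge {n : ℕ} {A B : Set (Fin n → ℝ)} {p : Fin n → ℝ} {g : (Fin n → ℝ) → ℝ}
    (hAB : A ⊆ B) (hne : A.Nonempty)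
    (hg : ∀ x t, 0 ≤ t → t ≤ 1 → g (ccn p x t) = (1 - t) * g x)
    (hA : ∀ x ∈ A, g x = 1) (hB : ∀ x ∈ A, ∀ t, 0 ≤ t → t ≤ 1 → ccn p x t ∈ B)
    (h0 : ∀ x ∈ B, 0 ≤ g x ∧ g x ≤ 1) (h1 : ∀ x ∈ B, g x = 0 → x = p)
    (h2 : ∀ x ∈ B, 0 < g x → p + (g x)⁻¹ • (x - p) ∈ A) :
    CFam A A B (fun (_ : Unit) x t => ccn p x t) where
  cont _ := (continuous_ccn p).continuousOn
  base _ x hx := by rw [ccn_zero]; exact hx
  apex _ x _ x' _ := by rw [ccn_one, ccn_one]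
  off _ x hx t ht0 ht1 h := by
    have h3 := hg x t ht0.le ht1
    rw [hA x hx, hA _ h, mul_one] at h3
    linarith
  inj a b x x' t t' hx hx' ht0 ht1 ht0' ht1' h := by
    have h3 := hg x t ht0.le ht1
    have h4 := hg x' t' ht0'.le ht1'
    have h : ccn p x t = ccn p x' t' := h
    rw [hA x hx, mul_one] at h3
    rw [hA x' hx', mul_one, ← h] at h4
    have htt : t = t' := by linarith
    refine ⟨rfl, htt, fun ht => ?_⟩
    subst htt
    have h5 : (1 - t) • (x - p) = (1 - t) • (x' - p) := by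
      have : p + (1 - t) • (x - p) = p + (1 - t) • (x' - p) := h
      exact add_left_cancel this
    have h6 : (1 - t) ≠ 0 := by linarith
    have h7 := smul_right_injective _ h6 h5
    exact sub_left_injective h7
  union := by
    ext z
    simp only [mem_union, mem_ofPred_eq]
    constructor
    · intro hz
      right
      obtain ⟨h3, h4⟩ := h0 z hz
      rcases h3.eq_or_lt with h5 | h5
      · obtain ⟨x, hx⟩ := hne
        refine ⟨(), x, hx, 1, zero_le_one, le_rfl, ?_⟩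
        rw [ccn_one, h1 z hz h5.symm]
      · refine ⟨(), _, h2 z hz h5, 1 - g z, by linarith, by linarith, ?_⟩
        unfold ccn
        rw [add_sub_cancel_left, sub_sub_cancel, smul_smul, mul_inv_cancel₀ h5.ne', one_smul]
        abel
    · rintro (hz | ⟨-, x, hx, t, ht0, ht1, rfl⟩)
      · exact hAB hz
      · exact hB x hx t ht0 ht1

lemma jw_ccn {n : ℕ} (i₀ i : Fin n) (x : Fin n → ℝ) {t : ℝ} (ht : t ≤ 1) :
    jw i₀ i (ccn (jc i₀) x t) = (1 - t) * jw i₀ i x := by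
  unfold jw ccn jc
  simp only [Pi.add_apply, Pi.smul_apply, Pi.sub_apply, smul_eq_mul]
  split_ifs
  · ring
  · rw [add_sub_cancel_left, abs_mul, abs_of_nonneg (by linarith : 0 ≤ 1 - t)]
    ring

lemma jg_ccn {n : ℕ} (i₀ : Fin n) (x : Fin n → ℝ) {t : ℝ} (ht : t ≤ 1) :
    jg i₀ (ccn (jc i₀) x t) = (1 - t) * jg i₀ x := by
  apply le_antisymm
  · obtain ⟨i, hi⟩ := exists_jg i₀ (ccn (jc i₀) x t)
    rw [hi, jw_ccn i₀ i x ht]
    exact mul_le_mul_of_nonneg_left (le_jg i₀ i x) (by linarith)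
  · obtain ⟨i, hi⟩ := exists_jg i₀ x
    rw [hi, ← jw_ccn i₀ i x ht]
    exact le_jg i₀ i _

lemma ccn_same {n : ℕ} (i₀ : Fin n) (x : Fin n → ℝ) (t : ℝ) :
    ccn (jc i₀) x t i₀ = (1 - t) * x i₀ := by
  simp [ccn, jc]

/-- The cube is the cone over the boundary without one open facet, from the centre of this facet. -/
theorem cfam_J0 {n : ℕ} (i₀ : Fin n) :
    CFam (J0 i₀) (J0 i₀) (Cu n) (fun (_ : Unit) x t => ccn (jc i₀) x t) := by
  refine cfam_of_gauge (g := jg i₀) (fun x hx => hx.1.1) (J0_nonempty i₀) ?_ ?_ ?_ ?_ ?_ ?_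
  · intro x t _ ht
    exact jg_ccn i₀ x ht
  · intro x hx
    exact (mem_J0_iff.1 hx).2
  · intro x hx t ht0 ht1
    obtain ⟨h1, h2⟩ := mem_J0_iff.1 hx
    rw [mem_Cu_iff_jg (i₀ := i₀), jg_ccn i₀ x ht1, ccn_same, h2]
    exact ⟨mul_nonneg (by linarith) h1, by linarith⟩
  · intro x hx
    obtain ⟨h1, h2⟩ := mem_Cu_iff_jg (i₀ := i₀) |>.1 hx
    refine ⟨le_trans ?_ (le_jg i₀ i₀ x), h2⟩
    simp only [jw, if_true]
    exact h1
  · intro x hx h
    funext i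
    have h1 := le_jg i₀ i x
    rw [h] at h1
    have h2 := (mem_Cu.1 hx i).1
    unfold jw at h1
    unfold jc
    split_ifs at h1 ⊢ with hi
    · linarith
    · have h3 : |x i - 1 / 2| = 0 := le_antisymm (by linarith) (abs_nonneg _)
      have := abs_eq_zero.1 h3
      linarith
  · intro x hx h
    obtain ⟨h1, h2⟩ := mem_Cu_iff_jg (i₀ := i₀) |>.1 hx
    have h3 : jg i₀ (jc i₀ + (jg i₀ x)⁻¹ • (x - jc i₀)) = 1 := by
      have h4 := jg_ccn i₀ (jc i₀ + (jg i₀ x)⁻¹ • (x - jc i₀)) (t := 1 - jg i₀ x) (by linarith)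
      have h5 : ccn (jc i₀) (jc i₀ + (jg i₀ x)⁻¹ • (x - jc i₀)) (1 - jg i₀ x) = x := by
        unfold ccn
        rw [add_sub_cancel_left, sub_sub_cancel, smul_smul, mul_inv_cancel₀ h.ne', one_smul]
        abel
      rw [h5, sub_sub_cancel] at h4
      have h6 : jg i₀ x * 1 = jg i₀ x * jg i₀ (jc i₀ + (jg i₀ x)⁻¹ • (x - jc i₀)) := by
        rw [mul_one]; exact h4
      exact (mul_left_cancel₀ h.ne' h6).symm
    refine mem_J0_iff.2 ⟨?_, h3⟩
    have h4 : (jc i₀ + (jg i₀ x)⁻¹ • (x - jc i₀)) i₀ = (jg i₀ x)⁻¹ * x i₀ := by simp [jc]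
    rw [h4]
    positivity

/-- The cube is the cone over its boundary. -/
theorem cfam_dCu {n : ℕ} (hn : 1 ≤ n) :
    CFam (dCu n) (dCu n) (Cu n) (fun (_ : Unit) x t => ccn (ce n) x t) := by
  have hcc : ∀ (x : Fin n → ℝ) (t : ℝ), 0 ≤ t → t ≤ 1 →
      2 * ‖ccn (ce n) x t - ce n‖ = (1 - t) * (2 * ‖x - ce n‖) := by
    intro x t _ ht
    unfold ccn
    rw [add_sub_cancel_left, norm_smul, Real.norm_eq_abs, abs_of_nonneg (by linarith)]
    ring
  have hd : ∀ x ∈ dCu n, 2 * ‖x - ce n‖ = 1 := by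
    intro x hx
    have := (mem_Bd_iff_norm hn (x := x)).1 hx
    linarith
  refine cfam_of_gauge (g := fun x => 2 * ‖x - ce n‖) (dCu_subset n)
    (Bd_nonempty hn) hcc hd ?_ ?_ ?_ ?_
  · intro x hx t ht0 ht1
    have h1 := hcc x t ht0 ht1
    rw [hd x hx] at h1
    refine (mem_Cb_iff_norm (x := ccn (ce n) x t)).2 ?_
    linarith
  · intro x hx
    have := (mem_Cb_iff_norm (x := x)).1 hx
    exact ⟨by positivity, by linarith⟩
  · intro x _ h
    have : ‖x - ce n‖ = 0 := by linarith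
    exact sub_eq_zero.1 (norm_eq_zero.1 this)
  · intro x hx h
    have h1 : x ≠ ce n := by
      rintro rfl
      simp at h
    exact rad_mem hn h1

/-! ### Attached cells and blocks as attached cones -/

variable {ι : Type*} {α : Type*} [MetricSpace α]

/-- If the model `B` is a cone over `A`, attached copies of `(B, A)` are attached cones. -/
theorem Fam.cfam {n : ℕ} {B A : Set (Fin n → ℝ)} {K V : Set α} {χ : ι → (Fin n → ℝ) → α}
    {Φ : Unit → (Fin n → ℝ) → ℝ → (Fin n → ℝ)} (h : Fam B A K V χ) (hB : CFam A A B Φ) :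
    CFam A K V (fun i x t => χ i (Φ () x t)) := by
  have hmem : ∀ x ∈ A, ∀ t, 0 ≤ t → t ≤ 1 → Φ () x t ∈ B := fun x hx t ht0 ht1 => by
    rw [hB.union]
    exact Or.inr ⟨(), x, hx, t, ht0, ht1, rfl⟩
  refine ⟨fun i => ?_, fun i x hx => ?_, fun i x hx x' hx' => ?_, fun i x hx t ht0 ht1 => ?_,
    fun i i' x x' t t' hx hx' ht0 ht1 ht0' ht1' he => ?_, ?_⟩
  · exact (h.cont i).comp (hB.cont ()) fun q hq => hmem _ hq.1 _ hq.2.1 hq.2.2
  · exact h.bdry i (hB.base () x hx)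
  · show χ i (Φ () x 1) = χ i (Φ () x' 1)
    rw [hB.apex () x hx x' hx']
  · exact h.off i _ (hmem x hx t ht0.le ht1) (hB.off () x hx t ht0 ht1)
  · obtain ⟨h1, h2⟩ := h.inj i i' _ _ (hmem x hx t ht0.le ht1) (hB.off () x hx t ht0 ht1)
      (hmem x' hx' t' ht0'.le ht1') (hB.off () x' hx' t' ht0' ht1') he
    obtain ⟨-, h3, h4⟩ := hB.inj () () x x' t t' hx hx' ht0 ht1 ht0' ht1' h2
    exact ⟨h1, h3, h4⟩
  · rw [h.union]
    ext z
    simp only [mem_union, mem_iUnion, mem_image, mem_ofPred_eq]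
    constructor
    · rintro (hz | ⟨i, x, hx, rfl⟩)
      · exact Or.inl hz
      · rw [hB.union] at hx
        rcases hx with hx | ⟨-, y, hy, t, ht0, ht1, rfl⟩
        · exact Or.inl (h.bdry i hx)
        · exact Or.inr ⟨i, y, hy, t, ht0, ht1, rfl⟩
    · rintro (hz | ⟨i, y, hy, t, ht0, ht1, rfl⟩)
      · exact Or.inl hz
      · exact Or.inr ⟨i, _, hmem y hy t ht0 ht1, rfl⟩

/-- Attached `n`-cells, `1 ≤ n`, are attached cones over `dCu n`. -/
theorem Fam.cfam_cell {n : ℕ} (hn : 1 ≤ n) {K V : Set α} {χ : ι → (Fin n → ℝ) → α}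
    (h : Fam (Cu n) (dCu n) K V χ) :
    CFam (dCu n) K V (fun i x t => χ i (ccn (ce n) x t)) := h.cfam (cfam_dCu hn)

/-- Blocks attached along `J0` are attached cones over `J0`. -/
theorem Fam.cfam_block {n : ℕ} (i₀ : Fin n) {K V : Set α} {χ : ι → (Fin n → ℝ) → α}
    (h : Fam (Cu n) (J0 i₀) K V χ) :
    CFam (J0 i₀) K V (fun i x t => χ i (ccn (jc i₀) x t)) := h.cfam (cfam_J0 i₀)

end MG
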