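import Pool.Agent.Work.MP_017613_gt.AbsEmb
import Pool.Agent.Work.MP_017613_gt.T6J

/-!
# Absorption: final forms

`absorb`: cones over cubical sets `A` of dimension `≤ k` which are `(k-1)`-connected are absorbed.
`absorb_cell`: `(k+1)`-cells; `absorb_block`: blocks `(I^n, J0)`, `n ≤ k+1`.
-/

open Set Metric Topology

namespace MG

open Pool.Agent.Work.MP_017613_gt (ZS ZD)

/-- **Absorption.** -/
theorem absorb {k N : ℕ} {ι M β : Type*} [Finite ι] [MetricSpace M] [CompactSpace M]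
    [MetricSpace β] {A : Set (Fin N → ℝ)} {K V : Set β} {Φ : ι → (Fin N → ℝ) → ℝ → β}
    (hk : 1 ≤ k) (hU : ULC k (univ : Set M)) (hZ : ZD M) (hAn : A.Nonempty)
    (hAcub : ∀ m : ℕ, 0 < m → IsCub m A)
    (hAdim : ∀ m : ℕ, 0 < m → ∀ x ∈ A, dm (car m x) ≤ k) (hA1 : ULC k A) (hA2 : Conn k A)
    (hK : IsCompact K) (hK1 : ULC k K) (hc : CFam A K V Φ) (hDisc : DISC (univ : Set M) V)
    {ε : ℝ} (hε : 0 < ε) :
    ∃ δ > 0, ∀ g : M → β, IsMap g univ K → L k g univ K δ → ∀ W : Set M, ZS W →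
      ∃ g' : M → β, IsMap g' univ V ∧ L k g' univ V ε ∧ (∀ x ∈ W, dist (g' x) (g x) < ε) ∧
        ∀ x, dist (g' x) (g x) < ε ∨ ∃ a, ∃ y ∈ A, ∃ t, 0 ≤ t ∧ t ≤ 1 ∧
          dist (g' x) (Φ a y t) < ε ∧ dist (g x) (Φ a y 0) < ε := by
  have hAc : IsCompact A := (hAcub 1 one_pos).isCompact
  rcases isEmpty_or_nonempty ι with hι | hι
  · have hV : V = K := by
      rw [hc.union]
      apply union_eq_left.2
      rintro v ⟨a, -⟩
      exact (hι.false a).elim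
    subst hV
    refine ⟨ε, hε, fun g hg hL W _ => ⟨g, hg, hL, fun x _ => by rwa [dist_self], fun x =>
      Or.inl (by rwa [dist_self])⟩⟩
  rcases isEmpty_or_nonempty M with hM | hM
  · refine ⟨1, one_pos, fun g hg hL W _ => ?_⟩
    exact ⟨g, hg.right (by rw [hc.union]; exact subset_union_left), fun j _ _ f0 =>
      (hM.false (f0 0)).elim, fun x => (hM.false x).elim, fun x => (hM.false x).elim⟩
  · exact absorb_core hc hAc hAn hK hA1
      (fun e S ia py hP hS ζ hζ η hη => exists_lev hk hAc hAn hU hA1 hA2 hP hS hζ hη)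
      (hasGrid k M V) (hasEmb k ι M hZ hU hAcub hAdim) (hasLift k ι M hAc hAcub hAdim hK1)
      (hasUV k M hK1) hDisc hε

/-- cones over `A` inside a convex model -/
theorem absorb_fam {k n : ℕ} {ι M β : Type*} [Finite ι] [MetricSpace M] [CompactSpace M]
    [MetricSpace β] {A : Set (Fin n → ℝ)} {p : Fin n → ℝ} {K V : Set β}
    {χ : ι → (Fin n → ℝ) → β} (hk : 1 ≤ k) (hU : ULC k (univ : Set M)) (hZ : ZD M)
    (hAn : A.Nonempty) (hAcub : ∀ m : ℕ, 0 < m → IsCub m A)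
    (hAdim : ∀ m : ℕ, 0 < m → ∀ x ∈ A, dm (car m x) ≤ k) (hA1 : ULC k A) (hA2 : Conn k A)
    (hp : p ∈ Cu n) (hACu : A ⊆ Cu n)
    (hK : IsCompact K) (hK1 : ULC k K) (hc : CFam A K V (fun i x t => χ i (ccn p x t)))
    (hDisc : DISC (univ : Set M) V) {ε : ℝ} (hε : 0 < ε) :
    ∃ δ > 0, ∀ g : M → β, IsMap g univ K → L k g univ K δ → ∀ W : Set M, ZS W →
      ∃ g' : M → β, IsMap g' univ V ∧ L k g' univ V ε ∧ (∀ x ∈ W, dist (g' x) (g x) < ε) ∧
        ∀ x, dist (g' x) (g x) < ε ∨ ∃ a, ∃ z ∈ Cu n, ∃ z' ∈ A,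
          dist (g' x) (χ a z) < ε ∧ dist (g x) (χ a z') < ε := by
  obtain ⟨δ, hδ, h⟩ := absorb hk hU hZ hAn hAcub hAdim hA1 hA2 hK hK1 hc hDisc hε
  refine ⟨δ, hδ, fun g hg hL W hW => ?_⟩
  obtain ⟨g', h1, h2, h3, h4⟩ := h g hg hL W hW
  refine ⟨g', h1, h2, h3, fun x => ?_⟩
  rcases h4 x with h5 | ⟨a, y, hy, t, ht0, ht1, h5, h6⟩
  · exact Or.inl h5
  · refine Or.inr ⟨a, _, ?_, y, hy, h5, by simpa using h6⟩
    have h7 : ccn p y t = t • p + (1 - t) • y := by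
      funext i
      simp only [ccn, Pi.add_apply, Pi.smul_apply, Pi.sub_apply, smul_eq_mul]
      ring
    rw [h7]
    exact convex_Cu n hp (hACu hy) ht0 (by linarith) (by ring)

/-- **Absorption of cells of dimension `k + 1`.** -/
theorem absorb_cell {k : ℕ} {ι M β : Type*} [Finite ι] [MetricSpace M] [CompactSpace M]
    [MetricSpace β] {K V : Set β} {χ : ι → (Fin (k + 1) → ℝ) → β}
    (hk : 1 ≤ k) (hU : ULC k (univ : Set M)) (hZ : ZD M) (hK : IsCompact K) (hK1 : ULC k K)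
    (hF : Fam (Cu (k + 1)) (dCu (k + 1)) K V χ) (hDisc : DISC (univ : Set M) V)
    {ε : ℝ} (hε : 0 < ε) :
    ∃ δ > 0, ∀ g : M → β, IsMap g univ K → L k g univ K δ → ∀ W : Set M, ZS W →
      ∃ g' : M → β, IsMap g' univ V ∧ L k g' univ V ε ∧ (∀ x ∈ W, dist (g' x) (g x) < ε) ∧
        ∀ x, dist (g' x) (g x) < ε ∨ ∃ a, ∃ z ∈ Cu (k + 1), ∃ z' ∈ dCu (k + 1),
          dist (g' x) (χ a z) < ε ∧ dist (g x) (χ a z') < ε := by
  refine absorb_fam hk hU hZ (A := dCu (k + 1)) (K := K) (V := V) ?_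
    (fun m hm => isCub_dCu hm (k + 1))
    (fun m _ x hx => Nat.lt_succ_iff.1 (dm_car_Bd hx))
    (Pool.Agent.Work.MP_017613_gt.T6.kit_ulc_dCu k (k + 1))
    (Pool.Agent.Work.MP_017613_gt.T6.kit_conn_dCu (Nat.lt_succ_self k)) ?_ (dCu_subset _) hK hK1
    (hF.cfam_cell (Nat.le_add_left 1 k)) hDisc hε
  · refine ⟨0, ?_, 0, Or.inl rfl⟩
    rw [mem_Cu]
    intro i
    norm_num
  · rw [mem_Cu]
    intro i
    simp only [Pool.Agent.Work.MP_017613_gt.T6.ce]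
    norm_num

lemma isCub_J0 {m : ℕ} (hm : 0 < m) {n : ℕ} (i₀ : Fin n) : IsCub m (J0 i₀) := by
  refine (isCub_dCu hm n).sub (J0_subset i₀) fun x hx y hy => ?_
  refine ⟨(isCub_dCu hm n).sat x hx.1 hy, ?_⟩
  rintro ⟨hy0, hyi⟩
  have hconst : ∀ i, x i = 0 ∨ x i = 1 → y i = x i := by
    rintro i (h | h)
    · exact coord_const hm (a := 0) (by rw [h]; simp) hy
    · exact coord_const hm (a := m) (by rw [h]; simp) hy
  have hoth : ∀ i, i ≠ i₀ → ¬ (x i = 0 ∨ x i = 1) := by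
    intro i hi h
    have h1 := hconst i h
    have h2 := hyi i hi
    rcases h with h | h <;> rw [h1, h] at h2
    · exact lt_irrefl _ h2.1
    · exact lt_irrefl _ h2.2
  obtain ⟨⟨hxC, i, hi⟩, hn⟩ := hx
  have hii : i = i₀ := by
    by_contra hne
    exact hoth i hne hi
  subst hii
  rcases hi with hi | hi
  · refine hn ⟨hi, fun l hl => ?_⟩
    have h1 := mem_Cu.1 hxC l
    have h2 := hoth l hl
    rw [not_or] at h2
    exact ⟨lt_of_le_of_ne h1.1 (Ne.symm h2.1), lt_of_le_of_ne h1.2 h2.2⟩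
  · have h1 := hconst i (Or.inr hi)
    rw [hy0, hi] at h1
    exact zero_ne_one h1

/-- **Absorption of blocks of dimension `≤ k + 1`.** -/
theorem absorb_block {k n : ℕ} (hn : n ≤ k + 1) (i₀ : Fin n) {ι M β : Type*} [Finite ι]
    [MetricSpace M] [CompactSpace M]
    [MetricSpace β] {K V : Set β} {χ : ι → (Fin n → ℝ) → β}
    (hk : 1 ≤ k) (hU : ULC k (univ : Set M)) (hZ : ZD M) (hK : IsCompact K) (hK1 : ULC k K)
    (hF : Fam (Cu n) (J0 i₀) K V χ) (hDisc : DISC (univ : Set M) V)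
    {ε : ℝ} (hε : 0 < ε) :
    ∃ δ > 0, ∀ g : M → β, IsMap g univ K → L k g univ K δ → ∀ W : Set M, ZS W →
      ∃ g' : M → β, IsMap g' univ V ∧ L k g' univ V ε ∧ (∀ x ∈ W, dist (g' x) (g x) < ε) ∧
        ∀ x, dist (g' x) (g x) < ε ∨ ∃ a, ∃ z ∈ Cu n, ∃ z' ∈ J0 i₀,
          dist (g' x) (χ a z) < ε ∧ dist (g x) (χ a z') < ε := by
  refine absorb_fam hk hU hZ (A := J0 i₀) (K := K) (V := V) (J0_nonempty i₀)
    (fun m hm => isCub_J0 hm i₀)
    (fun m _ x hx => by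
      have := dm_car_Bd (m := m) (J0_subset i₀ hx)
      omega)
    (ulc_J0 k i₀) (conn_J0 k i₀) ?_ ((J0_subset i₀).trans (dCu_subset _)) hK hK1
    (hF.cfam_block i₀) hDisc hε
  rw [mem_Cu]
  intro i
  simp only [jc]
  split_ifs <;> norm_num

end MG
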