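import Pool.Agent.Work.MP_017613_gt.Defs15

/-!
(T2) Collar lemma: a homotopy of the boundary data is inserted in a thin collar of the cube.
(T5) Push-off from `Z`-sets.
-/

open Set Topology Metric

namespace Pool.Agent.Work.MP_017613_gt

/-- The sup-norm distance to the centre of the cube, normalised. -/
noncomputable def cN {j : ℕ} (x : Fin j → ℝ) : ℝ := 2 * ‖x - fun _ => (1 / 2 : ℝ)‖

/-- The homothety with centre the centre of the cube. -/
noncomputable def cH {j : ℕ} (m : ℝ) (x : Fin j → ℝ) : Fin j → ℝ :=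
  (fun _ => (1 / 2 : ℝ)) + m • (x - fun _ => (1 / 2 : ℝ))

lemma continuous_cN {j : ℕ} : Continuous (cN (j := j)) := by
  unfold cN; fun_prop

lemma cN_nonneg {j : ℕ} (x : Fin j → ℝ) : 0 ≤ cN x := by
  unfold cN; positivity

lemma mem_Cb_iff {j : ℕ} {x : Fin j → ℝ} : x ∈ Cb j ↔ cN x ≤ 1 := by
  have h1 : cN x ≤ 1 ↔ ‖x - fun _ => (1 / 2 : ℝ)‖ ≤ 1 / 2 := by
    unfold cN; constructor <;> intro h <;> linarith
  rw [h1, pi_norm_le_iff_of_nonneg (by norm_num)]
  simp only [Cb, mem_Icc, Pi.le_def, Pi.zero_apply, Pi.one_apply, Pi.sub_apply,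
    Real.norm_eq_abs, abs_le]
  constructor
  · rintro ⟨h2, h3⟩ i
    have := h2 i; have := h3 i
    constructor <;> linarith
  · intro h
    exact ⟨fun i => by have := (h i).1; linarith, fun i => by have := (h i).2; linarith⟩

lemma mem_Bd_iff {j : ℕ} {x : Fin j → ℝ} : x ∈ Bd j ↔ cN x = 1 := by
  have hx : ∀ i, |x i - 1 / 2| ≤ ‖x - fun _ => (1 / 2 : ℝ)‖ := fun i => by
    have := norm_le_pi_norm (x - fun _ => (1 / 2 : ℝ)) i
    simpa using this
  constructor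
  · rintro ⟨h1, i, hi⟩
    refine le_antisymm (mem_Cb_iff.1 h1) ?_
    have h2 : |x i - 1 / 2| = 1 / 2 := by
      rcases hi with h | h <;> rw [h] <;> norm_num [abs_of_neg, abs_of_pos]
    have := hx i
    unfold cN
    linarith
  · intro h
    refine ⟨mem_Cb_iff.2 h.le, ?_⟩
    by_contra hcon
    push Not at hcon
    have h1 : x ∈ Cb j := mem_Cb_iff.2 h.le
    have h2 : ‖x - fun _ => (1 / 2 : ℝ)‖ < 1 / 2 := by
      rw [pi_norm_lt_iff (by norm_num)]
      intro i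
      have h3 := h1.1 i
      have h4 := h1.2 i
      have h5 := hcon i
      simp only [Pi.zero_apply, Pi.one_apply] at h3 h4
      rw [Pi.sub_apply, Real.norm_eq_abs, abs_lt]
      have h6 : 0 < x i := lt_of_le_of_ne h3 (Ne.symm h5.1)
      have h7 : x i < 1 := lt_of_le_of_ne h4 h5.2
      constructor <;> linarith
    unfold cN at h
    linarith

lemma cN_cH {j : ℕ} {m : ℝ} (hm : 0 ≤ m) (x : Fin j → ℝ) : cN (cH m x) = m * cN x := by
  unfold cN cH
  rw [add_sub_cancel_left, norm_smul, Real.norm_eq_abs, abs_of_nonneg hm]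
  ring

lemma dist_cH {j : ℕ} (m : ℝ) (x : Fin j → ℝ) : dist x (cH m x) = |1 - m| * (cN x / 2) := by
  have h : x - cH m x = (1 - m) • (x - fun _ => (1 / 2 : ℝ)) := by
    funext i
    simp only [cH, Pi.sub_apply, Pi.add_apply, Pi.smul_apply, smul_eq_mul]
    ring
  rw [dist_eq_norm, h, norm_smul, Real.norm_eq_abs]
  unfold cN
  ring

lemma cH_one {j : ℕ} (x : Fin j → ℝ) : cH 1 x = x := by
  unfold cH; rw [one_smul]; abel

/-- (T2) The collar lemma. -/
theorem collar {M : Type*} [TopologicalSpace M] {j : ℕ} {A₁ : (Fin j → ℝ) → M}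
    {H : (Fin j → ℝ) → ℝ → M} (hA₁ : ContinuousOn A₁ (Cb j))
    (hH : ContinuousOn (fun p : (Fin j → ℝ) × ℝ => H p.1 p.2) (Bd j ×ˢ Icc (0 : ℝ) 1))
    (h1 : ∀ x ∈ Bd j, H x 1 = A₁ x) {w : ℝ} (hw : 0 < w) :
    ∃ A : (Fin j → ℝ) → M, ContinuousOn A (Cb j) ∧ (∀ x ∈ Bd j, A x = H x 0) ∧
      ∀ x ∈ Cb j, (∃ x' ∈ Bd j, ∃ t ∈ Icc (0 : ℝ) 1, A x = H x' t ∧ dist x x' < w) ∨
        (∃ x' ∈ Cb j, A x = A₁ x' ∧ dist x x' < w) := by
  set d : ℝ := min (1 / 2) (w / 2) with hd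
  have hd0 : 0 < d := lt_min (by norm_num) (by linarith)
  have hd1 : d ≤ 1 / 2 := min_le_left _ _
  have hdw : d ≤ w / 2 := min_le_right _ _
  set l : ℝ := 1 - d with hl
  have hl0 : 0 < l := by linarith
  have hl1 : l < 1 := by linarith
  let g₁ : (Fin j → ℝ) → M := fun x => A₁ (cH l⁻¹ x)
  let g₂ : (Fin j → ℝ) → M := fun x => H (cH (cN x)⁻¹ x) ((1 - cN x) / d)
  let S₁ : Set (Fin j → ℝ) := {x | cN x ≤ l}
  let S₂ : Set (Fin j → ℝ) := {x | l ≤ cN x ∧ cN x ≤ 1}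
  have hS₁ : IsClosed S₁ := isClosed_le continuous_cN continuous_const
  have hS₂ : IsClosed S₂ :=
    (isClosed_le continuous_const continuous_cN).inter (isClosed_le continuous_cN continuous_const)
  have hun : Cb j = S₁ ∪ S₂ := by
    ext x
    rw [mem_Cb_iff]
    constructor
    · intro h
      rcases le_total (cN x) l with h' | h'
      · exact Or.inl h'
      · exact Or.inr ⟨h', h⟩
    · rintro (h | h)
      · exact le_trans h hl1.le
      · exact h.2
  have m₁ : ∀ x ∈ S₁, cH l⁻¹ x ∈ Cb j := by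
    intro x hx
    rw [mem_Cb_iff, cN_cH (by positivity)]
    have hx' : cN x ≤ l := hx
    calc l⁻¹ * cN x ≤ l⁻¹ * l := by gcongr
      _ = 1 := inv_mul_cancel₀ hl0.ne'
  have m₂ : ∀ x ∈ S₂, cH (cN x)⁻¹ x ∈ Bd j := by
    intro x hx
    have hp : 0 < cN x := lt_of_lt_of_le hl0 hx.1
    rw [mem_Bd_iff, cN_cH (by positivity), inv_mul_cancel₀ hp.ne']
  have m₃ : ∀ x ∈ S₂, (1 - cN x) / d ∈ Icc (0 : ℝ) 1 := by
    intro x hx
    refine ⟨div_nonneg (by linarith [hx.2]) hd0.le, ?_⟩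
    rw [div_le_one hd0]
    have := hx.1
    linarith
  have c₁ : ContinuousOn g₁ S₁ := by
    refine hA₁.comp (Continuous.continuousOn ?_) m₁
    unfold cH; fun_prop
  have c₂ : ContinuousOn g₂ S₂ := by
    have h2 : ContinuousOn (fun x : Fin j → ℝ => (cH (cN x)⁻¹ x, (1 - cN x) / d)) S₂ := by
      refine ContinuousOn.prodMk ?_ ?_
      · have h3 : ContinuousOn (fun x : Fin j → ℝ => (cN x)⁻¹) S₂ :=
          continuous_cN.continuousOn.inv₀ fun x hx => (lt_of_lt_of_le hl0 hx.1).ne'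
        unfold cH
        exact continuousOn_const.add (h3.smul (continuousOn_id.sub continuousOn_const))
      · exact (continuousOn_const.sub continuous_cN.continuousOn).div_const _
    exact hH.comp h2 fun x hx => ⟨m₂ x hx, m₃ x hx⟩
  have hagree : ∀ x, x ∈ S₁ → x ∈ S₂ → g₁ x = g₂ x := by
    intro x hx hx'
    have h2 : cN x = l := le_antisymm hx hx'.1
    have h3 : (1 - l) / d = 1 := by rw [hl]; field_simp; ring
    show A₁ (cH l⁻¹ x) = H (cH (cN x)⁻¹ x) ((1 - cN x) / d)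
    have h4 := m₂ x hx'
    rw [h2] at h4 ⊢
    rw [h3, h1 _ h4]
  classical
  let A : (Fin j → ℝ) → M := fun x => if cN x ≤ l then g₁ x else g₂ x
  have e₁ : EqOn A g₁ S₁ := fun x hx => if_pos hx
  have e₂ : EqOn A g₂ S₂ := fun x hx => by
    by_cases h : cN x ≤ l
    · rw [e₁ h]; exact hagree x h hx
    · exact if_neg h
  refine ⟨A, ?_, ?_, ?_⟩
  · rw [hun]
    exact (c₁.congr e₁).union_of_isClosed (c₂.congr e₂) hS₁ hS₂
  · intro x hx
    rw [mem_Bd_iff] at hx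
    have hx2 : x ∈ S₂ := ⟨by rw [hx]; exact hl1.le, hx.le⟩
    rw [e₂ hx2]
    show H (cH (cN x)⁻¹ x) ((1 - cN x) / d) = H x 0
    rw [hx, inv_one, cH_one, sub_self, zero_div]
  · intro x hx
    rw [hun] at hx
    rcases hx with hx | hx
    · right
      refine ⟨cH l⁻¹ x, m₁ x hx, e₁ hx, ?_⟩
      have hx' : cN x ≤ l := hx
      have h2 : 1 ≤ l⁻¹ := (one_le_inv₀ hl0).2 hl1.le
      rw [dist_cH, abs_sub_comm, abs_of_nonneg (by linarith)]
      calc (l⁻¹ - 1) * (cN x / 2) ≤ (l⁻¹ - 1) * (l / 2) := by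
            apply mul_le_mul_of_nonneg_left (by linarith) (by linarith)
        _ = (1 - l) / 2 := by field_simp
        _ < w := by rw [hl]; linarith
    · left
      refine ⟨cH (cN x)⁻¹ x, m₂ x hx, (1 - cN x) / d, m₃ x hx, e₂ hx, ?_⟩
      have hp : 0 < cN x := lt_of_lt_of_le hl0 hx.1
      have h2 : 1 ≤ (cN x)⁻¹ := (one_le_inv₀ hp).2 hx.2
      rw [dist_cH, abs_sub_comm, abs_of_nonneg (by linarith)]
      calc ((cN x)⁻¹ - 1) * (cN x / 2) = (1 - cN x) / 2 := by field_simp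
        _ ≤ (1 - l) / 2 := by linarith [hx.1]
        _ < w := by rw [hl]; linarith

/-- (T1), as a property: close maps on the boundary of a cube are homotopic by a small homotopy. -/
def SmallHtpy (k : ℕ) (M : Type*) [MetricSpace M] : Prop :=
  ∀ ε > 0, ∃ δ > 0, ∀ j, 1 ≤ j → j ≤ k → ∀ a b : (Fin j → ℝ) → M,
    ContinuousOn a (Bd j) → ContinuousOn b (Bd j) → (∀ x ∈ Bd j, dist (a x) (b x) < δ) →
    ∃ H : (Fin j → ℝ) → ℝ → M,
      ContinuousOn (fun p : (Fin j → ℝ) × ℝ => H p.1 p.2) (Bd j ×ˢ Icc (0 : ℝ) 1) ∧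
      (∀ x ∈ Bd j, H x 0 = a x) ∧ (∀ x ∈ Bd j, H x 1 = b x) ∧
      ∀ x ∈ Bd j, ∀ t ∈ Icc (0 : ℝ) 1, dist (H x t) (a x) < ε

lemma Bd_zero : Bd 0 = ∅ := by
  ext x
  simp only [Bd, mem_ofPred_eq, mem_empty_iff_false, iff_false, not_and, not_exists]
  intro _ i
  exact i.elim0

/-- (T5) Push-off from a `Z`-set, rel the boundary of the cube. -/
theorem push_off {k : ℕ} {M : Type*} [MetricSpace M] [CompactSpace M] (hT : SmallHtpy k M)
    {S : Set M} (hS : ZSet S) {ε η : ℝ} (hε : 0 < ε) (hη : 0 < η) :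
    ∃ ν > 0, ∀ j ≤ k, ∀ A : (Fin j → ℝ) → M, ContinuousOn A (Cb j) →
      (∀ x ∈ Bd j, ∀ s ∈ S, η ≤ dist (A x) s) →
      ∃ A' : (Fin j → ℝ) → M, ContinuousOn A' (Cb j) ∧ EqOn A' A (Bd j) ∧
        (∀ x ∈ Cb j, dist (A' x) (A x) < ε) ∧ ∀ x ∈ Cb j, ∀ s ∈ S, ν ≤ dist (A' x) s := by
  obtain ⟨δ, hδ, hH⟩ := hT (min (ε / 2) (η / 2)) (by positivity)
  obtain ⟨θ, θc, θd, θS⟩ := hS.2 (min δ (ε / 2)) (by positivity)
  -- the distance of `θ M` to `S`
  obtain ⟨ν₀, hν₀, hθ⟩ : ∃ ν₀ > 0, ∀ x, ∀ s ∈ S, ν₀ ≤ dist (θ x) s := by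
    rcases S.eq_empty_or_nonempty with rfl | hne
    · exact ⟨1, one_pos, fun x s hs => absurd hs (notMem_empty s)⟩
    rcases isEmpty_or_nonempty M with he | hne'
    · exact ⟨1, one_pos, fun x => (he.false x).elim⟩
    have hc : Continuous fun x => infDist (θ x) S := (continuous_infDist_pt S).comp θc
    obtain ⟨x₀, -, hx₀⟩ := isCompact_univ.exists_isMinOn univ_nonempty hc.continuousOn
    have hpos : 0 < infDist (θ x₀) S := (hS.1.notMem_iff_infDist_pos hne).1 (θS x₀)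
    refine ⟨infDist (θ x₀) S, hpos, fun x s hs => ?_⟩
    exact (hx₀ (mem_univ x)).trans (infDist_le_dist_of_mem hs)
  refine ⟨min ν₀ (η / 2), by positivity, fun j hj A hA hAS => ?_⟩
  have hcomp : IsCompact (Cb j) := isCompact_Icc
  have hsub : Bd j ⊆ Cb j := fun x hx => hx.1
  have hθA : ContinuousOn (fun x => θ (A x)) (Cb j) := θc.comp_continuousOn hA
  -- the homotopy
  obtain ⟨H, Hc, H0, H1, Hd⟩ : ∃ H : (Fin j → ℝ) → ℝ → M,
      ContinuousOn (fun p : (Fin j → ℝ) × ℝ => H p.1 p.2) (Bd j ×ˢ Icc (0 : ℝ) 1) ∧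
      (∀ x ∈ Bd j, H x 0 = A x) ∧ (∀ x ∈ Bd j, H x 1 = θ (A x)) ∧
      ∀ x ∈ Bd j, ∀ t ∈ Icc (0 : ℝ) 1, dist (H x t) (A x) < min (ε / 2) (η / 2) := by
    rcases Nat.eq_zero_or_pos j with rfl | hj1
    · refine ⟨fun x _ => A x, ?_, ?_, ?_, ?_⟩
      · rw [Bd_zero, empty_prod]; exact continuousOn_empty _
      · rw [Bd_zero]; intro x hx; exact absurd hx (notMem_empty x)
      · rw [Bd_zero]; intro x hx; exact absurd hx (notMem_empty x)
      · rw [Bd_zero]; intro x hx; exact absurd hx (notMem_empty x)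
    · refine hH j hj1 hj A (fun x => θ (A x)) (hA.mono hsub) (hθA.mono hsub) fun x _ => ?_
      rw [dist_comm]
      exact (θd (A x)).trans_le (min_le_left _ _)
  -- uniform continuity of `A`
  have huc := hcomp.uniformContinuousOn_of_continuous hA
  rw [Metric.uniformContinuousOn_iff] at huc
  obtain ⟨w, hw, hwA⟩ := huc (ε / 2) (by linarith)
  obtain ⟨A', hA', hb, hcase⟩ := collar hθA Hc H1 hw
  refine ⟨A', hA', fun x hx => by rw [hb x hx, H0 x hx], fun x hx => ?_, fun x hx s hs => ?_⟩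
  · rcases hcase x hx with ⟨x', hx', t, ht, he, hd⟩ | ⟨x', hx', he, hd⟩
    · rw [he]
      calc dist (H x' t) (A x) ≤ dist (H x' t) (A x') + dist (A x') (A x) := dist_triangle _ _ _
        _ < ε / 2 + ε / 2 := by
            refine add_lt_add ((Hd x' hx' t ht).trans_le (min_le_left _ _)) ?_
            rw [dist_comm]
            exact hwA x hx x' (hsub hx') hd
        _ = ε := by ring
    · rw [he]
      calc dist (θ (A x')) (A x) ≤ dist (θ (A x')) (A x') + dist (A x') (A x) :=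
            dist_triangle _ _ _
        _ < ε / 2 + ε / 2 := by
            refine add_lt_add ((θd (A x')).trans_le (min_le_right _ _)) ?_
            rw [dist_comm]
            exact hwA x hx x' hx' hd
        _ = ε := by ring
  · rcases hcase x hx with ⟨x', hx', t, ht, he, hd⟩ | ⟨x', hx', he, hd⟩
    · rw [he]
      refine (min_le_right _ _).trans ?_
      have h1 := hAS x' hx' s hs
      have h2 := (Hd x' hx' t ht).trans_le (min_le_right _ _)
      have h3 := dist_triangle_left (A x') s (H x' t)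
      linarith
    · rw [he]
      exact (min_le_left _ _).trans (hθ _ s hs)

/-- (T5), form with `infDist`. -/
theorem push_off' {k : ℕ} {M : Type*} [MetricSpace M] [CompactSpace M] (hT : SmallHtpy k M)
    {S : Set M} (hS : ZSet S) (hne : S.Nonempty) {ε η : ℝ} (hε : 0 < ε) (hη : 0 < η) :
    ∃ ν > 0, ∀ j ≤ k, ∀ A : (Fin j → ℝ) → M, ContinuousOn A (Cb j) →
      (∀ x ∈ Bd j, η ≤ infDist (A x) S) →
      ∃ A' : (Fin j → ℝ) → M, ContinuousOn A' (Cb j) ∧ EqOn A' A (Bd j) ∧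
        (∀ x ∈ Cb j, dist (A' x) (A x) < ε) ∧ ∀ x ∈ Cb j, ν ≤ infDist (A' x) S := by
  obtain ⟨ν, hν, h⟩ := push_off hT hS hε hη
  refine ⟨ν, hν, fun j hj A hA hb => ?_⟩
  obtain ⟨A', h1, h2, h3, h4⟩ := h j hj A hA fun x hx s hs =>
    (hb x hx).trans (infDist_le_dist_of_mem hs)
  exact ⟨A', h1, h2, h3, fun x hx => (le_infDist hne).2 fun {s} hs => h4 x hx s hs⟩

end Pool.Agent.Work.MP_017613_gt
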