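import Pool.Agent.Work.MP_017613_gt.AbsDefs
import Pool.Agent.Work.MP_017613_gt.Coarse
import Pool.Agent.Work.MP_017613_gt.Collar

/-!
# Absorption, part A: existence of systems of levels

`exists_lev`: around a parametrised Z-set `S = ⋃ e a '' A`, with `A` compact, `ULC^(k-1)` and
`(k-1)`-connected, there are systems of levels `ν` (structure `ALev`) of any size and tolerance.
-/

open Set Metric Topology

namespace MG

open Pool.Agent.Work.MP_017613_gt (ZS SmallHtpy Cb Bd collar push_off' ZSet)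

/-! ### Two consequences of `coarse` -/

/-- close points of the cubes of a fine grid -/
lemma exists_lev_mesh {N : ℕ} {P : Set (Fin N → ℝ)} (hP : ∀ m : ℕ, 0 < m → IsCub m P) {r : ℝ}
    (hr : 0 < r) : ∃ m : ℕ, 0 < m ∧ ∀ x ∈ P, ∀ y ∈ cube m (car m x), y ∈ P ∧ dist x y < r := by
  obtain ⟨m, hm⟩ := exists_nat_gt (1 / r)
  have hm0 : (0 : ℝ) < m := lt_trans (by positivity) hm
  have hm1 : 0 < m := by exact_mod_cast hm0
  refine ⟨m, hm1, fun x hx y hy => ⟨(hP m hm1).sat x hx hy, ?_⟩⟩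
  refine (dist_le_of_mem_cube hm1 (mem_cube_car m x) hy).trans_lt ?_
  rwa [div_lt_comm₀ hm0 hr]

/-- (T3) on the boundary of a cube: functions with small jumps are close to maps. -/
theorem smallJump_dCu {E : Type*} [MetricSpace E] {k : ℕ} {A : Set E} (hA : ULC k A) {κ : ℝ}
    (hκ : 0 < κ) : ∃ δ > 0, ∀ j ≤ k, ∀ h : (Fin j → ℝ) → E, MapsTo h (dCu j) A →
      (∃ r > 0, ∀ x ∈ dCu j, ∀ y ∈ dCu j, dist x y < r → dist (h x) (h y) < δ) →
      ∃ g : (Fin j → ℝ) → E, IsMap g (dCu j) A ∧ ∀ x ∈ dCu j, dist (g x) (h x) < κ := by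
  obtain ⟨δ, hδ, hC⟩ := coarse hA hκ
  refine ⟨δ, hδ, fun j hj h hh ⟨r, hr, hjump⟩ => ?_⟩
  obtain ⟨m, hm, hmesh⟩ := exists_lev_mesh (fun m hm => isCub_dCu hm j) hr
  obtain ⟨F, h1, -, h3⟩ := hC hm (isCub_dCu hm j) (IsCub.empty m) (empty_subset _)
    (fun x hx _ => (dm_car_Bd hx).le.trans hj) h hh (continuousOn_empty _)
    (fun x hx y hy => hjump x hx y (hmesh x hx y hy).1 (hmesh x hx y hy).2)
  exact ⟨F, h1, h3⟩

/-- (T1) close maps on the boundary of a cube are joined by a small homotopy. -/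
theorem smallHtpy_of_ULC {M : Type*} [MetricSpace M] {k : ℕ} (hU : ULC k (univ : Set M)) :
    SmallHtpy k M := by
  intro ε hε
  obtain ⟨δ, hδ, hC⟩ := coarse hU (half_pos hε)
  refine ⟨min (δ / 2) (ε / 2), by positivity, ?_⟩
  intro j hj hjk a b ha hb hab
  obtain ⟨r1, hr1, hua⟩ := Metric.uniformContinuousOn_iff.1
    ((isCompact_dCu j).uniformContinuousOn_of_continuous ha) (δ / 2) (by positivity)
  obtain ⟨r2, hr2, hub⟩ := Metric.uniformContinuousOn_iff.1
    ((isCompact_dCu j).uniformContinuousOn_of_continuous hb) (δ / 2) (by positivity)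
  have hcub : ∀ m : ℕ, 0 < m → IsCub m (prodI (dCu j)) := fun m hm => (isCub_dCu hm j).prodI hm
  obtain ⟨m, hm, hmesh⟩ := exists_lev_mesh hcub (r := min r1 r2) (by positivity)
  classical
  let φ : (Fin (j + 1) → ℝ) → M := fun x => if x 0 = 1 then b (Fin.tail x) else a (Fin.tail x)
  have htail : Continuous (Fin.tail : (Fin (j + 1) → ℝ) → Fin j → ℝ) :=
    continuous_pi fun i => continuous_apply _
  have htd : ∀ x y : Fin (j + 1) → ℝ, dist (Fin.tail x) (Fin.tail y) ≤ dist x y := by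
    intro x y
    rw [dist_pi_le_iff dist_nonneg]
    exact fun i => dist_le_pi_dist x y i.succ
  have hφ1 : ∀ x : Fin (j + 1) → ℝ, x 0 = 1 → φ x = b (Fin.tail x) := fun x hx => if_pos hx
  have hφ0 : ∀ x : Fin (j + 1) → ℝ, x 0 ≠ 1 → φ x = a (Fin.tail x) := fun x hx => if_neg hx
  have hφa : ∀ x ∈ prodI (dCu j), dist (φ x) (a (Fin.tail x)) < min (δ / 2) (ε / 2) := by
    intro x hx
    by_cases h : x 0 = 1
    · rw [hφ1 x h, dist_comm]
      exact hab _ hx.2.2
    · rw [hφ0 x h, dist_self]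
      positivity
  have hcont : ContinuousOn φ (endsI (dCu j)) := by
    have he : endsI (dCu j) = ({x | x 0 = 1} ∩ Fin.tail ⁻¹' (dCu j)) ∪
        ({x : Fin (j + 1) → ℝ | x 0 = 0} ∩ Fin.tail ⁻¹' (dCu j)) := by
      ext x
      simp only [endsI, mem_ofPred_eq, mem_union, mem_inter_iff, mem_preimage]
      tauto
    have hc : IsClosed (Fin.tail ⁻¹' (dCu j) : Set (Fin (j + 1) → ℝ)) :=
      (isClosed_dCu j).preimage htail
    rw [he]
    refine ContinuousOn.union_of_isClosed ?_ ?_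
      ((isClosed_eq (continuous_apply 0) continuous_const).inter hc)
      ((isClosed_eq (continuous_apply 0) continuous_const).inter hc)
    · exact (hb.comp htail.continuousOn fun x hx => hx.2).congr fun x hx => hφ1 x hx.1
    · refine (ha.comp htail.continuousOn fun x hx => hx.2).congr fun x hx => hφ0 x ?_
      rw [show x 0 = 0 from hx.1]
      exact zero_ne_one
  obtain ⟨F, hF, hFe, hFd⟩ := hC hm (hcub m hm) ((isCub_dCu hm j).endsI hm) (endsI_subset _)
    (by
      intro x hx _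
      have h1 := dm_le_succ_tail (car m x)
      rw [car_tail] at h1
      have h2 : dm (car m (Fin.tail x)) < j := dm_car_Bd hx.2.2
      omega) φ (mapsTo_univ _ _) hcont
    (by
      intro x hx y hy
      obtain ⟨hyP, hxy⟩ := hmesh x hx y hy
      have hxy1 : dist (Fin.tail x) (Fin.tail y) < r1 :=
        (htd x y).trans_lt (hxy.trans_le (min_le_left _ _))
      have hxy2 : dist (Fin.tail x) (Fin.tail y) < r2 :=
        (htd x y).trans_lt (hxy.trans_le (min_le_right _ _))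
      by_cases h1 : x 0 = 1
      · by_cases h2 : y 0 = 1
        · rw [hφ1 x h1, hφ1 y h2]
          exact (hub _ hx.2.2 _ hyP.2.2 hxy2).trans (half_lt_self hδ)
        · have h3 := (hφa x hx).trans_le (min_le_left _ _)
          rw [hφ0 y h2]
          have h4 := hua _ hx.2.2 _ hyP.2.2 hxy1
          have h5 := dist_triangle (φ x) (a (Fin.tail x)) (a (Fin.tail y))
          linarith
      · have h3 := (hφa y hyP).trans_le (min_le_left _ _)
        rw [hφ0 x h1]
        have h4 := hua _ hx.2.2 _ hyP.2.2 hxy1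
        have h5 := dist_triangle_right (a (Fin.tail x)) (φ y) (a (Fin.tail y))
        linarith)
  have hmem : ∀ x ∈ dCu j, ∀ t ∈ Icc (0 : ℝ) 1,
      (Fin.cons t x : Fin (j + 1) → ℝ) ∈ prodI (dCu j) := by
    intro x hx t ht
    refine ⟨ht.1, ht.2, ?_⟩
    rw [Fin.tail_cons]
    exact hx
  refine ⟨fun x t => F (Fin.cons t x), ?_, ?_, ?_, ?_⟩
  · refine hF.cont.comp (Continuous.continuousOn ?_) fun p hp => hmem p.1 hp.1 p.2 hp.2
    refine continuous_pi fun i => ?_
    refine Fin.cases ?_ (fun i => ?_) i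
    · exact continuous_snd
    · exact (continuous_apply i).comp continuous_fst
  · intro x hx
    have h1 : (Fin.cons 0 x : Fin (j + 1) → ℝ) ∈ endsI (dCu j) :=
      ⟨Or.inl rfl, by rw [Fin.tail_cons]; exact hx⟩
    show F (Fin.cons 0 x) = a x
    rw [hFe h1, hφ0 _ (by simp), Fin.tail_cons]
  · intro x hx
    have h1 : (Fin.cons 1 x : Fin (j + 1) → ℝ) ∈ endsI (dCu j) :=
      ⟨Or.inr rfl, by rw [Fin.tail_cons]; exact hx⟩
    show F (Fin.cons 1 x) = b x
    rw [hFe h1, hφ1 _ (by simp), Fin.tail_cons]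
  · intro x hx t ht
    have h1 := hFd _ (hmem x hx t ht)
    have h2 := (hφa _ (hmem x hx t ht)).trans_le (min_le_right _ _)
    rw [Fin.tail_cons] at h2
    have h3 := dist_triangle (F (Fin.cons t x)) (φ (Fin.cons t x)) (a x)
    show dist (F (Fin.cons t x)) (a x) < ε
    linarith

/-! ### Levels -/

section ALev

variable {ι : Type*} {E M : Type*} [MetricSpace E] [MetricSpace M]
  {A : Set E} {e : ι → E → M} {S : Set M} {ia : M → ι} {py : M → E}

lemma Par.mem_S (h : Par A e S ia py) (a : ι) {y : E} (hy : y ∈ A) : e a y ∈ S := by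
  rw [h.eq]
  exact mem_iUnion.2 ⟨a, y, hy, rfl⟩

lemma Par.nearest (h : Par A e S ia py) (a : ι) {y : E} (hy : y ∈ A) :
    ia (e a y) = a ∧ py (e a y) = y := by
  have h1 := h.near (e a y)
  rw [infDist_zero_of_mem (h.mem_S a hy)] at h1
  obtain ⟨h2, h3⟩ := h.inj _ _ _ _ hy (h.mem _) (dist_eq_zero.1 h1)
  exact ⟨h2.symm, h3.symm⟩

/-- inverse modulus of continuity of the parametrisation -/
lemma Par.modulus [Finite ι] (h : Par A e S ia py) (hA : IsCompact A) {η : ℝ} (hη : 0 < η) :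
    ∃ ρ > 0, ∀ a b : ι, ∀ y ∈ A, ∀ z ∈ A, dist (e a y) (e b z) < ρ → a = b ∧ dist y z < η := by
  have key : ∀ a b : ι, ∃ ρ > 0, ∀ y ∈ A, ∀ z ∈ A, dist (e a y) (e b z) < ρ →
      a = b ∧ dist y z < η := by
    intro a b
    let T : Set (E × E) := {p | p.1 ∈ A ∧ p.2 ∈ A ∧ (a = b → η ≤ dist p.1 p.2)}
    have hT : IsCompact T := by
      have h1 : T = (A ×ˢ A) ∩ {p : E × E | a = b → η ≤ dist p.1 p.2} := by
        ext p
        simp only [T, mem_ofPred_eq, mem_inter_iff, mem_prod]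
        tauto
      rw [h1]
      refine (hA.prod hA).inter_right ?_
      by_cases hab : a = b
      · simp only [hab, forall_const]
        exact isClosed_le continuous_const continuous_dist
      · simp [hab]
    by_cases hTe : T.Nonempty
    · have hc : ContinuousOn (fun p : E × E => dist (e a p.1) (e b p.2)) T := by
        refine continuous_dist.comp_continuousOn (ContinuousOn.prodMk ?_ ?_)
        · exact (h.cont a).comp continuousOn_fst fun p hp => hp.1
        · exact (h.cont b).comp continuousOn_snd fun p hp => hp.2.1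
      obtain ⟨p, hp, hmin⟩ := hT.exists_isMinOn hTe hc
      have hpos : 0 < dist (e a p.1) (e b p.2) := by
        rw [dist_pos]
        intro he
        obtain ⟨h2, h3⟩ := h.inj _ _ _ _ hp.1 hp.2.1 he
        have h4 := hp.2.2 h2
        rw [h3, dist_self] at h4
        linarith
      refine ⟨_, hpos, fun y hy z hz hd => ?_⟩
      by_contra hcon
      have hyz : (y, z) ∈ T := by
        refine ⟨hy, hz, fun hab => ?_⟩
        by_contra hlt
        exact hcon ⟨hab, not_le.1 hlt⟩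
      exact absurd (hmin hyz) (not_le.2 hd)
    · refine ⟨1, one_pos, fun y hy z hz _ => ?_⟩
      by_contra hcon
      refine hTe ⟨(y, z), hy, hz, fun hab => ?_⟩
      by_contra hlt
      exact hcon ⟨hab, not_le.1 hlt⟩
  choose ρ hρ hk using key
  rcases isEmpty_or_nonempty ι with hι | hι
  · exact ⟨1, one_pos, fun a => (hι.false a).elim⟩
  have : Nonempty (ι × ι) := inferInstance
  obtain ⟨p, hp⟩ := Finite.exists_min (fun p : ι × ι => ρ p.1 p.2)
  exact ⟨ρ p.1 p.2, hρ _ _, fun a b y hy z hz hd => hk a b y hy z hz (hd.trans_le (hp (a, b)))⟩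

/-- parameters of near points -/
lemma Par.near_par [Finite ι] (h : Par A e S ia py) (hA : IsCompact A) {η : ℝ} (hη : 0 < η) :
    ∃ ρ > 0, ∀ x x', infDist x S + infDist x' S + dist x x' < ρ →
      ia x = ia x' ∧ dist (py x) (py x') < η := by
  obtain ⟨ρ, hρ, hm⟩ := h.modulus hA hη
  refine ⟨ρ, hρ, fun x x' hx => hm _ _ _ (h.mem x) _ (h.mem x') ?_⟩
  have h1 := h.near x
  have h2 := h.near x'
  have h3 := dist_triangle4 (e (ia x) (py x)) x x' (e (ia x') (py x'))
  rw [dist_comm] at h1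
  linarith

lemma FillL.mono {k : ℕ} {η d₁ d₂ d : ℝ} (h : FillL k A S ia py η d₂ d) (h12 : d₁ ≤ d₂) :
    FillL k A S ia py η d₁ d := by
  intro j hj hjk a α hα hb
  exact h j hj hjk a α hα fun x hx => ⟨(hb x hx).1.trans_le h12, (hb x hx).2⟩

lemma PushL.mono {k : ℕ} {ε d d₁ d₂ : ℝ} (h : PushL k S ε d d₂) (h12 : d₁ ≤ d₂) :
    PushL k S ε d d₁ := by
  intro j hj F hF hb
  obtain ⟨G, h1, h2, h3, h4⟩ := h j hj F hF hb
  exact ⟨G, h1, h2, h3, fun x hx => h12.trans (h4 x hx)⟩

lemma zset_of_ZS [CompactSpace M] {S : Set M} (h : ZS S) : ZSet S := by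
  refine ⟨h.1, fun ε hε => ?_⟩
  obtain ⟨φ, h1, h2⟩ := h.2 ε hε
  exact ⟨φ, φ.continuous, h1, h2⟩

variable [CompactSpace M]

/-- a map missing `S` stays away from `S` -/
lemma exists_low {S : Set M} (hS : IsClosed S) (hne : S.Nonempty) {θ : M → M} (hθ : Continuous θ)
    (hθS : ∀ x, θ x ∉ S) : ∃ μ > 0, ∀ x, μ ≤ infDist (θ x) S := by
  rcases isEmpty_or_nonempty M with he | hM
  · exact ⟨1, one_pos, fun x => (he.false x).elim⟩
  have hc : Continuous fun x => infDist (θ x) S := (continuous_infDist_pt S).comp hθ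
  obtain ⟨x₀, -, hx₀⟩ := isCompact_univ.exists_isMinOn univ_nonempty hc.continuousOn
  exact ⟨_, (hS.notMem_iff_infDist_pos hne).1 (hθS x₀), fun x => hx₀ (mem_univ x)⟩

/-- points at all small distances from `S`, near every point of `S` -/
lemma exists_vert {k : ℕ} (hk : 1 ≤ k) (hU : ULC k (univ : Set M)) (hS : ZS S) (hne : S.Nonempty)
    {r : ℝ} (hr : 0 < r) :
    ∃ μ > 0, ∀ s ∈ S, ∀ t, 0 ≤ t → t ≤ μ → ∃ p, infDist p S = t ∧ dist p s < r := by
  obtain ⟨δ, hδ, hUV⟩ := hU r hr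
  obtain ⟨θ, hθ, hθS⟩ := hS.2 δ hδ
  obtain ⟨μ, hμ, hlow⟩ := exists_low hS.1 hne θ.continuous hθS
  refine ⟨μ, hμ, fun s hs t ht htμ => ?_⟩
  classical
  let α : (Fin 1 → ℝ) → M := fun x => if x 0 = 0 then s else θ s
  have hα : ContinuousOn α (dCu 1) := by
    have he : dCu 1 = {x : Fin 1 → ℝ | x 0 = 0} ∪ {x : Fin 1 → ℝ | x 0 = 1} := by
      ext x
      constructor
      · rintro ⟨-, i, hi⟩
        rw [Subsingleton.elim i 0] at hi
        exact hi
      · intro hx
        refine ⟨?_, 0, hx⟩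
        rw [mem_Cu]
        intro i
        rw [Subsingleton.elim i 0]
        rcases hx with h | h
        · rw [show x 0 = 0 from h]; norm_num
        · rw [show x 0 = 1 from h]; norm_num
    rw [he]
    refine ContinuousOn.union_of_isClosed ?_ ?_
      (isClosed_eq (continuous_apply 0) continuous_const)
      (isClosed_eq (continuous_apply 0) continuous_const)
    · exact continuousOn_const.congr fun x hx => if_pos hx
    · refine (continuousOn_const (c := θ s)).congr fun x hx => if_neg ?_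
      rw [show x 0 = 1 from hx]
      exact one_ne_zero
  obtain ⟨F, hF, hFe, hFd⟩ := hUV 1 hk s (mem_univ s) α ⟨hα, mapsTo_univ _ _⟩ (by
    intro x _
    show dist (if x 0 = 0 then s else θ s) s < δ
    split_ifs
    · rwa [dist_self]
    · exact hθ s)
  -- the path
  let c : ℝ → (Fin 1 → ℝ) := fun u _ => u
  have hc : Continuous c := continuous_pi fun _ => continuous_id
  have hcm : ∀ u ∈ Icc (0 : ℝ) 1, c u ∈ Cu 1 := by
    intro u hu
    rw [mem_Cu]
    exact fun _ => hu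
  have hD : ContinuousOn (fun u => infDist (F (c u)) S) (Icc (0 : ℝ) 1) :=
    (continuous_infDist_pt S).comp_continuousOn (hF.cont.comp hc.continuousOn hcm)
  have h0 : c 0 ∈ dCu 1 := ⟨hcm 0 (by simp), 0, Or.inl rfl⟩
  have h1 : c 1 ∈ dCu 1 := ⟨hcm 1 (by simp), 0, Or.inr rfl⟩
  have e0 : F (c 0) = s := by
    rw [hFe h0]
    exact if_pos rfl
  have e1 : F (c 1) = θ s := by
    rw [hFe h1]
    exact if_neg (by show (1 : ℝ) ≠ 0; exact one_ne_zero)
  have hivt := intermediate_value_Icc zero_le_one hD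
  have hmem : t ∈ Icc (infDist (F (c 0)) S) (infDist (F (c 1)) S) := by
    rw [e0, e1, infDist_zero_of_mem hs]
    exact ⟨ht, htμ.trans (hlow s)⟩
  obtain ⟨u, hu, hut⟩ := hivt hmem
  exact ⟨F (c u), hut, hFd _ (hcm u hu)⟩

omit [CompactSpace M] in
/-- the filling step -/
lemma Par.fill [Finite ι] {k : ℕ} (h : Par A e S ia py) (hA : IsCompact A)
    (hU : ULC k (univ : Set M)) (hUA : ULC k A) (hCA : Conn k A) {η ν₀ d : ℝ} (hη : 0 < η)
    (hd : 0 < d) (hdν : d ≤ ν₀)
    (hpar : ∀ x x', infDist x S < 2 * ν₀ → infDist x' S < 2 * ν₀ → dist x x' < 2 * ν₀ →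
      ia x = ia x' ∧ dist (py x) (py x') < η) :
    ∃ d' > 0, FillL k A S ia py η d' d := by
  have hT1 : SmallHtpy k M := smallHtpy_of_ULC hU
  obtain ⟨δ₁, hδ₁, hH⟩ := hT1 (d / 4) (by positivity)
  -- uniform continuity of `e`
  have hunif : ∃ κ > 0, ∀ a : ι, ∀ y ∈ A, ∀ z ∈ A, dist y z < κ →
      dist (e a y) (e a z) < δ₁ / 2 := by
    have h1 : ∀ a : ι, ∃ κ > 0, ∀ y ∈ A, ∀ z ∈ A, dist y z < κ →
        dist (e a y) (e a z) < δ₁ / 2 := by
      intro a
      exact Metric.uniformContinuousOn_iff.1 (hA.uniformContinuousOn_of_continuous (h.cont a))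
        (δ₁ / 2) (by positivity)
    choose κ hκ hk using h1
    rcases isEmpty_or_nonempty ι with hι | hι
    · exact ⟨1, one_pos, fun a => (hι.false a).elim⟩
    obtain ⟨b, hb⟩ := Finite.exists_min κ
    exact ⟨κ b, hκ b, fun a y hy z hz hd => hk a y hy z hz (hd.trans_le (hb a))⟩
  obtain ⟨κ₁, hκ₁, hunif⟩ := hunif
  obtain ⟨δ₃, hδ₃, hT3⟩ := smallJump_dCu hUA (κ := min κ₁ η) (by positivity)
  obtain ⟨ρ, hρ, hmod⟩ := h.near_par hA hδ₃
  refine ⟨min (d / 4) (min (δ₁ / 2) (ρ / 4)), by positivity, ?_⟩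
  intro j hj hjk a α hα hb
  have hb1 : ∀ x ∈ dCu j, infDist (α x) S < d / 4 := fun x hx =>
    (hb x hx).1.trans_le (min_le_left _ _)
  have hb2 : ∀ x ∈ dCu j, infDist (α x) S < δ₁ / 2 := fun x hx =>
    (hb x hx).1.trans_le ((min_le_right _ _).trans (min_le_left _ _))
  have hb3 : ∀ x ∈ dCu j, infDist (α x) S < ρ / 4 := fun x hx =>
    (hb x hx).1.trans_le ((min_le_right _ _).trans (min_le_right _ _))
  -- the parameters, made continuous
  obtain ⟨r, hr, hur⟩ := Metric.uniformContinuousOn_iff.1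
    ((isCompact_dCu j).uniformContinuousOn_of_continuous hα) (ρ / 2) (by positivity)
  obtain ⟨g, hg, hgd⟩ := hT3 j hjk (fun x => py (α x)) (fun x _ => h.mem _) ⟨r, hr, by
    intro x hx y hy hxy
    refine (hmod _ _ ?_).2
    have h1 := hur x hx y hy hxy
    have h2 := hb3 x hx
    have h3 := hb3 y hy
    linarith⟩
  have hgα : ∀ x ∈ dCu j, dist (α x) (e a (g x)) < δ₁ := by
    intro x hx
    have h1 := hunif a _ (h.mem (α x)) _ (hg.maps hx) (by
      rw [dist_comm]
      exact (hgd x hx).trans_le (min_le_left _ _))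
    have h2 := h.near (α x)
    rw [(hb x hx).2] at h2
    have h3 := hb2 x hx
    have h4 := dist_triangle (α x) (e a (py (α x))) (e a (g x))
    linarith
  obtain ⟨H, Hc, H0, H1, Hd⟩ := hH j hj hjk α (fun x => e a (g x)) hα
    ((h.cont a).comp hg.cont hg.maps) hgα
  -- facts about the homotopy
  have hHpar : ∀ x ∈ dCu j, ∀ t ∈ Icc (0 : ℝ) 1, infDist (H x t) S < d ∧ ia (H x t) = a ∧
      dist (py (H x t)) (py (α x)) < η := by
    intro x hx t ht
    have h1 := Hd x hx t ht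
    have h2 : infDist (H x t) S ≤ infDist (α x) S + dist (H x t) (α x) := infDist_le_infDist_add_dist
    have h3 := hb1 x hx
    obtain ⟨h4, h5⟩ := hpar (H x t) (α x) (by linarith) (by linarith) (by linarith)
    exact ⟨by linarith, by rw [h4, (hb x hx).2], h5⟩
  -- assembly, given an extension of `g`
  have main : ∀ G : (Fin j → ℝ) → E, IsMap G (Cu j) A → EqOn G g (dCu j) →
      ∃ F : (Fin j → ℝ) → M, ContinuousOn F (Cu j) ∧ EqOn F α (dCu j) ∧
        ∀ x ∈ Cu j, infDist (F x) S < d ∧ ia (F x) = a ∧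
          ((∃ x' ∈ dCu j, dist (py (F x)) (py (α x')) < η) ∨ ∃ x' ∈ Cu j, py (F x) = G x') := by
    intro G hG hGg
    obtain ⟨F, hFc, hFb, hcase⟩ := collar (A₁ := fun x => e a (G x)) (H := H)
      ((h.cont a).comp hG.cont hG.maps) Hc (fun x hx => by rw [H1 x hx, hGg hx]) one_pos
    refine ⟨F, hFc, fun x hx => by rw [hFb x hx, H0 x hx], fun x hx => ?_⟩
    rcases hcase x hx with ⟨x', hx', t, ht, he, -⟩ | ⟨x', hx', he, -⟩
    · obtain ⟨h1, h2, h3⟩ := hHpar x' hx' t ht
      rw [he]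
      exact ⟨h1, h2, Or.inl ⟨x', hx', h3⟩⟩
    · obtain ⟨h1, h2⟩ := h.nearest a (hG.maps hx')
      rw [he]
      refine ⟨?_, h1, Or.inr ⟨x', hx', h2⟩⟩
      rw [infDist_zero_of_mem (h.mem_S a (hG.maps hx'))]
      exact hd
  constructor
  · obtain ⟨G, hG, hGg⟩ := hCA j hjk g hg
    obtain ⟨F, h1, h2, h3⟩ := main G hG hGg
    exact ⟨F, h1, h2, fun x hx => ⟨(h3 x hx).1, (h3 x hx).2.1⟩⟩
  · intro y s s' hy hss' hUV hys
    obtain ⟨G, hG, hGg, hGd⟩ := hUV j hjk y hy g hg (by
      intro x hx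
      have h1 := (hgd x hx).trans_le (min_le_right _ _)
      have h2 := hys x hx
      have h3 := dist_triangle (g x) (py (α x)) y
      show dist (g x) y < s + η
      linarith)
    obtain ⟨F, h1, h2, h3⟩ := main G hG hGg
    refine ⟨F, h1, h2, fun x hx => ⟨(h3 x hx).1, (h3 x hx).2.1, ?_⟩⟩
    rcases (h3 x hx).2.2 with ⟨x', hx', h4⟩ | ⟨x', hx', h4⟩
    · have h5 := hys x' hx'
      have h6 := dist_triangle (py (F x)) (py (α x')) y
      linarith
    · rw [h4]
      have h5 : dist (G x') y < s' := hGd x' hx'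
      linarith

/-- **Existence of systems of levels.** -/
theorem exists_lev [Finite ι] [Nonempty ι] {k : ℕ} (hk : 1 ≤ k) (hA : IsCompact A)
    (hAne : A.Nonempty) (hU : ULC k (univ : Set M)) (hUA : ULC k A) (hCA : Conn k A)
    (h : Par A e S ia py) (hS : ZS S) {ζ η : ℝ} (hζ : 0 < ζ) (hη : 0 < η) :
    ∃ ν : ℕ → ℝ, ALev k A e S ia py ζ η ν := by
  have hne : S.Nonempty := by
    obtain ⟨y, hy⟩ := hAne
    exact ⟨_, h.mem_S (Classical.arbitrary ι) hy⟩
  have hT1 : SmallHtpy k M := smallHtpy_of_ULC hU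
  obtain ⟨ρ, hρ, hpar⟩ := h.near_par hA hη
  obtain ⟨μ, hμ, hvert⟩ := exists_vert hk hU hS hne (r := ρ / 2) (by positivity)
  set ν₀ : ℝ := min (min (ζ / 2) (ρ / 8)) μ with hν₀
  have hν₀p : 0 < ν₀ := by positivity
  have hν₀ζ : ν₀ ≤ ζ / 2 := (min_le_left _ _).trans (min_le_left _ _)
  have hν₀ρ : ν₀ ≤ ρ / 8 := (min_le_left _ _).trans (min_le_right _ _)
  have hν₀μ : ν₀ ≤ μ := min_le_right _ _
  have hpar' : ∀ x x', infDist x S < 2 * ν₀ → infDist x' S < 2 * ν₀ → dist x x' < 2 * ν₀ →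
      ia x = ia x' ∧ dist (py x) (py x') < η := by
    intro x x' h1 h2 h3
    exact hpar x x' (by linarith)
  -- one step
  have step : ∀ d : ℝ, 0 < d → d ≤ ν₀ → ∃ d' > 0, d' ≤ d / 2 ∧ FillL k A S ia py η d' d ∧
      PushL k S (min (d / 2) ζ) d d' := by
    intro d hd hdν
    obtain ⟨d₁, hd₁, hfill⟩ := h.fill hA hU hUA hCA hη hd hdν hpar'
    obtain ⟨d₂, hd₂, hpush⟩ := push_off' hT1 (zset_of_ZS hS) hne (ε := min (d / 2) ζ) (η := d)
      (by positivity) hd
    have hP2 : PushL k S (min (d / 2) ζ) d d₂ := by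
      intro j hj F hF hb
      exact hpush j hj F hF hb
    refine ⟨min (d / 2) (min d₁ d₂), by positivity, min_le_left _ _, ?_, ?_⟩
    · exact hfill.mono ((min_le_right _ _).trans (min_le_left _ _))
    · exact hP2.mono ((min_le_right _ _).trans (min_le_right _ _))
  choose! f hf1 hf2 hf3 hf4 using step
  let ν : ℕ → ℝ := fun l => f^[l] ν₀
  have hν0 : ν 0 = ν₀ := rfl
  have hνs : ∀ l, ν (l + 1) = f (ν l) := fun l => Function.iterate_succ_apply' f l ν₀
  have hν : ∀ l, 0 < ν l ∧ ν l ≤ ν₀ := by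
    intro l
    induction l with
    | zero => exact ⟨hν₀p, le_rfl⟩
    | succ l ih =>
      rw [hνs]
      refine ⟨hf1 _ ih.1 ih.2, (hf2 _ ih.1 ih.2).trans ?_⟩
      linarith [ih.1, ih.2]
  refine ⟨ν, ?_⟩
  constructor
  · exact fun l => (hν l).1
  · rw [hν0]; linarith
  · intro l
    rw [hνs]
    exact hf2 _ (hν l).1 (hν l).2
  · rw [hν0]; exact hpar'
  · intro a y hy t ht htν
    rw [hν0] at htν
    obtain ⟨p, hp1, hp2⟩ := hvert (e a y) (h.mem_S a hy) t ht.le (htν.trans hν₀μ)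
    obtain ⟨h1, h2⟩ := h.nearest a hy
    obtain ⟨h3, h4⟩ := hpar p (e a y) (by
      rw [infDist_zero_of_mem (h.mem_S a hy), hp1]
      linarith)
    exact ⟨p, hp1, by rw [h3, h1], by rw [h2] at h4; exact h4⟩
  · intro l
    rw [hνs]
    exact hf3 _ (hν l).1 (hν l).2
  · intro l
    rw [hνs]
    exact hf4 _ (hν l).1 (hν l).2

end ALev

end MG
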