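import Pool.Agent.Work.MP_017613_gt.Absorb
import Pool.Agent.Work.MP_017613_gt.AbsLev

/-!
# Absorption: the toolkit hypotheses `HasGrid`, `HasUV`, `HasLift`

`grid_cub`: UV at `k+1` scales gives lifts over cubical sets of dimension `≤ k`.
-/

open Set Metric Topology

namespace MG

variable {α β : Type*} [MetricSpace α] [MetricSpace β]

/-- points near `y` are at once near `y` at the smaller scale -/
lemma UV.self {k : ℕ} (hk : 1 ≤ k) {h : α → β} {X : Set α} {V : Set β} {a b : ℝ}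
    (hU : UV k h X V a b) {x : α} (hx : x ∈ X) {y : β} (hy : y ∈ V) (hd : dist (h x) y < a) :
    dist (h x) y < b := by
  obtain ⟨F, -, hF, hFd⟩ := hU 1 hk y hy (fun _ => x) ⟨continuousOn_const, fun _ _ => hx⟩
    fun _ _ => hd
  have h0 : (0 : Fin 1 → ℝ) ∈ dCu 1 := by
    refine ⟨?_, 0, Or.inl rfl⟩
    rw [mem_Cu]
    intro i
    norm_num
  have h1 := hFd 0 (dCu_subset 1 h0)
  rwa [hF h0] at h1

/-- cubes of dimension `0` are points -/
lemma eq_of_dm_zero {N m : ℕ} (hm : 0 < m) {w : Fin N → ℤ} (hw : dm w = 0) {x y : Fin N → ℝ}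
    (hx : x ∈ cube m w) (hy : y ∈ cube m w) : x = y := by
  have hm' : (m : ℝ) ≠ 0 := by exact_mod_cast hm.ne'
  have hodd : ∀ i, ¬ Odd (w i) := by
    intro i hi
    unfold dm at hw
    rw [Finset.card_eq_zero] at hw
    have : i ∈ (Finset.univ.filter fun i => Odd (w i)) := by simp [hi]
    rw [hw] at this
    exact absurd this (Finset.notMem_empty i)
  funext i
  have h1 := hx i
  have h2 := hy i
  rw [← half_even (hodd i)] at h1 h2
  have h3 : (m : ℝ) * x i = ((w i / 2 : ℤ) : ℝ) := le_antisymm h1.2 h1.1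
  have h4 : (m : ℝ) * y i = ((w i / 2 : ℤ) : ℝ) := le_antisymm h2.2 h2.1
  exact mul_left_cancel₀ hm' (h3.trans h4.symm)

/-- lifting over one cube -/
lemma lift_cell {k : ℕ} {h : α → β} {X : Set α} {V : Set β} {a b : ℝ} (hU : UV k h X V a b)
    {N m : ℕ} (hm : 0 < m) {A : Set (Fin N → ℝ)} {w : Fin N → ℤ} (hA : IsClosed A)
    (hAw : ∀ x ∈ A, car m x ≠ w) (hbA : bdry m w ⊆ A) (hd : dm w ≤ k)
    {F : (Fin N → ℝ) → α} (hF : IsMap F A X) {y : β} (hy : y ∈ V)
    (hFy : ∀ x ∈ bdry m w, dist (h (F x)) y < a) :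
    ∃ F₂ : (Fin N → ℝ) → α, IsMap F₂ (A ∪ cube m w) X ∧ EqOn F₂ F A ∧
      ∀ x ∈ cube m w, dist (h (F₂ x)) y < b := by
  obtain ⟨G, hGm, hGe, hGd⟩ := hU (dm w) hd y hy (fun t => F (emb m w t))
    ⟨hF.cont.comp (continuous_emb m w).continuousOn
        (fun t ht => hbA (emb_mem_bdry hm ht)),
      fun t ht => hF.maps (hbA (emb_mem_bdry hm ht))⟩
    (fun t ht => hFy _ (emb_mem_bdry hm ht))
  obtain ⟨F₂, h1, h2, h3⟩ := hF.glue (A' := cube m w) hA (isClosed_cube' m w)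
    (g := fun x => G (prj m w x))
    ⟨hGm.cont.comp (continuous_prj m w).continuousOn (fun x hx => prj_mem hx),
      fun x hx => hGm.maps (prj_mem hx)⟩
    (by
      intro x hxA hxw
      have hxb : x ∈ bdry m w := inter_cube_subset hAw ⟨hxA, hxw⟩
      show F x = G (prj m w x)
      rw [hGe (prj_mem_Bd hxb)]
      show F x = F (emb m w (prj m w x))
      rw [emb_prj hm hxw])
  refine ⟨F₂, h1, h2, fun x hx => ?_⟩
  rw [h3 hx]
  exact hGd _ (prj_mem hx)

/-- **GRID**: UV at `k+1` scales gives lifts over cubical sets. -/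
theorem grid_cub {k : ℕ} {h : α → β} {X : Set α} {V : Set β} {t : ℕ → ℝ} {r s : ℝ} (hr : 0 < r)
    (hrt : r ≤ t 0) (hU0 : UV k h X V s (t 0))
    (hU : ∀ i < k, UV k h X V (t i + r) (t (i + 1) - r)) :
    ∀ d ≤ k, ∀ {N m : ℕ} (_ : 0 < m) {P P₀ : Set (Fin N → ℝ)} (_ : IsCub m P) (_ : IsCub m P₀)
      (_ : P₀ ⊆ P) (_ : ∀ x ∈ P, x ∉ P₀ → dm (car m x) ≤ d) (φ : (Fin N → ℝ) → β)
      (_ : MapsTo φ P V) (_ : Osc m P φ r) (G₀ : (Fin N → ℝ) → α) (_ : IsMap G₀ P₀ X)
      (_ : ∀ x ∈ P₀, dist (h (G₀ x)) (φ x) < r),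
      ∃ G : (Fin N → ℝ) → α, IsMap G P X ∧ EqOn G G₀ P₀ ∧
        ∀ x ∈ P, dist (h (G x)) (φ x) < t d := by
  intro d
  induction d with
  | zero =>
    intro _ N m hm P P₀ hP hP₀ hsub hdim φ hφ _ G₀ hG₀ hd
    refine cell_induction hP hP₀ hsub (fun A => ∃ G : (Fin N → ℝ) → α, IsMap G A X ∧
        EqOn G G₀ P₀ ∧ ∀ x ∈ A, dist (h (G x)) (φ x) < t 0) ?_ ?_
    · exact ⟨G₀, hG₀, fun _ _ => rfl, fun x hx => (hd x hx).trans_le hrt⟩
    · rintro A w hA hPA hAP hwP ⟨x₀, hx₀, hx₀', hw⟩ hAw hbA ⟨G, hG, hGe, hGd⟩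
      have hdw : dm w = 0 := by
        have h1 := hdim x₀ hx₀ hx₀'
        rw [hw] at h1
        omega
      obtain ⟨F, h1, h2, h3⟩ := lift_cell hU0 hm hA.isClosed hAw hbA (by omega) hG (hφ hx₀)
        (fun x hx => by
          have h4 := dm_car_lt hx
          omega)
      refine ⟨F, h1, fun x hx => by rw [h2 (hPA hx), hGe hx], ?_⟩
      rintro x (hx | hx)
      · rw [h2 hx]
        exact hGd x hx
      · have h5 : x = x₀ := eq_of_dm_zero hm hdw hx (hw ▸ mem_cube_car m x₀)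
        rw [h5] at hx ⊢
        exact h3 x₀ hx
  | succ d ih =>
    intro hdk N m hm P P₀ hP hP₀ hsub hdim φ hφ hosc G₀ hG₀ hd
    have hUd := hU d (by omega)
    set P' : Set (Fin N → ℝ) := P₀ ∪ {x | x ∈ P ∧ dm (car m x) < d + 1} with hP'
    have hP'c : IsCub m P' := hP₀.union (hP.skel_lt (d + 1))
    have hP'P : P' ⊆ P := union_subset hsub fun x hx => hx.1
    obtain ⟨G', hG'm, hG'e, hG'd⟩ := ih (by omega) hm hP'c hP₀ subset_union_left
      (fun x hx hx0 => by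
        rcases hx with hx | hx
        · exact absurd hx hx0
        · exact Nat.lt_succ_iff.1 hx.2) φ (hφ.mono_left hP'P) (hosc.mono hP'P le_rfl) G₀ hG₀ hd
    have key : ∃ G : (Fin N → ℝ) → α, IsMap G P X ∧ EqOn G G' P' ∧
        ∀ x ∈ P, dist (h (G x)) (φ x) < t (d + 1) := by
      refine cell_induction hP hP'c hP'P (fun A => ∃ G : (Fin N → ℝ) → α, IsMap G A X ∧
        EqOn G G' P' ∧ ∀ x ∈ A, dist (h (G x)) (φ x) < t (d + 1)) ?_ ?_
      · refine ⟨G', hG'm, fun _ _ => rfl, fun x hx => ?_⟩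
        have h1 := hG'd x hx
        have h2 := UV.self (by omega) hUd (hG'm.maps hx) (hφ (hP'P hx)) (by linarith)
        linarith
      · rintro A w hA hPA hAP hwP ⟨x₀, hx₀, hx₀', hw⟩ hAw hbA ⟨G, hG, hGe, hGd⟩
        have hdw : dm w = d + 1 := by
          have h1 : dm (car m x₀) ≤ d + 1 := hdim x₀ hx₀ fun hh => hx₀' (Or.inl hh)
          have h2 : ¬ dm (car m x₀) < d + 1 := fun hh => hx₀' (Or.inr ⟨hx₀, hh⟩)
          rw [hw] at h1 h2
          omega
        have hbP' : bdry m w ⊆ P' := by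
          intro x hx
          right
          refine ⟨hwP hx.1, ?_⟩
          have := dm_car_lt hx
          omega
        have hy : ∀ x ∈ cube m w, dist (φ x) (φ x₀) < r := by
          intro x hx
          rw [dist_comm]
          exact hosc x₀ hx₀ x (hw ▸ hx)
        obtain ⟨F, h1, h2, h3⟩ := lift_cell hUd hm hA.isClosed hAw hbA (by omega) hG (hφ hx₀)
          (fun x hx => by
            have h4 := hG'd x (hbP' hx)
            have h5 := hy x hx.1
            rw [hGe (hbP' hx)]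
            linarith [dist_triangle (h (G' x)) (φ x) (φ x₀)])
        refine ⟨F, h1, fun x hx => by rw [h2 (hPA hx), hGe hx], ?_⟩
        rintro x (hx | hx)
        · rw [h2 hx]
          exact hGd x hx
        · have h4 := h3 x hx
          have h5 := hy x hx
          rw [dist_comm] at h5
          linarith [dist_triangle (h (F x)) (φ x₀) (φ x)]
    obtain ⟨G, h1, h2, h3⟩ := key
    exact ⟨G, h1, fun x hx => by rw [h2 (Or.inl hx), hG'e hx], h3⟩

/-- functions continuous on a compact cubical set have small oscillation on fine grids -/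
lemma exists_osc {N : ℕ} {P : Set (Fin N → ℝ)} (hP : ∀ m : ℕ, 0 < m → IsCub m P)
    (hPc : IsCompact P) {φ : (Fin N → ℝ) → β} (hφ : ContinuousOn φ P) {r : ℝ} (hr : 0 < r) :
    ∃ m : ℕ, 0 < m ∧ Osc m P φ r := by
  obtain ⟨ρ, hρ, hu⟩ := Metric.uniformContinuousOn_iff.1
    (hPc.uniformContinuousOn_of_continuous hφ) r hr
  obtain ⟨m, hm, hmesh⟩ := exists_lev_mesh hP hρ
  exact ⟨m, hm, fun x hx y hy => hu x hx y (hmesh x hx y hy).1 (hmesh x hx y hy).2⟩

theorem hasGrid (k : ℕ) (M : Type*) [MetricSpace M] (V : Set β) : HasGrid k M V := by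
  intro h t r s hr hrt _ hU0 hU j hj f f0 hf hf0 hd
  obtain ⟨m, hm, hosc⟩ := exists_osc (fun m hm => isCub_Cu hm j) (isCompact_Cu j) hf.cont hr
  exact grid_cub hr hrt hU0 hU k le_rfl hm (isCub_Cu hm j) (isCub_dCu hm j) (dCu_subset j)
    (fun x _ _ => (dm_le _).trans hj) f hf.maps hosc f0 hf0 hd

theorem hasUV (k : ℕ) (M : Type*) [MetricSpace M] {K : Set β} (hK : ULC k K) : HasUV k M K := by
  intro σ' hσ'
  obtain ⟨σ, hσ, hU⟩ := hK (σ' / 2) (half_pos hσ')
  refine ⟨σ, hσ, σ' / 2, half_pos hσ', ?_⟩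
  intro g hg hL j hj y hy a ha hay
  obtain ⟨B, hB, hBe, hBd⟩ := hU j hj y hy (fun x => g (a x)) (hg.comp ha) hay
  obtain ⟨F, hF, hFe, hFd⟩ := hL j hj B a hB ha fun x hx => (hBe hx).symm
  refine ⟨F, hF, hFe, fun x hx => ?_⟩
  have h1 : dist (B x) y < σ' / 2 := hBd x hx
  have h2 := hFd x hx
  linarith [dist_triangle (g (F x)) (B x) y]

/-- a chain of scales -/
lemma exists_scales {k : ℕ} {M : Type*} [MetricSpace M] {K : Set β} (hUV : HasUV k M K) (n : ℕ) :
    ∀ ε > 0, ∃ (t : ℕ → ℝ) (r δ : ℝ), t n = ε ∧ 0 < r ∧ 0 < δ ∧ r ≤ t 0 ∧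
      ∀ g : M → β, IsMap g univ K → L k g univ K δ → (∃ s > 0, UV k g univ K s (t 0)) ∧
        ∀ i < n, UV k g univ K (t i + r) (t (i + 1) - r) := by
  induction n with
  | zero =>
    intro ε hε
    obtain ⟨σ, hσ, δ, hδ, h1⟩ := hUV ε hε
    exact ⟨fun _ => ε, ε, δ, rfl, hε, hδ, le_rfl, fun g hg hL =>
      ⟨⟨σ, hσ, h1 g hg hL⟩, fun i hi => absurd hi (Nat.not_lt_zero i)⟩⟩
  | succ n ih =>
    intro ε hε
    obtain ⟨σ, hσ, δ, hδ, h1⟩ := hUV (ε / 2) (half_pos hε)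
    obtain ⟨t, r, δ', ht, hr, hδ', hrt, h2⟩ := ih (σ / 2) (half_pos hσ)
    refine ⟨fun i => if i ≤ n then t i else ε, min r (min (σ / 2) (ε / 2)), min δ δ', by simp,
      by positivity, by positivity, ?_, ?_⟩
    · simp only [Nat.zero_le, if_true]
      exact (min_le_left _ _).trans hrt
    · intro g hg hL
      have hL1 : L k g univ K δ := hL.mono (min_le_left _ _)
      have hL2 : L k g univ K δ' := hL.mono (min_le_right _ _)
      obtain ⟨h3, h4⟩ := h2 g hg hL2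
      refine ⟨by simpa using h3, ?_⟩
      intro i hi
      have h5 : i ≤ n := by omega
      simp only [h5, if_true]
      by_cases h6 : i + 1 ≤ n
      · simp only [h6, if_true]
        refine (h4 i (by omega)).mono ?_ ?_ <;>
          linarith [min_le_left r (min (σ / 2) (ε / 2))]
      · simp only [h6, if_false]
        have h7 : i = n := by omega
        rw [h7, ht]
        have h8 : min r (min (σ / 2) (ε / 2)) ≤ σ / 2 :=
          (min_le_right _ _).trans (min_le_left _ _)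
        have h9 : min r (min (σ / 2) (ε / 2)) ≤ ε / 2 :=
          (min_le_right _ _).trans (min_le_right _ _)
        refine (h1 g hg hL1).mono ?_ ?_ <;> linarith

/-- maps of a cubical set of dimension `≤ k` into `K` lift -/
theorem hasLift (k : ℕ) (ι : Type*) (M : Type*) [MetricSpace M] [Nonempty M] {N : ℕ}
    {A : Set (Fin N → ℝ)} (hA : IsCompact A) (hAcub : ∀ m : ℕ, 0 < m → IsCub m A)
    (hAdim : ∀ m : ℕ, 0 < m → ∀ x ∈ A, dm (car m x) ≤ k) {K : Set β} (hK : ULC k K) :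
    HasLift k ι M A K := by
  intro ε hε
  obtain ⟨t, r, δ, ht, hr, hδ, hrt, h1⟩ := exists_scales (hasUV k M hK) k ε hε
  refine ⟨δ, hδ, fun g hg hL ψ hψ => ?_⟩
  obtain ⟨⟨s, _, hU0⟩, hU⟩ := h1 g hg hL
  have h2 : ∀ a, ∃ ψ' : (Fin N → ℝ) → M, ContinuousOn ψ' A ∧
      ∀ x ∈ A, dist (g (ψ' x)) (ψ a x) < ε := by
    intro a
    obtain ⟨m, hm, hosc⟩ := exists_osc hAcub hA (hψ a).cont hr
    obtain ⟨G, hG, -, hGd⟩ := grid_cub hr hrt hU0 hU k le_rfl hm (hAcub m hm)
      (IsCub.empty m) (empty_subset _) (fun x hx _ => hAdim m hm x hx) (ψ a) (hψ a).maps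
      hosc (fun _ => Classical.arbitrary M) IsMap.empty (fun x hx => hx.elim)
    exact ⟨G, hG.cont, fun x hx => by rw [← ht]; exact hGd x hx⟩
  choose ψ' h3 h4 using h2
  exact ⟨ψ', h3, h4⟩

end MG
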