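import Mathlib

/-!
Basic definitions of the Menger cell (helper15's proposal, adopted).
-/

open Set Topology Metric

namespace Pool.Agent.Work.MP_017613_gt

/-- The closed unit cube. -/
abbrev Cb (j : ℕ) : Set (Fin j → ℝ) := Icc 0 1

/-- Its boundary. -/
def Bd (j : ℕ) : Set (Fin j → ℝ) := {x | x ∈ Cb j ∧ ∃ i, x i = 0 ∨ x i = 1}

section
variable {M K V : Type*} [MetricSpace M] [MetricSpace K] [MetricSpace V]

/-- `K` is uniformly `LC^(k-1)`. -/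
def ULC (k : ℕ) (K : Type*) [MetricSpace K] : Prop :=
  ∀ ε > 0, ∃ δ > 0, ∀ j, 1 ≤ j → j ≤ k → ∀ (y : K) (a : (Fin j → ℝ) → K),
    ContinuousOn a (Bd j) → (∀ x ∈ Bd j, dist (a x) y < δ) →
    ∃ A : (Fin j → ℝ) → K, ContinuousOn A (Cb j) ∧ EqOn A a (Bd j) ∧
      ∀ x ∈ Cb j, dist (A x) y < ε

/-- `K` is `(k-1)`-connected. -/
def Conn (k : ℕ) (K : Type*) [MetricSpace K] : Prop :=
  Nonempty K ∧ ∀ j, 1 ≤ j → j ≤ k → ∀ a : (Fin j → ℝ) → K, ContinuousOn a (Bd j) →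
    ∃ A : (Fin j → ℝ) → K, ContinuousOn A (Cb j) ∧ EqOn A a (Bd j)

/-- `L(g; ε)`. -/
def Lft (k : ℕ) (g : M → K) (ε : ℝ) : Prop :=
  ∀ j ≤ k, ∀ (f : (Fin j → ℝ) → K) (f₀ : (Fin j → ℝ) → M), ContinuousOn f (Cb j) →
    ContinuousOn f₀ (Bd j) → (∀ x ∈ Bd j, g (f₀ x) = f x) →
    ∃ F : (Fin j → ℝ) → M, ContinuousOn F (Cb j) ∧ EqOn F f₀ (Bd j) ∧
      ∀ x ∈ Cb j, dist (g (F x)) (f x) < ε

/-- Lifting with boundary data `r`-close; `h` is ANY function. -/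
def LPf (k : ℕ) (h : M → V) (r ε : ℝ) : Prop :=
  ∀ j ≤ k, ∀ (f : (Fin j → ℝ) → V) (f₀ : (Fin j → ℝ) → M), ContinuousOn f (Cb j) →
    ContinuousOn f₀ (Bd j) → (∀ x ∈ Bd j, dist (h (f₀ x)) (f x) < r) →
    ∃ F : (Fin j → ℝ) → M, ContinuousOn F (Cb j) ∧ EqOn F f₀ (Bd j) ∧
      ∀ x ∈ Cb j, dist (h (F x)) (f x) < ε

/-- Small spheres bound small balls, for ANY function `h`. -/
def UV (k : ℕ) (h : M → V) (t t' : ℝ) : Prop :=
  (∀ y, ∃ x, dist (h x) y < t') ∧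
  ∀ j, 1 ≤ j → j ≤ k → ∀ (y : V) (a : (Fin j → ℝ) → M), ContinuousOn a (Bd j) →
    (∀ x ∈ Bd j, dist (h (a x)) y < t) →
    ∃ A : (Fin j → ℝ) → M, ContinuousOn A (Cb j) ∧ EqOn A a (Bd j) ∧
      ∀ x ∈ Cb j, dist (h (A x)) y < t'

/-- Strong `Z`-set. -/
def ZSet (S : Set M) : Prop :=
  IsClosed S ∧ ∀ ε > 0, ∃ θ : M → M, Continuous θ ∧ (∀ x, dist (θ x) x < ε) ∧ ∀ x, θ x ∉ S

/-- Functions with small jumps. -/
def SmallJump (h : M → K) (δ : ℝ) : Prop :=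
  ∃ r > 0, ∀ x y, dist x y < r → dist (h x) (h y) < δ

/-- Small-jump functions `M → K` are close to continuous maps. -/
def Disc (M K : Type*) [MetricSpace M] [MetricSpace K] : Prop :=
  ∀ ε > 0, ∃ δ > 0, ∀ h : M → K, SmallJump h δ → ∃ g : M → K, Continuous g ∧
    ∀ x, dist (g x) (h x) < ε

end

end Pool.Agent.Work.MP_017613_gt
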