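import Pool.Agent.Work.MP_017613_gt.DiscA
import Pool.Agent.Work.MP_017613_gt.Defs

/-!
# Functions with small jumps on compact spaces of dimension at most `k`; close extensions

`Coarse k K`: functions on cubical sets with small oscillation on the cubes are close to maps.
`disc₂`: a function `h : M → K` with jumps `< δ`, and with jumps `< δ'` on `A`, is `ε`-close to a
continuous map which is `ε'`-close to `h` on `A`.
`close_ext`: a map of a closed set `A` close to `g₁` extends to `M`, close to `g₁`.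
-/

open Set Topology Metric Filter
open Pool.Agent.Work.MP_017613_gt

namespace MG

/-- functions on cubical sets which vary by less than `δ` on the cubes, and are continuous on `P₀`,
are `ε`-close to maps, with equality on `P₀` -/
def Coarse (k : ℕ) (K : Type*) [MetricSpace K] : Prop :=
  ∀ ε > 0, ∃ δ > 0, ∀ (N m : ℕ), 0 < m → ∀ P P₀ : Set (Fin N → ℝ), IsCub m P → IsCub m P₀ →
    P₀ ⊆ P → (∀ x ∈ P, x ∉ P₀ → dm (car m x) ≤ k) → ∀ φ : (Fin N → ℝ) → K,
    (∀ x ∈ P, ∀ y ∈ cube m (car m x), dist (φ x) (φ y) < δ) → ContinuousOn φ P₀ →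
    ∃ F : (Fin N → ℝ) → K, ContinuousOn F P ∧ EqOn F φ P₀ ∧ ∀ x ∈ P, dist (F x) (φ x) < ε

universe u

variable {K : Type*} [MetricSpace K]

/-- **Discretisation at two scales** (the constants do not depend on `M`). -/
theorem disc₂ {k : ℕ} (hK : Coarse k K) {ε : ℝ} (hε : 0 < ε) :
    ∃ δ > 0, ∀ ε' > 0, ∃ δ' > 0, ∀ (M : Type u) [MetricSpace M] [CompactSpace M],
      PushOff k (univ : Set M) → ∀ (A : Set M) (h : M → K) (r : ℝ), 0 < r →
      (∀ x y, dist x y < r → dist (h x) (h y) < δ) →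
      (∀ x ∈ A, ∀ y ∈ A, dist x y < r → dist (h x) (h y) < δ') →
      ∃ g : M → K, Continuous g ∧ (∀ x, dist (g x) (h x) < ε) ∧
        ∀ x ∈ A, dist (g x) (h x) < ε' := by
  classical
  obtain ⟨δ₁, hδ₁, H₁⟩ := hK (ε / 2) (half_pos hε)
  refine ⟨min (δ₁ / 3) (ε / 4), by positivity, fun ε' hε' => ?_⟩
  obtain ⟨δ₂, hδ₂, H₂⟩ := hK (min (ε' / 2) (min (δ₁ / 3) (ε / 4))) (by positivity)
  refine ⟨min δ₂ (ε' / 2), by positivity, fun M _ _ hk A h r hr h1 h2 => ?_⟩
  obtain ⟨N, m, q, hm, cq, hq, hqr⟩ := exists_q hk hr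
  have hm' : (0:ℝ) < m := by exact_mod_cast hm
  have hb : Bornology.IsBounded (range q) := (isCompact_range cq).isBounded
  -- points over the cubes
  have hA : ∀ p : Fin N → ℝ, p ∈ cars m (q '' A) → ∃ x ∈ A, p ∈ cube m (car m (q x)) := by
    intro p hp
    obtain ⟨_, ⟨x, hx, rfl⟩, hp⟩ := mem_cars.1 hp
    exact ⟨x, hx, hp⟩
  have hM : ∀ p : Fin N → ℝ, p ∈ cars m (range q) → ∃ x, p ∈ cube m (car m (q x)) := by
    intro p hp
    obtain ⟨_, ⟨x, rfl⟩, hp⟩ := mem_cars.1 hp
    exact ⟨x, hp⟩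
  by_cases hne : Nonempty M
  swap
  · exact ⟨h, continuous_iff_continuousAt.2 fun x => (hne ⟨x⟩).elim, fun x => (hne ⟨x⟩).elim,
      fun x => (hne ⟨x⟩).elim⟩
  obtain ⟨x₀⟩ := hne
  let s : (Fin N → ℝ) → M := fun p => if hp : p ∈ cars m (q '' A) then (hA p hp).choose else
    if hp' : p ∈ cars m (range q) then (hM p hp').choose else x₀
  have hsub : cars m (q '' A) ⊆ cars m (range q) := cars_mono (image_subset_range _ _)
  have s1 : ∀ p ∈ cars m (q '' A), s p ∈ A ∧ p ∈ cube m (car m (q (s p))) := by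
    intro p hp
    have : s p = (hA p hp).choose := by simp only [s, hp, dif_pos]
    rw [this]
    exact (hA p hp).choose_spec
  have s2 : ∀ p ∈ cars m (range q), p ∈ cube m (car m (q (s p))) := by
    intro p hp
    by_cases hp' : p ∈ cars m (q '' A)
    · exact (s1 p hp').2
    · have : s p = (hM p hp).choose := by simp only [s, hp, hp', dif_pos, dif_neg, not_false_iff]
      rw [this]
      exact (hM p hp).choose_spec
  have cP : IsCub m (cars m (range q)) := isCub_cars hm hb
  have cP₀ : IsCub m (cars m (q '' A)) := isCub_cars hm (hb.subset (image_subset_range _ _))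
  have dP : ∀ p ∈ cars m (range q), dm (car m p) ≤ k := by
    intro p hp
    exact (dm_car_le (s2 p hp)).trans (hq _)
  have hd : ∀ p ∈ cars m (range q), ∀ p' ∈ cars m (range q), dist p p' ≤ 1 / m →
      dist (s p) (s p') < r := by
    intro p hp p' hp' hpp
    apply hqr
    have h3 := dist_le_of_mem_cube hm (mem_cube_car m (q (s p))) (s2 p hp)
    have h4 := dist_le_of_mem_cube hm (s2 p' hp') (mem_cube_car m (q (s p')))
    have h5 := dist_triangle4 (q (s p)) p p' (q (s p'))
    have e : (3:ℝ) / m = 1 / m + 1 / m + 1 / m := by ring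
    rw [e]
    linarith
  have hdq : ∀ x, dist (s (q x)) x < r := by
    intro x
    apply hqr
    have h3 := dist_le_of_mem_cube hm (mem_cube_car m (q (s (q x))))
      (s2 (q x) (subset_cars m _ (mem_range_self x)))
    refine h3.trans ?_
    rw [div_le_div_iff_of_pos_right hm']
    norm_num
  -- the map over `A`
  obtain ⟨F₀, cF₀, -, dF₀⟩ := H₂ N m hm (cars m (q '' A)) ∅ cP₀ (IsCub.empty m) (empty_subset _)
    (fun x hx _ => dP x (hsub hx)) (fun p => h (s p))
    (fun x hx y hy => (h2 _ (s1 x hx).1 _ (s1 y (cP₀.sat x hx hy)).1 (hd x (hsub hx) y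
      (hsub (cP₀.sat x hx hy)) (dist_le_of_mem_cube hm (mem_cube_car m x) hy))).trans_le
      (min_le_left _ _)) (continuousOn_empty _)
  -- the map
  let φ : (Fin N → ℝ) → K := fun p => if p ∈ cars m (q '' A) then F₀ p else h (s p)
  have hφ' : ∀ p ∈ cars m (range q), dist (φ p) (h (s p)) < min (δ₁ / 3) (ε / 4) := by
    intro p hp
    by_cases hp' : p ∈ cars m (q '' A)
    · simp only [φ, hp', if_true]
      exact (dF₀ p hp').trans_le (min_le_right _ _)
    · simp only [φ, hp', if_false, dist_self]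
      positivity
  have hφ : ∀ p ∈ cars m (range q), dist (φ p) (h (s p)) < δ₁ / 3 := fun p hp =>
    (hφ' p hp).trans_le (min_le_left _ _)
  obtain ⟨F, cF, eF, dF⟩ := H₁ N m hm (cars m (range q)) (cars m (q '' A)) cP cP₀ hsub
    (fun x hx _ => dP x hx) φ (fun x hx y hy => by
      have hy' := cP.sat x hx hy
      have h3 := hφ x hx
      have h4 := hφ y hy'
      have h5 := (h1 _ _ (hd x hx y hy' (dist_le_of_mem_cube hm (mem_cube_car m x) hy))).trans_le
        (min_le_left _ _)
      have h6 := dist_triangle4 (φ x) (h (s x)) (h (s y)) (φ y)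
      rw [dist_comm (h (s y))] at h6
      linarith) (cF₀.congr fun p hp => by simp [φ, hp])
  refine ⟨fun x => F (q x), ?_, fun x => ?_, fun x hx => ?_⟩
  · exact cF.comp_continuous cq fun x => subset_cars m _ (mem_range_self x)
  · have hx := subset_cars m _ (mem_range_self (f := q) x)
    have h3 := dF _ hx
    have h4 := (hφ' _ hx).trans_le (min_le_right _ _)
    have h5 := (h1 _ _ (hdq x)).trans_le (min_le_right _ _)
    have h6 := dist_triangle4 (F (q x)) (φ (q x)) (h (s (q x))) (h x)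
    linarith
  · have hx' : q x ∈ cars m (q '' A) := subset_cars m _ (mem_image_of_mem _ hx)
    have e1 : F (q x) = F₀ (q x) := by
      rw [eF hx']
      simp only [φ, hx', if_true]
    have h3 := (dF₀ _ hx').trans_le (min_le_left _ _)
    have h5 := (h2 _ (s1 _ hx').1 _ hx (hdq x)).trans_le (min_le_right _ _)
    have h6 := dist_triangle (F₀ (q x)) (h (s (q x))) (h x)
    show dist (F (q x)) (h x) < ε'
    rw [e1]
    linarith

/-- one step of the close extension -/
theorem close_step {k : ℕ} (hK : Coarse k K) {ε : ℝ} (hε : 0 < ε) :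
    ∃ δ > 0, ∀ (M : Type u) [MetricSpace M] [CompactSpace M], PushOff k (univ : Set M) →
      ∀ (A : Set M), IsClosed A → ∀ (g₁ : C(M, K)) (a : M → K), ContinuousOn a A →
      (∀ x ∈ A, dist (a x) (g₁ x) < δ) → ∀ ε' > 0, ∃ g : C(M, K), (∀ x, dist (g x) (g₁ x) < ε) ∧
        ∀ x ∈ A, dist (a x) (g x) < ε' := by
  classical
  obtain ⟨δ, hδ, H⟩ := disc₂.{u} hK (half_pos hε)
  refine ⟨min (δ / 2) (ε / 2), by positivity, fun M _ _ hk A hA g₁ a ha hag ε' hε' => ?_⟩
  obtain ⟨δ', hδ', H'⟩ := H ε' hε'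
  -- uniform continuity
  obtain ⟨r₁, hr₁, hu₁⟩ := Metric.uniformContinuous_iff.1
    (CompactSpace.uniformContinuous_of_continuous g₁.continuous) (min (δ / 2) δ')
    (by positivity)
  have huA := (hA.isCompact.uniformContinuousOn_of_continuous ha)
  obtain ⟨r₂, hr₂, hu₂⟩ := Metric.uniformContinuousOn_iff.1 huA (min δ δ') (by positivity)
  obtain ⟨g, cg, hg, hgA⟩ := H' M hk A (fun x => if x ∈ A then a x else g₁ x) (min r₁ r₂)
    (lt_min hr₁ hr₂) (fun x y hxy => by
      have h1 := hu₁ (hxy.trans_le (min_le_left _ _))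
      by_cases hx : x ∈ A <;> by_cases hy : y ∈ A
      · simp only [hx, hy, if_true]
        exact (hu₂ x hx y hy (hxy.trans_le (min_le_right _ _))).trans_le (min_le_left _ _)
      · simp only [hx, hy, if_true, if_false]
        have h2 := (hag x hx).trans_le (min_le_left _ _)
        have h3 := h1.trans_le (min_le_left _ _)
        linarith [dist_triangle (a x) (g₁ x) (g₁ y)]
      · simp only [hx, hy, if_true, if_false]
        have h2 := (hag y hy).trans_le (min_le_left _ _)
        have h3 := h1.trans_le (min_le_left _ _)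
        rw [dist_comm (a y)] at h2
        linarith [dist_triangle (g₁ x) (g₁ y) (a y)]
      · simp only [hx, hy, if_false]
        linarith [h1.trans_le (min_le_left _ _)])
    (fun x hx y hy hxy => by
      simp only [hx, hy, if_true]
      exact (hu₂ x hx y hy (hxy.trans_le (min_le_right _ _))).trans_le (min_le_right _ _))
  refine ⟨⟨g, cg⟩, fun x => ?_, fun x hx => ?_⟩
  · have h1 := hg x
    show dist (g x) (g₁ x) < ε
    by_cases hx : x ∈ A
    · simp only [hx, if_true] at h1
      have h2 := (hag x hx).trans_le (min_le_right _ _)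
      linarith [dist_triangle (g x) (a x) (g₁ x)]
    · simp only [hx, if_false] at h1
      linarith
  · have h1 := hgA x hx
    simp only [hx, if_true] at h1
    show dist (a x) (g x) < ε'
    rw [dist_comm]
    exact h1

/-- **Close extension** (the constant does not depend on `M`). -/
theorem close_ext [CompleteSpace K] {k : ℕ} (hK : Coarse k K) {ε : ℝ} (hε : 0 < ε) :
    ∃ δ > 0, ∀ (M : Type u) [MetricSpace M] [CompactSpace M], PushOff k (univ : Set M) →
      ∀ (A : Set M), IsClosed A → ∀ (g₁ : C(M, K)) (a : M → K), ContinuousOn a A →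
      (∀ x ∈ A, dist (a x) (g₁ x) < δ) → ∃ g : C(M, K), (∀ x, dist (g x) (g₁ x) < ε) ∧
        EqOn g a A := by
  classical
  -- the constants
  have hst : ∀ n : ℕ, ∃ δ > 0, ∀ (M : Type u) [MetricSpace M] [CompactSpace M],
      PushOff k (univ : Set M) → ∀ (A : Set M), IsClosed A → ∀ (g₁ : C(M, K)) (a : M → K),
      ContinuousOn a A → (∀ x ∈ A, dist (a x) (g₁ x) < δ) → ∀ ε' > 0, ∃ g : C(M, K),
      (∀ x, dist (g x) (g₁ x) < ε / 4 / 2 ^ n) ∧ ∀ x ∈ A, dist (a x) (g x) < ε' :=
    fun n => close_step hK (by positivity)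
  choose δ hδ H using hst
  refine ⟨δ 0, hδ 0, fun M _ _ hk A hA g₁ a ha hag => ?_⟩
  -- the sequence
  have hstep : ∀ n (g : {g : C(M, K) // ∀ x ∈ A, dist (a x) (g x) < δ n}),
      ∃ g' : {g : C(M, K) // ∀ x ∈ A, dist (a x) (g x) < δ (n + 1)},
        (∀ x, dist (g'.1 x) (g.1 x) < ε / 4 / 2 ^ n) ∧
          ∀ x ∈ A, dist (a x) (g'.1 x) < 1 / 2 ^ n := by
    intro n g
    obtain ⟨g', h1, h2⟩ := H n M hk A hA g.1 a ha g.2 (min (δ (n + 1)) (1 / 2 ^ n))
      (lt_min (hδ _) (by positivity))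
    exact ⟨⟨g', fun x hx => (h2 x hx).trans_le (min_le_left _ _)⟩, h1,
      fun x hx => (h2 x hx).trans_le (min_le_right _ _)⟩
  choose G hG1 hG2 using hstep
  let g : ∀ n : ℕ, {g : C(M, K) // ∀ x ∈ A, dist (a x) (g x) < δ n} := fun n =>
    Nat.rec ⟨g₁, hag⟩ (fun n g => G n g) n
  have gS : ∀ n, g (n + 1) = G n (g n) := fun n => rfl
  have hd : ∀ n, dist (g n).1 (g (n + 1)).1 ≤ ε / 2 / 2 / 2 ^ n := by
    intro n
    rw [ContinuousMap.dist_le (by positivity)]
    intro x
    rw [gS, dist_comm]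
    have h1 := hG1 n (g n) x
    have e : ε / 2 / 2 / 2 ^ n = ε / 4 / 2 ^ n := by ring
    rw [e]
    exact h1.le
  have hc := cauchySeq_of_le_geometric_two hd
  obtain ⟨G', hG'⟩ := cauchySeq_tendsto_of_complete hc
  refine ⟨G', fun x => ?_, fun x hx => ?_⟩
  · have h1 := dist_le_of_le_geometric_two_of_tendsto₀ hd hG'
    have h2 := ContinuousMap.dist_apply_le_dist (f := g₁) (g := G') x
    rw [dist_comm]
    have h3 : (g 0).1 = g₁ := rfl
    rw [h3] at h1
    linarith
  · have h1 : Tendsto (fun n => (g (n + 1)).1 x) atTop (𝓝 (G' x)) :=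
      ((continuous_eval_const (F := C(M, K)) x).tendsto _).comp
        (hG'.comp (tendsto_add_atTop_nat 1))
    have h2 : Tendsto (fun n => (g (n + 1)).1 x) atTop (𝓝 (a x)) := by
      rw [tendsto_iff_dist_tendsto_zero]
      refine squeeze_zero (fun n => dist_nonneg) (fun n => ?_)
        (tendsto_pow_atTop_nhds_zero_of_lt_one (r := (1 / 2 : ℝ)) (by norm_num) (by norm_num))
      rw [dist_comm, gS, div_pow, one_pow]
      exact (hG2 n (g n) x hx).le
    exact tendsto_nhds_unique h1 h2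

/-- **Functions with small jumps are close to maps, with prescribed values on a closed set.** -/
theorem app [CompleteSpace K] {k : ℕ} (hK : Coarse k K) {ε : ℝ} (hε : 0 < ε) :
    ∃ δ > 0, ∀ (M : Type u) [MetricSpace M] [CompactSpace M], PushOff k (univ : Set M) →
      ∀ (A : Set M), IsClosed A → ∀ h : M → K, SmallJump h δ → ∀ b : M → K, ContinuousOn b A →
      (∀ x ∈ A, dist (b x) (h x) < δ) → ∃ a : C(M, K), (∀ x, dist (a x) (h x) < ε) ∧
        EqOn a b A := by
  obtain ⟨δ₁, hδ₁, H₁⟩ := close_ext.{u} hK (half_pos hε)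
  obtain ⟨δ₂, hδ₂, H₂⟩ := disc₂.{u} hK (ε := min (δ₁ / 2) (ε / 2)) (by positivity)
  obtain ⟨δ₃, -, H₃⟩ := H₂ 1 one_pos
  refine ⟨min δ₂ (δ₁ / 2), by positivity, fun M _ _ hk A hA h hh b hb hbh => ?_⟩
  obtain ⟨r, hr, hj⟩ := hh
  obtain ⟨g, cg, hg, -⟩ := H₃ M hk ∅ h r hr
    (fun x y hxy => (hj x y hxy).trans_le (min_le_left _ _)) (by simp)
  obtain ⟨a, h1, h2⟩ := H₁ M hk A hA ⟨g, cg⟩ b hb fun x hx => by
    have h3 := (hbh x hx).trans_le (min_le_right _ _)
    have h4 := (hg x).trans_le (min_le_left _ _)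
    rw [dist_comm (g x)] at h4
    show dist (b x) (g x) < δ₁
    linarith [dist_triangle (b x) (h x) (g x)]
  refine ⟨a, fun x => ?_, h2⟩
  have h3 : dist (a x) (g x) < ε / 2 := h1 x
  have h4 := (hg x).trans_le (min_le_right _ _)
  linarith [dist_triangle (a x) (g x) (h x)]

/-- functions with small jumps are close to maps -/
theorem disc {M : Type u} [MetricSpace M] [CompactSpace M] {k : ℕ}
    (hk : PushOff k (univ : Set M)) (hK : Coarse k K) : Disc M K := by
  intro ε hε
  obtain ⟨δ, hδ, H⟩ := disc₂.{u} hK hε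
  obtain ⟨δ', -, H'⟩ := H 1 one_pos
  refine ⟨δ, hδ, fun h hh => ?_⟩
  obtain ⟨r, hr, hj⟩ := hh
  obtain ⟨g, cg, hg, -⟩ := H' M hk ∅ h r hr hj (by simp)
  exact ⟨g, cg, hg⟩

end MG
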