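import Pool.Agent.Work.MP_017613_gt.PSub
import Pool.Agent.Work.MP_017613_gt.DiscB
import Pool.Agent.Work.MP_017613_gt.Coarse

/-!
# Approximation of functions with small jumps, set form

`app_set` (= `ANE k X` of block (8)): for a compact `X` which is `ULC k`, functions `P → X` with
small jumps on compact sets `P` of dimension at most `k` are close to maps with prescribed values
on a closed set `A`.
-/

open Set Topology Metric Filter
open Pool.Agent.Work.MP_017613_gt

namespace MG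

universe u

variable {β : Type*} [MetricSpace β]

/-- `Coarse` from `ULC` -/
theorem ULC.coarse {k : ℕ} {K : Set β} (hK : ULC k K) : Coarse k K := by
  classical
  intro ε hε
  obtain ⟨δ, hδ, H⟩ := MG.coarse hK hε
  refine ⟨δ, hδ, fun N m hm P P₀ hP hP₀ hsub hdim φ hφ cφ => ?_⟩
  obtain ⟨F, hF, hF0, hd⟩ := H hm hP hP₀ hsub hdim (fun x => (φ x : β)) (fun x _ => (φ x).2)
    (continuous_subtype_val.comp_continuousOn cφ) hφ
  have e : ∀ x ∈ P, ((if h : F x ∈ K then ⟨F x, h⟩ else φ x : K) : β) = F x := by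
    intro x hx
    rw [dif_pos (hF.maps hx)]
  refine ⟨fun x => if h : F x ∈ K then ⟨F x, h⟩ else φ x, ?_, ?_, ?_⟩
  · rw [IsInducing.subtypeVal.continuousOn_iff]
    exact hF.cont.congr e
  · intro x hx
    apply Subtype.ext
    rw [e x (hsub hx)]
    exact hF0 hx
  · intro x hx
    rw [Subtype.dist_eq, e x hx]
    exact hd x hx

variable {γ : Type*} [MetricSpace γ]

/-- a function on a set from a function on the subtype -/
noncomputable def extS {δ : Type*} (P : Set γ) (g : P → δ) (d : γ → δ) : γ → δ :=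
  open Classical in fun x => if h : x ∈ P then g ⟨x, h⟩ else d x

omit [MetricSpace γ] in
theorem extS_eq {δ : Type*} {P : Set γ} (g : P → δ) (d : γ → δ) {x : γ} (hx : x ∈ P) :
    extS P g d x = g ⟨x, hx⟩ := dif_pos hx

theorem extS_cont {δ : Type*} [TopologicalSpace δ] {P : Set γ} {g : P → δ} (hg : Continuous g)
    (d : γ → δ) : ContinuousOn (extS P g d) P := by
  rw [continuousOn_iff_continuous_domRestrict]
  have : P.domRestrict (extS P g d) = g := by
    funext x
    exact extS_eq g d x.2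
  rw [this]
  exact hg

/-- **Approximation of functions with small jumps, rel a closed set.** -/
theorem app_set {X : Set β} (cX : IsCompact X) {k : ℕ} (hX : ULC k X) {ε : ℝ} (hε : 0 < ε) :
    ∃ δ > 0, ∀ (γ : Type u) [MetricSpace γ] (P A : Set γ), IsCompact P → PushOff k P →
      IsClosed A → A ⊆ P → ∀ h : γ → β, MapsTo h P X →
      (∃ r > 0, ∀ x ∈ P, ∀ y ∈ P, dist x y < r → dist (h x) (h y) < δ) →
      ∀ b : γ → β, ContinuousOn b A → MapsTo b A X → (∀ x ∈ A, dist (b x) (h x) < δ) →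
      ∃ a : γ → β, ContinuousOn a P ∧ MapsTo a P X ∧ EqOn a b A ∧
        ∀ x ∈ P, dist (a x) (h x) < ε := by
  classical
  have : CompactSpace X := isCompact_iff_compactSpace.1 cX
  obtain ⟨δ, hδ, H⟩ := app.{u} (K := X) hX.coarse hε
  refine ⟨δ, hδ, fun γ _ P A cP hP hA hAP h hh hj b cb hb hbh => ?_⟩
  have : CompactSpace P := isCompact_iff_compactSpace.1 cP
  obtain ⟨r, hr, hj⟩ := hj
  have e : ∀ x : P, (x : γ) ∈ A → ((if hx : (x : γ) ∈ A then ⟨b x, hb hx⟩ else ⟨h x, hh x.2⟩ : X)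
      : β) = b x := fun x hx => by rw [dif_pos hx]
  obtain ⟨a, h1, h2⟩ := H P (pushOff_subtype hP) ((↑) ⁻¹' A) (hA.preimage continuous_subtype_val)
    (fun x => ⟨h x, hh x.2⟩) ⟨r, hr, fun x y hxy => hj x x.2 y y.2 hxy⟩
    (fun x => if hx : (x : γ) ∈ A then ⟨b x, hb hx⟩ else ⟨h x, hh x.2⟩)
    (by
      rw [IsInducing.subtypeVal.continuousOn_iff]
      exact (cb.comp continuous_subtype_val.continuousOn (mapsTo_preimage _ _)).congr e)
    (fun x hx => by
      rw [Subtype.dist_eq, e x hx]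
      exact hbh x hx)
  refine ⟨extS P (fun x => (a x : β)) h, extS_cont (by fun_prop) _, ?_, ?_, ?_⟩
  · intro x hx
    rw [extS_eq _ _ hx]
    exact (a ⟨x, hx⟩).2
  · intro x hx
    rw [extS_eq _ _ (hAP hx)]
    have h3 := h2 (show (⟨x, hAP hx⟩ : P) ∈ (↑) ⁻¹' A from hx)
    rw [h3]
    exact e ⟨x, hAP hx⟩ hx
  · intro x hx
    rw [extS_eq _ _ hx]
    exact h1 ⟨x, hx⟩

/-- **Close extension**, set form. -/
theorem close_ext_set {X : Set β} (cX : IsCompact X) {k : ℕ} (hX : ULC k X) {ε : ℝ} (hε : 0 < ε) :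
    ∃ δ > 0, ∀ (γ : Type u) [MetricSpace γ] (P A : Set γ), IsCompact P → PushOff k P →
      IsClosed A → A ⊆ P → ∀ g b : γ → β, IsMap g P X → IsMap b A X →
      (∀ x ∈ A, dist (b x) (g x) < δ) → ∃ a : γ → β, IsMap a P X ∧ EqOn a b A ∧
        ∀ x ∈ P, dist (a x) (g x) < ε := by
  obtain ⟨δ, hδ, H⟩ := app_set.{u} cX hX hε
  refine ⟨δ, hδ, fun γ _ P A cP hP hA hAP g b hg hb hbg => ?_⟩
  obtain ⟨r, hr, hu⟩ := Metric.uniformContinuousOn_iff.1
    (cP.uniformContinuousOn_of_continuous hg.cont) δ hδ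
  obtain ⟨a, h1, h2, h3, h4⟩ := H γ P A cP hP hA hAP g hg.maps
    ⟨r, hr, fun x hx y hy hxy => hu x hx y hy hxy⟩ b hb.cont hb.maps hbg
  exact ⟨a, ⟨h1, h2⟩, h3, h4⟩

/-- functions with small jumps, set form -/
theorem disc_set {X : Set β} (cX : IsCompact X) {k : ℕ} (hX : ULC k X) {P : Set γ}
    (cP : IsCompact P) (hP : PushOff k P) : DISC P X := by
  intro ε hε
  obtain ⟨δ, hδ, H⟩ := app_set cX hX hε
  refine ⟨δ, hδ, fun h hh hj => ?_⟩
  obtain ⟨a, h1, h2, -, h4⟩ := H γ P ∅ cP hP isClosed_empty (empty_subset _) h hh hj h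
    (continuousOn_empty _) (mapsTo_empty _ _) (by simp)
  exact ⟨a, ⟨h1, h2⟩, h4⟩

end MG
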