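import Pool.Agent.Work.MP_017613_gt.Skel24
import Pool.Agent.Work.MP_017613_gt.Kit.Radial

/-!
# Joint `J_DIM`: finite complexes of dimension `≤ k` have `PushOff k` and `ULC k`

`pushOff_countable`: the countable sum theorem for `PushOff`.
-/

open Set Metric Topology

namespace MG

open Pool.Agent.Work.MP_017613_gt (PushOff tietze tietze_small exists_norm_lower
  pushOff_of_finrank)

variable {α : Type*} [MetricSpace α]

/-- countable sum theorem -/
theorem pushOff_countable {k : ℕ} {ι : Type*} [Countable ι] {P : Set α} (cP : IsCompact P)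
    {Q : ι → Set α} (hQ : ∀ i, PushOff k (Q i)) (cQ : ∀ i, IsCompact (Q i))
    (_hQP : ∀ i, Q i ⊆ P) (hcov : P ⊆ ⋃ i, Q i) : PushOff k P := by
  classical
  have : CompactSpace P := isCompact_iff_compactSpace.1 cP
  -- the generic conditions
  have hopen : ∀ i, IsOpen {g : C(P, Fin (k + 1) → ℝ) | ∀ x : P, (x : α) ∈ Q i → g x ≠ 0} := by
    intro i
    have h1 : IsCompact (Subtype.val ⁻¹' Q i : Set P) :=
      ((cQ i).isClosed.preimage continuous_subtype_val).isCompact
    have h2 := ContinuousMap.isOpen_setOfPred_mapsTo (Y := Fin (k + 1) → ℝ) h1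
      (isOpen_compl_singleton (x := (0 : Fin (k + 1) → ℝ)))
    exact h2
  have hdense : ∀ i, Dense {g : C(P, Fin (k + 1) → ℝ) | ∀ x : P, (x : α) ∈ Q i → g x ≠ 0} := by
    intro i g
    rw [Metric.mem_closure_iff]
    intro ε hε
    -- extend `g` to the whole space
    obtain ⟨G, hG⟩ := ContinuousMap.exists_restrict_eq cP.isClosed g
    have hGg : ∀ x : P, G x = g x := fun x => DFunLike.congr_fun hG x
    obtain ⟨g', hg', hd, h0⟩ := hQ i G G.continuous.continuousOn (ε / 2) (half_pos hε)
    obtain ⟨H, cH, eH, bH⟩ := tietze_small (cQ i) (h := fun x => g' x - G x)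
      (hg'.sub G.continuous.continuousOn) (ε := ε / 2) (half_pos hε)
      (fun x hx => by rw [← dist_eq_norm]; exact hd x hx)
    refine ⟨⟨fun x : P => G x + H x, by fun_prop⟩, ?_, ?_⟩
    · intro x hx
      have h1 := eH hx
      have h2 : G x + H x = g' x := by rw [h1]; exact add_sub_cancel _ _
      show G x + H x ≠ 0
      rw [h2]
      exact h0 _ hx
    · refine lt_of_le_of_lt ((ContinuousMap.dist_le (half_pos hε).le).2 fun x => ?_)
        (half_lt_self hε)
      show dist (g x) (G x + H x) ≤ ε / 2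
      rw [← hGg x, dist_comm, dist_eq_norm, add_sub_cancel_left]
      exact (bH x).le
  have hd := dense_iInter_of_isOpen hopen hdense
  intro f hf ε hε
  obtain ⟨g, hg, hgf⟩ := Metric.mem_closure_iff.1 (hd ⟨P.domRestrict f, hf.domRestrict⟩) ε hε
  rw [mem_iInter] at hg
  refine ⟨fun x => if h : x ∈ P then g ⟨x, h⟩ else 0, ?_, ?_, ?_⟩
  · rw [continuousOn_iff_continuous_domRestrict]
    have h1 : P.domRestrict (fun x => if h : x ∈ P then g ⟨x, h⟩ else 0) = g := by
      ext1 ⟨x, hx⟩
      simp [hx]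
    rw [h1]
    exact g.continuous
  · intro x hx
    simp only [hx, dif_pos]
    have h1 := (ContinuousMap.dist_apply_le_dist (f := ⟨P.domRestrict f, hf.domRestrict⟩)
      (g := g) ⟨x, hx⟩).trans_lt hgf
    rw [dist_comm]
    exact h1
  · intro x hx
    simp only [hx, dif_pos]
    obtain ⟨i, hi⟩ := mem_iUnion.1 (hcov hx)
    exact hg i ⟨x, hx⟩ hi

/-- attaching cells of dimension `≤ k` -/
theorem Layer.pushOff {k d : ℕ} (hd : d ≤ k) {K V : Set α} (h : Layer d K V) (hK : IsCompact K)
    (hp : PushOff k K) : PushOff k V := by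
  have hV := h.isCompact hK
  obtain ⟨m, χ, h⟩ := h
  -- the inner cubes
  let B : ℕ → Set (Fin d → ℝ) := fun n => {x | crad x ≤ 1 - 1 / (n + 1)}
  have hBC : ∀ n, B n ⊆ Cu d := fun n x hx => by
    rw [mem_Cu_crad]
    have h1 : (0:ℝ) < 1 / (n + 1) := by positivity
    have h2 : crad x ≤ 1 - 1 / (n + 1) := hx
    linarith
  have hBd : ∀ n, ∀ x ∈ B n, x ∉ dCu d := fun n x hx hxd => by
    rw [mem_dCu_crad] at hxd
    have h1 : (0:ℝ) < 1 / (n + 1) := by positivity
    have h2 : crad x ≤ 1 - 1 / (n + 1) := hx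
    linarith
  have cB : ∀ n, IsCompact (B n) := fun n =>
    (isCompact_Cu d).of_isClosed_subset (isClosed_le continuous_crad continuous_const) (hBC n)
  have hχB : ∀ i n, IsCompact (χ i '' B n) := fun i n =>
    (cB n).image_of_continuousOn ((h.cont i).mono (hBC n))
  refine pushOff_countable (ι := Option (Fin m × ℕ)) hV
    (Q := fun o => o.elim K fun p => χ p.1 '' B p.2) ?_ ?_ ?_ ?_
  · rintro (_ | ⟨i, n⟩)
    · exact hp
    · refine PushOff.image (pushOff_of_finrank (by simpa using hd) (cB n)) (cB n)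
        ((h.cont i).mono (hBC n)) ?_
      intro x hx y hy he
      exact (h.inj i i x y (hBC n hx) (hBd n x hx) (hBC n hy) (hBd n y hy) he).2
  · rintro (_ | ⟨i, n⟩)
    · exact hK
    · exact hχB i n
  · rintro (_ | ⟨i, n⟩)
    · exact h.subset
    · rintro _ ⟨x, hx, rfl⟩
      exact h.maps i (hBC n hx)
  · intro y hy
    by_cases hyK : y ∈ K
    · exact mem_iUnion.2 ⟨none, hyK⟩
    · obtain ⟨i, x, hx, hxd, rfl⟩ := h.exists_rep hy hyK
      have h1 : crad x < 1 := lt_of_le_of_ne (mem_Cu_crad.1 hx) fun h2 =>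
        hxd (mem_dCu_crad.2 h2)
      obtain ⟨n, hn⟩ := exists_nat_one_div_lt (sub_pos.2 h1)
      refine mem_iUnion.2 ⟨some (i, n), x, ?_, rfl⟩
      show crad x ≤ 1 - 1 / (n + 1)
      linarith

namespace Tr

/-- `J_DIM` -/
theorem j_DIM : J_DIM := by
  intro k R _ P0 P hTP hp hu
  obtain ⟨hc, S, rfl, rfl, hS⟩ := hTP
  have hcomp := TP.skel_compact hc hS
  have key : ∀ d ≤ k + 1, PushOff k (S d) ∧ ULC k (S d) := by
    intro d
    induction d with
    | zero => intro _; exact ⟨hp, hu⟩
    | succ d ih =>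
      intro hd
      obtain ⟨h1, h2⟩ := ih (by omega)
      exact ⟨(hS d (by omega)).pushOff (by omega) (hcomp d (by omega)) h1,
        (hS d (by omega)).ulc (hcomp d (by omega)) h2⟩
  exact key (k + 1) le_rfl

end Tr

end MG
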