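import Pool.Agent.Work.MP_017613_gt.AbsFin
import Pool.Agent.Work.MP_017613_gt.DiscC
import Pool.Agent.Work.MP_017613_gt.TrDim
import Pool.Agent.Work.MP_017613_gt.Kit.GridPush
import Pool.Agent.Work.MP_017613_gt.Abs2Defs

/-!
# Absorption over skeleta

* `IsCub.ulc_dim`, `IsCub.pushOff_dim`: cubical sets of dimension `≤ k`.
* `conn_skel`: the `k`-skeleton of a `(k-1)`-connected cubical set is `(k-1)`-connected.
* `CFam.ulc`: attaching cones over a finite complex preserves `ULC`.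
* `absorb_mesh`: absorption of cones over cubical sets of one mesh.
* `absorb_skel`: absorption of the cones over the `k`-skeleton of the boundary of `(k+2)`-cells.
-/

open Set Metric Topology

namespace MG

open Pool.Agent.Work.MP_017613_gt (ZS ZD PushOff pushOff_of_finrank)

section Skel

variable {N k m : ℕ} {P : Set (Fin N → ℝ)}

lemma pushOff_Cu_le {j k : ℕ} (h : j ≤ k) : PushOff k (Cu j) :=
  pushOff_of_finrank (by simpa using h) (isCompact_Cu j)

/-- cubical sets of dimension `≤ k` -/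
lemma IsCub.tp_self (hm : 0 < m) (hP : IsCub m P) (hd : ∀ x ∈ P, dm (car m x) ≤ k) :
    TP k ∅ P :=
  IsCub.tp hm hP (IsCub.empty m) (empty_subset _) fun x hx _ => hd x hx

lemma ulc_empty_aux {α : Type*} [MetricSpace α] : ULC k (∅ : Set α) :=
  fun _ _ => ⟨1, one_pos, fun _ _ _ hy => hy.elim⟩

lemma IsCub.ulc_dim (hm : 0 < m) (hP : IsCub m P) (hd : ∀ x ∈ P, dm (car m x) ≤ k) : ULC k P :=
  (Tr.j_DIM k _ ∅ P (hP.tp_self hm hd) PushOff.empty ulc_empty_aux).2

lemma IsCub.pushOff_dim (hm : 0 < m) (hP : IsCub m P) (hd : ∀ x ∈ P, dm (car m x) ≤ k) :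
    PushOff k P :=
  (Tr.j_DIM k _ ∅ P (hP.tp_self hm hd) PushOff.empty ulc_empty_aux).1

/-- the `k`-skeleton of a `(k-1)`-connected cubical set is `(k-1)`-connected -/
lemma conn_skel (hm : 0 < m) (hP : IsCub m P) (hc : Conn k P) :
    Conn k {x | x ∈ P ∧ dm (car m x) ≤ k} := by
  intro j hj f hf
  obtain ⟨F, hF, hFe⟩ := hc j hj f (hf.right fun x hx => hx.1)
  obtain ⟨G, hG, hGc, hGd, hGe⟩ := grid_push hm (isCompact_Cu j) (pushOff_Cu_le hj) hF.cont
  refine ⟨G, ⟨hG, fun x hx => ⟨hP.sat _ (hF.maps hx) (hGc x hx), hGd x hx⟩⟩, fun x hx => ?_⟩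
  have hxC := dCu_subset j hx
  rw [hGe x hxC (by rw [hFe hx]; exact (hf.maps hx).2), hFe hx]

end Skel

/-! ### Attaching cones over finite complexes -/

section Cone

variable {E β ι : Type*} [MetricSpace E] [MetricSpace β] {A : Set E} {K V : Set β}
  {Φ : ι → E → ℝ → β}

lemma CFam.subset (h : CFam A K V Φ) : K ⊆ V := by
  rw [h.union]
  exact subset_union_left

lemma CFam.isCompact [Finite ι] (h : CFam A K V Φ) (hA : IsCompact A) (hK : IsCompact K) :
    IsCompact V := by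
  have h1 : V = K ∪ ⋃ a, (fun q : E × ℝ => Φ a q.1 q.2) '' (A ×ˢ Icc (0 : ℝ) 1) := by
    rw [h.union]
    ext v
    simp only [mem_union, mem_ofPred_eq, mem_iUnion, mem_image, mem_prod, Prod.exists, mem_Icc]
    constructor
    · rintro (hv | ⟨a, x, hx, t, h0, h1, rfl⟩)
      · exact Or.inl hv
      · exact Or.inr ⟨a, x, t, ⟨hx, h0, h1⟩, rfl⟩
    · rintro (hv | ⟨a, x, t, ⟨hx, h0, h1⟩, rfl⟩)
      · exact Or.inl hv
      · exact Or.inr ⟨a, x, hx, t, h0, h1, rfl⟩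
  rw [h1]
  exact hK.union (isCompact_iUnion fun a =>
    (hA.prod isCompact_Icc).image_of_continuousOn (h.cont a))

/-- attaching cones over a finite complex preserves `ULC` -/
theorem CFam.ulc [Finite ι] {k l : ℕ} (h : CFam A K V Φ) (hA : TP l ∅ A) (hne : A.Nonempty)
    (hK : IsCompact K) (hu : ULC k K) : ULC k V := by
  classical
  obtain ⟨-, S, hS0, hS1, hS⟩ := hA
  obtain ⟨x₀, hx₀⟩ := hne
  have hSA : ∀ d ≤ l + 1, S d ⊆ A := by
    intro d hd
    have : ∀ n, n ≤ l + 1 → S (l + 1 - n) ⊆ A := by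
      intro n
      induction n with
      | zero => intro _; rw [Nat.sub_zero, hS1]
      | succ n ih =>
        intro hn
        obtain ⟨m, χ, hL⟩ := hS (l + 1 - (n + 1)) (by omega)
        have h1 : l + 1 - (n + 1) + 1 = l + 1 - n := by omega
        have h2 := hL.subset
        rw [h1] at h2
        exact h2.trans (ih (by omega))
    have h3 := this (l + 1 - d) (by omega)
    rwa [show l + 1 - (l + 1 - d) = d by omega] at h3
  -- the skeleta
  let T : ℕ → Set β := fun d => K ∪ {v | ∃ a, ∃ x ∈ A, ∃ t, 0 ≤ t ∧ t ≤ 1 ∧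
    (t = 1 ∨ x ∈ S d) ∧ Φ a x t = v}
  -- the apexes
  have h0 : Layer 0 K (T 0) := by
    refine Layer.of_fam (ι := ι) (χ := fun a _ => Φ a x₀ 1) ⟨?_, ?_, ?_, ?_, ?_⟩
    · intro a
      exact continuousOn_const
    · intro a z hz
      rw [dCu_zero] at hz
      exact hz.elim
    · intro a z _ _
      exact h.off a x₀ hx₀ 1 one_pos le_rfl
    · intro a b z z' _ _ _ _ he
      exact ⟨(h.inj a b x₀ x₀ 1 1 hx₀ hx₀ one_pos le_rfl one_pos le_rfl he).1,
        Subsingleton.elim _ _⟩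
    · ext v
      simp only [T, mem_union, mem_ofPred_eq, mem_iUnion, mem_image]
      constructor
      · rintro (hv | ⟨a, x, hx, t, ht0, ht1, hh, rfl⟩)
        · exact Or.inl hv
        · refine Or.inr ⟨a, 0, ?_, ?_⟩
          · rw [mem_Cu]
            intro i
            exact i.elim0
          · rcases hh with rfl | hh
            · exact h.apex a x₀ hx₀ x hx
            · rw [hS0] at hh
              exact hh.elim
      · rintro (hv | ⟨a, z, _, rfl⟩)
        · exact Or.inl hv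
        · exact Or.inr ⟨a, x₀, hx₀, 1, zero_le_one, le_rfl, Or.inl rfl, rfl⟩
  -- the cones over the cells
  have h1 : ∀ d ≤ l, Layer (d + 1) (T d) (T (d + 1)) := by
    intro d hd
    obtain ⟨m, χ, hL⟩ := hS d hd
    have hSd := hSA d (by omega)
    have hSd1 := hSA (d + 1) (by omega)
    have hχ : ∀ j, ∀ z ∈ Cu d, χ j z ∈ A := fun j z hz => hSd1 (hL.maps j hz)
    have htail : ∀ z ∈ Cu (d + 1), Fin.tail z ∈ Cu d ∧ 0 ≤ z 0 ∧ z 0 ≤ 1 := by
      intro z hz
      rw [mem_Cu] at hz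
      refine ⟨?_, hz 0⟩
      rw [mem_Cu]
      exact fun i => hz i.succ
    have hint : ∀ z ∈ Cu (d + 1), z ∉ dCu (d + 1) → Fin.tail z ∉ dCu d ∧ 0 < z 0 ∧ z 0 < 1 := by
      intro z hz hzb
      refine ⟨fun ht => ?_, ?_, ?_⟩
      · obtain ⟨-, i, hi⟩ := ht
        exact hzb ⟨hz, i.succ, hi⟩
      · refine lt_of_le_of_ne (htail z hz).2.1 fun he => hzb ⟨hz, 0, Or.inl he.symm⟩
      · exact lt_of_le_of_ne (htail z hz).2.2 fun he => hzb ⟨hz, 0, Or.inr he⟩
    refine Layer.of_fam (ι := ι × Fin m)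
      (χ := fun p z => Φ p.1 (χ p.2 (Fin.tail z)) (z 0)) ⟨?_, ?_, ?_, ?_, ?_⟩
    · intro p
      have c1 : ContinuousOn (fun z : Fin (d + 1) → ℝ => (χ p.2 (Fin.tail z), z 0))
          (Cu (d + 1)) := by
        refine ContinuousOn.prodMk ?_ (continuous_apply 0).continuousOn
        exact (hL.cont p.2).comp (continuous_pi fun i => continuous_apply _).continuousOn
          fun z hz => (htail z hz).1
      exact (h.cont p.1).comp c1 fun z hz => ⟨hχ _ _ (htail z hz).1, (htail z hz).2⟩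
    · intro p z hz
      obtain ⟨hzC, i, hi⟩ := hz
      obtain ⟨h2, h3, h4⟩ := htail z hzC
      have hxA := hχ p.2 _ h2
      rcases Fin.eq_zero_or_eq_succ i with rfl | ⟨i', rfl⟩
      · rcases hi with hi | hi
        · left
          show Φ p.1 (χ p.2 (Fin.tail z)) (z 0) ∈ K
          rw [hi]
          exact h.base p.1 _ hxA
        · right
          exact ⟨p.1, _, hxA, z 0, h3, h4, Or.inl hi, rfl⟩
      · right
        exact ⟨p.1, _, hxA, z 0, h3, h4, Or.inr (hL.bdry p.2 ⟨h2, i', hi⟩), rfl⟩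
    · intro p z hz hzb
      obtain ⟨h2, h3, h4⟩ := htail z hz
      obtain ⟨h5, h6, h7⟩ := hint z hz hzb
      have hxA := hχ p.2 _ h2
      have hoff := hL.off p.2 _ h2 h5
      rintro (hv | ⟨a, x, hx, t, ht0, ht1, hh, he⟩)
      · exact h.off p.1 _ hxA _ h6 h4 hv
      · rcases ht0.eq_or_lt with h8 | h8
        · rw [← h8] at he
          exact h.off p.1 _ hxA _ h6 h4 (he ▸ h.base a x hx)
        · obtain ⟨-, h9, h10⟩ := h.inj a p.1 x _ t _ hx hxA h8 ht1 h6 h4 he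
          rcases hh with rfl | hh
          · linarith
          · exact hoff (h10 (by linarith) ▸ hh)
    · rintro ⟨a, j⟩ ⟨a', j'⟩ z z' hz hzb hz' hzb' he
      obtain ⟨h2, h3, h4⟩ := htail z hz
      obtain ⟨h5, h6, h7⟩ := hint z hz hzb
      obtain ⟨h2', h3', h4'⟩ := htail z' hz'
      obtain ⟨h5', h6', h7'⟩ := hint z' hz' hzb'
      obtain ⟨h8, h9, h10⟩ := h.inj a a' _ _ _ _ (hχ j _ h2) (hχ j' _ h2') h6 h4 h6' h4' he
      obtain ⟨h11, h12⟩ := hL.inj j j' _ _ h2 h5 h2' h5' (h10 h7)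
      subst h8
      subst h11
      refine ⟨rfl, ?_⟩
      rw [← Fin.cons_self_tail z, ← Fin.cons_self_tail z', h9, h12]
    · have hS1' : S (d + 1) = S d ∪ ⋃ i, χ i '' Cu d := hL.union
      ext v
      simp only [T, mem_union, mem_ofPred_eq, mem_iUnion, mem_image]
      constructor
      · rintro (hv | ⟨a, x, hx, t, ht0, ht1, hh, rfl⟩)
        · exact Or.inl (Or.inl hv)
        · rcases hh with rfl | hh
          · exact Or.inl (Or.inr ⟨a, x, hx, 1, zero_le_one, le_rfl, Or.inl rfl, rfl⟩)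
          · rw [hS1'] at hh
            rcases hh with hh | hh
            · exact Or.inl (Or.inr ⟨a, x, hx, t, ht0, ht1, Or.inr hh, rfl⟩)
            · obtain ⟨j, y, hy, rfl⟩ := mem_iUnion.1 hh
              refine Or.inr ⟨(a, j), Fin.cons t y, ?_, ?_⟩
              · rw [mem_Cu]
                intro i
                refine Fin.cases ?_ (fun i => ?_) i
                · exact ⟨ht0, ht1⟩
                · exact mem_Cu.1 hy i
              · simp only [Fin.tail_cons, Fin.cons_zero]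
      · rintro ((hv | ⟨a, x, hx, t, ht0, ht1, hh, rfl⟩) | ⟨⟨a, j⟩, z, hz, rfl⟩)
        · exact Or.inl hv
        · refine Or.inr ⟨a, x, hx, t, ht0, ht1, ?_, rfl⟩
          rcases hh with hh | hh
          · exact Or.inl hh
          · exact Or.inr (hL.subset hh)
        · obtain ⟨h2, h3, h4⟩ := htail z hz
          exact Or.inr ⟨a, _, hχ j _ h2, z 0, h3, h4, Or.inr (hL.maps j h2), rfl⟩
  have key : ∀ d ≤ l + 1, IsCompact (T d) ∧ ULC k (T d) := by
    intro d
    induction d with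
    | zero => intro _; exact ⟨h0.isCompact hK, h0.ulc hK hu⟩
    | succ d ih =>
      intro hd
      obtain ⟨h2, h3⟩ := ih (by omega)
      exact ⟨(h1 d (by omega)).isCompact h2, (h1 d (by omega)).ulc h2 h3⟩
  have hV : V = T (l + 1) := by
    rw [h.union]
    ext v
    simp only [T, mem_union, mem_ofPred_eq]
    constructor
    · rintro (hv | ⟨a, x, hx, t, ht0, ht1, rfl⟩)
      · exact Or.inl hv
      · exact Or.inr ⟨a, x, hx, t, ht0, ht1, Or.inr (hS1 ▸ hx), rfl⟩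
    · rintro (hv | ⟨a, x, hx, t, ht0, ht1, -, rfl⟩)
      · exact Or.inl hv
      · exact Or.inr ⟨a, x, hx, t, ht0, ht1, rfl⟩
  rw [hV]
  exact (key (l + 1) le_rfl).2

/-- restricting the bases of the cones -/
theorem CFam.restrict (h : CFam A K V Φ) {A' : Set E} (hA' : A' ⊆ A) :
    CFam A' K (K ∪ {v | ∃ a, ∃ x ∈ A', ∃ t, 0 ≤ t ∧ t ≤ 1 ∧ Φ a x t = v}) Φ where
  cont a := (h.cont a).mono (prod_mono_left hA')
  base a x hx := h.base a x (hA' hx)
  apex a x hx x' hx' := h.apex a x (hA' hx) x' (hA' hx')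
  off a x hx := h.off a x (hA' hx)
  inj a b x x' t t' hx hx' := h.inj a b x x' t t' (hA' hx) (hA' hx')
  union := rfl

end Cone

/-! ### Absorption over cubical sets of one mesh -/

/-- **Absorption**, over a cubical set of mesh `1 / m`. -/
theorem absorb_mesh {k N m : ℕ} {ι M β : Type*} [Finite ι] [MetricSpace M] [CompactSpace M]
    [MetricSpace β] {A : Set (Fin N → ℝ)} {K V : Set β} {Φ : ι → (Fin N → ℝ) → ℝ → β}
    (hk : 1 ≤ k) (hU : ULC k (univ : Set M)) (hP : PushOff k (univ : Set M)) (hZ : ZD M)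
    (hm : 0 < m) (hAn : A.Nonempty) (hAcub : IsCub m A)
    (hAdim : ∀ x ∈ A, dm (car m x) ≤ k) (hA2 : Conn k A)
    (hK : IsCompact K) (hK1 : ULC k K) (hc : CFam A K V Φ) {ε : ℝ} (hε : 0 < ε) :
    ∃ δ > 0, ∀ g : M → β, IsMap g univ K → L k g univ K δ → ∀ W : Set M, ZS W →
      ∃ g' : M → β, IsMap g' univ V ∧ L k g' univ V ε ∧ (∀ x ∈ W, dist (g' x) (g x) < ε) ∧
        ∀ x, dist (g' x) (g x) < ε ∨ ∃ a, ∃ y ∈ A, ∃ t, 0 ≤ t ∧ t ≤ 1 ∧
          dist (g' x) (Φ a y t) < ε ∧ dist (g x) (Φ a y 0) < ε := by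
  have hm' : (m : ℝ) ≠ 0 := by exact_mod_cast hm.ne'
  have hDisc : DISC (univ : Set M) V :=
    disc_set (hc.isCompact hAcub.isCompact hK)
      (hc.ulc (hAcub.tp_self hm hAdim) hAn hK hK1) isCompact_univ hP
  -- scaling
  set s : (Fin N → ℝ) → Fin N → ℝ := fun x => (m : ℝ)⁻¹ • x with hs
  set r : (Fin N → ℝ) → Fin N → ℝ := fun x => (m : ℝ) • x with hr
  have hsr : ∀ x, s (r x) = x := fun x => by simp only [hs, hr, smul_smul, inv_mul_cancel₀ hm',
    one_smul]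
  have hrs : ∀ x, r (s x) = x := fun x => by simp only [hs, hr, smul_smul, mul_inv_cancel₀ hm',
    one_smul]
  have cs : Continuous s := continuous_const_smul _
  have cr : Continuous r := continuous_const_smul _
  have hcar : ∀ x, car 1 x = car m (s x) := by
    intro x
    funext i
    have h1 : (m : ℝ) * s x i = x i := by
      have := congrFun (hrs x) i
      simpa [hr] using this
    simp only [car, h1, Nat.cast_one, one_mul]
  have hcube : ∀ w : Fin N → ℤ, ∀ x, x ∈ cube 1 w ↔ s x ∈ cube m w := by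
    intro w x
    rw [mem_cube_iff, mem_cube_iff, hcar]
  set A₁ : Set (Fin N → ℝ) := s ⁻¹' A with hA₁
  have hA₁c : IsCub 1 A₁ := by
    refine ⟨?_, ?_⟩
    · obtain ⟨B, hB⟩ := hAcub.bdd.exists_norm_le
      apply isBounded_iff_forall_norm_le.2
      refine ⟨(m : ℝ) * B, fun x hx => ?_⟩
      rw [← hrs x]
      simp only [hr]
      rw [norm_smul, Real.norm_eq_abs, Nat.abs_cast]
      exact mul_le_mul_of_nonneg_left (hB _ hx) (by positivity)
    · intro x hx y hy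
      rw [hcube, hcar] at hy
      exact hAcub.sat _ hx hy
  have hA₁d : ∀ x ∈ A₁, dm (car 1 x) ≤ k := fun x hx => by
    rw [hcar]
    exact hAdim _ hx
  have hcub : ∀ n : ℕ, 0 < n → IsCub n A₁ := fun n hn => by
    have := hA₁c.mul hn
    rwa [one_mul] at this
  have hdim : ∀ n : ℕ, 0 < n → ∀ x ∈ A₁, dm (car n x) ≤ k := fun n _ x hx => by
    have := dm_car_mul_le (m := 1) (n := n) x
    rw [one_mul] at this
    exact this.trans (hA₁d x hx)
  have hA₁n : A₁.Nonempty := by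
    obtain ⟨x, hx⟩ := hAn
    exact ⟨r x, by rw [hA₁, mem_preimage, hsr]; exact hx⟩
  have hconn : Conn k A₁ := by
    intro j hj f hf
    obtain ⟨F, hF, hFe⟩ := hA2 j hj (fun x => s (f x))
      ⟨cs.comp_continuousOn hf.cont, fun x hx => hf.maps hx⟩
    refine ⟨fun x => r (F x), ⟨cr.comp_continuousOn hF.cont, fun x hx => ?_⟩, fun x hx => ?_⟩
    · rw [hA₁, mem_preimage, hsr]
      exact hF.maps hx
    · show r (F x) = f x
      rw [hFe hx, hrs]
  have hc₁ : CFam A₁ K V (fun a x t => Φ a (s x) t) := by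
    refine ⟨fun a => ?_, fun a x hx => hc.base a _ hx, fun a x hx x' hx' => hc.apex a _ hx _ hx',
      fun a x hx => hc.off a _ hx, fun a b x x' t t' hx hx' h0 h1 h0' h1' he => ?_, ?_⟩
    · exact (hc.cont a).comp (f := fun q : (Fin N → ℝ) × ℝ => (s q.1, q.2))
        ((cs.comp continuous_fst).prodMk continuous_snd).continuousOn fun q hq => ⟨hq.1, hq.2⟩
    · obtain ⟨h2, h3, h4⟩ := hc.inj a b _ _ t t' hx hx' h0 h1 h0' h1' he
      refine ⟨h2, h3, fun ht => ?_⟩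
      rw [← hrs x, h4 ht, hrs]
    · rw [hc.union]
      congr 1
      ext v
      simp only [mem_ofPred_eq]
      constructor
      · rintro ⟨a, x, hx, t, h0, h1, rfl⟩
        refine ⟨a, r x, ?_, t, h0, h1, by rw [hsr]⟩
        rw [hA₁, mem_preimage, hsr]
        exact hx
      · rintro ⟨a, x, hx, t, h0, h1, rfl⟩
        exact ⟨a, s x, hx, t, h0, h1, rfl⟩
  obtain ⟨δ, hδ, h⟩ := absorb hk hU hZ hA₁n hcub hdim (hA₁c.ulc_dim one_pos hA₁d) hconn hK hK1 hc₁
    hDisc hε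
  refine ⟨δ, hδ, fun g hg hL W hW => ?_⟩
  obtain ⟨g', h1, h2, h3, h4⟩ := h g hg hL W hW
  refine ⟨g', h1, h2, h3, fun x => ?_⟩
  rcases h4 x with h5 | ⟨a, y, hy, t, h5⟩
  · exact Or.inl h5
  · exact Or.inr ⟨a, s y, hy, t, h5⟩

/-! ### Absorption over the skeleton of the boundary of a cube -/

/-- the `k`-skeleton of the boundary of the cube -/
def skB (n k m : ℕ) : Set (Fin n → ℝ) := {x | x ∈ dCu n ∧ dm (car m x) ≤ k}

/-- the cone over the `k`-skeleton of the boundary of the cube -/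
noncomputable def skC (n k m : ℕ) : Set (Fin n → ℝ) :=
  {z | ∃ x ∈ skB n k m, ∃ t, 0 ≤ t ∧ t ≤ 1 ∧
    ccn (Pool.Agent.Work.MP_017613_gt.T6.ce n) x t = z}

section SkB

variable {n k m : ℕ}

lemma skB_subset : skB n k m ⊆ dCu n := fun _ hx => hx.1

lemma isCub_skB (hm : 0 < m) : IsCub m (skB n k m) := (isCub_dCu hm n).skel k

lemma isCompact_skB (hm : 0 < m) : IsCompact (skB n k m) := (isCub_skB hm).isCompact

lemma dm_skB {x : Fin n → ℝ} (hx : x ∈ skB n k m) : dm (car m x) ≤ k := hx.2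

lemma ulc_skB (hm : 0 < m) : ULC k (skB n k m) := (isCub_skB hm).ulc_dim hm fun _ hx => hx.2

lemma pushOff_skB (hm : 0 < m) : PushOff k (skB n k m) :=
  (isCub_skB hm).pushOff_dim hm fun _ hx => hx.2

lemma conn_skB (hm : 0 < m) (hk : k < n) : Conn k (skB n k m) :=
  conn_skel hm (isCub_dCu hm n) (Pool.Agent.Work.MP_017613_gt.T6.kit_conn_dCu hk)

lemma skB_nonempty (hm : 0 < m) (hk : k < n) : (skB n k m).Nonempty := by
  obtain ⟨F, hF, -⟩ := conn_skB (k := k) hm hk 0 (Nat.zero_le _) (fun _ => 0) (by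
    rw [dCu_zero]
    exact IsMap.empty)
  exact ⟨F 0, hF.maps (by rw [mem_Cu]; intro i; exact i.elim0)⟩

lemma ce_mem_Cu : Pool.Agent.Work.MP_017613_gt.T6.ce n ∈ Cu n := by
  rw [mem_Cu]
  intro i
  simp only [Pool.Agent.Work.MP_017613_gt.T6.ce]
  norm_num

lemma ccn_mem_Cu {p x : Fin n → ℝ} (hp : p ∈ Cu n) (hx : x ∈ Cu n) {t : ℝ} (h0 : 0 ≤ t)
    (h1 : t ≤ 1) : ccn p x t ∈ Cu n := by
  have h7 : ccn p x t = t • p + (1 - t) • x := by
    funext i
    simp only [ccn, Pi.add_apply, Pi.smul_apply, Pi.sub_apply, smul_eq_mul]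
    ring
  rw [h7]
  exact convex_Cu n hp hx h0 (by linarith) (by ring)

lemma skC_subset : skC n k m ⊆ Cu n := by
  rintro _ ⟨x, hx, t, h0, h1, rfl⟩
  exact ccn_mem_Cu ce_mem_Cu (dCu_subset n hx.1) h0 h1

end SkB

/-- attached cones over the skeleton -/
theorem Fam.cfam_skB {n k m : ℕ} {ι β : Type*} [MetricSpace β] {K V : Set β}
    {χ : ι → (Fin n → ℝ) → β} (hn : 1 ≤ n) (hF : Fam (Cu n) (dCu n) K V χ) :
    CFam (skB n k m) K (K ∪ ⋃ i, χ i '' skC n k m)
      (fun i x t => χ i (ccn (Pool.Agent.Work.MP_017613_gt.T6.ce n) x t)) := by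
  have h := (hF.cfam_cell hn).restrict (skB_subset (n := n) (k := k) (m := m))
  have he : (K ∪ {v | ∃ a, ∃ x ∈ skB n k m, ∃ t, 0 ≤ t ∧ t ≤ 1 ∧
      χ a (ccn (Pool.Agent.Work.MP_017613_gt.T6.ce n) x t) = v}) =
      K ∪ ⋃ i, χ i '' skC n k m := by
    congr 1
    ext v
    simp only [skC, mem_ofPred_eq, mem_iUnion, mem_image]
    constructor
    · rintro ⟨a, x, hx, t, h0, h1, rfl⟩
      exact ⟨a, _, ⟨x, hx, t, h0, h1, rfl⟩, rfl⟩
    · rintro ⟨a, _, ⟨x, hx, t, h0, h1, rfl⟩, rfl⟩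
      exact ⟨a, x, hx, t, h0, h1, rfl⟩
  rwa [he] at h

/-- **Absorption of the cones over the `k`-skeleton of the boundary of `n`-cells.** -/
theorem absorb_skel {n k m : ℕ} {ι M β : Type*} [Finite ι] [MetricSpace M] [CompactSpace M]
    [MetricSpace β] {K V : Set β} {χ : ι → (Fin n → ℝ) → β}
    (hk : 1 ≤ k) (hkn : k < n) (hm : 0 < m) (hU : ULC k (univ : Set M))
    (hP : PushOff k (univ : Set M)) (hZ : ZD M) (hK : IsCompact K) (hK1 : ULC k K)
    (hF : Fam (Cu n) (dCu n) K V χ) {ε : ℝ} (hε : 0 < ε) :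
    ∃ δ > 0, ∀ g : M → β, IsMap g univ K → L k g univ K δ → ∀ W : Set M, ZS W →
      ∃ g' : M → β, IsMap g' univ (K ∪ ⋃ i, χ i '' skC n k m) ∧
        L k g' univ (K ∪ ⋃ i, χ i '' skC n k m) ε ∧ (∀ x ∈ W, dist (g' x) (g x) < ε) ∧
        ∀ x, dist (g' x) (g x) < ε ∨ ∃ a, ∃ z ∈ Cu n, ∃ z' ∈ dCu n,
          dist (g' x) (χ a z) < ε ∧ dist (g x) (χ a z') < ε := by
  obtain ⟨δ, hδ, h⟩ := absorb_mesh hk hU hP hZ hm (skB_nonempty hm hkn) (isCub_skB hm)
    (fun x hx => hx.2) (conn_skB hm hkn) hK hK1 (hF.cfam_skB (k := k) (m := m) (by omega)) hε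
  refine ⟨δ, hδ, fun g hg hL W hW => ?_⟩
  obtain ⟨g', h1, h2, h3, h4⟩ := h g hg hL W hW
  refine ⟨g', h1, h2, h3, fun x => ?_⟩
  rcases h4 x with h5 | ⟨a, y, hy, t, ht0, ht1, h5, h6⟩
  · exact Or.inl h5
  · exact Or.inr ⟨a, _, ccn_mem_Cu ce_mem_Cu (dCu_subset n hy.1) ht0 ht1, y, hy.1, h5,
      by simpa using h6⟩

/-- compactness and `ULC` of `K` with the cones over the skeleton -/
theorem skC_compact_ulc {n k m : ℕ} {ι β : Type*} [Finite ι] [MetricSpace β] {K V : Set β}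
    {χ : ι → (Fin n → ℝ) → β} (hkn : k < n) (hm : 0 < m) (hK : IsCompact K) (hK1 : ULC k K)
    (hF : Fam (Cu n) (dCu n) K V χ) :
    IsCompact (K ∪ ⋃ i, χ i '' skC n k m) ∧ ULC k (K ∪ ⋃ i, χ i '' skC n k m) := by
  have hc := hF.cfam_skB (k := k) (m := m) (by omega)
  exact ⟨hc.isCompact (isCompact_skB hm) hK,
    hc.ulc ((isCub_skB hm).tp_self hm fun _ hx => hx.2) (skB_nonempty hm hkn) hK hK1⟩

/-! ### In the notation of `Abs2Defs` -/

namespace Abs2

variable {k n m : ℕ}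

lemma Ak_eq : Ak k n m = skB n k m := rfl

lemma KA_eq {α ι : Type*} {K : Set α} {χ : ι → (Fin n → ℝ) → α} :
    KA k m K χ = K ∪ ⋃ i, χ i '' skC n k m := by
  unfold KA
  congr 1
  ext v
  simp only [skC, mem_ofPred_eq, mem_iUnion, mem_image]
  constructor
  · rintro ⟨a, x, hx, t, h0, h1, rfl⟩
    exact ⟨a, _, ⟨x, hx, t, h0, h1, rfl⟩, rfl⟩
  · rintro ⟨a, _, ⟨x, hx, t, h0, h1, rfl⟩, rfl⟩
    exact ⟨a, x, hx, t, h0, h1, rfl⟩

lemma isCub_Ak (hm : 0 < m) : IsCub m (Ak k n m) := isCub_skB hm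

lemma isCompact_Ak (hm : 0 < m) : IsCompact (Ak k n m) := isCompact_skB hm

lemma ulc_Ak (hm : 0 < m) : ULC k (Ak k n m) := ulc_skB hm

lemma pushOff_Ak (hm : 0 < m) : PushOff k (Ak k n m) := pushOff_skB hm

lemma conn_Ak (hm : 0 < m) (hk : k < n) : Conn k (Ak k n m) := conn_skB hm hk

lemma Ak_nonempty (hm : 0 < m) (hk : k < n) : (Ak k n m).Nonempty := skB_nonempty hm hk

lemma cfam_KA {ι β : Type*} [MetricSpace β] {K V : Set β} {χ : ι → (Fin n → ℝ) → β}
    (hn : 1 ≤ n) (hF : Fam (Cu n) (dCu n) K V χ) :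
    CFam (Ak k n m) K (KA k m K χ)
      (fun i x t => χ i (ccn (Pool.Agent.Work.MP_017613_gt.T6.ce n) x t)) := by
  rw [KA_eq]
  exact hF.cfam_skB hn

lemma isCompact_KA {ι β : Type*} [Finite ι] [MetricSpace β] {K V : Set β}
    {χ : ι → (Fin n → ℝ) → β} (hn : 1 ≤ n) (hm : 0 < m) (hK : IsCompact K)
    (hF : Fam (Cu n) (dCu n) K V χ) : IsCompact (KA k m K χ) :=
  (cfam_KA hn hF).isCompact (isCompact_Ak hm) hK

lemma ulc_KA {ι β : Type*} [Finite ι] [MetricSpace β] {K V : Set β}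
    {χ : ι → (Fin n → ℝ) → β} (hkn : k < n) (hm : 0 < m) (hK : IsCompact K) (hK1 : ULC k K)
    (hF : Fam (Cu n) (dCu n) K V χ) : ULC k (KA k m K χ) := by
  rw [KA_eq]
  exact (skC_compact_ulc hkn hm hK hK1 hF).2

/-- **Fine maps onto `KA`.** -/
theorem abs2_fine {k m : ℕ} {M : Type} [MetricSpace M] [CompactSpace M] (hM : Tr.MenT k M)
    (hk : 1 ≤ k) (hm : 0 < m) {V ι : Type*} [Finite ι] [MetricSpace V] [CompactSpace V]
    {K K1 : Set V} {χ : ι → (Fin (k + 2) → ℝ) → V} (hK : IsClosed K) (hKu : ULC k K)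
    (hF : Fam (Cu (k + 2)) (dCu (k + 2)) K K1 χ) {ε : ℝ} (hε : 0 < ε) :
    ∃ δ > 0, ∀ g : M → V, IsMap g univ K → L k g univ K δ → ∀ W : Set M, ZS W →
      ∃ g' : M → V, IsMap g' univ (KA k m K χ) ∧ L k g' univ (KA k m K χ) ε ∧
        (∀ x ∈ W, dist (g' x) (g x) < ε) ∧
        ∀ x, dist (g' x) (g x) < ε ∨ ∃ i, ∃ z ∈ Cu (k + 2), ∃ z' ∈ dCu (k + 2),
          dist (g' x) (χ i z) < ε ∧ dist (g x) (χ i z') < ε := by
  obtain ⟨hU, hP, hD⟩ := hM
  rw [KA_eq]
  exact absorb_skel hk (by omega) hm hU hP hD.zd hK.isCompact hKu hF hε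

end Abs2

end MG
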