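import Pool.Agent.Work.MP_017613_gt.AbsCone

/-!
# Absorption: the UV-property of the discontinuous map `hF`
-/

set_option linter.unusedVariables false

open Set Metric Topology

namespace MG

lemma dist_tri5 {α : Type*} [PseudoMetricSpace α] (a b c d e : α) :
    dist a e ≤ dist a b + dist b c + dist c d + dist d e := by
  linarith [dist_triangle a b e, dist_triangle b c e, dist_triangle c d e]

/-! ## Counting levels -/

/-- number of levels `l ∈ {1..m}` with `d < ν l` -/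
noncomputable def cnt (ν : ℕ → ℝ) (m : ℕ) (d : ℝ) : ℕ :=
  open Classical in ((Finset.Icc 1 m).filter fun l => d < ν l).card

lemma cnt_le (ν : ℕ → ℝ) (m : ℕ) (d : ℝ) : cnt ν m d ≤ m := by
  classical
  unfold cnt
  refine (Finset.card_filter_le _ _).trans ?_
  simp

lemma le_cnt_iff {ν : ℕ → ℝ} (hν : Antitone ν) {m l : ℕ} {d : ℝ} (h1 : 1 ≤ l) (h2 : l ≤ m) :
    l ≤ cnt ν m d ↔ d < ν l := by
  classical
  constructor
  · intro h
    by_contra hc
    have hs : (Finset.Icc 1 m).filter (fun l => d < ν l) ⊆ Finset.Icc 1 (l - 1) := by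
      intro i hi
      simp only [Finset.mem_filter, Finset.mem_Icc] at hi ⊢
      refine ⟨hi.1.1, ?_⟩
      by_contra h3
      have h4 : l ≤ i := by omega
      exact hc (hi.2.trans_le (hν h4))
    have h3 := Finset.card_le_card hs
    unfold cnt at h
    simp only [Nat.card_Icc] at h3
    omega
  · intro h
    have hs : Finset.Icc 1 l ⊆ (Finset.Icc 1 m).filter (fun l => d < ν l) := by
      intro i hi
      simp only [Finset.mem_filter, Finset.mem_Icc] at hi ⊢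
      exact ⟨⟨hi.1, by omega⟩, h.trans_le (hν hi.2)⟩
    have h3 := Finset.card_le_card hs
    unfold cnt
    simpa using h3

/-- if `d < ν l` (any `l`) then `l ≤ cnt` as far as `l ≤ m`. -/
lemma le_cnt {ν : ℕ → ℝ} (hν : Antitone ν) {m l : ℕ} {d : ℝ} (h2 : l ≤ m) (h : d < ν l) :
    l ≤ cnt ν m d := by
  rcases Nat.eq_zero_or_pos l with rfl | h1
  · exact Nat.zero_le _
  · exact (le_cnt_iff hν h1 h2).2 h

lemma cnt_lt {ν : ℕ → ℝ} (hν : Antitone ν) {m l : ℕ} {d : ℝ} (h1 : 1 ≤ l) (h : ν l ≤ d) :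
    cnt ν m d < l := by
  by_contra hc
  push Not at hc
  have h2 : l ≤ m := hc.trans (cnt_le ν m d)
  exact absurd ((le_cnt_iff hν h1 h2).1 hc) (not_lt.2 h)

variable {ι : Type*} {E β M : Type*} [MetricSpace E] [MetricSpace β] [MetricSpace M]
variable {A : Set E} {K V : Set β} {Φ : ι → E → ℝ → β} {k : ℕ}

/-- the discontinuous map -/
noncomputable def hF (g : M → β) (Φ : ι → E → ℝ → β) (S : Set M) (ia : M → ι) (py : M → E)
    (ν : ℕ → ℝ) (m : ℕ) (x : M) : β :=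
  open Classical in
  if infDist x S < ν 0 then Φ (ia x) (py x) ((cnt ν m (infDist x S) : ℝ) / m) else g x

/-- the data of the construction, `θ`-fine -/
structure Fine (k : ℕ) (A : Set E) (K : Set β) (Φ : ι → E → ℝ → β) (g : M → β) (e : ι → E → M)
    (S : Set M) (ia : M → ι) (py : M → E) (ζ η : ℝ) (ν : ℕ → ℝ) (m : ℕ) (θ : ℝ) : Prop where
  par : Par A e S ia py
  lev : ALev k A e S ia py ζ η ν
  eta : η ≤ θ
  eta0 : 0 < η
  mpos : 0 < m
  mlarge : 1 / (m : ℝ) ≤ θ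
  gK : ∀ x, g x ∈ K
  near : ∀ x, infDist x S < 2 * ν 0 → dist (g x) (Φ (ia x) (py x) 0) < θ
  unif : ∀ x x', dist x x' < ζ → dist (g x) (g x') < θ

section
variable {g : M → β} {e : ι → E → M} {S : Set M} {ia : M → ι} {py : M → E} {ζ η : ℝ}
  {ν : ℕ → ℝ} {m : ℕ} {θ : ℝ}

lemma ALev.anti (h : ALev k A e S ia py ζ η ν) : Antitone ν := by
  refine antitone_nat_of_succ_le fun l => (h.half l).trans ?_
  linarith [h.pos l]

lemma ALev.lt0 (h : ALev k A e S ia py ζ η ν) (l : ℕ) : ν (l + 1) < ν 0 := by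
  have h1 : ν (l + 1) ≤ ν 1 := h.anti (by omega)
  have h2 := h.half 0
  have h3 := h.pos 0
  norm_num at h2
  linarith

lemma Fine.mono (h : Fine k A K Φ g e S ia py ζ η ν m θ) {θ' : ℝ} (hh : θ ≤ θ') :
    Fine k A K Φ g e S ia py ζ η ν m θ' :=
  { h with
    eta := h.eta.trans hh
    mlarge := h.mlarge.trans hh
    near := fun x hx => (h.near x hx).trans_le hh
    unif := fun x x' hx => (h.unif x x' hx).trans_le hh }

/-- points of `V` in the cones are approximated -/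
lemma Fine.point (h : Fine k A K Φ g e S ia py ζ η ν m θ) {b : ι} {z : E} (hz : z ∈ A) {t : ℝ}
    (ht : 0 ≤ t) (ht1 : t ≤ 1) :
    ∃ p, ∃ w ∈ A, ∃ s, 0 ≤ s ∧ s ≤ 1 ∧ |s - t| ≤ θ ∧ dist w z < η ∧
      hF g Φ S ia py ν m p = Φ b w s := by
  have hm : (0 : ℝ) < m := by exact_mod_cast h.mpos
  set l : ℕ := ⌊m * t⌋₊ with hl
  have hlm : l ≤ m := by
    rw [hl]
    have : (m : ℝ) * t ≤ m := by nlinarith
    exact Nat.floor_le_of_le this
  obtain ⟨p, hp, hpa, hpy⟩ := h.lev.vert b z hz (ν (l + 1)) (h.lev.pos _) (h.lev.lt0 l).le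
  have hc : cnt ν m (infDist p S) = l := by
    have h1 : cnt ν m (infDist p S) < l + 1 := cnt_lt h.lev.anti (by omega) hp.ge
    have h2 : l ≤ cnt ν m (infDist p S) := by
      refine le_cnt h.lev.anti hlm ?_
      rw [hp]
      have := h.lev.half l
      linarith [h.lev.pos l]
    omega
  refine ⟨p, py p, h.par.mem p, (l : ℝ) / m, by positivity, ?_, ?_, hpy, ?_⟩
  · rw [div_le_one hm]; exact_mod_cast hlm
  · have h1 : (l : ℝ) ≤ m * t := Nat.floor_le (by positivity)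
    have h2 : m * t < l + 1 := Nat.lt_floor_add_one _
    rw [abs_le]
    have h3 : (l : ℝ) / m ≤ t := by rw [div_le_iff₀ hm]; linarith
    have h4 : t ≤ (l : ℝ) / m + 1 / m := by
      rw [← add_div, le_div_iff₀ hm]; linarith
    exact ⟨by linarith [h.mlarge], by linarith [h.eta, h.eta0]⟩
  · unfold hF
    rw [if_pos (by rw [hp]; exact h.lev.lt0 l), hc, hpa]

/-- LOW CASE: spheres over a small ball around a point near `K`. -/
lemma Fine.low (h : Fine k A K Φ g e S ia py ζ η ν m θ) {σ σ' : ℝ}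
    (hg : UV k g univ K σ σ') {c ε : ℝ} (hc : 0 < c) (hc1 : c ≤ 1 / 8) (hθc : θ ≤ c)
    (hlow : ∀ a, ∀ x ∈ A, ∀ t, 0 ≤ t → t ≤ 3 * c → dist (Φ a x t) (Φ a x 0) < ε)
    {y y' : β} (hy' : y' ∈ K) {τ : ℝ} (hyy : dist y y' < ε)
    (hsep : ∀ a, ∀ x ∈ A, ∀ t, 2 * c ≤ t → t ≤ 1 → τ ≤ dist (Φ a x t) y)
    (hτ : θ + 2 * ε + τ ≤ σ)
    {j : ℕ} (hj : j ≤ k) {α : (Fin j → ℝ) → M} (hα : ContinuousOn α (dCu j))
    (hαy : ∀ x ∈ dCu j, dist (hF g Φ S ia py ν m (α x)) y < τ) :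
    ∃ F : (Fin j → ℝ) → M, ContinuousOn F (Cu j) ∧ EqOn F α (dCu j) ∧
      ∀ x ∈ Cu j, dist (hF g Φ S ia py ν m (F x)) y < σ' + 2 * θ + 2 * ε := by
  have hm : (0 : ℝ) < m := by exact_mod_cast h.mpos
  have hm8 : (8 : ℝ) ≤ m := by
    have h1 : 1 / (m : ℝ) ≤ 1 / 8 := h.mlarge.trans (hθc.trans hc1)
    rw [one_div_le_one_div hm (by norm_num)] at h1
    exact h1
  have hθ : 0 < θ := h.eta0.trans_le h.eta
  have hε : 0 < ε := dist_nonneg.trans_lt hyy
  -- the level of boundary points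
  set l : ℕ := ⌊2 * c * m⌋₊ + 1 with hl
  have hll : (l : ℝ) ≤ 2 * c * m + 1 := by
    rw [hl]; push_cast
    linarith [Nat.floor_le (show 0 ≤ 2 * c * m by positivity)]
  have hlm : l + 1 ≤ m := by
    have h1 : (l : ℝ) + 1 ≤ m := by nlinarith
    exact_mod_cast h1
  have hbd : ∀ x ∈ dCu j, ν l ≤ infDist (α x) S ∧ dist (g (α x)) y' < σ := by
    intro x hx
    have h1 := hαy x hx
    by_cases hD : infDist (α x) S < ν 0
    · unfold hF at h1
      rw [if_pos hD] at h1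
      set n := cnt ν m (infDist (α x) S) with hn
      have hn1 : (n : ℝ) / m ≤ 1 := by
        rw [div_le_one hm]; exact_mod_cast cnt_le ν m _
      have h2 : (n : ℝ) / m < 2 * c := by
        by_contra hcon
        push Not at hcon
        exact absurd h1 (not_lt.2 (hsep _ _ (h.par.mem _) _ hcon hn1))
      have h3 : n < l := by
        rw [div_lt_iff₀ hm] at h2
        have h4 := Nat.lt_floor_add_one (2 * c * (m : ℝ))
        have h5 : (n : ℝ) < l := by rw [hl]; push_cast; linarith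
        exact_mod_cast h5
      constructor
      · by_contra hcon
        push Not at hcon
        have := le_cnt h.lev.anti (by omega : l ≤ m) hcon
        omega
      · have h4 := h.near (α x) (by linarith [h.lev.pos 0])
        have h5 := hlow (ia (α x)) _ (h.par.mem (α x)) ((n : ℝ) / m) (by positivity) (by linarith)
        rw [dist_comm] at h5
        calc dist (g (α x)) y' ≤ dist (g (α x)) (Φ (ia (α x)) (py (α x)) 0) +
              dist (Φ (ia (α x)) (py (α x)) 0) (Φ (ia (α x)) (py (α x)) ((n : ℝ) / m)) +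
              dist (Φ (ia (α x)) (py (α x)) ((n : ℝ) / m)) y + dist y y' := dist_tri5 _ _ _ _ _
          _ < σ := by linarith
    · push Not at hD
      unfold hF at h1
      rw [if_neg (not_lt.2 hD)] at h1
      refine ⟨(h.lev.anti (Nat.zero_le l)).trans hD, ?_⟩
      linarith [dist_triangle (g (α x)) y y']
  obtain ⟨F₀, hF₀, hF₀α, hF₀y⟩ := hg j hj y' hy' α ⟨hα, fun _ _ => mem_univ _⟩
    fun x hx => (hbd x hx).2
  obtain ⟨F, hFc, hFα, hFd, hFl⟩ := h.lev.push l j hj F₀ hF₀.cont fun x hx => by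
    rw [hF₀α hx]; exact (hbd x hx).1
  refine ⟨F, hFc, fun x hx => (hFα hx).trans (hF₀α hx), fun x hx => ?_⟩
  have h1 : dist (g (F x)) (g (F₀ x)) < θ :=
    h.unif _ _ ((hFd x hx).trans_le (min_le_right _ _))
  have h2 : dist (g (F x)) y' < σ' + θ := by
    linarith [dist_triangle (g (F x)) (g (F₀ x)) y', hF₀y x hx]
  have hyy' := hyy
  rw [dist_comm] at hyy'
  by_cases hD : infDist (F x) S < ν 0
  · unfold hF
    rw [if_pos hD]
    set n := cnt ν m (infDist (F x) S) with hn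
    have h3 : n < l + 1 := cnt_lt h.lev.anti (by omega) (hFl x hx)
    have h4 : (n : ℝ) / m ≤ 3 * c := by
      rw [div_le_iff₀ hm]
      have h5 : (n : ℝ) ≤ l := by exact_mod_cast Nat.lt_succ_iff.1 h3
      have h6 : 1 / (m : ℝ) ≤ c := h.mlarge.trans hθc
      rw [div_le_iff₀ hm] at h6
      linarith
    have h5 := hlow (ia (F x)) _ (h.par.mem (F x)) ((n : ℝ) / m) (by positivity) h4
    have h6 := h.near (F x) (by linarith [h.lev.pos 0])
    rw [dist_comm] at h6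
    calc dist (Φ (ia (F x)) (py (F x)) ((n : ℝ) / m)) y ≤
          dist (Φ (ia (F x)) (py (F x)) ((n : ℝ) / m)) (Φ (ia (F x)) (py (F x)) 0) +
          dist (Φ (ia (F x)) (py (F x)) 0) (g (F x)) + dist (g (F x)) y' + dist y' y :=
            dist_tri5 _ _ _ _ _
      _ < _ := by linarith
  · unfold hF
    rw [if_neg hD]
    linarith [dist_triangle (g (F x)) y' y]

/-- common part of the middle and the apex case -/
lemma Fine.levels (h : Fine k A K Φ g e S ia py ζ η ν m θ) {c κ τ : ℝ} (hc : 0 < c)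
    {b : ι} {z : E} (hz : z ∈ A) {t : ℝ} (htc : c ≤ t) (ht1 : t ≤ 1)
    (hK : ∀ y ∈ K, τ ≤ dist (Φ b z t) y)
    (hco : ∀ a, ∀ x ∈ A, ∀ s, 0 ≤ s → s ≤ 1 → dist (Φ b z t) (Φ a x s) < τ →
      b = a ∧ |t - s| < κ ∧ (t ≤ 1 - c → dist z x < κ))
    {x : M} (hx : dist (hF g Φ S ia py ν m x) (Φ b z t) < τ) :
    infDist x S < ν 0 ∧ ia x = b ∧ |t - (cnt ν m (infDist x S) : ℝ) / m| < κ ∧
      (t ≤ 1 - c → dist (py x) z < κ) := by
  have hm : (0 : ℝ) < m := by exact_mod_cast h.mpos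
  by_cases hD : infDist x S < ν 0
  · unfold hF at hx
    rw [if_pos hD, dist_comm] at hx
    have hn1 : (cnt ν m (infDist x S) : ℝ) / m ≤ 1 := by
      rw [div_le_one hm]; exact_mod_cast cnt_le ν m _
    obtain ⟨h1, h2, h3⟩ := hco _ _ (h.par.mem x) _ (by positivity) hn1 hx
    exact ⟨hD, h1.symm, h2, fun h4 => by rw [dist_comm]; exact h3 h4⟩
  · unfold hF at hx
    rw [if_neg hD, dist_comm] at hx
    exact absurd hx (not_lt.2 (hK _ (h.gK x)))

/-- MIDDLE CASE. -/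
lemma Fine.mid (h : Fine k A K Φ g e S ia py ζ η ν m θ) {c κ τ s s' : ℝ} (hc : 0 < c)
    (hκc : κ ≤ c / 2) (hκs : κ ≤ s) (hss : s ≤ s') (hθ4 : θ ≤ c / 8)
    (hA1 : UV k (fun x => x) A A (s + θ) s')
    {b : ι} {z : E} (hz : z ∈ A) {t : ℝ} (htc : c ≤ t) (ht1 : t ≤ 1 - c)
    (hK : ∀ y ∈ K, τ ≤ dist (Φ b z t) y)
    (hco : ∀ a, ∀ x ∈ A, ∀ s, 0 ≤ s → s ≤ 1 → dist (Φ b z t) (Φ a x s) < τ →
      b = a ∧ |t - s| < κ ∧ (t ≤ 1 - c → dist z x < κ))
    {j : ℕ} (hj1 : 1 ≤ j) (hj : j ≤ k) {α : (Fin j → ℝ) → M} (hα : ContinuousOn α (dCu j))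
    (hαy : ∀ x ∈ dCu j, dist (hF g Φ S ia py ν m (α x)) (Φ b z t) < τ) :
    ∃ F : (Fin j → ℝ) → M, ContinuousOn F (Cu j) ∧ EqOn F α (dCu j) ∧
      ∀ x ∈ Cu j, ∃ w ∈ A, ∃ r, 0 ≤ r ∧ r ≤ 1 ∧ |r - t| ≤ κ + 2 * θ ∧ dist w z < s' + 2 * θ ∧
        hF g Φ S ia py ν m (F x) = Φ b w r := by
  have hm : (0 : ℝ) < m := by exact_mod_cast h.mpos
  have hθ : 0 < θ := h.eta0.trans_le h.eta
  have hmθ : 1 ≤ θ * m := by
    have := h.mlarge
    rwa [div_le_iff₀ hm] at this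
  have hmc : 8 ≤ c * m := by nlinarith
  have hb : ∀ x ∈ dCu j, infDist (α x) S < ν 0 ∧ ia (α x) = b ∧
      |t - (cnt ν m (infDist (α x) S) : ℝ) / m| < κ ∧ dist (py (α x)) z < κ := by
    intro x hx
    obtain ⟨h1, h2, h3, h4⟩ := h.levels hc hz htc (by linarith) hK hco (hαy x hx)
    exact ⟨h1, h2, h3, h4 ht1⟩
  have hκ : 0 < κ := by
    have hne : (0 : Fin j → ℝ) ∈ dCu j := ⟨by rw [mem_Cu]; intro i; simp, ⟨0, by omega⟩, by simp⟩
    exact (abs_nonneg _).trans_lt (hb _ hne).2.2.1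
  have hκc' : κ * m ≤ c * m / 2 := by nlinarith
  set l₁ : ℕ := ⌈m * (t - κ)⌉₊ with hl₁
  set l₂ : ℕ := ⌊m * (t + κ)⌋₊ + 1 with hl₂
  have hl₁b : m * (t - κ) ≤ l₁ := Nat.le_ceil _
  have hl₂a : (l₂ : ℝ) ≤ m * (t + κ) + 1 := by
    rw [hl₂]; push_cast
    linarith [Nat.floor_le (show 0 ≤ m * (t + κ) by nlinarith)]
  have hl₂b : m * (t + κ) < l₂ := by
    rw [hl₂]; push_cast; exact Nat.lt_floor_add_one _
  have hmt : c * m ≤ m * t := by nlinarith
  have hl₁2 : 2 ≤ l₁ := by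
    have : (2 : ℝ) ≤ l₁ := by nlinarith
    exact_mod_cast this
  have hl₂m : l₂ ≤ m := by
    have : (l₂ : ℝ) ≤ m := by nlinarith
    exact_mod_cast this
  have hl12 : l₁ ≤ l₂ := by
    rw [hl₁]
    refine Nat.ceil_le.2 ?_
    nlinarith
  -- first the filling
  obtain ⟨F, hFc, hFα, hF1⟩ := (h.lev.fill (l₁ - 1) j hj1 hj b α hα (by
    intro x hx
    obtain ⟨h1, h2, h3, h4⟩ := hb x hx
    refine ⟨?_, h2⟩
    have h5 : (l₁ - 1) + 1 = l₁ := by omega
    rw [h5]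
    have h6 : l₁ ≤ cnt ν m (infDist (α x) S) := by
      rw [hl₁]
      refine Nat.ceil_le.2 ?_
      rw [abs_lt] at h3
      have h7 : t - κ < (cnt ν m (infDist (α x) S) : ℝ) / m := by linarith
      rw [lt_div_iff₀ hm] at h7
      linarith
    exact (le_cnt_iff h.lev.anti (by omega) (hl12.trans hl₂m)).1 h6)).2 z s s' hz hss (by
      intro i hi y hy a ha hay
      exact hA1 i hi y hy a ha fun x hx => (hay x hx).trans_le (by linarith [h.eta]))
    fun x hx => ((hb x hx).2.2.2).trans_le hκs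
  obtain ⟨G, hGc, hGF, hGd, hGl⟩ := h.lev.push l₂ j hj F hFc fun x hx => by
    rw [hFα hx]
    obtain ⟨h1, h2, h3, h4⟩ := hb x hx
    by_contra hcon
    push Not at hcon
    have h5 := le_cnt h.lev.anti hl₂m hcon
    have h6 : (l₂ : ℝ) ≤ cnt ν m (infDist (α x) S) := by exact_mod_cast h5
    rw [abs_lt] at h3
    have h7 : (cnt ν m (infDist (α x) S) : ℝ) / m < t + κ := by linarith
    rw [div_lt_iff₀ hm] at h7
    linarith
  refine ⟨G, hGc, fun x hx => (hGF hx).trans (hFα hx), fun x hx => ?_⟩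
  obtain ⟨hF2, hF3, hF4⟩ := hF1 x hx
  have hd1 : dist (G x) (F x) < ν l₂ / 2 := (hGd x hx).trans_le (min_le_left _ _)
  have hl2' : ν l₂ ≤ ν (l₁ - 1) := h.lev.anti (by omega)
  have hGD : infDist (G x) S < ν (l₁ - 2) := by
    have h5 : infDist (G x) S ≤ dist (G x) (F x) + infDist (F x) S := by
      rw [add_comm]
      exact infDist_le_infDist_add_dist
    have h6 := h.lev.half (l₁ - 2)
    rw [show l₁ - 2 + 1 = l₁ - 1 by omega] at h6
    have h7 := h.lev.pos (l₁ - 2)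
    linarith
  have h0 : ν (l₁ - 2) ≤ ν 0 := h.lev.anti (Nat.zero_le _)
  have h01 : ν (l₁ - 1) ≤ ν 0 := h.lev.anti (Nat.zero_le _)
  have h02 : ν l₂ ≤ ν 0 := h.lev.anti (Nat.zero_le _)
  have hν0 := h.lev.pos 0
  obtain ⟨hp1, hp2⟩ := h.lev.par (G x) (F x) (by linarith) (by linarith) (by linarith)
  have hn1 : l₁ - 2 ≤ cnt ν m (infDist (G x) S) := le_cnt h.lev.anti (by omega) hGD
  have hn2 : cnt ν m (infDist (G x) S) < l₂ + 1 := cnt_lt h.lev.anti (by omega) (hGl x hx)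
  refine ⟨py (G x), h.par.mem _, (cnt ν m (infDist (G x) S) : ℝ) / m, by positivity, ?_, ?_, ?_, ?_⟩
  · rw [div_le_one hm]; exact_mod_cast cnt_le ν m _
  · have h8 : (l₁ : ℝ) - 2 ≤ cnt ν m (infDist (G x) S) := by
      have : (l₁ : ℝ) ≤ cnt ν m (infDist (G x) S) + 2 := by
        have : l₁ ≤ cnt ν m (infDist (G x) S) + 2 := by omega
        exact_mod_cast this
      linarith
    have h9 : (cnt ν m (infDist (G x) S) : ℝ) ≤ l₂ := by exact_mod_cast Nat.lt_succ_iff.1 hn2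
    rw [abs_le]
    constructor
    · have : t - (κ + 2 * θ) ≤ (cnt ν m (infDist (G x) S) : ℝ) / m := by
        rw [le_div_iff₀ hm]; nlinarith
      linarith
    · have : (cnt ν m (infDist (G x) S) : ℝ) / m ≤ t + (κ + 2 * θ) := by
        rw [div_le_iff₀ hm]; nlinarith
      linarith
  · have := dist_triangle (py (G x)) (py (F x)) z
    linarith [h.eta]
  · unfold hF
    rw [if_pos (hGD.trans_le h0), hp1, hF3]

/-- APEX CASE. -/
lemma Fine.apex (h : Fine k A K Φ g e S ia py ζ η ν m θ) {c κ τ : ℝ} (hc : 0 < c)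
    (hκc : κ ≤ c / 2) (hθ4 : θ ≤ c / 8)
    {b : ι} {z : E} (hz : z ∈ A) {t : ℝ} (htc : c ≤ t) (ht1 : t ≤ 1)
    (hK : ∀ y ∈ K, τ ≤ dist (Φ b z t) y)
    (hco : ∀ a, ∀ x ∈ A, ∀ s, 0 ≤ s → s ≤ 1 → dist (Φ b z t) (Φ a x s) < τ →
      b = a ∧ |t - s| < κ ∧ (t ≤ 1 - c → dist z x < κ))
    {j : ℕ} (hj1 : 1 ≤ j) (hj : j ≤ k) {α : (Fin j → ℝ) → M} (hα : ContinuousOn α (dCu j))
    (hαy : ∀ x ∈ dCu j, dist (hF g Φ S ia py ν m (α x)) (Φ b z t) < τ) :
    ∃ F : (Fin j → ℝ) → M, ContinuousOn F (Cu j) ∧ EqOn F α (dCu j) ∧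
      ∀ x ∈ Cu j, ∃ w ∈ A, ∃ r, 0 ≤ r ∧ r ≤ 1 ∧ t - κ - θ ≤ r ∧
        hF g Φ S ia py ν m (F x) = Φ b w r := by
  have hm : (0 : ℝ) < m := by exact_mod_cast h.mpos
  have hθ : 0 < θ := h.eta0.trans_le h.eta
  have hmθ : 1 ≤ θ * m := by
    have := h.mlarge
    rwa [div_le_iff₀ hm] at this
  have hmc : 8 ≤ c * m := by nlinarith
  have hb : ∀ x ∈ dCu j, infDist (α x) S < ν 0 ∧ ia (α x) = b ∧
      |t - (cnt ν m (infDist (α x) S) : ℝ) / m| < κ := by
    intro x hx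
    obtain ⟨h1, h2, h3, h4⟩ := h.levels hc hz htc ht1 hK hco (hαy x hx)
    exact ⟨h1, h2, h3⟩
  have hne : (0 : Fin j → ℝ) ∈ dCu j := ⟨by rw [mem_Cu]; intro i; simp, ⟨0, by omega⟩, by simp⟩
  have hκ : 0 < κ := (abs_nonneg _).trans_lt (hb _ hne).2.2
  have hκc' : κ * m ≤ c * m / 2 := by nlinarith
  set l₁ : ℕ := ⌈m * (t - κ)⌉₊ with hl₁
  have hl₁b : m * (t - κ) ≤ l₁ := Nat.le_ceil _
  have hmt : c * m ≤ m * t := by nlinarith
  have hl₁2 : 2 ≤ l₁ := by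
    have : (2 : ℝ) ≤ l₁ := by nlinarith
    exact_mod_cast this
  have hcnt : ∀ x ∈ dCu j, l₁ ≤ cnt ν m (infDist (α x) S) := by
    intro x hx
    obtain ⟨h1, h2, h3⟩ := hb x hx
    rw [hl₁]
    refine Nat.ceil_le.2 ?_
    rw [abs_lt] at h3
    have h7 : t - κ < (cnt ν m (infDist (α x) S) : ℝ) / m := by linarith
    rw [lt_div_iff₀ hm] at h7
    linarith
  have hl₁m : l₁ ≤ m := (hcnt _ hne).trans (cnt_le ν m _)
  obtain ⟨F, hFc, hFα, hF1⟩ := (h.lev.fill (l₁ - 1) j hj1 hj b α hα (by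
    intro x hx
    refine ⟨?_, (hb x hx).2.1⟩
    have h5 : (l₁ - 1) + 1 = l₁ := by omega
    rw [h5]
    exact (le_cnt_iff h.lev.anti (by omega) hl₁m).1 (hcnt x hx))).1
  refine ⟨F, hFc, hFα, fun x hx => ?_⟩
  obtain ⟨hF2, hF3⟩ := hF1 x hx
  have h01 : ν (l₁ - 1) ≤ ν 0 := h.lev.anti (Nat.zero_le _)
  have hn1 : l₁ - 1 ≤ cnt ν m (infDist (F x) S) := le_cnt h.lev.anti (by omega) hF2
  refine ⟨py (F x), h.par.mem _, (cnt ν m (infDist (F x) S) : ℝ) / m, by positivity, ?_, ?_, ?_⟩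
  · rw [div_le_one hm]; exact_mod_cast cnt_le ν m _
  · have h8 : (l₁ : ℝ) - 1 ≤ cnt ν m (infDist (F x) S) := by
      have : (l₁ : ℝ) ≤ cnt ν m (infDist (F x) S) + 1 := by
        have : l₁ ≤ cnt ν m (infDist (F x) S) + 1 := by omega
        exact_mod_cast this
      linarith
    rw [le_div_iff₀ hm]
    nlinarith
  · unfold hF
    rw [if_pos (hF2.trans_le h01), hF3]

end

lemma UV.mono {α β : Type*} [MetricSpace α] [MetricSpace β] {k : ℕ} {g : α → β} {A : Set α}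
    {K : Set β} {t t' s s' : ℝ} (h : UV k g A K t t') (h1 : s ≤ t) (h2 : t' ≤ s') :
    UV k g A K s s' := by
  intro j hj y hy a ha hay
  obtain ⟨F, hF, hFa, hFy⟩ := h j hj y hy a ha fun x hx => (hay x hx).trans_le h1
  exact ⟨F, hF, hFa, fun x hx => (hFy x hx).trans_le h2⟩

universe u in
/-- **The UV-property of `hF`.** -/
theorem uv_core [Finite ι] (hc : CFam A K V Φ) (hA : IsCompact A) (hK : IsCompact K)
    (hA1 : ULC k A) {τ' : ℝ} (hτ' : 0 < τ') :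
    ∃ σ' > 0, ∀ σ > 0, ∃ τ > 0, ∃ θ > 0, ∀ (M : Type u) [MetricSpace M] (g : M → β)
      (e : ι → E → M) (S : Set M) (ia : M → ι) (py : M → E) (ζ η : ℝ) (ν : ℕ → ℝ) (m : ℕ),
      Fine k A K Φ g e S ia py ζ η ν m θ → UV k g univ K σ σ' →
      UV k (hF g Φ S ia py ν m) univ V τ τ' := by
  refine ⟨τ' / 8, by positivity, fun σ hσ => ?_⟩
  set ε : ℝ := min (σ / 8) (τ' / 16) with hε
  have hε0 : 0 < ε := by positivity
  obtain ⟨c₃, hc₃, hc₃1, hlow⟩ := hc.low hA hε0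
  obtain ⟨c₄, hc₄, hc₄1, hhigh⟩ := hc.high hA (show 0 < τ' / 4 by positivity)
  obtain ⟨δu, hδu, hunif⟩ := hc.unif hA hτ'
  set c : ℝ := min c₃ c₄ / 8 with hcdef
  have hc0 : 0 < c := by positivity
  have hcc₃ : 8 * c ≤ c₃ := by rw [hcdef]; linarith [min_le_left c₃ c₄]
  have hcc₄ : 8 * c ≤ c₄ := by rw [hcdef]; linarith [min_le_right c₃ c₄]
  obtain ⟨s₀, hs₀, hUV⟩ := hA1 (δu / 4) (by positivity)
  set s : ℝ := min (s₀ / 2) (δu / 4) with hs
  have hs0 : 0 < s := by positivity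
  set κ : ℝ := min s (c / 2) with hκ
  have hκ0 : 0 < κ := by positivity
  obtain ⟨δ₁, hδ₁, hsep⟩ := hc.sep hA hK hc0
  obtain ⟨δ₂, hδ₂, hcoord⟩ := hc.coord hA hK hc0 hκ0
  set τ : ℝ := min (min δ₁ δ₂) (σ / 8) with hτ
  have hτ0 : 0 < τ := by positivity
  set θ : ℝ := min (min (s₀ / 2) (c / 8)) (min (δu / 16) (min (σ / 8) (τ' / 16))) with hθ
  have hθ0 : 0 < θ := by positivity
  have hθ1 : θ ≤ s₀ / 2 := (min_le_left _ _).trans (min_le_left _ _)
  have hθ2 : θ ≤ c / 8 := (min_le_left _ _).trans (min_le_right _ _)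
  have hθ3 : θ ≤ δu / 16 := (min_le_right _ _).trans (min_le_left _ _)
  have hθ4 : θ ≤ σ / 8 := (min_le_right _ _).trans ((min_le_right _ _).trans (min_le_left _ _))
  have hθ5 : θ ≤ τ' / 16 := (min_le_right _ _).trans ((min_le_right _ _).trans (min_le_right _ _))
  have hκ1 : κ ≤ s := min_le_left _ _
  have hκ2 : κ ≤ c / 2 := min_le_right _ _
  have hs1 : s ≤ s₀ / 2 := min_le_left _ _
  have hs2 : s ≤ δu / 4 := min_le_right _ _
  have hτ1 : τ ≤ δ₁ := (min_le_left _ _).trans (min_le_left _ _)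
  have hτ2 : τ ≤ δ₂ := (min_le_left _ _).trans (min_le_right _ _)
  have hτ3 : τ ≤ σ / 8 := min_le_right _ _
  have hε1 : ε ≤ σ / 8 := min_le_left _ _
  have hε2 : ε ≤ τ' / 16 := min_le_right _ _
  refine ⟨τ, hτ0, θ, hθ0, ?_⟩
  intro M _ g e S ia py ζ η ν m h hg j hj y hy α hα hαy
  -- the low case
  have hLow : ∀ y' ∈ K, dist y y' < ε →
      (∀ a, ∀ x ∈ A, ∀ t, 2 * c ≤ t → t ≤ 1 → τ ≤ dist (Φ a x t) y) →
      ∃ F : (Fin j → ℝ) → M, IsMap F (Cu j) univ ∧ EqOn F α (dCu j) ∧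
        ∀ x ∈ Cu j, dist (hF g Φ S ia py ν m (F x)) y < τ' := by
    intro y' hy' hyy hs'
    obtain ⟨F, hF1, hF2, hF3⟩ := h.low hg hc0 (by linarith) (by linarith)
      (fun a x hx t ht0 ht => hlow a x hx t ht0 (by linarith)) hy' hyy hs' (by linarith) hj
      hα.cont hαy
    exact ⟨F, ⟨hF1, fun _ _ => mem_univ _⟩, hF2, fun x hx => by linarith [hF3 x hx]⟩
  rw [hc.union] at hy
  rcases hy with hy | ⟨b, z, hz, t, ht0, ht1, rfl⟩
  · refine hLow y hy (by simpa using hε0) fun a x hx t ht ht' => ?_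
    exact hτ1.trans (hsep a x hx t (by linarith) ht' y hy)
  rcases lt_or_ge t c with htc | htc
  · refine hLow (Φ b z 0) (hc.base b z hz) (hlow b z hz t ht0 (by linarith)) ?_
    intro a x hx r hr hr'
    by_contra hcon
    push Not at hcon
    obtain ⟨-, h2, -⟩ := hcoord a b x hx z hz r (by linarith) hr' t ht0 ht1 (hcon.trans_le hτ2)
    rw [abs_lt] at h2
    linarith
  have hK' : ∀ y ∈ K, τ ≤ dist (Φ b z t) y := fun y hy => hτ1.trans (hsep b z hz t htc ht1 y hy)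
  have hco : ∀ a, ∀ x ∈ A, ∀ s, 0 ≤ s → s ≤ 1 → dist (Φ b z t) (Φ a x s) < τ →
      b = a ∧ |t - s| < κ ∧ (t ≤ 1 - c → dist z x < κ) := fun a x hx r hr0 hr1 hd =>
    hcoord b a z hz x hx t htc ht1 r hr0 hr1 (hd.trans_le hτ2)
  rcases Nat.eq_zero_or_pos j with rfl | hj1
  · obtain ⟨p, w, hw, r, hr0, hr1, hrt, hwz, hp⟩ := h.point hz ht0 ht1
    refine ⟨fun _ => p, ⟨continuousOn_const, fun _ _ => mem_univ _⟩, fun x hx => ?_, fun x _ => ?_⟩
    · rw [dCu_zero] at hx; exact hx.elim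
    · simp only [hp]
      exact hunif b w hw z hz r ⟨hr0, hr1⟩ t ⟨ht0, ht1⟩ (by linarith [h.eta]) (by linarith)
  rcases le_or_gt t (1 - c) with ht | ht
  · obtain ⟨F, hF1, hF2, hF3⟩ := h.mid hc0 hκ2 hκ1 hs2 hθ2
      (hUV.mono (by linarith) le_rfl) hz htc ht hK' hco hj1 hj hα.cont hαy
    refine ⟨F, ⟨hF1, fun _ _ => mem_univ _⟩, hF2, fun x hx => ?_⟩
    obtain ⟨w, hw, r, hr0, hr1, hrt, hwz, hp⟩ := hF3 x hx
    rw [hp]
    exact hunif b w hw z hz r ⟨hr0, hr1⟩ t ⟨ht0, ht1⟩ (by linarith) (by linarith)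
  · obtain ⟨F, hF1, hF2, hF3⟩ := h.apex hc0 hκ2 hθ2 hz htc ht1 hK' hco hj1 hj hα.cont hαy
    refine ⟨F, ⟨hF1, fun _ _ => mem_univ _⟩, hF2, fun x hx => ?_⟩
    obtain ⟨w, hw, r, hr0, hr1, hrt, hp⟩ := hF3 x hx
    rw [hp]
    have h1 := hhigh b w hw z hz r (by linarith) hr1
    have h2 := hhigh b z hz z hz t (by linarith) ht1
    rw [dist_comm] at h2
    linarith [dist_triangle (Φ b w r) (Φ b z 1) (Φ b z t)]

end MG
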