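import Pool.Agent.Work.MP_017613_gt.AbsUV
import Pool.Agent.Work.MP_017613_gt.Kit.TPCalc

/-!
# Absorption: assembly (block (1))
-/

set_option linter.unusedVariables false

open Set Metric Topology

namespace MG

open Pool.Agent.Work.MP_017613_gt (ZS)

variable {ι : Type*} {E β M : Type*} [MetricSpace E] [MetricSpace β] [MetricSpace M]
variable {A : Set E} {K V : Set β} {Φ : ι → E → ℝ → β} {k : ℕ}

/-- existence of levels (AbsLev.lean) -/
def HasLev (k : ℕ) (ι : Type*) (M : Type*) [MetricSpace M] {E : Type*} [MetricSpace E]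
    (A : Set E) : Prop :=
  ∀ (e : ι → E → M) (S : Set M) (ia : M → ι) (py : M → E), Par A e S ia py → ZS S →
    ∀ ζ > 0, ∀ η > 0, ∃ ν : ℕ → ℝ, ALev k A e S ia py ζ η ν

/-- UV at `k+1` scales gives the lifting property (GRID) -/
def HasGrid (k : ℕ) (M : Type*) [MetricSpace M] {β : Type*} [MetricSpace β] (V : Set β) : Prop :=
  ∀ (h : M → β) (t : ℕ → ℝ) (r s : ℝ), 0 < r → r ≤ t 0 → 0 < s → UV k h univ V s (t 0) →
    (∀ i < k, UV k h univ V (t i + r) (t (i + 1) - r)) → LP k h univ V r (t k)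

/-- general position: families of maps `A → M` are close to families with disjoint injective
Z-set images, missing a given Z-set -/
def HasEmb (ι : Type*) (M : Type*) [MetricSpace M] {E : Type*} [MetricSpace E]
    (A : Set E) : Prop :=
  ∀ W : Set M, ZS W → ∀ ψ : ι → E → M, (∀ a, ContinuousOn (ψ a) A) → ∀ ε > 0,
    ∃ e : ι → E → M, (∀ a, ContinuousOn (e a) A) ∧ (∀ a, ∀ x ∈ A, dist (e a x) (ψ a x) < ε) ∧
      (∀ a b x x', x ∈ A → x' ∈ A → e a x = e b x' → a = b ∧ x = x') ∧
      ZS (⋃ a, e a '' A) ∧ Disjoint (⋃ a, e a '' A) W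

/-- maps `A → K` lift to `M` -/
def HasLift (k : ℕ) (ι : Type*) (M : Type*) [MetricSpace M] {E β : Type*} [MetricSpace E]
    [MetricSpace β] (A : Set E) (K : Set β) : Prop :=
  ∀ ε > 0, ∃ δ > 0, ∀ g : M → β, IsMap g univ K → L k g univ K δ →
    ∀ ψ : ι → E → β, (∀ a, IsMap (ψ a) A K) →
    ∃ ψ' : ι → E → M, (∀ a, ContinuousOn (ψ' a) A) ∧ ∀ a, ∀ x ∈ A, dist (g (ψ' a x)) (ψ a x) < ε

/-- `L` gives `UV` -/
def HasUV (k : ℕ) (M : Type*) [MetricSpace M] {β : Type*} [MetricSpace β] (K : Set β) : Prop :=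
  ∀ σ' > 0, ∃ σ > 0, ∃ δ > 0, ∀ g : M → β, IsMap g univ K → L k g univ K δ →
    UV k g univ K σ σ'

/-- chain of scales -/
lemma uv_chain [Finite ι] (hc : CFam A K V Φ) (hA : IsCompact A) (hK : IsCompact K)
    (hA1 : ULC k A) (hUV : HasUV k M K) (n : ℕ) :
    ∀ ε > 0, ∃ t : ℕ → ℝ, t n = ε ∧ (∀ i, 0 < t i) ∧ (∀ i < n, t i ≤ t (i + 1) / 2) ∧
      ∃ δ > 0, ∃ θ > 0, ∀ (g : M → β) (e : ι → E → M) (S : Set M) (ia : M → ι) (py : M → E)
        (ζ η : ℝ) (ν : ℕ → ℝ) (m : ℕ), Fine k A K Φ g e S ia py ζ η ν m θ → IsMap g univ K →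
        L k g univ K δ → (∀ i < n, UV k (hF g Φ S ia py ν m) univ V (2 * t i) (t (i + 1) / 2)) ∧
          ∃ s > 0, UV k (hF g Φ S ia py ν m) univ V s (t 0) := by
  induction n with
  | zero =>
    intro ε hε
    obtain ⟨σ', hσ', h1⟩ := uv_core hc hA hK hA1 hε
    obtain ⟨σ, hσ, δ, hδ, h2⟩ := hUV σ' hσ'
    obtain ⟨τ, hτ, θ, hθ, h3⟩ := h1 σ hσ
    refine ⟨fun _ => ε, rfl, fun _ => hε, fun i hi => absurd hi (Nat.not_lt_zero i),
      δ, hδ, θ, hθ, ?_⟩
    intro g e S ia py ζ η ν m hF hg hL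
    exact ⟨fun i hi => absurd hi (Nat.not_lt_zero i),
      τ, hτ, h3 M g e S ia py ζ η ν m hF (h2 g hg hL)⟩
  | succ n ih =>
    intro ε hε
    obtain ⟨σ', hσ', h1⟩ := uv_core hc hA hK hA1 (show 0 < ε / 2 by positivity)
    obtain ⟨σ, hσ, δ, hδ, h2⟩ := hUV σ' hσ'
    obtain ⟨τ, hτ, θ, hθ, h3⟩ := h1 σ hσ
    obtain ⟨t, ht, htp, hth, δ', hδ', θ', hθ', h4⟩ := ih (min (τ / 2) (ε / 2)) (by positivity)
    refine ⟨fun i => if i ≤ n then t i else ε, by simp, ?_, ?_, min δ δ', by positivity,
      min θ θ', by positivity, ?_⟩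
    · intro i
      by_cases hi : i ≤ n
      · simp only [hi, if_true]; exact htp i
      · simp only [hi, if_false]; exact hε
    · intro i hi
      have h5 : i ≤ n := by omega
      simp only [h5, if_true]
      by_cases hi' : i + 1 ≤ n
      · simp only [hi', if_true]; exact hth i (by omega)
      · simp only [hi', if_false]
        have : i = n := by omega
        rw [this, ht]
        exact min_le_right _ _
    · intro g e S ia py ζ η ν m hF hg hL
      obtain ⟨h5, h6⟩ := h4 g e S ia py ζ η ν m (hF.mono (min_le_right _ _)) hg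
        (hL.mono (min_le_right _ _))
      have h7 := h3 M g e S ia py ζ η ν m (hF.mono (min_le_left _ _))
        (h2 g hg (hL.mono (min_le_left _ _)))
      refine ⟨?_, by simpa using h6⟩
      intro i hi
      have h8 : i ≤ n := by omega
      simp only [h8, if_true]
      by_cases hi' : i + 1 ≤ n
      · simp only [hi', if_true]; exact h5 i (by omega)
      · simp only [hi', if_false]
        have h9 : i = n := by omega
        rw [h9, ht]
        refine h7.mono ?_ le_rfl
        linarith [min_le_left (τ / 2) (ε / 2)]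

/-- choice of nearest points -/
lemma exists_par [Finite ι] [Nonempty ι] [Nonempty M] (hA : IsCompact A) (hAn : A.Nonempty)
    {e : ι → E → M} (he : ∀ a, ContinuousOn (e a) A)
    (hinj : ∀ a b x x', x ∈ A → x' ∈ A → e a x = e b x' → a = b ∧ x = x') :
    ∃ (ia : M → ι) (py : M → E), Par A e (⋃ a, e a '' A) ia py := by
  have hS : IsCompact (⋃ a, e a '' A) := isCompact_iUnion fun a => hA.image_of_continuousOn (he a)
  have hSn : (⋃ a, e a '' A).Nonempty := by
    obtain ⟨x, hx⟩ := hAn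
    exact ⟨e (Classical.arbitrary ι) x, mem_iUnion.2 ⟨_, x, hx, rfl⟩⟩
  have h1 : ∀ x : M, ∃ a : ι, ∃ y ∈ A, dist x (e a y) = infDist x (⋃ a, e a '' A) := by
    intro x
    obtain ⟨p, hp, hd⟩ := hS.exists_infDist_eq_dist hSn x
    obtain ⟨a, y, hy, rfl⟩ := mem_iUnion.1 hp
    exact ⟨a, y, hy, hd.symm⟩
  choose ia py h2 h3 using h1
  exact ⟨ia, py, he, hinj, rfl, h2, h3⟩

/-- the jumps of `hF` are small -/
lemma Fine.jump {g : M → β} {e : ι → E → M} {S : Set M} {ia : M → ι} {py : M → E} {ζ η : ℝ}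
    {ν : ℕ → ℝ} {m : ℕ} {θ : ℝ} (h : Fine k A K Φ g e S ia py ζ η ν m θ) (hζ : 0 < ζ)
    {δ : ℝ} (hθ : 2 * θ ≤ δ)
    (hu : ∀ a, ∀ x ∈ A, ∀ x' ∈ A, ∀ t ∈ Icc (0 : ℝ) 1, ∀ t' ∈ Icc (0 : ℝ) 1,
      dist x x' < 2 * θ → |t - t'| < 2 * θ → dist (Φ a x t) (Φ a x' t') < δ) :
    ∃ r > 0, ∀ x ∈ (univ : Set M), ∀ y ∈ (univ : Set M), dist x y < r →
      dist (hF g Φ S ia py ν m x) (hF g Φ S ia py ν m y) < δ := by
  have hm : (0 : ℝ) < m := by exact_mod_cast h.mpos
  have hθ0 : 0 < θ := h.eta0.trans_le h.eta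
  have hgap : ∀ l ≤ m, ν (m + 1) ≤ ν l - ν (l + 1) := by
    intro l hl
    have h1 := h.lev.half l
    have h2 : ν (m + 1) ≤ ν (l + 1) := h.lev.anti (by omega)
    linarith
  have hlip : ∀ x y : M, |infDist x S - infDist y S| ≤ dist x y := by
    intro x y
    have h1 : infDist x S ≤ infDist y S + dist x y := infDist_le_infDist_add_dist
    have h2 : infDist y S ≤ infDist x S + dist y x := infDist_le_infDist_add_dist
    rw [dist_comm] at h2
    rw [abs_le]; constructor <;> linarith
  -- counting changes by at most one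
  have hcount : ∀ x y : M, dist x y < ν (m + 1) →
      cnt ν m (infDist x S) ≤ cnt ν m (infDist y S) + 1 := by
    intro x y hxy
    by_contra hcon
    push Not at hcon
    set n := cnt ν m (infDist y S) with hn
    have h1 : n + 2 ≤ cnt ν m (infDist x S) := by omega
    have h2 : n + 2 ≤ m := h1.trans (cnt_le ν m _)
    have h3 := (le_cnt_iff h.lev.anti (by omega) h2).1 h1
    have h4 : ν (n + 1) ≤ infDist y S := by
      by_contra hc
      push Not at hc
      have := le_cnt h.lev.anti (by omega : n + 1 ≤ m) hc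
      omega
    have h5 := hgap (n + 1) (by omega)
    have h6 := (abs_le.1 (hlip x y)).1
    have h7 := (abs_lt.1 ((hlip x y).trans_lt hxy)).1
    rw [show n + 1 + 1 = n + 2 by ring] at h5
    linarith
  refine ⟨min (min ζ (ν (m + 1))) (ν 0), by
    have := h.lev.pos (m + 1); have := h.lev.pos 0; positivity, ?_⟩
  have hmix : ∀ x y : M, dist x y < min (min ζ (ν (m + 1))) (ν 0) → infDist x S < ν 0 →
      ν 0 ≤ infDist y S → dist (hF g Φ S ia py ν m x) (hF g Φ S ia py ν m y) < δ := by
    intro x y hxy hx hy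
    have h1 : dist x y < ζ := hxy.trans_le ((min_le_left _ _).trans (min_le_left _ _))
    have h2 : dist x y < ν (m + 1) := hxy.trans_le ((min_le_left _ _).trans (min_le_right _ _))
    have h3 := hgap 0 (Nat.zero_le _)
    have h4 := (abs_lt.1 ((hlip x y).trans_lt h2)).1
    have h5 : cnt ν m (infDist x S) = 0 := by
      have := cnt_lt h.lev.anti (m := m) (le_refl 1) (d := infDist x S)
        (by norm_num at h3; linarith)
      omega
    unfold hF
    rw [if_pos hx, if_neg (not_lt.2 hy), h5]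
    have h6 := h.near x (by linarith [h.lev.pos 0])
    rw [dist_comm] at h6
    have h7 := h.unif x y h1
    have h8 : ((0 : ℕ) : ℝ) / m = 0 := by simp
    rw [h8]
    linarith [dist_triangle (Φ (ia x) (py x) 0) (g x) (g y)]
  intro x _ y _ hxy
  have h1 : dist x y < ζ := hxy.trans_le ((min_le_left _ _).trans (min_le_left _ _))
  have h2 : dist x y < ν (m + 1) := hxy.trans_le ((min_le_left _ _).trans (min_le_right _ _))
  have h0 : dist x y < ν 0 := hxy.trans_le (min_le_right _ _)
  rcases lt_or_ge (infDist x S) (ν 0) with hx | hx <;>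
    rcases lt_or_ge (infDist y S) (ν 0) with hy | hy
  · unfold hF
    rw [if_pos hx, if_pos hy]
    have hν0 := h.lev.pos 0
    obtain ⟨h3, h4⟩ := h.lev.par x y (by linarith) (by linarith) (by linarith)
    rw [h3]
    refine hu _ _ (h.par.mem _) _ (h.par.mem _) _ ⟨by positivity, ?_⟩ _ ⟨by positivity, ?_⟩ ?_ ?_
    · rw [div_le_one hm]; exact_mod_cast cnt_le ν m _
    · rw [div_le_one hm]; exact_mod_cast cnt_le ν m _
    · linarith [h.eta]
    · have h5 := hcount x y h2
      have h6 := hcount y x (by rwa [dist_comm])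
      have h7 : |(cnt ν m (infDist x S) : ℝ) - cnt ν m (infDist y S)| ≤ 1 := by
        rw [abs_le]
        constructor
        · have : (cnt ν m (infDist y S) : ℝ) ≤ cnt ν m (infDist x S) + 1 := by exact_mod_cast h6
          linarith
        · have : (cnt ν m (infDist x S) : ℝ) ≤ cnt ν m (infDist y S) + 1 := by exact_mod_cast h5
          linarith
      rw [← sub_div, abs_div, abs_of_pos hm]
      calc _ ≤ 1 / (m : ℝ) := div_le_div_of_nonneg_right h7 hm.le
        _ < 2 * θ := by linarith [h.mlarge]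
  · exact hmix x y hxy hx hy
  · rw [dist_comm]
    rw [dist_comm] at hxy
    exact hmix y x hxy hy hx
  · unfold hF
    rw [if_neg (not_lt.2 hx), if_neg (not_lt.2 hy)]
    linarith [h.unif x y h1]

/-- **Absorption**, with the toolkit facts as hypotheses. -/
theorem absorb_core [Finite ι] [Nonempty ι] [CompactSpace M] [Nonempty M]
    (hc : CFam A K V Φ) (hA : IsCompact A) (hAn : A.Nonempty) (hK : IsCompact K)
    (hA1 : ULC k A) (hLev : HasLev k ι M A) (hGrid : HasGrid k M V) (hEmb : HasEmb ι M A)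
    (hLift : HasLift k ι M A K) (hUV : HasUV k M K) (hDisc : DISC (univ : Set M) V)
    {ε : ℝ} (hε : 0 < ε) :
    ∃ δ > 0, ∀ g : M → β, IsMap g univ K → L k g univ K δ → ∀ W : Set M, ZS W →
      ∃ g' : M → β, IsMap g' univ V ∧ L k g' univ V ε ∧ (∀ x ∈ W, dist (g' x) (g x) < ε) ∧
        ∀ x, dist (g' x) (g x) < ε ∨ ∃ a, ∃ y ∈ A, ∃ t, 0 ≤ t ∧ t ≤ 1 ∧
          dist (g' x) (Φ a y t) < ε ∧ dist (g x) (Φ a y 0) < ε := by
  obtain ⟨t, htk, htp, hth, δ₁, hδ₁, θ₁, hθ₁, hch⟩ :=
    uv_chain (M := M) hc hA hK hA1 hUV k (ε / 2) (by positivity)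
  -- the tolerance of DISC
  have hmono : ∀ i ≤ k, t 0 ≤ t i := by
    intro i
    induction i with
    | zero => intro _; exact le_rfl
    | succ i ih =>
      intro hi
      have h1 := ih (by omega)
      have h2 := hth i (by omega)
      have h3 := htp i
      linarith
  set r : ℝ := t 0 / 2 with hr
  have hr0 : 0 < r := by have := htp 0; positivity
  have hrε : r ≤ ε / 4 := by
    have := hmono k le_rfl
    rw [htk] at this
    linarith
  obtain ⟨δD, hδD, hD⟩ := hDisc (r / 2) (by positivity)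
  obtain ⟨δu, hδu, hunif⟩ := hc.unif hA hδD
  set θ : ℝ := min (min θ₁ (δu / 2)) (min (δD / 2) (ε / 2)) with hθ
  have hθ0 : 0 < θ := by positivity
  have hθa : θ ≤ θ₁ := (min_le_left _ _).trans (min_le_left _ _)
  have hθb : θ ≤ δu / 2 := (min_le_left _ _).trans (min_le_right _ _)
  have hθc : θ ≤ δD / 2 := (min_le_right _ _).trans (min_le_left _ _)
  have hθd : θ ≤ ε / 2 := (min_le_right _ _).trans (min_le_right _ _)
  obtain ⟨δ₂, hδ₂, hlift⟩ := hLift (θ / 4) (by positivity)
  refine ⟨min δ₁ δ₂, by positivity, ?_⟩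
  intro g hg hL W hW
  obtain ⟨ψ', hψ'c, hψ'⟩ := hlift g hg (hL.mono (min_le_right _ _)) (fun a x => Φ a x 0)
    fun a => ⟨(hc.cont a).comp (f := fun x : E => (x, (0 : ℝ))) (by fun_prop)
      fun x hx => ⟨hx, le_rfl, zero_le_one⟩, fun x hx => hc.base a x hx⟩
  -- uniform continuity of g
  have hgc : Continuous g := by
    have := hg.cont
    rwa [continuousOn_univ] at this
  obtain ⟨ζg, hζg, hgu⟩ := Metric.uniformContinuous_iff.1
    (CompactSpace.uniformContinuous_of_continuous hgc) (θ / 4) (by positivity)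
  obtain ⟨e, hec, hed, hei, heZ, heW⟩ := hEmb W hW ψ' hψ'c ζg hζg
  obtain ⟨ia, py, hP⟩ := exists_par (M := M) hA hAn hec hei
  set S : Set M := ⋃ a, e a '' A with hS
  -- distance from W
  obtain ⟨dW, hdW, hdW'⟩ : ∃ d > 0, ∀ x ∈ W, d ≤ infDist x S := by
    have hWc : IsCompact W := hW.1.isCompact
    rcases W.eq_empty_or_nonempty with hWe | hWn
    · exact ⟨1, one_pos, fun x hx => by rw [hWe] at hx; exact hx.elim⟩
    · obtain ⟨w, hw, hmin⟩ := hWc.exists_isMinOn hWn (continuous_infDist_pt S).continuousOn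
      refine ⟨infDist w S, ?_, fun x hx => hmin hx⟩
      have hSn : S.Nonempty := by
        obtain ⟨x, hx⟩ := hAn
        exact ⟨e (Classical.arbitrary ι) x, mem_iUnion.2 ⟨_, x, hx, rfl⟩⟩
      exact (heZ.1.notMem_iff_infDist_pos hSn).1 fun hwS => (Set.disjoint_left.1 heW) hwS hw
  obtain ⟨ν, hν⟩ := hLev e S ia py hP heZ (min (ζg / 2) dW) (by positivity) θ hθ0
  obtain ⟨m, hm⟩ := exists_nat_gt (1 / θ)
  have hm0 : (0 : ℝ) < m := (by positivity : 0 < 1 / θ).trans hm
  have hge : ∀ a, ∀ x ∈ A, dist (g (e a x)) (Φ a x 0) < θ / 2 := by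
    intro a x hx
    have h1 := hgu (hed a x hx)
    have h2 := hψ' a x hx
    linarith [dist_triangle (g (e a x)) (g (ψ' a x)) (Φ a x 0)]
  have hν0 : ν 0 < ζg / 2 := hν.small.trans_le (min_le_left _ _)
  have hνW : ν 0 < dW := hν.small.trans_le (min_le_right _ _)
  have hFine : Fine k A K Φ g e S ia py (min (ζg / 2) dW) θ ν m θ :=
    { par := hP
      lev := hν
      eta := le_rfl
      eta0 := hθ0
      mpos := by exact_mod_cast hm0
      mlarge := by
        rw [div_le_iff₀ hm0]
        rw [div_lt_iff₀ hθ0] at hm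
        linarith
      gK := fun x => hg.maps (mem_univ x)
      near := by
        intro x hx
        have h1 : dist x (e (ia x) (py x)) < ζg := by
          rw [hP.near x]; linarith
        have h2 := hgu h1
        have h3 := hge (ia x) (py x) (hP.mem x)
        linarith [dist_triangle (g x) (g (e (ia x) (py x))) (Φ (ia x) (py x) 0)]
      unif := by
        intro x x' hx
        have h1 : dist x x' < ζg := by
          have := hx.trans_le (min_le_left _ _)
          linarith
        linarith [hgu h1] }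
  obtain ⟨hUVs, s, hs, hUV0⟩ := hch g e S ia py _ θ ν m (hFine.mono hθa) hg
    (hL.mono (min_le_left _ _))
  have hLP : LP k (hF g Φ S ia py ν m) univ V r (t k) := by
    refine hGrid _ t r s hr0 (by have := htp 0; rw [hr]; linarith) hs hUV0 ?_
    intro i hi
    have h1 := hmono i hi.le
    have h2 := hth i hi
    have h3 := hmono (i + 1) hi
    refine (hUVs i hi).mono ?_ ?_ <;> linarith [htp i]
  have hmaps : MapsTo (hF g Φ S ia py ν m) univ V := by
    intro x _
    unfold hF
    rw [hc.union]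
    split_ifs
    · refine Or.inr ⟨_, _, hP.mem x, _, by positivity, ?_, rfl⟩
      rw [div_le_one hm0]; exact_mod_cast cnt_le ν m _
    · exact Or.inl (hg.maps (mem_univ x))
  obtain ⟨g', hg', hgd⟩ := hD _ hmaps (hFine.jump (by positivity) (by linarith)
    fun a x hx x' hx' t ht t' ht' h1 h2 => hunif a x hx x' hx' t ht t' ht'
      (by linarith) (by linarith))
  refine ⟨g', hg', ?_, ?_, ?_⟩
  · intro j hj f f0 hf hf0 h0
    obtain ⟨F, hF1, hF2, hF3⟩ := hLP j hj f f0 hf hf0 fun x hx => by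
      rw [← h0 x hx, dist_comm]
      have := hgd (f0 x) (mem_univ _)
      linarith
    refine ⟨F, hF1, hF2, fun x hx => ?_⟩
    have h1 := hgd (F x) (mem_univ _)
    have h2 := hF3 x hx
    rw [htk] at h2
    linarith [dist_triangle (g' (F x)) (hF g Φ S ia py ν m (F x)) (f x)]
  · intro x hx
    have h1 := hgd x (mem_univ _)
    have h2 : hF g Φ S ia py ν m x = g x := by
      unfold hF
      rw [if_neg]
      have := hdW' x hx
      linarith
    rw [h2] at h1
    linarith
  · intro x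
    have h1 := hgd x (mem_univ _)
    by_cases hx : infDist x S < ν 0
    · right
      have h2 : hF g Φ S ia py ν m x = Φ (ia x) (py x) ((cnt ν m (infDist x S) : ℝ) / m) := by
        unfold hF
        rw [if_pos hx]
      refine ⟨ia x, py x, hP.mem x, (cnt ν m (infDist x S) : ℝ) / m, by positivity, ?_, ?_, ?_⟩
      · rw [div_le_one hm0]; exact_mod_cast cnt_le ν m _
      · rw [← h2]; linarith
      · have := hFine.near x (by linarith [hν.pos 0])
        linarith
    · left
      have h2 : hF g Φ S ia py ν m x = g x := by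
        unfold hF
        rw [if_neg hx]
      rw [h2] at h1
      linarith

end MG
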