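import Pool.Agent.Work.MP_017613_gt.Chi0

/-!
# Block 8.1, calculus of sets

* `Hom P P' f`: `f` is a bijective map of the set `P` onto the set `P'` (a homeomorphism if `P` is
  compact); conversions to homeomorphisms of subtypes, gluing of homeomorphisms.
* `ZIn A P`: `A` is a Z-set in `P`.
* `AEk k X`: absolute extensors for compact pairs of dimension at most `k`.
-/

set_option linter.unusedSectionVars false

open Set Topology Metric

namespace Pool.Agent.Work.MP_017613_gt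

namespace Rnd

open Chi

variable {α β γ δ : Type} [MetricSpace α] [MetricSpace β] [MetricSpace γ] [MetricSpace δ]

/-! ## Homeomorphisms of sets -/

/-- `f` is a bijective map of `P` onto `P'` -/
structure Hom (P : Set α) (P' : Set β) (f : α → β) : Prop where
  cont : ContinuousOn f P
  inj : InjOn f P
  img : f '' P = P'

theorem Hom.maps {P : Set α} {P' : Set β} {f : α → β} (h : Hom P P' f) : MapsTo f P P' :=
  fun x hx => by rw [← h.img]; exact mem_image_of_mem f hx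

theorem Hom.isCompact {P : Set α} {P' : Set β} {f : α → β} (h : Hom P P' f) (cP : IsCompact P) :
    IsCompact P' := by
  rw [← h.img]; exact cP.image_of_continuousOn h.cont

theorem Hom.sub {P : Set α} {P' : Set β} {f : α → β} (h : Hom P P' f) {A : Set α} (hA : A ⊆ P) :
    Hom A (f '' A) f := ⟨h.cont.mono hA, h.inj.mono hA, rfl⟩

theorem Hom.congr {P : Set α} {P' : Set β} {f g : α → β} (h : Hom P P' f) (hg : EqOn g f P) :
    Hom P P' g :=
  ⟨h.cont.congr hg, fun x hx y hy e => h.inj hx hy (by rw [← hg hx, ← hg hy, e]), by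
    rw [← h.img]; exact image_congr hg⟩

theorem Hom.id (P : Set α) : Hom P P (fun x => x) :=
  ⟨continuousOn_id, fun _ _ _ _ e => e, image_id P⟩

theorem Hom.comp {P : Set α} {P' : Set β} {P'' : Set γ} {f : α → β} {g : β → γ} (hg : Hom P' P'' g)
    (hf : Hom P P' f) : Hom P P'' (fun x => g (f x)) :=
  ⟨hg.cont.comp hf.cont hf.maps, fun x hx y hy e => hf.inj hx hy (hg.inj (hf.maps hx) (hf.maps hy) e),
    by rw [← hg.img, ← hf.img, image_image]⟩

/-- the inverse -/
theorem Hom.exists_inv {P : Set α} {P' : Set β} {f : α → β} (h : Hom P P' f) (cP : IsCompact P)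
    (hne : P.Nonempty) : ∃ g : β → α, Hom P' P g ∧ (∀ x ∈ P, g (f x) = x) ∧
      ∀ y ∈ P', f (g y) = y := by
  classical
  have : Nonempty α := ⟨hne.choose⟩
  have h1 : ∀ x ∈ P, Function.invFunOn f P (f x) = x := fun x hx => h.inj
    (Function.invFunOn_mem ⟨x, hx, rfl⟩) hx (Function.invFunOn_eq ⟨x, hx, rfl⟩)
  have h2 : ∀ y ∈ P', f (Function.invFunOn f P y) = y := fun y hy => by
    rw [← h.img] at hy
    exact Function.invFunOn_eq hy
  refine ⟨Function.invFunOn f P, ⟨?_, ?_, ?_⟩, h1, h2⟩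
  · rw [continuousOn_iff_isClosed]
    intro t ht
    refine ⟨f '' (P ∩ t), ?_, ?_⟩
    · exact ((cP.inter_right ht).image_of_continuousOn (h.cont.mono inter_subset_left)).isClosed
    · ext y
      constructor
      · rintro ⟨hy, hyP⟩
        refine ⟨⟨Function.invFunOn f P y, ⟨Function.invFunOn_mem (by rw [← h.img] at hyP; exact hyP),
          hy⟩, h2 y hyP⟩, hyP⟩
      · rintro ⟨⟨x, ⟨hx, hxt⟩, rfl⟩, hyP⟩
        refine ⟨?_, hyP⟩
        change Function.invFunOn f P (f x) ∈ t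
        rw [h1 x hx]
        exact hxt
  · intro y hy y' hy' e
    rw [← h2 y hy, ← h2 y' hy', e]
  · ext x
    constructor
    · rintro ⟨y, hy, rfl⟩
      exact Function.invFunOn_mem (by rw [← h.img] at hy; exact hy)
    · intro hx
      exact ⟨f x, h.maps hx, h1 x hx⟩

/-- the homeomorphism of subtypes -/
theorem Hom.exists_homeo {P : Set α} {P' : Set β} {f : α → β} (h : Hom P P' f) (cP : IsCompact P) :
    ∃ θ : P ≃ₜ P', ∀ x : P, (θ x : β) = f x := by
  have : CompactSpace P := isCompact_iff_compactSpace.1 cP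
  let e : P ≃ P' := Equiv.ofBijective (fun x => ⟨f x, h.maps x.2⟩) ⟨fun x y e => by
    have := congrArg Subtype.val e
    exact Subtype.ext (h.inj x.2 y.2 this), fun y => by
      have hy : (y : β) ∈ f '' P := by rw [h.img]; exact y.2
      obtain ⟨x, hx, hxy⟩ := hy
      exact ⟨⟨x, hx⟩, Subtype.ext hxy⟩⟩
  have hc : Continuous e := (continuousOn_iff_continuous_domRestrict.1 h.cont).subtype_mk _
  exact ⟨Continuous.homeoOfEquivCompactToT2 (f := e) hc, fun x => rfl⟩

/-- the map of a homeomorphism of subtypes -/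
theorem exists_of_homeo {P : Set α} {P' : Set β} (θ : P ≃ₜ P') (hne : Nonempty β) :
    ∃ f : α → β, Hom P P' f ∧ ∀ x : P, f x = θ x := by
  classical
  let f : α → β := fun x => if hx : x ∈ P then (θ ⟨x, hx⟩ : β) else Classical.choice hne
  have hf : ∀ x : P, f x = θ x := fun x => by
    change (if hx : (x : α) ∈ P then (θ ⟨x, hx⟩ : β) else _) = _
    rw [dif_pos x.2]
  refine ⟨f, ⟨?_, ?_, ?_⟩, hf⟩
  · rw [continuousOn_iff_continuous_domRestrict]
    have : P.domRestrict f = fun x : P => (θ x : β) := by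
      funext x
      exact hf x
    rw [this]
    exact continuous_subtype_val.comp θ.continuous
  · intro x hx y hy e
    rw [hf ⟨x, hx⟩, hf ⟨y, hy⟩] at e
    exact congrArg Subtype.val (θ.injective (Subtype.ext e))
  · ext y
    constructor
    · rintro ⟨x, hx, rfl⟩
      rw [hf ⟨x, hx⟩]
      exact (θ ⟨x, hx⟩).2
    · intro hy
      refine ⟨θ.symm ⟨y, hy⟩, (θ.symm ⟨y, hy⟩).2, ?_⟩
      rw [hf, θ.apply_symm_apply]

/-- gluing of homeomorphisms -/
theorem Hom.glue {P Q : Set α} {P' Q' : Set β} {f g : α → β} (cP : IsClosed P) (cQ : IsClosed Q)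
    (hf : Hom P P' f) (hg : Hom Q Q' g) (he : ∀ x ∈ P, x ∈ Q → f x = g x)
    (hi : P' ∩ Q' ⊆ f '' (P ∩ Q)) :
    ∃ F : α → β, Hom (P ∪ Q) (P' ∪ Q') F ∧ EqOn F f P ∧ EqOn F g Q := by
  classical
  let F : α → β := fun x => if x ∈ P then f x else g x
  have h1 : EqOn F f P := fun x hx => if_pos hx
  have h2 : EqOn F g Q := fun x hx => by
    by_cases hP : x ∈ P
    · rw [h1 hP, he x hP hx]
    · exact if_neg hP
  have key : ∀ x ∈ P, ∀ y ∈ Q, F x = F y → x = y := by
    intro x hx y hy e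
    rw [h1 hx, h2 hy] at e
    obtain ⟨z, hz, hzx⟩ := hi ⟨hf.maps hx, by rw [e]; exact hg.maps hy⟩
    have e1 : z = x := hf.inj hz.1 hx hzx
    have e2 : z = y := hg.inj hz.2 hy (by rw [← he z hz.1 hz.2, hzx, e])
    rw [← e1, ← e2]
  refine ⟨F, ⟨?_, ?_, ?_⟩, h1, h2⟩
  · exact (hf.cont.congr h1).union_of_isClosed (hg.cont.congr h2) cP cQ
  · rintro x (hx | hx) y (hy | hy) e
    · rw [h1 hx, h1 hy] at e
      exact hf.inj hx hy e
    · exact key x hx y hy e
    · exact (key y hy x hx e.symm).symm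
    · rw [h2 hx, h2 hy] at e
      exact hg.inj hx hy e
  · rw [image_union, image_congr h1, image_congr h2, hf.img, hg.img]

/-- a homeomorphism of the whole space -/
theorem Hom.exists_homeo_univ {N : Type} [MetricSpace N] [CompactSpace N] {f : N → N}
    (h : Hom (univ : Set N) univ f) : ∃ θ : N ≃ₜ N, ∀ x, θ x = f x := by
  have hc : Continuous f := continuousOn_univ.1 h.cont
  let e : N ≃ N := Equiv.ofBijective f ⟨fun x y e => h.inj trivial trivial e, fun y => by
    have hy : y ∈ (univ : Set N) := trivial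
    rw [← h.img] at hy
    obtain ⟨x, -, hx⟩ := hy
    exact ⟨x, hx⟩⟩
  exact ⟨Continuous.homeoOfEquivCompactToT2 (f := e) hc, fun x => rfl⟩

/-! ## Z-sets in sets -/

/-- `A` is a Z-set in `P` -/
def ZIn (A P : Set α) : Prop :=
  IsClosed A ∧ A ⊆ P ∧ ∀ ε > 0, ∃ φ : α → α, ContinuousOn φ P ∧ MapsTo φ P P ∧
    (∀ x ∈ P, dist (φ x) x < ε) ∧ ∀ x ∈ P, φ x ∉ A

theorem ZIn.isClosed {A P : Set α} (h : ZIn A P) : IsClosed A := h.1

theorem ZIn.subset {A P : Set α} (h : ZIn A P) : A ⊆ P := h.2.1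

theorem ZIn.mono {A B P : Set α} (h : ZIn A P) (hB : IsClosed B) (hBA : B ⊆ A) : ZIn B P :=
  ⟨hB, hBA.trans h.2.1, fun ε hε => by
    obtain ⟨φ, h1, h2, h3, h4⟩ := h.2.2 ε hε
    exact ⟨φ, h1, h2, h3, fun x hx hxB => h4 x hx (hBA hxB)⟩⟩

theorem ZIn.empty (P : Set α) : ZIn ∅ P :=
  ⟨isClosed_empty, empty_subset _, fun ε hε => ⟨fun x => x, continuousOn_id, fun _ hx => hx,
    fun x _ => by simpa using hε, fun _ _ h => h⟩⟩

theorem zin_univ {A : Set α} : ZIn A univ ↔ ZS A := by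
  constructor
  · rintro ⟨h1, -, h2⟩
    refine ⟨h1, fun ε hε => ?_⟩
    obtain ⟨φ, h3, -, h4, h5⟩ := h2 ε hε
    exact ⟨⟨φ, continuousOn_univ.1 h3⟩, fun x => h4 x trivial, fun x => h5 x trivial⟩
  · rintro ⟨h1, h2⟩
    refine ⟨h1, subset_univ _, fun ε hε => ?_⟩
    obtain ⟨φ, h3, h4⟩ := h2 ε hε
    exact ⟨φ, φ.continuous.continuousOn, fun _ _ => trivial, fun x _ => h3 x, fun x _ => h4 x⟩

theorem ZIn.zs {A P : Set α} (h : ZIn A P) : ZS ((↑) ⁻¹' A : Set P) := by
  refine ⟨h.1.preimage continuous_subtype_val, fun ε hε => ?_⟩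
  obtain ⟨φ, h1, h2, h3, h4⟩ := h.2.2 ε hε
  exact ⟨⟨fun x => ⟨φ x, h2 x.2⟩, (continuousOn_iff_continuous_domRestrict.1 h1).subtype_mk _⟩,
    fun x => h3 x x.2, fun x => h4 x x.2⟩

theorem zin_of_zs {A P : Set α} (hA : IsClosed A) (hAP : A ⊆ P) (h : ZS ((↑) ⁻¹' A : Set P)) :
    ZIn A P := by
  classical
  refine ⟨hA, hAP, fun ε hε => ?_⟩
  obtain ⟨φ, h1, h2⟩ := h.2 ε hε
  let f : α → α := fun x => if hx : x ∈ P then (φ ⟨x, hx⟩ : α) else x
  have hf : ∀ x (hx : x ∈ P), f x = φ ⟨x, hx⟩ := fun x hx => dif_pos hx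
  refine ⟨f, ?_, fun x hx => by rw [hf x hx]; exact (φ ⟨x, hx⟩).2, fun x hx => ?_, fun x hx => ?_⟩
  · rw [continuousOn_iff_continuous_domRestrict]
    have : P.domRestrict f = fun x : P => (φ x : α) := by
      funext x
      exact hf x x.2
    rw [this]
    exact continuous_subtype_val.comp φ.continuous
  · rw [hf x hx]; exact h1 ⟨x, hx⟩
  · rw [hf x hx]; exact h2 ⟨x, hx⟩

theorem ZIn.image {P : Set α} {P' : Set β} {f : α → β} (h : Hom P P' f) (cP : IsCompact P)
    {A : Set α} (hA : ZIn A P) : ZIn (f '' A) P' := by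
  have hcl : IsClosed (f '' A) := ((cP.of_isClosed_subset hA.1 hA.2.1).image_of_continuousOn
    (h.cont.mono hA.2.1)).isClosed
  refine ⟨hcl, by rw [← h.img]; exact image_mono hA.2.1, fun ε hε => ?_⟩
  rcases P.eq_empty_or_nonempty with rfl | hne
  · have h0 : P' = ∅ := by rw [← h.img, image_empty]
    subst h0
    by_cases hβ : Nonempty β
    · exact ⟨fun x => x, continuousOn_id, fun _ hx => hx, fun x hx => hx.elim, fun x hx => hx.elim⟩
    · exact ⟨fun x => x, continuousOn_id, fun _ hx => hx, fun x hx => hx.elim, fun x hx => hx.elim⟩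
  obtain ⟨g, hg, hgf, hfg⟩ := h.exists_inv cP hne
  have huc := cP.uniformContinuousOn_of_continuous h.cont
  rw [Metric.uniformContinuousOn_iff] at huc
  obtain ⟨δ, hδ, huc⟩ := huc ε hε
  obtain ⟨φ, h1, h2, h3, h4⟩ := hA.2.2 δ hδ
  refine ⟨fun y => f (φ (g y)), ?_, ?_, ?_, ?_⟩
  · exact h.cont.comp (h1.comp hg.cont hg.maps) fun y hy => h2 (hg.maps hy)
  · exact fun y hy => h.maps (h2 (hg.maps hy))
  · intro y hy
    have h5 := huc _ (h2 (hg.maps hy)) _ (hg.maps hy) (h3 _ (hg.maps hy))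
    rw [hfg y hy] at h5
    exact h5
  · rintro y hy ⟨a, ha, hay⟩
    have : a = φ (g y) := h.inj (hA.2.1 ha) (h2 (hg.maps hy)) hay
    exact h4 _ (hg.maps hy) (this ▸ ha)

/-- a Z-set is nowhere dense -/
theorem ZIn.exists_near {A P : Set α} (h : ZIn A P) {x : α} (hx : x ∈ P) {ε : ℝ} (hε : 0 < ε) :
    ∃ y ∈ P, y ∉ A ∧ dist y x < ε := by
  obtain ⟨φ, -, h2, h3, h4⟩ := h.2.2 ε hε
  exact ⟨φ x, h2 hx, h4 x hx, h3 x hx⟩

/-! ## Absolute extensors for compact pairs of dimension at most `k` -/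

/-- maps of closed subsets of compact sets of dimension at most `k` into `X` extend, and `X` is
non-empty -/
def AEk (k : ℕ) (X : Set β) : Prop :=
  X.Nonempty ∧ ∀ (γ : Type) [MetricSpace γ] (P A : Set γ), TP k P A → ∀ f₀ : γ → β,
    ContinuousOn f₀ A → MapsTo f₀ A X →
    ∃ F : γ → β, ContinuousOn F P ∧ MapsTo F P X ∧ EqOn F f₀ A

theorem tp_sub {k : ℕ} {P A P' A' : Set γ} (h : TP k P A) (hP : IsClosed P') (hPP : P' ⊆ P)
    (hA : IsClosed A') (hAP : A' ⊆ P') : TP k P' A' :=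
  ⟨h.cP.of_isClosed_subset hP hPP, h.dP.mono (h.cP.of_isClosed_subset hP hPP) hPP, hA, hAP⟩

theorem AEk.image {k : ℕ} {P : Set α} {P' : Set β} {f : α → β} (hf : Hom P P' f)
    (cP : IsCompact P) (h : AEk k P) : AEk k P' := by
  refine ⟨by rw [← hf.img]; exact h.1.image f, ?_⟩
  intro γ _ Q A hQ f₀ hc hm
  obtain ⟨g, hg, hgf, hfg⟩ := hf.exists_inv cP h.1
  obtain ⟨F, h1, h2, h3⟩ := h.2 γ Q A hQ (fun x => g (f₀ x)) (hg.cont.comp hc hm)
    fun x hx => hg.maps (hm hx)
  refine ⟨fun x => f (F x), hf.cont.comp h1 h2, fun x hx => hf.maps (h2 hx), fun x hx => ?_⟩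
  change f (F x) = f₀ x
  rw [h3 hx, hfg _ (hm hx)]

theorem soft_const {k : ℕ} {D : Set α} (h : AEk k D) (b : β) :
    Soft k D {b} (fun _ => b) := by
  refine ⟨continuousOn_const, fun _ _ => rfl, ?_⟩
  intro γ _ P A hP f f₀ _ hf hc hm _ ε hε
  obtain ⟨F, h1, h2, h3⟩ := h.2 γ P A hP f₀ hc hm
  refine ⟨F, h1, h2, h3, fun x hx => ?_⟩
  have : f x = b := hf hx
  rw [this, dist_self]
  exact hε

theorem AEk.of_soft {k : ℕ} {D : Set α} {X : Set β} {p : α → β} (hp : Soft k D X p)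
    (h : AEk k X) (hD : D.Nonempty) : AEk k D := by
  refine ⟨hD, ?_⟩
  intro γ _ P A hP f₀ hc hm
  obtain ⟨f, h1, h2, h3⟩ := h.2 γ P A hP (fun x => p (f₀ x)) (hp.1.comp hc hm)
    fun x hx => hp.2.1 (hm hx)
  obtain ⟨F, h4, h5, h6, -⟩ := hp.2.2 γ P A hP f f₀ h1 h2 hc hm (fun x hx => (h3 hx).symm) 1
    one_pos
  exact ⟨F, h4, h5, h6⟩

/-- absolute extensors are glued along absolute extensors -/
theorem AEk.union {k : ℕ} {X Y : Set β} (cX : IsClosed X) (cY : IsClosed Y) (hX : AEk k X)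
    (hY : AEk k Y) (hXY : AEk k (X ∩ Y)) : AEk k (X ∪ Y) := by
  classical
  refine ⟨hX.1.mono subset_union_left, ?_⟩
  intro γ _ P A hP f₀ hc hm
  -- the separating function
  let g₀ : γ → ℝ := fun x => infDist (f₀ x) Y - infDist (f₀ x) X
  have hg₀ : ContinuousOn g₀ A :=
    ((continuous_infDist_pt Y).comp_continuousOn hc).sub
      ((continuous_infDist_pt X).comp_continuousOn hc)
  obtain ⟨G, hG⟩ := ContinuousMap.exists_restrict_eq hP.cA
    (⟨A.domRestrict g₀, hg₀.domRestrict⟩ : C(A, ℝ))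
  have hGA : ∀ x ∈ A, G x = g₀ x := fun x hx => by
    have := DFunLike.congr_fun hG ⟨x, hx⟩
    simpa using this
  have hXn := hX.1
  have hYn := hY.1
  have dX : ∀ y, infDist y X = 0 ↔ y ∈ X := fun y => (cX.mem_iff_infDist_zero hXn).symm
  have dY : ∀ y, infDist y Y = 0 ↔ y ∈ Y := fun y => (cY.mem_iff_infDist_zero hYn).symm
  have sX : ∀ x ∈ A, (0 ≤ G x ↔ f₀ x ∈ X) := by
    intro x hx
    rw [hGA x hx]
    constructor
    · intro h
      rcases hm hx with h1 | h1
      · exact h1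
      · have h2 := (dY _).2 h1
        have h3 : infDist (f₀ x) X ≤ 0 := by
          change 0 ≤ infDist (f₀ x) Y - infDist (f₀ x) X at h
          linarith
        exact (dX _).1 (le_antisymm h3 infDist_nonneg)
    · intro h
      have h1 := (dX _).2 h
      change 0 ≤ infDist (f₀ x) Y - infDist (f₀ x) X
      rw [h1, sub_zero]
      exact infDist_nonneg
  have sY : ∀ x ∈ A, (G x ≤ 0 ↔ f₀ x ∈ Y) := by
    intro x hx
    rw [hGA x hx]
    constructor
    · intro h
      rcases hm hx with h1 | h1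
      · have h2 := (dX _).2 h1
        have h3 : infDist (f₀ x) Y ≤ 0 := by
          change infDist (f₀ x) Y - infDist (f₀ x) X ≤ 0 at h
          linarith
        exact (dY _).1 (le_antisymm h3 infDist_nonneg)
      · exact h1
    · intro h
      have h1 := (dY _).2 h
      change infDist (f₀ x) Y - infDist (f₀ x) X ≤ 0
      rw [h1, zero_sub]
      exact neg_nonpos.2 infDist_nonneg
  have cPc := hP.cP.isClosed
  set Pp : Set γ := P ∩ {x | 0 ≤ G x} with hPp
  set Pm : Set γ := P ∩ {x | G x ≤ 0} with hPm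
  have cPp : IsClosed Pp := cPc.inter (isClosed_le continuous_const G.continuous)
  have cPm : IsClosed Pm := cPc.inter (isClosed_le G.continuous continuous_const)
  -- the middle part
  obtain ⟨F0, h1, h2, h3⟩ := hXY.2 γ (Pp ∩ Pm) (A ∩ (Pp ∩ Pm))
    (tp_sub hP (cPp.inter cPm) (fun x hx => hx.1.1) (hP.cA.inter (cPp.inter cPm))
      inter_subset_right) f₀ (hc.mono inter_subset_left)
    fun x hx => ⟨(sX x hx.1).1 hx.2.1.2, (sY x hx.1).1 hx.2.2.2⟩
  -- one side
  have side : ∀ (Z : Set β) (Q : Set γ), AEk k Z → IsClosed Q → Q ⊆ P → (X ∩ Y ⊆ Z) →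
      (∀ x ∈ A, x ∈ Q → f₀ x ∈ Z) → (Pp ∩ Pm ⊆ Q) →
      (∀ x ∈ A, x ∈ Pp ∩ Pm → F0 x = f₀ x) →
      ∃ F : γ → β, ContinuousOn F Q ∧ MapsTo F Q Z ∧ EqOn F F0 (Pp ∩ Pm) ∧
        EqOn F f₀ (A ∩ Q) := by
    intro Z Q hZ cQ hQP hXYZ hfZ hsub hag
    let b : γ → β := fun x => if x ∈ Pp ∩ Pm then F0 x else f₀ x
    have hb1 : EqOn b F0 (Pp ∩ Pm) := fun x hx => if_pos hx
    have hb2 : EqOn b f₀ (A ∩ Q) := fun x hx => by
      by_cases hx' : x ∈ Pp ∩ Pm
      · rw [hb1 hx']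
        exact hag x hx.1 hx'
      · exact if_neg hx'
    obtain ⟨F, h4, h5, h6⟩ := hZ.2 γ Q ((Pp ∩ Pm) ∪ (A ∩ Q))
      (tp_sub hP cQ hQP ((cPp.inter cPm).union (hP.cA.inter cQ))
        (union_subset hsub inter_subset_right)) b
      ((h1.congr hb1).union_of_isClosed ((hc.mono inter_subset_left).congr hb2)
        (cPp.inter cPm) (hP.cA.inter cQ)) (by
        rintro x (hx | hx)
        · rw [hb1 hx]; exact hXYZ (h2 hx)
        · rw [hb2 hx]; exact hfZ x hx.1 hx.2)
    refine ⟨F, h4, h5, fun x hx => ?_, fun x hx => ?_⟩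
    · rw [h6 (Or.inl hx), hb1 hx]
    · rw [h6 (Or.inr hx), hb2 hx]
  have hag : ∀ x ∈ A, x ∈ Pp ∩ Pm → F0 x = f₀ x := fun x hx hx' => h3 ⟨hx, hx'⟩
  obtain ⟨Fp, p1, p2, p3, p4⟩ := side X Pp hX cPp inter_subset_left inter_subset_left
    (fun x hx hxQ => (sX x hx).1 hxQ.2) inter_subset_left hag
  obtain ⟨Fm, m1, m2, m3, m4⟩ := side Y Pm hY cPm inter_subset_left inter_subset_right
    (fun x hx hxQ => (sY x hx).1 hxQ.2) inter_subset_right hag
  have hPu : P = Pp ∪ Pm := by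
    ext x
    constructor
    · intro hx
      rcases le_total 0 (G x) with h | h
      · exact Or.inl ⟨hx, h⟩
      · exact Or.inr ⟨hx, h⟩
    · rintro (hx | hx)
      · exact hx.1
      · exact hx.1
  let F : γ → β := fun x => if x ∈ Pp then Fp x else Fm x
  have e1 : EqOn F Fp Pp := fun x hx => if_pos hx
  have e2 : EqOn F Fm Pm := fun x hx => by
    by_cases h : x ∈ Pp
    · rw [e1 h, p3 ⟨h, hx⟩, m3 ⟨h, hx⟩]
    · exact if_neg h
  refine ⟨F, ?_, ?_, ?_⟩
  · rw [hPu]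
    exact (p1.congr e1).union_of_isClosed (m1.congr e2) cPp cPm
  · intro x hx
    rw [hPu] at hx
    rcases hx with hx | hx
    · rw [e1 hx]; exact Or.inl (p2 hx)
    · rw [e2 hx]; exact Or.inr (m2 hx)
  · intro x hx
    have hxP := hP.sub hx
    rw [hPu] at hxP
    rcases hxP with h | h
    · rw [e1 h, p4 ⟨hx, h⟩]
    · rw [e2 h, m4 ⟨hx, h⟩]

/-- a piece of an absolute extensor, cut off along an absolute extensor, is an absolute extensor -/
theorem AEk.cut {k : ℕ} {X Y : Set β} (cX : IsClosed X) (cY : IsClosed Y) (h : AEk k (X ∪ Y))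
    (hXY : AEk k (X ∩ Y)) : AEk k X := by
  classical
  refine ⟨hXY.1.mono inter_subset_left, ?_⟩
  intro γ _ P A hP f₀ hc hm
  obtain ⟨F, h1, h2, h3⟩ := h.2 γ P A hP f₀ hc fun x hx => Or.inl (hm hx)
  set PX : Set γ := P ∩ F ⁻¹' X with hPX
  set PY : Set γ := P ∩ F ⁻¹' Y with hPY
  have cPX : IsClosed PX := h1.preimage_isClosed_of_isClosed hP.cP.isClosed cX
  have cPY : IsClosed PY := h1.preimage_isClosed_of_isClosed hP.cP.isClosed cY
  obtain ⟨F1, h4, h5, h6⟩ := hXY.2 γ PY (PX ∩ PY)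
    (tp_sub hP cPY inter_subset_left (cPX.inter cPY) inter_subset_right) F
    (h1.mono fun x hx => hx.1.1) fun x hx => ⟨hx.1.2, hx.2.2⟩
  let G : γ → β := fun x => if x ∈ PX then F x else F1 x
  have e1 : EqOn G F PX := fun x hx => if_pos hx
  have e2 : EqOn G F1 PY := fun x hx => by
    by_cases h : x ∈ PX
    · rw [e1 h, h6 ⟨h, hx⟩]
    · exact if_neg h
  have hPu : P = PX ∪ PY := by
    ext x
    constructor
    · intro hx
      rcases h2 hx with h | h
      · exact Or.inl ⟨hx, h⟩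
      · exact Or.inr ⟨hx, h⟩
    · rintro (hx | hx)
      · exact hx.1
      · exact hx.1
  refine ⟨G, ?_, ?_, ?_⟩
  · rw [hPu]
    exact ((h1.mono inter_subset_left).congr e1).union_of_isClosed (h4.congr e2) cPX cPY
  · intro x hx
    rw [hPu] at hx
    rcases hx with hx | hx
    · rw [e1 hx]; exact hx.2
    · rw [e2 hx]; exact (h5 hx).1
  · intro x hx
    have : x ∈ PX := ⟨hP.sub hx, by
      change F x ∈ X
      rw [h3 hx]
      exact hm hx⟩
    rw [e1 this, h3 hx]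

end Rnd

end Pool.Agent.Work.MP_017613_gt
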