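import Pool.Agent.Work.MP_017613_gt.Skel24
import Pool.Agent.Work.MP_017613_gt.RndA
import Pool.Agent.Work.MP_017613_gt.DiscC

/-!
# Connected spaces are absolute extensors

`(k-1)`-connected compact `ULC^(k-1)` spaces are absolute extensors for compact pairs of dimension
at most `k`: the case `X = point` of coarse lifting `J_LPC`.
-/

set_option linter.unusedSectionVars false

open Set Topology Metric

namespace Pool.Agent.Work.MP_017613_gt

namespace Rnd

variable {k : ℕ}

theorem ulc_unit (k : ℕ) : MG.ULC k (univ : Set Unit) := by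
  intro ε hε
  refine ⟨1, one_pos, fun j _ y _ a _ _ => ⟨fun _ => (), MG.IsMap.const trivial, fun x _ => rfl,
    fun x _ => ?_⟩⟩
  rw [Subsingleton.elim y ((fun x => x) ((fun _ => ()) x)), dist_self]
  exact hε

/-- `(k-1)`-connected compact `ULC^(k-1)` spaces are absolute extensors -/
theorem aek_of_conn (hJ : MG.Tr.J_LPC) {Y : Type} [MetricSpace Y] [CompactSpace Y] [Nonempty Y]
    (hU : MG.ULC k (univ : Set Y)) (hC : MG.Conn k (univ : Set Y)) : AEk k (univ : Set Y) := by
  classical
  obtain ⟨δ, hδ, H⟩ := hJ k Unit (ulc_unit k) 1 one_pos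
  have hL : MG.L k (fun _ : Y => ()) univ univ δ := by
    intro j hj f f0 _ hf0 _
    obtain ⟨F, h1, h2⟩ := hC j hj f0 hf0
    exact ⟨F, h1, h2, fun x _ => by simpa using hδ⟩
  refine ⟨univ_nonempty, ?_⟩
  intro γ _ P A hT f₀ hc hm
  have : CompactSpace P := isCompact_iff_compactSpace.1 hT.cP
  have hcA : ContinuousOn (fun x : P => f₀ x) ((↑) ⁻¹' A) :=
    hc.comp continuous_subtype_val.continuousOn (mapsTo_preimage _ _)
  obtain ⟨F, h1, h2, -⟩ := H Y hU (fun _ => ()) continuous_const hL P (MG.pushOff_subtype hT.dP)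
    ((↑) ⁻¹' A) (fun _ => ()) (fun x => f₀ x) (hT.cA.preimage continuous_subtype_val)
    continuous_const
    hcA
    (fun x _ => by simpa using hδ)
  let y₀ : Y := Classical.arbitrary Y
  refine ⟨MG.extS P F fun _ => y₀, MG.extS_cont h1 _, fun x _ => trivial, fun x hx => ?_⟩
  rw [MG.extS_eq F _ (hT.sub hx)]
  exact h2 hx

end Rnd

end Pool.Agent.Work.MP_017613_gt
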