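import Pool.Agent.Work.MP_017613_gt.PushOff
import Pool.Agent.Work.MP_017613_gt.ZSet

/-!
Block 8.5 (theorem CHI): definitions. Everything is in set form: spaces are subsets of metric
spaces, test pairs are compact sets `P` of dimension at most `k` with a closed subset `A`.
-/

set_option linter.unusedSectionVars false

open Set Topology Metric

namespace Pool.Agent.Work.MP_017613_gt

namespace Chi

variable {α β β' γ : Type} [MetricSpace α] [MetricSpace β] [MetricSpace β'] [MetricSpace γ]

/-- a compact test pair of dimension at most `k` -/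
structure TP (k : ℕ) (P A : Set γ) : Prop where
  cP : IsCompact P
  dP : PushOff k P
  cA : IsClosed A
  sub : A ⊆ P

/-- the function `h` on `P` has jumps smaller than `δ` -/
def Jump (h : γ → β) (P : Set γ) (δ : ℝ) : Prop :=
  ∃ r > 0, ∀ x ∈ P, ∀ y ∈ P, dist x y < r → dist (h x) (h y) < δ

/-- functions with small jumps are close to continuous maps, relative to closed subsets -/
def ANE (k : ℕ) (X : Set β) : Prop :=
  ∀ ε > 0, ∃ δ > 0, ∀ (γ : Type) [MetricSpace γ] (P A : Set γ), TP k P A →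
    ∀ h : γ → β, MapsTo h P X → Jump h P δ →
    ∀ b : γ → β, ContinuousOn b A → MapsTo b A X → (∀ x ∈ A, dist (b x) (h x) < δ) →
    ∃ a : γ → β, ContinuousOn a P ∧ MapsTo a P X ∧ EqOn a b A ∧ ∀ x ∈ P, dist (a x) (h x) < ε

/-- approximate lifting relative to closed subsets -/
def Soft (k : ℕ) (D : Set α) (X : Set β) (p : α → β) : Prop :=
  ContinuousOn p D ∧ MapsTo p D X ∧
  ∀ (γ : Type) [MetricSpace γ] (P A : Set γ), TP k P A →
    ∀ (f : γ → β) (f₀ : γ → α), ContinuousOn f P → MapsTo f P X → ContinuousOn f₀ A →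
    MapsTo f₀ A D → (∀ x ∈ A, p (f₀ x) = f x) → ∀ ε > 0,
    ∃ F : γ → α, ContinuousOn F P ∧ MapsTo F P D ∧ EqOn F f₀ A ∧ ∀ x ∈ P, dist (p (F x)) (f x) < ε

/-- `φ` is a homeomorphism of the set `X` -/
def HomOn (X : Set β) (φ : β → β) : Prop :=
  ContinuousOn φ X ∧ MapsTo φ X X ∧ ∃ ψ : β → β, ContinuousOn ψ X ∧ MapsTo ψ X X ∧
    ∀ x ∈ X, ψ (φ x) = x ∧ φ (ψ x) = x

/-- the double of `N` along the closed set `W` -/
def Dbl {N : Type} [MetricSpace N] (W : Set N) : Set (N × ℝ) := {z | |z.2| = infDist z.1 W}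

/-- The properties of Menger manifolds used in block 8.5. -/
structure Theory (k : ℕ) where
  /-- the class of compact Menger manifolds -/
  Men : ∀ (N : Type) [MetricSpace N] [CompactSpace N], Prop
  /-- the group generated by the homeomorphisms supported in round balls -/
  H : ∀ (N : Type) [MetricSpace N] [CompactSpace N], Subgroup (N ≃ₜ N)
  ne : ∀ (N : Type) [MetricSpace N] [CompactSpace N], Men N → Nonempty N
  dim : ∀ (N : Type) [MetricSpace N] [CompactSpace N], Men N → PushOff k (univ : Set N)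
  ane : ∀ (N : Type) [MetricSpace N] [CompactSpace N], Men N → ANE k (univ : Set N)
  zd : ∀ (N : Type) [MetricSpace N] [CompactSpace N], Men N → ZD N
  conj : ∀ (N N' : Type) [MetricSpace N] [CompactSpace N] [MetricSpace N'] [CompactSpace N']
    (θ : N ≃ₜ N') (Ψ : N' ≃ₜ N'), Ψ ∈ H N' → (θ.trans Ψ).trans θ.symm ∈ H N
  /-- T_REL: extension of homeomorphisms of Z-sets, controlled over `X` -/
  trel : ∀ (β : Type) [MetricSpace β] (X : Set β), IsCompact X → ANE k X → ∀ ε > 0, ∃ δ > 0,
    ∀ (N N' : Type) [MetricSpace N] [CompactSpace N] [MetricSpace N'] [CompactSpace N'],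
    Men N → Men N' → ∀ (l : N → β) (l' : N' → β), Soft k univ X l → Soft k univ X l' →
    ∀ (W : Set N) (W' : Set N'), ZS W → ZS W' → ∀ g : W ≃ₜ W',
    (∀ x : W, dist (l' (g x)) (l x) < δ) →
    ∃ θ : N ≃ₜ N', (∀ x : W, θ x = g x) ∧ ∀ x, dist (l' (θ x)) (l x) < ε
  /-- S_REL: lifting of soft maps through soft maps, relative to Z-sets -/
  srel : ∀ (β β' : Type) [MetricSpace β] [MetricSpace β'] (X : Set β) (B : Set β'),
    IsCompact X → IsCompact B → ANE k X → ANE k B → ∀ ε > 0, ∃ δ > 0, ∀ p : β → β', Soft k X B p →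
    ∀ (N : Type) [MetricSpace N] [CompactSpace N], Men N → ∀ u : N → β', Soft k univ B u →
    ∀ W : Set N, ZS W → ∀ w₀ : N → β, ContinuousOn w₀ W → MapsTo w₀ W X →
    (∀ x ∈ W, dist (p (w₀ x)) (u x) < δ) →
    ∃ w : N → β, Soft k univ X w ∧ EqOn w w₀ W ∧ ∀ x, dist (p (w x)) (u x) < ε
  /-- SMALL: homeomorphisms close to the identity are in `H` -/
  small : ∀ (M : Type) [MetricSpace M] [CompactSpace M], Men M → ∃ δ > 0,
    ∀ Ψ : M ≃ₜ M, (∀ x, dist (Ψ x) x < δ) → Ψ ∈ H M
  /-- every Menger manifold is a Z-set and a soft retract of a Menger manifold -/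
  collar : ∀ (M : Type) [MetricSpace M] [CompactSpace M], Men M →
    ∃ (N : Type) (_ : MetricSpace N) (_ : CompactSpace N) (i : M → N) (r : N → M),
      Men N ∧ Continuous i ∧ ZS (range i) ∧ Soft k univ univ r ∧ ∀ x, r (i x) = x
  /-- the double along a Z-set Menger manifold, which is a soft retract, is a Menger manifold -/
  double : ∀ (M N : Type) [MetricSpace M] [CompactSpace M] [MetricSpace N] [CompactSpace N]
    (i : M → N) (r : N → M), Men M → Men N → Continuous i → ZS (range i) →
    Soft k univ univ r → (∀ x, r (i x) = x) →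
    ∃ _ : CompactSpace (Dbl (range i)), Men (Dbl (range i))

end Chi

end Pool.Agent.Work.MP_017613_gt
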