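import Pool.Agent.Work.MP_017613_gt.Kit.Glue
import Pool.Agent.Work.MP_017613_gt.ZSet
import Pool.Agent.Work.MP_017613_gt.Collar

/-!
# MENGER 8.3: unknotting of Z-embeddings by a group of homeomorphisms (formal part)

`UInp k A N H ζ` lists the inputs; `unknot` is the output: two Z-embeddings `A → N` which are
close to `β₀ q`, `β₁ q`, where `q : A → R`, `R` is `R₀` with a layer of `k`-cells and `β₀`, `β₁`
are homotopic on `R₀`, differ by an element of `H`.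
-/

set_option linter.unusedSectionVars false

open Set Topology Metric

namespace Pool.Agent.Work.MP_017613_gt

namespace Unk

open MG (Cu dCu Layer Fam)

/-- a Z-embedding -/
def ZEmb {A N : Type*} [TopologicalSpace A] [MetricSpace N] [CompactSpace N] (f : C(A, N)) :
    Prop :=
  Function.Injective f ∧ ZS (range f)

/-- two `k`-cells glued along the boundary -/
def Sk (k : ℕ) : Set ((Fin k → ℝ) × ℝ) := {p | |p.2| + ‖p.1 - fun _ => (1 / 2 : ℝ)‖ = 1 / 2}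

/-- the height function of the upper half -/
noncomputable def ht {k : ℕ} (x : Fin k → ℝ) : ℝ := 1 / 2 - ‖x - fun _ => (1 / 2 : ℝ)‖

lemma continuous_ht {k : ℕ} : Continuous (ht (k := k)) := by
  unfold ht; fun_prop

lemma ht_nonneg {k : ℕ} {x : Fin k → ℝ} (hx : x ∈ Cu k) : 0 ≤ ht x := by
  have h := (mem_Cb_iff (x := x)).1 hx
  unfold cN at h
  unfold ht
  linarith

lemma ht_eq_zero {k : ℕ} {x : Fin k → ℝ} : ht x = 0 ↔ x ∈ dCu k := by
  have h := (mem_Bd_iff (x := x))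
  unfold cN at h
  unfold ht
  constructor
  · intro h1
    exact h.2 (by linarith)
  · intro h1
    have := h.1 h1
    linarith

lemma up_mem {k : ℕ} {x : Fin k → ℝ} (hx : x ∈ Cu k) : (x, ht x) ∈ Sk k := by
  show |ht x| + ‖x - fun _ => (1 / 2 : ℝ)‖ = 1 / 2
  rw [abs_of_nonneg (ht_nonneg hx)]
  unfold ht
  ring

lemma dn_mem {k : ℕ} {x : Fin k → ℝ} (hx : x ∈ Cu k) : (x, -ht x) ∈ Sk k := by
  show |-ht x| + ‖x - fun _ => (1 / 2 : ℝ)‖ = 1 / 2
  rw [abs_neg, abs_of_nonneg (ht_nonneg hx)]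
  unfold ht
  ring

lemma fst_mem {k : ℕ} {p : (Fin k → ℝ) × ℝ} (hp : p ∈ Sk k) : p.1 ∈ Cu k := by
  have h : |p.2| + ‖p.1 - fun _ => (1 / 2 : ℝ)‖ = 1 / 2 := hp
  refine (mem_Cb_iff (x := p.1)).2 ?_
  unfold cN
  have := abs_nonneg p.2
  linarith

lemma snd_zero {k : ℕ} {p : (Fin k → ℝ) × ℝ} (hp : p ∈ Sk k) (h0 : p.2 = 0) : p.1 ∈ dCu k := by
  have h : |p.2| + ‖p.1 - fun _ => (1 / 2 : ℝ)‖ = 1 / 2 := hp
  rw [h0, abs_zero, zero_add] at h
  refine ht_eq_zero.1 ?_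
  unfold ht
  linarith

lemma isClosed_Sk (k : ℕ) : IsClosed (Sk k) := by
  unfold Sk
  exact isClosed_eq (by fun_prop) continuous_const

lemma isCompact_Sk (k : ℕ) : IsCompact (Sk k) := by
  refine Metric.isCompact_of_isClosed_isBounded (isClosed_Sk k) ?_
  refine (Metric.isBounded_iff_subset_closedBall ((fun _ => (1 / 2 : ℝ)), (0 : ℝ))).2 ⟨1 / 2, ?_⟩
  intro p hp
  have h : |p.2| + ‖p.1 - fun _ => (1 / 2 : ℝ)‖ = 1 / 2 := hp
  have h1 := abs_nonneg p.2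
  have h2 := norm_nonneg (p.1 - fun _ => (1 / 2 : ℝ))
  rw [mem_closedBall, Prod.dist_eq]
  refine max_le ?_ ?_
  · rw [dist_eq_norm]; linarith
  · rw [dist_zero_right, Real.norm_eq_abs]; linarith

instance (k : ℕ) : CompactSpace (Sk k) := isCompact_iff_compactSpace.1 (isCompact_Sk k)

/-- The map of the sphere defined by two maps of the cube. -/
lemma exists_sphere_map {k : ℕ} {N : Type*} [TopologicalSpace N] {β β' : (Fin k → ℝ) → N}
    (hβ : ContinuousOn β (Cu k)) (hβ' : ContinuousOn β' (Cu k))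
    (h : ∀ x ∈ dCu k, β x = β' x) :
    ∃ σ : C(Sk k, N), (∀ x (hx : x ∈ Cu k), σ ⟨(x, ht x), up_mem hx⟩ = β x) ∧
      ∀ x (hx : x ∈ Cu k), σ ⟨(x, -ht x), dn_mem hx⟩ = β' x := by
  classical
  let f : (Fin k → ℝ) × ℝ → N := fun p => if 0 ≤ p.2 then β p.1 else β' p.1
  have h1 : ContinuousOn f (Sk k ∩ {p | 0 ≤ p.2}) := by
    refine (hβ.comp continuousOn_fst fun p hp => fst_mem hp.1).congr ?_
    intro p hp
    simp only [f, if_pos (show 0 ≤ p.2 from hp.2), Function.comp]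
  have h2 : ContinuousOn f (Sk k ∩ {p | p.2 ≤ 0}) := by
    refine (hβ'.comp continuousOn_fst fun p hp => fst_mem hp.1).congr ?_
    intro p hp
    rcases lt_or_eq_of_le (show p.2 ≤ 0 from hp.2) with h3 | h3
    · simp only [f, if_neg (not_le.2 h3), Function.comp]
    · simp only [f, h3, le_refl, if_true, Function.comp]
      exact h _ (snd_zero hp.1 h3)
  have h3 : ContinuousOn f (Sk k) := by
    have h4 : Sk k = (Sk k ∩ {p | 0 ≤ p.2}) ∪ (Sk k ∩ {p | p.2 ≤ 0}) := by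
      ext p
      constructor
      · intro hp
        rcases le_total 0 p.2 with h5 | h5
        · exact Or.inl ⟨hp, h5⟩
        · exact Or.inr ⟨hp, h5⟩
      · rintro (hp | hp) <;> exact hp.1
    rw [h4]
    refine h1.union_of_isClosed h2 ?_ ?_
    · exact (isClosed_Sk k).inter (isClosed_le continuous_const continuous_snd)
    · exact (isClosed_Sk k).inter (isClosed_le continuous_snd continuous_const)
  refine ⟨⟨fun p => f p.1, continuousOn_iff_continuous_domRestrict.1 h3⟩, ?_, ?_⟩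
  · intro x hx
    show (if 0 ≤ ht x then β x else β' x) = β x
    rw [if_pos (ht_nonneg hx)]
  · intro x hx
    show (if 0 ≤ -ht x then β x else β' x) = β' x
    by_cases h0 : 0 ≤ -ht x
    · rw [if_pos h0]
      refine h _ (ht_eq_zero.1 ?_)
      have := ht_nonneg hx
      linarith
    · rw [if_neg h0]

/-- The inputs of 8.3, relative to the closed set `A₀`, on which all maps are equal to `g`. -/
structure UInp (k : ℕ) {A N : Type*} [MetricSpace A] [CompactSpace A] [MetricSpace N]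
    [CompactSpace N] (H : Subgroup (N ≃ₜ N)) (A₀ : Set A) (g : C(A, N)) (ζ : ℝ) : Prop where
  pos : 0 < ζ
  cl : IsClosed A₀
  zemb : ZEmb g
  /-- close Z-embeddings, equal on `A₀`, differ by an element of `H` -/
  sme : ∀ b c : C(A, N), ZEmb b → ZEmb c → EqOn b g A₀ → EqOn c g A₀ →
    (∀ x, dist (b x) (c x) < ζ) → ∃ h ∈ H, ∀ x, h (b x) = c x
  /-- maps on a closed set close to a given map extend close to the given map -/
  app : ∀ e > 0, ∃ d > 0, ∀ (f : C(A, N)) (C : Set A), IsClosed C → ∀ b : A → N,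
    ContinuousOn b C → (∀ x ∈ C, dist (b x) (f x) < d) →
    ∃ a : C(A, N), EqOn a b C ∧ ∀ x, dist (a x) (f x) < e
  /-- general position for `A`, relative -/
  gp : ∀ (f : C(A, N)) (C : Set A), IsClosed C → InjOn f C → ZS (f '' C) → ∀ e > 0,
    ∃ f' : C(A, N), ZEmb f' ∧ EqOn f' f C ∧ ∀ x, dist (f' x) (f x) < e
  /-- general position for the sphere, off `g '' A₀` -/
  gps : ∀ f : C(Sk k, N), ∀ e > 0, ∃ f' : C(Sk k, N), ZEmb f' ∧ Disjoint (range f') (g '' A₀) ∧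
    ∀ x, dist (f' x) (f x) < e
  /-- round neighbourhoods of Z-embedded spheres -/
  rnd : ∀ σ : C(Sk k, N), ZEmb σ → Disjoint (range σ) (g '' A₀) →
    ∃ O : Set N, IsOpen O ∧ range σ ⊆ O ∧
    ∀ (C : Set A) (b₀ b₁ : C(A, N)), IsClosed C → Disjoint C A₀ → ZEmb b₀ → ZEmb b₁ →
    EqOn b₀ g A₀ → EqOn b₁ g A₀ →
    (∀ x ∉ C, b₀ x = b₁ x) → (∀ x ∈ C, b₀ x ∈ O ∧ b₁ x ∈ O) → ∃ h ∈ H, ∀ x, h (b₀ x) = b₁ x

section mv

variable {k : ℕ} {A N : Type*} [MetricSpace A] [CompactSpace A] [MetricSpace N] [CompactSpace N]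
  {H : Subgroup (N ≃ₜ N)} {A₀ : Set A} {g : C(A, N)} {ζ : ℝ}

/-- Z-embeddings near `φ` and Z-embeddings near `ψ` differ by elements of `H`. -/
def Mv (H : Subgroup (N ≃ₜ N)) (A₀ : Set A) (g : C(A, N)) (ζ : ℝ) (φ ψ : C(A, N)) : Prop :=
  ∀ b c : C(A, N), ZEmb b → ZEmb c → EqOn b g A₀ → EqOn c g A₀ →
    (∀ x, dist (b x) (φ x) < ζ / 2) → (∀ x, dist (c x) (ψ x) < ζ / 2) →
    ∃ h ∈ H, ∀ x, h (b x) = c x

theorem UInp.exists_zemb (I : UInp k H A₀ g ζ) {f : C(A, N)} (hf : EqOn f g A₀) {e : ℝ}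
    (he : 0 < e) :
    ∃ f' : C(A, N), ZEmb f' ∧ EqOn f' g A₀ ∧ ∀ x, dist (f' x) (f x) < e := by
  have himg : f '' A₀ = g '' A₀ := hf.image_eq
  have hZ : ZS (f '' A₀) := by
    rw [himg]
    exact I.zemb.2.mono ((I.cl.isCompact.image g.continuous).isClosed) (image_subset_range _ _)
  have hinj : InjOn f A₀ := by
    intro x hx y hy hxy
    rw [hf hx, hf hy] at hxy
    exact I.zemb.1 hxy
  obtain ⟨f', h1, h2, h3⟩ := I.gp f A₀ I.cl hinj hZ e he
  exact ⟨f', h1, h2.trans hf, h3⟩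

theorem Mv.symm {φ ψ : C(A, N)} (h : Mv H A₀ g ζ φ ψ) : Mv H A₀ g ζ ψ φ := by
  intro b c hb hc hbg hcg h1 h2
  obtain ⟨f, hf, h3⟩ := h c b hc hb hcg hbg h2 h1
  refine ⟨f⁻¹, H.inv_mem hf, fun x => ?_⟩
  rw [← h3 x]
  exact f.symm_apply_apply (c x)

theorem Mv.trans (I : UInp k H A₀ g ζ) {φ ψ χ : C(A, N)} (hψ : EqOn ψ g A₀)
    (h : Mv H A₀ g ζ φ ψ) (h' : Mv H A₀ g ζ ψ χ) : Mv H A₀ g ζ φ χ := by
  intro b c hb hc hbg hcg h1 h2
  obtain ⟨d, hd, hdg, h3⟩ := I.exists_zemb hψ (e := ζ / 2) (by have := I.pos; linarith)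
  obtain ⟨f, hf, h4⟩ := h b d hb hd hbg hdg h1 h3
  obtain ⟨f', hf', h5⟩ := h' d c hd hc hdg hcg h3 h2
  refine ⟨f' * f, H.mul_mem hf' hf, fun x => ?_⟩
  show f' (f (b x)) = c x
  rw [h4, h5]

theorem Mv.of_close (I : UInp k H A₀ g ζ) {φ ψ : C(A, N)} (hφ : EqOn φ g A₀)
    (hψ : EqOn ψ g A₀) (h : ∀ x, dist (φ x) (ψ x) < ζ / 2) : Mv H A₀ g ζ φ ψ := by
  have hpos := I.pos
  intro b c hb hc hbg hcg h1 h2
  obtain ⟨b', hb', hbg', h3⟩ := I.exists_zemb hφ (e := ζ / 8) (by linarith)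
  obtain ⟨c', hc', hcg', h4⟩ := I.exists_zemb hψ (e := ζ / 8) (by linarith)
  obtain ⟨g1, hg1, h5⟩ := I.sme b b' hb hb' hbg hbg' fun x => by
    have := dist_triangle_right (b x) (b' x) (φ x)
    have := h1 x; have := h3 x; linarith
  obtain ⟨g2, hg2, h6⟩ := I.sme b' c' hb' hc' hbg' hcg' fun x => by
    have h7 := dist_triangle (b' x) (φ x) (c' x)
    have h8 := dist_triangle_right (φ x) (c' x) (ψ x)
    have := h x; have := h3 x; have := h4 x; linarith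
  obtain ⟨g3, hg3, h7⟩ := I.sme c' c hc' hc hcg' hcg fun x => by
    have := dist_triangle_right (c' x) (c x) (ψ x)
    have := h2 x; have := h4 x; linarith
  refine ⟨g3 * (g2 * g1), H.mul_mem hg3 (H.mul_mem hg2 hg1), fun x => ?_⟩
  show g3 (g2 (g1 (b x))) = c x
  rw [h5, h6, h7]

theorem Mv.refl (I : UInp k H A₀ g ζ) {φ : C(A, N)} (hφ : EqOn φ g A₀) : Mv H A₀ g ζ φ φ :=
  Mv.of_close I hφ hφ fun x => by rw [dist_self]; have := I.pos; linarith

/-- Along a path of maps. -/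
theorem Mv.of_path (I : UInp k H A₀ g ζ) {Φ : A → ℝ → N}
    (hΦ : ContinuousOn (fun p : A × ℝ => Φ p.1 p.2) (univ ×ˢ Icc (0 : ℝ) 1))
    (hΦg : ∀ x ∈ A₀, ∀ t ∈ Icc (0 : ℝ) 1, Φ x t = g x) {φ ψ : C(A, N)}
    (h0 : ∀ x, Φ x 0 = φ x) (h1 : ∀ x, Φ x 1 = ψ x) : Mv H A₀ g ζ φ ψ := by
  have hpos := I.pos
  have hcomp : IsCompact ((univ : Set A) ×ˢ Icc (0 : ℝ) 1) := isCompact_univ.prod isCompact_Icc
  have huc := hcomp.uniformContinuousOn_of_continuous hΦ
  obtain ⟨δ, hδ, hd⟩ := Metric.uniformContinuousOn_iff.1 huc (ζ / 2) (by linarith)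
  obtain ⟨m, hm⟩ := exists_nat_gt (1 / δ)
  have hmpos : (0 : ℝ) < m := lt_trans (by positivity) hm
  have hcont : ∀ t ∈ Icc (0 : ℝ) 1, Continuous fun x => Φ x t := by
    intro t ht
    rw [← continuousOn_univ]
    exact hΦ.comp (by fun_prop : Continuous fun x : A => (x, t)).continuousOn
      fun x _ => ⟨mem_univ _, ht⟩
  have key : ∀ j : ℕ, j ≤ m → ∀ ψ' : C(A, N), (∀ x, Φ x (j / m) = ψ' x) →
      Mv H A₀ g ζ φ ψ' := by
    intro j
    induction j with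
    | zero =>
      intro _ ψ' hψ'
      have hφψ : ∀ x, φ x = ψ' x := fun x => by
        rw [← h0 x, ← hψ' x, Nat.cast_zero, zero_div]
      have hφ : EqOn φ g A₀ := fun x hx => by rw [← h0 x]; exact hΦg x hx 0 (by simp)
      refine Mv.of_close I hφ (fun x hx => by rw [← hφψ x]; exact hφ hx) fun x => ?_
      rw [hφψ x, dist_self]
      linarith
    | succ j ih =>
      intro hj ψ' hψ'
      have hj1 : (j : ℝ) / m ∈ Icc (0 : ℝ) 1 :=
        ⟨by positivity, by rw [div_le_one hmpos]; exact_mod_cast (by omega : j ≤ m)⟩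
      have hj2 : ((j + 1 : ℕ) : ℝ) / m ∈ Icc (0 : ℝ) 1 :=
        ⟨by positivity, by rw [div_le_one hmpos]; exact_mod_cast hj⟩
      have e1 : EqOn (⟨fun x => Φ x (j / m), hcont _ hj1⟩ : C(A, N)) g A₀ :=
        fun x hx => hΦg x hx _ hj1
      refine Mv.trans I e1 (ih (by omega) ⟨fun x => Φ x (j / m), hcont _ hj1⟩ fun x => rfl) ?_
      refine Mv.of_close I e1 (fun x hx => by rw [← hψ' x]; exact hΦg x hx _ hj2) fun x => ?_
      rw [← hψ' x]
      refine hd (x, (j : ℝ) / m) ⟨mem_univ _, hj1⟩ (x, ((j + 1 : ℕ) : ℝ) / m) ⟨mem_univ _, hj2⟩ ?_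
      rw [Prod.dist_eq, dist_self, Real.dist_eq]
      refine max_lt hδ ?_
      rw [Nat.cast_succ, ← sub_div, abs_div, abs_of_pos hmpos,
        show (j : ℝ) - (j + 1) = -1 by ring, abs_neg, abs_one]
      exact (div_lt_comm₀ hδ hmpos).1 hm
  refine key m le_rfl ψ fun x => ?_
  rw [div_self hmpos.ne', h1]

/-- Change on one cell. -/
theorem Mv.of_cell (I : UInp k H A₀ g ζ) {φ φ' : C(A, N)} (hφg : EqOn φ g A₀) {C : Set A} (hC : IsClosed C) (hCA : Disjoint C A₀)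
    {p : A → (Fin k → ℝ)} (hp : ContinuousOn p C) (hpC : MapsTo p C (Cu k))
    {β β' : (Fin k → ℝ) → N} (hβ : ContinuousOn β (Cu k)) (hβ' : ContinuousOn β' (Cu k))
    (hββ : ∀ y ∈ dCu k, β y = β' y) (h1 : ∀ x ∈ C, φ x = β (p x))
    (h2 : ∀ x ∈ C, φ' x = β' (p x)) (h3 : ∀ x ∉ C, φ x = φ' x)
    (h4 : ∀ x ∈ C, x ∈ closure Cᶜ → p x ∈ dCu k) : Mv H A₀ g ζ φ φ' := by
  classical
  have hpos := I.pos
  obtain ⟨dₐ, hdₐ, hA⟩ := I.app (ζ / 8) (by linarith)
  obtain ⟨σ₀, hσ1, hσ2⟩ := exists_sphere_map hβ hβ' hββ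
  obtain ⟨σ, hσ, hσA, hσd⟩ := I.gps σ₀ (min dₐ (ζ / 8)) (lt_min hdₐ (by linarith))
  obtain ⟨O, hO, hσO, hrnd⟩ := I.rnd σ hσ hσA
  obtain ⟨ρ, hρ, hρO⟩ : ∃ ρ > 0, ∀ z y, dist y (σ z) < ρ → y ∈ O := by
    obtain ⟨ρ, hρ, h⟩ := (isCompact_range σ.continuous).exists_thickening_subset_open hO hσO
    exact ⟨ρ, hρ, fun z y hy => h (Metric.mem_thickening_iff.2 ⟨σ z, mem_range_self z, hy⟩)⟩
  -- the two halves of `σ`
  let up : (Fin k → ℝ) → N := fun y => if hy : y ∈ Cu k then σ ⟨(y, ht y), up_mem hy⟩ else β y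
  let dn : (Fin k → ℝ) → N := fun y => if hy : y ∈ Cu k then σ ⟨(y, -ht y), dn_mem hy⟩ else β y
  have hup : ∀ y (hy : y ∈ Cu k), up y = σ ⟨(y, ht y), up_mem hy⟩ := fun y hy => dif_pos hy
  have hdn : ∀ y (hy : y ∈ Cu k), dn y = σ ⟨(y, -ht y), dn_mem hy⟩ := fun y hy => dif_pos hy
  have cup : ContinuousOn up (Cu k) := by
    rw [continuousOn_iff_continuous_domRestrict]
    have : Continuous fun y : Cu k => σ ⟨((y : Fin k → ℝ), ht (y : Fin k → ℝ)), up_mem y.2⟩ := by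
      have := continuous_ht (k := k)
      fun_prop
    convert this using 2 with y
    exact hup y y.2
  have cdn : ContinuousOn dn (Cu k) := by
    rw [continuousOn_iff_continuous_domRestrict]
    have : Continuous fun y : Cu k => σ ⟨((y : Fin k → ℝ), -ht (y : Fin k → ℝ)), dn_mem y.2⟩ := by
      have := continuous_ht (k := k)
      fun_prop
    convert this using 2 with y
    exact hdn y y.2
  have hud : ∀ y ∈ dCu k, up y = dn y := by
    intro y hy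
    have h0 : ht y = 0 := ht_eq_zero.2 hy
    rw [hup y (MG.dCu_subset k hy), hdn y (MG.dCu_subset k hy)]
    congr 2
    rw [h0, neg_zero]
  have hupβ : ∀ y ∈ Cu k, dist (up y) (β y) < min dₐ (ζ / 8) := fun y hy => by
    rw [hup y hy, ← hσ1 y hy]; exact hσd _
  have hdnβ : ∀ y ∈ Cu k, dist (dn y) (β' y) < min dₐ (ζ / 8) := fun y hy => by
    rw [hdn y hy, ← hσ2 y hy]; exact hσd _
  have hA₀C : ∀ x ∈ A₀, x ∉ C := fun x hx hxC => disjoint_left.1 hCA hxC hx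
  -- the map `a`
  obtain ⟨a, ha1', ha2⟩ := hA φ (C ∪ A₀) (hC.union I.cl)
    (fun x => if x ∈ C then up (p x) else g x) (by
      refine ContinuousOn.union_of_isClosed ?_ ?_ hC I.cl
      · exact (cup.comp hp hpC).congr fun x hx => if_pos hx
      · exact g.continuous.continuousOn.congr fun x hx => if_neg (hA₀C x hx)) (fun x hx => by
      rcases hx with hx | hx
      · rw [if_pos hx, h1 x hx]; exact (hupβ _ (hpC hx)).trans_le (min_le_left _ _)
      · rw [if_neg (hA₀C x hx), hφg hx, dist_self]; exact hdₐ)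
  have ha1 : ∀ x ∈ C, a x = up (p x) := fun x hx => by
    rw [ha1' (Or.inl hx)]; exact if_pos hx
  have hag : EqOn a g A₀ := fun x hx => by
    rw [ha1' (Or.inr hx)]; exact if_neg (hA₀C x hx)
  set e₂ : ℝ := min (ρ / 2) (ζ / 8) with he₂
  have he₂0 : 0 < e₂ := lt_min (by linarith) (by linarith)
  obtain ⟨d₃, hd₃, hA3⟩ := I.app e₂ he₂0
  obtain ⟨b₀, hb₀, hb₀g, hb₀a⟩ := I.exists_zemb hag (e := min d₃ e₂) (lt_min hd₃ he₂0)
  -- the map `a'`
  set D : Set A := closure Cᶜ with hD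
  have hDc : IsClosed D := isClosed_closure
  have hCD : ∀ x, x ∈ C ∨ x ∈ D := fun x => by
    by_cases hx : x ∈ C
    · exact Or.inl hx
    · exact Or.inr (subset_closure hx)
  let f' : A → N := fun x => if x ∈ C then dn (p x) else a x
  have hf'D : ∀ x ∈ D, f' x = a x := by
    intro x hx
    by_cases hxC : x ∈ C
    · simp only [f', if_pos hxC]
      rw [← hud _ (h4 x hxC hx)]
      exact (ha1 x hxC).symm
    · simp only [f', if_neg hxC]
  have hf'C : ∀ x ∈ C, f' x = dn (p x) := fun x hx => by simp only [f', if_pos hx]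
  have cf' : Continuous f' := by
    rw [← continuousOn_univ, show (univ : Set A) = C ∪ D by
      ext x; simpa using hCD x]
    refine ContinuousOn.union_of_isClosed ?_ ?_ hC hDc
    · exact (cdn.comp hp hpC).congr hf'C
    · exact a.continuous.continuousOn.congr hf'D
  let a' : C(A, N) := ⟨f', cf'⟩
  have ha'φ : ∀ x, dist (a' x) (φ' x) < ζ / 8 := by
    intro x
    by_cases hx : x ∈ C
    · show dist (f' x) (φ' x) < ζ / 8
      rw [hf'C x hx, h2 x hx]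
      exact (hdnβ _ (hpC hx)).trans_le (min_le_right _ _)
    · show dist (f' x) (φ' x) < ζ / 8
      rw [hf'D x (subset_closure hx), ← h3 x hx]
      exact ha2 x
  obtain ⟨a'', ha''1, ha''2⟩ := hA3 a' D hDc b₀ b₀.continuous.continuousOn (fun x hx => by
    show dist (b₀ x) (f' x) < d₃
    rw [hf'D x hx]
    exact (hb₀a x).trans_le (min_le_left _ _))
  have hinj : InjOn a'' D := by
    intro x hx y hy hxy
    rw [ha''1 hx, ha''1 hy] at hxy
    exact hb₀.1 hxy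
  have himg : a'' '' D = b₀ '' D := ha''1.image_eq
  have hZ : ZS (a'' '' D) := by
    rw [himg]
    refine hb₀.2.mono ?_ (image_subset_range _ _)
    exact (hDc.isCompact.image b₀.continuous).isClosed
  obtain ⟨b₁, hb₁, hb₁1, hb₁2⟩ := I.gp a'' D hDc hinj hZ e₂ he₂0
  have hb₁b₀ : ∀ x ∈ D, b₁ x = b₀ x := fun x hx => by rw [hb₁1 hx, ha''1 hx]
  have hb₁g : EqOn b₁ g A₀ := fun x hx => by
    rw [hb₁b₀ x (subset_closure (hA₀C x hx))]; exact hb₀g hx
  obtain ⟨f, hf, hfb⟩ := hrnd C b₀ b₁ hC hCA hb₀ hb₁ hb₀g hb₁g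
    (fun x hx => (hb₁b₀ x (subset_closure hx)).symm) (fun x hx => by
    constructor
    · refine hρO ⟨(p x, ht (p x)), up_mem (hpC hx)⟩ _ ?_
      rw [← hup (p x) (hpC hx)]
      have h5 : dist (b₀ x) (a x) < e₂ := (hb₀a x).trans_le (min_le_right _ _)
      rw [ha1 x hx] at h5
      have h6 : e₂ ≤ ρ / 2 := min_le_left _ _
      linarith
    · refine hρO ⟨(p x, -ht (p x)), dn_mem (hpC hx)⟩ _ ?_
      rw [← hdn (p x) (hpC hx), ← hf'C x hx]
      have h5 : dist (b₁ x) (a'' x) < e₂ := hb₁2 x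
      have h6 : dist (a'' x) (f' x) < e₂ := ha''2 x
      have h7 : e₂ ≤ ρ / 2 := min_le_left _ _
      have h8 := dist_triangle (b₁ x) (a'' x) (f' x)
      linarith)
  have he₂' : e₂ ≤ ζ / 8 := min_le_right _ _
  intro b c hb hc hbg hcg hbφ hcφ
  obtain ⟨g0, hg0, hgb0⟩ := I.sme b b₀ hb hb₀ hbg hb₀g fun x => by
    have h5 := dist_triangle_right (b x) (b₀ x) (φ x)
    have h6 := dist_triangle (b₀ x) (a x) (φ x)
    have h7 : dist (b₀ x) (a x) < e₂ := (hb₀a x).trans_le (min_le_right _ _)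
    have := hbφ x; have := ha2 x
    linarith
  obtain ⟨g2, hg2, hgb2⟩ := I.sme b₁ c hb₁ hc hb₁g hcg fun x => by
    have h5 := dist_triangle_right (b₁ x) (c x) (φ' x)
    have h6 := dist_triangle (b₁ x) (a'' x) (φ' x)
    have h7 := dist_triangle (a'' x) (a' x) (φ' x)
    have := hb₁2 x; have := ha''2 x; have := ha'φ x; have := hcφ x
    linarith
  refine ⟨g2 * (f * g0), H.mul_mem hg2 (H.mul_mem hf hg0), fun x => ?_⟩
  show g2 (f (g0 (b x))) = c x
  rw [hgb0, hfb, hgb2]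

end mv

/-! ### Homotopies over a layer -/

section hep

variable {R N : Type*} [TopologicalSpace R] [T2Space R] [TopologicalSpace N] {k : ℕ}

open Classical in
/-- Homotopy extension for a layer of cells, with the formula on the cells. -/
theorem hep {m : ℕ} {χ : Fin m → (Fin k → ℝ) → R} {R₀ V : Set R}
    (hF : Fam (Cu k) (dCu k) R₀ V χ) (hR₀ : IsClosed R₀) {β : R → N}
    (hβ : ContinuousOn β V) {G : R → ℝ → N}
    (hG : ContinuousOn (fun p : R × ℝ => G p.1 p.2) (R₀ ×ˢ Icc (0 : ℝ) 1))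
    (h0 : ∀ y ∈ R₀, G y 0 = β y) :
    ∃ F : R → ℝ → N, ContinuousOn (fun p : R × ℝ => F p.1 p.2) (V ×ˢ Icc (0 : ℝ) 1) ∧
      (∀ y ∈ V, F y 0 = β y) ∧ (∀ y ∈ R₀, ∀ t ∈ Icc (0 : ℝ) 1, F y t = G y t) ∧
      ∀ i, ∀ x ∈ Cu k, ∀ t ∈ Icc (0 : ℝ) 1, F (χ i x) t =
        if (1 + t) * cN x ≤ 1 then β (χ i (cH (1 + t) x))
        else G (χ i (cH (1 / cN x) x)) ((1 + t) * cN x - 1) := by
  have hprod : Fam (Cu k ×ˢ Icc (0 : ℝ) 1) (dCu k ×ˢ Icc (0 : ℝ) 1) (R₀ ×ˢ Icc (0 : ℝ) 1)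
      (V ×ˢ Icc (0 : ℝ) 1) (fun (i : Fin m) (p : (Fin k → ℝ) × ℝ) => (χ i p.1, p.2)) := by
    refine ⟨fun i => ?_, fun i p hp => ⟨hF.bdry i hp.1, hp.2⟩, fun i p hp hp' h => ?_,
      fun i i' p p' hp hpA hp' hpA' h => ?_, ?_⟩
    · exact ((hF.cont i).comp continuousOn_fst fun p hp => hp.1).prodMk continuousOn_snd
    · exact hF.off i p.1 hp.1 (fun h1 => hp' ⟨h1, hp.2⟩) h.1
    · rw [Prod.mk.injEq] at h
      obtain ⟨h1, h2⟩ := hF.inj i i' p.1 p'.1 hp.1 (fun h1 => hpA ⟨h1, hp.2⟩) hp'.1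
        (fun h1 => hpA' ⟨h1, hp'.2⟩) h.1
      exact ⟨h1, Prod.ext h2 h.2⟩
    · ext p
      constructor
      · rintro ⟨hp1, hp2⟩
        rw [hF.union] at hp1
        rcases hp1 with hp1 | hp1
        · exact Or.inl ⟨hp1, hp2⟩
        · obtain ⟨i, x, hx, hxp⟩ := mem_iUnion.1 hp1
          exact Or.inr (mem_iUnion.2 ⟨i, (x, p.2), ⟨hx, hp2⟩, Prod.ext hxp rfl⟩)
      · rintro (⟨hp1, hp2⟩ | hp)
        · exact ⟨hF.subset hp1, hp2⟩
        · obtain ⟨i, x, hx, rfl⟩ := mem_iUnion.1 hp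
          exact ⟨hF.maps i hx.1, hx.2⟩
  -- the homotopy on one cell
  let g : Fin m → (Fin k → ℝ) × ℝ → N := fun i p =>
    if (1 + p.2) * cN p.1 ≤ 1 then β (χ i (cH (1 + p.2) p.1))
    else G (χ i (cH (1 / cN p.1) p.1)) ((1 + p.2) * cN p.1 - 1)
  have hg : ∀ i, ContinuousOn (g i) (Cu k ×ˢ Icc (0 : ℝ) 1) := by
    intro i
    have hcH : Continuous fun p : (Fin k → ℝ) × ℝ => cH (1 + p.2) p.1 := by
      unfold cH; fun_prop
    have hcN : Continuous fun p : (Fin k → ℝ) × ℝ => cN p.1 := continuous_cN.comp continuous_fst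
    set S1 : Set ((Fin k → ℝ) × ℝ) := {p | (1 + p.2) * cN p.1 ≤ 1} with hS1
    set S2 : Set ((Fin k → ℝ) × ℝ) := {p | 1 ≤ (1 + p.2) * cN p.1} with hS2
    have cS1 : IsClosed S1 := isClosed_le (by fun_prop) continuous_const
    have cS2 : IsClosed S2 := isClosed_le continuous_const (by fun_prop)
    have e1 : ContinuousOn (g i) (Cu k ×ˢ Icc (0 : ℝ) 1 ∩ S1) := by
      have h1 : ContinuousOn (fun p : (Fin k → ℝ) × ℝ => β (χ i (cH (1 + p.2) p.1)))
          (Cu k ×ˢ Icc (0 : ℝ) 1 ∩ S1) := by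
        have hm : MapsTo (fun p : (Fin k → ℝ) × ℝ => cH (1 + p.2) p.1)
            (Cu k ×ˢ Icc (0 : ℝ) 1 ∩ S1) (Cu k) := by
          intro p hp
          refine (mem_Cb_iff (x := cH (1 + p.2) p.1)).2 ?_
          rw [cN_cH (by have := hp.1.2.1; linarith)]
          exact hp.2
        exact hβ.comp ((hF.cont i).comp hcH.continuousOn hm) fun p hp => hF.maps i (hm hp)
      refine h1.congr fun p hp => ?_
      simp only [g, if_pos (show (1 + p.2) * cN p.1 ≤ 1 from hp.2)]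
    have hpos : ∀ p ∈ Cu k ×ˢ Icc (0 : ℝ) 1 ∩ S2, 0 < cN p.1 := by
      intro p hp
      have h1 : 1 ≤ (1 + p.2) * cN p.1 := hp.2
      by_contra hneg
      have h2 : cN p.1 = 0 := le_antisymm (not_lt.1 hneg) (cN_nonneg _)
      rw [h2, mul_zero] at h1
      linarith
    have hbd : ∀ p ∈ Cu k ×ˢ Icc (0 : ℝ) 1 ∩ S2, cH (1 / cN p.1) p.1 ∈ dCu k := by
      intro p hp
      have h1 := hpos p hp
      refine (mem_Bd_iff (x := cH (1 / cN p.1) p.1)).2 ?_
      rw [cN_cH (by positivity), one_div_mul_cancel h1.ne']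
    have e2 : ContinuousOn (g i) (Cu k ×ˢ Icc (0 : ℝ) 1 ∩ S2) := by
      have h1 : ContinuousOn (fun p : (Fin k → ℝ) × ℝ =>
          G (χ i (cH (1 / cN p.1) p.1)) ((1 + p.2) * cN p.1 - 1))
          (Cu k ×ˢ Icc (0 : ℝ) 1 ∩ S2) := by
        have hc1 : ContinuousOn (fun p : (Fin k → ℝ) × ℝ => cH (1 / cN p.1) p.1)
            (Cu k ×ˢ Icc (0 : ℝ) 1 ∩ S2) := by
          unfold cH
          have h2 : ContinuousOn (fun p : (Fin k → ℝ) × ℝ => 1 / cN p.1)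
              (Cu k ×ˢ Icc (0 : ℝ) 1 ∩ S2) :=
            continuousOn_const.div hcN.continuousOn fun p hp => (hpos p hp).ne'
          fun_prop
        have hc2 : ContinuousOn (fun p : (Fin k → ℝ) × ℝ =>
            (χ i (cH (1 / cN p.1) p.1), (1 + p.2) * cN p.1 - 1))
            (Cu k ×ˢ Icc (0 : ℝ) 1 ∩ S2) := by
          refine ContinuousOn.prodMk ((hF.cont i).comp hc1 fun p hp =>
            MG.dCu_subset k (hbd p hp)) ?_
          fun_prop
        refine hG.comp hc2 fun p hp => ⟨hF.bdry i (hbd p hp), ?_⟩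
        have h3 := (mem_Cb_iff (x := p.1)).1 hp.1.1
        have h4 := hp.1.2.1
        have h5 := hp.1.2.2
        have h6 : 1 ≤ (1 + p.2) * cN p.1 := hp.2
        refine ⟨by show 0 ≤ (1 + p.2) * cN p.1 - 1; linarith, ?_⟩
        show (1 + p.2) * cN p.1 - 1 ≤ 1
        nlinarith [cN_nonneg p.1]
      refine h1.congr fun p hp => ?_
      by_cases h2 : (1 + p.2) * cN p.1 ≤ 1
      · have h3 : (1 + p.2) * cN p.1 = 1 := le_antisymm h2 hp.2
        have h4 := hpos p hp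
        have h5 : 1 + p.2 = 1 / cN p.1 := by rw [eq_div_iff h4.ne']; exact h3
        simp only [g, if_pos h2]
        rw [h3, sub_self, h0 _ (hF.bdry i (hbd p hp)), h5]
      · simp only [g, if_neg h2]
    have h3 : Cu k ×ˢ Icc (0 : ℝ) 1 = (Cu k ×ˢ Icc (0 : ℝ) 1 ∩ S1) ∪
        (Cu k ×ˢ Icc (0 : ℝ) 1 ∩ S2) := by
      ext p
      constructor
      · intro hp
        rcases le_total ((1 + p.2) * cN p.1) 1 with h5 | h5
        · exact Or.inl ⟨hp, h5⟩
        · exact Or.inr ⟨hp, h5⟩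
      · rintro (hp | hp) <;> exact hp.1
    have cB : IsClosed (Cu k ×ˢ Icc (0 : ℝ) 1) := (MG.isClosed_Cu k).prod isClosed_Icc
    rw [h3]
    exact e1.union_of_isClosed e2 (cB.inter cS1) (cB.inter cS2)
  have hgG : ∀ i, ∀ p ∈ dCu k ×ˢ Icc (0 : ℝ) 1,
      g i p = (fun z : R × ℝ => G z.1 z.2) (χ i p.1, p.2) := by
    intro i p hp
    have h1 : cN p.1 = 1 := mem_Bd_iff.1 hp.1
    have h2 := hp.2.1
    by_cases h3 : (1 + p.2) * cN p.1 ≤ 1
    · have h4 : p.2 = 0 := by rw [h1] at h3; linarith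
      simp only [g, if_pos h3]
      rw [h4, add_zero, cH_one, h0 _ (hF.bdry i hp.1)]
    · simp only [g, if_neg h3]
      rw [h1, div_one, cH_one]
      congr 1
      ring
  obtain ⟨F, hF1, hF2, hF3⟩ := hprod.glue ((MG.isCompact_Cu k).prod isCompact_Icc)
    (hR₀.prod isClosed_Icc) (F0 := fun z : R × ℝ => G z.1 z.2) hG hg hgG
  refine ⟨fun y t => F (y, t), hF1, ?_, ?_, fun i x hx t ht => hF3 i (x, t) ⟨hx, ht⟩⟩
  · intro y hy
    show F (y, 0) = β y
    by_cases hyR : y ∈ R₀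
    · rw [hF2 (show (y, (0 : ℝ)) ∈ R₀ ×ˢ Icc (0 : ℝ) 1 from ⟨hyR, by simp⟩)]
      exact h0 y hyR
    · obtain ⟨i, x, hx, -, rfl⟩ := hF.exists_rep hy hyR
      have h1 := hF3 i (x, 0) ⟨hx, by simp⟩
      simp only at h1
      show F (χ i x, 0) = β (χ i x)
      rw [h1]
      have h2 : (1 + (0 : ℝ)) * cN x ≤ 1 := by
        have := (mem_Cb_iff (x := x)).1 hx
        linarith
      simp only [g, if_pos h2]
      rw [add_zero, cH_one]
  · intro y hy t ht
    exact hF2 (show (y, t) ∈ R₀ ×ˢ Icc (0 : ℝ) 1 from ⟨hy, ht⟩)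

end hep

/-! ### The theorem -/

section main

variable {k : ℕ} {A N : Type*} [MetricSpace A] [CompactSpace A] [MetricSpace N] [CompactSpace N]
  {H : Subgroup (N ≃ₜ N)} {A₀ : Set A} {g : C(A, N)} {ζ : ℝ}
  {R : Type*} [MetricSpace R] [CompactSpace R] {m : ℕ} {χ : Fin m → (Fin k → ℝ) → R} {R₀ : Set R}

/-- the inner cube of a cell is embedded -/
lemma inner_inj (hF : Fam (Cu k) (dCu k) R₀ univ χ) (i : Fin m) :
    InjOn (fun y => χ i (cH (1 / 2) y)) (Cu k) ∧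
      ∀ y ∈ Cu k, cH (1 / 2) y ∈ Cu k ∧ cH (1 / 2) y ∉ dCu k := by
  have h1 : ∀ y ∈ Cu k, cH (1 / 2) y ∈ Cu k ∧ cH (1 / 2) y ∉ dCu k := by
    intro y hy
    have h2 : cN (cH (1 / 2) y) = 1 / 2 * cN y := cN_cH (by norm_num) y
    have h3 : cN y ≤ 1 := mem_Cb_iff.1 hy
    constructor
    · refine (mem_Cb_iff (x := cH (1 / 2) y)).2 ?_
      linarith
    · intro h4
      have h5 : cN (cH (1 / 2) y) = 1 := mem_Bd_iff.1 h4
      linarith
  refine ⟨?_, h1⟩
  intro y hy y' hy' h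
  obtain ⟨-, h2⟩ := hF.inj i i _ _ (h1 y hy).1 (h1 y hy).2 (h1 y' hy').1 (h1 y' hy').2 h
  unfold cH at h2
  have h3 := add_left_cancel h2
  have h4 : y - (fun _ => (1 / 2 : ℝ)) = y' - fun _ => (1 / 2 : ℝ) :=
    smul_right_injective _ (by norm_num : (1 / 2 : ℝ) ≠ 0) h3
  exact sub_left_injective h4

lemma cH_cH (a b : ℝ) (y : Fin k → ℝ) : cH a (cH b y) = cH (a * b) y := by
  unfold cH
  rw [add_sub_cancel_left, smul_smul]

lemma continuous_cH (a : ℝ) : Continuous (cH a : (Fin k → ℝ) → (Fin k → ℝ)) := by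
  unfold cH; fun_prop

/-- One step: two maps which differ only inside the inner cube of one cell. -/
theorem Mv.of_inner (I : UInp k H A₀ g ζ) (hF : Fam (Cu k) (dCu k) R₀ univ χ)
    (hR₀ : IsClosed R₀) (q : C(A, R)) (hqA : ∀ x ∈ A₀, q x ∈ R₀) (i : Fin m)
    {δ δ' : C(R, N)} (hδg : ∀ x ∈ A₀, δ (q x) = g x)
    (h : ∀ y, (∀ z ∈ Cu k, cN z < 1 / 2 → y ≠ χ i z) → δ y = δ' y) :
    Mv H A₀ g ζ (δ.comp q) (δ'.comp q) := by
  classical
  obtain ⟨hinj, hin⟩ := inner_inj hF i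
  set θ : (Fin k → ℝ) → R := fun y => χ i (cH (1 / 2) y) with hθ
  have cθ : ContinuousOn θ (Cu k) :=
    (hF.cont i).comp (continuous_cH (1 / 2)).continuousOn fun y hy => (hin y hy).1
  have hθc : IsClosed (θ '' Cu k) := ((MG.isCompact_Cu k).image_of_continuousOn cθ).isClosed
  -- the inverse
  set ι : R → (Fin k → ℝ) := Function.invFunOn θ (Cu k) with hι
  have hι1 : ∀ y ∈ θ '' Cu k, ι y ∈ Cu k ∧ θ (ι y) = y := fun y hy =>
    ⟨Function.invFunOn_mem hy, Function.invFunOn_eq hy⟩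
  have hι2 : ∀ y ∈ Cu k, ι (θ y) = y := fun y hy =>
    hinj (hι1 _ ⟨y, hy, rfl⟩).1 hy (hι1 _ ⟨y, hy, rfl⟩).2
  have cι : ContinuousOn ι (θ '' Cu k) :=
    MG.continuousOn_image_of_compact (MG.isCompact_Cu k) cθ
      (continuousOn_id.congr fun y hy => hι2 y hy)
  set C : Set A := q ⁻¹' (θ '' Cu k) with hC
  -- a point of the inner open cube
  have hsmall : ∀ z ∈ Cu k, cN z < 1 / 2 → χ i z ∈ θ '' Cu k := by
    intro z hz hz2
    refine ⟨cH 2 z, ?_, ?_⟩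
    · refine (mem_Cb_iff (x := cH 2 z)).2 ?_
      rw [cN_cH (by norm_num)]
      linarith
    · show χ i (cH (1 / 2) (cH 2 z)) = χ i z
      rw [cH_cH, show (1 / 2 : ℝ) * 2 = 1 by norm_num, cH_one]
  refine Mv.of_cell I (C := C) (p := fun x => ι (q x)) (β := fun y => δ (θ y))
    (β' := fun y => δ' (θ y)) (fun x hx => hδg x hx) (hθc.preimage q.continuous) ?_ ?_ ?_ ?_ ?_
    ?_ ?_ ?_ ?_ ?_
  · rw [disjoint_left]
    rintro x ⟨y, hy, hyx⟩ hxA
    have h1 : q x ∈ R₀ := hqA x hxA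
    rw [← hyx] at h1
    exact hF.off i _ (hin y hy).1 (hin y hy).2 h1
  · exact cι.comp q.continuous.continuousOn fun x hx => hx
  · exact fun x hx => (hι1 _ hx).1
  · exact δ.continuous.comp_continuousOn cθ
  · exact δ'.continuous.comp_continuousOn cθ
  · intro y hy
    refine h (θ y) fun z hz hz2 he => ?_
    have hzd : z ∉ dCu k := fun hz3 => by
      have h5 : cN z = 1 := mem_Bd_iff.1 hz3
      linarith
    have hyC : y ∈ Cu k := MG.dCu_subset k hy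
    obtain ⟨-, h6⟩ := hF.inj i i _ _ (hin y hyC).1 (hin y hyC).2 hz hzd he
    have h7 : cN (cH (1 / 2) y) = 1 / 2 * cN y := cN_cH (by norm_num) y
    have h8 : cN y = 1 := mem_Bd_iff.1 hy
    rw [h6, h8] at h7
    linarith
  · intro x hx
    show δ (q x) = δ (θ (ι (q x)))
    rw [(hι1 _ hx).2]
  · intro x hx
    show δ' (q x) = δ' (θ (ι (q x)))
    rw [(hι1 _ hx).2]
  · intro x hx
    exact h (q x) fun z hz hz2 he => hx (show q x ∈ θ '' Cu k by rw [he]; exact hsmall z hz hz2)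
  · intro x hx hxc
    by_contra hpd
    -- the closed set of the complement of the inner open cube
    set E : Set R := R₀ ∪ ⋃ i' : Fin m, χ i' '' (if i' = i then Cu k ∩ {z | 1 / 2 ≤ cN z}
      else Cu k) with hE
    have hEc : IsClosed E := by
      refine hR₀.union (isClosed_iUnion_of_finite fun i' => ?_)
      have h1 : IsCompact (if i' = i then Cu k ∩ {z | 1 / 2 ≤ cN z} else Cu k) := by
        split_ifs
        · exact (MG.isCompact_Cu k).inter_right (isClosed_le continuous_const continuous_cN)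
        · exact MG.isCompact_Cu k
      refine (h1.image_of_continuousOn ((hF.cont i').mono ?_)).isClosed
      split_ifs
      · exact inter_subset_left
      · exact subset_rfl
    have hxE : q x ∉ E := by
      have h1 := (hι1 _ hx).1
      have h2 := (hι1 _ hx).2
      have h3 := hin _ h1
      have h4 : cN (cH (1 / 2) (ι (q x))) < 1 / 2 := by
        rw [cN_cH (by norm_num)]
        have h5 : cN (ι (q x)) ≤ 1 := mem_Cb_iff.1 h1
        have h6 : cN (ι (q x)) ≠ 1 := fun h7 => hpd (mem_Bd_iff.2 h7)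
        have h7 : cN (ι (q x)) < 1 := lt_of_le_of_ne h5 h6
        linarith
      rintro (h5 | h5)
      · rw [← h2] at h5
        exact hF.off i _ h3.1 h3.2 h5
      · obtain ⟨i', z, hz, hzx⟩ := mem_iUnion.1 h5
        have hzC : z ∈ Cu k := by
          by_cases h6 : i' = i
          · rw [if_pos h6] at hz; exact hz.1
          · rw [if_neg h6] at hz; exact hz
        have h6 : χ i' z = χ i (cH (1 / 2) (ι (q x))) := by rw [hzx]; exact h2.symm
        have hzd : z ∉ dCu k := by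
          intro h7
          have h8 := hF.bdry i' h7
          rw [h6] at h8
          exact hF.off i _ h3.1 h3.2 h8
        obtain ⟨h7, h8⟩ := hF.inj i' i _ _ hzC hzd h3.1 h3.2 h6
        rw [if_pos h7] at hz
        have h9 : 1 / 2 ≤ cN z := hz.2
        rw [h8] at h9
        linarith
    have hopen : IsOpen (q ⁻¹' Eᶜ) := hEc.isOpen_compl.preimage q.continuous
    obtain ⟨x', hx'1, hx'2⟩ := mem_closure_iff.1 hxc _ hopen hxE
    apply hx'2
    have h1 : q x' ∉ E := hx'1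
    obtain ⟨i', z, hz, hzd, hzx⟩ := hF.exists_rep (mem_univ (q x')) fun h2 => h1 (Or.inl h2)
    by_cases h2 : i' = i
    · have h3 : cN z < 1 / 2 := by
        by_contra h4
        exact h1 (Or.inr (mem_iUnion.2 ⟨i', z, by rw [if_pos h2]; exact ⟨hz, not_lt.1 h4⟩, hzx⟩))
      show q x' ∈ θ '' Cu k
      rw [← hzx, h2]
      exact hsmall z hz h3
    · exact (h1 (Or.inr (mem_iUnion.2 ⟨i', z, by rw [if_neg h2]; exact hz, hzx⟩))).elim

/-- **8.3, formal part.** Two Z-embeddings close to `β₀ q` and `β₁ q`, where `β₀`, `β₁` are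
homotopic on `R₀`, differ by an element of `H`. -/
theorem unknot (I : UInp k H A₀ g ζ) (hF : Fam (Cu k) (dCu k) R₀ univ χ)
    (hR₀ : IsClosed R₀) (q : C(A, R)) (hqA : ∀ x ∈ A₀, q x ∈ R₀) (β₀ β₁ : C(R, N))
    {G : R → ℝ → N} (hG : ContinuousOn (fun p : R × ℝ => G p.1 p.2) (R₀ ×ˢ Icc (0 : ℝ) 1))
    (hG0 : ∀ y ∈ R₀, G y 0 = β₀ y) (hG1 : ∀ y ∈ R₀, G y 1 = β₁ y)
    (hGg : ∀ x ∈ A₀, ∀ t ∈ Icc (0 : ℝ) 1, G (q x) t = g x)
    {g₀ g₁ : C(A, N)} (hg₀ : ZEmb g₀) (hg₁ : ZEmb g₁) (hg₀g : EqOn g₀ g A₀)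
    (hg₁g : EqOn g₁ g A₀) (h₀ : ∀ x, dist (g₀ x) (β₀ (q x)) < ζ / 2)
    (h₁ : ∀ x, dist (g₁ x) (β₁ (q x)) < ζ / 2) : ∃ h ∈ H, ∀ x, h (g₀ x) = g₁ x := by
  classical
  have h01 : (0 : ℝ) ∈ Icc (0 : ℝ) 1 := by simp
  have h11 : (1 : ℝ) ∈ Icc (0 : ℝ) 1 := by simp
  have hcont1 : ∀ F : R → ℝ → N, ContinuousOn (fun p : R × ℝ => F p.1 p.2)
      (univ ×ˢ Icc (0 : ℝ) 1) → Continuous fun y => F y 1 := by
    intro F hFc
    rw [← continuousOn_univ]
    exact hFc.comp (by fun_prop : Continuous fun y : R => (y, (1 : ℝ))).continuousOn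
      fun y _ => ⟨mem_univ _, h11⟩
  have hpath : ∀ F : R → ℝ → N, ContinuousOn (fun p : R × ℝ => F p.1 p.2)
      (univ ×ˢ Icc (0 : ℝ) 1) → ContinuousOn (fun p : A × ℝ => F (q p.1) p.2)
      (univ ×ˢ Icc (0 : ℝ) 1) := by
    intro F hFc
    exact hFc.comp (by fun_prop : Continuous fun p : A × ℝ => (q p.1, p.2)).continuousOn
      fun p hp => ⟨mem_univ _, hp.2⟩
  -- step A
  obtain ⟨F, cF, hF0, hFG, -⟩ := hep hF hR₀ (β := β₀) β₀.continuous.continuousOn hG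
    (fun y hy => hG0 y hy)
  let β₀' : C(R, N) := ⟨fun y => F y 1, hcont1 F cF⟩
  have hβ₀' : ∀ y ∈ R₀, β₀' y = β₁ y := fun y hy => by
    show F y 1 = β₁ y
    rw [hFG y hy 1 h11, hG1 y hy]
  have hβ₀g : ∀ x ∈ A₀, β₀ (q x) = g x := fun x hx => by
    rw [← hG0 _ (hqA x hx)]; exact hGg x hx 0 h01
  have hβ₁g : ∀ x ∈ A₀, β₁ (q x) = g x := fun x hx => by
    rw [← hG1 _ (hqA x hx)]; exact hGg x hx 1 h11
  have hβ₀g' : ∀ x ∈ A₀, β₀' (q x) = g x := fun x hx => by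
    rw [hβ₀' _ (hqA x hx)]; exact hβ₁g x hx
  have MA : Mv H A₀ g ζ (β₀.comp q) (β₀'.comp q) :=
    Mv.of_path I (Φ := fun x t => F (q x) t) (hpath F cF)
      (fun x hx t ht => by rw [hFG _ (hqA x hx) t ht]; exact hGg x hx t ht)
      (fun x => hF0 _ (mem_univ _)) fun x => rfl
  -- step B
  have hB : ∀ β : C(R, N), ∃ γ : C(R, N), (∀ y ∈ R₀, γ y = β y) ∧
      (∀ i, ∀ x ∈ Cu k, γ (χ i x) = if (1 + 1) * cN x ≤ 1 then β (χ i (cH (1 + 1) x))
        else β (χ i (cH (1 / cN x) x))) ∧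
      ((∀ x ∈ A₀, β (q x) = g x) → Mv H A₀ g ζ (β.comp q) (γ.comp q)) := by
    intro β
    obtain ⟨F', cF', h1, h2, h3⟩ := hep hF hR₀ (β := β) β.continuous.continuousOn
      (G := fun y _ => β y) (β.continuous.comp continuous_fst).continuousOn (fun y _ => rfl)
    refine ⟨⟨fun y => F' y 1, hcont1 F' cF'⟩, fun y hy => h2 y hy 1 h11,
      fun i x hx => h3 i x hx 1 h11, fun hg => ?_⟩
    exact Mv.of_path I (Φ := fun x t => F' (q x) t) (hpath F' cF')
      (fun x hx t ht => by rw [h2 _ (hqA x hx) t ht]; exact hg x hx)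
      (fun x => h1 _ (mem_univ _)) fun x => rfl
  obtain ⟨γ₀, hγ₀1, hγ₀2, hγ₀3⟩ := hB β₀'
  obtain ⟨γ₁, hγ₁1, hγ₁2, hγ₁3⟩ := hB β₁
  have hγR : ∀ y ∈ R₀, γ₀ y = γ₁ y := fun y hy => by rw [hγ₀1 y hy, hγ₁1 y hy, hβ₀' y hy]
  have hγc : ∀ i, ∀ x ∈ Cu k, ¬ cN x < 1 / 2 → γ₀ (χ i x) = γ₁ (χ i x) := by
    intro i x hx hx2
    have hx3 : 1 / 2 ≤ cN x := not_lt.1 hx2
    rw [hγ₀2 i x hx, hγ₁2 i x hx]
    by_cases h1 : (1 + 1) * cN x ≤ 1
    · rw [if_pos h1, if_pos h1]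
      refine hβ₀' _ (hF.bdry i (mem_Bd_iff.2 ?_))
      rw [cN_cH (by norm_num)]
      linarith
    · rw [if_neg h1, if_neg h1]
      refine hβ₀' _ (hF.bdry i (mem_Bd_iff.2 ?_))
      have h2 : 0 < cN x := by linarith
      rw [cN_cH (by positivity), one_div_mul_cancel h2.ne']
  -- step C
  have hC : ∀ j : ℕ, ∃ δ : C(R, N), (∀ y ∈ R₀, δ y = γ₀ y) ∧
      ∀ i : Fin m, ∀ x ∈ Cu k, δ (χ i x) = if (i : ℕ) < j then γ₁ (χ i x) else γ₀ (χ i x) := by
    intro j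
    obtain ⟨δ, h1, h2, h3⟩ := hF.glue (MG.isCompact_Cu k) hR₀ (F0 := γ₀)
      γ₀.continuous.continuousOn
      (G := fun (i : Fin m) x => if (i : ℕ) < j then γ₁ (χ i x) else γ₀ (χ i x))
      (fun i => by
        by_cases h1 : (i : ℕ) < j
        · simp only [if_pos h1]
          exact γ₁.continuous.comp_continuousOn (hF.cont i)
        · simp only [if_neg h1]
          exact γ₀.continuous.comp_continuousOn (hF.cont i)) (fun i x hx => by
        by_cases h1 : (i : ℕ) < j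
        · simp only [if_pos h1]
          exact (hγR _ (hF.bdry i hx)).symm
        · simp only [if_neg h1])
    exact ⟨⟨δ, continuousOn_univ.1 h1⟩, fun y hy => h2 hy, h3⟩
  choose δ hδ1 hδ2 using hC
  have hδg : ∀ j, ∀ x ∈ A₀, δ j (q x) = g x := fun j x hx => by
    rw [hδ1 j _ (hqA x hx), hγ₀1 _ (hqA x hx)]; exact hβ₀g' x hx
  have hstep : ∀ j, j < m → Mv H A₀ g ζ ((δ j).comp q) ((δ (j + 1)).comp q) := by
    intro j hj
    refine Mv.of_inner I hF hR₀ q hqA ⟨j, hj⟩ (hδg j) fun y hy => ?_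
    by_cases hyR : y ∈ R₀
    · rw [hδ1 j y hyR, hδ1 (j + 1) y hyR]
    · obtain ⟨i, x, hx, -, rfl⟩ := hF.exists_rep (mem_univ y) hyR
      rw [hδ2 j i x hx, hδ2 (j + 1) i x hx]
      rcases lt_trichotomy (i : ℕ) j with h1 | h1 | h1
      · rw [if_pos h1, if_pos (by omega)]
      · rw [if_neg (by omega), if_pos (by omega)]
        refine hγc i x hx fun h2 => ?_
        have h3 : i = ⟨j, hj⟩ := Fin.ext h1
        exact hy x hx h2 (by rw [h3])
      · rw [if_neg (by omega), if_neg (by omega)]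
  have hchain : ∀ j, j ≤ m → Mv H A₀ g ζ ((δ 0).comp q) ((δ j).comp q) := by
    intro j
    induction j with
    | zero => exact fun _ => Mv.refl I fun x hx => hδg 0 x hx
    | succ j ih =>
      intro hj
      exact Mv.trans I (fun x hx => hδg j x hx) (ih (by omega)) (hstep j (by omega))
  have hδ0 : (δ 0).comp q = γ₀.comp q := by
    ext x
    show δ 0 (q x) = γ₀ (q x)
    by_cases hyR : q x ∈ R₀
    · exact hδ1 0 _ hyR
    · obtain ⟨i, z, hz, -, hzx⟩ := hF.exists_rep (mem_univ (q x)) hyR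
      rw [← hzx, hδ2 0 i z hz, if_neg (Nat.not_lt_zero _)]
  have hδm : (δ m).comp q = γ₁.comp q := by
    ext x
    show δ m (q x) = γ₁ (q x)
    by_cases hyR : q x ∈ R₀
    · rw [hδ1 m _ hyR]; exact hγR _ hyR
    · obtain ⟨i, z, hz, -, hzx⟩ := hF.exists_rep (mem_univ (q x)) hyR
      rw [← hzx, hδ2 m i z hz, if_pos i.2]
  have MC := hchain m le_rfl
  rw [hδ0, hδm] at MC
  have M1 := Mv.trans I (fun x hx => hβ₀g' x hx) MA (hγ₀3 hβ₀g')
  have e2 : ∀ x ∈ A₀, γ₀ (q x) = g x := fun x hx => by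
    rw [hγ₀1 _ (hqA x hx)]; exact hβ₀g' x hx
  have e3 : ∀ x ∈ A₀, γ₁ (q x) = g x := fun x hx => by
    rw [hγ₁1 _ (hqA x hx)]; exact hβ₁g x hx
  have M2 := Mv.trans I (fun x hx => e2 x hx) M1 MC
  have M3 := Mv.trans I (fun x hx => e3 x hx) M2 (hγ₁3 hβ₁g).symm
  exact M3 g₀ g₁ hg₀ hg₁ hg₀g hg₁g h₀ h₁

end main

end Unk

end Pool.Agent.Work.MP_017613_gt
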