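import Pool.Agent.Work.MP_017613_gt.Sph
import Pool.Agent.Work.MP_017613_gt.Chi0
import Pool.Agent.Work.MP_017613_gt.Unknot

/-!
The `k`-sphere `Unk.Sk k`, the double of the `k`-cube along its boundary: it has dimension at most
`k` and is an absolute extensor for compacta of dimension at most `k`.
-/

set_option linter.unusedSectionVars false

open Set Topology Metric

namespace Pool.Agent.Work.MP_017613_gt

namespace Unk

open MG (Cu dCu)

variable {k : ℕ}

theorem Sk_eq : Sk k = (fun x => (x, ht x)) '' Cu k ∪ (fun x => (x, -ht x)) '' Cu k := by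
  ext ⟨x, s⟩
  constructor
  · intro h
    have h1 : |s| + ‖x - fun _ => (1 / 2 : ℝ)‖ = 1 / 2 := h
    have h2 : x ∈ Cu k := fst_mem h
    rcases le_total 0 s with hs | hs
    · left
      refine ⟨x, h2, ?_⟩
      rw [abs_of_nonneg hs] at h1
      unfold ht
      rw [Prod.mk.injEq]
      exact ⟨rfl, by linarith⟩
    · right
      refine ⟨x, h2, ?_⟩
      rw [abs_of_nonpos hs] at h1
      unfold ht
      rw [Prod.mk.injEq]
      exact ⟨rfl, by linarith⟩
  · rintro (⟨y, hy, he⟩ | ⟨y, hy, he⟩)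
    · rw [← he]
      exact up_mem hy
    · rw [← he]
      exact dn_mem hy

theorem pushOff_Cu : PushOff k (Cu k) :=
  pushOff_of_finrank (by simp) (MG.isCompact_Cu k)

theorem pushOff_Sk : PushOff k (Sk k) := by
  have c1 : Continuous fun x : Fin k → ℝ => (x, ht x) := continuous_id.prodMk continuous_ht
  have c2 : Continuous fun x : Fin k → ℝ => (x, -ht x) := continuous_id.prodMk continuous_ht.neg
  rw [Sk_eq]
  exact PushOff.union
    (pushOff_Cu.image (MG.isCompact_Cu k) c1.continuousOn fun x _ y _ h => congrArg Prod.fst h)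
    (pushOff_Cu.image (MG.isCompact_Cu k) c2.continuousOn fun x _ y _ h => congrArg Prod.fst h)
    ((MG.isCompact_Cu k).image c1) ((MG.isCompact_Cu k).image c2)

/-- the `k`-sphere is an absolute extensor for compacta of dimension at most `k` -/
theorem Sk_extend {γ : Type*} [MetricSpace γ] {P A : Set γ} (hP : PushOff k P) (cA : IsCompact A)
    {f : γ → (Fin k → ℝ) × ℝ} (hf : ContinuousOn f A) (hm : MapsTo f A (Sk k)) :
    ∃ F : γ → (Fin k → ℝ) × ℝ, ContinuousOn F P ∧ MapsTo F P (Sk k) ∧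
      ∀ x ∈ P, x ∈ A → F x = f x := by
  set c : Fin k → ℝ := fun _ => (1 / 2 : ℝ) with hc
  -- the identification with `R^(k+1)`
  let e : (Fin k → ℝ) × ℝ → (Fin (k + 1) → ℝ) := fun p => Fin.snoc (p.1 - c) p.2
  let d : (Fin (k + 1) → ℝ) → (Fin k → ℝ) × ℝ := fun v => (fun i => v i.castSucc, v (Fin.last k))
  have he : Continuous e := by
    refine continuous_pi fun i => ?_
    refine Fin.lastCases ?_ (fun j => ?_) i
    · simp only [e, Fin.snoc_last]
      fun_prop
    · simp only [e, Fin.snoc_castSucc, Pi.sub_apply]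
      fun_prop
  have hd : Continuous d := by
    simp only [d]
    fun_prop
  have hde : ∀ p, d (e p) = (p.1 - c, p.2) := by
    intro p
    simp only [d, e, Fin.snoc_last, Fin.snoc_castSucc]
  have hN : ∀ v, v ≠ 0 → 0 < |(d v).2| + ‖(d v).1‖ := by
    intro v hv
    by_contra hc
    have h1 : ‖(d v).1‖ = 0 := le_antisymm (by linarith [abs_nonneg (d v).2]) (norm_nonneg _)
    have h2 : |(d v).2| = 0 := le_antisymm (by linarith [norm_nonneg (d v).1]) (abs_nonneg _)
    refine hv (funext fun i => ?_)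
    refine Fin.lastCases ?_ (fun j => ?_) i
    · exact abs_eq_zero.1 h2
    · exact congrFun (norm_eq_zero.1 h1) j
  obtain ⟨G, cG, eG, G0⟩ := hP.extend_ne cA (f := fun x => e (f x)) (he.comp_continuousOn hf)
    (fun x hx h => by
      have h1 : |(f x).2| + ‖(f x).1 - c‖ = 1 / 2 := hm hx
      have h2 := hde (f x)
      rw [h] at h2
      have h3 : d 0 = (0, 0) := by
        simp only [d, Pi.zero_apply]
        rfl
      rw [h3, Prod.mk.injEq] at h2
      rw [← h2.1, ← h2.2, norm_zero, abs_zero] at h1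
      norm_num at h1)
  have cd : ContinuousOn (fun x => d (G x)) P := hd.comp_continuousOn cG
  have cn : ContinuousOn (fun x => (|(d (G x)).2| + ‖(d (G x)).1‖)⁻¹) P := by
    refine ContinuousOn.inv₀ ?_ fun x hx => (hN _ (G0 x hx)).ne'
    exact cd.snd.abs.add cd.fst.norm
  refine ⟨fun x => (c + ((1 / 2) * (|(d (G x)).2| + ‖(d (G x)).1‖)⁻¹) • (d (G x)).1,
    ((1 / 2) * (|(d (G x)).2| + ‖(d (G x)).1‖)⁻¹) * (d (G x)).2), ?_, ?_, ?_⟩
  · exact (continuousOn_const.add ((continuousOn_const.mul cn).smul cd.fst)).prodMk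
      ((continuousOn_const.mul cn).mul cd.snd)
  · intro x hx
    have h1 := hN _ (G0 x hx)
    change |((1 / 2) * (|(d (G x)).2| + ‖(d (G x)).1‖)⁻¹) * (d (G x)).2| +
      ‖c + ((1 / 2) * (|(d (G x)).2| + ‖(d (G x)).1‖)⁻¹) • (d (G x)).1 - c‖ = 1 / 2
    rw [add_sub_cancel_left, norm_smul, abs_mul, Real.norm_eq_abs, abs_of_pos (by positivity),
      ← mul_add]
    field_simp
  · intro x hx hxA
    have h1 : |(f x).2| + ‖(f x).1 - c‖ = 1 / 2 := hm hxA
    change (c + ((1 / 2) * (|(d (G x)).2| + ‖(d (G x)).1‖)⁻¹) • (d (G x)).1,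
      ((1 / 2) * (|(d (G x)).2| + ‖(d (G x)).1‖)⁻¹) * (d (G x)).2) = f x
    rw [eG x hx hxA, hde]
    simp only [h1]
    norm_num

end Unk

end Pool.Agent.Work.MP_017613_gt
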