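import Pool.Agent.Work.MP_017613_gt.Gp
import Pool.Agent.Work.MP_017613_gt.SphK
import Pool.Agent.Work.MP_017613_gt.DiscC

/-!
Existence of round balls: a thin Menger manifold `p(Y)` which contains a given Z-set in its
interior and whose frontier is the image of a given Menger manifold `B`.
-/

set_option linter.unusedSectionVars false

open Set Topology Metric

namespace Pool.Agent.Work.MP_017613_gt

namespace Ball

variable (k : ℕ) (Men : ∀ (N : Type) [MetricSpace N] [CompactSpace N], Prop)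

/-- attaching a collar along a Z-embedding gives a Menger manifold with a soft collapse -/
def Attach : Prop :=
  ∀ (R Y B : Type) [MetricSpace R] [CompactSpace R] [MetricSpace Y] [CompactSpace Y]
    [MetricSpace B] [CompactSpace B], Men R → Men Y → Men B →
  ∀ (j : C(B, R)) (b : C(B, Y)) (ρ : C(Y, B)), Function.Injective j → ZS (range j) →
    ZS (range b) → Chi.Soft k univ univ ρ → (∀ x, ρ (b x) = x) →
  ∃ (D : Type) (_ : MetricSpace D) (_ : CompactSpace D) (J : C(R, D)) (χ : C(Y, D)) (c : C(D, R)),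
    Men D ∧ Function.Injective J ∧ Function.Injective χ ∧ (∀ x, c (J x) = x) ∧
    (∀ y, c (χ y) = j (ρ y)) ∧ Chi.Soft k univ univ c ∧ range J ∪ range χ = univ ∧
    (∀ x y, J x = χ y ↔ ∃ z, x = j z ∧ y = b z) ∧
    ∀ W : Set Y, ZS W → Disjoint W (range b) → ZS (χ '' W)

/-- T_REL with control space `X` -/
def TRel (X : Type) [MetricSpace X] [CompactSpace X] : Prop :=
  ∀ ε > 0, ∃ δ > 0, ∀ (N N' : Type) [MetricSpace N] [CompactSpace N] [MetricSpace N']
    [CompactSpace N'], Men N → Men N' → ∀ (l : N → X) (l' : N' → X), Chi.Soft k univ univ l →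
    Chi.Soft k univ univ l' → ∀ (W : Set N) (W' : Set N'), ZS W → ZS W' → ∀ g : W ≃ₜ W',
    (∀ x : W, dist (l' (g x)) (l x) < δ) →
    ∃ θ : N ≃ₜ N', (∀ x : W, θ x = g x) ∧ ∀ x, dist (l' (θ x)) (l x) < ε

/-- every Menger manifold has a collar -/
def Collar : Prop :=
  ∀ (B : Type) [MetricSpace B] [CompactSpace B], Men B →
    ∃ (Y : Type) (_ : MetricSpace Y) (_ : CompactSpace Y) (b : C(B, Y)) (ρ : C(Y, B)),
      Men Y ∧ ZS (range b) ∧ Chi.Soft k univ univ ρ ∧ ∀ x, ρ (b x) = x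

variable {k Men}

theorem soft_id {X : Type} [MetricSpace X] : Chi.Soft k (univ : Set X) univ fun x => x := by
  refine ⟨continuousOn_id, fun x _ => mem_univ _, ?_⟩
  intro γ _ P A hT f f₀ cf mf cf₀ mf₀ he ε hε
  exact ⟨f, cf, mf, fun x hx => (he x hx).symm, fun x _ => by simpa using hε⟩

/-- two injective maps of a compact space give a homeomorphism of the images -/
theorem exists_homeo {S D M : Type} [TopologicalSpace S] [CompactSpace S] [TopologicalSpace D]
    [T2Space D] [TopologicalSpace M] [T2Space M] (u : C(S, D)) (v : C(S, M))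
    (hu : Function.Injective u) (hv : Function.Injective v) :
    ∃ g : range u ≃ₜ range v, ∀ s, (g ⟨u s, mem_range_self s⟩ : M) = v s := by
  have e1 := (u.continuous.isClosedEmbedding hu).isEmbedding
  have e2 := (v.continuous.isClosedEmbedding hv).isEmbedding
  refine ⟨e1.toHomeomorph.symm.trans e2.toHomeomorph, fun s => ?_⟩
  have h1 : e1.toHomeomorph.symm ⟨u s, mem_range_self s⟩ = s := by
    rw [Homeomorph.symm_apply_eq]
    rfl
  change (e2.toHomeomorph (e1.toHomeomorph.symm ⟨u s, mem_range_self s⟩) : M) = v s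
  rw [h1]
  rfl

/-- **Round balls.** -/
theorem ball {M B : Type} [MetricSpace M] [CompactSpace M] [MetricSpace B] [CompactSpace B]
    (hM : Men M) (hB : Men B)
    (ane : ∀ (N : Type) [MetricSpace N] [CompactSpace N], Men N → Chi.ANE k (univ : Set N))
    (dim : ∀ (N : Type) [MetricSpace N] [CompactSpace N], Men N → PushOff k (univ : Set N))
    (zd : ∀ (N : Type) [MetricSpace N] [CompactSpace N], Men N → ZD N)
    (hT : TRel k Men M) (hA : Attach k Men) (hC : Collar k Men)
    (φ : C(B, M)) {S : Set B} (hS : IsClosed S) (hφ : InjOn φ S) (hφS : ZS (φ '' S))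
    {ε : ℝ} (hε : 0 < ε) :
    ∃ (Y : Type) (_ : MetricSpace Y) (_ : CompactSpace Y) (b : C(B, Y)) (ρ : C(Y, B))
      (j : C(B, M)) (p : C(Y, M)) (q : C(M, M)),
      Men Y ∧ ZS (range b) ∧ Chi.Soft k univ univ ρ ∧ (∀ x, ρ (b x) = x) ∧
      Function.Injective j ∧ ZS (range j) ∧ Function.Injective p ∧ Function.Injective q ∧
      range q ∪ range p = univ ∧ (∀ x y, q x = p y ↔ ∃ z, x = j z ∧ y = b z) ∧
      Disjoint (φ '' S) (range q) ∧ ∀ y, dist (p y) (φ (ρ y)) < ε := by
  obtain ⟨δ, hδ, HT⟩ := hT (ε / 2) (by positivity)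
  -- the embedding `j`
  obtain ⟨j, j1, j2, j3, j4, -⟩ := gp (ane M hM) (zd M hM) (dim B hB) hS φ hφ hφS ZS.empty
    (ε := min (ε / 2) (δ / 2)) (by positivity)
  obtain ⟨Y, _, _, b, ρ, hY, hb, hρ, hρb⟩ := hC B hB
  obtain ⟨D, _, _, J, χ, c, hD, hJ, hχ, hcJ, hcχ, hc, hun, hJχ, hZ⟩ :=
    hA M Y B hM hY hB j b ρ j3 j4 hb hρ hρb
  -- the embedding `σ`
  have : CompactSpace S := isCompact_iff_compactSpace.1 hS.isCompact
  have hSd : PushOff k (univ : Set S) :=
    MG.pushOff_subtype ((dim B hB).mono hS.isCompact (subset_univ _))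
  obtain ⟨η, hη, hu⟩ := Metric.uniformContinuous_iff.1 (CompactSpace.uniformContinuous_of_continuous
    (j.continuous.comp ρ.continuous)) (δ / 2) (by positivity)
  obtain ⟨σ, s1, -, s3, s4, s5⟩ := gp (P := S) (ane Y hY) (zd Y hY) hSd (P₀ := ∅) isClosed_empty
    ⟨fun s => b s, by fun_prop⟩ (injOn_empty _) (by rw [image_empty]; exact ZS.empty) hb hη
  -- the homeomorphism `g`
  obtain ⟨g, hg⟩ := exists_homeo (χ.comp σ) ⟨fun s : S => φ s, by fun_prop⟩ (hχ.comp s3)
    (fun x y h => Subtype.ext (hφ x.2 y.2 h))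
  have hW : ZS (range (χ.comp σ)) := by
    have : range (χ.comp σ) = χ '' range σ := by
      rw [← range_comp]
      rfl
    rw [this]
    refine hZ _ s4 (disjoint_left.2 ?_)
    rintro _ ⟨s, rfl⟩
    exact s5 s (notMem_empty s)
  have hW' : ZS (range (⟨fun s : S => φ s, by fun_prop⟩ : C(S, M))) := by
    have : range (⟨fun s : S => φ s, by fun_prop⟩ : C(S, M)) = φ '' S := by
      ext y
      constructor
      · rintro ⟨s, rfl⟩
        exact ⟨s, s.2, rfl⟩
      · rintro ⟨s, hs, rfl⟩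
        exact ⟨⟨s, hs⟩, rfl⟩
    rw [this]
    exact hφS
  obtain ⟨θ, t1, t2⟩ := HT D M hD hM c (fun x => x) hc soft_id _ _ hW hW' g (by
    rintro ⟨_, s, rfl⟩
    rw [hg s]
    change dist (φ s) (c (χ (σ s))) < δ
    rw [hcχ]
    have h1 : dist (j (ρ (σ s))) (j (ρ (b s))) < δ / 2 := hu (s1 s)
    rw [hρb, j2 s s.2] at h1
    rw [dist_comm]
    linarith)
  have hθσ : ∀ s : S, θ (χ (σ s)) = φ s := fun s => (t1 ⟨_, mem_range_self s⟩).trans (hg s)
  refine ⟨Y, inferInstance, inferInstance, b, ρ, j, ⟨fun y => θ (χ y), by fun_prop⟩,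
    ⟨fun x => θ (J x), by fun_prop⟩, hY, hb, hρ, hρb, j3, j4, θ.injective.comp hχ,
    θ.injective.comp hJ, ?_, ?_, ?_, ?_⟩
  · have h1 : θ '' univ = univ := image_univ_of_surjective θ.surjective
    rw [← hun, image_union, ← range_comp, ← range_comp] at h1
    exact h1
  · intro x y
    rw [← hJχ]
    exact θ.injective.eq_iff
  · refine disjoint_left.2 ?_
    rintro _ ⟨s, hs, rfl⟩ ⟨x, hx⟩
    have h1 : θ (J x) = θ (χ (σ ⟨s, hs⟩)) := hx.trans (hθσ ⟨s, hs⟩).symm
    obtain ⟨z, -, hz⟩ := (hJχ _ _).1 (θ.injective h1)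
    exact s5 ⟨s, hs⟩ (notMem_empty _) ⟨z, hz.symm⟩
  · intro y
    have h1 := t2 (χ y)
    have h2 := (j1 (ρ y)).trans_le (min_le_left _ _)
    rw [hcχ] at h1
    change dist (θ (χ y)) (φ (ρ y)) < ε
    have h3 := dist_triangle (θ (χ y)) (j (ρ y)) (φ (ρ y))
    change dist (θ (χ y)) (j (ρ y)) < ε / 2 at h1
    linarith

/-- points are Z-sets -/
theorem zs_point {M : Type} [MetricSpace M] [CompactSpace M] (h : ZD M) (m : M) :
    ZS ({m} : Set M) := by
  refine ⟨isClosed_singleton, fun ε hε => ?_⟩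
  obtain ⟨φ, ψ, h1, h2, h3⟩ := h.dd ε hε
  by_cases hm : m ∈ range φ
  · obtain ⟨x, hx⟩ := hm
    exact ⟨ψ, h2, fun y hy => h3 x y (hx.trans hy.symm)⟩
  · exact ⟨φ, h1, fun y hy => hm ⟨y, hy⟩⟩

/-- a Z-embedded sphere with a retraction, in a Menger manifold -/
theorem exists_sphere {B : Type} [MetricSpace B] [CompactSpace B] (hne : Nonempty B)
    (ane : Chi.ANE k (univ : Set B)) (dim : PushOff k (univ : Set B)) (zd : ZD B) :
    ∃ (e : C(Unk.Sk k, B)) (r : C(B, Unk.Sk k)), Function.Injective e ∧ ZS (range e) ∧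
      ∀ s, r (e s) = s := by
  classical
  obtain ⟨b₀⟩ := hne
  obtain ⟨e, -, -, e3, e4, -⟩ := gp ane zd (MG.pushOff_subtype Unk.pushOff_Sk) (P₀ := ∅)
    isClosed_empty (ContinuousMap.const (Unk.Sk k) b₀) (injOn_empty _)
    (by rw [image_empty]; exact ZS.empty) ZS.empty one_pos
  have e5 := (e.continuous.isClosedEmbedding e3).isEmbedding
  -- the inverse on the image
  let f : B → (Fin k → ℝ) × ℝ := fun x => if h : x ∈ range e then (e5.toHomeomorph.symm ⟨x, h⟩).1
    else 0
  have hf : ∀ s, f (e s) = s.1 := by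
    intro s
    have h1 : e s ∈ range e := mem_range_self s
    change (if h : e s ∈ range e then ((e5.toHomeomorph.symm ⟨e s, h⟩ : Unk.Sk k) :
      (Fin k → ℝ) × ℝ) else 0) = s.1
    rw [dif_pos h1]
    have h2 : e5.toHomeomorph.symm ⟨e s, h1⟩ = s := by
      rw [Homeomorph.symm_apply_eq]
      rfl
    rw [h2]
  have cf : ContinuousOn f (range e) := by
    rw [continuousOn_iff_continuous_domRestrict]
    have : (range e).domRestrict f = fun x => (e5.toHomeomorph.symm x).1 := by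
      funext x
      change (if h : (x : B) ∈ range e then ((e5.toHomeomorph.symm ⟨x, h⟩ : Unk.Sk k) :
        (Fin k → ℝ) × ℝ) else 0) = _
      rw [dif_pos x.2]
    rw [this]
    exact continuous_subtype_val.comp e5.toHomeomorph.symm.continuous
  obtain ⟨F, F1, F2, F3⟩ := Unk.Sk_extend dim (isCompact_range e.continuous) cf (by
    rintro _ ⟨s, rfl⟩
    rw [hf]
    exact s.2)
  refine ⟨e, ⟨fun x => ⟨F x, F2 (mem_univ x)⟩, (continuousOn_univ.1 F1).subtype_mk _⟩, e3, e4,
    fun s => Subtype.ext ?_⟩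
  change F (e s) = s
  rw [F3 _ (mem_univ _) (mem_range_self s), hf]

end Ball

end Pool.Agent.Work.MP_017613_gt
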