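import Mathlib

/-!
# 8.1e: chains of small round balls

`RB` is a class of closed sets (the round balls) which is a base of neighbourhoods, `H` a group of
homeomorphisms which moves every ball into every ball of its interior. In a connected space `H`
then moves every ball into every non-empty open set.
-/

open Set Topology

namespace MG

variable {N : Type*} [TopologicalSpace N]

/-- small neighbourhoods of `x` are moved by `H` into any neighbourhood of `y` -/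
def Reach (H : Subgroup (N ≃ₜ N)) (x y : N) : Prop :=
  ∀ W ∈ 𝓝 y, ∃ V ∈ 𝓝 x, ∃ h ∈ H, h '' V ⊆ W

lemma Reach.refl (H : Subgroup (N ≃ₜ N)) (x : N) : Reach H x x :=
  fun W hW => ⟨W, hW, 1, H.one_mem, by rintro _ ⟨z, hz, rfl⟩; exact hz⟩

lemma Reach.trans {H : Subgroup (N ≃ₜ N)} {x y z : N} (h1 : Reach H x y) (h2 : Reach H y z) :
    Reach H x z := by
  intro W hW
  obtain ⟨V, hV, g, hg, hgV⟩ := h2 W hW
  obtain ⟨U, hU, f, hf, hfU⟩ := h1 V hV
  refine ⟨U, hU, g * f, H.mul_mem hg hf, ?_⟩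
  rintro _ ⟨u, hu, rfl⟩
  exact hgV ⟨f u, hfU ⟨u, hu, rfl⟩, rfl⟩

variable {RB : Set N → Prop} {H : Subgroup (N ≃ₜ N)}

/-- points of the interior of one ball reach each other -/
lemma reach_of_ball (hbase : ∀ x : N, ∀ U ∈ 𝓝 x, ∃ P, RB P ∧ P ∈ 𝓝 x ∧ P ⊆ U)
    (hdisp : ∀ P D, RB P → RB D → (interior D).Nonempty → D ⊆ interior P → ∃ h ∈ H, h '' P ⊆ D)
    {P : Set N} (hP : RB P) {x y : N} (hx : x ∈ interior P) (hy : y ∈ interior P) :
    Reach H x y := by
  intro W hW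
  obtain ⟨D, hD, hDy, hDW⟩ := hbase y (W ∩ interior P)
    (Filter.inter_mem hW (isOpen_interior.mem_nhds hy))
  obtain ⟨h, hh, hhP⟩ := hdisp P D hP hD ⟨y, mem_interior_iff_mem_nhds.2 hDy⟩
    (hDW.trans inter_subset_right)
  exact ⟨P, mem_interior_iff_mem_nhds.1 hx, h, hh,
    hhP.trans (hDW.trans inter_subset_left)⟩

/-- in a connected space all points reach each other -/
theorem reach_all [PreconnectedSpace N]
    (hbase : ∀ x : N, ∀ U ∈ 𝓝 x, ∃ P, RB P ∧ P ∈ 𝓝 x ∧ P ⊆ U)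
    (hdisp : ∀ P D, RB P → RB D → (interior D).Nonempty → D ⊆ interior P → ∃ h ∈ H, h '' P ⊆ D)
    (x y : N) : Reach H x y := by
  have key : ∀ z : N, ∃ V ∈ 𝓝 z, ∀ u ∈ V, Reach H z u ∧ Reach H u z := by
    intro z
    obtain ⟨P, hP, hPz, -⟩ := hbase z univ Filter.univ_mem
    have hz : z ∈ interior P := mem_interior_iff_mem_nhds.2 hPz
    exact ⟨interior P, isOpen_interior.mem_nhds hz, fun u hu =>
      ⟨reach_of_ball hbase hdisp hP hz hu, reach_of_ball hbase hdisp hP hu hz⟩⟩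
  let S : Set N := {u | Reach H x u}
  have hopen : IsOpen S := by
    rw [isOpen_iff_mem_nhds]
    intro z hz
    obtain ⟨V, hV, hVu⟩ := key z
    exact Filter.mem_of_superset hV fun u hu => Reach.trans hz (hVu u hu).1
  have hclosed : IsClosed S := by
    rw [← isOpen_compl_iff, isOpen_iff_mem_nhds]
    intro z hz
    obtain ⟨V, hV, hVu⟩ := key z
    exact Filter.mem_of_superset hV fun u hu hu' => hz (Reach.trans hu' (hVu u hu).2)
  have hS : S = univ := IsClopen.eq_univ ⟨hclosed, hopen⟩ ⟨x, Reach.refl H x⟩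
  have : y ∈ S := by rw [hS]; trivial
  exact this

/-- **CHAIN**: every ball is moved by `H` into every non-empty open set. -/
theorem chain [PreconnectedSpace N]
    (hbase : ∀ x : N, ∀ U ∈ 𝓝 x, ∃ P, RB P ∧ P ∈ 𝓝 x ∧ P ⊆ U)
    (hdisp : ∀ P D, RB P → RB D → (interior D).Nonempty → D ⊆ interior P → ∃ h ∈ H, h '' P ⊆ D)
    {P : Set N} (hP : RB P) (hPi : (interior P).Nonempty) {O : Set N} (hO : IsOpen O)
    (hne : O.Nonempty) : ∃ h ∈ H, h '' P ⊆ O := by
  obtain ⟨x, hx⟩ := hPi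
  obtain ⟨y, hy⟩ := hne
  obtain ⟨V, hV, g, hg, hgV⟩ := reach_all hbase hdisp x y O (hO.mem_nhds hy)
  obtain ⟨D, hD, hDx, hDV⟩ := hbase x (V ∩ interior P)
    (Filter.inter_mem hV (isOpen_interior.mem_nhds hx))
  obtain ⟨f, hf, hfP⟩ := hdisp P D hP hD ⟨x, mem_interior_iff_mem_nhds.2 hDx⟩
    (hDV.trans inter_subset_right)
  refine ⟨g * f, H.mul_mem hg hf, ?_⟩
  rintro _ ⟨z, hz, rfl⟩
  exact hgV ⟨f z, (hDV (hfP ⟨z, hz, rfl⟩)).1, rfl⟩

/-- CHAIN, for a compact space: finitely many open sets, each moved into `O`. -/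
theorem chain_cover [CompactSpace N] [PreconnectedSpace N]
    (hbase : ∀ x : N, ∀ U ∈ 𝓝 x, ∃ P, RB P ∧ P ∈ 𝓝 x ∧ P ⊆ U)
    (hdisp : ∀ P D, RB P → RB D → (interior D).Nonempty → D ⊆ interior P → ∃ h ∈ H, h '' P ⊆ D)
    {O : Set N} (hO : IsOpen O) (hne : O.Nonempty) :
    ∃ (t : Finset N) (W : N → Set N), (∀ x, IsOpen (W x)) ∧ (⋃ x ∈ t, W x) = univ ∧
      ∀ x, ∃ h ∈ H, h '' W x ⊆ O := by
  obtain ⟨y, hy⟩ := hne
  have h1 : ∀ x : N, ∃ W : Set N, IsOpen W ∧ x ∈ W ∧ ∃ h ∈ H, h '' W ⊆ O := by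
    intro x
    obtain ⟨V, hV, g, hg, hgV⟩ := reach_all hbase hdisp x y O (hO.mem_nhds hy)
    exact ⟨interior V, isOpen_interior, mem_interior_iff_mem_nhds.2 hV, g, hg,
      (image_mono interior_subset).trans hgV⟩
  choose W hW hx hh using h1
  obtain ⟨t, ht⟩ := isCompact_univ.elim_nhds_subcover' (fun x _ => W x)
    fun x _ => (hW x).mem_nhds (hx x)
  classical
  refine ⟨t.image Subtype.val, W, hW, ?_, hh⟩
  apply eq_univ_of_univ_subset
  intro z hz
  have h2 := ht hz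
  simp only [mem_iUnion, Finset.mem_image, exists_prop] at h2 ⊢
  obtain ⟨x, hxt, hzx⟩ := h2
  exact ⟨x, ⟨x, hxt, rfl⟩, hzx⟩

end MG
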