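import Pool.Agent.Work.MP_017613_gt.PushOff

/-!
`PushOff` passes to the subtype.
-/

open Set Topology Metric

namespace MG

open Pool.Agent.Work.MP_017613_gt (PushOff)

/-- `PushOff` passes to the subtype -/
theorem pushOff_subtype {α : Type*} [MetricSpace α] {k : ℕ} {K : Set α}
    (hK : PushOff k K) : PushOff k (univ : Set K) := by
  classical
  intro f hf ε hε
  have hf' : Continuous f := continuousOn_univ.mp hf
  set F : α → (Fin (k + 1) → ℝ) := fun x => if h : x ∈ K then f ⟨x, h⟩ else 0 with hF
  have hFc : ContinuousOn F K := by
    rw [continuousOn_iff_continuous_domRestrict]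
    have : K.domRestrict F = f := by
      funext x
      simp [hF]
    rw [this]
    exact hf'
  obtain ⟨g, cg, dg, g0⟩ := hK F hFc ε hε
  refine ⟨fun x => g x, ?_, ?_, ?_⟩
  · exact (cg.domRestrict).continuousOn
  · intro x _
    have h1 := dg x x.2
    simpa [hF] using h1
  · intro x _
    exact g0 x x.2

end MG
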