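import Pool.Agent.Work.MP_017613_gt.DigJ
import Pool.Agent.Work.MP_017613_gt.Kit.Bridge
import Pool.Agent.Work.MP_017613_gt.PSub

/-!
# The explicit spaces in the forms of `Kit/Defs.lean`

For `K = mu k N ∩ Sh a b` (as a type): `ULC k univ`, `Conn k univ`, `PushOff k univ`, `DD`.
-/

open Set Topology Metric

namespace MG

open Pool.Agent.Work.MP_017613_gt (PushOff DD ZS)

theorem pushOff_mu_inter {k N : ℕ} {Y : Set (Fin N → ℝ)} (hY : IsClosed Y) :
    PushOff k (mu k N ∩ Y) :=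
  (pushOff_mu k N).mono ((isCompact_mu k N).inter_right hY) inter_subset_left

theorem pushOff_Sh (k N : ℕ) (a b : ℝ) :
    PushOff k (univ : Set (mu k N ∩ Sh a b : Set (Fin N → ℝ))) :=
  pushOff_subtype
    (pushOff_mu_inter (isClosed_Sh a b))

instance instCompactMu {k N : ℕ} : CompactSpace (mu k N) :=
  isCompact_iff_compactSpace.mp (isCompact_mu k N)

theorem pushOff_mu_univ (k N : ℕ) : PushOff k (univ : Set (mu k N)) :=
  pushOff_subtype (pushOff_mu k N)

theorem ulcU_mu (k N : ℕ) : ULC k (univ : Set (mu k N)) := ulc_iff.mpr (ulc_mu k N)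

instance instNonemptyMu {k N : ℕ} : Nonempty (mu k N) := ⟨⟨0, zero_mem_mu k N⟩⟩

theorem connU_mu (k N : ℕ) : Conn k (univ : Set (mu k N)) := conn_iff.mpr (conn_mu k N)

theorem ulcU_Sh {k N : ℕ} {a b : ℝ} (ha : Nev 0 a) (hb : Nev 0 b) :
    ULC k (univ : Set (mu k N ∩ Sh a b : Set (Fin N → ℝ))) := ulc_iff.mpr (ulc_Sh ha hb)

lemma nonempty_Sh {k N : ℕ} (hN : 1 ≤ N) {a b : ℝ} (hb : Nev 0 b) (hab : a ≤ b)
    (h01 : b ∈ Icc (0:ℝ) 1) : Nonempty (mu k N ∩ Sh a b : Set (Fin N → ℝ)) :=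
  ⟨⟨fun _ => b, const_mem_mu hb h01, fun _ => ⟨h01.1, le_rfl⟩, ⟨0, hN⟩, hab⟩⟩

theorem connU_Sh {k N : ℕ} (hN : 1 ≤ N) {a b : ℝ} (ha : Nev 0 a) (hb : Nev 0 b) (hab : a ≤ b)
    (h01 : b ∈ Icc (0:ℝ) 1) : Conn k (univ : Set (mu k N ∩ Sh a b : Set (Fin N → ℝ))) := by
  have := nonempty_Sh (k := k) hN hb hab h01
  exact conn_iff.mpr (conn_Sh hN ha hb hab h01)

/-- the whole compactum has disjoint approximations of the identity -/
theorem dd_mu {k N : ℕ} (hN : 2 * k + 1 ≤ N) : DD (mu k N) := by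
  intro ε hε
  obtain ⟨L, hL⟩ := exists_level hε
  obtain ⟨φ, hφ⟩ := subtype_map (K := mu k N) (continuous_RR L (L + 2)).continuousOn
    fun x hx => RR_mem le_rfl hx
  obtain ⟨ψ, hψ⟩ := subtype_map (K := mu k N) (continuous_RR L (L + 3)).continuousOn
    fun x hx => RR_mem (by omega) hx
  refine ⟨φ, ψ, ?_, ?_, ?_⟩
  · intro x
    rw [Subtype.dist_eq, hφ]
    exact (RR_dist le_rfl x.2.1).trans_lt (hL L le_rfl)
  · intro x
    rw [Subtype.dist_eq, hψ]
    exact (RR_dist (by omega) x.2.1).trans_lt (hL L le_rfl)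
  · intro x y he
    have h3 := congrArg Subtype.val he
    rw [hφ, hψ] at h3
    exact RR_ne hN le_rfl (show L + 2 ≤ L + 3 by omega) (by omega) x.2 y.2 h3

/-! ## Scaling by `1/3` -/

lemma bad_div_three {l : ℕ} {x : ℝ} : Bad (l + 1) (x / 3) ↔ Bad l x := by
  unfold Bad
  have : (3:ℝ) ^ (l + 1) * (x / 3) = 3 ^ l * x := by ring
  rw [this]

lemma not_bad_zero_div_three {x : ℝ} (hx : x ∈ Icc (0:ℝ) 1) : ¬ Bad 0 (x / 3) := by
  unfold Bad
  rw [pow_zero, one_mul]
  have h1 : Int.fract (x / 3) = x / 3 := by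
    rw [Int.fract_eq_self]
    constructor
    · linarith [hx.1]
    · linarith [hx.2]
  rw [h1]
  rintro ⟨h2, _⟩
  linarith [hx.2]

/-- `x ∈ mu` iff `x / 3 ∈ mu`, for `x` in the cube -/
theorem div_three_mem_mu {k N : ℕ} {x : Fin N → ℝ} (hx : ∀ i, x i ∈ Icc (0:ℝ) 1) :
    (fun i => x i / 3) ∈ mu k N ↔ x ∈ mu k N := by
  classical
  constructor
  · rintro ⟨_, h⟩
    refine ⟨hx, fun l => ?_⟩
    have h1 := h (l + 1)
    unfold nb at h1 ⊢
    simpa only [bad_div_three] using h1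
  · rintro ⟨_, h⟩
    refine ⟨fun i => ⟨by linarith [(hx i).1], by linarith [(hx i).2]⟩, fun l => ?_⟩
    rcases l with _ | l
    · have : nb 0 (fun i => x i / 3) = 0 := by
        unfold nb
        rw [Finset.card_eq_zero, Finset.filter_eq_empty_iff]
        intro i _
        exact not_bad_zero_div_three (hx i)
      omega
    · have h1 := h l
      unfold nb at h1 ⊢
      simpa only [bad_div_three] using h1

end MG
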