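import Pool.Agent.Work.MP_017613_gt.DigA

/-!
# The final statement (problem 017613)

The Menger compactum `mu k N` is defined in `DigA.lean`; the standard `k`-dimensional universal
Menger compactum is `mu k (2 * k + 1)`.
-/

set_option autoImplicit false

open Set Topology

namespace MG

/-- `M` is a `μ^k`-manifold: every point has an open neighbourhood which is homeomorphic to an
open subset of the universal `k`-dimensional Menger compactum. -/
def IsMuManifold (k : ℕ) (M : Type) [TopologicalSpace M] : Prop :=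
  ∀ x : M, ∃ U : Set M, IsOpen U ∧ x ∈ U ∧
    ∃ V : Set (mu k (2 * k + 1)), IsOpen V ∧ Nonempty (U ≃ₜ V)

/-- `P ⊆ ℝ^m` is a compact polyhedron of dimension at most `n`: a finite union of convex hulls of
finite sets whose affine span has dimension at most `n`. -/
def IsPoly (n : ℕ) {m : ℕ} (P : Set (Fin m → ℝ)) : Prop :=
  ∃ F : Finset (Finset (Fin m → ℝ)),
    (∀ s ∈ F, Module.finrank ℝ (vectorSpan ℝ (s : Set (Fin m → ℝ))) ≤ n) ∧
    P = ⋃ s ∈ F, convexHull ℝ (s : Set (Fin m → ℝ))

/-- `f` and `g` are `n`-homotopic: for every at most `n`-dimensional compact polyhedron `P` and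
every map `φ : P → X` the composites `f ∘ φ` and `g ∘ φ` are homotopic. -/
def NHomotopic (n : ℕ) {X Y : Type} [TopologicalSpace X] [TopologicalSpace Y] (f g : C(X, Y)) :
    Prop :=
  ∀ (m : ℕ) (P : Set (Fin m → ℝ)), IsPoly n P → ∀ φ : C(P, X),
    (f.comp φ).Homotopic (g.comp φ)

/-- A homeomorphism as a continuous map. -/
def toMap {M : Type} [TopologicalSpace M] (h : M ≃ₜ M) : C(M, M) := ⟨h, h.continuous⟩

/-- `Auth₀(M)`: the homeomorphisms of `M` which are `n`-homotopic to the identity. -/
def Auth0 (n : ℕ) (M : Type) [TopologicalSpace M] : Subgroup (M ≃ₜ M) where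
  carrier := {h | NHomotopic n (toMap h) (ContinuousMap.id M)}
  one_mem' := fun m P _ φ => ContinuousMap.Homotopic.refl _
  mul_mem' := by
    intro f g hf hg m P hP φ
    have h1 : ((toMap f).comp ((toMap g).comp φ)).Homotopic
        ((ContinuousMap.id M).comp ((toMap g).comp φ)) := hf m P hP ((toMap g).comp φ)
    exact h1.trans (hg m P hP φ)
  inv_mem' := by
    intro f hf m P hP φ
    have h1 : ((toMap f).comp ((toMap f⁻¹).comp φ)).Homotopic
        ((ContinuousMap.id M).comp ((toMap f⁻¹).comp φ)) := hf m P hP ((toMap f⁻¹).comp φ)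
    have h2 : (toMap f).comp ((toMap f⁻¹).comp φ) = (ContinuousMap.id M).comp φ := by
      ext x
      exact f.apply_symm_apply (φ x)
    rw [h2] at h1
    exact h1.symm

theorem mem_Auth0 {n : ℕ} {M : Type} [TopologicalSpace M] {h : M ≃ₜ M} :
    h ∈ Auth0 n M ↔ NHomotopic n (toMap h) (ContinuousMap.id M) := Iff.rfl

theorem normal_Auth0 (n : ℕ) (M : Type) [TopologicalSpace M] : (Auth0 n M).Normal := by
  refine ⟨fun f hf g m P hP φ => ?_⟩
  have h1 := hf m P hP ((toMap g⁻¹).comp φ)
  have h2 : ((toMap g).comp ((toMap f).comp ((toMap g⁻¹).comp φ))).Homotopic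
      ((toMap g).comp ((ContinuousMap.id M).comp ((toMap g⁻¹).comp φ))) :=
    ContinuousMap.Homotopic.comp (ContinuousMap.Homotopic.refl _) h1
  have h3 : (toMap g).comp ((ContinuousMap.id M).comp ((toMap g⁻¹).comp φ)) =
      (ContinuousMap.id M).comp φ := by
    ext x
    exact g.apply_symm_apply (φ x)
  rw [h3] at h2
  exact h2

/-- The statement of the main theorem: the answers to Q1 and Q2 are yes. -/
def MainStatement : Prop :=
  ∀ (n : ℕ), 1 ≤ n → ∀ (M : Type) [TopologicalSpace M] [CompactSpace M]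
    [TopologicalSpace.MetrizableSpace M] [ConnectedSpace M], IsMuManifold (n + 1) M →
    Auth0 n M ≠ ⊥ ∧ (Auth0 n M).Normal ∧
    (∀ N : Subgroup (M ≃ₜ M), N.Normal → N ≠ ⊥ → Auth0 n M ≤ N) ∧
    IsSimpleGroup (Auth0 n M)

end MG
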