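import Pool.Agent.Work.MP_017613_gt.Ball
import Pool.Agent.Work.MP_017613_gt.RndA
import Pool.Agent.Work.MP_017613_gt.Statement
import Pool.Agent.Work.MP_017613_gt.DigK

/-!
# Menger spaces have charts

Every point of a compact Menger space `M` has a small round ball, which by `T_REL` over a point is
homeomorphic to the universal Menger compactum.
-/

set_option linter.unusedSectionVars false

open Set Topology Metric

namespace Pool.Agent.Work.MP_017613_gt

namespace Ball

variable {k : ℕ} {Men : ∀ (N : Type) [MetricSpace N] [CompactSpace N], Prop}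

theorem soft_unit {N : Type} [MetricSpace N] (h : Rnd.AEk k (univ : Set N)) :
    Chi.Soft k (univ : Set N) (univ : Set Unit) fun _ => () := by
  have h1 := Rnd.soft_const h ()
  have h2 : ({()} : Set Unit) = univ := by
    ext x
    simp
  rwa [h2] at h1

/-- **Charts.** -/
theorem charts {M : Type} [MetricSpace M] [CompactSpace M]
    (hM : Men M)
    (ane : ∀ (N : Type) [MetricSpace N] [CompactSpace N], Men N → Chi.ANE k (univ : Set N))
    (dim : ∀ (N : Type) [MetricSpace N] [CompactSpace N], Men N → PushOff k (univ : Set N))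
    (zd : ∀ (N : Type) [MetricSpace N] [CompactSpace N], Men N → ZD N)
    (hT : TRel k Men M) (hA : Attach k Men) (hC : Collar k Men) (hP : TRel k Men Unit)
    (hmu : Men (MG.mu k (2 * k + 1)))
    (hae : Rnd.AEk k (univ : Set (MG.mu k (2 * k + 1)))) : MG.IsMuManifold k M := by
  intro m
  obtain ⟨b₀, -⟩ := hae.1
  let φ : C(MG.mu k (2 * k + 1), M) := ContinuousMap.const _ m
  have hφS : φ '' {b₀} = {m} := by simp [φ]
  obtain ⟨Y, _, _, b, ρ, j, p, q, hY, hb, hρ, hρb, hj, hjZ, hp, hq, hun, hqp, hdis, -⟩ :=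
    ball (S := {b₀}) hM hmu ane dim zd hT hA hC φ isClosed_singleton (injOn_singleton _ _)
      (by rw [hφS]; exact zs_point (zd M hM) m) one_pos
  rw [hφS, disjoint_singleton_left] at hdis
  set U : Set M := (range q)ᶜ with hU
  have oU : IsOpen U := (isCompact_range q.continuous).isClosed.isOpen_compl
  have hUp : U ⊆ range p := by
    intro x hx
    rcases (by rw [hun]; trivial : x ∈ range q ∪ range p) with h | h
    · exact (hx h).elim
    · exact h
  have haeY : Rnd.AEk k (univ : Set Y) := hae.of_soft hρ ⟨b b₀, trivial⟩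
  obtain ⟨δ, hδ, H⟩ := hP 1 one_pos
  obtain ⟨θ, -, -⟩ := H Y (MG.mu k (2 * k + 1)) hY hmu (fun _ => ()) (fun _ => ())
    (soft_unit haeY) (soft_unit hae) ∅ ∅ ZS.empty ZS.empty Homeomorph.empty (fun x => x.2.elim)
  refine ⟨U, oU, hdis, θ '' (p ⁻¹' U), θ.isOpenMap _ (oU.preimage p.continuous), ?_⟩
  have e1 := (p.continuous.isClosedEmbedding hp).isEmbedding
  have h1 : p '' (p ⁻¹' U) = U := image_preimage_eq_of_subset hUp
  exact ⟨((e1.homeomorphImage (p ⁻¹' U)).trans (Homeomorph.setCongr h1)).symm.trans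
    (θ.image (p ⁻¹' U))⟩

end Ball

end Pool.Agent.Work.MP_017613_gt
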