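import Pool.Agent.Work.MP_017613_gt.DigSwin

/-!
# The swindle homeomorphism in a manifold

* `Swin.lift`: a swindle supported in a compact subset of the target of a chart is transported to
  the manifold.
* `homog`: the model `mu k N` is homogeneous (from `TPt`).
* `exists_swin_open`: every non-empty open subset of a manifold modelled on `mu k N` contains a
  swindle.
-/

set_option autoImplicit false
set_option linter.unusedSectionVars false

open Set Topology Metric
open Pool.Agent.Work.MP_017613_gt Pool.Agent.Work.MP_017613_gt.Swindle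

namespace MG

/-! ## Transport along charts -/

section
open Classical
variable {M X : Type*} [TopologicalSpace M] [TopologicalSpace X]

/-- the map `φ` of the model as a map of the manifold -/
noncomputable def tm (e : OpenPartialHomeomorph M X) (φ : X → X) (m : M) : M :=
  if m ∈ e.source then e.symm (φ (e m)) else m

lemma tm_in {e : OpenPartialHomeomorph M X} {φ : X → X} {m : M} (h : m ∈ e.source) :
    tm e φ m = e.symm (φ (e m)) := if_pos h

lemma tm_out {e : OpenPartialHomeomorph M X} {φ : X → X} {m : M} (h : m ∉ e.source) :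
    tm e φ m = m := if_neg h

lemma supp_target {e : OpenPartialHomeomorph M X} {K : Set X} (hK : K ⊆ e.target) {φ : X ≃ₜ X}
    (hφ : SuppIn φ K) {x : X} (hx : x ∈ e.target) : φ x ∈ e.target := by
  by_cases h : x ∈ K
  · exact hK (hφ.mem h)
  · rw [hφ x h]; exact hx

lemma tm_comp {e : OpenPartialHomeomorph M X} {K : Set X} (hK : K ⊆ e.target) {φ ψ : X ≃ₜ X}
    (hψ : SuppIn ψ K) (m : M) : tm e φ (tm e ψ m) = tm e (φ * ψ : X ≃ₜ X) m := by
  by_cases h : m ∈ e.source
  · have h1 : ψ (e m) ∈ e.target := supp_target hK hψ (e.map_source h)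
    have h2 : e.symm (ψ (e m)) ∈ e.source := e.map_target h1
    rw [tm_in h, tm_in h2, tm_in h, e.right_inv h1]
    rfl
  · rw [tm_out h, tm_out h, tm_out h]

lemma tm_one {e : OpenPartialHomeomorph M X} (m : M) : tm e (1 : X ≃ₜ X) m = m := by
  by_cases h : m ∈ e.source
  · rw [tm_in h]
    exact e.left_inv h
  · exact tm_out h

lemma tm_continuous [T2Space M] {e : OpenPartialHomeomorph M X} {K : Set X} (hK : K ⊆ e.target)
    (hc : IsCompact K) {φ : X ≃ₜ X} (hφ : SuppIn φ K) : Continuous (tm e φ) := by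
  have hKc : IsClosed (e.symm '' K) :=
    (hc.image_of_continuousOn (e.continuousOn_symm.mono hK)).isClosed
  rw [continuous_iff_continuousAt]
  intro m
  by_cases h : m ∈ e.source
  · have h1 : φ (e m) ∈ e.target := supp_target hK hφ (e.map_source h)
    have h3 : ContinuousAt (fun m => φ (e m)) m :=
      ContinuousAt.comp (g := φ) (f := e) φ.continuous.continuousAt (e.continuousAt h)
    have h2 : ContinuousAt (fun m => e.symm (φ (e m))) m :=
      ContinuousAt.comp (g := e.symm) (f := fun m => φ (e m)) (e.continuousAt_symm h1) h3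
    refine h2.congr ?_
    filter_upwards [e.open_source.mem_nhds h] with y hy
    exact (tm_in hy).symm
  · have h1 : m ∈ (e.symm '' K)ᶜ := by
      rintro ⟨x, hx, rfl⟩
      exact h (e.map_target (hK hx))
    refine continuousAt_id.congr ?_
    filter_upwards [hKc.isOpen_compl.mem_nhds h1] with y hy
    by_cases hy1 : y ∈ e.source
    · rw [tm_in hy1, hφ]
      · exact (e.left_inv hy1).symm
      · intro h3
        exact hy ⟨e y, h3, e.left_inv hy1⟩
    · exact (tm_out hy1).symm

/-- the homeomorphism of the manifold -/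
noncomputable def th [T2Space M] (e : OpenPartialHomeomorph M X) {K : Set X} (hK : K ⊆ e.target)
    (hc : IsCompact K) (φ : X ≃ₜ X) (hφ : SuppIn φ K) : M ≃ₜ M where
  toFun := tm e φ
  invFun := tm e (φ⁻¹ : X ≃ₜ X)
  left_inv m := by rw [tm_comp hK hφ, inv_mul_cancel, tm_one]
  right_inv m := by rw [tm_comp hK hφ.inv, mul_inv_cancel, tm_one]
  continuous_toFun := tm_continuous hK hc hφ
  continuous_invFun := tm_continuous hK hc hφ.inv

variable [T2Space M] {e : OpenPartialHomeomorph M X} {K : Set X} (hK : K ⊆ e.target)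
    (hc : IsCompact K) {φ : X ≃ₜ X} (hφ : SuppIn φ K)

include hφ in
lemma supp_pow (n : ℕ) : SuppIn (φ ^ n : X ≃ₜ X) K := by
  induction n with
  | zero => exact SuppIn.one K
  | succ n ih => rw [pow_succ]; exact ih.mul hφ

include hK in
lemma th_pow (n : ℕ) (m : M) : (th e hK hc φ hφ ^ n : M ≃ₜ M) m = tm e (φ ^ n : X ≃ₜ X) m := by
  induction n with
  | zero => rw [pow_zero, pow_zero, tm_one]; rfl
  | succ n ih =>
    rw [pow_succ', Homeomorph.mul_apply, ih, pow_succ']
    exact tm_comp hK (supp_pow hφ n) m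

include hK in
lemma th_pow_inv (n : ℕ) (m : M) :
    (th e hK hc φ hφ ^ n)⁻¹ m = tm e ((φ ^ n)⁻¹ : X ≃ₜ X) m := by
  rw [Homeomorph.inv_apply, Homeomorph.symm_apply_eq, th_pow, tm_comp hK (supp_pow hφ n).inv,
    mul_inv_cancel, tm_one]

lemma th_supp : SuppIn (th e hK hc φ hφ) (e.symm '' K) := by
  intro m hm
  change tm e φ m = m
  by_cases h : m ∈ e.source
  · rw [tm_in h, hφ, e.left_inv h]
    intro h1
    exact hm ⟨e m, h1, e.left_inv h⟩
  · exact tm_out h

include hK in
lemma th_key {D : Set X} (hD : D ⊆ e.target) (n : ℕ) (m : M) :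
    (th e hK hc φ hφ ^ n)⁻¹ m ∈ e.symm '' D ↔ m ∈ e.source ∧ (φ ^ n)⁻¹ (e m) ∈ D := by
  rw [th_pow_inv]
  constructor
  · rintro ⟨d, hd, he⟩
    have h1 : e.symm d ∈ e.source := e.map_target (hD hd)
    by_cases hm : m ∈ e.source
    · refine ⟨hm, ?_⟩
      rw [tm_in hm] at he
      have h2 := supp_target hK (supp_pow hφ n).inv (e.map_source hm)
      have h3 : d = (φ ^ n)⁻¹ (e m) := e.symm.injOn (hD hd) h2 he
      rwa [← h3]
    · rw [tm_out hm] at he
      rw [he] at h1
      exact absurd h1 hm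
  · rintro ⟨hm, h⟩
    rw [tm_in hm]
    exact ⟨_, h, rfl⟩

/-- **Transport of a swindle along a chart.** -/
theorem swin_lift [T2Space X] {D : Set X} {p : X} (hD : D ⊆ K) (hp : p ∈ e.target)
    (S : Swin φ D p) : Swin (th e hK hc φ hφ) (e.symm '' D) (e.symm p) := by
  have hDt : D ⊆ e.target := hD.trans hK
  refine ⟨?_, ?_, ?_, ?_⟩
  · exact ((hc.of_isClosed_subset S.closed hD).image_of_continuousOn
      (e.continuousOn_symm.mono hDt)).isClosed
  · intro i j m hi hj
    rw [th_key hK hc hφ hDt] at hi hj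
    exact S.disj i j _ hi.2 hj.2
  · intro i hi
    rw [th_key hK hc hφ hDt, e.right_inv hp] at hi
    exact S.point i hi.2
  · intro V hV
    have h1 : e.symm ⁻¹' V ∈ 𝓝 p := (e.continuousAt_symm hp).preimage_mem_nhds hV
    obtain ⟨n, hn⟩ := S.conv _ h1
    refine ⟨n, fun i hi m hm => ?_⟩
    rw [th_key hK hc hφ hDt] at hm
    have := hn i hi _ hm.2
    rw [mem_preimage, e.left_inv hm.1] at this
    exact this

lemma interior_lift {D : Set X} (hD : D ⊆ e.target) (hi : (interior D).Nonempty) :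
    (interior (e.symm '' D)).Nonempty := by
  obtain ⟨x, hx⟩ := hi
  refine ⟨e.symm x, mem_interior.2 ⟨e.symm '' interior D, image_mono interior_subset, ?_,
    ⟨x, hx, rfl⟩⟩⟩
  exact e.symm.isOpen_image_of_subset_source isOpen_interior (interior_subset.trans hD)

end

/-! ## Homogeneity of the model -/

/-- points are Z-sets -/
theorem zs_point {A : Type*} [MetricSpace A] [CompactSpace A] (h : DD A) (x : A) :
    ZS ({x} : Set A) := by
  refine ⟨isClosed_singleton, fun ε hε => ?_⟩
  obtain ⟨φ, ψ, h1, h2, h3⟩ := h ε hε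
  by_cases hx : x ∈ range φ
  · obtain ⟨a, ha⟩ := hx
    refine ⟨ψ, h2, fun y hy => ?_⟩
    exact h3 a y (ha.trans (mem_singleton_iff.1 hy).symm)
  · exact ⟨φ, h1, fun y hy => hx ⟨y, hy⟩⟩

variable {k N : ℕ}

lemma men_mu (hN : 2 * k + 1 ≤ N) : Men k (mu k N) :=
  ⟨pushOff_mu_univ k N, ulcU_mu k N, (dd_mu hN).zd⟩

theorem homog (ht : TPt k) (hN : 2 * k + 1 ≤ N) (x y : mu k N) :
    ∃ h : mu k N ≃ₜ mu k N, h x = y := by
  let g : ({x} : Set (mu k N)) ≃ₜ ({y} : Set (mu k N)) :=
    { toFun := fun _ => ⟨y, rfl⟩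
      invFun := fun _ => ⟨x, rfl⟩
      left_inv := fun z => Subtype.ext (mem_singleton_iff.1 z.2).symm
      right_inv := fun z => Subtype.ext (mem_singleton_iff.1 z.2).symm
      continuous_toFun := continuous_const
      continuous_invFun := continuous_const }
  obtain ⟨h, hh⟩ := ht (mu k N) (mu k N) inferInstance inferInstance (men_mu hN) (men_mu hN) (connU_mu k N) (connU_mu k N)
    {x} {y} (zs_point (dd_mu hN) x) (zs_point (dd_mu hN) y) g
  exact ⟨h, hh ⟨x, rfl⟩⟩

/-! ## Swindles in manifolds -/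

/-- A chart with a given centre. -/
theorem exists_chart {M X : Type*} [TopologicalSpace M] [TopologicalSpace X] {U : Set M}
    (hU : IsOpen U) {V : Set X} (hV : IsOpen V) (f : U ≃ₜ V) {x : M} (hx : x ∈ U) :
    ∃ e : OpenPartialHomeomorph M X, x ∈ e.source := by
  have : Nonempty U := ⟨⟨x, hx⟩⟩
  have : Nonempty V := ⟨f ⟨x, hx⟩⟩
  let a : OpenPartialHomeomorph U M :=
    hU.isOpenEmbedding_subtypeVal.toOpenPartialHomeomorph Subtype.val
  let b : OpenPartialHomeomorph V X :=
    hV.isOpenEmbedding_subtypeVal.toOpenPartialHomeomorph Subtype.val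
  refine ⟨(a.symm.trans f.toOpenPartialHomeomorph).trans b, ?_⟩
  simp [a, b, hx]

/-- **Every non-empty open subset of a manifold contains a swindle.** -/
theorem exists_swin_open (ht : TPt k) (hN : 2 * k + 1 ≤ N) {M : Type*} [TopologicalSpace M]
    [T2Space M] (hM : ∀ x : M, ∃ U : Set M, IsOpen U ∧ x ∈ U ∧
      ∃ V : Set (mu k N), IsOpen V ∧ Nonempty (U ≃ₜ V)) {O : Set M} (hO : IsOpen O)
    (hne : O.Nonempty) : ∃ (φ : M ≃ₜ M) (D : Set M) (p : M), SuppIn φ O ∧ Swin φ D p ∧
      (interior D).Nonempty ∧ D ⊆ O ∧ p ∈ O := by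
  obtain ⟨x, hx⟩ := hne
  obtain ⟨U, hU, hxU, V, hV, ⟨f⟩⟩ := hM x
  obtain ⟨e₀, he₀⟩ := exists_chart hU hV f hxU
  obtain ⟨h, hh⟩ := homog ht hN (e₀ x) (cor k N)
  let e₁ : OpenPartialHomeomorph M (mu k N) := e₀.restrOpen O hO
  let e : OpenPartialHomeomorph M (mu k N) := e₁.trans h.toOpenPartialHomeomorph
  have hes : e.source ⊆ O := by
    intro y hy
    have h1 : y ∈ e₁.source := by simpa [e] using hy
    exact (by simpa [e₁] using h1 : y ∈ e₀.source ∧ y ∈ O).2
  have hxe : x ∈ e.source := by simp [e, e₁, he₀, hx]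
  have hex : e x = cor k N := by
    change h (e₀ x) = _
    exact hh
  have hc : cor k N ∈ e.target := by rw [← hex]; exact e.map_source hxe
  obtain ⟨ε, hε, hball⟩ := Metric.isOpen_iff.1 e.open_target _ hc
  obtain ⟨L, hL⟩ := exists_level hε
  have hK : (bx (cc L) : Set (mu k N)) ⊆ e.target := by
    intro y hy
    refine hball ?_
    rw [mem_ball, Subtype.dist_eq, dist_pi_lt_iff hε]
    intro j
    change dist (y.1 j) (0:ℝ) < ε
    rw [Real.dist_eq, sub_zero, abs_of_nonneg (y.2.1 j).1]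
    have h1 := hL L le_rfl
    have h2 : y.1 j ≤ cc L := hy j
    have h3 : cc L = (1 / 3) ^ L / 4 := rfl
    have h4 : (0:ℝ) < (1 / 3) ^ L := by positivity
    linarith
  have hKc : IsCompact (bx (cc L) : Set (mu k N)) := (isClosed_bx _).isCompact
  obtain ⟨φ, h1, h2⟩ := exists_swin ht hN L
  have hD : DD₀ k N L ⊆ bx (cc L) := DD₀_subset L
  have hO' : e.symm '' (bx (cc L) : Set (mu k N)) ⊆ O := by
    rintro _ ⟨y, hy, rfl⟩
    exact hes (e.map_target (hK hy))
  exact ⟨th e hK hKc φ h1, e.symm '' DD₀ k N L, e.symm (cor k N), (th_supp hK hKc h1).mono hO',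
    swin_lift hK hKc h1 hD hc h2, interior_lift (hD.trans hK) (DD₀_interior (by omega) L),
    (image_mono hD).trans hO', hes (e.map_target hc)⟩

/-- the field `swin` of `Data` -/
theorem exists_swin_RB (ht : TPt k) (hN : 2 * k + 1 ≤ N) {M : Type*} [TopologicalSpace M]
    [T2Space M] (hM : ∀ x : M, ∃ U : Set M, IsOpen U ∧ x ∈ U ∧
      ∃ V : Set (mu k N), IsOpen V ∧ Nonempty (U ≃ₜ V)) {RB : Set (Set M)} {Q : Set M}
    (hQ : Q ∈ RB) (hi : (interior Q).Nonempty) :
    ∃ (Q : Set M) (φ : M ≃ₜ M) (D : Set M) (p : M), Q ∈ RB ∧ SuppIn φ Q ∧ Swin φ D p ∧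
      (interior D).Nonempty ∧ D ⊆ Q := by
  obtain ⟨φ, D, p, h1, h2, h3, h4, -⟩ := exists_swin_open ht hN hM isOpen_interior hi
  exact ⟨Q, φ, D, p, hQ, h1.mono interior_subset, h2, h3, h4.trans interior_subset⟩

end MG
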