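import Pool.Agent.Work.MP_017613_gt.Chi0

/-!
Block 8.5 (theorem CHI): calculus of soft maps and of ANE sets; gluing theorems.
-/

set_option linter.unusedSectionVars false

open Set Topology Metric

namespace Pool.Agent.Work.MP_017613_gt

namespace Chi

variable {α α' β β' γ : Type} [MetricSpace α] [MetricSpace α'] [MetricSpace β] [MetricSpace β']
  [MetricSpace γ] {k : ℕ}

/-! ### Test pairs and jumps -/

/-- closed subsets of test spaces -/
theorem TP.sub' {P A : Set γ} (h : TP k P A) {P' A' : Set γ} (cP' : IsClosed P') (hP' : P' ⊆ P)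
    (cA' : IsClosed A') (hA' : A' ⊆ P') : TP k P' A' :=
  have h1 := h.cP.of_isClosed_subset cP' hP'
  ⟨h1, h.dP.mono h1 hP', cA', hA'⟩

/-- the point -/
theorem tp_point : TP k (univ : Set (Fin 0 → ℝ)) ∅ :=
  ⟨isCompact_univ, pushOff_of_finrank (by simp) isCompact_univ, isClosed_empty, empty_subset _⟩

theorem jump_of_continuousOn {P : Set γ} (cP : IsCompact P) {f : γ → β} (hf : ContinuousOn f P)
    {δ : ℝ} (hδ : 0 < δ) : Jump f P δ :=
  Metric.uniformContinuousOn_iff.1 (cP.uniformContinuousOn_of_continuous hf) δ hδ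

theorem Jump.mono {P P' : Set γ} {h : γ → β} {δ : ℝ} (hJ : Jump h P δ) (hP : P' ⊆ P) :
    Jump h P' δ := by
  obtain ⟨r, hr, H⟩ := hJ
  exact ⟨r, hr, fun x hx y hy => H x (hP hx) y (hP hy)⟩

/-! ### Real functions -/

/-- real functions with small jumps are close to continuous functions, relative to closed sets -/
theorem real_approx {P A : Set γ} (cP : IsCompact P) (cA : IsClosed A) (hAP : A ⊆ P) {h : γ → ℝ}
    {δ : ℝ} (hJ : Jump h P δ) {b : γ → ℝ} (hb : ContinuousOn b A)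
    (hbh : ∀ x ∈ A, dist (b x) (h x) < δ) (hδ : 0 < δ) :
    ∃ G : γ → ℝ, ContinuousOn G P ∧ EqOn G b A ∧ ∀ x ∈ P, dist (G x) (h x) < 3 * δ := by
  classical
  obtain ⟨r, hr, hJ⟩ := hJ
  obtain ⟨t, htP, htf, hcov⟩ := cP.finite_cover_balls hr
  set T := htf.toFinset with hT
  set lam : γ → γ → ℝ := fun p x => max 0 (r - dist x p) with hlam
  have clam : ∀ p, Continuous (lam p) := fun p => by
    simp only [hlam]
    fun_prop
  have lam0 : ∀ p x, 0 ≤ lam p x := fun p x => le_max_left _ _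
  have lamr : ∀ p x, lam p x ≠ 0 → dist x p < r := by
    intro p x hne
    by_contra hc
    push Not at hc
    exact hne (max_eq_left (by linarith))
  set S : γ → ℝ := fun x => ∑ p ∈ T, lam p x with hS
  have cS : Continuous S := continuous_finsetSum _ fun p _ => clam p
  have S0 : ∀ x ∈ P, 0 < S x := by
    intro x hx
    obtain ⟨p, hp, hxp⟩ := mem_iUnion₂.1 (hcov hx)
    refine Finset.sum_pos' (fun p _ => lam0 p x) ⟨p, by simpa [hT] using hp, ?_⟩
    have : dist x p < r := hxp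
    exact lt_max_of_lt_right (by linarith)
  set g : γ → ℝ := fun x => (∑ p ∈ T, lam p x * h p) / S x with hg
  have cg : ContinuousOn g P :=
    (continuous_finsetSum _ fun p _ => (clam p).mul continuous_const).continuousOn.div
      cS.continuousOn fun x hx => (S0 x hx).ne'
  have hgh : ∀ x ∈ P, dist (g x) (h x) ≤ δ := by
    intro x hx
    have h1 : g x - h x = (∑ p ∈ T, lam p x * (h p - h x)) / S x := by
      simp only [hg]
      rw [eq_div_iff (S0 x hx).ne', sub_mul, div_mul_cancel₀ _ (S0 x hx).ne']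
      simp only [hS, mul_sub, Finset.sum_sub_distrib, Finset.mul_sum]
      congr 1
      exact Finset.sum_congr rfl fun p _ => mul_comm _ _
    have h2 : |∑ p ∈ T, lam p x * (h p - h x)| ≤ δ * S x := by
      refine (Finset.abs_sum_le_sum_abs _ _).trans ?_
      rw [hS]
      simp only
      rw [Finset.mul_sum]
      refine Finset.sum_le_sum fun p hp => ?_
      rw [abs_mul, abs_of_nonneg (lam0 p x), mul_comm]
      by_cases h0 : lam p x = 0
      · rw [h0]; simp
      · have h3 := hJ p (htP (by simpa [hT] using hp)) x hx (by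
          rw [dist_comm]; exact lamr p x h0)
        rw [Real.dist_eq] at h3
        exact mul_le_mul_of_nonneg_right h3.le (lam0 p x)
    rw [Real.dist_eq, h1, abs_div, abs_of_pos (S0 x hx), div_le_iff₀ (S0 x hx)]
    exact h2
  have cA' : IsCompact A := cP.of_isClosed_subset cA hAP
  obtain ⟨u, cu, hu, hub⟩ := tietze_small (n := 1) cA' (h := fun x _ => b x - g x)
    (continuousOn_pi.2 fun _ => hb.sub (cg.mono hAP)) (ε := 2 * δ) (by positivity) (by
      intro x hx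
      rw [pi_norm_lt_iff (by positivity)]
      intro _
      have h1 := hbh x hx
      have h2 := hgh x (hAP hx)
      rw [← dist_eq_norm]
      calc dist (b x) (g x) ≤ dist (b x) (h x) + dist (h x) (g x) := dist_triangle _ _ _
        _ < δ + δ := by rw [dist_comm (h x)]; linarith
        _ = 2 * δ := by ring)
  refine ⟨fun x => g x + u x 0, cg.add ((continuous_apply 0).comp cu).continuousOn, ?_, ?_⟩
  · intro x hx
    have h1 := congrFun (hu hx) 0
    show g x + u x 0 = b x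
    rw [h1]
    ring
  · intro x hx
    have h1 : |u x 0| < 2 * δ := lt_of_le_of_lt (norm_le_pi_norm (u x) 0) (hub x)
    have h2 := hgh x hx
    rw [Real.dist_eq] at h2 ⊢
    have h3 : g x + u x 0 - h x = (g x - h x) + u x 0 := by ring
    rw [h3]
    refine (abs_add_le _ _).trans_lt ?_
    linarith

/-! ### Two closed sets -/

/-- points close to two compact sets are close to the intersection -/
theorem near_inter {Xp Xm : Set β} (cp : IsCompact Xp) (cm : IsCompact Xm) (np : Xp.Nonempty)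
    (nm : Xm.Nonempty) {η : ℝ} (hη : 0 < η) : ∃ δ > 0, ∀ z ∈ Xp ∪ Xm, infDist z Xp < δ →
      infDist z Xm < δ → ∃ z₀ ∈ Xp ∩ Xm, dist z₀ z < η := by
  set K : Set β := (Xp ∪ Xm) ∩ ⋂ z₀ ∈ Xp ∩ Xm, {z | η ≤ dist z₀ z} with hK
  have cK : IsCompact K := by
    refine (cp.union cm).inter_right (isClosed_biInter fun z₀ _ => ?_)
    exact isClosed_le continuous_const (continuous_const.dist continuous_id)
  have cont : Continuous fun z => max (infDist z Xp) (infDist z Xm) :=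
    (continuous_infDist_pt Xp).max (continuous_infDist_pt Xm)
  have hcon : ∀ z ∈ Xp ∪ Xm, z ∉ K → ∃ z₀ ∈ Xp ∩ Xm, dist z₀ z < η := by
    intro z hz hzK
    by_contra hc
    push Not at hc
    exact hzK ⟨hz, mem_iInter₂.2 hc⟩
  rcases K.eq_empty_or_nonempty with h0 | hne
  · exact ⟨1, one_pos, fun z hz _ _ => hcon z hz (by rw [h0]; exact notMem_empty z)⟩
  · obtain ⟨w, hw, hmin⟩ := cK.exists_isMinOn hne cont.continuousOn
    have hpos : 0 < max (infDist w Xp) (infDist w Xm) := by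
      by_contra hc
      push Not at hc
      have h1 : infDist w Xp = 0 := le_antisymm ((le_max_left _ _).trans hc) infDist_nonneg
      have h2 : infDist w Xm = 0 := le_antisymm ((le_max_right _ _).trans hc) infDist_nonneg
      have h3 : w ∈ Xp := (cp.isClosed.mem_iff_infDist_zero np).2 h1
      have h4 : w ∈ Xm := (cm.isClosed.mem_iff_infDist_zero nm).2 h2
      have h5 : η ≤ dist w w := mem_iInter₂.1 hw.2 w ⟨h3, h4⟩
      rw [dist_self] at h5
      linarith
    refine ⟨_, hpos, fun z hz h1 h2 => hcon z hz fun hzK => ?_⟩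
    have h3 : max (infDist w Xp) (infDist w Xm) ≤ max (infDist z Xp) (infDist z Xm) := hmin hzK
    exact absurd (max_lt h1 h2) (not_lt.2 h3)

/-- signed distance: `≥ 0` on `Xp`, `≤ 0` on `Xm` -/
noncomputable def sg (Xp Xm : Set β) (z : β) : ℝ := infDist z Xm - infDist z Xp

theorem continuous_sg (Xp Xm : Set β) : Continuous (sg Xp Xm) :=
  (continuous_infDist_pt Xm).sub (continuous_infDist_pt Xp)

theorem sg_swap (Xp Xm : Set β) (z : β) : sg Xm Xp z = - sg Xp Xm z := by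
  unfold sg; ring

theorem sg_dist (Xp Xm : Set β) (z w : β) : dist (sg Xp Xm z) (sg Xp Xm w) ≤ 2 * dist z w := by
  have h1 := (lipschitz_infDist_pt Xm).dist_le_mul z w
  have h2 := (lipschitz_infDist_pt Xp).dist_le_mul z w
  rw [NNReal.coe_one, one_mul, Real.dist_eq] at h1 h2
  rw [Real.dist_eq]
  have h3 : sg Xp Xm z - sg Xp Xm w =
      (infDist z Xm - infDist w Xm) - (infDist z Xp - infDist w Xp) := by
    unfold sg; ring
  rw [h3]
  refine (abs_sub _ _).trans ?_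
  linarith

theorem sg_nonneg {Xp Xm : Set β} {z : β} (h : z ∈ Xp) : 0 ≤ sg Xp Xm z := by
  unfold sg
  rw [infDist_zero_of_mem h, sub_zero]
  exact infDist_nonneg

theorem sg_nonpos {Xp Xm : Set β} {z : β} (h : z ∈ Xm) : sg Xp Xm z ≤ 0 := by
  unfold sg
  rw [infDist_zero_of_mem h, zero_sub]
  exact neg_nonpos.2 infDist_nonneg

theorem infDist_le_of_sg {Xp Xm : Set β} {z : β} (hz : z ∈ Xp ∪ Xm) {c : ℝ} (hc : 0 ≤ c)
    (h : -c ≤ sg Xp Xm z) : infDist z Xp ≤ c := by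
  rcases hz with hz | hz
  · rw [infDist_zero_of_mem hz]; exact hc
  · unfold sg at h
    rw [infDist_zero_of_mem hz] at h
    linarith

theorem mem_of_sg {Xp Xm : Set β} (cp : IsClosed Xp) (np : Xp.Nonempty) {z : β}
    (hz : z ∈ Xp ∪ Xm) (h : 0 ≤ sg Xp Xm z) : z ∈ Xp := by
  rw [cp.mem_iff_infDist_zero np]
  exact le_antisymm (infDist_le_of_sg hz le_rfl (by simpa using h)) infDist_nonneg

/-! ### One side -/

/-- ANE at given scales -/
def ANEat (k : ℕ) (Y : Set β) (ε δ : ℝ) : Prop :=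
  ∀ (γ : Type) [MetricSpace γ] (P A : Set γ), TP k P A →
    ∀ h : γ → β, MapsTo h P Y → Jump h P δ →
    ∀ b : γ → β, ContinuousOn b A → MapsTo b A Y → (∀ x ∈ A, dist (b x) (h x) < δ) →
    ∃ a : γ → β, ContinuousOn a P ∧ MapsTo a P Y ∧ EqOn a b A ∧ ∀ x ∈ P, dist (a x) (h x) < ε

/-- a function near `Y` on the part `P'` of the test space is moved into `Y` rel `A ∩ P'` and
`P₀` -/
theorem side {Y : Set β} {εY δY : ℝ} (hY : ANEat k Y εY δY) {P A P' P₀ : Set γ} (hT : TP k P A)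
    (cP' : IsClosed P') (hP' : P' ⊆ P) (cP₀ : IsClosed P₀) (hP₀ : P₀ ⊆ P') {h : γ → β}
    {δ t u : ℝ} (hJ : Jump h P δ) (hnear : ∀ x ∈ P', ∃ z ∈ Y, dist z (h x) < t) {b : γ → β}
    (cb : ContinuousOn b A) (hbY : ∀ x ∈ A, x ∈ P' → b x ∈ Y)
    (hbh : ∀ x ∈ A, dist (b x) (h x) < δ) {a₀ : γ → β} (ca₀ : ContinuousOn a₀ P₀)
    (ha₀ : MapsTo a₀ P₀ Y) (hab : ∀ x ∈ A, x ∈ P₀ → a₀ x = b x)
    (ha₀h : ∀ x ∈ P₀, dist (a₀ x) (h x) < u) (h1 : 2 * t + δ ≤ δY) (h2 : u + t ≤ δY) :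
    ∃ a : γ → β, ContinuousOn a P' ∧ MapsTo a P' Y ∧ (∀ x ∈ A, x ∈ P' → a x = b x) ∧
      EqOn a a₀ P₀ ∧ ∀ x ∈ P', dist (a x) (h x) < εY + t := by
  classical
  rcases P'.eq_empty_or_nonempty with rfl | ⟨x₀, -⟩
  · exact ⟨b, continuousOn_empty _, fun x hx => hx.elim, fun x _ hx => hx.elim,
      fun x hx => (hP₀ hx).elim, fun x hx => hx.elim⟩
  have : Nonempty β := ⟨b x₀⟩
  choose! h' hh' hh't using hnear
  set b' : γ → β := fun x => if x ∈ P₀ then a₀ x else b x with hb'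
  have e1 : ∀ x ∈ P₀, b' x = a₀ x := fun x hx => by simp only [hb', if_pos hx]
  have e2 : ∀ x ∈ A ∩ P', b' x = b x := fun x hx => by
    by_cases h0 : x ∈ P₀
    · rw [e1 x h0]; exact hab x hx.1 h0
    · simp only [hb', if_neg h0]
  have cA' : IsClosed (A ∩ P') := hT.cA.inter cP'
  have cb' : ContinuousOn b' ((A ∩ P') ∪ P₀) :=
    ((cb.mono inter_subset_left).congr e2).union_of_isClosed (ca₀.congr e1) cA' cP₀
  obtain ⟨r, hr, hJ⟩ := hJ
  obtain ⟨a, ca, maY, ea, ha⟩ := hY γ P' ((A ∩ P') ∪ P₀)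
    (hT.sub' cP' hP' (cA'.union cP₀) (union_subset inter_subset_right hP₀)) h' (fun x hx => hh' x hx)
    ⟨r, hr, fun x hx y hy hxy => by
      have h3 := hJ x (hP' hx) y (hP' hy) hxy
      have h4 := hh't x hx
      have h5 := hh't y hy
      calc dist (h' x) (h' y) ≤ dist (h' x) (h x) + dist (h x) (h y) + dist (h y) (h' y) :=
            dist_triangle4 _ _ _ _
        _ < t + δ + t := by rw [dist_comm (h y)]; linarith
        _ ≤ δY := by linarith⟩
    b' cb' (by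
      rintro x (hx | hx)
      · rw [e2 x hx]; exact hbY x hx.1 hx.2
      · rw [e1 x hx]; exact ha₀ hx) (by
      rintro x (hx | hx)
      · rw [e2 x hx]
        have h4 := hh't x hx.2
        have h5 : 0 < t := dist_nonneg.trans_lt h4
        calc dist (b x) (h' x) ≤ dist (b x) (h x) + dist (h x) (h' x) := dist_triangle _ _ _
          _ < δ + t := by rw [dist_comm (h x)]; exact add_lt_add (hbh x hx.1) h4
          _ ≤ δY := by linarith
      · rw [e1 x hx]
        have h4 := hh't x (hP₀ hx)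
        calc dist (a₀ x) (h' x) ≤ dist (a₀ x) (h x) + dist (h x) (h' x) := dist_triangle _ _ _
          _ < u + t := by rw [dist_comm (h x)]; exact add_lt_add (ha₀h x hx) h4
          _ ≤ δY := h2)
  refine ⟨a, ca, maY, fun x hx hx' => ?_, fun x hx => ?_, fun x hx => ?_⟩
  · rw [ea (Or.inl ⟨hx, hx'⟩), e2 x ⟨hx, hx'⟩]
  · rw [ea (Or.inr hx), e1 x hx]
  · calc dist (a x) (h x) ≤ dist (a x) (h' x) + dist (h' x) (h x) := dist_triangle _ _ _
      _ < εY + t := add_lt_add (ha x hx) (hh't x hx)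

/-! ### Calculus of soft maps -/

theorem Soft.cont {D : Set α} {X : Set β} {p : α → β} (h : Soft k D X p) : ContinuousOn p D := h.1

theorem Soft.maps {D : Set α} {X : Set β} {p : α → β} (h : Soft k D X p) : MapsTo p D X := h.2.1

theorem Soft.comp {D : Set α} {X : Set β} {B : Set β'} {p : β → β'} {q : α → β}
    (cX : IsCompact X) (hp : Soft k X B p) (hq : Soft k D X q) : Soft k D B (fun x => p (q x)) := by
  refine ⟨hp.1.comp hq.1 hq.2.1, fun x hx => hp.2.1 (hq.2.1 hx), ?_⟩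
  intro γ _ P A hT f f₀ cf mf cf₀ mf₀ hf ε hε
  obtain ⟨F₁, cF₁, mF₁, eF₁, hF₁⟩ := hp.2.2 γ P A hT f (fun x => q (f₀ x)) cf mf
    (hq.1.comp cf₀ mf₀) (fun x hx => hq.2.1 (mf₀ hx)) hf (ε / 2) (by positivity)
  obtain ⟨δ, hδ, hδ'⟩ := Metric.uniformContinuousOn_iff.1
    (cX.uniformContinuousOn_of_continuous hp.1) (ε / 2) (by positivity)
  obtain ⟨F, cF, mF, eF, hF⟩ := hq.2.2 γ P A hT F₁ f₀ cF₁ mF₁ cf₀ mf₀
    (fun x hx => (eF₁ hx).symm) δ hδ
  refine ⟨F, cF, mF, eF, fun x hx => ?_⟩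
  calc dist (p (q (F x))) (f x) ≤ dist (p (q (F x))) (p (F₁ x)) + dist (p (F₁ x)) (f x) :=
        dist_triangle _ _ _
    _ < ε / 2 + ε / 2 :=
        add_lt_add (hδ' _ (hq.2.1 (mF hx)) _ (mF₁ hx) (hF x hx)) (hF₁ x hx)
    _ = ε := by ring

/-- lifting with approximate boundary data; `δ` depends only on `X` and `ε` -/
theorem Soft.lp {X : Set β} (hX : ANE k X) {ε : ℝ} (hε : 0 < ε) :
    ∃ δ > 0, ∀ (α : Type) [MetricSpace α] (D : Set α) (p : α → β), Soft k D X p →
    ∀ (γ : Type) [MetricSpace γ] (P A : Set γ), TP k P A →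
    ∀ (f : γ → β) (f₀ : γ → α), ContinuousOn f P → MapsTo f P X → ContinuousOn f₀ A →
    MapsTo f₀ A D → (∀ x ∈ A, dist (p (f₀ x)) (f x) < δ) →
    ∃ F : γ → α, ContinuousOn F P ∧ MapsTo F P D ∧ EqOn F f₀ A ∧
      ∀ x ∈ P, dist (p (F x)) (f x) < ε := by
  obtain ⟨δ, hδ, H⟩ := hX (ε / 2) (by positivity)
  refine ⟨δ, hδ, fun α _ D p hp γ _ P A hT f f₀ cf mf cf₀ mf₀ hf => ?_⟩
  obtain ⟨a, ca, ma, ea, ha⟩ := H γ P A hT f mf (jump_of_continuousOn hT.cP cf hδ)
    (fun x => p (f₀ x)) (hp.1.comp cf₀ mf₀) (fun x hx => hp.2.1 (mf₀ hx)) hf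
  obtain ⟨F, cF, mF, eF, hF⟩ := hp.2.2 γ P A hT a f₀ ca ma cf₀ mf₀ (fun x hx => (ea hx).symm)
    (ε / 2) (by positivity)
  refine ⟨F, cF, mF, eF, fun x hx => ?_⟩
  calc dist (p (F x)) (f x) ≤ dist (p (F x)) (a x) + dist (a x) (f x) := dist_triangle _ _ _
    _ < ε / 2 + ε / 2 := add_lt_add (hF x hx) (ha x hx)
    _ = ε := by ring

theorem Soft.congr {D : Set α} {X : Set β} {p p' : α → β} (h : Soft k D X p) (e : EqOn p p' D) :
    Soft k D X p' := by
  refine ⟨h.1.congr fun x hx => (e hx).symm, fun x hx => by rw [← e hx]; exact h.2.1 hx, ?_⟩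
  intro γ _ P A hT f f₀ cf mf cf₀ mf₀ hf ε hε
  obtain ⟨F, cF, mF, eF, hF⟩ := h.2.2 γ P A hT f f₀ cf mf cf₀ mf₀
    (fun x hx => by rw [e (mf₀ hx)]; exact hf x hx) ε hε
  exact ⟨F, cF, mF, eF, fun x hx => by rw [← e (mF hx)]; exact hF x hx⟩

/-- homeomorphisms are soft -/
theorem Soft.homOn {X : Set β} {φ : β → β} (h : HomOn X φ) : Soft k X X φ := by
  obtain ⟨c, m, ψ, cψ, mψ, hψ⟩ := h
  refine ⟨c, m, ?_⟩
  intro γ _ P A hT f f₀ cf mf cf₀ mf₀ hf ε hε
  refine ⟨fun x => ψ (f x), cψ.comp cf mf, fun x hx => mψ (mf hx), fun x hx => ?_,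
    fun x hx => ?_⟩
  · show ψ (f x) = f₀ x
    rw [← hf x hx]
    exact (hψ _ (mf₀ hx)).1
  · show dist (φ (ψ (f x))) (f x) < ε
    rw [(hψ _ (mf hx)).2, dist_self]
    exact hε

theorem HomOn.refl (X : Set β) : HomOn X (fun x => x) :=
  ⟨continuousOn_id, fun _ hx => hx, fun x => x, continuousOn_id, fun _ hx => hx,
    fun _ _ => ⟨rfl, rfl⟩⟩

theorem Soft.refl (X : Set β) : Soft k X X (fun x => x) := Soft.homOn (HomOn.refl X)

theorem Soft.id (X : Set β) : Soft k X X (_root_.id : β → β) := Soft.refl X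

/-- precomposition with a homeomorphism of the domains -/
theorem Soft.precomp {D : Set α} {E : Set α'} {X : Set β} {p : α → β} (h : Soft k D X p)
    {e : α' → α} {e' : α → α'} (ce : ContinuousOn e E) (me : MapsTo e E D)
    (ce' : ContinuousOn e' D) (me' : MapsTo e' D E) (h1 : ∀ x ∈ E, e' (e x) = x)
    (h2 : ∀ x ∈ D, e (e' x) = x) : Soft k E X (fun x => p (e x)) := by
  refine ⟨h.1.comp ce me, fun x hx => h.2.1 (me hx), ?_⟩
  intro γ _ P A hT f f₀ cf mf cf₀ mf₀ hf ε hε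
  obtain ⟨F, cF, mF, eF, hF⟩ := h.2.2 γ P A hT f (fun x => e (f₀ x)) cf mf (ce.comp cf₀ mf₀)
    (fun x hx => me (mf₀ hx)) hf ε hε
  refine ⟨fun x => e' (F x), ce'.comp cF mF, fun x hx => me' (mF hx), fun x hx => ?_,
    fun x hx => ?_⟩
  · show e' (F x) = f₀ x
    rw [eF hx]
    exact h1 _ (mf₀ hx)
  · show dist (p (e (e' (F x)))) (f x) < ε
    rw [h2 _ (mF hx)]
    exact hF x hx

/-- the domain is not empty if the target is not empty -/
theorem Soft.nonempty [Nonempty α] {D : Set α} {X : Set β} {p : α → β} (h : Soft k D X p)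
    (hX : X.Nonempty) : D.Nonempty := by
  obtain ⟨z, hz⟩ := hX
  obtain ⟨F, -, mF, -⟩ := h.2.2 (Fin 0 → ℝ) univ ∅ tp_point (fun _ => z)
    (fun _ => Classical.arbitrary α) continuousOn_const (fun _ _ => hz) (continuousOn_empty _)
    (fun x hx => hx.elim) (fun x hx => hx.elim) 1 one_pos
  exact ⟨F 0, mF (mem_univ _)⟩

/-! ### Unions -/

theorem isClosed_part {P : Set γ} (cP : IsCompact P) {G : γ → ℝ} (cG : ContinuousOn G P)
    {t : Set ℝ} (ht : IsClosed t) : IsClosed {x | x ∈ P ∧ G x ∈ t} :=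
  cG.preimage_isClosed_of_isClosed cP.isClosed ht

/-- ANE sets: union of two compact sets -/
theorem ANE.union {Xp Xm : Set β} (cp : IsCompact Xp) (cm : IsCompact Xm) (hp : ANE k Xp)
    (hm : ANE k Xm) (h0 : ANE k (Xp ∩ Xm : Set β)) : ANE k (Xp ∪ Xm : Set β) := by
  classical
  rcases Xp.eq_empty_or_nonempty with rfl | np
  · rw [empty_union]; exact hm
  rcases Xm.eq_empty_or_nonempty with rfl | nm
  · rw [union_empty]; exact hp
  intro ε hε
  obtain ⟨δp, hδp, Hp⟩ := hp (ε / 2) (by positivity)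
  obtain ⟨δm, hδm, Hm⟩ := hm (ε / 2) (by positivity)
  set δY := min δp δm with hδY
  have hδY0 : 0 < δY := lt_min hδp hδm
  obtain ⟨d0, hd0, H0⟩ := h0 (δY / 4) (by positivity)
  set t0 := min (δY / 4) (d0 / 4) with ht0
  have ht00 : 0 < t0 := by positivity
  obtain ⟨d', hd', Hn⟩ := near_inter cp cm np nm ht00
  -- the constant
  set δ := min (min (d' / 8) (d0 / 4)) (min (δY / 40) (ε / 40)) with hδ
  have hδ0 : 0 < δ := by positivity
  have b1 : 8 * δ ≤ d' := by
    have : δ ≤ d' / 8 := (min_le_left _ _).trans (min_le_left _ _)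
    linarith
  have b2 : 4 * δ ≤ d0 := by
    have : δ ≤ d0 / 4 := (min_le_left _ _).trans (min_le_right _ _)
    linarith
  have b3 : 40 * δ ≤ δY := by
    have : δ ≤ δY / 40 := (min_le_right _ _).trans (min_le_left _ _)
    linarith
  have b4 : 40 * δ ≤ ε := by
    have : δ ≤ ε / 40 := (min_le_right _ _).trans (min_le_right _ _)
    linarith
  have b5 : 4 * t0 ≤ δY := by
    have : t0 ≤ δY / 4 := min_le_left _ _
    linarith
  have b6 : 4 * t0 ≤ d0 := by
    have : t0 ≤ d0 / 4 := min_le_right _ _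
    linarith
  refine ⟨δ, hδ0, fun γ _ P A hT h mh hJ b cb mb hbh => ?_⟩
  obtain ⟨G, cG, eG, hG⟩ := real_approx hT.cP hT.cA hT.sub (h := fun x => sg Xp Xm (h x))
    (δ := 2 * δ) (by
      obtain ⟨r, hr, hJ⟩ := hJ
      refine ⟨r, hr, fun x hx y hy hxy => (sg_dist _ _ _ _).trans_lt ?_⟩
      have := hJ x hx y hy hxy
      linarith) (b := fun x => sg Xp Xm (b x)) ((continuous_sg Xp Xm).comp_continuousOn cb)
    (fun x hx => (sg_dist _ _ _ _).trans_lt (by
      have := hbh x hx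
      linarith)) (by positivity)
  have hG' : ∀ x ∈ P, G x - 6 * δ < sg Xp Xm (h x) ∧ sg Xp Xm (h x) < G x + 6 * δ := by
    intro x hx
    have := hG x hx
    rw [Real.dist_eq, abs_lt] at this
    constructor <;> linarith [this.1, this.2]
  -- the parts
  set P₀ : Set γ := {x | x ∈ P ∧ G x ∈ ({0} : Set ℝ)} with hP₀
  set Pp : Set γ := {x | x ∈ P ∧ G x ∈ Ici (0 : ℝ)} with hPp
  set Pm : Set γ := {x | x ∈ P ∧ G x ∈ Iic (0 : ℝ)} with hPm
  have c0 : IsClosed P₀ := isClosed_part hT.cP cG isClosed_singleton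
  have cp' : IsClosed Pp := isClosed_part hT.cP cG isClosed_Ici
  have cm' : IsClosed Pm := isClosed_part hT.cP cG isClosed_Iic
  have s0 : P₀ ⊆ P := fun x hx => hx.1
  have sp' : Pp ⊆ P := fun x hx => hx.1
  have sm' : Pm ⊆ P := fun x hx => hx.1
  have s0p : P₀ ⊆ Pp := fun x hx => ⟨hx.1, by
    have : G x = 0 := hx.2
    show 0 ≤ G x
    rw [this]⟩
  have s0m : P₀ ⊆ Pm := fun x hx => ⟨hx.1, by
    have : G x = 0 := hx.2
    show G x ≤ 0
    rw [this]⟩
  -- the values of `b`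
  have bp : ∀ x ∈ A, x ∈ Pp → b x ∈ Xp := fun x hx hx' => by
    refine mem_of_sg cp.isClosed np (mb hx) ?_
    have h1 : G x = sg Xp Xm (b x) := eG hx
    rw [← h1]; exact hx'.2
  have bm : ∀ x ∈ A, x ∈ Pm → b x ∈ Xm := fun x hx hx' => by
    refine mem_of_sg cm.isClosed nm (Or.symm (mb hx)) ?_
    have h1 : G x = sg Xp Xm (b x) := eG hx
    have h2 : G x ≤ 0 := hx'.2
    rw [sg_swap, ← h1]; linarith
  -- close points
  have np' : ∀ x ∈ Pp, ∃ z ∈ Xp, dist z (h x) < 7 * δ := fun x hx => by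
    have h1 := (hG' x hx.1).1
    have h2 : 0 ≤ G x := hx.2
    have h3 := infDist_le_of_sg (mh hx.1) (c := 6 * δ) (by positivity) (by linarith)
    obtain ⟨z, hz, hzx⟩ := (infDist_lt_iff np).1 (h3.trans_lt (by linarith : 6 * δ < 7 * δ))
    exact ⟨z, hz, by rw [dist_comm]; exact hzx⟩
  have nm' : ∀ x ∈ Pm, ∃ z ∈ Xm, dist z (h x) < 7 * δ := fun x hx => by
    have h1 := (hG' x hx.1).2
    have h2 : G x ≤ 0 := hx.2
    have h3 := infDist_le_of_sg (Xp := Xm) (Xm := Xp) (Or.symm (mh hx.1)) (c := 6 * δ)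
      (by positivity) (by rw [sg_swap]; linarith)
    obtain ⟨z, hz, hzx⟩ := (infDist_lt_iff nm).1 (h3.trans_lt (by linarith : 6 * δ < 7 * δ))
    exact ⟨z, hz, by rw [dist_comm]; exact hzx⟩
  have n0 : ∀ x ∈ P₀, ∃ z ∈ Xp ∩ Xm, dist z (h x) < t0 := fun x hx => by
    have h1 := hG' x hx.1
    have h2 : G x = 0 := hx.2
    rw [h2] at h1
    have h3 := infDist_le_of_sg (mh hx.1) (c := 6 * δ) (by positivity) (by linarith)
    have h4 := infDist_le_of_sg (Xp := Xm) (Xm := Xp) (Or.symm (mh hx.1)) (c := 6 * δ)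
      (by positivity) (by rw [sg_swap]; linarith)
    exact Hn _ (mh hx.1) (by linarith) (by linarith)
  -- the middle part
  obtain ⟨a₀, ca₀, ma₀, ea₀, -, ha₀⟩ := side H0 hT c0 s0 isClosed_empty (empty_subset _) hJ n0 cb
    (fun x hx hx' => ⟨bp x hx (s0p hx'), bm x hx (s0m hx')⟩) hbh (a₀ := b) (continuousOn_empty _)
    (fun x hx => hx.elim) (fun x _ hx => hx.elim) (u := 0) (fun x hx => hx.elim) (by linarith)
    (by linarith)
  -- the two sides
  have Hp' : ANEat k Xp (ε / 2) δY := fun γ _ P A hT h mh hJ b cb mb hb => by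
    obtain ⟨r, hr, hJ⟩ := hJ
    exact Hp γ P A hT h mh ⟨r, hr, fun x hx y hy hxy => (hJ x hx y hy hxy).trans_le
      (min_le_left _ _)⟩ b cb mb fun x hx => (hb x hx).trans_le (min_le_left _ _)
  have Hm' : ANEat k Xm (ε / 2) δY := fun γ _ P A hT h mh hJ b cb mb hb => by
    obtain ⟨r, hr, hJ⟩ := hJ
    exact Hm γ P A hT h mh ⟨r, hr, fun x hx y hy hxy => (hJ x hx y hy hxy).trans_le
      (min_le_right _ _)⟩ b cb mb fun x hx => (hb x hx).trans_le (min_le_right _ _)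
  obtain ⟨ap, cap, map, eap, eap0, hap⟩ := side Hp' hT cp' sp' c0 s0p hJ np' cb bp hbh ca₀
    (fun x hx => (ma₀ hx).1) (fun x hx hx' => ea₀ x hx hx') ha₀ (by linarith) (by linarith)
  obtain ⟨am, cam, mam, eam, eam0, ham⟩ := side Hm' hT cm' sm' c0 s0m hJ nm' cb bm hbh ca₀
    (fun x hx => (ma₀ hx).2) (fun x hx hx' => ea₀ x hx hx') ha₀ (by linarith) (by linarith)
  -- gluing
  have hPP : P = Pp ∪ Pm := by
    ext x
    constructor
    · intro hx
      rcases le_total 0 (G x) with h1 | h1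
      · exact Or.inl ⟨hx, h1⟩
      · exact Or.inr ⟨hx, h1⟩
    · rintro (hx | hx)
      · exact hx.1
      · exact hx.1
  set a : γ → β := fun x => if x ∈ Pp then ap x else am x with ha
  have e1 : ∀ x ∈ Pp, a x = ap x := fun x hx => by simp only [ha, if_pos hx]
  have e2 : ∀ x ∈ Pm, a x = am x := fun x hx => by
    by_cases h0 : x ∈ Pp
    · have h1 : x ∈ P₀ := ⟨hx.1, le_antisymm hx.2 h0.2⟩
      rw [e1 x h0, eap0 h1, eam0 h1]
    · simp only [ha, if_neg h0]
  refine ⟨a, ?_, ?_, ?_, ?_⟩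
  · rw [hPP]
    exact (cap.congr e1).union_of_isClosed (cam.congr e2) cp' cm'
  · intro x hx
    rw [hPP] at hx
    rcases hx with hx | hx
    · rw [e1 x hx]; exact Or.inl (map hx)
    · rw [e2 x hx]; exact Or.inr (mam hx)
  · intro x hx
    have h1 := hT.sub hx
    rw [hPP] at h1
    rcases h1 with h1 | h1
    · rw [e1 x h1]; exact eap x hx h1
    · rw [e2 x h1]; exact eam x hx h1
  · intro x hx
    rw [hPP] at hx
    rcases hx with hx | hx
    · rw [e1 x hx]
      have := hap x hx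
      linarith
    · rw [e2 x hx]
      have := ham x hx
      linarith

/-- gluing of soft maps -/
theorem Soft.glue {Dp Dm : Set α} {Xp Xm : Set β} (cDp : IsCompact Dp) (cDm : IsCompact Dm)
    (cXp : IsCompact Xp) (cXm : IsCompact Xm) (hXp : ANE k Xp) (hXm : ANE k Xm)
    (hX0 : ANE k (Xp ∩ Xm : Set β)) {a : α → β} (sp : Soft k Dp Xp a) (sm : Soft k Dm Xm a)
    (s0 : Soft k (Dp ∩ Dm : Set α) (Xp ∩ Xm : Set β) a) :
    Soft k (Dp ∪ Dm : Set α) (Xp ∪ Xm : Set β) a := by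
  classical
  have ca : ContinuousOn a (Dp ∪ Dm) := sp.1.union_of_isClosed sm.1 cDp.isClosed cDm.isClosed
  have ma : MapsTo a (Dp ∪ Dm) (Xp ∪ Xm) := by
    rintro x (hx | hx)
    · exact Or.inl (sp.2.1 hx)
    · exact Or.inr (sm.2.1 hx)
  refine ⟨ca, ma, ?_⟩
  intro γ _ P A hT f f₀ cf mf cf₀ mf₀ hf ε hε
  -- degenerate cases
  rcases isEmpty_or_nonempty γ with hγ | ⟨⟨x₀⟩⟩
  · exact ⟨f₀, fun x _ => hγ.elim x, fun x _ => hγ.elim x, fun x _ => rfl,
      fun x _ => hγ.elim x⟩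
  have : Nonempty α := ⟨f₀ x₀⟩
  rcases Dp.eq_empty_or_nonempty with rfl | nDp
  · have hXe : Xp = ∅ := by
      rcases Xp.eq_empty_or_nonempty with h | h
      · exact h
      · exact absurd (sp.nonempty h) not_nonempty_empty
    subst hXe
    rw [empty_union] at mf mf₀ ⊢
    exact sm.2.2 γ P A hT f f₀ cf mf cf₀ mf₀ hf ε hε
  rcases Dm.eq_empty_or_nonempty with rfl | nDm
  · have hXe : Xm = ∅ := by
      rcases Xm.eq_empty_or_nonempty with h | h
      · exact h
      · exact absurd (sm.nonempty h) not_nonempty_empty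
    subst hXe
    rw [union_empty] at mf mf₀ ⊢
    exact sp.2.2 γ P A hT f f₀ cf mf cf₀ mf₀ hf ε hε
  have np : Xp.Nonempty := nDp.image a |>.mono (image_subset_iff.2 sp.2.1)
  have nm : Xm.Nonempty := nDm.image a |>.mono (image_subset_iff.2 sm.2.1)
  -- constants
  obtain ⟨δp, hδp, Hp⟩ := hXp (ε / 4) (by positivity)
  obtain ⟨δm, hδm, Hm⟩ := hXm (ε / 4) (by positivity)
  set δY := min δp δm with hδY
  have hδY0 : 0 < δY := lt_min hδp hδm
  obtain ⟨d0, hd0, H0⟩ := hX0 (δY / 8) (by positivity)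
  set t0 := min (δY / 8) (d0 / 4) with ht0
  have ht00 : 0 < t0 := by positivity
  obtain ⟨d', hd', Hn⟩ := near_inter cXp cXm np nm ht00
  set t := min d' (min (ε / 4) (δY / 4)) with ht
  have ht0' : 0 < t := by positivity
  set δ := min (d0 / 4) (δY / 4) with hδ
  have hδ0 : 0 < δ := by positivity
  have b0 : t ≤ d' := min_le_left _ _
  have b1 : 4 * t ≤ ε := by
    have : t ≤ ε / 4 := (min_le_right _ _).trans (min_le_left _ _)
    linarith
  have b2 : 4 * t ≤ δY := by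
    have : t ≤ δY / 4 := (min_le_right _ _).trans (min_le_right _ _)
    linarith
  have b3 : 4 * δ ≤ d0 := by
    have : δ ≤ d0 / 4 := min_le_left _ _
    linarith
  have b4 : 4 * δ ≤ δY := by
    have : δ ≤ δY / 4 := min_le_right _ _
    linarith
  have b5 : 8 * t0 ≤ δY := by
    have : t0 ≤ δY / 8 := min_le_left _ _
    linarith
  have b6 : 4 * t0 ≤ d0 := by
    have : t0 ≤ d0 / 4 := min_le_right _ _
    linarith
  have hJ : Jump f P δ := jump_of_continuousOn hT.cP cf hδ0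
  -- the function `G`
  have cA : IsCompact A := hT.cP.of_isClosed_subset hT.cA hT.sub
  obtain ⟨g, cg, eg⟩ := tietze (n := 1) hT.cA (h := fun x _ => sg Dp Dm (f₀ x))
    (continuousOn_pi.2 fun _ => (continuous_sg Dp Dm).comp_continuousOn cf₀)
  have cg0 : Continuous fun x => g x 0 := (continuous_apply 0).comp cg
  obtain ⟨C, hC⟩ := hT.cP.exists_bound_of_continuousOn cg0.continuousOn
  have hC' : ∀ x ∈ P, |g x 0| ≤ C := fun x hx => hC x hx
  set Kc : ℝ := 2 * (|C| + 1) / t with hKc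
  have hK0 : 0 < Kc := by positivity
  have hKt : Kc * t = 2 * (|C| + 1) := by
    rw [hKc]; field_simp
  set G : γ → ℝ := fun x => g x 0 + Kc * sg Xp Xm (f x) with hG
  have cG : ContinuousOn G P :=
    cg0.continuousOn.add (continuousOn_const.mul ((continuous_sg Xp Xm).comp_continuousOn cf))
  have eG : ∀ x ∈ A, G x = sg Dp Dm (f₀ x) + Kc * sg Xp Xm (a (f₀ x)) := fun x hx => by
    have h1 := congrFun (eg hx) 0
    simp only [hG]
    rw [h1, hf x hx]
  -- the parts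
  set P₀ : Set γ := {x | x ∈ P ∧ G x ∈ ({0} : Set ℝ)} with hP₀
  set Pp : Set γ := {x | x ∈ P ∧ G x ∈ Ici (0 : ℝ)} with hPp
  set Pm : Set γ := {x | x ∈ P ∧ G x ∈ Iic (0 : ℝ)} with hPm
  have c0 : IsClosed P₀ := isClosed_part hT.cP cG isClosed_singleton
  have cp' : IsClosed Pp := isClosed_part hT.cP cG isClosed_Ici
  have cm' : IsClosed Pm := isClosed_part hT.cP cG isClosed_Iic
  have s0' : P₀ ⊆ P := fun x hx => hx.1
  have sp' : Pp ⊆ P := fun x hx => hx.1
  have sm' : Pm ⊆ P := fun x hx => hx.1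
  have s0p : P₀ ⊆ Pp := fun x hx => ⟨hx.1, by
    have : G x = 0 := hx.2
    show 0 ≤ G x
    rw [this]⟩
  have s0m : P₀ ⊆ Pm := fun x hx => ⟨hx.1, by
    have : G x = 0 := hx.2
    show G x ≤ 0
    rw [this]⟩
  -- the position of the boundary data
  have fp : ∀ x ∈ A, x ∈ Pp → f₀ x ∈ Dp := fun x hx hx' => by
    by_contra hc
    have h1 : f₀ x ∈ Dm := (mf₀ hx).resolve_left hc
    have h2 : sg Dp Dm (f₀ x) < 0 := by
      by_contra h
      push Not at h
      exact hc (mem_of_sg cDp.isClosed nDp (mf₀ hx) h)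
    have h3 : sg Xp Xm (a (f₀ x)) ≤ 0 := sg_nonpos (sm.2.1 h1)
    have h4 : 0 ≤ G x := hx'.2
    rw [eG x hx] at h4
    nlinarith
  have fm : ∀ x ∈ A, x ∈ Pm → f₀ x ∈ Dm := fun x hx hx' => by
    by_contra hc
    have h1 : f₀ x ∈ Dp := (mf₀ hx).resolve_right hc
    have h2 : 0 < sg Dp Dm (f₀ x) := by
      by_contra h
      push Not at h
      exact hc (mem_of_sg cDm.isClosed nDm (Or.symm (mf₀ hx)) (by rw [sg_swap]; linarith))
    have h3 : 0 ≤ sg Xp Xm (a (f₀ x)) := sg_nonneg (sp.2.1 h1)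
    have h4 : G x ≤ 0 := hx'.2
    rw [eG x hx] at h4
    nlinarith
  -- close points
  have hgC : ∀ x ∈ P, |g x 0| ≤ |C| := fun x hx => (hC' x hx).trans (le_abs_self C)
  have dp : ∀ x ∈ P, 0 ≤ G x → infDist (f x) Xp ≤ t / 2 := fun x hx h => by
    refine infDist_le_of_sg (mf hx) (by positivity) ?_
    have h1 := (abs_le.1 (hgC x hx)).2
    simp only [hG] at h
    have h2 : -(|C|) ≤ Kc * sg Xp Xm (f x) := by linarith
    by_contra hc
    push Not at hc
    have h3 : Kc * sg Xp Xm (f x) < Kc * (-(t / 2)) := mul_lt_mul_of_pos_left hc hK0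
    have h4 : Kc * (-(t / 2)) = -(|C| + 1) := by
      have : Kc * (-(t / 2)) = -(Kc * t) / 2 := by ring
      rw [this, hKt]; ring
    linarith
  have dm : ∀ x ∈ P, G x ≤ 0 → infDist (f x) Xm ≤ t / 2 := fun x hx h => by
    refine infDist_le_of_sg (Xp := Xm) (Xm := Xp) (Or.symm (mf hx)) (by positivity) ?_
    rw [sg_swap]
    have h1 := (abs_le.1 (hgC x hx)).1
    simp only [hG] at h
    have h2 : Kc * sg Xp Xm (f x) ≤ |C| := by linarith
    by_contra hc
    push Not at hc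
    have h3 : Kc * (t / 2) < Kc * sg Xp Xm (f x) := mul_lt_mul_of_pos_left (by linarith) hK0
    have h4 : Kc * (t / 2) = |C| + 1 := by
      have : Kc * (t / 2) = (Kc * t) / 2 := by ring
      rw [this, hKt]; ring
    linarith
  have np' : ∀ x ∈ Pp, ∃ z ∈ Xp, dist z (f x) < t := fun x hx => by
    obtain ⟨z, hz, hzx⟩ := (infDist_lt_iff np).1 ((dp x hx.1 hx.2).trans_lt (half_lt_self ht0'))
    exact ⟨z, hz, by rw [dist_comm]; exact hzx⟩
  have nm' : ∀ x ∈ Pm, ∃ z ∈ Xm, dist z (f x) < t := fun x hx => by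
    obtain ⟨z, hz, hzx⟩ := (infDist_lt_iff nm).1 ((dm x hx.1 hx.2).trans_lt (half_lt_self ht0'))
    exact ⟨z, hz, by rw [dist_comm]; exact hzx⟩
  have n0 : ∀ x ∈ P₀, ∃ z ∈ Xp ∩ Xm, dist z (f x) < t0 := fun x hx => by
    have h2 : G x = 0 := hx.2
    have h3 := dp x hx.1 h2.ge
    have h4 := dm x hx.1 h2.le
    exact Hn _ (mf hx.1) (by linarith) (by linarith)
  -- the middle part
  obtain ⟨a₀, ca₀, ma₀, ea₀, -, ha₀⟩ := side H0 hT c0 s0' isClosed_empty (empty_subset _) hJ n0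
    (b := f) (cf.mono hT.sub) (fun x hx hx' => by
      rw [← hf x hx]
      exact ⟨sp.2.1 (fp x hx (s0p hx')), sm.2.1 (fm x hx (s0m hx'))⟩)
    (fun x hx => by rw [dist_self]; exact hδ0) (a₀ := f) (continuousOn_empty _)
    (fun x hx => hx.elim) (fun x _ hx => hx.elim) (u := 0) (fun x hx => hx.elim) (by linarith)
    (by linarith)
  obtain ⟨F₀, cF₀, mF₀, eF₀, hF₀⟩ := s0.2.2 γ P₀ (A ∩ P₀) (hT.sub' c0 s0' (hT.cA.inter c0)
    inter_subset_right) a₀ f₀ ca₀ ma₀ (cf₀.mono inter_subset_left)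
    (fun x hx => ⟨fp x hx.1 (s0p hx.2), fm x hx.1 (s0m hx.2)⟩)
    (fun x hx => by rw [ea₀ x hx.1 hx.2]; exact hf x hx.1) (δY / 8) (by positivity)
  have hF₀f : ∀ x ∈ P₀, dist (a (F₀ x)) (f x) < δY / 2 := fun x hx => by
    calc dist (a (F₀ x)) (f x) ≤ dist (a (F₀ x)) (a₀ x) + dist (a₀ x) (f x) := dist_triangle _ _ _
      _ < δY / 8 + (δY / 8 + t0) := add_lt_add (hF₀ x hx) (ha₀ x hx)
      _ ≤ δY / 2 := by linarith
  -- one side
  have one : ∀ (D : Set α) (X : Set β) (P' : Set γ), IsClosed P' → P' ⊆ P → P₀ ⊆ P' →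
      Soft k D X a → ANEat k X (ε / 4) δY → (∀ x ∈ A, x ∈ P' → f₀ x ∈ D) →
      (Dp ∩ Dm ⊆ D) → (∀ x ∈ P', ∃ z ∈ X, dist z (f x) < t) →
      ∃ F : γ → α, ContinuousOn F P' ∧ MapsTo F P' D ∧ (∀ x ∈ A, x ∈ P' → F x = f₀ x) ∧
        EqOn F F₀ P₀ ∧ ∀ x ∈ P', dist (a (F x)) (f x) < ε := by
    intro D X P' cP' hP' hP₀' hS hANE hfD hD hnear
    obtain ⟨a₁, ca₁, ma₁, ea₁, ea₁0, ha₁⟩ := side hANE hT cP' hP' c0 hP₀' hJ hnear (b := f)
      (cf.mono hT.sub) (fun x hx hx' => by rw [← hf x hx]; exact hS.2.1 (hfD x hx hx'))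
      (fun x hx => by rw [dist_self]; exact hδ0) (a₀ := fun x => a (F₀ x))
      (ca.comp cF₀ fun x hx => Or.inl (mF₀ hx).1) (fun x hx => hS.2.1 (hD (mF₀ hx)))
      (fun x hx hx' => by
        show a (F₀ x) = f x
        rw [eF₀ ⟨hx, hx'⟩]; exact hf x hx) hF₀f (by linarith) (by linarith)
    set b' : γ → α := fun x => if x ∈ P₀ then F₀ x else f₀ x with hb'
    have e1 : ∀ x ∈ P₀, b' x = F₀ x := fun x hx => by simp only [hb', if_pos hx]
    have e2 : ∀ x ∈ A ∩ P', b' x = f₀ x := fun x hx => by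
      by_cases h0 : x ∈ P₀
      · rw [e1 x h0]; exact eF₀ ⟨hx.1, h0⟩
      · simp only [hb', if_neg h0]
    have cA' : IsClosed (A ∩ P') := hT.cA.inter cP'
    have cb' : ContinuousOn b' ((A ∩ P') ∪ P₀) :=
      ((cf₀.mono inter_subset_left).congr e2).union_of_isClosed (cF₀.congr e1) cA' c0
    obtain ⟨F, cF, mF, eF, hF⟩ := hS.2.2 γ P' ((A ∩ P') ∪ P₀)
      (hT.sub' cP' hP' (cA'.union c0) (union_subset inter_subset_right hP₀')) a₁ b' ca₁ ma₁ cb' (by
        rintro x (hx | hx)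
        · rw [e2 x hx]; exact hfD x hx.1 hx.2
        · rw [e1 x hx]; exact hD (mF₀ hx)) (by
        rintro x (hx | hx)
        · rw [e2 x hx, ea₁ x hx.1 hx.2]; exact hf x hx.1
        · rw [e1 x hx, ea₁0 hx]) (ε / 4) (by positivity)
    refine ⟨F, cF, mF, fun x hx hx' => ?_, fun x hx => ?_, fun x hx => ?_⟩
    · rw [eF (Or.inl ⟨hx, hx'⟩), e2 x ⟨hx, hx'⟩]
    · rw [eF (Or.inr hx), e1 x hx]
    · calc dist (a (F x)) (f x) ≤ dist (a (F x)) (a₁ x) + dist (a₁ x) (f x) :=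
            dist_triangle _ _ _
        _ < ε / 4 + (ε / 4 + t) := add_lt_add (hF x hx) (ha₁ x hx)
        _ ≤ ε := by linarith
  have Hp' : ANEat k Xp (ε / 4) δY := fun γ _ P A hT h mh hJ b cb mb hb => by
    obtain ⟨r, hr, hJ⟩ := hJ
    exact Hp γ P A hT h mh ⟨r, hr, fun x hx y hy hxy => (hJ x hx y hy hxy).trans_le
      (min_le_left _ _)⟩ b cb mb fun x hx => (hb x hx).trans_le (min_le_left _ _)
  have Hm' : ANEat k Xm (ε / 4) δY := fun γ _ P A hT h mh hJ b cb mb hb => by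
    obtain ⟨r, hr, hJ⟩ := hJ
    exact Hm γ P A hT h mh ⟨r, hr, fun x hx y hy hxy => (hJ x hx y hy hxy).trans_le
      (min_le_right _ _)⟩ b cb mb fun x hx => (hb x hx).trans_le (min_le_right _ _)
  obtain ⟨Fp, cFp, mFp, eFp, eFp0, hFp⟩ := one Dp Xp Pp cp' sp' s0p sp Hp' fp inter_subset_left np'
  obtain ⟨Fm, cFm, mFm, eFm, eFm0, hFm⟩ := one Dm Xm Pm cm' sm' s0m sm Hm' fm inter_subset_right nm'
  -- gluing
  have hPP : P = Pp ∪ Pm := by
    ext x
    constructor
    · intro hx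
      rcases le_total 0 (G x) with h1 | h1
      · exact Or.inl ⟨hx, h1⟩
      · exact Or.inr ⟨hx, h1⟩
    · rintro (hx | hx)
      · exact hx.1
      · exact hx.1
  set F : γ → α := fun x => if x ∈ Pp then Fp x else Fm x with hFdef
  have e1 : ∀ x ∈ Pp, F x = Fp x := fun x hx => by simp only [hFdef, if_pos hx]
  have e2 : ∀ x ∈ Pm, F x = Fm x := fun x hx => by
    by_cases h0 : x ∈ Pp
    · have h1 : x ∈ P₀ := ⟨hx.1, le_antisymm hx.2 h0.2⟩
      rw [e1 x h0, eFp0 h1, eFm0 h1]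
    · simp only [hFdef, if_neg h0]
  refine ⟨F, ?_, ?_, ?_, ?_⟩
  · rw [hPP]
    exact (cFp.congr e1).union_of_isClosed (cFm.congr e2) cp' cm'
  · intro x hx
    rw [hPP] at hx
    rcases hx with hx | hx
    · rw [e1 x hx]; exact Or.inl (mFp hx)
    · rw [e2 x hx]; exact Or.inr (mFm hx)
  · intro x hx
    have h1 := hT.sub hx
    rw [hPP] at h1
    rcases h1 with h1 | h1
    · rw [e1 x h1]; exact eFp x hx h1
    · rw [e2 x h1]; exact eFm x hx h1
  · intro x hx
    rw [hPP] at hx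
    rcases hx with hx | hx
    · rw [e1 x hx]; exact hFp x hx
    · rw [e2 x hx]; exact hFm x hx

/-- UNION lemma: a map which is soft on two compact sets and on their intersection -/
theorem Soft.union {Dp Dm : Set α} {X : Set β} (cDp : IsCompact Dp) (cDm : IsCompact Dm)
    (cX : IsCompact X) (hX : ANE k X) {a : α → β} (sp : Soft k Dp X a) (sm : Soft k Dm X a)
    (s0 : Soft k (Dp ∩ Dm : Set α) X a) : Soft k (Dp ∪ Dm : Set α) X a := by
  have h := Soft.glue cDp cDm cX cX hX hX (by rw [inter_self]; exact hX) sp sm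
    (by rw [inter_self]; exact s0)
  rwa [union_self] at h

end Chi

end Pool.Agent.Work.MP_017613_gt
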