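import Pool.Agent.Work.MP_017613_gt.Chi0
import Pool.Agent.Work.MP_017613_gt.Defs

/-!
The gluing theorem: if a compact space `D` is the union of two closed subsets `P`, `Q` and
`P ∩ Q` is a Z-set in both of them, then disjoint approximations in `P`, `Q` and `P ∩ Q` give
disjoint approximations in `D`.
-/

set_option linter.unusedSectionVars false

open Set Topology Metric

namespace Pool.Agent.Work.MP_017613_gt

namespace Chi

/-! ### General facts -/

section General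

variable {N N' : Type*} [MetricSpace N] [CompactSpace N] [MetricSpace N'] [CompactSpace N']

/-- disjoint images of a compact set, for maps from a compact space -/
theorem isOpen_disjOn {P : Type*} [MetricSpace P] [CompactSpace P] {σ : Set P}
    (hσ : IsCompact σ) :
    IsOpen {p : C(P, N) × C(P, N) | ∀ x ∈ σ, ∀ y ∈ σ, p.1 x ≠ p.2 y} := by
  rw [Metric.isOpen_iff]
  rintro ⟨f, g⟩ h
  rcases σ.eq_empty_or_nonempty with rfl | hne
  · exact ⟨1, one_pos, fun q _ x hx => absurd hx (notMem_empty x)⟩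
  obtain ⟨δ, hδ, hlow⟩ : ∃ δ > 0, ∀ x ∈ σ, ∀ y ∈ σ, δ ≤ dist (f x) (g y) := by
    have hc : Continuous fun p : P × P => dist (f p.1) (g p.2) := by fun_prop
    obtain ⟨⟨x0, y0⟩, h0, hmin⟩ := (hσ.prod hσ).exists_isMinOn (hne.prod hne) hc.continuousOn
    exact ⟨dist (f x0) (g y0), dist_pos.2 (h x0 h0.1 y0 h0.2), fun x hx y hy =>
      hmin (mk_mem_prod hx hy)⟩
  refine ⟨δ / 2, by positivity, fun q hq x hx y hy he => ?_⟩
  rw [mem_ball, Prod.dist_eq, max_lt_iff] at hq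
  have h1 := (ContinuousMap.dist_apply_le_dist x).trans_lt hq.1
  have h2 := (ContinuousMap.dist_apply_le_dist y).trans_lt hq.2
  simp only at h1 h2
  have h3 := hlow x hx y hy
  have h4 : dist (f x) (g y) ≤ dist (q.1 x) (f x) + dist (q.2 y) (g y) := by
    calc dist (f x) (g y) ≤ dist (f x) (q.1 x) + dist (q.1 x) (g y) := dist_triangle _ _ _
      _ = dist (q.1 x) (f x) + dist (q.2 y) (g y) := by rw [dist_comm (f x), he]
  linarith

/-- disjoint approximations of the identity which avoid a Z-set -/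
theorem DD.avoid (h : DD N) {W : Set N} (hW : ZS W) {ε : ℝ} (hε : 0 < ε) :
    ∃ φ ψ : C(N, N), (∀ x, dist (φ x) x < ε) ∧ (∀ x, dist (ψ x) x < ε) ∧
      (∀ x y, φ x ≠ ψ y) ∧ (∀ x, φ x ∉ W) ∧ ∀ x, ψ x ∉ W := by
  obtain ⟨φ, ψ, h1, h2, h3⟩ := h (ε / 2) (half_pos hε)
  have ho := isOpen_disj (P := N) (N := N)
  rw [Metric.isOpen_iff] at ho
  obtain ⟨δ, hδ, hsub⟩ := ho (φ, ψ) h3
  obtain ⟨θ, hθ, hθW⟩ := hW.2 (min (ε / 2) (δ / 2)) (by positivity)
  refine ⟨θ.comp φ, θ.comp ψ, fun x => ?_, fun x => ?_, ?_, fun x => hθW _, fun x => hθW _⟩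
  · calc dist (θ (φ x)) x ≤ dist (θ (φ x)) (φ x) + dist (φ x) x := dist_triangle _ _ _
      _ < ε / 2 + ε / 2 := add_lt_add ((hθ _).trans_le (min_le_left _ _)) (h1 x)
      _ = ε := add_halves ε
  · calc dist (θ (ψ x)) x ≤ dist (θ (ψ x)) (ψ x) + dist (ψ x) x := dist_triangle _ _ _
      _ < ε / 2 + ε / 2 := add_lt_add ((hθ _).trans_le (min_le_left _ _)) (h2 x)
      _ = ε := add_halves ε
  · have hb : (θ.comp φ, θ.comp ψ) ∈ ball (φ, ψ) δ := by
      rw [mem_ball, Prod.dist_eq]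
      refine lt_of_le_of_lt (max_le ?_ ?_) (half_lt_self hδ)
      · exact (ContinuousMap.dist_le (by positivity)).2 fun x =>
          ((hθ (φ x)).trans_le (min_le_right _ _)).le
      · exact (ContinuousMap.dist_le (by positivity)).2 fun x =>
          ((hθ (ψ x)).trans_le (min_le_right _ _)).le
    exact hsub hb

/-- homeomorphic invariance -/
theorem DD.homeo (h : DD N) (e : N ≃ₜ N') : DD N' := by
  intro ε hε
  obtain ⟨δ, hδ, hu⟩ := Metric.uniformContinuous_iff.1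
    (CompactSpace.uniformContinuous_of_continuous e.continuous) ε hε
  obtain ⟨φ, ψ, h1, h2, h3⟩ := h δ hδ
  refine ⟨⟨fun y => e (φ (e.symm y)), by fun_prop⟩, ⟨fun y => e (ψ (e.symm y)), by fun_prop⟩,
    fun y => ?_, fun y => ?_, fun x y he => h3 _ _ (e.injective he)⟩
  · have := hu (h1 (e.symm y))
    simpa using this
  · have := hu (h2 (e.symm y))
    simpa using this

/-- homeomorphic invariance -/
theorem ZD.homeo (h : ZD N) (e : N ≃ₜ N') : ZD N' :=
  DD.zd (DD.homeo (ZD.dd h) e)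

/-- homeomorphic invariance -/
theorem PushOff.homeo {k : ℕ} (h : PushOff k (univ : Set N)) (e : N ≃ₜ N') :
    PushOff k (univ : Set N') := by
  have := Pool.Agent.Work.MP_017613_gt.PushOff.image h isCompact_univ (φ := e)
    e.continuous.continuousOn e.injective.injOn
  rwa [image_univ, e.surjective.range_eq] at this

end General

/-! ### Transfer of the extension property -/

section Transfer

variable {β β' : Type} [MetricSpace β] [MetricSpace β'] {k : ℕ}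

theorem ANE.transfer {X : Set β} {X' : Set β'} (h : ANE k X) (hX : IsCompact X)
    (hX' : IsCompact X') {e : β → β'} {e' : β' → β} (he : ContinuousOn e X)
    (he' : ContinuousOn e' X') (hm : MapsTo e X X') (hm' : MapsTo e' X' X)
    (hi : ∀ y ∈ X', e (e' y) = y) : ANE k X' := by
  intro ε hε
  have hu := hX.uniformContinuousOn_of_continuous he
  have hu' := hX'.uniformContinuousOn_of_continuous he'
  obtain ⟨η, hη, h1⟩ := Metric.uniformContinuousOn_iff.1 hu ε hε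
  obtain ⟨δ, hδ, h2⟩ := h η hη
  obtain ⟨ρ, hρ, h3⟩ := Metric.uniformContinuousOn_iff.1 hu' δ hδ
  refine ⟨ρ, hρ, fun γ _ P A hT g hg hj b hb hbm hbd => ?_⟩
  obtain ⟨r, hr, hjr⟩ := hj
  obtain ⟨a, ha, ham, hae, had⟩ := h2 γ P A hT (fun x => e' (g x)) (fun x hx => hm' (hg hx))
    ⟨r, hr, fun x hx y hy hxy => h3 _ (hg hx) _ (hg hy) (hjr x hx y hy hxy)⟩ (fun x => e' (b x))
    (he'.comp hb hbm) (fun x hx => hm' (hbm hx))
    (fun x hx => h3 _ (hbm hx) _ (hg (hT.sub hx)) (hbd x hx))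
  refine ⟨fun x => e (a x), he.comp ha ham, fun x hx => hm (ham hx), fun x hx => ?_,
    fun x hx => ?_⟩
  · show e (a x) = b x
    rw [hae hx]
    exact hi _ (hbm hx)
  · have h4 := h1 _ (ham hx) _ (hm' (hg hx)) (had x hx)
    rwa [hi _ (hg hx)] at h4

/-- from a set to the corresponding type -/
theorem ANE.toSubtype {X : Set β} (h : ANE k X) (hX : IsCompact X) :
    ANE k (univ : Set X) := by
  classical
  rcases isEmpty_or_nonempty X with hE | ⟨⟨x₀⟩⟩
  · intro ε hε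
    refine ⟨1, one_pos, fun γ _ P A _ g _ _ b hb _ _ => ?_⟩
    have : P = ∅ := by
      ext x
      exact ⟨fun _ => (hE.false (g x)).elim, fun hx => absurd hx (notMem_empty x)⟩
    subst this
    exact ⟨b, continuousOn_empty _, fun x hx => absurd hx (notMem_empty x),
      fun x _ => rfl, fun x hx => absurd hx (notMem_empty x)⟩
  have : CompactSpace X := isCompact_iff_compactSpace.1 hX
  refine h.transfer hX isCompact_univ (e := fun x => if hx : x ∈ X then ⟨x, hx⟩ else x₀)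
    (e' := fun x => x.1) ?_ continuous_subtype_val.continuousOn (fun x _ => mem_univ _)
    (fun x _ => x.2) (fun x _ => by simp)
  rw [continuousOn_iff_continuous_domRestrict]
  have : X.domRestrict (fun x => if hx : x ∈ X then (⟨x, hx⟩ : X) else x₀) = fun x => x := by
    funext x
    simp [Set.domRestrict]
  rw [this]
  exact continuous_id

/-- from a type of points of a set to the set -/
theorem ANE.ofSubtype {X : Set β} (h : ANE k (univ : Set X)) (hX : IsCompact X) : ANE k X := by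
  classical
  rcases isEmpty_or_nonempty X with hE | ⟨⟨x₀⟩⟩
  · intro ε hε
    refine ⟨1, one_pos, fun γ _ P A _ g hg _ b hb _ _ => ?_⟩
    have : P = ∅ := by
      ext x
      exact ⟨fun hx => (hE.false ⟨g x, hg hx⟩).elim, fun hx => absurd hx (notMem_empty x)⟩
    subst this
    exact ⟨b, continuousOn_empty _, fun x hx => absurd hx (notMem_empty x),
      fun x _ => rfl, fun x hx => absurd hx (notMem_empty x)⟩
  have : CompactSpace X := isCompact_iff_compactSpace.1 hX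
  refine h.transfer isCompact_univ hX (e := fun x => x.1)
    (e' := fun x => if hx : x ∈ X then ⟨x, hx⟩ else x₀) continuous_subtype_val.continuousOn ?_
    (fun x _ => x.2) (fun x _ => mem_univ _) (fun x hx => by simp [hx])
  rw [continuousOn_iff_continuous_domRestrict]
  have : X.domRestrict (fun x => if hx : x ∈ X then (⟨x, hx⟩ : X) else x₀) = fun x => x := by
    funext x
    simp [Set.domRestrict]
  rw [this]
  exact continuous_id

theorem ANE.homeo {N N' : Type} [MetricSpace N] [CompactSpace N] [MetricSpace N']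
    [CompactSpace N'] (h : ANE k (univ : Set N)) (e : N ≃ₜ N') : ANE k (univ : Set N') :=
  h.transfer isCompact_univ isCompact_univ (e := e) (e' := e.symm) e.continuous.continuousOn
    e.symm.continuous.continuousOn (fun _ _ => mem_univ _) (fun _ _ => mem_univ _)
    (fun y _ => e.apply_symm_apply y)

end Transfer

/-! ### Disjoint approximations relative to a Z-set -/

section Rel

variable {N : Type} [MetricSpace N] [CompactSpace N] {k : ℕ}

/-- extension of maps of `N` close to a given map -/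
theorem ANE.ext (hN : ANE k (univ : Set N)) (hd : PushOff k (univ : Set N)) {ε : ℝ}
    (hε : 0 < ε) : ∃ δ > 0, ∀ B : Set N, IsClosed B → ∀ (F₀ : C(N, N)) (b : N → N),
      ContinuousOn b B → (∀ x ∈ B, dist (b x) (F₀ x) < δ) →
      ∃ F : C(N, N), EqOn F b B ∧ ∀ x, dist (F x) (F₀ x) < ε := by
  obtain ⟨δ, hδ, h⟩ := hN ε hε
  refine ⟨δ, hδ, fun B hB F₀ b hb hbd => ?_⟩
  obtain ⟨r, hr, hu⟩ := Metric.uniformContinuous_iff.1
    (CompactSpace.uniformContinuous_of_continuous F₀.continuous) δ hδ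
  obtain ⟨a, ha, -, hae, had⟩ := h N univ B ⟨isCompact_univ, hd, hB, subset_univ _⟩ F₀
    (fun x _ => mem_univ _) ⟨r, hr, fun x _ y _ hxy => hu hxy⟩ b hb (fun x _ => mem_univ _) hbd
  exact ⟨⟨a, continuousOn_univ.1 ha⟩, hae, fun x => had x (mem_univ x)⟩

/-- Extension of disjoint maps of a Z-set. -/
theorem rel_disj (hN : ANE k (univ : Set N)) (hd : PushOff k (univ : Set N)) {W : Set N}
    (hW : ZS W) (hDD : DD N) {ε : ℝ} (hε : 0 < ε) : ∃ δ > 0, ∀ f g : N → N, ContinuousOn f W →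
      ContinuousOn g W → MapsTo f W W → MapsTo g W W → (∀ x ∈ W, dist (f x) x < δ) →
      (∀ x ∈ W, dist (g x) x < δ) → (∀ x ∈ W, ∀ y ∈ W, f x ≠ g y) →
      ∃ F G : C(N, N), (∀ x, dist (F x) x < ε) ∧ (∀ x, dist (G x) x < ε) ∧ EqOn F f W ∧
        EqOn G g W ∧ (∀ x, x ∉ W → F x ∉ W) ∧ (∀ x, x ∉ W → G x ∉ W) ∧ ∀ x y, F x ≠ G y := by
  obtain ⟨δ, hδ, h1⟩ := hN.ext hd (half_pos hε)
  refine ⟨δ, hδ, fun f g hf hg hfW hgW hfd hgd hfg => ?_⟩
  obtain ⟨F₁, hF₁, hF₁d⟩ := h1 W hW.1 (ContinuousMap.id N) f hf hfd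
  obtain ⟨G₁, hG₁, hG₁d⟩ := h1 W hW.1 (ContinuousMap.id N) g hg hgd
  -- the space of pairs of maps with given restriction to `W`
  let T : Set (C(N, N) × C(N, N)) := {p | (∀ x ∈ W, p.1 x = f x) ∧ ∀ x ∈ W, p.2 x = g x}
  have hT : IsClosed T := by
    have e : T = (⋂ x ∈ W, {p : C(N, N) × C(N, N) | p.1 x = f x}) ∩
        ⋂ x ∈ W, {p : C(N, N) × C(N, N) | p.2 x = g x} := by
      ext p
      simp [T]
    rw [e]
    refine IsClosed.inter ?_ ?_
    · refine isClosed_biInter fun x _ => isClosed_eq ?_ continuous_const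
      exact (continuous_eval_const (F := C(N, N)) x).comp continuous_fst
    · refine isClosed_biInter fun x _ => isClosed_eq ?_ continuous_const
      exact (continuous_eval_const (F := C(N, N)) x).comp continuous_snd
  have : CompleteSpace T := hT.completeSpace_coe
  obtain ⟨C, hC, hCW, hCU, hCm⟩ := hW.1.isOpen_compl.exists_iUnion_isClosed
  let O : ℕ → Set T := fun n => {p | (∀ x ∈ C n, p.1.1 x ∉ W) ∧ (∀ x ∈ C n, p.1.2 x ∉ W) ∧
    ∀ x ∈ C n, ∀ y ∈ C n, p.1.1 x ≠ p.1.2 y}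
  have hO : ∀ n, IsOpen (O n) := by
    intro n
    have c1 : Continuous fun p : T => p.1.1 := by fun_prop
    have c2 : Continuous fun p : T => p.1.2 := by fun_prop
    have o1 := (isOpen_avoid (P := N) hW.1 (hC n).isCompact).preimage c1
    have o2 := (isOpen_avoid (P := N) hW.1 (hC n).isCompact).preimage c2
    have o3 := (isOpen_disjOn (P := N) (N := N) (hC n).isCompact).preimage
      (continuous_subtype_val : Continuous fun p : T => p.1)
    exact o1.inter (o2.inter o3)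
  have hOd : ∀ n, Dense (O n) := by
    intro n
    rintro ⟨⟨F, G⟩, hF, hG⟩
    rw [Metric.mem_closure_iff]
    intro η hη
    obtain ⟨ρ, hρ, h2⟩ := hN.ext hd (half_pos hη)
    obtain ⟨φ, ψ, hφ, hψ, hφψ, hφW, hψW⟩ := DD.avoid hDD hW hρ
    classical
    have key : ∀ (θ : C(N, N)) (hθ : ∀ x, dist (θ x) x < ρ) (Φ : C(N, N)),
        ∃ Φ' : C(N, N), (∀ x ∈ W, Φ' x = Φ x) ∧ (∀ x ∈ C n, Φ' x = θ (Φ x)) ∧
          ∀ x, dist (Φ' x) (Φ x) < η / 2 := by
      intro θ hθ Φ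
      let b : N → N := fun x => if x ∈ W then Φ x else θ (Φ x)
      have b1 : EqOn b Φ W := fun x hx => by simp [b, hx]
      have b2 : EqOn b (fun x => θ (Φ x)) (C n) := fun x hx => by
        have : x ∉ W := hCW n hx
        simp [b, this]
      have hb : ContinuousOn b (W ∪ C n) := by
        refine ContinuousOn.union_of_isClosed ?_ ?_ hW.1 (hC n)
        · exact Φ.continuous.continuousOn.congr b1
        · exact (θ.continuous.comp Φ.continuous).continuousOn.congr b2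
      obtain ⟨Φ', e1, e2⟩ := h2 (W ∪ C n) (hW.1.union (hC n)) Φ b hb (by
        rintro x (hx | hx)
        · rw [b1 hx, dist_self]; exact hρ
        · rw [b2 hx]; exact hθ (Φ x))
      refine ⟨Φ', fun x hx => ?_, fun x hx => ?_, e2⟩
      · rw [e1 (Or.inl hx), b1 hx]
      · rw [e1 (Or.inr hx), b2 hx]
    obtain ⟨F', hF'W, hF'C, hF'd⟩ := key φ hφ F
    obtain ⟨G', hG'W, hG'C, hG'd⟩ := key ψ hψ G
    refine ⟨⟨(F', G'), fun x hx => by rw [hF'W x hx]; exact hF x hx,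
      fun x hx => by rw [hG'W x hx]; exact hG x hx⟩, ⟨?_, ?_, ?_⟩, ?_⟩
    · intro x hx
      show F' x ∉ W
      rw [hF'C x hx]; exact hφW _
    · intro x hx
      show G' x ∉ W
      rw [hG'C x hx]; exact hψW _
    · intro x hx y hy
      show F' x ≠ G' y
      rw [hF'C x hx, hG'C y hy]; exact hφψ _ _
    · rw [Subtype.dist_eq, Prod.dist_eq]
      refine lt_of_le_of_lt (max_le ?_ ?_) (half_lt_self hη)
      · exact (ContinuousMap.dist_le (by positivity)).2 fun x => by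
          rw [dist_comm]; exact (hF'd x).le
      · exact (ContinuousMap.dist_le (by positivity)).2 fun x => by
          rw [dist_comm]; exact (hG'd x).le
  have hdense := dense_iInter_of_isOpen_nat hO hOd
  obtain ⟨⟨⟨F, G⟩, hF, hG⟩, hmem, hdist⟩ := Metric.mem_closure_iff.1
    (hdense ⟨(F₁, G₁), fun x hx => hF₁ hx, fun x hx => hG₁ hx⟩) (ε / 2) (half_pos hε)
  rw [Subtype.dist_eq, Prod.dist_eq, max_lt_iff] at hdist
  rw [mem_iInter] at hmem
  have hex : ∀ x, x ∉ W → ∃ n, x ∈ C n := fun x hx => by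
    have : x ∈ ⋃ n, C n := by rw [hCU]; exact hx
    exact mem_iUnion.1 this
  have hFW : ∀ x, x ∉ W → F x ∉ W := fun x hx => by
    obtain ⟨n, hn⟩ := hex x hx
    exact (hmem n).1 x hn
  have hGW : ∀ x, x ∉ W → G x ∉ W := fun x hx => by
    obtain ⟨n, hn⟩ := hex x hx
    exact (hmem n).2.1 x hn
  refine ⟨F, G, fun x => ?_, fun x => ?_, hF, hG, hFW, hGW, fun x y hxy => ?_⟩
  · have h3 : dist (F₁ x) (F x) < ε / 2 := (ContinuousMap.dist_apply_le_dist x).trans_lt hdist.1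
    have h4 : dist (F₁ x) x < ε / 2 := hF₁d x
    calc dist (F x) x ≤ dist (F x) (F₁ x) + dist (F₁ x) x := dist_triangle _ _ _
      _ < ε / 2 + ε / 2 := add_lt_add (by rw [dist_comm]; exact h3) h4
      _ = ε := add_halves ε
  · have h3 : dist (G₁ x) (G x) < ε / 2 := (ContinuousMap.dist_apply_le_dist x).trans_lt hdist.2
    have h4 : dist (G₁ x) x < ε / 2 := hG₁d x
    calc dist (G x) x ≤ dist (G x) (G₁ x) + dist (G₁ x) x := dist_triangle _ _ _
      _ < ε / 2 + ε / 2 := add_lt_add (by rw [dist_comm]; exact h3) h4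
      _ = ε := add_halves ε
  · by_cases hx : x ∈ W
    · by_cases hy : y ∈ W
      · rw [hF x hx, hG y hy] at hxy
        exact hfg x hx y hy hxy
      · refine hGW y hy ?_
        rw [← hxy, hF x hx]
        exact hfW hx
    · by_cases hy : y ∈ W
      · refine hFW x hx ?_
        rw [hxy, hG y hy]
        exact hgW hy
      · obtain ⟨n, hn⟩ := hex x hx
        obtain ⟨m, hm⟩ := hex y hy
        exact (hmem (max n m)).2.2 x (hCm (le_max_left n m) hn) y (hCm (le_max_right n m) hm) hxy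

end Rel

/-! ### Gluing -/

section Glue

/-- gluing of two continuous maps along closed sets -/
theorem glue_maps {D E : Type*} [TopologicalSpace D] [TopologicalSpace E] {P Q : Set D}
    (hP : IsClosed P) (hQ : IsClosed Q) (hPQ : P ∪ Q = univ) (f : C(P, E)) (g : C(Q, E))
    (h : ∀ x (hp : x ∈ P) (hq : x ∈ Q), f ⟨x, hp⟩ = g ⟨x, hq⟩) :
    ∃ F : C(D, E), (∀ x (hx : x ∈ P), F x = f ⟨x, hx⟩) ∧ ∀ x (hx : x ∈ Q), F x = g ⟨x, hx⟩ := by
  classical
  have hq : ∀ x, x ∉ P → x ∈ Q := fun x hx => by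
    have : x ∈ P ∪ Q := by rw [hPQ]; trivial
    exact this.resolve_left hx
  let F : D → E := fun x => if hx : x ∈ P then f ⟨x, hx⟩ else g ⟨x, hq x hx⟩
  have h1 : ∀ x (hx : x ∈ P), F x = f ⟨x, hx⟩ := fun x hx => by simp [F, hx]
  have h2 : ∀ x (hx : x ∈ Q), F x = g ⟨x, hx⟩ := fun x hx => by
    by_cases hp : x ∈ P
    · rw [h1 x hp]; exact h x hp hx
    · simp [F, hp]
  have cP : ContinuousOn F P := by
    rw [continuousOn_iff_continuous_domRestrict]
    exact f.continuous.congr fun x => (h1 x x.2).symm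
  have cQ : ContinuousOn F Q := by
    rw [continuousOn_iff_continuous_domRestrict]
    exact g.continuous.congr fun x => (h2 x x.2).symm
  refine ⟨⟨F, ?_⟩, h1, h2⟩
  rw [← continuousOn_univ, ← hPQ]
  exact cP.union_of_isClosed cQ hP hQ

variable {D : Type} [MetricSpace D] [CompactSpace D] {k : ℕ}

/-- a map of `P ∩ Q` into itself, as a function on `P` -/
theorem cont_piece {P Q : Set D} (φ : C((P ∩ Q : Set D), (P ∩ Q : Set D))) {f : P → P}
    (hf : ∀ x (hx : x.1 ∈ Q), f x = ⟨(φ ⟨x.1, x.2, hx⟩).1, (φ ⟨x.1, x.2, hx⟩).2.1⟩) :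
    ContinuousOn f {x : P | x.1 ∈ Q} := by
  rw [continuousOn_iff_continuous_domRestrict]
  have : Continuous fun x : {x : P | x.1 ∈ Q} =>
      (⟨(φ ⟨x.1.1, x.1.2, x.2⟩).1, (φ ⟨x.1.1, x.1.2, x.2⟩).2.1⟩ : P) := by
    fun_prop
  exact this.congr fun x => (hf x.1 x.2).symm

/-- Disjoint approximations in a union of two closed sets which meet in a common Z-set. -/
theorem glue_DD {P Q : Set D} (hP : IsClosed P) (hQ : IsClosed Q) (hPQ : P ∪ Q = univ)
    (aP : ANE k (univ : Set P)) (aQ : ANE k (univ : Set Q))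
    (dP : PushOff k (univ : Set P)) (dQ : PushOff k (univ : Set Q))
    (zP : ZS {x : P | x.1 ∈ Q}) (zQ : ZS {x : Q | x.1 ∈ P})
    (ddP : DD P) (ddQ : DD Q) (ddA : DD (P ∩ Q : Set D)) : DD D := by
  classical
  have : CompactSpace P := isCompact_iff_compactSpace.1 hP.isCompact
  have : CompactSpace Q := isCompact_iff_compactSpace.1 hQ.isCompact
  intro ε hε
  obtain ⟨δP, hδP, hrP⟩ := rel_disj aP dP zP ddP hε
  obtain ⟨δQ, hδQ, hrQ⟩ := rel_disj aQ dQ zQ ddQ hε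
  obtain ⟨φ, ψ, hφ, hψ, hφψ⟩ := ddA (min δP δQ) (lt_min hδP hδQ)
  -- the maps on `P`
  let fP : C((P ∩ Q : Set D), (P ∩ Q : Set D)) → P → P := fun θ x =>
    if hx : x.1 ∈ Q then ⟨(θ ⟨x.1, x.2, hx⟩).1, (θ ⟨x.1, x.2, hx⟩).2.1⟩ else x
  have hfP : ∀ θ x (hx : x.1 ∈ Q), fP θ x = ⟨(θ ⟨x.1, x.2, hx⟩).1, (θ ⟨x.1, x.2, hx⟩).2.1⟩ :=
    fun θ x hx => by simp [fP, hx]
  let fQ : C((P ∩ Q : Set D), (P ∩ Q : Set D)) → Q → Q := fun θ x =>
    if hx : x.1 ∈ P then ⟨(θ ⟨x.1, hx, x.2⟩).1, (θ ⟨x.1, hx, x.2⟩).2.2⟩ else x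
  have hfQ : ∀ θ x (hx : x.1 ∈ P), fQ θ x = ⟨(θ ⟨x.1, hx, x.2⟩).1, (θ ⟨x.1, hx, x.2⟩).2.2⟩ :=
    fun θ x hx => by simp [fQ, hx]
  have cfP : ∀ θ, ContinuousOn (fP θ) {x : P | x.1 ∈ Q} := fun θ => cont_piece θ (hfP θ)
  have cfQ : ∀ θ, ContinuousOn (fQ θ) {x : Q | x.1 ∈ P} := fun θ => by
    rw [continuousOn_iff_continuous_domRestrict]
    have : Continuous fun x : {x : Q | x.1 ∈ P} =>
        (⟨(θ ⟨x.1.1, x.2, x.1.2⟩).1, (θ ⟨x.1.1, x.2, x.1.2⟩).2.2⟩ : Q) := by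
      fun_prop
    exact this.congr fun x => (hfQ θ x.1 x.2).symm
  have dfP : ∀ θ, (∀ x, dist (θ x) x < min δP δQ) → ∀ x ∈ {x : P | x.1 ∈ Q},
      dist (fP θ x) x < δP := fun θ hθ x hx => by
    rw [hfP θ x hx]
    exact (hθ ⟨x.1, x.2, hx⟩).trans_le (min_le_left _ _)
  have dfQ : ∀ θ, (∀ x, dist (θ x) x < min δP δQ) → ∀ x ∈ {x : Q | x.1 ∈ P},
      dist (fQ θ x) x < δQ := fun θ hθ x hx => by
    rw [hfQ θ x hx]
    exact (hθ ⟨x.1, hx, x.2⟩).trans_le (min_le_right _ _)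
  obtain ⟨FP, GP, dFP, dGP, eFP, eGP, nFP, nGP, disP⟩ := hrP (fP φ) (fP ψ) (cfP φ) (cfP ψ)
    (fun x hx => by rw [mem_ofPred_eq, hfP φ x hx]; exact (φ ⟨x.1, x.2, hx⟩).2.2)
    (fun x hx => by rw [mem_ofPred_eq, hfP ψ x hx]; exact (ψ ⟨x.1, x.2, hx⟩).2.2)
    (dfP φ hφ) (dfP ψ hψ) (fun x hx y hy he => by
      rw [hfP φ x hx, hfP ψ y hy] at he
      have h1 : (φ ⟨x.1, x.2, hx⟩).1 = (ψ ⟨y.1, y.2, hy⟩).1 := congrArg (fun z : P => z.1) he
      exact hφψ _ _ (Subtype.ext h1))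
  obtain ⟨FQ, GQ, dFQ, dGQ, eFQ, eGQ, nFQ, nGQ, disQ⟩ := hrQ (fQ φ) (fQ ψ) (cfQ φ) (cfQ ψ)
    (fun x hx => by rw [mem_ofPred_eq, hfQ φ x hx]; exact (φ ⟨x.1, hx, x.2⟩).2.1)
    (fun x hx => by rw [mem_ofPred_eq, hfQ ψ x hx]; exact (ψ ⟨x.1, hx, x.2⟩).2.1)
    (dfQ φ hφ) (dfQ ψ hψ) (fun x hx y hy he => by
      rw [hfQ φ x hx, hfQ ψ y hy] at he
      have h1 : (φ ⟨x.1, hx, x.2⟩).1 = (ψ ⟨y.1, hy, y.2⟩).1 := congrArg (fun z : Q => z.1) he
      exact hφψ _ _ (Subtype.ext h1))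
  have aF : ∀ x (hp : x ∈ P) (hq : x ∈ Q), (FP ⟨x, hp⟩).1 = (FQ ⟨x, hq⟩).1 := fun x hp hq => by
    have h1 := eFP (x := ⟨x, hp⟩) hq
    have h2 := eFQ (x := ⟨x, hq⟩) hp
    rw [h1, h2, hfP φ ⟨x, hp⟩ hq, hfQ φ ⟨x, hq⟩ hp]
  have aG : ∀ x (hp : x ∈ P) (hq : x ∈ Q), (GP ⟨x, hp⟩).1 = (GQ ⟨x, hq⟩).1 := fun x hp hq => by
    have h1 := eGP (x := ⟨x, hp⟩) hq
    have h2 := eGQ (x := ⟨x, hq⟩) hp
    rw [h1, h2, hfP ψ ⟨x, hp⟩ hq, hfQ ψ ⟨x, hq⟩ hp]
  obtain ⟨F, hF1, hF2⟩ := glue_maps hP hQ hPQ (⟨fun x => (FP x).1, by fun_prop⟩ : C(P, D))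
    (⟨fun x => (FQ x).1, by fun_prop⟩ : C(Q, D)) aF
  obtain ⟨G, hG1, hG2⟩ := glue_maps hP hQ hPQ (⟨fun x => (GP x).1, by fun_prop⟩ : C(P, D))
    (⟨fun x => (GQ x).1, by fun_prop⟩ : C(Q, D)) aG
  have hF1 : ∀ x (hx : x ∈ P), F x = (FP ⟨x, hx⟩).1 := hF1
  have hF2 : ∀ x (hx : x ∈ Q), F x = (FQ ⟨x, hx⟩).1 := hF2
  have hG1 : ∀ x (hx : x ∈ P), G x = (GP ⟨x, hx⟩).1 := hG1
  have hG2 : ∀ x (hx : x ∈ Q), G x = (GQ ⟨x, hx⟩).1 := hG2
  have hcov : ∀ x, x ∈ P ∨ x ∈ Q := fun x => by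
    have : x ∈ P ∪ Q := by rw [hPQ]; trivial
    exact this
  refine ⟨F, G, fun x => ?_, fun x => ?_, fun x y he => ?_⟩
  · rcases hcov x with hx | hx
    · rw [hF1 x hx]; exact dFP ⟨x, hx⟩
    · rw [hF2 x hx]; exact dFQ ⟨x, hx⟩
  · rcases hcov x with hx | hx
    · rw [hG1 x hx]; exact dGP ⟨x, hx⟩
    · rw [hG2 x hx]; exact dGQ ⟨x, hx⟩
  · by_cases hxP : x ∈ P
    · by_cases hyP : y ∈ P
      · rw [hF1 x hxP, hG1 y hyP] at he
        exact disP _ _ (Subtype.ext he)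
      · have hyQ := (hcov y).resolve_left hyP
        by_cases hxQ : x ∈ Q
        · rw [hF2 x hxQ, hG2 y hyQ] at he
          exact disQ _ _ (Subtype.ext he)
        · -- `F x` is not in `Q`
          rw [hF1 x hxP, hG2 y hyQ] at he
          refine nFP ⟨x, hxP⟩ hxQ ?_
          show (FP ⟨x, hxP⟩).1 ∈ Q
          rw [he]
          exact (GQ ⟨y, hyQ⟩).2
    · have hxQ := (hcov x).resolve_left hxP
      by_cases hyQ : y ∈ Q
      · rw [hF2 x hxQ, hG2 y hyQ] at he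
        exact disQ _ _ (Subtype.ext he)
      · have hyP := (hcov y).resolve_right hyQ
        rw [hF2 x hxQ, hG1 y hyP] at he
        refine nFQ ⟨x, hxQ⟩ hxP ?_
        show (FQ ⟨x, hxQ⟩).1 ∈ P
        rw [he]
        exact (GP ⟨y, hyP⟩).2

/-- Extension of maps of a closed set which avoid a Z-set. -/
theorem rel_avoid {N : Type} [MetricSpace N] [CompactSpace N] (hN : ANE k (univ : Set N))
    (hd : PushOff k (univ : Set N)) {W S : Set N} (hW : IsClosed W) (hS : ZS S) {ε : ℝ}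
    (hε : 0 < ε) : ∃ δ > 0, ∀ f : N → N, ContinuousOn f W → (∀ x ∈ W, dist (f x) x < δ) →
      (∀ x ∈ W, f x ∉ S) →
      ∃ F : C(N, N), (∀ x, dist (F x) x < ε) ∧ EqOn F f W ∧ ∀ x, F x ∉ S := by
  obtain ⟨δ, hδ, h1⟩ := hN.ext hd (half_pos hε)
  refine ⟨δ, hδ, fun f hf hfd hfS => ?_⟩
  obtain ⟨F₁, hF₁, hF₁d⟩ := h1 W hW (ContinuousMap.id N) f hf hfd
  let T : Set C(N, N) := {p | ∀ x ∈ W, p x = f x}
  have hT : IsClosed T := by
    have e : T = ⋂ x ∈ W, {p : C(N, N) | p x = f x} := by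
      ext p
      simp [T]
    rw [e]
    refine isClosed_biInter fun x _ => isClosed_eq ?_ continuous_const
    exact continuous_eval_const (F := C(N, N)) x
  have : CompleteSpace T := hT.completeSpace_coe
  obtain ⟨C, hC, hCW, hCU, hCm⟩ := hW.isOpen_compl.exists_iUnion_isClosed
  let O : ℕ → Set T := fun n => {p | ∀ x ∈ C n, p.1 x ∉ S}
  have hO : ∀ n, IsOpen (O n) := fun n =>
    (isOpen_avoid (P := N) hS.1 (hC n).isCompact).preimage continuous_subtype_val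
  have hOd : ∀ n, Dense (O n) := by
    intro n
    rintro ⟨F, hF⟩
    rw [Metric.mem_closure_iff]
    intro η hη
    obtain ⟨ρ, hρ, h2⟩ := hN.ext hd (half_pos hη)
    obtain ⟨θ, hθ, hθS⟩ := hS.2 ρ hρ
    classical
    let b : N → N := fun x => if x ∈ W then F x else θ (F x)
    have b1 : EqOn b F W := fun x hx => by simp [b, hx]
    have b2 : EqOn b (fun x => θ (F x)) (C n) := fun x hx => by
      have : x ∉ W := hCW n hx
      simp [b, this]
    have hb : ContinuousOn b (W ∪ C n) := by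
      refine ContinuousOn.union_of_isClosed ?_ ?_ hW (hC n)
      · exact F.continuous.continuousOn.congr b1
      · exact (θ.continuous.comp F.continuous).continuousOn.congr b2
    obtain ⟨F', e1, e2⟩ := h2 (W ∪ C n) (hW.union (hC n)) F b hb (by
      rintro x (hx | hx)
      · rw [b1 hx, dist_self]; exact hρ
      · rw [b2 hx]; exact hθ (F x))
    refine ⟨⟨F', fun x hx => ?_⟩, fun x hx => ?_, ?_⟩
    · rw [e1 (Or.inl hx), b1 hx]; exact hF x hx
    · show F' x ∉ S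
      rw [e1 (Or.inr hx), b2 hx]; exact hθS _
    · rw [Subtype.dist_eq]
      refine lt_of_le_of_lt ((ContinuousMap.dist_le (by positivity)).2 fun x => ?_)
        (half_lt_self hη)
      rw [dist_comm]; exact (e2 x).le
  have hdense := dense_iInter_of_isOpen_nat hO hOd
  obtain ⟨⟨F, hF⟩, hmem, hdist⟩ := Metric.mem_closure_iff.1
    (hdense ⟨F₁, fun x hx => hF₁ hx⟩) (ε / 2) (half_pos hε)
  rw [Subtype.dist_eq] at hdist
  rw [mem_iInter] at hmem
  refine ⟨F, fun x => ?_, hF, fun x => ?_⟩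
  · have h3 : dist (F₁ x) (F x) < ε / 2 := (ContinuousMap.dist_apply_le_dist x).trans_lt hdist
    have h4 : dist (F₁ x) x < ε / 2 := hF₁d x
    calc dist (F x) x ≤ dist (F x) (F₁ x) + dist (F₁ x) x := dist_triangle _ _ _
      _ < ε / 2 + ε / 2 := add_lt_add (by rw [dist_comm]; exact h3) h4
      _ = ε := add_halves ε
  · by_cases hx : x ∈ W
    · rw [hF x hx]; exact hfS x hx
    · have hx' : x ∈ ⋃ n, C n := by rw [hCU]; exact hx
      obtain ⟨n, hn⟩ := mem_iUnion.1 hx'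
      exact hmem n x hn

/-- Z-sets of a union. -/
theorem glue_ZS {P Q : Set D} (hP : IsClosed P) (hQ : IsClosed Q) (hPQ : P ∪ Q = univ)
    (aP : ANE k (univ : Set P)) (aQ : ANE k (univ : Set Q))
    (dP : PushOff k (univ : Set P)) (dQ : PushOff k (univ : Set Q)) {S : Set D}
    (zP : ZS {x : P | x.1 ∈ S}) (zQ : ZS {x : Q | x.1 ∈ S})
    (zA : ZS {x : (P ∩ Q : Set D) | x.1 ∈ S}) : ZS S := by
  classical
  have : CompactSpace P := isCompact_iff_compactSpace.1 hP.isCompact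
  have : CompactSpace Q := isCompact_iff_compactSpace.1 hQ.isCompact
  refine ⟨?_, fun ε hε => ?_⟩
  · have e : S = (Subtype.val '' {x : P | x.1 ∈ S}) ∪ (Subtype.val '' {x : Q | x.1 ∈ S}) := by
      ext x
      constructor
      · intro hx
        have : x ∈ P ∪ Q := by rw [hPQ]; trivial
        rcases this with h | h
        · exact Or.inl ⟨⟨x, h⟩, hx, rfl⟩
        · exact Or.inr ⟨⟨x, h⟩, hx, rfl⟩
      · rintro (⟨y, hy, rfl⟩ | ⟨y, hy, rfl⟩) <;> exact hy
    rw [e]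
    exact (hP.isClosedEmbedding_subtypeVal.isClosedMap _ zP.1).union
      (hQ.isClosedEmbedding_subtypeVal.isClosedMap _ zQ.1)
  have cWP : IsClosed {x : P | x.1 ∈ Q} := hQ.preimage continuous_subtype_val
  have cWQ : IsClosed {x : Q | x.1 ∈ P} := hP.preimage continuous_subtype_val
  obtain ⟨δP, hδP, hrP⟩ := rel_avoid aP dP cWP zP hε
  obtain ⟨δQ, hδQ, hrQ⟩ := rel_avoid aQ dQ cWQ zQ hε
  obtain ⟨φ, hφ, hφS⟩ := zA.2 (min δP δQ) (lt_min hδP hδQ)
  let fP : P → P := fun x =>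
    if hx : x.1 ∈ Q then ⟨(φ ⟨x.1, x.2, hx⟩).1, (φ ⟨x.1, x.2, hx⟩).2.1⟩ else x
  have hfP : ∀ x (hx : x.1 ∈ Q), fP x = ⟨(φ ⟨x.1, x.2, hx⟩).1, (φ ⟨x.1, x.2, hx⟩).2.1⟩ :=
    fun x hx => by simp [fP, hx]
  let fQ : Q → Q := fun x =>
    if hx : x.1 ∈ P then ⟨(φ ⟨x.1, hx, x.2⟩).1, (φ ⟨x.1, hx, x.2⟩).2.2⟩ else x
  have hfQ : ∀ x (hx : x.1 ∈ P), fQ x = ⟨(φ ⟨x.1, hx, x.2⟩).1, (φ ⟨x.1, hx, x.2⟩).2.2⟩ :=
    fun x hx => by simp [fQ, hx]
  have cfQ : ContinuousOn fQ {x : Q | x.1 ∈ P} := by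
    rw [continuousOn_iff_continuous_domRestrict]
    have : Continuous fun x : {x : Q | x.1 ∈ P} =>
        (⟨(φ ⟨x.1.1, x.2, x.1.2⟩).1, (φ ⟨x.1.1, x.2, x.1.2⟩).2.2⟩ : Q) := by
      fun_prop
    exact this.congr fun x => (hfQ x.1 x.2).symm
  obtain ⟨FP, dFP, eFP, nFP⟩ := hrP fP (cont_piece φ hfP) (fun x hx => by
    rw [hfP x hx]
    exact (hφ ⟨x.1, x.2, hx⟩).trans_le (min_le_left _ _)) (fun x hx => by
    rw [hfP x hx]
    exact hφS ⟨x.1, x.2, hx⟩)
  obtain ⟨FQ, dFQ, eFQ, nFQ⟩ := hrQ fQ cfQ (fun x hx => by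
    rw [hfQ x hx]
    exact (hφ ⟨x.1, hx, x.2⟩).trans_le (min_le_right _ _)) (fun x hx => by
    rw [hfQ x hx]
    exact hφS ⟨x.1, hx, x.2⟩)
  have aF : ∀ x (hp : x ∈ P) (hq : x ∈ Q), (FP ⟨x, hp⟩).1 = (FQ ⟨x, hq⟩).1 := fun x hp hq => by
    have h1 := eFP (x := ⟨x, hp⟩) hq
    have h2 := eFQ (x := ⟨x, hq⟩) hp
    rw [h1, h2, hfP ⟨x, hp⟩ hq, hfQ ⟨x, hq⟩ hp]
  obtain ⟨F, hF1, hF2⟩ := glue_maps hP hQ hPQ (⟨fun x => (FP x).1, by fun_prop⟩ : C(P, D))
    (⟨fun x => (FQ x).1, by fun_prop⟩ : C(Q, D)) aF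
  have hF1 : ∀ x (hx : x ∈ P), F x = (FP ⟨x, hx⟩).1 := hF1
  have hF2 : ∀ x (hx : x ∈ Q), F x = (FQ ⟨x, hx⟩).1 := hF2
  have hcov : ∀ x, x ∈ P ∨ x ∈ Q := fun x => by
    have : x ∈ P ∪ Q := by rw [hPQ]; trivial
    exact this
  refine ⟨F, fun x => ?_, fun x => ?_⟩
  · rcases hcov x with hx | hx
    · rw [hF1 x hx]; exact dFP ⟨x, hx⟩
    · rw [hF2 x hx]; exact dFQ ⟨x, hx⟩
  · rcases hcov x with hx | hx
    · rw [hF1 x hx]; exact nFP ⟨x, hx⟩
    · rw [hF2 x hx]; exact nFQ ⟨x, hx⟩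

/-- The extension property of the glued space, from the union theorem for subsets. -/
theorem glue_ANE {P Q : Set D} (hP : IsClosed P) (hQ : IsClosed Q) (hPQ : P ∪ Q = univ)
    (un : ANE k P → ANE k Q → ANE k (P ∩ Q) → ANE k (P ∪ Q))
    (aP : ANE k (univ : Set P)) (aQ : ANE k (univ : Set Q))
    (aA : ANE k (univ : Set (P ∩ Q : Set D))) : ANE k (univ : Set D) := by
  rw [← hPQ]
  exact un (aP.ofSubtype hP.isCompact) (aQ.ofSubtype hQ.isCompact)
    (aA.ofSubtype (hP.inter hQ).isCompact)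

/-- dimension of the glued space -/
theorem glue_PushOff {P Q : Set D} (hP : IsClosed P) (hQ : IsClosed Q) (hPQ : P ∪ Q = univ)
    (dP : PushOff k (univ : Set P)) (dQ : PushOff k (univ : Set Q)) :
    PushOff k (univ : Set D) := by
  have : CompactSpace P := isCompact_iff_compactSpace.1 hP.isCompact
  have : CompactSpace Q := isCompact_iff_compactSpace.1 hQ.isCompact
  have h1 : PushOff k P := by
    have := Pool.Agent.Work.MP_017613_gt.PushOff.image dP isCompact_univ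
      (φ := (Subtype.val : P → D)) continuous_subtype_val.continuousOn Subtype.val_injective.injOn
    rwa [image_univ, Subtype.range_coe] at this
  have h2 : PushOff k Q := by
    have := Pool.Agent.Work.MP_017613_gt.PushOff.image dQ isCompact_univ
      (φ := (Subtype.val : Q → D)) continuous_subtype_val.continuousOn Subtype.val_injective.injOn
    rwa [image_univ, Subtype.range_coe] at this
  rw [← hPQ]
  exact Pool.Agent.Work.MP_017613_gt.PushOff.union h1 h2 hP.isCompact hQ.isCompact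

theorem isClosed_bd (j : ℕ) : IsClosed (Bd j) := by
  have e : Bd j = Cb j ∩ ⋃ i, ({x : Fin j → ℝ | x i = 0} ∪ {x : Fin j → ℝ | x i = 1}) := by
    ext x
    simp [Bd, or_iff_not_imp_left]
  rw [e]
  refine isClosed_Icc.inter (isClosed_iUnion_of_finite fun i => ?_)
  exact (isClosed_eq (continuous_apply i) continuous_const).union
    (isClosed_eq (continuous_apply i) continuous_const)

/-- the extension property implies uniform local connectedness -/
theorem ANE.ulc {N : Type} [MetricSpace N] (h : ANE k (univ : Set N)) : ULC k N := by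
  intro ε hε
  obtain ⟨δ, hδ, h1⟩ := h ε hε
  refine ⟨δ, hδ, fun j _ hj y a ha had => ?_⟩
  have hT : TP k (Cb j) (Bd j) := ⟨isCompact_Icc,
    pushOff_of_finrank (by rw [Module.finrank_fin_fun]; exact hj) isCompact_Icc,
    isClosed_bd j, fun x hx => hx.1⟩
  obtain ⟨A, hA, -, hAe, hAd⟩ := h1 _ _ _ hT (fun _ => y) (fun _ _ => mem_univ _)
    ⟨1, one_pos, fun _ _ _ _ _ => by rw [dist_self]; exact hδ⟩ a ha (fun _ _ => mem_univ _) had
  exact ⟨A, hA, hAe, hAd⟩

end Glue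

end Chi

end Pool.Agent.Work.MP_017613_gt
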