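import Pool.Agent.Work.MP_017613_gt.RndA
import Pool.Agent.Work.MP_017613_gt.Gluing
import Pool.Agent.Work.MP_017613_gt.ChiGlue
import Pool.Agent.Work.MP_017613_gt.Kit.Adj
import Pool.Agent.Work.MP_017613_gt.Kit.Glue

/-!
# Block 8.1: Menger spaces, gluing, attaching

* `Men k N`: the class of compact Menger spaces; `MenS k P`: the same for sets.
* `attach`: a Menger space attached to a Menger space along a Z-set of both.
-/

set_option linter.unusedSectionVars false

open Set Topology Metric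

namespace Pool.Agent.Work.MP_017613_gt

namespace Rnd

open Chi

variable {α β γ δ : Type} [MetricSpace α] [MetricSpace β] [MetricSpace γ] [MetricSpace δ] {k : ℕ}

/-- compact Menger spaces -/
structure Men (k : ℕ) (N : Type) [MetricSpace N] [CompactSpace N] : Prop where
  ne : Nonempty N
  dim : PushOff k (univ : Set N)
  ane : ANE k (univ : Set N)
  dd : DD N

/-- compact Menger spaces, as sets -/
structure MenS (k : ℕ) (P : Set α) : Prop where
  cpt : IsCompact P
  ne : P.Nonempty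
  dim : PushOff k P
  ane : ANE k P
  dd : DD P

theorem Men.homeo {N N' : Type} [MetricSpace N] [CompactSpace N] [MetricSpace N'] [CompactSpace N']
    (h : Men k N) (e : N ≃ₜ N') : Men k N' :=
  ⟨⟨e (Classical.choice h.ne)⟩, Chi.PushOff.homeo h.dim e, h.ane.homeo e, Chi.DD.homeo h.dd e⟩

theorem Men.univ {N : Type} [MetricSpace N] [CompactSpace N] (h : Men k N) :
    MenS k (univ : Set N) := by
  have : CompactSpace (Set.univ : Set N) := isCompact_iff_compactSpace.1 isCompact_univ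
  exact ⟨isCompact_univ, ⟨Classical.choice h.ne, trivial⟩, h.dim, h.ane,
    Chi.DD.homeo h.dd (Homeomorph.Set.univ N).symm⟩

/-- the map of a set to its subtype -/
theorem exists_toSubtype {P : Set α} (hne : P.Nonempty) :
    ∃ φ : α → P, Hom P univ φ ∧ ∀ x : P, φ x = x := by
  classical
  let φ : α → P := fun x => if hx : x ∈ P then ⟨x, hx⟩ else ⟨hne.choose, hne.choose_spec⟩
  have hφ : ∀ x : P, φ x = x := fun x => dif_pos x.2
  refine ⟨φ, ⟨?_, fun x hx y hy e => ?_, ?_⟩, hφ⟩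
  · rw [continuousOn_iff_continuous_domRestrict]
    have : P.domRestrict φ = fun x : P => x := by
      funext x
      exact hφ x
    rw [this]
    exact continuous_id
  · rw [hφ ⟨x, hx⟩, hφ ⟨y, hy⟩] at e
    exact congrArg Subtype.val e
  · ext x
    exact ⟨fun _ => trivial, fun _ => ⟨x, x.2, hφ x⟩⟩

theorem MenS.men {P : Set α} (h : MenS k P) [CompactSpace P] : Men k P := by
  refine ⟨h.ne.to_subtype, ?_, h.ane.toSubtype h.cpt, h.dd⟩
  obtain ⟨φ, hφ, -⟩ := exists_toSubtype h.ne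
  have := Pool.Agent.Work.MP_017613_gt.PushOff.image h.dim h.cpt hφ.cont hφ.inj
  rwa [hφ.img] at this

theorem menS_of_men {P : Set α} [CompactSpace P] (h : Men k P) : MenS k P := by
  have cP : IsCompact P := isCompact_iff_compactSpace.2 inferInstance
  refine ⟨cP, ?_, ?_, h.ane.ofSubtype cP, h.dd⟩
  · obtain ⟨x⟩ := h.ne
    exact ⟨x, x.2⟩
  · have := Pool.Agent.Work.MP_017613_gt.PushOff.image h.dim isCompact_univ
      (φ := (Subtype.val : P → α)) continuous_subtype_val.continuousOn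
      Subtype.val_injective.injOn
    rwa [image_univ, Subtype.range_coe] at this

theorem men_of_univ {N : Type} [MetricSpace N] [CompactSpace N] (h : MenS k (univ : Set N)) :
    Men k N := by
  have : CompactSpace (Set.univ : Set N) := isCompact_iff_compactSpace.1 isCompact_univ
  exact ⟨⟨h.ne.choose⟩, h.dim, h.ane, Chi.DD.homeo h.dd (Homeomorph.Set.univ N)⟩

theorem ane_image {P : Set α} {P' : Set β} {f : α → β} (h : ANE k P) (hf : Hom P P' f)
    (cP : IsCompact P) (hne : P.Nonempty) : ANE k P' := by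
  obtain ⟨g, hg, hgf, hfg⟩ := hf.exists_inv cP hne
  exact h.transfer cP (hf.isCompact cP) hf.cont hg.cont hf.maps hg.maps hfg

theorem MenS.image {P : Set α} {P' : Set β} {f : α → β} (h : MenS k P) (hf : Hom P P' f) :
    MenS k P' := by
  obtain ⟨θ, -⟩ := hf.exists_homeo h.cpt
  have : CompactSpace P := isCompact_iff_compactSpace.1 h.cpt
  have : CompactSpace P' := isCompact_iff_compactSpace.1 (hf.isCompact h.cpt)
  refine ⟨hf.isCompact h.cpt, by rw [← hf.img]; exact h.ne.image f, ?_, ?_, Chi.DD.homeo h.dd θ⟩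
  · have := Pool.Agent.Work.MP_017613_gt.PushOff.image h.dim h.cpt hf.cont hf.inj
    rwa [hf.img] at this
  · exact ane_image h.ane hf h.cpt h.ne

/-! ## Gluing, set form -/

/-- the subset of a subtype -/
theorem hom_sub {P D : Set α} (h : P ⊆ D) : Hom ((↑) ⁻¹' P : Set D) P (Subtype.val : D → α) :=
  ⟨continuous_subtype_val.continuousOn, Subtype.val_injective.injOn, by
    rw [Subtype.image_preimage_coe, inter_eq_right.2 h]⟩

/-- a nested subtype -/
theorem exists_nested {P D : Set α} (h : P ⊆ D) :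
    ∃ θ : ((↑) ⁻¹' P : Set D) ≃ₜ P, ∀ x, (θ x : α) = x.1.1 := by
  refine ⟨{ toFun := fun x => ⟨x.1.1, x.2⟩
            invFun := fun x => ⟨⟨x.1, h x.2⟩, x.2⟩
            left_inv := fun x => rfl
            right_inv := fun x => rfl
            continuous_toFun := by fun_prop
            continuous_invFun := by fun_prop }, fun x => rfl⟩

theorem dd_nested {P D : Set α} (h : P ⊆ D) (cP : IsCompact P) (cD : IsCompact D)
    (hP : DD P) : DD ((↑) ⁻¹' P : Set D) := by
  obtain ⟨θ, -⟩ := exists_nested h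
  have : CompactSpace P := isCompact_iff_compactSpace.1 cP
  have : CompactSpace D := isCompact_iff_compactSpace.1 cD
  have : CompactSpace ((↑) ⁻¹' P : Set D) := θ.symm.compactSpace
  exact Chi.DD.homeo hP θ.symm

theorem ane_nested {P D : Set α} (h : P ⊆ D) (cP : IsCompact P) (cD : IsCompact D)
    (hP : ANE k P) : ANE k (univ : Set ((↑) ⁻¹' P : Set D)) := by
  obtain ⟨θ, -⟩ := exists_nested h
  have : CompactSpace P := isCompact_iff_compactSpace.1 cP
  have : CompactSpace D := isCompact_iff_compactSpace.1 cD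
  have : CompactSpace ((↑) ⁻¹' P : Set D) := θ.symm.compactSpace
  exact (hP.toSubtype cP).homeo θ.symm

theorem dim_univ {P : Set α} (cP : IsCompact P) (hP : PushOff k P) :
    PushOff k (univ : Set P) := by
  rcases P.eq_empty_or_nonempty with rfl | hne
  · have : (univ : Set (∅ : Set α)) = ∅ := by
      ext x
      exact x.2.elim
    rw [this]
    exact PushOff.empty
  · obtain ⟨φ, hφ, -⟩ := exists_toSubtype hne
    have := Pool.Agent.Work.MP_017613_gt.PushOff.image hP cP hφ.cont hφ.inj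
    rwa [hφ.img] at this

theorem dim_nested {P D : Set α} (h : P ⊆ D) (cP : IsCompact P) (cD : IsCompact D)
    (hP : PushOff k P) : PushOff k (univ : Set ((↑) ⁻¹' P : Set D)) := by
  obtain ⟨θ, -⟩ := exists_nested h
  have : CompactSpace P := isCompact_iff_compactSpace.1 cP
  have : CompactSpace D := isCompact_iff_compactSpace.1 cD
  have : CompactSpace ((↑) ⁻¹' P : Set D) := θ.symm.compactSpace
  exact Chi.PushOff.homeo (dim_univ cP hP) θ.symm

/-- Z-sets of nested subtypes -/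
theorem zs_nested {P D : Set α} (h : P ⊆ D) (cP : IsCompact P) {A : Set α} (hA : ZIn A P) :
    ZS {x : ((↑) ⁻¹' P : Set D) | x.1.1 ∈ A} := by
  obtain ⟨θ, hθ⟩ := exists_nested h
  have : CompactSpace P := isCompact_iff_compactSpace.1 cP
  have : CompactSpace ((↑) ⁻¹' P : Set D) := θ.symm.compactSpace
  have h1 := ZS.image θ.symm hA.zs
  have h2 : (θ.symm '' ((↑) ⁻¹' A : Set P)) = {x : ((↑) ⁻¹' P : Set D) | x.1.1 ∈ A} := by
    ext x
    constructor
    · rintro ⟨y, hy, rfl⟩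
      change (θ.symm y).1.1 ∈ A
      rw [← hθ, θ.apply_symm_apply]
      exact hy
    · intro hx
      refine ⟨θ x, ?_, θ.symm_apply_apply x⟩
      change (θ x : α) ∈ A
      rw [hθ]
      exact hx
  rwa [h2] at h1

/-- **GLUING**: two Menger sets which meet in a Menger set, a Z-set in both. -/
theorem MenS.glue {P Q : Set α} (hP : MenS k P) (hQ : MenS k Q) (hPQ : MenS k (P ∩ Q))
    (zP : ZIn (P ∩ Q) P) (zQ : ZIn (P ∩ Q) Q) : MenS k (P ∪ Q) := by
  have cD : IsCompact (P ∪ Q) := hP.cpt.union hQ.cpt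
  have : CompactSpace (P ∪ Q : Set α) := isCompact_iff_compactSpace.1 cD
  refine ⟨cD, hP.ne.mono subset_union_left, hP.dim.union hQ.dim hP.cpt hQ.cpt,
    ANE.union hP.cpt hQ.cpt hP.ane hQ.ane hPQ.ane, ?_⟩
  have hPD : P ⊆ P ∪ Q := subset_union_left
  have hQD : Q ⊆ P ∪ Q := subset_union_right
  refine glue_DD (k := k) (D := (P ∪ Q : Set α)) (P := ((↑) ⁻¹' P : Set (P ∪ Q : Set α)))
    (Q := ((↑) ⁻¹' Q : Set (P ∪ Q : Set α))) (hP.cpt.isClosed.preimage continuous_subtype_val)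
    (hQ.cpt.isClosed.preimage continuous_subtype_val) ?_ (ane_nested hPD hP.cpt cD hP.ane)
    (ane_nested hQD hQ.cpt cD hQ.ane) (dim_nested hPD hP.cpt cD hP.dim)
    (dim_nested hQD hQ.cpt cD hQ.dim) ?_ ?_ (dd_nested hPD hP.cpt cD hP.dd)
    (dd_nested hQD hQ.cpt cD hQ.dd) ?_
  · ext x
    exact ⟨fun _ => trivial, fun _ => x.2⟩
  · have h1 := zs_nested hPD hP.cpt zP
    have h2 : {x : ((↑) ⁻¹' P : Set (P ∪ Q : Set α)) | x.1.1 ∈ P ∩ Q} =
        {x : ((↑) ⁻¹' P : Set (P ∪ Q : Set α)) | x.1 ∈ ((↑) ⁻¹' Q : Set (P ∪ Q : Set α))} := by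
      ext x
      exact ⟨fun hx => hx.2, fun hx => ⟨x.2, hx⟩⟩
    rwa [h2] at h1
  · have h1 := zs_nested hQD hQ.cpt zQ
    have h2 : {x : ((↑) ⁻¹' Q : Set (P ∪ Q : Set α)) | x.1.1 ∈ P ∩ Q} =
        {x : ((↑) ⁻¹' Q : Set (P ∪ Q : Set α)) | x.1 ∈ ((↑) ⁻¹' P : Set (P ∪ Q : Set α))} := by
      ext x
      exact ⟨fun hx => hx.1, fun hx => ⟨hx, x.2⟩⟩
    rwa [h2] at h1
  · have := dd_nested (D := P ∪ Q) (inter_subset_left.trans hPD) hPQ.cpt cD hPQ.dd
    exact this

/-- Z-sets of a union of two sets -/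
theorem ZIn.glue {P Q S : Set α} (hP : MenS k P) (hQ : MenS k Q) (hS : IsClosed S)
    (hSD : S ⊆ P ∪ Q) (zP : ZIn (S ∩ P) P) (zQ : ZIn (S ∩ Q) Q)
    (zA : ZIn (S ∩ (P ∩ Q)) (P ∩ Q)) : ZIn S (P ∪ Q) := by
  have cD : IsCompact (P ∪ Q) := hP.cpt.union hQ.cpt
  have : CompactSpace (P ∪ Q : Set α) := isCompact_iff_compactSpace.1 cD
  have hPD : P ⊆ P ∪ Q := subset_union_left
  have hQD : Q ⊆ P ∪ Q := subset_union_right
  have cA : IsCompact (P ∩ Q) := hP.cpt.inter_right hQ.cpt.isClosed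
  refine zin_of_zs hS hSD ?_
  refine glue_ZS (k := k) (D := (P ∪ Q : Set α)) (P := ((↑) ⁻¹' P : Set (P ∪ Q : Set α)))
    (Q := ((↑) ⁻¹' Q : Set (P ∪ Q : Set α))) (hP.cpt.isClosed.preimage continuous_subtype_val)
    (hQ.cpt.isClosed.preimage continuous_subtype_val) ?_ (ane_nested hPD hP.cpt cD hP.ane)
    (ane_nested hQD hQ.cpt cD hQ.ane) (dim_nested hPD hP.cpt cD hP.dim)
    (dim_nested hQD hQ.cpt cD hQ.dim) ?_ ?_ ?_
  · ext x
    exact ⟨fun _ => trivial, fun _ => x.2⟩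
  · have h1 := zs_nested hPD hP.cpt zP
    have h2 : {x : ((↑) ⁻¹' P : Set (P ∪ Q : Set α)) | x.1.1 ∈ S ∩ P} =
        {x : ((↑) ⁻¹' P : Set (P ∪ Q : Set α)) | x.1 ∈ ((↑) ⁻¹' S : Set (P ∪ Q : Set α))} := by
      ext x
      exact ⟨fun hx => hx.1, fun hx => ⟨hx, x.2⟩⟩
    rwa [h2] at h1
  · have h1 := zs_nested hQD hQ.cpt zQ
    have h2 : {x : ((↑) ⁻¹' Q : Set (P ∪ Q : Set α)) | x.1.1 ∈ S ∩ Q} =
        {x : ((↑) ⁻¹' Q : Set (P ∪ Q : Set α)) | x.1 ∈ ((↑) ⁻¹' S : Set (P ∪ Q : Set α))} := by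
      ext x
      exact ⟨fun hx => hx.1, fun hx => ⟨hx, x.2⟩⟩
    rwa [h2] at h1
  · have h1 := zs_nested (D := P ∪ Q) (inter_subset_left.trans hPD) cA zA
    have h2 : {x : ((↑) ⁻¹' (P ∩ Q) : Set (P ∪ Q : Set α)) | x.1.1 ∈ S ∩ (P ∩ Q)} =
        {x : ((↑) ⁻¹' (P ∩ Q) : Set (P ∪ Q : Set α)) | x.1 ∈
          ((↑) ⁻¹' S : Set (P ∪ Q : Set α))} := by
      ext x
      exact ⟨fun hx => hx.1, fun hx => ⟨hx, x.2⟩⟩
    rw [h2] at h1
    exact h1

end Rnd

end Pool.Agent.Work.MP_017613_gt
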