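import Pool.Agent.Work.MP_017613_gt.Double
import Pool.Agent.Work.MP_017613_gt.RndB

/-!
The two forms of the definition of compact Menger manifolds agree.
-/

open Set Topology Metric

namespace Pool.Agent.Work.MP_017613_gt

open Chi

variable {k : ℕ} {N : Type} [MetricSpace N] [CompactSpace N]

theorem rnd_men_iff : Rnd.Men k N ↔ Nonempty N ∧ Men k N :=
  ⟨fun h => ⟨h.ne, men_of_ane h.dim h.ane h.dd⟩,
    fun h => ⟨h.1, h.2.1, men_ane h.2, ZD.dd h.2.2.2⟩⟩

end Pool.Agent.Work.MP_017613_gt
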