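import Pool.Agent.Work.MP_017613_gt.DiscC
import Pool.Agent.Work.MP_017613_gt.Chi0

/-!
# `ANE k X` for compact `X` which are `ULC k`
-/

open Set Topology Metric Filter
open Pool.Agent.Work.MP_017613_gt

namespace MG

/-- compact `ULC k` spaces are `ANE k` -/
theorem ane_of_ulc {β : Type} [MetricSpace β] {X : Set β} (cX : IsCompact X) {k : ℕ}
    (hX : ULC k X) : Chi.ANE k X := by
  intro ε hε
  obtain ⟨δ, hδ, H⟩ := app_set.{0} cX hX hε
  exact ⟨δ, hδ, fun γ _ P A hP h hh hj b cb hb hbh =>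
    H γ P A hP.cP hP.dP hP.cA hP.sub h hh hj b cb hb hbh⟩

end MG
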