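import Pool.Agent.Work.MP_017613_gt.Skel24
import Pool.Agent.Work.MP_017613_gt.Kit.Eq

/-!
# Joint `J_LPC`: coarse lifting for arbitrary compact test pairs of dimension `≤ k`

`eq_pair_aux` is helper76's proof of `eq_pair` (TK2) with the lifting over cubical sets as a
hypothesis; `hlift_unif`: this hypothesis with a constant depending on `k`, `X`, `ε` only.
-/

open Set Topology Metric

namespace MG.Tr

open Pool.Agent.Work.MP_017613_gt (PushOff)
open Pool.Agent.Work.MP_017613_gt.Chi (ANE Soft Jump)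

variable {α β : Type} [MetricSpace α] [MetricSpace β]

private theorem eq_pair_aux {k : ℕ} {X' : Set α} {X : Set β} {p : α → β} (cX' : IsCompact X')
    (uX' : ULC k X') (hp : IsMap p X' X) {ε δ₁ : ℝ} (hε : 0 < ε) (hδ₁ : 0 < δ₁)
    (hlift : ∀ {N m : ℕ} (_ : 0 < m) {P P₀ : Set (Fin N → ℝ)}
      (_ : IsCub m P) (_ : IsCub m P₀) (_ : P₀ ⊆ P)
      (_ : ∀ x ∈ P, x ∉ P₀ → dm (car m x) ≤ k) (φ : (Fin N → ℝ) → β) (_ : MapsTo φ P X)
      (_ : Osc m P φ δ₁) (G₀ : (Fin N → ℝ) → α) (_ : IsMap G₀ P₀ X')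
      (_ : ∀ x ∈ P₀, dist (p (G₀ x)) (φ x) < δ₁),
      ∃ G : (Fin N → ℝ) → α, IsMap G P X' ∧ EqOn G G₀ P₀ ∧ ∀ x ∈ P, dist (p (G x)) (φ x) < ε / 4) :
    ∀ (γ : Type) [MetricSpace γ] (P A : Set γ), IsCompact P →
      PushOff k P → IsClosed A → A ⊆ P →
      ∀ (f : γ → β) (f₀ : γ → α), IsMap f P X → IsMap f₀ A X' →
      (∀ x ∈ A, dist (p (f₀ x)) (f x) < δ₁ / 4) →
      ∃ F : γ → α, IsMap F P X' ∧ EqOn F f₀ A ∧ ∀ x ∈ P, dist (p (F x)) (f x) < ε := by
  have hε4 : 0 < ε / 4 := by linarith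
  obtain ⟨η, hη, hpu⟩ := unif cX' hp.cont hε4
  obtain ⟨η₁, hη₁, hpu₁⟩ := unif cX' hp.cont (show (0:ℝ) < δ₁ / 4 by linarith)
  obtain ⟨δA, hδA, hape⟩ := ane_of_ulc cX' uX' η hη
  obtain ⟨δc, hδc, hcoarse⟩ := coarse (α := α) (k := k) uX'
    (show 0 < min (δA / 2) η₁ from lt_min (half_pos hδA) hη₁)
  intro γ _ P A cP hP hA hAP f f₀ hf hf₀ hclose
  have cA : IsCompact A := cP.of_isClosed_subset hA hAP
  rcases P.eq_empty_or_nonempty with rfl | ⟨x₁, hx₁⟩
  · have hA0 : A = ∅ := subset_empty_iff.1 hAP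
    subst hA0
    exact ⟨f₀, hf₀, fun _ _ => rfl, fun x hx => absurd hx (notMem_empty x)⟩
  -- the fine scale on `P`
  obtain ⟨r₁, hr₁, hfu⟩ := unif cP hf.cont (show 0 < min (ε / 4) (δ₁ / 4) from
    lt_min hε4 (by linarith))
  obtain ⟨r₂, hr₂, hf0u⟩ := unif cA hf₀.cont (show 0 < min δc (δA / 2) from
    lt_min hδc (half_pos hδA))
  obtain ⟨N, m, hm, q, K, hq, hK, hKd, hqK, hKq', hqr⟩ := discr cP hP (lt_min hr₁ hr₂)
  have hKq : ∀ z ∈ K, ∃ x ∈ P, dist z (q x) ≤ 1 / m := by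
    intro z hz
    obtain ⟨x, h1, h2⟩ := hKq' z hz
    exact ⟨x, h1, dist_le_of_mem_cube hm h2 (mem_cube_car m (q x))⟩
  have hm' : (0:ℝ) < m := by exact_mod_cast hm
  have hm3 : (3:ℝ) / m = 1 / m + 1 / m + 1 / m := by ring
  have hm1 : (0:ℝ) < 1 / m := by positivity
  have hqr₁ : ∀ x ∈ P, ∀ y ∈ P, dist (q x) (q y) ≤ 3 / m → dist x y < r₁ :=
    fun x hx y hy h => (hqr x hx y hy h).trans_le (min_le_left _ _)
  have hqr₂ : ∀ x ∈ P, ∀ y ∈ P, dist (q x) (q y) ≤ 3 / m → dist x y < r₂ :=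
    fun x hx y hy h => (hqr x hx y hy h).trans_le (min_le_right _ _)
  -- the function `φ` on the complex
  have hx : ∀ z : Fin N → ℝ, ∃ x ∈ P, z ∈ K → dist z (q x) ≤ 1 / m := by
    intro z
    by_cases hz : z ∈ K
    · obtain ⟨x, h1, h2⟩ := hKq z hz
      exact ⟨x, h1, fun _ => h2⟩
    · exact ⟨x₁, hx₁, fun h => absurd h hz⟩
  choose xz hxzP hxz using hx
  have hφX : MapsTo (fun z => f (xz z)) K X := fun z _ => hf.maps (hxzP z)
  have hosc : Osc m K (fun z => f (xz z)) δ₁ := by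
    intro z hz y hy
    have hyK : y ∈ K := hK.sat z hz hy
    have h1 := hxz z hz
    have h2 := hxz y hyK
    have h3 := dist_le_of_mem_cube hm (mem_cube_car m z) hy
    have h4 : dist (q (xz z)) (q (xz y)) ≤ 3 / m := by
      have h5 := dist_triangle4 (q (xz z)) z y (q (xz y))
      rw [dist_comm (q (xz z)) z] at h5
      rw [hm3]
      linarith
    have h5 := (hfu _ (hxzP z) _ (hxzP y) (hqr₁ _ (hxzP z) _ (hxzP y) h4)).trans_le
      (min_le_right _ _)
    show dist (f (xz z)) (f (xz y)) < δ₁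
    linarith
  -- the subcomplex near `A`
  set W : Set (Fin N → ℤ) := (fun a => car m (q a)) '' A with hW
  have hWfin : W.Finite := by
    refine hK.finite_car.subset ?_
    rintro _ ⟨a, ha, rfl⟩
    exact ⟨q a, hqK (hAP ha), rfl⟩
  set KA : Set (Fin N → ℝ) := ⋃ w ∈ W, cube m w with hKA
  have hKAcub : IsCub m KA := isCub_biUnion hm hWfin
  have hKAK : KA ⊆ K := by
    intro z hz
    rw [hKA] at hz
    simp only [mem_iUnion, exists_prop] at hz
    obtain ⟨w, ⟨a, ha, rfl⟩, hzw⟩ := hz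
    exact hK.sat _ (hqK (hAP ha)) hzw
  have hKAa : ∀ z ∈ KA, ∃ a ∈ A, dist z (q a) ≤ 1 / m := by
    intro z hz
    rw [hKA] at hz
    simp only [mem_iUnion, exists_prop] at hz
    obtain ⟨w, ⟨a, ha, rfl⟩, hzw⟩ := hz
    exact ⟨a, ha, dist_le_of_mem_cube hm hzw (mem_cube_car m (q a))⟩
  have hqA : ∀ a ∈ A, q a ∈ KA := by
    intro a ha
    rw [hKA]
    simp only [mem_iUnion, exists_prop]
    exact ⟨_, ⟨a, ha, rfl⟩, mem_cube_car m (q a)⟩
  -- the map `G₀` near `A`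
  obtain ⟨G₀, hG₀, hG₀d, hG₀p⟩ : ∃ G₀ : (Fin N → ℝ) → α, IsMap G₀ KA X' ∧
      (∀ a ∈ A, dist (G₀ (q a)) (f₀ a) < δA) ∧
      (∀ z ∈ KA, dist (p (G₀ z)) (f (xz z)) < δ₁) := by
    rcases A.eq_empty_or_nonempty with hA0 | ⟨a₁, ha₁⟩
    · have hKA0 : KA = ∅ := by
        rw [hKA, hW, hA0]
        simp
      refine ⟨fun _ => f₀ x₁, ?_, ?_, ?_⟩
      · rw [hKA0]; exact IsMap.empty
      · rw [hA0]; simp
      · rw [hKA0]; simp
    · have ha : ∀ z : Fin N → ℝ, ∃ a ∈ A, z ∈ KA → dist z (q a) ≤ 1 / m := by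
        intro z
        by_cases hz : z ∈ KA
        · obtain ⟨a, h1, h2⟩ := hKAa z hz
          exact ⟨a, h1, fun _ => h2⟩
        · exact ⟨a₁, ha₁, fun h => absurd h hz⟩
      choose az hazA haz using ha
      have hosc' : Osc m KA (fun z => f₀ (az z)) δc := by
        intro z hz y hy
        have hyK : y ∈ KA := hKAcub.sat z hz hy
        have h1 := haz z hz
        have h2 := haz y hyK
        have h3 := dist_le_of_mem_cube hm (mem_cube_car m z) hy
        have h4 : dist (q (az z)) (q (az y)) ≤ 3 / m := by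
          have h5 := dist_triangle4 (q (az z)) z y (q (az y))
          rw [dist_comm (q (az z)) z] at h5
          rw [hm3]
          linarith
        exact (hf0u _ (hazA z) _ (hazA y)
          (hqr₂ _ (hAP (hazA z)) _ (hAP (hazA y)) h4)).trans_le (min_le_left _ _)
      obtain ⟨G₀, hG₀, -, hG₀d⟩ := hcoarse hm hKAcub (IsCub.empty m) (empty_subset _)
        (fun z hz _ => hKd z (hKAK hz)) (fun z => f₀ (az z)) (fun z _ => hf₀.maps (hazA z))
        (continuousOn_empty _) hosc'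
      refine ⟨G₀, hG₀, fun a ha => ?_, fun z hz => ?_⟩
      · have h1 := (hG₀d (q a) (hqA a ha)).trans_le (min_le_left _ _)
        have h2 := haz (q a) (hqA a ha)
        have h3 : dist (q (az (q a))) (q a) ≤ 3 / m := by
          rw [dist_comm, hm3]
          linarith
        have h4 := (hf0u _ (hazA (q a)) a ha
          (hqr₂ _ (hAP (hazA (q a))) a (hAP ha) h3)).trans_le (min_le_right _ _)
        have h5 := dist_triangle (G₀ (q a)) (f₀ (az (q a))) (f₀ a)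
        linarith
      · have h1 := (hG₀d z hz).trans_le (min_le_right _ _)
        have h2 := hpu₁ _ (hG₀.maps hz) _ (hf₀.maps (hazA z)) h1
        have h3 := hclose _ (hazA z)
        have h4 : dist (q (az z)) (q (xz z)) ≤ 3 / m := by
          have h5 := dist_triangle (q (az z)) z (q (xz z))
          rw [dist_comm (q (az z)) z] at h5
          have h6 := haz z hz
          have h7 := hxz z (hKAK hz)
          rw [hm3]
          linarith
        have h5 := (hfu _ (hAP (hazA z)) _ (hxzP z)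
          (hqr₁ _ (hAP (hazA z)) _ (hxzP z) h4)).trans_le (min_le_right _ _)
        have h6 := dist_triangle4 (p (G₀ z)) (p (f₀ (az z))) (f (az z)) (f (xz z))
        linarith
  -- lift over the complex
  obtain ⟨G, hG, hGe, hGd⟩ := hlift hm hK hKAcub hKAK (fun z hz _ => hKd z hz)
    (fun z => f (xz z)) hφX hosc G₀ hG₀ hG₀p
  -- correct on `A`
  have hGq : ContinuousOn (fun x => G (q x)) P := hG.cont.comp hq hqK
  obtain ⟨F, hFc, hFm, hFe, hFd⟩ := hape γ P A ⟨cP, hP, hA, hAP⟩ (fun x => G (q x))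
    (fun x hx => hG.maps (hqK hx)) (unif cP hGq hδA) f₀ hf₀.cont hf₀.maps
    (fun a ha => by
      show dist (f₀ a) (G (q a)) < δA
      rw [hGe (hqA a ha), dist_comm]
      exact hG₀d a ha)
  refine ⟨F, ⟨hFc, hFm⟩, hFe, fun x hx => ?_⟩
  have h1 := hpu _ (hFm hx) _ (hG.maps (hqK hx)) (hFd x hx)
  have h2 := hGd (q x) (hqK hx)
  have h3 : dist (q (xz (q x))) (q x) ≤ 3 / m := by
    rw [dist_comm, hm3]
    have := hxz (q x) (hqK hx)
    linarith
  have h4 := (hfu _ (hxzP (q x)) x hx (hqr₁ _ (hxzP (q x)) x hx h3)).trans_le (min_le_left _ _)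
  have h5 := dist_triangle4 (p (F x)) (p (G (q x))) (f (xz (q x))) (f x)
  linarith

/-- lifting over cubical sets with a uniform constant -/
private theorem hlift_unif {k : ℕ} {X : Set β} (hX : ULC k X) {ε : ℝ} (hε : 0 < ε) :
    ∃ δ > 0, ∀ {α : Type} [MetricSpace α] {X' : Set α} {p : α → β} (_ : IsMap p X' X)
      (_ : L k p X' X δ) {N m : ℕ} (_ : 0 < m) {P P₀ : Set (Fin N → ℝ)}
      (_ : IsCub m P) (_ : IsCub m P₀) (_ : P₀ ⊆ P)
      (_ : ∀ x ∈ P, x ∉ P₀ → dm (car m x) ≤ k) (φ : (Fin N → ℝ) → β) (_ : MapsTo φ P X)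
      (_ : Osc m P φ δ) (G₀ : (Fin N → ℝ) → α) (_ : IsMap G₀ P₀ X')
      (_ : ∀ x ∈ P₀, dist (p (G₀ x)) (φ x) < δ),
      ∃ G : (Fin N → ℝ) → α, IsMap G P X' ∧ EqOn G G₀ P₀ ∧ ∀ x ∈ P, dist (p (G x)) (φ x) < ε := by
  obtain ⟨s, h0, hn, h1, h2, h3⟩ := lp_chain.{0, 0} hX (k + 1) hε
  refine ⟨s 0 / 8, by positivity, ?_⟩
  intro α _ X' p hp hL N m hm P P₀ hP hP₀ hsub hdim φ hφ hosc G₀ hG₀ hd
  have h4 := h3 hp (hL.mono (by linarith))
  obtain ⟨G, g1, g2, g3⟩ := lift_cub_uv (s := s) (u := fun i => s (i + 1) / 2) (η := s 0 / 8)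
    (fun i hi => (h4 i (by omega)).toUV)
    (fun i hi => by
      have h5 := h1 i (by omega)
      have h6 := h2 (i + 1) (by omega)
      linarith)
    (fun i hi => by
      have h6 := h2 (i + 1) (by omega)
      show s (i + 1) / 2 + 2 * (s 0 / 8) ≤ s (i + 1)
      linarith) hm hP hP₀ hsub hdim hφ hosc hG₀
    (fun x hx => (hd x hx).trans_le (by linarith))
  refine ⟨G, g1, g2, fun x hx => ?_⟩
  have := g3 x hx
  rw [hn] at this
  linarith

theorem j_lpc : J_LPC := by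
  intro k X _ _ hX ε hε
  obtain ⟨δ, hδ, h⟩ := hlift_unif hX (show 0 < ε / 4 by linarith)
  refine ⟨δ / 4, by linarith, ?_⟩
  intro Y _ _ hY p hp hL P _ _ hP A f f0 hA hf hf0 hc
  have hpm : IsMap p univ univ := ⟨hp.continuousOn, fun _ _ => mem_univ _⟩
  obtain ⟨F, h1, h2, h3⟩ := eq_pair_aux isCompact_univ hY hpm hε hδ
    (h hpm (hL.mono (by linarith))) P univ A isCompact_univ hP hA (subset_univ _) f f0
    ⟨hf.continuousOn, fun _ _ => mem_univ _⟩ ⟨hf0, fun _ _ => mem_univ _⟩ hc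
  exact ⟨F, continuousOn_univ.1 h1.cont, h2, fun x => h3 x (mem_univ x)⟩

end MG.Tr
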