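import Pool.Agent.Work.MP_017613_gt.RndE
import Pool.Agent.Work.MP_017613_gt.AekConn
import Pool.Agent.Work.MP_017613_gt.TrLpc
import Pool.Agent.Work.MP_017613_gt.MenBridge
import Pool.Agent.Work.MP_017613_gt.Statement
import Pool.Agent.Work.MP_017613_gt.DigSwin2

/-!
# Menger spaces have charts

* `Rnd.Pre.tpt`: `T_REL` over a point, in the form used by the digit model.
* `Rnd.Pre.charts`: every compact Menger space is a `μ^k`-manifold.
* `Rnd.Pre.swin`: the swindle in a compact Menger space.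
-/

set_option linter.unusedSectionVars false

open Set Topology Metric

namespace Pool.Agent.Work.MP_017613_gt

namespace Rnd

variable {k : ℕ}

theorem aek_of_conn' {Y : Type} [MetricSpace Y] [CompactSpace Y] [Nonempty Y]
    (hU : MG.ULC k (univ : Set Y)) (hC : MG.Conn k (univ : Set Y)) : AEk k (univ : Set Y) :=
  aek_of_conn MG.Tr.j_lpc hU hC

theorem aek_mu (k N : ℕ) : AEk k (univ : Set (MG.mu k N)) :=
  aek_of_conn' (MG.ulcU_mu k N) (MG.connU_mu k N)

theorem men_mu {k N : ℕ} (hN : 2 * k + 1 ≤ N) : Men k (MG.mu k N) :=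
  rnd_men_iff.2 ⟨inferInstance, MG.men_mu hN⟩

variable (T : Pre k)

include T in
/-- extension of homeomorphisms of Z-sets, in types -/
theorem Pre.ext_type {A B : Type} [MetricSpace A] [CompactSpace A] [MetricSpace B] [CompactSpace B]
    (mA : Men k A) (mB : Men k B) (aA : AEk k (univ : Set A)) (aB : AEk k (univ : Set B))
    {W : Set A} {W' : Set B} (hW : ZS W) (hW' : ZS W') (g : W ≃ₜ W') :
    ∃ h : A ≃ₜ B, ∀ x : W, h x = g x := by
  obtain ⟨δ, hδ, h⟩ := T.trel PUnit {PUnit.unit} isCompact_singleton (ane_point _) 1 one_pos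
  obtain ⟨θ, h1, -⟩ := h A B mA mB (fun _ => PUnit.unit) (fun _ => PUnit.unit)
    (soft_const aA _) (soft_const aB _) W W' hW hW' g fun x => by
      rw [dist_self]
      exact hδ
  exact ⟨θ, h1⟩

include T in
theorem Pre.tpt : MG.TPt k := by
  intro A B _ _ _ _ nA nB mA mB cA cB W W' hW hW' g
  exact T.ext_type (rnd_men_iff.2 ⟨nA, mA⟩) (rnd_men_iff.2 ⟨nB, mB⟩) (aek_of_conn' mA.2.1 cA)
    (aek_of_conn' mB.2.1 cB) hW hW' g

include T in
/-- **Charts.** -/
theorem Pre.charts {M : Type} [MetricSpace M] [CompactSpace M] (mM : Men k M) :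
    MG.IsMuManifold k M := by
  intro m
  obtain ⟨P, ⟨Q, hs, aP, -⟩, hPm, -⟩ := T.base mM m Filter.univ_mem
  obtain ⟨f, hf, -⟩ := T.ext_homeo hs.mP (men_mu (k := k) le_rfl).univ aP (aek_mu k (2 * k + 1))
    (W := ∅) (W' := ∅) (g := fun _ => Classical.arbitrary _) (ZIn.empty _) (ZIn.empty _)
    ⟨continuousOn_empty _, injOn_empty _, image_empty _⟩
  obtain ⟨θ, -⟩ := hf.exists_homeo hs.mP.cpt
  have oU : IsOpen (interior P) := isOpen_interior
  have hU : interior P ⊆ P := interior_subset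
  -- the open subset of the subtype
  let e₁ : (Subtype.val ⁻¹' interior P : Set P) ≃ₜ interior P :=
    { toFun := fun x => ⟨x.1.1, x.2⟩
      invFun := fun x => ⟨⟨x.1, hU x.2⟩, x.2⟩
      left_inv := fun x => rfl
      right_inv := fun x => rfl
      continuous_toFun := by fun_prop
      continuous_invFun := by fun_prop }
  let θ' : P ≃ₜ MG.mu k (2 * k + 1) := θ.trans (Homeomorph.Set.univ _)
  exact ⟨interior P, oU, mem_interior_iff_mem_nhds.2 hPm, θ' '' (Subtype.val ⁻¹' interior P),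
    θ'.isOpenMap _ (oU.preimage continuous_subtype_val),
    ⟨e₁.symm.trans (θ'.image _)⟩⟩

include T in
/-- the field `swin` of `Data` -/
theorem Pre.swin {M : Type} [MetricSpace M] [CompactSpace M] (mM : Men k M) :
    ∃ (Q : Set M) (φ : M ≃ₜ M) (D : Set M) (p : M), Q ∈ RB k M ∧ Swindle.SuppIn φ Q ∧
      Swindle.Swin φ D p ∧ (interior D).Nonempty ∧ D ⊆ Q := by
  obtain ⟨m⟩ := mM.ne
  obtain ⟨P, hP, hPm, -⟩ := T.base mM m Filter.univ_mem
  exact MG.exists_swin_RB T.tpt le_rfl (T.charts mM) hP ⟨m, mem_interior_iff_mem_nhds.2 hPm⟩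

include T in
/-- displacement and swindle -/
theorem Pre.data {M : Type} [MetricSpace M] [CompactSpace M] [PreconnectedSpace M]
    (mM : Men k M) : Swindle.Data (RB k M) where
  inv g P hP := RB.image g hP
  disp P hP O hO hne := T.disp hP hO hne
  swin := T.swin mM

end Rnd

end Pool.Agent.Work.MP_017613_gt
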