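import Pool.Agent.Work.MP_017613_gt.Sph

/-!
Extension of vector fields `v` with `‖v‖ = D` for a given function `D ≥ 0`, with values in a space
of dimension `k + 1`, over compact sets of dimension at most `k`.
-/

set_option linter.unusedSectionVars false

open Set Topology Metric

namespace MG

open Pool.Agent.Work.MP_017613_gt

variable {α : Type*} [MetricSpace α] {E : Type*} [NormedAddCommGroup E] [NormedSpace ℝ E]

/-- vector fields of prescribed norm `D` with values in a space of dimension `k + 1` extend over compact sets of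
dimension at most `k` -/
theorem extend_norm {k : ℕ} (e : E ≃L[ℝ] (Fin (k + 1) → ℝ)) {P A : Set α} (cP : IsCompact P) (hP : PushOff k P)
    (cA : IsCompact A) (hAP : A ⊆ P) {D : α → ℝ} (hD : ContinuousOn D P) (D0 : ∀ x ∈ P, 0 ≤ D x)
    {v₀ : α → E} (hv₀ : ContinuousOn v₀ A) (hn : ∀ x ∈ A, ‖v₀ x‖ = D x) :
    ∃ v : α → E, ContinuousOn v P ∧ (∀ x ∈ A, v x = v₀ x) ∧
      ∀ x ∈ P, ‖v x‖ = D x := by
  classical
  -- the exhaustion
  let Q : ℕ → Set α := fun n => {x | x ∈ P ∧ 1 / (n + 1 : ℝ) ≤ D x}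
  have hQP : ∀ n, Q n ⊆ P := fun n x hx => hx.1
  have hQc : ∀ n, IsCompact (Q n) := fun n =>
    cP.of_isClosed_subset (hD.preimage_isClosed_of_isClosed cP.isClosed isClosed_Ici) (hQP n)
  have hQm : ∀ n, Q n ⊆ Q (n + 1) := by
    rintro n x ⟨h1, h2⟩
    refine ⟨h1, le_trans ?_ h2⟩
    exact one_div_le_one_div_of_le (by positivity) (by push_cast; linarith)
  have hQpos : ∀ n, ∀ x ∈ Q n, 0 < D x := fun n x hx =>
    lt_of_lt_of_le Nat.one_div_pos_of_nat hx.2
  have hQA : ∀ n, IsCompact (A ∩ Q n) := fun n => cA.inter (hQc n)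
  -- the unit vector field on `A`
  have hu0 : ∀ n, ContinuousOn (fun x => (D x)⁻¹ • v₀ x) (A ∩ Q n) := fun n =>
    ((hD.mono (inter_subset_right.trans (hQP n))).inv₀ fun x hx =>
      (hQpos n x hx.2).ne').smul (hv₀.mono inter_subset_left)
  have hu1 : ∀ n, ∀ x ∈ A ∩ Q n, ‖(D x)⁻¹ • v₀ x‖ = 1 := by
    rintro n x ⟨h1, h2⟩
    have := hQpos n x h2
    rw [norm_smul, norm_inv, Real.norm_eq_abs, abs_of_pos this, hn x h1,
      inv_mul_cancel₀ this.ne']
  -- good fields on `Q n`
  let Good : ℕ → (α → E) → Prop := fun n u => ContinuousOn u (Q n) ∧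
    (∀ x ∈ A ∩ Q n, u x = (D x)⁻¹ • v₀ x) ∧ ∀ x ∈ Q n, ‖u x‖ = 1
  have step0 : ∃ u, Good 0 u := by
    obtain ⟨u, h1, h2, h3⟩ := (hP.mono (hQc 0) (hQP 0)).extend_sphere (hQA 0)
      e (hu0 0) (hu1 0)
    exact ⟨u, h1, fun x hx => h2 x hx.2 hx, h3⟩
  have step : ∀ n u, Good n u → ∃ u', Good (n + 1) u' ∧ ∀ x ∈ Q n, u' x = u x := by
    rintro n u ⟨h1, h2, h3⟩
    have c1 : ContinuousOn (fun x => if x ∈ Q n then u x else (D x)⁻¹ • v₀ x)
        (Q n ∪ (A ∩ Q (n + 1))) := by
      refine ContinuousOn.union_of_isClosed ?_ ?_ (hQc n).isClosed (hQA (n + 1)).isClosed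
      · exact h1.congr fun x hx => by simp only [hx, if_true]
      · refine (hu0 (n + 1)).congr fun x hx => ?_
        by_cases hxn : x ∈ Q n
        · simp only [hxn, if_true]; exact h2 x ⟨hx.1, hxn⟩
        · simp only [hxn, if_false]
    obtain ⟨u', h4, h5, h6⟩ := (hP.mono (hQc (n + 1)) (hQP (n + 1))).extend_sphere
      ((hQc n).union (hQA (n + 1))) e c1 (by
        intro x hx
        by_cases hxn : x ∈ Q n
        · simp only [hxn, if_true]; exact h3 x hxn
        · simp only [hxn, if_false]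
          exact hu1 (n + 1) x (hx.resolve_left hxn))
    refine ⟨u', ⟨h4, fun x hx => ?_, h6⟩, fun x hx => ?_⟩
    · rw [h5 x hx.2 (Or.inr hx)]
      by_cases hxn : x ∈ Q n
      · simp only [hxn, if_true]; exact h2 x ⟨hx.1, hxn⟩
      · simp only [hxn, if_false]
    · rw [h5 x (hQm n hx) (Or.inl hx)]
      simp only [hx, if_true]
  obtain ⟨u₀, hu₀⟩ := step0
  choose! nx hnx1 hnx2 using step
  let U : ℕ → α → E := fun n => Nat.rec u₀ (fun n u => nx n u) n
  have hU : ∀ n, Good n (U n) := by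
    intro n
    induction n with
    | zero => exact hu₀
    | succ n ih => exact hnx1 n _ ih
  have hUs : ∀ n, ∀ x ∈ Q n, U (n + 1) x = U n x := fun n x hx => hnx2 n _ (hU n) x hx
  have hQmm : Monotone Q := monotone_nat_of_le_succ hQm
  have hUm : ∀ m n, m ≤ n → ∀ x ∈ Q m, U n x = U m x := by
    intro m n hmn
    induction n, hmn using Nat.le_induction with
    | base => exact fun x _ => rfl
    | succ n hn ih => exact fun x hx => (hUs n x (hQmm hn hx)).trans (ih x hx)
  -- the limit field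
  let N : α → ℕ := fun x => if h : ∃ n, x ∈ Q n then Nat.find h else 0
  let u : α → E := fun x => U (N x) x
  have hu : ∀ n, ∀ x ∈ Q n, u x = U n x := by
    intro n x hx
    have h : ∃ n, x ∈ Q n := ⟨n, hx⟩
    have hN : N x = Nat.find h := by simp only [N, h, dif_pos]
    have h1 : x ∈ Q (N x) := by rw [hN]; exact Nat.find_spec h
    have h2 : N x ≤ n := by rw [hN]; exact Nat.find_min' h hx
    exact (hUm _ _ h2 x h1).symm
  have hex : ∀ x ∈ P, 0 < D x → ∃ n : ℕ, 1 / (n + 1 : ℝ) < D x := fun x _ h => exists_nat_one_div_lt h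
  have hnu : ∀ x ∈ P, 0 < D x → ‖u x‖ = 1 := by
    intro x hx hp
    obtain ⟨n, hn'⟩ := hex x hx hp
    have : x ∈ Q n := ⟨hx, hn'.le⟩
    rw [hu n x this]
    exact (hU n).2.2 x this
  have hnv : ∀ x ∈ P, ‖D x • u x‖ = D x := by
    intro x hx
    rcases (D0 x hx).eq_or_lt with h | h
    · rw [← h, zero_smul, norm_zero]
    · rw [norm_smul, hnu x hx h, mul_one, Real.norm_eq_abs, abs_of_pos h]
  refine ⟨fun x => D x • u x, ?_, ?_, hnv⟩
  · intro x hx
    rcases (D0 x hx).eq_or_lt with h | h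
    · rw [ContinuousWithinAt, ← h, zero_smul]
      refine squeeze_zero_norm' (a := D) ?_ ?_
      · filter_upwards [self_mem_nhdsWithin] with y hy using (hnv y hy).le
      · have := hD x hx
        rw [ContinuousWithinAt, ← h] at this
        exact this
    · obtain ⟨n, hn'⟩ := hex x hx h
      have hev : ∀ᶠ y in 𝓝[P] x, y ∈ Q n := by
        have := (hD x hx).eventually (lt_mem_nhds hn')
        filter_upwards [this, self_mem_nhdsWithin] with y hy hyP using ⟨hyP, hy.le⟩
      have hcu : ContinuousWithinAt u P x := by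
        have h1 : ContinuousWithinAt (U n) (Q n) x := (hU n).1 x ⟨hx, hn'.le⟩
        have h2 : ContinuousWithinAt (U n) P x := h1.mono_of_mem_nhdsWithin hev
        refine h2.congr_of_eventuallyEq ?_ (hu n x ⟨hx, hn'.le⟩)
        filter_upwards [hev] with y hy using hu n y hy
      exact (hD x hx).smul hcu
  · intro x hx
    rcases (D0 x (hAP hx)).eq_or_lt with h | h
    · have h1 := hn x hx
      rw [← h] at h1
      rw [norm_eq_zero.1 h1]
      change D x • u x = 0
      rw [← h, zero_smul]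
    · obtain ⟨n, hn'⟩ := hex x (hAP hx) h
      have hxQ : x ∈ Q n := ⟨hAP hx, hn'.le⟩
      change D x • u x = v₀ x
      rw [hu n x hxQ, (hU n).2.1 x ⟨hx, hxQ⟩, smul_smul, mul_inv_cancel₀ h.ne', one_smul]

end MG
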