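import Pool.Agent.Work.MP_017613_gt.ChiP
import Pool.Agent.Work.MP_017613_gt.ChiGlue
import Pool.Agent.Work.MP_017613_gt.Gluing

/-!
Theorem CHI: the induction over the spherical spaces `P_q`.
-/

set_option linter.unusedSectionVars false

open Set Topology Metric

namespace Pool.Agent.Work.MP_017613_gt

namespace Chi

namespace Main

variable {k : ℕ} {M N : Type} [MetricSpace M] [CompactSpace M] [MetricSpace N] [CompactSpace N]

/-- the zero vector of the fibres -/
abbrev O (k : ℕ) : Fin (k + 1) → ℝ := 0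

theorem mapsTo_proj {i : M → N} {r : N → M} (hri : ∀ x, r (i x) = x) {z : N × (Fin (k + 1) → ℝ)}
    (hz : z ∈ (range i) ×ˢ {O k}) : (i (r z.1), O k) = z := by
  obtain ⟨⟨x, hx⟩, h2⟩ := hz
  have h3 : i (r z.1) = z.1 := by rw [← hx, hri]
  rw [h3]
  exact Prod.ext rfl h2.symm

section
variable {i : M → N} (hi : Continuous i) {r : N → M} (hr : Soft k (univ : Set N) (univ : Set M) r)
  (hri : ∀ x, r (i x) = x) (hW : IsClosed (range i)) (hne : (range i).Nonempty)

include hi hr hri hW hne

theorem ane_zero (hM : ANE k (univ : Set M)) : ANE k (Pq k (range i) 0) := by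
  rw [Pq_zero hW hne]
  refine hM.transfer isCompact_univ (hW.isCompact.prod isCompact_singleton)
    (e := fun m => (i m, O k)) (e' := fun z => r z.1) (by fun_prop) ?_
    (fun m _ => ⟨mem_range_self m, rfl⟩) (fun _ _ => mem_univ _)
    (fun z hz => mapsTo_proj hri hz)
  exact hr.cont.comp continuous_fst.continuousOn fun _ _ => mem_univ _

theorem soft_zero : Soft k (Pq k (range i) 0) (univ : Set M) (fun z => r z.1) := by
  rw [Pq_zero hW hne]
  have h := Soft.precomp (k := k) (Soft.refl (univ : Set M))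
    (E := (range i) ×ˢ {O k}) (e := fun z => r z.1) (e' := fun m => (i m, O k))
    (hr.cont.comp continuous_fst.continuousOn fun _ _ => mem_univ _) (fun _ _ => mem_univ _)
    (by fun_prop) (fun m _ => ⟨mem_range_self m, rfl⟩) (fun z hz => mapsTo_proj hri hz)
    (fun m _ => hri m)
  exact h

theorem soft_emb : Soft k (univ : Set M) (Pq k (range i) 0) (fun m => (i m, O k)) := by
  rw [Pq_zero hW hne]
  have h := Soft.precomp (k := k) (Soft.refl ((range i) ×ˢ {O k}))
    (E := (univ : Set M)) (e := fun m => (i m, O k)) (e' := fun z => r z.1)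
    (by fun_prop) (fun m _ => ⟨mem_range_self m, rfl⟩)
    (hr.cont.comp continuous_fst.continuousOn fun _ _ => mem_univ _) (fun _ _ => mem_univ _)
    (fun m _ => hri m) (fun z hz => mapsTo_proj hri hz)
  exact h

theorem ane_Pq (hM : ANE k (univ : Set M)) (hN : ANE k (univ : Set N)) {q : ℕ} (hq : q ≤ k + 1) :
    ANE k (Pq k (range i) q) := by
  induction q with
  | zero => exact ane_zero hi hr hri hW hne hM
  | succ q ih =>
    have hq' : q ≤ k := Nat.le_of_succ_le_succ hq
    rw [← Ph_union]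
    refine ANE.union isCompact_Ph isCompact_Ph (ANE_Ph hq' (by norm_num) hN)
      (ANE_Ph hq' (by norm_num) hN) ?_
    rw [Ph_inter]
    exact ih (Nat.le_of_succ_le hq)

theorem soft_Ph_M {q : ℕ} (hq : q ≤ k) {s : ℝ} (hs : s * s = 1) :
    Soft k (Ph k (range i) s q) (univ : Set M) (fun z => r z.1) :=
  Soft.comp isCompact_univ hr (soft_Ph hq hs)

theorem soft_Pq_M (hM : ANE k (univ : Set M)) {q : ℕ} (hq : q ≤ k + 1) :
    Soft k (Pq k (range i) q) (univ : Set M) (fun z => r z.1) := by
  induction q with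
  | zero => exact soft_zero hi hr hri hW hne
  | succ q ih =>
    have hq' : q ≤ k := Nat.le_of_succ_le_succ hq
    rw [← Ph_union]
    refine Soft.union isCompact_Ph isCompact_Ph isCompact_univ hM
      (soft_Ph_M hi hr hri hW hne hq' (by norm_num)) (soft_Ph_M hi hr hri hW hne hq' (by norm_num)) ?_
    rw [Ph_inter]
    exact ih (Nat.le_of_succ_le hq)

end

end Main

variable {k : ℕ} {M N : Type} [MetricSpace M] [CompactSpace M] [MetricSpace N] [CompactSpace N]

/-- the descent property used in theorem CHI (`Triv`) -/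
def Triv' (T : Theory k) {β : Type} [MetricSpace β] (X : Set β) (φ : β → β) : Prop :=
  ∃ δ > 0, ∀ (L : Type) [MetricSpace L] [CompactSpace L], T.Men L → ∀ l : L → β,
    Soft k univ X l → ∀ Ψ : L ≃ₜ L, (∀ x, dist (l (Ψ x)) (φ (l x)) < δ) → Ψ ∈ T.H L

/-- **Theorem CHI**, from its two steps. -/
theorem chi_of (T : Theory k)
    (hE : ∀ (β : Type) [MetricSpace β] (X : Set β) (N : Type) [MetricSpace N] [CompactSpace N],
      IsCompact X → ANE k X → T.Men N → ∀ F ∈ T.H N, ∀ p : β → N, Soft k X univ p →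
      ∀ φ : β → β, HomOn X φ → (∀ x ∈ X, p (φ x) = F (p x)) → Triv' T X φ)
    (hU : ∀ (β β' : Type) [MetricSpace β] [MetricSpace β'] (Xp Xm : Set β) (B : Set β'),
      IsCompact Xp → IsCompact Xm → IsCompact B → ANE k Xp → ANE k Xm → ANE k (Xp ∩ Xm : Set β) →
      ANE k B → ∀ π : β → β', Soft k (Xp ∪ Xm) B π → Soft k Xp B π → Soft k Xm B π →
      Soft k (Xp ∩ Xm : Set β) B π → ∀ φ : β → β, HomOn (Xp ∪ Xm) φ → HomOn Xp φ → HomOn Xm φ →
      HomOn (Xp ∩ Xm : Set β) φ → Triv' T (Xp ∪ Xm) φ → Triv' T Xp φ → Triv' T Xm φ →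
      Triv' T (Xp ∩ Xm : Set β) φ)
    (hM : T.Men M) (hN : T.Men N) {i : M → N} (hi : Continuous i)
    (hz : ZS (range i)) {r : N → M} (hr : Soft k (univ : Set N) (univ : Set M) r)
    (hri : ∀ x, r (i x) = x) {F : N ≃ₜ N} (hF : F ∈ T.H N) {f : M ≃ₜ M}
    (hf : ∀ x, F (i x) = i (f x)) : f ∈ T.H M := by
  have hW : IsClosed (range i) := hz.1
  have := T.ne M hM
  have hne : (range i).Nonempty := range_nonempty i
  have aM := T.ane M hM
  have aN := T.ane N hN
  have hFW : MapsTo F (range i) (range i) := by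
    rintro _ ⟨x, rfl⟩
    exact ⟨f x, (hf x).symm⟩
  have hFW' : MapsTo F.symm (range i) (range i) := by
    rintro _ ⟨x, rfl⟩
    refine ⟨f.symm x, ?_⟩
    rw [Homeomorph.eq_symm_apply, hf, f.apply_symm_apply]
  -- the halves
  have hPh : ∀ q ≤ k, ∀ s : ℝ, s * s = 1 → Triv' T (Ph k (range i) s q) (phi (range i) F) :=
    fun q hq s hs => hE _ _ N isCompact_Ph (ANE_Ph hq hs aN) hN F hF Prod.fst (soft_Ph hq hs)
      (phi (range i) F) (homOn_phi_Ph F hW hne hFW hFW' s q) fun z _ => rfl
  -- the descent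
  have key : ∀ j ≤ k + 1, Triv' T (Pq k (range i) (k + 1 - j)) (phi (range i) F) := by
    intro j
    induction j with
    | zero =>
      intro _
      exact hE _ _ N isCompact_Pq (Main.ane_Pq hi hr hri hW hne aM aN le_rfl) hN F hF Prod.fst
        soft_Pq (phi (range i) F) (homOn_phi_Pq F hW hne hFW hFW' _) fun z _ => rfl
    | succ j ih =>
      intro hj
      have h1 := ih (Nat.le_of_succ_le hj)
      set q := k + 1 - (j + 1) with hq
      have hqk : q ≤ k := by omega
      have h2 : k + 1 - j = q + 1 := by omega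
      rw [h2] at h1
      have hc : ∀ m ≤ k + 1, Soft k (Pq k (range i) m) (univ : Set M) (fun z => r z.1) :=
        fun m hm => Main.soft_Pq_M hi hr hri hW hne aM hm
      have := hU _ M (Ph k (range i) 1 q) (Ph k (range i) (-1) q) (univ : Set M)
        isCompact_Ph isCompact_Ph isCompact_univ (ANE_Ph hqk (by norm_num) aN)
        (ANE_Ph hqk (by norm_num) aN)
        (by rw [Ph_inter]; exact Main.ane_Pq hi hr hri hW hne aM aN (by omega)) aM
        (fun z => r z.1) (by rw [Ph_union]; exact hc _ (by omega))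
        (Main.soft_Ph_M hi hr hri hW hne hqk (by norm_num))
        (Main.soft_Ph_M hi hr hri hW hne hqk (by norm_num))
        (by rw [Ph_inter]; exact hc _ (by omega)) (phi (range i) F)
        (by rw [Ph_union]; exact homOn_phi_Pq F hW hne hFW hFW' _)
        (homOn_phi_Ph F hW hne hFW hFW' _ q) (homOn_phi_Ph F hW hne hFW hFW' _ q)
        (by rw [Ph_inter]; exact homOn_phi_Pq F hW hne hFW hFW' _)
        (by rw [Ph_union]; exact h1) (hPh q hqk 1 (by norm_num)) (hPh q hqk (-1) (by norm_num))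
      rwa [Ph_inter] at this
  have h0 := key (k + 1) le_rfl
  rw [Nat.sub_self] at h0
  obtain ⟨δ, hδ, h1⟩ := h0
  refine h1 M hM (fun m => (i m, Main.O k)) (Main.soft_emb hi hr hri hW hne) f fun x => ?_
  rw [phi_zero, hf, dist_self]
  exact hδ

end Chi

end Pool.Agent.Work.MP_017613_gt
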