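import Pool.Agent.Work.MP_017613_gt.ChiExt
import Pool.Agent.Work.MP_017613_gt.Chi0

/-!
# The spaces `P_q` of Theorem CHI

`Pq q = {(n, v) : |v| = dist (n, M), v_i = 0 for i ≥ q}` over a compact metric space `N` with a
closed subset `M`; halves `Pp q`, `Pm q` of `Pq (q + 1)`.
-/

set_option linter.unusedSectionVars false

open Set Topology Metric

namespace Pool.Agent.Work.MP_017613_gt.Chi

open MG

/-! ### the half sphere map -/

/-- sum of the first `q` squares -/
noncomputable def sq {m : ℕ} (q : ℕ) (v : Fin m → ℝ) : ℝ :=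
  ∑ i : Fin m, if (i : ℕ) < q then v i ^ 2 else 0

/-- sum of all squares -/
noncomputable def Sq {m : ℕ} (v : Fin m → ℝ) : ℝ := ∑ i, v i ^ 2

/-- the scaling factor -/
noncomputable def lam {m : ℕ} (q : ℕ) (D : ℝ) (v : Fin m → ℝ) : ℝ := D / max D (√(sq q v))

/-- the map to the half sphere of radius `D` -/
noncomputable def hf {m : ℕ} (q : ℕ) (D : ℝ) (v : Fin m → ℝ) : Fin m → ℝ := fun i =>
  if (i : ℕ) < q then lam q D v * v i
  else if (i : ℕ) = q then √(D ^ 2 - lam q D v ^ 2 * sq q v) else 0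

section
variable {m q : ℕ} {D : ℝ} {v : Fin m → ℝ}

lemma sq_nonneg' : 0 ≤ sq q v := Finset.sum_nonneg fun i _ => by split_ifs <;> positivity

lemma lam_nonneg (hD : 0 ≤ D) : 0 ≤ lam q D v := div_nonneg hD (le_max_of_le_left hD)

lemma lam_le_one (hD : 0 ≤ D) : lam q D v ≤ 1 := div_le_one_of_le₀ (le_max_left _ _)
  (le_max_of_le_left hD)

lemma lam_mul_le (hD : 0 ≤ D) : lam q D v * √(sq q v) ≤ D := by
  unfold lam
  rw [div_mul_eq_mul_div]
  rcases (le_max_of_le_left hD : (0 : ℝ) ≤ max D (√(sq q v))).eq_or_lt with h | h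
  · rw [← h, div_zero]; exact hD
  · rw [div_le_iff₀ h]
    exact mul_le_mul_of_nonneg_left (le_max_right _ _) hD

lemma lam_sq_le (hD : 0 ≤ D) : lam q D v ^ 2 * sq q v ≤ D ^ 2 := by
  have h1 : lam q D v ^ 2 * sq q v = (lam q D v * √(sq q v)) ^ 2 := by
    rw [mul_pow, Real.sq_sqrt sq_nonneg']
  rw [h1]
  exact pow_le_pow_left₀ (mul_nonneg (lam_nonneg hD) (Real.sqrt_nonneg _)) (lam_mul_le hD) 2

lemma hf_lt {i : Fin m} (hi : (i : ℕ) < q) : hf q D v i = lam q D v * v i := by simp [hf, hi]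

lemma hf_eq {i : Fin m} (hi : (i : ℕ) = q) : hf q D v i = √(D ^ 2 - lam q D v ^ 2 * sq q v) := by
  simp [hf, hi]

lemma hf_gt {i : Fin m} (hi : q < (i : ℕ)) : hf q D v i = 0 := by
  simp [hf, hi.ne', hi.not_gt]

lemma sum_split (hq : q < m) (a : Fin m → ℝ) (b : ℝ) :
    ∑ i : Fin m, (if (i : ℕ) < q then a i else if (i : ℕ) = q then b else 0) =
      (∑ i : Fin m, if (i : ℕ) < q then a i else 0) + b := by
  have h1 : ∀ i : Fin m, (if (i : ℕ) < q then a i else if (i : ℕ) = q then b else 0) =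
      (if (i : ℕ) < q then a i else 0) + if i = ⟨q, hq⟩ then b else 0 := by
    intro i
    by_cases h : (i : ℕ) < q
    · have : i ≠ ⟨q, hq⟩ := fun hh => by rw [hh] at h; exact lt_irrefl _ h
      simp [h, this]
    · by_cases h' : (i : ℕ) = q
      · have : i = ⟨q, hq⟩ := Fin.ext h'
        simp [this]
      · have : i ≠ ⟨q, hq⟩ := fun hh => h' (by rw [hh])
        simp [h, h', this]
  rw [Finset.sum_congr rfl fun i _ => h1 i, Finset.sum_add_distrib]
  simp

lemma Sq_hf (hq : q < m) (hD : 0 ≤ D) : Sq (hf q D v) = D ^ 2 := by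
  have h1 : ∀ i : Fin m, hf q D v i ^ 2 = if (i : ℕ) < q then (lam q D v * v i) ^ 2 else
      if (i : ℕ) = q then D ^ 2 - lam q D v ^ 2 * sq q v else 0 := by
    intro i
    rcases lt_trichotomy (i : ℕ) q with h | h | h
    · rw [hf_lt h, if_pos h]
    · rw [hf_eq h, if_neg h.not_lt, if_pos h, Real.sq_sqrt (sub_nonneg.2 (lam_sq_le hD))]
    · rw [hf_gt h, if_neg h.not_gt, if_neg h.ne']; simp
  unfold Sq
  rw [Finset.sum_congr rfl fun i _ => h1 i, sum_split hq]
  have h2 : ∑ i : Fin m, (if (i : ℕ) < q then (lam q D v * v i) ^ 2 else 0) =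
      lam q D v ^ 2 * sq q v := by
    rw [sq, Finset.mul_sum]
    refine Finset.sum_congr rfl fun i _ => ?_
    split_ifs <;> ring
  rw [h2]; ring

lemma hf_nonneg {i : Fin m} (hi : (i : ℕ) = q) : 0 ≤ hf q D v i := by
  rw [hf_eq hi]; exact Real.sqrt_nonneg _

/-- the half sphere is fixed -/
lemma hf_fix (hq : q < m) (hD : 0 ≤ D) (h1 : Sq v = D ^ 2) (h2 : ∀ i : Fin m, q < (i : ℕ) → v i = 0)
    (h3 : ∀ i : Fin m, (i : ℕ) = q → 0 ≤ v i) : hf q D v = v := by
  have h4 : sq q v + v ⟨q, hq⟩ ^ 2 = D ^ 2 := by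
    rw [← h1, Sq, sq, ← sum_split hq (fun i => v i ^ 2) (v ⟨q, hq⟩ ^ 2)]
    refine Finset.sum_congr rfl fun i _ => ?_
    rcases lt_trichotomy (i : ℕ) q with h | h | h
    · simp [h]
    · have : i = ⟨q, hq⟩ := Fin.ext h
      simp [this]
    · simp [h.not_gt, h.ne', h2 i h]
  have h5 : sq q v ≤ D ^ 2 := by linarith [_root_.sq_nonneg (v ⟨q, hq⟩)]
  have h6 : √(sq q v) ≤ D := by
    rw [← Real.sqrt_sq hD]; exact Real.sqrt_le_sqrt h5
  have h7 : ∀ i : Fin m, (i : ℕ) < q → lam q D v * v i = v i := by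
    intro i hi
    rcases hD.eq_or_lt with h | h
    · have h8 : sq q v = 0 := by
        have := sq_nonneg' (q := q) (v := v)
        rw [← h] at h5
        linarith
      have h9 : v i ^ 2 ≤ sq q v := by
        have := Finset.single_le_sum (f := fun i : Fin m => if (i : ℕ) < q then v i ^ 2 else 0)
          (fun j _ => by split_ifs <;> positivity) (Finset.mem_univ i)
        simpa [hi, sq] using this
      have : v i = 0 := by
        rw [h8] at h9
        exact pow_eq_zero_iff two_ne_zero |>.1 (le_antisymm h9 (_root_.sq_nonneg _))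
      rw [this, mul_zero]
    · have : lam q D v = 1 := by
        unfold lam
        rw [max_eq_left h6, div_self h.ne']
      rw [this, one_mul]
  have h8 : lam q D v ^ 2 * sq q v = sq q v := by
    unfold sq
    rw [Finset.mul_sum]
    refine Finset.sum_congr rfl fun i _ => ?_
    split_ifs with hi
    · have := h7 i hi
      calc lam q D v ^ 2 * v i ^ 2 = (lam q D v * v i) ^ 2 := by ring
        _ = v i ^ 2 := by rw [this]
    · simp
  ext i
  rcases lt_trichotomy (i : ℕ) q with h | h | h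
  · rw [hf_lt h, h7 i h]
  · have hi : i = ⟨q, hq⟩ := Fin.ext h
    rw [hf_eq h, h8, show D ^ 2 - sq q v = v i ^ 2 by rw [hi]; linarith, Real.sqrt_sq (h3 i h)]
  · rw [hf_gt h, h2 i h]

end

/-- joint continuity of the first coordinates -/
lemma continuousOn_w {m q : ℕ} {i : Fin m} (hi : (i : ℕ) < q) :
    ContinuousOn (fun z : ℝ × (Fin m → ℝ) => lam q z.1 z.2 * z.2 i) {z | 0 ≤ z.1} := by
  intro z hz
  have hcs : Continuous fun z : ℝ × (Fin m → ℝ) => √(sq q z.2) := by
    refine Real.continuous_sqrt.comp ?_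
    unfold sq
    refine continuous_finsetSum _ fun j _ => ?_
    split_ifs <;> fun_prop
  rcases (le_max_of_le_left hz : (0 : ℝ) ≤ max z.1 (√(sq q z.2))).eq_or_lt with h | h
  · -- both vanish
    have h1 : z.1 = 0 := le_antisymm (by rw [h]; exact le_max_left _ _) hz
    have h2 : √(sq q z.2) = 0 := le_antisymm (by rw [h]; exact le_max_right _ _)
      (Real.sqrt_nonneg _)
    have h3 : sq q z.2 = 0 := by
      rw [Real.sqrt_eq_zero'] at h2
      exact le_antisymm h2 sq_nonneg'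
    have h4 : z.2 i = 0 := by
      have := Finset.single_le_sum (f := fun i : Fin m => if (i : ℕ) < q then z.2 i ^ 2 else 0)
        (fun j _ => by split_ifs <;> positivity) (Finset.mem_univ i)
      have h5 : z.2 i ^ 2 ≤ sq q z.2 := by simpa [hi, sq] using this
      rw [h3] at h5
      exact pow_eq_zero_iff two_ne_zero |>.1 (le_antisymm h5 (_root_.sq_nonneg _))
    rw [ContinuousWithinAt, h4, mul_zero]
    refine squeeze_zero_norm' (a := fun z : ℝ × (Fin m → ℝ) => |z.2 i|) ?_ ?_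
    · filter_upwards [self_mem_nhdsWithin] with y hy
      rw [norm_mul, Real.norm_eq_abs, Real.norm_eq_abs, abs_of_nonneg (lam_nonneg hy)]
      exact mul_le_of_le_one_left (abs_nonneg _) (lam_le_one hy)
    · have : Continuous fun z : ℝ × (Fin m → ℝ) => |z.2 i| := by fun_prop
      have h5 := this.tendsto z
      rw [h4, abs_zero] at h5
      exact h5.mono_left nhdsWithin_le_nhds
  · have h1 : ContinuousAt (fun z : ℝ × (Fin m → ℝ) => lam q z.1 z.2) z := by
      unfold lam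
      exact continuous_fst.continuousAt.div (continuous_fst.max hcs).continuousAt h.ne'
    exact (h1.mul (by fun_prop)).continuousWithinAt

lemma continuousOn_hf {m q : ℕ} :
    ContinuousOn (fun z : ℝ × (Fin m → ℝ) => hf q z.1 z.2) {z | 0 ≤ z.1} := by
  have h1 : ContinuousOn (fun z : ℝ × (Fin m → ℝ) => lam q z.1 z.2 ^ 2 * sq q z.2)
      {z | 0 ≤ z.1} := by
    have h2 : (fun z : ℝ × (Fin m → ℝ) => lam q z.1 z.2 ^ 2 * sq q z.2) = fun z =>
        ∑ i : Fin m, if (i : ℕ) < q then (lam q z.1 z.2 * z.2 i) ^ 2 else 0 := by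
      ext z
      rw [sq, Finset.mul_sum]
      refine Finset.sum_congr rfl fun i _ => ?_
      split_ifs <;> ring
    rw [h2]
    refine continuousOn_finsetSum _ fun i _ => ?_
    split_ifs with hi
    · exact (continuousOn_w hi).pow 2
    · exact continuousOn_const
  rw [continuousOn_pi]
  intro i
  rcases lt_trichotomy (i : ℕ) q with h | h | h
  · exact (continuousOn_w h).congr fun z _ => hf_lt h
  · refine ContinuousOn.congr (f := fun z : ℝ × (Fin m → ℝ) =>
      √(z.1 ^ 2 - lam q z.1 z.2 ^ 2 * sq q z.2)) ?_ fun z _ => hf_eq h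
    exact Real.continuous_sqrt.comp_continuousOn
      (((continuous_fst.pow 2).continuousOn).sub h1)
  · exact continuousOn_const.congr fun z _ => hf_gt h

/-! ### the reflected version -/

/-- multiplication of the coordinate `q` by `s` -/
def rf {m : ℕ} (s : ℝ) (q : ℕ) (v : Fin m → ℝ) : Fin m → ℝ := fun i =>
  if (i : ℕ) = q then s * v i else v i

/-- the map to the half sphere `s v_q ≥ 0` of radius `D` -/
noncomputable def hs {m : ℕ} (s : ℝ) (q : ℕ) (D : ℝ) (v : Fin m → ℝ) : Fin m → ℝ :=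
  rf s q (hf q D (rf s q v))

section
variable {m q : ℕ} {D s : ℝ} {v : Fin m → ℝ}

lemma continuous_rf : Continuous (rf (m := m) s q) := by
  refine continuous_pi fun i => ?_
  unfold rf
  split_ifs <;> fun_prop

lemma rf_rf (hs2 : s * s = 1) : rf s q (rf s q v) = v := by
  ext i
  by_cases h : (i : ℕ) = q
  · simp only [rf, h, if_true]
    rw [← mul_assoc, hs2, one_mul]
  · simp only [rf, h, if_false]

lemma Sq_rf (hs2 : s * s = 1) : Sq (rf s q v) = Sq v := by
  unfold Sq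
  refine Finset.sum_congr rfl fun i _ => ?_
  by_cases h : (i : ℕ) = q
  · simp only [rf, h, if_true]
    calc (s * v i) ^ 2 = (s * s) * v i ^ 2 := by ring
      _ = v i ^ 2 := by rw [hs2, one_mul]
  · simp only [rf, h, if_false]

lemma Sq_hs (hq : q < m) (hD : 0 ≤ D) (hs2 : s * s = 1) : Sq (hs s q D v) = D ^ 2 := by
  rw [hs, Sq_rf hs2, Sq_hf hq hD]

lemma hs_gt {i : Fin m} (hi : q < (i : ℕ)) : hs s q D v i = 0 := by
  rw [hs, rf, if_neg hi.ne', hf_gt hi]

lemma hs_nonneg (hs2 : s * s = 1) {i : Fin m} (hi : (i : ℕ) = q) : 0 ≤ s * hs s q D v i := by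
  rw [hs, rf, if_pos hi, ← mul_assoc, hs2, one_mul]
  exact hf_nonneg hi

lemma hs_fix (hq : q < m) (hD : 0 ≤ D) (hs2 : s * s = 1) (h1 : Sq v = D ^ 2)
    (h2 : ∀ i : Fin m, q < (i : ℕ) → v i = 0) (h3 : ∀ i : Fin m, (i : ℕ) = q → 0 ≤ s * v i) :
    hs s q D v = v := by
  rw [hs, hf_fix hq hD, rf_rf hs2]
  · rw [Sq_rf hs2, h1]
  · intro i hi
    rw [rf, if_neg hi.ne', h2 i hi]
  · intro i hi
    rw [rf, if_pos hi]
    exact h3 i hi

lemma continuousOn_hs :
    ContinuousOn (fun z : ℝ × (Fin m → ℝ) => hs s q z.1 z.2) {z | 0 ≤ z.1} := by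
  have h1 : ContinuousOn (fun z : ℝ × (Fin m → ℝ) => hf q z.1 (rf s q z.2)) {z | 0 ≤ z.1} := by
    have h2 : Continuous fun z : ℝ × (Fin m → ℝ) => (z.1, rf s q z.2) :=
      continuous_fst.prodMk (continuous_rf.comp continuous_snd)
    exact continuousOn_hf.comp h2.continuousOn fun z hz => hz
  exact continuous_rf.comp_continuousOn h1

lemma abs_le_of_Sq (hD : 0 ≤ D) (h : Sq v = D ^ 2) (i : Fin m) : |v i| ≤ D := by
  have h1 : v i ^ 2 ≤ Sq v :=
    Finset.single_le_sum (f := fun i => v i ^ 2) (fun j _ => by positivity) (Finset.mem_univ i)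
  rw [h] at h1
  exact abs_le_of_sq_le_sq h1 hD

end

/-! ### the spaces -/

section
variable {N : Type} [MetricSpace N] {k : ℕ}

/-- distance to `M` -/
noncomputable def DM (M : Set N) (n : N) : ℝ := infDist n M

lemma DM_nonneg {M : Set N} {n : N} : 0 ≤ DM M n := infDist_nonneg

lemma continuous_DM {M : Set N} : Continuous (DM M) := continuous_infDist_pt M

/-- the spherical space over `N` -/
def Pq (k : ℕ) (M : Set N) (q : ℕ) : Set (N × (Fin (k + 1) → ℝ)) :=
  {z | Sq z.2 = DM M z.1 ^ 2 ∧ ∀ i : Fin (k + 1), q ≤ (i : ℕ) → z.2 i = 0}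

/-- the halves of `Pq (q + 1)`: `s = 1` or `s = -1` -/
def Ph (k : ℕ) (M : Set N) (s : ℝ) (q : ℕ) : Set (N × (Fin (k + 1) → ℝ)) :=
  {z | z ∈ Pq k M (q + 1) ∧ ∀ i : Fin (k + 1), (i : ℕ) = q → 0 ≤ s * z.2 i}

variable {M : Set N} {q : ℕ} {s : ℝ}

lemma continuous_Sq {m : ℕ} : Continuous (Sq (m := m)) := by unfold Sq; fun_prop

lemma isClosed_Pq : IsClosed (Pq k M q) := by
  refine IsClosed.inter (isClosed_eq (continuous_Sq.comp continuous_snd)
    ((continuous_DM.comp continuous_fst).pow 2)) ?_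
  have h : IsClosed (⋂ (i : Fin (k + 1)) (_ : q ≤ (i : ℕ)),
      {z : N × (Fin (k + 1) → ℝ) | z.2 i = 0}) := isClosed_iInter fun i => isClosed_iInter fun _ =>
    isClosed_eq ((continuous_apply i).comp continuous_snd) continuous_const
  have e : {z : N × (Fin (k + 1) → ℝ) | ∀ i : Fin (k + 1), q ≤ (i : ℕ) → z.2 i = 0} =
      ⋂ (i : Fin (k + 1)) (_ : q ≤ (i : ℕ)), {z : N × (Fin (k + 1) → ℝ) | z.2 i = 0} := by
    ext z; simp
  rw [← e] at h
  exact h

lemma isClosed_Ph : IsClosed (Ph k M s q) := by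
  refine isClosed_Pq.inter ?_
  have h : IsClosed (⋂ (i : Fin (k + 1)) (_ : (i : ℕ) = q),
      {z : N × (Fin (k + 1) → ℝ) | 0 ≤ s * z.2 i}) := isClosed_iInter fun i => isClosed_iInter fun _ =>
    isClosed_le continuous_const (continuous_const.mul ((continuous_apply i).comp continuous_snd))
  have e : {z : N × (Fin (k + 1) → ℝ) | ∀ i : Fin (k + 1), (i : ℕ) = q → 0 ≤ s * z.2 i} =
      ⋂ (i : Fin (k + 1)) (_ : (i : ℕ) = q), {z : N × (Fin (k + 1) → ℝ) | 0 ≤ s * z.2 i} := by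
    ext z; simp
  rw [← e] at h
  exact h

lemma isCompact_Pq [CompactSpace N] : IsCompact (Pq k M q) := by
  obtain ⟨R, hR⟩ : ∃ R, ∀ n : N, DM M n ≤ R := by
    obtain ⟨R, hR⟩ := (isCompact_range (continuous_DM (M := M))).bddAbove
    exact ⟨R, fun n => hR ⟨n, rfl⟩⟩
  have h1 : IsCompact ((univ : Set N) ×ˢ (Icc (fun _ => -R) (fun _ => R) :
      Set (Fin (k + 1) → ℝ))) := isCompact_univ.prod isCompact_Icc
  refine h1.of_isClosed_subset isClosed_Pq fun z hz => ⟨mem_univ _, ?_⟩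
  have h2 : ∀ i, |z.2 i| ≤ R := fun i => (abs_le_of_Sq DM_nonneg hz.1 i).trans (hR _)
  exact ⟨fun i => (abs_le.1 (h2 i)).1, fun i => (abs_le.1 (h2 i)).2⟩

lemma isCompact_Ph [CompactSpace N] : IsCompact (Ph k M s q) :=
  isCompact_Pq.of_isClosed_subset isClosed_Ph fun _ hz => hz.1

/-- the whole is the union of the halves -/
lemma Ph_union : Ph k M 1 q ∪ Ph k M (-1) q = Pq k M (q + 1) := by
  ext z
  constructor
  · rintro (h | h) <;> exact h.1
  · intro h
    by_cases hc : ∀ i : Fin (k + 1), (i : ℕ) = q → 0 ≤ z.2 i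
    · exact Or.inl ⟨h, fun i hi => by simpa using hc i hi⟩
    · push Not at hc
      obtain ⟨i, hi, hlt⟩ := hc
      refine Or.inr ⟨h, fun j hj => ?_⟩
      have : j = i := Fin.ext (hj.trans hi.symm)
      rw [this]; linarith

/-- the intersection of the halves -/
lemma Ph_inter : Ph k M 1 q ∩ Ph k M (-1) q = Pq k M q := by
  ext z
  constructor
  · rintro ⟨⟨h1, h2⟩, -, h3⟩
    refine ⟨h1.1, fun i hi => ?_⟩
    rcases hi.eq_or_lt with h | h
    · have a := h2 i h.symm
      have b := h3 i h.symm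
      linarith
    · exact h1.2 i h
  · rintro ⟨h1, h2⟩
    have h3 : z ∈ Pq k M (q + 1) := ⟨h1, fun i hi => h2 i (by omega)⟩
    exact ⟨⟨h3, fun i hi => by rw [h2 i hi.ge, mul_zero]⟩,
      ⟨h3, fun i hi => by rw [h2 i hi.ge, mul_zero]⟩⟩

lemma Pq_zero (hM : IsClosed M) (hne : M.Nonempty) :
    Pq k M 0 = M ×ˢ {(0 : Fin (k + 1) → ℝ)} := by
  ext ⟨n, v⟩
  constructor
  · rintro ⟨h1, h2⟩
    have h3 : v = 0 := by ext i; exact h2 i (Nat.zero_le _)
    refine ⟨?_, h3⟩
    rw [hM.mem_iff_infDist_zero hne]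
    simp only at h1
    have h4 : Sq v = 0 := by rw [h3]; simp [Sq]
    rw [h4] at h1
    exact pow_eq_zero_iff two_ne_zero |>.1 h1.symm
  · rintro ⟨h1, h2⟩
    have h2' : v = 0 := h2
    have h3 : DM M n = 0 := infDist_zero_of_mem h1
    refine ⟨?_, fun i _ => by rw [h2']; rfl⟩
    simp only [h2', h3]
    simp [Sq]

/-! ### softness of the projections -/

lemma mem_Ph_hs (hq : q < k + 1) (hs2 : s * s = 1) {n : N} {v : Fin (k + 1) → ℝ} :
    (n, hs s q (DM M n) v) ∈ Ph k M s q := by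
  have h1 : Sq (hs s q (DM M n) v) = DM M n ^ 2 := Sq_hs hq DM_nonneg hs2
  have h2 : ∀ i : Fin (k + 1), q + 1 ≤ (i : ℕ) → hs s q (DM M n) v i = 0 := fun i hi => hs_gt hi
  have h3 : ∀ i : Fin (k + 1), (i : ℕ) = q → 0 ≤ s * hs s q (DM M n) v i :=
    fun i hi => hs_nonneg hs2 hi
  exact And.intro (And.intro h1 h2) h3

lemma hs_of_mem_Ph (hq : q < k + 1) (hs2 : s * s = 1) {z : N × (Fin (k + 1) → ℝ)}
    (hz : z ∈ Ph k M s q) : hs s q (DM M z.1) z.2 = z.2 := by
  have h1 : Sq z.2 = DM M z.1 ^ 2 := hz.1.1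
  have h2 : ∀ i : Fin (k + 1), q < (i : ℕ) → z.2 i = 0 := fun i hi => hz.1.2 i hi
  have h3 : ∀ i : Fin (k + 1), (i : ℕ) = q → 0 ≤ s * z.2 i := hz.2
  exact hs_fix hq DM_nonneg hs2 h1 h2 h3

/-- the projection of the halves is soft (it has even exact lifts, over all compact pairs) -/
theorem soft_Ph (hq : q ≤ k) (hs2 : s * s = 1) :
    Soft k (Ph k M s q) univ Prod.fst := by
  refine ⟨continuous_fst.continuousOn, fun _ _ => mem_univ _, ?_⟩
  intro γ _ P A hPA f f₀ hf _ hf₀ hm h0 ε hε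
  have cv : ContinuousOn (fun x => (f₀ x).2) A := continuous_snd.comp_continuousOn hf₀
  obtain ⟨V, cV, eV⟩ := tietze hPA.cA cv
  have hq' : q < k + 1 := Nat.lt_succ_of_le hq
  refine ⟨fun x => (f x, hs s q (DM M (f x)) (V x)), ?_, ?_, ?_, ?_⟩
  · have hc : ContinuousOn (fun x => (DM M (f x), V x)) P :=
      (continuous_DM.comp_continuousOn hf).prodMk cV.continuousOn
    have hm' : MapsTo (fun x => (DM M (f x), V x)) P {z : ℝ × (Fin (k + 1) → ℝ) | 0 ≤ z.1} :=
      fun x _ => DM_nonneg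
    have hh : ContinuousOn (fun x => hs s q (DM M (f x)) (V x)) P :=
      ContinuousOn.comp (g := fun z : ℝ × (Fin (k + 1) → ℝ) => hs s q z.1 z.2)
        (f := fun x => (DM M (f x), V x)) continuousOn_hs hc hm'
    exact ContinuousOn.prodMk hf hh
  · intro x _
    exact mem_Ph_hs hq' hs2
  · intro x hx
    have h1 := hm hx
    have h2 := h0 x hx
    refine Prod.ext h2.symm ?_
    change hs s q (DM M (f x)) (V x) = (f₀ x).2
    rw [eV hx, ← h2]
    exact hs_of_mem_Ph hq' hs2 h1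
  · intro x _
    change dist (f x) (f x) < ε
    rw [dist_self]; exact hε

/-- the projection of the full sphere bundle is soft, because the fibres are `k`-spheres -/
theorem soft_Pq : Soft k (Pq k M (k + 1)) univ Prod.fst := by
  refine ⟨continuous_fst.continuousOn, fun _ _ => mem_univ _, ?_⟩
  intro γ _ P A hPA f f₀ hf _ hf₀ hm h0 ε hε
  let e := EuclideanSpace.equiv (Fin (k + 1)) ℝ
  have hn : ∀ v : EuclideanSpace ℝ (Fin (k + 1)), Sq (e v) = ‖v‖ ^ 2 := by
    intro v
    rw [EuclideanSpace.norm_eq, Real.sq_sqrt (Finset.sum_nonneg fun i _ => by positivity)]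
    refine Finset.sum_congr rfl fun i _ => ?_
    rw [Real.norm_eq_abs, sq_abs]
    rfl
  have cA : IsCompact A := hPA.cP.of_isClosed_subset hPA.cA hPA.sub
  obtain ⟨v, cv, hv1, hv2⟩ := extend_norm e hPA.cP hPA.dP cA hPA.sub
    (D := fun x => DM M (f x)) (continuous_DM.comp_continuousOn hf) (fun x _ => DM_nonneg)
    (v₀ := fun x => e.symm (f₀ x).2)
    (e.symm.continuous.comp_continuousOn (continuous_snd.comp_continuousOn hf₀)) (by
      intro x hx
      have h1 := (hm hx).1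
      have h2 := hn (e.symm (f₀ x).2)
      rw [e.apply_symm_apply, h1, h0 x hx] at h2
      exact (pow_left_inj₀ (norm_nonneg _) DM_nonneg two_ne_zero).1 h2.symm)
  refine ⟨fun x => (f x, e (v x)), hf.prodMk (e.continuous.comp_continuousOn cv), ?_, ?_, ?_⟩
  · intro x hx
    refine ⟨?_, fun i hi => ?_⟩
    · change Sq (e (v x)) = DM M (f x) ^ 2
      rw [hn, hv2 x hx]
    · exact absurd i.2 (by omega)
  · intro x hx
    refine Prod.ext (h0 x hx).symm ?_
    change e (v x) = (f₀ x).2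
    rw [hv1 x hx, e.apply_symm_apply]
  · intro x _
    simpa using hε

/-! ### homeomorphisms -/

/-- the homeomorphism of the spherical spaces induced by `F` -/
noncomputable def phi (M : Set N) (F : N → N) (z : N × (Fin (k + 1) → ℝ)) :
    N × (Fin (k + 1) → ℝ) := (F z.1, (DM M (F z.1) / DM M z.1) • z.2)

lemma Sq_smul {m : ℕ} (r : ℝ) (v : Fin m → ℝ) : Sq (r • v) = r ^ 2 * Sq v := by
  unfold Sq
  rw [Finset.mul_sum]
  exact Finset.sum_congr rfl fun i _ => by simp [mul_pow]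

lemma eq_zero_of_Sq {m : ℕ} {v : Fin m → ℝ} (h : Sq v = 0) : v = 0 := by
  ext i
  have h1 : |v i| ≤ 0 := abs_le_of_Sq le_rfl (by rw [h]; ring) i
  exact abs_nonpos_iff.1 h1

/-- all the spherical spaces are in this set -/
def PS (k : ℕ) (M : Set N) : Set (N × (Fin (k + 1) → ℝ)) := {z | Sq z.2 = DM M z.1 ^ 2}

lemma Pq_subset_PS : Pq k M q ⊆ PS k M := fun _ hz => hz.1

lemma Ph_subset_PS : Ph k M s q ⊆ PS k M := fun _ hz => hz.1.1

lemma abs_le_of_PS {z : N × (Fin (k + 1) → ℝ)} (hz : z ∈ PS k M) (i : Fin (k + 1)) :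
    |z.2 i| ≤ DM M z.1 := abs_le_of_Sq DM_nonneg hz i

lemma abs_phi_le {F : N → N} {z : N × (Fin (k + 1) → ℝ)} (hz : z ∈ PS k M) (i : Fin (k + 1)) :
    |(phi M F z).2 i| ≤ DM M (F z.1) := by
  have h1 : (phi M F z).2 i = DM M (F z.1) / DM M z.1 * z.2 i := rfl
  rw [h1, abs_mul, abs_of_nonneg (div_nonneg DM_nonneg DM_nonneg), div_mul_eq_mul_div]
  exact div_le_of_le_mul₀ DM_nonneg DM_nonneg
    (mul_le_mul_of_nonneg_left (abs_le_of_PS hz i) DM_nonneg)

lemma continuousOn_phi {F : N → N} (hF : Continuous F)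
    (h0 : ∀ n, DM M n = 0 → DM M (F n) = 0) : ContinuousOn (phi (k := k) M F) (PS k M) := by
  intro z hz
  have c1 : ContinuousWithinAt (fun z : N × (Fin (k + 1) → ℝ) => F z.1) (PS k M) z :=
    (hF.comp continuous_fst).continuousWithinAt
  refine ContinuousWithinAt.prodMk c1 ?_
  have cF : Continuous fun w : N × (Fin (k + 1) → ℝ) => DM M (F w.1) :=
    continuous_DM.comp (hF.comp continuous_fst)
  have cD : Continuous fun w : N × (Fin (k + 1) → ℝ) => DM M w.1 :=
    continuous_DM.comp continuous_fst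
  by_cases hD : DM M z.1 = 0
  · rw [continuousWithinAt_pi]
    intro i
    have e : DM M (F z.1) / DM M z.1 * z.2 i = 0 := by rw [hD, div_zero, zero_mul]
    have e' : ((DM M (F z.1) / DM M z.1) • z.2) i = 0 := e
    change Filter.Tendsto (fun w : N × (Fin (k + 1) → ℝ) => ((DM M (F w.1) / DM M w.1) • w.2) i)
      (𝓝[PS k M] z) (𝓝 (((DM M (F z.1) / DM M z.1) • z.2) i))
    rw [e']
    have h1 : Filter.Tendsto (fun w : N × (Fin (k + 1) → ℝ) => DM M (F w.1)) (𝓝[PS k M] z)
        (𝓝 0) := by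
      have h2 : Filter.Tendsto (fun w : N × (Fin (k + 1) → ℝ) => DM M (F w.1)) (𝓝[PS k M] z)
        (𝓝 (DM M (F z.1))) := cF.continuousWithinAt
      rwa [h0 _ hD] at h2
    refine squeeze_zero_norm' ?_ h1
    filter_upwards [self_mem_nhdsWithin] with w hw
    exact abs_phi_le hw i
  · have h1 : ContinuousAt (fun w : N × (Fin (k + 1) → ℝ) => DM M (F w.1) / DM M w.1) z :=
      cF.continuousAt.div cD.continuousAt hD
    exact (h1.smul continuous_snd.continuousAt).continuousWithinAt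

lemma phi_inv {F G : N → N} (hG : ∀ n, G (F n) = n) (h0 : ∀ n, DM M (F n) = 0 → DM M n = 0)
    {z : N × (Fin (k + 1) → ℝ)} (hz : z ∈ PS k M) : phi M G (phi M F z) = z := by
  have h1 : (phi M G (phi M F z)).1 = z.1 := hG z.1
  refine Prod.ext h1 ?_
  change (DM M (G (F z.1)) / DM M (F z.1)) • ((DM M (F z.1) / DM M z.1) • z.2) = z.2
  rw [hG, smul_smul]
  by_cases hD : DM M z.1 = 0
  · have h2 : z.2 = 0 := by
      have h3 : Sq z.2 = DM M z.1 ^ 2 := hz
      exact eq_zero_of_Sq (by rw [h3, hD]; ring)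
    rw [h2, smul_zero]
  · have h2 : DM M (F z.1) ≠ 0 := fun h => hD (h0 _ h)
    rw [show DM M z.1 / DM M (F z.1) * (DM M (F z.1) / DM M z.1) = 1 by field_simp, one_smul]

lemma Sq_phi {F : N → N} (h0 : ∀ n, DM M n = 0 → DM M (F n) = 0)
    {z : N × (Fin (k + 1) → ℝ)} (hz : z ∈ PS k M) : phi M F z ∈ PS k M := by
  change Sq ((DM M (F z.1) / DM M z.1) • z.2) = DM M (F z.1) ^ 2
  have h3 : Sq z.2 = DM M z.1 ^ 2 := hz
  rw [Sq_smul, h3]
  by_cases hD : DM M z.1 = 0
  · rw [hD, h0 _ hD]; simp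
  · field_simp

lemma mapsTo_phi_Pq {F : N → N} (h0 : ∀ n, DM M n = 0 → DM M (F n) = 0) :
    MapsTo (phi M F) (Pq k M q) (Pq k M q) := by
  intro z hz
  refine And.intro (Sq_phi h0 (Pq_subset_PS hz)) ?_
  intro i hi
  change DM M (F z.1) / DM M z.1 * z.2 i = 0
  rw [hz.2 i hi, mul_zero]

lemma mapsTo_phi_Ph {F : N → N} (h0 : ∀ n, DM M n = 0 → DM M (F n) = 0) :
    MapsTo (phi M F) (Ph k M s q) (Ph k M s q) := by
  intro z hz
  refine And.intro (mapsTo_phi_Pq h0 hz.1) ?_
  intro i hi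
  change 0 ≤ s * (DM M (F z.1) / DM M z.1 * z.2 i)
  have h1 : 0 ≤ s * z.2 i := hz.2 i hi
  have h2 : 0 ≤ DM M (F z.1) / DM M z.1 := div_nonneg DM_nonneg DM_nonneg
  calc (0 : ℝ) ≤ DM M (F z.1) / DM M z.1 * (s * z.2 i) := mul_nonneg h2 h1
    _ = s * (DM M (F z.1) / DM M z.1 * z.2 i) := by ring

/-- a homeomorphism of `N` preserves the zero set of the distance if it preserves `M` -/
lemma DM_zero_of {F : N → N} (hM : IsClosed M) (hne : M.Nonempty)
    (hFM : MapsTo F M M) : ∀ n, DM M n = 0 → DM M (F n) = 0 := by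
  intro n hn
  have h1 : n ∈ M := (hM.mem_iff_infDist_zero hne).2 hn
  exact infDist_zero_of_mem (hFM h1)

theorem homOn_phi (F : N ≃ₜ N) (hM : IsClosed M) (hne : M.Nonempty) (hFM : MapsTo F M M)
    (hFM' : MapsTo F.symm M M) {Q : Set (N × (Fin (k + 1) → ℝ))} (hQ : Q ⊆ PS k M)
    (h1 : MapsTo (phi M F) Q Q) (h2 : MapsTo (phi M F.symm) Q Q) : HomOn Q (phi M F) := by
  have a1 := DM_zero_of hM hne hFM
  have a2 := DM_zero_of hM hne hFM'
  have b1 : ∀ n, DM M (F n) = 0 → DM M n = 0 := by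
    intro n hn
    have := a2 _ hn
    rwa [F.symm_apply_apply] at this
  have b2 : ∀ n, DM M (F.symm n) = 0 → DM M n = 0 := by
    intro n hn
    have := a1 _ hn
    rwa [F.apply_symm_apply] at this
  refine ⟨(continuousOn_phi F.continuous a1).mono hQ, h1, phi M F.symm,
    (continuousOn_phi F.symm.continuous a2).mono hQ, h2, fun z hz => ⟨?_, ?_⟩⟩
  · exact phi_inv F.symm_apply_apply b1 (hQ hz)
  · exact phi_inv F.apply_symm_apply b2 (hQ hz)

theorem homOn_phi_Pq (F : N ≃ₜ N) (hM : IsClosed M) (hne : M.Nonempty) (hFM : MapsTo F M M)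
    (hFM' : MapsTo F.symm M M) (q : ℕ) : HomOn (Pq k M q) (phi M F) :=
  homOn_phi F hM hne hFM hFM' Pq_subset_PS
    (mapsTo_phi_Pq (DM_zero_of hM hne hFM))
    (mapsTo_phi_Pq (DM_zero_of hM hne hFM'))

theorem homOn_phi_Ph (F : N ≃ₜ N) (hM : IsClosed M) (hne : M.Nonempty) (hFM : MapsTo F M M)
    (hFM' : MapsTo F.symm M M) (s : ℝ) (q : ℕ) : HomOn (Ph k M s q) (phi M F) :=
  homOn_phi F hM hne hFM hFM' Ph_subset_PS
    (mapsTo_phi_Ph (DM_zero_of hM hne hFM))
    (mapsTo_phi_Ph (DM_zero_of hM hne hFM'))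

/-- over `M` the homeomorphism is `F` itself -/
lemma phi_zero {F : N → N} (n : N) : phi M F (n, (0 : Fin (k + 1) → ℝ)) = (F n, 0) := by
  simp [phi]

lemma phi_fst {F : N → N} (z : N × (Fin (k + 1) → ℝ)) : (phi M F z).1 = F z.1 := rfl

/-! ### the halves are ANE -/

/-- approximation of functions with small jumps by continuous maps to `ℝ^m` -/
theorem jump_approx {γ : Type} [MetricSpace γ] {m : ℕ} {P A : Set γ} (cP : IsCompact P)
    (cA : IsClosed A) (hAP : A ⊆ P) {h : γ → (Fin m → ℝ)} {δ : ℝ} (hδ : 0 < δ)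
    (hj : Jump h P δ) {b : γ → (Fin m → ℝ)} (cb : ContinuousOn b A)
    (hb : ∀ x ∈ A, dist (b x) (h x) < δ) :
    ∃ c : γ → (Fin m → ℝ), ContinuousOn c P ∧ EqOn c b A ∧ ∀ x ∈ P, dist (c x) (h x) < 3 * δ := by
  obtain ⟨r, hr, hj⟩ := hj
  have : CompactSpace P := isCompact_iff_compactSpace.1 cP
  obtain ⟨g, hg⟩ := exists_continuous_forall_mem_convex_of_local_const (X := P)
    (E := Fin m → ℝ) (t := fun x => ball (h x) δ) (fun x => convex_ball _ _) (by
      intro x
      refine ⟨h x, ?_⟩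
      filter_upwards [ball_mem_nhds x hr] with y hy
      rw [mem_ball]
      exact hj x x.2 y y.2 (by rw [dist_comm]; exact hy))
  obtain ⟨c₀, hc₀, hgc⟩ : ∃ c₀ : γ → (Fin m → ℝ), ContinuousOn c₀ P ∧
      ∀ x ∈ P, dist (c₀ x) (h x) < δ := by
    classical
    refine ⟨fun x => if hx : x ∈ P then g ⟨x, hx⟩ else 0, ?_, ?_⟩
    · rw [continuousOn_iff_continuous_domRestrict]
      convert g.continuous using 1
      ext x
      simp
    · intro x hx
      simp only [hx, dif_pos]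
      exact hg ⟨x, hx⟩
  obtain ⟨e, ce, ee, be⟩ := tietze_small (cP.of_isClosed_subset cA hAP)
    (h := fun x => b x - c₀ x) (cb.sub (hc₀.mono hAP)) (ε := 2 * δ) (by positivity) (by
      intro x hx
      rw [← dist_eq_norm]
      have h1 := hb x hx
      have h2 := hgc x (hAP hx)
      have h3 := dist_triangle_right (b x) (c₀ x) (h x)
      linarith)
  refine ⟨fun x => c₀ x + e x, hc₀.add ce.continuousOn, ?_, ?_⟩
  · intro x hx
    change c₀ x + e x = b x
    rw [ee hx]; exact add_sub_cancel _ _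
  · intro x hx
    have h1 := hgc x hx
    have h2 := be x
    have h3 : dist (c₀ x + e x) (c₀ x) < 2 * δ := by
      rw [dist_eq_norm, add_sub_cancel_left]; exact h2
    have h4 := dist_triangle (c₀ x + e x) (c₀ x) (h x)
    linarith

theorem ANE_Ph [CompactSpace N] (hq : q ≤ k) (hs2 : s * s = 1) (hN : ANE k (univ : Set N)) :
    ANE k (Ph k M s q) := by
  intro ε hε
  have hq' : q < k + 1 := Nat.lt_succ_of_le hq
  obtain ⟨R, hR⟩ : ∃ R, ∀ n : N, DM M n ≤ R := by
    obtain ⟨R, hR⟩ := (isCompact_range (continuous_DM (M := M))).bddAbove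
    exact ⟨R, fun n => hR ⟨n, rfl⟩⟩
  -- uniform continuity of the half sphere map on a compact set
  have hK : IsCompact ((Icc 0 R : Set ℝ) ×ˢ (Icc (fun _ => -(R + 3)) (fun _ => R + 3) :
      Set (Fin (k + 1) → ℝ))) := isCompact_Icc.prod isCompact_Icc
  have hu : UniformContinuousOn (fun z : ℝ × (Fin (k + 1) → ℝ) => hs s q z.1 z.2)
      ((Icc 0 R : Set ℝ) ×ˢ (Icc (fun _ => -(R + 3)) (fun _ => R + 3) :
      Set (Fin (k + 1) → ℝ))) :=
    hK.uniformContinuousOn_of_continuous (continuousOn_hs.mono fun z hz => hz.1.1)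
  obtain ⟨η, hη, hu⟩ := Metric.uniformContinuousOn_iff.1 hu ε hε
  obtain ⟨δ, hδ, hN⟩ := hN (min ε η) (lt_min hε hη)
  refine ⟨min δ (min 1 (η / 3)), by positivity, ?_⟩
  intro γ _ P A hPA h hh hj b cb mb hb
  have hd1 : min δ (min 1 (η / 3)) ≤ δ := min_le_left _ _
  have hd2 : min δ (min 1 (η / 3)) ≤ 1 := (min_le_right _ _).trans (min_le_left _ _)
  have hd3 : min δ (min 1 (η / 3)) ≤ η / 3 := (min_le_right _ _).trans (min_le_right _ _)
  set d := min δ (min 1 (η / 3)) with hd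
  have hd0 : 0 < d := by positivity
  -- first coordinate
  obtain ⟨a₁, ca₁, -, ea₁, da₁⟩ := hN γ P A hPA (fun x => (h x).1) (fun _ _ => mem_univ _) (by
      obtain ⟨r, hr, hj⟩ := hj
      refine ⟨r, hr, fun x hx y hy hxy => ?_⟩
      have := hj x hx y hy hxy
      rw [Prod.dist_eq] at this
      exact ((le_max_left _ _).trans_lt this).trans_le hd1) (fun x => (b x).1)
    (continuous_fst.comp_continuousOn cb) (fun _ _ => mem_univ _) (by
      intro x hx
      have := hb x hx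
      rw [Prod.dist_eq] at this
      exact ((le_max_left _ _).trans_lt this).trans_le hd1)
  -- second coordinate
  obtain ⟨c, cc, ec, dc⟩ := jump_approx (h := fun x => (h x).2) hPA.cP hPA.cA hPA.sub hd0 (by
      obtain ⟨r, hr, hj⟩ := hj
      refine ⟨r, hr, fun x hx y hy hxy => ?_⟩
      have := hj x hx y hy hxy
      rw [Prod.dist_eq] at this
      exact (le_max_right _ _).trans_lt this) (b := fun x => (b x).2)
    (continuous_snd.comp_continuousOn cb) (by
      intro x hx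
      have := hb x hx
      rw [Prod.dist_eq] at this
      exact (le_max_right _ _).trans_lt this)
  have hh2 : ∀ x ∈ P, ∀ i, |(h x).2 i| ≤ R := by
    intro x hx i
    exact (abs_le_of_PS (Ph_subset_PS (hh hx)) i).trans (hR _)
  have hc2 : ∀ x ∈ P, ∀ i, |c x i| ≤ R + 3 := by
    intro x hx i
    have h1 := dc x hx
    have h2 : dist (c x i) ((h x).2 i) ≤ dist (c x) (h x).2 := dist_le_pi_dist _ _ i
    rw [Real.dist_eq] at h2
    have h3 := abs_sub_abs_le_abs_sub (c x i) ((h x).2 i)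
    have h4 := hh2 x hx i
    have h5 : dist (c x) (h x).2 < 3 * d := h1
    linarith
  refine ⟨fun x => (a₁ x, hs s q (DM M (a₁ x)) (c x)), ?_, ?_, ?_, ?_⟩
  · have hc : ContinuousOn (fun x => (DM M (a₁ x), c x)) P :=
      (continuous_DM.comp_continuousOn ca₁).prodMk cc
    have hm' : MapsTo (fun x => (DM M (a₁ x), c x)) P {z : ℝ × (Fin (k + 1) → ℝ) | 0 ≤ z.1} :=
      fun x _ => DM_nonneg
    have hh : ContinuousOn (fun x => hs s q (DM M (a₁ x)) (c x)) P :=
      ContinuousOn.comp (g := fun z : ℝ × (Fin (k + 1) → ℝ) => hs s q z.1 z.2)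
        (f := fun x => (DM M (a₁ x), c x)) continuousOn_hs hc hm'
    exact ContinuousOn.prodMk ca₁ hh
  · intro x _
    exact mem_Ph_hs hq' hs2
  · intro x hx
    have h1 : a₁ x = (b x).1 := ea₁ hx
    have h2 : c x = (b x).2 := ec hx
    refine Prod.ext h1 ?_
    change hs s q (DM M (a₁ x)) (c x) = (b x).2
    rw [h1, h2]
    exact hs_of_mem_Ph hq' hs2 (mb hx)
  · intro x hx
    have h1 := da₁ x hx
    rw [Prod.dist_eq]
    refine max_lt (h1.trans_le (min_le_left _ _)) ?_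
    change dist (hs s q (DM M (a₁ x)) (c x)) (h x).2 < ε
    rw [← hs_of_mem_Ph hq' hs2 (hh hx)]
    refine hu (DM M (a₁ x), c x) ?_ (DM M (h x).1, (h x).2) ?_ ?_
    · exact ⟨⟨DM_nonneg, hR _⟩, fun i => (abs_le.1 (hc2 x hx i)).1,
        fun i => (abs_le.1 (hc2 x hx i)).2⟩
    · exact ⟨⟨DM_nonneg, hR _⟩, fun i => by linarith [(abs_le.1 (hh2 x hx i)).1],
        fun i => by linarith [(abs_le.1 (hh2 x hx i)).2]⟩
    · rw [Prod.dist_eq]
      refine max_lt ?_ ?_
      · have h3 : dist (DM M (a₁ x)) (DM M (h x).1) ≤ dist (a₁ x) (h x).1 := by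
          have := (lipschitz_infDist_pt M).dist_le_mul (a₁ x) (h x).1
          simpa [DM] using this
        exact (h3.trans_lt h1).trans_le (min_le_right _ _)
      · have h4 : dist (c x) (h x).2 < 3 * d := dc x hx
        change dist (c x) (h x).2 < η
        linarith

end

end Pool.Agent.Work.MP_017613_gt.Chi
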