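import Pool.Agent.Work.MP_017613_gt.ChiTF0
import Pool.Agent.Work.MP_017613_gt.Kit.LP

/-!
# The fields `trel`, `srel`, `collar` of `Chi.Theory` for `Men k`

From the approximation property `TR.SP` of all `ULC k` spaces and the existence of fine complexes.
-/

set_option linter.unusedSectionVars false

open Set Topology Metric

namespace Pool.Agent.Work.MP_017613_gt

namespace ChiT

open MG (IsMap)

section Types

variable {k : ℕ} {α β : Type} [MetricSpace α] [MetricSpace β]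

theorem L_of_lft' {p : α → β} {e : ℝ} (h : TR.Lft k p e) : MG.L k p univ univ e := by
  refine L_of_lft_univ (X := univ) (fun x => ⟨p x, mem_univ _⟩) (fun x => rfl) ?_
  intro j hj f f0 hf0
  obtain ⟨F, h2, h3⟩ := h j hj ⟨fun x => f x, by fun_prop⟩ f0
    (fun x => congrArg Subtype.val (hf0 x))
  exact ⟨F, h2, fun x => h3 x⟩

theorem lft_of_L' [Nonempty α] {p : α → β} {e : ℝ} (h : MG.L k p univ univ e) :
    TR.Lft k p e := by
  have h1 := lft_of_L_univ (X := univ) (fun x => ⟨p x, mem_univ _⟩) (fun x => rfl) h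
  intro j hj f f0 hf0
  obtain ⟨F, h2, h3⟩ := h1 j hj ⟨fun x => ⟨f x, mem_univ _⟩, f.continuous.subtype_mk _⟩ f0
    (fun x => Subtype.ext (hf0 x))
  exact ⟨F, h2, fun x => h3 x⟩

variable {X : Type} [MetricSpace X] [CompactSpace X]

/-- stability of the lifting property -/
theorem lft_perturb (uX : MG.ULC k (univ : Set X)) {ε : ℝ} (hε : 0 < ε) : ∃ r > 0,
    ∀ (N : Type) [MetricSpace N] (g g' : C(N, X)) (d : ℝ), TR.Lft k g d →
      (∀ x, dist (g' x) (g x) < r) → TR.Lft k g' (d + ε) := by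
  obtain ⟨r, hr, h⟩ := MG.L.perturb uX hε
  refine ⟨r, hr, fun N _ g g' d hg hgg => ?_⟩
  rcases isEmpty_or_nonempty N with hN | hN
  · intro j hj f f0 hf0
    obtain ⟨x, -⟩ := hg.dense (f fun _ => 0)
    exact hN.elim x
  · exact lft_of_L' (h ⟨g.continuous.continuousOn, fun _ _ => mem_univ _⟩ (L_of_lft' hg)
      fun x _ => hgg x)

/-- **Free lifting**: maps of subsets of spaces of dimension at most `k` are approximately lifted
along fine maps. -/
theorem lift_free (uX : MG.ULC k (univ : Set X)) {ε : ℝ} (hε : 0 < ε) : ∃ e > 0,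
    ∀ (R : Type) [MetricSpace R] (s : C(R, X)), TR.Lft k s e →
      ∀ (W : Type) [MetricSpace W] [CompactSpace W], PushOff k (univ : Set W) → ∀ w₀ : C(W, X),
        ∃ w : C(W, R), ∀ x, dist (s (w x)) (w₀ x) < ε := by
  rcases isEmpty_or_nonempty X with hX | hX
  · refine ⟨1, one_pos, fun R _ s hs W _ _ hW w₀ => ?_⟩
    have hWe : IsEmpty W := ⟨fun x => hX.elim (w₀ x)⟩
    exact ⟨⟨fun x => hWe.elim x, continuous_of_const fun x => hWe.elim x⟩, fun x => hWe.elim x⟩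
  obtain ⟨δ, hδ, hF⟩ := MG.factor uX (half_pos hε)
  obtain ⟨e, he, hL⟩ := MG.lift_cub_pair uX (half_pos hε)
  refine ⟨e, he, fun R _ s hs W _ _ hW w₀ => ?_⟩
  obtain ⟨r, hr, hr'⟩ := TR.uc w₀ hδ
  obtain ⟨N, m, hm, q, K, t, cq, hK, hd, hq, -, ht, htd, -⟩ := hF W univ isCompact_univ hW w₀
    (fun _ _ => mem_univ _) ⟨r, hr, fun x _ y _ => hr' x y⟩ 1 one_pos
  obtain ⟨x₀, -⟩ := hs.dense (Classical.arbitrary X)
  obtain ⟨F, h1, -, h3⟩ := hL (g := s) (A := univ) ⟨s.continuous.continuousOn, fun _ _ => mem_univ _⟩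
    (L_of_lft' hs) hm hK (MG.IsCub.empty m) (empty_subset K) (fun x hx _ => hd x hx) ht
    (f₀ := fun _ => x₀) IsMap.empty (fun x hx => hx.elim)
  refine ⟨⟨fun x => F (q x), ?_⟩, fun x => ?_⟩
  · exact continuousOn_univ.1 (h1.cont.comp cq hq)
  · have h4 := h3 (q x) (hq (mem_univ x))
    have h5 := htd x (mem_univ x)
    have h6 := dist_triangle (s (F (q x))) (t (q x)) (w₀ x)
    change dist (s (F (q x))) (w₀ x) < ε
    linarith

/-- controlled extension, type form -/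
theorem ext_near' (uX : MG.ULC k (univ : Set X)) {ε : ℝ} (hε : 0 < ε) : ∃ δ > 0,
    ∀ (N : Type) [MetricSpace N] [CompactSpace N], PushOff k (univ : Set N) →
      ∀ (f : C(N, X)) (W : Set N), IsClosed W → ∀ b : C(W, X),
      (∀ x : W, dist (b x) (f x) < δ) →
      ∃ a : C(N, X), (∀ x : W, a x = b x) ∧ ∀ x, dist (a x) (f x) < ε := by
  classical
  obtain ⟨δ, hδ, h⟩ := MG.ane_of_ulc isCompact_univ uX ε hε
  refine ⟨δ, hδ, fun N _ _ hN f W hW b hb => ?_⟩
  obtain ⟨r, hr, hr'⟩ := TR.uc f hδ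
  obtain ⟨a, a1, -, a3, a4⟩ := h N univ W ⟨isCompact_univ, hN, hW, subset_univ _⟩ f
    (fun x _ => mem_univ _) ⟨r, hr, fun x _ y _ hxy => hr' x y hxy⟩ (MG.extS W b f)
    (MG.extS_cont b.continuous _) (fun x _ => mem_univ _) (fun x hx => by
      rw [MG.extS_eq _ _ hx]
      exact hb ⟨x, hx⟩)
  exact ⟨⟨a, continuousOn_univ.1 a1⟩, fun x => (a3 x.2).trans (MG.extS_eq _ _ x.2),
    fun x => a4 x (mem_univ x)⟩

end Types

section Stage

variable {k : ℕ} {Cx : ∀ (M : Type) [MetricSpace M] [CompactSpace M], Prop}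

/-- one step of the construction of soft lifts: `δ` is fine enough for `ε` -/
def Stp (k : ℕ) (X B : Type) [MetricSpace X] [CompactSpace X] [MetricSpace B] [CompactSpace B]
    (ε δ : ℝ) : Prop :=
  0 < δ ∧ ∀ p : C(X, B), (∀ e > 0, TR.Lft k p e) →
    ∀ (N : Type) [MetricSpace N] [CompactSpace N], Men k N → ∀ u : C(N, B), TR.Lft k u δ →
    ∀ W : Set N, ZS W → ∀ w₀ : C(W, X), (∀ x : W, dist (p (w₀ x)) (u x) < δ) →
    ∀ ρ > 0, ∃ w : C(N, X), TR.Lft k w ρ ∧ (∀ x : W, w x = w₀ x) ∧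
      ∀ x, dist (p (w x)) (u x) < ε

theorem Stp.mono {X B : Type} [MetricSpace X] [CompactSpace X] [MetricSpace B] [CompactSpace B]
    {ε δ δ' : ℝ} (h : Stp k X B ε δ) (h0 : 0 < δ') (hδ : δ' ≤ δ) : Stp k X B ε δ' :=
  ⟨h0, fun p hp N _ _ hN u hu W hW w₀ hw => h.2 p hp N hN u (hu.mono hδ) W hW w₀
    fun x => (hw x).trans_le hδ⟩

variable
  (hS : ∀ (X : Type) [MetricSpace X] [CompactSpace X], MG.ULC k (univ : Set X) → ∀ ε > 0,
    ∃ d, TR.SP k (Men k) Cx X ε d)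
  (hR : ∀ (M : Type) [MetricSpace M] [CompactSpace M], MG.ULC k (univ : Set M) → ∀ e > 0,
    ∃ (R : Type) (_ : MetricSpace R) (_ : CompactSpace R), Cx R ∧ ∃ s : C(R, M), TR.Lft k s e)

include hS hR in
/-- **The step** -/
theorem stage (X B : Type) [MetricSpace X] [CompactSpace X] [MetricSpace B] [CompactSpace B]
    (uX : MG.ULC k (univ : Set X)) (uB : MG.ULC k (univ : Set B)) {ε : ℝ} (hε : 0 < ε) :
    ∃ δ, Stp k X B ε δ := by
  obtain ⟨d, hd0, hd⟩ := hS B uB (ε / 2) (half_pos hε)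
  refine ⟨d / 2, half_pos hd0, ?_⟩
  intro p hp N _ _ hN u hu W hW w₀ hw ρ hρ
  obtain ⟨r₁, hr₁, hper⟩ := lft_perturb uX (half_pos hρ)
  obtain ⟨r₂, hr₂, hpu⟩ := TR.uc p (ε := min (ε / 2) (d / 2)) (by positivity)
  obtain ⟨δ', hδ', hext⟩ := ext_near' uX (ε := min r₁ r₂) (by positivity)
  obtain ⟨e₁, he₁, hfree⟩ := lift_free uX (ε := min δ' r₂) (by positivity)
  obtain ⟨R, _, _, hRC, s, hs⟩ := hR X uX (min e₁ (min r₂ (ρ / 4))) (by positivity)
  have hs₁ : TR.Lft k s e₁ := hs.mono (min_le_left _ _)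
  have hs₂ : TR.Lft k s r₂ := hs.mono ((min_le_right _ _).trans (min_le_left _ _))
  have hs₃ : TR.Lft k s (ρ / 4) := hs.mono ((min_le_right _ _).trans (min_le_right _ _))
  have cW : CompactSpace W := isCompact_iff_compactSpace.1 hW.isClosed.isCompact
  have dW : PushOff k (univ : Set W) :=
    MG.pushOff_subtype (hN.1.mono hW.isClosed.isCompact (subset_univ _))
  obtain ⟨w₁', hw₁'⟩ := hfree R s hs₁ W dW w₀
  -- the composition is fine
  have hps : TR.Lft k (p.comp s) d := by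
    have h1 := TR.Lft.comp (k := k) s.continuous (hp (d / 2) (half_pos hd0)) hs₂ (c := d / 2)
      fun x y hxy => ((hpu x y hxy).trans_le (min_le_right _ _)).le
    rw [add_halves] at h1
    exact h1
  obtain ⟨e₃, he₃, hsu⟩ := TR.uc s (ε := ρ / 4) (by positivity)
  obtain ⟨w₁, h1, h2, h3⟩ := hd N R hN hRC u (p.comp s) (hu.mono (by linarith)) hps W hW w₁'
    (fun x => by
      have h4 := (hpu _ _ ((hw₁' x).trans_le (min_le_right _ _))).trans_le (min_le_right _ _)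
      have h5 := hw x
      have h6 := dist_triangle (p (s (w₁' x))) (p (w₀ x)) (u x)
      change dist (p (s (w₁' x))) (u x) < d
      linarith) e₃ he₃
  have h4 : TR.Lft k (s.comp w₁) (ρ / 2) := by
    have h5 := TR.Lft.comp (k := k) w₁.continuous hs₃ h1 (c := ρ / 4)
      fun x y hxy => (hsu x y hxy).le
    have h6 : ρ / 4 + ρ / 4 = ρ / 2 := by ring
    rw [h6] at h5
    exact h5
  obtain ⟨w, h5, h6⟩ := hext N hN.1 (s.comp w₁) W hW.isClosed w₀ (fun x => by
    change dist (w₀ x) (s (w₁ x)) < δ'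
    rw [h3, dist_comm]
    exact (hw₁' x).trans_le (min_le_left _ _))
  refine ⟨w, ?_, h5, fun x => ?_⟩
  · have h7 := hper N (s.comp w₁) w (ρ / 2) h4 fun x => (h6 x).trans_le (min_le_left _ _)
    rw [add_halves] at h7
    exact h7
  · have h7 := (hpu _ _ ((h6 x).trans_le (min_le_right _ _))).trans_le (min_le_left _ _)
    have h8 := h2 x
    have h9 := dist_triangle (p (w x)) (p ((s.comp w₁) x)) (u x)
    change dist (p ((s.comp w₁) x)) (u x) < ε / 2 at h8
    linarith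

include hS hR in
/-- **S_REL**, type form -/
theorem srel_type (X B : Type) [MetricSpace X] [CompactSpace X] [MetricSpace B] [CompactSpace B]
    (uX : MG.ULC k (univ : Set X)) (uB : MG.ULC k (univ : Set B)) {ε : ℝ} (hε : 0 < ε) :
    ∃ δ > 0, ∀ p : C(X, B), (∀ e > 0, TR.Lft k p e) →
      ∀ (N : Type) [MetricSpace N] [CompactSpace N], Men k N →
      ∀ u : C(N, B), (∀ e > 0, TR.Lft k u e) →
      ∀ W : Set N, ZS W → ∀ w₀ : C(W, X), (∀ x : W, dist (p (w₀ x)) (u x) < δ) →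
      ∃ w : C(N, X), (∀ e > 0, TR.Lft k w e) ∧ (∀ x : W, w x = w₀ x) ∧
        ∀ x, dist (p (w x)) (u x) < ε := by
  obtain ⟨δ, hδ0, hδ⟩ := stage hS hR X B uX uB (half_pos hε)
  refine ⟨δ, hδ0, ?_⟩
  intro p hp N _ _ hN u hu W hW w₀ hw
  obtain ⟨c, hc, hpu⟩ := TR.uc p (half_pos hε)
  -- the scales
  have hst : ∀ n : ℕ, ∃ σ, σ ≤ c / 8 / 2 ^ n ∧ Stp k X X (c / 8 / 2 ^ n) σ := by
    intro n
    have h0 : 0 < c / 8 / 2 ^ n := by positivity
    obtain ⟨σ, hσ⟩ := stage hS hR X X uX uX h0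
    exact ⟨min σ (c / 8 / 2 ^ n), min_le_right _ _,
      hσ.mono (lt_min hσ.1 h0) (min_le_left _ _)⟩
  choose σ hσ₁ hσ₂ using hst
  -- the sequence
  have hstep : ∀ (n : ℕ) (v : C(N, X)), TR.Lft k v (σ n) → (∀ x : W, v x = w₀ x) →
      ∃ v' : C(N, X), TR.Lft k v' (σ (n + 1)) ∧ (∀ x : W, v' x = w₀ x) ∧
        ∀ x, dist (v' x) (v x) < c / 8 / 2 ^ n := by
    intro n v hv hvW
    exact (hσ₂ n).2 (ContinuousMap.id X) (fun e he => TR.Lft.id he) N hN v hv W hW w₀
      (fun x => by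
        change dist (w₀ x) (v x) < σ n
        rw [hvW x, dist_self]
        exact (hσ₂ n).1) (σ (n + 1)) (hσ₂ (n + 1)).1
  obtain ⟨v₀, hv₀, hv₀W, hv₀d⟩ := hδ p hp N hN u (hu δ hδ0) W hW w₀ hw (σ 0) (hσ₂ 0).1
  choose! nx hnx₁ hnx₂ hnx₃ using hstep
  let v : ℕ → C(N, X) := fun n => Nat.rec v₀ (fun n v => nx n v) n
  have hvs : ∀ n, v (n + 1) = nx n (v n) := fun n => rfl
  have hvL : ∀ n, TR.Lft k (v n) (σ n) ∧ ∀ x : W, v n x = w₀ x := by
    intro n
    induction n with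
    | zero => exact ⟨hv₀, hv₀W⟩
    | succ n ih =>
      rw [hvs]
      exact ⟨hnx₁ n _ ih.1 ih.2, hnx₂ n _ ih.1 ih.2⟩
  have hvd : ∀ n, dist (v n) (v (n + 1)) ≤ c / 4 / 2 / 2 ^ n := by
    intro n
    rw [ContinuousMap.dist_le (by positivity)]
    intro x
    rw [hvs, dist_comm]
    have h1 := hnx₃ n _ (hvL n).1 (hvL n).2 x
    have h2 : c / 4 / 2 / 2 ^ n = c / 8 / 2 ^ n := by ring
    rw [h2]
    exact h1.le
  have hcau := cauchySeq_of_le_geometric_two hvd
  obtain ⟨w, hwl⟩ := cauchySeq_tendsto_of_complete hcau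
  have hwd : ∀ n, dist (v n) w ≤ c / 4 / 2 ^ n :=
    fun n => dist_le_of_le_geometric_two_of_tendsto hvd hwl n
  have hwx : ∀ n x, dist (w x) (v n x) ≤ c / 4 / 2 ^ n := fun n x => by
    rw [dist_comm]
    exact (ContinuousMap.dist_apply_le_dist x).trans (hwd n)
  have hlim : Filter.Tendsto (fun n : ℕ => c / 4 / 2 ^ n) Filter.atTop (𝓝 0) := by
    have h1 := tendsto_pow_atTop_nhds_zero_of_lt_one (r := (1 / 2 : ℝ)) (by norm_num) (by norm_num)
    have h2 := h1.const_mul (c / 4)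
    rw [mul_zero] at h2
    refine h2.congr fun n => ?_
    rw [one_div, inv_pow, div_eq_mul_inv (c / 4)]
  refine ⟨w, fun e he => ?_, fun x => ?_, fun x => ?_⟩
  · obtain ⟨r, hr, hper⟩ := lft_perturb uX (half_pos he)
    obtain ⟨n, hn⟩ := (hlim.eventually (gt_mem_nhds (lt_min hr (half_pos he)))).exists
    have h1 := hper N (v n) w (σ n) (hvL n).1
      fun x => (hwx n x).trans_lt (hn.trans_le (min_le_left _ _))
    refine h1.mono ?_
    have h2 := hσ₁ n
    have h3 := hn.trans_le (min_le_right r (e / 2))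
    have h4 : c / 8 / 2 ^ n ≤ c / 4 / 2 ^ n := by
      gcongr
      norm_num
    linarith
  · have h1 : Filter.Tendsto (fun n => dist (w x) (v n x)) Filter.atTop (𝓝 0) :=
      squeeze_zero (fun n => dist_nonneg) (fun n => hwx n x) hlim
    have h2 : (fun n => dist (w x) (v n x)) = fun _ : ℕ => dist (w x) (w₀ x) := by
      funext n
      rw [(hvL n).2 x]
    rw [h2] at h1
    exact dist_eq_zero.1 (tendsto_nhds_unique tendsto_const_nhds h1)
  · have h1 : dist (w x) (v 0 x) < c := by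
      have := hwx 0 x
      rw [pow_zero, div_one] at this
      linarith
    have h2 := hpu _ _ h1
    have h3 : dist (p (v 0 x)) (u x) < ε / 2 := hv₀d x
    have h4 := dist_triangle (p (w x)) (p (v 0 x)) (u x)
    linarith

end Stage

section Fields

variable {k : ℕ} {Cx : ∀ (M : Type) [MetricSpace M] [CompactSpace M], Prop}
  (hUlC : ∀ (M : Type) [MetricSpace M] [CompactSpace M], Cx M → MG.ULC k (univ : Set M))
  (hS : ∀ (X : Type) [MetricSpace X] [CompactSpace X], MG.ULC k (univ : Set X) → ∀ ε > 0,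
    ∃ d, TR.SP k (Men k) Cx X ε d)
  (hR : ∀ (M : Type) [MetricSpace M] [CompactSpace M], MG.ULC k (univ : Set M) → ∀ e > 0,
    ∃ (R : Type) (_ : MetricSpace R) (_ : CompactSpace R), Cx R ∧ ∃ s : C(R, M), TR.Lft k s e)

include hUlC hS hR in
/-- the field `trel` -/
theorem trel_field (β : Type) [MetricSpace β] (X : Set β) (cX : IsCompact X) (hX : Chi.ANE k X)
    (ε : ℝ) (hε : 0 < ε) : ∃ δ > 0,
    ∀ (N N' : Type) [MetricSpace N] [CompactSpace N] [MetricSpace N'] [CompactSpace N'],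
    Nonempty N → Nonempty N' → Men k N → Men k N' → ∀ (l : N → β) (l' : N' → β),
    Chi.Soft k univ X l → Chi.Soft k univ X l' →
    ∀ (W : Set N) (W' : Set N'), ZS W → ZS W' → ∀ g : W ≃ₜ W',
    (∀ x : W, dist (l' (g x)) (l x) < δ) →
    ∃ θ : N ≃ₜ N', (∀ x : W, θ x = g x) ∧ ∀ x, dist (l' (θ x)) (l x) < ε := by
  have : CompactSpace X := isCompact_iff_compactSpace.1 cX
  obtain ⟨d, hd, h⟩ := TR.t_rel (Mg := Men k) (Ul := fun M => MG.ULC k (univ : Set M))
    (fun M _ _ hM => hM.2.1) hUlC hS (fun M _ _ hM => hR M hM.2.1) X (ulc_sub (MG.ulc_of_ane hX)) hε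
  refine ⟨d, hd, fun N N' _ _ _ _ hne hne' hN hN' l l' hl hl' W W' hW hW' g hg => ?_⟩
  have cl := continuousOn_univ.1 hl.1
  have cl' := continuousOn_univ.1 hl'.1
  obtain ⟨θ, h1, h2⟩ := h N N' hN hN' ⟨fun x => ⟨l x, hl.2.1 (mem_univ x)⟩, cl.subtype_mk _⟩
    ⟨fun x => ⟨l' x, hl'.2.1 (mem_univ x)⟩, cl'.subtype_mk _⟩
    (lft_of_soft_univ hl _ (fun x => rfl) hd) (lft_of_soft_univ hl' _ (fun x => rfl) hd)
    W W' hW hW' g hg
  exact ⟨θ, h1, h2⟩

include hS hR in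
/-- the field `srel` -/
theorem srel_field (β β' : Type) [MetricSpace β] [MetricSpace β'] (X : Set β) (B : Set β')
    (cX : IsCompact X) (cB : IsCompact B) (hX : Chi.ANE k X) (hB : Chi.ANE k B) (ε : ℝ)
    (hε : 0 < ε) : ∃ δ > 0, ∀ p : β → β', Chi.Soft k X B p →
    ∀ (N : Type) [MetricSpace N] [CompactSpace N], Men k N → ∀ u : N → β',
    Chi.Soft k univ B u → ∀ W : Set N, ZS W → ∀ w₀ : N → β, ContinuousOn w₀ W → MapsTo w₀ W X →
    (∀ x ∈ W, dist (p (w₀ x)) (u x) < δ) →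
    ∃ w : N → β, Chi.Soft k univ X w ∧ EqOn w w₀ W ∧ ∀ x, dist (p (w x)) (u x) < ε := by
  have : CompactSpace X := isCompact_iff_compactSpace.1 cX
  have : CompactSpace B := isCompact_iff_compactSpace.1 cB
  have uX := MG.ulc_of_ane hX
  obtain ⟨d, hd, h⟩ := srel_type hS hR X B (ulc_sub uX) (ulc_sub (MG.ulc_of_ane hB)) hε
  refine ⟨d, hd, fun p hp N _ _ hN u hu W hW w₀ cw₀ hw₀ hw => ?_⟩
  rcases isEmpty_or_nonempty N with hNe | hNe
  · refine ⟨w₀, ⟨?_, fun x _ => hNe.elim x, ?_⟩, fun _ _ => rfl, fun x => hNe.elim x⟩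
    · exact fun x _ => hNe.elim x
    · intro γ _ P A _ f f₀ _ _ _ _ _ e _
      exact ⟨f₀, fun x _ => hNe.elim (f₀ x), fun _ _ => mem_univ _, fun _ _ => rfl,
        fun x _ => hNe.elim (f₀ x)⟩
  · have hβ : Nonempty β := ⟨w₀ hNe.some⟩
    have cu := continuousOn_univ.1 hu.1
    obtain ⟨w, h1, h2, h3⟩ := h ⟨fun x => ⟨p x, hp.2.1 x.2⟩,
      (hp.1.comp_continuous continuous_subtype_val fun x => x.2).subtype_mk _⟩
      (fun e he => lft_of_soft hp _ (fun x => rfl) he) N hN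
      ⟨fun x => ⟨u x, hu.2.1 (mem_univ x)⟩, cu.subtype_mk _⟩
      (fun e he => lft_of_soft_univ hu _ (fun x => rfl) he) W hW
      ⟨fun x => ⟨w₀ x, hw₀ x.2⟩,
        (cw₀.comp_continuous continuous_subtype_val fun x => x.2).subtype_mk _⟩
      (fun x => hw x x.2)
    exact ⟨fun x => w x, soft_of_lft_univ hN.2.1 uX (continuous_subtype_val.comp w.continuous) w
      (fun x => rfl) h1, fun x hx => congrArg Subtype.val (h2 ⟨x, hx⟩), h3⟩

/-- the inverse of an injective map, on its range -/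
theorem exists_left_inv {M : Type} [MetricSpace M] [CompactSpace M] [Nonempty M] (i : C(M, M))
    (hi : Function.Injective i) : ∃ b : M → M, IsMap b (range i) univ ∧ ∀ x, b (i x) = x := by
  let e : M ≃ₜ range i := (i.continuous.isClosedEmbedding hi).isEmbedding.toHomeomorph
  refine ⟨MG.extS (range i) e.symm id, ⟨MG.extS_cont e.symm.continuous _, fun _ _ => mem_univ _⟩,
    fun x => ?_⟩
  rw [MG.extS_eq _ _ (mem_range_self x)]
  exact e.symm_apply_apply x

include hS hR in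
/-- soft retraction onto two disjoint Z-copies of a Menger manifold, near the identity -/
theorem collar_two (M : Type) [MetricSpace M] [CompactSpace M] (hne : Nonempty M) (hM : Men k M)
    {ε : ℝ} (hε : 0 < ε) : ∃ i₀ i₁ r : C(M, M), Function.Injective i₀ ∧ Function.Injective i₁ ∧
      ZS (range i₀) ∧ ZS (range i₁) ∧ Disjoint (range i₀) (range i₁) ∧
      (∀ x, dist (i₀ x) x < ε) ∧ (∀ x, dist (i₁ x) x < ε) ∧ (∀ x, dist (r x) x < ε) ∧
      Chi.Soft k univ univ r ∧ (∀ x, r (i₀ x) = x) ∧ ∀ x, r (i₁ x) = x := by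
  obtain ⟨δ, hδ, h⟩ := srel_type hS hR M M hM.2.1 hM.2.1 hε
  have hA := MG.ane_of_ulc isCompact_univ hM.2.1
  have hδε : 0 < min δ ε := lt_min hδ hε
  obtain ⟨i₀, h1, -, h2, h3, -⟩ := gp hA hM.2.2 hM.1 isClosed_empty (ContinuousMap.id M)
    (injOn_empty _) (by rw [image_empty]; exact ZS.empty) ZS.empty hδε
  obtain ⟨i₁, h4, -, h5, h6, h7⟩ := gp hA hM.2.2 hM.1 isClosed_empty (ContinuousMap.id M)
    (injOn_empty _) (by rw [image_empty]; exact ZS.empty) h3 hδε
  have hdis : Disjoint (range i₀) (range i₁) := by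
    rw [Set.disjoint_left]
    rintro _ hx ⟨y, rfl⟩
    exact h7 y (notMem_empty y) hx
  obtain ⟨b₀, hb₀, hb₀'⟩ := exists_left_inv i₀ h2
  obtain ⟨b₁, hb₁, hb₁'⟩ := exists_left_inv i₁ h5
  obtain ⟨b, hb, hb', hb''⟩ := hb₀.glue h3.isClosed h6.isClosed hb₁
    fun x hx hx' => (Set.disjoint_left.1 hdis hx hx').elim
  have hbi₀ : ∀ x, b (i₀ x) = x := fun x => by rw [hb' (mem_range_self x), hb₀']
  have hbi₁ : ∀ x, b (i₁ x) = x := fun x => by rw [hb'' (mem_range_self x), hb₁']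
  obtain ⟨r, h8, h9, h10⟩ := h (ContinuousMap.id M) (fun e he => TR.Lft.id he) M hM
    (ContinuousMap.id M) (fun e he => TR.Lft.id he) (range i₀ ∪ range i₁) (h3.union h6)
    ⟨fun x => b x, hb.cont.comp_continuous continuous_subtype_val fun x => x.2⟩ (by
      rintro ⟨x, hx | hx⟩
      · obtain ⟨y, rfl⟩ := hx
        change dist (b (i₀ y)) (i₀ y) < δ
        rw [hbi₀, dist_comm]
        exact (h1 y).trans_le (min_le_left _ _)
      · obtain ⟨y, rfl⟩ := hx
        change dist (b (i₁ y)) (i₁ y) < δ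
        rw [hbi₁, dist_comm]
        exact (h4 y).trans_le (min_le_left _ _))
  refine ⟨i₀, i₁, r, h2, h5, h3, h6, hdis, fun x => (h1 x).trans_le (min_le_right _ _),
    fun x => (h4 x).trans_le (min_le_right _ _), h10, ?_, fun x => ?_, fun x => ?_⟩
  · exact MG.soft_of_L isCompact_univ hM.2.1 hM.2.1
      ⟨r.continuous.continuousOn, fun _ _ => mem_univ _⟩ fun e he => L_of_lft' (h8 e he)
  · exact (h9 ⟨i₀ x, Or.inl (mem_range_self x)⟩).trans (hbi₀ x)
  · exact (h9 ⟨i₁ x, Or.inr (mem_range_self x)⟩).trans (hbi₁ x)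

include hS hR in
/-- the field `collar` (with `N := M`) -/
theorem collar_field (M : Type) [MetricSpace M] [CompactSpace M] (hne : Nonempty M)
    (hM : Men k M) : ∃ (i : M → M) (r : M → M),
      Continuous i ∧ ZS (range i) ∧ Chi.Soft k univ univ r ∧ ∀ x, r (i x) = x := by
  obtain ⟨i₀, i₁, r, -, -, h3, -, -, -, -, -, h8, h9, -⟩ := collar_two hS hR M hne hM one_pos
  exact ⟨i₀, r, i₀.continuous, h3, h8, h9⟩

end Fields

end ChiT

end Pool.Agent.Work.MP_017613_gt
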