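import Pool.Agent.Work.MP_017613_gt.ChiMain

/-!
Block 8.5 (theorem CHI): the two steps (E) `triv_of_equiv` and (U) `triv_inter`, and theorem CHI.
-/

set_option linter.unusedSectionVars false

open Set Topology Metric

namespace Pool.Agent.Work.MP_017613_gt

namespace Chi

variable {β β' : Type} [MetricSpace β] [MetricSpace β'] {k : ℕ}

/-- the empty homeomorphism -/
noncomputable def emptyHomeo (α α' : Type) [TopologicalSpace α] [TopologicalSpace α'] :
    (∅ : Set α) ≃ₜ (∅ : Set α') where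
  toFun x := x.2.elim
  invFun x := x.2.elim
  left_inv x := x.2.elim
  right_inv x := x.2.elim
  continuous_toFun := continuous_of_discreteTopology
  continuous_invFun := continuous_of_discreteTopology

/-- T_REL without `W` -/
theorem Theory.t (T : Theory k) {X : Set β} (cX : IsCompact X) (aX : ANE k X) {ε : ℝ}
    (hε : 0 < ε) {N N' : Type} [MetricSpace N] [CompactSpace N] [MetricSpace N'] [CompactSpace N']
    (hN : T.Men N) (hN' : T.Men N') {l : N → β} {l' : N' → β} (hl : Soft k univ X l)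
    (hl' : Soft k univ X l') : ∃ θ : N ≃ₜ N', ∀ x, dist (l' (θ x)) (l x) < ε := by
  obtain ⟨δ, hδ, H⟩ := T.trel β X cX aX ε hε
  obtain ⟨θ, -, hθ⟩ := H N N' hN hN' l l' hl hl' ∅ ∅ ZS.empty ZS.empty (emptyHomeo N N')
    (fun x => x.2.elim)
  exact ⟨θ, hθ⟩

/-- `θ Ψ θ⁻¹` in `H` gives `Ψ` in `H` -/
theorem Theory.of_conj (T : Theory k) {L N : Type} [MetricSpace L] [CompactSpace L] [MetricSpace N]
    [CompactSpace N] {θ : L ≃ₜ N} {Ψ : L ≃ₜ L} (h : θ.symm.trans (Ψ.trans θ) ∈ T.H N) :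
    Ψ ∈ T.H L := by
  have h2 := T.conj L N θ _ h
  have e2 : (θ.trans (θ.symm.trans (Ψ.trans θ))).trans θ.symm = Ψ := by
    ext x; simp
  rwa [e2] at h2

/-- **(E)** equivariant soft maps to `(N, F)`, `F ∈ H`. -/
theorem triv_of_equiv (T : Theory k) (β : Type) [MetricSpace β] (X : Set β) (N : Type)
    [MetricSpace N] [CompactSpace N] (cX : IsCompact X) (_ : ANE k X) (hN : T.Men N)
    (F : N ≃ₜ N) (hF : F ∈ T.H N) (p : β → N) (hp : Soft k X univ p) (φ : β → β)
    (hφ : HomOn X φ) (he : ∀ x ∈ X, p (φ x) = F (p x)) : Triv' T X φ := by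
  obtain ⟨δ₀, hδ₀, hS⟩ := T.small N hN
  obtain ⟨η, hη, hFu⟩ := Metric.uniformContinuous_iff.1
    (CompactSpace.uniformContinuous_of_continuous F.continuous) (δ₀ / 3) (by positivity)
  obtain ⟨δ, hδ, hu⟩ := Metric.uniformContinuousOn_iff.1
    (cX.uniformContinuousOn_of_continuous hp.1) (δ₀ / 3) (by positivity)
  refine ⟨δ, hδ, fun L _ _ hL l hl Ψ hΨ => ?_⟩
  obtain ⟨θ, hθ⟩ := T.t isCompact_univ (T.ane N hN) (ε := min (δ₀ / 3) η) (by positivity) hL hN
    (hp.comp cX hl) (l' := fun x => x) (Soft.refl _)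
  refine T.of_conj (θ := θ) ?_
  have h1 : θ.symm.trans (Ψ.trans θ) * F⁻¹ ∈ T.H N := by
    apply hS
    intro z
    obtain ⟨y, rfl⟩ := F.surjective z
    obtain ⟨x, rfl⟩ := θ.surjective y
    have e1 : (θ.symm.trans (Ψ.trans θ) * F⁻¹) (F (θ x)) = θ (Ψ x) := by
      show θ (Ψ (θ.symm (F.symm (F (θ x))))) = _
      rw [F.symm_apply_apply, θ.symm_apply_apply]
    rw [e1]
    have h2 : dist (θ (Ψ x)) (p (l (Ψ x))) < δ₀ / 3 := (hθ (Ψ x)).trans_le (min_le_left _ _)
    have h3 : dist (F (p (l x))) (F (θ x)) < δ₀ / 3 := by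
      refine hFu ?_
      rw [dist_comm]
      exact (hθ x).trans_le (min_le_right _ _)
    have h4 := hu _ (hl.2.1 (mem_univ (Ψ x))) _ (hφ.2.1 (hl.2.1 (mem_univ x))) (hΨ x)
    rw [he _ (hl.2.1 (mem_univ x))] at h4
    have h5 := dist_triangle4 (θ (Ψ x)) (p (l (Ψ x))) (F (p (l x))) (F (θ x))
    linarith
  have h2 := (T.H N).mul_mem h1 hF
  rwa [inv_mul_cancel_right] at h2

/-! ### The double -/

section Double

variable {N : Type} [MetricSpace N] {W : Set N}

/-- two functions on the halves of the double -/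
noncomputable def dfun {γ : Type} (a b : N → γ) (z : N × ℝ) : γ := if 0 ≤ z.2 then a z.1 else b z.1

/-- two maps on the halves of the double, as a map to the double -/
noncomputable def dmap (W : Set N) (A B : N → N) (z : N × ℝ) : N × ℝ :=
  if 0 ≤ z.2 then (A z.1, infDist (A z.1) W) else (B z.1, - infDist (B z.1) W)

/-- halves of the double -/
def Dp (W : Set N) : Set (N × ℝ) := {z | z ∈ Dbl W ∧ 0 ≤ z.2}

/-- halves of the double -/
def Dm (W : Set N) : Set (N × ℝ) := {z | z ∈ Dbl W ∧ z.2 ≤ 0}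

theorem isClosed_Dbl : IsClosed (Dbl W) :=
  isClosed_eq continuous_snd.abs ((continuous_infDist_pt W).comp continuous_fst)

theorem isClosed_Dp : IsClosed (Dp W) :=
  isClosed_Dbl.inter (isClosed_le continuous_const continuous_snd)

theorem isClosed_Dm : IsClosed (Dm W) :=
  isClosed_Dbl.inter (isClosed_le continuous_snd continuous_const)

theorem Dp_union : Dp W ∪ Dm W = Dbl W := by
  ext z
  constructor
  · rintro (h | h)
    · exact h.1
    · exact h.1
  · intro h
    rcases le_total 0 z.2 with h1 | h1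
    · exact Or.inl ⟨h, h1⟩
    · exact Or.inr ⟨h, h1⟩

theorem isCompact_Dbl [CompactSpace N] : IsCompact (Dbl W) := by
  obtain ⟨C, hC⟩ := (isCompact_univ (X := N)).exists_bound_of_continuousOn
    (continuous_infDist_pt W).continuousOn
  refine ((isCompact_univ (X := N)).prod (isCompact_Icc (a := -C) (b := C))).of_isClosed_subset
    isClosed_Dbl ?_
  intro z hz
  refine ⟨mem_univ _, ?_⟩
  have h1 : |z.2| = infDist z.1 W := hz
  have h2 := hC z.1 (mem_univ _)
  rw [Real.norm_eq_abs, ← h1, abs_abs] at h2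
  exact abs_le.1 h2

theorem isCompact_Dp [CompactSpace N] : IsCompact (Dp W) :=
  isCompact_Dbl.of_isClosed_subset isClosed_Dp fun _ hz => hz.1

theorem isCompact_Dm [CompactSpace N] : IsCompact (Dm W) :=
  isCompact_Dbl.of_isClosed_subset isClosed_Dm fun _ hz => hz.1

theorem snd_of_Dp {z : N × ℝ} (hz : z ∈ Dp W) : z.2 = infDist z.1 W := by
  have h1 : |z.2| = infDist z.1 W := hz.1
  rwa [abs_of_nonneg hz.2] at h1

theorem snd_of_Dm {z : N × ℝ} (hz : z ∈ Dm W) : z.2 = - infDist z.1 W := by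
  have h1 : |z.2| = infDist z.1 W := hz.1
  rw [abs_of_nonpos hz.2] at h1
  linarith

theorem mem_Dp (n : N) : (n, infDist n W) ∈ Dp W :=
  ⟨abs_of_nonneg infDist_nonneg, infDist_nonneg⟩

theorem mem_Dm (n : N) : (n, - infDist n W) ∈ Dm W :=
  ⟨by show |-infDist n W| = infDist n W; rw [abs_neg, abs_of_nonneg infDist_nonneg],
    neg_nonpos.2 infDist_nonneg⟩

theorem mem_D0 (cW : IsClosed W) (hne : W.Nonempty) {z : N × ℝ} :
    z ∈ Dp W ∩ Dm W ↔ z.2 = 0 ∧ z.1 ∈ W := by
  rw [cW.mem_iff_infDist_zero hne]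
  constructor
  · rintro ⟨h1, h2⟩
    have h3 : z.2 = 0 := le_antisymm h2.2 h1.2
    exact ⟨h3, by rw [← snd_of_Dp h1, h3]⟩
  · rintro ⟨h1, h2⟩
    have h3 : |z.2| = infDist z.1 W := by rw [h1, h2, abs_zero]
    exact ⟨⟨h3, h1.ge⟩, ⟨h3, h1.le⟩⟩

/-- pairs of homeomorphisms which can be glued to a homeomorphism of the double -/
structure Cmp (W : Set N) (A B : N ≃ₜ N) : Prop where
  eq : ∀ w ∈ W, A w = B w
  memA : ∀ x, A x ∈ W ↔ x ∈ W
  memB : ∀ x, B x ∈ W ↔ x ∈ W

theorem dmap_p {A B : N → N} {z : N × ℝ} (hz : z ∈ Dp W) :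
    dmap W A B z = (A z.1, infDist (A z.1) W) := if_pos hz.2

theorem dmap_m (cW : IsClosed W) (hne : W.Nonempty) {A B : N ≃ₜ N} (h : Cmp W A B) {z : N × ℝ}
    (hz : z ∈ Dm W) : dmap W A B z = (B z.1, - infDist (B z.1) W) := by
  by_cases h0 : 0 ≤ z.2
  · have h1 : z ∈ Dp W ∩ Dm W := ⟨⟨hz.1, h0⟩, hz⟩
    have h2 := ((mem_D0 cW hne).1 h1).2
    rw [dmap_p h1.1, h.eq _ h2, infDist_zero_of_mem ((h.memB _).2 h2), neg_zero]
  · exact if_neg h0

theorem dmap_mem {A B : N → N} (z : N × ℝ) : dmap W A B z ∈ Dbl W := by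
  unfold dmap
  split_ifs
  · exact (mem_Dp _).1
  · exact (mem_Dm _).1

theorem dmap_comp (cW : IsClosed W) (hne : W.Nonempty) {A B A' B' : N ≃ₜ N} (h : Cmp W A B)
    (h' : Cmp W A' B') {z : N × ℝ} (hz : z ∈ Dbl W) :
    dmap W A B (dmap W A' B' z) = dmap W (fun x => A (A' x)) (fun x => B (B' x)) z := by
  rcases le_total 0 z.2 with h1 | h1
  · rw [dmap_p ⟨hz, h1⟩, dmap_p (mem_Dp _), dmap_p ⟨hz, h1⟩]
  · have h2 : z ∈ Dm W := ⟨hz, h1⟩
    rw [dmap_m cW hne h' h2, dmap_m cW hne h (mem_Dm _)]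
    by_cases h0 : 0 ≤ z.2
    · have h3 : z ∈ Dp W ∩ Dm W := ⟨⟨hz, h0⟩, h2⟩
      have h4 := ((mem_D0 cW hne).1 h3).2
      rw [dmap_p h3.1, h'.eq _ h4, h.eq _ ((h'.memB _).2 h4),
        infDist_zero_of_mem ((h.memB _).2 ((h'.memB _).2 h4)), neg_zero]
    · exact (if_neg h0).symm

theorem continuousOn_dmap (cW : IsClosed W) (hne : W.Nonempty) {A B : N ≃ₜ N} (h : Cmp W A B) :
    ContinuousOn (dmap W A B) (Dbl W) := by
  rw [← Dp_union]
  refine ContinuousOn.union_of_isClosed ?_ ?_ isClosed_Dp isClosed_Dm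
  · refine ContinuousOn.congr (Continuous.continuousOn ?_) fun z hz => dmap_p hz
    exact (A.continuous.comp continuous_fst).prodMk
      ((continuous_infDist_pt W).comp (A.continuous.comp continuous_fst))
  · refine ContinuousOn.congr (Continuous.continuousOn ?_) fun z hz => dmap_m cW hne h hz
    exact (B.continuous.comp continuous_fst).prodMk
      ((continuous_infDist_pt W).comp (B.continuous.comp continuous_fst)).neg

theorem dmap_id {z : N × ℝ} (hz : z ∈ Dbl W) :
    dmap W (fun x => x) (fun x => x) z = z := by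
  rcases le_or_gt 0 z.2 with h1 | h1
  · rw [dmap_p ⟨hz, h1⟩, ← snd_of_Dp ⟨hz, h1⟩]
  · show (if 0 ≤ z.2 then _ else _) = z
    rw [if_neg (not_le.2 h1), ← snd_of_Dm ⟨hz, h1.le⟩]

theorem Cmp.inv {A B : N ≃ₜ N} (h : Cmp W A B) : Cmp W A.symm B.symm where
  eq w hw := by
    have h1 : A.symm w ∈ W := by
      rw [← h.memA, A.apply_symm_apply]; exact hw
    apply B.injective
    rw [B.apply_symm_apply, ← h.eq _ h1, A.apply_symm_apply]
  memA x := by rw [← h.memA, A.apply_symm_apply]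
  memB x := by rw [← h.memB, B.apply_symm_apply]

/-- the homeomorphism `[A|B]` of the double -/
noncomputable def glueH (cW : IsClosed W) (hne : W.Nonempty) {A B : N ≃ₜ N} (h : Cmp W A B) :
    Dbl W ≃ₜ Dbl W where
  toFun z := ⟨dmap W A B z, dmap_mem _⟩
  invFun z := ⟨dmap W A.symm B.symm z, dmap_mem _⟩
  left_inv z := by
    apply Subtype.ext
    show dmap W A.symm B.symm (dmap W A B z) = z
    rw [dmap_comp cW hne h.inv h z.2]
    simp only [Homeomorph.symm_apply_apply]
    exact dmap_id z.2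
  right_inv z := by
    apply Subtype.ext
    show dmap W A B (dmap W A.symm B.symm z) = z
    rw [dmap_comp cW hne h h.inv z.2]
    simp only [Homeomorph.apply_symm_apply]
    exact dmap_id z.2
  continuous_toFun :=
    (continuousOn_iff_continuous_domRestrict.1 (continuousOn_dmap cW hne h)).subtype_mk _
  continuous_invFun :=
    (continuousOn_iff_continuous_domRestrict.1 (continuousOn_dmap cW hne h.inv)).subtype_mk _

theorem glueH_val {cW : IsClosed W} {hne : W.Nonempty} {A B : N ≃ₜ N} (h : Cmp W A B) (z : Dbl W) :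
    (glueH cW hne h z : N × ℝ) = dmap W A B z := rfl

theorem Cmp.mul {A B A' B' : N ≃ₜ N} (h : Cmp W A B) (h' : Cmp W A' B') :
    Cmp W (A * A') (B * B') where
  eq w hw := by
    show A (A' w) = B (B' w)
    rw [h'.eq w hw, h.eq _ ((h'.memB w).2 hw)]
  memA x := by
    show A (A' x) ∈ W ↔ _
    rw [h.memA, h'.memA]
  memB x := by
    show B (B' x) ∈ W ↔ _
    rw [h.memB, h'.memB]

theorem glueH_mul {cW : IsClosed W} {hne : W.Nonempty} {A B A' B' : N ≃ₜ N} (h : Cmp W A B)
    (h' : Cmp W A' B') : glueH cW hne h * glueH cW hne h' = glueH cW hne (h.mul h') := by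
  refine Homeomorph.ext fun z => Subtype.ext ?_
  show dmap W A B (dmap W A' B' z) = dmap W (A * A' : N ≃ₜ N) (B * B' : N ≃ₜ N) z
  rw [dmap_comp cW hne h h' z.2]
  rfl

/-- the identity `[C|C] = [C|B] [A|B]⁻¹ [A|C]` -/
theorem glueH_identity {cW : IsClosed W} {hne : W.Nonempty} {A B C : N ≃ₜ N} (h : Cmp W A B)
    (h1 : Cmp W C B) (h2 : Cmp W A C) (h3 : Cmp W C C) :
    glueH cW hne h3 = glueH cW hne h1 * (glueH cW hne h)⁻¹ * glueH cW hne h2 := by
  have e : (glueH cW hne h)⁻¹ = glueH cW hne h.inv := rfl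
  rw [e, glueH_mul, glueH_mul]
  refine Homeomorph.ext fun z => Subtype.ext ?_
  show dmap W C C z = dmap W (C * A⁻¹ * A : N ≃ₜ N) (B * B⁻¹ * C : N ≃ₜ N) z
  rw [inv_mul_cancel_right, mul_inv_cancel, one_mul]

theorem dfun_p {γ : Type} {a b : N → γ} {z : N × ℝ} (hz : z ∈ Dp W) : dfun a b z = a z.1 :=
  if_pos hz.2

theorem dfun_m {γ : Type} (cW : IsClosed W) (hne : W.Nonempty) {a b : N → γ} (h : EqOn a b W)
    {z : N × ℝ} (hz : z ∈ Dm W) : dfun a b z = b z.1 := by
  by_cases h0 : 0 ≤ z.2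
  · have h1 : z ∈ Dp W ∩ Dm W := ⟨⟨hz.1, h0⟩, hz⟩
    rw [dfun_p h1.1, h ((mem_D0 cW hne).1 h1).2]
  · exact if_neg h0

/-- approximate equivariance on the double -/
theorem dfun_close (cW : IsClosed W) (hne : W.Nonempty) {A B : N ≃ₜ N} (h : Cmp W A B)
    {a b : N → β} (hab : EqOn a b W) {φ : β → β} {ε : ℝ} (ha : ∀ x, dist (a (A x)) (φ (a x)) < ε)
    (hb : ∀ x, dist (b (B x)) (φ (b x)) < ε) {z : N × ℝ} (hz : z ∈ Dbl W) :
    dist (dfun a b (dmap W A B z)) (φ (dfun a b z)) < ε := by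
  rcases le_total 0 z.2 with h1 | h1
  · have h2 : z ∈ Dp W := ⟨hz, h1⟩
    rw [dmap_p h2, dfun_p h2, dfun_p (mem_Dp _)]
    exact ha _
  · have h2 : z ∈ Dm W := ⟨hz, h1⟩
    rw [dmap_m cW hne h h2, dfun_m cW hne hab h2, dfun_m cW hne hab (mem_Dm _)]
    exact hb _

end Double

/-- soft maps on sets, as maps of the subtype -/
theorem Soft.toType {α : Type} [MetricSpace α] {D : Set α} {X : Set β} {p : α → β}
    (h : Soft k D X p) : Soft k (univ : Set D) X (fun z : D => p z) := by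
  classical
  refine ⟨h.1.comp continuous_subtype_val.continuousOn fun z _ => z.2, fun z _ => h.2.1 z.2, ?_⟩
  intro γ _ P A hT f f₀ cf mf cf₀ _ hf ε hε
  obtain ⟨F, cF, mF, eF, hF⟩ := h.2.2 γ P A hT f (fun x => (f₀ x : α)) cf mf
    (continuous_subtype_val.comp_continuousOn cf₀) (fun x _ => (f₀ x).2) hf ε hε
  have e : EqOn (fun x => ((if h : F x ∈ D then ⟨F x, h⟩ else f₀ x : D) : α)) F P := by
    intro x hx
    simp only [dif_pos (mF hx)]
  refine ⟨fun x => if h : F x ∈ D then ⟨F x, h⟩ else f₀ x, ?_, fun _ _ => mem_univ _, ?_, ?_⟩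
  · rw [Topology.IsInducing.subtypeVal.continuousOn_iff]
    exact cF.congr e
  · intro x hx
    apply Subtype.ext
    have h1 := e (hT.sub hx)
    simp only at h1
    rw [h1]
    exact eF hx
  · intro x hx
    have h1 := e hx
    simp only at h1
    show dist (p ((if h : F x ∈ D then (⟨F x, h⟩ : D) else f₀ x : D) : α)) (f x) < ε
    rw [h1]
    exact hF x hx

section Inter

variable {N L : Type} [MetricSpace N] [MetricSpace L]

/-- gluing of two soft maps on the double -/
theorem soft_dfun [CompactSpace N] {Yp Ym : Set β} (cp : IsCompact Yp) (cm : IsCompact Ym)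
    (ap : ANE k Yp) (am : ANE k Ym) (a0 : ANE k (Yp ∩ Ym : Set β)) {i : L → N} (hi : Continuous i)
    (cW : IsClosed (range i)) (hne : (range i).Nonempty) {r : N → L} (hr : Continuous r)
    (hri : ∀ x, r (i x) = x) {a b : N → β} {l : L → β} (sa : Soft k univ Yp a)
    (sb : Soft k univ Ym b) (sl : Soft k univ (Yp ∩ Ym : Set β) l)
    (ea : EqOn a (fun x => l (r x)) (range i)) (eb : EqOn b (fun x => l (r x)) (range i)) :
    Soft k (univ : Set (Dbl (range i))) (Yp ∪ Ym : Set β)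
      (fun z : Dbl (range i) => dfun a b (z : N × ℝ)) := by
  have hab : EqOn a b (range i) := fun x hx => by rw [ea hx, eb hx]
  apply Soft.toType
  rw [← Dp_union]
  refine Soft.glue isCompact_Dp isCompact_Dm cp cm ap am a0 ?_ ?_ ?_
  · refine (sa.precomp (E := Dp (range i)) (e := Prod.fst)
      (e' := fun n => (n, infDist n (range i))) continuous_fst.continuousOn (fun _ _ => mem_univ _)
      (continuous_id.prodMk (continuous_infDist_pt _)).continuousOn (fun n _ => mem_Dp n) ?_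
      (fun _ _ => rfl)).congr fun z hz => (dfun_p hz).symm
    intro z hz
    exact Prod.ext rfl (snd_of_Dp hz).symm
  · refine (sb.precomp (E := Dm (range i)) (e := Prod.fst)
      (e' := fun n => (n, - infDist n (range i))) continuous_fst.continuousOn
      (fun _ _ => mem_univ _)
      (continuous_id.prodMk (continuous_infDist_pt _).neg).continuousOn (fun n _ => mem_Dm n) ?_
      (fun _ _ => rfl)).congr fun z hz => (dfun_m cW hne hab hz).symm
    intro z hz
    exact Prod.ext rfl (snd_of_Dm hz).symm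
  · refine (sl.precomp (E := Dp (range i) ∩ Dm (range i)) (e := fun z => r z.1)
      (e' := fun x => (i x, 0)) (hr.comp continuous_fst).continuousOn (fun _ _ => mem_univ _)
      (hi.prodMk continuous_const).continuousOn
      (fun x _ => (mem_D0 cW hne).2 ⟨rfl, mem_range_self x⟩) ?_ (fun x _ => hri x)).congr ?_
    · intro z hz
      obtain ⟨h1, y, h2⟩ := (mem_D0 cW hne).1 hz
      refine Prod.ext ?_ h1.symm
      show i (r z.1) = z.1
      rw [← h2, hri]
    · intro z hz
      rw [dfun_p hz.1, ea ((mem_D0 cW hne).1 hz).2]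

/-- homeomorphisms which extend `g` form compatible pairs -/
theorem cmp_of {W : Set N} {g : W ≃ₜ W} {A B : N ≃ₜ N} (hA : ∀ x : W, A x = g x)
    (hB : ∀ x : W, B x = g x) : Cmp W A B := by
  have key : ∀ C : N ≃ₜ N, (∀ x : W, C x = g x) → ∀ x, C x ∈ W ↔ x ∈ W := by
    intro C hC x
    constructor
    · intro h
      have h1 : C (g.symm ⟨C x, h⟩ : W) = C x := by
        rw [hC, g.apply_symm_apply]
      rw [← C.injective h1]
      exact (g.symm ⟨C x, h⟩).2
    · intro h
      rw [hC ⟨x, h⟩]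
      exact (g ⟨x, h⟩).2
  exact ⟨fun w hw => by rw [hA ⟨w, hw⟩, hB ⟨w, hw⟩], key A hA, key B hB⟩

end Inter

/-- **(U)** the intersection step. -/
theorem triv_inter (T : Theory k) (β β' : Type) [MetricSpace β] [MetricSpace β'] (Xp Xm : Set β)
    (B : Set β') (cp : IsCompact Xp) (cm : IsCompact Xm) (cB : IsCompact B) (ap : ANE k Xp)
    (am : ANE k Xm) (a0 : ANE k (Xp ∩ Xm : Set β)) (aB : ANE k B) (π : β → β')
    (_ : Soft k (Xp ∪ Xm) B π) (sp : Soft k Xp B π) (sm : Soft k Xm B π)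
    (s0 : Soft k (Xp ∩ Xm : Set β) B π) (φ : β → β) (_ : HomOn (Xp ∪ Xm) φ)
    (hφp : HomOn Xp φ) (hφm : HomOn Xm φ) (_ : HomOn (Xp ∩ Xm : Set β) φ)
    (tX : Triv' T (Xp ∪ Xm) φ) (tp : Triv' T Xp φ) (tm : Triv' T Xm φ) :
    Triv' T (Xp ∩ Xm : Set β) φ := by
  obtain ⟨δX, hδX, HX⟩ := tX
  obtain ⟨δp, hδp, Hp⟩ := tp
  obtain ⟨δm, hδm, Hm⟩ := tm
  obtain ⟨εp, hεp, Tp⟩ := T.trel β Xp cp ap (min δX δp) (lt_min hδX hδp)
  obtain ⟨εm, hεm, Tm⟩ := T.trel β Xm cm am (min δX δm) (lt_min hδX hδm)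
  have c0 : IsCompact (Xp ∩ Xm) := cp.inter cm
  refine ⟨min (min εp εm) (min (δp / 2) (δm / 2)), by positivity, ?_⟩
  intro L _ _ hL l hl Ψ hΨ
  have hLne := T.ne L hL
  obtain ⟨N, _, _, i, r, hN, hi, zW, hr, hri⟩ := T.collar L hL
  have cr : Continuous r := continuousOn_univ.1 hr.1
  have cl : Continuous l := continuousOn_univ.1 hl.1
  have ii : Function.Injective i := fun x y h => by rw [← hri x, h, hri]
  have cW : IsClosed (range i) := zW.1
  have hne : (range i).Nonempty := range_nonempty i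
  -- soft maps `a± : N → X±`
  have su : Soft k (univ : Set N) B (fun x => π (l (r x))) :=
    Soft.comp (X := (univ : Set L)) (p := fun x => π (l x)) (q := r) isCompact_univ
      (Soft.comp c0 s0 hl) hr
  have clr : ContinuousOn (fun x => l (r x)) (range i) :=
    (continuousOn_univ.1 hl.1).comp_continuousOn cr.continuousOn
  have hlm : ∀ x, l x ∈ Xp ∩ Xm := fun x => hl.2.1 (mem_univ x)
  obtain ⟨a, sa, ea, -⟩ : ∃ a : N → β, Soft k univ Xp a ∧ EqOn a (fun x => l (r x)) (range i) ∧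
      ∀ x, dist (π (a x)) (π (l (r x))) < 1 := by
    obtain ⟨δ, hδ, H⟩ := T.srel β β' Xp B cp cB ap aB 1 one_pos
    exact H π sp N hN _ su (range i) zW (fun x => l (r x)) clr (fun x _ => (hlm _).1)
      fun x _ => by rw [dist_self]; exact hδ
  obtain ⟨b, sb, eb, -⟩ : ∃ a : N → β, Soft k univ Xm a ∧ EqOn a (fun x => l (r x)) (range i) ∧
      ∀ x, dist (π (a x)) (π (l (r x))) < 1 := by
    obtain ⟨δ, hδ, H⟩ := T.srel β β' Xm B cm cB am aB 1 one_pos
    exact H π sm N hN _ su (range i) zW (fun x => l (r x)) clr (fun x _ => (hlm _).2)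
      fun x _ => by rw [dist_self]; exact hδ
  -- the homeomorphism of `range i`
  let e : L ≃ₜ range i := (hi.isClosedEmbedding ii).toIsEmbedding.toHomeomorph
  let g : range i ≃ₜ range i := (e.symm.trans Ψ).trans e
  have hg : ∀ x : range i, ∃ y, (x : N) = i y ∧ (g x : N) = i (Ψ y) := by
    intro x
    obtain ⟨y, rfl⟩ := e.surjective x
    refine ⟨y, rfl, ?_⟩
    show ((e (Ψ (e.symm (e y))) : range i) : N) = i (Ψ y)
    rw [e.symm_apply_apply]
    rfl
  have hg' : ∀ x : range i, r (g x) = Ψ (r x) := by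
    intro x
    obtain ⟨y, h1, h2⟩ := hg x
    rw [h1, h2, hri, hri]
  -- the homeomorphisms `Φ±`
  obtain ⟨Φp, hΦp, hΦp'⟩ := Tp N N hN hN (fun x => φ (a x)) a ((Soft.homOn hφp).comp cp sa) sa
    (range i) (range i) zW zW g (by
      intro x
      rw [ea (g x).2, ea x.2]
      show dist (l (r (g x))) (φ (l (r x))) < εp
      rw [hg' x]
      exact (hΨ _).trans_le ((min_le_left _ _).trans (min_le_left _ _)))
  obtain ⟨Φm, hΦm, hΦm'⟩ := Tm N N hN hN (fun x => φ (b x)) b ((Soft.homOn hφm).comp cm sb) sb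
    (range i) (range i) zW zW g (by
      intro x
      rw [eb (g x).2, eb x.2]
      show dist (l (r (g x))) (φ (l (r x))) < εm
      rw [hg' x]
      exact (hΨ _).trans_le ((min_le_left _ _).trans (min_le_right _ _)))
  -- the homeomorphism `C`
  obtain ⟨δ₀, hδ₀, hS⟩ := T.small L hL
  obtain ⟨ηl, hηl, hlu⟩ := Metric.uniformContinuous_iff.1
    (CompactSpace.uniformContinuous_of_continuous cl) (min (δp / 2) (δm / 2)) (by positivity)
  obtain ⟨δc, hδc, Tc⟩ := T.trel L univ isCompact_univ (T.ane L hL) (min ηl (δ₀ / 3))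
    (by positivity)
  obtain ⟨C, hC, hC'⟩ := Tc N N hN hN (fun x => Ψ (r x)) r
    ((Soft.homOn (X := univ) (φ := Ψ) ⟨Ψ.continuous.continuousOn, fun _ _ => mem_univ _, Ψ.symm,
      Ψ.symm.continuous.continuousOn, fun _ _ => mem_univ _, fun x _ => by simp⟩).comp
      isCompact_univ hr) hr (range i) (range i) zW zW g (by
      intro x
      rw [hg' x, dist_self]
      exact hδc)
  have hAB := cmp_of hΦp hΦm
  have hCB := cmp_of hC hΦm
  have hAC := cmp_of hΦp hC
  have hCC := cmp_of hC hC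
  have hl2 : ∀ x, dist (l (r (C x))) (φ (l (r x))) < min δp δm := by
    intro x
    have h1 := hlu ((hC' x).trans_le (min_le_left _ _))
    have h2 := (hΨ (r x)).trans_le (min_le_right _ _)
    have h3 := dist_triangle (l (r (C x))) (l (Ψ (r x))) (φ (l (r x)))
    have h4 : min (δp / 2) (δm / 2) = min δp δm / 2 := (min_div_div_right (by norm_num) _ _)
    rw [h4] at h1 h2
    linarith
  -- the double
  obtain ⟨cD, hD⟩ := T.double L N i r hL hN hi zW hr hri
  have sb0 : Soft k (univ : Set N) (Xp ∩ Xm : Set β) (fun x => l (r x)) :=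
    hl.comp isCompact_univ hr
  have m1 : glueH cW hne hAB ∈ T.H (Dbl (range i)) := by
    refine HX (Dbl (range i)) hD _ (soft_dfun cp cm ap am a0 hi cW hne cr hri sa sb hl ea eb) _ ?_
    intro z
    refine dfun_close cW hne hAB (fun x hx => by rw [ea hx, eb hx])
      (fun x => (hΦp' x).trans_le (min_le_left _ _))
      (fun x => (hΦm' x).trans_le (min_le_left _ _)) z.2
  have m2 : glueH cW hne hAC ∈ T.H (Dbl (range i)) := by
    have e1 : Xp ∪ Xp ∩ Xm = Xp := union_eq_self_of_subset_right inter_subset_left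
    have e2 : Xp ∩ (Xp ∩ Xm) = Xp ∩ Xm := by rw [← inter_assoc, inter_self]
    have h1 := soft_dfun (k := k) cp c0 ap a0 (by rw [e2]; exact a0) hi cW hne cr hri sa sb0
      (by rw [e2]; exact hl) ea (fun x _ => rfl)
    rw [e1] at h1
    refine Hp (Dbl (range i)) hD _ h1 _ ?_
    intro z
    exact dfun_close cW hne hAC (fun x hx => by rw [ea hx])
      (fun x => (hΦp' x).trans_le (min_le_right _ _))
      (fun x => (hl2 x).trans_le (min_le_left _ _)) z.2
  have m3 : glueH cW hne hCB ∈ T.H (Dbl (range i)) := by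
    have e1 : Xp ∩ Xm ∪ Xm = Xm := union_eq_self_of_subset_left inter_subset_right
    have e2 : Xp ∩ Xm ∩ Xm = Xp ∩ Xm := by rw [inter_assoc, inter_self]
    have h1 := soft_dfun (k := k) c0 cm a0 am (by rw [e2]; exact a0) hi cW hne cr hri sb0 sb
      (by rw [e2]; exact hl) (fun x _ => rfl) eb
    rw [e1] at h1
    refine Hm (Dbl (range i)) hD _ h1 _ ?_
    intro z
    exact dfun_close cW hne hCB (fun x hx => by rw [eb hx])
      (fun x => (hl2 x).trans_le (min_le_right _ _))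
      (fun x => (hΦm' x).trans_le (min_le_right _ _)) z.2
  have m4 : glueH cW hne hCC ∈ T.H (Dbl (range i)) := by
    rw [glueH_identity hAB hCB hAC hCC]
    exact (T.H _).mul_mem ((T.H _).mul_mem m3 ((T.H _).inv_mem m1)) m2
  -- the map `D → L`
  have sR : Soft k (univ : Set (Dbl (range i))) (univ : Set L)
      (fun z : Dbl (range i) => r (z : N × ℝ).1) := by
    have h1 := soft_dfun (k := k) (Yp := (univ : Set L)) (Ym := univ) isCompact_univ isCompact_univ
      (T.ane L hL) (T.ane L hL) (by rw [inter_self]; exact T.ane L hL) hi cW hne cr hri hr hr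
      (l := fun x => x) (by rw [inter_self]; exact Soft.refl _) (fun x _ => rfl) (fun x _ => rfl)
    rw [union_self] at h1
    refine h1.congr fun z _ => ?_
    show dfun r r (z : N × ℝ) = r (z : N × ℝ).1
    unfold dfun
    split_ifs <;> rfl
  obtain ⟨ηΨ, hηΨ, hΨu⟩ := Metric.uniformContinuous_iff.1
    (CompactSpace.uniformContinuous_of_continuous Ψ.continuous) (δ₀ / 3) (by positivity)
  obtain ⟨θ, hθ⟩ := T.t isCompact_univ (T.ane L hL) (ε := min (δ₀ / 3) ηΨ) (by positivity) hL hD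
    (l := fun x : L => x) (Soft.refl _) sR
  have h1 := T.conj L (Dbl (range i)) θ _ m4
  have h2 : (θ.trans (glueH cW hne hCC)).trans θ.symm * Ψ⁻¹ ∈ T.H L := by
    apply hS
    intro z
    obtain ⟨x, rfl⟩ := Ψ.surjective z
    have e1 : ((θ.trans (glueH cW hne hCC)).trans θ.symm * Ψ⁻¹) (Ψ x) =
        θ.symm (glueH cW hne hCC (θ x)) := by
      show θ.symm (glueH cW hne hCC (θ (Ψ.symm (Ψ x)))) = _
      rw [Ψ.symm_apply_apply]
    rw [e1]
    have h3 := (hθ (θ.symm (glueH cW hne hCC (θ x)))).trans_le (min_le_left _ _)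
    rw [θ.apply_symm_apply] at h3
    have e2 : r ((glueH cW hne hCC (θ x) : Dbl (range i)) : N × ℝ).1 =
        r (C ((θ x : Dbl (range i)) : N × ℝ).1) := by
      rw [glueH_val]
      unfold dmap
      split_ifs <;> rfl
    rw [e2] at h3
    have h4 := (hC' ((θ x : Dbl (range i)) : N × ℝ).1).trans_le (min_le_right _ _)
    have h5 := hΨu ((hθ x).trans_le (min_le_right _ _))
    have h6 := dist_triangle4 (θ.symm (glueH cW hne hCC (θ x)))
      (r (C ((θ x : Dbl (range i)) : N × ℝ).1)) (Ψ (r ((θ x : Dbl (range i)) : N × ℝ).1)) (Ψ x)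
    rw [dist_comm] at h3
    linarith
  have h3 := (T.H L).mul_mem ((T.H L).inv_mem h2) h1
  have e3 : ((θ.trans (glueH cW hne hCC)).trans θ.symm * Ψ⁻¹)⁻¹ *
      (θ.trans (glueH cW hne hCC)).trans θ.symm = Ψ := by group
  rwa [e3] at h3

/-- **Theorem CHI.** -/
theorem chi (T : Theory k) {M N : Type} [MetricSpace M] [CompactSpace M] [MetricSpace N]
    [CompactSpace N] (hM : T.Men M) (hN : T.Men N) {i : M → N} (hi : Continuous i)
    (hz : ZS (range i)) {r : N → M} (hr : Soft k (univ : Set N) (univ : Set M) r)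
    (hri : ∀ x, r (i x) = x) {F : N ≃ₜ N} (hF : F ∈ T.H N) {f : M ≃ₜ M}
    (hf : ∀ x, F (i x) = i (f x)) : f ∈ T.H M :=
  chi_of T (triv_of_equiv T) (triv_inter T) hM hN hi hz hr hri hF hf

end Chi

end Pool.Agent.Work.MP_017613_gt
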