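import Pool.Agent.Work.MP_017613_gt.GenPos
import Pool.Agent.Work.MP_017613_gt.Chi0

/-!
General position for maps of compact metric spaces of dimension at most `k` into a compact space
which is ANE(k) and has the disjoint approximation property.
-/

set_option linter.unusedSectionVars false

open Set Topology Metric

namespace Pool.Agent.Work.MP_017613_gt

variable {k : ℕ} {P N : Type} [MetricSpace P] [CompactSpace P] [MetricSpace N] [CompactSpace N]

/-- controlled extension of maps, from `ANE` -/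
theorem ext_near (hN : Chi.ANE k (univ : Set N)) (hP : PushOff k (univ : Set P)) {ε : ℝ}
    (hε : 0 < ε) : ∃ δ > 0, ∀ (f : C(P, N)) (C : Set P), IsClosed C → ∀ b : P → N,
      ContinuousOn b C → (∀ x ∈ C, dist (b x) (f x) < δ) →
      ∃ a : C(P, N), EqOn a b C ∧ ∀ x, dist (a x) (f x) < ε := by
  obtain ⟨δ, hδ, h⟩ := hN ε hε
  refine ⟨δ, hδ, fun f C hC b hb hd => ?_⟩
  obtain ⟨r, hr, hr'⟩ := Metric.uniformContinuous_iff.1
    (CompactSpace.uniformContinuous_of_continuous f.continuous) δ hδ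
  obtain ⟨a, a1, -, a3, a4⟩ := h P univ C ⟨isCompact_univ, hP, hC, subset_univ _⟩ f
    (fun x _ => mem_univ _) ⟨r, hr, fun x _ y _ hxy => hr' hxy⟩ b hb (fun x _ => mem_univ _) hd
  exact ⟨⟨a, continuousOn_univ.1 a1⟩, a3, fun x => a4 x (mem_univ x)⟩

theorem ce_of_ane (hN : Chi.ANE k (univ : Set N)) (hP : PushOff k (univ : Set P))
    {P₀ σ τ : Set P} (h0 : IsClosed P₀) (hσ : IsClosed σ) (hτ : IsClosed τ)
    (hd : Disjoint P₀ (σ ∪ τ)) : CE P₀ σ τ N := by
  classical
  intro ε hε
  obtain ⟨δ, hδ, h⟩ := ext_near hN hP hε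
  refine ⟨δ, hδ, fun f g hg hgf => ?_⟩
  have hst : IsClosed (σ ∪ τ) := hσ.union hτ
  let b : P → N := fun x => if x ∈ P₀ then f x else g x
  have e1 : EqOn b f P₀ := fun x hx => if_pos hx
  have e2 : EqOn b g (σ ∪ τ) := fun x hx => if_neg fun hx' => disjoint_left.1 hd hx' hx
  obtain ⟨a, a1, a2⟩ := h f (P₀ ∪ (σ ∪ τ)) (h0.union hst) b
    ((f.continuous.continuousOn.congr e1).union_of_isClosed (hg.congr e2) h0 hst) (by
      rintro x (hx | hx)
      · rw [e1 hx, dist_self]
        exact hδ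
      · rw [e2 hx]
        exact hgf x hx)
  exact ⟨a, fun x hx => (a1 (Or.inr hx)).trans (e2 hx), fun x hx => (a1 (Or.inl hx)).trans (e1 hx),
    a2⟩

/-- **General position**: a map of a compact space `P` of dimension at most `k`, which on the closed
set `P₀` is a Z-embedding, is approximated rel `P₀` by Z-embeddings, which off `P₀` avoid a given
Z-set. -/
theorem gp (hN : Chi.ANE k (univ : Set N)) (hD : ZD N) (hP : PushOff k (univ : Set P))
    {P₀ : Set P} (h0 : IsClosed P₀) (f : C(P, N)) (hinj : InjOn f P₀) (hf : ZS (f '' P₀))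
    {B : Set N} (hB : ZS B) {ε : ℝ} (hε : 0 < ε) :
    ∃ f' : C(P, N), (∀ x, dist (f' x) (f x) < ε) ∧ (∀ x ∈ P₀, f' x = f x) ∧
      Function.Injective f' ∧ ZS (range f') ∧ ∀ x ∉ P₀, f' x ∉ B := by
  classical
  have hb := TopologicalSpace.isBasis_countableBasis P
  let ι := {U : Set P // U ∈ TopologicalSpace.countableBasis P ∧ Disjoint P₀ (closure U)}
  have : Countable ι :=
    ((TopologicalSpace.countable_countableBasis P).mono fun U hU => hU.1).to_subtype
  have hsm : ∀ x ∉ P₀, ∀ O : Set P, IsOpen O → x ∈ O → ∃ i : ι, x ∈ closure i.1 ∧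
      closure i.1 ⊆ O := by
    intro x hx O hO hxO
    obtain ⟨U, hU, hxU, hUO⟩ := hb.exists_closure_subset
      ((hO.inter h0.isOpen_compl).mem_nhds ⟨hxO, hx⟩)
    refine ⟨⟨U, hU, ?_⟩, subset_closure hxU, hUO.trans inter_subset_left⟩
    exact disjoint_left.2 fun y hy hy' => (hUO hy').2 hy
  refine gen_pos hD (fun i : ι => closure i.1) (fun i => isClosed_closure) ?_ ?_ ?_ ?_ f hinj hf hB
    hε
  · intro x hx
    obtain ⟨i, hi, -⟩ := hsm x hx univ isOpen_univ (mem_univ _)
    exact ⟨i, hi⟩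
  · intro x hx y hy hxy
    obtain ⟨U, V, hU, hV, hxU, hyV, hUV⟩ := t2_separation hxy
    obtain ⟨i, hi, hi'⟩ := hsm x hx U hU hxU
    obtain ⟨j, hj, hj'⟩ := hsm y hy V hV hyV
    exact ⟨i, j, hi, hj, hUV.mono hi' hj'⟩
  · intro i j _
    exact ce_of_ane hN hP h0 isClosed_closure isClosed_closure
      (disjoint_union_right.2 ⟨i.2.2, j.2.2⟩)
  · intro i
    exact ce_of_ane hN hP h0 isClosed_closure isClosed_empty
      (by rw [union_empty]; exact i.2.2)

end Pool.Agent.Work.MP_017613_gt
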