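import Mathlib

/-!
Dimension: `PushOff k P` says that every continuous map of the compact set `P` to `R^(k+1)` can be
pushed off the origin by an arbitrarily small change (so `dim P ≤ k`).
-/

open Set Topology Metric

namespace Pool.Agent.Work.MP_017613_gt

variable {α β : Type*} [MetricSpace α] [MetricSpace β]

/-- Every continuous map of `P` to `R^(k+1)` can be pushed off the origin. -/
def PushOff (k : ℕ) (P : Set α) : Prop :=
  ∀ f : α → (Fin (k + 1) → ℝ), ContinuousOn f P → ∀ ε > 0, ∃ g : α → (Fin (k + 1) → ℝ),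
    ContinuousOn g P ∧ (∀ x ∈ P, dist (g x) (f x) < ε) ∧ ∀ x ∈ P, g x ≠ 0

/-- Tietze extension for maps to `R^n`. -/
lemma tietze {n : ℕ} {A : Set α} (hA : IsClosed A) {h : α → (Fin n → ℝ)} (hh : ContinuousOn h A) :
    ∃ H : α → (Fin n → ℝ), Continuous H ∧ EqOn H h A := by
  obtain ⟨g, hg⟩ := ContinuousMap.exists_restrict_eq hA
    (⟨A.domRestrict h, hh.domRestrict⟩ : C(A, Fin n → ℝ))
  refine ⟨g, g.continuous, fun x hx => ?_⟩
  have := DFunLike.congr_fun hg ⟨x, hx⟩
  simpa using this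

/-- Tietze extension with a strict bound. -/
lemma tietze_small {n : ℕ} {A : Set α} (hA : IsCompact A) {h : α → (Fin n → ℝ)}
    (hh : ContinuousOn h A) {ε : ℝ} (hε : 0 < ε) (hb : ∀ x ∈ A, ‖h x‖ < ε) :
    ∃ H : α → (Fin n → ℝ), Continuous H ∧ EqOn H h A ∧ ∀ x, ‖H x‖ < ε := by
  obtain ⟨δ, hδ0, hδε, hδ⟩ : ∃ δ, 0 ≤ δ ∧ δ < ε ∧ ∀ x ∈ A, ‖h x‖ ≤ δ := by
    rcases A.eq_empty_or_nonempty with rfl | hne
    · exact ⟨0, le_rfl, hε, by simp⟩
    · obtain ⟨x, hx, hmax⟩ := hA.exists_isMaxOn hne hh.norm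
      exact ⟨‖h x‖, norm_nonneg _, hb x hx, fun y hy => hmax hy⟩
  obtain ⟨H₀, hc, he⟩ := tietze hA.isClosed hh
  refine ⟨fun x i => max (-δ) (min δ (H₀ x i)), ?_, ?_, ?_⟩
  · apply continuous_pi
    intro i
    exact continuous_const.max (continuous_const.min ((continuous_apply i).comp hc))
  · intro x hx
    funext i
    have h1 : |h x i| ≤ δ := by
      have := (norm_le_pi_norm (h x) i).trans (hδ x hx)
      simpa using this
    simp only [he hx]
    rw [min_eq_right (abs_le.1 h1).2, max_eq_right (abs_le.1 h1).1]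
  · intro x
    refine lt_of_le_of_lt ?_ hδε
    rw [pi_norm_le_iff_of_nonneg hδ0]
    intro i
    rw [Real.norm_eq_abs, abs_le]
    exact ⟨le_max_left _ _, max_le (by linarith) (min_le_left _ _)⟩

lemma PushOff.mono {k : ℕ} {P A : Set α} (hP : PushOff k P) (hA : IsCompact A) (hAP : A ⊆ P) :
    PushOff k A := by
  intro f hf ε hε
  obtain ⟨F, hF, hFe⟩ := tietze hA.isClosed hf
  obtain ⟨g, hg, hgd, hg0⟩ := hP F hF.continuousOn ε hε
  refine ⟨g, hg.mono hAP, fun x hx => ?_, fun x hx => hg0 x (hAP hx)⟩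
  rw [← hFe hx]
  exact hgd x (hAP hx)

lemma exists_norm_lower {n : ℕ} {P : Set α} (hP : IsCompact P) {g : α → (Fin n → ℝ)}
    (hg : ContinuousOn g P) (h0 : ∀ x ∈ P, g x ≠ 0) : ∃ δ > 0, ∀ x ∈ P, δ ≤ ‖g x‖ := by
  rcases P.eq_empty_or_nonempty with rfl | hne
  · exact ⟨1, one_pos, by simp⟩
  · obtain ⟨x, hx, hmin⟩ := hP.exists_isMinOn hne hg.norm
    exact ⟨‖g x‖, norm_pos_iff.2 (h0 x hx), fun y hy => hmin hy⟩

lemma PushOff.union {k : ℕ} {P Q : Set α} (hP : PushOff k P) (hQ : PushOff k Q)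
    (cP : IsCompact P) (cQ : IsCompact Q) : PushOff k (P ∪ Q) := by
  intro f hf ε hε
  obtain ⟨g₁, hg₁, hd₁, h0₁⟩ := hP f (hf.mono subset_union_left) (ε / 2) (by positivity)
  obtain ⟨δ, hδ, hδ'⟩ := exists_norm_lower cP hg₁ h0₁
  obtain ⟨H₁, cH₁, eH₁, bH₁⟩ := tietze_small cP (h := fun x => g₁ x - f x)
    (hg₁.sub (hf.mono subset_union_left)) (ε := ε / 2) (by positivity)
    (fun x hx => by rw [← dist_eq_norm]; exact hd₁ x hx)
  have hf₁ : ContinuousOn (fun x => f x + H₁ x) (P ∪ Q) := hf.add cH₁.continuousOn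
  have hε' : 0 < min (ε / 2) (δ / 2) := by positivity
  obtain ⟨g₂, hg₂, hd₂, h0₂⟩ := hQ (fun x => f x + H₁ x) (hf₁.mono subset_union_right)
    (min (ε / 2) (δ / 2)) hε'
  obtain ⟨H₂, cH₂, eH₂, bH₂⟩ := tietze_small cQ (h := fun x => g₂ x - (f x + H₁ x))
    (hg₂.sub (hf₁.mono subset_union_right)) hε'
    (fun x hx => by rw [← dist_eq_norm]; exact hd₂ x hx)
  refine ⟨fun x => f x + H₁ x + H₂ x, hf₁.add cH₂.continuousOn, ?_, ?_⟩
  · intro x _
    have e : f x + H₁ x + H₂ x - f x = H₁ x + H₂ x := by abel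
    rw [dist_eq_norm, e]
    have h1 := bH₁ x
    have h2 := (bH₂ x).trans_le (min_le_left _ _)
    linarith [norm_add_le (H₁ x) (H₂ x)]
  · intro x hx
    by_cases hq : x ∈ Q
    · have e : f x + H₁ x + H₂ x = g₂ x := by
        rw [eH₂ hq]; simp
      show f x + H₁ x + H₂ x ≠ 0
      rw [e]; exact h0₂ x hq
    · have hp : x ∈ P := hx.resolve_right hq
      have e : f x + H₁ x = g₁ x := by rw [eH₁ hp]; simp
      intro h
      have h : f x + H₁ x + H₂ x = 0 := h
      rw [e] at h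
      have h2 := (bH₂ x).trans_le (min_le_right _ _)
      have h3 := hδ' x hp
      have h4 : g₁ x = -H₂ x := eq_neg_of_add_eq_zero_left h
      rw [h4, norm_neg] at h3
      linarith

lemma PushOff.empty {k : ℕ} : PushOff k (∅ : Set α) := by
  intro f _ ε _
  exact ⟨f, continuousOn_empty _, by simp, by simp⟩

lemma PushOff.biUnion {k : ℕ} {ι : Type*} (s : Finset ι) {P : ι → Set α}
    (hP : ∀ i ∈ s, PushOff k (P i)) (cP : ∀ i ∈ s, IsCompact (P i)) :
    PushOff k (⋃ i ∈ s, P i) := by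
  classical
  induction s using Finset.induction_on with
  | empty => simpa using PushOff.empty
  | insert a s ha ih =>
    rw [Finset.set_biUnion_insert]
    apply PushOff.union (hP a (Finset.mem_insert_self _ _))
      (ih (fun i hi => hP i (Finset.mem_insert_of_mem hi))
        (fun i hi => cP i (Finset.mem_insert_of_mem hi)))
      (cP a (Finset.mem_insert_self _ _))
    exact s.isCompact_biUnion fun i hi => cP i (Finset.mem_insert_of_mem hi)

lemma PushOff.iUnion {k : ℕ} {ι : Type*} [Finite ι] {P : ι → Set α}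
    (hP : ∀ i, PushOff k (P i)) (cP : ∀ i, IsCompact (P i)) : PushOff k (⋃ i, P i) := by
  classical
  have := Fintype.ofFinite ι
  have := PushOff.biUnion (Finset.univ : Finset ι) (fun i _ => hP i) (fun i _ => cP i)
  simpa using this

/-- If `P` can be mapped by arbitrarily small maps into sets with `PushOff k`, it has it itself. -/
lemma PushOff.of_maps {k : ℕ} {P : Set α} (cP : IsCompact P)
    (h : ∀ ε > 0, ∃ (T : Set α) (r : α → α), PushOff k T ∧ ContinuousOn r P ∧ MapsTo r P T ∧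
      ∀ x ∈ P, dist (r x) x < ε) : PushOff k P := by
  intro f hf ε hε
  obtain ⟨F, hF, hFe⟩ := tietze cP.isClosed hf
  have huc := cP.uniformContinuousAt_of_continuousAt F (fun a _ => hF.continuousAt)
    (Metric.dist_mem_uniformity (half_pos hε))
  rw [Metric.mem_uniformity_dist] at huc
  obtain ⟨δ, hδ, hδ'⟩ := huc
  obtain ⟨T, r, hT, hr, hrT, hrd⟩ := h δ hδ
  obtain ⟨g, hg, hgd, hg0⟩ := hT F hF.continuousOn (ε / 2) (half_pos hε)
  refine ⟨fun x => g (r x), hg.comp hr hrT, fun x hx => ?_, fun x hx => hg0 _ (hrT hx)⟩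
  have h1 := hgd (r x) (hrT hx)
  have h2 : dist (F x) (F (r x)) < ε / 2 := by
    have := hδ' (a := x) (b := r x) (by rw [dist_comm]; exact hrd x hx) hx
    simpa using this
  rw [← hFe hx]
  calc dist (g (r x)) (F x) ≤ dist (g (r x)) (F (r x)) + dist (F (r x)) (F x) :=
        dist_triangle _ _ _
    _ < ε / 2 + ε / 2 := by
        apply add_lt_add h1
        rw [dist_comm]; exact h2
    _ = ε := by ring

/-- Compact subsets of a space of dimension at most `k`. -/
lemma pushOff_of_finrank {k : ℕ} {F : Type*} [NormedAddCommGroup F] [NormedSpace ℝ F]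
    [FiniteDimensional ℝ F] (hk : Module.finrank ℝ F ≤ k) {K : Set F} (hK : IsCompact K) :
    PushOff k K := by
  intro f hf ε hε
  obtain ⟨f₁, hf₁, he⟩ := tietze hK.isClosed hf
  have hd := ContinuousMap.dense_setOfPred_contDiff (E := F) (F := Fin (k + 1) → ℝ) ⟨f₁, hf₁⟩
  rw [mem_closure_iff_nhds_basis
    (nhds_basis_uniformity uniformity_basis_dist.compactConvergenceUniformity)] at hd
  obtain ⟨G, hG, hGd⟩ := hd ⟨K, ε / 2⟩ ⟨hK, half_pos hε⟩
  have hG' : ContDiff ℝ 1 (G : F → Fin (k + 1) → ℝ) := by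
    have : ContDiff ℝ (↑(⊤ : ℕ∞)) (G : F → Fin (k + 1) → ℝ) := hG
    exact this.of_le (by exact_mod_cast le_top)
  have hdense := hG'.dense_compl_range_of_finrank_lt_finrank (by
    rw [Module.finrank_fin_fun]; omega)
  obtain ⟨v, hv, hvn⟩ := hdense.exists_dist_lt (0 : Fin (k + 1) → ℝ) (half_pos hε)
  refine ⟨fun x => G x - v, (G.continuous.sub continuous_const).continuousOn, ?_, ?_⟩
  · intro x hx
    have h1 := hGd x hx
    have h1' : dist (G x) (f₁ x) < ε / 2 := by
      simpa using h1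
    rw [← he hx]
    have h2 : dist (G x - v) (G x) < ε / 2 := by
      rw [dist_eq_norm]
      have : G x - v - G x = -v := by abel
      rw [this, norm_neg]
      simpa [dist_eq_norm] using hvn
    calc dist (G x - v) (f₁ x) ≤ dist (G x - v) (G x) + dist (G x) (f₁ x) := dist_triangle _ _ _
      _ < ε / 2 + ε / 2 := add_lt_add h2 h1'
      _ = ε := by ring
  · intro x _ h
    exact hv ⟨x, sub_eq_zero.1 h⟩

/-- Homeomorphic images. -/
lemma PushOff.image {k : ℕ} {K : Set β} (hK : PushOff k K) (cK : IsCompact K) {φ : β → α}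
    (hφ : ContinuousOn φ K) (hi : InjOn φ K) : PushOff k (φ '' K) := by
  intro f hf ε hε
  obtain ⟨g, hg, hgd, hg0⟩ := hK (fun x => f (φ x)) (hf.comp hφ (mapsTo_image _ _)) ε hε
  have : CompactSpace K := isCompact_iff_compactSpace.1 cK
  have hemb : IsClosedEmbedding (K.domRestrict φ) := by
    apply Continuous.isClosedEmbedding hφ.domRestrict
    exact hi.injective
  obtain ⟨G, hG⟩ := ContinuousMap.exists_extension' hemb
    (⟨K.domRestrict g, hg.domRestrict⟩ : C(K, Fin (k + 1) → ℝ))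
  have key : ∀ x ∈ K, G (φ x) = g x := by
    intro x hx
    exact congrFun hG ⟨x, hx⟩
  refine ⟨G, G.continuous.continuousOn, ?_, ?_⟩
  · rintro _ ⟨x, hx, rfl⟩
    rw [key x hx]
    exact hgd x hx
  · rintro _ ⟨x, hx, rfl⟩
    rw [key x hx]
    exact hg0 x hx

end Pool.Agent.Work.MP_017613_gt
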