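import Pool.Agent.Work.MP_017613_gt.ZSet
import Pool.Agent.Work.MP_017613_gt.PushOff
import Pool.Agent.Work.MP_017613_gt.Kit.Defs

/-!
The predicate `Men k N`: the compact metric space `N` is a `k`-dimensional Menger manifold
(in the intrinsic form: dimension at most `k`, uniformly `LC^(k-1)`, Z-approximations of the
identity). The empty space is allowed.
-/

open Set Topology Metric

namespace Pool.Agent.Work.MP_017613_gt

/-- compact `k`-dimensional Menger manifolds, intrinsic form -/
def Men (k : ℕ) (N : Type) [MetricSpace N] [CompactSpace N] : Prop :=
  PushOff k (univ : Set N) ∧ MG.ULC k (univ : Set N) ∧ ZD N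

end Pool.Agent.Work.MP_017613_gt
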