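import Pool.Agent.Work.MP_017613_gt.TRel
import Pool.Agent.Work.MP_017613_gt.MenDef
import Pool.Agent.Work.MP_017613_gt.Gp
import Pool.Agent.Work.MP_017613_gt.Kit.Eq
import Pool.Agent.Work.MP_017613_gt.Kit.Domin

/-!
# The fields `trel`, `srel`, `collar` of `Chi.Theory` for `Men k`

Part F0: the lifting properties in type form (`TR.Lft`) and in set form (`MG.L`).
-/

set_option linter.unusedSectionVars false

open Set Topology Metric

namespace Pool.Agent.Work.MP_017613_gt

namespace ChiT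

open MG (IsMap Cu dCu)

section F0

variable {α β γ : Type} [MetricSpace α] [MetricSpace β] [MetricSpace γ]

/-- maps to a subset and maps to the subtype -/
theorem toSub {X : Set α} {A : Set γ} (hA : A.Nonempty) {F : γ → α} (hF : IsMap F A X) :
    ∃ F' : γ → X, IsMap F' A univ ∧ ∀ x ∈ A, (F' x : α) = F x := by
  classical
  obtain ⟨a, ha⟩ := hA
  let F' : γ → X := fun x => if h : F x ∈ X then ⟨F x, h⟩ else ⟨F a, hF.maps ha⟩
  have h1 : ∀ x ∈ A, (F' x : α) = F x := fun x hx => by
    simp only [F', dif_pos (hF.maps hx)]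
  refine ⟨F', ⟨?_, fun _ _ => mem_univ _⟩, h1⟩
  rw [IsInducing.subtypeVal.continuousOn_iff]
  exact hF.cont.congr h1

theorem ofSub {X : Set α} {A : Set γ} {F : γ → X} (hF : IsMap F A univ) :
    IsMap (fun x => (F x : α)) A X :=
  ⟨continuous_subtype_val.comp_continuousOn hF.cont, fun x _ => (F x).2⟩

/-- `ULC` of a subset and of the subtype -/
theorem ulc_sub {k : ℕ} {X : Set α} (h : MG.ULC k X) : MG.ULC k (univ : Set X) := by
  intro ε hε
  obtain ⟨δ, hδ, h⟩ := h ε hε
  refine ⟨δ, hδ, fun j hj y _ a ha hd => ?_⟩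
  obtain ⟨F, h1, h2, h3⟩ := h j hj y y.2 (fun x => (a x : α)) (ofSub ha) hd
  obtain ⟨F', h4, h5⟩ := toSub (MG.Cu_nonempty j) h1
  refine ⟨F', h4, fun x hx => ?_, fun x hx => ?_⟩
  · exact Subtype.ext ((h5 x (MG.dCu_subset j hx)).trans (h2 hx))
  · rw [Subtype.dist_eq, h5 x hx]
    exact h3 x hx

/-- from the cube of `unitInterval`s to the cube in `ℝ^j` -/
def inc {j : ℕ} (x : TR.Cb j) : Fin j → ℝ := fun i => x i

/-- the projection to the cube -/
noncomputable def prj {j : ℕ} (x : Fin j → ℝ) : TR.Cb j := fun i => projIcc 0 1 zero_le_one (x i)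

theorem continuous_inc {j : ℕ} : Continuous (inc (j := j)) :=
  continuous_pi fun i => continuous_subtype_val.comp (continuous_apply i)

theorem continuous_prj {j : ℕ} : Continuous (prj (j := j)) :=
  continuous_pi fun i => continuous_projIcc.comp (continuous_apply i)

theorem prj_inc {j : ℕ} (x : TR.Cb j) : prj (inc x) = x := by
  funext i
  exact projIcc_val zero_le_one (x i)

theorem inc_prj {j : ℕ} {x : Fin j → ℝ} (hx : x ∈ Cu j) : inc (prj x) = x := by
  funext i
  have h := MG.mem_Cu.1 hx i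
  exact congrArg Subtype.val (projIcc_of_mem zero_le_one (mem_Icc.2 h))

theorem inc_mem {j : ℕ} (x : TR.Cb j) : inc x ∈ Cu j := MG.mem_Cu.2 fun i => (x i).2

theorem inc_mem_bd {j : ℕ} {x : TR.Cb j} (hx : x ∈ TR.bd j) : inc x ∈ dCu j := by
  obtain ⟨i, hi⟩ := hx
  refine ⟨inc_mem x, i, ?_⟩
  rcases hi with hi | hi
  · left
    change ((x i : unitInterval) : ℝ) = 0
    rw [hi]; rfl
  · right
    change ((x i : unitInterval) : ℝ) = 1
    rw [hi]; rfl

theorem prj_mem_bd {j : ℕ} {x : Fin j → ℝ} (hx : x ∈ dCu j) : prj x ∈ TR.bd j := by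
  obtain ⟨h1, i, hi⟩ := hx
  refine ⟨i, ?_⟩
  have h2 := congrFun (inc_prj h1) i
  rcases hi with hi | hi
  · left
    apply Subtype.ext
    change inc (prj x) i = ((0 : unitInterval) : ℝ)
    rw [h2, hi]; rfl
  · right
    apply Subtype.ext
    change inc (prj x) i = ((1 : unitInterval) : ℝ)
    rw [h2, hi]; rfl

/-- the lifting property of `p : α → β` on the subset `D`, from sets to types -/
theorem lft_of_L {k : ℕ} [Nonempty α] {D : Set α} {X : Set β} {p : α → β} (p' : D → X)
    (hp : ∀ x : D, (p' x : β) = p x) {e : ℝ} (h : MG.L k p D X e) : TR.Lft k p' e := by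
  classical
  intro j hj f f0 hf0
  obtain ⟨a₀⟩ := ‹Nonempty α›
  let g0 : (Fin j → ℝ) → α := fun x => if h : prj x ∈ TR.bd j then (f0 ⟨prj x, h⟩ : α) else a₀
  have hg0 : ∀ x (hx : x ∈ dCu j), g0 x = f0 ⟨prj x, prj_mem_bd hx⟩ := fun x hx => by
    simp only [g0, dif_pos (prj_mem_bd hx)]
  have hg0m : IsMap g0 (dCu j) D := by
    refine ⟨?_, fun x hx => by rw [hg0 x hx]; exact Subtype.coe_prop _⟩
    rw [continuousOn_iff_continuous_domRestrict]
    have h1 : (dCu j).domRestrict g0 =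
        fun x : (dCu j) => (f0 ⟨prj (x : Fin j → ℝ), prj_mem_bd x.2⟩ : α) := by
      funext x
      exact hg0 x x.2
    rw [h1]
    exact continuous_subtype_val.comp (f0.continuous.comp
      ((continuous_prj.comp continuous_subtype_val).subtype_mk _))
  obtain ⟨F, h1, h2, h3⟩ := h j hj (fun x => (f (prj x) : β)) g0
    ⟨(continuous_subtype_val.comp (f.continuous.comp continuous_prj)).continuousOn,
      fun x _ => (f (prj x)).2⟩ hg0m (fun x hx => by
        rw [hg0 x hx, ← hp]
        exact congrArg Subtype.val (hf0 ⟨prj x, prj_mem_bd hx⟩))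
  refine ⟨⟨fun x => ⟨F (inc x), h1.maps (inc_mem x)⟩,
    (h1.cont.comp_continuous continuous_inc inc_mem).subtype_mk _⟩, fun x => ?_, fun x => ?_⟩
  · apply Subtype.ext
    change F (inc (x : TR.Cb j)) = f0 x
    rw [h2 (inc_mem_bd x.2), hg0 _ (inc_mem_bd x.2)]
    congr 2
    exact Subtype.ext (prj_inc _)
  · rw [Subtype.dist_eq, hp]
    change dist (p (F (inc x))) (f x) < e
    have := h3 (inc x) (inc_mem x)
    rwa [prj_inc] at this

/-- the lifting property of `p : α → β` on the subset `D`, from types to sets -/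
theorem L_of_lft {k : ℕ} {D : Set α} {X : Set β} {p : α → β} (p' : D → X)
    (hp : ∀ x : D, (p' x : β) = p x) {e : ℝ} (h : TR.Lft k p' e) : MG.L k p D X e := by
  classical
  intro j hj f f0 hf hf0 hff
  obtain ⟨F, h1, h2⟩ := h j hj ⟨fun x => ⟨f (inc x), hf.maps (inc_mem x)⟩,
    (hf.cont.comp_continuous continuous_inc inc_mem).subtype_mk _⟩
    ⟨fun x => ⟨f0 (inc (x : TR.Cb j)), hf0.maps (inc_mem_bd x.2)⟩,
      (hf0.cont.comp_continuous (continuous_inc.comp continuous_subtype_val)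
        fun x => inc_mem_bd x.2).subtype_mk _⟩ (fun x => by
        apply Subtype.ext
        rw [hp]
        exact hff _ (inc_mem_bd x.2))
  refine ⟨fun x => (F (prj x) : α), ⟨(continuous_subtype_val.comp
    (F.continuous.comp continuous_prj)).continuousOn, fun x _ => (F (prj x)).2⟩, fun x hx => ?_,
    fun x hx => ?_⟩
  · change (F (prj x) : α) = f0 x
    have h3 := congrArg Subtype.val (h1 ⟨prj x, prj_mem_bd hx⟩)
    change (F (prj x) : α) = f0 (inc (prj x)) at h3
    rw [h3, inc_prj (MG.dCu_subset j hx)]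
  · have h3 := h2 (prj x)
    rw [Subtype.dist_eq, hp] at h3
    change dist (p (F (prj x))) (f (inc (prj x))) < e at h3
    rwa [inc_prj hx] at h3

/-- the same for maps defined on a whole type -/
theorem lft_of_L_univ {k : ℕ} [Nonempty α] {X : Set β} {p : α → β} (p' : α → X)
    (hp : ∀ x, (p' x : β) = p x) {e : ℝ} (h : MG.L k p univ X e) : TR.Lft k p' e := by
  have h1 := lft_of_L (D := univ) (fun x => p' x) (fun x => hp x) h
  intro j hj f f0 hf0
  obtain ⟨F, h2, h3⟩ := h1 j hj f ⟨fun x => ⟨f0 x, mem_univ _⟩, f0.continuous.subtype_mk _⟩ hf0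
  exact ⟨⟨fun x => F x, by fun_prop⟩, fun x => congrArg Subtype.val (h2 x), h3⟩

theorem L_of_lft_univ {k : ℕ} {X : Set β} {p : α → β} (p' : α → X)
    (hp : ∀ x, (p' x : β) = p x) {e : ℝ} (h : TR.Lft k p' e) : MG.L k p univ X e := by
  refine L_of_lft (D := univ) (fun x => p' x) (fun x => hp x) ?_
  intro j hj f f0 hf0
  obtain ⟨F, h2, h3⟩ := h j hj f ⟨fun x => f0 x, by fun_prop⟩ hf0
  exact ⟨⟨fun x => ⟨F x, mem_univ _⟩, F.continuous.subtype_mk _⟩,
    fun x => Subtype.ext (h2 x), h3⟩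

/-- soft maps of compact sets, from sets to types -/
theorem lft_of_soft {k : ℕ} [Nonempty α] {D : Set α} {X : Set β} {p : α → β}
    (h : Chi.Soft k D X p) (p' : D → X) (hp : ∀ x : D, (p' x : β) = p x) {e : ℝ} (he : 0 < e) :
    TR.Lft k p' e := lft_of_L p' hp (MG.L_of_soft h he)

theorem lft_of_soft_univ {k : ℕ} [Nonempty α] {X : Set β} {p : α → β}
    (h : Chi.Soft k univ X p) (p' : α → X) (hp : ∀ x, (p' x : β) = p x) {e : ℝ} (he : 0 < e) :
    TR.Lft k p' e := lft_of_L_univ p' hp (MG.L_of_soft h he)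

/-- soft maps, from types to sets -/
theorem soft_of_lft_univ {k : ℕ} [CompactSpace α] {X : Set β} {p : α → β}
    (uα : MG.ULC k (univ : Set α)) (uX : MG.ULC k X) (cp : Continuous p) (p' : α → X)
    (hp : ∀ x, (p' x : β) = p x) (h : ∀ e > 0, TR.Lft k p' e) : Chi.Soft k univ X p :=
  MG.soft_of_L isCompact_univ uα uX ⟨cp.continuousOn, fun x _ => by rw [← hp]; exact (p' x).2⟩
    fun e he => L_of_lft_univ p' hp (h e he)

end F0

end ChiT

end Pool.Agent.Work.MP_017613_gt
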