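import Pool.Agent.Work.MP_017613_gt.Defs

/-!
The calculus of soft maps and of their classes modulo a subgroup `H` of the group of
homeomorphisms (block 8.5a of the Menger cell).

`Soft k g` : `g` is continuous and has the lifting property `Lft k g ε` for all `ε`.
`Eqv H u u'` : `u ∘ h` comes arbitrarily close to `u'` with `h ∈ H`.
`HIHyp k M H` : the three hypotheses (S0), (S1), (S2).
`S k H V` : the set of classes of soft maps `M → V`.
`push p hp : S k H V → S k H W` : the map given by composition with a soft map, a bijection.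
-/

open Set Topology Metric

universe u

namespace Pool.Agent.Work.MP_017613_gt.Cls

section Soft

variable {M V W : Type*} [MetricSpace M] [MetricSpace V] [MetricSpace W] {k : ℕ}

/-- Soft maps: continuous maps with the lifting property at every scale. -/
def Soft (k : ℕ) {M V : Type*} [MetricSpace M] [MetricSpace V] (g : M → V) : Prop :=
  Continuous g ∧ ∀ ε > 0, Lft k g ε

theorem Soft.comp [CompactSpace V] {p : V → W} {u : M → V} (hp : Soft k p) (hu : Soft k u) :
    Soft k (p ∘ u) := by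
  refine ⟨hp.1.comp hu.1, fun ε hε j hj f f₀ hf hf₀ hff => ?_⟩
  obtain ⟨F₁, hF₁, he₁, hd₁⟩ := hp.2 (ε / 2) (half_pos hε) j hj f (u ∘ f₀) hf
    (hu.1.comp_continuousOn hf₀) hff
  obtain ⟨δ, hδ, hpδ⟩ := Metric.uniformContinuous_iff.1
    (CompactSpace.uniformContinuous_of_continuous hp.1) (ε / 2) (half_pos hε)
  obtain ⟨F, hF, he, hd⟩ := hu.2 δ hδ j hj F₁ f₀ hF₁ hf₀ fun x hx => (he₁ hx).symm
  refine ⟨F, hF, he, fun x hx => ?_⟩
  calc dist ((p ∘ u) (F x)) (f x)
      ≤ dist (p (u (F x))) (p (F₁ x)) + dist (p (F₁ x)) (f x) := dist_triangle _ _ _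
    _ < ε / 2 + ε / 2 := add_lt_add (hpδ (hd x hx)) (hd₁ x hx)
    _ = ε := add_halves ε

theorem Soft.id : Soft k (fun x : M => x) := by
  refine ⟨continuous_id, fun ε hε j _ f f₀ hf _ hff => ⟨f, hf, fun x hx => (hff x hx).symm, ?_⟩⟩
  intro x _
  simpa using hε

/-- A homeomorphism is soft. -/
theorem Soft.homeo (h : M ≃ₜ V) : Soft k (fun x => h x) := by
  refine ⟨h.continuous, fun ε hε j _ f f₀ hf _ hff =>
    ⟨fun x => h.symm (f x), h.symm.continuous.comp_continuousOn hf, fun x hx => ?_, ?_⟩⟩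
  · show h.symm (f x) = f₀ x
    rw [← hff x hx, h.symm_apply_apply]
  · intro x _
    simpa using hε

/-- Composition with a homeomorphism of the source (no compactness). -/
theorem Soft.precomp {u : V → W} (hu : Soft k u) (h : M ≃ₜ V) : Soft k (fun x => u (h x)) := by
  refine ⟨hu.1.comp h.continuous, fun ε hε j hj f f₀ hf hf₀ hff => ?_⟩
  obtain ⟨F, hF, he, hd⟩ := hu.2 ε hε j hj f (fun x => h (f₀ x)) hf
    (h.continuous.comp_continuousOn hf₀) hff
  refine ⟨fun x => h.symm (F x), h.symm.continuous.comp_continuousOn hF, fun x hx => ?_,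
    fun x hx => ?_⟩
  · show h.symm (F x) = f₀ x
    rw [he hx, h.symm_apply_apply]
  · show dist (u (h (h.symm (F x)))) (f x) < ε
    rw [h.apply_symm_apply]
    exact hd x hx

/-- Composition with a homeomorphism of the target (no compactness). -/
theorem Soft.postcomp {u : M → V} (hu : Soft k u) [CompactSpace V] (h : V ≃ₜ W) :
    Soft k (fun x => h (u x)) := (Soft.homeo h).comp hu

/-- A soft map has dense range. -/
theorem Soft.denseRange [Nonempty M] {u : M → V} (hu : Soft k u) : DenseRange u := by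
  intro y
  rw [Metric.mem_closure_iff]
  intro ε hε
  obtain ⟨F, -, -, hd⟩ := hu.2 ε hε 0 (Nat.zero_le k) (fun _ => y)
    (fun _ => Classical.arbitrary M) continuousOn_const continuousOn_const
    (fun x hx => by obtain ⟨-, i, -⟩ := hx; exact i.elim0)
  refine ⟨_, ⟨F 0, rfl⟩, ?_⟩
  rw [dist_comm]
  exact hd 0 ⟨fun i => i.elim0, fun i => i.elim0⟩

/-- A soft map from a compact space is surjective. -/
theorem Soft.surjective [Nonempty M] [CompactSpace M] {u : M → V} (hu : Soft k u) :
    Function.Surjective u := by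
  intro y
  have h1 : IsClosed (range u) := (isCompact_range hu.1).isClosed
  have h2 := hu.denseRange y
  rwa [h1.closure_eq] at h2

end Soft

section Classes

variable {M : Type u} [MetricSpace M] {k : ℕ} {H : Subgroup (M ≃ₜ M)}
variable {V W Y : Type u} [MetricSpace V] [MetricSpace W] [MetricSpace Y]

/-- `u ∘ h` comes arbitrarily close to `u'` with `h ∈ H`. -/
def Eqv (H : Subgroup (M ≃ₜ M)) (u u' : M → V) : Prop :=
  ∀ ε > 0, ∃ h ∈ H, ∀ x, dist (u (h x)) (u' x) < ε

theorem Eqv.refl (u : M → V) : Eqv H u u := fun ε hε => ⟨1, H.one_mem, fun x => by simpa using hε⟩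

theorem Eqv.symm {u u' : M → V} (h : Eqv H u u') : Eqv H u' u := by
  intro ε hε
  obtain ⟨g, hg, hd⟩ := h ε hε
  refine ⟨g⁻¹, H.inv_mem hg, fun x => ?_⟩
  have := hd (g⁻¹ x)
  rw [dist_comm]
  rwa [Homeomorph.inv_apply, g.apply_symm_apply] at this

theorem Eqv.trans {u u' u'' : M → V} (h : Eqv H u u') (h' : Eqv H u' u'') : Eqv H u u'' := by
  intro ε hε
  obtain ⟨g, hg, hd⟩ := h (ε / 2) (half_pos hε)
  obtain ⟨g', hg', hd'⟩ := h' (ε / 2) (half_pos hε)
  refine ⟨g * g', H.mul_mem hg hg', fun x => ?_⟩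
  calc dist (u ((g * g') x)) (u'' x)
      ≤ dist (u (g (g' x))) (u' (g' x)) + dist (u' (g' x)) (u'' x) := dist_triangle _ _ _
    _ < ε / 2 + ε / 2 := add_lt_add (hd _) (hd' x)
    _ = ε := add_halves ε

/-- Elements of `H` do not change the class. -/
theorem Eqv.of_mem {h : M ≃ₜ M} (hh : h ∈ H) (u : M → V) : Eqv H u (fun x => u (h x)) :=
  fun ε hε => ⟨h, hh, fun x => by simpa using hε⟩

/-- Uniform limits of maps equivalent to `u`. -/
theorem Eqv.limit {u u' : M → V} (h : ∀ ε > 0, ∃ w, Eqv H u w ∧ ∀ x, dist (w x) (u' x) < ε) :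
    Eqv H u u' := by
  intro ε hε
  obtain ⟨w, hw, hd⟩ := h (ε / 2) (half_pos hε)
  obtain ⟨g, hg, hd'⟩ := hw (ε / 2) (half_pos hε)
  refine ⟨g, hg, fun x => ?_⟩
  calc dist (u (g x)) (u' x) ≤ dist (u (g x)) (w x) + dist (w x) (u' x) := dist_triangle _ _ _
    _ < ε / 2 + ε / 2 := add_lt_add (hd' x) (hd x)
    _ = ε := add_halves ε

/-- Composition with a map of the target. -/
theorem Eqv.push [CompactSpace V] {u u' : M → V} (h : Eqv H u u') {p : V → W}
    (hp : Continuous p) : Eqv H (p ∘ u) (p ∘ u') := by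
  intro ε hε
  obtain ⟨δ, hδ, hpδ⟩ := Metric.uniformContinuous_iff.1
    (CompactSpace.uniformContinuous_of_continuous hp) ε hε
  obtain ⟨g, hg, hd⟩ := h δ hδ
  exact ⟨g, hg, fun x => hpδ (hd x)⟩

/-- Composition with a homeomorphism of the source which normalizes `H`. -/
theorem Eqv.precomp {u u' : M → V} (h : Eqv H u u') (g : M ≃ₜ M)
    (hg : ∀ h ∈ H, g⁻¹ * h * g ∈ H) : Eqv H (fun x => u (g x)) (fun x => u' (g x)) := by
  intro ε hε
  obtain ⟨h', hh', hd⟩ := h ε hε
  refine ⟨g⁻¹ * h' * g, hg h' hh', fun x => ?_⟩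
  have := hd (g x)
  simpa [Homeomorph.mul_apply, Homeomorph.inv_apply] using this

/-- The hypotheses (S0), (S1), (S2) of the block (HI). -/
structure HIHyp (k : ℕ) (M : Type u) [MetricSpace M] (H : Subgroup (M ≃ₜ M)) : Prop where
  s0 : ∀ (V : Type u) [MetricSpace V] [CompactSpace V], ULC k V → ∀ u u' : M → V, Soft k u →
    Soft k u' → ∀ ε > 0, ∃ h : M ≃ₜ M, ∀ x, dist (u (h x)) (u' x) < ε
  s1 : ∀ (V : Type u) [MetricSpace V] [CompactSpace V], ULC k V → ∃ δ > 0, ∀ u : M → V,
    Soft k u → ∀ h : M ≃ₜ M, (∀ x, dist (u (h x)) (u x) < δ) → h ∈ H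
  s2 : ∀ (V W : Type u) [MetricSpace V] [CompactSpace V] [MetricSpace W] [CompactSpace W],
    ULC k V → ULC k W → ∀ (p : V → W) (w : M → W), Soft k p → Soft k w → ∀ ε > 0,
    ∃ u : M → V, Soft k u ∧ ∀ x, dist (p (u x)) (w x) < ε

section

variable [CompactSpace V] [CompactSpace W]

/-- Close soft maps are equivalent. -/
theorem HIHyp.close (hyp : HIHyp k M H) (hV : ULC k V) : ∃ η > 0, ∀ u u' : M → V, Soft k u →
    Soft k u' → (∀ x, dist (u x) (u' x) < η) → Eqv H u u' := by
  obtain ⟨δ, hδ, h1⟩ := hyp.s1 V hV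
  refine ⟨δ / 2, half_pos hδ, fun u u' hu hu' hd ε hε => ?_⟩
  obtain ⟨h, hh⟩ := hyp.s0 V hV u u' hu hu' (min ε (δ / 2)) (lt_min hε (half_pos hδ))
  refine ⟨h, h1 u hu h fun x => ?_, fun x => (hh x).trans_le (min_le_left _ _)⟩
  calc dist (u (h x)) (u x) ≤ dist (u (h x)) (u' x) + dist (u' x) (u x) := dist_triangle _ _ _
    _ < δ / 2 + δ / 2 := by
      refine add_lt_add ((hh x).trans_le (min_le_right _ _)) ?_
      rw [dist_comm]; exact hd x
    _ = δ := add_halves δ

/-- A homeomorphism which does not change the class of a soft map belongs to `H`. -/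
theorem HIHyp.mem_of_eqv (hyp : HIHyp k M H) (hV : ULC k V) {u : M → V} (hu : Soft k u)
    {f : M ≃ₜ M} (h : Eqv H u (fun x => u (f x))) : f ∈ H := by
  obtain ⟨δ, hδ, h1⟩ := hyp.s1 V hV
  obtain ⟨g, hg, hd⟩ := h δ hδ
  have h2 : g⁻¹ * f ∈ H := by
    refine h1 (fun x => u (g x)) (hu.precomp g) (g⁻¹ * f) fun x => ?_
    have := hd x
    rw [dist_comm]
    simpa [Homeomorph.mul_apply, Homeomorph.inv_apply] using this
  have h3 := H.mul_mem hg h2
  rwa [mul_inv_cancel_left] at h3

/-- Injectivity of the composition with a soft map. -/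
theorem HIHyp.of_push (hyp : HIHyp k M H) (hV : ULC k V) (hW : ULC k W) {p : V → W}
    (hp : Soft k p) {u u' : M → V} (hu : Soft k u) (hu' : Soft k u')
    (h : Eqv H (p ∘ u) (p ∘ u')) : Eqv H u u' := by
  obtain ⟨δ, hδ, h1⟩ := hyp.s1 W hW
  obtain ⟨g, hg, hd⟩ := h (δ / 2) (half_pos hδ)
  obtain ⟨ρ, hρ, hpρ⟩ := Metric.uniformContinuous_iff.1
    (CompactSpace.uniformContinuous_of_continuous hp.1) (δ / 2) (half_pos hδ)
  intro ε hε
  obtain ⟨f, hf⟩ := hyp.s0 V hV u u' hu hu' (min ε ρ) (lt_min hε hρ)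
  refine ⟨f, ?_, fun x => (hf x).trans_le (min_le_left _ _)⟩
  have h2 : g⁻¹ * f ∈ H := by
    refine h1 (fun x => (p ∘ u) (g x)) ((hp.comp hu).precomp g) (g⁻¹ * f) fun x => ?_
    have h3 : dist (p (u (f x))) (p (u' x)) < δ / 2 := hpρ ((hf x).trans_le (min_le_right _ _))
    have h4 : dist (p (u (g x))) (p (u' x)) < δ / 2 := hd x
    have h5 : (p ∘ u) (g ((g⁻¹ * f) x)) = p (u (f x)) := by
      simp [Homeomorph.mul_apply, Homeomorph.inv_apply]
    rw [h5]
    calc dist (p (u (f x))) ((p ∘ u) (g x))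
        ≤ dist (p (u (f x))) (p (u' x)) + dist (p (u' x)) (p (u (g x))) := dist_triangle _ _ _
      _ < δ / 2 + δ / 2 := by
        refine add_lt_add h3 ?_
        rw [dist_comm]; exact h4
      _ = δ := add_halves δ
  have h6 := H.mul_mem hg h2
  rwa [mul_inv_cancel_left] at h6

/-- Surjectivity of the composition with a soft map, with control. -/
theorem HIHyp.exists_push (hyp : HIHyp k M H) (hV : ULC k V) (hW : ULC k W) {p : V → W}
    (hp : Soft k p) {w : M → W} (hw : Soft k w) {ε : ℝ} (hε : 0 < ε) :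
    ∃ u : M → V, Soft k u ∧ Eqv H (p ∘ u) w ∧ ∀ x, dist (p (u x)) (w x) < ε := by
  obtain ⟨η, hη, h1⟩ := hyp.close (V := W) hW
  obtain ⟨u, hu, hd⟩ := hyp.s2 V W hV hW p w hp hw (min ε η) (lt_min hε hη)
  exact ⟨u, hu, h1 _ _ (hp.comp hu) hw fun x => (hd x).trans_le (min_le_right _ _),
    fun x => (hd x).trans_le (min_le_left _ _)⟩

end

/-! ### The set of classes -/

/-- The equivalence relation on the soft maps. -/
def stp (k : ℕ) (H : Subgroup (M ≃ₜ M)) (V : Type u) [MetricSpace V] :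
    Setoid {u : M → V // Soft k u} where
  r u u' := Eqv H u.1 u'.1
  iseqv := ⟨fun u => Eqv.refl u.1, fun h => h.symm, fun h h' => h.trans h'⟩

/-- The set of classes of soft maps. -/
def S (k : ℕ) (H : Subgroup (M ≃ₜ M)) (V : Type u) [MetricSpace V] : Type u :=
  Quotient (stp k H V)

/-- The class of a soft map. -/
def cls (H : Subgroup (M ≃ₜ M)) (u : M → V) (hu : Soft k u) : S k H V :=
  Quotient.mk (stp k H V) ⟨u, hu⟩

theorem cls_eq_iff {u u' : M → V} {hu : Soft k u} {hu' : Soft k u'} :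
    cls H u hu = cls H u' hu' ↔ Eqv H u u' := Quotient.eq (r := stp k H V)

theorem exists_rep (γ : S k H V) : ∃ (u : M → V) (hu : Soft k u), cls H u hu = γ := by
  obtain ⟨⟨u, hu⟩, rfl⟩ := Quotient.exists_rep γ
  exact ⟨u, hu, rfl⟩

section

variable [CompactSpace V] [CompactSpace W]

/-- Composition with a soft map, on classes. -/
def push (p : V → W) (hp : Soft k p) : S k H V → S k H W :=
  Quotient.map' (s₁ := stp k H V) (s₂ := stp k H W) (fun u => ⟨p ∘ u.1, hp.comp u.2⟩)
    fun _ _ h => Eqv.push h hp.1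

omit [CompactSpace W] in
@[simp] theorem push_cls (p : V → W) (hp : Soft k p) (u : M → V) (hu : Soft k u) :
    push p hp (cls H u hu) = cls H (p ∘ u) (hp.comp hu) := rfl

theorem push_comp (p : V → W) (hp : Soft k p) (q : W → Y) (hq : Soft k q) (γ : S k H V) :
    push q hq (push p hp γ) = push (q ∘ p) (hq.comp hp) γ := by
  obtain ⟨u, hu, rfl⟩ := exists_rep γ
  rfl

omit [CompactSpace W] in
theorem push_congr {p p' : V → W} (h : ∀ x, p x = p' x) (hp : Soft k p) (hp' : Soft k p')
    (γ : S k H V) : push p hp γ = push p' hp' γ := by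
  have : p = p' := funext h
  subst this
  rfl

theorem push_id (γ : S k H V) : push (fun x : V => x) Soft.id γ = γ := by
  obtain ⟨u, hu, rfl⟩ := exists_rep γ
  rfl

theorem push_injective (hyp : HIHyp k M H) (hV : ULC k V) (hW : ULC k W) (p : V → W)
    (hp : Soft k p) : Function.Injective (push (H := H) p hp) := by
  intro γ γ' h
  obtain ⟨u, hu, rfl⟩ := exists_rep γ
  obtain ⟨u', hu', rfl⟩ := exists_rep γ'
  rw [push_cls, push_cls, cls_eq_iff] at h
  exact cls_eq_iff.2 (hyp.of_push hV hW hp hu hu' h)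

theorem push_surjective (hyp : HIHyp k M H) (hV : ULC k V) (hW : ULC k W) (p : V → W)
    (hp : Soft k p) : Function.Surjective (push (H := H) p hp) := by
  intro γ
  obtain ⟨w, hw, rfl⟩ := exists_rep γ
  obtain ⟨u, hu, h, -⟩ := hyp.exists_push hV hW hp hw one_pos
  exact ⟨cls H u hu, by rw [push_cls, cls_eq_iff]; exact h⟩

/-- The bijection given by a soft map. -/
noncomputable def pushE (hyp : HIHyp k M H) (hV : ULC k V) (hW : ULC k W) (p : V → W)
    (hp : Soft k p) : S k H V ≃ S k H W :=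
  Equiv.ofBijective (push p hp) ⟨push_injective hyp hV hW p hp, push_surjective hyp hV hW p hp⟩

@[simp] theorem pushE_apply (hyp : HIHyp k M H) (hV : ULC k V) (hW : ULC k W) (p : V → W)
    (hp : Soft k p) (γ : S k H V) : pushE hyp hV hW p hp γ = push p hp γ := rfl

/-- Representatives of a class with prescribed approximate image. -/
theorem exists_rep_near (hyp : HIHyp k M H) (hV : ULC k V) (hW : ULC k W) {p : V → W}
    (hp : Soft k p) (γ : S k H V) {w : M → W} {hw : Soft k w} (h : push p hp γ = cls H w hw)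
    {ε : ℝ} (hε : 0 < ε) :
    ∃ (u : M → V) (hu : Soft k u), cls H u hu = γ ∧ ∀ x, dist (p (u x)) (w x) < ε := by
  obtain ⟨u, hu, he, hd⟩ := hyp.exists_push hV hW hp hw hε
  refine ⟨u, hu, push_injective hyp hV hW p hp ?_, hd⟩
  rw [push_cls, h, cls_eq_iff]
  exact he

/-- Close soft maps act equally on classes. -/
theorem push_close (hyp : HIHyp k M H) (hW : ULC k W) : ∃ η > 0, ∀ (V : Type u)
    [MetricSpace V] [CompactSpace V] (p p' : V → W) (hp : Soft k p) (hp' : Soft k p'),
    (∀ x, dist (p x) (p' x) < η) → ∀ γ : S k H V, push p hp γ = push p' hp' γ := by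
  obtain ⟨η, hη, h1⟩ := hyp.close (V := W) hW
  refine ⟨η, hη, fun V _ _ p p' hp hp' hd γ => ?_⟩
  obtain ⟨u, hu, rfl⟩ := exists_rep γ
  rw [push_cls, push_cls, cls_eq_iff]
  exact h1 _ _ (hp.comp hu) (hp'.comp hu) fun x => hd (u x)

/-- Close soft maps from `M` have the same class. -/
theorem cls_close (hyp : HIHyp k M H) (hW : ULC k W) : ∃ η > 0, ∀ (u u' : M → W)
    (hu : Soft k u) (hu' : Soft k u'), (∀ x, dist (u x) (u' x) < η) →
    cls H u hu = cls H u' hu' := by
  obtain ⟨η, hη, h1⟩ := hyp.close (V := W) hW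
  exact ⟨η, hη, fun u u' hu hu' hd => cls_eq_iff.2 (h1 u u' hu hu' hd)⟩

/-- A path (more generally a family over a preconnected space) of soft maps acts constantly on
classes. -/
theorem push_path (hyp : HIHyp k M H) (hW : ULC k W) {T : Type*} [TopologicalSpace T]
    [PreconnectedSpace T] {P : T → V → W} (hP : Continuous fun z : T × V => P z.1 z.2)
    (hs : ∀ t, Soft k (P t)) (t t' : T) (γ : S k H V) :
    push (P t) (hs t) γ = push (P t') (hs t') γ := by
  obtain ⟨η, hη, h1⟩ := push_close (H := H) hyp hW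
  let F : T → C(V, W) := fun t => ⟨P t, hP.comp (by fun_prop : Continuous fun x : V => (t, x))⟩
  have hF : Continuous F := by
    have := (ContinuousMap.curry ⟨fun z : T × V => P z.1 z.2, hP⟩).continuous
    exact this
  have hloc : IsLocallyConstant fun t => push (P t) (hs t) γ := by
    rw [IsLocallyConstant.iff_eventually_eq]
    intro s
    have h2 : ∀ᶠ t in 𝓝 s, dist (F t) (F s) < η := hF.continuousAt (Metric.ball_mem_nhds _ hη)
    filter_upwards [h2] with t ht
    exact h1 V _ _ (hs t) (hs s) (fun x => (ContinuousMap.dist_apply_le_dist x).trans_lt ht) γ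
  exact hloc.apply_eq_of_preconnectedSpace t t'

/-- A family of soft maps from a compact `M` over a preconnected space has constant class. -/
theorem cls_path [CompactSpace M] (hyp : HIHyp k M H) (hW : ULC k W) {T : Type*}
    [TopologicalSpace T] [PreconnectedSpace T] {P : T → M → W}
    (hP : Continuous fun z : T × M => P z.1 z.2) (hs : ∀ t, Soft k (P t)) (t t' : T) :
    cls H (P t) (hs t) = cls H (P t') (hs t') := by
  obtain ⟨η, hη, h1⟩ := cls_close (H := H) hyp hW
  let F : T → C(M, W) := fun t => ⟨P t, hP.comp (by fun_prop : Continuous fun x : M => (t, x))⟩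
  have hF : Continuous F := by
    have := (ContinuousMap.curry ⟨fun z : T × M => P z.1 z.2, hP⟩).continuous
    exact this
  have hloc : IsLocallyConstant fun t => cls H (P t) (hs t) := by
    rw [IsLocallyConstant.iff_eventually_eq]
    intro s
    have h2 : ∀ᶠ t in 𝓝 s, dist (F t) (F s) < η := hF.continuousAt (Metric.ball_mem_nhds _ hη)
    filter_upwards [h2] with t ht
    exact h1 _ _ (hs t) (hs s) fun x => (ContinuousMap.dist_apply_le_dist x).trans_lt ht
  exact hloc.apply_eq_of_preconnectedSpace t t'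

end

end Classes

end Pool.Agent.Work.MP_017613_gt.Cls
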