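import Pool.Agent.Work.MP_017613_gt.RndC
import Pool.Agent.Work.MP_017613_gt.Ball

/-!
Collars in place: a Menger manifold `A`, a Z-set of the Menger manifold `Q`, has an arbitrarily
small collar in `Q`.
-/

set_option linter.unusedSectionVars false

open Set Topology Metric

namespace Pool.Agent.Work.MP_017613_gt

namespace Rnd

open Chi

variable {k : ℕ}

/-- two-sided collars: `A` is embedded twice as a Z-set, with one soft retraction -/
def Collar2 (k : ℕ) (Men : ∀ (N : Type) [MetricSpace N] [CompactSpace N], Prop) : Prop :=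
  ∀ (A : Type) [MetricSpace A] [CompactSpace A], Men A →
    ∃ (C : Type) (_ : MetricSpace C) (_ : CompactSpace C) (i₀ i₁ : A → C) (r : C → A),
      Men C ∧ Continuous i₀ ∧ Continuous i₁ ∧ ZS (range i₀) ∧ ZS (range i₁) ∧
      (∀ x y, i₀ x ≠ i₁ y) ∧ Soft k univ univ r ∧ (∀ x, r (i₀ x) = x) ∧ ∀ x, r (i₁ x) = x

/-- a soft map to a subtype, as a map to the set -/
theorem soft_val {α β : Type} [MetricSpace α] [MetricSpace β] {D : Set α} {A : Set β} {r : α → A}
    (h : Soft k D univ r) : Soft k D A (fun x => (r x : β)) := by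
  classical
  refine ⟨continuous_subtype_val.comp_continuousOn h.1, fun x _ => (r x).2, ?_⟩
  intro γ _ P S hT f f₀ cf mf cf₀ mf₀ hf ε hε
  rcases P.eq_empty_or_nonempty with rfl | ⟨x₀, hx₀⟩
  · exact ⟨f₀, continuousOn_empty _, fun x hx => hx.elim, fun x hx => rfl, fun x hx => hx.elim⟩
  let f' : γ → A := fun x => if hx : x ∈ P then ⟨f x, mf hx⟩ else ⟨f x₀, mf hx₀⟩
  have hf' : ∀ x ∈ P, (f' x : β) = f x := fun x hx => by
    simp only [f', dif_pos hx]
  obtain ⟨F, h1, h2, h3, h4⟩ := h.2.2 γ P S hT f' f₀ (by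
    rw [continuousOn_iff_continuous_domRestrict] at cf ⊢
    rw [show P.domRestrict f' = fun x : P => (⟨f x, mf x.2⟩ : A) by
      funext x
      exact Subtype.ext (hf' x x.2)]
    exact cf.subtype_mk _) (fun x _ => mem_univ _) cf₀ mf₀ (fun x hx => Subtype.ext (by
      rw [hf' x (hT.sub hx)]
      exact hf x hx)) ε hε
  refine ⟨F, h1, h2, h3, fun x hx => ?_⟩
  have := h4 x hx
  rw [Subtype.dist_eq, hf' x hx] at this
  exact this

/-- **COL**: collars in place. -/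
theorem collar_place {Q : Type} [MetricSpace Q] [CompactSpace Q] (mQ : Men k Q)
    (hC : Collar2 k (Men k)) (hT : Ball.TRel k (Men k) Q) {A : Set Q} (zA : ZS A) (mA : MenS k A)
    {e : ℝ} (he : 0 < e) :
    ∃ (T R : Set Q) (r : Q → Q), MenS k T ∧ MenS k R ∧ T ∪ R = univ ∧ ZIn A T ∧ Disjoint A R ∧
      MenS k (T ∩ R) ∧ ZIn (T ∩ R) T ∧ ZIn (T ∩ R) R ∧ T ⊆ thickening e A ∧
      Soft k T A r ∧ (∀ x ∈ A, r x = x) ∧ (∀ x ∈ T, dist (r x) x < e) ∧ Hom (T ∩ R) A r := by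
  classical
  have : CompactSpace A := isCompact_iff_compactSpace.1 mA.cpt
  obtain ⟨C, _, _, i₀, i₁, r, mC, c0, c1, z0, z1, h01, sr, r0, r1⟩ := hC A mA.men
  have inj0 : Function.Injective i₀ := fun x y h => by rw [← r0 x, h, r0]
  have inj1 : Function.Injective i₁ := fun x y h => by rw [← r1 x, h, r1]
  obtain ⟨D, _, _, J, χ, c, mD, cJ, iJ, cχ, iχ, hun, hJχ, sc, hcJ, hcχ, -, hZ⟩ :=
    attach mQ mC mA.men (j := (Subtype.val : A → Q)) continuous_subtype_val
      Subtype.val_injective (by rw [Subtype.range_coe]; exact zA) c1 inj1 z1 sr r1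
  obtain ⟨δ, hδ, HT⟩ := hT e he
  have zW : ZS (χ '' range i₀) := hZ _ z0 (disjoint_left.2 (by
    rintro _ ⟨x, rfl⟩ ⟨y, hy⟩
    exact h01 x y hy.symm))
  obtain ⟨g, hg⟩ := Ball.exists_homeo (⟨fun x => χ (i₀ x), cχ.comp c0⟩ : C(A, D))
    (⟨Subtype.val, continuous_subtype_val⟩ : C(A, Q)) (iχ.comp inj0) Subtype.val_injective
  obtain ⟨θ, t1, t2⟩ := HT D Q mD mQ c (fun x => x) sc Ball.soft_id _ _ (by
      have : range (⟨fun x => χ (i₀ x), cχ.comp c0⟩ : C(A, D)) = χ '' range i₀ := by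
        rw [← range_comp]
        rfl
      rw [this]
      exact zW) (by
      have : range (⟨Subtype.val, continuous_subtype_val⟩ : C(A, Q)) = A := Subtype.range_coe
      rw [this]
      exact zA) g (by
    rintro ⟨_, s, rfl⟩
    rw [hg s]
    change dist (s : Q) (c (χ (i₀ s))) < δ
    rw [hcχ, r0, dist_self]
    exact hδ)
  have hθ0 : ∀ a : A, θ (χ (i₀ a)) = a := fun a => (t1 ⟨_, mem_range_self a⟩).trans (hg a)
  have hθd : ∀ y, dist (θ (χ y)) (r y) < e := fun y => by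
    have := t2 (χ y)
    rw [hcχ] at this
    exact this
  have homχ : Hom (univ : Set C) (range fun y => θ (χ y)) (fun y => θ (χ y)) :=
    hom_univ (θ.continuous.comp cχ) (θ.injective.comp iχ)
  have homJ : Hom (univ : Set Q) (range fun y => θ (J y)) (fun y => θ (J y)) :=
    hom_univ (θ.continuous.comp cJ) (θ.injective.comp iJ)
  obtain ⟨u, hu, hu1, hu2⟩ := homχ.exists_inv isCompact_univ
    (nonempty_iff_univ_nonempty.1 mC.ne)
  set T : Set Q := range fun y => θ (χ y) with hTdef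
  set R : Set Q := range fun y => θ (J y) with hRdef
  have hA : (fun y => θ (χ y)) '' range i₀ = A := by
    ext x
    constructor
    · rintro ⟨_, ⟨a, rfl⟩, rfl⟩
      change θ (χ (i₀ a)) ∈ A
      rw [hθ0]
      exact a.2
    · intro hx
      exact ⟨_, ⟨⟨x, hx⟩, rfl⟩, hθ0 ⟨x, hx⟩⟩
  have hTR : (fun y => θ (χ y)) '' range i₁ = T ∩ R := by
    ext x
    constructor
    · rintro ⟨_, ⟨a, rfl⟩, rfl⟩
      refine ⟨mem_range_self _, a, ?_⟩
      exact congrArg θ ((hJχ _ _).2 ⟨a, rfl, rfl⟩)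
    · rintro ⟨⟨y, rfl⟩, q, hq⟩
      obtain ⟨z, h1, h2⟩ := (hJχ q y).1 (θ.injective hq)
      exact ⟨y, ⟨z, h2⟩, rfl⟩
  have hTR' : (fun y => θ (J y)) '' A = T ∩ R := by
    ext x
    constructor
    · rintro ⟨a, ha, rfl⟩
      refine ⟨⟨i₁ ⟨a, ha⟩, ?_⟩, mem_range_self _⟩
      exact congrArg θ ((hJχ _ _).2 ⟨⟨a, ha⟩, rfl, rfl⟩).symm
    · rintro ⟨⟨y, rfl⟩, q, hq⟩
      obtain ⟨z, h1, h2⟩ := (hJχ q y).1 (θ.injective hq)
      exact ⟨q, by rw [← h1]; exact z.2, hq⟩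
  have hr1 : ∀ a : A, r (u (θ (χ (i₁ a)))) = a := fun a => by
    rw [hu1 _ (mem_univ _), r1]
  refine ⟨T, R, fun x => (r (u x) : Q), mC.univ.image homχ, mQ.univ.image homJ, ?_, ?_, ?_, ?_,
    ?_, ?_, ?_, ?_, ?_, ?_, ?_⟩
  · have h1 : θ '' univ = univ := image_univ_of_surjective θ.surjective
    rw [← hun, image_union, ← range_comp, ← range_comp, union_comm] at h1
    exact h1
  · rw [← hA]
    exact (zin_univ.2 z0).image homχ isCompact_univ
  · rw [← hA]
    refine disjoint_left.2 ?_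
    rintro _ ⟨_, ⟨a, rfl⟩, rfl⟩ ⟨q, hq⟩
    obtain ⟨z, -, h2⟩ := (hJχ q _).1 (θ.injective hq)
    exact h01 a z h2.symm
  · rw [← hTR']
    exact mA.image (homJ.sub (subset_univ A))
  · rw [← hTR]
    exact (zin_univ.2 z1).image homχ isCompact_univ
  · rw [← hTR']
    exact (zin_univ.2 zA).image homJ isCompact_univ
  · rintro _ ⟨y, rfl⟩
    exact mem_thickening_iff.2 ⟨r y, (r y).2, hθd y⟩
  · exact soft_val (sr.precomp hu.cont (fun x _ => mem_univ _)
      homχ.cont (fun x _ => mem_range_self x) (fun x hx => hu2 x hx) (fun x hx => hu1 x hx))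
  · intro x hx
    have h1 := hθ0 ⟨x, hx⟩
    change (r (u x) : Q) = x
    have h2 : u x = i₀ ⟨x, hx⟩ := by
      rw [← hu1 (i₀ ⟨x, hx⟩) (mem_univ _), h1]
    rw [h2, r0]
  · rintro _ ⟨y, rfl⟩
    change dist (r (u (θ (χ y))) : Q) (θ (χ y)) < e
    rw [hu1 y (mem_univ _), dist_comm]
    exact hθd y
  · refine ⟨?_, ?_, ?_⟩
    · have h1 : ContinuousOn (fun x => r (u x)) T :=
        (continuousOn_univ.1 sr.1).comp_continuousOn hu.cont
      exact (continuous_subtype_val.comp_continuousOn h1).mono inter_subset_left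
    · rw [← hTR]
      rintro _ ⟨_, ⟨a, rfl⟩, rfl⟩ _ ⟨_, ⟨b, rfl⟩, rfl⟩ h
      have h1 : r (u (θ (χ (i₁ a)))) = r (u (θ (χ (i₁ b)))) := Subtype.ext h
      rw [hr1, hr1] at h1
      rw [h1]
    · rw [← hTR]
      ext x
      constructor
      · rintro ⟨_, ⟨_, ⟨a, rfl⟩, rfl⟩, rfl⟩
        exact (r _).2
      · intro hx
        refine ⟨_, ⟨_, ⟨⟨x, hx⟩, rfl⟩, rfl⟩, ?_⟩
        exact congrArg Subtype.val (hr1 ⟨x, hx⟩)

end Rnd

end Pool.Agent.Work.MP_017613_gt
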