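import Pool.Agent.Work.MP_017613_gt.Gp
import Pool.Agent.Work.MP_017613_gt.ChiGlue
import Pool.Agent.Work.MP_017613_gt.Gluing

/-!
Collars, part A: a Menger manifold `A` is a collar of itself: two disjoint Z-embeddings
`i₀, i₁ : A → A` close to the identity and a soft retraction which inverts both of them.
-/

set_option linter.unusedSectionVars false

open Set Topology Metric

namespace Pool.Agent.Work.MP_017613_gt

namespace Col

open Chi

/-- The properties of Menger manifolds used for collars. -/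
structure Base (k : ℕ) where
  /-- the class of compact Menger manifolds -/
  Men : ∀ (N : Type) [MetricSpace N] [CompactSpace N], Prop
  dim : ∀ (N : Type) [MetricSpace N] [CompactSpace N], Men N → PushOff k (univ : Set N)
  ane : ∀ (N : Type) [MetricSpace N] [CompactSpace N], Men N → ANE k (univ : Set N)
  zd : ∀ (N : Type) [MetricSpace N] [CompactSpace N], Men N → ZD N
  /-- the characterisation -/
  men : ∀ (N : Type) [MetricSpace N] [CompactSpace N], PushOff k (univ : Set N) →
    ANE k (univ : Set N) → ZD N → Men N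
  /-- T_REL: extension of homeomorphisms of Z-sets, controlled over `X` -/
  trel : ∀ (β : Type) [MetricSpace β] (X : Set β), IsCompact X → ANE k X → ∀ ε > 0, ∃ δ > 0,
    ∀ (N N' : Type) [MetricSpace N] [CompactSpace N] [MetricSpace N'] [CompactSpace N'],
    Men N → Men N' → ∀ (l : N → β) (l' : N' → β), Soft k univ X l → Soft k univ X l' →
    ∀ (W : Set N) (W' : Set N'), ZS W → ZS W' → ∀ g : W ≃ₜ W',
    (∀ x : W, dist (l' (g x)) (l x) < δ) →
    ∃ θ : N ≃ₜ N', (∀ x : W, θ x = g x) ∧ ∀ x, dist (l' (θ x)) (l x) < ε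
  /-- S_REL: lifting of soft maps through soft maps, relative to Z-sets -/
  srel : ∀ (β β' : Type) [MetricSpace β] [MetricSpace β'] (X : Set β) (B : Set β'),
    IsCompact X → IsCompact B → ANE k X → ANE k B → ∀ ε > 0, ∃ δ > 0, ∀ p : β → β', Soft k X B p →
    ∀ (N : Type) [MetricSpace N] [CompactSpace N], Men N → ∀ u : N → β', Soft k univ B u →
    ∀ W : Set N, ZS W → ∀ w₀ : N → β, ContinuousOn w₀ W → MapsTo w₀ W X →
    (∀ x ∈ W, dist (p (w₀ x)) (u x) < δ) →
    ∃ w : N → β, Soft k univ X w ∧ EqOn w w₀ W ∧ ∀ x, dist (p (w x)) (u x) < ε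

variable {k : ℕ}

/-- left inverse of an injective map of a compact space, on its range -/
theorem exists_inv {A B : Type*} [TopologicalSpace A] [CompactSpace A] [TopologicalSpace B]
    [T2Space B] (i : C(A, B)) (hi : Function.Injective i) (hne : Nonempty A) :
    ∃ j : B → A, (∀ x, j (i x) = x) ∧ ContinuousOn j (range i) := by
  classical
  refine ⟨Function.invFun i, Function.leftInverse_invFun hi, ?_⟩
  have he : IsClosedEmbedding i := i.continuous.isClosedEmbedding hi
  rw [continuousOn_iff_isClosed]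
  intro t ht
  refine ⟨i '' t, he.isClosedMap t ht, ?_⟩
  ext y
  constructor
  · rintro ⟨hy, x, rfl⟩
    refine ⟨⟨x, ?_, rfl⟩, mem_range_self x⟩
    have hy' : Function.invFun i (i x) ∈ t := hy
    rwa [Function.leftInverse_invFun hi] at hy'
  · rintro ⟨⟨x, hx, rfl⟩, -⟩
    refine ⟨?_, mem_range_self x⟩
    change Function.invFun i (i x) ∈ t
    rwa [Function.leftInverse_invFun hi]

/-- **Collar, abstract form.** -/
theorem col_self (B : Base k) {A : Type} [MetricSpace A] [CompactSpace A] (hA : B.Men A) {ε : ℝ}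
    (hε : 0 < ε) : ∃ (i₀ i₁ : C(A, A)) (r : A → A), (∀ x, dist (i₀ x) x < ε) ∧
      (∀ x, dist (i₁ x) x < ε) ∧ Function.Injective i₀ ∧ Function.Injective i₁ ∧
      ZS (range i₀) ∧ ZS (range i₁) ∧ (∀ x y, i₀ x ≠ i₁ y) ∧ Soft k univ univ r ∧
      (∀ x, r (i₀ x) = x) ∧ (∀ x, r (i₁ x) = x) ∧ ∀ x, dist (r x) x < ε := by
  classical
  rcases isEmpty_or_nonempty A with hE | hne
  · refine ⟨ContinuousMap.id A, ContinuousMap.id A, fun x => x, fun x => (hE.false x).elim,
      fun x => (hE.false x).elim, fun x => (hE.false x).elim, fun x => (hE.false x).elim, ?_, ?_,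
      fun x => (hE.false x).elim, Soft.refl univ, fun x => (hE.false x).elim,
      fun x => (hE.false x).elim, fun x => (hE.false x).elim⟩
    all_goals
      rw [show range (ContinuousMap.id A) = ∅ from range_eq_empty _]
      exact ZS.empty
  obtain ⟨δ, hδ, H⟩ := B.srel A A univ univ isCompact_univ isCompact_univ (B.ane A hA) (B.ane A hA)
    ε hε
  have hd : 0 < min δ ε := lt_min hδ hε
  obtain ⟨i₀, h1, -, h3, h4, -⟩ := gp (B.ane A hA) (B.zd A hA) (B.dim A hA) (P₀ := ∅)
    isClosed_empty (ContinuousMap.id A) (injOn_empty _) (by rw [image_empty]; exact ZS.empty)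
    (B := ∅) ZS.empty hd
  obtain ⟨i₁, h5, -, h7, h8, h9⟩ := gp (B.ane A hA) (B.zd A hA) (B.dim A hA) (P₀ := ∅)
    isClosed_empty (ContinuousMap.id A) (injOn_empty _) (by rw [image_empty]; exact ZS.empty)
    (B := range i₀) h4 hd
  have hdis : ∀ x y, i₀ x ≠ i₁ y := fun x y he => h9 y (notMem_empty y) ⟨x, he⟩
  obtain ⟨j₀, a1, a2⟩ := exists_inv i₀ h3 hne
  obtain ⟨j₁, b1, b2⟩ := exists_inv i₁ h7 hne
  let w₀ : A → A := fun x => if x ∈ range i₀ then j₀ x else j₁ x
  have e0 : EqOn w₀ j₀ (range i₀) := fun x hx => if_pos hx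
  have e1 : EqOn w₀ j₁ (range i₁) := by
    rintro _ ⟨y, rfl⟩
    exact if_neg fun ⟨x, hx⟩ => hdis x y hx
  obtain ⟨r, r1, r2, r3⟩ := H (fun x => x) (Soft.refl univ) A hA (fun x => x) (Soft.refl univ)
    (range i₀ ∪ range i₁) (h4.union h8) w₀
    ((a2.congr e0).union_of_isClosed (b2.congr e1) h4.1 h8.1) (fun x _ => mem_univ _) (by
      rintro x (⟨y, rfl⟩ | ⟨y, rfl⟩)
      · rw [e0 (mem_range_self y), a1, dist_comm]
        exact (h1 y).trans_le (min_le_left _ _)
      · rw [e1 (mem_range_self y), b1, dist_comm]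
        exact (h5 y).trans_le (min_le_left _ _))
  refine ⟨i₀, i₁, r, fun x => (h1 x).trans_le (min_le_right _ _),
    fun x => (h5 x).trans_le (min_le_right _ _), h3, h7, h4, h8, hdis, r1, fun x => ?_,
    fun x => ?_, r3⟩
  · rw [r2 (Or.inl (mem_range_self x)), e0 (mem_range_self x), a1]
  · rw [r2 (Or.inr (mem_range_self x)), e1 (mem_range_self x), b1]

end Col

end Pool.Agent.Work.MP_017613_gt
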