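import Pool.Agent.Work.MP_017613_gt.LocA
import Pool.Agent.Work.MP_017613_gt.RndA

/-!
# Menger manifolds are local, part B: set forms

* `MenS k P`: the subset `P` is a compact Menger manifold.
* `SChart R U P V f g`: the open subset `R ∩ U` of `R` is homeomorphic to the open subset `P ∩ V`
  of `P`.
* `menS_loc`, `menS_of_eq`: locality; `zin_loc`, `zin_of_eq`: locality of Z-sets.
-/

set_option linter.unusedSectionVars false

open Set Topology Metric

namespace Pool.Agent.Work.MP_017613_gt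

namespace Loc

open Rnd

/-- the subset `P` is a compact Menger manifold -/
def MenS (k : ℕ) {α : Type} [MetricSpace α] (P : Set α) : Prop :=
  ∃ _ : CompactSpace P, Men k P

variable {α β : Type} [MetricSpace α] [MetricSpace β] {k : ℕ}

theorem MenS.isCompact {P : Set α} (h : MenS k P) : IsCompact P :=
  isCompact_iff_compactSpace.2 h.1

theorem MenS.isClosed {P : Set α} (h : MenS k P) : IsClosed P := h.isCompact.isClosed

theorem MenS.men {P : Set α} [CompactSpace P] (h : MenS k P) : Men k P := h.2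

/-- homeomorphic images of Menger manifolds -/
theorem men_of_homeo {D N : Type} [MetricSpace D] [CompactSpace D] [MetricSpace N]
    [CompactSpace N] (θ : D ≃ₜ N) (hN : Men k N) : Men k D := by
  refine men_loc fun x => ⟨N, inferInstance, inferInstance, univ, θ, θ.symm, hN,
    ⟨isOpen_univ, ?_, θ.continuous.continuousOn, θ.symm.continuous.continuousOn,
      fun y _ => θ.symm_apply_apply y⟩, trivial⟩
  rw [image_univ, θ.surjective.range_eq]
  exact isOpen_univ

theorem menS_univ {N : Type} [MetricSpace N] [CompactSpace N] :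
    MenS k (univ : Set N) ↔ Men k N := by
  have : CompactSpace (univ : Set N) := isCompact_iff_compactSpace.1 isCompact_univ
  constructor
  · rintro ⟨_, h⟩
    exact men_of_homeo (Homeomorph.Set.univ N).symm h
  · exact fun h => ⟨this, men_of_homeo (Homeomorph.Set.univ N) h⟩

theorem MenS.of_homeo {P : Set α} {P' : Set β} (h : MenS k P) (θ : P ≃ₜ P') : MenS k P' := by
  obtain ⟨hc, h⟩ := h
  have : CompactSpace P' := θ.compactSpace
  exact ⟨this, men_of_homeo θ.symm h⟩

theorem MenS.image {P : Set α} {P' : Set β} {f : α → β} (h : MenS k P) (hf : Hom P P' f) :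
    MenS k P' := by
  obtain ⟨θ, -⟩ := hf.exists_homeo h.isCompact
  exact h.of_homeo θ

/-- a homeomorphism of the open subset `R ∩ U` of `R` with the open subset `P ∩ V` of `P` -/
structure SChart (R U : Set α) (P V : Set β) (f : α → β) (g : β → α) : Prop where
  opU : IsOpen U
  opV : IsOpen V
  cf : ContinuousOn f (R ∩ U)
  cg : ContinuousOn g (P ∩ V)
  mf : MapsTo f (R ∩ U) (P ∩ V)
  mg : MapsTo g (P ∩ V) (R ∩ U)
  gf : ∀ x ∈ R ∩ U, g (f x) = x
  fg : ∀ y ∈ P ∩ V, f (g y) = y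

theorem SChart.symm {R U : Set α} {P V : Set β} {f : α → β} {g : β → α}
    (h : SChart R U P V f g) : SChart P V R U g f :=
  ⟨h.opV, h.opU, h.cg, h.cf, h.mg, h.mf, h.fg, h.gf⟩

/-- the chart between subtypes -/
theorem SChart.chart {R U : Set α} {P V : Set β} {f : α → β} {g : β → α}
    (h : SChart R U P V f g) {x : α} (hx : x ∈ R ∩ U) :
    ∃ (e : R → P) (e' : P → R), Chart ((↑) ⁻¹' U) e e' ∧
      (∀ y : R, (y : α) ∈ U → (e y : β) = f y) ∧ e '' ((↑) ⁻¹' U) = (↑) ⁻¹' V := by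
  classical
  let e : R → P := fun y => if hy : f y ∈ P then ⟨f y, hy⟩ else ⟨f x, (h.mf hx).1⟩
  let e' : P → R := fun y => if hy : g y ∈ R then ⟨g y, hy⟩ else ⟨x, hx.1⟩
  have he : ∀ y : R, (y : α) ∈ U → (e y : β) = f y := fun y hy => by
    have h1 : f y ∈ P := (h.mf ⟨y.2, hy⟩).1
    simp only [e]
    rw [dif_pos h1]
  have he' : ∀ y : P, (y : β) ∈ V → (e' y : α) = g y := fun y hy => by
    have h1 : g y ∈ R := (h.mg ⟨y.2, hy⟩).1
    simp only [e']
    rw [dif_pos h1]
  have hV : e '' ((↑) ⁻¹' U) = (↑) ⁻¹' V := by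
    ext y
    constructor
    · rintro ⟨z, hz, rfl⟩
      show (e z : β) ∈ V
      rw [he z hz]
      exact (h.mf ⟨z.2, hz⟩).2
    · intro hy
      have hy' : (y : β) ∈ V := hy
      have h1 := h.mg ⟨y.2, hy'⟩
      refine ⟨⟨g y, h1.1⟩, h1.2, Subtype.ext ?_⟩
      rw [he _ h1.2]
      exact h.fg y ⟨y.2, hy'⟩
  refine ⟨e, e', ⟨h.opU.preimage continuous_subtype_val, ?_, ?_, ?_, ?_⟩, he, hV⟩
  · rw [hV]
    exact h.opV.preimage continuous_subtype_val
  · rw [IsInducing.subtypeVal.continuousOn_iff]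
    refine ContinuousOn.congr (f := fun y : R => f y) ?_ fun y hy => he y hy
    exact h.cf.comp continuous_subtype_val.continuousOn fun y hy => ⟨y.2, hy⟩
  · rw [hV, IsInducing.subtypeVal.continuousOn_iff]
    refine ContinuousOn.congr (f := fun y : P => g y) ?_ fun y hy => he' y hy
    exact h.cg.comp continuous_subtype_val.continuousOn fun y hy => ⟨y.2, hy⟩
  · intro y hy
    have hy' : (y : α) ∈ U := hy
    have h1 := h.mf ⟨y.2, hy'⟩
    refine Subtype.ext ?_
    rw [he' (e y) (by rw [he y hy']; exact h1.2), he y hy']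
    exact h.gf y ⟨y.2, hy'⟩

/-- **Locality, set form.** -/
theorem menS_loc {R : Set α} (cR : IsCompact R)
    (h : ∀ x ∈ R, ∃ (β : Type) (_ : MetricSpace β) (P : Set β) (U : Set α) (V : Set β)
      (f : α → β) (g : β → α), MenS k P ∧ SChart R U P V f g ∧ x ∈ U) : MenS k R := by
  have : CompactSpace R := isCompact_iff_compactSpace.1 cR
  refine ⟨this, men_loc fun x => ?_⟩
  obtain ⟨β, _, P, U, V, f, g, ⟨hc, hP⟩, hs, hx⟩ := h x x.2
  obtain ⟨e, e', h1, -, -⟩ := hs.chart ⟨x.2, hx⟩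
  exact ⟨P, inferInstance, hc, Subtype.val ⁻¹' U, e, e', hP, h1, hx⟩

/-- **Locality of Z-sets, set form.** -/
theorem zin_loc {R : Set α} (hR : MenS k R) {S : Set α} (hS : IsClosed S) (hSR : S ⊆ R)
    (h : ∀ x ∈ S, ∃ (β : Type) (_ : MetricSpace β) (P T : Set β) (U : Set α) (V : Set β)
      (f : α → β) (g : β → α), MenS k P ∧ SChart R U P V f g ∧ x ∈ U ∧ ZIn T P ∧
        MapsTo f (S ∩ U) T) : ZIn S R := by
  obtain ⟨_, hR'⟩ := hR
  refine zin_of_zs hS hSR (zs_loc hR'.1 (hS.preimage continuous_subtype_val) fun x hx => ?_)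
  obtain ⟨β, _, P, T, U, V, f, g, ⟨hc, hP⟩, hs, hxU, hT, hfT⟩ := h x hx
  obtain ⟨e, e', h1, h2, -⟩ := hs.chart ⟨x.2, hxU⟩
  refine ⟨P, inferInstance, hc, Subtype.val ⁻¹' U, e, e', hP, h1, hxU, Subtype.val ⁻¹' T, hT.zs, ?_⟩
  intro y hy
  show (e y : β) ∈ T
  rw [h2 y hy.2]
  exact hfT ⟨hy.1, hy.2⟩

theorem schart_of_eq {R P U : Set α} (hU : IsOpen U) (h : R ∩ U = P ∩ U) :
    SChart R U P U (fun x => x) (fun x => x) :=
  ⟨hU, hU, continuousOn_id, continuousOn_id, fun x hx => by rw [← h]; exact hx,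
    fun x hx => by rw [h]; exact hx, fun _ _ => rfl, fun _ _ => rfl⟩

/-- **Locality in an ambient space.** -/
theorem menS_of_eq {R : Set α} (cR : IsCompact R)
    (h : ∀ x ∈ R, ∃ U P : Set α, IsOpen U ∧ x ∈ U ∧ MenS k P ∧ R ∩ U = P ∩ U) : MenS k R :=
  menS_loc cR fun x hx => by
    obtain ⟨U, P, h1, h2, h3, h4⟩ := h x hx
    exact ⟨α, inferInstance, P, U, U, _, _, h3, schart_of_eq h1 h4, h2⟩

/-- **Locality of Z-sets in an ambient space.** -/
theorem zin_of_eq {R : Set α} (hR : MenS k R) {S : Set α} (hS : IsClosed S) (hSR : S ⊆ R)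
    (h : ∀ x ∈ S, ∃ U P T : Set α, IsOpen U ∧ x ∈ U ∧ MenS k P ∧ R ∩ U = P ∩ U ∧ ZIn T P ∧
      S ∩ U ⊆ T) : ZIn S R :=
  zin_loc hR hS hSR fun x hx => by
    obtain ⟨U, P, T, h1, h2, h3, h4, h5, h6⟩ := h x hx
    exact ⟨α, inferInstance, P, T, U, U, _, _, h3, schart_of_eq h1 h4, h2, h5, h6⟩

/-- Z-sets are transferred between Menger manifolds which coincide near them -/
theorem ZIn_transfer {R P U S : Set α} (hR : MenS k R) (hP : MenS k P) (hU : IsOpen U)
    (h : R ∩ U = P ∩ U) (hSU : S ⊆ U) (hS : ZIn S P) : ZIn S R :=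
  zin_of_eq hR hS.isClosed (fun x hx => by
    have : x ∈ P ∩ U := ⟨hS.subset hx, hSU hx⟩
    rw [← h] at this
    exact this.1) fun x hx => ⟨U, P, S, hU, hSU hx, hP, h, hS, inter_subset_left⟩

/-- disjoint unions -/
theorem MenS.union {P Q : Set α} (hP : MenS k P) (hQ : MenS k Q) (hd : Disjoint P Q) :
    MenS k (P ∪ Q) := by
  refine menS_of_eq (hP.isCompact.union hQ.isCompact) ?_
  rintro x (hx | hx)
  · refine ⟨Qᶜ, P, hQ.isClosed.isOpen_compl, fun h => hd.le_bot ⟨hx, h⟩, hP, ?_⟩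
    ext y
    simp only [mem_inter_iff, mem_union, mem_compl_iff]
    tauto
  · refine ⟨Pᶜ, Q, hP.isClosed.isOpen_compl, fun h => hd.le_bot ⟨h, hx⟩, hQ, ?_⟩
    ext y
    simp only [mem_inter_iff, mem_union, mem_compl_iff]
    tauto

/-- closed and open pieces -/
theorem MenS.piece {P Q R : Set α} (hR : MenS k R) (hP : IsClosed P) (hQ : IsClosed Q)
    (hPR : P ⊆ R) (h : R ⊆ P ∪ Q) (hd : Disjoint P Q) : MenS k P := by
  refine menS_of_eq (hR.isCompact.of_isClosed_subset hP hPR) fun x hx => ⟨Qᶜ, R,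
    hQ.isOpen_compl, fun h => hd.le_bot ⟨hx, h⟩, hR, ?_⟩
  ext y
  simp only [mem_inter_iff, mem_compl_iff]
  constructor
  · exact fun h => ⟨hPR h.1, h.2⟩
  · exact fun h1 => ⟨(h h1.1).resolve_right h1.2, h1.2⟩

theorem MenS.empty : MenS k (∅ : Set α) :=
  menS_of_eq isCompact_empty fun _ hx => hx.elim

/-- Z-sets in unions of two pieces: a Z-set of a piece away from the rest -/
theorem zin_piece {P Q R S : Set α} (hR : MenS k R) (hP : MenS k P) (hQ : IsClosed Q)
    (hRPQ : R = P ∪ Q) (hS : ZIn S P) (hd : Disjoint S Q) : ZIn S R := by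
  refine ZIn_transfer hR hP hQ.isOpen_compl ?_ (fun x hx h => hd.le_bot ⟨hx, h⟩) hS
  rw [hRPQ]
  ext y
  simp only [mem_inter_iff, mem_union, mem_compl_iff]
  tauto

end Loc

end Pool.Agent.Work.MP_017613_gt
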