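import Pool.Agent.Work.MP_017613_gt.Gluing
import Pool.Agent.Work.MP_017613_gt.ChiGlue
import Pool.Agent.Work.MP_017613_gt.DiscD
import Pool.Agent.Work.MP_017613_gt.Kit.Bridge
import Pool.Agent.Work.MP_017613_gt.MenDef

/-!
Compact Menger manifolds: the gluing theorem and the double.
-/

set_option linter.unusedSectionVars false

open Set Topology Metric

namespace Pool.Agent.Work.MP_017613_gt

namespace Chi

section

variable {N N' : Type} [MetricSpace N] [CompactSpace N] [MetricSpace N'] [CompactSpace N']
  {k : ℕ}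

/-- compact uniformly locally connected spaces have the extension property -/
theorem ane_of_ulc_type (h : MG.ULC k (univ : Set N)) : ANE k (univ : Set N) :=
  MG.ane_of_ulc isCompact_univ h

theorem men_ane (h : Men k N) : ANE k (univ : Set N) := ane_of_ulc_type h.2.1

theorem men_of_ane (h1 : PushOff k (univ : Set N)) (h2 : ANE k (univ : Set N))
    (h3 : DD N) : Men k N := ⟨h1, MG.ulc_iff.2 (ANE.ulc h2), DD.zd h3⟩

theorem men_homeo (h : Men k N) (e : N ≃ₜ N') : Men k N' :=
  ⟨PushOff.homeo h.1 e, MG.ulc_iff.2 (ANE.ulc ((men_ane h).homeo e)), ZD.homeo h.2.2 e⟩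

end

section Glue

variable {D : Type} [MetricSpace D] [CompactSpace D] {k : ℕ}

/-- **Gluing theorem**: a union of two compact Menger manifolds which meet in a compact Menger
manifold, which is a Z-set in both, is a Menger manifold. -/
theorem men_glue {P Q : Set D} [CompactSpace P] [CompactSpace Q] [CompactSpace (P ∩ Q : Set D)]
    (hPQ : P ∪ Q = univ) (mP : Men k P) (mQ : Men k Q) (mA : Men k (P ∩ Q : Set D))
    (zP : ZS {x : P | x.1 ∈ Q}) (zQ : ZS {x : Q | x.1 ∈ P}) : Men k D := by
  have hP : IsClosed P := (isCompact_iff_compactSpace.2 ‹CompactSpace P›).isClosed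
  have hQ : IsClosed Q := (isCompact_iff_compactSpace.2 ‹CompactSpace Q›).isClosed
  refine men_of_ane (glue_PushOff hP hQ hPQ mP.1 mQ.1) ?_ ?_
  · exact glue_ANE hP hQ hPQ (fun a b c => ANE.union hP.isCompact hQ.isCompact a b c)
      (men_ane mP) (men_ane mQ) (men_ane mA)
  · exact glue_DD hP hQ hPQ (men_ane mP) (men_ane mQ) mP.1 mQ.1 zP zQ (ZD.dd mP.2.2)
      (ZD.dd mQ.2.2) (ZD.dd mA.2.2)

end Glue

/-! ### The double -/

section Double

variable {N : Type} [MetricSpace N]

theorem dbl_compact [CompactSpace N] (W : Set N) : CompactSpace (Dbl W) := by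
  rw [← isCompact_iff_compactSpace]
  have e : Dbl W = range (fun n : N => (n, infDist n W)) ∪
      range (fun n : N => (n, -infDist n W)) := by
    ext ⟨n, t⟩
    constructor
    · intro h
      have h : |t| = infDist n W := h
      rcases le_total 0 t with ht | ht
      · left
        rw [abs_of_nonneg ht] at h
        exact ⟨n, by show (n, infDist n W) = (n, t); rw [h]⟩
      · right
        rw [abs_of_nonpos ht] at h
        exact ⟨n, by show (n, -infDist n W) = (n, t); rw [← h, neg_neg]⟩
    · rintro (⟨m, hm⟩ | ⟨m, hm⟩)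
      · rw [Prod.mk.injEq] at hm
        show |t| = infDist n W
        rw [← hm.1, ← hm.2, abs_of_nonneg infDist_nonneg]
      · rw [Prod.mk.injEq] at hm
        show |t| = infDist n W
        rw [← hm.1, ← hm.2, abs_neg, abs_of_nonneg infDist_nonneg]
  rw [e]
  have c := continuous_infDist_pt W
  exact (isCompact_range (by fun_prop)).union (isCompact_range (by fun_prop))

/-- the upper half of the double -/
def up (W : Set N) : Set (Dbl W) := {z | 0 ≤ z.1.2}

/-- the lower half of the double -/
def lo (W : Set N) : Set (Dbl W) := {z | z.1.2 ≤ 0}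

/-- the upper half is a copy of the space -/
noncomputable def homeoUp (W : Set N) : N ≃ₜ up W where
  toFun n := ⟨⟨(n, infDist n W), abs_of_nonneg infDist_nonneg⟩, infDist_nonneg⟩
  invFun z := z.1.1.1
  left_inv _ := rfl
  right_inv z := by
    have h1 : |z.1.1.2| = infDist z.1.1.1 W := z.1.2
    have h2 : 0 ≤ z.1.1.2 := z.2
    rw [abs_of_nonneg h2] at h1
    refine Subtype.ext (Subtype.ext (Prod.ext rfl ?_))
    exact h1.symm
  continuous_toFun := by
    have c := continuous_infDist_pt W
    exact Continuous.subtype_mk (Continuous.subtype_mk (by fun_prop) _) _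
  continuous_invFun := by fun_prop

/-- the lower half is a copy of the space -/
noncomputable def homeoLo (W : Set N) : N ≃ₜ lo W where
  toFun n := ⟨⟨(n, -infDist n W), (abs_neg _).trans (abs_of_nonneg infDist_nonneg)⟩,
    neg_nonpos.2 infDist_nonneg⟩
  invFun z := z.1.1.1
  left_inv _ := rfl
  right_inv z := by
    have h1 : |z.1.1.2| = infDist z.1.1.1 W := z.1.2
    have h2 : z.1.1.2 ≤ 0 := z.2
    rw [abs_of_nonpos h2] at h1
    refine Subtype.ext (Subtype.ext (Prod.ext rfl ?_))
    show -infDist z.1.1.1 W = z.1.1.2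
    rw [← h1, neg_neg]
  continuous_toFun := by
    have c := continuous_infDist_pt W
    exact Continuous.subtype_mk (Continuous.subtype_mk (by fun_prop) _) _
  continuous_invFun := by fun_prop

theorem mem_of_zero {W : Set N} (hW : IsClosed W) (hne : W.Nonempty) {z : Dbl W}
    (h : z.1.2 = 0) : z.1.1 ∈ W := by
  have h1 : |z.1.2| = infDist z.1.1 W := z.2
  rw [h, abs_zero] at h1
  exact (hW.mem_iff_infDist_zero hne).2 h1.symm

/-- the common part of the two halves is a copy of `W` -/
noncomputable def homeoMid {W : Set N} (hW : IsClosed W) (hne : W.Nonempty) :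
    W ≃ₜ (up W ∩ lo W : Set (Dbl W)) where
  toFun w := ⟨⟨(w.1, 0), by
    show |(0 : ℝ)| = infDist w.1 W
    rw [abs_zero, infDist_zero_of_mem w.2]⟩, (le_rfl : (0 : ℝ) ≤ 0), (le_rfl : (0 : ℝ) ≤ 0)⟩
  invFun z := ⟨z.1.1.1, mem_of_zero hW hne (le_antisymm z.2.2 z.2.1)⟩
  left_inv _ := rfl
  right_inv z := by
    refine Subtype.ext (Subtype.ext (Prod.ext rfl ?_))
    exact le_antisymm z.2.1 z.2.2
  continuous_toFun := by
    exact Continuous.subtype_mk (Continuous.subtype_mk (by fun_prop) _) _
  continuous_invFun := by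
    exact Continuous.subtype_mk (by fun_prop) _

theorem up_union_lo (W : Set N) : up W ∪ lo W = univ := by
  ext z
  simp only [mem_union, mem_univ, iff_true]
  exact le_total 0 z.1.2

theorem isClosed_up (W : Set N) : IsClosed (up W) := by
  refine isClosed_le continuous_const ?_
  fun_prop

theorem isClosed_lo (W : Set N) : IsClosed (lo W) := by
  refine isClosed_le ?_ continuous_const
  fun_prop

theorem image_homeoUp {W : Set N} (hW : IsClosed W) (hne : W.Nonempty) :
    homeoUp W '' W = {x : up W | x.1 ∈ lo W} := by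
  ext x
  constructor
  · rintro ⟨w, hw, rfl⟩
    show infDist w W ≤ 0
    rw [infDist_zero_of_mem hw]
  · intro hx
    exact ⟨x.1.1.1, mem_of_zero hW hne (le_antisymm hx x.2), (homeoUp W).right_inv x⟩

theorem image_homeoLo {W : Set N} (hW : IsClosed W) (hne : W.Nonempty) :
    homeoLo W '' W = {x : lo W | x.1 ∈ up W} := by
  ext x
  constructor
  · rintro ⟨w, hw, rfl⟩
    show 0 ≤ -infDist w W
    rw [infDist_zero_of_mem hw, neg_zero]
  · intro hx
    exact ⟨x.1.1.1, mem_of_zero hW hne (le_antisymm x.2 hx), (homeoLo W).right_inv x⟩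

theorem zero_mem_dbl (n : N) : ((n, 0) : N × ℝ) ∈ Dbl (∅ : Set N) := by
  show |(0 : ℝ)| = infDist n ∅
  rw [abs_zero, infDist_empty]

/-- the degenerate double -/
noncomputable def homeoEmpty (N : Type) [MetricSpace N] : N ≃ₜ Dbl (∅ : Set N) where
  toFun n := ⟨(n, 0), zero_mem_dbl n⟩
  invFun z := z.1.1
  left_inv _ := rfl
  right_inv z := by
    refine Subtype.ext (Prod.ext rfl ?_)
    have h : |z.1.2| = infDist z.1.1 (∅ : Set N) := z.2
    rw [infDist_empty, abs_eq_zero] at h
    exact h.symm
  continuous_toFun := by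
    exact Continuous.subtype_mk (by fun_prop) _
  continuous_invFun := by fun_prop

variable {k : ℕ}

/-- **The double along a Z-set.** -/
theorem men_dbl [CompactSpace N] (hN : Men k N) {W : Set N} [CompactSpace W]
    [CompactSpace (Dbl W)] (hW : Men k W) (hz : ZS W) : Men k (Dbl W) := by
  rcases W.eq_empty_or_nonempty with rfl | hne
  · exact men_homeo hN (homeoEmpty N)
  have hcl := hz.1
  have c1 : CompactSpace (up W) := isCompact_iff_compactSpace.1 (isClosed_up W).isCompact
  have c2 : CompactSpace (lo W) := isCompact_iff_compactSpace.1 (isClosed_lo W).isCompact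
  have c4 : CompactSpace (up W ∩ lo W : Set (Dbl W)) :=
    isCompact_iff_compactSpace.1 ((isClosed_up W).inter (isClosed_lo W)).isCompact
  refine men_glue (up_union_lo W) (men_homeo hN (homeoUp W)) (men_homeo hN (homeoLo W))
    (men_homeo hW (homeoMid hcl hne)) ?_ ?_
  · rw [← image_homeoUp hcl hne]
    exact hz.image _
  · rw [← image_homeoLo hcl hne]
    exact hz.image _

/-- The field `double` of `Theory` for `Men`. -/
theorem double_field (k : ℕ) : ∀ (M N : Type) [MetricSpace M] [CompactSpace M] [MetricSpace N]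
    [CompactSpace N] (i : M → N), Men k M → Men k N → Continuous i → Function.Injective i →
    ZS (range i) → ∃ _ : CompactSpace (Dbl (range i)), Men k (Dbl (range i)) := by
  intro M N _ _ _ _ i hM hN hi hinj hz
  have : CompactSpace (range i) := isCompact_iff_compactSpace.1 hz.1.isCompact
  have := dbl_compact (range i)
  exact ⟨this, men_dbl hN
    (men_homeo hM (hi.isClosedEmbedding hinj).isEmbedding.toHomeomorph) hz⟩

end Double

end Chi

end Pool.Agent.Work.MP_017613_gt
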