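import Pool.Agent.Work.MP_017613_gt.RndB

/-!
# SMALL: tools

* `SmallGen M ρ`: the group generated by homeomorphisms supported in sets of diameter `≤ ρ`.
* `restr`, `extend_homeo`: homeomorphisms of closed subsets.
* `split`: small homeomorphisms supported in a finite disjoint union of small closed sets.
* `zcut`: Z-sets of a piece.
-/

set_option linter.unusedSectionVars false

open Set Topology Metric

namespace Pool.Agent.Work.MP_017613_gt

namespace Sml

open Rnd Chi

variable {M : Type} [MetricSpace M]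

/-- the subgroup generated by the homeomorphisms supported in sets of diameter `≤ ρ` -/
def SmallGen (M : Type) [MetricSpace M] (ρ : ℝ) : Subgroup (M ≃ₜ M) :=
  Subgroup.closure {g | ∃ S : Set M, (∀ x ∈ S, ∀ y ∈ S, dist x y ≤ ρ) ∧ ∀ x, x ∉ S → g x = x}

theorem mul_apply' (g h : M ≃ₜ M) (x : M) : (g * h) x = g (h x) := rfl

theorem inv_apply_self' (g : M ≃ₜ M) (x : M) : g⁻¹ (g x) = x := g.symm_apply_apply x

theorem apply_inv_self' (g : M ≃ₜ M) (x : M) : g (g⁻¹ x) = x := g.apply_symm_apply x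

/-- a homeomorphism which is the identity off `N` preserves `N` -/
theorem mem_iff_of_off {N : Set M} {h : M ≃ₜ M} (hh : ∀ x, x ∉ N → h x = x) (x : M) :
    h x ∈ N ↔ x ∈ N := by
  constructor
  · intro hx
    by_contra hn
    rw [hh x hn] at hx
    exact hn hx
  · intro hx
    by_contra hn
    have h1 : h (h x) = h x := hh _ hn
    have h2 : h x = x := h.injective h1
    rw [h2] at hn
    exact hn hx

theorem inv_off {N : Set M} {h : M ≃ₜ M} (hh : ∀ x, x ∉ N → h x = x) :
    ∀ x, x ∉ N → h⁻¹ x = x := by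
  intro x hx
  have := inv_apply_self' h x
  rw [hh x hx] at this
  exact this

/-- restriction of a homeomorphism which is the identity off `N` -/
theorem exists_restr {N : Set M} {h : M ≃ₜ M} (hh : ∀ x, x ∉ N → h x = x) :
    ∃ hN : N ≃ₜ N, ∀ x : N, (hN x : M) = h x := by
  refine ⟨⟨⟨fun x => ⟨h x, (mem_iff_of_off hh x).2 x.2⟩,
    fun x => ⟨h⁻¹ x, (mem_iff_of_off (inv_off hh) x).2 x.2⟩, ?_, ?_⟩, ?_, ?_⟩, fun x => rfl⟩
  · intro x; exact Subtype.ext (inv_apply_self' h x)
  · intro x; exact Subtype.ext (apply_inv_self' h x)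
  · exact (h.continuous.comp continuous_subtype_val).subtype_mk _
  · exact ((h⁻¹).continuous.comp continuous_subtype_val).subtype_mk _

/-- extension by the identity -/
theorem exists_extend {N : Set M} (cN : IsClosed N) (g : N ≃ₜ N)
    (hg : ∀ x : N, (x : M) ∈ frontier N → g x = x) :
    ∃ G : M ≃ₜ M, (∀ x : N, G x = g x) ∧ ∀ x, x ∉ N → G x = x := by
  classical
  have key : ∀ g : N ≃ₜ N, (∀ x : N, (x : M) ∈ frontier N → g x = x) →
      ∃ f : M → M, Continuous f ∧ (∀ x : N, f x = g x) ∧ ∀ x, x ∉ N → f x = x := by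
    intro g hg
    let f : M → M := fun x => if hx : x ∈ N then (g ⟨x, hx⟩ : M) else x
    have hf : ∀ x : N, f x = g x := fun x => by
      change (if hx : (x : M) ∈ N then (g ⟨x, hx⟩ : M) else (x : M)) = _
      rw [dif_pos x.2]
    have hf' : ∀ x, x ∉ N → f x = x := fun x hx => dif_neg hx
    refine ⟨f, ?_, hf, hf'⟩
    have c1 : ContinuousOn f N := by
      rw [continuousOn_iff_continuous_domRestrict]
      have : N.domRestrict f = fun x : N => (g x : M) := by
        funext x
        exact hf x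
      rw [this]
      exact continuous_subtype_val.comp g.continuous
    have c2 : ContinuousOn f (closure Nᶜ) := by
      refine continuousOn_id.congr fun x hx => ?_
      by_cases hxN : x ∈ N
      · have : x ∈ frontier N := by
          rw [frontier_eq_closure_inter_closure]
          exact ⟨subset_closure hxN, hx⟩
        have h1 := hg ⟨x, hxN⟩ this
        have h2 := hf ⟨x, hxN⟩
        rw [h1] at h2
        exact h2
      · exact hf' x hxN
    rw [← continuousOn_univ]
    have hun : (univ : Set M) = N ∪ closure Nᶜ := by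
      ext x
      simp only [mem_univ, mem_union, true_iff]
      by_cases hx : x ∈ N
      · exact Or.inl hx
      · exact Or.inr (subset_closure hx)
    rw [hun]
    exact c1.union_of_isClosed c2 cN isClosed_closure
  have hg' : ∀ x : N, (x : M) ∈ frontier N → g.symm x = x := by
    intro x hx
    have := g.symm_apply_apply x
    rw [hg x hx] at this
    exact this
  obtain ⟨f, cf, f1, f2⟩ := key g hg
  obtain ⟨f', cf', f1', f2'⟩ := key g.symm hg'
  refine ⟨⟨⟨f, f', ?_, ?_⟩, cf, cf'⟩, f1, f2⟩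
  · intro x
    by_cases hx : x ∈ N
    · have h1 := f1 ⟨x, hx⟩
      rw [show f x = (g ⟨x, hx⟩ : M) from h1, f1' (g ⟨x, hx⟩), g.symm_apply_apply]
    · rw [f2 x hx, f2' x hx]
  · intro x
    by_cases hx : x ∈ N
    · have h1 := f1' ⟨x, hx⟩
      rw [show f' x = (g.symm ⟨x, hx⟩ : M) from h1, f1 (g.symm ⟨x, hx⟩), g.apply_symm_apply]
    · rw [f2' x hx, f2 x hx]

/-- disjoint compact sets have positive distance -/
theorem exists_sep [CompactSpace M] {A B : Set M} (cA : IsClosed A) (cB : IsClosed B)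
    (hd : Disjoint A B) : ∃ δ > 0, ∀ x ∈ A, ∀ y ∈ B, δ ≤ dist x y := by
  obtain ⟨δ, hδ, H⟩ := hd.exists_thickenings cA.isCompact cB
  refine ⟨δ, hδ, fun x hx y hy => ?_⟩
  by_contra hlt
  push Not at hlt
  have h1 : x ∈ thickening δ A := self_subset_thickening hδ A hx
  have h2 : x ∈ thickening δ B := mem_thickening_iff.2 ⟨y, hy, hlt⟩
  exact (disjoint_left.1 H) h1 h2

/-- splitting of a homeomorphism which preserves the members of a disjoint family -/
theorem split_aux {m : ℕ} {C : Fin m → Set M} (cC : ∀ i, IsClosed (C i))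
    (dC : ∀ i j, i ≠ j → Disjoint (C i) (C j)) {ρ : ℝ}
    (hρ : ∀ i, ∀ x ∈ C i, ∀ y ∈ C i, dist x y ≤ ρ) (s : Finset (Fin m)) :
    ∀ g : M ≃ₜ M, (∀ i x, g x ∈ C i ↔ x ∈ C i) → (∀ x, x ∉ ⋃ i ∈ s, C i → g x = x) →
      g ∈ SmallGen M ρ := by
  classical
  induction s using Finset.induction with
  | empty =>
    intro g _ hg
    have : g = 1 := by
      ext x
      exact hg x (by simp)
    rw [this]
    exact Subgroup.one_mem _
  | insert i s his ih =>
    intro g hp hg
    obtain ⟨gN, hgN⟩ : ∃ gN : C i ≃ₜ C i, ∀ x : C i, (gN x : M) = g x := by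
      have hp' : ∀ x, g⁻¹ x ∈ C i ↔ x ∈ C i := fun x => by
        rw [← hp i (g⁻¹ x), apply_inv_self']
      refine ⟨⟨⟨fun x => ⟨g x, (hp i x).2 x.2⟩, fun x => ⟨g⁻¹ x, (hp' x).2 x.2⟩, ?_, ?_⟩, ?_, ?_⟩,
        fun x => rfl⟩
      · intro x; exact Subtype.ext (inv_apply_self' g x)
      · intro x; exact Subtype.ext (apply_inv_self' g x)
      · exact (g.continuous.comp continuous_subtype_val).subtype_mk _
      · exact ((g⁻¹).continuous.comp continuous_subtype_val).subtype_mk _
    have hfr : ∀ x : C i, (x : M) ∈ frontier (C i) → gN x = x := by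
      intro x hx
      apply Subtype.ext
      rw [hgN]
      -- `x` is a limit of points outside all `C j`
      have h1 : (x : M) ∈ closure (C i)ᶜ := by
        rw [frontier_eq_closure_inter_closure] at hx
        exact hx.2
      have hopen : IsOpen (⋃ j ∈ (Finset.univ.erase i), C j)ᶜ :=
        ((Finset.univ.erase i).finite_toSet.isClosed_biUnion fun j _ => cC j).isOpen_compl
      have hxo : (x : M) ∈ (⋃ j ∈ (Finset.univ.erase i), C j)ᶜ := by
        simp only [mem_compl_iff, mem_iUnion, not_exists]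
        intro j hj hxj
        have hji : j ≠ i := Finset.ne_of_mem_erase hj
        exact (disjoint_left.1 (dC j i hji)) hxj x.2
      have h2 : (x : M) ∈ closure ((⋃ j ∈ (Finset.univ.erase i), C j)ᶜ ∩ (C i)ᶜ) :=
        hopen.inter_closure ⟨hxo, h1⟩
      have h3 : closure ((⋃ j ∈ (Finset.univ.erase i), C j)ᶜ ∩ (C i)ᶜ) ⊆ {y | g y = y} := by
        refine closure_minimal ?_ (isClosed_eq g.continuous continuous_id)
        rintro y ⟨hy1, hy2⟩
        refine hg y ?_
        simp only [mem_iUnion, not_exists]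
        intro j _ hyj
        by_cases hji : j = i
        · subst hji; exact hy2 hyj
        · refine hy1 ?_
          simp only [mem_iUnion]
          exact ⟨j, Finset.mem_erase.2 ⟨hji, Finset.mem_univ _⟩, hyj⟩
      exact h3 h2
    obtain ⟨G, hG1, hG2⟩ := exists_extend (cC i) gN hfr
    have hG1' : ∀ x ∈ C i, G x = g x := fun x hx => (hG1 ⟨x, hx⟩).trans (hgN ⟨x, hx⟩)
    have hGm : G ∈ SmallGen M ρ := Subgroup.subset_closure ⟨C i, hρ i, hG2⟩
    have hGp : ∀ x, G x ∈ C i ↔ x ∈ C i := mem_iff_of_off hG2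
    have hGp' : ∀ x, G⁻¹ x ∈ C i ↔ x ∈ C i := mem_iff_of_off (inv_off hG2)
    have hrest : G⁻¹ * g ∈ SmallGen M ρ := by
      refine ih (G⁻¹ * g) (fun j x => ?_) fun x hx => ?_
      · rw [mul_apply']
        by_cases hji : j = i
        · subst hji
          rw [hGp', hp]
        · by_cases hgx : g x ∈ C i
          · have h1 : G⁻¹ (g x) ∈ C i := (hGp' _).2 hgx
            have h2 : x ∈ C i := (hp i x).1 hgx
            have d := disjoint_left.1 (dC j i hji)
            exact ⟨fun h => (d h h1).elim, fun h => (d h h2).elim⟩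
          · rw [inv_off hG2 _ hgx, hp]
      · rw [mul_apply']
        by_cases hxi : x ∈ C i
        · rw [← hG1' x hxi, inv_apply_self']
        · have h1 : g x = x := by
            refine hg x ?_
            simp only [mem_iUnion, not_exists] at hx ⊢
            intro j hj
            rcases Finset.mem_insert.1 hj with rfl | hj
            · exact hxi
            · exact hx j hj
          rw [h1, inv_off hG2 x hxi]
    have : g = G * (G⁻¹ * g) := by group
    rw [this]
    exact Subgroup.mul_mem _ hGm hrest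

/-- **Splitting**: a small homeomorphism supported in a finite disjoint union of closed sets of
diameter `≤ ρ`. -/
theorem split [CompactSpace M] {m : ℕ} {C : Fin m → Set M} (cC : ∀ i, IsClosed (C i))
    (dC : ∀ i j, i ≠ j → Disjoint (C i) (C j)) {ρ : ℝ}
    (hρ : ∀ i, ∀ x ∈ C i, ∀ y ∈ C i, dist x y ≤ ρ) :
    ∃ δ > 0, ∀ g : M ≃ₜ M, (∀ x, dist (g x) x < δ) → (∀ x, x ∉ ⋃ i, C i → g x = x) →
      g ∈ SmallGen M ρ := by
  classical
  have hsep : ∃ δ > 0, ∀ i j, i ≠ j → ∀ x ∈ C i, ∀ y ∈ C j, δ ≤ dist x y := by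
    have h1 : ∀ p : Fin m × Fin m, ∃ δ > 0, p.1 ≠ p.2 → ∀ x ∈ C p.1, ∀ y ∈ C p.2,
        δ ≤ dist x y := by
      rintro ⟨i, j⟩
      by_cases h : i = j
      · exact ⟨1, one_pos, fun h' => (h' h).elim⟩
      · obtain ⟨δ, hδ, H⟩ := exists_sep (cC i) (cC j) (dC i j h)
        exact ⟨δ, hδ, fun _ => H⟩
    choose δ hδ H using h1
    by_cases hm : Nonempty (Fin m × Fin m)
    · refine ⟨Finset.univ.inf' Finset.univ_nonempty δ, ?_, fun i j hij x hx y hy => ?_⟩
      · rw [gt_iff_lt, Finset.lt_inf'_iff]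
        exact fun p _ => hδ p
      · exact (Finset.inf'_le δ (Finset.mem_univ (i, j))).trans (H (i, j) hij x hx y hy)
    · exact ⟨1, one_pos, fun i j => (hm ⟨(i, j)⟩).elim⟩
  obtain ⟨δ, hδ, hsep⟩ := hsep
  refine ⟨δ, hδ, fun g hgs hg => ?_⟩
  have hu : ∀ x, g x ∈ ⋃ i, C i ↔ x ∈ ⋃ i, C i := mem_iff_of_off hg
  refine split_aux cC dC hρ Finset.univ g (fun i x => ?_) fun x hx => hg x fun h => hx ?_
  · constructor
    · intro h
      have h1 : x ∈ ⋃ j, C j := (hu x).1 (mem_iUnion.2 ⟨i, h⟩)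
      obtain ⟨j, hj⟩ := mem_iUnion.1 h1
      by_cases hji : j = i
      · subst hji; exact hj
      · have := hsep i j (Ne.symm hji) _ h _ hj
        exact absurd (hgs x) (not_lt.2 this)
    · intro h
      have h1 : g x ∈ ⋃ j, C j := (hu x).2 (mem_iUnion.2 ⟨i, h⟩)
      obtain ⟨j, hj⟩ := mem_iUnion.1 h1
      by_cases hji : j = i
      · subst hji; exact hj
      · have := hsep j i hji _ hj _ h
        exact absurd (hgs x) (not_lt.2 this)
  · obtain ⟨i, hi⟩ := mem_iUnion.1 h
    exact mem_iUnion₂.2 ⟨i, Finset.mem_univ _, hi⟩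

/-- Z-sets of a piece: the wall and the part of a Z-set of the union -/
theorem zcut {P Q S : Set M} (cP : IsCompact P) (cQ : IsClosed Q) (hA : ZIn (P ∩ Q) P)
    (hS : ZIn S (P ∪ Q)) : ZIn ((S ∩ P) ∪ (P ∩ Q)) P := by
  refine ⟨(hS.1.inter cP.isClosed).union hA.1,
    union_subset inter_subset_right inter_subset_left, fun ε hε => ?_⟩
  obtain ⟨φ, c1, m1, d1, a1⟩ := hA.2.2 (ε / 2) (half_pos hε)
  have cC : IsCompact (φ '' P) := cP.image_of_continuousOn c1
  have hd : Disjoint (φ '' P) Q := by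
    rw [disjoint_left]
    rintro _ ⟨x, hx, rfl⟩ hq
    exact a1 x hx ⟨m1 hx, hq⟩
  obtain ⟨δ, hδ, H⟩ := hd.exists_thickenings cC cQ
  obtain ⟨ψ, c2, m2, d2, a2⟩ := hS.2.2 (min (ε / 2) δ) (lt_min (half_pos hε) hδ)
  have hn : ∀ x ∈ P, ψ (φ x) ∉ Q := by
    intro x hx hq
    have h1 := (d2 (φ x) (Or.inl (m1 hx))).trans_le (min_le_right _ _)
    have h2 : φ x ∈ thickening δ Q := mem_thickening_iff.2 ⟨_, hq, by rw [dist_comm]; exact h1⟩
    exact (disjoint_left.1 H) (self_subset_thickening hδ _ (mem_image_of_mem φ hx)) h2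
  have hp : ∀ x ∈ P, ψ (φ x) ∈ P := fun x hx =>
    (m2 (Or.inl (m1 hx))).resolve_right (hn x hx)
  refine ⟨fun x => ψ (φ x), c2.comp c1 fun x hx => Or.inl (m1 hx), hp, fun x hx => ?_,
    fun x hx => ?_⟩
  · have h1 := (d2 (φ x) (Or.inl (m1 hx))).trans_le (min_le_left _ _)
    have h2 := d1 x hx
    have := dist_triangle (ψ (φ x)) (φ x) x
    linarith
  · rintro (⟨h, -⟩ | ⟨-, h⟩)
    · exact a2 _ (Or.inl (m1 hx)) h
    · exact hn x hx h

end Sml

end Pool.Agent.Work.MP_017613_gt
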