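import Pool.Agent.Work.MP_017613_gt.TRel
import Pool.Agent.Work.MP_017613_gt.RndA
import Pool.Agent.Work.MP_017613_gt.Gluing
import Pool.Agent.Work.MP_017613_gt.Kit.Eq

/-!
# T_REL in set form

`MenS Men D`: the set `D` is compact and its subtype has the property `Men`.
`TRelT k Men`: T_REL in the form of `TR.t_rel`. `trel_set`: T_REL for sets.
-/

open Set Topology Metric

namespace Pool.Agent.Work.MP_017613_gt

namespace Str

open Rnd Chi

variable {α β γ : Type} [MetricSpace α] [MetricSpace β] [MetricSpace γ]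

/-- the compact set `D` is a Menger manifold -/
def MenS (Men : ∀ (N : Type) [MetricSpace N] [CompactSpace N], Prop) (D : Set α) : Prop :=
  ∃ _ : CompactSpace D, Men D

theorem MenS.isCompact {Men : ∀ (N : Type) [MetricSpace N] [CompactSpace N], Prop} {D : Set α}
    (h : MenS Men D) : IsCompact D := isCompact_iff_compactSpace.2 h.1

/-! ## Lifting properties -/

/-- retraction of `R^j` to the cube -/
noncomputable def pj (j : ℕ) (x : Fin j → ℝ) : TR.Cb j := fun i => projIcc 0 1 zero_le_one (x i)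

theorem continuous_pj (j : ℕ) : Continuous (pj j) :=
  continuous_pi fun i => continuous_projIcc.comp (continuous_apply i)

theorem pj_mem {j : ℕ} {x : Fin j → ℝ} (hx : x ∈ MG.dCu j) : pj j x ∈ TR.bd j := by
  obtain ⟨-, i, hi⟩ := hx
  refine ⟨i, ?_⟩
  rcases hi with h | h
  · left
    change projIcc 0 1 _ (x i) = _
    rw [h, projIcc_left]
    rfl
  · right
    change projIcc 0 1 _ (x i) = _
    rw [h, projIcc_right]
    rfl

theorem pj_coe {j : ℕ} (x : TR.Cb j) : pj j (fun i => (x i : ℝ)) = x := by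
  funext i
  exact projIcc_val zero_le_one (x i)

theorem coe_mem_Cu {j : ℕ} (x : TR.Cb j) : (fun i => (x i : ℝ)) ∈ MG.Cu j :=
  MG.mem_Cu.2 fun i => ⟨(x i).2.1, (x i).2.2⟩

theorem coe_mem_dCu {j : ℕ} {x : TR.Cb j} (hx : x ∈ TR.bd j) : (fun i => (x i : ℝ)) ∈ MG.dCu j := by
  refine ⟨coe_mem_Cu x, ?_⟩
  obtain ⟨i, hi⟩ := hx
  refine ⟨i, ?_⟩
  rcases hi with h | h
  · left
    change ((x i : unitInterval) : ℝ) = 0
    rw [h]
    rfl
  · right
    change ((x i : unitInterval) : ℝ) = 1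
    rw [h]
    rfl

/-- from the lifting property in set form to the form for types -/
theorem lft_of_L [Nonempty β] {k : ℕ} {M : Set β} {K : Set α} {g : β → α} (hg : MapsTo g M K)
    {e : ℝ} (h : MG.L k g M K e) : TR.Lft k (fun x : M => (⟨g x, hg x.2⟩ : K)) e := by
  classical
  intro j hj f f0 h0
  have hcc : Continuous (fun (x : TR.Cb j) (i : Fin j) => (x i : ℝ)) :=
    continuous_pi fun i => continuous_subtype_val.comp (continuous_apply i)
  let F0 : (Fin j → ℝ) → β := fun x =>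
    if hx : pj j x ∈ TR.bd j then (f0 ⟨pj j x, hx⟩ : β) else Classical.arbitrary β
  have hF0 : ∀ x (hx : x ∈ MG.dCu j), F0 x = f0 ⟨pj j x, pj_mem hx⟩ := fun x hx =>
    dif_pos (pj_mem hx)
  have hF0c : ContinuousOn F0 (MG.dCu j) := by
    rw [continuousOn_iff_continuous_domRestrict]
    have : (MG.dCu j).domRestrict F0 = fun x : MG.dCu j => (f0 ⟨pj j x, pj_mem x.2⟩ : β) := by
      funext x
      exact hF0 x x.2
    rw [this]
    exact continuous_subtype_val.comp (f0.continuous.comp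
      (((continuous_pj j).comp continuous_subtype_val).subtype_mk _))
  obtain ⟨F, hF, hFe, hFd⟩ := h j hj (fun x => (f (pj j x) : α)) F0
    ⟨(continuous_subtype_val.comp (f.continuous.comp (continuous_pj j))).continuousOn,
      fun x _ => (f (pj j x)).2⟩
    ⟨hF0c, fun x hx => by rw [hF0 x hx]; exact (f0 _).2⟩ (fun x hx => by
      rw [hF0 x hx]
      exact congrArg Subtype.val (h0 ⟨pj j x, pj_mem hx⟩))
  refine ⟨⟨fun x => ⟨F (fun i => (x i : ℝ)), hF.maps (coe_mem_Cu x)⟩, ?_⟩, fun x => ?_, fun x => ?_⟩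
  · exact (hF.cont.comp_continuous hcc coe_mem_Cu).subtype_mk _
  · apply Subtype.ext
    change F (fun i => (x.1 i : ℝ)) = f0 x
    rw [hFe (coe_mem_dCu x.2), hF0 _ (coe_mem_dCu x.2)]
    have : (⟨pj j (fun i => (x.1 i : ℝ)), pj_mem (coe_mem_dCu x.2)⟩ : TR.bd j) = x :=
      Subtype.ext (pj_coe x.1)
    rw [this]
  · have := hFd _ (coe_mem_Cu x)
    rw [pj_coe] at this
    exact this

/-- from the lifting property for types to the set form -/
theorem L_of_lft {k : ℕ} {M : Set β} {K : Set α} {g : β → α} (hg : MapsTo g M K)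
    {e : ℝ} (h : TR.Lft k (fun x : M => (⟨g x, hg x.2⟩ : K)) e) : MG.L k g M K e := by
  intro j hj f f0 hf hf0 h0
  have hcc : Continuous (fun (x : TR.Cb j) (i : Fin j) => (x i : ℝ)) :=
    continuous_pi fun i => continuous_subtype_val.comp (continuous_apply i)
  obtain ⟨F, hF, hFd⟩ := h j hj
    ⟨fun x => ⟨f (fun i => (x i : ℝ)), hf.maps (coe_mem_Cu x)⟩,
      (hf.cont.comp_continuous hcc coe_mem_Cu).subtype_mk _⟩
    ⟨fun x => ⟨f0 (fun i => (x.1 i : ℝ)), hf0.maps (coe_mem_dCu x.2)⟩,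
      (hf0.cont.comp_continuous (hcc.comp continuous_subtype_val)
        fun x => coe_mem_dCu x.2).subtype_mk _⟩
    (fun x => Subtype.ext (h0 _ (coe_mem_dCu x.2)))
  have hpc : ∀ x ∈ MG.Cu j, (fun i => (pj j x i : ℝ)) = x := fun x hx => by
    funext i
    change ((projIcc 0 1 zero_le_one (x i) : unitInterval) : ℝ) = x i
    have h1 := MG.mem_Cu.1 hx i
    rw [projIcc_of_mem zero_le_one ⟨h1.1, h1.2⟩]
  refine ⟨fun x => (F (pj j x) : β), ⟨(continuous_subtype_val.comp
    (F.continuous.comp (continuous_pj j))).continuousOn, fun x _ => (F _).2⟩, fun x hx => ?_,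
    fun x hx => ?_⟩
  · have h1 := hF ⟨pj j x, pj_mem hx⟩
    change (F (pj j x) : β) = f0 x
    rw [h1]
    change f0 (fun i => (pj j x i : ℝ)) = f0 x
    rw [hpc x hx.1]
  · have h1 := hFd (pj j x)
    change dist (g (F (pj j x))) (f (fun i => (pj j x i : ℝ))) < e at h1
    rwa [hpc x hx] at h1

/-! ## T_REL -/

/-- T_REL for types -/
def TRelT (k : ℕ) (Men : ∀ (N : Type) [MetricSpace N] [CompactSpace N], Prop) : Prop :=
  ∀ (X : Type) [MetricSpace X] [CompactSpace X], MG.ULC k (univ : Set X) → ∀ ε > 0, ∃ d > 0,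
    ∀ (M N : Type) [MetricSpace M] [CompactSpace M] [MetricSpace N] [CompactSpace N],
      Men M → Men N → ∀ (u : C(M, X)) (v : C(N, X)), TR.Lft k u d → TR.Lft k v d →
      ∀ (W : Set M) (W' : Set N), ZS W → ZS W' → ∀ g : W ≃ₜ W',
      (∀ x : W, dist (v (g x)) (u x) < d) →
      ∃ h : M ≃ₜ N, (∀ x : W, h x = g x) ∧ ∀ x, dist (v (h x)) (u x) < ε

/-- T_REL for sets -/
theorem trel_set {k : ℕ} {Men : ∀ (N : Type) [MetricSpace N] [CompactSpace N], Prop}
    (hT : TRelT k Men) {X : Set α} (cX : IsCompact X) (aX : ANE k X) {ε : ℝ} (hε : 0 < ε) :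
    ∃ d > 0, ∀ (β γ : Type) [MetricSpace β] [MetricSpace γ] [Nonempty β] [Nonempty γ]
      (M : Set β) (N : Set γ), MenS Men M → MenS Men N → ∀ (u : β → α) (v : γ → α),
      MG.IsMap u M X → MG.IsMap v N X → MG.L k u M X d → MG.L k v N X d →
      ∀ (W : Set β) (W' : Set γ), ZIn W M → ZIn W' N → ∀ g : β → γ, Hom W W' g →
      (∀ x ∈ W, dist (v (g x)) (u x) < d) →
      ∃ h : β → γ, Hom M N h ∧ EqOn h g W ∧ ∀ x ∈ M, dist (v (h x)) (u x) < ε := by
  have : CompactSpace X := isCompact_iff_compactSpace.1 cX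
  have hU : MG.ULC k (univ : Set X) := MG.ulc_of_ane (aX.toSubtype cX)
  obtain ⟨d, hd, H⟩ := hT X hU ε hε
  refine ⟨d, hd, ?_⟩
  intro β γ _ _ _ _ M N hM hN u v hu hv hLu hLv W W' hW hW' g hg hgd
  have cW : IsCompact W := hM.isCompact.of_isClosed_subset hW.1 hW.2.1
  obtain ⟨iM, hM⟩ := hM
  obtain ⟨iN, hN⟩ := hN
  have cW2 : CompactSpace ((↑) ⁻¹' W : Set M) :=
    isCompact_iff_compactSpace.1 ((hW.1.preimage continuous_subtype_val).isCompact)
  let eq : ((↑) ⁻¹' W : Set M) ≃ ((↑) ⁻¹' W' : Set N) :=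
    Equiv.ofBijective (fun x => ⟨⟨g x.1, hW'.2.1 (hg.maps x.2)⟩, hg.maps x.2⟩)
      ⟨fun x y e => by
        have e1 : g x.1.1 = g y.1.1 := congrArg (fun z => (z.1 : γ)) e
        exact Subtype.ext (Subtype.ext (hg.inj x.2 y.2 e1)), fun y => by
        have hy : (y.1 : γ) ∈ g '' W := by rw [hg.img]; exact y.2
        obtain ⟨x, hx, hxy⟩ := hy
        exact ⟨⟨⟨x, hW.2.1 hx⟩, hx⟩, Subtype.ext (Subtype.ext hxy)⟩⟩
  have hc : Continuous eq := ((hg.cont.comp_continuous
    (continuous_subtype_val.comp continuous_subtype_val) fun x => x.2).subtype_mk _).subtype_mk _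
  obtain ⟨h, h1, h2⟩ := H M N hM hN
    ⟨fun x => ⟨u x, hu.maps x.2⟩, (continuousOn_iff_continuous_domRestrict.1 hu.cont).subtype_mk _⟩
    ⟨fun x => ⟨v x, hv.maps x.2⟩, (continuousOn_iff_continuous_domRestrict.1 hv.cont).subtype_mk _⟩
    (lft_of_L hu.maps hLu) (lft_of_L hv.maps hLv) _ _ hW.zs hW'.zs
    (Continuous.homeoOfEquivCompactToT2 (f := eq) hc) (fun x => hgd _ x.2)
  obtain ⟨f, hf, hfh⟩ := exists_of_homeo h inferInstance
  refine ⟨f, hf, fun x hx => ?_, fun x hx => ?_⟩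
  · have h3 := h1 ⟨⟨x, hW.2.1 hx⟩, hx⟩
    have h4 := hfh ⟨x, hW.2.1 hx⟩
    rw [h3] at h4
    exact h4
  · have h3 := h2 ⟨x, hx⟩
    have h4 := hfh ⟨x, hx⟩
    rw [h4]
    exact h3

end Str

end Pool.Agent.Work.MP_017613_gt
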