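import Pool.Agent.Work.MP_017613_gt.Skel24
import Pool.Agent.Work.MP_017613_gt.TRelS
import Pool.Agent.Work.MP_017613_gt.Double
import Pool.Agent.Work.MP_017613_gt.LocB
import Pool.Agent.Work.MP_017613_gt.SmallA

/-!
# SMALL: small homeomorphisms are products of homeomorphisms with small supports

Definitions and joints (helper66). A joint is a `def J_... : Prop`; its owner proves
`theorem j_... : J_...` in his own file.
-/

set_option linter.unusedSectionVars false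

open Set Topology Metric

namespace Pool.Agent.Work.MP_017613_gt

namespace Sml

open Rnd (ZIn Hom)
open Loc (MenS)
open Chi

/-- STRAIGHTENING (helper41) -/
def J_STRAIGHT : Prop :=
  ∀ (k : ℕ), 1 ≤ k → ∀ (Q : Type) [MetricSpace Q] [CompactSpace Q] (P T R S : Set Q),
    Men k Q → IsClosed P → IsClosed T → IsClosed R → P ∪ T ∪ R = univ → P ∩ R = ∅ →
    MenS k T → MenS k (T ∪ R) → ANE k (P ∩ T) → ANE k (T ∩ R) → ZIn (P ∩ T) (T ∪ R) →
    ZIn (T ∩ R) T → ZS S →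
    ∀ e > 0, ∃ δ > 0, ∀ h : Q ≃ₜ Q, (∀ x, dist (h x) x < δ) → (∀ x ∈ S, h x = x) →
      ∃ g : Q ≃ₜ Q, (∀ x, dist (g x) x < e) ∧ (∀ x ∈ P, g x = h x) ∧ (∀ x ∈ R, g x = x) ∧
        ∀ x ∈ S, g x = x

/-- a collar in place (helper81) -/
def J_COL : Prop :=
  ∀ (k : ℕ), 1 ≤ k → ∀ (Q : Type) [MetricSpace Q] [CompactSpace Q] (A : Set Q),
    Men k Q → MenS k A → ZS A → ∀ e > 0, ∃ T R : Set Q, IsClosed T ∧ IsClosed R ∧ A ⊆ T ∧
      T ∪ R = univ ∧ A ∩ R = ∅ ∧ (∀ x ∈ T, ∃ a ∈ A, dist x a < e) ∧ MenS k T ∧ MenS k (T ∩ R) ∧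
      ZIn (T ∩ R) T

/-- FRAGMENTATION: the result of the block -/
def J_FRAG : Prop :=
  ∀ (k : ℕ), 1 ≤ k → ∀ (M : Type) [MetricSpace M] [CompactSpace M], Men k M → ∀ ρ > 0,
    ∃ δ > 0, ∀ h : M ≃ₜ M, (∀ x, dist (h x) x < δ) → h ∈ SmallGen M ρ

end Sml

end Pool.Agent.Work.MP_017613_gt
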