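import Pool.Agent.Work.MP_017613_gt.Double
import Pool.Agent.Work.MP_017613_gt.Gp

/-!
The instance of `Chi.Theory` for the Menger manifolds which are homeomorphic to a given one.
-/

set_option linter.unusedSectionVars false

open Set Topology Metric

namespace Pool.Agent.Work.MP_017613_gt

namespace Chi

/-- the field `trel`, for the class `C` -/
def TRelP (k : ℕ) (C : ∀ (N : Type) [MetricSpace N] [CompactSpace N], Prop) : Prop :=
  ∀ (β : Type) [MetricSpace β] (X : Set β), IsCompact X → ANE k X → ∀ ε > 0, ∃ δ > 0,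
    ∀ (N N' : Type) [MetricSpace N] [CompactSpace N] [MetricSpace N'] [CompactSpace N'],
    C N → C N' → ∀ (l : N → β) (l' : N' → β), Soft k univ X l → Soft k univ X l' →
    ∀ (W : Set N) (W' : Set N'), ZS W → ZS W' → ∀ g : W ≃ₜ W',
    (∀ x : W, dist (l' (g x)) (l x) < δ) →
    ∃ θ : N ≃ₜ N', (∀ x : W, θ x = g x) ∧ ∀ x, dist (l' (θ x)) (l x) < ε

/-- the field `srel`, for the class `C` -/
def SRelP (k : ℕ) (C : ∀ (N : Type) [MetricSpace N] [CompactSpace N], Prop) : Prop :=
  ∀ (β β' : Type) [MetricSpace β] [MetricSpace β'] (X : Set β) (B : Set β'),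
    IsCompact X → IsCompact B → ANE k X → ANE k B → ∀ ε > 0, ∃ δ > 0, ∀ p : β → β', Soft k X B p →
    ∀ (N : Type) [MetricSpace N] [CompactSpace N], C N → ∀ u : N → β', Soft k univ B u →
    ∀ W : Set N, ZS W → ∀ w₀ : N → β, ContinuousOn w₀ W → MapsTo w₀ W X →
    (∀ x ∈ W, dist (p (w₀ x)) (u x) < δ) →
    ∃ w : N → β, Soft k univ X w ∧ EqOn w w₀ W ∧ ∀ x, dist (p (w x)) (u x) < ε

/-- nonempty compact Menger manifolds -/
def MenC (k : ℕ) (N : Type) [MetricSpace N] [CompactSpace N] : Prop := Nonempty N ∧ Men k N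

section

variable {k : ℕ} {M N : Type} [MetricSpace M] [CompactSpace M] [MetricSpace N] [CompactSpace N]

/-- a Menger manifold is a soft retract of itself along a Z-embedding -/
theorem collar_self (hS : SRelP k (MenC k)) (hM : MenC k M) : ∃ i r : M → M, Continuous i ∧
    Function.Injective i ∧ ZS (range i) ∧ Soft k univ univ r ∧ ∀ x, r (i x) = x := by
  have aM := men_ane hM.2
  obtain ⟨δ, hδ, h⟩ := hS M M univ univ isCompact_univ isCompact_univ aM aM 1 one_pos
  obtain ⟨i, hi, -, ii, zi, -⟩ := gp (P := M) aM hM.2.2.2 hM.2.1 isClosed_empty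
    (ContinuousMap.id M) (injOn_empty _) (by rw [image_empty]; exact ZS.empty) ZS.empty hδ
  let e : M ≃ₜ range i := (i.continuous.isClosedEmbedding ii).isEmbedding.toHomeomorph
  have he : ∀ x, (e x).1 = i x := fun x => rfl
  classical
  let w₀ : M → M := fun y => if hy : y ∈ range i then e.symm ⟨y, hy⟩ else y
  have hw₀ : ∀ y : range i, w₀ y = e.symm y := fun y => dif_pos y.2
  have hw₁ : ∀ x, w₀ (i x) = x := fun x => by
    have h1 := hw₀ (e x)
    rw [he, Homeomorph.symm_apply_apply] at h1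
    exact h1
  have c₀ : ContinuousOn w₀ (range i) := by
    rw [continuousOn_iff_continuous_domRestrict]
    exact e.symm.continuous.congr fun y => (hw₀ y).symm
  have d₀ : ∀ x ∈ range i, dist (w₀ x) x < δ := by
    rintro _ ⟨x, rfl⟩
    rw [hw₁ x, dist_comm]
    exact hi x
  obtain ⟨w, sw, ew, -⟩ := h (fun x => x) (Soft.refl univ) M hM (fun x => x) (Soft.refl univ)
    (range i) zi w₀ c₀ (fun _ _ => mem_univ _) d₀
  refine ⟨i, w, i.continuous, ii, zi, sw, fun x => ?_⟩
  rw [ew (mem_range_self x), hw₁]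

/-- the union of two copies of a soft retraction -/
theorem soft_fold {i : M → N} {r : N → M} (aM : ANE k (univ : Set M))
    (hi : Continuous i) (hz : ZS (range i)) [Nonempty M] (hr : Soft k univ univ r)
    (hri : ∀ x, r (i x) = x) :
    Soft k (univ : Set (Dbl (range i))) univ (fun z => r z.1.1) := by
  have := dbl_compact (range i)
  have hne : (range i).Nonempty := range_nonempty i
  have hc : Continuous r := continuousOn_univ.1 hr.1
  rw [← up_union_lo]
  refine Soft.union (isClosed_up _).isCompact (isClosed_lo _).isCompact isCompact_univ aM ?_ ?_ ?_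
  · exact Soft.precomp hr (e := fun z : Dbl (range i) => z.1.1)
      (e' := fun n => (homeoUp (range i) n).1) (by fun_prop) (fun _ _ => mem_univ _)
      (continuous_subtype_val.comp (homeoUp (range i)).continuous).continuousOn
      (fun n _ => (homeoUp (range i) n).2)
      (fun z hz => congrArg Subtype.val ((homeoUp (range i)).right_inv ⟨z, hz⟩)) (fun n _ => rfl)
  · exact Soft.precomp hr (e := fun z : Dbl (range i) => z.1.1)
      (e' := fun n => (homeoLo (range i) n).1) (by fun_prop) (fun _ _ => mem_univ _)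
      (continuous_subtype_val.comp (homeoLo (range i)).continuous).continuousOn
      (fun n _ => (homeoLo (range i) n).2)
      (fun z hz => congrArg Subtype.val ((homeoLo (range i)).right_inv ⟨z, hz⟩)) (fun n _ => rfl)
  · have c1 : Continuous fun m : M => (homeoMid hz.1 hne ⟨i m, mem_range_self m⟩).1 := by
      refine continuous_subtype_val.comp ((homeoMid hz.1 hne).continuous.comp ?_)
      exact Continuous.subtype_mk hi _
    refine Soft.precomp (Soft.refl (univ : Set M)) (e := fun z : Dbl (range i) => r z.1.1)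
      (e' := fun m => (homeoMid hz.1 hne ⟨i m, mem_range_self m⟩).1) ?_ (fun _ _ => mem_univ _)
      c1.continuousOn (fun m _ => (homeoMid hz.1 hne ⟨i m, mem_range_self m⟩).2) ?_ ?_
    · exact (hc.comp (by fun_prop)).continuousOn
    · rintro z hz'
      have h1 : z.1.2 = 0 := le_antisymm hz'.2 hz'.1
      have h2 : z.1.1 ∈ range i := mem_of_zero hz.1 hne h1
      obtain ⟨m, hm⟩ := h2
      refine Subtype.ext (Prod.ext ?_ ?_)
      · show i (r z.1.1) = z.1.1
        rw [← hm, hri]
      · exact h1.symm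
    · intro m _
      exact hri m

end

/-- **The theory of the Menger manifolds homeomorphic to `M₀`.** -/
noncomputable def theoryOf (k : ℕ) (M₀ : Type) [MetricSpace M₀] [CompactSpace M₀]
    (H : ∀ (N : Type) [MetricSpace N] [CompactSpace N], Subgroup (N ≃ₜ N))
    (conj : ∀ (N N' : Type) [MetricSpace N] [CompactSpace N] [MetricSpace N'] [CompactSpace N']
      (θ : N ≃ₜ N') (Ψ : N' ≃ₜ N'), Ψ ∈ H N' → (θ.trans Ψ).trans θ.symm ∈ H N)
    (trel : TRelP k (MenC k)) (srel : SRelP k (MenC k))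
    (small : ∃ δ > 0, ∀ Ψ : M₀ ≃ₜ M₀, (∀ x, dist (Ψ x) x < δ) → Ψ ∈ H M₀) : Theory k where
  Men N := MenC k N ∧ Nonempty (N ≃ₜ M₀)
  H := H
  ne _ _ _ h := h.1.1
  dim _ _ _ h := h.1.2.1
  ane _ _ _ h := men_ane h.1.2
  zd _ _ _ h := h.1.2.2.2
  conj := conj
  trel β _ X cX aX ε hε := by
    obtain ⟨δ, hδ, h⟩ := trel β X cX aX ε hε
    exact ⟨δ, hδ, fun N N' _ _ _ _ hN hN' => h N N' hN.1 hN'.1⟩
  srel β β' _ _ X B cX cB aX aB ε hε := by
    obtain ⟨δ, hδ, h⟩ := srel β β' X B cX cB aX aB ε hε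
    exact ⟨δ, hδ, fun p hp N _ _ hN => h p hp N hN.1⟩
  small M _ _ hM := by
    obtain ⟨δ₀, hδ₀, h⟩ := small
    obtain ⟨θ⟩ := hM.2
    obtain ⟨δ, hδ, hu⟩ := Metric.uniformContinuous_iff.1
      (CompactSpace.uniformContinuous_of_continuous θ.continuous) δ₀ hδ₀
    refine ⟨δ, hδ, fun Ψ hΨ => ?_⟩
    have h1 : (θ.symm.trans Ψ).trans θ ∈ H M₀ := h _ fun y => by
      have := hu (hΨ (θ.symm y))
      rw [θ.apply_symm_apply] at this
      exact this
    have h2 := conj M M₀ θ _ h1
    have h3 : (θ.trans ((θ.symm.trans Ψ).trans θ)).trans θ.symm = Ψ := by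
      ext x
      simp
    rw [h3] at h2
    exact h2
  collar M _ _ hM := by
    obtain ⟨i, r, h1, -, h3, h4, h5⟩ := collar_self srel hM.1
    exact ⟨M, inferInstance, inferInstance, i, r, hM, h1, h3, h4, h5⟩
  double M N _ _ _ _ i r hM hN hi hz hr hri := by
    have hinj : Function.Injective i := fun x y hxy => by rw [← hri x, hxy, hri y]
    obtain ⟨c, mD⟩ := double_field k M N i hM.1.2 hN.1.2 hi hinj hz
    have := hM.1.1
    have hne : Nonempty (Dbl (range i)) := by
      obtain ⟨x⟩ := hM.1.1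
      exact ⟨⟨(i x, 0), by
        show |(0 : ℝ)| = infDist (i x) (range i)
        rw [abs_zero, infDist_zero_of_mem (mem_range_self x)]⟩⟩
    have aM := men_ane hM.1.2
    obtain ⟨δ, hδ, h⟩ := trel M univ isCompact_univ aM 1 one_pos
    let g : (∅ : Set (Dbl (range i))) ≃ₜ (∅ : Set M) := Homeomorph.empty
    obtain ⟨θ, -, -⟩ := h (Dbl (range i)) M ⟨hne, mD⟩ hM.1 (fun z => r z.1.1) (fun x => x)
      (soft_fold aM hi hz hr hri) (Soft.refl univ) ∅ ∅ ZS.empty ZS.empty g
      (fun x => (x.2 : False).elim)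
    exact ⟨c, ⟨hne, mD⟩, hM.2.map fun e => θ.trans e⟩

end Chi

end Pool.Agent.Work.MP_017613_gt
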