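import Pool.Agent.Work.MP_017613_gt.Col
import Pool.Agent.Work.MP_017613_gt.TheoryOf
import Pool.Agent.Work.MP_017613_gt.MenBridge
import Pool.Agent.Work.MP_017613_gt.LocB
import Pool.Agent.Work.MP_017613_gt.SmallJ

/-!
Collars in place: the joint `J_COL` from the relative theorems.
-/

set_option linter.unusedSectionVars false

open Set Topology Metric

namespace Pool.Agent.Work.MP_017613_gt

namespace Col2

open Chi Rnd

variable {k : ℕ}

theorem menC_iff {N : Type} [MetricSpace N] [CompactSpace N] : MenC k N ↔ Rnd.Men k N :=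
  rnd_men_iff.symm

/-- left inverse of an injective map of a compact space, on its range -/
theorem exists_inv₀ {A B : Type*} [TopologicalSpace A] [CompactSpace A] [TopologicalSpace B]
    [T2Space B] (i : C(A, B)) (hi : Function.Injective i) (hne : Nonempty A) :
    ∃ j : B → A, (∀ x, j (i x) = x) ∧ ContinuousOn j (range i) := by
  classical
  refine ⟨Function.invFun i, Function.leftInverse_invFun hi, ?_⟩
  have he : IsClosedEmbedding i := i.continuous.isClosedEmbedding hi
  rw [continuousOn_iff_isClosed]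
  intro t ht
  refine ⟨i '' t, he.isClosedMap t ht, ?_⟩
  ext y
  constructor
  · rintro ⟨hy, x, rfl⟩
    refine ⟨⟨x, ?_, rfl⟩, mem_range_self x⟩
    have hy' : Function.invFun i (i x) ∈ t := hy
    rwa [Function.leftInverse_invFun hi] at hy'
  · rintro ⟨⟨x, hx, rfl⟩, -⟩
    refine ⟨?_, mem_range_self x⟩
    change Function.invFun i (i x) ∈ t
    rwa [Function.leftInverse_invFun hi]

/-- two-sided collars from `srel` -/
theorem collar2_of_srel (hS : SRelP k (MenC k)) : Collar2 k (Rnd.Men k) := by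
  classical
  intro A _ _ hA
  have hA' : MenC k A := menC_iff.2 hA
  have aA := hA.ane
  have zA : ZD A := DD.zd hA.dd
  have hne := hA.ne
  obtain ⟨δ, hδ, H⟩ := hS A A univ univ isCompact_univ isCompact_univ aA aA 1 one_pos
  obtain ⟨i₀, h1, -, h3, h4, -⟩ := gp aA zA hA.dim (P₀ := ∅)
    isClosed_empty (ContinuousMap.id A) (injOn_empty _) (by rw [image_empty]; exact ZS.empty)
    (B := ∅) ZS.empty hδ
  obtain ⟨i₁, h5, -, h7, h8, h9⟩ := gp aA zA hA.dim (P₀ := ∅)
    isClosed_empty (ContinuousMap.id A) (injOn_empty _) (by rw [image_empty]; exact ZS.empty)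
    (B := range i₀) h4 hδ
  have hdis : ∀ x y, i₀ x ≠ i₁ y := fun x y he => h9 y (notMem_empty y) ⟨x, he⟩
  obtain ⟨j₀, a1, a2⟩ := exists_inv₀ i₀ h3 hne
  obtain ⟨j₁, b1, b2⟩ := exists_inv₀ i₁ h7 hne
  let w₀ : A → A := fun x => if x ∈ range i₀ then j₀ x else j₁ x
  have e0 : EqOn w₀ j₀ (range i₀) := fun x hx => if_pos hx
  have e1 : EqOn w₀ j₁ (range i₁) := by
    rintro _ ⟨y, rfl⟩
    exact if_neg fun ⟨x, hx⟩ => hdis x y hx
  obtain ⟨r, r1, r2, -⟩ := H (fun x => x) (Soft.refl univ) A hA' (fun x => x) (Soft.refl univ)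
    (range i₀ ∪ range i₁) (h4.union h8) w₀
    ((a2.congr e0).union_of_isClosed (b2.congr e1) h4.1 h8.1) (fun x _ => mem_univ _) (by
      rintro x (⟨y, rfl⟩ | ⟨y, rfl⟩)
      · rw [e0 (mem_range_self y), a1, dist_comm]
        exact h1 y
      · rw [e1 (mem_range_self y), b1, dist_comm]
        exact h5 y)
  refine ⟨A, inferInstance, inferInstance, i₀, i₁, r, hA, i₀.continuous, i₁.continuous, h4, h8,
    hdis, r1, fun x => ?_, fun x => ?_⟩
  · rw [r2 (Or.inl (mem_range_self x)), e0 (mem_range_self x), a1]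
  · rw [r2 (Or.inr (mem_range_self x)), e1 (mem_range_self x), b1]

/-- `T_REL` over `Q` -/
theorem trel_over (hT : TRelP k (MenC k)) {Q : Type} [MetricSpace Q] [CompactSpace Q]
    (hQ : ANE k (univ : Set Q)) : Ball.TRel k (Rnd.Men k) Q := by
  intro ε hε
  obtain ⟨δ, hδ, h⟩ := hT Q univ isCompact_univ hQ ε hε
  exact ⟨δ, hδ, fun N N' _ _ _ _ hN hN' => h N N' (menC_iff.2 hN) (menC_iff.2 hN')⟩

theorem menS_iff {α : Type} [MetricSpace α] {D : Set α} :
    Rnd.MenS k D ↔ D.Nonempty ∧ Str.MenS (Men k) D := by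
  constructor
  · intro h
    have : CompactSpace D := isCompact_iff_compactSpace.1 h.cpt
    exact ⟨h.ne, this, (rnd_men_iff.1 h.men).2⟩
  · rintro ⟨hne, hc, h⟩
    exact menS_of_men (rnd_men_iff.2 ⟨hne.to_subtype, h⟩)

/-- **`J_COL`**. -/
theorem j_col (hT : ∀ k, 1 ≤ k → TRelP k (MenC k)) (hS : ∀ k, 1 ≤ k → SRelP k (MenC k)) :
    Sml.J_COL := by
  intro k hk Q _ _ A hQ hA zA e he
  rcases A.eq_empty_or_nonempty with rfl | hne
  · refine ⟨∅, univ, isClosed_empty, isClosed_univ, subset_rfl, by rw [empty_union],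
      by rw [empty_inter], fun x hx => hx.elim, ?_, ?_, ?_⟩
    · exact Loc.MenS.empty
    · rw [empty_inter]
      exact Loc.MenS.empty
    · rw [empty_inter]
      exact ZIn.empty _
  · have hQ' : Rnd.Men k Q := rnd_men_iff.2 ⟨⟨hne.choose⟩, hQ⟩
    obtain ⟨T, R, r, h1, h2, h3, h4, h5, h6, h7, -, h9, -⟩ := collar_place hQ'
      (collar2_of_srel (hS k hk)) (trel_over (hT k hk) hQ'.ane) zA (menS_iff.2 ⟨hne, hA⟩) he
    refine ⟨T, R, h1.cpt.isClosed, h2.cpt.isClosed, h4.subset, h3,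
      disjoint_iff_inter_eq_empty.1 h5, fun x hx => ?_, (menS_iff.1 h1).2, (menS_iff.1 h6).2, h7⟩
    obtain ⟨z, hz, hxz⟩ := mem_thickening_iff.1 (h9 hx)
    exact (infDist_le_dist_of_mem hz).trans_lt hxz

end Col2

end Pool.Agent.Work.MP_017613_gt
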