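import Pool.Agent.Work.MP_017613_gt.Defs
import Pool.Agent.Work.MP_017613_gt.Cub

/-!
# Cubes of the grid are standard cubes; subdivision

`emb m w : R^(dm w) → R^N` maps `(Cb (dm w), Bd (dm w))` homeomorphically onto
`(cube m w, bdry m w)`, the inverse is the restriction of `prj m w`.
-/

open Set Topology Metric

namespace MG

open Pool.Agent.Work.MP_017613_gt (Cb Bd)

variable {N : ℕ}

/-- enumeration of the free coordinates of a cube -/
noncomputable def idx (w : Fin N → ℤ) : Fin (dm w) ≃ {i // i ∈ Finset.univ.filter fun i => Odd (w i)} :=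
  ((Finset.univ.filter fun i => Odd (w i)).equivFin).symm

/-- affine embedding of the standard cube onto `cube m w` -/
noncomputable def emb (m : ℕ) (w : Fin N → ℤ) (t : Fin (dm w) → ℝ) : Fin N → ℝ := fun i =>
  if h : Odd (w i) then (((w i / 2 : ℤ) : ℝ) + t ((idx w).symm ⟨i, by simpa using h⟩)) / m
  else ((w i / 2 : ℤ) : ℝ) / m

/-- affine projection inverse to `emb` -/
noncomputable def prj (m : ℕ) (w : Fin N → ℤ) (x : Fin N → ℝ) : Fin (dm w) → ℝ := fun j =>
  m * x (idx w j : Fin N) - ((w (idx w j : Fin N) / 2 : ℤ) : ℝ)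

lemma continuous_emb (m : ℕ) (w : Fin N → ℤ) : Continuous (emb m w) := by
  apply continuous_pi
  intro i
  unfold emb
  by_cases h : Odd (w i)
  · simp only [h, dif_pos]
    exact (continuous_const.add (continuous_apply _)).div_const _
  · simp only [h, dif_neg, not_false_eq_true]
    exact continuous_const

lemma continuous_prj (m : ℕ) (w : Fin N → ℤ) : Continuous (prj m w) := by
  apply continuous_pi
  intro j
  exact (continuous_const.mul (continuous_apply _)).sub continuous_const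

lemma idx_odd (w : Fin N → ℤ) (j : Fin (dm w)) : Odd (w (idx w j : Fin N)) := by
  exact (Finset.mem_filter.1 (idx w j).2).2

lemma emb_idx {m : ℕ} (w : Fin N → ℤ) (t : Fin (dm w) → ℝ) (j : Fin (dm w)) :
    emb m w t (idx w j : Fin N) = (((w (idx w j : Fin N) / 2 : ℤ) : ℝ) + t j) / m := by
  unfold emb
  rw [dif_pos (idx_odd w j)]
  congr 3
  exact (idx w).symm_apply_apply j

lemma prj_emb {m : ℕ} (hm : 0 < m) (w : Fin N → ℤ) (t : Fin (dm w) → ℝ) :
    prj m w (emb m w t) = t := by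
  have hm' : (m:ℝ) ≠ 0 := by exact_mod_cast hm.ne'
  funext j
  unfold prj
  rw [emb_idx, mul_div_cancel₀ _ hm']
  ring

lemma half_even {a : ℤ} (h : ¬ Odd a) : a / 2 = (a + 1) / 2 := by
  rw [Int.not_odd_iff_even] at h
  obtain ⟨b, hb⟩ := h
  omega

lemma half_odd {a : ℤ} (h : Odd a) : (a + 1) / 2 = a / 2 + 1 := by
  obtain ⟨b, hb⟩ := h
  omega

lemma emb_prj {m : ℕ} (hm : 0 < m) {w : Fin N → ℤ} {x : Fin N → ℝ} (hx : x ∈ cube m w) :
    emb m w (prj m w x) = x := by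
  have hm' : (m:ℝ) ≠ 0 := by exact_mod_cast hm.ne'
  funext i
  by_cases h : Odd (w i)
  · obtain ⟨j, hj⟩ : ∃ j, (idx w j : Fin N) = i :=
      ⟨(idx w).symm ⟨i, by simpa using h⟩, by simp⟩
    subst hj
    rw [emb_idx]
    unfold prj
    rw [add_sub_cancel, mul_div_cancel_left₀ _ hm']
  · unfold emb
    rw [dif_neg h]
    have h1 := hx i
    rw [← half_even h] at h1
    have h2 : m * x i = ((w i / 2 : ℤ) : ℝ) := le_antisymm h1.2 h1.1
    rw [← h2, mul_div_cancel_left₀ _ hm']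

lemma prj_mem {m : ℕ} {w : Fin N → ℤ} {x : Fin N → ℝ} (hx : x ∈ cube m w) :
    prj m w x ∈ Cb (dm w) := by
  refine ⟨fun j => ?_, fun j => ?_⟩
  · have h1 := hx (idx w j : Fin N)
    show (0:ℝ) ≤ _
    unfold prj
    linarith [h1.1]
  · have h1 := hx (idx w j : Fin N)
    rw [half_odd (idx_odd w j)] at h1
    show _ ≤ (1:ℝ)
    unfold prj
    have := h1.2
    push_cast at this
    linarith

lemma emb_mem {m : ℕ} (hm : 0 < m) {w : Fin N → ℤ} {t : Fin (dm w) → ℝ} (ht : t ∈ Cb (dm w)) :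
    emb m w t ∈ cube m w := by
  have hm' : (m:ℝ) ≠ 0 := by exact_mod_cast hm.ne'
  intro i
  by_cases h : Odd (w i)
  · obtain ⟨j, hj⟩ : ∃ j, (idx w j : Fin N) = i :=
      ⟨(idx w).symm ⟨i, by simpa using h⟩, by simp⟩
    subst hj
    rw [emb_idx, mul_div_cancel₀ _ hm', half_odd (idx_odd w j)]
    have h0 : (0:ℝ) ≤ t j := ht.1 j
    have h1 : t j ≤ 1 := ht.2 j
    push_cast
    constructor <;> linarith
  · unfold emb
    rw [dif_neg h, mul_div_cancel₀ _ hm', ← half_even h]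
    exact ⟨le_rfl, le_rfl⟩

/-- boundary points in terms of coordinates -/
lemma mem_bdry_iff {m : ℕ} {w : Fin N → ℤ} {x : Fin N → ℝ} (hx : x ∈ cube m w) :
    x ∈ bdry m w ↔ prj m w x ∈ Bd (dm w) := by
  have key : ∀ i, Odd (w i) → (car m x i = w i ↔
      ¬ (m * x i - ((w i / 2 : ℤ) : ℝ) = 0 ∨ m * x i - ((w i / 2 : ℤ) : ℝ) = 1)) := by
    intro i hi
    have h1 := hx i
    rw [half_odd hi] at h1
    push_cast at h1
    have e : w i = 2 * (w i / 2) + 1 := by obtain ⟨b, hb⟩ := hi; omega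
    set a := w i / 2 with ha
    constructor
    · intro h hc
      rcases hc with hc | hc
      · have h2 : m * x i = (a:ℝ) := by linarith
        have : car m x i = a + a := by
          unfold car
          rw [h2, Int.floor_intCast, Int.ceil_intCast]
        omega
      · have h2 : m * x i = ((a + 1 : ℤ):ℝ) := by push_cast; linarith
        have : car m x i = (a + 1) + (a + 1) := by
          unfold car
          rw [h2, Int.floor_intCast, Int.ceil_intCast]
        omega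
    · intro h
      rw [not_or] at h
      have h2 : (a:ℝ) < m * x i := lt_of_le_of_ne h1.1 fun hc => h.1 (by linarith)
      have h3 : m * x i < a + 1 := lt_of_le_of_ne h1.2 fun hc => h.2 (by linarith)
      have h4 : ⌊(m:ℝ) * x i⌋ = a := by
        rw [Int.floor_eq_iff]; exact ⟨h1.1, h3⟩
      have h5 : ⌈(m:ℝ) * x i⌉ = a + 1 := by
        rw [Int.ceil_eq_iff]; push_cast; constructor <;> linarith
      unfold car
      omega
  have key2 : ∀ i, ¬ Odd (w i) → car m x i = w i := by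
    intro i hi
    have h1 := hx i
    rw [← half_even hi] at h1
    have h2 : m * x i = ((w i / 2 : ℤ) : ℝ) := le_antisymm h1.2 h1.1
    unfold car
    rw [h2, Int.floor_intCast, Int.ceil_intCast]
    rw [Int.not_odd_iff_even] at hi
    obtain ⟨b, hb⟩ := hi
    omega
  constructor
  · rintro ⟨_, hne⟩
    refine ⟨prj_mem hx, ?_⟩
    by_contra hc
    push Not at hc
    apply hne
    funext i
    by_cases h : Odd (w i)
    · obtain ⟨j, hj⟩ : ∃ j, (idx w j : Fin N) = i :=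
        ⟨(idx w).symm ⟨i, by simpa using h⟩, by simp⟩
      subst hj
      rw [key _ h, not_or]
      exact hc j
    · exact key2 i h
  · rintro ⟨_, j, hj⟩
    refine ⟨hx, fun h => ?_⟩
    have h1 := congrFun h (idx w j : Fin N)
    rw [key _ (idx_odd w j)] at h1
    exact h1 hj

lemma emb_mem_bdry {m : ℕ} (hm : 0 < m) {w : Fin N → ℤ} {t : Fin (dm w) → ℝ}
    (ht : t ∈ Bd (dm w)) : emb m w t ∈ bdry m w := by
  rw [mem_bdry_iff (emb_mem hm ht.1), prj_emb hm]
  exact ht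

lemma prj_mem_Bd {m : ℕ} {w : Fin N → ℤ} {x : Fin N → ℝ} (hx : x ∈ bdry m w) :
    prj m w x ∈ Bd (dm w) := (mem_bdry_iff hx.1).1 hx

/-! ### Subdivision -/

lemma car_lo {m : ℕ} (x : Fin N → ℝ) (i : Fin N) : car m x i / 2 = ⌊(m:ℝ) * x i⌋ :=
  (floor_ceil _).1

lemma car_hi {m : ℕ} (x : Fin N → ℝ) (i : Fin N) : (car m x i + 1) / 2 = ⌈(m:ℝ) * x i⌉ :=
  (floor_ceil _).2

lemma cube_car_mul {m n : ℕ} (hn : 0 < n) (x : Fin N → ℝ) :
    cube (m * n) (car (m * n) x) ⊆ cube m (car m x) := by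
  have hn' : (0:ℝ) < n := by exact_mod_cast hn
  intro y hy i
  have h := hy i
  rw [car_lo, car_hi] at h
  rw [car_lo, car_hi]
  push_cast at h
  constructor
  · have h1 : (n:ℤ) * ⌊(m:ℝ) * x i⌋ ≤ ⌊((m:ℝ) * n) * x i⌋ := by
      rw [Int.le_floor]
      push_cast
      have := Int.floor_le ((m:ℝ) * x i)
      nlinarith
    have h2 : ((n:ℝ)) * (⌊(m:ℝ) * x i⌋ : ℝ) ≤ ((m:ℝ) * n) * y i := by
      refine le_trans ?_ h.1
      exact_mod_cast h1
    have h3 : (n:ℝ) * (⌊(m:ℝ) * x i⌋ : ℝ) ≤ n * (m * y i) := by linarith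
    exact le_of_mul_le_mul_left h3 hn'
  · have h1 : ⌈((m:ℝ) * n) * x i⌉ ≤ (n:ℤ) * ⌈(m:ℝ) * x i⌉ := by
      rw [Int.ceil_le]
      push_cast
      have := Int.le_ceil ((m:ℝ) * x i)
      nlinarith
    have h2 : ((m:ℝ) * n) * y i ≤ ((n:ℝ)) * (⌈(m:ℝ) * x i⌉ : ℝ) := by
      refine le_trans h.2 ?_
      exact_mod_cast h1
    have h3 : (n:ℝ) * (m * y i) ≤ (n:ℝ) * (⌈(m:ℝ) * x i⌉ : ℝ) := by linarith
    exact le_of_mul_le_mul_left h3 hn'

/-- subdivision of a cubical set -/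
lemma IsCub.mul {m : ℕ} {P : Set (Fin N → ℝ)} (hP : IsCub m P) {n : ℕ} (hn : 0 < n) :
    IsCub (m * n) P where
  bdd := hP.bdd
  sat := fun x hx => (cube_car_mul hn x).trans (hP.sat x hx)

lemma odd_car_iff {t : ℝ} : Odd (⌊t⌋ + ⌈t⌉) ↔ ∀ a : ℤ, t ≠ a := by
  constructor
  · rintro h a rfl
    rw [Int.floor_intCast, Int.ceil_intCast] at h
    obtain ⟨b, hb⟩ := h
    omega
  · intro h
    have h1 : ⌊t⌋ ≤ ⌈t⌉ := Int.floor_le_ceil t
    have h2 : ⌈t⌉ ≤ ⌊t⌋ + 1 := Int.ceil_le_floor_add_one t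
    have h3 : ⌊t⌋ ≠ ⌈t⌉ := by
      intro hc
      apply h ⌊t⌋
      apply le_antisymm
      · have := Int.le_ceil t
        rwa [← hc] at this
      · exact Int.floor_le t
    exact ⟨⌊t⌋, by omega⟩

lemma dm_car_mul_le {m n : ℕ} (x : Fin N → ℝ) : dm (car (m * n) x) ≤ dm (car m x) := by
  apply Finset.card_le_card
  intro i hi
  simp only [Finset.mem_filter, Finset.mem_univ, true_and] at hi ⊢
  unfold car at hi ⊢
  rw [odd_car_iff] at hi ⊢
  intro a ha
  apply hi (n * a)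
  push_cast
  rw [mul_right_comm, ha]
  ring

/-! ### Products with the unit interval -/

lemma dm_cons (w : Fin (N + 1) → ℤ) :
    dm w = (if Odd (w 0) then 1 else 0) + dm (Fin.tail w) := by
  unfold dm
  rw [Finset.card_filter, Finset.card_filter, Fin.sum_univ_succ]
  rfl

lemma dm_le_succ_tail (w : Fin (N + 1) → ℤ) : dm w ≤ dm (Fin.tail w) + 1 := by
  rw [dm_cons]
  split_ifs <;> omega

lemma car_tail {m : ℕ} (x : Fin (N + 1) → ℝ) : Fin.tail (car m x) = car m (Fin.tail x) := rfl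

/-- `I × P` -/
def prodI (P : Set (Fin N → ℝ)) : Set (Fin (N + 1) → ℝ) :=
  {x | 0 ≤ x 0 ∧ x 0 ≤ 1 ∧ Fin.tail x ∈ P}

/-- `{0, 1} × P` -/
def endsI (P : Set (Fin N → ℝ)) : Set (Fin (N + 1) → ℝ) :=
  {x | (x 0 = 0 ∨ x 0 = 1) ∧ Fin.tail x ∈ P}

/-- `{0} × P` -/
def botI (P : Set (Fin N → ℝ)) : Set (Fin (N + 1) → ℝ) :=
  {x | x 0 = 0 ∧ Fin.tail x ∈ P}

lemma endsI_subset (P : Set (Fin N → ℝ)) : endsI P ⊆ prodI P := by
  rintro x ⟨h | h, hx⟩
  · exact ⟨h.ge, by rw [h]; exact zero_le_one, hx⟩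
  · exact ⟨by rw [h]; exact zero_le_one, h.le, hx⟩

lemma botI_subset (P : Set (Fin N → ℝ)) : botI P ⊆ prodI P :=
  fun _ h => ⟨h.1.ge, by rw [h.1]; exact zero_le_one, h.2⟩

lemma mem_cube_tail {m : ℕ} {w : Fin (N + 1) → ℤ} {x : Fin (N + 1) → ℝ} (h : x ∈ cube m w) :
    Fin.tail x ∈ cube m (Fin.tail w) := fun i => h i.succ

lemma bdd_prodI {P : Set (Fin N → ℝ)} (hP : Bornology.IsBounded P) :
    Bornology.IsBounded (prodI P) := by
  obtain ⟨B, hB⟩ := hP.exists_norm_le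
  apply isBounded_iff_forall_norm_le.2
  refine ⟨max |B| 1, fun x hx => ?_⟩
  rw [pi_norm_le_iff_of_nonneg (by positivity)]
  intro i
  refine Fin.cases ?_ (fun i => ?_) i
  · rw [Real.norm_eq_abs, abs_of_nonneg hx.1]
    exact hx.2.1.trans (le_max_right _ _)
  · exact ((norm_le_pi_norm (Fin.tail x) i).trans (hB _ hx.2.2)).trans
      ((le_abs_self B).trans (le_max_left _ _))

lemma IsCub.prodI {m : ℕ} {P : Set (Fin N → ℝ)} (hP : IsCub m P) (hm : 0 < m) :
    IsCub m (prodI P) where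
  bdd := bdd_prodI hP.bdd
  sat := by
    intro x hx y hy
    have hm' : (0:ℝ) < m := by exact_mod_cast hm
    have h0 := hy 0
    rw [car_lo, car_hi] at h0
    refine ⟨?_, ?_, hP.sat _ hx.2.2 (mem_cube_tail hy)⟩
    · have h1 : (0:ℤ) ≤ ⌊(m:ℝ) * x 0⌋ := by
        rw [Int.le_floor]
        push_cast
        exact mul_nonneg hm'.le hx.1
      have h2 : (0:ℝ) ≤ m * y 0 := le_trans (by exact_mod_cast h1) h0.1
      exact nonneg_of_mul_nonneg_right h2 hm'
    · have h1 : ⌈(m:ℝ) * x 0⌉ ≤ (m:ℤ) := by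
        rw [Int.ceil_le]
        push_cast
        nlinarith [hx.2.1]
      have h2 : m * y 0 ≤ (m:ℝ) := h0.2.trans (by exact_mod_cast h1)
      have h3 : (m:ℝ) * y 0 ≤ m * 1 := by linarith
      exact le_of_mul_le_mul_left h3 hm'

/-- a coordinate equal to `a/m`, `a` an integer, is constant on the carrier cube -/
lemma coord_const {m : ℕ} (hm : 0 < m) {x y : Fin N → ℝ} {i : Fin N} {a : ℤ} (ha : m * x i = a)
    (hy : y ∈ cube m (car m x)) : y i = x i := by
  have hm' : (m:ℝ) ≠ 0 := by exact_mod_cast hm.ne'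
  have h := hy i
  rw [car_lo, car_hi, ha, Int.floor_intCast, Int.ceil_intCast] at h
  have h1 : (m:ℝ) * y i = m * x i := by rw [ha]; exact le_antisymm h.2 h.1
  exact mul_left_cancel₀ hm' h1

lemma IsCub.endsI {m : ℕ} {P : Set (Fin N → ℝ)} (hP : IsCub m P) (hm : 0 < m) :
    IsCub m (endsI P) := by
  refine (hP.prodI hm).sub (endsI_subset P) fun x hx y hy => ?_
  refine ⟨?_, hP.sat _ hx.2 (mem_cube_tail hy)⟩
  rcases hx.1 with h | h
  · left
    rw [coord_const hm (a := 0) (by rw [h]; simp) hy, h]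
  · right
    rw [coord_const hm (a := m) (by rw [h]; simp) hy, h]

lemma IsCub.botI {m : ℕ} {P : Set (Fin N → ℝ)} (hP : IsCub m P) (hm : 0 < m) :
    IsCub m (botI P) := by
  refine (hP.prodI hm).sub (botI_subset P) fun x hx y hy => ?_
  refine ⟨?_, hP.sat _ hx.2 (mem_cube_tail hy)⟩
  rw [coord_const hm (a := 0) (by rw [hx.1]; simp) hy, hx.1]

/-! ### The standard cube -/

lemma mem_Cb {j : ℕ} {x : Fin j → ℝ} : x ∈ Cb j ↔ ∀ i, 0 ≤ x i ∧ x i ≤ 1 := by
  simp only [Cb, mem_Icc, Pi.le_def, Pi.zero_apply, Pi.one_apply]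
  exact ⟨fun h i => ⟨h.1 i, h.2 i⟩, fun h => ⟨fun i => (h i).1, fun i => (h i).2⟩⟩

lemma coord_Icc {m : ℕ} (hm : 0 < m) {x y : Fin N → ℝ} {i : Fin N} (hx : 0 ≤ x i ∧ x i ≤ 1)
    (hy : y ∈ cube m (car m x)) : 0 ≤ y i ∧ y i ≤ 1 := by
  have hm' : (0:ℝ) < m := by exact_mod_cast hm
  have h0 := hy i
  rw [car_lo, car_hi] at h0
  constructor
  · have h1 : (0:ℤ) ≤ ⌊(m:ℝ) * x i⌋ := by
      rw [Int.le_floor]
      push_cast
      exact mul_nonneg hm'.le hx.1
    have h2 : (0:ℝ) ≤ m * y i := le_trans (by exact_mod_cast h1) h0.1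
    exact nonneg_of_mul_nonneg_right h2 hm'
  · have h1 : ⌈(m:ℝ) * x i⌉ ≤ (m:ℤ) := by
      rw [Int.ceil_le]
      push_cast
      nlinarith [hx.2]
    have h2 : m * y i ≤ (m:ℝ) := h0.2.trans (by exact_mod_cast h1)
    have h3 : (m:ℝ) * y i ≤ m * 1 := by linarith
    exact le_of_mul_le_mul_left h3 hm'

lemma isCub_Cb {m : ℕ} (hm : 0 < m) (j : ℕ) : IsCub m (Cb j) where
  bdd := isCompact_Icc.isBounded
  sat := by
    intro x hx y hy
    rw [mem_Cb] at hx ⊢
    exact fun i => coord_Icc hm (hx i) hy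

lemma isCub_Bd {m : ℕ} (hm : 0 < m) (j : ℕ) : IsCub m (Bd j) := by
  refine (isCub_Cb hm j).sub (fun x hx => hx.1) fun x hx y hy => ?_
  refine ⟨(isCub_Cb hm j).sat x hx.1 hy, ?_⟩
  obtain ⟨i, h | h⟩ := hx.2
  · refine ⟨i, Or.inl ?_⟩
    rw [coord_const hm (a := 0) (by rw [h]; simp) hy, h]
  · refine ⟨i, Or.inr ?_⟩
    rw [coord_const hm (a := m) (by rw [h]; simp) hy, h]

lemma dm_le (w : Fin N → ℤ) : dm w ≤ N := by
  have := Finset.card_le_univ (Finset.univ.filter fun i => Odd (w i))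
  simpa [dm] using this

/-- cubes of the boundary of `I^j` have dimension `< j` -/
lemma dm_car_Bd {m : ℕ} {j : ℕ} {x : Fin j → ℝ} (hx : x ∈ Bd j) : dm (car m x) < j := by
  obtain ⟨i, hi⟩ := hx.2
  have hne : ¬ Odd (car m x i) := by
    unfold car
    rw [odd_car_iff]
    push Not
    rcases hi with h | h
    · exact ⟨0, by rw [h]; simp⟩
    · exact ⟨m, by rw [h]; simp⟩
  have : (Finset.univ.filter fun i => Odd (car m x i)) ⊂ Finset.univ := by
    rw [Finset.ssubset_univ_iff]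
    intro h
    apply hne
    have : i ∈ (Finset.univ.filter fun i => Odd (car m x i)) := by rw [h]; exact Finset.mem_univ i
    exact (Finset.mem_filter.1 this).2
  have := Finset.card_lt_card this
  simpa [dm] using this

end MG
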