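import Mathlib

/-!
# The digit model of the universal Menger compactum

`Bad l x`: the `(l+1)`-st ternary digit of `x` is `1` in every ternary expansion of `x`, that is,
`3 ^ l * x` lies in an open middle third.
`mu k N`: the points of the cube `[0,1]^N` with at most `k` bad coordinates at every level.
-/

open Set

namespace MG

/-- the `(l+1)`-st ternary digit of `x` is necessarily `1` -/
def Bad (l : ℕ) (x : ℝ) : Prop := 1 / 3 < Int.fract (3 ^ l * x) ∧ Int.fract (3 ^ l * x) < 2 / 3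

open Classical in
/-- the number of bad coordinates at level `l` -/
noncomputable def nb {N : ℕ} (l : ℕ) (x : Fin N → ℝ) : ℕ :=
  (Finset.univ.filter fun i => Bad l (x i)).card

/-- at most `k` bad coordinates at all levels `< m` -/
def Lev (k N m : ℕ) : Set (Fin N → ℝ) :=
  {x | (∀ i, x i ∈ Icc (0:ℝ) 1) ∧ ∀ l < m, nb l x ≤ k}

/-- the `k`-dimensional Menger compactum in `[0,1]^N` -/
def mu (k N : ℕ) : Set (Fin N → ℝ) :=
  {x | (∀ i, x i ∈ Icc (0:ℝ) 1) ∧ ∀ l, nb l x ≤ k}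

/-! ## Badness in terms of integers -/

lemma pow3_pos (l : ℕ) : (0:ℝ) < 3 ^ l := by positivity

/-- badness through a nearby integer -/
lemma bad_iff_exists {l : ℕ} {x : ℝ} :
    Bad l x ↔ ∃ n : ℤ, (n:ℝ) + 1 / 3 < 3 ^ l * x ∧ 3 ^ l * x < n + 2 / 3 := by
  constructor
  · rintro ⟨h1, h2⟩
    refine ⟨⌊3 ^ l * x⌋, ?_, ?_⟩
    · have := Int.floor_add_fract (3 ^ l * x)
      linarith
    · have := Int.floor_add_fract (3 ^ l * x)
      linarith
  · rintro ⟨n, h1, h2⟩
    have hf : ⌊(3 ^ l * x : ℝ)⌋ = n := by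
      rw [Int.floor_eq_iff]
      constructor <;> linarith
    have : Int.fract (3 ^ l * x) = 3 ^ l * x - n := by
      rw [Int.fract, hf]
    constructor
    · rw [this]; linarith
    · rw [this]; linarith

lemma isOpen_bad (l : ℕ) : IsOpen {x : ℝ | Bad l x} := by
  have : {x : ℝ | Bad l x} = ⋃ n : ℤ, {x : ℝ | (n:ℝ) + 1 / 3 < 3 ^ l * x} ∩
      {x : ℝ | 3 ^ l * x < n + 2 / 3} := by
    ext x
    simp only [mem_ofPred_eq, mem_iUnion, mem_inter_iff]
    exact bad_iff_exists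
  rw [this]
  refine isOpen_iUnion fun n => IsOpen.inter ?_ ?_
  · exact isOpen_lt (by fun_prop) (by fun_prop)
  · exact isOpen_lt (by fun_prop) (by fun_prop)

/-- `nb l x ≤ k` says: no `k+1` coordinates are bad together -/
lemma nb_le_iff {N : ℕ} {l k : ℕ} {x : Fin N → ℝ} :
    nb l x ≤ k ↔ ∀ S : Finset (Fin N), S.card = k + 1 → ∃ i ∈ S, ¬ Bad l (x i) := by
  classical
  constructor
  · intro h S hS
    by_contra hcon
    push Not at hcon
    have hsub : S ⊆ Finset.univ.filter fun i => Bad l (x i) := by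
      intro i hi
      simp [hcon i hi]
    have := Finset.card_le_card hsub
    unfold nb at h
    have h' : (Finset.univ.filter fun i => Bad l (x i)).card ≤ k := by convert h
    omega
  · intro h
    by_contra hcon
    push Not at hcon
    have h' : k + 1 ≤ (Finset.univ.filter fun i => Bad l (x i)).card := by
      unfold nb at hcon
      have : k < (Finset.univ.filter fun i => Bad l (x i)).card := by convert hcon
      omega
    obtain ⟨S, hS, hc⟩ := Finset.exists_subset_card_eq h'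
    obtain ⟨i, hi, hb⟩ := h S hc
    have := hS hi
    simp only [Finset.mem_filter, Finset.mem_univ, true_and] at this
    exact hb this

lemma nb_mono {N : ℕ} {l : ℕ} {x y : Fin N → ℝ} (h : ∀ i, Bad l (x i) → Bad l (y i)) :
    nb l x ≤ nb l y := by
  classical
  unfold nb
  apply Finset.card_le_card
  intro i hi
  simp only [Finset.mem_filter, Finset.mem_univ, true_and] at hi ⊢
  exact h i hi

lemma isClosed_nb_le {N : ℕ} (l k : ℕ) : IsClosed {x : Fin N → ℝ | nb l x ≤ k} := by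
  have : {x : Fin N → ℝ | nb l x ≤ k} =
      ⋂ S : Finset (Fin N), ⋂ _ : S.card = k + 1, ⋃ i ∈ S, {x : Fin N → ℝ | ¬ Bad l (x i)} := by
    ext x
    simp only [mem_ofPred_eq, mem_iInter, mem_iUnion, exists_prop]
    exact nb_le_iff
  rw [this]
  refine isClosed_iInter fun S => isClosed_iInter fun _ => ?_
  refine Set.Finite.isClosed_biUnion (Finset.finite_toSet S) fun i _ => ?_
  have h2 : IsOpen {x : Fin N → ℝ | Bad l (x i)} :=
    IsOpen.preimage (f := fun x : Fin N → ℝ => x i) (continuous_apply i) (isOpen_bad l)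
  exact h2.isClosed_compl

lemma isClosed_cube (N : ℕ) : IsClosed {x : Fin N → ℝ | ∀ i, x i ∈ Icc (0:ℝ) 1} := by
  simp only [ofPred_forall]
  exact isClosed_iInter fun i => isClosed_Icc.preimage (continuous_apply i)

lemma isCompact_cube (N : ℕ) : IsCompact {x : Fin N → ℝ | ∀ i, x i ∈ Icc (0:ℝ) 1} := by
  have : {x : Fin N → ℝ | ∀ i, x i ∈ Icc (0:ℝ) 1} = Set.pi univ fun _ => Icc (0:ℝ) 1 := by
    ext x; simp only [mem_ofPred_eq, Set.mem_pi, mem_univ, forall_true_left]
  rw [this]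
  exact isCompact_univ_pi fun _ => isCompact_Icc

lemma isClosed_Lev (k N m : ℕ) : IsClosed (Lev k N m) := by
  have : Lev k N m = {x : Fin N → ℝ | ∀ i, x i ∈ Icc (0:ℝ) 1} ∩
      ⋂ l, ⋂ _ : l < m, {x : Fin N → ℝ | nb l x ≤ k} := by
    ext x; simp [Lev]
  rw [this]
  exact (isClosed_cube N).inter (isClosed_iInter fun l => isClosed_iInter fun _ =>
    isClosed_nb_le l k)

lemma isClosed_mu (k N : ℕ) : IsClosed (mu k N) := by
  have : mu k N = {x : Fin N → ℝ | ∀ i, x i ∈ Icc (0:ℝ) 1} ∩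
      ⋂ l, {x : Fin N → ℝ | nb l x ≤ k} := by
    ext x; simp [mu]
  rw [this]
  exact (isClosed_cube N).inter (isClosed_iInter fun l => isClosed_nb_le l k)

lemma mu_subset_cube (k N : ℕ) : mu k N ⊆ {x : Fin N → ℝ | ∀ i, x i ∈ Icc (0:ℝ) 1} :=
  fun _ hx => hx.1

lemma isCompact_mu (k N : ℕ) : IsCompact (mu k N) :=
  (isCompact_cube N).of_isClosed_subset (isClosed_mu k N) (mu_subset_cube k N)

lemma mu_eq_iInter (k N : ℕ) : mu k N = ⋂ m, Lev k N m := by
  ext x
  simp only [mu, Lev, mem_iInter, mem_ofPred_eq]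
  constructor
  · rintro ⟨h1, h2⟩ m
    exact ⟨h1, fun l _ => h2 l⟩
  · intro h
    exact ⟨(h 0).1, fun l => (h (l+1)).2 l (Nat.lt_succ_self l)⟩

lemma Lev_anti {k N m m' : ℕ} (h : m ≤ m') : Lev k N m' ⊆ Lev k N m :=
  fun _ hx => ⟨hx.1, fun l hl => hx.2 l (lt_of_lt_of_le hl h)⟩

lemma mu_subset_Lev (k N m : ℕ) : mu k N ⊆ Lev k N m := fun _ hx => ⟨hx.1, fun l _ => hx.2 l⟩

/-! ## The relation `Stay` -/

/-- `y` lies in every closed triadic interval of level `≤ l` which contains `x` -/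
def Stay (l : ℕ) (x y : ℝ) : Prop := (⌊3 ^ l * x⌋ : ℝ) ≤ 3 ^ l * y ∧ 3 ^ l * y ≤ (⌈3 ^ l * x⌉ : ℝ)

lemma Stay.refl (l : ℕ) (x : ℝ) : Stay l x x := ⟨Int.floor_le _, Int.le_ceil _⟩

/-- integer form -/
lemma stay_iff {l : ℕ} {x y : ℝ} :
    Stay l x y ↔ ∀ n : ℤ, ((n:ℝ) ≤ 3 ^ l * x → (n:ℝ) ≤ 3 ^ l * y) ∧
      (3 ^ l * x ≤ n → 3 ^ l * y ≤ n) := by
  constructor
  · rintro ⟨h1, h2⟩ n
    constructor
    · intro h
      have : n ≤ ⌊3 ^ l * x⌋ := Int.le_floor.mpr h
      have h3 : (n:ℝ) ≤ (⌊3 ^ l * x⌋ : ℝ) := by exact_mod_cast this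
      linarith
    · intro h
      have : ⌈3 ^ l * x⌉ ≤ n := Int.ceil_le.mpr h
      have h3 : (⌈3 ^ l * x⌉ : ℝ) ≤ n := by exact_mod_cast this
      linarith
  · intro h
    exact ⟨(h _).1 (Int.floor_le _), (h _).2 (Int.le_ceil _)⟩

lemma Stay.trans {l : ℕ} {x y z : ℝ} (h1 : Stay l x y) (h2 : Stay l y z) : Stay l x z := by
  rw [stay_iff] at *
  intro n
  exact ⟨fun h => (h2 n).1 ((h1 n).1 h), fun h => (h2 n).2 ((h1 n).2 h)⟩

lemma Stay.mono {l l' : ℕ} (hl : l' ≤ l) {x y : ℝ} (h : Stay l x y) : Stay l' x y := by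
  rw [stay_iff] at *
  obtain ⟨d, rfl⟩ := Nat.exists_eq_add_of_le hl
  intro n
  have hd : (0:ℝ) < 3 ^ d := by positivity
  have key := h (3 ^ d * n)
  push_cast at key
  have e1 : ∀ t : ℝ, (3:ℝ) ^ (l' + d) * t = 3 ^ d * (3 ^ l' * t) := by intro t; ring
  rw [e1, e1] at key
  constructor
  · intro h'
    have := key.1 (by nlinarith)
    exact le_of_mul_le_mul_left this hd
  · intro h'
    have := key.2 (by nlinarith)
    exact le_of_mul_le_mul_left this hd

/-- staying at level `l + 1` (even `l' < l`) does not create bad digits at level `l'` -/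
lemma Stay.bad {l l' : ℕ} (hl : l' < l) {x y : ℝ} (h : Stay l x y) (hy : Bad l' y) : Bad l' x := by
  have h' : Stay (l' + 1) x y := h.mono hl
  rw [stay_iff] at h'
  obtain ⟨n, h1, h2⟩ := bad_iff_exists.mp hy
  rw [bad_iff_exists]
  refine ⟨n, ?_, ?_⟩
  · by_contra hc
    push Not at hc
    have := (h' (3 * n + 1)).2 (by push_cast; rw [pow_succ]; linarith)
    push_cast at this
    rw [pow_succ] at this
    linarith
  · by_contra hc
    push Not at hc
    have := (h' (3 * n + 2)).1 (by push_cast; rw [pow_succ]; linarith)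
    push_cast at this
    rw [pow_succ] at this
    linarith

lemma Stay.mem_Icc {l : ℕ} {x y : ℝ} (h : Stay l x y) (hx : x ∈ Icc (0:ℝ) 1) :
    y ∈ Icc (0:ℝ) 1 := by
  have h0 : Stay 0 x y := h.mono (Nat.zero_le _)
  rw [stay_iff] at h0
  constructor
  · have := (h0 0).1 (by simpa using hx.1)
    simpa using this
  · have := (h0 1).2 (by simpa using hx.2)
    simpa using this

lemma Stay.abs_le {l : ℕ} {x y : ℝ} (h : Stay l x y) : |y - x| ≤ (1 / 3) ^ l := by
  obtain ⟨h1, h2⟩ := h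
  have h3 := Int.lt_floor_add_one (3 ^ l * x)
  have h4 := Int.ceil_lt_add_one (3 ^ l * x)
  have hp := pow3_pos l
  have e : (3:ℝ) ^ l * (1 / 3) ^ l = 1 := by
    rw [← mul_pow]; norm_num
  have hq : (0:ℝ) < (1 / 3) ^ l := by positivity
  rw [_root_.abs_le]
  constructor
  · by_contra hc
    push Not at hc
    nlinarith
  · by_contra hc
    push Not at hc
    nlinarith

lemma isClosed_stay (l : ℕ) (x : ℝ) : IsClosed {y : ℝ | Stay l x y} := by
  have : {y : ℝ | Stay l x y} = {y : ℝ | (⌊3 ^ l * x⌋ : ℝ) ≤ 3 ^ l * y} ∩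
      {y : ℝ | 3 ^ l * y ≤ (⌈3 ^ l * x⌉ : ℝ)} := by
    ext y; rfl
  rw [this]
  exact (isClosed_le (by fun_prop) (by fun_prop)).inter (isClosed_le (by fun_prop) (by fun_prop))

end MG
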