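import Pool.Agent.Work.MP_017613_gt.PushOff

/-!
Compact subsets of `R^N` all of whose points have at least `N - k` coordinates in a fixed finite
set satisfy `PushOff k`.
-/

open Set Topology Metric

namespace Pool.Agent.Work.MP_017613_gt

/-- The closed cell with free coordinates `S` and the other coordinates given by `c`. -/
def cell {N : ℕ} (S : Finset (Fin N)) (c : Fin N → ℝ) (R : ℝ) : Set (Fin N → ℝ) :=
  {x | (∀ i, x i ∈ Icc (-R) R) ∧ ∀ i, i ∉ S → x i = c i}

/-- The embedding of the free coordinates. -/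
noncomputable def emb {N : ℕ} (S : Finset (Fin N)) (c : Fin N → ℝ) (y : S → ℝ) : Fin N → ℝ :=
  fun i => if h : i ∈ S then y ⟨i, h⟩ else c i

lemma emb_continuous {N : ℕ} (S : Finset (Fin N)) (c : Fin N → ℝ) : Continuous (emb S c) := by
  apply continuous_pi
  intro i
  by_cases h : i ∈ S
  · simp only [emb, h, dif_pos]
    exact continuous_apply _
  · simp only [emb, h, dif_neg, not_false_iff]
    exact continuous_const

lemma cell_isCompact {N : ℕ} (S : Finset (Fin N)) (c : Fin N → ℝ) (R : ℝ) :
    IsCompact (cell S c R) := by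
  have h1 : IsCompact (Set.pi univ fun _ : Fin N => Icc (-R) R) :=
    isCompact_univ_pi fun _ => isCompact_Icc
  have h2 : IsClosed {x : Fin N → ℝ | ∀ i, i ∉ S → x i = c i} := by
    have : {x : Fin N → ℝ | ∀ i, i ∉ S → x i = c i} = ⋂ i, ⋂ (_ : i ∉ S), {x | x i = c i} := by
      ext x; simp
    rw [this]
    exact isClosed_iInter fun i => isClosed_iInter fun _ =>
      isClosed_eq (continuous_apply i) continuous_const
  have e : cell S c R = (Set.pi univ fun _ : Fin N => Icc (-R) R) ∩
      {x : Fin N → ℝ | ∀ i, i ∉ S → x i = c i} := by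
    ext x
    constructor
    · rintro ⟨h, h'⟩
      exact ⟨fun i _ => h i, h'⟩
    · rintro ⟨h, h'⟩
      exact ⟨fun i => h i (mem_univ i), h'⟩
  rw [e]
  exact h1.inter_right h2

lemma pushOff_cell {N k : ℕ} (S : Finset (Fin N)) (hS : S.card ≤ k) (c : Fin N → ℝ) (R : ℝ) :
    PushOff k (cell S c R) := by
  have hK : IsCompact (Set.pi univ fun _ : S => Icc (-R) R) :=
    isCompact_univ_pi fun _ => isCompact_Icc
  have h1 : PushOff k (Set.pi univ fun _ : S => Icc (-R) R) := by
    apply pushOff_of_finrank _ hK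
    rw [Module.finrank_fintype_fun_eq_card, Fintype.card_coe]
    exact hS
  have h2 := h1.image hK (φ := emb S c) (emb_continuous S c).continuousOn (by
    intro y _ z _ h
    funext i
    have := congrFun h i
    simpa [emb, i.2] using this)
  apply h2.mono (cell_isCompact S c R)
  intro x hx
  refine ⟨fun i => x i, ?_, ?_⟩
  · intro i _
    exact hx.1 i
  · funext i
    by_cases h : i ∈ S
    · simp [emb, h]
    · simp [emb, h, hx.2 i h]

/-- The main criterion. -/
theorem pushOff_grid {N k : ℕ} {F : Set ℝ} (hF : F.Finite) {A : Set (Fin N → ℝ)}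
    (hA : IsCompact A) (h : ∀ x ∈ A, ∃ S : Finset (Fin N), S.card ≤ k ∧ ∀ i, i ∉ S → x i ∈ F) :
    PushOff k A := by
  classical
  obtain ⟨R, hR⟩ := hA.isBounded.exists_norm_le
  have := hF.to_subtype
  have hbig : PushOff k (⋃ p : {S : Finset (Fin N) // S.card ≤ k} × (Fin N → F),
      cell p.1.1 (fun i => (p.2 i : ℝ)) R) :=
    PushOff.iUnion (fun p => pushOff_cell _ p.1.2 _ _) (fun p => cell_isCompact _ _ _)
  rcases F.eq_empty_or_nonempty with hFe | ⟨f₀, hf₀⟩
  · -- all coordinates are free
    by_cases hne : A = ∅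
    · rw [hne]; exact PushOff.empty
    · obtain ⟨x, hx⟩ := nonempty_iff_ne_empty.2 hne
      obtain ⟨S, hS, hS'⟩ := h x hx
      have hu : S = Finset.univ := by
        ext i
        simp only [Finset.mem_univ, iff_true]
        by_contra hi
        have := hS' i hi
        rw [hFe] at this
        exact this
      apply pushOff_of_finrank _ hA
      rw [Module.finrank_fin_fun]
      rw [hu, Finset.card_univ, Fintype.card_fin] at hS
      exact hS
  · apply hbig.mono hA
    intro x hx
    obtain ⟨S, hS, hS'⟩ := h x hx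
    rw [mem_iUnion]
    refine ⟨(⟨S, hS⟩, fun i => if hi : i ∈ S then ⟨f₀, hf₀⟩ else ⟨x i, hS' i hi⟩), ?_, ?_⟩
    · intro i
      have h1 := (norm_le_pi_norm x i).trans (hR x hx)
      rw [Real.norm_eq_abs] at h1
      exact ⟨(abs_le.1 h1).1, (abs_le.1 h1).2⟩
    · intro i hi
      simp only [hi, dif_neg, not_false_iff]

end Pool.Agent.Work.MP_017613_gt
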