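import Pool.Agent.Work.MP_017613_gt.DigB
import Pool.Agent.Work.MP_017613_gt.PushGrid

/-!
# Frozen nets

For all `l + 2 ≤ m` a continuous map `r` of `[0,1]` close to the identity which freezes all points
that are not bad at level `l` to points with exact denominator `3 ^ m`, and creates no bad digits.
-/

open Set Topology Metric
open Pool.Agent.Work.MP_017613_gt

namespace MG

/-- the points of `[0,1]` with exact denominator `3 ^ m` -/
def Den (m : ℕ) : Set ℝ := {x | x ∈ Icc (0:ℝ) 1 ∧ ∃ a : ℤ, ¬ (3:ℤ) ∣ a ∧ 3 ^ m * x = a}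

lemma finite_Den (m : ℕ) : (Den m).Finite := by
  apply ((Set.finite_Icc (0:ℤ) (3 ^ m)).image (fun a : ℤ => (a : ℝ) / 3 ^ m)).subset
  rintro x ⟨⟨h0, h1⟩, a, _, ha⟩
  have hp := pow3_pos m
  refine ⟨a, ⟨?_, ?_⟩, ?_⟩
  · have : (0:ℝ) ≤ a := by rw [← ha]; positivity
    exact_mod_cast this
  · have : (a:ℝ) ≤ 3 ^ m := by rw [← ha]; nlinarith
    exact_mod_cast this
  · simp only
    rw [← ha]
    field_simp

lemma Den_disjoint {m m' : ℕ} (h : m ≠ m') : Disjoint (Den m) (Den m') := by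
  have key : ∀ {m m' : ℕ}, m < m' → ∀ x, x ∈ Den m → x ∈ Den m' → False := by
    rintro m m' hm x ⟨_, a, _, ha⟩ ⟨_, a', ha', ha2⟩
    obtain ⟨d, rfl⟩ := Nat.exists_eq_add_of_lt hm
    apply ha'
    refine ⟨3 ^ d * a, ?_⟩
    have : (a':ℝ) = 3 * (3 ^ d * a) := by
      rw [← ha2, ← ha]; ring
    exact_mod_cast this
  rw [Set.disjoint_left]
  intro x h1 h2
  rcases lt_or_gt_of_ne h with h' | h'
  · exact key h' x h1 h2
  · exact key h' x h2 h1

/-- the good side of the wall `j`: `-1` (left) if `j = (3 n + 1) 3 ^ d` -/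
noncomputable def sgn (j : ℕ) : ℝ := by
  classical exact if ∃ n d : ℕ, j = (3 * n + 1) * 3 ^ d then -1 else 1

lemma sgn_cases (j : ℕ) : (sgn j = -1 ∧ ∀ n d : ℕ, j ≠ (3 * n + 2) * 3 ^ d) ∨
    (sgn j = 1 ∧ ∀ n d : ℕ, j ≠ (3 * n + 1) * 3 ^ d) := by
  classical
  unfold sgn
  by_cases h : ∃ n d : ℕ, j = (3 * n + 1) * 3 ^ d
  · left
    refine ⟨if_pos h, ?_⟩
    obtain ⟨n, d, hj⟩ := h
    intro n' d' hj'
    rw [hj] at hj'
    have e1 : padicValNat 3 ((3 * n + 1) * 3 ^ d) = d := by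
      rw [padicValNat.mul (by omega) (by positivity), padicValNat.prime_pow,
        padicValNat.eq_zero_of_not_dvd (by omega), zero_add]
    have e2 : padicValNat 3 ((3 * n' + 2) * 3 ^ d') = d' := by
      rw [padicValNat.mul (by omega) (by positivity), padicValNat.prime_pow,
        padicValNat.eq_zero_of_not_dvd (by omega), zero_add]
    have e3 : d = d' := by rw [← e1, hj', e2]
    subst e3
    have := Nat.eq_of_mul_eq_mul_right (by positivity) hj'
    omega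
  · right
    refine ⟨if_neg h, ?_⟩
    push Not at h
    exact h

/-- the clamp to `[0,1]` -/
noncomputable def clp (t : ℝ) : ℝ := max 0 (min 1 t)

lemma continuous_clp : Continuous clp := by unfold clp; fun_prop

lemma clp_nonneg (t : ℝ) : 0 ≤ clp t := le_max_left _ _

lemma clp_le_one (t : ℝ) : clp t ≤ 1 := max_le zero_le_one (min_le_left _ _)

lemma clp_of_le {t : ℝ} (h : t ≤ 0) : clp t = 0 := by
  unfold clp
  exact max_eq_left ((min_le_right _ _).trans h)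

lemma clp_of_ge {t : ℝ} (h : 1 ≤ t) : clp t = 1 := by
  unfold clp
  rw [min_eq_left h]
  exact max_eq_right zero_le_one

/-- the frozen value next to the wall `j`, in units of `3 ^ (-l)` -/
noncomputable def cw (t : ℝ) (j : ℕ) : ℝ := j + sgn j * t

/-- the freezing map in units of `3 ^ (-l)`; `K = 3 ^ l`, `t` the distance to the wall -/
noncomputable def frz (K : ℕ) (t : ℝ) (y : ℝ) : ℝ :=
  cw t 0 + ∑ j ∈ Finset.range K, (cw t (j + 1) - cw t j) * clp (3 * (y - j) - 1)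

lemma continuous_frz (K : ℕ) (t : ℝ) : Continuous (frz K t) := by
  unfold frz
  refine continuous_const.add (continuous_finsetSum _ fun j _ => continuous_const.mul ?_)
  exact continuous_clp.comp (by fun_prop)

lemma frz_eq {K : ℕ} (t : ℝ) {y : ℝ} {j : ℕ} (hj : j < K) (h1 : (j:ℝ) ≤ y) (h2 : y ≤ j + 1) :
    frz K t y = cw t j + (cw t (j + 1) - cw t j) * clp (3 * (y - j) - 1) := by
  unfold frz
  obtain ⟨d, rfl⟩ := Nat.exists_eq_add_of_lt hj
  have e1 : ∑ i ∈ Finset.range (j + d + 1), (cw t (i + 1) - cw t i) * clp (3 * (y - i) - 1) =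
      ∑ i ∈ Finset.range (j + 1), (cw t (i + 1) - cw t i) * clp (3 * (y - i) - 1) := by
    symm
    apply Finset.sum_subset
    · intro i hi
      rw [Finset.mem_range] at hi ⊢
      omega
    · intro i _ hi
      rw [Finset.mem_range, not_lt] at hi
      have : (j:ℝ) + 1 ≤ i := by exact_mod_cast hi
      rw [clp_of_le (by linarith), mul_zero]
  rw [e1, Finset.sum_range_succ]
  have e2 : ∑ i ∈ Finset.range j, (cw t (i + 1) - cw t i) * clp (3 * (y - i) - 1) =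
      ∑ i ∈ Finset.range j, (cw t (i + 1) - cw t i) := by
    apply Finset.sum_congr rfl
    intro i hi
    rw [Finset.mem_range] at hi
    have : (i:ℝ) + 1 ≤ j := by exact_mod_cast hi
    rw [clp_of_ge (by linarith), mul_one]
  rw [e2, Finset.sum_range_sub]
  ring

lemma abs_sgn (j : ℕ) : |sgn j| = 1 := by
  rcases sgn_cases j with ⟨h, _⟩ | ⟨h, _⟩ <;> rw [h] <;> norm_num

lemma cw_near {t : ℝ} (ht : 0 ≤ t) (j : ℕ) : |cw t j - j| = t := by
  unfold cw
  rw [add_sub_cancel_left, abs_mul, abs_sgn, one_mul, abs_of_nonneg ht]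

lemma cw_bounds {t : ℝ} (ht : 0 ≤ t) (j : ℕ) : (j:ℝ) - t ≤ cw t j ∧ cw t j ≤ j + t := by
  have h := cw_near ht j
  have := abs_le.mp h.le
  constructor <;> linarith [this.1, this.2]

/-- every point is in a unit interval `[j, j+1]` -/
lemma exists_wall {K : ℕ} (hK : 0 < K) {y : ℝ} (h0 : 0 ≤ y) (h1 : y ≤ K) :
    ∃ j : ℕ, j < K ∧ (j:ℝ) ≤ y ∧ y ≤ j + 1 := by
  rcases lt_or_eq_of_le h1 with h | h
  · refine ⟨⌊y⌋₊, ?_, Nat.floor_le h0, (Nat.lt_floor_add_one y).le⟩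
    have := Nat.floor_le h0
    have h2 : (⌊y⌋₊ : ℝ) < K := by linarith
    exact_mod_cast h2
  · refine ⟨K - 1, by omega, ?_, ?_⟩
    · rw [h]; exact_mod_cast Nat.sub_le _ _
    · rw [h]
      have : K ≤ K - 1 + 1 := by omega
      exact_mod_cast this

lemma frz_mem {K : ℕ} {t : ℝ} (ht : 0 ≤ t) (ht3 : t ≤ 1 / 9) {y : ℝ} {j : ℕ}
    (hj : j < K) (h1 : (j:ℝ) ≤ y) (h2 : y ≤ j + 1) :
    cw t j ≤ frz K t y ∧ frz K t y ≤ cw t (j + 1) := by
  have hb := cw_bounds ht j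
  have hb' := cw_bounds ht (j + 1)
  push_cast at hb'
  have h3 : 0 ≤ cw t (j + 1) - cw t j := by linarith [hb.2, hb'.1]
  have h4 := clp_nonneg (3 * (y - j) - 1)
  have h5 := clp_le_one (3 * (y - j) - 1)
  rw [frz_eq t hj h1 h2]
  constructor
  · nlinarith
  · nlinarith

/-- not bad at level `0` (in units): frozen -/
lemma frz_frozen {K : ℕ} (t : ℝ) {y : ℝ} {j : ℕ} (hj : j < K) (h1 : (j:ℝ) ≤ y) (h2 : y ≤ j + 1)
    (hb : ¬ ((j:ℝ) + 1 / 3 < y ∧ y < j + 2 / 3)) :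
    (frz K t y = cw t j ∧ y ≤ j + 1 / 3) ∨ (frz K t y = cw t (j + 1) ∧ (j:ℝ) + 2 / 3 ≤ y) := by
  rw [frz_eq t hj h1 h2]
  by_cases h : (j:ℝ) + 1 / 3 < y
  · right
    have h' : (j:ℝ) + 2 / 3 ≤ y := by
      by_contra hc
      push Not at hc
      exact hb ⟨h, hc⟩
    rw [clp_of_ge (by linarith)]
    exact ⟨by ring, h'⟩
  · left
    push Not at h
    rw [clp_of_le (by linarith)]
    exact ⟨by ring, h⟩

lemma sgn_zero : sgn 0 = 1 := by
  rcases sgn_cases 0 with ⟨_, h⟩ | ⟨h, _⟩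
  · exfalso
    unfold sgn at *
    rename_i h1
    rw [if_neg] at h1
    · norm_num at h1
    · rintro ⟨n, d, hn⟩
      have : 0 < (3 * n + 1) * 3 ^ d := by positivity
      omega
  · exact h

lemma sgn_pow (l : ℕ) : sgn (3 ^ l) = -1 := by
  unfold sgn
  rw [if_pos]
  exact ⟨0, l, by ring⟩

/-- badness at a level `l' < l` in units of `3 ^ (-l)` -/
lemma bad_units {l l' : ℕ} (hl : l' < l) {z : ℝ} (hz : 0 ≤ z) :
    Bad l' z ↔ ∃ n : ℕ, (((3 * n + 1) * 3 ^ (l - l' - 1) : ℕ) : ℝ) < 3 ^ l * z ∧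
      3 ^ l * z < (((3 * n + 2) * 3 ^ (l - l' - 1) : ℕ) : ℝ) := by
  obtain ⟨d, rfl⟩ := Nat.exists_eq_add_of_lt hl
  have e : l' + d + 1 - l' - 1 = d := by omega
  rw [e]
  have hd : (0:ℝ) < 3 ^ d := by positivity
  have e2 : (3:ℝ) ^ (l' + d + 1) * z = 3 * (3 ^ d * (3 ^ l' * z)) := by ring
  rw [e2, bad_iff_exists]
  have hp := pow3_pos l'
  constructor
  · rintro ⟨n, h1, h2⟩
    have hn : 0 ≤ n := by
      have h3 : (0:ℝ) < n + 1 := by
        have : 0 ≤ 3 ^ l' * z := by positivity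
        linarith
      have h4 : 0 < n + 1 := by exact_mod_cast h3
      omega
    obtain ⟨n, rfl⟩ := Int.eq_ofNat_of_zero_le hn
    refine ⟨n, ?_, ?_⟩
    · push_cast at h1 ⊢
      nlinarith
    · push_cast at h2 ⊢
      nlinarith
  · rintro ⟨n, h1, h2⟩
    refine ⟨n, ?_, ?_⟩
    · push_cast at h1 ⊢
      have : 3 ^ d * ((n:ℝ) + 1 / 3) < 3 ^ d * (3 ^ l' * z) := by linarith
      exact lt_of_mul_lt_mul_left this hd.le
    · push_cast at h2 ⊢
      have : 3 ^ d * (3 ^ l' * z) < 3 ^ d * ((n:ℝ) + 2 / 3) := by linarith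
      exact lt_of_mul_lt_mul_left this hd.le

/-- a frozen value in an open interval `(A, B)`, `A`, `B` ends of a middle third -/
lemma cw_mem {t : ℝ} (ht : 0 < t) (ht3 : t ≤ 1 / 9) {j n d : ℕ}
    (h1 : (((3 * n + 1) * 3 ^ d : ℕ) : ℝ) < cw t j) (h2 : cw t j < (((3 * n + 2) * 3 ^ d : ℕ) : ℝ)) :
    (3 * n + 1) * 3 ^ d < j ∧ j < (3 * n + 2) * 3 ^ d := by
  have hb := cw_bounds ht.le j
  have h3 : (3 * n + 1) * 3 ^ d ≤ j := by
    have : (((3 * n + 1) * 3 ^ d : ℕ) : ℝ) < j + 1 := by linarith [hb.2]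
    have : (3 * n + 1) * 3 ^ d < j + 1 := by exact_mod_cast this
    omega
  have h4 : j ≤ (3 * n + 2) * 3 ^ d := by
    have : (j:ℝ) < (((3 * n + 2) * 3 ^ d : ℕ) : ℝ) + 1 := by linarith [hb.1]
    have : j < (3 * n + 2) * 3 ^ d + 1 := by exact_mod_cast this
    omega
  unfold cw at h1 h2
  rcases sgn_cases j with ⟨hs, hn⟩ | ⟨hs, hn⟩
  · refine ⟨lt_of_le_of_ne h3 ?_, lt_of_le_of_ne h4 (hn n d)⟩
    intro he
    rw [he, hs] at h1
    linarith
  · refine ⟨lt_of_le_of_ne h3 (Ne.symm (hn n d)), lt_of_le_of_ne h4 ?_⟩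
    intro he
    rw [← he, hs] at h2
    linarith

/-- the freezing map -/
noncomputable def rr (l m : ℕ) (x : ℝ) : ℝ := frz (3 ^ l) (3 ^ l / 3 ^ m) (3 ^ l * x) / 3 ^ l

lemma continuous_rr (l m : ℕ) : Continuous (rr l m) := by
  unfold rr
  exact ((continuous_frz _ _).comp (by fun_prop)).div_const _

lemma tau_bounds {l m : ℕ} (h : l + 2 ≤ m) : (0:ℝ) < 3 ^ l / 3 ^ m ∧ (3:ℝ) ^ l / 3 ^ m ≤ 1 / 9 := by
  obtain ⟨d, rfl⟩ := Nat.exists_eq_add_of_le h
  refine ⟨by positivity, ?_⟩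
  have hd : (1:ℝ) ≤ 3 ^ d := one_le_pow₀ (by norm_num)
  have e : (3:ℝ) ^ (l + 2 + d) = 3 ^ l * (9 * 3 ^ d) := by ring
  rw [e, ← div_div, div_self (pow3_pos l).ne']
  rw [div_le_div_iff₀ (by positivity) (by norm_num)]
  linarith

lemma cw_range {l m : ℕ} (h : l + 2 ≤ m) {j : ℕ} (hj : j ≤ 3 ^ l) :
    0 ≤ cw (3 ^ l / 3 ^ m) j ∧ cw (3 ^ l / 3 ^ m) j ≤ 3 ^ l := by
  obtain ⟨ht, ht9⟩ := tau_bounds h
  have hb := cw_bounds ht.le j
  constructor
  · rcases Nat.eq_zero_or_pos j with rfl | hj0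
    · unfold cw
      rw [sgn_zero]
      simpa using ht.le
    · have : (1:ℝ) ≤ j := by exact_mod_cast hj0
      linarith [hb.1]
  · rcases Nat.lt_or_ge j (3 ^ l) with hj1 | hj1
    · have h2 : j + 1 ≤ 3 ^ l := hj1
      have h3 : (j:ℝ) + 1 ≤ 3 ^ l := by exact_mod_cast h2
      linarith [hb.2]
    · have : j = 3 ^ l := le_antisymm hj hj1
      rw [this]
      unfold cw
      rw [sgn_pow]
      push_cast
      linarith

/-- frozen values have exact denominator `3 ^ m` -/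
lemma cw_den {l m : ℕ} (h : l + 2 ≤ m) {j : ℕ} (hj : j ≤ 3 ^ l) :
    cw (3 ^ l / 3 ^ m) j / 3 ^ l ∈ Den m := by
  have hr := cw_range h hj
  have hp := pow3_pos l
  have hpm := pow3_pos m
  obtain ⟨d, rfl⟩ := Nat.exists_eq_add_of_le h
  refine ⟨⟨by have := hr.1; positivity, ?_⟩, ?_⟩
  · rw [div_le_one hp]; exact hr.2
  · have e : (3:ℝ) ^ (l + 2 + d) * (cw (3 ^ l / 3 ^ (l + 2 + d)) j / 3 ^ l) =
        3 * (3 * 3 ^ d * j) + sgn j := by
      unfold cw
      have : (3:ℝ) ^ (l + 2 + d) = 3 ^ l * (9 * 3 ^ d) := by ring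
      rw [this]
      field_simp
      ring
    rcases sgn_cases j with ⟨hs, _⟩ | ⟨hs, _⟩
    · refine ⟨3 * (3 * 3 ^ d * j) - 1, ?_, ?_⟩
      · intro hdvd
        have : (3:ℤ) ∣ 1 := by
          have h2 : (3:ℤ) ∣ 3 * (3 * 3 ^ d * j) := Dvd.intro _ rfl
          have := (Int.dvd_sub h2 hdvd)
          rwa [sub_sub_cancel] at this
        norm_num at this
      · rw [e, hs]; push_cast; ring
    · refine ⟨3 * (3 * 3 ^ d * j) + 1, ?_, ?_⟩
      · intro hdvd
        have : (3:ℤ) ∣ 1 := by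
          have h2 : (3:ℤ) ∣ 3 * (3 * 3 ^ d * j) := Dvd.intro _ rfl
          have := (Int.dvd_sub hdvd h2)
          rwa [add_sub_cancel_left] at this
        norm_num at this
      · rw [e, hs]; push_cast; ring

/-- frozen values are never bad at the levels `≥ l` -/
lemma cw_not_bad {l m : ℕ} (h : l + 2 ≤ m) (j : ℕ) {l' : ℕ} (hl : l ≤ l') :
    ¬ Bad l' (cw (3 ^ l / 3 ^ m) j / 3 ^ l) := by
  have hp := pow3_pos l
  obtain ⟨e, rfl⟩ := Nat.exists_eq_add_of_le hl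
  rw [bad_iff_exists]
  rintro ⟨n, h1, h2⟩
  have e1 : (3:ℝ) ^ (l + e) * (cw (3 ^ l / 3 ^ m) j / 3 ^ l) =
      3 ^ e * j + sgn j * (3 ^ (l + e) / 3 ^ m) := by
    unfold cw
    rw [pow_add]
    field_simp
  rw [e1] at h1 h2
  rcases Nat.lt_or_ge (l + e) m with hm | hm
  · obtain ⟨f, rfl⟩ := Nat.exists_eq_add_of_lt hm
    have e2 : (3:ℝ) ^ (l + e) / 3 ^ (l + e + f + 1) = 1 / (3 * 3 ^ f) := by
      have : (3:ℝ) ^ (l + e + f + 1) = 3 ^ (l + e) * (3 * 3 ^ f) := by ring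
      rw [this, ← div_div, div_self (pow3_pos _).ne']
    rw [e2] at h1 h2
    have hf : (1:ℝ) ≤ 3 ^ f := one_le_pow₀ (by norm_num)
    have h3 : (0:ℝ) < 1 / (3 * 3 ^ f) := by positivity
    have h4 : (1:ℝ) / (3 * 3 ^ f) ≤ 1 / 3 := by
      rw [div_le_div_iff₀ (by positivity) (by norm_num)]
      linarith
    rcases sgn_cases j with ⟨hs, _⟩ | ⟨hs, _⟩
    · rw [hs] at h1 h2
      have h5 : ((3 ^ e * j : ℕ) : ℝ) < n + 1 := by push_cast; linarith
      have h6 : ((3 ^ e * j : ℕ) : ℤ) < n + 1 := by exact_mod_cast h5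
      have h7 : ((3 ^ e * j : ℕ) : ℤ) ≤ n := by omega
      have h8 : ((3 ^ e * j : ℕ) : ℝ) ≤ n := by exact_mod_cast h7
      push_cast at h8
      linarith
    · rw [hs] at h1 h2
      have h5 : (n:ℝ) < ((3 ^ e * j : ℕ) : ℝ) := by push_cast; linarith
      have h6 : n < ((3 ^ e * j : ℕ) : ℤ) := by exact_mod_cast h5
      have h7 : n + 1 ≤ ((3 ^ e * j : ℕ) : ℤ) := by omega
      have h8 : (n:ℝ) + 1 ≤ ((3 ^ e * j : ℕ) : ℝ) := by exact_mod_cast h7
      push_cast at h8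
      linarith
  · obtain ⟨f, hf⟩ := Nat.exists_eq_add_of_le hm
    have e2 : (3:ℝ) ^ (l + e) / 3 ^ m = 3 ^ f := by
      rw [hf, pow_add, mul_comm, mul_div_assoc, div_self (pow3_pos _).ne', mul_one]
    rw [e2] at h1 h2
    rcases sgn_cases j with ⟨hs, _⟩ | ⟨hs, _⟩
    · rw [hs] at h1 h2
      have h5 : (n:ℝ) < ((3 ^ e * j - 3 ^ f : ℤ) : ℝ) := by push_cast; linarith
      have h6 : ((3 ^ e * j - 3 ^ f : ℤ) : ℝ) < (n:ℝ) + 1 := by push_cast; linarith
      have h7 : n < (3 ^ e * j - 3 ^ f : ℤ) := by exact_mod_cast h5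
      have h8 : (3 ^ e * j - 3 ^ f : ℤ) < n + 1 := by exact_mod_cast h6
      omega
    · rw [hs] at h1 h2
      have h5 : (n:ℝ) < ((3 ^ e * j + 3 ^ f : ℤ) : ℝ) := by push_cast; linarith
      have h6 : ((3 ^ e * j + 3 ^ f : ℤ) : ℝ) < (n:ℝ) + 1 := by push_cast; linarith
      have h7 : n < (3 ^ e * j + 3 ^ f : ℤ) := by exact_mod_cast h5
      have h8 : (3 ^ e * j + 3 ^ f : ℤ) < n + 1 := by exact_mod_cast h6
      omega

/-- the freezing map: all properties -/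
theorem rr_spec {l m : ℕ} (h : l + 2 ≤ m) {x : ℝ} (hx : x ∈ Icc (0:ℝ) 1) :
    rr l m x ∈ Icc (0:ℝ) 1 ∧ |rr l m x - x| ≤ (1 / 3) ^ l ∧
      (∀ l' < l, Bad l' (rr l m x) → Bad l' x) ∧
      (¬ Bad l x → rr l m x ∈ Den m ∧ ∀ l', l ≤ l' → ¬ Bad l' (rr l m x)) := by
  have hp := pow3_pos l
  obtain ⟨ht, ht9⟩ := tau_bounds h
  set t : ℝ := 3 ^ l / 3 ^ m with htdef
  have hy0 : 0 ≤ 3 ^ l * x := mul_nonneg hp.le hx.1
  have hy1 : 3 ^ l * x ≤ ((3 ^ l : ℕ) : ℝ) := by push_cast; nlinarith [hx.2]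
  obtain ⟨j, hj, h1, h2⟩ := exists_wall (K := 3 ^ l) (by positivity) hy0 hy1
  have hmem := frz_mem ht.le ht9 hj h1 h2
  have hr0 := cw_range h hj.le
  have hr1 := cw_range h (show j + 1 ≤ 3 ^ l from hj)
  rw [← htdef] at hr0 hr1
  have hrr : 3 ^ l * rr l m x = frz (3 ^ l) t (3 ^ l * x) := by
    unfold rr
    rw [mul_div_cancel₀ _ hp.ne']
  have h01 : rr l m x ∈ Icc (0:ℝ) 1 := by
    unfold rr
    constructor
    · have : 0 ≤ frz (3 ^ l) t (3 ^ l * x) := hr0.1.trans hmem.1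
      positivity
    · rw [div_le_one hp]
      exact hmem.2.trans hr1.2
  have hbj := cw_bounds ht.le j
  have hbj1 := cw_bounds ht.le (j + 1)
  push_cast at hbj1
  have hdiff : |frz (3 ^ l) t (3 ^ l * x) - 3 ^ l * x| ≤ 1 := by
    by_cases hb : (j:ℝ) + 1 / 3 < 3 ^ l * x ∧ 3 ^ l * x < j + 2 / 3
    · rw [abs_le]
      constructor <;> linarith [hmem.1, hmem.2, hb.1, hb.2, hbj.1, hbj1.2]
    · rcases frz_frozen t hj h1 h2 hb with ⟨he, hy⟩ | ⟨he, hy⟩
      · rw [he, abs_le]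
        constructor <;> linarith [hbj.1, hbj.2]
      · rw [he, abs_le]
        constructor <;> linarith [hbj1.1, hbj1.2]
  refine ⟨h01, ?_, ?_, ?_⟩
  · have e1 : (3:ℝ) ^ l * (1 / 3) ^ l = 1 := by rw [← mul_pow]; norm_num
    have e2 : 3 ^ l * |rr l m x - x| = |frz (3 ^ l) t (3 ^ l * x) - 3 ^ l * x| := by
      rw [← hrr, ← mul_sub, abs_mul, abs_of_pos hp]
    have e3 : 3 ^ l * |rr l m x - x| ≤ 3 ^ l * (1 / 3) ^ l := by rw [e2, e1]; exact hdiff
    exact le_of_mul_le_mul_left e3 hp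
  · intro l' hl' hb
    rw [bad_units hl' h01.1] at hb
    rw [bad_units hl' hx.1]
    obtain ⟨n, hA, hB⟩ := hb
    rw [hrr] at hA hB
    refine ⟨n, ?_⟩
    have hcast : ∀ {a b : ℕ}, a < b → (a:ℝ) + 1 ≤ b := by
      intro a b hab; exact_mod_cast hab
    by_cases hb : (j:ℝ) + 1 / 3 < 3 ^ l * x ∧ 3 ^ l * x < j + 2 / 3
    · constructor
      · by_contra hc
        push Not at hc
        have h3 : j < (3 * n + 1) * 3 ^ (l - l' - 1) := by
          have : (j:ℝ) < (((3 * n + 1) * 3 ^ (l - l' - 1) : ℕ) : ℝ) := by linarith [hb.1]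
          exact_mod_cast this
        have h4 := hcast h3
        have h5 : (((3 * n + 1) * 3 ^ (l - l' - 1) : ℕ) : ℝ) < cw t (j + 1) := lt_of_lt_of_le hA hmem.2
        have h6 : cw t (j + 1) < (((3 * n + 2) * 3 ^ (l - l' - 1) : ℕ) : ℝ) := by
          have h7 : (3 * n + 1) * 3 ^ (l - l' - 1) < (3 * n + 2) * 3 ^ (l - l' - 1) := by
            apply Nat.mul_lt_mul_of_pos_right (by omega) (by positivity)
          have h8 := hcast h7
          linarith [hbj1.2]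
        have h7 := (cw_mem ht ht9 h5 h6).1
        omega
      · by_contra hc
        push Not at hc
        have h3 : (3 * n + 2) * 3 ^ (l - l' - 1) < j + 1 := by
          have : (((3 * n + 2) * 3 ^ (l - l' - 1) : ℕ) : ℝ) < ((j + 1 : ℕ) : ℝ) := by
            push_cast at hc ⊢
            linarith [hb.2]
          exact_mod_cast this
        have h4 := hcast h3
        push_cast at h4
        have h5 : cw t j < (((3 * n + 2) * 3 ^ (l - l' - 1) : ℕ) : ℝ) := lt_of_le_of_lt hmem.1 hB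
        have h6 : (((3 * n + 1) * 3 ^ (l - l' - 1) : ℕ) : ℝ) < cw t j := by
          have h7 : (3 * n + 1) * 3 ^ (l - l' - 1) < (3 * n + 2) * 3 ^ (l - l' - 1) := by
            apply Nat.mul_lt_mul_of_pos_right (by omega) (by positivity)
          have h8 := hcast h7
          push_cast at h8 ⊢
          linarith [hbj.1]
        have h7 := (cw_mem ht ht9 h6 h5).2
        omega
    · rcases frz_frozen t hj h1 h2 hb with ⟨he, hy⟩ | ⟨he, hy⟩
      · rw [he] at hA hB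
        obtain ⟨h3, h4⟩ := cw_mem ht ht9 hA hB
        have h5 := hcast h3
        have h6 := hcast h4
        constructor <;> linarith
      · rw [he] at hA hB
        obtain ⟨h3, h4⟩ := cw_mem ht ht9 hA hB
        have h5 := hcast h3
        have h6 := hcast h4
        push_cast at h5 h6 ⊢
        constructor <;> linarith
  · intro hnb
    have hb : ¬ ((j:ℝ) + 1 / 3 < 3 ^ l * x ∧ 3 ^ l * x < j + 2 / 3) := by
      intro hb
      apply hnb
      rw [bad_iff_exists]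
      exact ⟨j, by exact_mod_cast hb.1, by exact_mod_cast hb.2⟩
    rcases frz_frozen t hj h1 h2 hb with ⟨he, hy⟩ | ⟨he, hy⟩
    · have : rr l m x = cw t j / 3 ^ l := by unfold rr; rw [he]
      rw [this]
      exact ⟨cw_den h hj.le, fun l' hl' => cw_not_bad h j hl'⟩
    · have : rr l m x = cw t (j + 1) / 3 ^ l := by unfold rr; rw [he]
      rw [this]
      exact ⟨cw_den h hj, fun l' hl' => cw_not_bad h (j + 1) hl'⟩

end MG
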