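import Pool.Agent.Work.MP_017613_gt.DigC

/-!
# Freezing the compactum: dimension, disjoint approximations

* `RR l m` maps `mu k N` into itself, moves points by at most `3 ^ (-l)`, and all but `k`
  coordinates of the image have exact denominator `3 ^ m`.
* `pushOff_mu`: `mu k N` has dimension at most `k`.
* `RR_ne`: for `2 k + 1 ≤ N` and `m ≠ m'` the images of `RR l m` and `RR l' m'` are disjoint.
-/

open Set Topology Metric
open Pool.Agent.Work.MP_017613_gt

namespace MG

/-- the freezing map in all coordinates -/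
noncomputable def RR {N : ℕ} (l m : ℕ) (x : Fin N → ℝ) : Fin N → ℝ := fun i => rr l m (x i)

lemma continuous_RR {N : ℕ} (l m : ℕ) : Continuous (RR (N := N) l m) :=
  continuous_pi fun i => (continuous_rr l m).comp (continuous_apply i)

lemma RR_dist {N l m : ℕ} (h : l + 2 ≤ m) {x : Fin N → ℝ} (hx : ∀ i, x i ∈ Icc (0:ℝ) 1) :
    dist (RR l m x) x ≤ (1 / 3) ^ l := by
  rw [dist_pi_le_iff (by positivity)]
  intro i
  rw [Real.dist_eq]
  exact (rr_spec h (hx i)).2.1

/-- the frozen image has few free coordinates -/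
lemma RR_frozen {k N l m : ℕ} (h : l + 2 ≤ m) {x : Fin N → ℝ} (hx : x ∈ mu k N) :
    ∃ S : Finset (Fin N), S.card ≤ k ∧ ∀ i, i ∉ S → RR l m x i ∈ Den m := by
  classical
  refine ⟨Finset.univ.filter fun i => Bad l (x i), ?_, ?_⟩
  · have := hx.2 l
    unfold nb at this
    convert this
  · intro i hi
    simp only [Finset.mem_filter, Finset.mem_univ, true_and] at hi
    exact ((rr_spec h (hx.1 i)).2.2.2 hi).1

lemma RR_mem {k N l m : ℕ} (h : l + 2 ≤ m) {x : Fin N → ℝ} (hx : x ∈ mu k N) :
    RR l m x ∈ mu k N := by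
  classical
  refine ⟨fun i => (rr_spec h (hx.1 i)).1, ?_⟩
  intro l'
  rcases Nat.lt_or_ge l' l with hl | hl
  · exact (nb_mono fun i hb => (rr_spec h (hx.1 i)).2.2.1 l' hl hb).trans (hx.2 l')
  · refine le_trans ?_ (hx.2 l)
    unfold nb
    apply Finset.card_le_card
    intro i hi
    simp only [Finset.mem_filter, Finset.mem_univ, true_and] at hi ⊢
    by_contra hc
    exact ((rr_spec h (hx.1 i)).2.2.2 hc).2 l' hl hi

/-- the Menger compactum has dimension at most `k` -/
theorem pushOff_mu (k N : ℕ) : PushOff k (mu k N) := by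
  apply PushOff.of_maps (isCompact_mu k N)
  intro ε hε
  obtain ⟨l, hl⟩ : ∃ l : ℕ, ((1:ℝ) / 3) ^ l < ε := exists_pow_lt_of_lt_one hε (by norm_num)
  refine ⟨RR l (l + 2) '' mu k N, RR l (l + 2), ?_, (continuous_RR _ _).continuousOn,
    mapsTo_image _ _, ?_⟩
  · apply pushOff_grid (finite_Den (l + 2)) ((isCompact_mu k N).image (continuous_RR _ _))
    rintro _ ⟨x, hx, rfl⟩
    exact RR_frozen le_rfl hx
  · intro x hx
    exact lt_of_le_of_lt (RR_dist le_rfl hx.1) hl

/-- the images of two freezing maps with different denominators are disjoint -/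
theorem RR_ne {k N l m l' m' : ℕ} (hN : 2 * k + 1 ≤ N) (h : l + 2 ≤ m) (h' : l' + 2 ≤ m')
    (hm : m ≠ m') {x y : Fin N → ℝ} (hx : x ∈ mu k N) (hy : y ∈ mu k N) :
    RR l m x ≠ RR l' m' y := by
  classical
  obtain ⟨S, hS, hS'⟩ := RR_frozen h hx
  obtain ⟨T, hT, hT'⟩ := RR_frozen h' hy
  intro he
  have hcard : (S ∪ T).card < Fintype.card (Fin N) := by
    rw [Fintype.card_fin]
    have := Finset.card_union_le S T
    omega
  obtain ⟨i, hi⟩ : ∃ i, i ∉ S ∪ T := by
    by_contra hcon
    push Not at hcon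
    have : S ∪ T = Finset.univ := by
      ext i; simp [hcon i]
    rw [this, Finset.card_univ] at hcard
    exact lt_irrefl _ hcard
  rw [Finset.mem_union, not_or] at hi
  have h1 := hS' i hi.1
  have h2 := hT' i hi.2
  rw [← he] at h2
  exact Set.disjoint_left.mp (Den_disjoint hm) h1 h2

end MG
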