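import Pool.Agent.Work.MP_017613_gt.DigC

/-!
# The Menger compactum as an approximate neighbourhood extensor

`mu_ext`: every map `F` of a compact set of dimension at most `k` into a small neighbourhood of
`mu k N` is close to a map into `mu k N` which agrees with `F` on `F ⁻¹' mu k N`.
-/

open Set Topology Metric
open Pool.Agent.Work.MP_017613_gt

namespace MG

/-- the plateau map: constant on the `d`-neighbourhoods of the integers -/
noncomputable def plat (d y : ℝ) : ℝ := ⌊y⌋ + clp ((Int.fract y - d) / (1 - 2 * d))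

lemma plat_le {d y : ℝ} {n : ℤ} (h1 : d ≤ 1 / 3) (hy : y ≤ n + d) :
    plat d y ≤ n := by
  unfold plat
  have h2 : (⌊y⌋ : ℝ) < n + 1 := by linarith [Int.floor_le y]
  have h3 : ⌊y⌋ < n + 1 := by exact_mod_cast h2
  rcases lt_or_eq_of_le (show ⌊y⌋ ≤ n by omega) with h | h
  · have h4 : ⌊y⌋ + 1 ≤ n := by omega
    have h5 : (⌊y⌋ : ℝ) + 1 ≤ n := by exact_mod_cast h4
    linarith [clp_le_one ((Int.fract y - d) / (1 - 2 * d))]
  · have h5 : (⌊y⌋ : ℝ) = n := by exact_mod_cast h
    have h6 : Int.fract y ≤ d := by rw [Int.fract]; linarith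
    rw [clp_of_le (div_nonpos_of_nonpos_of_nonneg (by linarith) (by linarith)), h5, add_zero]

lemma le_plat {d y : ℝ} {n : ℤ} (h1 : d ≤ 1 / 3) (hy : n - d ≤ y) :
    n ≤ plat d y := by
  unfold plat
  have h2 : (n:ℝ) < ⌊y⌋ + 2 := by linarith [Int.lt_floor_add_one y]
  have h3 : n < ⌊y⌋ + 2 := by exact_mod_cast h2
  rcases lt_or_eq_of_le (show n - 1 ≤ ⌊y⌋ by omega) with h | h
  · have h4 : n ≤ ⌊y⌋ := by omega
    have h5 : (n:ℝ) ≤ ⌊y⌋ := by exact_mod_cast h4
    linarith [clp_nonneg ((Int.fract y - d) / (1 - 2 * d))]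
  · have h5 : (n:ℝ) - 1 = ⌊y⌋ := by exact_mod_cast h
    have h6 : 1 - d ≤ Int.fract y := by rw [Int.fract]; linarith
    rw [clp_of_ge ((le_div_iff₀ (by linarith)).mpr (by linarith)), ← h5]
    linarith

lemma abs_plat_sub {d y : ℝ} (h0 : 0 ≤ d) (h1 : d ≤ 1 / 3) : |plat d y - y| ≤ d := by
  have e := Int.floor_add_fract y
  have hf0 := Int.fract_nonneg y
  have hf1 := (Int.fract_lt_one y).le
  have hq : 0 < 1 - 2 * d := by linarith
  unfold plat
  set t := Int.fract y with ht
  have e2 : (⌊y⌋ : ℝ) + clp ((t - d) / (1 - 2 * d)) - y = clp ((t - d) / (1 - 2 * d)) - t := by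
    linarith
  rw [e2, abs_le]
  rcases le_total t d with h | h
  · rw [clp_of_le (div_nonpos_of_nonpos_of_nonneg (by linarith) hq.le)]
    constructor <;> linarith
  rcases le_total (1 - d) t with h' | h'
  · rw [clp_of_ge ((le_div_iff₀ hq).mpr (by linarith))]
    constructor <;> linarith
  · have e3 : clp ((t - d) / (1 - 2 * d)) = (t - d) / (1 - 2 * d) := by
      unfold clp
      rw [min_eq_right ((div_le_one hq).mpr (by linarith)),
        max_eq_right (div_nonneg (by linarith) hq.le)]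
    rw [e3]
    constructor
    · rw [neg_le_sub_iff_le_add, ← sub_le_iff_le_add, le_div_iff₀ hq]
      nlinarith
    · rw [sub_le_iff_le_add, div_le_iff₀ hq]
      nlinarith

lemma plat_zero (y : ℝ) : plat 0 y = y := by
  have := abs_plat_sub (d := 0) (y := y) le_rfl (by norm_num)
  have h2 := abs_nonpos_iff.mp this
  linarith

/-- joint continuity -/
lemma continuous_plat {β : Type*} [TopologicalSpace β] {d y : β → ℝ} (hd : Continuous d)
    (hy : Continuous y) (h0 : ∀ b, 0 ≤ d b) (h1 : ∀ b, d b ≤ 1 / 3) :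
    Continuous fun b => plat (d b) (y b) := by
  have key : Continuous fun b => (fun (b : β) (t : ℝ) => clp ((t - d b) / (1 - 2 * d b)) - t) b
      (Int.fract (y b)) := by
    apply ContinuousOn.comp_fract (s := y)
      (f := fun (b : β) (t : ℝ) => clp ((t - d b) / (1 - 2 * d b)) - t)
    · apply Continuous.continuousOn
      have hdc : Continuous fun p : β × ℝ => d p.1 := hd.comp continuous_fst
      refine Continuous.sub (continuous_clp.comp ?_) continuous_snd
      refine (continuous_snd.sub hdc).div (continuous_const.sub (continuous_const.mul hdc)) ?_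
      intro p
      have := h1 p.1
      have : 0 < 1 - 2 * d p.1 := by linarith
      exact this.ne'
    · exact hy
    · intro b
      have hq : 0 < 1 - 2 * d b := by linarith [h1 b]
      rw [clp_of_le (div_nonpos_of_nonpos_of_nonneg (by linarith [h0 b]) hq.le),
        clp_of_ge ((le_div_iff₀ hq).mpr (by linarith [h0 b]))]
      ring
  have : (fun b => plat (d b) (y b)) = fun b => y b + (fun (b : β) (t : ℝ) =>
      clp ((t - d b) / (1 - 2 * d b)) - t) b (Int.fract (y b)) := by
    funext b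
    unfold plat
    have := Int.floor_add_fract (y b)
    linarith
  rw [this]
  exact hy.add key

/-- the plateau map at level `l` in all coordinates -/
noncomputable def pl {N : ℕ} (l : ℕ) (d : ℝ) (y : Fin N → ℝ) : Fin N → ℝ :=
  fun i => plat (3 ^ l * d) (3 ^ l * y i) / 3 ^ l

lemma pl_dist {N l : ℕ} {d : ℝ} (h0 : 0 ≤ d) (h1 : 3 ^ l * d ≤ 1 / 3) (y : Fin N → ℝ) :
    dist (pl l d y) y ≤ d := by
  have hp := pow3_pos l
  rw [dist_pi_le_iff h0]
  intro i
  rw [Real.dist_eq]
  have h2 := abs_plat_sub (y := 3 ^ l * y i) (mul_nonneg hp.le h0) h1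
  have e : pl l d y i - y i = (plat (3 ^ l * d) (3 ^ l * y i) - 3 ^ l * y i) / 3 ^ l := by
    unfold pl
    field_simp
  rw [e, abs_div, abs_of_pos hp, div_le_iff₀ hp]
  linarith

lemma pl_zero {N : ℕ} (l : ℕ) (y : Fin N → ℝ) : pl l 0 y = y := by
  have hp := pow3_pos l
  funext i
  unfold pl
  rw [mul_zero, plat_zero, mul_div_cancel_left₀ _ hp.ne']

/-- the plateau map sends points close to `mu` into the level set -/
lemma pl_mem {k N l : ℕ} {d : ℝ} (h0 : 0 ≤ d) (h1 : 3 ^ l * d ≤ 1 / 3) {x y : Fin N → ℝ}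
    (hx : x ∈ mu k N) (hxy : dist y x ≤ d) : pl l d y ∈ Lev k N l := by
  have hp := pow3_pos l
  have hd0 : 0 ≤ 3 ^ l * d := mul_nonneg hp.le h0
  have hi : ∀ i, x i - d ≤ y i ∧ y i ≤ x i + d := by
    intro i
    have := (dist_le_pi_dist y x i).trans hxy
    rw [Real.dist_eq, abs_le] at this
    constructor <;> linarith [this.1, this.2]
  -- order relations with integers
  have hup : ∀ i (n : ℤ), 3 ^ l * x i ≤ n → 3 ^ l * pl l d y i ≤ n := by
    intro i n hn
    unfold pl
    rw [mul_div_cancel₀ _ hp.ne']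
    apply plat_le h1
    have := (hi i).2
    nlinarith
  have hlo : ∀ i (n : ℤ), (n:ℝ) ≤ 3 ^ l * x i → (n:ℝ) ≤ 3 ^ l * pl l d y i := by
    intro i n hn
    unfold pl
    rw [mul_div_cancel₀ _ hp.ne']
    apply le_plat h1
    have := (hi i).1
    nlinarith
  have hst : ∀ i, Stay l (x i) (pl l d y i) := by
    intro i
    rw [stay_iff]
    exact fun n => ⟨hlo i n, hup i n⟩
  refine ⟨fun i => (hst i).mem_Icc (hx.1 i), fun l' hl' => ?_⟩
  exact (nb_mono fun i hb => (hst i).bad hl' hb).trans (hx.2 l')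

variable {α : Type*} [MetricSpace α]

/-- The Menger compactum is a neighbourhood extensor for compact sets of dimension `≤ k`:
a map `F` into the `3 ^ (-(l+1))`-neighbourhood of `mu k N` is `2 * 3 ^ (-l)`-close to a map into
`mu k N` which agrees with `F` wherever `F` is already in `mu k N`. -/
theorem mu_ext {k N l : ℕ} {P : Set α} (cP : IsCompact P) (hP : PushOff k P)
    {F : α → Fin N → ℝ} (hF : ContinuousOn F P)
    (hd : ∀ x ∈ P, ∃ y ∈ mu k N, dist (F x) y ≤ (1 / 3) ^ (l + 1)) :
    ∃ F' : α → Fin N → ℝ, ContinuousOn F' P ∧ (∀ x ∈ P, F' x ∈ mu k N) ∧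
      (∀ x ∈ P, F x ∈ mu k N → F' x = F x) ∧ ∀ x ∈ P, dist (F' x) (F x) ≤ 2 * (1 / 3) ^ l := by
  rcases P.eq_empty_or_nonempty with rfl | ⟨x₀, hx₀⟩
  · exact ⟨F, hF, by simp, by simp, by simp⟩
  obtain ⟨y₀, hy₀, _⟩ := hd x₀ hx₀
  have hne : (mu k N).Nonempty := ⟨y₀, hy₀⟩
  have hp := pow3_pos l
  have e1 : (3:ℝ) ^ l * (1 / 3) ^ (l + 1) = 1 / 3 := by
    rw [pow_succ, ← mul_assoc, ← mul_pow]; norm_num
  -- the distance to `mu`, cut off
  set D : (Fin N → ℝ) → ℝ := fun z => min (infDist z (mu k N)) ((1 / 3) ^ (l + 1)) with hD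
  have cD : Continuous D := (continuous_infDist_pt _).min continuous_const
  have hD0 : ∀ z, 0 ≤ D z := fun z => le_min infDist_nonneg (by positivity)
  have hD1 : ∀ z, 3 ^ l * D z ≤ 1 / 3 := by
    intro z
    rw [← e1]
    exact mul_le_mul_of_nonneg_left (min_le_right _ _) hp.le
  have cpl : Continuous fun z : Fin N → ℝ => pl l (D z) z := by
    apply continuous_pi
    intro i
    unfold pl
    refine Continuous.div_const ?_ _
    exact continuous_plat (continuous_const.mul cD) (continuous_const.mul (continuous_apply i))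
      (fun z => mul_nonneg hp.le (hD0 z)) hD1
  have hDmu : ∀ z ∈ mu k N, D z = 0 := by
    intro z hz
    simp only [hD]
    rw [infDist_zero_of_mem hz]
    exact min_eq_left (by positivity)
  have hlev : ∀ x ∈ P, pl l (D (F x)) (F x) ∈ Lev k N l := by
    intro x hx
    obtain ⟨y, hy, hyd⟩ := hd x hx
    obtain ⟨z, hz, hzd⟩ := (isCompact_mu k N).exists_infDist_eq_dist hne (F x)
    apply pl_mem (hD0 _) (hD1 _) hz
    simp only [hD]
    rw [← hzd]
    refine le_min le_rfl ?_
    exact (infDist_le_dist_of_mem hy).trans hyd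
  obtain ⟨F', cF', mF', sF', eF'⟩ := push cP hP (l := l) (cpl.comp_continuousOn hF) hlev
  refine ⟨F', cF', mF', ?_, ?_⟩
  · intro x hx hm
    have h1 : pl l (D (F x)) (F x) = F x := by rw [hDmu _ hm, pl_zero]
    have h2 := eF' x hx (by rw [Function.comp_apply, h1]; exact hm)
    rw [h2, Function.comp_apply, h1]
  · intro x hx
    have h1 : dist (F' x) (pl l (D (F x)) (F x)) ≤ (1 / 3) ^ l := by
      rw [dist_pi_le_iff (by positivity)]
      intro i
      rw [Real.dist_eq]
      exact (sF' x hx i).abs_le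
    have h2 : dist (pl l (D (F x)) (F x)) (F x) ≤ D (F x) := pl_dist (hD0 _) (hD1 _) _
    have h3 : D (F x) ≤ (1 / 3) ^ (l + 1) := min_le_right _ _
    have h4 : ((1:ℝ) / 3) ^ (l + 1) ≤ (1 / 3) ^ l :=
      pow_le_pow_of_le_one (by norm_num) (by norm_num) (by omega)
    linarith [dist_triangle (F' x) (pl l (D (F x)) (F x)) (F x)]

end MG
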