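import Pool.Agent.Work.MP_017613_gt.DigB

/-!
# Strong form of the push

The push from level `l` on never moves a coordinate across a number `t` which is not bad at the
levels `>= l`. No condition on the lower levels is needed.
-/

open Set Topology Metric
open Pool.Agent.Work.MP_017613_gt

namespace MG

/-- `b` is on the same side as `a` of every `t` which is not bad at level `l` -/
def StB (l : ℕ) (a b : ℝ) : Prop := ∀ t, ¬ Bad l t → (a ≤ t → b ≤ t) ∧ (t ≤ a → t ≤ b)

lemma StB.refl (l : ℕ) (a : ℝ) : StB l a a := fun _ _ => ⟨id, id⟩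

lemma StB.trans {l : ℕ} {a b c : ℝ} (h1 : StB l a b) (h2 : StB l b c) : StB l a c :=
  fun t ht => ⟨fun h => (h2 t ht).1 ((h1 t ht).1 h), fun h => (h2 t ht).2 ((h1 t ht).2 h)⟩

lemma StB.bad {l : ℕ} {a b : ℝ} (h : StB l a b) (hb : Bad l b) : Bad l a := by
  by_contra hc
  obtain ⟨h1, h2⟩ := h a hc
  have : b = a := le_antisymm (h1 le_rfl) (h2 le_rfl)
  rw [this] at hb
  exact hc hb

/-- `t` is not bad at the levels `>= l` -/
def Nev (l : ℕ) (t : ℝ) : Prop := ∀ l', l ≤ l' → ¬ Bad l' t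

lemma Nev.mono {l l' : ℕ} (h : l ≤ l') {t : ℝ} (ht : Nev l t) : Nev l' t :=
  fun m hm => ht m (h.trans hm)

/-- `b` is on the same side as `a` of every `t` which is not bad at the levels `>= l` -/
def StN (l : ℕ) (a b : ℝ) : Prop := ∀ t, Nev l t → (a ≤ t → b ≤ t) ∧ (t ≤ a → t ≤ b)

lemma StN.refl (l : ℕ) (a : ℝ) : StN l a a := fun _ _ => ⟨id, id⟩

lemma StN.trans {l : ℕ} {a b c : ℝ} (h1 : StN l a b) (h2 : StN l b c) : StN l a c :=
  fun t ht => ⟨fun h => (h2 t ht).1 ((h1 t ht).1 h), fun h => (h2 t ht).2 ((h1 t ht).2 h)⟩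

lemma StB.stN {l l' : ℕ} (hl : l ≤ l') {a b : ℝ} (h : StB l' a b) : StN l a b :=
  fun t ht => h t (ht l' hl)

lemma StN.mono {l l' : ℕ} (hl : l ≤ l') {a b : ℝ} (h : StN l' a b) : StN l a b :=
  fun t ht => h t (ht.mono hl)

/-- multiples of `3 ^ (-l)` are never bad at the levels `>= l` -/
lemma nev_int {l : ℕ} {t : ℝ} (n : ℤ) (h : 3 ^ l * t = n) : Nev l t := by
  intro l' hl
  obtain ⟨d, rfl⟩ := Nat.exists_eq_add_of_le hl
  rw [bad_iff_exists]
  rintro ⟨m, h1, h2⟩
  have e : (3:ℝ) ^ (l + d) * t = ((3 ^ d * n : ℤ) : ℝ) := by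
    rw [pow_add, mul_comm (3 ^ l : ℝ) (3 ^ d), mul_assoc, h]
    push_cast
    ring
  rw [e] at h1 h2
  have h3 : (m:ℝ) < ((3 ^ d * n : ℤ) : ℝ) := by linarith
  have h4 : ((3 ^ d * n : ℤ) : ℝ) < (m:ℝ) + 1 := by linarith
  have h5 : m < 3 ^ d * n := by exact_mod_cast h3
  have h6 : 3 ^ d * n < m + 1 := by exact_mod_cast h4
  omega

lemma nev_wall (l : ℕ) (n : ℤ) : Nev l ((n:ℝ) / 3 ^ l) :=
  nev_int n (by rw [mul_div_cancel₀ _ (pow3_pos l).ne'])

lemma StN.stay {l : ℕ} {a b : ℝ} (h : StN l a b) : Stay l a b := by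
  have hp := pow3_pos l
  rw [stay_iff]
  intro n
  obtain ⟨h1, h2⟩ := h _ (nev_wall l n)
  rw [le_div_iff₀ hp, le_div_iff₀ hp] at h1
  rw [div_le_iff₀ hp, div_le_iff₀ hp] at h2
  constructor
  · intro h; have := h2 (by linarith); linarith
  · intro h; have := h1 (by linarith); linarith

lemma isClosed_stN (l : ℕ) (a : ℝ) : IsClosed {b : ℝ | StN l a b} := by
  have : {b : ℝ | StN l a b} = ⋂ t, ⋂ _ : Nev l t,
      ({b : ℝ | a ≤ t → b ≤ t} ∩ {b : ℝ | t ≤ a → t ≤ b}) := by
    ext b; simp [StN]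
  rw [this]
  refine isClosed_iInter fun t => isClosed_iInter fun _ => IsClosed.inter ?_ ?_
  · by_cases h : a ≤ t
    · have e : {b : ℝ | a ≤ t → b ≤ t} = Iic t := by ext b; simp [h]
      rw [e]; exact isClosed_Iic
    · simp [h]
  · by_cases h : t ≤ a
    · have e : {b : ℝ | t ≤ a → t ≤ b} = Ici t := by ext b; simp [h]
      rw [e]; exact isClosed_Ici
    · simp [h]

variable {α : Type*} [MetricSpace α]

/-- the pushing step for one set `S` of `k + 1` coordinates at level `l`, strong form -/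
lemma spush_one {k N : ℕ} {P : Set α} (cP : IsCompact P) (hP : PushOff k P) (l : ℕ)
    (S : Finset (Fin N)) (hS : S.card = k + 1) {g : α → Fin N → ℝ} (hg : ContinuousOn g P) :
    ∃ g' : α → Fin N → ℝ, ContinuousOn g' P ∧ (∀ x ∈ P, ∀ i, StB l (g x i) (g' x i)) ∧
      (∀ x ∈ P, ∃ i ∈ S, ¬ Bad l (g' x i)) ∧
      (∀ x ∈ P, (∃ i ∈ S, ¬ Bad l (g x i)) → g' x = g x) := by
  classical
  have hp := pow3_pos l
  -- enumeration of `S`
  obtain ⟨e⟩ : Nonempty (S ≃ Fin (k + 1)) := by
    refine ⟨Fintype.equivOfCardEq ?_⟩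
    simp [hS]
  have hgi : ∀ i, ContinuousOn (fun x => g x i) P := fun i =>
    (continuous_apply i).comp_continuousOn hg
  have htw : ContinuousOn (fun x => fun i => tw (3 ^ l * g x i)) P := by
    rw [continuousOn_pi]
    intro i
    exact continuous_tw.comp_continuousOn (continuousOn_const.mul (hgi i))
  obtain ⟨A, hA⟩ : ∃ A : Set α, A = {x ∈ P | ∀ i ∈ S, tw (3 ^ l * g x i) ≤ 1 / 6} := ⟨_, rfl⟩
  obtain ⟨B, hB⟩ : ∃ B : Set α, B = {x ∈ P | ∃ i ∈ S, 1 / 6 ≤ tw (3 ^ l * g x i)} := ⟨_, rfl⟩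
  have hA' : ∀ x, x ∈ A ↔ x ∈ P ∧ ∀ i ∈ S, tw (3 ^ l * g x i) ≤ 1 / 6 := by
    intro x; rw [hA]; rfl
  have hB' : ∀ x, x ∈ B ↔ x ∈ P ∧ ∃ i ∈ S, 1 / 6 ≤ tw (3 ^ l * g x i) := by
    intro x; rw [hB]; rfl
  have hAP : A ⊆ P := fun x hx => ((hA' x).1 hx).1
  have clA : IsClosed A := by
    have : IsClosed {y : Fin N → ℝ | ∀ i ∈ S, y i ≤ 1 / 6} := by
      simp only [ofPred_forall]
      exact isClosed_iInter fun i => isClosed_iInter fun _ =>
        isClosed_le (continuous_apply i) continuous_const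
    rw [hA]; exact htw.preimage_isClosed_of_isClosed cP.isClosed this
  have clB : IsClosed B := by
    have : IsClosed {y : Fin N → ℝ | ∃ i ∈ S, 1 / 6 ≤ y i} := by
      have e : {y : Fin N → ℝ | ∃ i ∈ S, 1 / 6 ≤ y i} = ⋃ i ∈ S, {y : Fin N → ℝ | 1 / 6 ≤ y i} := by
        ext y; simp
      rw [e]
      refine Set.Finite.isClosed_biUnion (Finset.finite_toSet S) fun i _ => ?_
      exact isClosed_le continuous_const (continuous_apply i)
    rw [hB]; exact htw.preimage_isClosed_of_isClosed cP.isClosed this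
  have cA : IsCompact A := cP.of_isClosed_subset clA hAP
  have hAB : P = A ∪ B := by
    ext x
    rw [mem_union, hA', hB']
    constructor
    · intro hx
      by_cases h : ∀ i ∈ S, tw (3 ^ l * g x i) ≤ 1 / 6
      · exact Or.inl ⟨hx, h⟩
      · push Not at h
        obtain ⟨i, hi, h⟩ := h
        exact Or.inr ⟨hx, i, hi, h.le⟩
    · rintro (h | h) <;> exact h.1
  -- block coordinates
  set u : α → Fin (k + 1) → ℝ :=
    fun x j => Int.fract (3 ^ l * g x (e.symm j)) - 1 / 2 with hu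
  have cu : ContinuousOn u A := by
    rw [continuousOn_pi]
    intro j x hx
    have h1 : ContinuousWithinAt (fun x => 3 ^ l * g x (e.symm j)) A x :=
      ((continuousOn_const.mul (hgi _)).mono hAP) x hx
    have h2 : ContinuousAt (Int.fract : ℝ → ℝ) (3 ^ l * g x (e.symm j)) :=
      continuousAt_fract_of_tw (((hA' x).1 hx).2 _ (e.symm j).2)
    exact (ContinuousAt.comp_continuousWithinAt (f := fun x => 3 ^ l * g x (e.symm j)) h2 h1).sub
      continuousWithinAt_const
  have hule : ∀ x ∈ A, ‖u x‖ ≤ 1 / 6 := by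
    intro x hx
    rw [pi_norm_le_iff_of_nonneg (by norm_num)]
    intro j
    exact ((hA' x).1 hx).2 _ (e.symm j).2
  obtain ⟨w, cw, hw6, hwu⟩ := radial (hP.mono cA hAP) cu
  set d : α → Fin N → ℝ := fun x i => if h : i ∈ S then
    (w x (e ⟨i, h⟩) - u x (e ⟨i, h⟩)) / 3 ^ l else 0 with hd
  have cd : ContinuousOn d A := by
    rw [continuousOn_pi]
    intro i
    by_cases h : i ∈ S
    · simp only [hd, h, dif_pos]
      have h1 := (continuous_apply (e ⟨i, h⟩)).comp_continuousOn cw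
      have h2 := (continuous_apply (e ⟨i, h⟩)).comp_continuousOn cu
      exact (h1.sub h2).div_const _
    · simp only [hd, h, dif_neg, not_false_iff]
      exact continuousOn_const
  -- on `A ∩ B` the correction vanishes
  have hAB0 : ∀ x ∈ A, (∃ i ∈ S, 1 / 6 ≤ tw (3 ^ l * g x i)) → d x = 0 := by
    rintro x hx ⟨i, hi, h6⟩
    have h1 : ‖u x‖ = 1 / 6 := by
      refine le_antisymm (hule x hx) ?_
      refine h6.trans ?_
      have := norm_le_pi_norm (u x) (e ⟨i, hi⟩)
      simpa [hu, tw, Real.norm_eq_abs] using this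
    have h2 := hwu x hx h1
    funext j
    simp only [hd, h2, sub_self, zero_div, Pi.zero_apply]
    split_ifs <;> rfl
  have hnb : ∀ x i, ¬ Bad l (g x i) ↔ 1 / 6 ≤ tw (3 ^ l * g x i) := by
    intro x i
    rw [bad_iff_tw, not_lt]
  have hval' : ∀ x ∈ A, ∀ i (hi : i ∈ S), 1 / 3 ≤ Int.fract (3 ^ l * g x i) ∧
      Int.fract (3 ^ l * g x i) ≤ 2 / 3 ∧
      3 ^ l * (g x + d x) i = ⌊3 ^ l * g x i⌋ + 1 / 2 + w x (e ⟨i, hi⟩) := by
    intro x hx i hi
    have h1 := ((hA' x).1 hx).2 i hi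
    unfold tw at h1
    rw [abs_le] at h1
    refine ⟨by linarith [h1.1], by linarith [h1.2], ?_⟩
    have h2 := Int.floor_add_fract (3 ^ l * g x i)
    have h3 : u x (e ⟨i, hi⟩) = Int.fract (3 ^ l * g x i) - 1 / 2 := by
      simp only [hu, Equiv.symm_apply_apply]
    have h4 : d x i = (w x (e ⟨i, hi⟩) - u x (e ⟨i, hi⟩)) / 3 ^ l := by
      simp only [hd, hi, dif_pos]
    rw [Pi.add_apply, h4, h3, mul_add, mul_div_cancel₀ _ hp.ne']
    linarith
  have hval : ∀ x ∈ A, ∀ i ∈ S, (⌊3 ^ l * g x i⌋ : ℝ) + 1 / 3 ≤ 3 ^ l * (g x + d x) i ∧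
      3 ^ l * (g x + d x) i ≤ (⌊3 ^ l * g x i⌋ : ℝ) + 2 / 3 := by
    intro x hx i hi
    obtain ⟨_, _, h3⟩ := hval' x hx i hi
    have h4 : |w x (e ⟨i, hi⟩)| ≤ 1 / 6 := by
      rw [← Real.norm_eq_abs]
      exact (norm_le_pi_norm (w x) _).trans (hw6 x hx).le
    rw [abs_le] at h4
    rw [h3]
    constructor
    · linarith [h4.1]
    · linarith [h4.2]
  refine ⟨fun x => if x ∈ A then g x + d x else g x, ?_, ?_, ?_, ?_⟩
  · have h1 : ContinuousOn (fun x => if x ∈ A then g x + d x else g x) A :=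
      ((hg.mono hAP).add cd).congr fun x hx => by simp [hx]
    have h2 : ContinuousOn (fun x => if x ∈ A then g x + d x else g x) B := by
      refine (hg.mono (fun x hx => ((hB' x).1 hx).1)).congr fun x hx => ?_
      by_cases hxA : x ∈ A
      · simp only [hxA, if_true, hAB0 x hxA ((hB' x).1 hx).2, add_zero]
      · simp [hxA]
    rw [hAB]
    exact h1.union_of_isClosed h2 clA clB
  · intro x hx i
    by_cases hxA : x ∈ A
    · simp only [hxA, if_true]
      by_cases hi : i ∈ S
      · obtain ⟨h1, h2⟩ := hval x hxA i hi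
        obtain ⟨f1, f2, _⟩ := hval' x hxA i hi
        have h3 := Int.floor_add_fract (3 ^ l * g x i)
        intro t ht
        have ht' : ¬ ((⌊3 ^ l * g x i⌋ : ℝ) + 1 / 3 < 3 ^ l * t ∧
            3 ^ l * t < (⌊3 ^ l * g x i⌋ : ℝ) + 2 / 3) := by
          intro h
          exact ht (bad_iff_exists.mpr ⟨_, h.1, h.2⟩)
        constructor
        · intro hgt
          by_contra hc
          push Not at hc
          have h4 : 3 ^ l * g x i ≤ 3 ^ l * t := mul_le_mul_of_nonneg_left hgt hp.le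
          have h5 : 3 ^ l * t < 3 ^ l * (g x + d x) i := mul_lt_mul_of_pos_left hc hp
          have h6 : Int.fract (3 ^ l * g x i) ≤ 1 / 3 := by
            by_contra h7
            push Not at h7
            exact ht' ⟨by linarith, by linarith⟩
          have h7 : Int.fract (3 ^ l * g x i) = 1 / 3 := le_antisymm h6 f1
          have h8 := hAB0 x hxA ⟨i, hi, by rw [tw, h7]; norm_num⟩
          rw [h8, add_zero] at hc
          linarith
        · intro hgt
          by_contra hc
          push Not at hc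
          have h4 : 3 ^ l * t ≤ 3 ^ l * g x i := mul_le_mul_of_nonneg_left hgt hp.le
          have h5 : 3 ^ l * (g x + d x) i < 3 ^ l * t := mul_lt_mul_of_pos_left hc hp
          have h6 : 2 / 3 ≤ Int.fract (3 ^ l * g x i) := by
            by_contra h7
            push Not at h7
            exact ht' ⟨by linarith, by linarith⟩
          have h7 : Int.fract (3 ^ l * g x i) = 2 / 3 := le_antisymm f2 h6
          have h8 := hAB0 x hxA ⟨i, hi, by rw [tw, h7]; norm_num⟩
          rw [h8, add_zero] at hc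
          linarith
      · have : (g x + d x) i = g x i := by simp [hd, hi]
        rw [this]
        exact StB.refl _ _
    · simp only [hxA, if_false]
      exact StB.refl _ _
  · intro x hx
    by_cases hxA : x ∈ A
    · simp only [hxA, if_true]
      -- some coordinate of `w` has absolute value `1/6`
      obtain ⟨j, hj⟩ : ∃ j, ‖w x j‖ = 1 / 6 := by
        by_contra hcon
        push Not at hcon
        have h1 : ∀ j, ‖w x j‖ < 1 / 6 := fun j =>
          lt_of_le_of_ne ((norm_le_pi_norm (w x) j).trans (hw6 x hxA).le) (hcon j)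
        have h2 : ‖w x‖ < 1 / 6 := by
          rw [pi_norm_lt_iff (by norm_num)]
          exact h1
        rw [hw6 x hxA] at h2
        exact lt_irrefl _ h2
      refine ⟨(e.symm j : Fin N), (e.symm j).2, ?_⟩
      obtain ⟨h1, h2, h3⟩ := hval' x hxA (e.symm j) (e.symm j).2
      rw [bad_iff_exists]
      rintro ⟨n, hn1, hn2⟩
      have h3' : 3 ^ l * (g x + d x) (e.symm j) =
          ⌊3 ^ l * g x (e.symm j)⌋ + 1 / 2 + w x j := by
        rw [h3]
        simp
      rw [h3'] at hn1 hn2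
      rw [Real.norm_eq_abs] at hj
      have hw : w x j = 1 / 6 ∨ w x j = - (1 / 6) := by
        rcases abs_cases (w x j) with h | h
        · left; linarith [h.1]
        · right; linarith [h.1]
      have h5 : (n:ℝ) < (⌊3 ^ l * g x (e.symm j)⌋ : ℝ) + 1 := by
        rcases hw with h | h <;> rw [h] at hn1 hn2 <;> linarith
      have h6 : (⌊3 ^ l * g x (e.symm j)⌋ : ℝ) < (n:ℝ) + 1 := by
        rcases hw with h | h <;> rw [h] at hn1 hn2 <;> linarith
      have h7 : n < ⌊3 ^ l * g x (e.symm j)⌋ + 1 := by exact_mod_cast h5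
      have h8 : ⌊3 ^ l * g x (e.symm j)⌋ < n + 1 := by exact_mod_cast h6
      have h9 : n = ⌊3 ^ l * g x (e.symm j)⌋ := by omega
      have h10 : (n:ℝ) = (⌊3 ^ l * g x (e.symm j)⌋ : ℝ) := by exact_mod_cast h9
      rw [← h10] at hn1 hn2
      rcases hw with h | h <;> rw [h] at hn1 hn2 <;> linarith
    · simp only [hxA, if_false]
      have : x ∈ B := by
        have := hx
        rw [hAB] at this
        exact this.resolve_left hxA
      obtain ⟨i, hi, h6⟩ := ((hB' x).1 this).2
      exact ⟨i, hi, (hnb x i).2 h6⟩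
  · rintro x hx ⟨i, hi, hc⟩
    by_cases hxA : x ∈ A
    · simp only [hxA, if_true]
      rw [hAB0 x hxA ⟨i, hi, (hnb x i).1 hc⟩, add_zero]
    · simp only [hxA, if_false]

/-- the pushing step at level `l`, strong form -/
lemma spush_level {k N : ℕ} {P : Set α} (cP : IsCompact P) (hP : PushOff k P) (l : ℕ)
    {g : α → Fin N → ℝ} (hg : ContinuousOn g P) :
    ∃ g' : α → Fin N → ℝ, ContinuousOn g' P ∧ (∀ x ∈ P, ∀ i, StB l (g x i) (g' x i)) ∧
      (∀ x ∈ P, nb l (g' x) ≤ k) ∧ (∀ x ∈ P, nb l (g x) ≤ k → g' x = g x) := by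
  classical
  have key : ∀ F : Finset (Finset (Fin N)), (∀ S ∈ F, S.card = k + 1) →
      ∃ g' : α → Fin N → ℝ, ContinuousOn g' P ∧ (∀ x ∈ P, ∀ i, StB l (g x i) (g' x i)) ∧
      (∀ x ∈ P, ∀ S ∈ F, ∃ i ∈ S, ¬ Bad l (g' x i)) ∧
      (∀ x ∈ P, nb l (g x) ≤ k → g' x = g x) := by
    intro F
    induction F using Finset.induction_on with
    | empty =>
      intro _
      exact ⟨g, hg, fun x _ i => StB.refl _ _, by simp, fun x _ _ => rfl⟩
    | insert S F hSF ih =>
      intro hc
      obtain ⟨g₁, c₁, s₁, n₁, e₁⟩ := ih fun S' hS' => hc S' (Finset.mem_insert_of_mem hS')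
      obtain ⟨g₂, c₂, s₂, n₂, e₂⟩ := spush_one cP hP l S (hc S (Finset.mem_insert_self _ _)) c₁
      refine ⟨g₂, c₂, fun x hx i => (s₁ x hx i).trans (s₂ x hx i), ?_, ?_⟩
      · intro x hx S' hS'
        rcases Finset.mem_insert.mp hS' with rfl | hS'
        · exact n₂ x hx
        · obtain ⟨i, hi, h⟩ := n₁ x hx S' hS'
          exact ⟨i, hi, fun hb => h ((s₂ x hx i).bad hb)⟩
      · intro x hx hn
        have h1 := e₁ x hx hn
        rw [e₂ x hx ?_, h1]
        rw [h1]
        exact nb_le_iff.mp hn S (hc S (Finset.mem_insert_self _ _))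
  obtain ⟨g', c, s, n, e⟩ := key (Finset.powersetCard (k + 1) Finset.univ) (by
    intro S hS
    exact (Finset.mem_powersetCard.mp hS).2)
  refine ⟨g', c, s, ?_, e⟩
  intro x hx
  rw [nb_le_iff]
  intro S hS
  exact n x hx S (Finset.mem_powersetCard.mpr ⟨Finset.subset_univ _, hS⟩)

/-- STRONG PUSH: any map of a compact set of dimension `≤ k` into `R^N` can be pushed from level `l`
on: afterwards at most `k` coordinates are bad at all levels `≥ l`; no coordinate crosses (or leaves)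
a number which is never bad from level `l` on; nothing changes where the condition holds already. -/
theorem spush {k N : ℕ} (l : ℕ) {P : Set α} (cP : IsCompact P) (hP : PushOff k P)
    {f : α → Fin N → ℝ} (hf : ContinuousOn f P) :
    ∃ f' : α → Fin N → ℝ, ContinuousOn f' P ∧ (∀ x ∈ P, ∀ l', l ≤ l' → nb l' (f' x) ≤ k) ∧
      (∀ x ∈ P, ∀ i, StN l (f x i) (f' x i)) ∧
      (∀ x ∈ P, (∀ l', l ≤ l' → nb l' (f x) ≤ k) → f' x = f x) := by
  classical
  -- the sequence of maps
  have hstep : ∀ (m : ℕ) (g : {g : α → Fin N → ℝ // ContinuousOn g P}),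
      ∃ g' : {g : α → Fin N → ℝ // ContinuousOn g P},
      (∀ x ∈ P, ∀ i, StB m (g.1 x i) (g'.1 x i)) ∧
      (∀ x ∈ P, nb m (g'.1 x) ≤ k) ∧ (∀ x ∈ P, nb m (g.1 x) ≤ k → g'.1 x = g.1 x) := by
    intro m g
    obtain ⟨g', c, s, n, e⟩ := spush_level cP hP m g.2
    exact ⟨⟨g', c⟩, s, n, e⟩
  choose step hs hn he using hstep
  let G : ℕ → {g : α → Fin N → ℝ // ContinuousOn g P} := fun n =>
    Nat.rec ⟨f, hf⟩ (fun n g => step (l + n) g) n
  have G0 : (G 0).1 = f := rfl
  have GS : ∀ n, G (n + 1) = step (l + n) (G n) := fun n => rfl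
  have hS1 : ∀ n, ∀ x ∈ P, ∀ i, StB (l + n) ((G n).1 x i) ((G (n + 1)).1 x i) := by
    intro n; rw [GS]; exact hs _ _
  have hL : ∀ n, ∀ x ∈ P, ∀ l', l ≤ l' → l' < l + n → nb l' ((G n).1 x) ≤ k := by
    intro n
    induction n with
    | zero => intro x _ l' h1 h2; omega
    | succ n ih =>
      intro x hx l' hl1 hl'
      rcases Nat.lt_or_ge l' (l + n) with h | h
      · refine (nb_mono fun i hb => ?_).trans (ih x hx l' hl1 h)
        exact ((hS1 n x hx i).stN le_rfl).stay.bad h hb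
      · have : l' = l + n := by omega
        rw [this, GS]
        exact hn _ _ x hx
  have hfix : ∀ n, ∀ x ∈ P, (∀ l', l ≤ l' → nb l' (f x) ≤ k) → (G n).1 x = f x := by
    intro n
    induction n with
    | zero => intro x _ _; rfl
    | succ n ih =>
      intro x hx hm
      have h1 := ih x hx hm
      rw [GS, he _ _ x hx, h1]
      rw [h1]
      exact hm _ (by omega)
  have hSm : ∀ n m, n ≤ m → ∀ x ∈ P, ∀ i, StN (l + n) ((G n).1 x i) ((G m).1 x i) := by
    intro n m hnm
    induction m, hnm using Nat.le_induction with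
    | base => intro x _ i; exact StN.refl _ _
    | succ m hm ih =>
      intro x hx i
      exact (ih x hx i).trans ((hS1 m x hx i).stN (by omega))
  have hdist : ∀ n, ∀ x ∈ P, dist ((G n).1 x) ((G (n + 1)).1 x) ≤ 1 * (1 / 3) ^ n := by
    intro n x hx
    rw [one_mul, dist_pi_le_iff (by positivity)]
    intro i
    rw [dist_comm, Real.dist_eq]
    refine ((hS1 n x hx i).stN le_rfl).stay.abs_le.trans ?_
    exact pow_le_pow_of_le_one (by norm_num) (by norm_num) (by omega)
  have hlim : ∀ x ∈ P, ∃ y, Filter.Tendsto (fun n => (G n).1 x) Filter.atTop (𝓝 y) := by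
    intro x hx
    exact cauchySeq_tendsto_of_complete
      (cauchySeq_of_le_geometric (1 / 3) 1 (by norm_num) fun n => hdist n x hx)
  choose! F hF using hlim
  have hSF : ∀ n, ∀ x ∈ P, ∀ i, StN (l + n) ((G n).1 x i) (F x i) := by
    intro n x hx i
    have h1 : Filter.Tendsto (fun m => (G m).1 x i) Filter.atTop (𝓝 (F x i)) :=
      (tendsto_pi_nhds.mp (hF x hx)) i
    refine (isClosed_stN (l + n) ((G n).1 x i)).mem_of_tendsto h1 ?_
    filter_upwards [Filter.eventually_ge_atTop n] with m hm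
    exact hSm n m hm x hx i
  refine ⟨F, ?_, ?_, ?_, ?_⟩
  · have huni : TendstoUniformlyOn (fun n => (G n).1) F Filter.atTop P := by
      rw [Metric.tendstoUniformlyOn_iff]
      intro ε hε
      have h0 : Filter.Tendsto (fun n : ℕ => (1 / 3 : ℝ) ^ n) Filter.atTop (𝓝 0) :=
        tendsto_pow_atTop_nhds_zero_of_lt_one (by norm_num) (by norm_num)
      filter_upwards [h0.eventually (gt_mem_nhds hε)] with n hn' x hx
      refine lt_of_le_of_lt ?_ hn'
      rw [dist_pi_le_iff (by positivity)]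
      intro i
      rw [Real.dist_eq]
      refine (hSF n x hx i).stay.abs_le.trans ?_
      exact pow_le_pow_of_le_one (by norm_num) (by norm_num) (by omega)
    exact huni.continuousOn (Filter.Frequently.of_forall fun n => (G n).2)
  · intro x hx l' hl'
    have h1 : l' < l + (l' + 1) := by omega
    exact (nb_mono fun i hb => (hSF (l' + 1) x hx i).stay.bad h1 hb).trans
      (hL (l' + 1) x hx l' hl' h1)
  · intro x hx i
    exact hSF 0 x hx i
  · intro x hx hm
    have h1 : Filter.Tendsto (fun n => (G n).1 x) Filter.atTop (𝓝 (f x)) := by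
      have : (fun n => (G n).1 x) = fun _ => f x := by
        funext n; exact hfix n x hx hm
      rw [this]
      exact tendsto_const_nhds
    exact tendsto_nhds_unique (hF x hx) h1

end MG
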