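import Pool.Agent.Work.MP_017613_gt.DigF
import Pool.Agent.Work.MP_017613_gt.DigC
import Pool.Agent.Work.MP_017613_gt.Defs

/-!
# Explicit subspaces of the Menger compactum

`T` is a finite set of numbers which are not bad from some level on; a set `Y` is a `T`-set if it is
defined by the position of the coordinates with respect to the elements of `T`. The spaces
`mu k N ∩ Y` are neighbourhood extensors for compact sets of dimension `≤ k`.
-/

open Set Topology Metric
open Pool.Agent.Work.MP_017613_gt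

namespace MG

/-- plateau of half width `d` at `0` (to be subtracted) -/
noncomputable def kap (d s : ℝ) : ℝ := max 0 (min s (2 * d - s)) - max 0 (min (-s) (2 * d + s))

lemma kap_eq {d s : ℝ} (h : |s| ≤ d) : kap d s = s := by
  rw [abs_le] at h
  unfold kap
  rcases le_total 0 s with hs | hs
  · rw [min_eq_left (by linarith), max_eq_right hs, min_eq_left (by linarith),
      max_eq_left (by linarith)]
    ring
  · rw [min_eq_left (by linarith), max_eq_left hs, min_eq_left (by linarith),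
      max_eq_right (by linarith)]
    ring

lemma kap_zero_of {d s : ℝ} (h : 2 * d ≤ |s|) : kap d s = 0 := by
  unfold kap
  rcases abs_cases s with ⟨he, hs⟩ | ⟨he, hs⟩
  · rw [max_eq_left ((min_le_right _ _).trans (by linarith)),
      max_eq_left ((min_le_left _ _).trans (by linarith))]
    ring
  · rw [max_eq_left ((min_le_left _ _).trans (by linarith)),
      max_eq_left ((min_le_right _ _).trans (by linarith))]
    ring

lemma abs_kap_le {d s : ℝ} (hd : 0 ≤ d) : |kap d s| ≤ d := by
  have h1 : 0 ≤ max 0 (min s (2 * d - s)) := le_max_left _ _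
  have h2 : 0 ≤ max 0 (min (-s) (2 * d + s)) := le_max_left _ _
  have h3 : max 0 (min s (2 * d - s)) ≤ d := by
    refine max_le hd ?_
    rcases le_total s d with h | h
    · exact (min_le_left _ _).trans h
    · exact (min_le_right _ _).trans (by linarith)
  have h4 : max 0 (min (-s) (2 * d + s)) ≤ d := by
    refine max_le hd ?_
    rcases le_total (-s) d with h | h
    · exact (min_le_left _ _).trans h
    · exact (min_le_right _ _).trans (by linarith)
  unfold kap
  rw [abs_le]
  constructor <;> linarith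

/-- the plateau map for the finite set `T` -/
noncomputable def pla (T : Finset ℝ) (d y : ℝ) : ℝ := y - ∑ t ∈ T, kap d (y - t)

/-- `T` is `4 d`-separated -/
def Sep (T : Finset ℝ) (d : ℝ) : Prop := ∀ t ∈ T, ∀ t' ∈ T, t ≠ t' → 4 * d ≤ |t - t'|

lemma exists_sep (T : Finset ℝ) : ∃ d > 0, Sep T d := by
  classical
  induction T using Finset.induction_on with
  | empty => exact ⟨1, one_pos, by intro t ht; simp at ht⟩
  | insert a T ha ih =>
    obtain ⟨d, hd, hs⟩ := ih
    have : ∃ d' > 0, ∀ t ∈ T, 4 * d' ≤ |a - t| := by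
      clear hs
      induction T using Finset.induction_on with
      | empty => exact ⟨1, one_pos, by intro t ht; simp at ht⟩
      | insert b T hb ih2 =>
        obtain ⟨d', hd', h⟩ := ih2 fun h => ha (Finset.mem_insert_of_mem h)
        have hab : a ≠ b := fun h => ha (by rw [h]; exact Finset.mem_insert_self _ _)
        have hpos : 0 < |a - b| := abs_pos.mpr (sub_ne_zero.mpr hab)
        refine ⟨min d' (|a - b| / 4), by positivity, ?_⟩
        intro t ht
        rcases Finset.mem_insert.mp ht with rfl | ht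
        · have := min_le_right d' (|a - t| / 4)
          linarith
        · have := min_le_left d' (|a - b| / 4)
          linarith [h t ht]
    obtain ⟨d', hd', h'⟩ := this
    refine ⟨min d d', by positivity, ?_⟩
    have m1 := min_le_left d d'
    have m2 := min_le_right d d'
    intro t ht t' ht' hne
    rcases Finset.mem_insert.mp ht with h1 | h1
    · rcases Finset.mem_insert.mp ht' with h2 | h2
      · exact absurd (h1.trans h2.symm) hne
      · rw [h1]; linarith [h' t' h2]
    · rcases Finset.mem_insert.mp ht' with h2 | h2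
      · rw [abs_sub_comm, h2]
        linarith [h' t h1]
      · linarith [hs t h1 t' h2 hne]

lemma Sep.mono {T : Finset ℝ} {d d' : ℝ} (h : Sep T d) (hd : d' ≤ d) : Sep T d' :=
  fun t ht t' ht' hne => by linarith [h t ht t' ht' hne]

lemma pla_sum {T : Finset ℝ} {d : ℝ} (hd : 0 ≤ d) (hs : Sep T d) (y : ℝ) :
    |∑ t ∈ T, kap d (y - t)| ≤ d ∧
      ∀ t ∈ T, |y - t| ≤ d → ∑ t' ∈ T, kap d (y - t') = y - t := by
  classical
  have key : ∀ t ∈ T, |y - t| ≤ 2 * d → ∑ t' ∈ T, kap d (y - t') = kap d (y - t) := by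
    intro t ht h
    apply Finset.sum_eq_single t
    · intro t' ht' hne
      apply kap_zero_of
      have h1 := hs t ht t' ht' (Ne.symm hne)
      have h2 : |t - t'| ≤ |y - t| + |y - t'| := by
        have : t - t' = -(y - t) + (y - t') := by ring
        rw [this]
        exact (abs_add_le _ _).trans (by rw [abs_neg])
      linarith
    · intro h; exact absurd ht h
  constructor
  · by_cases h : ∃ t ∈ T, |y - t| ≤ 2 * d
    · obtain ⟨t, ht, h⟩ := h
      rw [key t ht h]
      exact abs_kap_le hd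
    · push Not at h
      rw [Finset.sum_eq_zero, abs_zero]
      · exact hd
      · intro t ht
        exact kap_zero_of (h t ht).le
  · intro t ht h
    rw [key t ht (by linarith), kap_eq h]

lemma pla_le {T : Finset ℝ} {d : ℝ} (hd : 0 ≤ d) (hs : Sep T d) {t y : ℝ} (ht : t ∈ T)
    (hy : y ≤ t + d) : pla T d y ≤ t := by
  obtain ⟨h1, h2⟩ := pla_sum hd hs y
  unfold pla
  rcases le_total (t - d) y with h | h
  · rw [h2 t ht (abs_le.mpr ⟨by linarith, by linarith⟩)]
    linarith
  · rw [abs_le] at h1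
    linarith [h1.1]

lemma le_pla {T : Finset ℝ} {d : ℝ} (hd : 0 ≤ d) (hs : Sep T d) {t y : ℝ} (ht : t ∈ T)
    (hy : t - d ≤ y) : t ≤ pla T d y := by
  obtain ⟨h1, h2⟩ := pla_sum hd hs y
  unfold pla
  rcases le_total y (t + d) with h | h
  · rw [h2 t ht (abs_le.mpr ⟨by linarith, by linarith⟩)]
    linarith
  · rw [abs_le] at h1
    linarith [h1.2]

lemma abs_pla_sub {T : Finset ℝ} {d : ℝ} (hd : 0 ≤ d) (hs : Sep T d) (y : ℝ) :
    |pla T d y - y| ≤ d := by
  obtain ⟨h1, _⟩ := pla_sum hd hs y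
  unfold pla
  rw [abs_sub_comm]
  have : y - (y - ∑ t ∈ T, kap d (y - t)) = ∑ t ∈ T, kap d (y - t) := by ring
  rw [this]
  exact h1

lemma kap_zero_left (s : ℝ) : kap 0 s = 0 := kap_zero_of (by simp)

lemma pla_zero (T : Finset ℝ) (y : ℝ) : pla T 0 y = y := by
  unfold pla
  simp [kap_zero_left]

lemma continuous_pla {β : Type*} [TopologicalSpace β] (T : Finset ℝ) {d y : β → ℝ}
    (hd : Continuous d) (hy : Continuous y) : Continuous fun b => pla T (d b) (y b) := by
  unfold pla kap
  fun_prop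

/-- `z` is on the same side as `x` of all `t` in `T`, in all coordinates -/
def Tst {N : ℕ} (T : Finset ℝ) (x z : Fin N → ℝ) : Prop :=
  ∀ i, ∀ t ∈ T, (x i ≤ t → z i ≤ t) ∧ (t ≤ x i → t ≤ z i)

/-- `Y` is defined by the sides of the elements of `T` -/
def TSet {N : ℕ} (T : Finset ℝ) (Y : Set (Fin N → ℝ)) : Prop := ∀ x ∈ Y, ∀ z, Tst T x z → z ∈ Y

lemma TSet.mono {N : ℕ} {T T' : Finset ℝ} (h : T ⊆ T') {Y : Set (Fin N → ℝ)} (hY : TSet T Y) :
    TSet T' Y := fun x hx z hz => hY x hx z fun i t ht => hz i t (h ht)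

lemma TSet.inter {N : ℕ} {T : Finset ℝ} {Y Z : Set (Fin N → ℝ)} (hY : TSet T Y) (hZ : TSet T Z) :
    TSet T (Y ∩ Z) := fun x hx z hz => ⟨hY x hx.1 z hz, hZ x hx.2 z hz⟩

lemma TSet.union {N : ℕ} {T : Finset ℝ} {Y Z : Set (Fin N → ℝ)} (hY : TSet T Y) (hZ : TSet T Z) :
    TSet T (Y ∪ Z) := fun x hx z hz => hx.imp (fun h => hY x h z hz) fun h => hZ x h z hz

/-- `K` is a neighbourhood extensor for compact sets of dimension `≤ k` (in its ambient space):
maps into a small neighbourhood of `K` are close to maps into `K` which agree with them wherever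
they are already in `K`. -/
def Ext (k : ℕ) {E : Type*} [MetricSpace E] (K : Set E) : Prop :=
  ∀ ε > 0, ∃ δ > 0, ∀ (α : Type) [MetricSpace α] (P : Set α), IsCompact P → PushOff k P →
    ∀ F : α → E, ContinuousOn F P → (∀ x ∈ P, ∃ y ∈ K, dist (F x) y ≤ δ) →
    ∃ F' : α → E, ContinuousOn F' P ∧ (∀ x ∈ P, F' x ∈ K) ∧ (∀ x ∈ P, F x ∈ K → F' x = F x) ∧
      ∀ x ∈ P, dist (F' x) (F x) ≤ ε

/-- the spaces `mu k N ∩ Y` are neighbourhood extensors -/
theorem ext_mu {k N : ℕ} {T : Finset ℝ} (hT : ∀ t ∈ T, ∃ l, Nev l t) {Y : Set (Fin N → ℝ)}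
    (hYc : IsClosed Y) (hY : TSet T Y) : Ext k (mu k N ∩ Y) := by
  classical
  -- a common level
  obtain ⟨l₀, hl₀⟩ : ∃ l₀, ∀ t ∈ T, Nev l₀ t := by
    clear hY
    induction T using Finset.induction_on with
    | empty => exact ⟨0, by intro t ht; simp at ht⟩
    | insert a T ha ih =>
      obtain ⟨l₁, h₁⟩ := ih fun t ht => hT t (Finset.mem_insert_of_mem ht)
      obtain ⟨l₂, h₂⟩ := hT a (Finset.mem_insert_self _ _)
      refine ⟨max l₁ l₂, ?_⟩
      intro t ht
      rcases Finset.mem_insert.mp ht with rfl | ht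
      · exact h₂.mono (le_max_right _ _)
      · exact (h₁ t ht).mono (le_max_left _ _)
  intro ε hε
  obtain ⟨l, hl, hlε⟩ : ∃ l, l₀ ≤ l ∧ 2 * (1 / 3 : ℝ) ^ l ≤ ε := by
    obtain ⟨m, hm⟩ := exists_pow_lt_of_lt_one (show 0 < ε / 2 by positivity)
      (show (1 / 3 : ℝ) < 1 by norm_num)
    refine ⟨max l₀ m, le_max_left _ _, ?_⟩
    have : ((1:ℝ) / 3) ^ (max l₀ m) ≤ (1 / 3) ^ m :=
      pow_le_pow_of_le_one (by norm_num) (by norm_num) (le_max_right _ _)
    linarith
  have hp := pow3_pos l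
  -- the walls
  set T' : Finset ℝ := T ∪ (Finset.range (3 ^ l + 1)).image (fun n : ℕ => (n : ℝ) / 3 ^ l) with hT'
  have hnev : ∀ t ∈ T', Nev l t := by
    intro t ht
    rcases Finset.mem_union.mp ht with ht | ht
    · exact (hl₀ t ht).mono hl
    · obtain ⟨n, _, rfl⟩ := Finset.mem_image.mp ht
      have h := nev_wall l (n : ℤ)
      rwa [Int.cast_natCast] at h
  have hwall : ∀ n : ℕ, n ≤ 3 ^ l → (n : ℝ) / 3 ^ l ∈ T' := by
    intro n hn
    apply Finset.mem_union_right
    exact Finset.mem_image.mpr ⟨n, Finset.mem_range.mpr (by omega), rfl⟩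
  have hYT' : TSet T' Y := hY.mono Finset.subset_union_left
  obtain ⟨d₁, hd₁, hsep₁⟩ := exists_sep T'
  set d₀ : ℝ := min d₁ ((1 / 3) ^ l) with hd₀
  have hd₀0 : 0 < d₀ := by positivity
  have hsep₀ : Sep T' d₀ := hsep₁.mono (min_le_left _ _)
  refine ⟨d₀, hd₀0, ?_⟩
  intro α _ P cP hP F hF hd
  set K : Set (Fin N → ℝ) := mu k N ∩ Y with hK
  have cK : IsCompact K := (isCompact_mu k N).inter_right hYc
  rcases P.eq_empty_or_nonempty with rfl | ⟨x₀, hx₀⟩
  · exact ⟨F, hF, by simp, by simp, by simp⟩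
  obtain ⟨y₀, hy₀, _⟩ := hd x₀ hx₀
  have hne : K.Nonempty := ⟨y₀, hy₀⟩
  -- the distance to `K`, cut off
  set D : (Fin N → ℝ) → ℝ := fun z => min (infDist z K) d₀ with hD
  have cD : Continuous D := (continuous_infDist_pt _).min continuous_const
  have hD0 : ∀ z, 0 ≤ D z := fun z => le_min infDist_nonneg hd₀0.le
  have hD1 : ∀ z, D z ≤ d₀ := fun z => min_le_right _ _
  set R : (Fin N → ℝ) → (Fin N → ℝ) := fun z i => pla T' (D z) (z i) with hR
  have cR : Continuous R := by
    apply continuous_pi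
    intro i
    exact continuous_pla T' cD (continuous_apply i)
  have hRK : ∀ z ∈ K, R z = z := by
    intro z hz
    have : D z = 0 := by
      simp only [hD]
      rw [infDist_zero_of_mem hz]
      exact min_eq_left hd₀0.le
    funext i
    simp only [hR, this, pla_zero]
  have hRst : ∀ x ∈ P, ∃ z ∈ K, Tst T' z (R (F x)) := by
    intro x hx
    obtain ⟨y, hy, hyd⟩ := hd x hx
    obtain ⟨z, hz, hzd⟩ := cK.exists_infDist_eq_dist hne (F x)
    have hDz : dist (F x) z ≤ D (F x) := by
      simp only [hD]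
      rw [← hzd]
      exact le_min le_rfl ((infDist_le_dist_of_mem hy).trans hyd)
    have hi : ∀ i, z i - D (F x) ≤ F x i ∧ F x i ≤ z i + D (F x) := by
      intro i
      have := (dist_le_pi_dist (F x) z i).trans hDz
      rw [Real.dist_eq, abs_le] at this
      constructor <;> linarith [this.1, this.2]
    have hs : Sep T' (D (F x)) := hsep₀.mono (hD1 _)
    refine ⟨z, hz, fun i t ht => ⟨fun h => ?_, fun h => ?_⟩⟩
    · exact pla_le (hD0 _) hs ht (by linarith [(hi i).2])
    · exact le_pla (hD0 _) hs ht (by linarith [(hi i).1])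
  obtain ⟨F', cF', nF', sF', eF'⟩ := spush l cP hP (cR.comp_continuousOn hF)
  simp only [Function.comp_apply] at sF' eF'
  -- the final map stays on the right sides
  have hfin : ∀ x ∈ P, ∃ z ∈ K, Tst T' z (F' x) := by
    intro x hx
    obtain ⟨z, hz, hst⟩ := hRst x hx
    refine ⟨z, hz, fun i t ht => ⟨fun h => ?_, fun h => ?_⟩⟩
    · exact (sF' x hx i t (hnev t ht)).1 ((hst i t ht).1 h)
    · exact (sF' x hx i t (hnev t ht)).2 ((hst i t ht).2 h)
  have hlow : ∀ z ∈ K, ∀ w, Tst T' z w → (∀ i, w i ∈ Icc (0:ℝ) 1) ∧ ∀ l' < l, nb l' w ≤ k := by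
    intro z hz w hw
    have h01 : ∀ i, w i ∈ Icc (0:ℝ) 1 := by
      intro i
      have h0 := (hw i 0 (by simpa using hwall 0 (by positivity))).2 (hz.1.1 i).1
      have h1 := (hw i 1 (by
        have := hwall (3 ^ l) le_rfl
        push_cast at this
        rwa [div_self hp.ne'] at this)).1 (hz.1.1 i).2
      exact ⟨h0, h1⟩
    refine ⟨h01, fun l' hl' => ?_⟩
    refine (nb_mono fun i hb => ?_).trans (hz.1.2 l')
    rw [bad_units hl' (h01 i).1] at hb
    rw [bad_units hl' (hz.1.1 i).1]
    obtain ⟨n, hA, hB⟩ := hb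
    have hw1 := (h01 i).2
    have hBle : (3 * n + 1) * 3 ^ (l - l' - 1) < 3 ^ l := by
      have : (((3 * n + 1) * 3 ^ (l - l' - 1) : ℕ) : ℝ) < 3 ^ l := by nlinarith
      exact_mod_cast this
    have hB2 : (3 * n + 2) * 3 ^ (l - l' - 1) ≤ 3 ^ l := by
      obtain ⟨e, he⟩ : ∃ e, l = l' + e + 1 := ⟨l - l' - 1, by omega⟩
      have e1 : l - l' - 1 = e := by omega
      rw [e1] at hBle ⊢
      have e2 : 3 ^ l = (3 * 3 ^ l') * 3 ^ e := by rw [he]; ring
      rw [e2] at hBle ⊢
      have h3 : 3 * n + 1 < 3 * 3 ^ l' := lt_of_mul_lt_mul_right hBle (Nat.zero_le _)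
      exact Nat.mul_le_mul_right _ (by omega)
    refine ⟨n, ?_, ?_⟩
    · by_contra hc
      push Not at hc
      have h1 := (hw i _ (hwall _ hBle.le)).1 (by rw [le_div_iff₀ hp]; linarith)
      rw [le_div_iff₀ hp] at h1
      linarith
    · by_contra hc
      push Not at hc
      have h1 := (hw i _ (hwall _ hB2)).2 (by rw [div_le_iff₀ hp]; linarith)
      rw [div_le_iff₀ hp] at h1
      linarith
  refine ⟨F', cF', ?_, ?_, ?_⟩
  · intro x hx
    obtain ⟨z, hz, hst⟩ := hfin x hx
    obtain ⟨h01, hlo⟩ := hlow z hz _ hst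
    refine ⟨⟨h01, fun l' => ?_⟩, hYT' z hz.2 _ hst⟩
    rcases Nat.lt_or_ge l' l with h | h
    · exact hlo l' h
    · exact nF' x hx l' h
  · intro x hx hm
    have h1 := hRK _ hm
    rw [eF' x hx (by rw [h1]; exact fun l' _ => hm.1.2 l'), h1]
  · intro x hx
    have h1 : dist (F' x) (R (F x)) ≤ (1 / 3) ^ l := by
      rw [dist_pi_le_iff (by positivity)]
      intro i
      rw [Real.dist_eq]
      exact (sF' x hx i).stay.abs_le
    have h2 : dist (R (F x)) (F x) ≤ D (F x) := by
      rw [dist_pi_le_iff (hD0 _)]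
      intro i
      rw [Real.dist_eq]
      exact abs_pla_sub (hD0 _) (hsep₀.mono (hD1 _)) _
    have h3 : D (F x) ≤ (1 / 3) ^ l := (hD1 _).trans (min_le_right _ _)
    linarith [dist_triangle (F' x) (R (F x)) (F x)]

end MG
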