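import Pool.Agent.Work.MP_017613_gt.DigG

/-!
# Local connectivity and connectivity of the explicit spaces, in the form of `Defs.lean`
-/

open Set Topology Metric
open Pool.Agent.Work.MP_017613_gt

namespace MG

lemma lift_subtype {α E : Type*} [TopologicalSpace α] [TopologicalSpace E] {P : Set α} {F : α → E}
    {K : Set E} (y : K) (hF : ContinuousOn F P) (hm : ∀ x ∈ P, F x ∈ K) :
    ∃ A : α → K, ContinuousOn A P ∧ ∀ x ∈ P, (A x : E) = F x := by
  classical
  refine ⟨fun x => if h : F x ∈ K then ⟨F x, h⟩ else y, ?_, ?_⟩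
  · rw [Topology.IsInducing.subtypeVal.continuousOn_iff]
    refine hF.congr fun x hx => ?_
    simp [hm x hx]
  · intro x hx
    simp [hm x hx]

lemma pushOff_Cb {j k : ℕ} (h : j ≤ k) : PushOff k (Cb j) := by
  apply pushOff_of_finrank _ isCompact_Icc
  rw [Module.finrank_fintype_fun_eq_card, Fintype.card_fin]
  exact h

lemma isClosed_Bd (j : ℕ) : IsClosed (Bd j) := by
  have : Bd j = Cb j ∩ ⋃ i : Fin j, ({x : Fin j → ℝ | x i = 0} ∪ {x : Fin j → ℝ | x i = 1}) := by
    ext x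
    simp only [Bd, mem_ofPred_eq, mem_inter_iff, mem_iUnion, mem_union]
  rw [this]
  refine isClosed_Icc.inter (isClosed_iUnion_of_finite fun i => IsClosed.union ?_ ?_)
  · exact isClosed_eq (continuous_apply i) continuous_const
  · exact isClosed_eq (continuous_apply i) continuous_const

lemma Bd_subset (j : ℕ) : Bd j ⊆ Cb j := fun _ hx => hx.1

lemma isCompact_Bd (j : ℕ) : IsCompact (Bd j) :=
  (isCompact_Icc (a := (0 : Fin j → ℝ)) (b := 1)).of_isClosed_subset (isClosed_Bd j) (Bd_subset j)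

/-- neighbourhood extensors are uniformly locally connected -/
theorem ulc_of_ext {k N : ℕ} {K : Set (Fin N → ℝ)} (h : Ext k K) : ULC k K := by
  intro ε hε
  obtain ⟨δ, hδ, H⟩ := h (ε / 2) (half_pos hε)
  refine ⟨min δ (ε / 2), by positivity, ?_⟩
  intro j _ hj y a ha hay
  have h1 : ContinuousOn (fun x => (a x : Fin N → ℝ) - y) (Bd j) :=
    (continuous_subtype_val.comp_continuousOn ha).sub continuousOn_const
  obtain ⟨G, cG, eG, bG⟩ := tietze_small (isCompact_Bd j) h1 (ε := min δ (ε / 2))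
    (by positivity) (fun x hx => by
      rw [← dist_eq_norm]
      exact hay x hx)
  obtain ⟨F', cF', mF', eF', dF'⟩ := H (Fin j → ℝ) (Cb j) isCompact_Icc (pushOff_Cb hj)
    (fun x => G x + y) (cG.add continuous_const).continuousOn (fun x _ => ⟨y, y.2, by
      rw [dist_eq_norm, add_sub_cancel_right]
      exact (bG x).le.trans (min_le_left _ _)⟩)
  obtain ⟨A, cA, hA⟩ := lift_subtype y cF' mF'
  refine ⟨A, cA, ?_, ?_⟩
  · intro x hx
    apply Subtype.ext
    have e1 : G x + (y : Fin N → ℝ) = a x := by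
      rw [eG hx]
      exact sub_add_cancel _ _
    rw [hA x (Bd_subset j hx), eF' x (Bd_subset j hx) (by
      show G x + (y : Fin N → ℝ) ∈ K
      rw [e1]; exact (a x).2)]
    exact e1
  · intro x hx
    rw [Subtype.dist_eq, hA x hx]
    have h2 := dF' x hx
    have h3 : dist (G x + (y : Fin N → ℝ)) y < ε / 2 := by
      rw [dist_eq_norm, add_sub_cancel_right]
      exact (bG x).trans_le (min_le_right _ _)
    linarith [dist_triangle (F' x) (G x + (y : Fin N → ℝ)) y]

theorem ulc_mu_inter {k N : ℕ} {T : Finset ℝ} (hT : ∀ t ∈ T, ∃ l, Nev l t)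
    {Y : Set (Fin N → ℝ)} (hYc : IsClosed Y) (hY : TSet T Y) :
    ULC k (mu k N ∩ Y : Set (Fin N → ℝ)) := ulc_of_ext (ext_mu hT hYc hY)

theorem ulc_mu (k N : ℕ) : ULC k (mu k N) := by
  have h := ulc_mu_inter (k := k) (N := N) (T := ∅) (by simp) isClosed_univ (fun _ _ _ _ => mem_univ _)
  rwa [inter_univ] at h

/-- extension of maps from the boundary of the cube by coning -/
lemma cone_extend {E : Type*} [NormedAddCommGroup E] [NormedSpace ℝ E] {j : ℕ} (hj : 1 ≤ j)
    {a : (Fin j → ℝ) → E} (ha : ContinuousOn a (Bd j)) (p : E) :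
    ∃ F : (Fin j → ℝ) → E, ContinuousOn F (Cb j) ∧ EqOn F a (Bd j) ∧
      ∀ x ∈ Cb j, ∃ x' ∈ Bd j, ∃ s ∈ Icc (0:ℝ) 1, F x = (1 - s) • p + s • a x' := by
  classical
  have : Nonempty (Fin j) := ⟨⟨0, hj⟩⟩
  set c : Fin j → ℝ := fun _ => 1 / 2 with hc
  have hCb : ∀ x : Fin j → ℝ, x ∈ Cb j ↔ ‖x - c‖ ≤ 1 / 2 := by
    intro x
    rw [pi_norm_le_iff_of_nonneg (by norm_num)]
    simp only [Cb, mem_Icc, Pi.le_def, Pi.zero_apply, Pi.one_apply, hc, Pi.sub_apply,
      Real.norm_eq_abs, abs_le]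
    constructor
    · rintro ⟨h1, h2⟩ i
      constructor <;> linarith [h1 i, h2 i]
    · intro h
      exact ⟨fun i => by linarith [(h i).1], fun i => by linarith [(h i).2]⟩
  have hBd : ∀ x : Fin j → ℝ, ‖x - c‖ = 1 / 2 → x ∈ Bd j := by
    intro x hx
    refine ⟨(hCb x).2 hx.le, ?_⟩
    obtain ⟨i, hi⟩ : ∃ i, ‖(x - c) i‖ = 1 / 2 := by
      by_contra hcon
      push Not at hcon
      have h1 : ∀ i, ‖(x - c) i‖ < 1 / 2 := fun i =>
        lt_of_le_of_ne ((norm_le_pi_norm (x - c) i).trans hx.le) (hcon i)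
      have h2 : ‖x - c‖ < 1 / 2 := by
        rw [pi_norm_lt_iff (by norm_num)]
        exact h1
      rw [hx] at h2
      exact lt_irrefl _ h2
    refine ⟨i, ?_⟩
    simp only [Pi.sub_apply, hc, Real.norm_eq_abs] at hi
    rcases abs_cases (x i - 1 / 2) with h | h
    · right; linarith [h.1]
    · left; linarith [h.1]
  have hBd' : ∀ x ∈ Bd j, ‖x - c‖ = 1 / 2 := by
    rintro x ⟨hx, i, hi⟩
    refine le_antisymm ((hCb x).1 hx) ?_
    have h1 := norm_le_pi_norm (x - c) i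
    refine le_trans ?_ h1
    simp only [Pi.sub_apply, hc, Real.norm_eq_abs]
    rcases hi with hi | hi <;> rw [hi] <;> norm_num
  -- the radial projection
  set π : (Fin j → ℝ) → (Fin j → ℝ) := fun x => c + (1 / (2 * ‖x - c‖)) • (x - c) with hπ
  have hπBd : ∀ x, x ≠ c → π x ∈ Bd j := by
    intro x hx
    apply hBd
    have hpos : 0 < ‖x - c‖ := norm_pos_iff.mpr (sub_ne_zero.mpr hx)
    simp only [hπ, add_sub_cancel_left, norm_smul, Real.norm_eq_abs]
    rw [abs_of_pos (by positivity)]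
    field_simp
  have hπid : ∀ x ∈ Bd j, π x = x := by
    intro x hx
    simp only [hπ, hBd' x hx]
    norm_num
  obtain ⟨C, hC⟩ := (isCompact_Bd j).exists_bound_of_continuousOn ha
  -- the cone map
  refine ⟨fun x => (1 - 2 * ‖x - c‖) • p + (2 * ‖x - c‖) • a (π x), ?_, ?_, ?_⟩
  · intro x hx
    by_cases hxc : x = c
    · -- continuity at the centre
      have h0 : (1 - 2 * ‖x - c‖) • p + (2 * ‖x - c‖) • a (π x) = p := by
        simp [hxc]
      rw [ContinuousWithinAt, h0, tendsto_iff_norm_sub_tendsto_zero]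
      have hb : ∀ z, ‖(1 - 2 * ‖z - c‖) • p + (2 * ‖z - c‖) • a (π z) - p‖ ≤
          2 * ‖z - c‖ * (‖p‖ + |C|) := by
        intro z
        by_cases hz : z = c
        · simp [hz]
        · have e : (1 - 2 * ‖z - c‖) • p + (2 * ‖z - c‖) • a (π z) - p =
              (2 * ‖z - c‖) • (a (π z) - p) := by
            rw [sub_smul, one_smul, smul_sub]; abel
          rw [e, norm_smul, Real.norm_eq_abs, abs_of_nonneg (by positivity)]
          gcongr
          have h1 := hC (π z) (hπBd z hz)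
          have h2 := norm_sub_le (a (π z)) p
          have h3 := le_abs_self C
          linarith
      refine squeeze_zero (fun z => norm_nonneg _) hb ?_
      have h1 : Filter.Tendsto (fun z => 2 * ‖z - c‖ * (‖p‖ + |C|)) (𝓝[Cb j] x)
          (𝓝 (2 * ‖x - c‖ * (‖p‖ + |C|))) := by
        have : Continuous fun z : Fin j → ℝ => 2 * ‖z - c‖ * (‖p‖ + |C|) := by fun_prop
        exact this.continuousAt.tendsto.mono_left nhdsWithin_le_nhds
      simpa [hxc] using h1
    · have hpos : ‖x - c‖ ≠ 0 := norm_ne_zero_iff.mpr (sub_ne_zero.mpr hxc)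
      have hπc : ContinuousAt π x := by
        have e1 : ContinuousAt (fun z : Fin j → ℝ => 1 / (2 * ‖z - c‖)) x := by
          refine ContinuousAt.div continuousAt_const (by fun_prop) ?_
          positivity
        have e2 : ContinuousAt (fun z : Fin j → ℝ => z - c) x := by fun_prop
        exact continuousAt_const.add (e1.smul e2)
      have h1 : ContinuousWithinAt (fun z => a (π z)) (Cb j) x := by
        have h2 : ContinuousWithinAt a (Bd j) (π x) := ha _ (hπBd x hxc)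
        have h3 : ContinuousWithinAt (fun z => a (π z)) {z | z ≠ c} x := by
          refine ContinuousWithinAt.comp (t := Bd j) h2 hπc.continuousWithinAt ?_
          intro z hz
          exact hπBd z hz
        have h4 : {z : Fin j → ℝ | z ≠ c} ∈ 𝓝 x := isOpen_ne.mem_nhds hxc
        exact (h3.continuousAt h4).continuousWithinAt
      have h5 : Continuous fun z : Fin j → ℝ => 2 * ‖z - c‖ := by fun_prop
      exact ((continuous_const.sub h5).continuousWithinAt.smul continuousWithinAt_const).add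
        (h5.continuousWithinAt.smul h1)
  · intro x hx
    simp only [hBd' x hx, hπid x hx]
    norm_num
  · intro x hx
    have h1 := (hCb x).1 hx
    by_cases hxc : x = c
    · have : (fun _ : Fin j => (0:ℝ)) ∈ Bd j := by
        refine ⟨⟨fun i => le_rfl, fun i => zero_le_one⟩, Classical.arbitrary _, Or.inl rfl⟩
      refine ⟨_, this, 0, ⟨le_rfl, zero_le_one⟩, ?_⟩
      simp [hxc]
    · exact ⟨π x, hπBd x hxc, 2 * ‖x - c‖, ⟨by positivity, by linarith⟩, rfl⟩

/-- `T`-sets in the cube which are `(k-1)`-connected give `(k-1)`-connected subspaces of `mu` -/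
theorem conn_mu_inter {k N : ℕ} {T : Finset ℝ} (hT : ∀ t ∈ T, Nev 0 t) {Y : Set (Fin N → ℝ)}
    (hY : TSet T Y) (h01 : ∀ x ∈ Y, ∀ i, x i ∈ Icc (0:ℝ) 1) (hne : (mu k N ∩ Y).Nonempty)
    (hc : ∀ j, 1 ≤ j → j ≤ k → ∀ a : (Fin j → ℝ) → (Fin N → ℝ), ContinuousOn a (Bd j) →
      (∀ x ∈ Bd j, a x ∈ Y) → ∃ A : (Fin j → ℝ) → (Fin N → ℝ), ContinuousOn A (Cb j) ∧
      EqOn A a (Bd j) ∧ ∀ x ∈ Cb j, A x ∈ Y) :
    Conn k (mu k N ∩ Y : Set (Fin N → ℝ)) := by
  obtain ⟨y₀, hy₀⟩ := hne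
  refine ⟨⟨⟨y₀, hy₀⟩⟩, ?_⟩
  intro j hj1 hj a ha
  obtain ⟨A, cA, eA, mA⟩ := hc j hj1 hj (fun x => a x)
    (continuous_subtype_val.comp_continuousOn ha) (fun x _ => (a x).2.2)
  obtain ⟨F', cF', nF', sF', eF'⟩ := spush 0 (isCompact_Icc (a := (0 : Fin j → ℝ)) (b := 1))
    (pushOff_Cb hj) cA
  have hm : ∀ x ∈ Cb j, F' x ∈ mu k N ∩ Y := by
    intro x hx
    refine ⟨⟨fun i => (sF' x hx i).stay.mem_Icc (h01 _ (mA x hx) i), fun l => nF' x hx l (Nat.zero_le _)⟩, ?_⟩
    exact hY _ (mA x hx) _ fun i t ht => sF' x hx i t (hT t ht)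
  obtain ⟨B, cB, hB⟩ := lift_subtype ⟨y₀, hy₀⟩ cF' hm
  refine ⟨B, cB, ?_⟩
  intro x hx
  apply Subtype.ext
  have hx' := Bd_subset j hx
  rw [hB x hx', eF' x hx' (by rw [eA hx]; exact fun l _ => (a x).2.1.2 l), eA hx]

/-- star-shaped `T`-sets -/
theorem conn_mu_star {k N : ℕ} {T : Finset ℝ} (hT : ∀ t ∈ T, Nev 0 t) {Y : Set (Fin N → ℝ)}
    (hY : TSet T Y) (h01 : ∀ x ∈ Y, ∀ i, x i ∈ Icc (0:ℝ) 1) {p : Fin N → ℝ} (hp : p ∈ mu k N ∩ Y)
    (hs : ∀ x ∈ Y, ∀ s ∈ Icc (0:ℝ) 1, (1 - s) • p + s • x ∈ Y) :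
    Conn k (mu k N ∩ Y : Set (Fin N → ℝ)) := by
  refine conn_mu_inter hT hY h01 ⟨p, hp⟩ ?_
  intro j hj1 _ a ha haY
  obtain ⟨F, cF, eF, hF⟩ := cone_extend hj1 ha p
  refine ⟨F, cF, eF, ?_⟩
  intro x hx
  obtain ⟨x', hx', s, hs', e⟩ := hF x hx
  rw [e]
  exact hs _ (haY x' hx') s hs'

lemma zero_mem_mu (k N : ℕ) : (0 : Fin N → ℝ) ∈ mu k N := by
  classical
  refine ⟨fun i => by simp, fun l => ?_⟩
  have : nb l (0 : Fin N → ℝ) = 0 := by
    unfold nb
    rw [Finset.card_eq_zero, Finset.filter_eq_empty_iff]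
    intro i _ hb
    exact nev_int (l := l) (t := 0) 0 (by simp) l le_rfl (by simpa using hb)
  omega

/-- the Menger compactum is `(k-1)`-connected -/
theorem conn_mu (k N : ℕ) : Conn k (mu k N) := by
  have hT : ∀ t ∈ ({0, 1} : Finset ℝ), Nev 0 t := by
    intro t ht
    simp only [Finset.mem_insert, Finset.mem_singleton] at ht
    rcases ht with rfl | rfl
    · exact nev_int 0 (by simp)
    · exact nev_int 1 (by simp)
  have hY : TSet ({0, 1} : Finset ℝ) {x : Fin N → ℝ | ∀ i, x i ∈ Icc (0:ℝ) 1} := by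
    intro x hx z hz i
    exact ⟨(hz i 0 (by simp)).2 (hx i).1, (hz i 1 (by simp)).1 (hx i).2⟩
  have h := conn_mu_star (k := k) hT hY (fun x hx => hx) (p := 0)
    ⟨zero_mem_mu k N, fun i => by simp⟩ (fun x hx s hs i => by
      have h1 := hx i
      simp only [Pi.add_apply, Pi.smul_apply, Pi.zero_apply, smul_eq_mul, mul_zero, zero_add]
      exact ⟨mul_nonneg hs.1 h1.1, mul_le_one₀ hs.2 h1.1 h1.2⟩)
  rwa [inter_eq_left.mpr (mu_subset_cube k N)] at h

end MG
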