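import Pool.Agent.Work.MP_017613_gt.DigH
import Pool.Agent.Work.MP_017613_gt.DigD
import Pool.Agent.Work.MP_017613_gt.ZSet

/-!
# Disjoint approximations and Z-sets in explicit spaces; shells

`Sh a b = {x ∈ [0,b]^N | some x i ≥ a}`: for `a = 0` the corner box, for `b = 1` its complement,
for `a = b` the frontier, in general a shell.
-/

open Set Topology Metric
open Pool.Agent.Work.MP_017613_gt

namespace MG

lemma clp_mono {s t : ℝ} (h : s ≤ t) : clp s ≤ clp t := by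
  unfold clp
  exact max_le_max le_rfl (min_le_min le_rfl h)

lemma frz_mono (K : ℕ) {t : ℝ} (ht : 0 ≤ t) (ht9 : t ≤ 1 / 9) {y z : ℝ} (h : y ≤ z) :
    frz K t y ≤ frz K t z := by
  unfold frz
  have : ∑ j ∈ Finset.range K, (cw t (j + 1) - cw t j) * clp (3 * (y - j) - 1) ≤
      ∑ j ∈ Finset.range K, (cw t (j + 1) - cw t j) * clp (3 * (z - j) - 1) := by
    apply Finset.sum_le_sum
    intro j _
    have h1 := cw_bounds ht j
    have h2 := cw_bounds ht (j + 1)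
    push_cast at h2
    apply mul_le_mul_of_nonneg_left
    · exact clp_mono (by linarith)
    · linarith [h1.2, h2.1]
  linarith

lemma rr_mono {l m : ℕ} (h : l + 2 ≤ m) {x y : ℝ} (hxy : x ≤ y) : rr l m x ≤ rr l m y := by
  have hp := pow3_pos l
  obtain ⟨ht, ht9⟩ := tau_bounds h
  unfold rr
  apply div_le_div_of_nonneg_right _ hp.le
  exact frz_mono _ ht.le ht9 (mul_le_mul_of_nonneg_left hxy hp.le)

/-- numbers just above a wall are moved down -/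
lemma rr_lt {l m : ℕ} (h : l + 2 ≤ m) {c : ℝ} (hc : c ∈ Icc (0:ℝ) 1)
    (hf : 1 / 9 < Int.fract (3 ^ l * c) ∧ Int.fract (3 ^ l * c) ≤ 1 / 3) : rr l m c < c := by
  have hp := pow3_pos l
  obtain ⟨ht, ht9⟩ := tau_bounds h
  have hy0 : 0 ≤ 3 ^ l * c := mul_nonneg hp.le hc.1
  have hfl := Int.floor_add_fract (3 ^ l * c)
  have hn0 : 0 ≤ ⌊3 ^ l * c⌋ := Int.floor_nonneg.mpr hy0
  obtain ⟨j, hj⟩ := Int.eq_ofNat_of_zero_le hn0
  rw [hj] at hfl
  simp only [Int.cast_natCast] at hfl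
  have hjK : j < 3 ^ l := by
    have : (j:ℝ) < ((3 ^ l : ℕ) : ℝ) := by
      push_cast
      have := hc.2
      nlinarith [hf.1]
    exact_mod_cast this
  have h1 : (j:ℝ) ≤ 3 ^ l * c := by linarith [hf.1]
  have h2 : 3 ^ l * c ≤ j + 1 := by linarith [hf.2]
  have hb : ¬ ((j:ℝ) + 1 / 3 < 3 ^ l * c ∧ 3 ^ l * c < j + 2 / 3) := fun hb => by
    linarith [hb.1, hf.2]
  rcases frz_frozen (3 ^ l / 3 ^ m) hjK h1 h2 hb with ⟨he, _⟩ | ⟨_, hy⟩
  · unfold rr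
    rw [he, div_lt_iff₀ hp]
    have := (cw_bounds ht.le j).2
    linarith [hf.1]
  · linarith [hf.2]

/-- numbers just below a wall are moved up -/
lemma lt_rr {l m : ℕ} (h : l + 2 ≤ m) {c : ℝ} (hc : c ∈ Icc (0:ℝ) 1)
    (hf : 2 / 3 ≤ Int.fract (3 ^ l * c) ∧ Int.fract (3 ^ l * c) < 8 / 9) : c < rr l m c := by
  have hp := pow3_pos l
  obtain ⟨ht, ht9⟩ := tau_bounds h
  have hy0 : 0 ≤ 3 ^ l * c := mul_nonneg hp.le hc.1
  have hfl := Int.floor_add_fract (3 ^ l * c)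
  have hn0 : 0 ≤ ⌊3 ^ l * c⌋ := Int.floor_nonneg.mpr hy0
  obtain ⟨j, hj⟩ := Int.eq_ofNat_of_zero_le hn0
  rw [hj] at hfl
  simp only [Int.cast_natCast] at hfl
  have hjK : j < 3 ^ l := by
    have : (j:ℝ) < ((3 ^ l : ℕ) : ℝ) := by
      push_cast
      have := hc.2
      nlinarith [hf.1]
    exact_mod_cast this
  have h1 : (j:ℝ) ≤ 3 ^ l * c := by linarith [hf.1]
  have h2 : 3 ^ l * c ≤ j + 1 := by linarith [hf.2]
  have hb : ¬ ((j:ℝ) + 1 / 3 < 3 ^ l * c ∧ 3 ^ l * c < j + 2 / 3) := fun hb => by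
    linarith [hb.2, hf.1]
  rcases frz_frozen (3 ^ l / 3 ^ m) hjK h1 h2 hb with ⟨_, hy⟩ | ⟨he, _⟩
  · linarith [hf.1]
  · unfold rr
    rw [he, lt_div_iff₀ hp]
    have := (cw_bounds ht.le (j + 1)).1
    push_cast at this
    linarith [hf.2]

lemma rr_zero_pos {l m : ℕ} (h : l + 2 ≤ m) : 0 < rr l m 0 := by
  have hp := pow3_pos l
  obtain ⟨ht, _⟩ := tau_bounds h
  have hb : ¬ (((0:ℕ):ℝ) + 1 / 3 < 0 ∧ (0:ℝ) < ((0:ℕ):ℝ) + 2 / 3) := by
    intro hb; norm_num at hb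
  rcases frz_frozen (K := 3 ^ l) (3 ^ l / 3 ^ m) (y := 0) (j := 0) (by positivity) (by simp)
    (by simp) hb with ⟨he, _⟩ | ⟨_, hy⟩
  · unfold rr
    rw [mul_zero, he]
    unfold cw
    rw [sgn_zero]
    simp only [CharP.cast_eq_zero, one_mul, zero_add]
    positivity
  · norm_num at hy

lemma rr_one_lt {l m : ℕ} (h : l + 2 ≤ m) : rr l m 1 < 1 := by
  have hp := pow3_pos l
  obtain ⟨ht, _⟩ := tau_bounds h
  have hK : 3 ^ l - 1 + 1 = 3 ^ l := Nat.sub_add_cancel (Nat.one_le_pow _ _ (by norm_num))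
  have hKr : (((3 ^ l - 1 : ℕ) : ℝ)) + 1 = 3 ^ l := by exact_mod_cast hK
  have hb : ¬ ((((3 ^ l - 1 : ℕ) : ℝ)) + 1 / 3 < 3 ^ l * 1 ∧
      3 ^ l * 1 < ((3 ^ l - 1 : ℕ) : ℝ) + 2 / 3) := by
    intro hb; linarith [hb.2]
  rcases frz_frozen (K := 3 ^ l) (3 ^ l / 3 ^ m) (y := 3 ^ l * 1) (j := 3 ^ l - 1)
    (by have : 0 < 3 ^ l := by positivity
        omega) (by linarith) (by linarith) hb with ⟨_, hy⟩ | ⟨he, _⟩
  · linarith
  · unfold rr
    rw [he, hK, div_lt_one hp]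
    unfold cw
    rw [sgn_pow]
    push_cast
    linarith

/-! ## Shells -/

/-- `{x ∈ [0,b]^N | some x i ≥ a}` -/
def Sh {N : ℕ} (a b : ℝ) : Set (Fin N → ℝ) := {x | (∀ i, x i ∈ Icc 0 b) ∧ ∃ i, a ≤ x i}

lemma isClosed_Sh {N : ℕ} (a b : ℝ) : IsClosed (Sh (N := N) a b) := by
  have : Sh (N := N) a b = {x | ∀ i, x i ∈ Icc 0 b} ∩ ⋃ i, {x | a ≤ x i} := by
    ext x; simp [Sh]
  rw [this]
  refine IsClosed.inter ?_ ?_
  · simp only [ofPred_forall]
    exact isClosed_iInter fun i => isClosed_Icc.preimage (continuous_apply i)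
  · exact isClosed_iUnion_of_finite fun i => isClosed_le continuous_const (continuous_apply i)

lemma tset_Sh {N : ℕ} {T : Finset ℝ} {a b : ℝ} (h0 : (0:ℝ) ∈ T) (ha : a ∈ T) (hb : b ∈ T) :
    TSet T (Sh (N := N) a b) := by
  rintro x ⟨h1, i, hi⟩ z hz
  exact ⟨fun j => ⟨(hz j 0 h0).2 (h1 j).1, (hz j b hb).1 (h1 j).2⟩, i, (hz i a ha).2 hi⟩

lemma nev_zero (l : ℕ) : Nev l 0 := nev_int 0 (by simp)

lemma nev_one (l : ℕ) : Nev l 1 := nev_int (3 ^ l) (by push_cast; ring)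

lemma ulc_Sh {k N : ℕ} {a b : ℝ} (ha : Nev 0 a) (hb : Nev 0 b) :
    ULC k (mu k N ∩ Sh a b : Set (Fin N → ℝ)) := by
  refine ulc_mu_inter (T := {0, a, b}) ?_ (isClosed_Sh a b)
    (tset_Sh (by simp) (by simp) (by simp))
  intro t ht
  simp only [Finset.mem_insert, Finset.mem_singleton] at ht
  rcases ht with rfl | rfl | rfl
  · exact ⟨0, nev_zero 0⟩
  · exact ⟨0, ha⟩
  · exact ⟨0, hb⟩

lemma const_mem_mu {k N : ℕ} {b : ℝ} (hb : Nev 0 b) (h01 : b ∈ Icc (0:ℝ) 1) :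
    (fun _ => b : Fin N → ℝ) ∈ mu k N := by
  classical
  refine ⟨fun i => h01, fun l => ?_⟩
  have : nb l (fun _ => b : Fin N → ℝ) = 0 := by
    unfold nb
    rw [Finset.card_eq_zero, Finset.filter_eq_empty_iff]
    intro i _ hbad
    exact hb l (Nat.zero_le _) hbad
  omega

lemma conn_Sh {k N : ℕ} (hN : 1 ≤ N) {a b : ℝ} (ha : Nev 0 a) (hb : Nev 0 b) (hab : a ≤ b)
    (h01 : b ∈ Icc (0:ℝ) 1) : Conn k (mu k N ∩ Sh a b : Set (Fin N → ℝ)) := by
  refine conn_mu_star (T := {0, a, b}) ?_ (tset_Sh (by simp) (by simp) (by simp)) ?_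
    (p := fun _ => b) ⟨const_mem_mu hb h01, fun i => ⟨h01.1, le_rfl⟩, ⟨0, hN⟩, hab⟩ ?_
  · intro t ht
    simp only [Finset.mem_insert, Finset.mem_singleton] at ht
    rcases ht with rfl | rfl | rfl
    · exact nev_zero 0
    · exact ha
    · exact hb
  · intro x hx i
    exact ⟨(hx.1 i).1, (hx.1 i).2.trans h01.2⟩
  · rintro x ⟨h1, i, hi⟩ s hs
    refine ⟨fun j => ?_, i, ?_⟩
    · simp only [Pi.add_apply, Pi.smul_apply, smul_eq_mul]
      have h2 := h1 j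
      constructor
      · nlinarith [hs.1, hs.2, h2.1, h01.1]
      · nlinarith [hs.1, hs.2, h2.2]
    · simp only [Pi.add_apply, Pi.smul_apply, smul_eq_mul]
      have h2 := h1 i
      nlinarith [hs.1, hs.2, h2.2]

end MG
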