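import Pool.Agent.Work.MP_017613_gt.DigI

/-!
# Disjoint approximations and Z-sets in shells
-/

open Set Topology Metric
open Pool.Agent.Work.MP_017613_gt

namespace MG

/-- `c` is just below a wall of level `l` -/
def Up (c : ℝ) (l : ℕ) : Prop := 2 / 3 ≤ Int.fract (3 ^ l * c) ∧ Int.fract (3 ^ l * c) < 8 / 9

/-- `c` is just above a wall of level `l` -/
def Dn (c : ℝ) (l : ℕ) : Prop := 1 / 9 < Int.fract (3 ^ l * c) ∧ Int.fract (3 ^ l * c) ≤ 1 / 3

/-- arbitrarily high levels at which `a` is moved up (or `a = 0`) and `b` is moved down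
(or `b = 1`) -/
def Tw (a b : ℝ) : Prop := ∀ L : ℕ, ∃ l, L ≤ l ∧ (b = 1 ∨ Dn b l) ∧ (a = 0 ∨ Up a l)

/-- for levels as in `Tw` the freezing maps send the shell strictly inside -/
lemma RR_Sh {k N l m : ℕ} (h : l + 2 ≤ m) {a b : ℝ} (ha : a ∈ Icc (0:ℝ) 1) (hb : b ∈ Icc (0:ℝ) 1)
    (h1 : b = 1 ∨ Dn b l) (h2 : a = 0 ∨ Up a l) {x : Fin N → ℝ} (hx : x ∈ mu k N ∩ Sh a b) :
    RR l m x ∈ mu k N ∩ Sh a b ∧ (∀ i, RR l m x i < b) ∧ ∃ i, a < RR l m x i := by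
  have hbl : rr l m b < b := by
    rcases h1 with rfl | h1
    · exact rr_one_lt h
    · exact rr_lt h hb h1
  have hal : a < rr l m a := by
    rcases h2 with rfl | h2
    · exact rr_zero_pos h
    · exact lt_rr h ha h2
  obtain ⟨i, hi⟩ := hx.2.2
  have e1 : ∀ i, RR l m x i < b := fun i =>
    (rr_mono h (hx.2.1 i).2).trans_lt hbl
  have e2 : a < RR l m x i := hal.trans_le (rr_mono h hi)
  refine ⟨⟨RR_mem h hx.1, fun i => ⟨?_, (e1 i).le⟩, i, e2.le⟩, e1, i, e2⟩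
  exact (rr_zero_pos h).le.trans (rr_mono h (hx.2.1 i).1)

/-- a self map of a subset as a continuous map of the subtype -/
lemma subtype_map {E : Type*} [MetricSpace E] {K : Set E} {f : E → E} (hf : ContinuousOn f K)
    (hm : ∀ x ∈ K, f x ∈ K) : ∃ φ : C(K, K), ∀ x : K, (φ x : E) = f x :=
  ⟨⟨fun x => ⟨f x, hm x x.2⟩, by
    rw [continuous_induced_rng]
    exact hf.domRestrict⟩, fun _ => rfl⟩

lemma exists_level {ε : ℝ} (hε : 0 < ε) : ∃ L : ℕ, ∀ l, L ≤ l → ((1:ℝ) / 3) ^ l < ε := by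
  obtain ⟨L, hL⟩ := exists_pow_lt_of_lt_one hε (show (1 / 3 : ℝ) < 1 by norm_num)
  exact ⟨L, fun l hl => (pow_le_pow_of_le_one (by norm_num) (by norm_num) hl).trans_lt hL⟩

/-- shells have disjoint approximations of the identity -/
theorem dd_Sh {k N : ℕ} (hN : 2 * k + 1 ≤ N) {a b : ℝ} (ha : a ∈ Icc (0:ℝ) 1)
    (hb : b ∈ Icc (0:ℝ) 1) (hab : Tw a b) : DD (mu k N ∩ Sh a b : Set (Fin N → ℝ)) := by
  intro ε hε
  obtain ⟨L, hL⟩ := exists_level hε
  obtain ⟨l, hl, h1, h2⟩ := hab L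
  have key : ∀ m, l + 2 ≤ m → ∃ φ : C((mu k N ∩ Sh a b : Set (Fin N → ℝ)),
      (mu k N ∩ Sh a b : Set (Fin N → ℝ))), ∀ x, (φ x : Fin N → ℝ) = RR l m x := by
    intro m hm
    exact subtype_map (continuous_RR l m).continuousOn fun x hx => (RR_Sh hm ha hb h1 h2 hx).1
  obtain ⟨φ, hφ⟩ := key (l + 2) le_rfl
  obtain ⟨ψ, hψ⟩ := key (l + 3) (by omega)
  refine ⟨φ, ψ, ?_, ?_, ?_⟩
  · intro x
    rw [Subtype.dist_eq, hφ]
    exact (RR_dist le_rfl x.2.1.1).trans_lt (hL l hl)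
  · intro x
    rw [Subtype.dist_eq, hψ]
    exact (RR_dist (by omega) x.2.1.1).trans_lt (hL l hl)
  · intro x y he
    have h3 := congrArg Subtype.val he
    rw [hφ, hψ] at h3
    exact RR_ne hN le_rfl (show l + 2 ≤ l + 3 by omega) (by omega) x.2.1 y.2.1 h3

instance {k N : ℕ} (a b : ℝ) : CompactSpace (mu k N ∩ Sh a b : Set (Fin N → ℝ)) :=
  isCompact_iff_compactSpace.mp ((isCompact_mu k N).inter_right (isClosed_Sh a b))

/-- the outer and the inner frontier of a shell are Z-sets (any closed subset of the points where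
some coordinate is `b` or all coordinates are `≤ a`) -/
theorem zs_Sh {k N : ℕ} {a b : ℝ} (ha : a ∈ Icc (0:ℝ) 1)
    (hb : b ∈ Icc (0:ℝ) 1) (hab : Tw a b) {Z : Set (mu k N ∩ Sh a b : Set (Fin N → ℝ))}
    (hZc : IsClosed Z) (hZ : ∀ x ∈ Z, (∃ i, (x : Fin N → ℝ) i = b) ∨
      ∀ i, (x : Fin N → ℝ) i ≤ a) : ZS Z := by
  refine ⟨hZc, fun ε hε => ?_⟩
  obtain ⟨L, hL⟩ := exists_level hε
  obtain ⟨l, hl, h1, h2⟩ := hab L
  obtain ⟨φ, hφ⟩ := subtype_map (K := mu k N ∩ Sh a b) (continuous_RR l (l + 2)).continuousOn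
    fun x hx => (RR_Sh le_rfl ha hb h1 h2 hx).1
  refine ⟨φ, ?_, ?_⟩
  · intro x
    rw [Subtype.dist_eq, hφ]
    exact (RR_dist le_rfl x.2.1.1).trans_lt (hL l hl)
  · intro x hx
    obtain ⟨_, h3, i, h4⟩ := RR_Sh (m := l + 2) le_rfl ha hb h1 h2 x.2
    rcases hZ _ hx with ⟨j, hj⟩ | hj
    · rw [hφ] at hj
      exact absurd hj (h3 j).ne
    · have := hj i
      rw [hφ] at this
      linarith

/-! ## The standard sequence `c i = 3^(-i)/4` -/

/-- the standard two-sided points of the Cantor set -/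
noncomputable def cc (i : ℕ) : ℝ := (1 / 3) ^ i / 4

lemma cc_pos (i : ℕ) : 0 < cc i := by unfold cc; positivity

lemma cc_le (i : ℕ) : cc i ≤ 1 / 4 := by
  unfold cc
  have : ((1:ℝ) / 3) ^ i ≤ 1 := pow_le_one₀ (by norm_num) (by norm_num)
  linarith

lemma cc_mem (i : ℕ) : cc i ∈ Icc (0:ℝ) 1 := ⟨(cc_pos i).le, (cc_le i).trans (by norm_num)⟩

lemma cc_succ (i : ℕ) : cc (i + 1) = cc i / 3 := by unfold cc; ring

lemma cc_lt {i j : ℕ} (h : i < j) : cc j < cc i := by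
  unfold cc
  have := pow_lt_pow_right_of_lt_one₀ (show (0:ℝ) < 1 / 3 by norm_num) (by norm_num) h
  linarith

lemma pow_mul_cc (i j : ℕ) : (3:ℝ) ^ (i + j) * cc i = 3 ^ j / 4 := by
  unfold cc
  have : (3:ℝ) ^ (i + j) * ((1 / 3) ^ i / 4) = (3 ^ i * (1 / 3) ^ i) * 3 ^ j / 4 := by ring
  rw [this, ← mul_pow]
  norm_num

lemma fract_even (j : ℕ) : Int.fract ((3:ℝ) ^ (2 * j) / 4) = 1 / 4 ∧
    Int.fract ((3:ℝ) ^ (2 * j + 1) / 4) = 3 / 4 := by
  have key : ∃ n : ℕ, 3 ^ (2 * j) = 4 * n + 1 := by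
    induction j with
    | zero => exact ⟨0, by norm_num⟩
    | succ j ih =>
      obtain ⟨n, hn⟩ := ih
      refine ⟨9 * n + 2, ?_⟩
      have : 3 ^ (2 * (j + 1)) = 9 * 3 ^ (2 * j) := by ring
      rw [this, hn]
      ring
  obtain ⟨n, hn⟩ := key
  have hr : (3:ℝ) ^ (2 * j) = 4 * n + 1 := by exact_mod_cast hn
  constructor
  · rw [Int.fract_eq_iff]
    refine ⟨by norm_num, by norm_num, n, ?_⟩
    rw [hr]; push_cast; ring
  · rw [Int.fract_eq_iff]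
    refine ⟨by norm_num, by norm_num, 3 * n, ?_⟩
    rw [pow_succ, hr]; push_cast; ring

lemma cc_dn (i j : ℕ) : Dn (cc i) (i + 2 * j) := by
  unfold Dn
  rw [pow_mul_cc, (fract_even j).1]
  norm_num

lemma cc_up (i j : ℕ) : Up (cc i) (i + (2 * j + 1)) := by
  unfold Up
  rw [pow_mul_cc, (fract_even j).2]
  norm_num

lemma nev_cc (i : ℕ) : Nev 0 (cc i) := by
  intro l _ hb
  unfold Bad at hb
  rcases Nat.lt_or_ge l i with h | h
  · obtain ⟨e, rfl⟩ := Nat.exists_eq_add_of_lt h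
    have e1 : (3:ℝ) ^ l * cc (l + e + 1) = (1 / 3) ^ e / 12 := by
      unfold cc
      have : (3:ℝ) ^ l * ((1 / 3) ^ (l + e + 1) / 4) = (3 ^ l * (1 / 3) ^ l) * (1 / 3) ^ e / 12 := by
        ring
      rw [this, ← mul_pow]
      norm_num
    have h2 : ((1:ℝ) / 3) ^ e ≤ 1 := pow_le_one₀ (by norm_num) (by norm_num)
    have h3 : (0:ℝ) < (1 / 3) ^ e := by positivity
    have e2 : Int.fract ((1 / 3 : ℝ) ^ e / 12) = (1 / 3) ^ e / 12 := by
      rw [Int.fract_eq_self]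
      constructor <;> linarith
    rw [e1, e2] at hb
    linarith [hb.1]
  · obtain ⟨e, rfl⟩ := Nat.exists_eq_add_of_le h
    rw [pow_mul_cc] at hb
    rcases Nat.even_or_odd' e with ⟨j, rfl | rfl⟩
    · rw [(fract_even j).1] at hb
      linarith [hb.1]
    · rw [(fract_even j).2] at hb
      linarith [hb.2]

lemma tw_box (i : ℕ) : Tw 0 (cc i) := fun L => ⟨i + 2 * L, by omega, Or.inr (cc_dn i L), Or.inl rfl⟩

lemma tw_compl (i : ℕ) : Tw (cc i) 1 :=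
  fun L => ⟨i + (2 * L + 1), by omega, Or.inl rfl, Or.inr (cc_up i L)⟩

lemma tw_all : Tw 0 1 := fun L => ⟨L, le_rfl, Or.inl rfl, Or.inl rfl⟩

/-- shells between `c j` and `c i`, `j = i + odd` -/
lemma tw_shell (i e : ℕ) : Tw (cc (i + (2 * e + 1))) (cc i) := by
  intro L
  refine ⟨i + 2 * (L + e + 1), by omega, Or.inr (cc_dn i _), Or.inr ?_⟩
  have := cc_up (i + (2 * e + 1)) L
  have e1 : i + (2 * e + 1) + (2 * L + 1) = i + 2 * (L + e + 1) := by ring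
  rwa [e1] at this

end MG
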