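import Pool.Agent.Work.MP_017613_gt.DigK

/-!
# Local freezing maps, and disjoint approximations in chart manifolds
-/

open Set Topology Metric

namespace MG

open Pool.Agent.Work.MP_017613_gt (PushOff DD ZS isOpen_avoid)

/-- freezing on a closed set `B`, the identity on a closed set `A` disjoint from it -/
theorem local_RR {k N : ℕ} {A B : Set (Fin N → ℝ)} (hA : IsClosed A) (hB : IsClosed B)
    (hd : Disjoint A B) {ε : ℝ} (hε : 0 < ε) : ∃ L : ℕ, ∀ l, L ≤ l → ∀ m, l + 2 ≤ m →
    ∃ φ : (Fin N → ℝ) → (Fin N → ℝ), ContinuousOn φ (mu k N) ∧ MapsTo φ (mu k N) (mu k N) ∧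
      (∀ x ∈ mu k N, x ∈ A → φ x = x) ∧ (∀ x ∈ mu k N, x ∈ B → φ x = RR l m x) ∧
      ∀ x ∈ mu k N, dist (φ x) x < ε := by
  have hext : Ext k (mu k N ∩ univ) := ext_mu (T := ∅) (by simp) isClosed_univ
    (fun _ _ _ _ => mem_univ _)
  rw [inter_univ] at hext
  obtain ⟨δ, hδ, H⟩ := hext (ε / 3) (by positivity)
  obtain ⟨L, hL⟩ := exists_level (show 0 < min δ (ε / 3) by positivity)
  refine ⟨L, fun l hl m hm => ?_⟩
  have hs := hL l hl
  obtain ⟨s, hs0, hs1, hs01⟩ := exists_continuous_zero_one_of_isClosed hA hB hd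
  set F : (Fin N → ℝ) → (Fin N → ℝ) := fun x => x + s x • (RR l m x - x) with hF
  have cF : Continuous F :=
    continuous_id.add (s.continuous.smul ((continuous_RR l m).sub continuous_id))
  have dF : ∀ x ∈ mu k N, dist (F x) x ≤ (1 / 3) ^ l := by
    intro x hx
    have h1 := RR_dist hm hx.1
    rw [dist_eq_norm] at h1 ⊢
    simp only [hF, add_sub_cancel_left]
    rw [norm_smul, Real.norm_eq_abs, abs_of_nonneg (hs01 x).1]
    calc s x * ‖RR l m x - x‖ ≤ 1 * ‖RR l m x - x‖ := by
          gcongr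
          exact (hs01 x).2
      _ ≤ _ := by rw [one_mul]; exact h1
  obtain ⟨F', cF', mF', eF', dF'⟩ := H (Fin N → ℝ) (mu k N) (isCompact_mu k N) (pushOff_mu k N)
    F cF.continuousOn (fun x hx => ⟨x, hx, (dF x hx).trans (hs.le.trans (min_le_left _ _))⟩)
  refine ⟨F', cF', mF', ?_, ?_, ?_⟩
  · intro x hx hxA
    have h1 : F x = x := by
      have : s x = 0 := hs0 hxA
      simp [hF, this]
    rw [eF' x hx (by rw [h1]; exact hx), h1]
  · intro x hx hxB
    have h1 : F x = RR l m x := by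
      have : s x = 1 := hs1 hxB
      simp [hF, this]
    rw [eF' x hx (by rw [h1]; exact RR_mem hm hx), h1]
  · intro x hx
    have h1 := dF' x hx
    have h2 := dF x hx
    have h3 := hs.le.trans (min_le_right δ (ε / 3))
    linarith [dist_triangle (F' x) (F x) x]

/-- local disjoint approximations are enough -/
theorem dd_of_local {M : Type*} [MetricSpace M] [CompactSpace M]
    (h : ∀ x : M, ∃ C ∈ 𝓝 x, ∀ ε > 0, ∃ φ ψ : C(M, M), (∀ x, dist (φ x) x < ε) ∧
      (∀ x, dist (ψ x) x < ε) ∧ ∀ x y, φ x = ψ y → φ x ∉ C) : DD M := by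
  classical
  -- the condition for a set `C`
  have hop : ∀ C : Set M, IsClosed C →
      IsOpen {q : C(M, M) × C(M, M) | ∀ x y, q.1 x = q.2 y → q.1 x ∉ C} := by
    intro C hC
    have h1 : IsClosed {p : M × M | p.1 = p.2 ∧ p.1 ∈ C} :=
      (isClosed_eq continuous_fst continuous_snd).inter (hC.preimage continuous_fst)
    have h2 := isOpen_avoid (P := M × M) (N := M × M) h1 isCompact_univ
    have h3 : Continuous fun q : C(M, M) × C(M, M) =>
        ((q.1.comp (ContinuousMap.fst : C(M × M, M))).prodMk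
          (q.2.comp (ContinuousMap.snd : C(M × M, M))) : C(M × M, M × M)) := by
      apply ContinuousMap.continuous_of_continuous_uncurry
      have h5 : Continuous fun r : (C(M, M) × C(M, M)) × (M × M) => (r.1.1 r.2.1, r.1.2 r.2.2) := by
        fun_prop
      exact h5
    have h4 := h2.preimage h3
    convert h4 using 1
    ext q
    constructor
    · intro hq p _ hp
      exact hq p.1 p.2 hp.1 hp.2
    · intro hq x y hxy hx
      exact hq (x, y) (mem_univ _) ⟨hxy, hx⟩
  -- closed sets with the local property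
  have key : ∀ C : Set M, (∀ ε > 0, ∃ φ ψ : C(M, M), (∀ x, dist (φ x) x < ε) ∧
      (∀ x, dist (ψ x) x < ε) ∧ ∀ x y, φ x = ψ y → φ x ∉ C) →
      Dense {q : C(M, M) × C(M, M) | ∀ x y, q.1 x = q.2 y → q.1 x ∉ C} := by
    rintro C hC ⟨f, g⟩
    rw [Metric.mem_closure_iff]
    intro ε hε
    obtain ⟨φ, ψ, h1, h2, h3⟩ := hC (ε / 2) (by positivity)
    refine ⟨(φ.comp f, ψ.comp g), fun x y => h3 _ _, ?_⟩
    rw [Prod.dist_eq]
    refine lt_of_le_of_lt (max_le ?_ ?_) (half_lt_self hε)
    · exact (ContinuousMap.dist_le (by positivity)).2 fun x => by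
        rw [dist_comm]; exact (h1 (f x)).le
    · exact (ContinuousMap.dist_le (by positivity)).2 fun x => by
        rw [dist_comm]; exact (h2 (g x)).le
  choose C hC hCl using h
  -- closed neighbourhoods inside `C x`
  have hB : ∀ x, ∃ B ∈ 𝓝 x, IsClosed B ∧ B ⊆ C x := by
    intro x
    obtain ⟨B, hB, hBc, hBC⟩ := exists_mem_nhds_isClosed_subset (hC x)
    exact ⟨B, hB, hBc, hBC⟩
  choose B hB hBc hBC using hB
  obtain ⟨t, ht⟩ := isCompact_univ.elim_nhds_subcover B fun x _ => hB x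
  have hfin : ∀ s : Finset M, IsOpen {q : C(M, M) × C(M, M) |
      ∀ x y, q.1 x = q.2 y → ∀ z ∈ s, q.1 x ∉ B z} ∧ Dense {q : C(M, M) × C(M, M) |
      ∀ x y, q.1 x = q.2 y → ∀ z ∈ s, q.1 x ∉ B z} := by
    intro s
    induction s using Finset.induction_on with
    | empty => simp
    | insert a s _ ih =>
      have e : {q : C(M, M) × C(M, M) | ∀ x y, q.1 x = q.2 y → ∀ z ∈ insert a s, q.1 x ∉ B z} =
          {q : C(M, M) × C(M, M) | ∀ x y, q.1 x = q.2 y → q.1 x ∉ B a} ∩
          {q : C(M, M) × C(M, M) | ∀ x y, q.1 x = q.2 y → ∀ z ∈ s, q.1 x ∉ B z} := by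
        ext q
        simp only [Finset.mem_insert, mem_inter_iff, mem_ofPred_eq]
        constructor
        · intro hq
          exact ⟨fun x y hxy => hq x y hxy a (Or.inl rfl),
            fun x y hxy z hz => hq x y hxy z (Or.inr hz)⟩
        · rintro ⟨h1, h2⟩ x y hxy z (rfl | hz)
          · exact h1 x y hxy
          · exact h2 x y hxy z hz
      rw [e]
      have h1 := hop (B a) (hBc a)
      have h2 := key (B a) fun ε hε => by
        obtain ⟨φ, ψ, a1, a2, a3⟩ := hCl a ε hε
        exact ⟨φ, ψ, a1, a2, fun x y hxy hx => a3 x y hxy (hBC a hx)⟩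
      exact ⟨h1.inter ih.1, h2.inter_of_isOpen_left ih.2 h1⟩
  intro ε hε
  obtain ⟨q, hq, hqd⟩ := Metric.mem_closure_iff.1
    ((hfin t).2 (ContinuousMap.id M, ContinuousMap.id M)) ε hε
  rw [dist_comm, Prod.dist_eq, max_lt_iff] at hqd
  refine ⟨q.1, q.2, fun x => ?_, fun x => ?_, fun x y hxy => ?_⟩
  · exact (ContinuousMap.dist_apply_le_dist x).trans_lt hqd.1
  · exact (ContinuousMap.dist_apply_le_dist x).trans_lt hqd.2
  · have := ht.2 (mem_univ (q.1 x))
    simp only [mem_iUnion] at this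
    obtain ⟨z, hz, hzx⟩ := this
    exact hq x y hxy z hz hzx

end MG
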