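import Pool.Agent.Work.MP_017613_gt.DigL

/-!
# Chart manifolds have disjoint approximations of the identity
-/

open Set Topology Metric

namespace MG

open Pool.Agent.Work.MP_017613_gt (PushOff DD ZS isOpen_avoid)

/-- `M` is locally homeomorphic to open subsets of `mu k N` -/
def Chart (k N : ℕ) (M : Type*) [TopologicalSpace M] : Prop :=
  ∀ x : M, ∃ (U : Set M) (V : Set (mu k N)), IsOpen U ∧ x ∈ U ∧ IsOpen V ∧ Nonempty (U ≃ₜ V)

/-- a chart as a pair of maps between `M` and `R^N` -/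
structure CM {M : Type*} [MetricSpace M] (k N : ℕ) (x : M) (U : Set M) (h : M → (Fin N → ℝ))
    (g : (Fin N → ℝ) → M) (r : ℝ) : Prop where
  open_U : IsOpen U
  mem : x ∈ U
  cont_h : ContinuousOn h U
  map_h : ∀ y ∈ U, h y ∈ mu k N
  gh : ∀ y ∈ U, g (h y) = y
  r_pos : 0 < r
  cont_g : ContinuousOn g (mu k N ∩ closedBall (h x) (3 * r))
  map_g : ∀ z ∈ mu k N ∩ closedBall (h x) (3 * r), g z ∈ U
  hg : ∀ z ∈ mu k N ∩ closedBall (h x) (3 * r), h (g z) = z

lemma Chart.exists_cm {k N : ℕ} {M : Type*} [MetricSpace M] (hM : Chart k N M) (x : M) {r₀ : ℝ}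
    (hr₀ : 0 < r₀) : ∃ U h g r, r ≤ r₀ ∧ CM k N x U h g r := by
  classical
  obtain ⟨U, V, hU, hxU, hV, ⟨e⟩⟩ := hM x
  set h : M → (Fin N → ℝ) := fun y => if hy : y ∈ U then (e ⟨y, hy⟩ : mu k N) else 0 with hh
  have hval : ∀ y (hy : y ∈ U), h y = ((e ⟨y, hy⟩ : V) : mu k N) := by
    intro y hy; simp [hh, hy]
  have hmu : ∀ y ∈ U, h y ∈ mu k N := by
    intro y hy; rw [hval y hy]; exact ((e ⟨y, hy⟩ : V) : mu k N).2
  have hV' : ∀ y (hy : y ∈ U), (⟨h y, hmu y hy⟩ : mu k N) ∈ V := by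
    intro y hy
    have : (⟨h y, hmu y hy⟩ : mu k N) = ((e ⟨y, hy⟩ : V) : mu k N) := Subtype.ext (hval y hy)
    rw [this]
    exact (e ⟨y, hy⟩).2
  obtain ⟨r, hr, hball⟩ := Metric.isOpen_iff.mp hV ⟨h x, hmu x hxU⟩ (hV' x hxU)
  set g : (Fin N → ℝ) → M := fun z =>
    if hz : ∃ hz : z ∈ mu k N, (⟨z, hz⟩ : mu k N) ∈ V then (e.symm ⟨⟨z, hz.1⟩, hz.2⟩ : U) else x
    with hg
  have gval : ∀ z (hz : z ∈ mu k N) (hz' : (⟨z, hz⟩ : mu k N) ∈ V),
      g z = (e.symm ⟨⟨z, hz⟩, hz'⟩ : U) := by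
    intro z hz hz'
    have : ∃ hz : z ∈ mu k N, (⟨z, hz⟩ : mu k N) ∈ V := ⟨hz, hz'⟩
    simp only [hg, dif_pos this]
  have hDV : ∀ z, z ∈ mu k N ∩ closedBall (h x) (3 * (min r₀ (r / 4))) →
      ∃ hz : z ∈ mu k N, (⟨z, hz⟩ : mu k N) ∈ V := by
    rintro z ⟨hz, hzb⟩
    refine ⟨hz, hball ?_⟩
    rw [mem_ball, Subtype.dist_eq]
    rw [mem_closedBall] at hzb
    have := min_le_right r₀ (r / 4)
    have h2 : 3 * min r₀ (r / 4) < r := by linarith
    exact hzb.trans_lt h2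
  refine ⟨U, h, g, min r₀ (r / 4), min_le_left _ _, ⟨hU, hxU, ?_, hmu, ?_, by positivity, ?_, ?_, ?_⟩⟩
  · rw [continuousOn_iff_continuous_domRestrict]
    have : U.domRestrict h = fun y : U => (((e y : V) : mu k N) : Fin N → ℝ) := by
      funext y
      exact hval y y.2
    rw [this]
    fun_prop
  · intro y hy
    rw [gval (h y) (hmu y hy) (hV' y hy)]
    have : (⟨⟨h y, hmu y hy⟩, hV' y hy⟩ : V) = e ⟨y, hy⟩ :=
      Subtype.ext (Subtype.ext (hval y hy))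
    rw [this, e.symm_apply_apply]
  · rw [continuousOn_iff_continuous_domRestrict]
    have : (mu k N ∩ closedBall (h x) (3 * (min r₀ (r / 4)))).domRestrict g =
        fun z : ↥(mu k N ∩ closedBall (h x) (3 * (min r₀ (r / 4)))) =>
          ((e.symm ⟨⟨z, (hDV z z.2).1⟩, (hDV z z.2).2⟩ : U) : M) := by
      funext z
      exact gval z (hDV z z.2).1 (hDV z z.2).2
    rw [this]
    refine continuous_subtype_val.comp (e.symm.continuous.comp ?_)
    exact Continuous.subtype_mk (Continuous.subtype_mk continuous_subtype_val _) _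
  · intro z hz
    obtain ⟨h1, h2⟩ := hDV z hz
    rw [gval z h1 h2]
    exact (e.symm ⟨⟨z, h1⟩, h2⟩).2
  · intro z hz
    obtain ⟨h1, h2⟩ := hDV z hz
    rw [gval z h1 h2, hval _ (e.symm ⟨⟨z, h1⟩, h2⟩).2]
    simp

/-- transport of a self map of `mu` supported in a chart -/
lemma CM.transport {M : Type*} [MetricSpace M] [CompactSpace M] {k N : ℕ} {x : M} {U : Set M}
    {h : M → (Fin N → ℝ)} {g : (Fin N → ℝ) → M} {r : ℝ} (C : CM k N x U h g r) {ε : ℝ}
    (hε : 0 < ε) : ∃ ε' > 0, ∀ φ : (Fin N → ℝ) → (Fin N → ℝ), ContinuousOn φ (mu k N) →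
      MapsTo φ (mu k N) (mu k N) → (∀ z ∈ mu k N, 2 * r ≤ dist z (h x) → φ z = z) →
      (∀ z ∈ mu k N, dist (φ z) z < ε') → ∃ Φ : C(M, M), (∀ y, dist (Φ y) y < ε) ∧
        (∀ y, ¬ (y ∈ U ∧ dist (h y) (h x) ≤ 2 * r) → Φ y = y) ∧
        ∀ y ∈ U, dist (h y) (h x) ≤ 2 * r → Φ y ∈ U ∧ h (Φ y) = φ (h y) := by
  classical
  have hr := C.r_pos
  have cD : IsCompact (mu k N ∩ closedBall (h x) (3 * r)) :=
    (isCompact_mu k N).inter_right isClosed_closedBall
  obtain ⟨δ, hδ, hδg⟩ : ∃ δ > 0, ∀ z ∈ mu k N ∩ closedBall (h x) (3 * r),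
      ∀ w ∈ mu k N ∩ closedBall (h x) (3 * r), dist z w < δ → dist (g z) (g w) < ε := by
    have huc := cD.uniformContinuousOn_of_continuous C.cont_g
    rw [Metric.uniformContinuousOn_iff] at huc
    obtain ⟨δ, hδ, H⟩ := huc ε hε
    exact ⟨δ, hδ, H⟩
  refine ⟨min δ r, by positivity, fun φ cφ mφ iφ dφ => ?_⟩
  -- the two closed pieces
  have hF1 : ∀ y, y ∈ U → dist (h y) (h x) ≤ 2 * r →
      h y ∈ mu k N ∩ closedBall (h x) (3 * r) := by
    intro y hy hyd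
    exact ⟨C.map_h y hy, by rw [mem_closedBall]; linarith⟩
  have hφ1 : ∀ y, y ∈ U → dist (h y) (h x) ≤ 2 * r →
      φ (h y) ∈ mu k N ∩ closedBall (h x) (3 * r) := by
    intro y hy hyd
    have h1 := C.map_h y hy
    refine ⟨mφ h1, ?_⟩
    rw [mem_closedBall]
    have h2 := (dφ (h y) h1).trans_le (min_le_right δ r)
    linarith [dist_triangle (φ (h y)) (h y) (h x)]
  set F1 : Set M := {y | y ∈ U ∧ dist (h y) (h x) ≤ 2 * r} with hF1d
  set F2 : Set M := {y | ¬ (y ∈ U ∧ dist (h y) (h x) < 2 * r)} with hF2d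
  have cF1 : IsClosed F1 := by
    have e1 : F1 = g '' (mu k N ∩ closedBall (h x) (2 * r)) := by
      ext y
      constructor
      · rintro ⟨hy, hyd⟩
        exact ⟨h y, ⟨C.map_h y hy, hyd⟩, C.gh y hy⟩
      · rintro ⟨z, ⟨hz, hzd⟩, rfl⟩
        rw [mem_closedBall] at hzd
        have hz3 : z ∈ mu k N ∩ closedBall (h x) (3 * r) :=
          ⟨hz, by rw [mem_closedBall]; linarith⟩
        refine ⟨C.map_g z hz3, ?_⟩
        rw [C.hg z hz3]
        exact hzd
    rw [e1]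
    refine (((isCompact_mu k N).inter_right isClosed_closedBall).image_of_continuousOn
      (C.cont_g.mono ?_)).isClosed
    exact inter_subset_inter_right _ (closedBall_subset_closedBall (by linarith))
  have cF2 : IsClosed F2 := by
    have h1 : IsOpen (U ∩ h ⁻¹' ball (h x) (2 * r)) :=
      C.cont_h.isOpen_inter_preimage C.open_U isOpen_ball
    have e1 : F2 = (U ∩ h ⁻¹' ball (h x) (2 * r))ᶜ := by
      ext y; simp [hF2d, mem_ball]
    rw [e1]
    exact h1.isClosed_compl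
  set Φ : M → M := fun y => if y ∈ F1 then g (φ (h y)) else y with hΦ
  have hΦ1 : ContinuousOn Φ F1 := by
    have h1 : ContinuousOn (fun y => g (φ (h y))) F1 := by
      refine C.cont_g.comp (cφ.comp (C.cont_h.mono fun y hy => hy.1) ?_) ?_
      · intro y hy; exact C.map_h y hy.1
      · intro y hy; exact hφ1 y hy.1 hy.2
    exact h1.congr fun y hy => by simp [hΦ, hy]
  have hΦ2 : ContinuousOn Φ F2 := by
    refine continuousOn_id.congr fun y hy => ?_
    by_cases hy1 : y ∈ F1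
    · have h1 : 2 * r ≤ dist (h y) (h x) := by
        by_contra hc
        push Not at hc
        exact hy ⟨hy1.1, hc⟩
      simp only [hΦ, hy1, if_true, id]
      rw [iφ (h y) (C.map_h y hy1.1) h1, C.gh y hy1.1]
    · simp [hΦ, hy1]
  have hcov : F1 ∪ F2 = univ := by
    ext y
    simp only [mem_union, mem_univ, iff_true]
    by_cases hy : y ∈ F1
    · exact Or.inl hy
    · right
      rintro ⟨h1, h2⟩
      exact hy ⟨h1, h2.le⟩
  have hΦc : Continuous Φ := by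
    rw [← continuousOn_univ, ← hcov]
    exact hΦ1.union_of_isClosed hΦ2 cF1 cF2
  refine ⟨⟨Φ, hΦc⟩, ?_, ?_, ?_⟩
  · intro y
    by_cases hy : y ∈ F1
    · simp only [ContinuousMap.coe_mk, hΦ, hy, if_true]
      have h1 := hδg _ (hφ1 y hy.1 hy.2) _ (hF1 y hy.1 hy.2)
        ((dφ (h y) (C.map_h y hy.1)).trans_le (min_le_left _ _))
      rwa [C.gh y hy.1] at h1
    · simp only [ContinuousMap.coe_mk, hΦ, hy, if_false, dist_self]
      exact hε
  · intro y hy
    simp only [ContinuousMap.coe_mk, hΦ]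
    exact if_neg hy
  · intro y hy hyd
    have hy1 : y ∈ F1 := ⟨hy, hyd⟩
    simp only [ContinuousMap.coe_mk, hΦ, hy1, if_true]
    exact ⟨C.map_g _ (hφ1 y hy hyd), C.hg _ (hφ1 y hy hyd)⟩

/-- compact chart manifolds have disjoint approximations of the identity -/
theorem Chart.dd {k N : ℕ} (hN : 2 * k + 1 ≤ N) {M : Type*} [MetricSpace M] [CompactSpace M]
    (hM : Chart k N M) : DD M := by
  apply dd_of_local
  intro x
  obtain ⟨U, h, g, r, _, C⟩ := hM.exists_cm x one_pos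
  have hr := C.r_pos
  refine ⟨U ∩ h ⁻¹' ball (h x) r, ?_, ?_⟩
  · exact (C.cont_h.isOpen_inter_preimage C.open_U isOpen_ball).mem_nhds
      ⟨C.mem, mem_ball_self hr⟩
  intro ε hε
  obtain ⟨ε', hε', HT⟩ := C.transport hε
  have hA : IsClosed {z : Fin N → ℝ | 2 * r ≤ dist z (h x)} :=
    isClosed_le continuous_const (continuous_id.dist continuous_const)
  have hB : IsClosed {z : Fin N → ℝ | dist z (h x) ≤ 3 / 2 * r} :=
    isClosed_le (continuous_id.dist continuous_const) continuous_const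
  have hAB : Disjoint {z : Fin N → ℝ | 2 * r ≤ dist z (h x)}
      {z : Fin N → ℝ | dist z (h x) ≤ 3 / 2 * r} := by
    rw [Set.disjoint_left]
    intro z h1 h2
    simp only [mem_ofPred_eq] at h1 h2
    linarith
  obtain ⟨L, hL⟩ := local_RR (k := k) hA hB hAB (ε := min ε' (r / 2)) (by positivity)
  have key : ∀ m, L + 2 ≤ m → ∃ Φ : C(M, M), (∀ y, dist (Φ y) y < ε) ∧
      ∀ y, Φ y ∈ U ∩ h ⁻¹' ball (h x) r → ∃ z ∈ mu k N, h (Φ y) = RR L m z := by
    intro m hm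
    obtain ⟨φ, cφ, mφ, iφ, bφ, dφ⟩ := hL L le_rfl m hm
    obtain ⟨Φ, dΦ, oΦ, hΦ⟩ := HT φ cφ mφ (fun z hz hzd => iφ z hz hzd)
      (fun z hz => (dφ z hz).trans_le (min_le_left _ _))
    refine ⟨Φ, dΦ, ?_⟩
    rintro y ⟨hyU, hyb⟩
    have hyb' : dist (h (Φ y)) (h x) < r := hyb
    by_cases hy : y ∈ U ∧ dist (h y) (h x) ≤ 2 * r
    · obtain ⟨_, h2⟩ := hΦ y hy.1 hy.2
      have hz := C.map_h y hy.1
      refine ⟨h y, hz, ?_⟩
      rw [h2]
      apply bφ (h y) hz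
      show dist (h y) (h x) ≤ 3 / 2 * r
      rw [h2] at hyb'
      have h3 := (dφ (h y) hz).trans_le (min_le_right _ _)
      rw [dist_comm] at h3
      linarith [dist_triangle (h y) (φ (h y)) (h x)]
    · exfalso
      have h1 := oΦ y hy
      rw [h1] at hyU hyb'
      exact hy ⟨hyU, by linarith⟩
  obtain ⟨Φ, dΦ, hΦ⟩ := key (L + 2) le_rfl
  obtain ⟨Ψ, dΨ, hΨ⟩ := key (L + 3) (by omega)
  refine ⟨Φ, Ψ, dΦ, dΨ, fun y z hyz hy => ?_⟩
  obtain ⟨a, ha, h1⟩ := hΦ y hy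
  obtain ⟨b, hb, h2⟩ := hΨ z (by rw [← hyz]; exact hy)
  rw [hyz, h2] at h1
  exact RR_ne hN (show L + 2 ≤ L + 3 by omega) le_rfl (by omega) hb ha h1

end MG
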