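import Pool.Agent.Work.MP_017613_gt.DigJ

/-!
# General frozen nets

A net at level `l` is a choice of frozen values `v j` (in units of `3 ^ (-l)`) next to the walls `j`.
The values can be chosen on a prescribed side of finitely many two-sided points.
-/

open Set Topology Metric
open Pool.Agent.Work.MP_017613_gt

namespace MG

/-- allowed frozen values at the wall `j` of level `l` (in units of `3 ^ (-l)`) -/
structure Al (l j : ℕ) (v : ℝ) : Prop where
  near : |v - j| ≤ 1 / 3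
  nonneg : 0 ≤ v
  le : v ≤ 3 ^ l
  good : ∀ n d : ℕ, (((3 * n + 1) * 3 ^ d : ℕ) : ℝ) < v → v < (((3 * n + 2) * 3 ^ d : ℕ) : ℝ) →
    (3 * n + 1) * 3 ^ d < j ∧ j < (3 * n + 2) * 3 ^ d
  nev : Nev l (v / 3 ^ l)

/-- a net of frozen values -/
def Net (l : ℕ) (v : ℕ → ℝ) : Prop := ∀ j ≤ 3 ^ l, Al l j (v j)

/-- the freezing map in units of `3 ^ (-l)` -/
noncomputable def frv (K : ℕ) (v : ℕ → ℝ) (y : ℝ) : ℝ :=
  v 0 + ∑ j ∈ Finset.range K, (v (j + 1) - v j) * clp (3 * (y - j) - 1)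

lemma continuous_frv (K : ℕ) (v : ℕ → ℝ) : Continuous (frv K v) := by
  unfold frv
  refine continuous_const.add (continuous_finsetSum _ fun j _ => continuous_const.mul ?_)
  exact continuous_clp.comp (by fun_prop)

lemma frv_eq {K : ℕ} (v : ℕ → ℝ) {y : ℝ} {j : ℕ} (hj : j < K) (h1 : (j:ℝ) ≤ y)
    (h2 : y ≤ j + 1) : frv K v y = v j + (v (j + 1) - v j) * clp (3 * (y - j) - 1) := by
  unfold frv
  obtain ⟨d, rfl⟩ := Nat.exists_eq_add_of_lt hj
  have e1 : ∑ i ∈ Finset.range (j + d + 1), (v (i + 1) - v i) * clp (3 * (y - i) - 1) =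
      ∑ i ∈ Finset.range (j + 1), (v (i + 1) - v i) * clp (3 * (y - i) - 1) := by
    symm
    apply Finset.sum_subset
    · intro i hi
      rw [Finset.mem_range] at hi ⊢
      omega
    · intro i _ hi
      rw [Finset.mem_range, not_lt] at hi
      have : (j:ℝ) + 1 ≤ i := by exact_mod_cast hi
      rw [clp_of_le (by linarith), mul_zero]
  rw [e1, Finset.sum_range_succ]
  have e2 : ∑ i ∈ Finset.range j, (v (i + 1) - v i) * clp (3 * (y - i) - 1) =
      ∑ i ∈ Finset.range j, (v (i + 1) - v i) := by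
    apply Finset.sum_congr rfl
    intro i hi
    rw [Finset.mem_range] at hi
    have : (i:ℝ) + 1 ≤ j := by exact_mod_cast hi
    rw [clp_of_ge (by linarith), mul_one]
  rw [e2, Finset.sum_range_sub]
  ring

lemma Net.bounds {l : ℕ} {v : ℕ → ℝ} (hv : Net l v) {j : ℕ} (hj : j ≤ 3 ^ l) :
    (j:ℝ) - 1 / 3 ≤ v j ∧ v j ≤ j + 1 / 3 := by
  have := abs_le.mp (hv j hj).near
  constructor <;> linarith [this.1, this.2]

lemma Net.step {l : ℕ} {v : ℕ → ℝ} (hv : Net l v) {j : ℕ} (hj : j < 3 ^ l) :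
    0 ≤ v (j + 1) - v j := by
  have h1 := hv.bounds hj.le
  have h2 := hv.bounds (show j + 1 ≤ 3 ^ l from hj)
  push_cast at h2
  linarith [h1.2, h2.1]

lemma Net.mono {l : ℕ} {v : ℕ → ℝ} (hv : Net l v) {y z : ℝ} (h : y ≤ z) :
    frv (3 ^ l) v y ≤ frv (3 ^ l) v z := by
  unfold frv
  have : ∑ j ∈ Finset.range (3 ^ l), (v (j + 1) - v j) * clp (3 * (y - j) - 1) ≤
      ∑ j ∈ Finset.range (3 ^ l), (v (j + 1) - v j) * clp (3 * (z - j) - 1) := by
    apply Finset.sum_le_sum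
    intro j hj
    apply mul_le_mul_of_nonneg_left
    · exact clp_mono (by linarith)
    · exact hv.step (Finset.mem_range.mp hj)
  linarith

lemma Net.mem {l : ℕ} {v : ℕ → ℝ} (hv : Net l v) {y : ℝ} {j : ℕ}
    (hj : j < 3 ^ l) (h1 : (j:ℝ) ≤ y) (h2 : y ≤ j + 1) :
    v j ≤ frv (3 ^ l) v y ∧ frv (3 ^ l) v y ≤ v (j + 1) := by
  have h3 := hv.step hj
  have h4 := clp_nonneg (3 * (y - j) - 1)
  have h5 := clp_le_one (3 * (y - j) - 1)
  rw [frv_eq v hj h1 h2]
  constructor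
  · nlinarith
  · nlinarith

lemma frv_frozen {K : ℕ} (v : ℕ → ℝ) {y : ℝ} {j : ℕ} (hj : j < K) (h1 : (j:ℝ) ≤ y)
    (h2 : y ≤ j + 1) (hb : ¬ ((j:ℝ) + 1 / 3 < y ∧ y < j + 2 / 3)) :
    (frv K v y = v j ∧ y ≤ j + 1 / 3) ∨ (frv K v y = v (j + 1) ∧ (j:ℝ) + 2 / 3 ≤ y) := by
  rw [frv_eq v hj h1 h2]
  by_cases h : (j:ℝ) + 1 / 3 < y
  · right
    have h' : (j:ℝ) + 2 / 3 ≤ y := by
      by_contra hc
      push Not at hc
      exact hb ⟨h, hc⟩
    rw [clp_of_ge (by linarith)]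
    exact ⟨by ring, h'⟩
  · left
    push Not at h
    rw [clp_of_le (by linarith)]
    exact ⟨by ring, h⟩

/-- the freezing map of a net -/
noncomputable def rv (l : ℕ) (v : ℕ → ℝ) (x : ℝ) : ℝ := frv (3 ^ l) v (3 ^ l * x) / 3 ^ l

lemma continuous_rv (l : ℕ) (v : ℕ → ℝ) : Continuous (rv l v) := by
  unfold rv
  exact ((continuous_frv _ _).comp (by fun_prop)).div_const _

/-- the set of frozen values -/
noncomputable def Fv (l : ℕ) (v : ℕ → ℝ) : Finset ℝ :=
  (Finset.range (3 ^ l + 1)).image fun j => v j / 3 ^ l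

lemma mem_Fv {l : ℕ} {v : ℕ → ℝ} {j : ℕ} (hj : j ≤ 3 ^ l) : v j / 3 ^ l ∈ Fv l v :=
  Finset.mem_image.mpr ⟨j, Finset.mem_range.mpr (by omega), rfl⟩

lemma Net.rv_mono {l : ℕ} {v : ℕ → ℝ} (hv : Net l v) {x y : ℝ} (hxy : x ≤ y) :
    rv l v x ≤ rv l v y := by
  have hp := pow3_pos l
  unfold rv
  apply div_le_div_of_nonneg_right _ hp.le
  exact hv.mono (mul_le_mul_of_nonneg_left hxy hp.le)

/-- all properties of the freezing map of a net -/
theorem Net.spec {l : ℕ} {v : ℕ → ℝ} (hv : Net l v) {x : ℝ} (hx : x ∈ Icc (0:ℝ) 1) :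
    rv l v x ∈ Icc (0:ℝ) 1 ∧ |rv l v x - x| ≤ (1 / 3) ^ l ∧
      (∀ l' < l, Bad l' (rv l v x) → Bad l' x) ∧
      (¬ Bad l x → rv l v x ∈ Fv l v ∧ Nev l (rv l v x)) := by
  have hp := pow3_pos l
  have hy0 : 0 ≤ 3 ^ l * x := mul_nonneg hp.le hx.1
  have hy1 : 3 ^ l * x ≤ ((3 ^ l : ℕ) : ℝ) := by push_cast; nlinarith [hx.2]
  obtain ⟨j, hj, h1, h2⟩ := exists_wall (K := 3 ^ l) (by positivity) hy0 hy1
  have hj1 : j + 1 ≤ 3 ^ l := hj
  have hmem := hv.mem hj h1 h2
  have hrr : 3 ^ l * rv l v x = frv (3 ^ l) v (3 ^ l * x) := by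
    unfold rv
    rw [mul_div_cancel₀ _ hp.ne']
  have h01 : rv l v x ∈ Icc (0:ℝ) 1 := by
    unfold rv
    constructor
    · have : 0 ≤ frv (3 ^ l) v (3 ^ l * x) := (hv j hj.le).nonneg.trans hmem.1
      positivity
    · rw [div_le_one hp]
      exact hmem.2.trans (hv (j + 1) hj1).le
  have hbj := hv.bounds hj.le
  have hbj1 := hv.bounds hj1
  push_cast at hbj1
  have hdiff : |frv (3 ^ l) v (3 ^ l * x) - 3 ^ l * x| ≤ 1 := by
    by_cases hb : (j:ℝ) + 1 / 3 < 3 ^ l * x ∧ 3 ^ l * x < j + 2 / 3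
    · rw [abs_le]
      constructor <;> linarith [hmem.1, hmem.2, hb.1, hb.2, hbj.1, hbj1.2]
    · rcases frv_frozen v hj h1 h2 hb with ⟨he, hy⟩ | ⟨he, hy⟩
      · rw [he, abs_le]
        constructor <;> linarith [hbj.1, hbj.2]
      · rw [he, abs_le]
        constructor <;> linarith [hbj1.1, hbj1.2]
  refine ⟨h01, ?_, ?_, ?_⟩
  · have e1 : (3:ℝ) ^ l * (1 / 3) ^ l = 1 := by rw [← mul_pow]; norm_num
    have e2 : 3 ^ l * |rv l v x - x| = |frv (3 ^ l) v (3 ^ l * x) - 3 ^ l * x| := by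
      rw [← hrr, ← mul_sub, abs_mul, abs_of_pos hp]
    have e3 : 3 ^ l * |rv l v x - x| ≤ 3 ^ l * (1 / 3) ^ l := by rw [e2, e1]; exact hdiff
    exact le_of_mul_le_mul_left e3 hp
  · intro l' hl' hb
    rw [bad_units hl' h01.1] at hb
    rw [bad_units hl' hx.1]
    obtain ⟨n, hA, hB⟩ := hb
    rw [hrr] at hA hB
    refine ⟨n, ?_⟩
    have hcast : ∀ {a b : ℕ}, a < b → (a:ℝ) + 1 ≤ b := by
      intro a b hab; exact_mod_cast hab
    have h7 : (3 * n + 1) * 3 ^ (l - l' - 1) < (3 * n + 2) * 3 ^ (l - l' - 1) :=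
      Nat.mul_lt_mul_of_pos_right (by omega) (by positivity)
    have h8 := hcast h7
    by_cases hb : (j:ℝ) + 1 / 3 < 3 ^ l * x ∧ 3 ^ l * x < j + 2 / 3
    · constructor
      · by_contra hc
        push Not at hc
        have h3 : j < (3 * n + 1) * 3 ^ (l - l' - 1) := by
          have : (j:ℝ) < (((3 * n + 1) * 3 ^ (l - l' - 1) : ℕ) : ℝ) := by linarith [hb.1]
          exact_mod_cast this
        have h4 := hcast h3
        have h5 : (((3 * n + 1) * 3 ^ (l - l' - 1) : ℕ) : ℝ) < v (j + 1) :=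
          lt_of_lt_of_le hA hmem.2
        have h6 : v (j + 1) < (((3 * n + 2) * 3 ^ (l - l' - 1) : ℕ) : ℝ) := by
          linarith [hbj1.2]
        have h9 := ((hv (j + 1) hj1).good n _ h5 h6).1
        omega
      · by_contra hc
        push Not at hc
        have h3 : (3 * n + 2) * 3 ^ (l - l' - 1) < j + 1 := by
          have : (((3 * n + 2) * 3 ^ (l - l' - 1) : ℕ) : ℝ) < ((j + 1 : ℕ) : ℝ) := by
            push_cast at hc ⊢
            linarith [hb.2]
          exact_mod_cast this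
        have h4 := hcast h3
        push_cast at h4
        have h5 : v j < (((3 * n + 2) * 3 ^ (l - l' - 1) : ℕ) : ℝ) := lt_of_le_of_lt hmem.1 hB
        have h6 : (((3 * n + 1) * 3 ^ (l - l' - 1) : ℕ) : ℝ) < v j := by
          push_cast at h8 ⊢
          linarith [hbj.1]
        have h9 := ((hv j hj.le).good n _ h6 h5).2
        omega
    · rcases frv_frozen v hj h1 h2 hb with ⟨he, hy⟩ | ⟨he, hy⟩
      · rw [he] at hA hB
        obtain ⟨h3, h4⟩ := (hv j hj.le).good n _ hA hB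
        have h5 := hcast h3
        have h6 := hcast h4
        constructor <;> linarith
      · rw [he] at hA hB
        obtain ⟨h3, h4⟩ := (hv (j + 1) hj1).good n _ hA hB
        have h5 := hcast h3
        have h6 := hcast h4
        push_cast at h5 h6 ⊢
        constructor <;> linarith
  · intro hnb
    have hb : ¬ ((j:ℝ) + 1 / 3 < 3 ^ l * x ∧ 3 ^ l * x < j + 2 / 3) := by
      intro hb
      apply hnb
      rw [bad_iff_exists]
      exact ⟨j, by exact_mod_cast hb.1, by exact_mod_cast hb.2⟩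
    rcases frv_frozen v hj h1 h2 hb with ⟨he, hy⟩ | ⟨he, hy⟩
    · have : rv l v x = v j / 3 ^ l := by unfold rv; rw [he]
      rw [this]
      exact ⟨mem_Fv hj.le, (hv j hj.le).nev⟩
    · have : rv l v x = v (j + 1) / 3 ^ l := by unfold rv; rw [he]
      rw [this]
      exact ⟨mem_Fv hj1, (hv (j + 1) hj1).nev⟩

/-- the freezing map in all coordinates -/
noncomputable def RV {N : ℕ} (l : ℕ) (v : ℕ → ℝ) (x : Fin N → ℝ) : Fin N → ℝ :=
  fun i => rv l v (x i)

lemma continuous_RV {N : ℕ} (l : ℕ) (v : ℕ → ℝ) : Continuous (RV (N := N) l v) :=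
  continuous_pi fun i => (continuous_rv l v).comp (continuous_apply i)

lemma Net.dist {N l : ℕ} {v : ℕ → ℝ} (hv : Net l v) {x : Fin N → ℝ}
    (hx : ∀ i, x i ∈ Icc (0:ℝ) 1) : dist (RV l v x) x ≤ (1 / 3) ^ l := by
  rw [dist_pi_le_iff (by positivity)]
  intro i
  rw [Real.dist_eq]
  exact (hv.spec (hx i)).2.1

lemma Net.frozen {k N l : ℕ} {v : ℕ → ℝ} (hv : Net l v) {x : Fin N → ℝ} (hx : x ∈ mu k N) :
    ∃ S : Finset (Fin N), S.card ≤ k ∧ ∀ i, i ∉ S → RV l v x i ∈ Fv l v := by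
  classical
  refine ⟨Finset.univ.filter fun i => Bad l (x i), ?_, ?_⟩
  · have := hx.2 l
    unfold nb at this
    convert this
  · intro i hi
    simp only [Finset.mem_filter, Finset.mem_univ, true_and] at hi
    exact ((hv.spec (hx.1 i)).2.2.2 hi).1

lemma Net.mem_mu {k N l : ℕ} {v : ℕ → ℝ} (hv : Net l v) {x : Fin N → ℝ} (hx : x ∈ mu k N) :
    RV l v x ∈ mu k N := by
  classical
  refine ⟨fun i => (hv.spec (hx.1 i)).1, ?_⟩
  intro l'
  rcases Nat.lt_or_ge l' l with hl | hl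
  · exact (nb_mono fun i hb => (hv.spec (hx.1 i)).2.2.1 l' hl hb).trans (hx.2 l')
  · refine le_trans ?_ (hx.2 l)
    unfold nb
    apply Finset.card_le_card
    intro i hi
    simp only [Finset.mem_filter, Finset.mem_univ, true_and] at hi ⊢
    by_contra hc
    exact ((hv.spec (hx.1 i)).2.2.2 hc).2 l' hl hi

/-- disjointness of the images for disjoint sets of frozen values -/
theorem Net.ne {k N l l' : ℕ} {v v' : ℕ → ℝ} (hN : 2 * k + 1 ≤ N) (hv : Net l v)
    (hv' : Net l' v') (hd : Disjoint (Fv l v) (Fv l' v')) {x y : Fin N → ℝ} (hx : x ∈ mu k N)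
    (hy : y ∈ mu k N) : RV l v x ≠ RV l' v' y := by
  classical
  obtain ⟨S, hS, hS'⟩ := hv.frozen hx
  obtain ⟨T, hT, hT'⟩ := hv'.frozen hy
  intro he
  have hcard : (S ∪ T).card < Fintype.card (Fin N) := by
    rw [Fintype.card_fin]
    have := Finset.card_union_le S T
    omega
  obtain ⟨i, hi⟩ : ∃ i, i ∉ S ∪ T := by
    by_contra hcon
    push Not at hcon
    have : S ∪ T = Finset.univ := by
      ext i; simp [hcon i]
    rw [this, Finset.card_univ] at hcard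
    exact lt_irrefl _ hcard
  rw [Finset.mem_union, not_or] at hi
  have h1 := hS' i hi.1
  have h2 := hT' i hi.2
  rw [← he] at h2
  exact Finset.disjoint_left.mp hd h1 h2

end MG
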