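import Pool.Agent.Work.MP_017613_gt.DigN

/-!
# Nets on prescribed sides of two-sided points
-/

open Set Topology Metric
open Pool.Agent.Work.MP_017613_gt

namespace MG

/-- two-sided points of the Cantor sets of the triadic intervals -/
structure Two (t : ℝ) : Prop where
  pos : 0 < t
  lt_one : t < 1
  nev : ∃ l, Nev l t
  irr : ∀ (l : ℕ) (n : ℤ), (3:ℝ) ^ l * t ≠ n

lemma exists_gap (A : Finset ℝ) (s : ℝ) : ∃ δ > 0, ∀ a ∈ A, a ≠ s → δ ≤ |a - s| := by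
  classical
  induction A using Finset.induction_on with
  | empty => exact ⟨1, one_pos, by simp⟩
  | insert a A _ ih =>
    obtain ⟨δ, hδ, h⟩ := ih
    by_cases ha : a = s
    · refine ⟨δ, hδ, ?_⟩
      intro b hb hbs
      rcases Finset.mem_insert.mp hb with rfl | hb
      · exact absurd ha hbs
      · exact h b hb hbs
    · have hpos : 0 < |a - s| := abs_pos.mpr (sub_ne_zero.mpr ha)
      refine ⟨min δ |a - s|, by positivity, ?_⟩
      intro b hb hbs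
      rcases Finset.mem_insert.mp hb with rfl | hb
      · exact min_le_right _ _
      · exact (min_le_left _ _).trans (h b hb hbs)

/-- the frozen values of the standard nets are allowed -/
lemma al_cw {l m j : ℕ} (h : l + 2 ≤ m) (hj : j ≤ 3 ^ l) : Al l j (cw (3 ^ l / 3 ^ m) j) := by
  obtain ⟨ht, ht9⟩ := tau_bounds h
  have hr := cw_range h hj
  refine ⟨?_, hr.1, hr.2, fun n d h1 h2 => cw_mem ht ht9 h1 h2, fun l' hl' => cw_not_bad h j hl'⟩
  rw [cw_near ht.le]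
  linarith

section
variable {t : ℝ}

/-- neighbouring triadic numbers of a never bad number are never bad -/
lemma nev_end {l₀ p : ℕ} (h : Nev l₀ t) (hirr : ∀ (l : ℕ) (n : ℤ), (3:ℝ) ^ l * t ≠ n) {m : ℤ}
    (hm : m = ⌊3 ^ p * t⌋ ∨ m = ⌊3 ^ p * t⌋ + 1) : Nev l₀ ((m : ℝ) / 3 ^ p) := by
  intro l' hl' hb
  rcases Nat.lt_or_ge l' p with hlp | hlp
  · obtain ⟨d, rfl⟩ := Nat.exists_eq_add_of_lt hlp
    obtain ⟨n, h1, h2⟩ := bad_iff_exists.mp hb
    have hd : (0:ℝ) < 3 ^ d := by positivity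
    have e : (3:ℝ) ^ l' * ((m:ℝ) / 3 ^ (l' + d + 1)) = m / (3 * 3 ^ d) := by
      have : (3:ℝ) ^ (l' + d + 1) = 3 ^ l' * (3 * 3 ^ d) := by ring
      rw [this]
      field_simp
    rw [e] at h1 h2
    rw [lt_div_iff₀ (by positivity)] at h1
    rw [div_lt_iff₀ (by positivity)] at h2
    have h1' : (((3 * n + 1) * 3 ^ d : ℤ) : ℝ) < m := by push_cast; nlinarith
    have h2' : (m:ℝ) < (((3 * n + 2) * 3 ^ d : ℤ) : ℝ) := by push_cast; nlinarith
    have h1z : (3 * n + 1) * 3 ^ d < m := by exact_mod_cast h1'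
    have h2z : m < (3 * n + 2) * 3 ^ d := by exact_mod_cast h2'
    have f1 := Int.floor_le (3 ^ (l' + d + 1) * t)
    have f2 := Int.lt_floor_add_one (3 ^ (l' + d + 1) * t)
    have f3 : (⌊3 ^ (l' + d + 1) * t⌋ : ℝ) ≠ 3 ^ (l' + d + 1) * t :=
      fun h => hirr _ _ h.symm
    have f4 : (⌊3 ^ (l' + d + 1) * t⌋ : ℝ) < 3 ^ (l' + d + 1) * t := lt_of_le_of_ne f1 f3
    have g1 : (3 * n + 1) * 3 ^ d ≤ ⌊3 ^ (l' + d + 1) * t⌋ := by
      rcases hm with hm | hm <;> omega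
    have g2 : ⌊3 ^ (l' + d + 1) * t⌋ + 1 ≤ (3 * n + 2) * 3 ^ d := by
      rcases hm with hm | hm <;> omega
    have g1r : (((3 * n + 1) * 3 ^ d : ℤ) : ℝ) ≤ (⌊3 ^ (l' + d + 1) * t⌋ : ℝ) := by
      exact_mod_cast g1
    have g2r : (⌊3 ^ (l' + d + 1) * t⌋ : ℝ) + 1 ≤ (((3 * n + 2) * 3 ^ d : ℤ) : ℝ) := by
      exact_mod_cast g2
    push_cast at g1r g2r
    have e2 : (3:ℝ) ^ (l' + d + 1) * t = 3 * 3 ^ d * (3 ^ l' * t) := by ring
    rw [e2] at f2 f4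
    apply h l' hl'
    rw [bad_iff_exists]
    refine ⟨n, ?_, ?_⟩
    · have : 3 * 3 ^ d * ((n:ℝ) + 1 / 3) < 3 * 3 ^ d * (3 ^ l' * t) := by
        rw [e2] at g1r
        linarith
      exact lt_of_mul_lt_mul_left this (by positivity)
    · have : 3 * 3 ^ d * (3 ^ l' * t) < 3 * 3 ^ d * ((n:ℝ) + 2 / 3) := by
        rw [e2] at g2r
        linarith
      exact lt_of_mul_lt_mul_left this (by positivity)
  · exact (nev_wall p m).mono hlp l' le_rfl hb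

/-- A two-sided point is not near a wall whose middle third contains it. -/
lemma Two.exists_level (ht : Two t) : ∃ L : ℕ, ∀ l, L ≤ l → Nev l t ∧
    ∀ j : ℕ, j ≤ 3 ^ l → |3 ^ l * t - j| < 1 / 3 → ∀ n d : ℕ,
      (((3 * n + 1) * 3 ^ d : ℕ) : ℝ) < 3 ^ l * t → 3 ^ l * t < (((3 * n + 2) * 3 ^ d : ℕ) : ℝ) →
      (3 * n + 1) * 3 ^ d ≠ j ∧ (3 * n + 2) * 3 ^ d ≠ j := by
  obtain ⟨l₀, h0⟩ := ht.nev
  -- distance to the walls of level `l₀`
  obtain ⟨η, hη, hηq⟩ : ∃ η > 0, ∀ q : ℤ, η ≤ |3 ^ l₀ * t - q| := by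
    have f1 := Int.floor_le (3 ^ l₀ * t)
    have f2 := Int.lt_floor_add_one (3 ^ l₀ * t)
    have f3 : (⌊3 ^ l₀ * t⌋ : ℝ) < 3 ^ l₀ * t :=
      lt_of_le_of_ne f1 fun h => ht.irr _ _ h.symm
    refine ⟨min (3 ^ l₀ * t - ⌊3 ^ l₀ * t⌋) (⌊3 ^ l₀ * t⌋ + 1 - 3 ^ l₀ * t),
      lt_min (by linarith) (by linarith), fun q => ?_⟩
    rcases le_or_gt q ⌊3 ^ l₀ * t⌋ with h | h
    · have h' : (q:ℝ) ≤ ⌊3 ^ l₀ * t⌋ := by exact_mod_cast h
      rw [abs_of_nonneg (by linarith)]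
      exact (min_le_left _ _).trans (by linarith)
    · have h' : (⌊3 ^ l₀ * t⌋ : ℝ) + 1 ≤ q := by exact_mod_cast h
      rw [abs_of_nonpos (by linarith)]
      exact (min_le_right _ _).trans (by linarith)
  obtain ⟨e, he⟩ := exists_pow_lt_of_lt_one hη (show (1 / 3 : ℝ) < 1 by norm_num)
  refine ⟨l₀ + e, fun l hl => ⟨h0.mono (by omega), fun j hj hjt n d h1 h2 => ?_⟩⟩
  have hp := pow3_pos l
  -- the dangerous case
  have key : ∀ c : ℕ, c * 3 ^ d = j → c * 3 ^ d ≤ 3 ^ l → l ≤ l₀ + d → False := by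
    intro c hc _ hld
    obtain ⟨f, rfl⟩ : ∃ f, l = l₀ + f := ⟨l - l₀, by omega⟩
    obtain ⟨g, rfl⟩ : ∃ g, d = f + g := ⟨d - f, by omega⟩
    have h3 := hηq ((c * 3 ^ g : ℕ) : ℤ)
    have e1 : (3:ℝ) ^ (l₀ + f) * t - j = 3 ^ f * (3 ^ l₀ * t - ((c * 3 ^ g : ℕ) : ℤ)) := by
      rw [← hc]; push_cast; ring
    rw [e1, abs_mul, abs_of_pos (by positivity : (0:ℝ) < 3 ^ f)] at hjt
    have h4 : (1:ℝ) ≤ 3 ^ f * (1 / 3) ^ e / (1 / 3) ^ f * (1 / 3) ^ f := by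
      have : (3:ℝ) ^ f * (1 / 3) ^ e / (1 / 3) ^ f * (1 / 3) ^ f = 3 ^ f * (1 / 3) ^ e := by
        rw [div_mul_cancel₀ _ (by positivity)]
      rw [this]
      have hfe : e ≤ f := by omega
      obtain ⟨i, rfl⟩ := Nat.exists_eq_add_of_le hfe
      have : (3:ℝ) ^ (e + i) * (1 / 3) ^ e = 3 ^ i := by
        have e3 : (3:ℝ) ^ e * (1 / 3) ^ e = 1 := by rw [← mul_pow]; norm_num
        calc (3:ℝ) ^ (e + i) * (1 / 3) ^ e = (3 ^ e * (1 / 3) ^ e) * 3 ^ i := by ring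
          _ = 3 ^ i := by rw [e3, one_mul]
      rw [this]
      exact one_le_pow₀ (by norm_num)
    have h5 : (3:ℝ) ^ f * (1 / 3) ^ e / (1 / 3) ^ f * (1 / 3) ^ f = 3 ^ f * (1 / 3) ^ e := by
      rw [div_mul_cancel₀ _ (by positivity)]
    rw [h5] at h4
    have h6 : (3:ℝ) ^ f * (1 / 3) ^ e < 3 ^ f * η := mul_lt_mul_of_pos_left he (by positivity)
    have h7 : (3:ℝ) ^ f * η ≤ 3 ^ f * |3 ^ l₀ * t - ((c * 3 ^ g : ℕ) : ℤ)| :=
      mul_le_mul_of_nonneg_left h3 (by positivity)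
    linarith
  -- the level `l - d - 1`
  have hdl : d < l := by
    by_contra hc
    push Not at hc
    have h3 : 3 ^ l ≤ (3 * n + 1) * 3 ^ d := by
      calc 3 ^ l ≤ 3 ^ d := Nat.pow_le_pow_right (by norm_num) hc
        _ = 1 * 3 ^ d := (one_mul _).symm
        _ ≤ _ := Nat.mul_le_mul_right _ (by omega)
    have h4 : ((3 ^ l : ℕ) : ℝ) ≤ (((3 * n + 1) * 3 ^ d : ℕ) : ℝ) := by exact_mod_cast h3
    push_cast at h4 h1
    nlinarith [ht.lt_one]
  have hbad : Bad (l - d - 1) t := by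
    rw [bad_units (show l - d - 1 < l by omega) ht.pos.le]
    have e1 : l - (l - d - 1) - 1 = d := by omega
    rw [e1]
    exact ⟨n, h1, h2⟩
  have hlow : l ≤ l₀ + d := by
    by_contra hc
    push Not at hc
    exact h0 (l - d - 1) (by omega) hbad
  constructor
  · intro hc
    exact key _ hc (by omega) hlow
  · intro hc
    exact key _ hc (by omega) hlow

end

end MG
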