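import Pool.Agent.Work.MP_017613_gt.DigM
import Pool.Agent.Work.MP_017613_gt.MenDef

/-!
# Nice neighbourhoods in the digit model

`exists_nice`: for `K ⊆ mu` compact and `U ⊇ K` open there is a splitting of `mu` into two Menger
spaces `mu ∩ D` (a neighbourhood of `K` inside `U`) and `mu ∩ C` whose intersection is a Z-set in
both (boxes with phases, idea of helper76).
-/

open Set Topology Metric

namespace MG

open Pool.Agent.Work.MP_017613_gt (PushOff DD ZS ZD Men DD.zd)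

/-- `mu ∩ Y` is a Menger space if arbitrarily fine freezing maps preserve it -/
theorem men_mu_inter {k N : ℕ} (hN : 2 * k + 1 ≤ N) {T : Finset ℝ} (hT : ∀ t ∈ T, ∃ l, Nev l t)
    {Y : Set (Fin N → ℝ)} (hYc : IsClosed Y) (hY : TSet T Y)
    (h : ∀ L : ℕ, ∃ l, L ≤ l ∧ ∀ m, l + 2 ≤ m → ∀ x ∈ mu k N ∩ Y, RR l m x ∈ Y)
    [CompactSpace (mu k N ∩ Y : Set (Fin N → ℝ))] :
    Men k (mu k N ∩ Y : Set (Fin N → ℝ)) := by
  refine ⟨pushOff_subtype (pushOff_mu_inter hYc), ulc_iff.mpr (ulc_mu_inter hT hYc hY), ?_⟩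
  apply DD.zd
  intro ε hε
  obtain ⟨L, hL⟩ := exists_level hε
  obtain ⟨l, hl, hm⟩ := h L
  obtain ⟨φ, hφ⟩ := subtype_map (K := mu k N ∩ Y) (continuous_RR l (l + 2)).continuousOn
    fun x hx => ⟨RR_mem le_rfl hx.1, hm _ le_rfl x hx⟩
  obtain ⟨ψ, hψ⟩ := subtype_map (K := mu k N ∩ Y) (continuous_RR l (l + 3)).continuousOn
    fun x hx => ⟨RR_mem (by omega) hx.1, hm _ (by omega) x hx⟩
  refine ⟨φ, ψ, ?_, ?_, ?_⟩
  · intro x
    rw [Subtype.dist_eq, hφ]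
    exact (RR_dist le_rfl x.2.1.1).trans_lt (hL l hl)
  · intro x
    rw [Subtype.dist_eq, hψ]
    exact (RR_dist (by omega) x.2.1.1).trans_lt (hL l hl)
  · intro x y he
    have h3 := congrArg Subtype.val he
    rw [hφ, hψ] at h3
    exact RR_ne hN le_rfl (show l + 2 ≤ l + 3 by omega) (by omega) x.2.1 y.2.1 h3

/-- Z-sets in `mu ∩ Y` -/
theorem zs_mu_inter {k N : ℕ} {Y Z : Set (Fin N → ℝ)} (hZc : IsClosed Z)
    (h : ∀ L : ℕ, ∃ l, L ≤ l ∧ ∀ m, l + 2 ≤ m → ∀ x ∈ mu k N ∩ Y, RR l m x ∈ Y ∧ RR l m x ∉ Z)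
    [CompactSpace (mu k N ∩ Y : Set (Fin N → ℝ))] :
    ZS {x : (mu k N ∩ Y : Set (Fin N → ℝ)) | (x : Fin N → ℝ) ∈ Z} := by
  refine ⟨hZc.preimage continuous_subtype_val, fun ε hε => ?_⟩
  obtain ⟨L, hL⟩ := exists_level hε
  obtain ⟨l, hl, hm⟩ := h L
  obtain ⟨φ, hφ⟩ := subtype_map (K := mu k N ∩ Y) (continuous_RR l (l + 2)).continuousOn
    fun x hx => ⟨RR_mem le_rfl hx.1, (hm _ le_rfl x hx).1⟩
  refine ⟨φ, ?_, ?_⟩
  · intro x
    rw [Subtype.dist_eq, hφ]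
    exact (RR_dist le_rfl x.2.1.1).trans_lt (hL l hl)
  · intro x hx
    simp only [mem_ofPred_eq, hφ] at hx
    exact (hm _ le_rfl x x.2).2 hx

/-! ## Walls with phases -/

/-- lower walls -/
noncomputable def lo (L n : ℕ) : ℝ := if n = 0 then 0 else ((n:ℝ) - 1 / 4) / 3 ^ L

/-- upper walls -/
noncomputable def hi (L n : ℕ) : ℝ := if n + 1 < 3 ^ L then ((n:ℝ) + 5 / 4) / 3 ^ L else 1

lemma fract_add_quarter (L j : ℕ) (a : ℤ) {c : ℝ} (hc : 3 ^ L * c = a + 1 / 4) :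
    Int.fract (3 ^ (L + 2 * j) * c) = 1 / 4 ∧ Int.fract (3 ^ (L + (2 * j + 1)) * c) = 3 / 4 := by
  have e1 : (3:ℝ) ^ (L + 2 * j) * c = ((3 ^ (2 * j) * a : ℤ) : ℝ) + 3 ^ (2 * j) / 4 := by
    rw [pow_add, mul_comm (3 ^ L : ℝ), mul_assoc, hc]
    push_cast
    ring
  have e2 : (3:ℝ) ^ (L + (2 * j + 1)) * c =
      ((3 ^ (2 * j + 1) * a : ℤ) : ℝ) + 3 ^ (2 * j + 1) / 4 := by
    rw [pow_add, mul_comm (3 ^ L : ℝ), mul_assoc, hc]
    push_cast
    ring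
  rw [e1, e2, Int.fract_intCast_add, Int.fract_intCast_add]
  exact fract_even j

lemma fract_sub_quarter (L j : ℕ) (a : ℤ) {c : ℝ} (hc : 3 ^ L * c = a - 1 / 4) :
    Int.fract (3 ^ (L + 2 * j) * c) = 3 / 4 ∧ Int.fract (3 ^ (L + (2 * j + 1)) * c) = 1 / 4 := by
  have h := fract_add_quarter L j (-a) (c := -c) (by push_cast; linarith)
  constructor
  · have e : (3:ℝ) ^ (L + 2 * j) * c = -(3 ^ (L + 2 * j) * -c) := by ring
    rw [e, Int.fract_neg (by rw [h.1]; norm_num), h.1]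
    norm_num
  · have e : (3:ℝ) ^ (L + (2 * j + 1)) * c = -(3 ^ (L + (2 * j + 1)) * -c) := by ring
    rw [e, Int.fract_neg (by rw [h.2]; norm_num), h.2]
    norm_num

lemma nev_of_quarter {L : ℕ} {c : ℝ}
    (h : ∀ j, (Int.fract (3 ^ (L + j) * c) = 1 / 4 ∨ Int.fract (3 ^ (L + j) * c) = 3 / 4)) :
    Nev L c := by
  intro l hl hb
  obtain ⟨j, rfl⟩ := Nat.exists_eq_add_of_le hl
  unfold Bad at hb
  rcases h j with h | h <;> rw [h] at hb
  · linarith [hb.1]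
  · linarith [hb.2]

lemma lo_spec {L n : ℕ} (hn : n ≠ 0) : 3 ^ L * lo L n = ((n:ℤ):ℝ) - 1 / 4 := by
  have hp := pow3_pos L
  unfold lo
  rw [if_neg hn, mul_div_cancel₀ _ hp.ne']
  simp

lemma hi_spec {L n : ℕ} (hn : n + 1 < 3 ^ L) : 3 ^ L * hi L n = ((n + 1 : ℤ):ℝ) + 1 / 4 := by
  have hp := pow3_pos L
  unfold hi
  rw [if_pos hn, mul_div_cancel₀ _ hp.ne']
  push_cast
  ring

lemma lo_mem {L n : ℕ} (hn : n < 3 ^ L) : lo L n ∈ Icc (0:ℝ) 1 := by
  have hp := pow3_pos L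
  by_cases h : n = 0
  · simp [lo, h]
  · have h1 := lo_spec (L := L) h
    have h2 : (1:ℝ) ≤ n := by exact_mod_cast Nat.one_le_iff_ne_zero.mpr h
    have h3 : (n:ℝ) < ((3 ^ L : ℕ) : ℝ) := by exact_mod_cast hn
    push_cast at h1 h3
    constructor
    · by_contra hc
      push Not at hc
      nlinarith
    · by_contra hc
      push Not at hc
      nlinarith

lemma hi_mem {L n : ℕ} : hi L n ∈ Icc (0:ℝ) 1 := by
  have hp := pow3_pos L
  by_cases h : n + 1 < 3 ^ L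
  · have h1 := hi_spec h
    have h3 : (n:ℝ) + 1 + 1 ≤ ((3 ^ L : ℕ) : ℝ) := by exact_mod_cast h
    have h4 : (0:ℝ) ≤ n := Nat.cast_nonneg n
    push_cast at h1 h3
    constructor
    · by_contra hc
      push Not at hc
      nlinarith
    · by_contra hc
      push Not at hc
      nlinarith
  · simp [hi, h]

lemma nev_lo (L n : ℕ) : Nev L (lo L n) := by
  by_cases h : n = 0
  · simp only [lo, h, if_true]
    exact nev_zero L
  · apply nev_of_quarter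
    intro j
    rcases Nat.even_or_odd' j with ⟨i, rfl | rfl⟩
    · right; exact (fract_sub_quarter L i n (lo_spec h)).1
    · left; exact (fract_sub_quarter L i n (lo_spec h)).2

lemma nev_hi (L n : ℕ) : Nev L (hi L n) := by
  by_cases h : n + 1 < 3 ^ L
  · apply nev_of_quarter
    intro j
    rcases Nat.even_or_odd' j with ⟨i, rfl | rfl⟩
    · left; exact (fract_add_quarter L i (n + 1) (hi_spec h)).1
    · right; exact (fract_add_quarter L i (n + 1) (hi_spec h)).2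
  · simp only [hi, h, if_false]
    exact nev_one L

/-- at the even phases lower walls are moved up and upper walls down -/
lemma rr_lo_even {L n j m : ℕ} (hn : n < 3 ^ L) (hn0 : n ≠ 0) (hm : L + 2 * j + 2 ≤ m) :
    lo L n < rr (L + 2 * j) m (lo L n) := by
  apply lt_rr hm (lo_mem hn)
  rw [(fract_sub_quarter L j n (lo_spec hn0)).1]
  norm_num

lemma rr_hi_even {L n j m : ℕ} (hn : n + 1 < 3 ^ L) (hm : L + 2 * j + 2 ≤ m) :
    rr (L + 2 * j) m (hi L n) < hi L n := by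
  apply rr_lt hm hi_mem
  rw [(fract_add_quarter L j (n + 1) (hi_spec hn)).1]
  norm_num

/-- at the odd phases lower walls are moved down and upper walls up -/
lemma rr_lo_odd {L n j m : ℕ} (hn : n < 3 ^ L) (hn0 : n ≠ 0) (hm : L + (2 * j + 1) + 2 ≤ m) :
    rr (L + (2 * j + 1)) m (lo L n) < lo L n := by
  apply rr_lt hm (lo_mem hn)
  rw [(fract_sub_quarter L j n (lo_spec hn0)).2]
  norm_num

lemma rr_hi_odd {L n j m : ℕ} (hn : n + 1 < 3 ^ L) (hm : L + (2 * j + 1) + 2 ≤ m) :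
    hi L n < rr (L + (2 * j + 1)) m (hi L n) := by
  apply lt_rr hm hi_mem
  rw [(fract_add_quarter L j (n + 1) (hi_spec hn)).2]
  norm_num

/-! ## Unions of boxes -/

variable {N : ℕ}

/-- union of the closed boxes with indices in `J` -/
def YJ (L : ℕ) (J : Finset (Fin N → Fin (3 ^ L))) : Set (Fin N → ℝ) :=
  ⋃ v ∈ J, {x | ∀ i, x i ∈ Icc (lo L (v i)) (hi L (v i))}

/-- the closed complement of the union of the open boxes -/
def CJ (L : ℕ) (J : Finset (Fin N → Fin (3 ^ L))) : Set (Fin N → ℝ) :=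
  {x | (∀ i, x i ∈ Icc (0:ℝ) 1) ∧ ∀ v ∈ J, ∃ i, ((v i : ℕ) ≠ 0 ∧ x i ≤ lo L (v i)) ∨
    ((v i : ℕ) + 1 < 3 ^ L ∧ hi L (v i) ≤ x i)}

/-- all walls -/
noncomputable def TL (L : ℕ) : Finset ℝ :=
  {0, 1} ∪ ((Finset.range (3 ^ L)).image (lo L) ∪ (Finset.range (3 ^ L)).image (hi L))

lemma zero_mem_TL (L : ℕ) : (0:ℝ) ∈ TL L := Finset.mem_union_left _ (by simp)

lemma one_mem_TL (L : ℕ) : (1:ℝ) ∈ TL L := Finset.mem_union_left _ (by simp)

lemma lo_mem_TL {L : ℕ} (n : Fin (3 ^ L)) : lo L n ∈ TL L :=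
  Finset.mem_union_right _ (Finset.mem_union_left _
    (Finset.mem_image.mpr ⟨n, Finset.mem_range.mpr n.2, rfl⟩))

lemma hi_mem_TL {L : ℕ} (n : Fin (3 ^ L)) : hi L n ∈ TL L :=
  Finset.mem_union_right _ (Finset.mem_union_right _
    (Finset.mem_image.mpr ⟨n, Finset.mem_range.mpr n.2, rfl⟩))

lemma nev_TL (L : ℕ) : ∀ t ∈ TL L, ∃ l, Nev l t := by
  intro t ht
  rcases Finset.mem_union.mp ht with ht | ht
  · simp only [Finset.mem_insert, Finset.mem_singleton] at ht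
    rcases ht with rfl | rfl
    · exact ⟨L, nev_zero L⟩
    · exact ⟨L, nev_one L⟩
  · rcases Finset.mem_union.mp ht with ht | ht
    · obtain ⟨n, _, rfl⟩ := Finset.mem_image.mp ht
      exact ⟨L, nev_lo L n⟩
    · obtain ⟨n, _, rfl⟩ := Finset.mem_image.mp ht
      exact ⟨L, nev_hi L n⟩

lemma isClosed_YJ (L : ℕ) (J : Finset (Fin N → Fin (3 ^ L))) : IsClosed (YJ L J) := by
  refine Set.Finite.isClosed_biUnion (Finset.finite_toSet J) fun v _ => ?_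
  simp only [ofPred_forall]
  exact isClosed_iInter fun i => isClosed_Icc.preimage (continuous_apply i)

lemma isClosed_CJ (L : ℕ) (J : Finset (Fin N → Fin (3 ^ L))) : IsClosed (CJ L J) := by
  have e : CJ L J = {x | ∀ i, x i ∈ Icc (0:ℝ) 1} ∩ ⋂ v ∈ J, ⋃ i,
      ({x : Fin N → ℝ | (v i : ℕ) ≠ 0 ∧ x i ≤ lo L (v i)} ∪
        {x | (v i : ℕ) + 1 < 3 ^ L ∧ hi L (v i) ≤ x i}) := by
    ext x
    simp [CJ]
  rw [e]
  refine (isClosed_cube N).inter (isClosed_iInter fun v => isClosed_iInter fun _ =>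
    isClosed_iUnion_of_finite fun i => IsClosed.union ?_ ?_)
  · by_cases h : (v i : ℕ) ≠ 0
    · have : {x : Fin N → ℝ | (v i : ℕ) ≠ 0 ∧ x i ≤ lo L (v i)} = {x | x i ≤ lo L (v i)} := by
        ext x; simp [h]
      rw [this]
      exact isClosed_le (continuous_apply i) continuous_const
    · have : {x : Fin N → ℝ | (v i : ℕ) ≠ 0 ∧ x i ≤ lo L (v i)} = ∅ := by
        ext x; simp [h]
      rw [this]
      exact isClosed_empty
  · by_cases h : (v i : ℕ) + 1 < 3 ^ L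
    · have : {x : Fin N → ℝ | (v i : ℕ) + 1 < 3 ^ L ∧ hi L (v i) ≤ x i} =
          {x | hi L (v i) ≤ x i} := by
        ext x; simp [h]
      rw [this]
      exact isClosed_le continuous_const (continuous_apply i)
    · have : {x : Fin N → ℝ | (v i : ℕ) + 1 < 3 ^ L ∧ hi L (v i) ≤ x i} = ∅ := by
        ext x; simp [h]
      rw [this]
      exact isClosed_empty

lemma tset_YJ (L : ℕ) (J : Finset (Fin N → Fin (3 ^ L))) : TSet (TL L) (YJ L J) := by
  intro x hx z hz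
  simp only [YJ, mem_iUnion, mem_ofPred_eq] at hx ⊢
  obtain ⟨v, hv, h⟩ := hx
  exact ⟨v, hv, fun i => ⟨(hz i _ (lo_mem_TL (v i))).2 (h i).1,
    (hz i _ (hi_mem_TL (v i))).1 (h i).2⟩⟩

lemma tset_CJ (L : ℕ) (J : Finset (Fin N → Fin (3 ^ L))) : TSet (TL L) (CJ L J) := by
  rintro x ⟨h01, hx⟩ z hz
  refine ⟨fun i => ⟨(hz i _ (zero_mem_TL L)).2 (h01 i).1, (hz i _ (one_mem_TL L)).1 (h01 i).2⟩,
    fun v hv => ?_⟩
  obtain ⟨i, h⟩ := hx v hv
  refine ⟨i, h.imp (fun h => ⟨h.1, ?_⟩) fun h => ⟨h.1, ?_⟩⟩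
  · exact (hz i _ (lo_mem_TL (v i))).1 h.2
  · exact (hz i _ (hi_mem_TL (v i))).2 h.2

/-- the even phases map the boxes strictly inside -/
lemma RR_YJ {k L j m : ℕ} (hm : L + 2 * j + 2 ≤ m) {J : Finset (Fin N → Fin (3 ^ L))}
    {x : Fin N → ℝ} (hx : x ∈ mu k N ∩ YJ L J) :
    RR (L + 2 * j) m x ∈ YJ L J ∧ RR (L + 2 * j) m x ∉ CJ L J := by
  obtain ⟨hxm, hxY⟩ := hx
  simp only [YJ, mem_iUnion, mem_ofPred_eq] at hxY
  obtain ⟨v, hv, h⟩ := hxY
  have h1 : ∀ i, (v i : ℕ) ≠ 0 → lo L (v i) < RR (L + 2 * j) m x i := fun i h0 =>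
    (rr_lo_even (v i).2 h0 hm).trans_le (rr_mono hm (h i).1)
  have h2 : ∀ i, (v i : ℕ) + 1 < 3 ^ L → RR (L + 2 * j) m x i < hi L (v i) := fun i h0 =>
    (rr_mono hm (h i).2).trans_lt (rr_hi_even h0 hm)
  have h01 : ∀ i, RR (L + 2 * j) m x i ∈ Icc (0:ℝ) 1 := fun i => (rr_spec hm (hxm.1 i)).1
  constructor
  · simp only [YJ, mem_iUnion, mem_ofPred_eq]
    refine ⟨v, hv, fun i => ⟨?_, ?_⟩⟩
    · by_cases h0 : (v i : ℕ) = 0
      · have : lo L (v i) = 0 := by simp [lo, h0]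
        rw [this]
        exact (h01 i).1
      · exact (h1 i h0).le
    · by_cases h0 : (v i : ℕ) + 1 < 3 ^ L
      · exact (h2 i h0).le
      · have : hi L (v i) = 1 := by simp [hi, h0]
        rw [this]
        exact (h01 i).2
  · rintro ⟨_, hC⟩
    obtain ⟨i, ⟨h0, h3⟩ | ⟨h0, h3⟩⟩ := hC v hv
    · exact absurd h3 (not_le.mpr (h1 i h0))
    · exact absurd h3 (not_le.mpr (h2 i h0))

/-- the odd phases map the complement strictly outside -/
lemma RR_CJ {k L j m : ℕ} (hm : L + (2 * j + 1) + 2 ≤ m) {J : Finset (Fin N → Fin (3 ^ L))}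
    {x : Fin N → ℝ} (hx : x ∈ mu k N ∩ CJ L J) :
    RR (L + (2 * j + 1)) m x ∈ CJ L J ∧ RR (L + (2 * j + 1)) m x ∉ YJ L J := by
  obtain ⟨hxm, -, hxC⟩ := hx
  have h01 : ∀ i, RR (L + (2 * j + 1)) m x i ∈ Icc (0:ℝ) 1 := fun i =>
    (rr_spec hm (hxm.1 i)).1
  have key : ∀ v ∈ J, ∃ i, ((v i : ℕ) ≠ 0 ∧ RR (L + (2 * j + 1)) m x i < lo L (v i)) ∨
      ((v i : ℕ) + 1 < 3 ^ L ∧ hi L (v i) < RR (L + (2 * j + 1)) m x i) := by
    intro v hv
    obtain ⟨i, ⟨h0, h3⟩ | ⟨h0, h3⟩⟩ := hxC v hv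
    · exact ⟨i, Or.inl ⟨h0, (rr_mono hm h3).trans_lt (rr_lo_odd (v i).2 h0 hm)⟩⟩
    · exact ⟨i, Or.inr ⟨h0, (rr_hi_odd h0 hm).trans_le (rr_mono hm h3)⟩⟩
  constructor
  · refine ⟨h01, fun v hv => ?_⟩
    obtain ⟨i, h⟩ := key v hv
    exact ⟨i, h.imp (fun h => ⟨h.1, h.2.le⟩) fun h => ⟨h.1, h.2.le⟩⟩
  · intro hY
    simp only [YJ, mem_iUnion, mem_ofPred_eq] at hY
    obtain ⟨v, hv, h⟩ := hY
    obtain ⟨i, ⟨_, h3⟩ | ⟨_, h3⟩⟩ := key v hv
    · exact absurd (h i).1 (not_le.mpr h3)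
    · exact absurd (h i).2 (not_le.mpr h3)

/-- a set as a Menger space -/
def MenSet (k : ℕ) {E : Type} [MetricSpace E] (X : Set E) : Prop :=
  ∃ _ : CompactSpace X, Men k X

/-- the two pieces -/
theorem nice_pieces {k : ℕ} (hN : 2 * k + 1 ≤ N) (L : ℕ) (J : Finset (Fin N → Fin (3 ^ L))) :
    MenSet k (mu k N ∩ YJ L J) ∧ MenSet k (mu k N ∩ CJ L J) ∧
    ZS {x : (mu k N ∩ YJ L J : Set (Fin N → ℝ)) | (x : Fin N → ℝ) ∈ CJ L J} ∧
    ZS {x : (mu k N ∩ CJ L J : Set (Fin N → ℝ)) | (x : Fin N → ℝ) ∈ YJ L J} := by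
  have c1 : CompactSpace (mu k N ∩ YJ L J : Set (Fin N → ℝ)) :=
    isCompact_iff_compactSpace.mp ((isCompact_mu k N).inter_right (isClosed_YJ L J))
  have c2 : CompactSpace (mu k N ∩ CJ L J : Set (Fin N → ℝ)) :=
    isCompact_iff_compactSpace.mp ((isCompact_mu k N).inter_right (isClosed_CJ L J))
  have h1 : ∀ M : ℕ, ∃ l, M ≤ l ∧ ∀ m, l + 2 ≤ m → ∀ x ∈ mu k N ∩ YJ L J,
      RR l m x ∈ YJ L J ∧ RR l m x ∉ CJ L J := fun M =>
    ⟨L + 2 * M, by omega, fun m hm x hx => RR_YJ hm hx⟩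
  have h2 : ∀ M : ℕ, ∃ l, M ≤ l ∧ ∀ m, l + 2 ≤ m → ∀ x ∈ mu k N ∩ CJ L J,
      RR l m x ∈ CJ L J ∧ RR l m x ∉ YJ L J := fun M =>
    ⟨L + (2 * M + 1), by omega, fun m hm x hx => RR_CJ hm hx⟩
  refine ⟨⟨c1, ?_⟩, ⟨c2, ?_⟩, ?_, ?_⟩
  · exact men_mu_inter hN (nev_TL L) (isClosed_YJ L J) (tset_YJ L J) fun M => by
      obtain ⟨l, hl, h⟩ := h1 M
      exact ⟨l, hl, fun m hm x hx => (h m hm x hx).1⟩
  · exact men_mu_inter hN (nev_TL L) (isClosed_CJ L J) (tset_CJ L J) fun M => by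
      obtain ⟨l, hl, h⟩ := h2 M
      exact ⟨l, hl, fun m hm x hx => (h m hm x hx).1⟩
  · exact zs_mu_inter (isClosed_CJ L J) h1
  · exact zs_mu_inter (isClosed_YJ L J) h2

lemma mu_subset_union (k L : ℕ) (J : Finset (Fin N → Fin (3 ^ L))) :
    mu k N ⊆ YJ L J ∪ CJ L J := by
  intro x hx
  by_cases h : x ∈ CJ L J
  · exact Or.inr h
  · left
    have h' : ¬ ∀ v ∈ J, ∃ i, ((v i : ℕ) ≠ 0 ∧ x i ≤ lo L (v i)) ∨
        ((v i : ℕ) + 1 < 3 ^ L ∧ hi L (v i) ≤ x i) := fun h2 => h ⟨hx.1, h2⟩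
    push Not at h'
    obtain ⟨v, hv, h⟩ := h'
    simp only [YJ, mem_iUnion, mem_ofPred_eq]
    refine ⟨v, hv, fun i => ⟨?_, ?_⟩⟩
    · by_cases h0 : (v i : ℕ) = 0
      · have : lo L (v i) = 0 := by simp [lo, h0]
        rw [this]
        exact (hx.1 i).1
      · exact ((h i).1 h0).le
    · by_cases h0 : (v i : ℕ) + 1 < 3 ^ L
      · exact ((h i).2 h0).le
      · have : hi L (v i) = 1 := by simp [hi, h0]
        rw [this]
        exact (hx.1 i).2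

lemma closure_eq (k L : ℕ) (J : Finset (Fin N → Fin (3 ^ L))) :
    mu k N ∩ CJ L J = closure (mu k N \ YJ L J) := by
  apply Subset.antisymm
  · intro x hx
    rw [Metric.mem_closure_iff]
    intro ε hε
    obtain ⟨M, hM⟩ := exists_level hε
    have h := RR_CJ (j := M) (m := L + (2 * M + 1) + 2) le_rfl hx
    refine ⟨_, ⟨RR_mem le_rfl hx.1, h.2⟩, ?_⟩
    rw [dist_comm]
    exact (RR_dist le_rfl hx.1.1).trans_lt (hM _ (by omega))
  · apply closure_minimal _ ((isClosed_mu k N).inter (isClosed_CJ L J))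
    rintro x ⟨hx, hxY⟩
    exact ⟨hx, (mu_subset_union k L J hx).resolve_left hxY⟩

/-- NICE NEIGHBOURHOODS in the digit model -/
theorem exists_nice {k : ℕ} (hN : 2 * k + 1 ≤ N) {K U : Set (Fin N → ℝ)} (hK : IsCompact K)
    (hKm : K ⊆ mu k N) (hU : IsOpen U) (hKU : K ⊆ U) :
    ∃ D C : Set (Fin N → ℝ), IsClosed D ∧ IsClosed C ∧ mu k N ⊆ D ∪ C ∧ mu k N ∩ D ⊆ U ∧
      Disjoint K C ∧ mu k N ∩ C = closure (mu k N \ D) ∧ MenSet k (mu k N ∩ D) ∧
      MenSet k (mu k N ∩ C) ∧ ZS {x : (mu k N ∩ D : Set (Fin N → ℝ)) | (x : Fin N → ℝ) ∈ C} ∧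
      ZS {x : (mu k N ∩ C : Set (Fin N → ℝ)) | (x : Fin N → ℝ) ∈ D} := by
  classical
  -- a fine level
  obtain ⟨δ, hδ, hδU⟩ : ∃ δ > 0, ∀ x ∈ K, ∀ y, dist y x < δ → y ∈ U := by
    obtain ⟨δ, hδ, h⟩ := hK.exists_thickening_subset_open hU hKU
    exact ⟨δ, hδ, fun x hx y hy => h (mem_thickening_iff.mpr ⟨x, hx, hy⟩)⟩
  obtain ⟨L, hL⟩ := exists_level (show 0 < δ / 2 by positivity)
  have hL' := hL L le_rfl
  have hp := pow3_pos L
  set J : Finset (Fin N → Fin (3 ^ L)) := Finset.univ.filter fun v =>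
    ∃ x ∈ K, ∀ i, x i ∈ Icc (lo L (v i)) (hi L (v i)) with hJ
  obtain ⟨m1, m2, z1, z2⟩ := nice_pieces (k := k) hN L J
  refine ⟨YJ L J, CJ L J, isClosed_YJ L J, isClosed_CJ L J, mu_subset_union k L J, ?_, ?_,
    closure_eq k L J, m1, m2, z1, z2⟩
  · -- small boxes
    rintro y ⟨hy, hyY⟩
    simp only [YJ, mem_iUnion, mem_ofPred_eq] at hyY
    obtain ⟨v, hv, h⟩ := hyY
    simp only [hJ, Finset.mem_filter, Finset.mem_univ, true_and] at hv
    obtain ⟨x, hx, hxv⟩ := hv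
    apply hδU x hx
    have hlen : ∀ i, hi L (v i) - lo L (v i) ≤ 3 / 2 * (1 / 3) ^ L := by
      intro i
      have e3 : (3:ℝ) ^ L * (1 / 3) ^ L = 1 := by rw [← mul_pow]; norm_num
      have hlo : ((v i : ℕ):ℝ) - 1 / 4 ≤ 3 ^ L * lo L (v i) := by
        by_cases h0 : (v i : ℕ) = 0
        · simp [lo, h0]
        · rw [lo_spec h0]; push_cast; linarith
      have hhi : 3 ^ L * hi L (v i) ≤ ((v i : ℕ):ℝ) + 5 / 4 := by
        by_cases h0 : (v i : ℕ) + 1 < 3 ^ L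
        · rw [hi_spec h0]; push_cast; linarith
        · have h1 : 3 ^ L ≤ (v i : ℕ) + 1 := not_lt.mp h0
          have h2 : ((3 ^ L : ℕ):ℝ) ≤ ((v i : ℕ):ℝ) + 1 := by exact_mod_cast h1
          push_cast at h2
          simp only [hi, h0, if_false]
          linarith
      by_contra hc
      push Not at hc
      have := mul_lt_mul_of_pos_left hc hp
      nlinarith
    have hd : dist y x ≤ 3 / 2 * (1 / 3) ^ L := by
      rw [dist_pi_le_iff (by positivity)]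
      intro i
      rw [Real.dist_eq, abs_le]
      have h1 := h i
      have h2 := hxv i
      have h3 := hlen i
      constructor
      · linarith [h1.1, h2.2]
      · linarith [h1.2, h2.1]
    linarith
  · -- `K` misses the complement
    rw [Set.disjoint_left]
    rintro x hx ⟨_, hC⟩
    have h01 := (hKm hx).1
    have hw : ∀ i, ∃ n : Fin (3 ^ L), ((n : ℕ):ℝ) ≤ 3 ^ L * x i ∧ 3 ^ L * x i ≤ ((n : ℕ):ℝ) + 1 := by
      intro i
      obtain ⟨j, hj, h1, h2⟩ := exists_wall (K := 3 ^ L) (y := 3 ^ L * x i) (by positivity)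
        (mul_nonneg hp.le (h01 i).1) (by push_cast; nlinarith [(h01 i).2])
      exact ⟨⟨j, hj⟩, h1, h2⟩
    choose v hv1 hv2 using hw
    have hlo : ∀ i, (v i : ℕ) ≠ 0 → lo L (v i) < x i := by
      intro i h0
      have h1 := lo_spec (L := L) h0
      have h2 := hv1 i
      push_cast at h1
      by_contra hc
      push Not at hc
      have := mul_le_mul_of_nonneg_left hc hp.le
      linarith
    have hhi : ∀ i, (v i : ℕ) + 1 < 3 ^ L → x i < hi L (v i) := by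
      intro i h0
      have h1 := hi_spec h0
      have h2 := hv2 i
      push_cast at h1
      by_contra hc
      push Not at hc
      have := mul_le_mul_of_nonneg_left hc hp.le
      linarith
    have hvJ : v ∈ J := by
      simp only [hJ, Finset.mem_filter, Finset.mem_univ, true_and]
      refine ⟨x, hx, fun i => ⟨?_, ?_⟩⟩
      · by_cases h0 : (v i : ℕ) = 0
        · have : lo L (v i) = 0 := by simp [lo, h0]
          rw [this]
          exact (h01 i).1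
        · exact (hlo i h0).le
      · by_cases h0 : (v i : ℕ) + 1 < 3 ^ L
        · exact (hhi i h0).le
        · have : hi L (v i) = 1 := by simp [hi, h0]
          rw [this]
          exact (h01 i).2
    obtain ⟨i, ⟨h0, h3⟩ | ⟨h0, h3⟩⟩ := hC v hvJ
    · exact absurd h3 (not_le.mpr (hlo i h0))
    · exact absurd h3 (not_le.mpr (hhi i h0))

end MG
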