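import Pool.Agent.Work.MP_017613_gt.DigK

/-!
# The Menger compactum is an absolute extensor in dimension `≤ k`
-/

open Set Topology Metric

namespace MG

open Pool.Agent.Work.MP_017613_gt (PushOff)

/-- every map of a closed subset `A` of a compact set `P` of dimension `≤ k` into `mu k N` extends
over `P` -/
theorem ae_mu {k N : ℕ} {α : Type*} [MetricSpace α] {P A : Set α} (cP : IsCompact P)
    (hP : PushOff k P) (hA : IsClosed A) (hAP : A ⊆ P) {a : α → Fin N → ℝ}
    (ha : ContinuousOn a A) (hm : MapsTo a A (mu k N)) :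
    ∃ F : α → Fin N → ℝ, ContinuousOn F P ∧ MapsTo F P (mu k N) ∧ EqOn F a A := by
  obtain ⟨G, cG, eG⟩ := Pool.Agent.Work.MP_017613_gt.tietze hA ha
  -- clamp to the cube
  set G' : α → Fin N → ℝ := fun x i => clp (G x i) with hG'
  have cG' : Continuous G' :=
    continuous_pi fun i => continuous_clp.comp ((continuous_apply i).comp cG)
  have hclp : ∀ t ∈ Icc (0:ℝ) 1, clp t = t := by
    intro t ht
    unfold clp
    rw [min_eq_right ht.2, max_eq_right ht.1]
  have eG' : ∀ x ∈ A, G' x = a x := by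
    intro x hx
    funext i
    simp only [hG', eG hx]
    exact hclp _ ((hm hx).1 i)
  obtain ⟨F, cF, nF, sF, eF⟩ := spush 0 cP hP cG'.continuousOn
  refine ⟨F, cF, ?_, ?_⟩
  · intro x hx
    exact ⟨fun i => (sF x hx i).stay.mem_Icc ⟨clp_nonneg _, clp_le_one _⟩,
      fun l => nF x hx l (Nat.zero_le _)⟩
  · intro x hx
    rw [eF x (hAP hx) (by rw [eG' x hx]; exact fun l _ => (hm hx).2 l), eG' x hx]

/-- the same for types -/
theorem ae_mu_type {k N : ℕ} {P : Type*} [MetricSpace P] [CompactSpace P]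
    (hP : PushOff k (univ : Set P)) {A : Set P} (hA : IsClosed A) {a : P → mu k N}
    (ha : ContinuousOn a A) : ∃ F : C(P, mu k N), EqOn F a A := by
  obtain ⟨F, cF, mF, eF⟩ := ae_mu isCompact_univ hP hA (subset_univ A)
    (a := fun x => (a x : Fin N → ℝ)) (continuous_subtype_val.comp_continuousOn ha)
    (fun x _ => (a x).2)
  refine ⟨⟨fun x => ⟨F x, mF (mem_univ x)⟩, ?_⟩, fun x hx => Subtype.ext (eF hx)⟩
  exact Continuous.subtype_mk (continuousOn_univ.mp cF) _

end MG
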