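import Pool.Agent.Work.MP_017613_gt.LocB
import Pool.Agent.Work.MP_017613_gt.DigM

/-!
# NICE3: decompositions `M = P ∪ T ∪ R` adapted to a chart

`Nice3 k O`: for `K ⊆ O` compact, `L` closed, `E` open, `L ⊆ E`, there are closed sets `P`, `T`, `R`
covering `M`, with `P ∪ T ⊆ O`, `K` off `R`, `K ∪ L` off `T`, `P ∩ R ⊆ E`, `T` Menger, `P ∩ T` and
`T ∩ R` Z-sets in `T`. `DigNice3`: the same statement in the digit model. `chart_nice3`: transfer to
a compact space with charts.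
-/

set_option linter.unusedSectionVars false
set_option linter.dupNamespace false

open Set Topology Metric

namespace Pool.Agent.Work.MP_017613_gt

namespace Nice3

open Rnd MG Loc

/-- NICE3 for the subset `O` of `M` -/
def Nice3 (k : ℕ) {M : Type} [MetricSpace M] (O : Set M) : Prop :=
  ∀ K L E : Set M, IsCompact K → K ⊆ O → IsClosed L → IsOpen E → L ⊆ E →
    ∃ P T R : Set M, IsClosed P ∧ IsClosed T ∧ IsClosed R ∧ P ∪ T ∪ R = univ ∧ P ∪ T ⊆ O ∧
      Disjoint K R ∧ Disjoint (K ∪ L) T ∧ P ∩ R ⊆ E ∧ MenS k T ∧ ZIn (P ∩ T) T ∧ ZIn (T ∩ R) T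

/-- NICE3 in the digit model -/
def DigNice3 (k N : ℕ) : Prop :=
  ∀ K U L E : Set (Fin N → ℝ), IsCompact K → K ⊆ mu k N → IsOpen U → K ⊆ U → IsCompact L →
    L ⊆ mu k N → IsOpen E → L ⊆ E →
    ∃ P T R : Set (Fin N → ℝ), IsClosed P ∧ IsClosed T ∧ IsClosed R ∧ P ∪ T ∪ R = mu k N ∧
      P ∪ T ⊆ U ∧ Disjoint K R ∧ Disjoint (K ∪ L) T ∧ P ∩ R ⊆ E ∧ MenS k T ∧
      ZIn (P ∩ T) T ∧ ZIn (T ∩ R) T

/-- **NICE3 in charts.** -/
theorem chart_nice3 {k N : ℕ} {M : Type} [MetricSpace M] [CompactSpace M] (hD : DigNice3 k N)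
    (hC : MG.Chart k N M) (x : M) :
    ∃ O : Set M, IsOpen O ∧ x ∈ O ∧ ∀ O' : Set M, O' ⊆ O → IsOpen O' → Nice3 k O' := by
  obtain ⟨U₀, h, g, r, -, c⟩ := hC.exists_cm x one_pos
  have hr := c.r_pos
  set s : Set (Fin N → ℝ) := mu k N ∩ closedBall (h x) (3 * r) with hs
  refine ⟨U₀ ∩ h ⁻¹' ball (h x) r, c.cont_h.isOpen_inter_preimage c.open_U isOpen_ball,
    ⟨c.mem, mem_ball_self hr⟩, ?_⟩
  intro O' hO' oO' K L E cK hKO cL oE hLE
  obtain ⟨C, cC, hKC, hCO⟩ := exists_compact_between cK oO' hKO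
  have hCU : C ⊆ U₀ := fun y hy => (hO' (hCO hy)).1
  have hCb : ∀ y ∈ C, dist (h y) (h x) < r := fun y hy => (hO' (hCO hy)).2
  have hhC : ContinuousOn h C := c.cont_h.mono hCU
  have hCs : ∀ y ∈ C, h y ∈ s := fun y hy =>
    ⟨c.map_h y (hCU hy), mem_closedBall.2 (by linarith [hCb y hy])⟩
  -- the open sets of the model
  obtain ⟨W₀, hW₀, hW₀e⟩ := continuousOn_iff'.1 c.cont_g (interior C) isOpen_interior
  obtain ⟨E₀, hE₀, hE₀e⟩ := continuousOn_iff'.1 c.cont_g E oE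
  set W : Set (Fin N → ℝ) := W₀ ∩ ball (h x) r with hW
  have hWo : IsOpen W := hW₀.inter isOpen_ball
  have hWs : ∀ z ∈ mu k N, z ∈ W → z ∈ s := fun z hz hzW =>
    ⟨hz, mem_closedBall.2 (by have := mem_ball.1 hzW.2; linarith)⟩
  have hWg : ∀ z ∈ mu k N, z ∈ W → g z ∈ interior C := by
    intro z hz hzW
    have h2 : z ∈ W₀ ∩ s := ⟨hzW.1, hWs z hz hzW⟩
    rw [← hW₀e] at h2
    exact h2.1
  have hWh : ∀ y ∈ interior C, h y ∈ W := by
    intro y hy
    have hyC := interior_subset hy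
    have h2 : h y ∈ g ⁻¹' interior C ∩ s := ⟨by
      show g (h y) ∈ interior C
      rw [c.gh y (hCU hyC)]; exact hy, hCs y hyC⟩
    rw [hW₀e] at h2
    exact ⟨h2.1, mem_ball.2 (hCb y hyC)⟩
  have hKU : K ⊆ U₀ := hKC.trans (interior_subset.trans hCU)
  obtain ⟨P', T', R', cP', cT', cR', hcov, hPT, hKR, hKLT, hPR, mT, zP, zR⟩ := hD (h '' K) W
    (h '' (L ∩ C)) E₀
    (cK.image_of_continuousOn (c.cont_h.mono hKU))
    (by rintro _ ⟨y, hy, rfl⟩; exact c.map_h y (hKU hy)) hWo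
    (by rintro _ ⟨y, hy, rfl⟩; exact hWh y (hKC hy))
    ((cC.inter_left cL).image_of_continuousOn (hhC.mono inter_subset_right))
    (by rintro _ ⟨y, hy, rfl⟩; exact c.map_h y (hCU hy.2)) hE₀
    (by
      rintro _ ⟨y, hy, rfl⟩
      have h2 : h y ∈ g ⁻¹' E ∩ s := ⟨by
        show g (h y) ∈ E
        rw [c.gh y (hCU hy.2)]; exact hLE hy.1, hCs y hy.2⟩
      rw [hE₀e] at h2
      exact h2.1)
  have hPmu : P' ⊆ mu k N := by
    rw [← hcov]; exact fun z hz => Or.inl (Or.inl hz)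
  have hTmu : T' ⊆ mu k N := by
    rw [← hcov]; exact fun z hz => Or.inl (Or.inr hz)
  have hPW : P' ⊆ W := subset_union_left.trans hPT
  have hTW : T' ⊆ W := subset_union_right.trans hPT
  have hPs : P' ⊆ s := fun z hz => hWs z (hPmu hz) (hPW hz)
  have hTs : T' ⊆ s := fun z hz => hWs z (hTmu hz) (hTW hz)
  have cmP : IsCompact P' := (isCompact_mu k N).of_isClosed_subset cP' hPmu
  have cmT : IsCompact T' := (isCompact_mu k N).of_isClosed_subset cT' hTmu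
  have hHom : Hom T' (g '' T') g := by
    refine ⟨c.cont_g.mono hTs, ?_, rfl⟩
    intro z hz z' hz' he
    rw [← c.hg z (hTs hz), ← c.hg z' (hTs hz'), he]
  set R : Set M := (interior C)ᶜ ∪ (C ∩ h ⁻¹' R') with hRdef
  have memR : ∀ z ∈ mu k N, z ∈ W → (g z ∈ R ↔ z ∈ R') := by
    intro z hz hzW
    have h1 := hWg z hz hzW
    have h2 := c.hg z (hWs z hz hzW)
    constructor
    · rintro (h3 | h3)
      · exact absurd h1 h3
      · have h4 : h (g z) ∈ R' := h3.2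
        rwa [h2] at h4
    · intro h3
      refine Or.inr ⟨interior_subset h1, ?_⟩
      show h (g z) ∈ R'
      rwa [h2]
  refine ⟨g '' P', g '' T', R, (cmP.image_of_continuousOn (c.cont_g.mono hPs)).isClosed,
    (cmT.image_of_continuousOn (c.cont_g.mono hTs)).isClosed, ?_, ?_, ?_, ?_, ?_, ?_,
    mT.image hHom, ?_, ?_⟩
  · exact isOpen_interior.isClosed_compl.union
      (hhC.preimage_isClosed_of_isClosed cC.isClosed cR')
  · rw [eq_univ_iff_forall]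
    intro y
    by_cases hy : y ∈ interior C
    · have hyC := interior_subset hy
      have h1 : h y ∈ P' ∪ T' ∪ R' := by
        rw [hcov]; exact c.map_h y (hCU hyC)
      have h2 := c.gh y (hCU hyC)
      rcases h1 with (h1 | h1) | h1
      · exact Or.inl (Or.inl ⟨h y, h1, h2⟩)
      · exact Or.inl (Or.inr ⟨h y, h1, h2⟩)
      · exact Or.inr (Or.inr ⟨hyC, h1⟩)
    · exact Or.inr (Or.inl hy)
  · rintro y (⟨z, hz, rfl⟩ | ⟨z, hz, rfl⟩)
    · exact hCO (interior_subset (hWg z (hPmu hz) (hPW hz)))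
    · exact hCO (interior_subset (hWg z (hTmu hz) (hTW hz)))
  · rw [Set.disjoint_left]
    rintro y hy (h1 | h1)
    · exact h1 (hKC hy)
    · exact Set.disjoint_left.1 hKR ⟨y, hy, rfl⟩ h1.2
  · rw [Set.disjoint_left]
    rintro y hy ⟨z, hz, rfl⟩
    have h1 := c.hg z (hTs hz)
    have h2 : z ∈ h '' K ∪ h '' (L ∩ C) := by
      rcases hy with hy | hy
      · exact Or.inl ⟨g z, hy, h1⟩
      · exact Or.inr ⟨g z, ⟨hy, interior_subset (hWg z (hTmu hz) (hTW hz))⟩, h1⟩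
    exact Set.disjoint_left.1 hKLT h2 hz
  · rintro y ⟨⟨z, hz, rfl⟩, hyR⟩
    have h1 := (memR z (hPmu hz) (hPW hz)).1 hyR
    have h2 : z ∈ E₀ ∩ s := ⟨hPR ⟨hz, h1⟩, hPs hz⟩
    rw [← hE₀e] at h2
    exact h2.1
  · have h1 := ZIn.image hHom cmT zP
    have h2 : g '' (P' ∩ T') = g '' P' ∩ g '' T' := by
      apply Subset.antisymm (image_inter_subset g P' T')
      rintro y ⟨⟨z, hz, rfl⟩, ⟨w, hw, he⟩⟩
      have h3 : w = z := by rw [← c.hg w (hTs hw), ← c.hg z (hPs hz), he]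
      rw [h3] at hw
      exact ⟨z, ⟨hz, hw⟩, rfl⟩
    rwa [h2] at h1
  · have h1 := ZIn.image hHom cmT zR
    have h2 : g '' (T' ∩ R') = g '' T' ∩ R := by
      ext y
      constructor
      · rintro ⟨z, ⟨hz, hzR⟩, rfl⟩
        exact ⟨⟨z, hz, rfl⟩, (memR z (hTmu hz) (hTW hz)).2 hzR⟩
      · rintro ⟨⟨z, hz, rfl⟩, hyR⟩
        exact ⟨z, ⟨hz, (memR z (hTmu hz) (hTW hz)).1 hyR⟩, rfl⟩
    rwa [h2] at h1

end Nice3

end Pool.Agent.Work.MP_017613_gt
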