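import Pool.Agent.Work.MP_017613_gt.DigP
import Pool.Agent.Work.MP_017613_gt.Nice3

/-!
# NICE3 in the digit model
-/

open Set Topology Metric

namespace MG

open Pool.Agent.Work.MP_017613_gt (PushOff DD ZS ZD Men DD.zd)
open Pool.Agent.Work.MP_017613_gt.Rnd (ZIn zin_of_zs)

variable {N : ℕ}

/-- two points in the same box are close -/
lemma dist_box {L : ℕ} {v : Fin N → Fin (3 ^ L)} {x y : Fin N → ℝ}
    (hx : ∀ i, x i ∈ Icc (lo L (v i)) (hi L (v i)))
    (hy : ∀ i, y i ∈ Icc (lo L (v i)) (hi L (v i))) : dist y x ≤ 3 / 2 * (1 / 3) ^ L := by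
  have hp := pow3_pos L
  have hlen : ∀ i, hi L (v i) - lo L (v i) ≤ 3 / 2 * (1 / 3) ^ L := by
    intro i
    have e3 : (3:ℝ) ^ L * (1 / 3) ^ L = 1 := by rw [← mul_pow]; norm_num
    have hlo : ((v i : ℕ):ℝ) - 1 / 4 ≤ 3 ^ L * lo L (v i) := by
      by_cases h0 : (v i : ℕ) = 0
      · simp [lo, h0]
      · rw [lo_spec h0]; push_cast; linarith
    have hhi : 3 ^ L * hi L (v i) ≤ ((v i : ℕ):ℝ) + 5 / 4 := by
      by_cases h0 : (v i : ℕ) + 1 < 3 ^ L
      · rw [hi_spec h0]; push_cast; linarith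
      · have h1 : 3 ^ L ≤ (v i : ℕ) + 1 := not_lt.mp h0
        have h2 : ((3 ^ L : ℕ):ℝ) ≤ ((v i : ℕ):ℝ) + 1 := by exact_mod_cast h1
        push_cast at h2
        simp only [hi, h0, if_false]
        linarith
    by_contra hc
    push Not at hc
    have := mul_lt_mul_of_pos_left hc hp
    nlinarith
  rw [dist_pi_le_iff (by positivity)]
  intro i
  rw [Real.dist_eq, abs_le]
  have h1 := hy i
  have h2 := hx i
  have h3 := hlen i
  constructor
  · linarith [h1.1, h2.2]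
  · linarith [h1.2, h2.1]

open Classical in
/-- the boxes meeting `K` -/
noncomputable def JK (L : ℕ) (K : Set (Fin N → ℝ)) : Finset (Fin N → Fin (3 ^ L)) :=
  Finset.univ.filter fun v => ∃ x ∈ K, ∀ i, x i ∈ Icc (lo L (v i)) (hi L (v i))

/-- points in the union of the boxes meeting `K` are close to `K` -/
lemma near_of_mem_JK {L : ℕ} {K : Set (Fin N → ℝ)} {y : Fin N → ℝ} (hy : y ∈ YJ L (JK L K)) :
    ∃ x ∈ K, dist y x ≤ 3 / 2 * (1 / 3) ^ L := by
  simp only [YJ, mem_iUnion, mem_ofPred_eq] at hy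
  obtain ⟨v, hv, h⟩ := hy
  simp only [JK, Finset.mem_filter, Finset.mem_univ, true_and] at hv
  obtain ⟨x, hx, hxv⟩ := hv
  exact ⟨x, hx, dist_box hxv h⟩

/-- `K` is in the interior of the union of the boxes meeting it -/
lemma disjoint_CJ {k L : ℕ} {K : Set (Fin N → ℝ)} (hKm : K ⊆ mu k N) :
    Disjoint K (CJ L (JK L K)) := by
  have hp := pow3_pos L
  rw [Set.disjoint_left]
  rintro x hx ⟨_, hC⟩
  have h01 := (hKm hx).1
  have hw : ∀ i, ∃ n : Fin (3 ^ L), ((n : ℕ):ℝ) ≤ 3 ^ L * x i ∧ 3 ^ L * x i ≤ ((n : ℕ):ℝ) + 1 := by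
    intro i
    obtain ⟨j, hj, h1, h2⟩ := exists_wall (K := 3 ^ L) (y := 3 ^ L * x i) (by positivity)
      (mul_nonneg hp.le (h01 i).1) (by push_cast; nlinarith [(h01 i).2])
    exact ⟨⟨j, hj⟩, h1, h2⟩
  choose v hv1 hv2 using hw
  have hlo : ∀ i, (v i : ℕ) ≠ 0 → lo L (v i) < x i := by
    intro i h0
    have h1 := lo_spec (L := L) h0
    have h2 := hv1 i
    push_cast at h1
    by_contra hc
    push Not at hc
    have := mul_le_mul_of_nonneg_left hc hp.le
    linarith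
  have hhi : ∀ i, (v i : ℕ) + 1 < 3 ^ L → x i < hi L (v i) := by
    intro i h0
    have h1 := hi_spec h0
    have h2 := hv2 i
    push_cast at h1
    by_contra hc
    push Not at hc
    have := mul_le_mul_of_nonneg_left hc hp.le
    linarith
  have hvJ : v ∈ JK L K := by
    simp only [JK, Finset.mem_filter, Finset.mem_univ, true_and]
    refine ⟨x, hx, fun i => ⟨?_, ?_⟩⟩
    · by_cases h0 : (v i : ℕ) = 0
      · have : lo L (v i) = 0 := by simp [lo, h0]
        rw [this]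
        exact (h01 i).1
      · exact (hlo i h0).le
    · by_cases h0 : (v i : ℕ) + 1 < 3 ^ L
      · exact (hhi i h0).le
      · have : hi L (v i) = 1 := by simp [hi, h0]
        rw [this]
        exact (h01 i).2
  obtain ⟨i, ⟨h0, h3⟩ | ⟨h0, h3⟩⟩ := hC v hvJ
  · exact absurd h3 (not_le.mpr (hlo i h0))
  · exact absurd h3 (not_le.mpr (hhi i h0))

/-- **NICE3 in the digit model.** -/
theorem digNice3 {k N : ℕ} (hN : 2 * k + 1 ≤ N) :
    Pool.Agent.Work.MP_017613_gt.Nice3.DigNice3 k N := by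
  intro K U L E cK hKm oU hKU cL hLm oE hLE
  have thick : ∀ {K U : Set (Fin N → ℝ)}, IsCompact K → IsOpen U → K ⊆ U →
      ∃ δ > 0, ∀ x ∈ K, ∀ y, dist y x < δ → y ∈ U := by
    intro K U cK oU h
    obtain ⟨δ, hδ, h⟩ := cK.exists_thickening_subset_open oU h
    exact ⟨δ, hδ, fun x hx y hy => h (mem_thickening_iff.mpr ⟨x, hx, hy⟩)⟩
  -- the first level
  obtain ⟨δ, hδ, hδU⟩ := thick cK oU hKU
  obtain ⟨a, ha⟩ := exists_level (show 0 < δ / 2 by positivity)
  have ha' := ha a le_rfl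
  set Y : Set (Fin N → ℝ) := YJ a (JK a K) with hY
  set C : Set (Fin N → ℝ) := CJ a (JK a K) with hC
  have cY : IsClosed Y := isClosed_YJ _ _
  have cC : IsClosed C := isClosed_CJ _ _
  have hKC : Disjoint K C := disjoint_CJ hKm
  have hYU : Y ⊆ U := by
    intro y hy
    obtain ⟨x, hx, hxy⟩ := near_of_mem_JK hy
    exact hδU x hx y (by linarith)
  -- the second level
  set K' : Set (Fin N → ℝ) := K ∪ L ∩ Y with hK'
  have hK'm : K' ⊆ mu k N := union_subset hKm (inter_subset_left.trans hLm)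
  obtain ⟨δ₁, hδ₁, h₁⟩ := thick cK cC.isOpen_compl
    (fun x hx hx' => Set.disjoint_left.1 hKC hx hx')
  obtain ⟨δ₂, hδ₂, h₂⟩ := thick cL oE hLE
  obtain ⟨b₀, hb₀⟩ := exists_level (show 0 < min δ₁ δ₂ / 2 by positivity)
  set b : ℕ := a + (2 * b₀ + 1) with hb
  have hb' := hb₀ b (by omega)
  set Y' : Set (Fin N → ℝ) := YJ b (JK b K') with hY'
  set C' : Set (Fin N → ℝ) := CJ b (JK b K') with hC'
  have cY' : IsClosed Y' := isClosed_YJ _ _
  have cC' : IsClosed C' := isClosed_CJ _ _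
  have hK'C' : Disjoint K' C' := disjoint_CJ hK'm
  have hmu := isClosed_mu k N
  -- the freezing maps
  have hR : ∀ M : ℕ, ∃ l, M ≤ l ∧ ∀ m, l + 2 ≤ m → ∀ x ∈ mu k N ∩ (Y ∩ C'),
      (RR l m x ∈ Y ∩ C') ∧ RR l m x ∉ C ∧ RR l m x ∉ Y' := by
    intro M
    refine ⟨a + 2 * (b₀ + M + 1), by omega, fun m hm x hx => ?_⟩
    have h1 := RR_YJ (j := b₀ + M + 1) hm (J := JK a K) ⟨hx.1, hx.2.1⟩
    have e : a + 2 * (b₀ + M + 1) = b + (2 * M + 1) := by omega
    have h2 := RR_CJ (j := M) (L := b) (m := m) (by omega) (J := JK b K') ⟨hx.1, hx.2.2⟩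
    rw [← e] at h2
    exact ⟨⟨h1.1, h2.1⟩, h1.2, h2.2⟩
  have cT : IsClosed (mu k N ∩ (Y ∩ C')) := hmu.inter (cY.inter cC')
  have kT : CompactSpace (mu k N ∩ (Y ∩ C') : Set (Fin N → ℝ)) :=
    isCompact_iff_compactSpace.mp ((isCompact_mu k N).inter_right (cY.inter cC'))
  refine ⟨mu k N ∩ (Y ∩ Y'), mu k N ∩ (Y ∩ C'), mu k N ∩ C, hmu.inter (cY.inter cY'), cT,
    hmu.inter cC, ?_, ?_, ?_, ?_, ?_, ⟨kT, ?_⟩, ?_, ?_⟩
  · ext x
    constructor
    · rintro ((h | h) | h)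
      · exact h.1
      · exact h.1
      · exact h.1
    · intro hx
      rcases mu_subset_union k a (JK a K) hx with h | h
      · rcases mu_subset_union k b (JK b K') hx with h' | h'
        · exact Or.inl (Or.inl ⟨hx, h, h'⟩)
        · exact Or.inl (Or.inr ⟨hx, h, h'⟩)
      · exact Or.inr ⟨hx, h⟩
  · rintro x (h | h)
    · exact hYU h.2.1
    · exact hYU h.2.1
  · exact hKC.mono_right inter_subset_right
  · rw [Set.disjoint_left]
    rintro x (hx | hx) hxT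
    · exact Set.disjoint_left.1 hK'C' (Or.inl hx) hxT.2.2
    · exact Set.disjoint_left.1 hK'C' (Or.inr ⟨hx, hxT.2.1⟩) hxT.2.2
  · rintro x ⟨hxP, hxR⟩
    obtain ⟨y, hy, hyx⟩ := near_of_mem_JK hxP.2.2
    have h3 : min δ₁ δ₂ ≤ δ₁ := min_le_left _ _
    have h4 : min δ₁ δ₂ ≤ δ₂ := min_le_right _ _
    rcases hy with hy | hy
    · exact absurd hxR.2 (h₁ y hy x (by linarith))
    · exact h₂ y hy.1 x (by linarith)
  · refine men_mu_inter hN (T := TL a ∪ TL b) ?_ (cY.inter cC') ?_ ?_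
    · intro t ht
      rcases Finset.mem_union.1 ht with ht | ht
      · exact nev_TL a t ht
      · exact nev_TL b t ht
    · exact ((tset_YJ a _).mono Finset.subset_union_left).inter
        ((tset_CJ b _).mono Finset.subset_union_right)
    · intro M
      obtain ⟨l, hl, h⟩ := hR M
      exact ⟨l, hl, fun m hm x hx => (h m hm x hx).1⟩
  · refine zin_of_zs ((hmu.inter (cY.inter cY')).inter cT) inter_subset_right ?_
    have h1 := zs_mu_inter (k := k) (Y := Y ∩ C') (Z := Y') cY' fun M => by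
      obtain ⟨l, hl, h⟩ := hR M
      exact ⟨l, hl, fun m hm x hx => ⟨(h m hm x hx).1, (h m hm x hx).2.2⟩⟩
    have h2 : ((↑) ⁻¹' (mu k N ∩ (Y ∩ Y') ∩ (mu k N ∩ (Y ∩ C'))) :
        Set (mu k N ∩ (Y ∩ C') : Set (Fin N → ℝ))) =
        {x : (mu k N ∩ (Y ∩ C') : Set (Fin N → ℝ)) | (x : Fin N → ℝ) ∈ Y'} := by
      ext x
      constructor
      · exact fun h => h.1.2.2
      · exact fun h => ⟨⟨x.2.1, x.2.2.1, h⟩, x.2⟩
    rw [h2]
    exact h1
  · refine zin_of_zs (cT.inter (hmu.inter cC)) inter_subset_left ?_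
    have h1 := zs_mu_inter (k := k) (Y := Y ∩ C') (Z := C) cC fun M => by
      obtain ⟨l, hl, h⟩ := hR M
      exact ⟨l, hl, fun m hm x hx => ⟨(h m hm x hx).1, (h m hm x hx).2.1⟩⟩
    have h2 : ((↑) ⁻¹' (mu k N ∩ (Y ∩ C') ∩ (mu k N ∩ C)) :
        Set (mu k N ∩ (Y ∩ C') : Set (Fin N → ℝ))) =
        {x : (mu k N ∩ (Y ∩ C') : Set (Fin N → ℝ)) | (x : Fin N → ℝ) ∈ C} := by
      ext x
      constructor
      · exact fun h => h.2.2
      · exact fun h => ⟨x.2, x.2.1, h⟩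
    rw [h2]
    exact h1

end MG
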