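import Mathlib

/-!
# Anderson's swindle and the commutator trick

Pure topology and group theory: if homeomorphisms supported in round balls can be displaced by
the group `H` which they generate, and there is one swindle, then `H` is simple and contained in
every nontrivial normal subgroup of the homeomorphism group.
-/

set_option autoImplicit false

open Set Topology

namespace Pool.Agent.Work.MP_017613_gt.Swindle

variable {M : Type*} [TopologicalSpace M]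

/-- `f` is supported in `D`. -/
def SuppIn (f : M ≃ₜ M) (D : Set M) : Prop := ∀ x, x ∉ D → f x = x

theorem SuppIn.mono {f : M ≃ₜ M} {D E : Set M} (h : SuppIn f D) (hDE : D ⊆ E) : SuppIn f E :=
  fun x hx => h x fun h' => hx (hDE h')

theorem SuppIn.mem {f : M ≃ₜ M} {D : Set M} (h : SuppIn f D) {x : M} (hx : x ∈ D) : f x ∈ D := by
  by_contra hc
  have h1 := h _ hc
  have h2 := f.injective h1
  exact hc (by rw [h2]; exact hx)

theorem SuppIn.one (D : Set M) : SuppIn (1 : M ≃ₜ M) D := fun _ _ => rfl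

theorem SuppIn.mul {f g : M ≃ₜ M} {D : Set M} (hf : SuppIn f D) (hg : SuppIn g D) :
    SuppIn (f * g) D := fun x hx => by
  rw [Homeomorph.mul_apply, hg x hx, hf x hx]

theorem SuppIn.inv {f : M ≃ₜ M} {D : Set M} (hf : SuppIn f D) : SuppIn f⁻¹ D := fun x hx => by
  have h1 := hf x hx
  rw [Homeomorph.inv_apply, Homeomorph.symm_apply_eq, h1]

theorem SuppIn.conj {f : M ≃ₜ M} {D : Set M} (hf : SuppIn f D) (g : M ≃ₜ M) :
    SuppIn (g * f * g⁻¹) (g '' D) := fun x hx => by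
  have h1 : g⁻¹ x ∉ D := fun h => hx ⟨g⁻¹ x, h, by simp⟩
  rw [Homeomorph.mul_apply, Homeomorph.mul_apply, hf _ h1]
  simp

/-! ## The swindle -/

section Swin
open Classical

variable (φ : M ≃ₜ M) (D : Set M)

/-- The infinite product of the conjugates of `f`. -/
noncomputable def sw (f : M ≃ₜ M) (x : M) : M :=
  if h : ∃ i : ℕ, (φ ^ i)⁻¹ x ∈ D then
    (φ ^ (Nat.find h)) (f ((φ ^ (Nat.find h))⁻¹ x)) else x

variable {φ D}

/-- The sets `φ^i(D)` are disjoint. -/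
def Disj (φ : M ≃ₜ M) (D : Set M) : Prop :=
  ∀ (i j : ℕ) (x : M), (φ ^ i)⁻¹ x ∈ D → (φ ^ j)⁻¹ x ∈ D → i = j

theorem sw_of_mem (hd : Disj φ D) (f : M ≃ₜ M) {x : M} {i : ℕ} (hi : (φ ^ i)⁻¹ x ∈ D) :
    sw φ D f x = (φ ^ i) (f ((φ ^ i)⁻¹ x)) := by
  have h : ∃ i : ℕ, (φ ^ i)⁻¹ x ∈ D := ⟨i, hi⟩
  rw [sw, dif_pos h]
  have := hd _ _ x (Nat.find_spec h) hi
  rw [this]

theorem sw_of_not (f : M ≃ₜ M) {x : M} (h : ∀ i : ℕ, (φ ^ i)⁻¹ x ∉ D) : sw φ D f x = x := by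
  rw [sw, dif_neg (by push Not; exact h)]

theorem inv_pow_sw (hd : Disj φ D) {f : M ≃ₜ M} {x : M} {i : ℕ}
    (hi : (φ ^ i)⁻¹ x ∈ D) : (φ ^ i)⁻¹ (sw φ D f x) = f ((φ ^ i)⁻¹ x) := by
  rw [sw_of_mem hd f hi]; simp

theorem sw_mem (hd : Disj φ D) {f : M ≃ₜ M} (hf : SuppIn f D) {x : M} {i : ℕ}
    (hi : (φ ^ i)⁻¹ x ∈ D) : (φ ^ i)⁻¹ (sw φ D f x) ∈ D := by
  rw [inv_pow_sw hd hi]; exact hf.mem hi

theorem sw_mul (hd : Disj φ D) {f g : M ≃ₜ M} (hg : SuppIn g D) (x : M) :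
    sw φ D (f * g) x = sw φ D f (sw φ D g x) := by
  by_cases h : ∃ i : ℕ, (φ ^ i)⁻¹ x ∈ D
  · obtain ⟨i, hi⟩ := h
    rw [sw_of_mem hd _ hi, sw_of_mem hd f (sw_mem hd hg hi), inv_pow_sw hd hi]
    rfl
  · push Not at h
    rw [sw_of_not _ h, sw_of_not g h, sw_of_not f h]

theorem sw_one (hd : Disj φ D) (x : M) : sw φ D 1 x = x := by
  by_cases h : ∃ i : ℕ, (φ ^ i)⁻¹ x ∈ D
  · obtain ⟨i, hi⟩ := h
    rw [sw_of_mem hd _ hi]; simp
  · push Not at h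
    rw [sw_of_not _ h]

/-- Finite products. -/
theorem sw_cont [T2Space M] (hD : IsClosed D) (hd : Disj φ D) {p : M}
    (hp : ∀ i : ℕ, (φ ^ i)⁻¹ p ∉ D)
    (hc : ∀ V ∈ 𝓝 p, ∃ n : ℕ, ∀ i, n ≤ i → ∀ x, (φ ^ i)⁻¹ x ∈ D → x ∈ V)
    {f : M ≃ₜ M} (hf : SuppIn f D) : Continuous (sw φ D f) := by
  -- finite products are continuous
  have hfin : ∀ n : ℕ, Continuous fun x =>
      if ∃ i : ℕ, i < n ∧ (φ ^ i)⁻¹ x ∈ D then sw φ D f x else x := by
    intro n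
    induction n with
    | zero => simpa using (continuous_id' : Continuous fun x : M => x)
    | succ n ih =>
      have e : (fun x => if ∃ i : ℕ, i < n + 1 ∧ (φ ^ i)⁻¹ x ∈ D then sw φ D f x else x) =
          fun x => (φ ^ n * f * (φ ^ n)⁻¹ : M ≃ₜ M)
            (if ∃ i : ℕ, i < n ∧ (φ ^ i)⁻¹ x ∈ D then sw φ D f x else x) := by
        funext x
        by_cases h : ∃ i : ℕ, i < n ∧ (φ ^ i)⁻¹ x ∈ D
        · obtain ⟨i, hi, hx⟩ := h
          rw [if_pos ⟨i, by omega, hx⟩, if_pos ⟨i, hi, hx⟩]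
          have h1 : (φ ^ n)⁻¹ (sw φ D f x) ∉ D := by
            intro h2
            have := hd _ _ _ (sw_mem hd hf hx) h2
            omega
          rw [Homeomorph.mul_apply, Homeomorph.mul_apply, hf _ h1]
          simp
        · rw [if_neg h]
          by_cases hn : (φ ^ n)⁻¹ x ∈ D
          · rw [if_pos ⟨n, by omega, hn⟩, sw_of_mem hd f hn]; rfl
          · rw [if_neg, Homeomorph.mul_apply, Homeomorph.mul_apply, hf _ hn]
            · simp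
            · rintro ⟨i, hi, hx⟩
              rcases Nat.lt_succ_iff_lt_or_eq.1 hi with h2 | h2
              · exact h ⟨i, h2, hx⟩
              · rw [h2] at hx; exact hn hx
      rw [e]
      exact (φ ^ n * f * (φ ^ n)⁻¹ : M ≃ₜ M).continuous.comp ih
  rw [continuous_iff_continuousAt]
  intro x
  by_cases hx : x = p
  · subst hx
    intro W hW
    rw [sw_of_not f hp] at hW
    obtain ⟨n, hn⟩ := hc W hW
    have h1 : ∀ i : ℕ, IsClosed {y | (φ ^ i)⁻¹ y ∈ D} := fun i =>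
      hD.preimage (φ ^ i)⁻¹.continuous
    have h2 : ∀ m : ℕ, {y | ∀ i : ℕ, i < m → (φ ^ i)⁻¹ y ∉ D} ∈ 𝓝 x := by
      intro m
      induction m with
      | zero => simp
      | succ m ih =>
        have h3 : {y | (φ ^ m)⁻¹ y ∉ D} ∈ 𝓝 x := (h1 m).isOpen_compl.mem_nhds (hp m)
        filter_upwards [ih, h3] with y hy hy' i hi
        rcases Nat.lt_succ_iff_lt_or_eq.1 hi with h4 | h4
        · exact hy i h4
        · rw [h4]; exact hy'
    show {y | sw φ D f y ∈ W} ∈ 𝓝 x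
    filter_upwards [h2 n, hW] with y hy hyW
    show sw φ D f y ∈ W
    by_cases h : ∃ i : ℕ, (φ ^ i)⁻¹ y ∈ D
    · obtain ⟨i, hi⟩ := h
      have h4 : n ≤ i := by
        by_contra hlt
        exact hy i (by omega) hi
      exact hn i h4 _ (sw_mem hd hf hi)
    · push Not at h
      rw [sw_of_not f h]; exact hyW
  · obtain ⟨U, V, hU, hV, hxU, hpV, hUV⟩ := t2_separation hx
    obtain ⟨n, hn⟩ := hc V (hV.mem_nhds hpV)
    have h1 : (sw φ D f) =ᶠ[𝓝 x] fun x =>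
        if ∃ i : ℕ, i < n ∧ (φ ^ i)⁻¹ x ∈ D then sw φ D f x else x := by
      filter_upwards [hU.mem_nhds hxU] with y hy
      by_cases h : ∃ i : ℕ, i < n ∧ (φ ^ i)⁻¹ y ∈ D
      · rw [if_pos h]
      · rw [if_neg h]
        refine sw_of_not f fun i hi => ?_
        have h4 : n ≤ i := by
          by_contra hlt
          exact h ⟨i, by omega, hi⟩
        exact hUV.le_bot ⟨hy, hn i h4 y hi⟩
    exact ((hfin n).continuousAt).congr h1.symm

end Swin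

/-- Data of a swindle. -/
structure Swin (φ : M ≃ₜ M) (D : Set M) (p : M) : Prop where
  closed : IsClosed D
  disj : Disj φ D
  point : ∀ i : ℕ, (φ ^ i)⁻¹ p ∉ D
  conv : ∀ V ∈ 𝓝 p, ∃ n : ℕ, ∀ i, n ≤ i → ∀ x, (φ ^ i)⁻¹ x ∈ D → x ∈ V

/-- **The swindle.** -/
theorem Swin.comm [T2Space M] {φ : M ≃ₜ M} {D : Set M} {p : M} (S : Swin φ D p) {f : M ≃ₜ M}
    (hf : SuppIn f D) : ∃ F : M ≃ₜ M, SuppIn F (⋃ i : ℕ, (φ ^ i : M ≃ₜ M) '' D) ∧
      f = F * φ * F⁻¹ * φ⁻¹ := by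
  have hd := S.disj
  have h1 : ∀ x, sw φ D f⁻¹ (sw φ D f x) = x := by
    intro x
    rw [← sw_mul hd hf, inv_mul_cancel, sw_one hd]
  have h2 : ∀ x, sw φ D f (sw φ D f⁻¹ x) = x := by
    intro x
    rw [← sw_mul hd hf.inv, mul_inv_cancel, sw_one hd]
  let F : M ≃ₜ M :=
    { toFun := sw φ D f
      invFun := sw φ D f⁻¹
      left_inv := h1
      right_inv := h2
      continuous_toFun := sw_cont S.closed hd S.point S.conv hf
      continuous_invFun := sw_cont S.closed hd S.point S.conv hf.inv }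
  have hF : ∀ x, F x = sw φ D f x := fun _ => rfl
  refine ⟨F, ?_, ?_⟩
  · intro x hx
    rw [hF]
    refine sw_of_not f fun i hi => hx ?_
    rw [mem_iUnion]
    exact ⟨i, (φ ^ i)⁻¹ x, hi, by simp⟩
  · have key : F = f * (φ * F * φ⁻¹) := by
      ext x
      show F x = f (φ (F (φ⁻¹ x)))
      have hs : ∀ i : ℕ, (φ ^ i)⁻¹ (φ⁻¹ x) = (φ ^ (i + 1))⁻¹ x := by
        intro i
        rw [pow_succ', mul_inv_rev]; rfl
      rw [hF, hF]
      by_cases h : ∃ i : ℕ, (φ ^ i)⁻¹ (φ⁻¹ x) ∈ D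
      · obtain ⟨i, hi⟩ := h
        rw [sw_of_mem hd f hi]
        have hi' := hi
        rw [hs] at hi'
        rw [sw_of_mem hd f hi', hs]
        have e : φ ((φ ^ i) (f ((φ ^ (i + 1))⁻¹ x))) = (φ ^ (i + 1)) (f ((φ ^ (i + 1))⁻¹ x)) := by
          rw [pow_succ']; rfl
        rw [e]
        symm
        apply hf
        intro h0
        have h4 : (φ ^ 0)⁻¹ ((φ ^ (i + 1)) (f ((φ ^ (i + 1))⁻¹ x))) ∈ D := by simpa using h0
        have h5 : (φ ^ (i + 1))⁻¹ ((φ ^ (i + 1)) (f ((φ ^ (i + 1))⁻¹ x))) ∈ D := by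
          simpa using hf.mem hi'
        have := hd _ _ _ h4 h5
        omega
      · push Not at h
        rw [sw_of_not f h]
        have e : φ (φ⁻¹ x) = x := by simp
        rw [e]
        by_cases h0 : x ∈ D
        · have h4 : (φ ^ 0)⁻¹ x ∈ D := by simpa using h0
          rw [sw_of_mem hd f h4]; simp
        · rw [sw_of_not f, hf x h0]
          intro i hi
          cases i with
          | zero => exact h0 (by simpa using hi)
          | succ i => exact h i (by rw [hs]; exact hi)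
    calc f = (f * (φ * F * φ⁻¹)) * (φ * F⁻¹ * φ⁻¹) := by group
      _ = F * (φ * F⁻¹ * φ⁻¹) := by rw [← key]
      _ = F * φ * F⁻¹ * φ⁻¹ := by group

/-! ## The commutator trick -/

theorem commutator_trick {n f g : M ≃ₜ M} {U : Set M} (hn : ∀ x ∈ U, n x ∉ U)
    (hf : SuppIn f U) (hg : SuppIn g U) :
    f * (g * n * g⁻¹ * n⁻¹) * f⁻¹ * (g * n * g⁻¹ * n⁻¹)⁻¹ = f * g * f⁻¹ * g⁻¹ := by
  -- `k = n g⁻¹ n⁻¹` is supported in `n U` and commutes with `f` and `g`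
  have hc : ∀ e : M ≃ₜ M, SuppIn e U → e * (n * g⁻¹ * n⁻¹) = (n * g⁻¹ * n⁻¹) * e := by
    intro e he
    ext x
    show e (n (g⁻¹ (n⁻¹ x))) = n (g⁻¹ (n⁻¹ (e x)))
    by_cases hx : x ∈ U
    · have h1 : n⁻¹ x ∉ U := fun h => hn _ h (by simpa using hx)
      have h2 : n⁻¹ (e x) ∉ U := fun h => hn _ h (by simpa using he.mem hx)
      rw [hg.inv _ h1, hg.inv _ h2]
      simp
    · rw [he x hx]
      apply he
      intro h
      by_cases h3 : n⁻¹ x ∈ U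
      · exact hn _ (hg.inv.mem h3) h
      · rw [hg.inv _ h3] at h
        exact hx (by simpa using h)
  set k := n * g⁻¹ * n⁻¹ with hk
  have e1 : g * n * g⁻¹ * n⁻¹ = g * k := by rw [hk]; group
  rw [e1]
  have hf' := hc f hf
  calc f * (g * k) * f⁻¹ * (g * k)⁻¹ = f * g * (k * f⁻¹) * k⁻¹ * g⁻¹ := by group
    _ = f * g * (f⁻¹ * k) * k⁻¹ * g⁻¹ := by
        have : k * f⁻¹ = f⁻¹ * k := by
          calc k * f⁻¹ = f⁻¹ * (f * k) * f⁻¹ := by group
            _ = f⁻¹ * (k * f) * f⁻¹ := by rw [hf']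
            _ = f⁻¹ * k := by group
        rw [this]
    _ = f * g * f⁻¹ * g⁻¹ := by group

/-! ## The group generated by homeomorphisms supported in balls -/

/-- The group generated by the homeomorphisms supported in members of `RB`. -/
def Hgp (RB : Set (Set M)) : Subgroup (M ≃ₜ M) :=
  Subgroup.closure {f | ∃ P ∈ RB, SuppIn f P}

theorem mem_Hgp {RB : Set (Set M)} {P : Set M} (hP : P ∈ RB) {f : M ≃ₜ M} (hf : SuppIn f P) :
    f ∈ Hgp RB := Subgroup.subset_closure ⟨P, hP, hf⟩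

theorem Hgp_conj {RB : Set (Set M)} (inv : ∀ g : M ≃ₜ M, ∀ P ∈ RB, g '' P ∈ RB) (g : M ≃ₜ M)
    {f : M ≃ₜ M} (hf : f ∈ Hgp RB) : g * f * g⁻¹ ∈ Hgp RB := by
  induction hf using Subgroup.closure_induction with
  | mem x hx =>
    obtain ⟨P, hP, hs⟩ := hx
    exact mem_Hgp (inv g P hP) (hs.conj g)
  | one => simp
  | mul x y _ _ hx hy =>
    have : g * (x * y) * g⁻¹ = (g * x * g⁻¹) * (g * y * g⁻¹) := by group
    rw [this]; exact Subgroup.mul_mem _ hx hy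
  | inv x _ hx =>
    have : g * x⁻¹ * g⁻¹ = (g * x * g⁻¹)⁻¹ := by group
    rw [this]; exact Subgroup.inv_mem _ hx

theorem Hgp_normal {RB : Set (Set M)} (inv : ∀ g : M ≃ₜ M, ∀ P ∈ RB, g '' P ∈ RB) :
    (Hgp RB).Normal := ⟨fun _ hf g => Hgp_conj inv g hf⟩

/-- A swindle inside a ball. -/
structure Data (RB : Set (Set M)) : Prop where
  inv : ∀ g : M ≃ₜ M, ∀ P ∈ RB, g '' P ∈ RB
  disp : ∀ P ∈ RB, ∀ O : Set M, IsOpen O → O.Nonempty → ∃ h ∈ Hgp RB, h '' P ⊆ O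
  swin : ∃ (Q : Set M) (φ : M ≃ₜ M) (D : Set M) (p : M), Q ∈ RB ∧ SuppIn φ Q ∧ Swin φ D p ∧
    (interior D).Nonempty ∧ D ⊆ Q

theorem pow_image_sub {φ : M ≃ₜ M} {D Q : Set M} (h : SuppIn φ Q) (hDQ : D ⊆ Q) :
    (⋃ i : ℕ, (φ ^ i : M ≃ₜ M) '' D) ⊆ Q := by
  rw [iUnion_subset_iff]
  intro i
  rintro _ ⟨x, hx, rfl⟩
  induction i with
  | zero => simpa using hDQ hx
  | succ i ih =>
    rw [pow_succ']
    exact h.mem ih

/-- Every homeomorphism supported in a ball is a commutator of two such, in one ball. -/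
theorem Data.perfect [T2Space M] {RB : Set (Set M)} (T : Data RB) {P : Set M} (hP : P ∈ RB)
    {f : M ≃ₜ M} (hf : SuppIn f P) :
    ∃ Q ∈ RB, ∃ a b : M ≃ₜ M, SuppIn a Q ∧ SuppIn b Q ∧ f = a * b * a⁻¹ * b⁻¹ := by
  obtain ⟨Q, φ, D, p, hQ, hφ, S, hDi, hDQ⟩ := T.swin
  obtain ⟨h, -, hh⟩ := T.disp P hP (interior D) isOpen_interior hDi
  have h1 : SuppIn (h * f * h⁻¹) D := (hf.conj h).mono (hh.trans interior_subset)
  obtain ⟨F, hF, e⟩ := S.comm h1
  have hFQ : SuppIn F Q := hF.mono (pow_image_sub hφ hDQ)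
  refine ⟨(h⁻¹ : M ≃ₜ M) '' Q, T.inv h⁻¹ Q hQ, h⁻¹ * F * h, h⁻¹ * φ * h, ?_, ?_, ?_⟩
  · simpa using hFQ.conj h⁻¹
  · simpa using hφ.conj h⁻¹
  · calc f = h⁻¹ * (h * f * h⁻¹) * h := by group
      _ = h⁻¹ * (F * φ * F⁻¹ * φ⁻¹) * h := by rw [← e]
      _ = _ := by group

/-- The subgroups normalised by `H` contain `H`. -/
theorem Data.le_of_normalised [T2Space M] {RB : Set (Set M)} (T : Data RB)
    {N : Subgroup (M ≃ₜ M)} (hN : ∀ h ∈ Hgp RB, ∀ n ∈ N, h * n * h⁻¹ ∈ N) (hN1 : N ≠ ⊥) :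
    Hgp RB ≤ N := by
  obtain ⟨n, hn, hn1⟩ : ∃ n ∈ N, n ≠ 1 := by
    by_contra hc
    push Not at hc
    exact hN1 ((Subgroup.eq_bot_iff_forall N).2 hc)
  obtain ⟨x, hx⟩ : ∃ x, n x ≠ x := by
    by_contra hc
    push Not at hc
    exact hn1 (Homeomorph.ext hc)
  obtain ⟨A, B, hA, hB, hxA, hxB, hAB⟩ := t2_separation hx
  set U := B ∩ n ⁻¹' A with hU
  have hUo : IsOpen U := hB.inter (hA.preimage n.continuous)
  have hUx : U.Nonempty := ⟨x, hxB, hxA⟩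
  have hnU : ∀ y ∈ U, n y ∉ U := fun y hy h => hAB.le_bot ⟨hy.2, h.1⟩
  rw [Hgp, Subgroup.closure_le]
  rintro f ⟨P, hP, hf⟩
  obtain ⟨Q, hQ, a, b, ha, hb, e⟩ := T.perfect hP hf
  obtain ⟨h, hh, hhU⟩ := T.disp Q hQ U hUo hUx
  have ha2 : SuppIn (h * a * h⁻¹) U := (ha.conj h).mono hhU
  have hb2 : SuppIn (h * b * h⁻¹) U := (hb.conj h).mono hhU
  have haH : h * a * h⁻¹ ∈ Hgp RB :=
    Subgroup.mul_mem _ (Subgroup.mul_mem _ hh (mem_Hgp hQ ha)) (Subgroup.inv_mem _ hh)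
  have hbH : h * b * h⁻¹ ∈ Hgp RB :=
    Subgroup.mul_mem _ (Subgroup.mul_mem _ hh (mem_Hgp hQ hb)) (Subgroup.inv_mem _ hh)
  have h1 := commutator_trick hnU ha2 hb2
  set a' := h * a * h⁻¹ with ha'
  set b' := h * b * h⁻¹ with hb'
  have h2 : b' * n * b'⁻¹ * n⁻¹ ∈ N := Subgroup.mul_mem _ (hN _ hbH _ hn) (Subgroup.inv_mem _ hn)
  have h3 : a' * (b' * n * b'⁻¹ * n⁻¹) * a'⁻¹ * (b' * n * b'⁻¹ * n⁻¹)⁻¹ ∈ N :=
    Subgroup.mul_mem _ (hN _ haH _ h2) (Subgroup.inv_mem _ h2)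
  rw [h1] at h3
  have h4 : f = h⁻¹ * (a' * b' * a'⁻¹ * b'⁻¹) * (h⁻¹)⁻¹ := by
    rw [e, ha', hb']; group
  show f ∈ N
  rw [h4]
  exact hN _ (Subgroup.inv_mem _ hh) _ h3

/-- `H` is contained in every nontrivial normal subgroup. -/
theorem Data.smallest [T2Space M] {RB : Set (Set M)} (T : Data RB) {N : Subgroup (M ≃ₜ M)}
    (hN : N.Normal) (hN1 : N ≠ ⊥) : Hgp RB ≤ N :=
  T.le_of_normalised (fun h _ n hn => hN.conj_mem n hn h) hN1

theorem Data.nontrivial [T2Space M] {RB : Set (Set M)} (T : Data RB) : Hgp RB ≠ ⊥ := by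
  obtain ⟨Q, φ, D, p, hQ, hφ, S, ⟨x, hx⟩, hDQ⟩ := T.swin
  intro h0
  have h1 : φ ∈ Hgp RB := mem_Hgp hQ hφ
  rw [h0, Subgroup.mem_bot] at h1
  have hxD : x ∈ D := interior_subset hx
  have h2 : (φ ^ 0)⁻¹ x ∈ D := by simpa using hxD
  have h3 : (φ ^ 1)⁻¹ x ∈ D := by rw [h1]; simpa using hxD
  have := S.disj _ _ _ h2 h3
  omega

/-- `H` is simple. -/
theorem Data.simple [T2Space M] {RB : Set (Set M)} (T : Data RB) : IsSimpleGroup (Hgp RB) := by
  have hnt : Nontrivial (Hgp RB) := (Subgroup.nontrivial_iff_ne_bot _).2 T.nontrivial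
  refine { hnt with eq_bot_or_eq_top_of_normal := fun N hN => ?_ }
  by_cases h0 : N = ⊥
  · exact Or.inl h0
  right
  have h1 : N.map (Hgp RB).subtype ≠ ⊥ := by
    intro h
    exact h0 ((Subgroup.map_eq_bot_iff_of_injective N (Subgroup.subtype_injective _)).1 h)
  have h2 : Hgp RB ≤ N.map (Hgp RB).subtype := by
    refine T.le_of_normalised ?_ h1
    rintro h hh _ ⟨n, hn, rfl⟩
    exact ⟨⟨h, hh⟩ * n * ⟨h, hh⟩⁻¹, hN.conj_mem n hn ⟨h, hh⟩, rfl⟩
  rw [Subgroup.eq_top_iff']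
  intro g
  obtain ⟨n, hn, e⟩ := h2 g.2
  have : n = g := Subtype.ext e
  rw [← this]; exact hn

end Pool.Agent.Work.MP_017613_gt.Swindle
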