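import Pool.Agent.Work.MP_017613_gt.DigK
import Pool.Agent.Work.MP_017613_gt.MenDef
import Pool.Agent.Work.MP_017613_gt.Swindle

/-!
# The swindle homeomorphism in the digit model

From the extension theorem for homeomorphisms of Z-sets over a point (`TPt`) we get, for every
`i`, a homeomorphism of `mu k N` supported in the corner box `[0, c_i]^N` which is the scaling by
`1/9` on the box `[0, c_(i+1)]^N`, and a set `D` whose images shrink to the corner.
-/

set_option autoImplicit false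

open Set Topology Metric
open Pool.Agent.Work.MP_017613_gt Pool.Agent.Work.MP_017613_gt.Swindle

namespace MG

/-- extension of homeomorphisms of Z-sets over a point, for `(k-1)`-connected Menger manifolds -/
def TPt (k : ℕ) : Prop :=
  ∀ (A B : Type) [MetricSpace A] [CompactSpace A] [MetricSpace B] [CompactSpace B],
    Nonempty A → Nonempty B → Men k A → Men k B → Conn k (univ : Set A) → Conn k (univ : Set B) →
    ∀ (W : Set A) (W' : Set B), ZS W → ZS W' → ∀ g : W ≃ₜ W', ∃ h : A ≃ₜ B, ∀ x : W, h x = g x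

/-! ## Scaling -/

lemma scale_mem {k N : ℕ} (n : ℕ) {x : Fin N → ℝ} (hx : ∀ i, x i ∈ Icc (0:ℝ) 1) :
    (fun i => x i / 3 ^ n) ∈ mu k N ↔ x ∈ mu k N := by
  induction n with
  | zero => simp
  | succ n ih =>
    have h1 : ∀ i, x i / 3 ^ n ∈ Icc (0:ℝ) 1 := fun i =>
      ⟨div_nonneg (hx i).1 (by positivity),
        (div_le_self (hx i).1 (one_le_pow₀ (by norm_num))).trans (hx i).2⟩
    rw [← ih, ← div_three_mem_mu h1]
    have h2 : (fun i => x i / 3 ^ (n + 1)) = fun i => x i / 3 ^ n / 3 := by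
      funext i
      rw [pow_succ, div_div]
    rw [h2]

lemma cc_add (i n : ℕ) : cc (i + n) = cc i / 3 ^ n := by
  unfold cc
  rw [pow_add, one_div_pow, one_div_pow]
  field_simp

section
variable {k N : ℕ}

/-- scaling down by `9` -/
noncomputable def dn (x : mu k N) : mu k N :=
  ⟨fun i => (x : Fin N → ℝ) i / 3 ^ 2, (scale_mem 2 x.2.1).2 x.2⟩

lemma dn_apply (x : mu k N) (i : Fin N) : (dn x : Fin N → ℝ) i = (x : Fin N → ℝ) i / 9 := by
  change (x : Fin N → ℝ) i / 3 ^ 2 = _
  norm_num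

lemma continuous_dn : Continuous (dn : mu k N → mu k N) := by
  refine Continuous.subtype_mk (continuous_pi fun i => ?_) _
  exact ((continuous_apply i).comp continuous_subtype_val).div_const _

lemma up_mem {x : Fin N → ℝ} (hx : x ∈ mu k N) (h : ∀ i, x i ≤ 1 / 9) :
    (fun i => 9 * x i) ∈ mu k N := by
  have h1 : ∀ i, 9 * x i ∈ Icc (0:ℝ) 1 := fun i =>
    ⟨mul_nonneg (by norm_num) (hx.1 i).1, by linarith [h i]⟩
  rw [← scale_mem 2 h1]
  have : (fun i => 9 * x i / 3 ^ 2) = x := by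
    funext i
    norm_num
  rwa [this]

end

/-! ## The homeomorphism -/

section
variable {k N : ℕ} (i : ℕ)

/-- the corner box -/
def bx (c : ℝ) : Set (mu k N) := {x | ∀ j, (x : Fin N → ℝ) j ≤ c}

lemma isClosed_bx (c : ℝ) : IsClosed (bx c : Set (mu k N)) := by
  have : (bx c : Set (mu k N)) = ⋂ j, {x : mu k N | (x : Fin N → ℝ) j ≤ c} := by
    ext x; simp [bx]
  rw [this]
  exact isClosed_iInter fun j => isClosed_le
    ((continuous_apply j).comp continuous_subtype_val) continuous_const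

/-- the outside of the corner box -/
def ox (c : ℝ) : Set (mu k N) := {x | ∃ j, c ≤ (x : Fin N → ℝ) j}

lemma isClosed_ox (c : ℝ) : IsClosed (ox c : Set (mu k N)) := by
  have : (ox c : Set (mu k N)) = ⋃ j, {x : mu k N | c ≤ (x : Fin N → ℝ) j} := by
    ext x; simp [ox]
  rw [this]
  exact isClosed_iUnion_of_finite fun j => isClosed_le continuous_const
    ((continuous_apply j).comp continuous_subtype_val)

lemma cc19 (i : ℕ) : cc (i + 1) ≤ 1 / 9 := by
  rw [cc_add]
  have := cc_le i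
  norm_num
  linarith

lemma men_Sh (hN : 2 * k + 1 ≤ N) {a b : ℝ} (ha : a ∈ Icc (0:ℝ) 1) (hb : b ∈ Icc (0:ℝ) 1)
    (ha0 : Nev 0 a) (hb0 : Nev 0 b) (hab : Tw a b) :
    Men k (mu k N ∩ Sh a b : Set (Fin N → ℝ)) :=
  ⟨pushOff_Sh k N a b, ulcU_Sh ha0 hb0, (dd_Sh hN ha hb hab).zd⟩

/-- the shells inside the cube -/
abbrev SS (k N : ℕ) (a b : ℝ) : Set (Fin N → ℝ) := mu k N ∩ Sh a b

/-- the two walls of a shell -/
def wl (a b : ℝ) : Set (SS k N a b) := {x | (∃ j, x.1 j = b) ∨ ∀ j, x.1 j ≤ a}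

lemma isClosed_wl (a b : ℝ) : IsClosed (wl a b : Set (SS k N a b)) := by
  have h1 : ∀ j, Continuous fun x : SS k N a b => x.1 j := fun j =>
    (continuous_apply j).comp continuous_subtype_val
  have : (wl a b : Set (SS k N a b)) =
      (⋃ j, {x : SS k N a b | x.1 j = b}) ∪ ⋂ j, {x : SS k N a b | x.1 j ≤ a} := by
    ext x; simp only [wl, mem_ofPred_eq, mem_union, mem_iUnion, mem_iInter]
  rw [this]
  exact (isClosed_iUnion_of_finite fun j => isClosed_eq (h1 j) continuous_const).union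
    (isClosed_iInter fun j => isClosed_le (h1 j) continuous_const)

/-- the homeomorphism of the walls: the identity on the outer one, scaling on the inner one -/
theorem exists_wall_homeo (i : ℕ) :
    ∃ g : (wl (cc (i + 1)) (cc i) : Set (SS k N (cc (i + 1)) (cc i))) ≃ₜ
        (wl (cc (i + 3)) (cc i) : Set (SS k N (cc (i + 3)) (cc i))),
      (∀ x : (wl (cc (i + 1)) (cc i) : Set (SS k N (cc (i + 1)) (cc i))),
        (∃ j, x.1.1 j = cc i) → (g x).1.1 = x.1.1) ∧
      ∀ x : (wl (cc (i + 1)) (cc i) : Set (SS k N (cc (i + 1)) (cc i))),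
        (∀ j, x.1.1 j ≤ cc (i + 1)) → (g x).1.1 = fun j => x.1.1 j / 9 := by
  classical
  have h01 : cc (i + 1) < cc i := cc_lt (by omega)
  have h31 : cc (i + 3) < cc (i + 1) := cc_lt (by omega)
  have h3 : cc (i + 3) = cc (i + 1) / 9 := by
    rw [show i + 3 = i + 1 + 2 by omega, cc_add (i + 1) 2]
    norm_num
  have h19 := cc19 i
  -- the forward map
  have hf : ∀ x : (wl (cc (i + 1)) (cc i) : Set (SS k N (cc (i + 1)) (cc i))),
      ∃ y : (wl (cc (i + 3)) (cc i) : Set (SS k N (cc (i + 3)) (cc i))),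
        y.1.1 = if (∀ j, x.1.1 j ≤ cc (i + 1)) then fun j => x.1.1 j / 9 else x.1.1 := by
    rintro ⟨⟨x, hxm, hx1, hx2⟩, hx3⟩
    by_cases h : ∀ j, x j ≤ cc (i + 1)
    · refine ⟨⟨⟨fun j => x j / 9, ?_, ?_, ?_⟩, Or.inr ?_⟩, ?_⟩
      · have := (dn (⟨x, hxm⟩ : mu k N)).2
        have h4 : ((dn (⟨x, hxm⟩ : mu k N)) : Fin N → ℝ) = fun j => x j / 9 := by
          funext j; exact dn_apply _ j
        rwa [h4] at this
      · intro j
        refine ⟨div_nonneg (hx1 j).1 (by norm_num), ?_⟩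
        have := (hx1 j).2
        have := (hx1 j).1
        linarith
      · obtain ⟨j, hj⟩ := hx2
        exact ⟨j, by rw [h3]; linarith⟩
      · intro j
        have := h j
        change x j / 9 ≤ _
        rw [h3]; linarith
      · exact (if_pos h).symm
    · refine ⟨⟨⟨x, hxm, hx1, ?_⟩, Or.inl ?_⟩, ?_⟩
      · obtain ⟨j, hj⟩ := hx2
        exact ⟨j, h31.le.trans hj⟩
      · exact hx3.resolve_right h
      · exact (if_neg h).symm
  choose F hF using hf
  have hb : ∀ y : (wl (cc (i + 3)) (cc i) : Set (SS k N (cc (i + 3)) (cc i))),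
      ∃ x : (wl (cc (i + 1)) (cc i) : Set (SS k N (cc (i + 1)) (cc i))),
        x.1.1 = if (∀ j, y.1.1 j ≤ cc (i + 3)) then fun j => 9 * y.1.1 j else y.1.1 := by
    rintro ⟨⟨y, hym, hy1, hy2⟩, hy3⟩
    by_cases h : ∀ j, y j ≤ cc (i + 3)
    · refine ⟨⟨⟨fun j => 9 * y j, ?_, ?_, ?_⟩, Or.inr ?_⟩, ?_⟩
      · exact up_mem hym fun j => (h j).trans (h31.le.trans h19)
      · intro j
        refine ⟨mul_nonneg (by norm_num) (hy1 j).1, ?_⟩
        have := h j
        linarith
      · obtain ⟨j, hj⟩ := hy2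
        exact ⟨j, by linarith⟩
      · intro j
        have := h j
        change 9 * y j ≤ _
        linarith
      · exact (if_pos h).symm
    · refine ⟨⟨⟨y, hym, hy1, ?_⟩, Or.inl (hy3.resolve_right h)⟩, ?_⟩
      · obtain ⟨j, hj⟩ := hy3.resolve_right h
        exact ⟨j, by change y j = _ at hj; rw [hj]; exact h01.le⟩
      · exact (if_neg h).symm
  choose G hG using hb
  have hGF : ∀ x, G (F x) = x := by
    intro x
    apply Subtype.ext; apply Subtype.ext
    rw [hG]
    have hx3 := x.2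
    by_cases h : ∀ j, x.1.1 j ≤ cc (i + 1)
    · rw [if_pos]
      · rw [hF, if_pos h]
        funext j
        ring
      · intro j
        rw [hF, if_pos h, h3]
        linarith [h j]
    · obtain ⟨j₀, hj₀⟩ := hx3.resolve_right h
      rw [if_neg, hF, if_neg h]
      intro hc
      have := hc j₀
      rw [hF, if_neg h, hj₀] at this
      linarith
  have hFG : ∀ y, F (G y) = y := by
    intro y
    apply Subtype.ext; apply Subtype.ext
    rw [hF]
    have hy3 := y.2
    by_cases h : ∀ j, y.1.1 j ≤ cc (i + 3)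
    · rw [if_pos]
      · rw [hG, if_pos h]
        funext j
        ring
      · intro j
        rw [hG, if_pos h]
        linarith [h j]
    · obtain ⟨j₀, hj₀⟩ := hy3.resolve_right h
      rw [if_neg, hG, if_neg h]
      intro hc
      have := hc j₀
      rw [hG, if_neg h, hj₀] at this
      linarith
  have hc1 : ∀ j, Continuous fun x : (wl (cc (i + 1)) (cc i) :
      Set (SS k N (cc (i + 1)) (cc i))) => x.1.1 j := fun j =>
    (continuous_apply j).comp (continuous_subtype_val.comp continuous_subtype_val)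
  have hFc : Continuous F := by
    refine continuous_induced_rng.2 (continuous_induced_rng.2 ?_)
    have e : (Subtype.val ∘ Subtype.val ∘ F) = fun x : (wl (cc (i + 1)) (cc i) :
        Set (SS k N (cc (i + 1)) (cc i))) =>
        if (∀ j, x.1.1 j ≤ cc (i + 1)) then fun j => x.1.1 j / 9 else x.1.1 := by
      funext x; exact hF x
    rw [e]
    refine continuous_if ?_ ?_ ?_
    · intro x hx
      exfalso
      -- the inner wall is open and closed
      have hopen : IsOpen {x : (wl (cc (i + 1)) (cc i) : Set (SS k N (cc (i + 1)) (cc i))) |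
          ∀ j, x.1.1 j ≤ cc (i + 1)} := by
        have e2 : {x : (wl (cc (i + 1)) (cc i) : Set (SS k N (cc (i + 1)) (cc i))) |
          ∀ j, x.1.1 j ≤ cc (i + 1)} = ⋂ j, {x | x.1.1 j < cc i} := by
          ext x
          simp only [mem_ofPred_eq, mem_iInter]
          constructor
          · intro h j; exact (h j).trans_lt h01
          · intro h
            refine x.2.resolve_left ?_
            rintro ⟨j, hj⟩
            exact absurd (h j) (by rw [hj]; exact lt_irrefl _)
        rw [e2]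
        exact isOpen_iInter_of_finite fun j => isOpen_lt (hc1 j) continuous_const
      have hclosed : IsClosed {x : (wl (cc (i + 1)) (cc i) :
          Set (SS k N (cc (i + 1)) (cc i))) | ∀ j, x.1.1 j ≤ cc (i + 1)} := by
        rw [ofPred_forall]
        exact isClosed_iInter fun j => isClosed_le (hc1 j) continuous_const
      have : frontier {x : (wl (cc (i + 1)) (cc i) : Set (SS k N (cc (i + 1)) (cc i))) |
          ∀ j, x.1.1 j ≤ cc (i + 1)} = ∅ := IsClopen.frontier_eq ⟨hclosed, hopen⟩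
      rw [this] at hx
      exact hx
    · exact continuousOn_of_forall_continuousAt fun x _ =>
        (continuous_pi fun j => (hc1 j).div_const _).continuousAt
    · exact (continuous_subtype_val.comp continuous_subtype_val).continuousOn
  have : CompactSpace (wl (cc (i + 1)) (cc i) : Set (SS k N (cc (i + 1)) (cc i))) :=
    isCompact_iff_compactSpace.1 (isClosed_wl _ _).isCompact
  let g₀ : (wl (cc (i + 1)) (cc i) : Set (SS k N (cc (i + 1)) (cc i))) ≃
        (wl (cc (i + 3)) (cc i) : Set (SS k N (cc (i + 3)) (cc i))) := ⟨F, G, hGF, hFG⟩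
  refine ⟨Continuous.homeoOfEquivCompactToT2 (f := g₀) hFc, ?_, ?_⟩
  · rintro x ⟨j₀, hj₀⟩
    change (F x).1.1 = _
    rw [hF, if_neg]
    intro hc
    have := hc j₀
    rw [hj₀] at this
    linarith
  · intro x hx
    change (F x).1.1 = _
    rw [hF, if_pos hx]

/-- continuity on three closed pieces -/
lemma continuous_of_three {X Y : Type*} [TopologicalSpace X] [TopologicalSpace Y] {P₁ P₂ P₃ : Set X}
    (h1 : IsClosed P₁) (h2 : IsClosed P₂) (h3 : IsClosed P₃) (hc : ∀ x, x ∈ P₁ ∨ x ∈ P₂ ∨ x ∈ P₃)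
    {f : X → Y} (c1 : ContinuousOn f P₁) (c2 : ContinuousOn f P₂) (c3 : ContinuousOn f P₃) :
    Continuous f := by
  rw [← continuousOn_univ]
  have e : (univ : Set X) = P₁ ∪ P₂ ∪ P₃ := by
    ext x
    simp only [mem_univ, mem_union, true_iff]
    rcases hc x with h | h | h
    · exact Or.inl (Or.inl h)
    · exact Or.inl (Or.inr h)
    · exact Or.inr h
  rw [e]
  exact (c1.union_of_isClosed c2 h1 h2).union_of_isClosed c3 (h1.union h2) h3

/-- the homeomorphism of the cube -/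
theorem exists_phi (ht : TPt k) (hN : 2 * k + 1 ≤ N) (i : ℕ) :
    ∃ φ : mu k N ≃ₜ mu k N, (∀ x, (∃ j, cc i ≤ x.1 j) → φ x = x) ∧
      ∀ x, (∀ j, x.1 j ≤ cc (i + 1)) → φ x = dn x := by
  classical
  have h01 : cc (i + 1) < cc i := cc_lt (by omega)
  have h31 : cc (i + 3) < cc (i + 1) := cc_lt (by omega)
  have h3 : cc (i + 3) = cc (i + 1) / 9 := by
    rw [show i + 3 = i + 1 + 2 by omega, cc_add (i + 1) 2]
    norm_num
  have h19 := cc19 i
  have hN1 : 1 ≤ N := by omega
  obtain ⟨g, hg1, hg2⟩ := exists_wall_homeo (k := k) (N := N) i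
  obtain ⟨h, hh⟩ := ht (SS k N (cc (i + 1)) (cc i)) (SS k N (cc (i + 3)) (cc i))
    (nonempty_Sh hN1 (nev_cc _) h01.le (cc_mem _))
    (nonempty_Sh hN1 (nev_cc _) (h31.trans h01).le (cc_mem _))
    (men_Sh hN (cc_mem _) (cc_mem _) (nev_cc _) (nev_cc _) (tw_shell i 0))
    (men_Sh hN (cc_mem _) (cc_mem _) (nev_cc _) (nev_cc _) (tw_shell i 1))
    (connU_Sh hN1 (nev_cc _) (nev_cc _) h01.le (cc_mem _))
    (connU_Sh hN1 (nev_cc _) (nev_cc _) (h31.trans h01).le (cc_mem _))
    (wl (cc (i + 1)) (cc i)) (wl (cc (i + 3)) (cc i))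
    (zs_Sh (cc_mem _) (cc_mem _) (tw_shell i 0) (isClosed_wl _ _) fun x hx => hx)
    (zs_Sh (cc_mem _) (cc_mem _) (tw_shell i 1) (isClosed_wl _ _) fun x hx => hx) g
  have hho : ∀ x : SS k N (cc (i + 1)) (cc i), (∃ j, x.1 j = cc i) → (h x).1 = x.1 := by
    intro x hx
    have := hh ⟨x, Or.inl hx⟩
    rw [this]
    exact hg1 ⟨x, Or.inl hx⟩ hx
  have hhi : ∀ x : SS k N (cc (i + 1)) (cc i), (∀ j, x.1 j ≤ cc (i + 1)) →
      (h x).1 = fun j => x.1 j / 9 := by
    intro x hx
    have := hh ⟨x, Or.inr hx⟩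
    rw [this]
    exact hg2 ⟨x, Or.inr hx⟩ hx
  -- the three pieces
  have hcov : ∀ x : mu k N, (∀ j, x.1 j ≤ cc (i + 1)) ∨
      x.1 ∈ Sh (N := N) (cc (i + 1)) (cc i) ∨ ∃ j, cc i ≤ x.1 j := by
    intro x
    by_cases h1 : ∀ j, x.1 j ≤ cc (i + 1)
    · exact Or.inl h1
    by_cases h2 : ∃ j, cc i ≤ x.1 j
    · exact Or.inr (Or.inr h2)
    push Not at h1 h2
    obtain ⟨j, hj⟩ := h1
    exact Or.inr (Or.inl ⟨fun j => ⟨(x.2.1 j).1, (h2 j).le⟩, j, hj.le⟩)
  have hex : ∀ x : mu k N, ∃ y : mu k N, ((∀ j, x.1 j ≤ cc (i + 1)) → y = dn x) ∧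
      (∀ hx : x.1 ∈ Sh (N := N) (cc (i + 1)) (cc i), y.1 = (h ⟨x.1, x.2, hx⟩).1) ∧
      ((∃ j, cc i ≤ x.1 j) → y = x) := by
    intro x
    by_cases h1 : ∀ j, x.1 j ≤ cc (i + 1)
    · refine ⟨dn x, fun _ => rfl, fun hx => ?_, fun ⟨j, hj⟩ => ?_⟩
      · rw [hhi _ h1]
        funext j
        exact dn_apply x j
      · exact absurd (h1 j) (by linarith)
    by_cases h2 : ∃ j, cc i ≤ x.1 j
    · refine ⟨x, fun hc => absurd hc h1, fun hx => ?_, fun _ => rfl⟩
      obtain ⟨j, hj⟩ := h2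
      exact (hho ⟨x.1, x.2, hx⟩ ⟨j, le_antisymm (hx.1 j).2 hj⟩).symm
    · have hx : x.1 ∈ Sh (N := N) (cc (i + 1)) (cc i) := by
        rcases hcov x with h3 | h3 | h3
        · exact absurd h3 h1
        · exact h3
        · exact absurd h3 h2
      exact ⟨⟨(h ⟨x.1, x.2, hx⟩).1, (h ⟨x.1, x.2, hx⟩).2.1⟩, fun hc => absurd hc h1,
        fun _ => rfl, fun hc => absurd hc h2⟩
  choose f hf1 hf2 hf3 using hex
  have hcl : IsClosed {x : mu k N | x.1 ∈ Sh (N := N) (cc (i + 1)) (cc i)} :=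
    (isClosed_Sh _ _).preimage continuous_subtype_val
  have hfc : Continuous f := by
    refine continuous_of_three (isClosed_bx (cc (i + 1))) hcl (isClosed_ox (cc i)) hcov ?_ ?_ ?_
    · exact (continuous_dn.continuousOn).congr fun x hx => hf1 x hx
    · rw [continuousOn_iff_continuous_restrict]
      have e : Continuous fun x : {x : mu k N | x.1 ∈ Sh (N := N) (cc (i + 1)) (cc i)} =>
          (h ⟨x.1.1, x.1.2, x.2⟩).1 := by
        refine continuous_subtype_val.comp (h.continuous.comp ?_)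
        exact Continuous.subtype_mk (continuous_subtype_val.comp continuous_subtype_val) _
      refine continuous_induced_rng.2 ?_
      refine e.congr fun x => ?_
      exact (hf2 x.1 x.2).symm
    · exact (continuous_id.continuousOn).congr fun x hx => hf3 x hx
  have hinj : Function.Injective f := by
    have hdn : ∀ x x' : mu k N, dn x = dn x' → x = x' := by
      intro x x' e
      apply Subtype.ext
      funext j
      have := congrArg (fun y : mu k N => y.1 j) e
      rw [dn_apply, dn_apply] at this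
      linarith
    have c13 : ∀ x x' : mu k N, (∀ j, x.1 j ≤ cc (i + 1)) → (∃ j, cc i ≤ x'.1 j) →
        f x = f x' → False := by
      rintro x x' hx ⟨j, hj⟩ e
      rw [hf1 x hx, hf3 x' ⟨j, hj⟩] at e
      have := congrArg (fun y : mu k N => y.1 j) e
      rw [dn_apply] at this
      have h5 := hx j
      have h6 := cc_pos (i + 1)
      linarith
    have c22 : ∀ x x' : mu k N, x.1 ∈ Sh (N := N) (cc (i + 1)) (cc i) →
        x'.1 ∈ Sh (N := N) (cc (i + 1)) (cc i) → f x = f x' → x = x' := by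
      intro x x' hx hx' e
      have e1 := congrArg (fun y : mu k N => y.1) e
      rw [hf2 x hx, hf2 x' hx'] at e1
      have e2 := h.injective (Subtype.ext e1)
      exact Subtype.ext (congrArg (fun y : SS k N (cc (i + 1)) (cc i) => y.1) e2)
    have c12 : ∀ x x' : mu k N, (∀ j, x.1 j ≤ cc (i + 1)) →
        x'.1 ∈ Sh (N := N) (cc (i + 1)) (cc i) → f x = f x' → x = x' := by
      intro x x' hx hx' e
      have hxs : x.1 ∈ Sh (N := N) (cc (i + 1)) (cc i) := by
        refine ⟨fun j => ⟨(x.2.1 j).1, (hx j).trans h01.le⟩, ?_⟩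
        have e1 := congrArg (fun y : mu k N => y.1) e
        rw [hf1 x hx, hf2 x' hx'] at e1
        obtain ⟨j, hj⟩ := (h ⟨x'.1, x'.2, hx'⟩).2.2.2
        rw [← e1, dn_apply, h3] at hj
        exact ⟨j, by linarith⟩
      exact c22 x x' hxs hx' e
    have c23 : ∀ x x' : mu k N, x.1 ∈ Sh (N := N) (cc (i + 1)) (cc i) →
        (∃ j, cc i ≤ x'.1 j) → f x = f x' → x = x' := by
      intro x x' hx hx' e
      have hxs : x'.1 ∈ Sh (N := N) (cc (i + 1)) (cc i) := by
        obtain ⟨j, hj⟩ := hx'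
        refine ⟨fun j' => ⟨(x'.2.1 j').1, ?_⟩, j, h01.le.trans hj⟩
        have e1 := congrArg (fun y : mu k N => y.1) e
        rw [hf2 x hx, hf3 x' ⟨j, hj⟩] at e1
        rw [← e1]
        exact ((h ⟨x.1, x.2, hx⟩).2.2.1 j').2
      exact c22 x x' hx hxs e
    intro x x' e
    rcases hcov x with hx | hx | hx <;> rcases hcov x' with hx' | hx' | hx'
    · rw [hf1 x hx, hf1 x' hx'] at e
      exact hdn x x' e
    · exact c12 x x' hx hx' e
    · exact (c13 x x' hx hx' e).elim
    · exact (c12 x' x hx' hx e.symm).symm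
    · exact c22 x x' hx hx' e
    · exact c23 x x' hx hx' e
    · exact (c13 x' x hx' hx e.symm).elim
    · exact (c23 x' x hx' hx e.symm).symm
    · rw [hf3 x hx, hf3 x' hx'] at e
      exact e
  have hsurj : Function.Surjective f := by
    intro y
    by_cases h1 : ∀ j, y.1 j ≤ cc (i + 3)
    · refine ⟨⟨fun j => 9 * y.1 j, up_mem y.2 fun j => (h1 j).trans (h31.le.trans h19)⟩, ?_⟩
      rw [hf1]
      · apply Subtype.ext
        funext j
        rw [dn_apply]
        change 9 * y.1 j / 9 = y.1 j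
        ring
      · intro j
        have := h1 j
        change 9 * y.1 j ≤ _
        linarith
    by_cases h2 : ∃ j, cc i ≤ y.1 j
    · exact ⟨y, hf3 y h2⟩
    · push Not at h1 h2
      obtain ⟨j, hj⟩ := h1
      have hy : y.1 ∈ Sh (N := N) (cc (i + 3)) (cc i) :=
        ⟨fun j => ⟨(y.2.1 j).1, (h2 j).le⟩, j, hj.le⟩
      obtain ⟨x, hx⟩ := h.surjective ⟨y.1, y.2, hy⟩
      refine ⟨⟨x.1, x.2.1⟩, Subtype.ext ?_⟩
      rw [hf2 ⟨x.1, x.2.1⟩ x.2.2]
      exact congrArg (fun z : SS k N (cc (i + 3)) (cc i) => z.1) hx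
  refine ⟨Continuous.homeoOfEquivCompactToT2 (f := Equiv.ofBijective f ⟨hinj, hsurj⟩) hfc, ?_, ?_⟩
  · intro x hx
    exact hf3 x hx
  · intro x hx
    exact hf1 x hx

/-- the set which is moved to the corner -/
def DD₀ (k N i : ℕ) : Set (mu k N) := {x | (∀ j, x.1 j ≤ cc (i + 1)) ∧ ∃ j, cc (i + 2) ≤ x.1 j}

/-- the corner -/
def cor (k N : ℕ) : mu k N := ⟨0, zero_mem_mu k N⟩

/-- **The swindle in the digit model.** -/
theorem exists_swin (ht : TPt k) (hN : 2 * k + 1 ≤ N) (i : ℕ) :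
    ∃ φ : mu k N ≃ₜ mu k N, SuppIn φ {x | ∀ j, x.1 j ≤ cc i} ∧ Swin φ (DD₀ k N i) (cor k N) := by
  obtain ⟨φ, h1, h2⟩ := exists_phi ht hN i
  have hpow : ∀ (n : ℕ) (x : mu k N), (∀ j, x.1 j ≤ cc (i + 1)) →
      ∀ j, ((φ ^ n : mu k N ≃ₜ mu k N) x).1 j = x.1 j / 9 ^ n := by
    intro n
    induction n with
    | zero => intro x _ j; simp
    | succ n ih =>
      intro x hx j
      have h3 := ih x hx
      rw [pow_succ', Homeomorph.mul_apply, h2, dn_apply, h3]
      · rw [pow_succ, div_div]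
      · intro j
        rw [h3]
        have h4 : x.1 j / 9 ^ n ≤ x.1 j :=
          div_le_self (x.2.1 j).1 (one_le_pow₀ (by norm_num))
        exact h4.trans (hx j)
  have hlt : cc (i + 1) / 9 < cc (i + 2) := by
    have h3 : cc (i + 2) = cc (i + 1) / 3 := cc_succ (i + 1)
    have := cc_pos (i + 1)
    rw [h3]
    linarith
  have hD : ∀ (n m : ℕ) (x : mu k N), n < m → (φ ^ n)⁻¹ x ∈ DD₀ k N i →
      (φ ^ m)⁻¹ x ∈ DD₀ k N i → False := by
    intro n m x hnm hn hm
    set y := (φ ^ n)⁻¹ x with hy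
    set z := (φ ^ m)⁻¹ x with hz
    have ey : x = (φ ^ n) y := by rw [hy]; simp
    have ez : x = (φ ^ m) z := by rw [hz]; simp
    obtain ⟨j, hj⟩ := hn.2
    have e1 := hpow n y hn.1 j
    have e2 := hpow m z hm.1 j
    rw [← ey] at e1
    rw [← ez] at e2
    obtain ⟨e, rfl⟩ := Nat.exists_eq_add_of_lt hnm
    have e3 : y.1 j = z.1 j / 9 ^ (e + 1) := by
      have h9 : (0:ℝ) < 9 ^ n := by positivity
      have e4 : y.1 j / 9 ^ n = z.1 j / 9 ^ (e + 1) / 9 ^ n := by
        rw [← e1, e2, div_div]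
        congr 1
        ring
      exact (div_left_inj' h9.ne').1 e4
    have h5 : z.1 j / 9 ^ (e + 1) ≤ cc (i + 1) / 9 := by
      have h6 : (9:ℝ) ≤ 9 ^ (e + 1) := le_self_pow₀ (by norm_num) (by omega)
      have h7 : z.1 j / 9 ^ (e + 1) ≤ z.1 j / 9 :=
        div_le_div_of_nonneg_left (z.2.1 j).1 (by norm_num) h6
      have h8 := hm.1 j
      linarith
    linarith
  refine ⟨φ, ?_, ⟨?_, ?_, ?_, ?_⟩⟩
  · intro x hx
    simp only [mem_ofPred_eq, not_forall, not_le] at hx
    obtain ⟨j, hj⟩ := hx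
    exact h1 x ⟨j, hj.le⟩
  · have : DD₀ k N i = bx (cc (i + 1)) ∩ ox (cc (i + 2)) := by
      ext x; rfl
    rw [this]
    exact (isClosed_bx _).inter (isClosed_ox _)
  · intro n m x hn hm
    rcases lt_trichotomy n m with h | h | h
    · exact (hD n m x h hn hm).elim
    · exact h
    · exact (hD m n x h hm hn).elim
  · intro n hn
    have h0 : (φ ^ n : mu k N ≃ₜ mu k N) (cor k N) = cor k N := by
      apply Subtype.ext
      funext j
      rw [hpow n (cor k N) (fun j => by change (0:ℝ) ≤ _; exact (cc_pos _).le)]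
      change (0:ℝ) / 9 ^ n = 0
      simp
    have h3 : (φ ^ n)⁻¹ (cor k N) = cor k N := by
      rw [Homeomorph.inv_apply, Homeomorph.symm_apply_eq, h0]
    rw [h3] at hn
    obtain ⟨j, hj⟩ := hn.2
    have := cc_pos (i + 2)
    change cc (i + 2) ≤ 0 at hj
    linarith
  · intro V hV
    obtain ⟨ε, hε, hV⟩ := Metric.mem_nhds_iff.1 hV
    obtain ⟨L, hL⟩ := exists_level hε
    refine ⟨L, fun n hn x hx => hV ?_⟩
    set y := (φ ^ n)⁻¹ x with hy
    have ey : x = (φ ^ n) y := by rw [hy]; simp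
    rw [mem_ball, Subtype.dist_eq, dist_pi_lt_iff hε]
    intro j
    have e1 := hpow n y hx.1 j
    rw [← ey] at e1
    change dist (x.1 j) (0:ℝ) < ε
    rw [Real.dist_eq, sub_zero, e1, abs_of_nonneg (div_nonneg (y.2.1 j).1 (by positivity))]
    refine lt_of_le_of_lt ?_ (hL n hn)
    have h3 : (3:ℝ) ^ n ≤ 9 ^ n := pow_le_pow_left₀ (by norm_num) (by norm_num) n
    have h4 : y.1 j ≤ 1 := (y.2.1 j).2
    have h5 : (0:ℝ) < 3 ^ n := by positivity
    rw [one_div_pow]
    calc y.1 j / 9 ^ n ≤ 1 / 9 ^ n := by gcongr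
      _ ≤ 1 / 3 ^ n := by gcongr

lemma DD₀_subset (i : ℕ) : DD₀ k N i ⊆ {x | ∀ j, x.1 j ≤ cc i} := fun x hx j =>
  (hx.1 j).trans (cc_lt (by omega)).le

lemma DD₀_interior (hN : 1 ≤ N) (i : ℕ) : (interior (DD₀ k N i)).Nonempty := by
  have hc : ∀ j, Continuous fun x : mu k N => x.1 j := fun j =>
    (continuous_apply j).comp continuous_subtype_val
  have hm : (fun _ => (1:ℝ) / 3 ^ (i + 3) : Fin N → ℝ) ∈ mu k N :=
    (scale_mem (x := fun _ : Fin N => (1:ℝ)) (i + 3) fun _ => ⟨zero_le_one, le_rfl⟩).2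
      (const_mem_mu (nev_one 0) ⟨zero_le_one, le_rfl⟩)
  refine ⟨⟨_, hm⟩, mem_interior.2 ⟨{x | (∀ j, x.1 j < cc (i + 1)) ∧ ∃ j, cc (i + 2) < x.1 j},
    fun x hx => ⟨fun j => (hx.1 j).le, hx.2.imp fun j h => h.le⟩, ?_, fun j => ?_,
    ⟨0, hN⟩, ?_⟩⟩
  · refine IsOpen.inter ?_ ?_
    · have : {x : mu k N | ∀ j, x.1 j < cc (i + 1)} = ⋂ j, {x | x.1 j < cc (i + 1)} := by
        ext x; simp
      change IsOpen {x : mu k N | ∀ j, x.1 j < cc (i + 1)}
      rw [this]
      exact isOpen_iInter_of_finite fun j => isOpen_lt (hc j) continuous_const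
    · have : {x : mu k N | ∃ j, cc (i + 2) < x.1 j} = ⋃ j, {x | cc (i + 2) < x.1 j} := by
        ext x; simp
      change IsOpen {x : mu k N | ∃ j, cc (i + 2) < x.1 j}
      rw [this]
      exact isOpen_iUnion fun j => isOpen_lt continuous_const (hc j)
  · change (1:ℝ) / 3 ^ (i + 3) < cc (i + 1)
    unfold cc
    rw [pow_add, pow_add, one_div_pow]
    have : (0:ℝ) < 3 ^ i := by positivity
    rw [div_lt_iff₀ (by positivity)]
    field_simp
    norm_num
  · change cc (i + 2) < (1:ℝ) / 3 ^ (i + 3)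
    unfold cc
    rw [pow_add, pow_add, one_div_pow]
    have : (0:ℝ) < 3 ^ i := by positivity
    rw [lt_div_iff₀ (by positivity)]
    field_simp
    norm_num

end

end MG
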