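import Pool.Agent.Work.MP_017613_gt.DigC
import Pool.Agent.Work.MP_017613_gt.DigB
import Pool.Agent.Work.MP_017613_gt.Cub

/-!
# Maps of a compact space of dimension at most `k` to the `k`-skeleton of a fine grid
-/

open Set Topology Metric
open Pool.Agent.Work.MP_017613_gt

namespace MG

variable {M : Type*} [MetricSpace M] [CompactSpace M]

/-- a map to a cube with small fibres -/
private theorem exists_q0 {r : ℝ} (hr : 0 < r) : ∃ (N : ℕ) (η : ℝ) (q : M → Fin N → ℝ), 0 < η ∧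
    Continuous q ∧ (∀ x i, q x i ∈ Icc (0:ℝ) 1) ∧ ∀ x y, dist (q x) (q y) < η → dist x y < r := by
  have hr0 : 0 < min r 1 := lt_min hr one_pos
  obtain ⟨t, -, ht, hcov⟩ := (isCompact_univ (X := M)).finite_cover_balls
    (show 0 < min r 1 / 4 by positivity)
  obtain ⟨t, rfl⟩ := ht.exists_finset_coe
  refine ⟨t.card, min r 1 / 2, fun x i => min (dist x (t.equivFin.symm i : M)) 1, by positivity,
    ?_, ?_, ?_⟩
  · fun_prop
  · intro x i
    exact ⟨le_min dist_nonneg zero_le_one, min_le_right _ _⟩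
  · intro x y hxy
    by_contra hc
    push Not at hc
    have hx := hcov (mem_univ x)
    simp only [mem_iUnion, exists_prop, mem_ball, Finset.mem_coe] at hx
    obtain ⟨p, hp, hxp⟩ := hx
    have h1 := (dist_le_pi_dist _ _ (t.equivFin ⟨p, hp⟩)).trans_lt hxy
    simp only [Equiv.symm_apply_apply] at h1
    have h2 : dist x y ≤ dist x p + dist y p := dist_triangle_right _ _ _
    have h3 : min r 1 ≤ r := min_le_left _ _
    have h4 : min r 1 ≤ 1 := min_le_right _ _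
    rw [min_eq_left (by linarith : dist x p ≤ 1), Real.dist_eq, abs_lt] at h1
    have h5 : min r 1 * (3 / 4) ≤ min (dist y p) 1 := le_min (by linarith) (by linarith)
    linarith [h1.1]

/-- **A map to the `k`-skeleton of a fine grid with small preimages.** -/
theorem exists_q {k : ℕ} (hk : PushOff k (univ : Set M)) {r : ℝ} (hr : 0 < r) :
    ∃ (N m : ℕ) (q : M → Fin N → ℝ), 0 < m ∧ Continuous q ∧ (∀ x, dm (car m (q x)) ≤ k) ∧
      ∀ x y, dist (q x) (q y) ≤ 3 / m → dist x y < r := by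
  obtain ⟨N, η, q₀, hη, c₀, h01, hq₀⟩ := exists_q0 (M := M) hr
  obtain ⟨l, hl⟩ : ∃ l : ℕ, ((1:ℝ) / 3) ^ l < η / 5 :=
    exists_pow_lt_of_lt_one (by positivity) (by norm_num)
  obtain ⟨q₁, c₁, s₁, n₁, -⟩ := push_level isCompact_univ hk l c₀.continuousOn
  have hc₁ : Continuous q₁ := continuousOn_univ.1 c₁
  have hI : ∀ x i, q₁ x i ∈ Icc (0:ℝ) 1 := fun x i => (s₁ x (mem_univ x) i).mem_Icc (h01 x i)
  have hd₁ : ∀ x, dist (q₁ x) (q₀ x) ≤ (1 / 3) ^ l := by
    intro x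
    rw [dist_pi_le_iff (by positivity)]
    intro i
    rw [Real.dist_eq]
    exact (s₁ x (mem_univ x) i).abs_le
  have hd₂ : ∀ x, dist (fun i => rr l (l + 2) (q₁ x i)) (q₁ x) ≤ (1 / 3) ^ l := by
    intro x
    rw [dist_pi_le_iff (by positivity)]
    intro i
    rw [Real.dist_eq]
    exact (rr_spec le_rfl (hI x i)).2.1
  refine ⟨N, 3 ^ (l + 2), fun x i => rr l (l + 2) (q₁ x i), by positivity, ?_, ?_, ?_⟩
  · exact continuous_pi fun i => (continuous_rr l _).comp ((continuous_apply i).comp hc₁)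
  · intro x
    refine le_trans ?_ (n₁ x (mem_univ x))
    unfold dm nb
    apply Finset.card_le_card
    intro i hi
    simp only [Finset.mem_filter, Finset.mem_univ, true_and] at hi ⊢
    by_contra hb
    obtain ⟨-, a, -, ha⟩ := ((rr_spec (le_refl (l + 2)) (hI x i)).2.2.2 hb).1
    unfold car at hi
    push_cast at hi
    rw [ha, Int.floor_intCast, Int.ceil_intCast] at hi
    rw [← Int.not_even_iff_odd] at hi
    exact hi ⟨a, rfl⟩
  · intro x y hxy
    apply hq₀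
    have e : (3:ℝ) / ((3 ^ (l + 2) : ℕ) : ℝ) ≤ (1 / 3) ^ l := by
      push_cast
      rw [pow_add, one_div, inv_pow, ← one_div, div_le_div_iff₀ (by positivity) (by positivity)]
      have : (0:ℝ) < 3 ^ l := by positivity
      nlinarith
    have h1 := hd₁ x
    have h2 := hd₁ y
    have h3 := hd₂ x
    have h4 := hd₂ y
    have h5 := dist_triangle4 (q₀ x) (q₁ x) (q₁ y) (q₀ y)
    have h6 := dist_triangle4 (q₁ x) (fun i => rr l (l + 2) (q₁ x i))
      (fun i => rr l (l + 2) (q₁ y i)) (q₁ y)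
    rw [dist_comm (q₀ x) (q₁ x)] at h5
    rw [dist_comm (q₁ x) (fun i => rr l (l + 2) (q₁ x i))] at h6
    have h7 : dist (fun i => rr l (l + 2) (q₁ x i)) (fun i => rr l (l + 2) (q₁ y i)) ≤
      3 / ((3 ^ (l + 2) : ℕ) : ℝ) := hxy
    linarith

/-- finitely many carriers of a bounded set -/
private theorem finite_car_of_bdd {N : ℕ} (m : ℕ) {P : Set (Fin N → ℝ)} (hP : Bornology.IsBounded P) :
    (car m '' P).Finite := by
  obtain ⟨B, hB⟩ := hP.exists_norm_le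
  have hB0 : ∀ x ∈ P, ∀ i, |x i| ≤ B := fun x hx i => (norm_le_pi_norm x i).trans (hB x hx)
  obtain ⟨C, hC⟩ := exists_nat_ge ((m:ℝ) * |B| + 1)
  apply (Set.finite_Icc (fun _ : Fin N => (-2 * (C:ℤ))) (fun _ : Fin N => (2 * (C:ℤ)))).subset
  rintro _ ⟨x, hx, rfl⟩
  have key : ∀ i, -(C:ℝ) + 1 ≤ m * x i ∧ m * x i ≤ C - 1 := by
    intro i
    have h1 : |(m:ℝ) * x i| ≤ m * |B| := by
      rw [abs_mul, Nat.abs_cast]
      exact mul_le_mul_of_nonneg_left ((hB0 x hx i).trans (le_abs_self B)) (Nat.cast_nonneg m)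
    have := abs_le.1 h1
    constructor <;> linarith
  constructor
  · intro i
    have h := key i
    have h1 : (-(C:ℤ)) ≤ ⌊(m:ℝ) * x i⌋ := by
      rw [Int.le_floor]; push_cast; linarith
    have h2 : (-(C:ℤ)) ≤ ⌈(m:ℝ) * x i⌉ := h1.trans (Int.floor_le_ceil _)
    show -2 * (C:ℤ) ≤ ⌊(m:ℝ) * x i⌋ + ⌈(m:ℝ) * x i⌉
    linarith
  · intro i
    have h := key i
    have h1 : ⌈(m:ℝ) * x i⌉ ≤ (C:ℤ) := by
      rw [Int.ceil_le]; push_cast; linarith
    have h2 : ⌊(m:ℝ) * x i⌋ ≤ (C:ℤ) := (Int.floor_le_ceil _).trans h1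
    show ⌊(m:ℝ) * x i⌋ + ⌈(m:ℝ) * x i⌉ ≤ 2 * (C:ℤ)
    linarith

/-- the union of the carriers of a bounded set -/
def cars {N : ℕ} (m : ℕ) (Q : Set (Fin N → ℝ)) : Set (Fin N → ℝ) := ⋃ w ∈ car m '' Q, cube m w

theorem isCub_cars {N m : ℕ} (hm : 0 < m) {Q : Set (Fin N → ℝ)} (hQ : Bornology.IsBounded Q) :
    IsCub m (cars m Q) := isCub_biUnion hm (finite_car_of_bdd m hQ)

theorem mem_cars {N m : ℕ} {Q : Set (Fin N → ℝ)} {p : Fin N → ℝ} :
    p ∈ cars m Q ↔ ∃ x ∈ Q, p ∈ cube m (car m x) := by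
  unfold cars
  simp only [mem_iUnion, exists_prop, mem_image]
  constructor
  · rintro ⟨_, ⟨x, hx, rfl⟩, hp⟩
    exact ⟨x, hx, hp⟩
  · rintro ⟨x, hx, hp⟩
    exact ⟨_, ⟨x, hx, rfl⟩, hp⟩

theorem subset_cars {N : ℕ} (m : ℕ) (Q : Set (Fin N → ℝ)) : Q ⊆ cars m Q := fun x hx =>
  mem_cars.2 ⟨x, hx, mem_cube_car m x⟩

theorem cars_mono {N m : ℕ} {Q Q' : Set (Fin N → ℝ)} (h : Q ⊆ Q') : cars m Q ⊆ cars m Q' := by
  intro p hp
  obtain ⟨x, hx, hp⟩ := mem_cars.1 hp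
  exact mem_cars.2 ⟨x, h hx, hp⟩

end MG
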