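import Pool.Agent.Work.MP_017613_gt.T6
import Pool.Agent.Work.MP_017613_gt.Kit.Defs

/-!
Toolkit (T6) for the set versions of `Kit/Defs.lean`.
-/

open Set Topology Metric

namespace Pool.Agent.Work.MP_017613_gt.T6

variable {α : Type*} [MetricSpace α]

lemma Bd_eq (j : ℕ) : Bd j = MG.dCu j := rfl

lemma Cb_eq (j : ℕ) : Cb j = MG.Cu j := rfl

theorem UL.kit {R : Set α} (h : UL R) (k : ℕ) : MG.ULC k R := by
  intro ε hε
  obtain ⟨δ, hδ, H⟩ := h ε hε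
  refine ⟨δ, hδ, fun j _ y hy a ha hay => ?_⟩
  rcases Nat.eq_zero_or_pos j with rfl | hj
  · exact ⟨fun _ => y, MG.IsMap.const hy, fun x hx => by rw [MG.dCu_zero] at hx; exact hx.elim,
      fun x _ => by simpa using hε⟩
  · obtain ⟨A, h1, h2, h3⟩ := H j hj y hy a ha.cont (fun x hx => ha.maps hx) hay
    exact ⟨A, ⟨h1, fun x hx => (h3 x hx).1⟩, h2, fun x hx => (h3 x hx).2⟩

theorem CN.kit {k : ℕ} {R : Set α} (h : CN k R) : MG.Conn k R := by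
  intro j hjk f hf
  rcases Nat.eq_zero_or_pos j with rfl | hj
  · obtain ⟨p, hp⟩ := h.1
    exact ⟨fun _ => p, MG.IsMap.const hp, fun x hx => by rw [MG.dCu_zero] at hx; exact hx.elim⟩
  · obtain ⟨A, h1, h2, h3⟩ := h.2 j hj hjk f hf.cont fun x hx => hf.maps hx
    exact ⟨A, ⟨h1, fun x hx => h3 x hx⟩, h2⟩

theorem kit_conn_Cu (k j : ℕ) : MG.Conn k (MG.Cu j) := (cn_Cb k j).kit

theorem kit_ulc_Cu (k j : ℕ) : MG.ULC k (MG.Cu j) := (ul_Cb j).kit k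

theorem kit_conn_dCu {k n : ℕ} (h : k < n) : MG.Conn k (MG.dCu n) := by
  obtain ⟨m, rfl⟩ : ∃ m, n = m + 1 := ⟨n - 1, by omega⟩
  exact ((cn_Bd m).mono (by omega)).kit

theorem kit_ulc_dCu (k n : ℕ) : MG.ULC k (MG.dCu n) := (ul_Bd n).kit k

theorem kit_conn_Jn (k : ℕ) {n : ℕ} (i₀ : Fin n) : MG.Conn k (Jn i₀) := (cn_Jn i₀ k).kit

theorem kit_ulc_Jn (k : ℕ) {n : ℕ} (i₀ : Fin n) : MG.ULC k (Jn i₀) := (ul_Jn i₀).kit k

end Pool.Agent.Work.MP_017613_gt.T6
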