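import Pool.Agent.Work.MP_017613_gt.TheoryOf
import Pool.Agent.Work.MP_017613_gt.LocB
import Pool.Agent.Work.MP_017613_gt.DigP
import Pool.Agent.Work.MP_017613_gt.DigQ
import Pool.Agent.Work.MP_017613_gt.Kit.UlcLayer

/-!
# EX-a: filling a map of a Z-set by a soft map of the Menger compactum

`exists_fill`: `A` compact of dimension `≤ k`, `X` compact, `ANE k`, absolute extensor in
dimension `≤ k`; every map `a : A → X` is `b ∘ β` for a Z-embedding `β : A → B` into a copy `B` of
the Menger compactum and a soft map `b : B → X`. `exa`: the case `X = Cu d`. `exists_fill_set`,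
`exa_set`: the same for sets.
-/

set_option linter.unusedSectionVars false

open Set Topology Metric

namespace Pool.Agent.Work.MP_017613_gt

namespace Exx

open Chi Rnd MG

/-- the Menger compactum in the digit model is a Menger space -/
theorem men_mu {k N : ℕ} (hN : 2 * k + 1 ≤ N) : Men k (mu k N) :=
  ⟨pushOff_mu_univ k N, ulc_iff.mpr (ulc_mu k N), DD.zd (dd_mu hN)⟩

theorem menC_mu {k N : ℕ} (hN : 2 * k + 1 ≤ N) : MenC k (mu k N) :=
  ⟨inferInstance, men_mu hN⟩

/-- the Menger compactum is an absolute extensor in dimension `≤ k` -/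
theorem aek_mu (k N : ℕ) : AEk k (univ : Set (mu k N)) := by
  refine ⟨univ_nonempty, ?_⟩
  intro γ _ P A hP f₀ hc hm
  obtain ⟨F, cF, mF, eF⟩ := ae_mu hP.cP hP.dP hP.cA hP.sub (a := fun x => (f₀ x : Fin N → ℝ))
    (continuous_subtype_val.comp_continuousOn hc) (fun x _ => (f₀ x).2)
  classical
  let F' : γ → mu k N := fun x => if h : F x ∈ mu k N then ⟨F x, h⟩ else f₀ x
  have h1 : ∀ x ∈ P, (F' x : Fin N → ℝ) = F x := fun x hx => by
    simp only [F', dif_pos (mF hx)]
  refine ⟨F', ?_, fun _ _ => mem_univ _, fun x hx => Subtype.ext ?_⟩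
  · rw [IsInducing.subtypeVal.continuousOn_iff]
    exact cF.congr h1
  · rw [h1 x (hP.sub hx)]
    exact eF hx

/-- the cube is an absolute extensor -/
theorem aek_Cu (k d : ℕ) : AEk k (Cu d) := by
  refine ⟨Cu_nonempty d, ?_⟩
  intro γ _ P A hP f₀ hc hm
  obtain ⟨G, cG, eG⟩ := Pool.Agent.Work.MP_017613_gt.tietze hP.cA hc
  refine ⟨fun x i => max 0 (min 1 (G x i)), ?_, fun x _ => ?_, fun x hx => ?_⟩
  · exact (continuous_pi fun i => continuous_const.max
      (continuous_const.min ((continuous_apply i).comp cG))).continuousOn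
  · rw [mem_Cu]
    intro i
    exact ⟨le_max_left _ _, max_le zero_le_one (min_le_left _ _)⟩
  · funext i
    have h := mem_Cu.1 (hm hx) i
    show max 0 (min 1 (G x i)) = f₀ x i
    rw [eG hx, min_eq_right h.2, max_eq_right h.1]

theorem ane_Cu (k d : ℕ) : ANE k (Cu d) :=
  MG.ane_of_ulc (isCompact_Cu d) (T6.kit_ulc_Cu k d)

theorem ane_pt {k : ℕ} {β : Type} [MetricSpace β] (b : β) : ANE k ({b} : Set β) := by
  intro ε hε
  refine ⟨1, one_pos, fun γ _ P A _ h hh _ b' _ hb' _ => ⟨fun _ => b, continuousOn_const,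
    fun _ _ => rfl, fun x hx => ?_, fun x hx => ?_⟩⟩
  · have : b' x = b := hb' hx
    rw [this]
  · have : h x = b := hh hx
    rw [this, dist_self]
    exact hε

/-- **EX-a, general form.** -/
theorem exists_fill {k : ℕ} (hS : SRelP k (MenC k)) {β : Type} [MetricSpace β] {X : Set β}
    (cX : IsCompact X) (aX : ANE k X) (eX : AEk k X) {A : Type} [MetricSpace A] [CompactSpace A]
    (hA : PushOff k (univ : Set A)) {a : A → β} (ca : Continuous a) (ma : ∀ x, a x ∈ X) :
    ∃ (j : A → mu k (2 * k + 1)) (b : mu k (2 * k + 1) → β), Continuous j ∧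
      Function.Injective j ∧ ZS (range j) ∧ Soft k univ X b ∧ ∀ x, b (j x) = a x := by
  classical
  have hB : MenC k (mu k (2 * k + 1)) := menC_mu le_rfl
  have aB := men_ane hB.2
  -- a Z-embedding
  obtain ⟨i, -, -, ii, zi, -⟩ := gp (P := A) aB hB.2.2.2 hA isClosed_empty
    (ContinuousMap.const A (Classical.arbitrary (mu k (2 * k + 1)))) (injOn_empty _)
    (by rw [image_empty]; exact ZS.empty) ZS.empty one_pos
  let e : A ≃ₜ range i := (i.continuous.isClosedEmbedding ii).isEmbedding.toHomeomorph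
  have he : ∀ x, (e x).1 = i x := fun x => rfl
  obtain ⟨x₀, hx₀⟩ := eX.1
  let w₀ : mu k (2 * k + 1) → β := fun y => if hy : y ∈ range i then a (e.symm ⟨y, hy⟩) else x₀
  have hw₀ : ∀ y : range i, w₀ y = a (e.symm y) := fun y => dif_pos y.2
  have hw₁ : ∀ x, w₀ (i x) = a x := fun x => by
    have h1 := hw₀ (e x)
    rw [he, Homeomorph.symm_apply_apply] at h1
    exact h1
  have c₀ : ContinuousOn w₀ (range i) := by
    rw [continuousOn_iff_continuous_domRestrict]
    exact (ca.comp e.symm.continuous).congr fun y => (hw₀ y).symm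
  -- S_REL over a point
  obtain ⟨δ, hδ, h⟩ := hS β ℝ X {0} cX isCompact_singleton aX
    (ane_pt 0) 1 one_pos
  obtain ⟨w, sw, ew, -⟩ := h (fun _ => 0) (soft_const eX 0) (mu k (2 * k + 1)) hB (fun _ => 0)
    (soft_const (aek_mu k _) 0) (range i) zi w₀ c₀ (by
      rintro _ ⟨x, rfl⟩
      rw [hw₁]
      exact ma x) (fun x _ => by rw [dist_self]; exact hδ)
  exact ⟨i, w, i.continuous, ii, zi, sw, fun x => by rw [ew (mem_range_self x), hw₁]⟩

/-- **EX-a.** -/
theorem exa {k : ℕ} (hS : SRelP k (MenC k)) (d : ℕ) {A : Type} [MetricSpace A] [CompactSpace A]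
    (hA : PushOff k (univ : Set A)) {a : A → (Fin d → ℝ)} (ca : Continuous a)
    (ma : ∀ x, a x ∈ Cu d) :
    ∃ (j : A → mu k (2 * k + 1)) (b : mu k (2 * k + 1) → (Fin d → ℝ)), Continuous j ∧
      Function.Injective j ∧ ZS (range j) ∧ Soft k univ (Cu d) b ∧ ∀ x, b (j x) = a x :=
  exists_fill hS (isCompact_Cu d) (ane_Cu k d) (aek_Cu k d) hA ca ma

/-- **EX-a, general form, for sets.** -/
theorem exists_fill_set {k : ℕ} (hS : SRelP k (MenC k)) {β : Type} [MetricSpace β] {X : Set β}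
    (cX : IsCompact X) (aX : ANE k X) (eX : AEk k X) {α : Type} [MetricSpace α] {A : Set α}
    (cA : IsCompact A) (hA : PushOff k A) {a : α → β} (ca : ContinuousOn a A)
    (ma : MapsTo a A X) :
    ∃ (j : α → mu k (2 * k + 1)) (b : mu k (2 * k + 1) → β), Hom A (j '' A) j ∧
      ZIn (j '' A) univ ∧ Soft k univ X b ∧ ∀ x ∈ A, b (j x) = a x := by
  classical
  have := isCompact_iff_compactSpace.1 cA
  obtain ⟨j, b, cj, ij, zj, sb, hb⟩ := exists_fill hS cX aX eX (A := A) (pushOff_subtype hA)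
    (a := fun x => a x) (continuousOn_iff_continuous_domRestrict.1 ca) (fun x => ma x.2)
  let j' : α → mu k (2 * k + 1) := fun x =>
    if h : x ∈ A then j ⟨x, h⟩ else Classical.arbitrary _
  have h1 : ∀ x : A, j' x = j x := fun x => dif_pos x.2
  have h2 : j' '' A = range j := by
    ext y
    constructor
    · rintro ⟨x, hx, rfl⟩
      exact ⟨⟨x, hx⟩, (h1 ⟨x, hx⟩).symm⟩
    · rintro ⟨x, rfl⟩
      exact ⟨x, x.2, h1 x⟩
  refine ⟨j', b, ⟨?_, ?_, rfl⟩, ?_, sb, fun x hx => ?_⟩
  · rw [continuousOn_iff_continuous_domRestrict]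
    exact cj.congr fun x => (h1 x).symm
  · intro x hx y hy hxy
    have h3 : j ⟨x, hx⟩ = j ⟨y, hy⟩ := by rw [← h1 ⟨x, hx⟩, ← h1 ⟨y, hy⟩]; exact hxy
    exact congrArg Subtype.val (ij h3)
  · rw [h2, zin_univ]
    exact zj
  · have h3 := hb ⟨x, hx⟩
    rw [← h1 ⟨x, hx⟩] at h3
    exact h3

/-- **EX-a for sets.** -/
theorem exa_set {k : ℕ} (hS : SRelP k (MenC k)) (d : ℕ) {α : Type} [MetricSpace α] {A : Set α}
    (cA : IsCompact A) (hA : PushOff k A) {a : α → (Fin d → ℝ)} (ca : ContinuousOn a A)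
    (ma : MapsTo a A (Cu d)) :
    ∃ (j : α → mu k (2 * k + 1)) (b : mu k (2 * k + 1) → (Fin d → ℝ)), Hom A (j '' A) j ∧
      ZIn (j '' A) univ ∧ Soft k univ (Cu d) b ∧ ∀ x ∈ A, b (j x) = a x :=
  exists_fill_set hS (isCompact_Cu d) (ane_Cu k d) (aek_Cu k d) cA hA ca ma

end Exx

end Pool.Agent.Work.MP_017613_gt
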