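import Pool.Agent.Work.MP_017613_gt.RndC
import Pool.Agent.Work.MP_017613_gt.Gp

/-!
# Block 8.1: extension of homeomorphisms, collars, small balls

* `Pre k`: the inputs (T_REL, S_REL, existence of collars, the model).
* `Pre.trelS`: T_REL for sets; `Pre.ext_homeo`: T_REL over a point.
* `Pre.collar_type`: a collar of a Z-set, inside the space.
* `Pre.small_ball`: small balls, relative to a Z-set.
-/

set_option linter.unusedSectionVars false

open Set Topology Metric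

namespace Pool.Agent.Work.MP_017613_gt

namespace Rnd

open Chi

/-- the inputs of block 8.1 -/
structure Pre (k : ℕ) : Prop where
  trel : ∀ (β : Type) [MetricSpace β] (X : Set β), IsCompact X → ANE k X → ∀ ε > 0, ∃ δ > 0,
    ∀ (N N' : Type) [MetricSpace N] [CompactSpace N] [MetricSpace N'] [CompactSpace N'],
    Men k N → Men k N' → ∀ (l : N → β) (l' : N' → β), Soft k univ X l → Soft k univ X l' →
    ∀ (W : Set N) (W' : Set N'), ZS W → ZS W' → ∀ g : W ≃ₜ W',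
    (∀ x : W, dist (l' (g x)) (l x) < δ) →
    ∃ θ : N ≃ₜ N', (∀ x : W, θ x = g x) ∧ ∀ x, dist (l' (θ x)) (l x) < ε
  srel : ∀ (β β' : Type) [MetricSpace β] [MetricSpace β'] (X : Set β) (B : Set β'),
    IsCompact X → IsCompact B → ANE k X → ANE k B → ∀ ε > 0, ∃ δ > 0, ∀ p : β → β', Soft k X B p →
    ∀ (N : Type) [MetricSpace N] [CompactSpace N], Men k N → ∀ u : N → β', Soft k univ B u →
    ∀ W : Set N, ZS W → ∀ w₀ : N → β, ContinuousOn w₀ W → MapsTo w₀ W X →
    (∀ x ∈ W, dist (p (w₀ x)) (u x) < δ) →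
    ∃ w : N → β, Soft k univ X w ∧ EqOn w w₀ W ∧ ∀ x, dist (p (w x)) (u x) < ε
  collar : ∀ (M : Type) [MetricSpace M] [CompactSpace M], Men k M →
    ∃ (N : Type) (_ : MetricSpace N) (_ : CompactSpace N) (i : M → N) (r : N → M),
      Men k N ∧ Continuous i ∧ ZS (range i) ∧ Soft k univ univ r ∧ ∀ x, r (i x) = x
  mu : ∃ (Y : Type) (_ : MetricSpace Y) (_ : CompactSpace Y), Men k Y ∧ AEk k (univ : Set Y)

variable {k : ℕ} (T : Pre k)

/-! ## T_REL for sets -/

section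

variable {α α' β : Type} [MetricSpace α] [MetricSpace α'] [MetricSpace β]

theorem soft_sub {P : Set α} (hne : P.Nonempty) {X : Set β} {l : α → β} (h : Soft k P X l) :
    Soft k (univ : Set P) X (fun x => l x) := by
  obtain ⟨φ, hφ, hφ'⟩ := exists_toSubtype hne
  exact h.precomp (e := (Subtype.val : P → α)) (e' := φ) continuous_subtype_val.continuousOn
    (fun x _ => x.2) hφ.cont (fun _ _ => trivial) (fun x _ => hφ' x) fun x hx => by
      rw [hφ' ⟨x, hx⟩]

/-- the homeomorphism of nested subtypes -/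
theorem Hom.exists_nested_homeo {P W : Set α} {P' W' : Set α'} (hW : W ⊆ P) (hW' : W' ⊆ P')
    (cW : IsCompact W) {g : α → α'} (hg : Hom W W' g) :
    ∃ θ : ((↑) ⁻¹' W : Set P) ≃ₜ ((↑) ⁻¹' W' : Set P'), ∀ x, (θ x : α') = g x.1.1 := by
  obtain ⟨θ₁, h1⟩ := exists_nested hW
  obtain ⟨θ₂, h2⟩ := exists_nested hW'
  obtain ⟨θ, h⟩ := hg.exists_homeo cW
  refine ⟨(θ₁.trans θ).trans θ₂.symm, fun x => ?_⟩
  have h3 := h2 (θ₂.symm (θ (θ₁ x)))
  rw [θ₂.apply_symm_apply, h, h1] at h3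
  exact h3.symm

include T in
/-- T_REL for sets -/
theorem Pre.trelS {X : Set β} (cX : IsCompact X) (aX : ANE k X) {ε : ℝ} (hε : 0 < ε) :
    ∃ δ > 0, ∀ (α α' : Type) [MetricSpace α] [MetricSpace α'] (P : Set α) (P' : Set α'),
      MenS k P → MenS k P' → ∀ (l : α → β) (l' : α' → β), Soft k P X l → Soft k P' X l' →
      ∀ (W : Set α) (W' : Set α'), ZIn W P → ZIn W' P' → ∀ g : α → α', Hom W W' g →
      (∀ x ∈ W, dist (l' (g x)) (l x) < δ) →
      ∃ f : α → α', Hom P P' f ∧ EqOn f g W ∧ ∀ x ∈ P, dist (l' (f x)) (l x) < ε := by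
  obtain ⟨δ, hδ, h⟩ := T.trel β X cX aX ε hε
  refine ⟨δ, hδ, fun α α' _ _ P P' mP mP' l l' sl sl' W W' zW zW' g hg hd => ?_⟩
  have : CompactSpace P := isCompact_iff_compactSpace.1 mP.cpt
  have : CompactSpace P' := isCompact_iff_compactSpace.1 mP'.cpt
  have cW : IsCompact W := mP.cpt.of_isClosed_subset zW.1 zW.2.1
  obtain ⟨γ, hγ⟩ := Hom.exists_nested_homeo zW.2.1 zW'.2.1 cW hg
  obtain ⟨θ, h1, h2⟩ := h P P' mP.men mP'.men (fun x => l x) (fun x => l' x)
    (soft_sub mP.ne sl) (soft_sub mP'.ne sl') _ _ zW.zs zW'.zs γ fun x => by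
      change dist (l' ((γ x).1 : α')) (l x.1.1) < δ
      rw [hγ]
      exact hd _ x.2
  obtain ⟨f, hf, hf'⟩ := exists_of_homeo θ ⟨mP'.ne.choose⟩
  refine ⟨f, hf, fun x hx => ?_, fun x hx => ?_⟩
  · have h3 := h1 ⟨⟨x, zW.2.1 hx⟩, hx⟩
    have h4 := hf' ⟨x, zW.2.1 hx⟩
    rw [h3, hγ] at h4
    exact h4
  · have h4 := hf' ⟨x, hx⟩
    change f x = _ at h4
    rw [h4]
    exact h2 ⟨x, hx⟩

theorem ane_point (b : β) : ANE k ({b} : Set β) := by
  intro ε hε
  refine ⟨1, one_pos, fun γ _ P A _ h hh _ b' _ hb' _ => ⟨fun _ => b, continuousOn_const,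
    fun _ _ => rfl, fun x hx => ?_, fun x hx => ?_⟩⟩
  · have : b' x = b := hb' hx
    rw [this]
  · have : h x = b := hh hx
    rw [this, dist_self]
    exact hε

include T in
/-- **T_REL over a point**: homeomorphisms of Z-sets extend -/
theorem Pre.ext_homeo {P : Set α} {P' : Set α'} (mP : MenS k P) (mP' : MenS k P') (aP : AEk k P)
    (aP' : AEk k P') {W : Set α} {W' : Set α'} (zW : ZIn W P) (zW' : ZIn W' P') {g : α → α'}
    (hg : Hom W W' g) : ∃ f : α → α', Hom P P' f ∧ EqOn f g W := by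
  obtain ⟨δ, hδ, h⟩ := T.trelS (β := PUnit) (X := {PUnit.unit}) isCompact_singleton
    (ane_point _) one_pos
  obtain ⟨f, h1, h2, -⟩ := h α α' P P' mP mP' (fun _ => PUnit.unit) (fun _ => PUnit.unit)
    (soft_const aP _) (soft_const aP' _) W W' zW zW' g hg fun x _ => by
      rw [dist_self]
      exact hδ
  exact ⟨f, h1, h2⟩

end

/-! ## Collars -/

section

variable {R B : Type} [MetricSpace R] [CompactSpace R] [MetricSpace B] [CompactSpace B]

/-- the inverse of an injective map, on the image -/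
theorem exists_left_inv {Y : Type} [MetricSpace Y] (mB : Men k B) {a : B → Y} (ca : Continuous a)
    (ia : Function.Injective a) : ∃ a' : Y → B, ContinuousOn a' (range a) ∧ ∀ z, a' (a z) = z := by
  obtain ⟨a', h1, h2, -⟩ := (hom_univ ca ia).exists_inv isCompact_univ mB.univ.ne
  exact ⟨a', h1.cont, fun z => h2 z trivial⟩

/-- pulling back an injective map by a homeomorphism -/
theorem hom_pull {D Y : Type} [MetricSpace D] [MetricSpace Y] (θ : R ≃ₜ D) {f : Y → D}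
    (cf : Continuous f) (hf : Function.Injective f) :
    Hom univ (θ ⁻¹' range f) (fun y => θ.symm (f y)) := by
  refine ⟨(θ.symm.continuous.comp cf).continuousOn, (θ.symm.injective.comp hf).injOn, ?_⟩
  ext x
  constructor
  · rintro ⟨y, -, rfl⟩
    change θ (θ.symm (f y)) ∈ range f
    rw [θ.apply_symm_apply]
    exact mem_range_self y
  · rintro ⟨y, hy⟩
    refine ⟨y, trivial, ?_⟩
    change θ.symm (f y) = x
    rw [hy, θ.symm_apply_apply]

include T in
/-- a soft map with two disjoint sections, which are Z-embeddings -/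
theorem Pre.collar2 (mB : Men k B) :
    ∃ (Y : Type) (_ : MetricSpace Y) (_ : CompactSpace Y) (a₀ a₁ : B → Y) (w : Y → B),
      Men k Y ∧ Continuous a₀ ∧ Continuous a₁ ∧ ZS (range a₀) ∧ ZS (range a₁) ∧
      Disjoint (range a₀) (range a₁) ∧ Soft k univ univ w ∧ (∀ z, w (a₀ z) = z) ∧
      ∀ z, w (a₁ z) = z := by
  classical
  obtain ⟨Y, mY, cY, i, r, hY, ci, zi, sr, hr⟩ := T.collar B mB
  have ii : Function.Injective i := fun x y e => by rw [← hr x, ← hr y, e]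
  have cr : Continuous r := continuousOn_univ.1 sr.1
  obtain ⟨δ, hδ, h⟩ := T.srel B B univ univ isCompact_univ isCompact_univ mB.ane mB.ane 1 one_pos
  obtain ⟨η, hη, hu⟩ := Metric.uniformContinuous_iff.1
    (CompactSpace.uniformContinuous_of_continuous cr) δ hδ
  obtain ⟨a₁, h1, -, h3, h4, h5⟩ := gp (P := B) (N := Y) hY.ane hY.dd.zd mB.dim (P₀ := ∅)
    isClosed_empty ⟨i, ci⟩ (injOn_empty _) (by rw [image_empty]; exact ZS.empty) zi hη
  obtain ⟨a', ca', ha'⟩ := exists_left_inv mB a₁.continuous h3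
  let w₀ : Y → B := fun y => if y ∈ range a₁ then a' y else r y
  have e1 : EqOn w₀ a' (range a₁) := fun y hy => if_pos hy
  have hdis : ∀ z, i z ∉ range a₁ := by
    rintro z ⟨x, hx⟩
    exact h5 x (notMem_empty x) ⟨z, hx.symm⟩
  have e2 : EqOn w₀ r (range i) := by
    rintro _ ⟨z, rfl⟩
    exact if_neg (hdis z)
  obtain ⟨w, sw, hw, -⟩ := h (fun x => x) (Soft.refl univ) Y hY r sr (range a₁ ∪ range i)
    (h4.union zi) w₀ ((ca'.congr e1).union_of_isClosed (cr.continuousOn.congr e2) h4.1 zi.1)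
    (fun _ _ => trivial) (by
      rintro y (⟨z, rfl⟩ | ⟨z, rfl⟩)
      · rw [e1 (mem_range_self z), ha']
        have h6 := hu (h1 z)
        change dist (r (a₁ z)) (r (i z)) < δ at h6
        rw [hr, dist_comm] at h6
        exact h6
      · rw [e2 (mem_range_self z), dist_self]
        exact hδ)
  refine ⟨Y, mY, cY, i, a₁, w, hY, ci, a₁.continuous, zi, h4, ?_, sw, fun z => ?_, fun z => ?_⟩
  · rw [disjoint_left]
    rintro _ ⟨z, rfl⟩ hz
    exact hdis z hz
  · rw [hw (Or.inr (mem_range_self z)), e2 (mem_range_self z), hr]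
  · rw [hw (Or.inl (mem_range_self z)), e1 (mem_range_self z), ha']

include T in
/-- **COLLAR** of a Z-set inside a Menger space -/
theorem Pre.collar_type (mR : Men k R) (mB : Men k B) {j : B → R} (cj : Continuous j)
    (ij : Function.Injective j) (zj : ZS (range j)) :
    ∃ C E : Set R, C ∪ E = univ ∧ MenS k C ∧ MenS k E ∧ MenS k (C ∩ E) ∧ ZIn (range j) C ∧
      ZIn (C ∩ E) C ∧ ZIn (C ∩ E) E ∧ Disjoint (range j) E ∧
      (AEk k (univ : Set B) → AEk k C ∧ AEk k (C ∩ E)) := by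
  obtain ⟨Y, mY, cY, a₀, a₁, w, hY, ca₀, ca₁, za₀, za₁, hd, sw, hw₀, hw₁⟩ := T.collar2 mB
  have ia₀ : Function.Injective a₀ := fun x y e => by rw [← hw₀ x, ← hw₀ y, e]
  have ia₁ : Function.Injective a₁ := fun x y e => by rw [← hw₁ x, ← hw₁ y, e]
  obtain ⟨D, mD, cD, J, χ, c, hD, cJ, iJ, cχ, iχ, hun, hmeet, sc, hcJ, hcχ, -, hZ⟩ :=
    attach mR hY mB cj ij zj ca₁ ia₁ za₁ sw hw₁
  obtain ⟨δ, hδ, h⟩ := T.trel R univ isCompact_univ mR.ane 1 one_pos
  -- the homeomorphism of the Z-sets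
  obtain ⟨g, hg⟩ : ∃ g : range j ≃ₜ (χ '' range a₀ : Set D),
      ∀ z, (g ⟨j z, mem_range_self z⟩ : D) = χ (a₀ z) := by
    obtain ⟨j', hj', h1, h2⟩ := (hom_univ cj ij).exists_inv isCompact_univ mB.univ.ne
    have h3 : Hom (range j) (χ '' range a₀) (fun x => χ (a₀ (j' x))) := by
      refine Hom.comp (P' := range a₀) ((hom_univ cχ iχ).sub (subset_univ _)) ?_
      exact Hom.comp (hom_univ ca₀ ia₀) hj'
    obtain ⟨θ, hθ⟩ := h3.exists_homeo zj.1.isCompact
    refine ⟨θ, fun z => ?_⟩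
    rw [hθ]
    change χ (a₀ (j' (j z))) = _
    rw [h1 z trivial]
  obtain ⟨θ, hθ, -⟩ := h R D mR hD (fun x => x) c (Soft.refl univ) sc (range j) (χ '' range a₀) zj
    (hZ _ za₀ hd) g (by
      rintro ⟨_, z, rfl⟩
      rw [hg, hcχ, hw₀, dist_self]
      exact hδ)
  have hθj : ∀ z, θ (j z) = χ (a₀ z) := fun z => by
    rw [← hg z]
    exact hθ ⟨j z, mem_range_self z⟩
  have HC : Hom univ (θ ⁻¹' range χ) (fun y => θ.symm (χ y)) := hom_pull θ cχ iχ
  have HE : Hom univ (θ ⁻¹' range J) (fun y => θ.symm (J y)) := hom_pull θ cJ iJ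
  have hJb : ∀ z, J (j z) = χ (a₁ z) := fun z => (hmeet _ _).2 ⟨z, rfl, rfl⟩
  have hCE : θ ⁻¹' range χ ∩ θ ⁻¹' range J = (fun y => θ.symm (χ y)) '' range a₁ := by
    ext x
    constructor
    · rintro ⟨⟨y, hy⟩, x', hx'⟩
      obtain ⟨z, -, h2⟩ := (hmeet x' y).1 (by rw [hx', hy])
      refine ⟨y, ⟨z, h2⟩, ?_⟩
      change θ.symm (χ y) = x
      rw [hy, θ.symm_apply_apply]
    · rintro ⟨_, ⟨z, rfl⟩, rfl⟩
      constructor
      · change θ (θ.symm (χ (a₁ z))) ∈ range χ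
        rw [θ.apply_symm_apply]
        exact mem_range_self _
      · change θ (θ.symm (χ (a₁ z))) ∈ range J
        rw [θ.apply_symm_apply, ← hJb]
        exact mem_range_self _
  have hCE' : θ ⁻¹' range χ ∩ θ ⁻¹' range J = (fun y => θ.symm (J y)) '' range j := by
    rw [hCE]
    ext x
    constructor
    · rintro ⟨_, ⟨z, rfl⟩, rfl⟩
      refine ⟨j z, ⟨z, rfl⟩, ?_⟩
      change θ.symm (J (j z)) = θ.symm (χ (a₁ z))
      rw [hJb]
    · rintro ⟨_, ⟨z, rfl⟩, rfl⟩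
      refine ⟨a₁ z, ⟨z, rfl⟩, ?_⟩
      change θ.symm (χ (a₁ z)) = θ.symm (J (j z))
      rw [hJb]
  have Ha₁ : Hom univ (range a₁) a₁ := hom_univ ca₁ ia₁
  have HCE : Hom univ (θ ⁻¹' range χ ∩ θ ⁻¹' range J) (fun z => θ.symm (χ (a₁ z))) := by
    rw [hCE]
    exact (HC.sub (subset_univ _)).comp Ha₁
  have hja : (fun y => θ.symm (χ y)) '' range a₀ = range j := by
    ext x
    constructor
    · rintro ⟨_, ⟨z, rfl⟩, rfl⟩
      refine ⟨z, ?_⟩
      change j z = θ.symm (χ (a₀ z))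
      rw [← hθj, θ.symm_apply_apply]
    · rintro ⟨z, rfl⟩
      refine ⟨a₀ z, ⟨z, rfl⟩, ?_⟩
      change θ.symm (χ (a₀ z)) = j z
      rw [← hθj, θ.symm_apply_apply]
  refine ⟨θ ⁻¹' range χ, θ ⁻¹' range J, ?_, hY.univ.image HC, mR.univ.image HE,
    mB.univ.image HCE, ?_, ?_, ?_, ?_, fun aB => ?_⟩
  · rw [← preimage_union, union_comm, hun, preimage_univ]
  · rw [← hja]
    exact ZIn.image HC isCompact_univ (zin_univ.2 za₀)
  · rw [hCE]
    exact ZIn.image HC isCompact_univ (zin_univ.2 za₁)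
  · rw [hCE']
    exact ZIn.image HE isCompact_univ (zin_univ.2 zj)
  · rw [disjoint_left]
    rintro _ ⟨z, rfl⟩ ⟨x, hx⟩
    rw [hθj] at hx
    obtain ⟨z', -, h2⟩ := (hmeet x (a₀ z)).1 hx
    exact disjoint_left.1 hd (mem_range_self z) ⟨z', h2⟩
  · have aY : AEk k (univ : Set Y) := AEk.of_soft sw aB hY.univ.ne
    exact ⟨aY.image HC isCompact_univ, aB.image HCE isCompact_univ⟩

/-- points are Z-sets -/
theorem zs_point (mR : Men k R) (x : R) : ZS ({x} : Set R) := by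
  refine ⟨isClosed_singleton, fun ε hε => ?_⟩
  obtain ⟨φ, ψ, h1, h2, h3⟩ := mR.dd ε hε
  by_cases hm : x ∈ range φ
  · obtain ⟨z, hz⟩ := hm
    exact ⟨ψ, h2, fun y hy => h3 z y (hz.trans hy.symm)⟩
  · exact ⟨φ, h1, fun y hy => hm ⟨y, hy⟩⟩

include T in
/-- **SMALL BALLS**, relative to a Z-set `W`: a small ball `D` with `x` in its interior, disjoint
from `W`, whose complement `E` is a copy of the space, rel `W`. -/
theorem Pre.small_ball (mR : Men k R) {W : Set R} (zW : ZS W) {x : R} (hx : x ∉ W) {ε : ℝ}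
    (hε : 0 < ε) :
    ∃ (D E : Set R) (h : R → R), D ∪ E = univ ∧ x ∉ E ∧ (∀ y ∈ D, dist y x < ε) ∧ Disjoint W D ∧
      MenS k D ∧ AEk k D ∧ MenS k (D ∩ E) ∧ AEk k (D ∩ E) ∧ ZIn (D ∩ E) D ∧ ZIn (D ∩ E) E ∧
      Hom univ E h ∧ EqOn h (fun y => y) W := by
  classical
  obtain ⟨Y₀, mY₀, cY₀, hY₀, aY₀⟩ := T.mu
  obtain ⟨Y, mY, cY, i, r, hY, ci, zi, sr, hr⟩ := T.collar Y₀ hY₀
  have ii : Function.Injective i := fun x y e => by rw [← hr x, ← hr y, e]
  have cr : Continuous r := continuousOn_univ.1 sr.1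
  obtain ⟨δ, hδ, h⟩ := T.trel R univ isCompact_univ mR.ane (ε / 2) (by positivity)
  -- the embedding of the model
  have zWx : ZS (W ∪ {x}) := zW.union (zs_point mR x)
  obtain ⟨j, h1, -, h3, h4, h5⟩ := gp (P := Y₀) (N := R) mR.ane mR.dd.zd hY₀.dim (P₀ := ∅)
    isClosed_empty (ContinuousMap.const Y₀ x) (injOn_empty _)
    (by rw [image_empty]; exact ZS.empty) zWx (ε := min δ (ε / 2)) (by positivity)
  obtain ⟨D, mD, cD, J, χ, c, hD, cJ, iJ, cχ, iχ, hun, hmeet, sc, hcJ, hcχ, hZR, hZY⟩ :=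
    attach mR hY hY₀ j.continuous h3 h4 ci ii zi sr hr
  -- a point off the collar's base
  obtain ⟨y₀, -, hy₀, -⟩ := (zin_univ.2 zi).exists_near (x := Classical.choice hY.ne) trivial
    one_pos
  have hWj : Disjoint W (range j) := by
    rw [disjoint_left]
    rintro _ hw ⟨z, rfl⟩
    exact h5 z (notMem_empty z) (Or.inl hw)
  have hyJ : χ y₀ ∉ range J := by
    rintro ⟨x', hx'⟩
    obtain ⟨z, -, h2⟩ := (hmeet x' y₀).1 hx'
    exact hy₀ ⟨z, h2⟩
  -- the homeomorphism of the Z-sets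
  let g₀ : R → D := fun y => if y = x then χ y₀ else J y
  have hg₀x : g₀ x = χ y₀ := if_pos rfl
  have hg₀W : ∀ y ∈ W, g₀ y = J y := fun y hy => if_neg (fun e : y = x => hx (e ▸ hy))
  have Hg : Hom (W ∪ {x}) (J '' W ∪ {χ y₀}) g₀ := by
    have hW1 : Hom W (J '' W) J := (hom_univ cJ iJ).sub (subset_univ _)
    have hx1 : Hom ({x} : Set R) {χ y₀} (fun _ => χ y₀) :=
      ⟨continuousOn_const, fun a ha b hb _ => by
        rw [mem_singleton_iff] at ha hb
        rw [ha, hb], by simp⟩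
    obtain ⟨F, hF, hF1, hF2⟩ := Hom.glue zW.1 isClosed_singleton hW1 hx1
      (fun y hy hyx => (hx (by rw [mem_singleton_iff] at hyx; rw [← hyx]; exact hy)).elim) (by
        rintro _ ⟨⟨y, -, rfl⟩, hy2⟩
        exact (hyJ ⟨y, hy2⟩).elim)
    refine hF.congr ?_
    rintro y (hy | hy)
    · rw [hg₀W y hy, hF1 hy]
    · rw [mem_singleton_iff] at hy
      subst hy
      rw [hg₀x, hF2 rfl]
  obtain ⟨g, hg⟩ := Hg.exists_homeo zWx.1.isCompact
  have zW' : ZS (J '' W ∪ {χ y₀}) := (hZR W zW hWj).union (zs_point hD _)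
  obtain ⟨θ, hθ, hθd⟩ := h R D mR hD (fun x => x) c (Soft.refl univ) sc _ _ zWx zW' g (by
    rintro ⟨y, hy⟩
    change dist (c (g ⟨y, hy⟩ : D)) y < δ
    rw [hg]
    change dist (c (g₀ y)) y < δ
    rcases hy with hy | hy
    · rw [hg₀W y hy, hcJ, dist_self]
      exact hδ
    · rw [mem_singleton_iff] at hy
      subst hy
      rw [hg₀x, hcχ]
      exact (h1 _).trans_le (min_le_left _ _))
  have hθx : θ x = χ y₀ := by
    have := hθ ⟨x, Or.inr rfl⟩
    rw [hg] at this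
    exact this.trans hg₀x
  have hθW : ∀ y ∈ W, θ y = J y := fun y hy => by
    have := hθ ⟨y, Or.inl hy⟩
    rw [hg] at this
    exact this.trans (hg₀W y hy)
  have HC : Hom univ (θ ⁻¹' range χ) (fun y => θ.symm (χ y)) := hom_pull θ cχ iχ
  have HE : Hom univ (θ ⁻¹' range J) (fun y => θ.symm (J y)) := hom_pull θ cJ iJ
  have hJb : ∀ z, J (j z) = χ (i z) := fun z => (hmeet _ _).2 ⟨z, rfl, rfl⟩
  have hCE : θ ⁻¹' range χ ∩ θ ⁻¹' range J = (fun y => θ.symm (χ y)) '' range i := by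
    ext x
    constructor
    · rintro ⟨⟨y, hy⟩, x', hx'⟩
      obtain ⟨z, -, h2⟩ := (hmeet x' y).1 (by rw [hx', hy])
      refine ⟨y, ⟨z, h2⟩, ?_⟩
      change θ.symm (χ y) = x
      rw [hy, θ.symm_apply_apply]
    · rintro ⟨_, ⟨z, rfl⟩, rfl⟩
      constructor
      · change θ (θ.symm (χ (i z))) ∈ range χ
        rw [θ.apply_symm_apply]
        exact mem_range_self _
      · change θ (θ.symm (χ (i z))) ∈ range J
        rw [θ.apply_symm_apply, ← hJb]
        exact mem_range_self _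
  have hCE' : θ ⁻¹' range χ ∩ θ ⁻¹' range J = (fun y => θ.symm (J y)) '' range j := by
    rw [hCE]
    ext x
    constructor
    · rintro ⟨_, ⟨z, rfl⟩, rfl⟩
      refine ⟨j z, ⟨z, rfl⟩, ?_⟩
      change θ.symm (J (j z)) = θ.symm (χ (i z))
      rw [hJb]
    · rintro ⟨_, ⟨z, rfl⟩, rfl⟩
      refine ⟨i z, ⟨z, rfl⟩, ?_⟩
      change θ.symm (χ (i z)) = θ.symm (J (j z))
      rw [hJb]
  have HCE : Hom univ (θ ⁻¹' range χ ∩ θ ⁻¹' range J) (fun z => θ.symm (χ (i z))) := by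
    rw [hCE]
    exact (HC.sub (subset_univ _)).comp (hom_univ ci ii)
  have aY : AEk k (univ : Set Y) := AEk.of_soft sr aY₀ hY.univ.ne
  refine ⟨θ ⁻¹' range χ, θ ⁻¹' range J, fun y => θ.symm (J y), ?_, ?_, ?_, ?_,
    hY.univ.image HC, aY.image HC isCompact_univ, hY₀.univ.image HCE,
    aY₀.image HCE isCompact_univ, ?_, ?_, HE, ?_⟩
  · rw [← preimage_union, union_comm, hun, preimage_univ]
  · intro hxE
    change θ x ∈ range J at hxE
    rw [hθx] at hxE
    exact hyJ hxE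
  · rintro y ⟨z, hz⟩
    have h6 := hθd y
    rw [← hz, hcχ] at h6
    have h7 : dist (j (r z)) x < ε / 2 := (h1 (r z)).trans_le (min_le_right _ _)
    have h8 := dist_triangle_left y x (j (r z))
    linarith
  · rw [disjoint_left]
    rintro y hy ⟨z, hz⟩
    rw [hθW y hy] at hz
    obtain ⟨z', h6, -⟩ := (hmeet y z).1 hz.symm
    exact disjoint_left.1 hWj hy ⟨z', h6⟩
  · rw [hCE]
    exact ZIn.image HC isCompact_univ (zin_univ.2 zi)
  · rw [hCE']
    exact ZIn.image HE isCompact_univ (zin_univ.2 h4)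
  · intro y hy
    change θ.symm (J y) = y
    rw [← hθW y hy, θ.symm_apply_apply]

end

end Rnd

end Pool.Agent.Work.MP_017613_gt
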