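import Pool.Agent.Work.MP_017613_gt.ExDefs
import Pool.Agent.Work.MP_017613_gt.RndD
import Pool.Agent.Work.MP_017613_gt.MenBridge
import Pool.Agent.Work.MP_017613_gt.T6Kit

/-!
# EX-a: a Menger manifold over the cube, extending a given one over the boundary
-/

set_option linter.unusedSectionVars false

open Set Topology Metric

namespace Pool.Agent.Work.MP_017613_gt

namespace Ex

/-- cubes are absolute extensors -/
theorem aek_Cu (k d : ℕ) : Rnd.AEk k (MG.Cu d) := by
  refine ⟨MG.Cu_nonempty d, ?_⟩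
  intro γ _ P A hP f₀ hc hm
  obtain ⟨H, hH, hHf⟩ := tietze hP.cA hc
  refine ⟨fun x i => max 0 (min 1 (H x i)), ?_, fun x _ => ?_, fun x hx => ?_⟩
  · refine Continuous.continuousOn (continuous_pi fun i => ?_)
    exact continuous_const.max (continuous_const.min ((continuous_apply i).comp hH))
  · exact MG.mem_Cu.2 fun i => ⟨le_max_left _ _, max_le zero_le_one (min_le_left _ _)⟩
  · funext i
    have h := MG.mem_Cu.1 (hm hx) i
    show max 0 (min 1 (H x i)) = f₀ x i
    rw [hHf hx, min_eq_right h.2, max_eq_right h.1]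

theorem ane_Cu (k d : ℕ) : Chi.ANE k (MG.Cu d) :=
  MG.ane_of_ulc (MG.isCompact_Cu d) (T6.kit_ulc_Cu k d)

lemma ane_unit (k : ℕ) : Chi.ANE k ({()} : Set Unit) := by
  intro ε hε
  refine ⟨1, one_pos, ?_⟩
  intro γ _ P A _ h hm _ c _ hc _
  exact ⟨fun _ => (), continuousOn_const, fun _ _ => rfl, fun x hx => rfl, fun x hx => by
    rw [dist_self]; exact hε⟩

/-- **EX-a** -/
theorem exA {k d : ℕ} (T : Rnd.Pre k) {A : Type} [MetricSpace A] [CompactSpace A]
    {a : A → (Fin d → ℝ)} (mA : Men k A) (sa : Chi.Soft k univ (MG.dCu d) a) :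
    ∃ (B : Type) (_ : MetricSpace B) (_ : CompactSpace B) (β : A → B) (b : B → (Fin d → ℝ)),
      Nonempty B ∧ Men k B ∧ Continuous β ∧ Function.Injective β ∧ ZS (range β) ∧
        Chi.Soft k univ (MG.Cu d) b ∧ ∀ y, b (β y) = a y := by
  classical
  obtain ⟨B, _, _, mB, aB⟩ := T.mu
  obtain ⟨b₀⟩ := mB.ne
  obtain ⟨β, -, -, h1, h2, -⟩ := gp mB.ane mB.dd.zd mA.1 isClosed_empty
    (ContinuousMap.const A b₀) (injOn_empty _) (by rw [image_empty]; exact ZS.empty) (B := ∅)
    ZS.empty one_pos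
  obtain ⟨δ, hδ, hS⟩ := T.srel (Fin d → ℝ) Unit (MG.Cu d) {()} (MG.isCompact_Cu d)
    isCompact_singleton (ane_Cu k d) (ane_unit k) 1 one_pos
  -- the map on the image of `β`
  obtain ⟨w₀, hc, hw⟩ : ∃ w₀ : B → (Fin d → ℝ), ContinuousOn w₀ (range β) ∧
      ∀ y, w₀ (β y) = a y := by
    rcases isEmpty_or_nonempty A with hA | hA
    · refine ⟨fun _ => 0, continuousOn_const, fun y => hA.elim y⟩
    · obtain ⟨g, hg, hgβ, -⟩ := Rnd.Hom.exists_inv (P := (univ : Set A)) (P' := range β) (f := β)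
        ⟨β.continuous.continuousOn, fun x _ y _ h => h1 h, image_univ⟩ isCompact_univ
        univ_nonempty
      exact ⟨fun y => a (g y), sa.1.comp hg.cont hg.maps, fun y => by
        show a (g (β y)) = a y
        rw [hgβ y trivial]⟩
  obtain ⟨b, hb, hbw, -⟩ := hS (fun _ => ()) (Rnd.soft_const (aek_Cu k d) ()) B mB (fun _ => ())
    (Rnd.soft_const aB ()) (range β) h2 w₀ hc (by
      rintro _ ⟨y, rfl⟩
      rw [hw]
      exact MG.dCu_subset d (sa.2.1 (mem_univ y))) (fun x _ => by rw [dist_self]; exact hδ)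
  exact ⟨B, inferInstance, inferInstance, β, b, mB.ne, (rnd_men_iff.1 mB).2, β.continuous, h1, h2, hb,
    fun y => by rw [hbw (mem_range_self y), hw]⟩

/-- **EX-a** -/
theorem j_EXA (T : ∀ k, 1 ≤ k → Rnd.Pre k) : J_EXA :=
  fun k _ hk _ _ _ _ _ mA _ sa => exA (T k hk) mA sa

end Ex

end Pool.Agent.Work.MP_017613_gt
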