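import Pool.Agent.Work.MP_017613_gt.ExDefs
import Pool.Agent.Work.MP_017613_gt.TheoryOf

/-!
# EX, part b

* `Lv m`: a discrete space with `m` points; `men_copies : Men k N → Men k (N × Lv m)`.
* `exb`: `l : D → K` soft, `p : X → K` soft, `g : P → X` a map of a compact space of dimension at
  most `k`: there is a Z-embedding `α : P → D` and a soft map `l' : D → X` with `l' α = g` and
  `p l'` close to `l`.
-/

set_option linter.unusedSectionVars false

open Set Topology Metric

namespace Pool.Agent.Work.MP_017613_gt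

namespace Ex

open Chi Loc

/-! ## Copies -/

/-- a discrete space with `m` points -/
def Lv (m : ℕ) : Type := {x : ℝ // ∃ i : Fin m, x = (i : ℕ)}

noncomputable instance (m : ℕ) : MetricSpace (Lv m) :=
  inferInstanceAs (MetricSpace {x : ℝ // ∃ i : Fin m, x = (i : ℕ)})

/-- the point with number `i` -/
def Lv.mk {m : ℕ} (i : Fin m) : Lv m := ⟨(i : ℕ), i, rfl⟩

/-- the number of a point -/
noncomputable def Lv.idx {m : ℕ} (x : Lv m) : Fin m := x.2.choose

@[simp] theorem Lv.mk_idx {m : ℕ} (x : Lv m) : Lv.mk x.idx = x :=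
  Subtype.ext x.2.choose_spec.symm

@[simp] theorem Lv.idx_mk {m : ℕ} (i : Fin m) : (Lv.mk i).idx = i := by
  have h : ((i : ℕ) : ℝ) = ((Lv.mk i).idx : ℕ) := (Lv.mk i).2.choose_spec
  exact (Fin.ext (by exact_mod_cast h)).symm

/-- the points are numbered -/
noncomputable def Lv.equiv (m : ℕ) : Fin m ≃ Lv m :=
  ⟨Lv.mk, Lv.idx, Lv.idx_mk, Lv.mk_idx⟩

instance (m : ℕ) : Finite (Lv m) := Finite.of_equiv _ (Lv.equiv m)

instance (m : ℕ) : CompactSpace (Lv m) := Finite.compactSpace

instance (m : ℕ) : DiscreteTopology (Lv m) := inferInstance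

/-- functions on copies are continuous if they are continuous on each copy -/
theorem continuous_copies {m : ℕ} {N γ : Type} [TopologicalSpace N] [TopologicalSpace γ]
    {f : N × Lv m → γ} (h : ∀ i, Continuous fun x => f (x, Lv.mk i)) : Continuous f := by
  rw [continuous_iff_continuousAt]
  rintro ⟨x, i⟩
  have hU : IsOpen ((univ : Set N) ×ˢ ({i} : Set (Lv m))) :=
    isOpen_univ.prod (isOpen_discrete _)
  have h1 : f =ᶠ[𝓝 (x, i)] fun z => f (z.1, Lv.mk i.idx) := by
    filter_upwards [hU.mem_nhds ⟨trivial, rfl⟩] with z hz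
    have h2 : z.2 = i := hz.2
    rw [Lv.mk_idx, ← h2]
  refine ContinuousAt.congr ?_ h1.symm
  exact ((h i.idx).comp continuous_fst).continuousAt

/-- copies of Menger manifolds -/
theorem men_copies {k : ℕ} {N : Type} [MetricSpace N] [CompactSpace N] (hN : Men k N) (m : ℕ) :
    Men k (N × Lv m) := by
  refine men_loc fun z => ⟨N, inferInstance, inferInstance, univ ×ˢ {z.2}, Prod.fst,
    fun x => (x, z.2), hN, ⟨isOpen_univ.prod (isOpen_discrete _), ?_,
      continuous_fst.continuousOn, by fun_prop, ?_⟩, ⟨trivial, rfl⟩⟩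
  · have : Prod.fst '' ((univ : Set N) ×ˢ ({z.2} : Set (Lv m))) = univ := by
      ext x
      simp
    rw [this]
    exact isOpen_univ
  · rintro ⟨x, i⟩ ⟨-, hi⟩
    have h : i = z.2 := hi
    rw [h]

/-- Z-sets in copies -/
theorem zs_copies {N : Type} [MetricSpace N] [CompactSpace N] (m : ℕ)
    {S : Set N} (hS : ZS S) : ZS (S ×ˢ (univ : Set (Lv m))) := by
  refine ⟨hS.1.prod isClosed_univ, fun ε hε => ?_⟩
  obtain ⟨φ, h1, h2⟩ := hS.2 ε hε
  refine ⟨⟨fun z => (φ z.1, z.2), by fun_prop⟩, fun z => ?_, fun z hz => h2 z.1 hz.1⟩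
  rw [Prod.dist_eq, max_lt_iff]
  exact ⟨h1 z.1, by simpa using hε⟩

/-! ## The Z-embedding and the soft map -/

/-- over every map of a compact space of dimension at most `k` into the base of a soft map there is
a Z-embedding, up to `ε` -/
theorem exists_over {k : ℕ} {β : Type} [MetricSpace β] {K : Set β}
    {P : Type} [MetricSpace P] [CompactSpace P] (hP : PushOff k (univ : Set P))
    {f : P → β} (cf : Continuous f) (fK : ∀ x, f x ∈ K)
    {D : Type} [MetricSpace D] [CompactSpace D] [Nonempty D] (hD : Men k D) {l : D → β}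
    (hl : Soft k univ K l) {W : Set D} (hW : ZS W) {ε : ℝ} (hε : 0 < ε) :
    ∃ α : C(P, D), Function.Injective α ∧ ZS (range α) ∧ (∀ x, α x ∉ W) ∧
      ∀ x, dist (f x) (l (α x)) < ε := by
  have cl : Continuous l := continuousOn_univ.1 hl.1
  obtain ⟨δ, hδ, hu⟩ := Metric.uniformContinuous_iff.1
    (CompactSpace.uniformContinuous_of_continuous cl) (ε / 2) (by positivity)
  obtain ⟨F, hF, -, -, hFf⟩ := hl.2.2 P univ ∅ ⟨isCompact_univ, hP, isClosed_empty,
    empty_subset _⟩ f (fun _ => Classical.arbitrary D) cf.continuousOn (fun x _ => fK x)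
    (continuousOn_empty _) (mapsTo_empty _ _) (by simp) (ε / 2) (by positivity)
  obtain ⟨α, h1, -, h3, h4, h5⟩ := gp (men_ane hD) hD.2.2 hP isClosed_empty
    ⟨F, continuousOn_univ.1 hF⟩ (injOn_empty _) (by rw [image_empty]; exact ZS.empty) hW hδ
  refine ⟨α, h3, h4, fun x => h5 x (by simp), fun x => ?_⟩
  have h6 := hu (h1 x)
  have h7 := hFf x trivial
  rw [dist_comm] at h6 h7
  exact (dist_triangle _ _ _).trans_lt (by
    have h8 : dist (l (F x)) (l (α x)) < ε / 2 := h6
    linarith)

/-- **EX, part b.** -/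
theorem exb {k : ℕ} (hS : SRelP k (MenC k)) {β β' : Type} [MetricSpace β] [MetricSpace β']
    [Nonempty β]
    {K : Set β'} {X : Set β} (cK : IsCompact K) (cX : IsCompact X) (aK : ANE k K) (aX : ANE k X)
    {p : β → β'} (hp : Soft k X K p)
    {P : Type} [MetricSpace P] [CompactSpace P] (hP : PushOff k (univ : Set P))
    {g : P → β} (cg : Continuous g) (gX : ∀ x, g x ∈ X)
    {D : Type} [MetricSpace D] [CompactSpace D] [Nonempty D] (hD : Men k D) {l : D → β'}
    (hl : Soft k univ K l) {W : Set D} (hW : ZS W) {ε : ℝ} (hε : 0 < ε) :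
    ∃ (α : C(P, D)) (l' : D → β), Function.Injective α ∧ ZS (range α) ∧ (∀ x, α x ∉ W) ∧
      Soft k univ X l' ∧ (∀ x, l' (α x) = g x) ∧ ∀ x, dist (p (l' x)) (l x) < ε := by
  classical
  obtain ⟨δ, hδ, H⟩ := hS β β' X K cX cK aX aK ε hε
  obtain ⟨α, h1, h2, h3, h4⟩ := exists_over hP (f := fun x => p (g x))
    (hp.1.comp_continuous cg gX) (fun x => hp.2.1 (gX x)) hD hl hW hδ
  let e : P ≃ₜ range α := (α.continuous.isClosedEmbedding h1).isEmbedding.toHomeomorph
  have he : ∀ x, (e x).1 = α x := fun x => rfl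
  let w₀ : D → β := fun y => if hy : y ∈ range α then g (e.symm ⟨y, hy⟩) else
    Classical.arbitrary β
  have hw₁ : ∀ x, w₀ (α x) = g x := fun x => by
    simp only [w₀]
    rw [dif_pos (mem_range_self x)]
    congr 1
    exact (Homeomorph.symm_apply_eq e).2 (Subtype.ext rfl)
  have c₀ : ContinuousOn w₀ (range α) := by
    rw [continuousOn_iff_continuous_domRestrict]
    refine (cg.comp e.symm.continuous).congr fun y => ?_
    simp only [w₀, Function.comp, Set.domRestrict_apply]
    rw [dif_pos y.2]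
  obtain ⟨w, sw, ew, dw⟩ := H p hp D ⟨inferInstance, hD⟩ l hl (range α) h2 w₀ c₀ (by
    rintro _ ⟨x, rfl⟩
    rw [hw₁]
    exact gX x) (by
    rintro _ ⟨x, rfl⟩
    rw [hw₁]
    exact h4 x)
  exact ⟨α, w, h1, h2, h3, sw, fun x => by rw [ew (mem_range_self x), hw₁], dw⟩

section

variable {α : Type} [MetricSpace α] {m d : ℕ}

theorem isCompact_Xp {K V : Set α} {χ : Fin m → (Fin d → ℝ) → α} (cK : IsCompact K)
    (h : MG.Fam (MG.Cu d) (MG.dCu d) K V χ) : IsCompact (Xp K χ) := by
  refine cK.union (isCompact_iUnion fun i => ?_)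
  refine IsCompact.image_of_continuousOn ?_ ((h.cont i).mono fun x hx => hx.1)
  exact (MG.isCompact_Cu d).inter_right (isClosed_le continuous_const MG.continuous_crad)

theorem chom_half_mem {x : Fin d → ℝ} (hx : x ∈ MG.dCu d) :
    MG.chom (1 / 2) x ∈ MG.Cu d ∧ MG.crad (MG.chom (1 / 2) x) = 1 / 2 := by
  have h1 : MG.crad (MG.chom (1 / 2) x) = 1 / 2 := by
    rw [MG.crad_chom (by norm_num), MG.mem_dCu_crad.1 hx, mul_one]
  exact ⟨MG.mem_Cu_crad.2 (by rw [h1]; norm_num), h1⟩

end

/-- EX-b in the form of the joint -/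
theorem j_exb' (hS : ∀ k, 1 ≤ k → SRelP k (MenC k)) :
    ∀ (k d : ℕ), 1 ≤ k → d ≤ k → ∀ (A : Type) [MetricSpace A] [CompactSpace A]
    (a : A → (Fin d → ℝ)), Men k A → Soft k univ (MG.dCu d) a →
    ∀ (α : Type) [MetricSpace α] (K V : Set α) (m : ℕ) (χ : Fin m → (Fin d → ℝ) → α)
      (r : α → α), IsCompact K → MG.ULC k K → MG.Fam (MG.Cu d) (MG.dCu d) K V χ →
      RadColl K χ r → ANE k (Xp K χ) → Soft k (Xp K χ) K r →
      ∀ (D0 : Type) [MetricSpace D0] [CompactSpace D0] (l : D0 → α), Men k D0 →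
        (K.Nonempty → Nonempty D0) →
        Soft k univ K l → ∀ e > 0, ∃ (ae : Fin m → A → D0) (lp : D0 → α),
          (∀ i, Continuous (ae i)) ∧ (∀ i j y z, ae i y = ae j z → i = j ∧ y = z) ∧
          ZS (⋃ i, range (ae i)) ∧ Soft k univ (Xp K χ) lp ∧
          (∀ i y, lp (ae i y) = χ i (MG.chom (1 / 2) (a y))) ∧
          ∀ x, dist (r (lp x)) (l x) < e := by
  intro k d hk hd A _ _ a hA ha α _ K V m χ r cK uK hF hr aX sr D0 _ _ l hD hne hl e he
  by_cases hK : K.Nonempty
  · have := hne hK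
    have : Nonempty α := ⟨hK.choose⟩
    have ca : Continuous a := continuousOn_univ.1 ha.1
    have haS : ∀ x, a x ∈ MG.dCu d := fun x => ha.2.1 trivial
    obtain ⟨f, lp, h1, h2, -, h4, h5, h6⟩ := exb (hS k hk) cK (isCompact_Xp cK hF)
      (MG.ane_of_ulc cK uK) aX sr (P := A × Lv m) (men_copies hA m).1
      (g := fun z => χ z.2.idx (MG.chom (1 / 2) (a z.1))) (continuous_copies fun i => by
        simp only [Lv.idx_mk]
        refine (hF.cont i).comp_continuous ?_ fun x => (chom_half_mem (haS x)).1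
        exact (MG.continuous_chom_uncurry (j := d)).comp (continuous_const.prodMk ca))
      (fun z => Or.inr (mem_iUnion.2 ⟨z.2.idx, mem_image_of_mem _
        ⟨(chom_half_mem (haS z.1)).1, (chom_half_mem (haS z.1)).2.ge⟩⟩)) hD hl ZS.empty he
    refine ⟨fun i y => f (y, Lv.mk i), lp, fun i => by fun_prop, fun i j y z h => ?_, ?_, h4,
      fun i y => ?_, h6⟩
    · have h7 := h1 h
      rw [Prod.mk.injEq] at h7
      refine ⟨?_, h7.1⟩
      have h8 := congrArg Lv.idx h7.2
      simpa using h8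
    · have h7 : (⋃ i, range fun y => f (y, Lv.mk i)) = range f := by
        ext x
        simp only [mem_iUnion, mem_range]
        constructor
        · rintro ⟨i, y, hy⟩
          exact ⟨_, hy⟩
        · rintro ⟨⟨y, i⟩, hy⟩
          exact ⟨i.idx, y, by rw [Lv.mk_idx]; exact hy⟩
      rw [h7]
      exact h2
    · rw [h5]
      simp only [Lv.idx_mk]
  · -- `K` is empty
    rw [not_nonempty_iff_eq_empty] at hK
    have hD0 : IsEmpty D0 := ⟨fun x => by
      have := hl.2.1 (mem_univ x)
      rw [hK] at this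
      exact this⟩
    have hmA : IsEmpty (Fin m × A) := ⟨fun z => by
      have h1 := hF.bdry z.1 (ha.2.1 (mem_univ z.2))
      rw [hK] at h1
      exact h1⟩
    have hX : Xp K χ = K := by
      refine subset_antisymm (fun x hx => ?_) subset_union_left
      have h1 := hr.maps hx
      rw [hK] at h1
      exact h1.elim
    refine ⟨fun i y => (hmA.false (i, y)).elim, l, fun i => ?_,
      fun i j y z _ => (hmA.false (i, y)).elim, ?_, by rw [hX]; exact hl,
      fun i y => (hmA.false (i, y)).elim, fun x => (hD0.false x).elim⟩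
    · exact continuous_of_const fun y => (hmA.false (i, y)).elim
    · rw [Set.eq_empty_of_isEmpty (⋃ i, _)]
      exact ZS.empty

end Ex

end Pool.Agent.Work.MP_017613_gt
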