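import Pool.Agent.Work.MP_017613_gt.Kit.UlcLayer
import Pool.Agent.Work.MP_017613_gt.Kit.TPCalc
import Pool.Agent.Work.MP_017613_gt.Kit.LP
import Pool.Agent.Work.MP_017613_gt.Kit.Adj
import Pool.Agent.Work.MP_017613_gt.T6J
import Pool.Agent.Work.MP_017613_gt.ZSet
import Pool.Agent.Work.MP_017613_gt.PushOff

/-!
# Blocks (2) trading and (4) S_APPROX: definitions and joints (helper27)

Everything lives in `MG.Tr`. A joint is a `def J_... : Prop`; its owner proves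
`theorem j_... : J_...` in his own file `Tr*.lean`.
-/

open Set Metric Topology

namespace MG.Tr

open Pool.Agent.Work.MP_017613_gt (ZS DD PushOff)

/-- abstract Menger-like compact space of dimension `k` -/
def MenT (k : ℕ) (M : Type) [MetricSpace M] [CompactSpace M] : Prop :=
  ULC k (univ : Set M) ∧ PushOff k (univ : Set M) ∧ DD M

section
variable {α X : Type} [MetricSpace α] [MetricSpace X]

/-- layer of `d`-cells whose `c`-images lie in `t`-balls of `X` -/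
def SLayer (c : α → X) (t : ℝ) (d : ℕ) (K V : Set α) : Prop :=
  ∃ (m : ℕ) (χ : Fin m → (Fin d → ℝ) → α), Fam (Cu d) (dCu d) K V χ ∧
    ∀ i, ∃ y, ∀ x ∈ Cu d, dist (c (χ i x)) y < t

/-- chain of layers of the given dimensions, all cells `c`-small -/
def Lays (c : α → X) (t : ℝ) : List ℕ → Set α → Set α → Prop
  | [], K, V => K = V
  | d :: ds, K, V => ∃ K', SLayer c t d K K' ∧ Lays c t ds K' V

/-- relative `UV`: a cube in `V` with boundary in `K` and `c`-image in a `t`-ball is deformed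
rel boundary into `K`, inside the concentric `t'`-ball -/
def RUV (k : ℕ) (c : α → X) (V K : Set α) (t t' : ℝ) : Prop :=
  ∀ j ≤ k, ∀ (y : X) (f : (Fin j → ℝ) → α), IsMap f (Cu j) V → MapsTo f (dCu j) K →
    (∀ x ∈ Cu j, dist (c (f x)) y < t) →
    ∃ H : (Fin j → ℝ) × ℝ → α, IsMap H (Cu j ×ˢ Icc (0:ℝ) 1) V ∧
      (∀ x ∈ Cu j, H (x, 0) = f x ∧ H (x, 1) ∈ K) ∧
      (∀ x ∈ dCu j, ∀ s ∈ Icc (0:ℝ) 1, H (x, s) = f x) ∧
      ∀ x ∈ Cu j, ∀ s ∈ Icc (0:ℝ) 1, dist (c (H (x, s))) y < t'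

/-- every map `dCu j → K'`, `j ≤ k`, slides into `K` inside `K'`, with `c`-tracks `< τ` -/
def Slides (k : ℕ) (c : α → X) (K' K : Set α) (τ : ℝ) : Prop :=
  ∀ j ≤ k, ∀ a : (Fin j → ℝ) → α, IsMap a (dCu j) K' →
    ∃ S : (Fin j → ℝ) × ℝ → α, IsMap S (dCu j ×ˢ Icc (0:ℝ) 1) K' ∧
      (∀ x ∈ dCu j, S (x, 0) = a x ∧ S (x, 1) ∈ K) ∧
      ∀ x ∈ dCu j, ∀ s ∈ Icc (0:ℝ) 1, dist (c (S (x, s))) (c (a x)) < τ

end

/-- `K` is attained from `M`: for every `r` there is an `r`-fine map `M → K`, `b`-close to `u`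
over `X`, and close to `i` on `W` -/
def Att (k : ℕ) {M V X : Type} [MetricSpace M] [MetricSpace V] [MetricSpace X] (u : M → X)
    (W : Set M) (i : M → V) (c : V → X) (K : Set V) (b : ℝ) : Prop :=
  ∀ r > 0, ∃ g : M → V, IsMap g univ K ∧ L k g univ K r ∧ (∀ x, dist (c (g x)) (u x) < b) ∧
    ∀ x ∈ W, dist (g x) (i x) < r

/-- absorption of models `(Cu n, A)` -/
def AbsAt (k n : ℕ) (A : Set (Fin n → ℝ)) (M : Type) [MetricSpace M] : Prop :=
  ∀ (V : Type) [MetricSpace V] [CompactSpace V] (K K1 : Set V) (m : ℕ)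
    (χ : Fin m → (Fin n → ℝ) → V), IsClosed K → ULC k K → Fam (Cu n) A K K1 χ →
    ∀ ε > 0, ∃ δ > 0, ∀ g : M → V, IsMap g univ K → L k g univ K δ → ∀ W : Set M, ZS W →
      ∃ g' : M → V, IsMap g' univ K1 ∧ L k g' univ K1 ε ∧ (∀ x ∈ W, dist (g' x) (g x) < ε) ∧
        ∀ x, dist (g' x) (g x) < ε ∨ ∃ i, ∃ z ∈ Cu n, ∃ z' ∈ A,
          dist (g' x) (χ i z) < ε ∧ dist (g x) (χ i z') < ε

/-- output of the block construction: `V1 = V ∪ (j+2)-cells attached along `J0 0` by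
`Φ ∘ tail`; `K1 = K ∪` the facets `x 0 = 0` -/
structure Blk {V X V1 : Type} [MetricSpace V] [MetricSpace X] [MetricSpace V1] (j : ℕ)
    (c : V → X) (K : Set V) (t : ℝ) (ι : V → V1) (ret : V1 → V) (K1 : Set V1) : Prop where
  iso : Isometry ι
  ret_cont : Continuous ret
  ret_ι : ∀ v, ret (ι v) = v
  closed : IsClosed K1
  sub : ι '' K ⊆ K1
  fam : ∃ (m : ℕ) (χ : Fin m → (Fin (j + 1) → ℝ) → V1),
    Fam (Cu (j + 1)) (J0 0) (ι '' K) K1 χ ∧
      ∀ i, ∃ y, ∀ x ∈ Cu (j + 1), dist (c (ret (χ i x))) y < t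
  defo : ∃ D : V1 × ℝ → V1, ContinuousOn D (univ ×ˢ Icc (0:ℝ) 1) ∧
    (∀ x, D (x, 0) = x ∧ D (x, 1) = ι (ret x)) ∧
    (∀ x, ∀ t ∈ Icc (0:ℝ) 1, ret (D (x, t)) = ret x) ∧
    ∀ v, ∀ t ∈ Icc (0:ℝ) 1, D (ι v, t) = ι v

/-- weight of a list of dimensions -/
def wt (k : ℕ) (ds : List ℕ) : ℕ := (ds.map fun d => k + 3 - d).sum

/-- the dimensions of the subdivision of a `TP k` pair -/
def dl (k : ℕ) : List ℕ := (List.range (k + 1)).flatMap fun d => List.range (d + 1)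

/-- double mapping cylinder `M ∪_s (R × I) ∪_w F` -/
structure DMC {M F R V : Type} [MetricSpace M] [MetricSpace F] [MetricSpace R] [MetricSpace V]
    (s : R → M) (w : R → F) (iM : M → V) (iF : F → V) (cyl : R × ℝ → V) : Prop where
  isoM : Isometry iM
  isoF : Isometry iF
  cont : ContinuousOn cyl (univ ×ˢ Icc (0:ℝ) 1)
  zero : ∀ r, cyl (r, 0) = iM (s r)
  one : ∀ r, cyl (r, 1) = iF (w r)
  disj : Disjoint (range iM) (range iF)
  off : ∀ r t, 0 < t → t < 1 → cyl (r, t) ∉ range iM ∪ range iF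
  inj : ∀ r r' t t', 0 < t → t < 1 → 0 < t' → t' < 1 → cyl (r, t) = cyl (r', t') →
    r = r' ∧ t = t'
  cover : ∀ v, v ∈ range iM ∨ v ∈ range iF ∨ ∃ r, ∃ t ∈ Icc (0:ℝ) 1, cyl (r, t) = v

/-! ## Joints -/

/-- SLIDE: a map with a section which is sliding-homotopic to the identity on spheres is fine -/
def J_SLIDE : Prop :=
  ∀ (k : ℕ) (α β : Type) [MetricSpace α] [MetricSpace β] (A : Set α) (K : Set β) (g : α → β)
    (i : β → α) (e e' : ℝ), IsMap g A K → IsMap i K A → (∀ y ∈ K, g (i y) = y) → e < e' →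
    0 < e' → (∀ j ≤ k, ∀ a : (Fin j → ℝ) → α, IsMap a (dCu j) A →
      ∃ H : (Fin j → ℝ) × ℝ → α, IsMap H (dCu j ×ˢ Icc (0:ℝ) 1) A ∧
        (∀ x ∈ dCu j, H (x, 0) = a x ∧ H (x, 1) = i (g (a x))) ∧
        ∀ x ∈ dCu j, ∀ t ∈ Icc (0:ℝ) 1, dist (g (H (x, t))) (g (a x)) < e) →
    L k g A K e'

/-- coarse lifting for arbitrary compact test pairs of dimension `≤ k` -/
def J_LPC : Prop :=
  ∀ (k : ℕ) (X : Type) [MetricSpace X] [CompactSpace X], ULC k (univ : Set X) →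
    ∀ ε > 0, ∃ δ > 0, ∀ (Y : Type) [MetricSpace Y] [CompactSpace Y], ULC k (univ : Set Y) →
      ∀ p : Y → X, Continuous p → L k p univ univ δ →
      ∀ (P : Type) [MetricSpace P] [CompactSpace P], PushOff k (univ : Set P) →
      ∀ (A : Set P) (f : P → X) (f0 : P → Y), IsClosed A → Continuous f → ContinuousOn f0 A →
        (∀ x ∈ A, dist (p (f0 x)) (f x) < δ) →
        ∃ F : P → Y, Continuous F ∧ EqOn F f0 A ∧ ∀ x, dist (p (F x)) (f x) < ε

/-- SUBDIV -/
def J_SUBDIV : Prop :=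
  ∀ (α X : Type) [MetricSpace α] [MetricSpace X] (k : ℕ) (K V : Set α) (c : α → X) (t : ℝ),
    0 < t → ContinuousOn c V → TP k K V → Lays c t (dl k) K V

/-- BLOCK -/
def J_BLOCK : Prop :=
  ∀ (k j : ℕ) (X V : Type) [MetricSpace X] [MetricSpace V] [CompactSpace V] (c : V → X)
    (K K' : Set V) (t0 t1 : ℝ) (ds : List ℕ), j ≤ k → Continuous c → IsClosed K → t0 ≤ t1 →
    SLayer c t0 j K K' → Lays c t0 ds K' univ → RUV k c univ K t0 t1 →
    ∃ (V1 : Type) (_ : MetricSpace V1) (_ : CompactSpace V1) (ι : V → V1) (ret : V1 → V)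
      (K1 : Set V1), Blk j c K t1 ι ret K1 ∧
        Lays (fun v => c (ret v)) t1 (ds ++ [j + 2]) K1 univ

/-- the boundary of a test cube can be moved: `RUV (V,K)` implies `RUV (V,K')` -/
def J_RUVMOVE : Prop :=
  ∀ (k : ℕ) (X V : Type) [MetricSpace X] [MetricSpace V] (c : V → X) (K K' : Set V)
    (t t' τ : ℝ), Continuous c → K ⊆ K' → t + τ ≤ t' → 0 < τ → Slides k c K' K τ →
    RUV k c univ K (t + τ) t' → RUV k c univ K' t t'

/-- `RUV` passes from `V` to `V1` (strong deformation retraction `D`) -/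
def J_RUVRET : Prop :=
  ∀ (k j : ℕ) (X V V1 : Type) [MetricSpace X] [MetricSpace V] [MetricSpace V1] (c : V → X)
    (K : Set V) (t t1 t' : ℝ) (ι : V → V1) (ret : V1 → V) (K1 : Set V1), Continuous c →
    t ≤ t' → Blk j c K t1 ι ret K1 → RUV k c univ K t t' →
    RUV k (fun v => c (ret v)) univ (ι '' K) t t'

/-- a block slides down to its base -/
def J_SLIDEBLK : Prop :=
  ∀ (k n : ℕ) (X V : Type) [MetricSpace X] [MetricSpace V] (c : V → X) (K K1 : Set V) (t : ℝ)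
    (m : ℕ) (χ : Fin m → (Fin (n + 1) → ℝ) → V), Continuous c → IsClosed K →
    Fam (Cu (n + 1)) (J0 0) K K1 χ → (∀ i, ∃ y, ∀ x ∈ Cu (n + 1), dist (c (χ i x)) y < t) →
    0 < t → Slides k c K1 K (2 * t)

/-- maps of spheres are pushed off cells of larger dimension -/
def J_SLIDECELL : Prop :=
  ∀ (k d : ℕ) (X V : Type) [MetricSpace X] [MetricSpace V] (c : V → X) (K K' : Set V) (t : ℝ),
    k ≤ d → Continuous c → IsCompact K → 0 < t → SLayer c t d K K' → Slides k c K' K (2 * t)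

/-- the three kinds of absorption used -/
def J_ABS : Prop :=
  ∀ (k : ℕ) (M : Type) [MetricSpace M] [CompactSpace M], 1 ≤ k → MenT k M →
    (∀ n ≤ k, AbsAt k (n + 1) (J0 0) M) ∧ AbsAt k (k + 1) (dCu (k + 1)) M

/-- absorption of `(k+2)`-cells -/
def J_ABS2 : Prop :=
  ∀ (k : ℕ) (M : Type) [MetricSpace M] [CompactSpace M], 1 ≤ k → MenT k M →
    AbsAt k (k + 2) (dCu (k + 2)) M

/-- `ULC` of `K ∪` blocks -/
def J_ULCBLK : Prop :=
  ∀ (k n : ℕ) (V : Type) [MetricSpace V] (K K1 : Set V) (m : ℕ)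
    (χ : Fin m → (Fin (n + 1) → ℝ) → V), IsCompact K → Fam (Cu (n + 1)) (J0 0) K K1 χ →
    ULC k K → ULC k K1

/-- TRADE -/
def J_TRADE : Prop :=
  ∀ (k : ℕ) (M X : Type) [MetricSpace M] [CompactSpace M] [MetricSpace X] (u : M → X)
    (W : Set M), 1 ≤ k → MenT k M → ZS W →
    ∀ (n : ℕ) (V : Type) [MetricSpace V] [CompactSpace V] (K : Set V) (c : V → X) (i : M → V)
      (t : ℕ → ℝ) (ds : List ℕ) (b : ℝ), Continuous c → IsClosed K → ULC k K →
      (∀ d ∈ ds, d ≤ k + 2) → wt k ds ≤ n → 0 < t 0 → (∀ l, 4 * t l ≤ t (l + 1)) →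
      (∀ l < 8 ^ n, RUV k c univ K (t l) (t (l + 1))) → Lays c (t 0) ds K univ →
      Att k u W i c K b → Att k u W i c univ (b + t (8 ^ n))

/-- excision/compression: `RUV` of the pair `({1/3 ≤ τ}, {1/3 ≤ τ ≤ 2/3})` gives `RUV` of
`(V, {τ ≤ 2/3})` -/
def J_EXC : Prop :=
  ∀ (k : ℕ) (X V : Type) [MetricSpace X] [MetricSpace V] (c : V → X) (τ : V → ℝ) (t : ℕ → ℝ),
    Continuous c → Continuous τ → (∀ i, 0 < t i) → (∀ i, t i ≤ t (i + 1)) →
    (∀ i ≤ k, RUV k c {v | 1 / 3 ≤ τ v} {v | 1 / 3 ≤ τ v ∧ τ v ≤ 2 / 3} (t i) (t (i + 1))) →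
    RUV k c univ {v | τ v ≤ 2 / 3} (t 0) (t (k + 1))

/-- `RUV` passes from `K'` to a subset `K` onto which `K'` is strongly deformed, `c` being
constant along the deformation -/
def J_RUVSHRINK : Prop :=
  ∀ (k : ℕ) (X V : Type) [MetricSpace X] [MetricSpace V] (c : V → X) (K K' : Set V)
    (S : V × ℝ → V) (t t' : ℝ), K ⊆ K' → IsMap S (K' ×ˢ Icc (0:ℝ) 1) K' →
    (∀ v ∈ K', S (v, 0) = v ∧ S (v, 1) ∈ K) → (∀ v ∈ K, ∀ s ∈ Icc (0:ℝ) 1, S (v, s) = v) →
    (∀ v ∈ K', ∀ s ∈ Icc (0:ℝ) 1, c (S (v, s)) = c v) →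
    RUV k c univ K' t t' → RUV k c univ K t t'

/-- the cylinder of the retraction `w : R → F` is `k`-connected rel `R`, controlled -/
def J_CKCYL : Prop :=
  ∀ (k : ℕ) (X : Type) [MetricSpace X] [CompactSpace X], 1 ≤ k → ULC k (univ : Set X) →
    ∀ t' > 0, ∃ t > 0, t ≤ t' ∧ ∀ (M F R V : Type) [MetricSpace M] [MetricSpace F]
      [MetricSpace R] [MetricSpace V] [CompactSpace M] [CompactSpace F] [CompactSpace R]
      [CompactSpace V] (s : R → M) (w : R → F) (i : F → R) (iM : M → V) (iF : F → V)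
      (cyl : R × ℝ → V) (c : V → X), DMC s w iM iF cyl → Continuous w → Continuous i →
      (∀ y, w (i y) = y) → Continuous c → (∀ r, ∀ a ∈ Icc (0:ℝ) 1, c (cyl (r, a)) = c (iF (w r))) →
      L k (fun r => c (iF (w r))) univ univ t →
      RUV k c ({v | ∃ r, ∃ a ∈ Icc (1 / 3 : ℝ) 1, cyl (r, a) = v} ∪ range iF)
        {v | ∃ r, ∃ a ∈ Icc (1 / 3 : ℝ) (2 / 3), cyl (r, a) = v} t t'

/-- `(V_0, M)` is `k`-connected, controlled -/
def J_RUV0 : Prop :=
  ∀ (k : ℕ) (X : Type) [MetricSpace X] [CompactSpace X], 1 ≤ k → ULC k (univ : Set X) →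
    ∀ t' > 0, ∃ t > 0, t ≤ t' ∧ ∀ (M F R V : Type) [MetricSpace M] [MetricSpace F]
      [MetricSpace R] [MetricSpace V] [CompactSpace M] [CompactSpace F] [CompactSpace R]
      [CompactSpace V] (s : R → M) (w : R → F) (i : F → R) (iM : M → V) (iF : F → V)
      (cyl : R × ℝ → V) (c : V → X), DMC s w iM iF cyl → Continuous w → Continuous i →
      (∀ y, w (i y) = y) → Continuous c → (∀ r, ∀ a ∈ Icc (0:ℝ) 1, c (cyl (r, a)) = c (iF (w r))) →
      L k (fun r => c (iF (w r))) univ univ t →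
      RUV k c univ (range iM) t t'

/-- existence of `V_0`, with its layers rel `M` -/
def J_V0 : Prop :=
  ∀ (k : ℕ) (M F R : Type) [MetricSpace M] [MetricSpace F] [MetricSpace R] [CompactSpace M]
    [CompactSpace F] [CompactSpace R] (s : R → M) (w : R → F) (i : F → R), Continuous s →
    Continuous w → Isometry i → ULC k (univ : Set M) → TP k ∅ (univ : Set F) →
    TP k (range i) (univ : Set R) →
    ∃ (V : Type) (_ : MetricSpace V) (_ : CompactSpace V) (iM : M → V) (iF : F → V)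
      (cyl : R × ℝ → V), DMC s w iM iF cyl ∧
      ∃ K1 K2 : Set V, TP k (range iM) K1 ∧ TP (k + 1) K1 K2 ∧ TP (k + 1) K2 univ

/-- dimension and local connectivity of finite complexes -/
def J_DIM : Prop :=
  ∀ (k : ℕ) (R : Type) [MetricSpace R] (P0 P : Set R), TP k P0 P → PushOff k P0 →
    ULC k P0 → PushOff k P ∧ ULC k P

/-- the retraction `V_0 → F` is fine if `s` is fine -/
def J_RETL : Prop :=
  ∀ (k : ℕ) (M F : Type) [MetricSpace M] [MetricSpace F] [CompactSpace M] [CompactSpace F]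
    (φ : M → F), 1 ≤ k → Continuous φ → ULC k (univ : Set M) → ULC k (univ : Set F) →
    ∀ ε > 0, ∃ e > 0, ∀ (R V : Type) [MetricSpace R] [MetricSpace V] [CompactSpace R]
      [CompactSpace V], Nonempty R → ∀ (s : R → M) (iM : M → V) (iF : F → V) (cyl : R × ℝ → V)
      (ret : V → F),
      Continuous s → Function.Injective s → ULC k (univ : Set R) → L k s univ univ e →
      DMC s (fun r => φ (s r)) iM iF cyl → Continuous ret → (∀ x, ret (iM x) = φ x) →
      (∀ y, ret (iF y) = y) → (∀ r, ∀ a ∈ Icc (0:ℝ) 1, ret (cyl (r, a)) = φ (s r)) →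
      L k ret univ univ ε

/-- Lemma R, relative form (block (3)) -/
def J_LEMR : Prop :=
  ∀ (k : ℕ) (M F : Type) [MetricSpace M] [MetricSpace F] [CompactSpace M] [CompactSpace F]
    (σ : F → M) (e : ℝ), 1 ≤ k → ULC k (univ : Set M) → ULC k (univ : Set F) → Continuous σ →
    0 < e → ∃ (R : Type) (_ : MetricSpace R) (_ : CompactSpace R) (i : F → R) (s : R → M),
      Isometry i ∧ Continuous s ∧ (∀ y, s (i y) = σ y) ∧ TP k (range i) (univ : Set R) ∧
      L k s univ univ e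

/-- general position in `M`, relative to a closed set on which the map is already a `Z`-embedding -/
def J_GP : Prop :=
  ∀ (k : ℕ) (M R : Type) [MetricSpace M] [MetricSpace R] [CompactSpace M] [CompactSpace R]
    (s : R → M) (A : Set R) (W : Set M) (ε : ℝ), MenT k M → PushOff k (univ : Set R) →
    Continuous s → IsClosed A → InjOn s A → ZS (s '' A) → ZS W → Disjoint (s '' A) W → 0 < ε →
    ∃ s' : R → M, Continuous s' ∧ Function.Injective s' ∧ ZS (range s') ∧ EqOn s' s A ∧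
      Disjoint (range s') W ∧ ∀ x, dist (s' x) (s x) < ε

/-- **S_APPROX** -/
def J_S : Prop :=
  ∀ (k : ℕ) (X : Type) [MetricSpace X] [CompactSpace X], 1 ≤ k → ULC k (univ : Set X) →
    ∀ ε > 0, ∃ d > 0, ∀ (M F : Type) [MetricSpace M] [CompactSpace M] [MetricSpace F]
      [CompactSpace F] (u : M → X) (p : F → X) (W : Set M) (w0 : M → F), MenT k M →
      TP k ∅ (univ : Set F) → Continuous u → Continuous p → L k u univ univ d →
      L k p univ univ d → ZS W → ContinuousOn w0 W → (∀ x ∈ W, dist (p (w0 x)) (u x) < d) →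
      ∀ r > 0, ∃ w : M → F, Continuous w ∧ L k w univ univ r ∧
        (∀ x, dist (p (w x)) (u x) < ε) ∧ EqOn w w0 W

end MG.Tr
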