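import Pool.Agent.Work.MP_017613_gt.MenDef
import Pool.Agent.Work.MP_017613_gt.Chi0
import Pool.Agent.Work.MP_017613_gt.Kit.UlcLayer
import Pool.Agent.Work.MP_017613_gt.Kit.CubExt
import Pool.Agent.Work.MP_017613_gt.Skel24

/-!
# Block 8.4, EX-d: Menger manifolds over complexes

`HS Mg k V`: there is a soft map of a space of the class `Mg` onto `V`. `EXw Mg k`: the weak form of
the joint EX (one layer of `d`-cells, `d ≤ k`). `exw_sphere`: the spheres `dCu d`, `d ≤ k + 1`;
`exw_chain`, `exw_tp`, `exw_lays`: every compact set obtained from the empty set by layers of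
dimension at most `k`.
-/

set_option linter.unusedSectionVars false

open Set Topology Metric

namespace Pool.Agent.Work.MP_017613_gt

namespace Ex

open MG (Cu dCu Layer Fam)

variable (Mg : ∀ (N : Type) [MetricSpace N] [CompactSpace N], Prop)

/-- there is a soft map of a space of the class `Mg` onto `V` -/
def HS (k : ℕ) {α : Type} [MetricSpace α] (V : Set α) : Prop :=
  ∃ (D : Type) (_ : MetricSpace D) (_ : CompactSpace D) (l : D → α), Mg D ∧ Chi.Soft k univ V l

/-- `V` is empty or there is a soft map onto `V` -/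
def HS0 (k : ℕ) {α : Type} [MetricSpace α] (V : Set α) : Prop := V = ∅ ∨ HS Mg k V

/-- the weak form of EX: one layer -/
def EXw (k : ℕ) : Prop :=
  ∀ d ≤ k, HS0 Mg k (dCu d) → ∀ (α : Type) [MetricSpace α] (K V : Set α), IsCompact K →
    MG.ULC k K → Layer d K V → HS0 Mg k K → HS0 Mg k V

/-- chains of layers of the given dimensions -/
def Chn {α : Type} [MetricSpace α] : List ℕ → Set α → Set α → Prop
  | [], K, V => K = V
  | d :: ds, K, V => ∃ K', Layer d K K' ∧ Chn ds K' V

variable {Mg}

section chn

variable {α : Type} [MetricSpace α] {k : ℕ}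

theorem Chn.append {ds es : List ℕ} {K K' V : Set α} (h : Chn ds K K') (h' : Chn es K' V) :
    Chn (ds ++ es) K V := by
  induction ds generalizing K with
  | nil =>
    have : K = K' := h
    subst this
    exact h'
  | cons d ds ih =>
    obtain ⟨K₁, h1, h2⟩ := h
    exact ⟨K₁, h1, ih h2⟩

theorem Chn.isCompact {ds : List ℕ} {K V : Set α} (h : Chn ds K V) (hK : IsCompact K) :
    IsCompact V := by
  induction ds generalizing K with
  | nil =>
    have : K = V := h
    rwa [← this]
  | cons d ds ih =>
    obtain ⟨K₁, h1, h2⟩ := h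
    exact ih h2 (h1.isCompact hK)

theorem Chn.ulc {ds : List ℕ} {K V : Set α} (h : Chn ds K V) (hK : IsCompact K)
    (u : MG.ULC k K) : MG.ULC k V := by
  induction ds generalizing K with
  | nil =>
    have : K = V := h
    rwa [← this]
  | cons d ds ih =>
    obtain ⟨K₁, h1, h2⟩ := h
    exact ih h2 (h1.isCompact hK) (h1.ulc hK u)

theorem ulc_empty : MG.ULC k (∅ : Set α) := fun _ _ => ⟨1, one_pos, fun _ _ _ hy => hy.elim⟩

/-- test pairs are chains -/
theorem chn_of_tp {K V : Set α} (h : MG.TP k K V) : Chn (List.range (k + 1)) K V := by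
  obtain ⟨-, S, rfl, rfl, hS⟩ := h
  have key : ∀ n ≤ k + 1, Chn (List.range n) (S 0) (S n) := by
    intro n
    induction n with
    | zero => intro _; exact rfl
    | succ n ih =>
      intro hn
      rw [List.range_succ]
      exact (ih (by omega)).append ⟨S (n + 1), hS n (by omega), rfl⟩
  exact key (k + 1) le_rfl

theorem chn_of_lays {X : Type} [MetricSpace X] {c : α → X} {t : ℝ} {ds : List ℕ} {K V : Set α}
    (h : MG.Tr.Lays c t ds K V) : Chn ds K V := by
  induction ds generalizing K with
  | nil => exact h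
  | cons d ds ih =>
    obtain ⟨K', ⟨m, χ, hF, -⟩, h2⟩ := h
    exact ⟨K', ⟨m, χ, hF⟩, ih h2⟩

/-- layers on the empty set are empty in positive dimensions -/
theorem Chn.hs {ds : List ℕ} {K V : Set α} (E : EXw Mg k) (h : Chn ds K V)
    (hds : ∀ d ∈ ds, d ≤ k ∧ HS0 Mg k (dCu d)) (hK : IsCompact K) (u : MG.ULC k K)
    (hs : HS0 Mg k K) : HS0 Mg k V := by
  induction ds generalizing K with
  | nil =>
    have : K = V := h
    rwa [← this]
  | cons d ds ih =>
    obtain ⟨K₁, h1, h2⟩ := h
    have hd := hds d (List.mem_cons_self ..)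
    exact ih h2 (fun e he => hds e (List.mem_cons_of_mem _ he)) (h1.isCompact hK) (h1.ulc hK u)
      (E d hd.1 hd.2 α K K₁ hK u h1 hs)

end chn

/-- **Spheres.** -/
theorem exw_sphere {k : ℕ} (E : EXw Mg k) : ∀ d ≤ k + 1, HS0 Mg k (dCu d) := by
  intro d
  induction d using Nat.strong_induction_on with
  | _ d ih =>
    intro hd
    rcases Nat.eq_zero_or_pos d with rfl | hpos
    · exact Or.inl MG.dCu_zero
    · have h1 : MG.TP (d - 1) (∅ : Set (Fin d → ℝ)) (dCu d) := by
        refine MG.IsCub.tp one_pos (MG.isCub_dCu one_pos d) (MG.IsCub.empty 1) (empty_subset _) ?_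
        intro x hx _
        have h2 : MG.dm (MG.car 1 x) ≤ d := by
          refine (Finset.card_le_univ _).trans ?_
          rw [Fintype.card_fin]
        have h3 : MG.dm (MG.car 1 x) ≠ d := by
          intro h
          obtain ⟨-, i, hi⟩ := hx
          have h4 : (Finset.univ.filter fun i => Odd (MG.car 1 x i)) = Finset.univ := by
            rw [← Finset.card_eq_iff_eq_univ, Fintype.card_fin]
            exact h
          have h5 : Odd (MG.car 1 x i) := by
            have := Finset.mem_univ i
            rw [← h4, Finset.mem_filter] at this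
            exact this.2
          rcases hi with hi | hi
          · simp [MG.car, hi] at h5
          · simp only [MG.car, hi, Nat.cast_one, mul_one, Int.floor_one, Int.ceil_one] at h5
            exact absurd h5 (by decide)
        omega
      refine (chn_of_tp h1).hs E ?_ isCompact_empty ulc_empty (Or.inl rfl)
      intro e he
      have : e < d := by
        have := List.mem_range.1 he
        omega
      exact ⟨by omega, ih e this (by omega)⟩

/-- **JE, lists of layers.** -/
theorem exw_chain {k : ℕ} (E : EXw Mg k) {α : Type} [MetricSpace α] {ds : List ℕ} {V : Set α}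
    (h : Chn ds ∅ V) (hds : ∀ d ∈ ds, d ≤ k) : IsCompact V ∧ MG.ULC k V ∧ HS0 Mg k V :=
  ⟨h.isCompact isCompact_empty, h.ulc isCompact_empty ulc_empty,
    h.hs E (fun d hd => ⟨hds d hd, exw_sphere E d ((hds d hd).trans (Nat.le_succ k))⟩)
      isCompact_empty ulc_empty (Or.inl rfl)⟩

/-- **JE, test pairs.** -/
theorem exw_tp {k : ℕ} (E : EXw Mg k) {α : Type} [MetricSpace α] {V : Set α}
    (h : MG.TP k ∅ V) : IsCompact V ∧ MG.ULC k V ∧ HS0 Mg k V :=
  exw_chain E (chn_of_tp h) fun d hd => by
    have := List.mem_range.1 hd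
    omega

/-- **JE, small layers.** -/
theorem exw_lays {k : ℕ} (E : EXw Mg k) {α X : Type} [MetricSpace α] [MetricSpace X] {c : α → X}
    {t : ℝ} {ds : List ℕ} {V : Set α} (h : MG.Tr.Lays c t ds ∅ V) (hds : ∀ d ∈ ds, d ≤ k) :
    IsCompact V ∧ MG.ULC k V ∧ HS0 Mg k V :=
  exw_chain E (chn_of_lays h) hds

/-! ### The class `Men k`: the empty space is allowed -/

theorem men_empty (k : ℕ) : Men k Empty := by
  have h0 : (univ : Set Empty) = ∅ := by
    ext x
    exact x.elim
  refine ⟨?_, ?_, ?_⟩
  · rw [h0]; exact PushOff.empty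
  · rw [h0]; exact ulc_empty
  · exact fun ε _ => ⟨ContinuousMap.id Empty, fun x => x.elim,
      ⟨by rw [range_eq_empty]; exact isClosed_empty, fun δ _ => ⟨ContinuousMap.id Empty, fun x => x.elim,
        fun x => x.elim⟩⟩⟩

theorem hs_empty (k : ℕ) {α : Type} [MetricSpace α] :
    HS (fun N _ _ => Men k N) k (∅ : Set α) := by
  refine ⟨Empty, inferInstance, inferInstance, fun x => x.elim, men_empty k, ?_, ?_, ?_⟩
  · exact fun x => x.elim
  · exact fun x => x.elim
  · intro γ _ P A hP f f₀ _ hf _ _ _ ε _
    have hP0 : P = ∅ := eq_empty_of_forall_notMem fun x hx => hf hx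
    have hA0 : A = ∅ := eq_empty_of_subset_empty (hP0 ▸ hP.sub)
    subst hP0 hA0
    exact ⟨f₀, continuousOn_empty _, fun x hx => hx.elim, fun x hx => hx.elim,
      fun x hx => hx.elim⟩

theorem HS0.hs {k : ℕ} {α : Type} [MetricSpace α] {V : Set α}
    (h : HS0 (fun N _ _ => Men k N) k V) : HS (fun N _ _ => Men k N) k V := by
  rcases h with rfl | h
  · exact hs_empty k
  · exact h

end Ex

end Pool.Agent.Work.MP_017613_gt
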