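import Pool.Agent.Work.MP_017613_gt.LocB
import Pool.Agent.Work.MP_017613_gt.Chi0
import Pool.Agent.Work.MP_017613_gt.Kit.Radial

/-!
# EX: definitions and joints

`K ⊆ V`, `V` obtained from `K` by attaching the `d`-cells `χ i` (`Fam (Cu d) (dCu d) K V χ`).
`Xp K χ`: `K` and the outer shells `1/2 ≤ crad`; `Xm χ`: the inner cubes `crad ≤ 1/2`; `X0 χ`: the
inner spheres `crad = 1/2`; `RadColl K χ r`: `r` is the radial collapse of `Xp K χ` to `K`.
-/

set_option linter.unusedSectionVars false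

open Set Topology Metric

namespace Pool.Agent.Work.MP_017613_gt

namespace Ex

open Chi Rnd MG Loc

section

variable {α : Type} [MetricSpace α] {m d : ℕ}

/-- `K` and the outer shells of the cells -/
def Xp (K : Set α) (χ : Fin m → (Fin d → ℝ) → α) : Set α :=
  K ∪ ⋃ i, χ i '' {x | x ∈ Cu d ∧ 1 / 2 ≤ crad x}

/-- the inner cubes -/
def Xm (χ : Fin m → (Fin d → ℝ) → α) : Set α := ⋃ i, χ i '' {x | crad x ≤ 1 / 2}

/-- the inner spheres -/
def X0 (χ : Fin m → (Fin d → ℝ) → α) : Set α := ⋃ i, χ i '' {x | crad x = 1 / 2}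

/-- `r` is the radial collapse of `Xp K χ` to `K` -/
structure RadColl (K : Set α) (χ : Fin m → (Fin d → ℝ) → α) (r : α → α) : Prop where
  cont : ContinuousOn r (Xp K χ)
  maps : MapsTo r (Xp K χ) K
  idK : ∀ z ∈ K, r z = z
  cell : ∀ i, ∀ x ∈ Cu d, 1 / 2 ≤ crad x → r (χ i x) = χ i (chom (1 / crad x) x)

/-- output of EX -/
structure ExOut (k : ℕ) (K V : Set α) (χ : Fin m → (Fin d → ℝ) → α) {D0 : Type}
    [MetricSpace D0] (l : D0 → α) (e : ℝ) {D' : Type} [MetricSpace D'] [CompactSpace D']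
    (J : D0 → D') (B : Fin m → Set D') (l' : D' → α) (r : α → α) : Prop where
  men : Men k D'
  ne : V.Nonempty → Nonempty D'
  contJ : Continuous J
  injJ : Function.Injective J
  menJ : MenS k (range J)
  closedB : ∀ i, IsClosed (B i)
  disjB : ∀ i j, i ≠ j → Disjoint (B i) (B j)
  cover : range J ∪ ⋃ i, B i = univ
  menB : ∀ i, MenS k (B i)
  menUB : MenS k (⋃ i, B i)
  menA : MenS k (range J ∩ ⋃ i, B i)
  zJ : ZIn (range J ∩ ⋃ i, B i) (range J)
  zB : ZIn (range J ∩ ⋃ i, B i) (⋃ i, B i)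
  soft : Soft k univ V l'
  mapsB : ∀ i, ∀ y ∈ B i, l' y ∈ χ i '' {x | crad x ≤ 1 / 2}
  coll : RadColl K χ r
  mapsJ : ∀ x, l' (J x) ∈ Xp K χ
  near : ∀ x, dist (r (l' (J x))) (l x) < e

end

/-- EX-a: a Menger space `B` over the cube, extending `a : A → dCu d` (for `d = 0`, `A` is empty).
`Soft` is void when the source type is empty, so non-emptiness is carried separately. -/
def J_EXA : Prop :=
  ∀ (k d : ℕ), 1 ≤ k → d ≤ k → ∀ (A : Type) [MetricSpace A] [CompactSpace A]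
    (a : A → (Fin d → ℝ)), Men k A → ((dCu d).Nonempty → Nonempty A) → Soft k univ (dCu d) a →
    ∃ (B : Type) (_ : MetricSpace B) (_ : CompactSpace B) (β : A → B) (b : B → (Fin d → ℝ)),
      Nonempty B ∧ Men k B ∧ Continuous β ∧ Function.Injective β ∧ ZS (range β) ∧ Soft k univ (Cu d) b ∧
        ∀ y, b (β y) = a y

/-- EX-b: `m` disjoint copies of `A` in `D0` over the inner spheres, and a soft `lp : D0 → Xp` -/
def J_EXB : Prop :=
  ∀ (k d : ℕ), 1 ≤ k → d ≤ k → ∀ (A : Type) [MetricSpace A] [CompactSpace A]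
    (a : A → (Fin d → ℝ)), Men k A → ((dCu d).Nonempty → Nonempty A) → Soft k univ (dCu d) a →
    ∀ (α : Type) [MetricSpace α] (K V : Set α) (m : ℕ) (χ : Fin m → (Fin d → ℝ) → α)
      (r : α → α), IsCompact K → MG.ULC k K → Fam (Cu d) (dCu d) K V χ → RadColl K χ r →
      ANE k (Xp K χ) → Soft k (Xp K χ) K r →
      ∀ (D0 : Type) [MetricSpace D0] [CompactSpace D0] (l : D0 → α), Men k D0 →
        (K.Nonempty → Nonempty D0) → Soft k univ K l → ∀ e > 0, ∃ (ae : Fin m → A → D0) (lp : D0 → α),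
          (∀ i, Continuous (ae i)) ∧ (∀ i j y z, ae i y = ae j z → i = j ∧ y = z) ∧
          ZS (⋃ i, range (ae i)) ∧ Soft k univ (Xp K χ) lp ∧
          (∀ i y, lp (ae i y) = χ i (chom (1 / 2) (a y))) ∧ ∀ x, dist (r (lp x)) (l x) < e

/-- EX -/
def J_EX : Prop :=
  ∀ (k d : ℕ), 1 ≤ k → d ≤ k → ∀ (A : Type) [MetricSpace A] [CompactSpace A]
    (a : A → (Fin d → ℝ)), Men k A → ((dCu d).Nonempty → Nonempty A) → Soft k univ (dCu d) a →
    ∀ (α : Type) [MetricSpace α] (K V : Set α) (m : ℕ) (χ : Fin m → (Fin d → ℝ) → α),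
      IsCompact K → MG.ULC k K → Fam (Cu d) (dCu d) K V χ →
      ∀ (D0 : Type) [MetricSpace D0] [CompactSpace D0] (l : D0 → α), Men k D0 →
        (K.Nonempty → Nonempty D0) → Soft k univ K l → ∀ e > 0, ∃ (D' : Type) (_ : MetricSpace D') (_ : CompactSpace D')
          (J : D0 → D') (B : Fin m → Set D') (l' : D' → α) (r : α → α),
          ExOut k K V χ l e J B l' r

end Ex

end Pool.Agent.Work.MP_017613_gt
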