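import Pool.Agent.Work.MP_017613_gt.ExD
import Pool.Agent.Work.MP_017613_gt.ExDefs

/-!
# JE from the joint EX

`je_lays`, `je_tp`: every compact set obtained from the empty set by layers of dimension at most
`k` has a soft map of a Menger manifold, non-empty if the set is non-empty.
-/

set_option linter.unusedSectionVars false

open Set Topology Metric

namespace Pool.Agent.Work.MP_017613_gt

namespace Ex

/-- non-empty compact Menger manifolds -/
def MenN (k : ℕ) (N : Type) [MetricSpace N] [CompactSpace N] : Prop := Nonempty N ∧ Men k N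

theorem soft_empty' (k : ℕ) {α : Type} [MetricSpace α] (l : Empty → α) :
    Chi.Soft k (univ : Set Empty) (∅ : Set α) l := by
  refine ⟨fun x => x.elim, fun x => x.elim, ?_⟩
  intro γ _ P A hP f f₀ _ hf _ _ _ ε _
  have hP0 : P = ∅ := eq_empty_of_forall_notMem fun x hx => hf hx
  have hA0 : A = ∅ := eq_empty_of_subset_empty (hP0 ▸ hP.sub)
  subst hP0 hA0
  exact ⟨f₀, continuousOn_empty _, fun x hx => hx.elim, fun x hx => hx.elim,
    fun x hx => hx.elim⟩

/-- the form with the empty space -/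
theorem HS0.men {k : ℕ} {α : Type} [MetricSpace α] {V : Set α} (h : HS0 (MenN k) k V) :
    ∃ (D : Type) (_ : MetricSpace D) (_ : CompactSpace D) (l : D → α),
      Men k D ∧ (V.Nonempty → Nonempty D) ∧ Chi.Soft k univ V l := by
  rcases h with rfl | ⟨D, i1, i2, l, hD, hl⟩
  · exact ⟨Empty, inferInstance, inferInstance, fun x => x.elim, men_empty k,
      fun h => h.ne_empty.elim rfl, soft_empty' k _⟩
  · exact ⟨D, i1, i2, l, hD.2, fun _ => hD.1, hl⟩

theorem exw_of_EX (h : J_EX) {k : ℕ} (hk : 1 ≤ k) : EXw (MenN k) k := by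
  intro d hd hs α _ K V cK uK hL h0
  obtain ⟨A, _, _, a, mA, nA, sa⟩ := hs.men
  obtain ⟨D0, _, _, l, mD, nD, sl⟩ := h0.men
  obtain ⟨m, χ, hF⟩ := hL
  obtain ⟨D', i1, i2, J, B, l', r, hE⟩ := h k d hk hd A a mA nA sa α K V m χ cK uK hF D0 l mD nD
    sl 1 one_pos
  rcases V.eq_empty_or_nonempty with hV | hV
  · exact Or.inl hV
  · exact Or.inr ⟨D', i1, i2, l', ⟨hE.ne hV, hE.men⟩, hE.soft⟩

/-- Menger manifolds over spheres -/
theorem hs_sphere (h : J_EX) {k : ℕ} (hk : 1 ≤ k) {d : ℕ} (hd : d ≤ k + 1) :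
    ∃ (A : Type) (_ : MetricSpace A) (_ : CompactSpace A) (a : A → (Fin d → ℝ)),
      Men k A ∧ ((MG.dCu d).Nonempty → Nonempty A) ∧ Chi.Soft k univ (MG.dCu d) a :=
  (exw_sphere (exw_of_EX h hk) d hd).men

/-- **JE** -/
theorem je_chain (h : J_EX) {k : ℕ} (hk : 1 ≤ k) {α : Type} [MetricSpace α] {ds : List ℕ}
    {V : Set α} (hV : Chn ds ∅ V) (hds : ∀ d ∈ ds, d ≤ k) : IsCompact V ∧ MG.ULC k V ∧
      ∃ (D : Type) (_ : MetricSpace D) (_ : CompactSpace D) (l : D → α),
        Men k D ∧ (V.Nonempty → Nonempty D) ∧ Chi.Soft k univ V l := by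
  obtain ⟨h1, h2, h3⟩ := exw_chain (exw_of_EX h hk) hV hds
  exact ⟨h1, h2, h3.men⟩

theorem je_lays (h : J_EX) {k : ℕ} (hk : 1 ≤ k) {α X : Type} [MetricSpace α] [MetricSpace X]
    {c : α → X} {t : ℝ} {ds : List ℕ} {V : Set α} (hV : MG.Tr.Lays c t ds ∅ V)
    (hds : ∀ d ∈ ds, d ≤ k) : IsCompact V ∧ MG.ULC k V ∧
      ∃ (D : Type) (_ : MetricSpace D) (_ : CompactSpace D) (l : D → α),
        Men k D ∧ (V.Nonempty → Nonempty D) ∧ Chi.Soft k univ V l :=
  je_chain h hk (chn_of_lays hV) hds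

theorem je_tp (h : J_EX) {k : ℕ} (hk : 1 ≤ k) {α : Type} [MetricSpace α] {V : Set α}
    (hV : MG.TP k ∅ V) : IsCompact V ∧ MG.ULC k V ∧
      ∃ (D : Type) (_ : MetricSpace D) (_ : CompactSpace D) (l : D → α),
        Men k D ∧ (V.Nonempty → Nonempty D) ∧ Chi.Soft k univ V l :=
  je_chain h hk (chn_of_tp hV) fun d hd => by
    have := List.mem_range.1 hd
    omega

end Ex

end Pool.Agent.Work.MP_017613_gt
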