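import Pool.Agent.Work.MP_017613_gt.RndD
import Pool.Agent.Work.MP_017613_gt.Swindle
import Pool.Agent.Work.MP_017613_gt.Chain

/-!
# Block 8.1: round balls and displacement

* `Split k P Q`: a decomposition of a space in two Menger sets along a Menger set, a Z-set of both.
* `RB k`: the set of round balls.
* `disp`: every round ball is moved into every non-empty open set.
-/

set_option linter.unusedSectionVars false

open Set Topology Metric

namespace Pool.Agent.Work.MP_017613_gt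

namespace Rnd

open Chi

variable {k : ℕ} {N : Type} [MetricSpace N] [CompactSpace N]

/-- a decomposition along a bicollared Menger set -/
structure Split (k : ℕ) (P Q : Set N) : Prop where
  un : P ∪ Q = univ
  mP : MenS k P
  mQ : MenS k Q
  mA : MenS k (P ∩ Q)
  zP : ZIn (P ∩ Q) P
  zQ : ZIn (P ∩ Q) Q

/-- the round balls -/
def RB (k : ℕ) (N : Type) [MetricSpace N] : Set (Set N) :=
  {P | ∃ Q, Split k P Q ∧ AEk k P ∧ AEk k (P ∩ Q)}

namespace Split

variable {P Q : Set N}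

theorem symm (h : Split k P Q) : Split k Q P := by
  refine ⟨by rw [union_comm]; exact h.un, h.mQ, h.mP, ?_, ?_, ?_⟩
  · rw [inter_comm]; exact h.mA
  · rw [inter_comm]; exact h.zQ
  · rw [inter_comm]; exact h.zP

/-- the interior of a piece -/
theorem interior_eq (h : Split k P Q) : interior P = Qᶜ := by
  apply Subset.antisymm
  · intro x hx hxQ
    rw [mem_interior_iff_mem_nhds, Metric.mem_nhds_iff] at hx
    obtain ⟨ε, hε, hb⟩ := hx
    obtain ⟨y, hyQ, hyA, hyx⟩ := h.zQ.exists_near hxQ hε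
    exact hyA ⟨hb hyx, hyQ⟩
  · rw [← (h.mQ.cpt.isClosed.isOpen_compl).interior_eq]
    refine interior_mono fun x hx => ?_
    have : x ∈ P ∪ Q := by rw [h.un]; trivial
    exact this.resolve_right hx

theorem eq_compl (h : Split k P Q) : Q = (interior P)ᶜ := by
  rw [h.interior_eq, compl_compl]

theorem men (h : Split k P Q) : Men k N := by
  have := h.mP.glue h.mQ h.mA h.zP h.zQ
  rw [h.un] at this
  exact men_of_univ this

theorem frontier_eq (h : Split k P Q) : frontier P = P ∩ Q := by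
  rw [frontier, h.mP.cpt.isClosed.closure_eq, h.interior_eq, sdiff_compl]

theorem closure_compl (h : Split k P Q) : closure Pᶜ = Q := by
  rw [_root_.closure_compl, ← h.eq_compl]

/-- invariance under homeomorphisms -/
theorem image (h : Split k P Q) (g : N ≃ₜ N) : Split k (g '' P) (g '' Q) := by
  have hg : ∀ S : Set N, Hom S (g '' S) g := fun S => ⟨g.continuous.continuousOn,
    g.injective.injOn, rfl⟩
  have hi : g '' P ∩ g '' Q = g '' (P ∩ Q) := (image_inter g.injective).symm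
  refine ⟨?_, h.mP.image (hg P), h.mQ.image (hg Q), ?_, ?_, ?_⟩
  · rw [← image_union, h.un, image_univ, g.surjective.range_eq]
  · rw [hi]; exact h.mA.image (hg _)
  · rw [hi]; exact ZIn.image (hg P) h.mP.cpt h.zP
  · rw [hi]; exact ZIn.image (hg Q) h.mQ.cpt h.zQ

end Split

/-- round balls are invariant under homeomorphisms -/
theorem RB.image (g : N ≃ₜ N) {P : Set N} (h : P ∈ RB k N) : g '' P ∈ RB k N := by
  obtain ⟨Q, h1, h2, h3⟩ := h
  have hg : ∀ S : Set N, Hom S (g '' S) g := fun S => ⟨g.continuous.continuousOn,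
    g.injective.injOn, rfl⟩
  refine ⟨g '' Q, h1.image g, h2.image (hg P) h1.mP.cpt, ?_⟩
  rw [← image_inter g.injective]
  exact h3.image (hg _) h1.mA.cpt

/-- the group generated by the homeomorphisms supported in round balls -/
def Hn (k : ℕ) (N : Type) [MetricSpace N] : Subgroup (N ≃ₜ N) := Swindle.Hgp (RB k N)

section Sub

variable {α : Type} [MetricSpace α]

/-- transport of a set of a subtype to the ambient space -/
theorem hom_val {P : Set α} (S : Set P) : Hom S (Subtype.val '' S) (Subtype.val : P → α) :=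
  ⟨continuous_subtype_val.continuousOn, Subtype.val_injective.injOn, rfl⟩

variable (T : Pre k)

include T in
/-- collar of a Z-set, in a set -/
theorem Pre.collar_set {Q A : Set α} (mQ : MenS k Q) (mA : MenS k A) (zA : ZIn A Q) :
    ∃ C E : Set α, C ∪ E = Q ∧ MenS k C ∧ MenS k E ∧ MenS k (C ∩ E) ∧ ZIn A C ∧
      ZIn (C ∩ E) C ∧ ZIn (C ∩ E) E ∧ Disjoint A E ∧ (AEk k A → AEk k C ∧ AEk k (C ∩ E)) := by
  have : CompactSpace Q := isCompact_iff_compactSpace.1 mQ.cpt
  have : CompactSpace A := isCompact_iff_compactSpace.1 mA.cpt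
  have hr : range (inclusion zA.2.1) = ((↑) ⁻¹' A : Set Q) := range_inclusion zA.2.1
  obtain ⟨C, E, h1, h2, h3, h4, h5, h6, h7, h8, h9⟩ := T.collar_type mQ.men mA.men
    (j := inclusion zA.2.1) (continuous_inclusion zA.2.1) (inclusion_injective zA.2.1)
    (by rw [hr]; exact zA.zs)
  have hi : (Subtype.val '' C : Set α) ∩ Subtype.val '' E = Subtype.val '' (C ∩ E) :=
    (image_inter Subtype.val_injective).symm
  have hA : Subtype.val '' range (inclusion zA.2.1) = A := by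
    rw [hr, Subtype.image_preimage_coe, inter_eq_right.2 zA.2.1]
  refine ⟨Subtype.val '' C, Subtype.val '' E, ?_, h2.image (hom_val C), h3.image (hom_val E),
    ?_, ?_, ?_, ?_, ?_, fun aA => ?_⟩
  · rw [← image_union, h1, image_univ, Subtype.range_coe]
  · rw [hi]; exact h4.image (hom_val _)
  · have := ZIn.image (hom_val C) h2.cpt h5
    rwa [hA] at this
  · rw [hi]; exact ZIn.image (hom_val C) h2.cpt h6
  · rw [hi]; exact ZIn.image (hom_val E) h3.cpt h7
  · rw [← hA]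
    exact (disjoint_image_iff Subtype.val_injective).2 h8
  · obtain ⟨φ, hφ, -⟩ := exists_toSubtype mA.ne
    obtain ⟨h10, h11⟩ := h9 (aA.image hφ mA.cpt)
    refine ⟨h10.image (hom_val C) h2.cpt, ?_⟩
    rw [hi]
    exact h11.image (hom_val _) h4.cpt

include T in
/-- small balls in a set, relative to a Z-set -/
theorem Pre.small_ball_set {R W : Set α} (mR : MenS k R) (zW : ZIn W R) {x : α} (hxR : x ∈ R)
    (hx : x ∉ W) {ε : ℝ} (hε : 0 < ε) :
    ∃ (D E : Set α) (h : α → α), D ∪ E = R ∧ x ∈ D ∧ x ∉ E ∧ (∀ y ∈ D, dist y x < ε) ∧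
      Disjoint W D ∧ MenS k D ∧ AEk k D ∧ MenS k (D ∩ E) ∧ AEk k (D ∩ E) ∧ ZIn (D ∩ E) D ∧
      ZIn (D ∩ E) E ∧ Hom R E h ∧ EqOn h (fun y => y) W := by
  have : CompactSpace R := isCompact_iff_compactSpace.1 mR.cpt
  obtain ⟨D, E, h, h1, h2, h3, h4, h5, h6, h7, h8, h9, h10, h11, h12⟩ :=
    T.small_ball mR.men zW.zs (x := ⟨x, hxR⟩) hx hε
  have hi : (Subtype.val '' D : Set α) ∩ Subtype.val '' E = Subtype.val '' (D ∩ E) :=
    (image_inter Subtype.val_injective).symm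
  obtain ⟨φ, hφ, hφ'⟩ := exists_toSubtype mR.ne
  refine ⟨Subtype.val '' D, Subtype.val '' E, fun y => (h (φ y) : α), ?_, ?_, ?_, ?_, ?_,
    h5.image (hom_val D), h6.image (hom_val D) h5.cpt, ?_, ?_, ?_, ?_, ?_, ?_⟩
  · rw [← image_union, h1, image_univ, Subtype.range_coe]
  · have : (⟨x, hxR⟩ : R) ∈ D ∪ E := by rw [h1]; trivial
    exact ⟨_, this.resolve_right h2, rfl⟩
  · rintro ⟨y, hy, hyx⟩
    have : y = ⟨x, hxR⟩ := Subtype.ext hyx
    exact h2 (this ▸ hy)
  · rintro _ ⟨y, hy, rfl⟩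
    exact h3 y hy
  · rw [disjoint_left]
    rintro _ hw ⟨y, hy, rfl⟩
    exact disjoint_left.1 h4 (show y ∈ ((↑) ⁻¹' W : Set R) from hw) hy
  · rw [hi]; exact h7.image (hom_val _)
  · rw [hi]; exact h8.image (hom_val _) h7.cpt
  · rw [hi]; exact ZIn.image (hom_val D) h5.cpt h9
  · rw [hi]
    exact ZIn.image (hom_val E) (h11.isCompact isCompact_univ) h10
  · exact ((hom_val E).comp h11).comp hφ
  · intro y hy
    have h13 : φ y = ⟨y, zW.2.1 hy⟩ := hφ' ⟨y, zW.2.1 hy⟩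
    change (h (φ y) : α) = y
    rw [h13, h12 (show (⟨y, zW.2.1 hy⟩ : R) ∈ ((↑) ⁻¹' W : Set R) from hy)]

end Sub

variable (T : Pre k)

include T in
/-- a round ball lies in the interior of a round ball, and the closed ring between them is
a Menger space and an absolute extensor -/
theorem Pre.plus {P Q : Set N} (h : Split k P Q) (aP : AEk k P) (aA : AEk k (P ∩ Q)) :
    ∃ C E : Set N, C ∪ E = Q ∧ Split k (P ∪ C) E ∧ AEk k (P ∪ C) ∧ P ∩ C = P ∩ Q ∧ AEk k C ∧
      MenS k C ∧ ZIn (P ∩ Q) C ∧ ZIn (C ∩ E) C ∧ P ∩ E = ∅ ∧ AEk k (C ∩ E) := by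
  obtain ⟨C, E, h1, h2, h3, h4, h5, h6, h7, h8, h9⟩ := T.collar_set h.mQ h.mA h.zQ
  obtain ⟨aC, aCE⟩ := h9 aA
  have hCQ : C ⊆ Q := by rw [← h1]; exact subset_union_left
  have hEQ : E ⊆ Q := by rw [← h1]; exact subset_union_right
  have hPC : P ∩ C = P ∩ Q := Subset.antisymm (inter_subset_inter_right P hCQ)
    fun x hx => ⟨hx.1, h5.2.1 hx⟩
  have hPE : P ∩ E = ∅ := by
    rw [← disjoint_iff_inter_eq_empty, disjoint_left]
    intro x hxP hxE
    exact disjoint_left.1 h8 ⟨hxP, hEQ hxE⟩ hxE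
  have hPCE : (P ∪ C) ∩ E = C ∩ E := by
    rw [union_inter_distrib_right, hPE, empty_union]
  have mPC : MenS k (P ∪ C) := h.mP.glue h2 (by rw [hPC]; exact h.mA) (by rw [hPC]; exact h.zP)
    (by rw [hPC]; exact h5)
  have aPC : AEk k (P ∪ C) := AEk.union h.mP.cpt.isClosed h2.cpt.isClosed aP aC
    (by rw [hPC]; exact aA)
  refine ⟨C, E, h1, ⟨?_, mPC, h3, ?_, ?_, ?_⟩, aPC, hPC, aC, h2, h5, h6, hPE, aCE⟩
  · rw [union_assoc, h1, h.un]
  · rw [hPCE]; exact h4
  · rw [hPCE, union_comm]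
    refine ZIn.left h2 h.mP h6 ?_
    rw [disjoint_left]
    intro x hx hxP
    have : x ∈ P ∩ E := ⟨hxP, hx.2⟩
    rw [hPE] at this
    exact this
  · rw [hPCE]; exact h7

include T in
/-- **LOCAL DISPLACEMENT**: a round ball is moved into any open set which meets it, by a
homeomorphism supported in a round ball. -/
theorem Pre.disp_local {P : Set N} (hP : P ∈ RB k N) {O : Set N} (hO : IsOpen O)
    (hne : (O ∩ P).Nonempty) :
    ∃ f : N ≃ₜ N, f '' P ⊆ O ∧ ∃ P' ∈ RB k N, Swindle.SuppIn f P' ∧ P ⊆ interior P' := by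
  obtain ⟨Q, hs, aP, aA⟩ := hP
  obtain ⟨C, E, h1, h2, h3, h4, h5, h6, h7, h8, h9, h10⟩ := T.plus hs aP aA
  have hCQ : C ⊆ Q := by rw [← h1]; exact subset_union_left
  have hPCE : (P ∪ C) ∩ E = C ∩ E := by
    rw [union_inter_distrib_right, h9, empty_union]
  have aCE : AEk k (C ∩ E) := h10
  have hP'RB : P ∪ C ∈ RB k N := ⟨E, h2, h3, by rw [hPCE]; exact aCE⟩
  have hPint : P ⊆ interior (P ∪ C) := by
    rw [h2.interior_eq]
    intro x hx hxE
    have : x ∈ P ∩ E := ⟨hx, hxE⟩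
    rw [h9] at this
    exact this
  -- the small ball
  obtain ⟨x, hxO, hxP⟩ := hne
  obtain ⟨ε, hε, hb⟩ := Metric.isOpen_iff.1 hO x hxO
  have zA1 : ZIn (C ∩ E) (P ∪ C) := by rw [← hPCE]; exact h2.zP
  have hxA1 : x ∉ C ∩ E := fun hx => by
    have : x ∈ P ∩ E := ⟨hxP, hx.2⟩
    rw [h9] at this
    exact this
  obtain ⟨D, E', h, i1, i2, i3, i4, i5, i6, i7, i8, i9, i10, i11, i12, i13⟩ :=
    T.small_ball_set h2.mP zA1 (Or.inl hxP) hxA1 hε
  have hA1E' : C ∩ E ⊆ E' := by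
    intro y hy
    have : y ∈ D ∪ E' := by rw [i1]; exact Or.inr hy.1
    exact this.resolve_left (disjoint_left.1 i5 hy)
  have mE' : MenS k E' := h2.mP.image i12
  have aE' : AEk k E' := h3.image i12 h2.mP.cpt
  have zA1E' : ZIn (C ∩ E) E' := by
    have := ZIn.image i12 h2.mP.cpt zA1
    have h11 : h '' (C ∩ E) = C ∩ E := by
      ext y
      constructor
      · rintro ⟨z, hz, rfl⟩
        rw [i13 hz]
        exact hz
      · intro hy
        exact ⟨y, hy, i13 hy⟩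
    rwa [h11] at this
  -- the homeomorphism of the spheres
  obtain ⟨g, hg, -⟩ := T.ext_homeo hs.mA i8 aA i9 (ZIn.empty _) (ZIn.empty _)
    (g := fun y => y) (by simpa using Hom.id (∅ : Set N))
  -- inside the ball
  obtain ⟨f1, hf1, hf1'⟩ := T.ext_homeo hs.mP i6 aP i7 hs.zP i10 hg
  -- the ring
  have dA : Disjoint (P ∩ Q) (C ∩ E) := by
    rw [disjoint_left]
    intro y hy hy'
    have : y ∈ P ∩ E := ⟨hy.1, hy'.2⟩
    rw [h9] at this
    exact this
  have dB : Disjoint (D ∩ E') (C ∩ E) := by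
    rw [disjoint_left]
    intro y hy hy'
    exact disjoint_left.1 i5 hy' hy.1
  obtain ⟨g2, hg2, hg2a, hg2b⟩ := Hom.glue hs.mA.cpt.isClosed zA1.1 hg (Hom.id (C ∩ E))
    (fun y hy hy' => (disjoint_left.1 dA hy hy').elim)
    (fun y hy => (disjoint_left.1 dB hy.1 hy.2).elim)
  have zdom : ZIn (P ∩ Q ∪ C ∩ E) C := by
    refine ⟨hs.mA.cpt.isClosed.union zA1.1, union_subset h7.2.1 h8.2.1, ?_⟩
    have : CompactSpace C := isCompact_iff_compactSpace.1 h6.cpt
    have hz := h7.zs.union h8.zs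
    rw [← preimage_union] at hz
    exact (zin_of_zs (hs.mA.cpt.isClosed.union zA1.1) (union_subset h7.2.1 h8.2.1) hz).2.2
  have zcod : ZIn (D ∩ E' ∪ C ∩ E) E' := by
    refine ⟨i8.cpt.isClosed.union zA1.1, union_subset i11.2.1 hA1E', ?_⟩
    have : CompactSpace E' := isCompact_iff_compactSpace.1 mE'.cpt
    have hz := i11.zs.union zA1E'.zs
    rw [← preimage_union] at hz
    exact (zin_of_zs (i8.cpt.isClosed.union zA1.1) (union_subset i11.2.1 hA1E') hz).2.2
  obtain ⟨f2, hf2, hf2'⟩ := T.ext_homeo h6 mE' h5 aE' zdom zcod hg2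
  have hAC : P ∩ C = P ∩ Q := h4
  -- gluing
  obtain ⟨f3, hf3, hf3a, hf3b⟩ := Hom.glue hs.mP.cpt.isClosed h6.cpt.isClosed hf1 hf2
    (fun y hy hy' => by
      have hyA : y ∈ P ∩ Q := by rw [← hAC]; exact ⟨hy, hy'⟩
      rw [hf1' hyA, hf2' (Or.inl hyA), hg2a hyA])
    (fun y hy => by
      rw [hAC]
      rw [← hg.img] at hy
      obtain ⟨z, hz, rfl⟩ := hy
      exact ⟨z, hz, hf1' hz⟩)
  rw [i1] at hf3
  have hfA1 : ∀ y ∈ C ∩ E, f3 y = y := fun y hy => by
    rw [hf3b hy.1, hf2' (Or.inr hy), hg2b hy]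
  obtain ⟨f4, hf4, hf4a, hf4b⟩ := Hom.glue (h2.mP.cpt.isClosed) h2.mQ.cpt.isClosed hf3
    (Hom.id E) (fun y hy hy' => by
      have : y ∈ C ∩ E := by rw [← hPCE]; exact ⟨hy, hy'⟩
      exact hfA1 y this)
    (fun y hy => ⟨y, hy, hfA1 y (by rw [← hPCE]; exact hy)⟩)
  rw [h2.un] at hf4
  obtain ⟨F, hF⟩ := hf4.exists_homeo_univ
  refine ⟨F, ?_, P ∪ C, hP'RB, fun y hy => ?_, hPint⟩
  · rintro _ ⟨y, hy, rfl⟩
    rw [hF, hf4a (Or.inl hy), hf3a hy]
    exact hb (i4 _ (hf1.maps hy))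
  · have : y ∈ P ∪ C ∪ E := by rw [h2.un]; trivial
    have hyE := this.resolve_left hy
    rw [hF, hf4b hyE]

include T in
/-- small round balls -/
theorem Pre.base (mN : Men k N) (x : N) {U : Set N} (hU : U ∈ 𝓝 x) :
    ∃ P, P ∈ RB k N ∧ P ∈ 𝓝 x ∧ P ⊆ U := by
  obtain ⟨ε, hε, hb⟩ := Metric.mem_nhds_iff.1 hU
  obtain ⟨D, E, h, i1, i3, i4, i5, i6, i7, i8, i9, i10, i11, i12, i13⟩ :=
    T.small_ball mN ZS.empty (notMem_empty x) hε
  have hs : Split k D E := ⟨i1, i6, mN.univ.image i12, i8, i10, i11⟩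
  refine ⟨D, ⟨E, hs, i7, i9⟩, ?_, fun y hy => hb (i4 y hy)⟩
  rw [← mem_interior_iff_mem_nhds, hs.interior_eq]
  exact i3

include T in
/-- **DISPLACEMENT** -/
theorem Pre.disp [PreconnectedSpace N] {P : Set N} (hP : P ∈ RB k N) {O : Set N}
    (hO : IsOpen O) (hne : O.Nonempty) : ∃ h ∈ Hn k N, h '' P ⊆ O := by
  have mN : Men k N := by
    obtain ⟨Q, hs, -, -⟩ := hP
    exact hs.men
  refine MG.chain (RB := fun P => P ∈ RB k N) (H := Hn k N) (fun x U hU => T.base mN x hU) ?_ hP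
    ?_ hO hne
  · intro P D hP hD hDi hDP
    obtain ⟨f, h1, P', h2, h3, -⟩ := T.disp_local hP isOpen_interior (O := interior D) (by
      obtain ⟨y, hy⟩ := hDi
      exact ⟨y, hy, interior_subset (hDP (interior_subset hy))⟩)
    exact ⟨f, Swindle.mem_Hgp h2 h3, h1.trans interior_subset⟩
  · obtain ⟨Q, hs, -, -⟩ := hP
    obtain ⟨x, hx⟩ := hs.mP.ne
    obtain ⟨y, hy, hyA, -⟩ := hs.zP.exists_near hx one_pos
    refine ⟨y, ?_⟩
    rw [hs.interior_eq]
    exact fun hyQ => hyA ⟨hy, hyQ⟩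

end Rnd

end Pool.Agent.Work.MP_017613_gt
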