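import Pool.Agent.Work.MP_017613_gt.Statement
import Pool.Agent.Work.MP_017613_gt.PushOff
import Pool.Agent.Work.MP_017613_gt.Cub

/-!
# Compact polyhedra: dimension, cubical sets
-/

set_option autoImplicit false

open Set Topology Metric
open Pool.Agent.Work.MP_017613_gt (PushOff PushOff.empty PushOff.image PushOff.biUnion
  pushOff_of_finrank)

namespace MG

variable {m n : ℕ}

lemma isCompact_hull (s : Finset (Fin m → ℝ)) :
    IsCompact (convexHull ℝ (s : Set (Fin m → ℝ))) :=
  s.finite_toSet.isCompact_convexHull (𝕜 := ℝ)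

lemma hull_sub {s : Finset (Fin m → ℝ)} {p x : Fin m → ℝ} (hp : p ∈ s)
    (hx : x ∈ convexHull ℝ (s : Set (Fin m → ℝ))) :
    x - p ∈ vectorSpan ℝ (s : Set (Fin m → ℝ)) := by
  have h1 : x ∈ affineSpan ℝ (s : Set (Fin m → ℝ)) := convexHull_subset_affineSpan _ hx
  have h2 : p ∈ affineSpan ℝ (s : Set (Fin m → ℝ)) := subset_affineSpan ℝ _ hp
  have h3 := AffineSubspace.vsub_mem_direction h1 h2
  rw [direction_affineSpan] at h3
  exact h3

/-- a convex cell has dimension at most the dimension of its affine span -/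
lemma pushOff_hull {s : Finset (Fin m → ℝ)}
    (hs : Module.finrank ℝ (vectorSpan ℝ (s : Set (Fin m → ℝ))) ≤ n) :
    PushOff n (convexHull ℝ (s : Set (Fin m → ℝ))) := by
  rcases s.eq_empty_or_nonempty with rfl | ⟨p, hp⟩
  · simpa using PushOff.empty
  · set V := vectorSpan ℝ (s : Set (Fin m → ℝ)) with hV
    set φ : V → (Fin m → ℝ) := fun v => (v : Fin m → ℝ) + p with hφ
    have hc : Continuous φ := continuous_subtype_val.add continuous_const
    set K : Set V := φ ⁻¹' (convexHull ℝ (s : Set (Fin m → ℝ))) with hK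
    have hemb : IsClosedEmbedding φ :=
      ((Homeomorph.addRight p).isClosedEmbedding).comp
        (V.closed_of_finiteDimensional.isClosedEmbedding_subtypeVal)
    have hKc : IsCompact K := hemb.isCompact_preimage (isCompact_hull s)
    have h1 : PushOff n K := pushOff_of_finrank hs hKc
    have h2 := h1.image hKc (φ := φ) hc.continuousOn hemb.injective.injOn
    have h3 : φ '' K = convexHull ℝ (s : Set (Fin m → ℝ)) := by
      apply Subset.antisymm
      · rintro _ ⟨v, hv, rfl⟩
        exact hv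
      · intro x hx
        refine ⟨⟨x - p, hull_sub hp hx⟩, ?_, ?_⟩
        · change x - p + p ∈ convexHull ℝ (s : Set (Fin m → ℝ))
          rw [sub_add_cancel]
          exact hx
        · exact sub_add_cancel x p
    rw [h3] at h2
    exact h2

/-- the product of a convex cell with the interval -/
lemma pushOff_hull_prod {s : Finset (Fin m → ℝ)}
    (hs : Module.finrank ℝ (vectorSpan ℝ (s : Set (Fin m → ℝ))) ≤ n) :
    PushOff (n + 1) (convexHull ℝ (s : Set (Fin m → ℝ)) ×ˢ Icc (0 : ℝ) 1) := by
  rcases s.eq_empty_or_nonempty with rfl | ⟨p, hp⟩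
  · simpa using PushOff.empty
  · set V := vectorSpan ℝ (s : Set (Fin m → ℝ)) with hV
    set φ : V × ℝ → (Fin m → ℝ) × ℝ := fun v => ((v.1 : Fin m → ℝ) + p, v.2) with hφ
    have hc : Continuous φ := by
      apply Continuous.prodMk
      · exact (continuous_subtype_val.comp continuous_fst).add continuous_const
      · exact continuous_snd
    have hemb1 : IsClosedEmbedding (fun v : V => (v : Fin m → ℝ) + p) :=
      ((Homeomorph.addRight p).isClosedEmbedding).comp
        (V.closed_of_finiteDimensional.isClosedEmbedding_subtypeVal)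
    have hemb : IsClosedEmbedding φ := hemb1.prodMap IsClosedEmbedding.id
    set K : Set (V × ℝ) := φ ⁻¹' (convexHull ℝ (s : Set (Fin m → ℝ)) ×ˢ Icc (0 : ℝ) 1) with hK
    have hKc : IsCompact K := hemb.isCompact_preimage ((isCompact_hull s).prod isCompact_Icc)
    have h1 : PushOff (n + 1) K := by
      apply pushOff_of_finrank _ hKc
      rw [Module.finrank_prod, Module.finrank_self]
      omega
    have h2 := h1.image hKc (φ := φ) hc.continuousOn hemb.injective.injOn
    have h3 : φ '' K = convexHull ℝ (s : Set (Fin m → ℝ)) ×ˢ Icc (0 : ℝ) 1 := by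
      apply Subset.antisymm
      · rintro _ ⟨v, hv, rfl⟩
        exact hv
      · rintro ⟨x, t⟩ ⟨hx, ht⟩
        refine ⟨(⟨x - p, hull_sub hp hx⟩, t), ?_, ?_⟩
        · refine ⟨?_, ht⟩
          change x - p + p ∈ convexHull ℝ (s : Set (Fin m → ℝ))
          rw [sub_add_cancel]
          exact hx
        · exact Prod.ext (sub_add_cancel x p) rfl
    rw [h3] at h2
    exact h2

/-- A compact polyhedron is compact. -/
theorem IsPoly.isCompact {P : Set (Fin m → ℝ)} (h : IsPoly n P) : IsCompact P := by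
  obtain ⟨F, -, rfl⟩ := h
  exact F.isCompact_biUnion fun s _ => isCompact_hull s

/-- A polyhedron of dimension at most `n` has dimension at most `n`. -/
theorem IsPoly.pushOff {P : Set (Fin m → ℝ)} (h : IsPoly n P) : PushOff n P := by
  obtain ⟨F, hF, rfl⟩ := h
  exact PushOff.biUnion F (fun s hs => pushOff_hull (hF s hs)) fun s _ => isCompact_hull s

/-- The product of a polyhedron of dimension at most `n` with the interval. -/
theorem IsPoly.pushOff_prod {P : Set (Fin m → ℝ)} (h : IsPoly n P) :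
    PushOff (n + 1) (P ×ˢ Icc (0 : ℝ) 1) := by
  obtain ⟨F, hF, rfl⟩ := h
  have h1 : (⋃ s ∈ F, convexHull ℝ (s : Set (Fin m → ℝ))) ×ˢ Icc (0 : ℝ) 1 =
      ⋃ s ∈ F, convexHull ℝ (s : Set (Fin m → ℝ)) ×ˢ Icc (0 : ℝ) 1 := by
    ext ⟨x, t⟩
    simp only [mem_prod, mem_iUnion, exists_prop]
    constructor
    · rintro ⟨⟨s, hs, hx⟩, ht⟩
      exact ⟨s, hs, hx, ht⟩
    · rintro ⟨s, hs, hx, ht⟩
      exact ⟨⟨s, hs, hx⟩, ht⟩
  rw [h1]
  exact PushOff.biUnion F (fun s hs => pushOff_hull_prod (hF s hs))
    fun s _ => (isCompact_hull s).prod isCompact_Icc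

/-! ## Cubical sets -/

/-- the vertices of a cube of the grid -/
noncomputable def verts (q : ℕ) (w : Fin m → ℤ) : Finset (Fin m → ℝ) :=
  Fintype.piFinset fun i =>
    ({((w i / 2 : ℤ) : ℝ) / q, (((w i + 1) / 2 : ℤ) : ℝ) / q} : Finset ℝ)

lemma hull_verts {q : ℕ} (hq : 0 < q) (w : Fin m → ℤ) :
    convexHull ℝ (verts q w : Set (Fin m → ℝ)) = cube q w := by
  have hq' : (0 : ℝ) < q := by exact_mod_cast hq
  rw [cube_eq_Icc hq, verts, Fintype.coe_piFinset, ← Set.pi_univ_Icc]
  rw [convexHull_pi]
  refine Set.pi_congr rfl fun i _ => ?_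
  have h1 : (w i / 2 : ℤ) ≤ (w i + 1) / 2 := by omega
  have h2 : ((w i / 2 : ℤ) : ℝ) / q ≤ (((w i + 1) / 2 : ℤ) : ℝ) / q :=
    div_le_div_of_nonneg_right (by exact_mod_cast h1) hq'.le
  rw [Finset.coe_insert, Finset.coe_singleton, convexHull_pair, segment_eq_Icc h2]

lemma finrank_verts (q : ℕ) (w : Fin m → ℤ) :
    Module.finrank ℝ (vectorSpan ℝ (verts q w : Set (Fin m → ℝ))) ≤ dm w := by
  classical
  set S : Finset (Fin m) := Finset.univ.filter fun i => Odd (w i) with hS
  let r : (Fin m → ℝ) →ₗ[ℝ] (S → ℝ) := LinearMap.funLeft ℝ ℝ (fun i : S => (i : Fin m))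
  have h1 : ∀ v ∈ vectorSpan ℝ (verts q w : Set (Fin m → ℝ)), ∀ i, i ∉ S → v i = 0 := by
    let U : Submodule ℝ (Fin m → ℝ) :=
      { carrier := {v | ∀ i, i ∉ S → v i = 0}
        add_mem' := fun {a b} ha hb i hi => by
          change a i + b i = 0
          rw [ha i hi, hb i hi, add_zero]
        zero_mem' := fun i _ => rfl
        smul_mem' := fun c a ha i hi => by
          change c * a i = 0
          rw [ha i hi, mul_zero] }
    have h2 : vectorSpan ℝ (verts q w : Set (Fin m → ℝ)) ≤ U := by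
      rw [vectorSpan, Submodule.span_le]
      rintro _ ⟨a, ha, b, hb, rfl⟩ i hi
      have ha' := Fintype.mem_piFinset.1 (Finset.mem_coe.1 ha) i
      have hb' := Fintype.mem_piFinset.1 (Finset.mem_coe.1 hb) i
      have hev : ¬ Odd (w i) := by
        intro h
        exact hi (by rw [hS]; simp [h])
      rw [Int.not_odd_iff_even] at hev
      obtain ⟨c, hc⟩ := hev
      have h3 : (w i + 1) / 2 = w i / 2 := by omega
      rw [h3] at ha' hb'
      simp only [Finset.mem_insert, Finset.mem_singleton, or_self] at ha' hb'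
      change a i - b i = 0
      rw [ha', hb', sub_self]
    exact fun v hv => h2 hv
  have h4 : Function.Injective (r.comp (vectorSpan ℝ (verts q w : Set (Fin m → ℝ))).subtype) := by
    rw [injective_iff_map_eq_zero]
    intro v hv
    apply Subtype.ext
    funext i
    by_cases hi : i ∈ S
    · have := congrFun hv ⟨i, hi⟩
      exact this
    · exact h1 v v.2 i hi
  have h5 := LinearMap.finrank_le_finrank_of_injective h4
  rw [Module.finrank_fintype_fun_eq_card, Fintype.card_coe] at h5
  exact h5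

/-- A cubical set whose cubes have dimension at most `n` is a polyhedron of dimension at most
`n`. -/
theorem IsCub.isPoly {q : ℕ} (hq : 0 < q) {P : Set (Fin m → ℝ)} (hP : IsCub q P)
    (hd : ∀ x ∈ P, dm (car q x) ≤ n) : IsPoly n P := by
  classical
  have hfin := hP.finite_car
  refine ⟨hfin.toFinset.image (verts q), ?_, ?_⟩
  · intro s hs
    obtain ⟨w, hw, rfl⟩ := Finset.mem_image.1 hs
    obtain ⟨x, hx, rfl⟩ := hfin.mem_toFinset.1 hw
    exact (finrank_verts q _).trans (hd x hx)
  · conv_lhs => rw [hP.eq_iUnion]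
    ext x
    simp only [mem_iUnion, exists_prop, Finset.mem_image, Set.Finite.mem_toFinset]
    constructor
    · rintro ⟨w, hw, hx⟩
      exact ⟨verts q w, ⟨w, hw, rfl⟩, by rw [hull_verts hq]; exact hx⟩
    · rintro ⟨s, ⟨w, hw, rfl⟩, hx⟩
      rw [hull_verts hq] at hx
      exact ⟨w, hw, hx⟩

end MG
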