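import Pool.Agent.Work.MP_017613_gt.Statement
import Pool.Agent.Work.MP_017613_gt.TopPoly
import Pool.Agent.Work.MP_017613_gt.Coarse
import Pool.Agent.Work.MP_017613_gt.Kit.Discr

/-!
# The data for the unknotting theorem

`top_data`: a homeomorphism `f` of `M` which is `n`-homotopic to the identity, `M` compact of
dimension at most `n + 1` and `LC^n`. There are a cubical set `R` of dimension at most `n + 1`, a
map `q : M → R` and a map `β : R → M` with `β q` close to the identity, such that `β` and `f β` are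
homotopic on the `n`-skeleton of `R`.
-/

set_option autoImplicit false

open Set Topology Metric
open Pool.Agent.Work.MP_017613_gt

namespace MG

lemma exists_emb {N m : ℕ} (hm : 0 < m) {d : ℕ} {w : Fin N → ℤ} (hd : dm w = d) :
    ∃ (e : (Fin d → ℝ) → (Fin N → ℝ)) (p : (Fin N → ℝ) → (Fin d → ℝ)), Continuous e ∧
      (∀ t ∈ Cu d, e t ∈ cube m w) ∧ (∀ t ∈ dCu d, e t ∈ bdry m w) ∧ (∀ t, p (e t) = t) ∧
      (∀ x ∈ cube m w, p x ∈ Cu d ∧ e (p x) = x) ∧ (∀ x ∈ bdry m w, p x ∈ dCu d) := by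
  subst hd
  exact ⟨emb m w, prj m w, continuous_emb m w, fun t ht => emb_mem hm ht,
    fun t ht => emb_mem_bdry hm ht, fun t => prj_emb hm w t,
    fun x hx => ⟨prj_mem hx, emb_prj hm hx⟩, fun x hx => prj_mem_Bd hx⟩

/-- The top-dimensional cells of a cubical set. -/
theorem exists_fam {N m : ℕ} (hm : 0 < m) {K : Set (Fin N → ℝ)} (hK : IsCub m K) {n : ℕ}
    (hd : ∀ z ∈ K, dm (car m z) ≤ n + 1) :
    ∃ (r : ℕ) (χ : Fin r → (Fin (n + 1) → ℝ) → K),
      Fam (Cu (n + 1)) (dCu (n + 1)) {z : K | dm (car m z.1) ≤ n} univ χ := by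
  classical
  have hfin : {w | w ∈ car m '' K ∧ dm w = n + 1}.Finite := hK.finite_car.subset fun w hw => hw.1
  have : Fintype {w | w ∈ car m '' K ∧ dm w = n + 1} := hfin.fintype
  obtain ⟨eq⟩ : Nonempty ({w | w ∈ car m '' K ∧ dm w = n + 1} ≃
      Fin (Fintype.card {w | w ∈ car m '' K ∧ dm w = n + 1})) := ⟨Fintype.equivFin _⟩
  set r := Fintype.card {w | w ∈ car m '' K ∧ dm w = n + 1} with hr
  have hw : ∀ i : Fin r, dm (eq.symm i).1 = n + 1 := fun i => (eq.symm i).2.2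
  have hwK : ∀ i : Fin r, cube m (eq.symm i).1 ⊆ K := by
    intro i
    obtain ⟨x, hx, h⟩ := (eq.symm i).2.1
    rw [← h]
    exact hK.cube_subset_of hx rfl
  choose e p he1 he2 he3 he4 he5 he6 using fun i : Fin r => exists_emb hm (hw i)
  have hne : ∀ i : Fin r, Nonempty K := by
    intro i
    obtain ⟨x, hx, h⟩ := (eq.symm i).2.1
    exact ⟨⟨x, hx⟩⟩
  let χ : Fin r → (Fin (n + 1) → ℝ) → K := fun i t =>
    if h : e i t ∈ K then ⟨e i t, h⟩ else (hne i).some
  have hχ : ∀ i, ∀ t ∈ Cu (n + 1), (χ i t : Fin N → ℝ) = e i t := by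
    intro i t ht
    have h : e i t ∈ K := hwK i (he2 i t ht)
    show ((if h : e i t ∈ K then (⟨e i t, h⟩ : K) else (hne i).some : K) : Fin N → ℝ) = e i t
    rw [dif_pos h]
  have hint : ∀ i, ∀ t ∈ Cu (n + 1), t ∉ dCu (n + 1) → car m (e i t) = (eq.symm i).1 := by
    intro i t ht htd
    by_contra h
    apply htd
    have := he6 i (e i t) ⟨he2 i t ht, h⟩
    rwa [he4] at this
  refine ⟨r, χ, ?_, ?_, ?_, ?_, ?_⟩
  · intro i
    rw [Topology.IsInducing.subtypeVal.continuousOn_iff]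
    exact (he1 i).continuousOn.congr fun t ht => hχ i t ht
  · intro i t ht
    show dm (car m (χ i t).1) ≤ n
    rw [hχ i t (dCu_subset _ ht)]
    have := dm_car_lt (he3 i t ht)
    rw [hw i] at this
    omega
  · intro i t ht htd h
    have h' : dm (car m (χ i t).1) ≤ n := h
    rw [hχ i t ht, hint i t ht htd, hw i] at h'
    omega
  · intro i i' t t' ht htd ht' htd' h
    have h1 : e i t = e i' t' := by rw [← hχ i t ht, ← hχ i' t' ht', h]
    have h2 : (eq.symm i).1 = (eq.symm i').1 := by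
      rw [← hint i t ht htd, ← hint i' t' ht' htd', h1]
    have h3 : i = i' := by
      have := Subtype.ext h2
      exact eq.symm.injective this
    subst h3
    refine ⟨rfl, ?_⟩
    rw [← he4 i t, h1, he4]
  · symm
    rw [eq_univ_iff_forall]
    intro z
    by_cases h : dm (car m z.1) ≤ n
    · exact Or.inl h
    · right
      have h1 : dm (car m z.1) = n + 1 := by
        have := hd z.1 z.2
        omega
      let w : {w | w ∈ car m '' K ∧ dm w = n + 1} := ⟨car m z.1, ⟨z.1, z.2, rfl⟩, h1⟩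
      have h2 : (eq.symm (eq w)).1 = car m z.1 := by rw [eq.symm_apply_apply]
      have h3 : z.1 ∈ cube m (eq.symm (eq w)).1 := by rw [h2]; exact mem_cube_car m _
      refine mem_iUnion.2 ⟨eq w, p (eq w) z.1, (he5 (eq w) z.1 h3).1, ?_⟩
      apply Subtype.ext
      rw [hχ _ _ (he5 (eq w) z.1 h3).1, (he5 (eq w) z.1 h3).2]

/-- **The data for the unknotting theorem.** -/
theorem top_data {n : ℕ} {M : Type} [MetricSpace M] [CompactSpace M] [Nonempty M]
    (hdim : PushOff (n + 1) (univ : Set M)) (hulc : ULC (n + 1) (univ : Set M))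
    {f : M ≃ₜ M} (hf : f ∈ Auth0 n M) {ζ : ℝ} (hζ : 0 < ζ) :
    ∃ (R : Type) (_ : MetricSpace R) (_ : CompactSpace R) (R₀ : Set R) (m : ℕ)
      (χ : Fin m → (Fin (n + 1) → ℝ) → R) (q : C(M, R)) (β : C(R, M)) (G : R → ℝ → M),
      IsClosed R₀ ∧ Fam (Cu (n + 1)) (dCu (n + 1)) R₀ univ χ ∧
      (∀ x, dist (β (q x)) x < ζ) ∧
      ContinuousOn (fun p : R × ℝ => G p.1 p.2) (R₀ ×ˢ Icc (0 : ℝ) 1) ∧
      (∀ y ∈ R₀, G y 0 = β y) ∧ (∀ y ∈ R₀, G y 1 = f (β y)) := by
  classical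
  obtain ⟨δ, hδ, hco⟩ := coarse hulc (half_pos hζ)
  obtain ⟨N, m, hm, q, K, cq, hK, hKd, hqK, hKc, hKr⟩ :=
    discr isCompact_univ hdim (lt_min hδ (half_pos hζ))
  have hm' : (0 : ℝ) < m := by exact_mod_cast hm
  choose! φ hφ1 hφ2 using hKc
  have hosc : Osc m K φ δ := by
    intro x hx y hy
    have hyK : y ∈ K := hK.sat x hx hy
    have h1 : dist (q (φ x)) x ≤ 1 / m :=
      dist_le_of_mem_cube hm (mem_cube_car m _) (hφ2 x hx)
    have h2 : dist x y ≤ 1 / m := dist_le_of_mem_cube hm (mem_cube_car m _) hy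
    have h3 : dist y (q (φ y)) ≤ 1 / m :=
      dist_le_of_mem_cube hm (hφ2 y hyK) (mem_cube_car m _)
    have h4 := dist_triangle4 (q (φ x)) x y (q (φ y))
    have h5 : 1 / (m : ℝ) + 1 / m + 1 / m = 3 / m := by ring
    exact (hKr _ (mem_univ _) _ (mem_univ _) (by linarith)).trans_le (min_le_left _ _)
  obtain ⟨F, hF, -, hFd⟩ := hco hm hK (IsCub.empty m) (empty_subset _)
    (fun x hx _ => hKd x hx) φ (fun _ _ => mem_univ _) (continuousOn_empty _) hosc
  obtain ⟨r, χ, hχ⟩ := exists_fam hm hK hKd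
  have hS : IsCub m {x | x ∈ K ∧ dm (car m x) ≤ n} := hK.skel n
  have hSp : IsPoly n {x | x ∈ K ∧ dm (car m x) ≤ n} := hS.isPoly hm fun x hx => hx.2
  let ψ : C({x | x ∈ K ∧ dm (car m x) ≤ n}, M) :=
    ⟨fun x => F x.1, continuousOn_iff_continuous_domRestrict.1 (hF.cont.mono fun x hx => hx.1)⟩
  obtain ⟨H⟩ := (hf N _ hSp ψ).symm
  have cK : CompactSpace K := isCompact_iff_compactSpace.1 hK.isCompact
  have cq' : Continuous fun x : M => (⟨q x, hqK (mem_univ x)⟩ : K) := by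
    have := continuousOn_univ.1 cq
    exact this.subtype_mk _
  refine ⟨K, inferInstance, cK, {z : K | dm (car m z.1) ≤ n}, r, χ,
    ⟨fun x => ⟨q x, hqK (mem_univ x)⟩, cq'⟩,
    ⟨fun z => F z.1, continuousOn_iff_continuous_domRestrict.1 hF.cont⟩,
    fun z t => if h : dm (car m z.1) ≤ n then H (projIcc 0 1 zero_le_one t, ⟨z.1, z.2, h⟩)
      else F z.1, ?_, hχ, ?_, ?_, ?_, ?_⟩
  · have h1 : {z : K | dm (car m z.1) ≤ n} =
        Subtype.val ⁻¹' {x | x ∈ K ∧ dm (car m x) ≤ n} := by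
      ext z
      simp
    rw [h1]
    exact hS.isClosed.preimage continuous_subtype_val
  · intro x
    show dist (F (q x)) x < ζ
    have hqx : q x ∈ K := hqK (mem_univ x)
    have h1 : dist (F (q x)) (φ (q x)) < ζ / 2 := hFd _ hqx
    have h2 : dist (q (φ (q x))) (q x) ≤ 1 / m :=
      dist_le_of_mem_cube hm (mem_cube_car m _) (hφ2 _ hqx)
    have h3 : (1 : ℝ) / m ≤ 3 / m := by
      gcongr
      norm_num
    have h4 := (hKr _ (mem_univ _) _ (mem_univ _) (h2.trans h3)).trans_le (min_le_right _ _)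
    have h5 := dist_triangle (F (q x)) (φ (q x)) x
    linarith
  · rw [continuousOn_iff_continuous_domRestrict]
    have h2 : ∀ p : ({z : K | dm (car m z.1) ≤ n} ×ˢ Icc (0 : ℝ) 1 : Set (K × ℝ)),
        dm (car m p.1.1.1) ≤ n := fun p => (mem_prod.1 p.2).1
    have h1 : ∀ p : ({z : K | dm (car m z.1) ≤ n} ×ˢ Icc (0 : ℝ) 1 : Set (K × ℝ)),
        (if h : dm (car m p.1.1.1) ≤ n then
          H (projIcc 0 1 zero_le_one p.1.2, ⟨p.1.1.1, p.1.1.2, h⟩) else F p.1.1.1) =
        H (projIcc 0 1 zero_le_one p.1.2, ⟨p.1.1.1, p.1.1.2, h2 p⟩) := fun p => dif_pos (h2 p)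
    refine Continuous.congr (f := fun p : ({z : K | dm (car m z.1) ≤ n} ×ˢ Icc (0 : ℝ) 1 :
      Set (K × ℝ)) => H (projIcc 0 1 zero_le_one p.1.2, ⟨p.1.1.1, p.1.1.2, h2 p⟩)) ?_
      fun p => (h1 p).symm
    refine H.continuous.comp (Continuous.prodMk ?_ ?_)
    · exact continuous_projIcc.comp (continuous_snd.comp continuous_subtype_val)
    · exact Continuous.subtype_mk (continuous_subtype_val.comp
        (continuous_fst.comp continuous_subtype_val)) _
  · intro z hz
    have hz' : dm (car m z.1) ≤ n := hz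
    show (if h : dm (car m z.1) ≤ n then H (projIcc 0 1 zero_le_one (0 : ℝ), ⟨z.1, z.2, h⟩)
      else F z.1) = F z.1
    rw [dif_pos hz', projIcc_left]
    exact H.apply_zero _
  · intro z hz
    have hz' : dm (car m z.1) ≤ n := hz
    show (if h : dm (car m z.1) ≤ n then H (projIcc 0 1 zero_le_one (1 : ℝ), ⟨z.1, z.2, h⟩)
      else F z.1) = f (F z.1)
    rw [dif_pos hz', projIcc_right]
    exact H.apply_one _

end MG
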