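import Pool.Agent.Work.MP_017613_gt.SphK
import Pool.Agent.Work.MP_017613_gt.Gp
import Pool.Agent.Work.MP_017613_gt.RndB
import Pool.Agent.Work.MP_017613_gt.TopR
import Pool.Agent.Work.MP_017613_gt.Kit.Bridge

/-!
# MENGER 8.3: the inputs of `unknot` from the theory of Menger spaces (absolute form)

* `TRelP k`: the field `trel` of `Chi.Theory` for `Rnd.Men k`.
* `ball_move`: two Z-embeddings which agree off the interior of a piece `P`, an absolute extensor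
  cut off along a Z-set, differ by a homeomorphism which is the identity off `P`.
* `exists_uinp`: the inputs of `unknot`.
-/

set_option linter.unusedSectionVars false

open Set Topology Metric

namespace Pool.Agent.Work.MP_017613_gt

namespace Unk

open Chi Rnd
open MG (Cu dCu Layer Fam)

/-- T_REL: extension of homeomorphisms of Z-sets, controlled over `X` -/
def TRelP (k : ℕ) : Prop :=
  ∀ (β : Type) [MetricSpace β] (X : Set β), IsCompact X → ANE k X → ∀ ε > 0, ∃ δ > 0,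
    ∀ (N N' : Type) [MetricSpace N] [CompactSpace N] [MetricSpace N'] [CompactSpace N'],
    Rnd.Men k N → Rnd.Men k N' → ∀ (l : N → β) (l' : N' → β),
    Soft k univ X l → Soft k univ X l' →
    ∀ (W : Set N) (W' : Set N'), ZS W → ZS W' → ∀ g : W ≃ₜ W',
    (∀ x : W, dist (l' (g x)) (l x) < δ) →
    ∃ θ : N ≃ₜ N', (∀ x : W, θ x = g x) ∧ ∀ x, dist (l' (θ x)) (l x) < ε

instance (k : ℕ) : CompactSpace (Sk k) := isCompact_iff_compactSpace.1 (isCompact_Sk k)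

/-! ### Moving in balls -/

lemma ane_point {k : ℕ} {β : Type} [MetricSpace β] (b : β) : ANE k ({b} : Set β) := by
  intro ε hε
  refine ⟨1, one_pos, ?_⟩
  intro γ _ P A _ h hm _ c _ hc _
  refine ⟨fun _ => b, continuousOn_const, fun _ _ => rfl, fun x hx => ?_, fun x hx => ?_⟩
  · have : c x = b := hc hx
    rw [this]
  · have : h x = b := hm hx
    rw [this, dist_self]
    exact hε

variable {k : ℕ} {N : Type} [MetricSpace N] [CompactSpace N]

/-- homeomorphisms between Z-sets of an absolute extensor extend -/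
theorem exists_hom_ext (T : TRelP k) {P : Set N} (mP : MenS k P) (aP : AEk k P) {W W' : Set N}
    (zW : ZIn W P) (zW' : ZIn W' P) {g : N → N} (hg : Hom W W' g) :
    ∃ h : N → N, Hom P P h ∧ EqOn h g W := by
  have : CompactSpace P := isCompact_iff_compactSpace.1 mP.cpt
  have cW : IsCompact W := mP.cpt.of_isClosed_subset zW.1 zW.2.1
  obtain ⟨g₁, hg₁⟩ := hg.exists_homeo cW
  obtain ⟨n₀, hn₀⟩ := exists_nested zW.2.1
  obtain ⟨n₁, hn₁⟩ := exists_nested zW'.2.1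
  obtain ⟨φ, hφ, -⟩ := exists_toSubtype mP.ne
  have aP' : AEk k (univ : Set P) := aP.image hφ mP.cpt
  obtain ⟨δ, hδ, h⟩ := T Unit {()} isCompact_singleton (ane_point ()) 1 one_pos
  obtain ⟨θ, h1, -⟩ := h P P mP.men mP.men (fun _ => ()) (fun _ => ()) (soft_const aP' ())
    (soft_const aP' ()) _ _ zW.zs zW'.zs ((n₀.trans g₁).trans n₁.symm)
    (fun x => by rw [dist_self]; exact hδ)
  obtain ⟨f, hf, hfθ⟩ := exists_of_homeo θ ⟨mP.ne.choose⟩
  refine ⟨f, hf, fun x hx => ?_⟩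
  have hxP : x ∈ P := zW.2.1 hx
  have h2 := h1 ⟨⟨x, hxP⟩, hx⟩
  have h3 : f x = θ ⟨x, hxP⟩ := hfθ ⟨x, hxP⟩
  rw [h3, h2]
  have h4 := hn₁ (n₁.symm (g₁ (n₀ ⟨⟨x, hxP⟩, hx⟩)))
  rw [n₁.apply_symm_apply] at h4
  have h5 := hn₀ ⟨⟨x, hxP⟩, hx⟩
  change ((n₁.symm (g₁ (n₀ ⟨⟨x, hxP⟩, hx⟩))).1 : N) = g x
  rw [← h4, hg₁]
  exact congrArg g h5

/-- the trace of a Z-set on a piece, together with the frontier of the piece, is a Z-set of it -/
theorem zin_trace {P Q S : Set N} (cP : IsClosed P) (cQ : IsClosed Q) (hPQ : P ∪ Q = univ)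
    (zP : ZIn (P ∩ Q) P) (zS : ZS S) : ZIn ((P ∩ Q) ∪ (S ∩ P)) P := by
  classical
  refine ⟨(cP.inter cQ).union (zS.1.inter cP), union_subset inter_subset_left inter_subset_right,
    fun ε hε => ?_⟩
  obtain ⟨φ, h1, h2, h3, h4⟩ := zP.2.2 (ε / 2) (by linarith)
  have hK : IsCompact (φ '' P) := cP.isCompact.image_of_continuousOn h1
  have hKQ : φ '' P ⊆ Qᶜ := by
    rintro _ ⟨x, hx, rfl⟩ hQ
    exact h4 x hx ⟨h2 hx, hQ⟩
  obtain ⟨d, hd, hd'⟩ := hK.exists_thickening_subset_open cQ.isOpen_compl hKQ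
  obtain ⟨ψ, h5, h6⟩ := zS.2 (min d (ε / 2)) (lt_min hd (by linarith))
  have h7 : ∀ x ∈ P, ψ (φ x) ∈ Qᶜ := fun x hx => hd' (mem_thickening_iff.2
    ⟨φ x, mem_image_of_mem φ hx, (h5 (φ x)).trans_le (min_le_left _ _)⟩)
  have h8 : ∀ x ∈ P, ψ (φ x) ∈ P := fun x hx => by
    have : ψ (φ x) ∈ P ∪ Q := by rw [hPQ]; trivial
    exact this.resolve_right (h7 x hx)
  refine ⟨fun x => ψ (φ x), ψ.continuous.comp_continuousOn h1, h8, fun x hx => ?_, fun x hx => ?_⟩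
  · have h9 := dist_triangle (ψ (φ x)) (φ x) x
    have h10 := (h5 (φ x)).trans_le (min_le_right d (ε / 2))
    have h11 := h3 x hx
    linarith
  · rintro (h | h)
    · exact h7 x hx h.2
    · exact h6 _ h.1

/-- **Moving in balls.** -/
theorem ball_move (T : TRelP k) {P Q : Set N} (cP : IsClosed P) (cQ : IsClosed Q)
    (hPQ : P ∪ Q = univ) (mP : MenS k P) (aP : AEk k P) (zP : ZIn (P ∩ Q) P)
    {A : Type} [MetricSpace A] [CompactSpace A] {C : Set A} {b₀ b₁ : C(A, N)}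
    (h₀ : ZEmb b₀) (h₁ : ZEmb b₁) (hoff : ∀ x ∉ C, b₀ x = b₁ x)
    (hon : ∀ x ∈ C, b₀ x ∈ Qᶜ ∧ b₁ x ∈ Qᶜ) :
    ∃ h : N ≃ₜ N, (∀ x ∈ Q, h x = x) ∧ ∀ x, h (b₀ x) = b₁ x := by
  classical
  rcases isEmpty_or_nonempty A with hA | hA
  · exact ⟨Homeomorph.refl N, fun _ _ => rfl, fun x => hA.elim x⟩
  -- facts on the two embeddings
  have f₀ : ∀ x, b₀ x ∈ Q → b₁ x = b₀ x := fun x hx => by
    by_cases hC : x ∈ C
    · exact absurd hx (hon x hC).1
    · exact (hoff x hC).symm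
  have f₁ : ∀ x, b₁ x ∈ Q → b₀ x = b₁ x := fun x hx => by
    by_cases hC : x ∈ C
    · exact absurd hx (hon x hC).2
    · exact hoff x hC
  have hcov : ∀ y, y ∉ Q → y ∈ P := fun y hy => by
    have : y ∈ P ∪ Q := by rw [hPQ]; trivial
    exact this.resolve_right hy
  -- the map between the ranges
  have H₀ : Hom (univ : Set A) (range b₀) b₀ :=
    ⟨b₀.continuous.continuousOn, fun x _ y _ h => h₀.1 h, image_univ⟩
  obtain ⟨a, ha, hab, hba⟩ := H₀.exists_inv isCompact_univ univ_nonempty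
  have H₁ : Hom (univ : Set A) (range b₁) b₁ :=
    ⟨b₁.continuous.continuousOn, fun x _ y _ h => h₁.1 h, image_univ⟩
  have G : Hom (range b₀) (range b₁) (fun y => b₁ (a y)) := H₁.comp ha
  have hGb : ∀ x, b₁ (a (b₀ x)) = b₁ x := fun x => by rw [hab x trivial]
  -- its restriction to `P`
  have himg : (fun y => b₁ (a y)) '' (range b₀ ∩ P) = range b₁ ∩ P := by
    ext y
    constructor
    · rintro ⟨_, ⟨⟨x, rfl⟩, hx⟩, rfl⟩
      show b₁ (a (b₀ x)) ∈ range b₁ ∩ P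
      rw [hGb]
      refine ⟨mem_range_self x, ?_⟩
      by_cases hC : x ∈ C
      · exact hcov _ (hon x hC).2
      · rw [← hoff x hC]; exact hx
    · rintro ⟨⟨x, rfl⟩, hx⟩
      refine ⟨b₀ x, ⟨mem_range_self x, ?_⟩, hGb x⟩
      by_cases hC : x ∈ C
      · exact hcov _ (hon x hC).1
      · rw [hoff x hC]; exact hx
  have G1 : Hom (range b₀ ∩ P) (range b₁ ∩ P) (fun y => b₁ (a y)) := by
    have := G.sub (A := range b₀ ∩ P) inter_subset_left
    rwa [himg] at this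
  obtain ⟨g, hg, hg1, hg2⟩ := Hom.glue (cP.inter cQ) (h₀.2.1.inter cP) (Hom.id (P ∩ Q)) G1 (by
    rintro _ ⟨-, hQ⟩ ⟨⟨x, rfl⟩, -⟩
    show b₀ x = b₁ (a (b₀ x))
    rw [hGb, f₀ x hQ]) (by
    rintro _ ⟨⟨hP, hQ⟩, ⟨x, rfl⟩, -⟩
    have h1 := f₁ x hQ
    exact ⟨b₁ x, ⟨⟨hP, hQ⟩, ⟨x, h1⟩, hP⟩, rfl⟩)
  obtain ⟨h, hh, hhg⟩ := exists_hom_ext T mP aP (zin_trace cP cQ hPQ zP h₀.2)
    (zin_trace cP cQ hPQ zP h₁.2) hg
  obtain ⟨F, hF, hF1, hF2⟩ := Hom.glue cP cQ hh (Hom.id Q) (by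
    intro x hx hxQ
    rw [hhg (Or.inl ⟨hx, hxQ⟩), hg1 ⟨hx, hxQ⟩]) (by
    rintro x ⟨hxP, hxQ⟩
    refine ⟨x, ⟨hxP, hxQ⟩, ?_⟩
    rw [hhg (Or.inl ⟨hxP, hxQ⟩), hg1 ⟨hxP, hxQ⟩])
  rw [hPQ] at hF
  obtain ⟨θ, hθ⟩ := hF.exists_homeo_univ
  refine ⟨θ, fun x hx => ?_, fun x => ?_⟩
  · rw [hθ, hF2 hx]
  · rw [hθ]
    by_cases hQ : b₀ x ∈ Q
    · rw [hF2 hQ, f₀ x hQ]
    · have hP := hcov _ hQ
      rw [hF1 hP, hhg (Or.inr ⟨mem_range_self x, hP⟩), hg2 ⟨mem_range_self x, hP⟩]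
      exact hGb x

/-! ### The inputs of `unknot` -/

/-- round neighbourhoods of Z-embedded spheres, for the group `H` -/
def RndP (k : ℕ) (N : Type) [MetricSpace N] [CompactSpace N] (H : Subgroup (N ≃ₜ N)) : Prop :=
  ∀ σ : C(Sk k, N), ZEmb σ → ∃ P Q : Set N, IsClosed P ∧ IsClosed Q ∧ P ∪ Q = univ ∧ MenS k P ∧
    AEk k P ∧ ZIn (P ∩ Q) P ∧ range σ ⊆ Qᶜ ∧ ∀ h : N ≃ₜ N, (∀ x ∈ Q, h x = x) → h ∈ H

/-- small homeomorphisms are in `H` -/
def SmallP (N : Type) [MetricSpace N] (H : Subgroup (N ≃ₜ N)) : Prop :=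
  ∃ δ > 0, ∀ Ψ : N ≃ₜ N, (∀ x, dist (Ψ x) x < δ) → Ψ ∈ H

theorem soft_id : Soft k (univ : Set N) univ fun x => x := by
  refine ⟨continuousOn_id, fun _ _ => trivial, ?_⟩
  intro γ _ P A hP f f₀ hf _ hf₀ _ he ε hε
  exact ⟨f, hf, fun _ _ => trivial, fun x hx => (he x hx).symm, fun x _ => by
    rw [dist_self]; exact hε⟩

/-- close Z-embeddings differ by elements of `H` -/
theorem exists_sme (T : TRelP k) (mN : Rnd.Men k N) {H : Subgroup (N ≃ₜ N)}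
    (hS : SmallP N H) : ∃ ζ > 0, ∀ (A : Type) [MetricSpace A] [CompactSpace A] (b c : C(A, N)),
    ZEmb b → ZEmb c → (∀ x, dist (b x) (c x) < ζ) → ∃ h ∈ H, ∀ x, h (b x) = c x := by
  obtain ⟨ε, hε, hS⟩ := hS
  obtain ⟨ζ, hζ, h⟩ := T N univ isCompact_univ mN.ane ε hε
  refine ⟨ζ, hζ, ?_⟩
  intro A _ _ b c hb hc hd
  let e₀ : A ≃ₜ range b := (b.continuous.isClosedEmbedding hb.1).isEmbedding.toHomeomorph
  let e₁ : A ≃ₜ range c := (c.continuous.isClosedEmbedding hc.1).isEmbedding.toHomeomorph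
  have he₀ : ∀ x, (e₀ x : N) = b x := fun x => rfl
  have he₁ : ∀ x, (e₁ x : N) = c x := fun x => rfl
  obtain ⟨θ, h1, h2⟩ := h N N mN mN (fun x => x) (fun x => x) soft_id soft_id (range b) (range c)
    hb.2 hc.2 (e₀.symm.trans e₁) (by
      intro y
      obtain ⟨x, rfl⟩ := e₀.surjective y
      show dist ((e₁ (e₀.symm (e₀ x)) : N)) (e₀ x : N) < ζ
      rw [e₀.symm_apply_apply, he₁, he₀, dist_comm]
      exact hd x)
  refine ⟨θ, hS θ h2, fun x => ?_⟩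
  have h3 := h1 (e₀ x)
  rw [he₀] at h3
  rw [h3]
  show ((e₁ (e₀.symm (e₀ x)) : N)) = c x
  rw [e₀.symm_apply_apply]
  exact he₁ x

/-- **The inputs of `unknot`.** -/
theorem exists_uinp (T : TRelP k) (mN : Rnd.Men k N) {H : Subgroup (N ≃ₜ N)}
    (hS : SmallP N H) (hR : RndP k N H) :
    ∃ ζ > 0, ∀ (A : Type) [MetricSpace A] [CompactSpace A], PushOff k (univ : Set A) →
      ∀ g : C(A, N), ZEmb g → UInp k H (∅ : Set A) g ζ := by
  have hD : ZD N := mN.dd.zd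
  obtain ⟨ζ, hζ, hs⟩ := exists_sme T mN hS
  refine ⟨ζ, hζ, ?_⟩
  intro A _ _ hA g hg
  have hemp : ZS (∅ : Set N) := hg.2.mono isClosed_empty (empty_subset _)
  refine ⟨hζ, isClosed_empty, hg, fun b c hb hc _ _ h => hs A b c hb hc h,
    fun e he => ext_near mN.ane hA he, ?_, ?_, ?_⟩
  · intro f C hC hinj hZ e he
    obtain ⟨f', h1, h2, h3, h4, -⟩ := gp mN.ane hD hA hC f hinj hZ hemp he
    exact ⟨f', ⟨h3, h4⟩, fun x hx => h2 x hx, h1⟩
  · intro f e he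
    obtain ⟨f', h1, -, h3, h4, -⟩ := gp mN.ane hD (dim_univ (isCompact_Sk k) pushOff_Sk)
      isClosed_empty f (injOn_empty _) (by rw [image_empty]; exact hemp) hemp he
    exact ⟨f', ⟨h3, h4⟩, by rw [image_empty]; exact disjoint_empty _, h1⟩
  · intro σ hσ _
    obtain ⟨P, Q, cP, cQ, hPQ, mP, aP, zP, hσQ, hH⟩ := hR σ hσ
    refine ⟨Qᶜ, cQ.isOpen_compl, hσQ, ?_⟩
    intro C b₀ b₁ _ _ h₀ h₁ _ _ hoff hon
    obtain ⟨h, h1, h2⟩ := ball_move T cP cQ hPQ mP aP zP h₀ h₁ hoff hon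
    exact ⟨h, hH h h1, h2⟩

theorem ZEmb.comp_homeo {M : Type} [MetricSpace M] [CompactSpace M] {i : C(M, N)} (hi : ZEmb i)
    (f : M ≃ₜ M) : ZEmb (i.comp ⟨f, f.continuous⟩) := by
  refine ⟨hi.1.comp f.injective, ?_⟩
  have : range (i.comp ⟨f, f.continuous⟩) = range i := by
    ext y
    constructor
    · rintro ⟨x, rfl⟩
      exact ⟨f x, rfl⟩
    · rintro ⟨x, rfl⟩
      exact ⟨f.symm x, congrArg i (f.apply_symm_apply x)⟩
  rw [this]
  exact hi.2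

/-- **8.3**: a homeomorphism of `M` which is `n`-homotopic to the identity extends, over a
Z-embedding of `M` into `N`, to an element of `H`. -/
theorem zunknot {n : ℕ} (T : TRelP (n + 1)) (mN : Rnd.Men (n + 1) N) {H : Subgroup (N ≃ₜ N)}
    (hS : SmallP N H) (hR : RndP (n + 1) N H) {M : Type} [MetricSpace M] [CompactSpace M]
    (mM : Rnd.Men (n + 1) M) (i : C(M, N)) (hi : ZEmb i) {f : M ≃ₜ M} (hf : f ∈ MG.Auth0 n M) :
    ∃ F ∈ H, ∀ x, F (i x) = i (f x) := by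
  have : Nonempty M := mM.ne
  obtain ⟨ζ, hζ, hU⟩ := exists_uinp T mN hS hR
  have hI := hU M mM.dim i hi
  -- uniform continuity
  have huc : ∀ j : C(M, N), ∃ δ > 0, ∀ x y, dist x y < δ → dist (j x) (j y) < ζ / 2 := fun j =>
    Metric.uniformContinuous_iff.1 (CompactSpace.uniformContinuous_of_continuous j.continuous)
      (ζ / 2) (by linarith)
  let fc : C(M, M) := ⟨f, f.continuous⟩
  obtain ⟨δ₀, hδ₀, h₀⟩ := huc i
  obtain ⟨δ₁, hδ₁, h₁⟩ := huc (i.comp fc)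
  obtain ⟨R, _, _, R₀, m, χ, q, β, G, cR, hF, hβ, hG, hG0, hG1⟩ :=
    MG.top_data mM.dim (MG.ulc_iff.2 (ANE.ulc mM.ane)) hf (lt_min hδ₀ hδ₁)
  refine unknot hI hF cR q (fun x hx => hx.elim) (i.comp β) ((i.comp fc).comp β)
    (G := fun y t => i (G y t)) (i.continuous.comp_continuousOn hG)
    (fun y hy => congrArg i (hG0 y hy)) (fun y hy => congrArg i (hG1 y hy))
    (fun x hx => hx.elim) hi (hi.comp_homeo f) (fun x hx => hx.elim) (fun x hx => hx.elim) ?_ ?_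
  · intro x
    rw [dist_comm]
    exact h₀ _ _ ((hβ x).trans_le (min_le_left _ _))
  · intro x
    rw [dist_comm]
    exact h₁ _ _ ((hβ x).trans_le (min_le_right _ _))

end Unk

end Pool.Agent.Work.MP_017613_gt
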