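import Pool.Agent.Work.MP_017613_gt.Ball
import Pool.Agent.Work.MP_017613_gt.RndE
import Pool.Agent.Work.MP_017613_gt.Unknot2

/-!
Existence of round balls in compact Menger spaces: around every point, and around every Z-embedded
`k`-sphere, arbitrarily thin.
-/

set_option linter.unusedSectionVars false

open Set Topology Metric

namespace Pool.Agent.Work.MP_017613_gt

namespace Ball

open Chi Rnd

variable {k : ℕ}

theorem attach' : Attach k (Rnd.Men k) := by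
  intro R Y B _ _ _ _ _ _ mR mY mB j b ρ ij zj zb sρ hρ
  obtain ⟨D, i1, i2, J, χ, c, mD, cJ, iJ, cχ, iχ, hun, hJχ, sc, hcJ, hcχ, -, hZ⟩ := Rnd.attach mR mY
    mB j.continuous ij zj b.continuous (Function.LeftInverse.injective hρ) zb sρ hρ
  refine ⟨D, i1, i2, ⟨J, cJ⟩, ⟨χ, cχ⟩, ⟨c, continuousOn_univ.1 sc.1⟩, mD, iJ, iχ, hcJ, hcχ, sc, hun,
    fun x y => ?_, hZ⟩
  change J x = χ y ↔ _
  rw [hJχ]
  constructor
  · rintro ⟨z, h1, h2⟩
    exact ⟨z, h1.symm, h2.symm⟩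
  · rintro ⟨z, h1, h2⟩
    exact ⟨z, h1.symm, h2.symm⟩

theorem trel' (T : Pre k) {M : Type} [MetricSpace M] [CompactSpace M] (mM : Rnd.Men k M) :
    TRel k (Rnd.Men k) M := fun ε hε =>
  T.trel M univ isCompact_univ mM.ane ε hε

theorem collar' (T : Pre k) : Collar k (Rnd.Men k) := by
  intro B _ _ mB
  obtain ⟨N, i1, i2, i, r, mN, ci, zi, sr, hr⟩ := T.collar B mB
  exact ⟨N, i1, i2, ⟨i, ci⟩, ⟨r, continuousOn_univ.1 sr.1⟩, mN, zi, sr, hr⟩

/-- **Round balls** around Z-sets. -/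
theorem exists_split (T : Pre k) {M B : Type} [MetricSpace M] [CompactSpace M]
    [MetricSpace B] [CompactSpace B] (mM : Rnd.Men k M) (mB : Rnd.Men k B)
    (aB : AEk k (univ : Set B)) (φ : C(B, M)) {S : Set B} (hS : IsClosed S) (hφ : InjOn φ S)
    (hφS : ZS (φ '' S)) {ε : ℝ} (hε : 0 < ε) :
    ∃ P Q : Set M, Split k P Q ∧ AEk k P ∧ AEk k (P ∩ Q) ∧ φ '' S ⊆ Qᶜ ∧
      ∀ x ∈ P, ∃ y, dist x (φ y) < ε := by
  obtain ⟨Y, i1, i2, b, ρ, j, p, q, mY, zb, sρ, hρ, ij, zj, ip, iq, hun, hqp, hd, hdist⟩ :=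
    ball (k := k) (Men := Rnd.Men k) mM mB (fun N _ _ h => h.ane) (fun N _ _ h => h.dim)
      (fun N _ _ h => h.dd.zd) (trel' T mM) attach' (collar' T) φ hS hφ hφS hε
  have ib : Function.Injective b := Function.LeftInverse.injective hρ
  have hp : Hom univ (range p) p := hom_univ p.continuous ip
  have hq : Hom univ (range q) q := hom_univ q.continuous iq
  have hpq : ∀ z, q (j z) = p (b z) := fun z => (hqp _ _).2 ⟨z, rfl, rfl⟩
  have e1 : range p ∩ range q = p '' range b := by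
    ext x
    constructor
    · rintro ⟨⟨y, rfl⟩, z, hz⟩
      obtain ⟨w, -, h2⟩ := (hqp z y).1 hz
      exact ⟨b w, mem_range_self w, by rw [← h2]⟩
    · rintro ⟨_, ⟨w, rfl⟩, rfl⟩
      exact ⟨mem_range_self _, j w, hpq w⟩
  have e2 : range p ∩ range q = q '' range j := by
    rw [e1]
    ext x
    constructor
    · rintro ⟨_, ⟨w, rfl⟩, rfl⟩
      exact ⟨j w, mem_range_self w, hpq w⟩
    · rintro ⟨_, ⟨w, rfl⟩, rfl⟩
      exact ⟨b w, mem_range_self w, (hpq w).symm⟩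
  have e3 : range p ∩ range q = range fun w => p (b w) := by
    rw [e1, ← range_comp]
    rfl
  have hA : Hom univ (range p ∩ range q) fun w => p (b w) := by
    rw [e3]
    exact hom_univ (p.continuous.comp b.continuous) (ip.comp ib)
  refine ⟨range p, range q, ⟨by rw [union_comm]; exact hun, mY.univ.image hp,
    mM.univ.image hq, mB.univ.image hA, ?_, ?_⟩, ?_, aB.image hA isCompact_univ, ?_, ?_⟩
  · rw [e1]
    exact ZIn.image hp isCompact_univ (zin_univ.2 zb)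
  · rw [e2]
    exact ZIn.image hq isCompact_univ (zin_univ.2 zj)
  · exact (AEk.of_soft sρ aB mY.univ.ne).image hp isCompact_univ
  · exact disjoint_left.1 hd
  · rintro _ ⟨y, rfl⟩
    exact ⟨ρ y, hdist y⟩

/-- thin round balls around Z-embedded spheres -/
theorem exists_rnd (T : Pre k) {M : Type} [MetricSpace M] [CompactSpace M] (mM : Rnd.Men k M) (σ : C(Unk.Sk k, M)) (hσ : Unk.ZEmb σ) {ε : ℝ}
    (hε : 0 < ε) :
    ∃ P Q : Set M, Split k P Q ∧ AEk k P ∧ AEk k (P ∩ Q) ∧ range σ ⊆ Qᶜ ∧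
      ∀ x ∈ P, ∃ y, dist x (σ y) < ε := by
  obtain ⟨B, _, _, mB, aB⟩ := T.mu
  obtain ⟨e, r, he, hze, hre⟩ := exists_sphere (k := k) mB.ne mB.ane mB.dim mB.dd.zd
  have h0 : (σ.comp r) '' range e = range σ := by
    ext x
    constructor
    · rintro ⟨_, ⟨s, rfl⟩, rfl⟩
      exact ⟨s, by rw [ContinuousMap.comp_apply, hre]⟩
    · rintro ⟨s, rfl⟩
      exact ⟨e s, mem_range_self s, by rw [ContinuousMap.comp_apply, hre]⟩
  obtain ⟨P, Q, h1, h4, h5, h2, h3⟩ := exists_split T mM mB aB (σ.comp r) (S := range e)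
    (isCompact_range e.continuous).isClosed (by
      rintro _ ⟨s, rfl⟩ _ ⟨t, rfl⟩ h
      rw [ContinuousMap.comp_apply, ContinuousMap.comp_apply, hre, hre] at h
      rw [hσ.1 h]) (by rw [h0]; exact hσ.2) hε
  rw [h0] at h2
  exact ⟨P, Q, h1, h4, h5, h2, fun x hx => by
    obtain ⟨y, hy⟩ := h3 x hx
    exact ⟨r y, hy⟩⟩

/-- RND in the form of `Unknot2.lean` -/
theorem rndP (T : Pre k) {M : Type} [MetricSpace M] [CompactSpace M] (mM : Rnd.Men k M) :
    Unk.RndP k M (Hn k M) := by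
  intro σ hσ
  obtain ⟨P, Q, h1, h4, h5, h2, -⟩ := exists_rnd T mM σ hσ one_pos
  refine ⟨P, Q, h1.mP.cpt.isClosed, h1.mQ.cpt.isClosed, h1.un, h1.mP, h4, h1.zP, h2, fun h hh => ?_⟩
  have hP : P ∈ RB k M := ⟨Q, h1, h4, h5⟩
  refine Swindle.mem_Hgp hP fun x hx => hh x ?_
  have := h1.un.ge (mem_univ x)
  exact this.resolve_left hx

end Ball

end Pool.Agent.Work.MP_017613_gt
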