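import Pool.Agent.Work.MP_017613_gt.RndA
import Pool.Agent.Work.MP_017613_gt.Coarse
import Pool.Agent.Work.MP_017613_gt.Kit.Discr
import Pool.Agent.Work.MP_017613_gt.Gluing

/-!
# Connected Menger spaces are absolute extensors

`aek_of_conn`: a non-empty compact `ANE k` set which is `Conn k` is an absolute extensor for compact
pairs of dimension at most `k`.
-/

set_option autoImplicit false

open Set Topology Metric
open Pool.Agent.Work.MP_017613_gt

namespace MG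

/-- maps into `Conn k` sets extend over cubes of dimension at most `k` -/
theorem conn_extend_cub {β : Type} [MetricSpace β] {X : Set β} {k : ℕ} (hX : Conn k X) {N m : ℕ}
    (hm : 0 < m) {P P₀ : Set (Fin N → ℝ)} (hP : IsCub m P) (hP₀ : IsCub m P₀) (hsub : P₀ ⊆ P)
    (hd : ∀ x ∈ P, dm (car m x) ≤ k) {F₀ : (Fin N → ℝ) → β} (hF₀ : IsMap F₀ P₀ X) :
    ∃ F : (Fin N → ℝ) → β, IsMap F P X ∧ EqOn F F₀ P₀ := by
  refine cell_induction hP hP₀ hsub (fun A => ∃ F : (Fin N → ℝ) → β, IsMap F A X ∧ EqOn F F₀ P₀)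
    ⟨F₀, hF₀, fun _ _ => rfl⟩ ?_
  rintro A w hA hPA hAP hwP ⟨x₀, hx₀, hx₀', hw⟩ hAw hbA ⟨F, hFm, hFe⟩
  have hdw : dm w ≤ k := by rw [← hw]; exact hd x₀ hx₀
  obtain ⟨G, hGm, hGe⟩ := hX (dm w) hdw (fun t => F (emb m w t))
    ⟨hFm.cont.comp (continuous_emb m w).continuousOn (fun t ht => hbA (emb_mem_bdry hm ht)),
      fun t ht => hFm.maps (hbA (emb_mem_bdry hm ht))⟩
  obtain ⟨F₂, h1, h2, h3⟩ := hFm.glue (A' := cube m w) hA.isClosed (isClosed_cube' m w)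
    (g := fun x => G (prj m w x))
    ⟨hGm.cont.comp (continuous_prj m w).continuousOn (fun x hx => prj_mem hx),
      fun x hx => hGm.maps (prj_mem hx)⟩
    (by
      intro x hxA hxw
      have hxb : x ∈ bdry m w := inter_cube_subset hAw ⟨hxA, hxw⟩
      show F x = G (prj m w x)
      rw [hGe (prj_mem_Bd hxb)]
      show F x = F (emb m w (prj m w x))
      rw [emb_prj hm hxw])
  exact ⟨F₂, h1, fun x hx => by rw [h2 (hPA hx), hFe hx]⟩

/-- **Connected Menger spaces are absolute extensors.** -/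
theorem aek_of_conn {β : Type} [MetricSpace β] {X : Set β} {k : ℕ}
    (aX : Chi.ANE k X) (uX : ULC k X) (hX : Conn k X) (hne : X.Nonempty) : Rnd.AEk k X := by
  classical
  refine ⟨hne, ?_⟩
  intro γ _ P A hT f₀ cf₀ mf₀
  obtain ⟨δ₁, hδ₁, h1⟩ := aX 1 one_pos
  obtain ⟨δ₂, hδ₂, h2⟩ := coarse uX (half_pos hδ₁)
  have cA : IsCompact A := hT.cP.of_isClosed_subset hT.cA hT.sub
  obtain ⟨r, hr, hr'⟩ := Metric.uniformContinuousOn_iff.1
    (cA.uniformContinuousOn_of_continuous cf₀) (min δ₂ (δ₁ / 2)) (lt_min hδ₂ (half_pos hδ₁))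
  obtain ⟨N, m, hm, q, K, cq, hK, hKd, hqK, hKc, hKr⟩ := discr hT.cP hT.dP hr
  have hm' : (0 : ℝ) < m := by exact_mod_cast hm
  have hqA : q '' A ⊆ K := by
    rintro _ ⟨x, hx, rfl⟩
    exact hqK (hT.sub hx)
  have hKA : hull m (q '' A) ⊆ K := hull_subset hK hqA
  have hKAc : IsCub m (hull m (q '' A)) := isCub_hull hm (hK.isCompact.isBounded.subset hqA)
  obtain ⟨b₀, hb₀⟩ := hne
  have hch : ∀ z, ∃ b ∈ X, z ∈ hull m (q '' A) → ∃ x ∈ A, b = f₀ x ∧ z ∈ cube m (car m (q x)) := by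
    intro z
    by_cases hz : z ∈ hull m (q '' A)
    · obtain ⟨_, ⟨x, hx, rfl⟩, h⟩ := mem_hull.1 hz
      exact ⟨f₀ x, mf₀ hx, fun _ => ⟨x, hx, rfl, h⟩⟩
    · exact ⟨b₀, hb₀, fun h => absurd h hz⟩
  choose φ hφX hφ using hch
  have hosc : Osc m (hull m (q '' A)) φ δ₂ := by
    intro x hx y hy
    have hyK : y ∈ hull m (q '' A) := hKAc.sat x hx hy
    obtain ⟨a, ha, hfa, hqa⟩ := hφ x hx
    obtain ⟨b, hb, hfb, hqb⟩ := hφ y hyK
    have e1 : dist (q a) x ≤ 1 / m := dist_le_of_mem_cube hm (mem_cube_car m _) hqa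
    have e2 : dist x y ≤ 1 / m := dist_le_of_mem_cube hm (mem_cube_car m _) hy
    have e3 : dist y (q b) ≤ 1 / m := dist_le_of_mem_cube hm hqb (mem_cube_car m _)
    have e4 := dist_triangle4 (q a) x y (q b)
    have e5 : 1 / (m : ℝ) + 1 / m + 1 / m = 3 / m := by ring
    rw [hfa, hfb]
    exact (hr' a ha b hb (hKr a (hT.sub ha) b (hT.sub hb) (by linarith))).trans_le
      (min_le_left _ _)
  obtain ⟨F₀, hF₀, -, hF₀d⟩ := h2 hm hKAc (IsCub.empty m) (empty_subset _)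
    (fun x hx _ => hKd x (hKA hx)) φ (fun z _ => hφX z) (continuousOn_empty _) hosc
  obtain ⟨F, hF, hFe⟩ := conn_extend_cub hX hm hK hKAc hKA hKd hF₀
  have hG : ContinuousOn (fun x => F (q x)) P := hF.cont.comp cq hqK
  have hGd : ∀ x ∈ A, dist (f₀ x) (F (q x)) < δ₁ := by
    intro x hx
    have hqx : q x ∈ hull m (q '' A) := subset_hull m _ (mem_image_of_mem q hx)
    obtain ⟨a, ha, hfa, hqa⟩ := hφ (q x) hqx
    have e1 : dist (q a) (q x) ≤ 1 / m := dist_le_of_mem_cube hm (mem_cube_car m _) hqa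
    have e2 : (1 : ℝ) / m ≤ 3 / m := by
      gcongr
      norm_num
    have e3 := (hr' a ha x hx (hKr a (hT.sub ha) x (hT.sub hx) (e1.trans e2))).trans_le
      (min_le_right _ _)
    have e4 := hF₀d (q x) hqx
    rw [hfa] at e4
    rw [hFe hqx]
    have e5 := dist_triangle (F₀ (q x)) (f₀ a) (f₀ x)
    rw [dist_comm]
    linarith
  obtain ⟨ρ, hρ, hρ'⟩ := Metric.uniformContinuousOn_iff.1
    (hT.cP.uniformContinuousOn_of_continuous hG) δ₁ hδ₁
  obtain ⟨a, ha1, ha2, ha3, -⟩ := h1 γ P A hT (fun x => F (q x)) (fun x hx => hF.maps (hqK hx))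
    ⟨ρ, hρ, hρ'⟩ f₀ cf₀ mf₀ hGd
  exact ⟨a, ha1, ha2, ha3⟩

end MG
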