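import Pool.Agent.Work.MP_017613_gt.Statement
import Pool.Agent.Work.MP_017613_gt.TopPoly
import Pool.Agent.Work.MP_017613_gt.RndA

/-!
# Homeomorphisms supported in round balls are `n`-homotopic to the identity
-/

set_option autoImplicit false

open Set Topology Metric
open Pool.Agent.Work.MP_017613_gt

namespace MG

/-- A homeomorphism which is the identity off an absolute extensor `P` for compact sets of
dimension at most `n + 1` is `n`-homotopic to the identity. -/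
theorem mem_Auth0_of_AEk {n : ℕ} {M : Type} [MetricSpace M] {P Q : Set M} (cP : IsClosed P)
    (cQ : IsClosed Q) (hPQ : P ∪ Q = univ) (hP : Rnd.AEk (n + 1) P) {h : M ≃ₜ M}
    (hid : ∀ x ∈ Q, h x = x) : h ∈ Auth0 n M := by
  classical
  intro m Z hZ φ
  have hmap : ∀ x ∈ P, h x ∈ P := by
    intro x hx
    have h1 : h x ∈ P ∪ Q := by rw [hPQ]; exact mem_univ _
    rcases h1 with h1 | h1
    · exact h1
    · have h2 : h x = x := h.injective (hid _ h1)
      rwa [h2]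
  have hM : Nonempty M := ⟨hP.1.choose⟩
  -- extension of `φ` by a constant
  let Φ : (Fin m → ℝ) → M := fun z => if hz : z ∈ Z then φ ⟨z, hz⟩ else hM.some
  have hΦ : ∀ z : Z, Φ z.1 = φ z := fun z => dif_pos z.2
  have cΦ : ContinuousOn Φ Z := by
    rw [continuousOn_iff_continuous_domRestrict]
    exact φ.continuous.congr fun z => (hΦ z).symm
  have cZ := hZ.isCompact
  have cZI : IsCompact (Z ×ˢ Icc (0 : ℝ) 1) := cZ.prod isCompact_Icc
  have cΦ1 : ContinuousOn (fun p : (Fin m → ℝ) × ℝ => Φ p.1) (Z ×ˢ Icc (0 : ℝ) 1) :=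
    cΦ.comp continuousOn_fst fun p hp => hp.1
  set T : Set ((Fin m → ℝ) × ℝ) := (Z ×ˢ Icc (0 : ℝ) 1) ∩ (fun p => Φ p.1) ⁻¹' P with hT
  set T' : Set ((Fin m → ℝ) × ℝ) := (Z ×ˢ Icc (0 : ℝ) 1) ∩ (fun p => Φ p.1) ⁻¹' Q with hT'
  have cT : IsClosed T := cΦ1.preimage_isClosed_of_isClosed cZI.isClosed cP
  have cT' : IsClosed T' := cΦ1.preimage_isClosed_of_isClosed cZI.isClosed cQ
  have c0 : IsClosed {p : (Fin m → ℝ) × ℝ | p.2 = 0} := isClosed_eq continuous_snd continuous_const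
  have c1 : IsClosed {p : (Fin m → ℝ) × ℝ | p.2 = 1} := isClosed_eq continuous_snd continuous_const
  set A0 : Set ((Fin m → ℝ) × ℝ) := T ∩ {p | p.2 = 0} with hA0
  set A1 : Set ((Fin m → ℝ) × ℝ) := T ∩ ({p | p.2 = 1} ∪ T') with hA1
  have cA0 : IsClosed A0 := cT.inter c0
  have cA1 : IsClosed A1 := cT.inter (c1.union cT')
  have hTP : Chi.TP (n + 1) T (A0 ∪ A1) :=
    ⟨cZI.of_isClosed_subset cT inter_subset_left,
      hZ.pushOff_prod.mono (cZI.of_isClosed_subset cT inter_subset_left) inter_subset_left,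
      cA0.union cA1, union_subset inter_subset_left inter_subset_left⟩
  let f₀ : (Fin m → ℝ) × ℝ → M := fun p => if p.2 = 0 then h (Φ p.1) else Φ p.1
  have e0 : EqOn f₀ (fun p => h (Φ p.1)) A0 := fun p hp => if_pos hp.2
  have e1 : EqOn f₀ (fun p => Φ p.1) A1 := by
    intro p hp
    by_cases h0 : p.2 = 0
    · have h1 : p ∈ T' := by
        rcases hp.2 with h1 | h1
        · have h1' : p.2 = 1 := h1
          rw [h0] at h1'
          exact absurd h1' (by norm_num)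
        · exact h1
      show (if p.2 = 0 then h (Φ p.1) else Φ p.1) = Φ p.1
      rw [if_pos h0]
      exact hid _ h1.2
    · exact if_neg h0
  have cf₀ : ContinuousOn f₀ (A0 ∪ A1) := by
    refine ContinuousOn.union_of_isClosed ?_ ?_ cA0 cA1
    · exact (h.continuous.comp_continuousOn (cΦ1.mono fun p hp => hp.1.1)).congr e0
    · exact (cΦ1.mono fun p hp => hp.1.1).congr e1
  have mf₀ : MapsTo f₀ (A0 ∪ A1) P := by
    rintro p (hp | hp)
    · rw [e0 hp]; exact hmap _ hp.1.2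
    · rw [e1 hp]; exact hp.1.2
  obtain ⟨F, cF, -, hF⟩ := hP.2 _ T (A0 ∪ A1) hTP f₀ cf₀ mf₀
  -- the homotopy
  let G : (Fin m → ℝ) × ℝ → M := fun p => if p ∈ T then F p else Φ p.1
  have g1 : EqOn G F T := fun p hp => if_pos hp
  have g2 : EqOn G (fun p => Φ p.1) T' := by
    intro p hp
    by_cases h1 : p ∈ T
    · have h2 : p ∈ A1 := ⟨h1, Or.inr hp⟩
      rw [g1 h1, hF (Or.inr h2), e1 h2]
    · exact if_neg h1
  have hTT : Z ×ˢ Icc (0 : ℝ) 1 = T ∪ T' := by
    ext p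
    constructor
    · intro hp
      have h1 : Φ p.1 ∈ P ∪ Q := by rw [hPQ]; exact mem_univ _
      rcases h1 with h1 | h1
      · exact Or.inl ⟨hp, h1⟩
      · exact Or.inr ⟨hp, h1⟩
    · rintro (hp | hp)
      · exact hp.1
      · exact hp.1
  have cG : ContinuousOn G (Z ×ˢ Icc (0 : ℝ) 1) := by
    rw [hTT]
    exact (cF.congr g1).union_of_isClosed ((cΦ1.mono inter_subset_left).congr g2) cT cT'
  refine ⟨⟨⟨fun p => G (p.2.1, p.1.1), ?_⟩, ?_, ?_⟩⟩
  · exact cG.comp_continuous ((continuous_subtype_val.comp continuous_snd).prodMk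
      (continuous_subtype_val.comp continuous_fst)) fun p => ⟨p.2.2, p.1.2⟩
  · intro z
    have hz : ((z.1, 0) : (Fin m → ℝ) × ℝ) ∈ T ∪ T' := by
      rw [← hTT]; exact ⟨z.2, by simp⟩
    show G (z.1, 0) = h (φ z)
    rcases hz with hz | hz
    · have h2 : ((z.1, 0) : (Fin m → ℝ) × ℝ) ∈ A0 := ⟨hz, rfl⟩
      rw [g1 hz, hF (Or.inl h2), e0 h2]
      show h (Φ z.1) = h (φ z)
      rw [hΦ]
    · rw [g2 hz]
      show Φ z.1 = h (φ z)
      have h3 : Φ z.1 ∈ Q := hz.2
      rw [hΦ] at h3 ⊢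
      exact (hid _ h3).symm
  · intro z
    have hz : ((z.1, 1) : (Fin m → ℝ) × ℝ) ∈ T ∪ T' := by
      rw [← hTT]; exact ⟨z.2, by simp⟩
    show G (z.1, 1) = φ z
    rcases hz with hz | hz
    · have h2 : ((z.1, 1) : (Fin m → ℝ) × ℝ) ∈ A1 := ⟨hz, Or.inl rfl⟩
      rw [g1 hz, hF (Or.inr h2), e1 h2]
      exact hΦ z
    · rw [g2 hz]
      exact hΦ z

end MG
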