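import Pool.Agent.Work.MP_017613_gt.Statement
import Pool.Agent.Work.MP_017613_gt.Swindle
import Pool.Agent.Work.MP_017613_gt.TopH
import Pool.Agent.Work.MP_017613_gt.TopAE
import Pool.Agent.Work.MP_017613_gt.Unknot2
import Pool.Agent.Work.MP_017613_gt.ChiT3
import Pool.Agent.Work.MP_017613_gt.TheoryOf
import Pool.Agent.Work.MP_017613_gt.MenBridge
import Pool.Agent.Work.MP_017613_gt.RndE
import Pool.Agent.Work.MP_017613_gt.DigSwin2
import Pool.Agent.Work.MP_017613_gt.LocA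
import Pool.Agent.Work.MP_017613_gt.RndBall

/-!
# Assembly of the main theorem (problem 017613)

`main_of_core`: the main theorem from T_REL, S_REL and SMALL (and round neighbourhoods of
spheres).
-/

set_option autoImplicit false

open Set Topology Metric
open Pool.Agent.Work.MP_017613_gt
open Pool.Agent.Work.MP_017613_gt.Swindle (SuppIn Hgp Data)

namespace MG

/-! ## Transport of round balls -/

section transport

variable {k : ℕ} {N N' : Type} [MetricSpace N] [CompactSpace N] [MetricSpace N'] [CompactSpace N']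

theorem hom_image (θ : N ≃ₜ N') (S : Set N) : Rnd.Hom S (θ '' S) θ :=
  ⟨θ.continuous.continuousOn, θ.injective.injOn, rfl⟩

theorem split_map (θ : N ≃ₜ N') {P Q : Set N} (h : Rnd.Split k P Q) :
    Rnd.Split k (θ '' P) (θ '' Q) := by
  have hi : θ '' P ∩ θ '' Q = θ '' (P ∩ Q) := (image_inter θ.injective).symm
  refine ⟨?_, h.mP.image (hom_image θ P), h.mQ.image (hom_image θ Q), ?_, ?_, ?_⟩
  · rw [← image_union, h.un, image_univ, θ.surjective.range_eq]
  · rw [hi]; exact h.mA.image (hom_image θ _)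
  · rw [hi]; exact Rnd.ZIn.image (hom_image θ P) h.mP.cpt h.zP
  · rw [hi]; exact Rnd.ZIn.image (hom_image θ Q) h.mQ.cpt h.zQ

theorem rb_map (θ : N ≃ₜ N') {P : Set N} (h : P ∈ Rnd.RB k N) : θ '' P ∈ Rnd.RB k N' := by
  obtain ⟨Q, h1, h2, h3⟩ := h
  refine ⟨θ '' Q, split_map θ h1, h2.image (hom_image θ P) h1.mP.cpt, ?_⟩
  rw [← image_inter θ.injective]
  exact h3.image (hom_image θ _) h1.mA.cpt

theorem hn_conj (θ : N ≃ₜ N') (Ψ : N' ≃ₜ N') (h : Ψ ∈ Rnd.Hn k N') :
    (θ.trans Ψ).trans θ.symm ∈ Rnd.Hn k N := by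
  have h' : Ψ ∈ Subgroup.closure {f : N' ≃ₜ N' | ∃ P ∈ Rnd.RB k N', SuppIn f P} := h
  induction h' using Subgroup.closure_induction with
  | mem x hx =>
    obtain ⟨P, hP, hs⟩ := hx
    refine Swindle.mem_Hgp (P := θ.symm '' P) (rb_map θ.symm hP) fun y hy => ?_
    have h1 : θ y ∉ P := fun h2 => hy ⟨θ y, h2, θ.symm_apply_apply y⟩
    show θ.symm (x (θ y)) = y
    rw [hs _ h1, θ.symm_apply_apply]
  | one =>
    have : (θ.trans (1 : N' ≃ₜ N')).trans θ.symm = 1 := by
      ext y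
      exact θ.symm_apply_apply y
    rw [this]
    exact Subgroup.one_mem _
  | mul x y hx hy ihx ihy =>
    have : (θ.trans (x * y)).trans θ.symm =
        ((θ.trans x).trans θ.symm) * ((θ.trans y).trans θ.symm) := by
      ext z
      show θ.symm (x (y (θ z))) = θ.symm (x (θ (θ.symm (y (θ z)))))
      rw [θ.apply_symm_apply]
    rw [this]
    exact Subgroup.mul_mem _ (ihx hx) (ihy hy)
  | inv x hx ih =>
    have : (θ.trans x⁻¹).trans θ.symm = ((θ.trans x).trans θ.symm)⁻¹ := by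
      ext z
      rfl
    rw [this]
    exact Subgroup.inv_mem _ (ih hx)

end transport

/-! ## The inputs of 8.1 and 8.2 -/

theorem men_of_rnd {k : ℕ} {N : Type} [MetricSpace N] [CompactSpace N] (h : Rnd.Men k N) :
    Chi.MenC k N := rnd_men_iff.1 h

theorem rnd_of_men {k : ℕ} {N : Type} [MetricSpace N] [CompactSpace N] (h : Chi.MenC k N) :
    Rnd.Men k N := rnd_men_iff.2 h

theorem aek_men {k : ℕ} {N : Type} [MetricSpace N] [CompactSpace N] (h : Rnd.Men k N)
    (hc : Conn k (univ : Set N)) : Rnd.AEk k (univ : Set N) :=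
  aek_of_conn h.ane (men_of_rnd h).2.2.1 hc ⟨Classical.choice h.ne, mem_univ _⟩

theorem pre_of {k : ℕ} (trel : Unk.TRelP k) (srel : Chi.SRelP k (Chi.MenC k)) : Rnd.Pre k where
  trel := trel
  srel β β' _ _ X B cX cB aX aB ε hε := by
    obtain ⟨δ, hδ, h⟩ := srel β β' X B cX cB aX aB ε hε
    exact ⟨δ, hδ, fun p hp N _ _ hN => h p hp N (men_of_rnd hN)⟩
  collar M _ _ hM := by
    obtain ⟨i, r, h1, -, h3, h4, h5⟩ := Chi.collar_self srel (men_of_rnd hM)
    exact ⟨M, inferInstance, inferInstance, i, r, hM, h1, h3, h4, h5⟩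
  mu := by
    have h : Rnd.Men k (mu k (2 * k + 1)) := rnd_of_men ⟨inferInstance, men_mu le_rfl⟩
    exact ⟨mu k (2 * k + 1), inferInstance, inferInstance, h, aek_men h (connU_mu k _)⟩

/-- T_REL over a point -/
theorem tpt_of {k : ℕ} (T : Unk.TRelP k) : TPt k := by
  intro A B _ _ _ _ hA₀ hB₀ mA mB cA cB W W' zW zW' g
  have hA : Rnd.Men k A := rnd_of_men ⟨hA₀, mA⟩
  have hB : Rnd.Men k B := rnd_of_men ⟨hB₀, mB⟩
  obtain ⟨δ, hδ, h⟩ := T Unit {()} isCompact_singleton (Unk.ane_point ()) 1 one_pos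
  obtain ⟨θ, h1, -⟩ := h A B hA hB (fun _ => ()) (fun _ => ())
    (Rnd.soft_const (aek_men hA cA) ()) (Rnd.soft_const (aek_men hB cB) ()) W W' zW zW' g
    (fun x => by rw [dist_self]; exact hδ)
  exact ⟨θ, h1⟩

/-- compact manifolds are Menger spaces -/
theorem men_of_manifold {k : ℕ} {M : Type} [MetricSpace M] [CompactSpace M] [Nonempty M]
    (hM : IsMuManifold k M) : Rnd.Men k M := by
  refine rnd_of_men ⟨inferInstance, Loc.men_loc fun x => ?_⟩
  obtain ⟨U, hU, hxU, V, hV, ⟨θ⟩⟩ := hM x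
  obtain ⟨e, e', hc, -, -⟩ := Loc.exists_chart hU hV θ ⟨x, hxU⟩
  exact ⟨mu k (2 * k + 1), inferInstance, inferInstance, U, e, e', men_mu le_rfl, hc, hxU⟩

/-- the round balls of a connected manifold: displacement and a swindle -/
theorem data_of {k : ℕ} (T : Unk.TRelP k) (P : Rnd.Pre k) {M : Type} [MetricSpace M]
    [CompactSpace M] [ConnectedSpace M] (hM : IsMuManifold k M) : Data (Rnd.RB k M) where
  inv g _ hP := Rnd.RB.image g hP
  disp _ hP _ hO hne := P.disp hP hO hne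
  swin := by
    obtain ⟨x⟩ := (inferInstance : Nonempty M)
    obtain ⟨B, hB, hx, -⟩ := P.base (men_of_manifold hM) x (U := univ) Filter.univ_mem
    exact exists_swin_RB (tpt_of T) le_rfl hM hB ⟨x, mem_interior_iff_mem_nhds.2 hx⟩

/-! ## Conclusions -/

section concl

variable {n : ℕ} {M : Type} [TopologicalSpace M] [T2Space M]

/-- the conclusions of the main theorem, if `Auth₀` is generated by the homeomorphisms supported
in the sets of a family with displacement and a swindle -/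
theorem concl_of_data {RB : Set (Set M)} (T : Data RB) (h : Auth0 n M = Hgp RB) :
    Auth0 n M ≠ ⊥ ∧ (Auth0 n M).Normal ∧
    (∀ N : Subgroup (M ≃ₜ M), N.Normal → N ≠ ⊥ → Auth0 n M ≤ N) ∧
    IsSimpleGroup (Auth0 n M) := by
  refine ⟨?_, normal_Auth0 n M, ?_, ?_⟩
  · rw [h]; exact T.nontrivial
  · intro N hN hN1
    rw [h]; exact T.smallest hN hN1
  · rw [h]; exact T.simple

end concl

/-- `H ≤ Auth₀` -/
theorem Hgp_le_Auth0 {n : ℕ} {M : Type} [MetricSpace M] {RB : Set (Set M)}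
    (hRB : ∀ P ∈ RB, IsClosed P ∧ Rnd.AEk (n + 1) P) : Hgp RB ≤ Auth0 n M := by
  rw [Hgp, Subgroup.closure_le]
  rintro h ⟨P, hP, hs⟩
  obtain ⟨cP, aP⟩ := hRB P hP
  have hcl : IsClosed {x : M | h x = x} := isClosed_eq h.continuous continuous_id
  have h1 : closure Pᶜ ⊆ {x : M | h x = x} := hcl.closure_subset_iff.2 fun x hx => hs x hx
  refine mem_Auth0_of_AEk cP (isClosed_closure (s := Pᶜ)) ?_ aP fun x hx => h1 hx
  rw [eq_univ_iff_forall]
  intro x
  by_cases hx : x ∈ P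
  · exact Or.inl hx
  · exact Or.inr (subset_closure hx)

/-- `Auth₀ ≤ H`: Theorem CHI and the unknotting theorem. -/
theorem Auth0_le_Hn {n : ℕ} (trel : Unk.TRelP (n + 1))
    (srel : Chi.SRelP (n + 1) (Chi.MenC (n + 1))) {M : Type} [MetricSpace M] [CompactSpace M]
    (hM : Rnd.Men (n + 1) M) (small : Unk.SmallP M (Rnd.Hn (n + 1) M)) :
    Auth0 n M ≤ Rnd.Hn (n + 1) M := by
  intro f hf
  have trel' : Chi.TRelP (n + 1) (Chi.MenC (n + 1)) := by
    intro β _ X cX aX ε hε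
    obtain ⟨δ, hδ, h⟩ := trel β X cX aX ε hε
    exact ⟨δ, hδ, fun N N' _ _ _ _ h1 h2 => h N N' (rnd_of_men h1) (rnd_of_men h2)⟩
  let T : Chi.Theory (n + 1) := Chi.theoryOf (n + 1) M (fun N _ _ => Rnd.Hn (n + 1) N)
    (fun N N' _ _ _ _ θ Ψ => hn_conj θ Ψ) trel' srel small
  have hTM : T.Men M := ⟨men_of_rnd hM, ⟨Homeomorph.refl M⟩⟩
  obtain ⟨N, _, _, i, r, hN, ci, zi, sr, hri⟩ := T.collar M hTM
  have hN' : Rnd.Men (n + 1) N := rnd_of_men hN.1
  have hinj : Function.Injective i := Function.LeftInverse.injective (g := r) hri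
  obtain ⟨F, hF, hFi⟩ := Unk.zunknot trel hN' (T.small N hN) (Ball.rndP (pre_of trel srel) hN') hM
    ⟨i, ci⟩ ⟨hinj, zi⟩ hf
  exact Chi.chi T hTM hN ci zi sr hri hF hFi

/-- **The main theorem for one manifold, from T_REL, S_REL and SMALL.** -/
theorem main_one {n : ℕ} (trel : Unk.TRelP (n + 1))
    (srel : Chi.SRelP (n + 1) (Chi.MenC (n + 1))) {M : Type} [MetricSpace M] [CompactSpace M]
    [ConnectedSpace M] (hM : IsMuManifold (n + 1) M)
    (small : Unk.SmallP M (Rnd.Hn (n + 1) M)) :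
    Auth0 n M ≠ ⊥ ∧ (Auth0 n M).Normal ∧
    (∀ N : Subgroup (M ≃ₜ M), N.Normal → N ≠ ⊥ → Auth0 n M ≤ N) ∧
    IsSimpleGroup (Auth0 n M) := by
  refine concl_of_data (data_of trel (pre_of trel srel) hM) (le_antisymm ?_ ?_)
  · exact Auth0_le_Hn trel srel (men_of_manifold hM) small
  · refine Hgp_le_Auth0 fun P hP => ?_
    obtain ⟨Q, h1, h2, -⟩ := hP
    exact ⟨h1.mP.cpt.isClosed, h2⟩

/-- **The main theorem, from T_REL, S_REL and SMALL.** -/
theorem main_of_core (trel : ∀ n, 1 ≤ n → Unk.TRelP (n + 1))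
    (srel : ∀ n, 1 ≤ n → Chi.SRelP (n + 1) (Chi.MenC (n + 1)))
    (small : ∀ n, 1 ≤ n → ∀ (M : Type) [MetricSpace M] [CompactSpace M] [ConnectedSpace M],
      IsMuManifold (n + 1) M → Unk.SmallP M (Rnd.Hn (n + 1) M)) : MainStatement := by
  intro n hn M _ _ _ _ hM
  let _ : MetricSpace M := TopologicalSpace.metrizableSpaceMetric M
  exact main_one (trel n hn) (srel n hn) hM (small n hn M hM)

end MG
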