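import Pool.Agent.Work.MP_017613_gt.Kit.Defs

/-!
# Lemma R, part A: hat functions of the Freudenthal triangulation

`hat p x` (`p` a lattice point) is positive only at lattice points of the cell of `x`; if `x` has
`n` non-integral coordinates, at most `n + 1` hat functions are positive at `x`.
`pou m v x`: the map of a cube into `[0,1]^W` given by a labelling `v` of the lattice points of the
grid of mesh `1/m`.
-/

open Set Metric Topology
open scoped Classical

set_option linter.unusedSectionVars false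
set_option linter.unusedDecidableInType false

namespace MG
namespace LR

variable {N : ℕ}

/-- largest excess of `x` over `p` -/
noncomputable def up (x : Fin N → ℝ) (p : Fin N → ℤ) : ℝ := ‖fun i => max (x i - p i) 0‖

/-- largest excess of `p` over `x` -/
noncomputable def dn (x : Fin N → ℝ) (p : Fin N → ℤ) : ℝ := ‖fun i => max ((p i : ℝ) - x i) 0‖

/-- hat function -/
noncomputable def hat (p : Fin N → ℤ) (x : Fin N → ℝ) : ℝ := max 0 (1 - up x p - dn x p)

lemma continuous_hat (p : Fin N → ℤ) : Continuous (hat p) := by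
  unfold hat up dn
  refine continuous_const.max ((continuous_const.sub ?_).sub ?_)
  · refine continuous_norm.comp (continuous_pi fun i => ?_)
    exact ((continuous_apply i).sub continuous_const).max continuous_const
  · refine continuous_norm.comp (continuous_pi fun i => ?_)
    exact (continuous_const.sub (continuous_apply i)).max continuous_const

lemma hat_nonneg (p : Fin N → ℤ) (x : Fin N → ℝ) : 0 ≤ hat p x := le_max_left _ _

lemma le_up (x : Fin N → ℝ) (p : Fin N → ℤ) (i : Fin N) : x i - p i ≤ up x p := by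
  have h := norm_le_pi_norm (fun i => max (x i - p i) 0) i
  have h2 : |max (x i - p i) 0| = max (x i - p i) 0 := abs_of_nonneg (le_max_right _ _)
  rw [Real.norm_eq_abs, h2] at h
  exact (le_max_left _ _).trans h

lemma le_dn (x : Fin N → ℝ) (p : Fin N → ℤ) (i : Fin N) : (p i : ℝ) - x i ≤ dn x p := by
  have h := norm_le_pi_norm (fun i => max ((p i : ℝ) - x i) 0) i
  have h2 : |max ((p i : ℝ) - x i) 0| = max ((p i : ℝ) - x i) 0 := abs_of_nonneg (le_max_right _ _)
  rw [Real.norm_eq_abs, h2] at h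
  exact (le_max_left _ _).trans h

lemma up_nonneg (x : Fin N → ℝ) (p : Fin N → ℤ) : 0 ≤ up x p := norm_nonneg _

lemma dn_nonneg (x : Fin N → ℝ) (p : Fin N → ℤ) : 0 ≤ dn x p := norm_nonneg _

lemma of_hat_pos {p : Fin N → ℤ} {x : Fin N → ℝ} (h : 0 < hat p x) : up x p + dn x p < 1 := by
  unfold hat at h
  rcases lt_max_iff.1 h with h | h
  · exact absurd h (lt_irrefl _)
  · linarith

lemma hat_pos_lt {p : Fin N → ℤ} {x : Fin N → ℝ} (h : 0 < hat p x) (i l : Fin N) :
    (x i - p i) + ((p l : ℝ) - x l) < 1 := by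
  have := of_hat_pos h
  have := le_up x p i
  have := le_dn x p l
  linarith

lemma hat_pos_abs {p : Fin N → ℤ} {x : Fin N → ℝ} (h : 0 < hat p x) (i : Fin N) :
    |x i - p i| < 1 := by
  have h1 := of_hat_pos h
  have := le_up x p i
  have := le_dn x p i
  have := up_nonneg x p
  have := dn_nonneg x p
  rw [abs_lt]
  constructor <;> linarith

/-- the lattice point is a corner of the cell of `x` -/
lemma hat_pos_cases {p : Fin N → ℤ} {x : Fin N → ℝ} (h : 0 < hat p x) (i : Fin N) :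
    p i = ⌊x i⌋ ∨ (p i = ⌊x i⌋ + 1 ∧ (⌊x i⌋ : ℝ) < x i) := by
  have h1 := hat_pos_abs h i
  rw [abs_lt] at h1
  have h2 := Int.floor_le (x i)
  have h3 := Int.lt_floor_add_one (x i)
  have h4 : (p i : ℝ) < ((⌊x i⌋ + 2 : ℤ) : ℝ) := by push_cast; linarith
  have h5 : ((⌊x i⌋ - 1 : ℤ) : ℝ) < (p i : ℝ) := by push_cast; linarith
  have h6 : p i < ⌊x i⌋ + 2 := by exact_mod_cast h4
  have h7 : ⌊x i⌋ - 1 < p i := by exact_mod_cast h5
  rcases (by omega : p i = ⌊x i⌋ ∨ p i = ⌊x i⌋ + 1) with h8 | h8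
  · exact Or.inl h8
  · refine Or.inr ⟨h8, ?_⟩
    rw [h8] at h1
    push_cast at h1
    linarith

lemma hat_pos_int {p : Fin N → ℤ} {x : Fin N → ℝ} (h : 0 < hat p x) {i : Fin N} {a : ℤ}
    (ha : x i = a) : p i = a := by
  rcases hat_pos_cases h i with h1 | ⟨_, h2⟩
  · rw [h1, ha, Int.floor_intCast]
  · rw [ha, Int.floor_intCast] at h2
    exact absurd h2 (lt_irrefl _)

/-- the coordinates rounded up -/
noncomputable def upS (x : Fin N → ℝ) (p : Fin N → ℤ) : Finset (Fin N) := Finset.univ.filter fun i => ⌊x i⌋ < p i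

lemma eq_of_upS {p q : Fin N → ℤ} {x : Fin N → ℝ} (hp : 0 < hat p x) (hq : 0 < hat q x)
    (h : upS x p = upS x q) : p = q := by
  funext i
  have h1 : (⌊x i⌋ < p i) ↔ (⌊x i⌋ < q i) := by
    have : i ∈ upS x p ↔ i ∈ upS x q := by rw [h]
    simpa [upS] using this
  rcases hat_pos_cases hp i with h2 | ⟨h2, _⟩ <;> rcases hat_pos_cases hq i with h3 | ⟨h3, _⟩ <;>
    omega

lemma upS_chain {p q : Fin N → ℤ} {x : Fin N → ℝ} (hp : 0 < hat p x) (hq : 0 < hat q x) :
    upS x p ⊆ upS x q ∨ upS x q ⊆ upS x p := by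
  by_contra hc
  push Not at hc
  obtain ⟨hc1, hc2⟩ := hc
  obtain ⟨i, hi, hi'⟩ := Finset.not_subset.1 hc1
  obtain ⟨l, hl, hl'⟩ := Finset.not_subset.1 hc2
  simp only [upS, Finset.mem_filter, Finset.mem_univ, true_and] at hi hi' hl hl'
  have e1 : p i = ⌊x i⌋ + 1 := by rcases hat_pos_cases hp i with h | ⟨h, _⟩ <;> omega
  have e2 : q i = ⌊x i⌋ := by rcases hat_pos_cases hq i with h | ⟨h, _⟩ <;> omega
  have e3 : q l = ⌊x l⌋ + 1 := by rcases hat_pos_cases hq l with h | ⟨h, _⟩ <;> omega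
  have e4 : p l = ⌊x l⌋ := by rcases hat_pos_cases hp l with h | ⟨h, _⟩ <;> omega
  have h1 := hat_pos_lt hp l i
  have h2 := hat_pos_lt hq i l
  rw [e1, e4] at h1
  rw [e2, e3] at h2
  push_cast at h1 h2
  linarith

/-- at most `n + 1` hat functions are positive at a point with `n` non-integral coordinates -/
lemma card_hat_le {x : Fin N → ℝ} {n : ℕ}
    (hx : (Finset.univ.filter fun i => ∀ a : ℤ, x i ≠ a).card ≤ n) (F : Finset (Fin N → ℤ))
    (hF : ∀ p ∈ F, 0 < hat p x) : F.card ≤ n + 1 := by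
  rw [← Finset.card_range (n + 1)]
  refine Finset.card_le_card_of_injOn (fun p => (upS x p).card) ?_ ?_
  · intro p hp
    have hp' := hF p hp
    simp only [Finset.coe_range, mem_Iio]
    refine Nat.lt_succ_of_le (le_trans (Finset.card_le_card ?_) hx)
    intro i hi
    simp only [upS, Finset.mem_filter, Finset.mem_univ, true_and] at hi ⊢
    intro a ha
    have := hat_pos_int hp' ha
    rw [ha, Int.floor_intCast] at hi
    omega
  · intro p hp q hq h
    have hp' := hF p hp
    have hq' := hF q hq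
    refine eq_of_upS hp' hq' ?_
    rcases upS_chain hp' hq' with hc | hc
    · exact Finset.eq_of_subset_of_card_le hc (le_of_eq h.symm)
    · exact (Finset.eq_of_subset_of_card_le hc (le_of_eq h)).symm

/-- the hat function of the corner `⌈x⌉` is positive -/
lemma hat_ceil_pos (x : Fin N → ℝ) : 0 < hat (fun i => ⌈x i⌉) x := by
  unfold hat
  refine lt_max_of_lt_right ?_
  have h1 : up x (fun i => ⌈x i⌉) = 0 := by
    unfold up
    have : (fun i => max (x i - ((fun i => ⌈x i⌉) i : ℤ)) 0) = (0 : Fin N → ℝ) := by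
      funext i
      have := Int.le_ceil (x i)
      simp only [Pi.zero_apply]
      exact max_eq_right (by linarith)
    rw [this, norm_zero]
  have h2 : dn x (fun i => ⌈x i⌉) < 1 := by
    unfold dn
    rw [pi_norm_lt_iff one_pos]
    intro i
    have h3 := Int.ceil_lt_add_one (x i)
    rw [Real.norm_eq_abs, abs_of_nonneg (le_max_right _ _)]
    exact max_lt (by linarith) one_pos
  linarith

/-! ### The map into `[0,1]^W` -/

variable {W : Type*} [Fintype W]

/-- lattice points of `[0,m]^N` -/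
noncomputable def box (N m : ℕ) : Finset (Fin N → ℤ) := Fintype.piFinset fun _ => Finset.Icc (0 : ℤ) m

/-- unnormalised sum of hat functions with label `w` -/
noncomputable def pou0 (m : ℕ) (v : (Fin N → ℤ) → W) (x : Fin N → ℝ) : W → ℝ := fun w =>
  ∑ p ∈ (box N m).filter (fun p => v p = w), hat p (fun i => m * x i)

/-- the map of the cube into `[0,1]^W` -/
noncomputable def pou (m : ℕ) (v : (Fin N → ℤ) → W) (x : Fin N → ℝ) : W → ℝ :=
  ‖pou0 m v x‖⁻¹ • pou0 m v x

lemma pou0_nonneg (m : ℕ) (v : (Fin N → ℤ) → W) (x : Fin N → ℝ) (w : W) : 0 ≤ pou0 m v x w :=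
  Finset.sum_nonneg fun _ _ => hat_nonneg _ _

lemma continuous_pou0 (m : ℕ) (v : (Fin N → ℤ) → W) : Continuous (pou0 m v) := by
  refine continuous_pi fun w => ?_
  unfold pou0
  refine continuous_finsetSum _ fun p _ => (continuous_hat p).comp ?_
  exact continuous_pi fun i => continuous_const.mul (continuous_apply i)

lemma ceil_mem_box {m : ℕ} {x : Fin N → ℝ} (hx : x ∈ Cu N) :
    (fun i => ⌈(m:ℝ) * x i⌉) ∈ box N m := by
  rw [mem_Cu] at hx
  simp only [box, Fintype.mem_piFinset, Finset.mem_Icc]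
  intro i
  have h0 : (0:ℝ) ≤ m := Nat.cast_nonneg m
  constructor
  · have : (0:ℝ) ≤ m * x i := mul_nonneg h0 (hx i).1
    exact Int.ceil_nonneg this
  · rw [Int.ceil_le]
    push_cast
    nlinarith [(hx i).2]

lemma pou0_pos {m : ℕ} {v : (Fin N → ℤ) → W} {x : Fin N → ℝ} {w : W} (h : 0 < pou0 m v x w) :
    ∃ p ∈ box N m, v p = w ∧ 0 < hat p (fun i => m * x i) := by
  by_contra hc
  push Not at hc
  have : pou0 m v x w = 0 := by
    refine Finset.sum_eq_zero fun p hp => ?_
    rw [Finset.mem_filter] at hp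
    exact le_antisymm (hc p hp.1 hp.2) (hat_nonneg _ _)
  linarith

lemma pou0_norm_pos {m : ℕ} (v : (Fin N → ℤ) → W) {x : Fin N → ℝ} (hx : x ∈ Cu N) :
    0 < ‖pou0 m v x‖ := by
  have h1 := hat_ceil_pos (fun i => (m:ℝ) * x i)
  have h2 : 0 < pou0 m v x (v fun i => ⌈(m:ℝ) * x i⌉) := by
    refine lt_of_lt_of_le h1 ?_
    unfold pou0
    refine Finset.single_le_sum (f := fun p => hat p (fun i => (m:ℝ) * x i))
      (fun p _ => hat_nonneg _ _) ?_
    rw [Finset.mem_filter]
    exact ⟨ceil_mem_box hx, rfl⟩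
  have h3 := norm_le_pi_norm (pou0 m v x) (v fun i => ⌈(m:ℝ) * x i⌉)
  rw [Real.norm_eq_abs, abs_of_pos h2] at h3
  linarith

lemma continuousOn_pou (m : ℕ) (v : (Fin N → ℤ) → W) : ContinuousOn (pou m v) (Cu N) := by
  have h1 : ContinuousOn (fun x => ‖pou0 m v x‖) (Cu N) :=
    (continuous_norm.comp (continuous_pou0 m v)).continuousOn
  have h2 : ContinuousOn (fun x => ‖pou0 m v x‖⁻¹) (Cu N) :=
    h1.inv₀ fun x hx => (pou0_norm_pos v hx).ne'
  exact h2.smul (continuous_pou0 m v).continuousOn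

lemma pou_nonneg (m : ℕ) (v : (Fin N → ℤ) → W) (x : Fin N → ℝ) (w : W) : 0 ≤ pou m v x w := by
  unfold pou
  rw [Pi.smul_apply, smul_eq_mul]
  exact mul_nonneg (inv_nonneg.2 (norm_nonneg _)) (pou0_nonneg _ _ _ _)

lemma pou_le_one {m : ℕ} (v : (Fin N → ℤ) → W) {x : Fin N → ℝ} (hx : x ∈ Cu N) (w : W) :
    pou m v x w ≤ 1 := by
  unfold pou
  rw [Pi.smul_apply, smul_eq_mul, inv_mul_le_iff₀ (pou0_norm_pos v hx), mul_one]
  have h3 := norm_le_pi_norm (pou0 m v x) w
  rwa [Real.norm_eq_abs, abs_of_nonneg (pou0_nonneg _ _ _ _)] at h3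

lemma exists_pou_eq_one {m : ℕ} (v : (Fin N → ℤ) → W) {x : Fin N → ℝ} (hx : x ∈ Cu N) :
    ∃ w, pou m v x w = 1 := by
  have hpos := pou0_norm_pos (m := m) v hx
  have : Nonempty W := by
    by_contra hc
    rw [not_nonempty_iff] at hc
    have : pou0 m v x = 0 := Subsingleton.elim _ _
    rw [this, norm_zero] at hpos
    exact lt_irrefl _ hpos
  obtain ⟨w, hw⟩ := Finite.exists_max (fun w => pou0 m v x w)
  refine ⟨w, ?_⟩
  have h1 : ‖pou0 m v x‖ = pou0 m v x w := by
    refine le_antisymm ?_ ?_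
    · rw [pi_norm_le_iff_of_nonneg (pou0_nonneg _ _ _ _)]
      intro u
      rw [Real.norm_eq_abs, abs_of_nonneg (pou0_nonneg _ _ _ _)]
      exact hw u
    · have h3 := norm_le_pi_norm (pou0 m v x) w
      rwa [Real.norm_eq_abs, abs_of_nonneg (pou0_nonneg _ _ _ _)] at h3
  unfold pou
  rw [Pi.smul_apply, smul_eq_mul, ← h1, inv_mul_cancel₀ hpos.ne']

lemma pou_pos {m : ℕ} {v : (Fin N → ℤ) → W} {x : Fin N → ℝ} {w : W} (h : 0 < pou m v x w) :
    ∃ p ∈ box N m, v p = w ∧ 0 < hat p (fun i => m * x i) := by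
  refine pou0_pos ?_
  by_contra hc
  have h0 : pou0 m v x w = 0 := le_antisymm (not_lt.1 hc) (pou0_nonneg _ _ _ _)
  unfold pou at h
  rw [Pi.smul_apply, h0, smul_zero] at h
  exact lt_irrefl _ h

/-- the support has at most `n + 1` elements -/
lemma card_pou_le {m : ℕ} {v : (Fin N → ℤ) → W} {x : Fin N → ℝ} {n : ℕ}
    (hx : (Finset.univ.filter fun i => ∀ a : ℤ, (m:ℝ) * x i ≠ a).card ≤ n) :
    (Finset.univ.filter fun w => 0 < pou m v x w).card ≤ n + 1 := by
  classical
  refine le_trans ?_ (card_hat_le (x := fun i => (m:ℝ) * x i) hx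
    ((box N m).filter fun p => 0 < hat p (fun i => (m:ℝ) * x i)) ?_)
  · refine (Finset.card_le_card ?_).trans (Finset.card_image_le (f := v))
    intro w hw
    simp only [Finset.mem_filter, Finset.mem_univ, true_and] at hw
    obtain ⟨p, hp, h1, h2⟩ := pou_pos hw
    rw [Finset.mem_image]
    exact ⟨p, Finset.mem_filter.2 ⟨hp, h2⟩, h1⟩
  · intro p hp
    exact (Finset.mem_filter.1 hp).2

/-- on the boundary of the cube `I^(j+1)` the support has at most `j + 1` elements -/
lemma card_pou_dCu {j m : ℕ} {v : (Fin (j + 1) → ℤ) → W} {x : Fin (j + 1) → ℝ}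
    (hx : x ∈ dCu (j + 1)) : (Finset.univ.filter fun w => 0 < pou m v x w).card ≤ j + 1 := by
  refine card_pou_le ?_
  obtain ⟨i, hi⟩ := hx.2
  have hs : (Finset.univ.filter fun i => ∀ a : ℤ, (m:ℝ) * x i ≠ a) ⊆ Finset.univ.erase i := by
    intro l hl
    rw [Finset.mem_erase]
    refine ⟨?_, Finset.mem_univ _⟩
    rintro rfl
    rw [Finset.mem_filter] at hl
    rcases hi with hi | hi
    · exact hl.2 0 (by rw [hi]; simp)
    · exact hl.2 m (by rw [hi]; simp)
  refine (Finset.card_le_card hs).trans ?_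
  rw [Finset.card_erase_of_mem (Finset.mem_univ _)]
  simp

/-- the lattice points of positive weight are near `x` and on the boundary if `x` is -/
lemma hat_pos_near {m : ℕ} (hm : 0 < m) {p : Fin N → ℤ} {x : Fin N → ℝ}
    (h : 0 < hat p (fun i => m * x i)) : dist (fun i => (p i : ℝ) / m) x ≤ 1 / m := by
  have hm' : (0:ℝ) < m := by exact_mod_cast hm
  rw [dist_pi_le_iff (by positivity)]
  intro i
  have h1 := hat_pos_abs h i
  rw [Real.dist_eq, le_div_iff₀ hm', ← abs_of_pos hm', ← abs_mul, abs_of_pos hm', sub_mul,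
    div_mul_cancel₀ _ hm'.ne', abs_sub_comm, mul_comm (x i)]
  exact h1.le

lemma box_mem_Cu {m : ℕ} (hm : 0 < m) {p : Fin N → ℤ} (hp : p ∈ box N m) :
    (fun i => (p i : ℝ) / m) ∈ Cu N := by
  have hm' : (0:ℝ) < m := by exact_mod_cast hm
  simp only [box, Fintype.mem_piFinset, Finset.mem_Icc] at hp
  rw [mem_Cu]
  intro i
  have h1 : (0:ℝ) ≤ p i := by exact_mod_cast (hp i).1
  have h2 : (p i : ℝ) ≤ m := by exact_mod_cast (hp i).2
  exact ⟨div_nonneg h1 hm'.le, by rw [div_le_one hm']; exact h2⟩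

lemma hat_pos_mem_dCu {m : ℕ} (hm : 0 < m) {p : Fin N → ℤ} (hp : p ∈ box N m) {x : Fin N → ℝ}
    (hx : x ∈ dCu N) (h : 0 < hat p (fun i => m * x i)) : (fun i => (p i : ℝ) / m) ∈ dCu N := by
  have hm' : (m:ℝ) ≠ 0 := by exact_mod_cast hm.ne'
  refine ⟨box_mem_Cu hm hp, ?_⟩
  obtain ⟨i, hi⟩ := hx.2
  refine ⟨i, ?_⟩
  rcases hi with hi | hi
  · left
    have : p i = 0 := hat_pos_int h (i := i) (a := 0) (by simp [hi])
    show (p i : ℝ) / m = 0
    rw [this]; simp
  · right
    have : p i = m := hat_pos_int h (i := i) (a := m) (by simp [hi])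
    show (p i : ℝ) / m = 1
    rw [this]
    push_cast
    exact div_self hm'

end LR
end MG
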