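import Pool.Agent.Work.MP_017613_gt.Coarse

/-!
# Lemma R, part B: the cubical complex of a ball and its map

Points `v i` (`i < n`) of `R`, coordinates `z (i + 1)`; the coordinate `z 0` is the star.
`QQ X`: points `z` of the cube with `max z = 1` whose support (without the star) satisfies `X`.
`exists_E`: the map of the `j`-skeleton of `QQ X` into `R`.
-/

open Set Metric Topology
open scoped Classical

set_option linter.unusedSectionVars false

namespace MG
namespace LR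

variable {n : ℕ}

/-- support without the star -/
noncomputable def sp (z : Fin (n + 1) → ℝ) : Finset (Fin n) := Finset.univ.filter fun i => 0 < z i.succ

lemma mem_sp {z : Fin (n + 1) → ℝ} {i : Fin n} : i ∈ sp z ↔ 0 < z i.succ := by simp [sp]

/-- the cone over the complex `X` -/
def QQ (X : Finset (Fin n) → Prop) : Set (Fin (n + 1) → ℝ) :=
  {z | z ∈ Cu (n + 1) ∧ (∃ i, z i = 1) ∧ X (sp z)}

lemma mem_cube_car_one {N : ℕ} {z z' : Fin N → ℝ} :
    z' ∈ cube 1 (car 1 z) ↔ ∀ i, (⌊z i⌋ : ℝ) ≤ z' i ∧ z' i ≤ (⌈z i⌉ : ℝ) := by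
  unfold cube
  simp only [mem_ofPred_eq]
  refine forall_congr' fun i => ?_
  rw [car_lo, car_hi, Nat.cast_one, one_mul, one_mul]

lemma car_one {N : ℕ} (z : Fin N → ℝ) (i : Fin N) : car 1 z i = ⌊z i⌋ + ⌈z i⌉ := by
  unfold car
  rw [Nat.cast_one, one_mul]

/-- coordinates `0` and `1` are kept on the cube of `z` -/
lemma cube_zero {N : ℕ} {z z' : Fin N → ℝ} (h : z' ∈ cube 1 (car 1 z)) {i : Fin N}
    (hi : z i = 0) : z' i = 0 := by
  have := mem_cube_car_one.1 h i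
  rw [hi] at this
  simp only [Int.floor_zero, Int.cast_zero, Int.ceil_zero] at this
  exact le_antisymm this.2 this.1

lemma cube_one {N : ℕ} {z z' : Fin N → ℝ} (h : z' ∈ cube 1 (car 1 z)) {i : Fin N}
    (hi : z i = 1) : z' i = 1 := by
  have := mem_cube_car_one.1 h i
  rw [hi] at this
  simp only [Int.floor_one, Int.cast_one, Int.ceil_one] at this
  exact le_antisymm this.2 this.1

lemma cube_Cu {N : ℕ} {z z' : Fin N → ℝ} (hz : z ∈ Cu N) (h : z' ∈ cube 1 (car 1 z)) :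
    z' ∈ Cu N := by
  rw [mem_Cu] at hz ⊢
  intro i
  have h1 := mem_cube_car_one.1 h i
  have h2 : (0:ℝ) ≤ (⌊z i⌋ : ℝ) := by exact_mod_cast Int.floor_nonneg.2 (hz i).1
  have h3 : (⌈z i⌉ : ℝ) ≤ 1 := by
    have : ⌈z i⌉ ≤ 1 := Int.ceil_le.2 (by simpa using (hz i).2)
    exact_mod_cast this
  exact ⟨h2.trans h1.1, h1.2.trans h3⟩

lemma sp_subset {z z' : Fin (n + 1) → ℝ} (hz : z ∈ Cu (n + 1)) (h : z' ∈ cube 1 (car 1 z)) :
    sp z' ⊆ sp z := by
  intro i hi
  rw [mem_sp] at hi ⊢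
  rcases lt_or_eq_of_le ((mem_Cu.1 hz) i.succ).1 with h1 | h1
  · exact h1
  · rw [cube_zero h h1.symm] at hi
    exact absurd hi (lt_irrefl _)

/-- `X` is a complex -/
def Dn (X : Finset (Fin n) → Prop) : Prop := ∀ A B, B ⊆ A → X A → X B

lemma isCub_QQ {X : Finset (Fin n) → Prop} (hX : Dn X) : IsCub 1 (QQ X) where
  bdd := (isCompact_Cu (n + 1)).isBounded.subset fun _ hz => hz.1
  sat := by
    rintro z ⟨hz, ⟨i, hi⟩, hXz⟩ z' hz'
    exact ⟨cube_Cu hz hz', ⟨i, cube_one hz' hi⟩, hX _ _ (sp_subset hz hz') hXz⟩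

/-- the free coordinates are in the support, and not equal to `1` -/
lemma dm_car_one {N : ℕ} {z : Fin N → ℝ} (hz : z ∈ Cu N) :
    dm (car 1 z) = (Finset.univ.filter fun i => 0 < z i ∧ z i < 1).card := by
  unfold dm
  congr 1
  ext i
  simp only [Finset.mem_filter, Finset.mem_univ, true_and]
  rw [car_one]
  have h := (mem_Cu.1 hz) i
  constructor
  · intro ho
    refine ⟨lt_of_le_of_ne h.1 fun h0 => ?_, lt_of_le_of_ne h.2 fun h1 => ?_⟩
    · rw [← h0] at ho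
      simp at ho
    · rw [h1] at ho
      simp only [Int.floor_one, Int.ceil_one] at ho
      exact absurd ho (by decide)
  · rintro ⟨h0, h1⟩
    have e1 : ⌊z i⌋ = 0 := Int.floor_eq_zero_iff.2 ⟨h0.le, h1⟩
    have e2 : ⌈z i⌉ = 1 := by
      rw [Int.ceil_eq_iff]
      simpa using ⟨h0, h1.le⟩
    rw [e1, e2]
    exact ⟨0, by norm_num⟩

/-- `#` positive coordinates of `z` -/
lemma card_pos_le (z : Fin (n + 1) → ℝ) :
    (Finset.univ.filter fun i => 0 < z i).card ≤ (sp z).card + 1 := by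
  have h1 : (Finset.univ.filter fun i => 0 < z i) ⊆ insert 0 ((sp z).map (Fin.succEmb n)) := by
    intro i hi
    rw [Finset.mem_filter] at hi
    rw [Finset.mem_insert, Finset.mem_map]
    rcases Fin.eq_zero_or_eq_succ i with h | ⟨l, h⟩
    · exact Or.inl h
    · right
      refine ⟨l, ?_, ?_⟩
      · rw [mem_sp, ← h]; exact hi.2
      · rw [h]; rfl
  refine (Finset.card_le_card h1).trans ((Finset.card_insert_le _ _).trans ?_)
  rw [Finset.card_map]

lemma card_pos_le' {z : Fin (n + 1) → ℝ} (h0 : z 0 = 0) :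
    (Finset.univ.filter fun i => 0 < z i).card ≤ (sp z).card := by
  have h1 : (Finset.univ.filter fun i => 0 < z i) ⊆ (sp z).map (Fin.succEmb n) := by
    intro i hi
    rw [Finset.mem_filter] at hi
    rw [Finset.mem_map]
    rcases Fin.eq_zero_or_eq_succ i with h | ⟨l, h⟩
    · rw [h, h0] at hi
      exact absurd hi.2 (lt_irrefl _)
    · refine ⟨l, ?_, ?_⟩
      · rw [mem_sp, ← h]; exact hi.2
      · rw [h]; rfl
  refine (Finset.card_le_card h1).trans ?_
  rw [Finset.card_map]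

lemma dm_lt_pos {N : ℕ} {z : Fin N → ℝ} (hz : z ∈ Cu N) {i : Fin N} (hi : z i = 1) :
    dm (car 1 z) + 1 ≤ (Finset.univ.filter fun i => 0 < z i).card := by
  rw [dm_car_one hz]
  have h1 : insert i (Finset.univ.filter fun i => 0 < z i ∧ z i < 1) ⊆
      Finset.univ.filter fun i => 0 < z i := by
    intro l hl
    rw [Finset.mem_insert, Finset.mem_filter] at hl
    rw [Finset.mem_filter]
    rcases hl with rfl | hl
    · exact ⟨Finset.mem_univ _, by rw [hi]; exact one_pos⟩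
    · exact ⟨Finset.mem_univ _, hl.2.1⟩
  have h2 : i ∉ (Finset.univ.filter fun i => 0 < z i ∧ z i < 1) := by
    rw [Finset.mem_filter]
    rintro ⟨-, -, h⟩
    rw [hi] at h
    exact lt_irrefl _ h
  rw [← Finset.card_insert_of_notMem h2]
  exact Finset.card_le_card h1

lemma dm_QQ {X : Finset (Fin n) → Prop} {j : ℕ} (hXc : ∀ A, X A → A.card ≤ j + 1)
    {z : Fin (n + 1) → ℝ} (hz : z ∈ QQ X) : dm (car 1 z) ≤ j + 1 := by
  obtain ⟨hz1, ⟨i, hi⟩, hXz⟩ := hz
  have h1 := dm_lt_pos hz1 hi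
  have h2 := card_pos_le z
  have h3 := hXc _ hXz
  omega

lemma dm_QQ' {X : Finset (Fin n) → Prop} {j : ℕ} (hXc : ∀ A, X A → A.card ≤ j + 1)
    {z : Fin (n + 1) → ℝ} (hz : z ∈ QQ X) (h0 : z 0 = 0) : dm (car 1 z) ≤ j := by
  obtain ⟨hz1, ⟨i, hi⟩, hXz⟩ := hz
  have h1 := dm_lt_pos hz1 hi
  have h2 := card_pos_le' h0
  have h3 := hXc _ hXz
  omega

/-- the `j`-skeleton -/
def Qs (j : ℕ) (X : Finset (Fin n) → Prop) : Set (Fin (n + 1) → ℝ) :=
  {z | z ∈ QQ X ∧ dm (car 1 z) ≤ j}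

lemma isCub_Qs (j : ℕ) {X : Finset (Fin n) → Prop} (hX : Dn X) : IsCub 1 (Qs j X) :=
  (isCub_QQ hX).skel j

/-- a star coordinate is seen by the code -/
lemma zero_of_car {N : ℕ} {z z₀ : Fin N → ℝ} (hz : z₀ ∈ Cu N) {i : Fin N}
    (h : car 1 z i = car 1 z₀ i) (hi : z i = 0) : z₀ i = 0 := by
  rw [car_one, car_one, hi] at h
  simp only [Int.floor_zero, Int.ceil_zero, add_zero] at h
  have h1 := (mem_Cu.1 hz) i
  have h2 : 0 ≤ ⌊z₀ i⌋ := Int.floor_nonneg.2 h1.1
  have h3 : ⌊z₀ i⌋ ≤ ⌈z₀ i⌉ := Int.floor_le_ceil _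
  have h4 : ⌈z₀ i⌉ = 0 := by omega
  have h5 : z₀ i ≤ 0 := by
    have := Int.le_ceil (z₀ i)
    rw [h4] at this
    simpa using this
  exact le_antisymm h5 h1.1

/-- gluing of a cell -/
lemma glue_cell {N m : ℕ} (hm : 0 < m) {α : Type*} [TopologicalSpace α] {A : Set (Fin N → ℝ)}
    (hA : IsCub m A) {w : Fin N → ℤ} (hAw : ∀ x ∈ A, car m x ≠ w) {F : (Fin N → ℝ) → α}
    {K : Set α} (hF : IsMap F A K) {G : (Fin (dm w) → ℝ) → α} (hG : IsMap G (Cu (dm w)) K)
    (hGe : ∀ t ∈ dCu (dm w), G t = F (emb m w t)) :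
    ∃ F₂ : (Fin N → ℝ) → α, IsMap F₂ (A ∪ cube m w) K ∧ EqOn F₂ F A ∧
      ∀ x ∈ cube m w, F₂ x = G (prj m w x) := by
  obtain ⟨F₂, h1, h2, h3⟩ := hF.glue (A' := cube m w) hA.isClosed (isClosed_cube' m w)
    (g := fun x => G (prj m w x))
    ⟨hG.cont.comp (continuous_prj m w).continuousOn (fun x hx => prj_mem hx),
      fun x hx => hG.maps (prj_mem hx)⟩
    (by
      intro x hxA hxw
      have hxb : x ∈ bdry m w := inter_cube_subset hAw ⟨hxA, hxw⟩
      show F x = G (prj m w x)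
      rw [hGe _ (prj_mem_Bd hxb), emb_prj hm hxw])
  exact ⟨F₂, h1, h2, h3⟩

/-- a map on the boundary of the cell, in the coordinates of the cell -/
lemma bdry_map {N m : ℕ} (hm : 0 < m) {α : Type*} [TopologicalSpace α] {A : Set (Fin N → ℝ)}
    {w : Fin N → ℤ} (hb : bdry m w ⊆ A) {F : (Fin N → ℝ) → α} {K : Set α} (hF : IsMap F A K) :
    IsMap (fun t => F (emb m w t)) (dCu (dm w)) K :=
  ⟨hF.cont.comp (continuous_emb m w).continuousOn (fun t ht => hb (emb_mem_bdry hm ht)),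
    fun t ht => hF.maps (hb (emb_mem_bdry hm ht))⟩

lemma exists_sp_of_zero {X : Finset (Fin n) → Prop} {z : Fin (n + 1) → ℝ} (hz : z ∈ QQ X)
    (h0 : z 0 = 0) : ∃ l ∈ sp z, z l.succ = 1 := by
  obtain ⟨-, ⟨i, hi⟩, -⟩ := hz
  rcases Fin.eq_zero_or_eq_succ i with h | ⟨l, h⟩
  · rw [h, h0] at hi
    exact absurd hi (by norm_num)
  · rw [h] at hi
    exact ⟨l, by rw [mem_sp, hi]; exact one_pos, hi⟩

variable {R M : Type*} [MetricSpace R] [MetricSpace M]

/-- **The map of the `j`-skeleton.** -/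
theorem exists_E [Nonempty R] {s : R → M} {v : Fin n → R} {y : M} {X : Finset (Fin n) → Prop}
    (hX : Dn X) {j : ℕ} {κ t : ℕ → ℝ} (hκm : Monotone κ) (htm : Monotone t) {d' : ℝ}
    (hd : ∀ A, X A → ∀ a ∈ A, ∀ b ∈ A, dist (v a) (v b) ≤ d')
    (hU : ∀ d ≤ j, UV d (fun x : R => x) univ univ (κ d) (κ (d + 1) - d'))
    (hS : ∀ d ≤ j, UV d s univ univ (t d) (t (d + 1)))
    (hb : ∀ A, X A → ∀ a ∈ A, ∀ x, dist x (v a) < κ (j + 1) → dist (s x) y < t 0) :
    ∃ E : (Fin (n + 1) → ℝ) → R, IsMap E (Qs j X) univ ∧ ∀ z ∈ Qs j X,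
      (z 0 = 0 → ∀ i ∈ sp z, dist (E z) (v i) < κ (j + 1)) ∧ dist (s (E z)) y < t (j + 1) := by
  have hQ := isCub_Qs j hX
  have main : ∃ E : (Fin (n + 1) → ℝ) → R, IsMap E (Qs j X) univ ∧ ∀ z ∈ Qs j X,
      (z 0 = 0 → ∀ i ∈ sp z, dist (E z) (v i) < κ (dm (car 1 z) + 1)) ∧
      (0 < z 0 → dist (s (E z)) y < t (dm (car 1 z) + 1)) := by
    refine cell_induction hQ (IsCub.empty 1) (empty_subset _) (fun A =>
      ∃ E : (Fin (n + 1) → ℝ) → R, IsMap E A univ ∧ ∀ z ∈ A,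
      (z 0 = 0 → ∀ i ∈ sp z, dist (E z) (v i) < κ (dm (car 1 z) + 1)) ∧
      (0 < z 0 → dist (s (E z)) y < t (dm (car 1 z) + 1))) ?_ ?_
    · exact ⟨fun _ => Classical.arbitrary R, IsMap.empty, fun z hz => hz.elim⟩
    · rintro A w hA - hAP hwP ⟨z₀, hz₀, -, rfl⟩ hAw hbA ⟨F, hFm, hF⟩
      have hdj : dm (car 1 z₀) ≤ j := hz₀.2
      have hcar : ∀ z ∈ cube 1 (car 1 z₀), z ∉ A → car 1 z = car 1 z₀ := by
        intro z hz hzA
        by_contra hc
        exact hzA (hbA ⟨hz, hc⟩)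
      rcases eq_or_ne (z₀ 0) 0 with h0 | h0
      · -- a cell of the base
        obtain ⟨l, hl, hl1⟩ := exists_sp_of_zero hz₀.1 h0
        have hbd : ∀ t ∈ dCu (dm (car 1 z₀)),
            dist (F (emb 1 (car 1 z₀) t)) (v l) < κ (dm (car 1 z₀)) := by
          intro t ht
          have h1 := emb_mem_bdry (m := 1) one_pos ht
          have h2 := (hF _ (hbA h1)).1 (cube_zero h1.1 h0) l
            (by rw [mem_sp, cube_one h1.1 hl1]; exact one_pos)
          have h3 := dm_car_lt h1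
          exact h2.trans_le (hκm h3)
        obtain ⟨G, hGm, hGe, hGd⟩ := hU _ hdj _ le_rfl (v l) (mem_univ _) _
          (bdry_map one_pos hbA hFm) hbd
        obtain ⟨F₂, h1, h2, h3⟩ := glue_cell one_pos hA hAw hFm hGm hGe
        refine ⟨F₂, h1, ?_⟩
        intro z hz
        by_cases hzA : z ∈ A
        · rw [h2 hzA]; exact hF z hzA
        · have hzc : z ∈ cube 1 (car 1 z₀) := hz.resolve_left hzA
          rw [h3 z hzc, hcar z hzc hzA]
          refine ⟨fun _ i hi => ?_, fun hpos => ?_⟩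
          · have h4 : dist (G (prj 1 (car 1 z₀) z)) (v l) < κ (dm (car 1 z₀) + 1) - d' :=
              hGd _ (prj_mem hzc)
            have h5 := hd _ hz₀.1.2.2 l hl i (sp_subset hz₀.1.1 hzc hi)
            have h6 := dist_triangle (G (prj 1 (car 1 z₀) z)) (v l) (v i)
            linarith
          · rw [cube_zero hzc h0] at hpos
            exact absurd hpos (lt_irrefl _)
      · -- a cell of the cone
        have h0' : 0 < z₀ 0 := lt_of_le_of_ne ((mem_Cu.1 hz₀.1.1) 0).1 (Ne.symm h0)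
        have hbd : ∀ x ∈ dCu (dm (car 1 z₀)),
            dist (s (F (emb 1 (car 1 z₀) x))) y < t (dm (car 1 z₀)) := by
          intro x hx
          have h1 := emb_mem_bdry (m := 1) one_pos hx
          have hA1 := hbA h1
          have hQ1 := hAP hA1
          rcases eq_or_ne (emb 1 (car 1 z₀) x 0) 0 with h2 | h2
          · obtain ⟨i, hi, -⟩ := exists_sp_of_zero hQ1.1 h2
            have h3 := ((hF _ hA1).1 h2 i hi).trans_le (hκm (Nat.succ_le_succ hQ1.2))
            exact (hb _ hQ1.1.2.2 i hi _ h3).trans_le (htm (Nat.zero_le _))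
          · have h2' : 0 < emb 1 (car 1 z₀) x 0 :=
              lt_of_le_of_ne ((mem_Cu.1 hQ1.1.1) 0).1 (Ne.symm h2)
            exact ((hF _ hA1).2 h2').trans_le (htm (dm_car_lt h1))
        obtain ⟨G, hGm, hGe, hGd⟩ := hS _ hdj _ le_rfl y (mem_univ _) _
          (bdry_map one_pos hbA hFm) hbd
        obtain ⟨F₂, h1, h2, h3⟩ := glue_cell one_pos hA hAw hFm hGm hGe
        refine ⟨F₂, h1, ?_⟩
        intro z hz
        by_cases hzA : z ∈ A
        · rw [h2 hzA]; exact hF z hzA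
        · have hzc : z ∈ cube 1 (car 1 z₀) := hz.resolve_left hzA
          have hce := hcar z hzc hzA
          rw [h3 z hzc, hce]
          refine ⟨fun hz0 => ?_, fun _ => hGd _ (prj_mem hzc)⟩
          exact absurd (zero_of_car hz₀.1.1 (congrFun hce 0) hz0) h0
  obtain ⟨E, h1, h2⟩ := main
  refine ⟨E, h1, fun z hz => ⟨fun h0 i hi => ((h2 z hz).1 h0 i hi).trans_le
    (hκm (Nat.succ_le_succ hz.2)), ?_⟩⟩
  rcases eq_or_ne (z 0) 0 with h0 | h0
  · obtain ⟨i, hi, -⟩ := exists_sp_of_zero hz.1 h0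
    have h3 := ((h2 z hz).1 h0 i hi).trans_le (hκm (Nat.succ_le_succ hz.2))
    exact (hb _ hz.1.2.2 i hi _ h3).trans_le (htm (Nat.zero_le _))
  · exact ((h2 z hz).2 (lt_of_le_of_ne ((mem_Cu.1 hz.1.1) 0).1 (Ne.symm h0))).trans_le
      (htm (Nat.succ_le_succ hz.2))

end LR
end MG
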