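import Pool.Agent.Work.MP_017613_gt.LemRA
import Pool.Agent.Work.MP_017613_gt.LemRB
import Pool.Agent.Work.MP_017613_gt.Kit.LP
import Pool.Agent.Work.MP_017613_gt.Kit.Adj
import Pool.Agent.Work.MP_017613_gt.Kit.CollarSet

/-!
# Lemma R, part C: attaching the `(j+1)`-cells

`attach_cells`: if `s : R → M` lifts cells of dimension `≤ j` well enough, finitely many small
`(j+1)`-cells can be attached to `R` such that small `j`-spheres of `R` bound in the new space.
-/

open Set Metric Topology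
open scoped Classical

set_option linter.unusedSectionVars false

namespace MG
namespace LR

/-! ### Casts -/

/-- cast of coordinates -/
def cst {a b : ℕ} (h : a = b) (t : Fin b → ℝ) : Fin a → ℝ := fun i => t (Fin.cast h i)

lemma continuous_cst {a b : ℕ} (h : a = b) : Continuous (cst h) :=
  continuous_pi fun i => continuous_apply _

lemma cst_mem_Cu {a b : ℕ} (h : a = b) {t : Fin b → ℝ} (ht : t ∈ Cu b) : cst h t ∈ Cu a := by
  subst h; exact ht

lemma cst_mem_dCu {a b : ℕ} (h : a = b) {t : Fin b → ℝ} (ht : t ∈ dCu b) : cst h t ∈ dCu a := by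
  subst h; exact ht

lemma cst_cst {a b : ℕ} (h : a = b) (t : Fin a → ℝ) : cst h (cst h.symm t) = t := by
  subst h; rfl

/-! ### Attaching cells with a map -/

theorem attach_s {R M ι : Type} [MetricSpace R] [CompactSpace R] [Nonempty R] [MetricSpace M]
    [Finite ι] {d : ℕ} {s : R → M} (hs : Continuous s) (ψ : ι → (Fin d → ℝ) → R)
    (hψ : ∀ i, ContinuousOn (ψ i) (dCu d)) (G : ι → (Fin d → ℝ) → M)
    (hG : ∀ i, ContinuousOn (G i) (Cu d)) (hGψ : ∀ i, ∀ z ∈ dCu d, G i z = s (ψ i z)) :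
    ∃ (R' : Type) (_ : MetricSpace R') (_ : CompactSpace R') (j0 : R → R')
      (χ : ι → (Fin d → ℝ) → R') (s' : R' → M), Isometry j0 ∧
      Fam (Cu d) (dCu d) (range j0) univ χ ∧ (∀ i, ∀ z ∈ dCu d, χ i z = j0 (ψ i z)) ∧
      Continuous s' ∧ (∀ x, s' (j0 x) = s x) ∧ ∀ i, ∀ z ∈ Cu d, s' (χ i z) = G i z := by
  obtain ⟨R', m', c', j0, χ, hj, hF, hχ⟩ := exists_attach (isCompact_Cu d) (Cu_nonempty d)
    (isClosed_dCu d) ψ hψ (dCu_subset d)
  have hinv : ∀ x, Function.invFun j0 (j0 x) = x := Function.leftInverse_invFun hj.injective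
  have h0 : ContinuousOn (fun y => s (Function.invFun j0 y)) (range j0) := by
    rw [← image_univ]
    refine continuousOn_image_of_compact isCompact_univ hj.continuous.continuousOn ?_
    refine hs.continuousOn.congr fun x _ => ?_
    show s (Function.invFun j0 (j0 x)) = s x
    rw [hinv]
  obtain ⟨s', h1, h2, h3⟩ := hF.glue (isCompact_Cu d) (isCompact_range hj.continuous).isClosed h0
    hG (fun i z hz => by
      show G i z = s (Function.invFun j0 (χ i z))
      rw [hχ i z hz, hinv, hGψ i z hz])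
  refine ⟨R', m', c', j0, χ, s', hj, hF, hχ, continuousOn_univ.1 h1, fun x => ?_, h3⟩
  rw [h2 (mem_range_self x)]
  show s (Function.invFun j0 (j0 x)) = s x
  rw [hinv]

variable {n j : ℕ}

/-! ### Extension of the map of the `j`-skeleton -/

theorem exists_ext {R R' M : Type} [MetricSpace R] [MetricSpace R'] [MetricSpace M]
    {X : Finset (Fin n) → Prop} (hX : Dn X) (hXc : ∀ A, X A → A.card ≤ j + 1)
    {E : (Fin (n + 1) → ℝ) → R} (hE : IsMap E (Qs j X) univ) {j0 : R → R'} (hj0 : Continuous j0)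
    {s' : R' → M} {y : M} {r : ℝ} (hEy : ∀ z ∈ Qs j X, dist (s' (j0 (E z))) y < r)
    (hχ : ∀ (w : Fin (n + 1) → ℤ) (h : dm w = j + 1), w ∈ car 1 '' QQ X →
      ∃ g : (Fin (j + 1) → ℝ) → R', IsMap g (Cu (j + 1)) univ ∧
        (∀ t ∈ dCu (j + 1), g t = j0 (E (emb 1 w (cst h t)))) ∧
        ∀ t ∈ Cu (j + 1), dist (s' (g t)) y < r) :
    ∃ E' : (Fin (n + 1) → ℝ) → R', IsMap E' (QQ X) univ ∧ (∀ z ∈ Qs j X, E' z = j0 (E z)) ∧
      ∀ z ∈ QQ X, dist (s' (E' z)) y < r := by
  obtain ⟨F, h1, h2, h3⟩ := cub_extend (k := j + 1) (m := 1) one_pos (isCub_QQ hX)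
    (isCub_Qs j hX) (fun z hz => hz.1) (fun x hx _ => dm_QQ hXc hx) (T := (univ : Set R'))
    (f₀ := fun z => j0 (E z)) ⟨hj0.comp_continuousOn hE.cont, fun _ _ => mem_univ _⟩
    (fun _ z x => (z ∈ Qs j X → x = j0 (E z)) ∧ dist (s' x) y < r)
    (fun z hz => ⟨fun _ => rfl, hEy z hz⟩) (fun _ _ _ _ _ h => h) (by
      rintro w hw hwP ⟨z₀, hz₀, hz₀', rfl⟩ φ hφ hφR
      have hd : dm (car 1 z₀) = j + 1 := by
        by_contra hc
        exact hz₀' ⟨hz₀, by omega⟩
      obtain ⟨g, hg1, hg2, hg3⟩ := hχ _ hd ⟨z₀, hz₀, rfl⟩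
      refine ⟨fun t => g (cst hd.symm t), ⟨hg1.cont.comp (continuous_cst _).continuousOn
        (fun t ht => cst_mem_Cu _ ht), fun _ _ => mem_univ _⟩, ?_, ?_⟩
      · intro t ht
        show g (cst hd.symm t) = φ t
        rw [hg2 _ (cst_mem_dCu _ ht), cst_cst]
        refine ((hφR t ht).1 ?_).symm
        have h4 := emb_mem_bdry (m := 1) one_pos ht
        have h5 := dm_car_lt h4
        exact ⟨hwP h4.1, by omega⟩
      · intro t ht
        refine ⟨fun hz => ?_, hg3 _ (cst_mem_Cu _ ht)⟩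
        show g (cst hd.symm t) = _
        have hbd : t ∈ dCu (dm (car 1 z₀)) := by
          by_contra hc
          -- `emb t` has dimension `≤ j`, so it is on the boundary
          have hne : car 1 (emb 1 (car 1 z₀) t) ≠ car 1 z₀ := by
            intro he
            have := hz.2
            rw [he] at this
            omega
          have h6 : emb 1 (car 1 z₀) t ∈ bdry 1 (car 1 z₀) :=
            ⟨emb_mem (m := 1) one_pos ht, hne⟩
          have h7 := prj_mem_Bd h6
          rw [prj_emb (m := 1) one_pos] at h7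
          exact hc h7
        rw [hg2 _ (cst_mem_dCu _ hbd), cst_cst])
  exact ⟨F, h1, h2, fun z hz => (h3 z hz).2⟩

/-! ### The cone -/

theorem cone_fill {R' : Type*} [TopologicalSpace R'] {X : Finset (Fin n) → Prop} (hX : Dn X)
    {E' : (Fin (n + 1) → ℝ) → R'} (hE : IsMap E' (QQ X) univ) {d : ℕ} (hd : (dCu d).Nonempty)
    {φ : (Fin d → ℝ) → (Fin (n + 1) → ℝ)} (hφ : IsMap φ (dCu d) (QQ X))
    (h0 : ∀ x ∈ dCu d, φ x 0 = 0) :
    ∃ Γ : (Fin d → ℝ) → R', IsMap Γ (Cu d) univ ∧ (∀ x ∈ dCu d, Γ x = E' (φ x)) ∧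
      ∀ x ∈ Cu d, ∃ z ∈ QQ X, Γ x = E' z := by
  let ζ : (Fin d → ℝ) × ℝ → (Fin (n + 1) → ℝ) := fun p i =>
    if i = 0 then min 1 (2 * p.2) else min 1 (2 - 2 * p.2) * φ p.1 i
  let st : Fin (n + 1) → ℝ := fun i => if i = 0 then 1 else 0
  have hζc : ContinuousOn ζ (dCu d ×ˢ Icc (0:ℝ) 1) := by
    refine continuousOn_pi.2 fun i => ?_
    by_cases hi : i = 0
    · simp only [ζ, hi, if_true]
      exact (continuous_const.min (continuous_const.mul continuous_snd)).continuousOn
    · simp only [ζ, hi, if_false]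
      refine ContinuousOn.mul ?_ ?_
      · exact (continuous_const.min (continuous_const.sub
          (continuous_const.mul continuous_snd))).continuousOn
      · exact (continuous_apply i).comp_continuousOn
          (hφ.cont.comp continuousOn_fst fun p hp => hp.1)
  have hζm : ∀ p ∈ dCu d ×ˢ Icc (0:ℝ) 1, ζ p ∈ QQ X := by
    rintro ⟨x, t⟩ ⟨hx, ht0, ht1⟩
    simp only at ht0 ht1
    obtain ⟨hC, ⟨i, hi⟩, hXs⟩ := hφ.maps hx
    have hC' := mem_Cu.1 hC
    have hm0 : (0:ℝ) ≤ min 1 (2 - 2 * t) := le_min zero_le_one (by linarith)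
    have hm1 : min 1 (2 - 2 * t) ≤ (1:ℝ) := min_le_left _ _
    refine ⟨?_, ?_, ?_⟩
    · rw [mem_Cu]
      intro l
      by_cases hl : l = 0
      · simp only [ζ, hl, if_true]
        exact ⟨le_min zero_le_one (by linarith), min_le_left _ _⟩
      · simp only [ζ, hl, if_false]
        exact ⟨mul_nonneg hm0 (hC' l).1, mul_le_one₀ hm1 (hC' l).1 (hC' l).2⟩
    · rcases le_total t (1 / 2) with h | h
      · have hi0 : i ≠ 0 := by
          rintro rfl
          rw [h0 x hx] at hi
          exact absurd hi (by norm_num)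
        refine ⟨i, ?_⟩
        simp only [ζ, hi0, if_false, hi, mul_one]
        exact min_eq_left (by linarith)
      · refine ⟨0, ?_⟩
        simp only [ζ, if_true]
        exact min_eq_left (by linarith)
    · refine hX _ _ ?_ hXs
      intro l hl
      rw [mem_sp] at hl ⊢
      simp only [ζ, Fin.succ_ne_zero, if_false] at hl
      by_contra hc
      have : φ x l.succ = 0 := le_antisymm (not_lt.1 hc) (hC' _).1
      rw [this, mul_zero] at hl
      exact lt_irrefl _ hl
  have hζ0 : ∀ x ∈ dCu d, ζ (x, 0) = φ x := by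
    intro x hx
    funext i
    by_cases hi : i = 0
    · simp only [ζ, hi, if_true, mul_zero]
      rw [h0 x hx]
      exact min_eq_right zero_le_one
    · simp only [ζ, hi, if_false, mul_zero, sub_zero]
      rw [min_eq_left (by norm_num), one_mul]
  have hζ1 : ∀ x ∈ dCu d, ζ (x, 1) = st := by
    intro x hx
    funext i
    by_cases hi : i = 0
    · simp only [ζ, st, hi, if_true, mul_one]
      exact min_eq_left (by norm_num)
    · simp only [ζ, st, hi, if_false, mul_one, sub_self]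
      rw [min_eq_right zero_le_one, zero_mul]
  obtain ⟨x₀, hx₀⟩ := hd
  have hst : st ∈ QQ X := by
    rw [← hζ1 x₀ hx₀]
    exact hζm _ ⟨hx₀, zero_le_one, le_rfl⟩
  obtain ⟨Γ, h1, h2, h3⟩ := collar (T := (univ : Set R')) (G := fun _ : Fin d → ℝ => E' st)
    (H := fun p => E' (ζ p)) (IsMap.const (mem_univ _))
    ⟨hE.cont.comp hζc hζm, fun _ _ => mem_univ _⟩
    (fun x hx => by rw [hζ1 x hx]) one_pos
  refine ⟨Γ, h1, fun x hx => by rw [h2 x hx, hζ0 x hx], fun x hx => ?_⟩
  rcases h3 x hx with ⟨x', hx', t, ht, he, -⟩ | ⟨x', -, he, -⟩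
  · exact ⟨_, hζm (x', t) ⟨hx', ht⟩, he⟩
  · exact ⟨st, hst, he⟩

/-! ### The map of the sphere into the complex -/

theorem exists_phi {R : Type*} [MetricSpace R] {v : Fin n → R} {η : ℝ} (hη : 0 < η)
    (hv : ∀ x, ∃ i, dist (v i) x < η) {γ : (Fin (j + 1) → ℝ) → R}
    (hγ : ContinuousOn γ (dCu (j + 1))) :
    ∃ φ : (Fin (j + 1) → ℝ) → (Fin (n + 1) → ℝ), ContinuousOn φ (dCu (j + 1)) ∧
      ∀ x ∈ dCu (j + 1), φ x ∈ Cu (n + 1) ∧ (∃ i, φ x i = 1) ∧ φ x 0 = 0 ∧
        (sp (φ x)).card ≤ j + 1 ∧ ∀ i ∈ sp (φ x), dist (v i) (γ x) < 2 * η := by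
  have huc : UniformContinuousOn γ (dCu (j + 1)) :=
    (isCompact_dCu (j + 1)).uniformContinuousOn_of_continuous hγ
  obtain ⟨r, hr, hr'⟩ := Metric.uniformContinuousOn_iff.1 huc η hη
  obtain ⟨m, hm, hmr⟩ := exists_mesh_mul (m := 1) one_pos hr
  rw [one_mul] at hmr
  choose l hl using hv
  let vl : (Fin (j + 1) → ℤ) → Fin n := fun p => l (γ fun i => (p i : ℝ) / m)
  have hsp : ∀ x, ∀ i, i ∈ sp (Fin.cons 0 (pou m vl x) : Fin (n + 1) → ℝ) ↔ 0 < pou m vl x i := by
    intro x i
    rw [mem_sp, Fin.cons_succ]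
  refine ⟨fun x => (Fin.cons 0 (pou m vl x) : Fin (n + 1) → ℝ), ?_, ?_⟩
  · refine continuousOn_pi.2 fun i => ?_
    refine Fin.cases ?_ (fun i => ?_) i
    · simp only [Fin.cons_zero]
      exact continuousOn_const
    · simp only [Fin.cons_succ]
      exact (continuous_apply i).comp_continuousOn
        ((continuousOn_pou m vl).mono (dCu_subset _))
  · intro x hx
    have hxC := dCu_subset _ hx
    refine ⟨?_, ?_, rfl, ?_, ?_⟩
    · rw [mem_Cu]
      intro i
      refine Fin.cases ?_ (fun i => ?_) i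
      · simp
      · simp only [Fin.cons_succ]
        exact ⟨pou_nonneg _ _ _ _, pou_le_one _ hxC _⟩
    · obtain ⟨w, hw⟩ := exists_pou_eq_one (m := m) vl hxC
      exact ⟨w.succ, by simpa using hw⟩
    · refine le_trans (Finset.card_le_card ?_) (card_pou_dCu (m := m) (v := vl) hx)
      intro i hi
      rw [hsp] at hi
      simpa using hi
    · intro i hi
      rw [hsp] at hi
      obtain ⟨p, hp, hpi, hpos⟩ := pou_pos hi
      have h1 := hat_pos_mem_dCu hm hp hx hpos
      have h2 := (hat_pos_near hm hpos).trans_lt hmr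
      have h3 := hr' _ h1 _ hx h2
      have h4 := hl (γ fun i => (p i : ℝ) / m)
      have h5 : v i = v (l (γ fun i => (p i : ℝ) / m)) := by rw [← hpi]
      rw [h5]
      have h6 := dist_triangle (v (l (γ fun i => (p i : ℝ) / m))) (γ fun i => (p i : ℝ) / m) (γ x)
      linarith

end LR
end MG
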