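import Pool.Agent.Work.MP_017613_gt.LemRC

/-!
# Lemma R, part D: the space with the `(j+1)`-cells
-/

open Set Metric Topology
open scoped Classical

set_option linter.unusedSectionVars false

namespace MG
namespace LR

lemma exists_net {X : Type*} [MetricSpace X] [CompactSpace X] {c : ℝ} (hc : 0 < c) :
    ∃ (n : ℕ) (v : Fin n → X), ∀ x, ∃ i, dist (v i) x < c := by
  obtain ⟨t, -, htf, ht⟩ := (isCompact_univ (X := X)).finite_cover_balls hc
  have := htf.to_subtype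
  obtain ⟨n, ⟨e⟩⟩ := Finite.exists_equiv_fin t
  refine ⟨n, fun i => (e.symm i : X), fun x => ?_⟩
  have h1 := ht (mem_univ x)
  simp only [mem_iUnion, mem_ball, exists_prop] at h1
  obtain ⟨p, hp, h1⟩ := h1
  refine ⟨e ⟨p, hp⟩, ?_⟩
  show dist ((e.symm (e ⟨p, hp⟩) : t) : X) x < c
  rw [Equiv.symm_apply_apply, dist_comm]
  exact h1

lemma mono_trunc {f : ℕ → ℝ} {n : ℕ} (h : ∀ d < n, f d ≤ f (d + 1)) :
    Monotone fun d => f (min d n) := by
  refine monotone_nat_of_le_succ fun d => ?_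
  rcases Nat.lt_or_ge d n with h1 | h1
  · rw [min_eq_left h1.le, min_eq_left (show d + 1 ≤ n from h1)]
    exact h d h1
  · rw [min_eq_right h1, min_eq_right (show n ≤ d + 1 by omega)]

lemma zero_mem_dCu (j : ℕ) : (0 : Fin (j + 1) → ℝ) ∈ dCu (j + 1) :=
  ⟨by rw [mem_Cu]; intro i; simp, 0, Or.inl rfl⟩

variable {n j : ℕ}

lemma emb_mem_Qs {X : Finset (Fin n) → Prop} (hX : Dn X) {w : Fin (n + 1) → ℤ}
    (hw : w ∈ car 1 '' QQ X) (hd : dm w = j + 1) {t : Fin (j + 1) → ℝ} (ht : t ∈ dCu (j + 1)) :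
    emb 1 w (cst hd t) ∈ Qs j X := by
  obtain ⟨z, hz, rfl⟩ := hw
  have h1 := emb_mem_bdry (m := 1) one_pos (cst_mem_dCu hd ht)
  have h2 := dm_car_lt h1
  exact ⟨(isCub_QQ hX).sat z hz h1.1, by omega⟩

theorem attach_cells {k j : ℕ} (hjk : j + 1 ≤ k) {M : Type} [MetricSpace M] [CompactSpace M]
    (hM : ULC k (univ : Set M)) {r : ℝ} (hr : 0 < r) :
    ∃ τ > 0, τ ≤ r ∧ ∃ τ' > 0, ∀ (R : Type) [MetricSpace R] [CompactSpace R] [Nonempty R],
      ULC k (univ : Set R) → ∀ s : R → M, Continuous s → L j s univ univ τ' →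
      ∃ (R' : Type) (_ : MetricSpace R') (_ : CompactSpace R') (j0 : R → R') (ι : Type)
        (_ : Finite ι) (χ : ι → (Fin (j + 1) → ℝ) → R') (s' : R' → M), Isometry j0 ∧
        Fam (Cu (j + 1)) (dCu (j + 1)) (range j0) univ χ ∧ Continuous s' ∧
        (∀ x, s' (j0 x) = s x) ∧
        (∀ i, ∀ z ∈ Cu (j + 1), ∀ z' ∈ Cu (j + 1), dist (s' (χ i z)) (s' (χ i z')) < 2 * r) ∧
        ∀ (y : M) (γ : (Fin (j + 1) → ℝ) → R), IsMap γ (dCu (j + 1)) univ →
          (∀ x ∈ dCu (j + 1), dist (s (γ x)) y < τ) →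
          ∃ Γ : (Fin (j + 1) → ℝ) → R', IsMap Γ (Cu (j + 1)) univ ∧
            (∀ x ∈ dCu (j + 1), Γ x = j0 (γ x)) ∧ ∀ x ∈ Cu (j + 1), dist (s' (Γ x)) y < 2 * r := by
  -- constants of `M`
  obtain ⟨ρ₀, hρ₀, hUM₀⟩ := hM.mono_k hjk r hr
  set ρ : ℝ := min ρ₀ r with hρdef
  have hρ : 0 < ρ := lt_min hρ₀ hr
  have hUM : UV (j + 1) (fun x : M => x) univ univ ρ r := hUM₀.weaken (min_le_left _ _) le_rfl
  obtain ⟨t, ht1, ht2, ht3, ht4, ht5⟩ := iterate_mod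
    (Q := fun a b => ∀ {α : Type} [MetricSpace α] {g : α → M} {A : Set α},
      IsMap g A univ → L j g A univ a → LP j g A univ a b)
    (fun b hb => (hM.mono_k (show j ≤ k by omega)).lp_unif.{0} hb) (j + 1) ρ hρ
  have htm : Monotone fun d => t (min d (j + 1)) := mono_trunc fun d hd => (ht5 d hd).1
  have hc0 : 0 < t 0 / 8 := by have := ht2 0; linarith
  have htr : t 0 ≤ r := (ht3 0).trans (min_le_right _ _)
  obtain ⟨nb, yb, hyb⟩ := exists_net (X := M) hc0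
  refine ⟨t 0 / 8, hc0, by linarith [ht2 0], t 0, ht2 0, ?_⟩
  intro R _ _ _ hR s hs hL
  have hS : ∀ d ≤ j, UV d s univ univ (t (min d (j + 1))) (t (min (d + 1) (j + 1))) := by
    intro d hd
    rw [min_eq_left (show d ≤ j + 1 by omega), min_eq_left (show d + 1 ≤ j + 1 by omega)]
    have h1 := (ht5 d (by omega)).2 (g := s) (A := univ) ⟨hs.continuousOn, fun _ _ => mem_univ _⟩
      (hL.mono (ht4 d))
    exact h1.toUV.mono_k hd
  -- constants of `R`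
  obtain ⟨ω, hω, hω'⟩ := Metric.uniformContinuous_iff.1
    (CompactSpace.uniformContinuous_of_continuous hs) (t 0 / 8) hc0
  obtain ⟨δh, hδh, hhty⟩ := htpy_cub (hR.mono_k hjk) hω
  have hδ1 : 0 < min δh ω := lt_min hδh hω
  obtain ⟨κ, hκ1, hκ2, hκ3, hκ4, hκ5⟩ := iterate_mod
    (Q := fun a b => UV j (fun x : R => x) univ univ a (b / 2))
    (fun b hb => by
      obtain ⟨a, ha, h⟩ := hR.mono_k (show j ≤ k by omega) (b / 2) (half_pos hb)
      exact ⟨min a b, lt_min ha hb, min_le_right _ _, h.weaken (min_le_left _ _) le_rfl⟩)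
    (j + 1) (min δh ω / 2) (half_pos hδ1)
  have hκm : Monotone fun d => κ (min d (j + 1)) := mono_trunc fun d hd => (hκ5 d hd).1
  have hd' : 0 < κ 0 / 2 := half_pos (hκ2 0)
  have hU : ∀ d ≤ j, UV d (fun x : R => x) univ univ (κ (min d (j + 1)))
      (κ (min (d + 1) (j + 1)) - κ 0 / 2) := by
    intro d hd
    rw [min_eq_left (show d ≤ j + 1 by omega), min_eq_left (show d + 1 ≤ j + 1 by omega)]
    refine ((hκ5 d (by omega)).2.weaken le_rfl ?_).mono_k hd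
    have := hκ4 (d + 1)
    linarith
  set η : ℝ := min (min δh ω / 4) (κ 0 / 8) with hηdef
  have hη : 0 < η := lt_min (by linarith) (by have := hκ2 0; linarith)
  have hη1 : η ≤ min δh ω / 4 := min_le_left _ _
  have hη2 : η ≤ κ 0 / 8 := min_le_right _ _
  have hω1 : min δh ω ≤ ω := min_le_right _ _
  have hω2 : min δh ω ≤ δh := min_le_left _ _
  obtain ⟨n, v, hv⟩ := exists_net (X := R) hη
  let X : Fin nb → Finset (Fin n) → Prop := fun b A => A.card ≤ j + 1 ∧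
    (∀ a ∈ A, ∀ c ∈ A, dist (v a) (v c) ≤ κ 0 / 2) ∧ ∀ a ∈ A, dist (s (v a)) (yb b) < t 0 / 2
  have hX : ∀ b, Dn (X b) := fun b A B hBA hA =>
    ⟨(Finset.card_le_card hBA).trans hA.1, fun a ha c hc => hA.2.1 a (hBA ha) c (hBA hc),
      fun a ha => hA.2.2 a (hBA ha)⟩
  have hXc : ∀ b, ∀ A, X b A → A.card ≤ j + 1 := fun b A hA => hA.1
  -- the maps of the skeleta
  have hEx : ∀ b, ∃ E : (Fin (n + 1) → ℝ) → R, IsMap E (Qs j (X b)) univ ∧ ∀ z ∈ Qs j (X b),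
      (z 0 = 0 → ∀ i ∈ sp z, dist (E z) (v i) < κ (min (j + 1) (j + 1))) ∧
        dist (s (E z)) (yb b) < t (min (j + 1) (j + 1)) := by
    intro b
    refine exists_E (hX b) hκm htm (fun A hA => hA.2.1) hU hS ?_
    intro A hA a ha x hx
    rw [min_self, hκ1] at hx
    rw [Nat.zero_min]
    have h1 := hω' (show dist x (v a) < ω by linarith)
    have h2 := hA.2.2 a ha
    have h3 := dist_triangle (s x) (s (v a)) (yb b)
    have h4 := ht2 0
    linarith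
  simp only [min_self, hκ1, ht1] at hEx
  choose E hEm hE using hEx
  -- the cells
  have hfin : ∀ b, Finite {w : Fin (n + 1) → ℤ // w ∈ car 1 '' QQ (X b) ∧ dm w = j + 1} :=
    fun b => ((isCub_QQ (hX b)).finite_car.subset (fun w hw => hw.1)).to_subtype
  let ι : Type := Σ b : Fin nb, {w : Fin (n + 1) → ℤ // w ∈ car 1 '' QQ (X b) ∧ dm w = j + 1}
  have hι : Finite ι := inferInstance
  let ψ : ι → (Fin (j + 1) → ℝ) → R := fun i x => E i.1 (emb 1 i.2.1 (cst i.2.2.2 x))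
  have hψm : ∀ i : ι, ∀ x ∈ dCu (j + 1), emb 1 i.2.1 (cst i.2.2.2 x) ∈ Qs j (X i.1) :=
    fun i x hx => emb_mem_Qs (hX i.1) i.2.2.1 i.2.2.2 hx
  have hψ : ∀ i, ContinuousOn (ψ i) (dCu (j + 1)) := fun i =>
    (hEm i.1).cont.comp ((continuous_emb 1 _).comp (continuous_cst _)).continuousOn (hψm i)
  have hG : ∀ i : ι, ∃ G : (Fin (j + 1) → ℝ) → M, IsMap G (Cu (j + 1)) univ ∧
      EqOn G (fun x => s (ψ i x)) (dCu (j + 1)) ∧ ∀ x ∈ Cu (j + 1), dist (G x) (yb i.1) < r :=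
    fun i => hUM (j + 1) le_rfl (yb i.1) (mem_univ _) (fun x => s (ψ i x))
      ⟨hs.comp_continuousOn (hψ i), fun _ _ => mem_univ _⟩
      fun x hx => ((hE i.1 _ (hψm i x hx)).2)
  choose G hGm hGe hGd using hG
  obtain ⟨R', mR', cR', j0, χ, s', hj0, hFam, hχψ, hs', hs'j, hs'χ⟩ := attach_s hs ψ hψ G
    (fun i => (hGm i).cont) (fun i z hz => hGe i hz)
  refine ⟨R', mR', cR', j0, ι, hι, χ, s', hj0, hFam, hs', hs'j, ?_, ?_⟩
  · intro i z hz z' hz'
    rw [hs'χ i z hz, hs'χ i z' hz']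
    have h1 := hGd i z hz
    have h2 := hGd i z' hz'
    have h3 := dist_triangle_right (G i z) (G i z') (yb i.1)
    linarith
  -- filling
  intro y γ hγ hγy
  obtain ⟨b, hb⟩ := hyb y
  obtain ⟨φ, hφc, hφ⟩ := exists_phi hη hv hγ.cont
  have hφX : ∀ x ∈ dCu (j + 1), X b (sp (φ x)) := by
    intro x hx
    obtain ⟨-, -, -, h1, h2⟩ := hφ x hx
    refine ⟨h1, fun a ha c hc => ?_, fun a ha => ?_⟩
    · have h3 := h2 a ha
      have h4 := h2 c hc
      have h5 := dist_triangle_right (v a) (v c) (γ x)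
      linarith
    · have h3 := h2 a ha
      have h4 := hω' (show dist (v a) (γ x) < ω by linarith)
      have h5 := hγy x hx
      have h6 := dist_triangle4 (s (v a)) (s (γ x)) y (yb b)
      rw [dist_comm y] at h6
      linarith [ht2 0]
  have hφQ : ∀ x ∈ dCu (j + 1), φ x ∈ QQ (X b) := fun x hx =>
    ⟨(hφ x hx).1, (hφ x hx).2.1, hφX x hx⟩
  have hφs : ∀ x ∈ dCu (j + 1), φ x ∈ Qs j (X b) := fun x hx =>
    ⟨hφQ x hx, dm_QQ' (hXc b) (hφQ x hx) (hφ x hx).2.2.1⟩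
  -- extension of `E b`
  obtain ⟨E', hE'm, hE'e, hE'd⟩ := exists_ext (hX b) (hXc b) (hEm b) hj0.continuous
    (s' := s') (y := yb b) (r := r)
    (fun z hz => by
      rw [hs'j]
      exact (hE b z hz).2.trans_le (min_le_right _ _))
    (fun w hw hwX => ⟨χ ⟨b, w, hwX, hw⟩,
      ⟨hFam.cont _, fun _ _ => mem_univ _⟩, fun x hx => hχψ ⟨b, w, hwX, hw⟩ x hx,
      fun x hx => by rw [hs'χ _ x hx]; exact hGd ⟨b, w, hwX, hw⟩ x hx⟩)
  obtain ⟨Γ₁, hΓ₁m, hΓ₁e, hΓ₁d⟩ := cone_fill (hX b) hE'm ⟨_, zero_mem_dCu j⟩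
    ⟨hφc, hφQ⟩ (fun x hx => (hφ x hx).2.2.1)
  -- homotopy in `R`
  obtain ⟨H, hHm, hH0, hH1, -, hHd⟩ := hhty (m := 1) one_pos (isCub_dCu one_pos (j + 1))
    (IsCub.empty 1) (empty_subset _)
    (fun x hx _ => Nat.succ_le_succ (Nat.lt_succ_iff.1 (dm_car_Bd hx)))
    γ (fun x => E b (φ x)) hγ ⟨(hEm b).cont.comp hφc hφs, fun _ _ => mem_univ _⟩
    (by
      intro x hx
      obtain ⟨i, hi, -⟩ := exists_sp_of_zero (hφQ x hx) (hφ x hx).2.2.1
      have h1 := (hE b _ (hφs x hx)).1 (hφ x hx).2.2.1 i hi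
      have h2 := (hφ x hx).2.2.2.2 i hi
      have h3 := dist_triangle (E b (φ x)) (v i) (γ x)
      rw [dist_comm (γ x)]
      linarith)
    (fun x hx => hx.elim)
  obtain ⟨Γ, hΓm, hΓ0, hΓc⟩ := collar (T := (univ : Set R')) (G := Γ₁)
    (H := fun p => j0 (H p)) hΓ₁m
    ⟨hj0.continuous.comp_continuousOn hHm.cont, fun _ _ => mem_univ _⟩
    (fun x hx => by rw [hH1 x hx, hΓ₁e x hx, hE'e _ (hφs x hx)]) one_pos
  refine ⟨Γ, hΓm, fun x hx => by rw [hΓ0 x hx, hH0 x hx], fun x hx => ?_⟩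
  rcases hΓc x hx with ⟨x', hx', u, hu, he, -⟩ | ⟨x', hx', he, -⟩
  · rw [he, hs'j]
    have h1 := hω' (hHd x' hx' u hu)
    have h2 := hγy x' hx'
    have h3 := dist_triangle (s (H (x', u))) (s (γ x')) y
    linarith [ht2 0]
  · obtain ⟨z, hz, he'⟩ := hΓ₁d x' hx'
    rw [he, he']
    have h1 := hE'd z hz
    have h2 := dist_triangle (s' (E' z)) (yb b) y
    linarith [ht2 0]

end LR
end MG
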