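import Pool.Agent.Work.MP_017613_gt.LemRD
import Pool.Agent.Work.MP_017613_gt.Kit.PushCells
import Pool.Agent.Work.MP_017613_gt.Kit.UlcLayer

/-!
# Lemma R, part E: the lifting property of the new map
-/

open Set Metric Topology
open scoped Classical

set_option linter.unusedSectionVars false

namespace MG
namespace LR

/-- lifting of a map of the cube `I^(j+1)` once small `j`-spheres are filled -/
theorem lift_top {j : ℕ} {M R R' : Type} [MetricSpace M] [MetricSpace R] [MetricSpace R']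
    {s : R → M} {s' : R' → M} {j0 : R → R'} (hj0 : Continuous j0) (hs'j : ∀ x, s' (j0 x) = s x)
    {τ r : ℝ} (hτ : 0 < τ) (hτr : τ ≤ r)
    (hfill : ∀ (y : M) (γ : (Fin (j + 1) → ℝ) → R), IsMap γ (dCu (j + 1)) univ →
      (∀ x ∈ dCu (j + 1), dist (s (γ x)) y < τ) →
      ∃ Γ : (Fin (j + 1) → ℝ) → R', IsMap Γ (Cu (j + 1)) univ ∧
        (∀ x ∈ dCu (j + 1), Γ x = j0 (γ x)) ∧ ∀ x ∈ Cu (j + 1), dist (s' (Γ x)) y < 2 * r)
    {f' : (Fin (j + 1) → ℝ) → M} (hf' : IsMap f' (Cu (j + 1)) univ)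
    {g : (Fin (j + 1) → ℝ) → R} (hg : IsMap g (dCu (j + 1)) univ)
    (hskel : ∀ {N m : ℕ} (_ : 0 < m) {P P₀ : Set (Fin N → ℝ)} (_ : IsCub m P) (_ : IsCub m P₀)
      (_ : P₀ ⊆ P) (_ : ∀ x ∈ P, x ∉ P₀ → dm (car m x) ≤ j) {f : (Fin N → ℝ) → M}
      (_ : IsMap f P univ) {f₀ : (Fin N → ℝ) → R} (_ : IsMap f₀ P₀ univ)
      (_ : ∀ x ∈ P₀, s (f₀ x) = f x),
      ∃ F : (Fin N → ℝ) → R, IsMap F P univ ∧ EqOn F f₀ P₀ ∧ ∀ x ∈ P, dist (s (F x)) (f x) < τ / 4)
    (hgf : ∀ x ∈ dCu (j + 1), s (g x) = f' x) :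
    ∃ F : (Fin (j + 1) → ℝ) → R', IsMap F (Cu (j + 1)) univ ∧
      (∀ x ∈ dCu (j + 1), F x = j0 (g x)) ∧ ∀ x ∈ Cu (j + 1), dist (s' (F x)) (f' x) < 3 * r := by
  obtain ⟨m, hm, hosc⟩ := (jump_of_continuousOn (isCompact_Cu (j + 1)) hf'.cont
    (show (0:ℝ) < τ / 4 by linarith)).osc one_pos (isCub_Cu one_pos (j + 1))
  rw [one_mul] at hosc
  have hC : IsCub m (Cu (j + 1)) := isCub_Cu hm (j + 1)
  have hD : IsCub m (dCu (j + 1)) := isCub_dCu hm (j + 1)
  set P' : Set (Fin (j + 1) → ℝ) := dCu (j + 1) ∪ {x | x ∈ Cu (j + 1) ∧ dm (car m x) ≤ j}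
    with hP'
  have hP'c : IsCub m P' := hD.union (hC.skel j)
  have hP'C : P' ⊆ Cu (j + 1) := union_subset (dCu_subset _) fun x hx => hx.1
  obtain ⟨F, hFm, hFe, hFd⟩ := hskel hm hP'c hD subset_union_left
    (fun x hx hx' => (hx.resolve_left hx').2) (hf'.left hP'C) hg hgf
  obtain ⟨F₁, h1, h2, h3⟩ := cub_extend (k := j + 1) hm hC hP'c hP'C
    (fun x _ _ => dm_le _) (T := (univ : Set R')) (f₀ := fun x => j0 (F x))
    ⟨hj0.comp_continuousOn hFm.cont, fun _ _ => mem_univ _⟩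
    (fun _ x y => (x ∈ P' → y = j0 (F x)) ∧ dist (s' y) (f' x) < 3 * r)
    (fun x hx => ⟨fun _ => rfl, by
      rw [hs'j]
      have := hFd x hx
      linarith⟩) (fun _ _ _ _ _ h => h) (by
      rintro w hw hwC ⟨x₀, hx₀, hx₀', rfl⟩ φ hφ hφR
      have hd : dm (car m x₀) = j + 1 := by
        by_contra hc
        exact hx₀' (Or.inr ⟨hx₀, by omega⟩)
      have hbP : ∀ t ∈ dCu (dm (car m x₀)), emb m (car m x₀) t ∈ P' := by
        intro t ht
        have h4 := emb_mem_bdry hm ht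
        have h5 := dm_car_lt h4
        exact Or.inr ⟨hwC h4.1, by omega⟩
      have hosc' : ∀ x ∈ cube m (car m x₀), dist (f' x) (f' x₀) < τ / 4 := by
        intro x hx
        rw [dist_comm]
        exact hosc x₀ hx₀ x hx
      have hb' : ∀ t ∈ dCu (j + 1), emb m (car m x₀) (cst hd t) ∈ P' :=
        fun t ht => hbP _ (cst_mem_dCu hd ht)
      obtain ⟨Γ, g1, g2, g3⟩ := hfill (f' x₀) (fun t => F (emb m (car m x₀) (cst hd t)))
        ⟨hFm.cont.comp ((continuous_emb m _).comp (continuous_cst _)).continuousOn hb',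
          fun _ _ => mem_univ _⟩ (by
          intro t ht
          have h4 := hFd _ (hb' t ht)
          have h5 := hosc' _ (emb_mem hm (cst_mem_Cu hd (dCu_subset _ ht)))
          have h6 := dist_triangle (s (F (emb m (car m x₀) (cst hd t))))
            (f' (emb m (car m x₀) (cst hd t))) (f' x₀)
          linarith)
      refine ⟨fun t => Γ (cst hd.symm t), ⟨g1.cont.comp (continuous_cst _).continuousOn
        (fun t ht => cst_mem_Cu _ ht), fun _ _ => mem_univ _⟩, ?_, ?_⟩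
      · intro t ht
        show Γ (cst hd.symm t) = φ t
        rw [g2 _ (cst_mem_dCu _ ht), cst_cst]
        exact ((hφR t ht).1 (hbP t ht)).symm
      · intro t ht
        refine ⟨fun hz => ?_, ?_⟩
        · show Γ (cst hd.symm t) = _
          have hbd : t ∈ dCu (dm (car m x₀)) := by
            by_contra hc
            have hne : car m (emb m (car m x₀) t) = car m x₀ := by
              by_contra he
              have h7 := prj_mem_Bd (m := m) (w := car m x₀) ⟨emb_mem hm ht, he⟩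
              rw [prj_emb hm] at h7
              exact hc h7
            rcases hz with hz | hz
            · have h8 := dm_car_Bd (m := m) hz
              rw [hne] at h8
              omega
            · have h8 := hz.2
              rw [hne] at h8
              omega
          rw [g2 _ (cst_mem_dCu _ hbd), cst_cst]
        · have h4 := g3 _ (cst_mem_Cu hd.symm ht)
          have h5 := hosc' _ (emb_mem hm ht)
          rw [dist_comm] at h5
          have h6 := dist_triangle (s' (Γ (cst hd.symm t))) (f' x₀) (f' (emb m (car m x₀) t))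
          linarith)
  refine ⟨F₁, h1, fun x hx => ?_, fun x hx => (h3 x hx).2⟩
  have hxP : x ∈ P' := Or.inl hx
  rw [h2 hxP]
  show j0 (F x) = j0 (g x)
  rw [hFe hx]

/-- **The induction step of Lemma R.** -/
theorem lift_step {k j : ℕ} (hjk : j + 1 ≤ k) {M : Type} [MetricSpace M] [CompactSpace M]
    (hM : ULC k (univ : Set M)) {e : ℝ} (he : 0 < e) :
    ∃ δ > 0, ∀ (R : Type) [MetricSpace R] [CompactSpace R] [Nonempty R],
      ULC k (univ : Set R) → ∀ s : R → M, Continuous s → L j s univ univ δ →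
      ∃ (R' : Type) (_ : MetricSpace R') (_ : CompactSpace R') (j0 : R → R') (s' : R' → M),
        Isometry j0 ∧ Layer (j + 1) (range j0) univ ∧ Continuous s' ∧ (∀ x, s' (j0 x) = s x) ∧
        L (j + 1) s' univ univ e := by
  have hr : 0 < e / 8 := by linarith
  obtain ⟨τ, hτ, hτr, τ', hτ', hA⟩ := attach_cells hjk hM hr
  obtain ⟨d, hd, hsk⟩ := lift_cub_pair.{0, 0} (hM.mono_k (show j ≤ k by omega))
    (show (0:ℝ) < τ / 4 by linarith)
  refine ⟨min (min τ τ') d, lt_min (lt_min hτ hτ') hd, ?_⟩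
  intro R _ _ _ hR s hs hL
  obtain ⟨R', mR', cR', j0, ι, hι, χ, s', hj0, hFam, hs', hs'j, hsize, hfill⟩ := hA R hR s hs
    (hL.mono ((min_le_left _ _).trans (min_le_right _ _)))
  have hsmap : IsMap s univ univ := ⟨hs.continuousOn, fun _ _ => mem_univ _⟩
  refine ⟨R', mR', cR', j0, s', hj0, Layer.of_fam hFam, hs', hs'j, ?_⟩
  intro i hi f f0 hf hf0 hff0
  have hKc : IsCompact (range j0) := isCompact_range hj0.continuous
  -- push off the cells
  obtain ⟨H, hHm, hH0, hH1, -, hHd⟩ := hFam.push_ctrl hKc (isCompact_dCu i)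
    (dimLT_dCu hi) hf0 (c := s') (e := 2 * (e / 8)) (by linarith) hsize
  have h1I : (1 : ℝ) ∈ Icc (0 : ℝ) 1 := ⟨zero_le_one, le_rfl⟩
  have h0I : (0 : ℝ) ∈ Icc (0 : ℝ) 1 := ⟨le_rfl, zero_le_one⟩
  have huc : UniformContinuousOn f (Cu i) :=
    (isCompact_Cu i).uniformContinuousOn_of_continuous hf.cont
  obtain ⟨ω, hω, hω'⟩ := Metric.uniformContinuousOn_iff.1 huc (e / 8) hr
  -- the map `f'`
  have hrev : ∀ p ∈ dCu i ×ˢ Icc (0:ℝ) 1, (p.1, 1 - p.2) ∈ dCu i ×ˢ Icc (0:ℝ) 1 := by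
    rintro ⟨x, t⟩ ⟨hx, ht0, ht1⟩
    simp only at ht0 ht1
    exact ⟨hx, by simp only; linarith, by simp only; linarith⟩
  obtain ⟨f', hf'm, hf'b, hf'c⟩ := collar (T := (univ : Set M)) (G := f)
    (H := fun p => s' (H (p.1, 1 - p.2))) hf
    ⟨hs'.comp_continuousOn (hHm.cont.comp (by fun_prop) hrev), fun _ _ => mem_univ _⟩
    (fun x hx => by
      show s' (H (x, 1 - 1)) = f x
      rw [sub_self, hH0 x hx, hff0 x hx]) hω
  have hf'd : ∀ x ∈ Cu i, dist (f' x) (f x) < 3 * (e / 8) := by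
    intro x hx
    rcases hf'c x hx with ⟨x', hx', t, ht, hee, hxx⟩ | ⟨x', hx', hee, hxx⟩
    · rw [hee]
      have h1 := hHd x' hx' (1 - t) (hrev (x', t) ⟨hx', ht⟩).2
      rw [hff0 x' hx'] at h1
      have h2 := hω' _ (dCu_subset i hx') _ hx (by rwa [dist_comm])
      have h3 := dist_triangle (s' (H (x', 1 - t))) (f x') (f x)
      show dist (s' (H (x', 1 - t))) (f x) < 3 * (e / 8)
      linarith
    · rw [hee]
      have h2 := hω' _ hx' _ hx (by rwa [dist_comm])
      linarith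
  -- the map `g`
  have hinv : ∀ x, Function.invFun j0 (j0 x) = x := Function.leftInverse_invFun hj0.injective
  have hinvc : ContinuousOn (Function.invFun j0) (range j0) := by
    rw [← image_univ]
    refine continuousOn_image_of_compact isCompact_univ hj0.continuous.continuousOn ?_
    exact continuousOn_id.congr fun x _ => hinv x
  have hgm : IsMap (fun x => Function.invFun j0 (H (x, 1))) (dCu i) univ :=
    ⟨hinvc.comp (hHm.cont.comp (by fun_prop) fun x hx => ⟨hx, h1I⟩) fun x hx => hH1 x hx,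
      fun _ _ => mem_univ _⟩
  have hjg : ∀ x ∈ dCu i, j0 (Function.invFun j0 (H (x, 1))) = H (x, 1) := by
    intro x hx
    obtain ⟨z, hz⟩ := hH1 x hx
    rw [← hz, hinv]
  have hsg : ∀ x ∈ dCu i, s (Function.invFun j0 (H (x, 1))) = f' x := by
    intro x hx
    rw [← hs'j, hjg x hx, hf'b x hx]
    show s' (H (x, 1)) = s' (H (x, 1 - 0))
    rw [sub_zero]
  -- the lift of `f'`
  have hlift : ∃ F : (Fin i → ℝ) → R', IsMap F (Cu i) univ ∧ (∀ x ∈ dCu i, F x = H (x, 1)) ∧
      ∀ x ∈ Cu i, dist (s' (F x)) (f' x) < 3 * (e / 8) := by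
    rcases Nat.lt_or_ge i (j + 1) with hij | hij
    · obtain ⟨F, h1, h2, h3⟩ := hL.mono ((min_le_left _ _).trans (min_le_left _ _)) i
        (Nat.lt_succ_iff.1 hij) f' _ hf'm hgm hsg
      refine ⟨fun x => j0 (F x), ⟨hj0.continuous.comp_continuousOn h1.cont,
        fun _ _ => mem_univ _⟩, fun x hx => ?_, fun x hx => ?_⟩
      · show j0 (F x) = H (x, 1)
        rw [h2 hx]
        exact hjg x hx
      · show dist (s' (j0 (F x))) (f' x) < 3 * (e / 8)
        rw [hs'j]
        have := h3 x hx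
        linarith
    · have hij' : i = j + 1 := le_antisymm hi hij
      subst hij'
      obtain ⟨F, h1, h2, h3⟩ := lift_top hj0.continuous hs'j hτ hτr hfill hf'm hgm
        (fun {N m} hm {P P₀} hP hP₀ hsub hdim {f} hf {f₀} hf₀ hff => hsk hsmap
          (hL.mono (min_le_right _ _)) hm hP hP₀ hsub hdim hf hf₀ fun x hx => by
            rw [hff x hx, dist_self]; exact hd) hsg
      exact ⟨F, h1, fun x hx => by rw [h2 x hx, hjg x hx], h3⟩
  obtain ⟨F₁, hF₁m, hF₁b, hF₁d⟩ := hlift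
  obtain ⟨F₂, hF₂m, hF₂b, hF₂c⟩ := collar (T := (univ : Set R')) (G := F₁) (H := H) hF₁m hHm
    (fun x hx => (hF₁b x hx).symm) hω
  refine ⟨F₂, hF₂m, fun x hx => by rw [hF₂b x hx, hH0 x hx], fun x hx => ?_⟩
  rcases hF₂c x hx with ⟨x', hx', t, ht, hee, hxx⟩ | ⟨x', hx', hee, hxx⟩
  · rw [hee]
    have h1 := hHd x' hx' t ht
    rw [hff0 x' hx'] at h1
    have h2 := hω' _ (dCu_subset i hx') _ hx (by rwa [dist_comm])
    have h3 := dist_triangle (s' (H (x', t))) (f x') (f x)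
    linarith
  · rw [hee]
    have h1 := hF₁d x' hx'
    have h2 := hf'd x' hx'
    have h3 := hω' _ hx' _ hx (by rwa [dist_comm])
    have h4 := dist_triangle4 (s' (F₁ x')) (f' x') (f x') (f x)
    linarith

end LR
end MG
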