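import Pool.Agent.Work.MP_017613_gt.LemRE
import Pool.Agent.Work.MP_017613_gt.Kit.Slide

/-!
# Lemma R

`lemR`: a map `σ : L0 → M` of compact `ULC k` spaces extends to `s : R → M` with the lifting
property `L k s univ univ e`, where `R` is obtained from `L0` by attaching a layer of `d`-cells for
every `d ≤ k`.
-/

open Set Metric Topology
open scoped Classical

namespace MG
namespace LR

theorem fam_image {ε α β ι : Type*} [TopologicalSpace ε] [TopologicalSpace α] [TopologicalSpace β]
    {B A : Set ε} {K V : Set α} {χ : ι → ε → α} (h : Fam B A K V χ) {j0 : α → β}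
    (hj : Continuous j0) (hinj : Function.Injective j0) :
    Fam B A (j0 '' K) (j0 '' V) (fun i x => j0 (χ i x)) where
  cont i := hj.comp_continuousOn (h.cont i)
  bdry i x hx := ⟨χ i x, h.bdry i hx, rfl⟩
  off i x hx hxA := by
    rintro ⟨y, hy, he⟩
    rw [hinj he] at hy
    exact h.off i x hx hxA hy
  inj i i' x x' hx hxA hx' hx'A he := h.inj i i' x x' hx hxA hx' hx'A (hinj he)
  union := by
    rw [h.union, image_union, image_iUnion]
    congr 1
    refine iUnion_congr fun i => ?_
    rw [image_image]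

theorem layer_image {α β : Type*} [TopologicalSpace α] [TopologicalSpace β] {d : ℕ}
    {K V : Set α} (h : Layer d K V) {j0 : α → β} (hj : Continuous j0)
    (hinj : Function.Injective j0) : Layer d (j0 '' K) (j0 '' V) := by
  obtain ⟨m, χ, h⟩ := h
  exact ⟨m, _, fam_image h hj hinj⟩

/-- a test pair and one more layer, after an embedding -/
theorem tp_succ {α β : Type*} [TopologicalSpace α] [TopologicalSpace β] {j : ℕ} {P0 : Set α}
    (h : TP j P0 univ) {j0 : α → β} (hj : Continuous j0) (hinj : Function.Injective j0)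
    (hl : Layer (j + 1) (range j0) (univ : Set β)) : TP (j + 1) (j0 '' P0) univ := by
  obtain ⟨hc, S, hS0, hS1, hS⟩ := h
  refine ⟨hc.image hj, fun d => if d ≤ j + 1 then j0 '' S d else univ, ?_, ?_, ?_⟩
  · simp [hS0]
  · simp
  · intro d hd
    rcases Nat.lt_or_ge d (j + 1) with h1 | h1
    · simp only [show d ≤ j + 1 by omega, show d + 1 ≤ j + 1 by omega, if_true]
      exact layer_image (hS d (by omega)) hj hinj
    · have hdj : d = j + 1 := by omega
      subst hdj
      simp only [le_refl, if_true, show ¬ (j + 1 + 1 ≤ j + 1) by omega, if_false]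
      rw [hS1, image_univ]
      exact hl

theorem ulc_range {α β : Type*} [MetricSpace α] [MetricSpace β] [Nonempty α] {k : ℕ}
    (h : ULC k (univ : Set α)) {j0 : α → β} (hj : Isometry j0) : ULC k (range j0) := by
  have hinv : ∀ x, Function.invFun j0 (j0 x) = x := Function.leftInverse_invFun hj.injective
  refine h.of_retract (p := j0) (s := Function.invFun j0)
    ⟨hj.continuous.continuousOn, fun x _ => mem_range_self x⟩ ⟨?_, fun _ _ => mem_univ _⟩ ?_ ?_ ?_
  · have : UniformContinuousOn (Function.invFun j0) (range j0) := by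
      rw [Metric.uniformContinuousOn_iff]
      rintro ε hε
      refine ⟨ε, hε, ?_⟩
      rintro _ ⟨x, rfl⟩ _ ⟨y, rfl⟩ hxy
      rwa [hinv, hinv, ← hj.dist_eq]
    exact this.continuousOn
  · rintro _ ⟨x, rfl⟩
    rw [hinv]
  · exact hj.uniformContinuous.uniformContinuousOn
  · rw [Metric.uniformContinuousOn_iff]
    rintro ε hε
    refine ⟨ε, hε, ?_⟩
    rintro _ ⟨x, rfl⟩ _ ⟨y, rfl⟩ hxy
    rwa [hinv, hinv, ← hj.dist_eq]

theorem ulc_empty {α : Type*} [MetricSpace α] {k : ℕ} : ULC k (∅ : Set α) := fun _ _ =>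
  ⟨1, one_pos, fun _ _ _ hy => hy.elim⟩

theorem ulc_range' {α β : Type*} [MetricSpace α] [MetricSpace β] {k : ℕ}
    (h : ULC k (univ : Set α)) {j0 : α → β} (hj : Isometry j0) : ULC k (range j0) := by
  rcases isEmpty_or_nonempty α with hα | hα
  · rw [range_eq_empty]
    exact ulc_empty
  · exact ulc_range h hj

/-- start of the induction -/
theorem lemR_zero {k : ℕ} {M L0 : Type} [MetricSpace M] [CompactSpace M] [MetricSpace L0]
    [CompactSpace L0] {σ : L0 → M} (hL0 : ULC k (univ : Set L0)) (hσ : Continuous σ)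
    {e : ℝ} (he : 0 < e) :
    ∃ (R : Type) (_ : MetricSpace R) (_ : CompactSpace R) (i : L0 → R) (s : R → M),
      Isometry i ∧ Continuous s ∧ (∀ y, s (i y) = σ y) ∧ TP 0 (range i) univ ∧
      ULC k (univ : Set R) ∧ L 0 s univ univ e ∧ (Nonempty M → Nonempty R) := by
  obtain ⟨n, v, hv⟩ := exists_net (X := M) he
  let _ : MetricSpace (L0 ⊕ range v) := Metric.metricSpaceSum
  have hi : Isometry (Sum.inl : L0 → L0 ⊕ range v) := Metric.isometry_inl
  have hfin : Finite (range v) := (finite_range v).to_subtype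
  have hcomp : CompactSpace (L0 ⊕ range v) := inferInstance
  have hF : Fam (Cu 0) (dCu 0) (range (Sum.inl : L0 → L0 ⊕ range v)) univ
      (fun (x : range v) (_ : Fin 0 → ℝ) => (Sum.inr x : L0 ⊕ range v)) := by
    refine ⟨fun i => continuousOn_const, ?_, ?_, ?_, ?_⟩
    · intro i x hx
      rw [dCu_zero] at hx
      exact hx.elim
    · rintro i x - - ⟨y, hy⟩
      cases hy
    · intro i i' x x' _ _ _ _ h
      exact ⟨Sum.inr_injective h, Subsingleton.elim _ _⟩
    · refine (eq_univ_of_forall fun z => ?_).symm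
      rcases z with y | x
      · exact Or.inl ⟨y, rfl⟩
      · exact Or.inr (mem_iUnion.2 ⟨x, 0, by rw [mem_Cu]; intro i; exact i.elim0, rfl⟩)
  have hlay : Layer 0 (range (Sum.inl : L0 → L0 ⊕ range v)) univ := Layer.of_fam hF
  have hKc : IsCompact (range (Sum.inl : L0 → L0 ⊕ range v)) := isCompact_range hi.continuous
  refine ⟨L0 ⊕ range v, inferInstance, hcomp, Sum.inl, Sum.elim σ Subtype.val, hi,
    hσ.sumElim continuous_subtype_val, fun y => rfl, ?_, hlay.ulc hKc (ulc_range' hL0 hi), ?_,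
    ?_⟩
  · exact ⟨hKc, fun d => if d = 0 then range Sum.inl else univ, by simp, by simp, by
      intro d hd
      have : d = 0 := by omega
      subst this
      simpa using hlay⟩
  · intro j hj f f0 _ _ _
    have : j = 0 := by omega
    subst this
    obtain ⟨i, hi⟩ := hv (f 0)
    refine ⟨fun _ => Sum.inr ⟨v i, mem_range_self i⟩, IsMap.const (mem_univ _), ?_, ?_⟩
    · rw [dCu_zero]; exact fun x hx => hx.elim
    · intro x _
      rw [Subsingleton.elim x 0]
      exact hi
  · rintro ⟨y⟩
    obtain ⟨i, -⟩ := hv y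
    exact ⟨Sum.inr ⟨v i, mem_range_self i⟩⟩

/-- **Lemma R**, with non-emptiness. -/
theorem lemR' {k : ℕ} {M L0 : Type} [MetricSpace M] [CompactSpace M] [MetricSpace L0]
    [CompactSpace L0] {σ : L0 → M} (hM : ULC k (univ : Set M)) (hL0 : ULC k (univ : Set L0))
    (hσ : Continuous σ) {e : ℝ} (he : 0 < e) :
    ∃ (R : Type) (_ : MetricSpace R) (_ : CompactSpace R) (i : L0 → R) (s : R → M),
      Isometry i ∧ Continuous s ∧ (∀ y, s (i y) = σ y) ∧ TP k (range i) univ ∧
      ULC k (univ : Set R) ∧ L k s univ univ e ∧ (Nonempty M → Nonempty R) := by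
  rcases isEmpty_or_nonempty M with hE | ⟨⟨y₀⟩⟩
  · refine ⟨L0, inferInstance, inferInstance, fun y => y, σ, isometry_id, hσ, fun _ => rfl, ?_,
      hL0, fun j _ f => (hE.false (f 0)).elim, fun ⟨x⟩ => (hE.false x).elim⟩
    have : range (fun y : L0 => y) = univ := range_id
    rw [this]
    exact TP.refl k isCompact_univ
  · have main : ∀ j ≤ k, ∀ e > 0,
        ∃ (R : Type) (_ : MetricSpace R) (_ : CompactSpace R) (i : L0 → R) (s : R → M),
          Isometry i ∧ Continuous s ∧ (∀ y, s (i y) = σ y) ∧ TP j (range i) univ ∧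
          ULC k (univ : Set R) ∧ L j s univ univ e ∧ Nonempty R := by
      intro j
      induction j with
      | zero =>
        intro _ e he
        obtain ⟨R, mR, cR, i, s, h1, h2, h3, h4, h5, h6, h7⟩ := lemR_zero hL0 hσ he
        exact ⟨R, mR, cR, i, s, h1, h2, h3, h4, h5, h6, h7 ⟨y₀⟩⟩
      | succ j ih =>
        intro hj e he
        obtain ⟨δ, hδ, hstep⟩ := lift_step hj hM he
        obtain ⟨R, mR, cR, i, s, hi, hs, hsi, hTP, hU, hL, hne⟩ := ih (by omega) δ hδ
        obtain ⟨R', mR', cR', j0, s', hj0, hlay, hs', hs'j, hL'⟩ := hstep R hU s hs hL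
        refine ⟨R', mR', cR', fun y => j0 (i y), s', hj0.comp hi, hs', fun y => ?_, ?_,
          hlay.ulc (isCompact_range hj0.continuous) (ulc_range' hU hj0), hL', hne.map j0⟩
        · rw [hs'j, hsi]
        · have h1 := tp_succ hTP hj0.continuous hj0.injective hlay
          rwa [← range_comp] at h1
    obtain ⟨R, mR, cR, i, s, h1, h2, h3, h4, h5, h6, h7⟩ := main k le_rfl e he
    exact ⟨R, mR, cR, i, s, h1, h2, h3, h4, h5, h6, fun _ => h7⟩

/-- **Lemma R.** -/
theorem lemR {k : ℕ} {M L0 : Type} [MetricSpace M] [CompactSpace M] [MetricSpace L0]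
    [CompactSpace L0] {σ : L0 → M} (hM : ULC k (univ : Set M)) (hL0 : ULC k (univ : Set L0))
    (hσ : Continuous σ) {e : ℝ} (he : 0 < e) :
    ∃ (R : Type) (_ : MetricSpace R) (_ : CompactSpace R) (i : L0 → R) (s : R → M),
      Isometry i ∧ Continuous s ∧ (∀ y, s (i y) = σ y) ∧ TP k (range i) univ ∧
      ULC k (univ : Set R) ∧ L k s univ univ e := by
  obtain ⟨R, mR, cR, i, s, h1, h2, h3, h4, h5, h6, -⟩ := lemR' hM hL0 hσ he
  exact ⟨R, mR, cR, i, s, h1, h2, h3, h4, h5, h6⟩

end LR
end MG
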