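import Pool.Agent.Work.MP_017613_gt.MenDef
import Pool.Agent.Work.MP_017613_gt.DiscC

/-!
# Menger manifolds are local, part A

* `Chart U e e'`: `e` maps the open set `U` homeomorphically onto an open set, inverse `e'`.
* `Chart.mod`: a map close to the identity on a closed set in the range of the chart is
  transported and extended by the identity outside `U`.
* `Chart.zs`: a closed set in `U` whose image is a Z-set is a Z-set.
* `men_loc`: a compact space which is locally homeomorphic to Menger manifolds is a Menger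
  manifold; `zs_loc`: Z-sets are local.
-/

set_option linter.unusedSectionVars false

open Set Topology Metric

namespace Pool.Agent.Work.MP_017613_gt

namespace Loc

variable {D N : Type} [MetricSpace D] [MetricSpace N]

/-- `e` maps the open set `U` homeomorphically onto an open set, and `e'` is the inverse -/
structure Chart (U : Set D) (e : D → N) (e' : N → D) : Prop where
  opU : IsOpen U
  opV : IsOpen (e '' U)
  cont : ContinuousOn e U
  cont' : ContinuousOn e' (e '' U)
  left : ∀ x ∈ U, e' (e x) = x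

variable {U : Set D} {e : D → N} {e' : N → D}

theorem Chart.right (h : Chart U e e') : ∀ y ∈ e '' U, e (e' y) = y := by
  rintro _ ⟨x, hx, rfl⟩
  rw [h.left x hx]

theorem Chart.maps' (h : Chart U e e') : MapsTo e' (e '' U) U := by
  rintro _ ⟨x, hx, rfl⟩
  rw [h.left x hx]
  exact hx

theorem Chart.inj (h : Chart U e e') : InjOn e U := fun x hx y hy hxy => by
  rw [← h.left x hx, ← h.left y hy, hxy]

theorem Chart.image_image (h : Chart U e e') : e' '' (e '' U) = U := by
  ext x
  constructor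
  · rintro ⟨_, ⟨y, hy, rfl⟩, rfl⟩
    rw [h.left y hy]
    exact hy
  · intro hx
    exact ⟨e x, mem_image_of_mem e hx, h.left x hx⟩

theorem Chart.symm (h : Chart U e e') : Chart (e '' U) e' e :=
  ⟨h.opV, by rw [h.image_image]; exact h.opU, h.cont', by rw [h.image_image]; exact h.cont,
    h.right⟩

theorem Chart.isOpen_image (h : Chart U e e') {W : Set D} (hW : IsOpen W) (hWU : W ⊆ U) :
    IsOpen (e '' W) := by
  have h1 : e '' W = e '' U ∩ e' ⁻¹' W := by
    ext y
    constructor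
    · rintro ⟨x, hx, rfl⟩
      exact ⟨mem_image_of_mem e (hWU hx), by
        show e' (e x) ∈ W
        rw [h.left x (hWU hx)]
        exact hx⟩
    · rintro ⟨⟨x, hx, rfl⟩, hy⟩
      refine ⟨x, ?_, rfl⟩
      have : e' (e x) ∈ W := hy
      rwa [h.left x hx] at this
  rw [h1]
  exact h.cont'.isOpen_inter_preimage h.opV hW

theorem Chart.mono (h : Chart U e e') {W : Set D} (hW : IsOpen W) (hWU : W ⊆ U) :
    Chart W e e' :=
  ⟨hW, h.isOpen_image hW hWU, h.cont.mono hWU, h.cont'.mono (image_mono hWU),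
    fun x hx => h.left x (hWU hx)⟩

/-- charts from homeomorphisms of open subsets -/
theorem exists_chart {U : Set D} (hU : IsOpen U) {V : Set N} (hV : IsOpen V) (θ : U ≃ₜ V)
    (hne : U.Nonempty) : ∃ (e : D → N) (e' : N → D), Chart U e e' ∧ e '' U = V ∧
      ∀ x : U, e x = θ x := by
  classical
  obtain ⟨x₀, hx₀⟩ := hne
  let e : D → N := fun x => if h : x ∈ U then (θ ⟨x, h⟩ : N) else (θ ⟨x₀, hx₀⟩ : N)
  let e' : N → D := fun y => if h : y ∈ V then (θ.symm ⟨y, h⟩ : D) else x₀
  have he : ∀ x : U, e x = θ x := fun x => by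
    simp only [e]
    rw [dif_pos x.2]
  have he' : ∀ y : V, e' y = θ.symm y := fun y => by
    simp only [e']
    rw [dif_pos y.2]
  have hV' : e '' U = V := by
    ext y
    constructor
    · rintro ⟨x, hx, rfl⟩
      rw [he ⟨x, hx⟩]
      exact (θ ⟨x, hx⟩).2
    · intro hy
      refine ⟨θ.symm ⟨y, hy⟩, (θ.symm ⟨y, hy⟩).2, ?_⟩
      rw [he (θ.symm ⟨y, hy⟩), Homeomorph.apply_symm_apply]
  refine ⟨e, e', ⟨hU, by rw [hV']; exact hV, ?_, ?_, ?_⟩, hV', he⟩
  · rw [continuousOn_iff_continuous_domRestrict]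
    have : U.domRestrict e = fun x : U => (θ x : N) := by
      funext x
      exact he x
    rw [this]
    exact continuous_subtype_val.comp θ.continuous
  · rw [hV', continuousOn_iff_continuous_domRestrict]
    have : V.domRestrict e' = fun y : V => (θ.symm y : D) := by
      funext y
      exact he' y
    rw [this]
    exact continuous_subtype_val.comp θ.symm.continuous
  · intro x hx
    rw [he ⟨x, hx⟩, he' (θ ⟨x, hx⟩), Homeomorph.symm_apply_apply]

variable [CompactSpace D] [CompactSpace N]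

/-- **Transport of small modifications.** -/
theorem Chart.mod {k : ℕ} (hD : PushOff k (univ : Set D)) (hN : MG.ULC k (univ : Set N))
    (h : Chart U e e') {C : Set D} (hC : IsClosed C) (hCU : C ⊆ U) {ε : ℝ} (hε : 0 < ε) :
    ∃ δ > 0, ∀ θ : N → N, ContinuousOn θ (e '' C) → (∀ z ∈ e '' C, dist (θ z) z < δ) →
      ∃ φ : C(D, D), (∀ x ∈ C, θ (e x) ∈ e '' U ∧ φ x = e' (θ (e x))) ∧ (∀ x ∉ U, φ x = x) ∧
        ∀ x, dist (φ x) x < ε := by
  classical
  obtain ⟨W, hWo, hCW, hWU⟩ := normal_exists_closure_subset hC h.opU hCU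
  obtain ⟨W₀, hW₀o, hCW₀, hW₀W⟩ := normal_exists_closure_subset hC hWo hCW
  have hK : IsCompact (closure W) := isClosed_closure.isCompact
  have heK : IsCompact (e '' closure W) := hK.image_of_continuousOn (h.cont.mono hWU)
  obtain ⟨η, hη, hηU⟩ := heK.exists_cthickening_subset_open h.opV (image_mono hWU)
  have hK₂ : IsCompact (cthickening η (e '' closure W)) := isClosed_cthickening.isCompact
  obtain ⟨ε', hε', huc⟩ := Metric.uniformContinuousOn_iff.1
    (hK₂.uniformContinuousOn_of_continuous (h.cont'.mono hηU)) ε hε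
  obtain ⟨δ, hδ, H⟩ := MG.close_ext_set.{0} isCompact_univ hN (ε := min ε' η) (by positivity)
  refine ⟨δ, hδ, fun θ cθ hθ => ?_⟩
  have hsub : C ⊆ closure W := hCW.trans subset_closure
  have hdis : ∀ x ∈ closure W \ W₀, x ∉ C := fun x hx hxC => hx.2 (hCW₀ hxC)
  set b : D → N := fun x => if x ∈ C then θ (e x) else e x with hb
  have hcl : IsClosed (closure W \ W₀) := isClosed_closure.sdiff hW₀o
  obtain ⟨a, ha, hab, had⟩ := H D (closure W) (C ∪ closure W \ W₀) hK
    (hD.mono hK (subset_univ _)) (hC.union hcl) (union_subset hsub sdiff_subset) e b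
    ⟨h.cont.mono hWU, fun _ _ => trivial⟩ ⟨by
      refine ContinuousOn.union_of_isClosed ?_ ?_ hC hcl
      · refine ContinuousOn.congr (f := fun x => θ (e x)) ?_ fun x hx => ?_
        · exact cθ.comp (h.cont.mono hCU) (mapsTo_image _ _)
        · simp only [hb, hx, if_true]
      · refine ContinuousOn.congr (f := e) ((h.cont.mono hWU).mono sdiff_subset) fun x hx => ?_
        simp only [hb, hdis x hx, if_false], fun _ _ => trivial⟩ (by
      rintro x (hx | hx)
      · simp only [hb, hx, if_true]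
        exact hθ _ (mem_image_of_mem e hx)
      · simp only [hb, hdis x hx, if_false, dist_self]
        exact hδ)
  have haK : ∀ x ∈ closure W, a x ∈ cthickening η (e '' closure W) := fun x hx =>
    mem_cthickening_of_dist_le _ _ _ _ (mem_image_of_mem e hx)
      ((had x hx).le.trans (min_le_right _ _))
  have heK' : ∀ x ∈ closure W, e x ∈ cthickening η (e '' closure W) := fun x hx =>
    self_subset_cthickening _ (mem_image_of_mem e hx)
  have haO : ∀ x ∈ closure W, x ∉ W₀ → e' (a x) = x := fun x hx hx0 => by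
    have hx1 : x ∈ closure W \ W₀ := ⟨hx, hx0⟩
    rw [hab (Or.inr hx1)]
    simp only [hb, hdis x hx1, if_false]
    exact h.left x (hWU hx)
  let φ : D → D := fun x => if x ∈ closure W then e' (a x) else x
  have hφ1 : ∀ x ∈ closure W, φ x = e' (a x) := fun x hx => by simp only [φ, hx, if_true]
  have hφ2 : ∀ x ∉ W₀, φ x = x := fun x hx => by
    by_cases hxW : x ∈ closure W
    · rw [hφ1 x hxW]
      exact haO x hxW hx
    · simp only [φ, hxW, if_false]
  have hcov : closure W ∪ W₀ᶜ = univ := by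
    ext x
    simp only [mem_union, mem_compl_iff, mem_univ, iff_true]
    by_cases hx : x ∈ W₀
    · exact Or.inl (subset_closure (hW₀W (subset_closure hx)))
    · exact Or.inr hx
  have hφc : Continuous φ := by
    rw [← continuousOn_univ, ← hcov]
    refine ContinuousOn.union_of_isClosed ?_ ?_ isClosed_closure hW₀o.isClosed_compl
    · refine ContinuousOn.congr (f := fun x => e' (a x)) ?_ hφ1
      exact (h.cont'.mono hηU).comp ha.cont haK
    · exact continuousOn_id.congr hφ2
  refine ⟨⟨φ, hφc⟩, fun x hx => ?_, fun x hx => ?_, fun x => ?_⟩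
  · have h1 : a x = θ (e x) := by
      rw [hab (Or.inl hx)]
      simp only [hb, hx, if_true]
    refine ⟨?_, ?_⟩
    · rw [← h1]
      exact hηU (haK x (hsub hx))
    · show φ x = _
      rw [hφ1 x (hsub hx), h1]
  · exact hφ2 x fun hx0 => hx (hWU (subset_closure (hW₀W (subset_closure hx0))))
  · show dist (φ x) x < ε
    by_cases hx : x ∈ closure W
    · rw [hφ1 x hx]
      have h2 := huc (a x) (haK x hx) (e x) (heK' x hx) ((had x hx).trans_le (min_le_left _ _))
      rwa [h.left x (hWU hx)] at h2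
    · have : φ x = x := by simp only [φ, hx, if_false]
      rw [this, dist_self]
      exact hε

/-- a closed set in the domain of a chart whose image is a Z-set is a Z-set -/
theorem Chart.zs {k : ℕ} (hD : PushOff k (univ : Set D)) (hN : MG.ULC k (univ : Set N))
    (h : Chart U e e') {C : Set D} (hC : IsClosed C) (hCU : C ⊆ U) (hz : ZS (e '' C)) : ZS C := by
  refine ⟨hC, fun ε hε => ?_⟩
  obtain ⟨W, hWo, hCW, hWU⟩ := normal_exists_closure_subset hC h.opU hCU
  obtain ⟨ρ, hρ, hρW⟩ := hC.isCompact.exists_thickening_subset_open hWo hCW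
  obtain ⟨δ, hδ, H⟩ := h.mod hD hN isClosed_closure hWU (ε := min ε ρ) (by positivity)
  obtain ⟨θ, hθ1, hθ2⟩ := hz.2 δ hδ
  obtain ⟨φ, h1, -, h3⟩ := H θ θ.continuous.continuousOn fun z _ => hθ1 z
  refine ⟨φ, fun x => (h3 x).trans_le (min_le_left _ _), fun x hx => ?_⟩
  have hxW : x ∈ W := hρW (mem_thickening_iff.2 ⟨φ x, hx, by
    rw [dist_comm]
    exact (h3 x).trans_le (min_le_right _ _)⟩)
  obtain ⟨h4, h5⟩ := h1 x (subset_closure hxW)
  refine hθ2 (e x) ?_
  rw [← h.right _ h4, ← h5]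
  exact mem_image_of_mem e hx

/-- images of Z-sets of the domain -/
theorem Chart.zs_image {k : ℕ} (hN : PushOff k (univ : Set N)) (hD : MG.ULC k (univ : Set D))
    (h : Chart U e e') {C : Set D} (hC : IsClosed C) (hCU : C ⊆ U) (hz : ZS C) :
    ZS (e '' C) := by
  have hc : IsClosed (e '' C) :=
    (hC.isCompact.image_of_continuousOn (h.cont.mono hCU)).isClosed
  refine h.symm.zs hN hD hc (image_mono hCU) ?_
  have : e' '' (e '' C) = C := by
    ext x
    constructor
    · rintro ⟨_, ⟨y, hy, rfl⟩, rfl⟩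
      rw [h.left y (hCU hy)]
      exact hy
    · intro hx
      exact ⟨e x, mem_image_of_mem e hx, h.left x (hCU hx)⟩
  rw [this]
  exact hz

/-- finite covers by small closed sets -/
theorem exists_cover {S : Set D} (hS : IsClosed S) {P : Set D → Prop}
    (h : ∀ x ∈ S, ∃ V, IsOpen V ∧ x ∈ V ∧ ∀ C, IsClosed C → C ⊆ V → P C) :
    ∃ (t : Finset D) (C : D → Set D), (∀ x ∈ t, IsClosed (C x) ∧ P (C x)) ∧
      S ⊆ ⋃ x ∈ t, C x := by
  classical
  choose! V hV hxV hP using h
  have h1 : ∀ x ∈ S, ∃ r > 0, closedBall x r ⊆ V x := fun x hx =>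
    nhds_basis_closedBall.mem_iff.1 ((hV x hx).mem_nhds (hxV x hx))
  choose! r hr hrV using h1
  obtain ⟨t, ht, htc⟩ := hS.isCompact.elim_nhds_subcover (fun x => ball x (r x))
    fun x hx => ball_mem_nhds x (hr x hx)
  refine ⟨t, fun x => closedBall x (r x), fun x hx =>
    ⟨isClosed_closedBall, hP x (ht x hx) _ isClosed_closedBall (hrV x (ht x hx))⟩, fun x hx => ?_⟩
  obtain ⟨y, hy, hxy⟩ := mem_iUnion₂.1 (htc hx)
  exact mem_iUnion₂.2 ⟨y, hy, ball_subset_closedBall hxy⟩

/-- Z-sets are local -/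
theorem zs_of_local {S : Set D} (hS : IsClosed S)
    (h : ∀ x ∈ S, ∃ V, IsOpen V ∧ x ∈ V ∧ ∀ C, IsClosed C → C ⊆ S ∩ V → ZS C) : ZS S := by
  obtain ⟨t, C, h1, h2⟩ := exists_cover hS (P := fun C => ZS (S ∩ C)) fun x hx => by
    obtain ⟨V, hV, hxV, hP⟩ := h x hx
    exact ⟨V, hV, hxV, fun C hC hCV => hP _ (hS.inter hC) (inter_subset_inter_right _ hCV)⟩
  refine (ZS.biUnion t (A := fun x => S ∩ C x) fun x hx => (h1 x hx).2).mono hS fun x hx => ?_
  obtain ⟨y, hy, hxy⟩ := mem_iUnion₂.1 (h2 hx)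
  exact mem_iUnion₂.2 ⟨y, hy, hx, hxy⟩

/-- the space `D` is a Menger manifold near the point `x` -/
def At (k : ℕ) (D : Type) [MetricSpace D] (x : D) : Prop :=
  ∃ (N : Type) (_ : MetricSpace N) (_ : CompactSpace N) (U : Set D) (e : D → N) (e' : N → D),
    Men k N ∧ Chart U e e' ∧ x ∈ U

/-- the closed set `S` is a Z-set near the point `x` -/
def AtZ (k : ℕ) {D : Type} [MetricSpace D] (S : Set D) (x : D) : Prop :=
  ∃ (N : Type) (_ : MetricSpace N) (_ : CompactSpace N) (U : Set D) (e : D → N) (e' : N → D),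
    Men k N ∧ Chart U e e' ∧ x ∈ U ∧ ∃ T : Set N, ZS T ∧ MapsTo e (S ∩ U) T

theorem pushOff_loc {k : ℕ} (h : ∀ x : D, At k D x) : PushOff k (univ : Set D) := by
  obtain ⟨t, C, h1, h2⟩ := exists_cover (D := D) isClosed_univ
    (P := fun C => PushOff k C) fun x _ => by
      obtain ⟨N, _, _, U, e, e', hN, hc, hx⟩ := h x
      refine ⟨U, hc.opU, hx, fun C hC hCU => ?_⟩
      have hK : IsCompact (e '' C) := hC.isCompact.image_of_continuousOn (hc.cont.mono hCU)
      have h3 := (hN.1.mono hK (subset_univ _)).image hK (φ := e')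
        (hc.cont'.mono (image_mono hCU)) (hc.symm.inj.mono (image_mono hCU))
      have : e' '' (e '' C) = C := by
        ext x
        constructor
        · rintro ⟨_, ⟨y, hy, rfl⟩, rfl⟩
          rw [hc.left y (hCU hy)]
          exact hy
        · intro hx
          exact ⟨e x, mem_image_of_mem e hx, hc.left x (hCU hx)⟩
      rwa [this] at h3
  have h3 := PushOff.biUnion t (fun x hx => (h1 x hx).2) fun x hx => (h1 x hx).1.isCompact
  exact h3.mono isCompact_univ h2

theorem ulc_loc {k : ℕ} (h : ∀ x : D, At k D x) : MG.ULC k (univ : Set D) := by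
  intro ε hε
  have h1 : ∀ x : D, ∃ δ > 0, δ ≤ ε / 2 ∧ ∀ j ≤ k, ∀ a : (Fin j → ℝ) → D,
      ContinuousOn a (MG.dCu j) → (∀ z ∈ MG.dCu j, dist (a z) x < 2 * δ) →
      ∃ F : (Fin j → ℝ) → D, ContinuousOn F (MG.Cu j) ∧
        EqOn F a (MG.dCu j) ∧ ∀ z ∈ MG.Cu j, dist (F z) x < ε / 2 := by
    intro x
    obtain ⟨N, _, _, U, e, e', hN, hc, hx⟩ := h x
    have hW : IsOpen (U ∩ ball x (ε / 2)) := hc.opU.inter isOpen_ball
    have hxW : x ∈ U ∩ ball x (ε / 2) := ⟨hx, mem_ball_self (by positivity)⟩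
    obtain ⟨s, hs, hsW⟩ := Metric.isOpen_iff.1 (hc.isOpen_image hW inter_subset_left) (e x)
      (mem_image_of_mem e hxW)
    obtain ⟨t, ht, hUV⟩ := hN.2.1 s hs
    obtain ⟨δ, hδ, hδU⟩ := Metric.isOpen_iff.1 (hc.cont.isOpen_inter_preimage hc.opU
      (isOpen_ball (x := e x) (ε := t))) x ⟨hx, mem_ball_self ht⟩
    refine ⟨min (δ / 2) (ε / 2), by positivity, min_le_right _ _, fun j hj a ca ha => ?_⟩
    have ha' : ∀ z ∈ MG.dCu j, a z ∈ U ∩ e ⁻¹' ball (e x) t := fun z hz => hδU (by
      have := ha z hz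
      have := min_le_left (δ / 2) (ε / 2)
      rw [mem_ball]
      linarith)
    obtain ⟨F, hF1, hF2, hF3⟩ := hUV j hj (e x) trivial (fun z => e (a z))
      ⟨hc.cont.comp ca fun z hz => (ha' z hz).1, fun _ _ => trivial⟩ fun z hz => (ha' z hz).2
    have hF4 : ∀ z ∈ MG.Cu j, F z ∈ e '' (U ∩ ball x (ε / 2)) := fun z hz => hsW (hF3 z hz)
    refine ⟨fun z => e' (F z), ?_, fun z hz => ?_, fun z hz => ?_⟩
    · exact hc.cont'.comp hF1.cont fun z hz => image_mono inter_subset_left (hF4 z hz)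
    · show e' (F z) = a z
      rw [hF2 hz]
      exact hc.left _ (ha' z hz).1
    · obtain ⟨w, hw, hwz⟩ := hF4 z hz
      show dist (e' (F z)) x < ε / 2
      rw [← hwz, hc.left w hw.1]
      exact hw.2
  choose δ hδ hδε H using h1
  obtain ⟨t, -, ht⟩ := (isCompact_univ (X := D)).elim_nhds_subcover (fun x => ball x (δ x))
    fun x _ => ball_mem_nhds x (hδ x)
  by_cases hne : t.Nonempty
  swap
  · rw [Finset.not_nonempty_iff_eq_empty] at hne
    subst hne
    refine ⟨1, one_pos, fun j _ y _ => ?_⟩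
    have := ht (mem_univ y)
    simp at this
  obtain ⟨x₁, hx₁, hmin⟩ := t.exists_min_image δ hne
  refine ⟨δ x₁, hδ x₁, fun j hj y _ a ha had => ?_⟩
  obtain ⟨x, hx, hyx⟩ := mem_iUnion₂.1 (ht (mem_univ y))
  have h2 : dist y x < δ x := hyx
  have h3 := hmin x hx
  obtain ⟨F, hF1, hF2, hF3⟩ := H x j hj a ha.cont fun z hz => by
    have h5 := had z hz
    have := dist_triangle (a z) y x
    linarith
  refine ⟨F, ⟨hF1, fun _ _ => trivial⟩, hF2, fun z hz => ?_⟩
  have h6 := hF3 z hz
  have h7 := dist_triangle (F z) x y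
  have h8 := hδε x
  rw [dist_comm x y] at h7
  linarith

/-- two maps close to the identity whose images are disjoint over a closed set in a chart -/
theorem Chart.dd {k : ℕ} (hD : PushOff k (univ : Set D)) (hN : Men k N)
    (h : Chart U e e') {C : Set D} (hC : IsClosed C) (hCU : C ⊆ U) {ε : ℝ} (hε : 0 < ε) :
    ∃ φ ψ : C(D, D), (∀ x, dist (φ x) x < ε) ∧ (∀ x, dist (ψ x) x < ε) ∧
      ∀ x y, φ x ∈ C → φ x ≠ ψ y := by
  obtain ⟨W, hWo, hCW, hWU⟩ := normal_exists_closure_subset hC h.opU hCU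
  obtain ⟨ρ, hρ, hρW⟩ := hC.isCompact.exists_thickening_subset_open hWo hCW
  obtain ⟨δ, hδ, H⟩ := h.mod hD hN.2.1 isClosed_closure hWU (ε := min ε ρ) (by positivity)
  obtain ⟨θ, θ', h1, h2, h3⟩ := hN.2.2.dd δ hδ
  obtain ⟨φ, a1, -, a3⟩ := H θ θ.continuous.continuousOn fun z _ => h1 z
  obtain ⟨ψ, b1, -, b3⟩ := H θ' θ'.continuous.continuousOn fun z _ => h2 z
  refine ⟨φ, ψ, fun x => (a3 x).trans_le (min_le_left _ _),
    fun x => (b3 x).trans_le (min_le_left _ _), fun x y hx hxy => ?_⟩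
  have hxW : x ∈ W := hρW (mem_thickening_iff.2 ⟨φ x, hx, by
    rw [dist_comm]
    exact (a3 x).trans_le (min_le_right _ _)⟩)
  have hyW : y ∈ W := hρW (mem_thickening_iff.2 ⟨φ x, hx, by
    rw [dist_comm, hxy]
    exact (b3 y).trans_le (min_le_right _ _)⟩)
  obtain ⟨a4, a5⟩ := a1 x (subset_closure hxW)
  obtain ⟨b4, b5⟩ := b1 y (subset_closure hyW)
  refine h3 (e x) (e y) ?_
  rw [← h.right _ a4, ← h.right _ b4, ← a5, ← b5, hxy]

theorem dd_loc {k : ℕ} (h : ∀ x : D, At k D x) : DD D := by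
  have hD := pushOff_loc h
  obtain ⟨t, C, h1, h2⟩ := exists_cover (D := D) isClosed_univ
    (P := fun C => ∀ ε > 0, ∃ φ ψ : C(D, D), (∀ x, dist (φ x) x < ε) ∧
      (∀ x, dist (ψ x) x < ε) ∧ ∀ x y, φ x ∈ C → φ x ≠ ψ y) fun x _ => by
      obtain ⟨N, _, _, U, e, e', hN, hc, hx⟩ := h x
      exact ⟨U, hc.opU, hx, fun C hC hCU ε hε => hc.dd hD hN hC hCU hε⟩
  intro ε hε
  have D1 : ∀ i : t, IsOpen {p : C(D, D) × C(D, D) | ∀ x y, p.1 x ∈ C i → p.1 x ≠ p.2 y} ∧
      Dense {p : C(D, D) × C(D, D) | ∀ x y, p.1 x ∈ C i → p.1 x ≠ p.2 y} := by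
    rintro ⟨i, hi⟩
    obtain ⟨hCi, hPi⟩ := h1 i hi
    constructor
    · rw [← isClosed_compl_iff]
      have : {p : C(D, D) × C(D, D) | ∀ x y, p.1 x ∈ C i → p.1 x ≠ p.2 y}ᶜ =
          Prod.fst '' {q : (C(D, D) × C(D, D)) × (D × D) | q.1.1 q.2.1 ∈ C i ∧
            q.1.1 q.2.1 = q.1.2 q.2.2} := by
        ext p
        simp only [mem_compl_iff, mem_ofPred_eq, not_forall, not_not, mem_image, Prod.exists,
          exists_prop, exists_and_right, exists_eq_right]
      rw [this]
      refine isClosedMap_fst_of_compactSpace _ (IsClosed.inter ?_ ?_)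
      · exact hCi.preimage (by fun_prop)
      · exact isClosed_eq (by fun_prop) (by fun_prop)
    · rintro ⟨f, g⟩
      rw [Metric.mem_closure_iff]
      intro ε hε
      obtain ⟨φ, ψ, h1, h2, h3⟩ := hPi (ε / 2) (by positivity)
      refine ⟨(φ.comp f, ψ.comp g), fun x y => h3 _ _, ?_⟩
      rw [Prod.dist_eq]
      refine lt_of_le_of_lt (max_le ?_ ?_) (half_lt_self hε)
      · exact (ContinuousMap.dist_le (by positivity)).2 fun x => by
          rw [dist_comm]; exact (h1 (f x)).le
      · exact (ContinuousMap.dist_le (by positivity)).2 fun x => by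
          rw [dist_comm]; exact (h2 (g x)).le
  have D2 := dense_iInter_of_isOpen (fun i => (D1 i).1) fun i => (D1 i).2
  obtain ⟨⟨φ, ψ⟩, h3, h4⟩ := Metric.mem_closure_iff.1
    (D2 (ContinuousMap.id D, ContinuousMap.id D)) ε hε
  rw [Prod.dist_eq, max_lt_iff] at h4
  rw [mem_iInter] at h3
  refine ⟨φ, ψ, fun x => ?_, fun x => ?_, fun x y => ?_⟩
  · have := (ContinuousMap.dist_apply_le_dist x).trans_lt h4.1
    rw [dist_comm]
    exact this
  · have := (ContinuousMap.dist_apply_le_dist x).trans_lt h4.2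
    rw [dist_comm]
    exact this
  · obtain ⟨i, hi, hx⟩ := mem_iUnion₂.1 (h2 (mem_univ (φ x)))
    exact h3 ⟨i, hi⟩ x y hx

/-- **Menger manifolds are local.** -/
theorem men_loc {k : ℕ} (h : ∀ x : D, At k D x) : Men k D :=
  ⟨pushOff_loc h, ulc_loc h, (dd_loc h).zd⟩

/-- **Z-sets are local.** -/
theorem zs_loc {k : ℕ} (hD : PushOff k (univ : Set D)) {S : Set D} (hS : IsClosed S)
    (h : ∀ x ∈ S, AtZ k S x) : ZS S := by
  refine zs_of_local hS fun x hx => ?_
  obtain ⟨N, _, _, U, e, e', hN, hc, hxU, T, hT, hST⟩ := h x hx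
  refine ⟨U, hc.opU, hxU, fun C hC hCU => ?_⟩
  refine hc.zs hD hN.2.1 hC (hCU.trans inter_subset_right) (hT.mono ?_ ?_)
  · exact (hC.isCompact.image_of_continuousOn
      (hc.cont.mono (hCU.trans inter_subset_right))).isClosed
  · rintro _ ⟨y, hy, rfl⟩
    exact hST (hCU hy)

end Loc

end Pool.Agent.Work.MP_017613_gt
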