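import Pool.Agent.Work.MP_017613_gt.DiscD
import Pool.Agent.Work.MP_017613_gt.CubHomeo
import Pool.Agent.Work.MP_017613_gt.Kit.Glue
import Pool.Agent.Work.MP_017613_gt.Statement

/-!
# Cubical nerves of compact spaces of dimension at most `k` (MENGER 8.3)

`exists_nerve`: a compact ANE(k) space `M` of dimension at most `k` is up to `ε` dominated by a
cubical set `R` of dimension at most `k`; `fam_top`: `R` is its `(k-1)`-skeleton with finitely many
`k`-cells attached; `isPoly_skel`: the `n`-skeleton is a polyhedron of dimension at most `n`.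
-/

set_option linter.unusedSectionVars false

open Set Topology Metric
open Pool.Agent.Work.MP_017613_gt

namespace MG

/-! ### The top layer -/

section top

variable {N : ℕ}

/-- a cubical set is the union of its cubes -/
lemma IsCub.pushOff {m : ℕ} (hm : 0 < m) {R : Set (Fin N → ℝ)} (hR : IsCub m R) {k : ℕ}
    (hk : ∀ x ∈ R, dm (car m x) ≤ k) : PushOff k R := by
  classical
  have := hR.finite_car.to_subtype
  have h1 : PushOff k (⋃ w : car m '' R, cube m (w : Fin N → ℤ)) := by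
    refine PushOff.iUnion (fun w => ?_) (fun w => isCompact_cube' hm _)
    obtain ⟨w, x, hx, rfl⟩ := w
    have h2 : PushOff k (Cb (dm (car m x))) := by
      refine pushOff_of_finrank ?_ isCompact_Icc
      rw [Module.finrank_fin_fun]
      exact hk x hx
    have h3 := h2.image isCompact_Icc (φ := emb m (car m x)) (continuous_emb m _).continuousOn (by
      intro t _ t' _ h
      have := congrArg (prj m (car m x)) h
      rwa [prj_emb hm, prj_emb hm] at this)
    refine h3.mono (isCompact_cube' hm _) fun y hy => ?_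
    exact ⟨prj m (car m x) y, prj_mem hy, emb_prj hm hy⟩
  refine h1.mono hR.isCompact fun x hx => mem_iUnion.2 ⟨⟨car m x, x, hx, rfl⟩, mem_cube_car m x⟩

lemma car_eq_of_not_bdry {m : ℕ} {w : Fin N → ℤ} {x : Fin N → ℝ} (hx : x ∈ cube m w)
    (hb : x ∉ bdry m w) : car m x = w := by
  by_contra h
  exact hb ⟨hx, h⟩

/-- The `(k-1)`-skeleton and the `k`-cells. -/
theorem fam_top {m k : ℕ} (hm : 0 < m) {R : Set (Fin N → ℝ)} (hR : IsCub m R)
    (hk : ∀ x ∈ R, dm (car m x) ≤ k) :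
    ∃ (c : ℕ) (χ : Fin c → (Fin k → ℝ) → R),
      Fam (Cu k) (dCu k) {x : R | dm (car m (x : Fin N → ℝ)) < k} univ χ := by
  classical
  set W : Set (Fin N → ℤ) := {w | w ∈ car m '' R ∧ dm w = k} with hW
  have hWf : W.Finite := hR.finite_car.subset fun w hw => hw.1
  have := hWf.to_subtype
  obtain ⟨c, ⟨e⟩⟩ := Finite.exists_equiv_fin W
  -- the cell of `w`
  have hcell : ∀ w : W, ∃ χ : (Fin k → ℝ) → R, ContinuousOn χ (Cu k) ∧
      (∀ t ∈ Cu k, (χ t : Fin N → ℝ) ∈ cube m (w : Fin N → ℤ)) ∧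
      (∀ t ∈ Cu k, ((χ t : Fin N → ℝ) ∈ bdry m (w : Fin N → ℤ) ↔ t ∈ dCu k)) ∧
      InjOn χ (Cu k) ∧ ∀ x : R, (x : Fin N → ℝ) ∈ cube m (w : Fin N → ℤ) →
        ∃ t ∈ Cu k, χ t = x := by
    rintro ⟨w, ⟨⟨x0, hx0, hx0w⟩, hwk⟩⟩
    subst hwk
    have hsub : cube m w ⊆ R := hR.cube_subset_of hx0 hx0w
    let χ : (Fin (dm w) → ℝ) → R := fun t =>
      if h : t ∈ Cu (dm w) then ⟨emb m w t, hsub (emb_mem hm h)⟩ else ⟨x0, hx0⟩
    have hχ : ∀ t ∈ Cu (dm w), (χ t : Fin N → ℝ) = emb m w t := by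
      intro t ht
      simp only [χ, dif_pos ht]
    refine ⟨χ, ?_, ?_, ?_, ?_, ?_⟩
    · rw [Topology.IsInducing.subtypeVal.continuousOn_iff]
      exact (continuous_emb m w).continuousOn.congr fun t ht => hχ t ht
    · intro t ht
      rw [hχ t ht]
      exact emb_mem hm ht
    · intro t ht
      rw [hχ t ht, mem_bdry_iff (emb_mem hm ht), prj_emb hm]
      exact Iff.rfl
    · intro t ht t' ht' h
      have h1 := congrArg (fun z : R => prj m w (z : Fin N → ℝ)) h
      simp only [hχ t ht, hχ t' ht', prj_emb hm] at h1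
      exact h1
    · intro x hx
      refine ⟨prj m w x, prj_mem hx, ?_⟩
      apply Subtype.ext
      rw [hχ _ (prj_mem hx), emb_prj hm hx]
  choose χ h1 h2 h3 h4 h5 using hcell
  have hcar : ∀ (w : W) (t : Fin k → ℝ), t ∈ Cu k → t ∉ dCu k →
      car m (χ w t : Fin N → ℝ) = (w : Fin N → ℤ) := fun w t ht hd =>
    car_eq_of_not_bdry (h2 w t ht) fun hb => hd ((h3 w t ht).1 hb)
  refine ⟨c, fun i => χ (e.symm i), fun i => h1 _, ?_, ?_, ?_, ?_⟩
  · intro i t ht
    have h6 := (h3 (e.symm i) t (dCu_subset k ht)).2 ht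
    have h7 := dm_car_lt h6
    show dm (car m (χ (e.symm i) t : Fin N → ℝ)) < k
    rw [(e.symm i).2.2] at h7
    exact h7
  · intro i t ht hd h
    have h6 : dm (car m (χ (e.symm i) t : Fin N → ℝ)) < k := h
    rw [hcar _ t ht hd, (e.symm i).2.2] at h6
    exact lt_irrefl _ h6
  · intro i i' t t' ht hd ht' hd' h
    have h6 : ((e.symm i : W) : Fin N → ℤ) = (e.symm i' : W) := by
      rw [← hcar _ t ht hd, ← hcar _ t' ht' hd', h]
    have h7 : i = i' := e.symm.injective (Subtype.ext h6)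
    subst h7
    exact ⟨rfl, h4 _ ht ht' h⟩
  · ext x
    simp only [mem_univ, mem_union, mem_iUnion, true_iff]
    by_cases hx : dm (car m (x : Fin N → ℝ)) < k
    · exact Or.inl hx
    · right
      have h6 : dm (car m (x : Fin N → ℝ)) = k := le_antisymm (hk x x.2) (not_lt.1 hx)
      let w : W := ⟨car m (x : Fin N → ℝ), ⟨x, x.2, rfl⟩, h6⟩
      obtain ⟨t, ht, hxt⟩ := h5 w x (mem_cube_car m _)
      exact ⟨e w, t, ht, by rw [e.symm_apply_apply]; exact hxt⟩

/-- the skeleton is closed -/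
lemma isClosed_skel {m : ℕ} {R : Set (Fin N → ℝ)} (hR : IsCub m R) (k : ℕ) :
    IsClosed {x : R | dm (car m (x : Fin N → ℝ)) < k} := by
  rcases Nat.eq_zero_or_pos k with rfl | hk
  · have : {x : R | dm (car m (x : Fin N → ℝ)) < 0} = ∅ := by
      ext x; simp
    rw [this]
    exact isClosed_empty
  · have h1 := (hR.skel (k - 1)).isClosed
    have h2 : {x : R | dm (car m (x : Fin N → ℝ)) < k} =
        Subtype.val ⁻¹' {x | x ∈ R ∧ dm (car m x) ≤ k - 1} := by
      ext x
      constructor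
      · intro hx
        have : dm (car m (x : Fin N → ℝ)) < k := hx
        exact ⟨x.2, by omega⟩
      · intro hx
        have : dm (car m (x : Fin N → ℝ)) ≤ k - 1 := hx.2
        show dm (car m (x : Fin N → ℝ)) < k
        omega
    rw [h2]
    exact h1.preimage continuous_subtype_val

end top

/-! ### The nerve -/

section nerve

/-- **Nerves.** -/
theorem exists_nerve {M : Type} [MetricSpace M] [CompactSpace M] {k : ℕ}
    (hP : PushOff k (univ : Set M)) (hA : Chi.ANE k (univ : Set M)) {ε : ℝ} (hε : 0 < ε) :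
    ∃ (N m : ℕ) (R : Set (Fin N → ℝ)) (q : C(M, R)) (s : C(R, M)), 0 < m ∧ IsCub m R ∧
      (∀ x ∈ R, dm (car m x) ≤ k) ∧ ∀ x, dist (s (q x)) x < ε := by
  classical
  obtain ⟨δ, hδ, hAδ⟩ := hA (ε / 2) (by positivity)
  obtain ⟨N, m, q, hm, cq, hqk, hq⟩ := exists_q hP (r := min δ (ε / 2)) (lt_min hδ (by positivity))
  have hm' : (0 : ℝ) < m := by exact_mod_cast hm
  set R : Set (Fin N → ℝ) := cars m (range q) with hRdef
  have hR : IsCub m R := isCub_cars hm (isCompact_range cq).isBounded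
  have hRk : ∀ x ∈ R, dm (car m x) ≤ k := by
    intro p hp
    obtain ⟨-, ⟨x, rfl⟩, hx⟩ := mem_cars.1 hp
    exact (dm_car_le hx).trans (hqk x)
  have hqR : ∀ x, q x ∈ R := fun x => subset_cars m _ (mem_range_self x)
  -- the function `h`
  have hch : ∀ p : R, ∃ x : M, dist (p : Fin N → ℝ) (q x) ≤ 1 / m := by
    intro p
    obtain ⟨-, ⟨x, rfl⟩, hx⟩ := mem_cars.1 p.2
    exact ⟨x, dist_le_of_mem_cube hm hx (mem_cube_car m _)⟩
  choose h hh using hch
  have hTP : Chi.TP k (univ : Set R) ∅ :=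
    ⟨isCompact_iff_isCompact_univ.1 hR.isCompact, pushOff_subtype (hR.pushOff hm hRk),
      isClosed_empty, empty_subset _⟩
  have hJ : Chi.Jump h (univ : Set R) δ := by
    refine ⟨1 / m, by positivity, fun x _ y _ hxy => ?_⟩
    refine lt_of_lt_of_le (hq _ _ ?_) (min_le_left _ _)
    have h1 := hh x
    have h2 := hh y
    have h3 : dist (x : Fin N → ℝ) (y : Fin N → ℝ) < 1 / m := hxy
    have h4 := dist_triangle (q (h x)) (x : Fin N → ℝ) (q (h y))
    have h5 := dist_triangle (x : Fin N → ℝ) (y : Fin N → ℝ) (q (h y))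
    rw [dist_comm (q (h x)) (x : Fin N → ℝ)] at h4
    have h6 : (3 : ℝ) / m = 1 / m + 1 / m + 1 / m := by ring
    linarith
  obtain ⟨s, cs, -, -, hs⟩ := hAδ R univ ∅ hTP h (fun _ _ => mem_univ _) hJ h
    (continuousOn_empty _) (fun _ _ => mem_univ _) (fun x hx => hx.elim)
  refine ⟨N, m, R, ⟨fun x => ⟨q x, hqR x⟩, cq.subtype_mk hqR⟩, ⟨s, continuousOn_univ.1 cs⟩, hm,
    hR, hRk, fun x => ?_⟩
  have h1 : dist (s ⟨q x, hqR x⟩) (h ⟨q x, hqR x⟩) < ε / 2 := hs _ (mem_univ _)
  have h2 : dist (h ⟨q x, hqR x⟩) x < ε / 2 := by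
    refine lt_of_lt_of_le (hq _ _ ?_) (min_le_right _ _)
    have h3 := hh ⟨q x, hqR x⟩
    rw [dist_comm] at h3
    refine h3.trans ?_
    rw [div_le_div_iff_of_pos_right hm']
    norm_num
  show dist (s ⟨q x, hqR x⟩) x < ε
  linarith [dist_triangle (s ⟨q x, hqR x⟩) (h ⟨q x, hqR x⟩) x]

end nerve

end MG
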