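import Mathlib

/-!
Homeomorphisms from a back-and-forth system of closed relations.
-/

set_option linter.unusedSectionVars false

open Set Topology Metric

namespace Pool.Agent.Work.MP_017613_gt

variable {M N : Type*} [MetricSpace M] [CompactSpace M] [MetricSpace N] [CompactSpace N]

/-- a closed relation whose both projections are bijective is the graph of a homeomorphism -/
theorem exists_homeo_of_closed {Γ : Set (M × N)} (hc : IsClosed Γ)
    (h1 : ∀ x, ∃! y, (x, y) ∈ Γ) (h2 : ∀ y, ∃! x, (x, y) ∈ Γ) :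
    ∃ h : M ≃ₜ N, ∀ x, (x, h x) ∈ Γ := by
  have : CompactSpace Γ := isCompact_iff_compactSpace.1 hc.isCompact
  let p1 : Γ ≃ M := Equiv.ofBijective (fun z => z.1.1) ⟨by
    rintro ⟨⟨x, y⟩, hz⟩ ⟨⟨x', y'⟩, hz'⟩ he
    simp only at he
    subst he
    simp [(h1 x).unique hz hz'], fun x => by
      obtain ⟨y, hy, -⟩ := h1 x
      exact ⟨⟨(x, y), hy⟩, rfl⟩⟩
  let p2 : Γ ≃ N := Equiv.ofBijective (fun z => z.1.2) ⟨by
    rintro ⟨⟨x, y⟩, hz⟩ ⟨⟨x', y'⟩, hz'⟩ he
    simp only at he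
    subst he
    simp [(h2 y).unique hz hz'], fun y => by
      obtain ⟨x, hx, -⟩ := h2 y
      exact ⟨⟨(x, y), hx⟩, rfl⟩⟩
  have c1 : Continuous p1 := continuous_fst.comp continuous_subtype_val
  have c2 : Continuous p2 := continuous_snd.comp continuous_subtype_val
  let e1 : Γ ≃ₜ M := Continuous.homeoOfEquivCompactToT2 (f := p1) c1
  let e2 : Γ ≃ₜ N := Continuous.homeoOfEquivCompactToT2 (f := p2) c2
  refine ⟨e1.symm.trans e2, fun x => ?_⟩
  have hx : (e1.symm x).1.1 = x := e1.apply_symm_apply x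
  have : ((e1.symm x).1.1, (e1.symm x).1.2) ∈ Γ := (e1.symm x).2
  rw [hx] at this
  exact this

/-- **Back and forth**: a family of closed relations, total on both sides, which can be refined to
thin ones, contains the graph of a homeomorphism. -/
theorem exists_homeo_of_relations (G : Set (Set (M × N))) (hcl : ∀ C ∈ G, IsClosed C)
    (ht : ∀ C ∈ G, ∀ x, ∃ y, (x, y) ∈ C) (ht' : ∀ C ∈ G, ∀ y, ∃ x, (x, y) ∈ C)
    (href : ∀ C ∈ G, ∀ ρ > 0, ∃ C' ∈ G, C' ⊆ C ∧
      (∀ x y y', (x, y) ∈ C' → (x, y') ∈ C' → dist y y' < ρ) ∧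
      ∀ x x' y, (x, y) ∈ C' → (x', y) ∈ C' → dist x x' < ρ)
    {C₀ : Set (M × N)} (h₀ : C₀ ∈ G) :
    ∃ h : M ≃ₜ N, (∀ x, (x, h x) ∈ C₀) ∧ ∀ x y, (∀ C ∈ G, (x, y) ∈ C) → h x = y := by
  choose! R hRG hRC hR1 hR2 using href
  let C : ℕ → Set (M × N) := fun n => Nat.rec C₀ (fun n C => R C (1 / (n + 1 : ℝ))) n
  have hpos : ∀ n : ℕ, (0 : ℝ) < 1 / (n + 1 : ℝ) := fun n => Nat.one_div_pos_of_nat
  have hCG : ∀ n, C n ∈ G := by
    intro n
    induction n with
    | zero => exact h₀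
    | succ n ih => exact hRG _ ih _ (hpos n)
  have hsub : ∀ n, C (n + 1) ⊆ C n := fun n => hRC _ (hCG n) _ (hpos n)
  have hanti : Antitone C := antitone_nat_of_succ_le hsub
  have hc : IsClosed (⋂ n, C n) := isClosed_iInter fun n => hcl _ (hCG n)
  have hlim : Filter.Tendsto (fun n : ℕ => 1 / (n + 1 : ℝ)) Filter.atTop (𝓝 0) :=
    tendsto_one_div_add_atTop_nhds_zero_nat
  obtain ⟨h, hh⟩ := exists_homeo_of_closed hc (fun x => by
    have hne : (⋂ n, {y | (x, y) ∈ C n}).Nonempty := by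
      refine IsCompact.nonempty_iInter_of_sequence_nonempty_isCompact_isClosed _
        (fun n y hy => hsub n hy) (fun n => ht _ (hCG n) x) ?_ fun n => ?_
      · exact ((hcl _ (hCG 0)).preimage (by fun_prop : Continuous fun y => (x, y))).isCompact
      · exact (hcl _ (hCG n)).preimage (by fun_prop : Continuous fun y => (x, y))
    obtain ⟨y, hy⟩ := hne
    refine ⟨y, mem_iInter.2 fun n => mem_iInter.1 hy n, fun y' hy' => ?_⟩
    refine dist_le_zero.1 (ge_of_tendsto' hlim fun n => ?_)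
    exact (hR1 _ (hCG n) _ (hpos n) x y' y (mem_iInter.1 hy' (n + 1))
      (mem_iInter.1 hy (n + 1))).le) (fun y => by
    have hne : (⋂ n, {x | (x, y) ∈ C n}).Nonempty := by
      refine IsCompact.nonempty_iInter_of_sequence_nonempty_isCompact_isClosed _
        (fun n x hx => hsub n hx) (fun n => ht' _ (hCG n) y) ?_ fun n => ?_
      · exact ((hcl _ (hCG 0)).preimage (by fun_prop : Continuous fun x => (x, y))).isCompact
      · exact (hcl _ (hCG n)).preimage (by fun_prop : Continuous fun x => (x, y))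
    obtain ⟨x, hx⟩ := hne
    refine ⟨x, mem_iInter.2 fun n => mem_iInter.1 hx n, fun x' hx' => ?_⟩
    refine dist_le_zero.1 (ge_of_tendsto' hlim fun n => ?_)
    exact (hR2 _ (hCG n) _ (hpos n) x' x y (mem_iInter.1 hx' (n + 1))
      (mem_iInter.1 hx (n + 1))).le)
  refine ⟨h, fun x => mem_iInter.1 (hh x) 0, fun x y hxy => ?_⟩
  refine dist_le_zero.1 (ge_of_tendsto' hlim fun n => ?_)
  exact (hR1 _ (hCG n) _ (hpos n) x (h x) y (mem_iInter.1 (hh x) (n + 1))
    (hxy _ (hCG (n + 1)))).le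

end Pool.Agent.Work.MP_017613_gt
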