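import Pool.Agent.Work.MP_017613_gt.RndB

/-!
# Block 8.1: attaching a Menger space along a Z-set
-/

set_option linter.unusedSectionVars false

open Set Topology Metric

namespace Pool.Agent.Work.MP_017613_gt

namespace Rnd

open Chi

variable {k : ℕ}

theorem hom_univ {N : Type} [MetricSpace N] {D : Type} [MetricSpace D] {f : N → D}
    (hc : Continuous f) (hi : Function.Injective f) : Hom univ (range f) f :=
  ⟨hc.continuousOn, hi.injOn, image_univ⟩

/-- a Z-set of a piece, disjoint from the other piece, is a Z-set of the union -/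
theorem ZIn.left {α : Type} [MetricSpace α] {P Q S : Set α} (hP : MenS k P) (hQ : MenS k Q)
    (hS : ZIn S P) (hd : Disjoint S Q) : ZIn S (P ∪ Q) := by
  have h0 : S ∩ Q = ∅ := disjoint_iff_inter_eq_empty.1 hd
  refine ZIn.glue hP hQ hS.1 (hS.2.1.trans subset_union_left) ?_ ?_ ?_
  · rw [inter_eq_left.2 hS.2.1]; exact hS
  · rw [h0]; exact ZIn.empty Q
  · have : S ∩ (P ∩ Q) = ∅ := by
      rw [← subset_empty_iff, ← h0]
      exact fun x hx => ⟨hx.1, hx.2.2⟩
    rw [this]; exact ZIn.empty _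

/-- **ATTACH**: a Menger space `Y` is attached to the Menger space `R` along `B`, a Z-set of both
and a soft retract of `Y`. -/
theorem attach {R Y B : Type} [MetricSpace R] [CompactSpace R] [MetricSpace Y] [CompactSpace Y]
    [MetricSpace B] [CompactSpace B] (mR : Men k R) (mY : Men k Y) (mB : Men k B)
    {j : B → R} (cj : Continuous j) (ij : Function.Injective j) (zj : ZS (range j))
    {b : B → Y} (cb : Continuous b) (ib : Function.Injective b) (zb : ZS (range b))
    {ρ : Y → B} (sρ : Soft k univ univ ρ) (hρ : ∀ x, ρ (b x) = x) :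
    ∃ (D : Type) (_ : MetricSpace D) (_ : CompactSpace D) (J : R → D) (χ : Y → D) (c : D → R),
      Men k D ∧ Continuous J ∧ Function.Injective J ∧ Continuous χ ∧ Function.Injective χ ∧
      range J ∪ range χ = univ ∧ (∀ x y, J x = χ y ↔ ∃ z, j z = x ∧ b z = y) ∧
      Soft k univ univ c ∧ (∀ x, c (J x) = x) ∧ (∀ y, c (χ y) = j (ρ y)) ∧
      (∀ S, ZS S → Disjoint S (range j) → ZS (J '' S)) ∧
      ∀ S, ZS S → Disjoint S (range b) → ZS (χ '' S) := by
  classical
  have cρ : Continuous ρ := continuousOn_univ.1 sρ.1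
  have crb : IsClosed (range b) := zb.1
  obtain ⟨D, mD, cD, J, χ', hJ, hF, hb⟩ := MG.exists_attach_type (V := R) (B := Y) (ι := Unit)
    crb (fun _ y => j (ρ y)) fun _ => (cj.comp cρ).continuousOn
  let χ : Y → D := χ' ()
  have cJ : Continuous J := hJ.continuous
  have iJ : Function.Injective J := hJ.injective
  have cχ : Continuous χ := continuousOn_univ.1 (hF.cont ())
  have hχb : ∀ z, χ (b z) = J (j z) := fun z => by
    have := hb () (b z) (mem_range_self z)
    change χ (b z) = J (j (ρ (b z))) at this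
    rw [this, hρ]
  have hmeet : ∀ x y, J x = χ y ↔ ∃ z, j z = x ∧ b z = y := by
    intro x y
    constructor
    · intro h
      have hy : y ∈ range b := by
        by_contra hy
        exact hF.off () y trivial hy ⟨x, h⟩
      obtain ⟨z, rfl⟩ := hy
      rw [hχb] at h
      exact ⟨z, (iJ h).symm, rfl⟩
    · rintro ⟨z, rfl, rfl⟩
      exact (hχb z).symm
  have iχ : Function.Injective χ := by
    intro y y' e
    by_cases hy : y ∈ range b
    · obtain ⟨z, rfl⟩ := hy
      rw [hχb] at e
      obtain ⟨z', h1, h2⟩ := (hmeet (j z) y').1 e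
      rw [← h2, ij h1]
    · by_cases hy' : y' ∈ range b
      · obtain ⟨z, rfl⟩ := hy'
        rw [hχb] at e
        obtain ⟨z', h1, h2⟩ := (hmeet (j z) y).1 e.symm
        rw [← h2, ij h1]
      · exact (hF.inj () () y y' trivial hy trivial hy' e).2
  have hun : range J ∪ range χ = univ := by
    have h1 := hF.union
    rw [h1]
    congr 1
    ext x
    simp only [mem_range, image_univ, mem_iUnion]
    exact ⟨fun ⟨y, hy⟩ => ⟨(), y, hy⟩, fun ⟨_, y, hy⟩ => ⟨y, hy⟩⟩
  -- the homeomorphisms onto the pieces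
  have HJ : Hom univ (range J) J := hom_univ cJ iJ
  have Hχ : Hom univ (range χ) χ := hom_univ cχ iχ
  have Hb : Hom univ (range b) b := hom_univ cb ib
  have Hj : Hom univ (range j) j := hom_univ cj ij
  have hneR : (univ : Set R).Nonempty := mR.univ.ne
  have hneY : (univ : Set Y).Nonempty := mY.univ.ne
  have hneB : (univ : Set B).Nonempty := mB.univ.ne
  have sJ : MenS k (range J) := mR.univ.image HJ
  have sχ : MenS k (range χ) := mY.univ.image Hχ
  have hint : range J ∩ range χ = J '' range j := by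
    ext x
    constructor
    · rintro ⟨⟨x, rfl⟩, y, hy⟩
      obtain ⟨z, h1, -⟩ := (hmeet x y).1 hy.symm
      exact ⟨x, ⟨z, h1⟩, rfl⟩
    · rintro ⟨_, ⟨z, rfl⟩, rfl⟩
      exact ⟨⟨_, rfl⟩, b z, hχb z⟩
  have hint' : range J ∩ range χ = χ '' range b := by
    rw [hint]
    ext x
    constructor
    · rintro ⟨_, ⟨z, rfl⟩, rfl⟩
      exact ⟨_, ⟨z, rfl⟩, hχb z⟩
    · rintro ⟨_, ⟨z, rfl⟩, rfl⟩
      exact ⟨_, ⟨z, rfl⟩, (hχb z).symm⟩
  have sj : MenS k (range j) := mB.univ.image Hj
  have sint : MenS k (range J ∩ range χ) := by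
    rw [hint]
    exact sj.image (HJ.sub (subset_univ _))
  have zJ : ZIn (range J ∩ range χ) (range J) := by
    rw [hint]
    exact ZIn.image HJ isCompact_univ (zin_univ.2 zj)
  have zχ : ZIn (range J ∩ range χ) (range χ) := by
    rw [hint']
    exact ZIn.image Hχ isCompact_univ (zin_univ.2 zb)
  have sD : MenS k (univ : Set D) := by
    rw [← hun]
    exact sJ.glue sχ sint zJ zχ
  -- the collapse
  obtain ⟨J', HJ', hJ'J, hJJ'⟩ := HJ.exists_inv isCompact_univ hneR
  obtain ⟨χ'', Hχ'', hχ''χ, hχχ''⟩ := Hχ.exists_inv isCompact_univ hneY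
  obtain ⟨c, hc1, hc2, hc3⟩ := hF.glue isCompact_univ sJ.cpt.isClosed HJ'.cont
    (G := fun _ y => j (ρ y)) (fun _ => (cj.comp cρ).continuousOn) (by
      rintro ⟨⟩ _ ⟨z, rfl⟩
      change j (ρ (b z)) = J' (χ (b z))
      rw [hχb, hρ, hJ'J _ trivial])
  have hcJ : ∀ x, c (J x) = x := fun x => by
    rw [hc2 (mem_range_self x), hJ'J _ trivial]
  have hcχ : ∀ y, c (χ y) = j (ρ y) := fun y => hc3 () y trivial
  -- softness
  have s1 : Soft k (range J) univ c := by
    have h1 : Soft k (range J) (univ : Set R) (fun x => J' x) :=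
      (Soft.refl (k := k) (univ : Set R)).precomp HJ'.cont (fun _ _ => trivial) HJ.cont
        (fun x _ => mem_range_self x) (fun x hx => hJJ' x hx) fun x hx => hJ'J x hx
    refine h1.congr ?_
    rintro _ ⟨x, rfl⟩
    exact (hJ'J _ trivial).trans (hcJ x).symm
  have s2 : Soft k (range χ) (range j) c := by
    have sj' : Soft k (univ : Set B) (range j) j := by
      obtain ⟨j', Hj', h1, h2⟩ := Hj.exists_inv isCompact_univ hneB
      have h3 : Soft k (univ : Set B) (range j) (fun x => j x) :=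
        (Soft.refl (k := k) (range j)).precomp Hj.cont (fun x _ => mem_range_self x) Hj'.cont
          (fun _ _ => trivial) (fun x hx => h1 x hx) fun x hx => h2 x hx
      exact h3
    have h1 : Soft k (univ : Set Y) (range j) (fun x => j (ρ x)) :=
      Soft.comp isCompact_univ sj' sρ
    have h2 : Soft k (range χ) (range j) (fun x => j (ρ (χ'' x))) :=
      h1.precomp Hχ''.cont (fun _ _ => trivial) Hχ.cont (fun x _ => mem_range_self x)
        (fun x hx => hχχ'' x hx) fun x hx => hχ''χ x hx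
    refine h2.congr ?_
    rintro _ ⟨y, rfl⟩
    change j (ρ (χ'' (χ y))) = c (χ y)
    rw [hcχ, hχ''χ _ trivial]
  have s3 : Soft k (range J ∩ range χ) (univ ∩ range j) c := by
    rw [hint, univ_inter]
    have h1 : Soft k (J '' range j) (range j) (fun x => J' x) :=
      (Soft.refl (k := k) (range j)).precomp (HJ'.cont.mono (image_subset_range _ _))
        (by rintro _ ⟨x, hx, rfl⟩; rw [hJ'J _ trivial]; exact hx) (HJ.cont.mono (subset_univ _))
        (fun x hx => ⟨x, hx, rfl⟩) (by rintro _ ⟨x, hx, rfl⟩; rw [hJ'J _ trivial])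
        fun x _ => hJ'J x trivial
    refine h1.congr ?_
    rintro _ ⟨x, hx, rfl⟩
    exact (hJ'J _ trivial).trans (hcJ x).symm
  have sc : Soft k (univ : Set D) (univ : Set R) c := by
    have h1 := Soft.glue sJ.cpt sχ.cpt isCompact_univ sj.cpt mR.ane sj.ane
      (by rw [univ_inter]; exact sj.ane) s1 s2 s3
    rwa [hun, univ_union] at h1
  refine ⟨D, mD, cD, J, χ, c, men_of_univ sD, cJ, iJ, cχ, iχ, hun, hmeet, sc, hcJ, hcχ, ?_, ?_⟩
  · intro S hS hd
    rw [← zin_univ, ← hun]
    refine ZIn.left sJ sχ (ZIn.image HJ isCompact_univ (zin_univ.2 hS)) ?_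
    rw [disjoint_left]
    rintro _ ⟨x, hx, rfl⟩ ⟨y, hy⟩
    obtain ⟨z, h1, -⟩ := (hmeet x y).1 hy.symm
    exact disjoint_left.1 hd hx ⟨z, h1⟩
  · intro S hS hd
    rw [← zin_univ, ← hun, union_comm]
    refine ZIn.left sχ sJ (ZIn.image Hχ isCompact_univ (zin_univ.2 hS)) ?_
    rw [disjoint_left]
    rintro _ ⟨y, hy, rfl⟩ ⟨x, hx⟩
    obtain ⟨z, -, h2⟩ := (hmeet x y).1 hx
    exact disjoint_left.1 hd hy ⟨z, h2⟩

end Rnd

end Pool.Agent.Work.MP_017613_gt
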