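import Pool.Agent.Work.MP_017613_gt.Straight2
import Pool.Agent.Work.MP_017613_gt.LocB

/-!
# Straightening for the predicate `Men k`

`mth`: the properties `Mth k (Men k)` from T_REL. `straightP`: straightening in the form used by
the induction for small homeomorphisms.
-/

open Set Topology Metric

namespace Pool.Agent.Work.MP_017613_gt

namespace Str

open Rnd Chi

theorem mth {k : ℕ} (hT : TRelT k (Men k)) : Mth k (Men k) where
  dim _ _ _ h := h.1
  ane _ _ _ h := MG.ane_of_ulc isCompact_univ h.2.1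
  homeo _ _ _ _ _ _ θ h := Loc.men_of_homeo θ.symm h
  loc Q _ D cD h := Loc.menS_of_eq cD fun x hx => by
    obtain ⟨U, N, h1, h2, h3, h4⟩ := h x hx
    exact ⟨U, N, h1, h2, h4, h3⟩
  trel := hT

/-- straightening, in the form used by the induction -/
def StraightP (k : ℕ) (M : Type) [MetricSpace M] : Prop :=
  ∀ P T R V : Set M, IsClosed P → IsClosed T → IsClosed R → P ∪ T ∪ R = univ → Loc.MenS k T →
    ZIn (P ∩ T) T → ZIn (T ∩ R) T → P ∩ R ⊆ interior V → ∀ e > 0, ∃ δ > 0, ∀ h : M ≃ₜ M,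
    (∀ x, dist (h x) x < δ) → (∀ x ∈ V, h x = x) →
    ∃ g : M ≃ₜ M, (∀ x, dist (g x) x < e) ∧ (∀ x ∈ P, g x = h x) ∧ (∀ x ∈ R, g x = x)

theorem straightP {k : ℕ} (hT : TRelT k (Men k)) {M : Type} [MetricSpace M] [CompactSpace M]
    (dM : PushOff k (univ : Set M)) : StraightP k M := by
  intro P T R V cP cT cR hcov mT zA zB hPRV e he
  obtain ⟨δ, hδ, H⟩ := straighten' (Men := Men k) (S := ∅) (V := V) (mth hT) dM cP cT cR hcov hPRV
    mT zA zB ZS.empty he
  refine ⟨δ, hδ, fun h hh hV => ?_⟩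
  obtain ⟨g, h1, h2, h3, -⟩ := H h hh hV fun x hx => hx.elim
  exact ⟨g, h1, h2, h3⟩

end Str

end Pool.Agent.Work.MP_017613_gt
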