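import Pool.Agent.Work.MP_017613_gt.RndBall
import Pool.Agent.Work.MP_017613_gt.ChartsP
import Pool.Agent.Work.MP_017613_gt.Nice3
import Pool.Agent.Work.MP_017613_gt.DigR
import Pool.Agent.Work.MP_017613_gt.StrInst

/-!
# Small homeomorphisms, by nice decompositions

`small_of_nice`: small homeomorphisms are in the group `H`, if `H` contains the homeomorphisms
supported in the open sets of a cover with nice decompositions. `small`: they are products of
homeomorphisms supported in round balls.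
-/

set_option linter.unusedSectionVars false

open Set Topology Metric

namespace Pool.Agent.Work.MP_017613_gt

namespace Small3

open Rnd Str
open Nice3 (Nice3 DigNice3 chart_nice3)

variable {k : ℕ} {M : Type} [MetricSpace M]

/-- small homeomorphisms are products of elements of `H` and of a small homeomorphism which is
the identity on a neighbourhood of `L` -/
def Good (H : Subgroup (M ≃ₜ M)) (L : Set M) : Prop :=
  ∃ E : Set M, L ⊆ interior E ∧ ∀ e > 0, ∃ δ > 0, ∀ h : M ≃ₜ M, (∀ x, dist (h x) x < δ) →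
    ∃ g ∈ H, ∃ f : M ≃ₜ M, h = g * f ∧ (∀ x, dist (f x) x < e) ∧ ∀ x ∈ E, f x = x

theorem good_empty (H : Subgroup (M ≃ₜ M)) : Good H ∅ :=
  ⟨∅, by simp, fun e he => ⟨e, he, fun h hh => ⟨1, H.one_mem, h, by simp, hh, by simp⟩⟩⟩

/-- the induction step -/
theorem good_step (hS : StraightP k M) {H : Subgroup (M ≃ₜ M)} {O K L : Set M}
    (hO : Nice3 k O) (hH : ∀ g : M ≃ₜ M, (∀ x, x ∉ O → g x = x) → g ∈ H) (cK : IsCompact K)
    (hKO : K ⊆ O) (cL : IsClosed L) (hL : Good H L) : Good H (K ∪ L) := by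
  obtain ⟨E, hLE, hE⟩ := hL
  obtain ⟨P, T, R, cP, cT, cR, hun, hPT, hKR, hKLT, hPR, mT, zP, zR⟩ :=
    hO K L (interior E) cK hKO cL isOpen_interior hLE
  have hcov : ∀ x : M, x ∉ T → x ∉ R → x ∈ P := fun x h1 h2 => by
    rcases hun.ge (mem_univ x) with (h | h) | h
    · exact h
    · exact (h1 h).elim
    · exact (h2 h).elim
  refine ⟨P ∪ (E ∩ R), ?_, fun e he => ?_⟩
  · rintro x (hx | hx)
    · refine mem_interior.2 ⟨Tᶜ ∩ Rᶜ, fun y hy => Or.inl (hcov y hy.1 hy.2),
        cT.isOpen_compl.inter cR.isOpen_compl, ?_, ?_⟩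
      · exact fun h => disjoint_left.1 hKLT (Or.inl hx) h
      · exact fun h => disjoint_left.1 hKR hx h
    · refine mem_interior.2 ⟨Tᶜ ∩ interior E, fun y hy => ?_,
        cT.isOpen_compl.inter isOpen_interior, ?_, hLE hx⟩
      · by_cases hyR : y ∈ R
        · exact Or.inr ⟨interior_subset hy.2, hyR⟩
        · exact Or.inl (hcov y hy.1 hyR)
      · exact fun h => disjoint_left.1 hKLT (Or.inr hx) h
  · obtain ⟨δ₁, hδ₁, h₁⟩ := hS P T R E cP cT cR hun mT zP zR hPR (e / 2) (half_pos he)
    obtain ⟨δ, hδ, h₂⟩ := hE (min δ₁ (e / 2)) (by positivity)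
    refine ⟨δ, hδ, fun h hh => ?_⟩
    obtain ⟨g, hg, f, hgf, hf, hfE⟩ := h₂ h hh
    obtain ⟨u, hu, huP, huR⟩ := h₁ f (fun x => (hf x).trans_le (min_le_left _ _)) hfE
    have huH : u ∈ H := hH u fun x hx => by
      rcases hun.ge (mem_univ x) with h | h
      · exact (hx (hPT h)).elim
      · exact huR x h
    refine ⟨g * u, H.mul_mem hg huH, u⁻¹ * f, by rw [hgf]; group, fun x => ?_, ?_⟩
    · have e1 : (u⁻¹ * f) x = u.symm (f x) := rfl
      have e2 := hu (u.symm (f x))
      rw [u.apply_symm_apply, dist_comm] at e2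
      have e3 := (hf x).trans_le (min_le_right _ _)
      rw [e1]
      linarith [dist_triangle (u.symm (f x)) (f x) x]
    · rintro x (hx | hx)
      · change u.symm (f x) = x
        rw [← huP x hx, u.symm_apply_apply]
      · change u.symm (f x) = x
        rw [hfE x hx.1]
        rw [u.symm_apply_eq, huR x hx.2]

/-- **Small homeomorphisms are in `H`**, if `H` contains the homeomorphisms supported in the open
sets of a cover with nice decompositions. -/
theorem small_of_nice [CompactSpace M] (hS : StraightP k M) {H : Subgroup (M ≃ₜ M)}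
    (hcov : ∀ x : M, ∃ O : Set M, IsOpen O ∧ x ∈ O ∧ Nice3 k O ∧
      ∀ g : M ≃ₜ M, (∀ x, x ∉ O → g x = x) → g ∈ H) :
    ∃ δ > 0, ∀ h : M ≃ₜ M, (∀ x, dist (h x) x < δ) → h ∈ H := by
  classical
  choose O hO hxO hN hH using hcov
  have hr : ∀ x : M, ∃ r > 0, closedBall x r ⊆ O x := fun x =>
    nhds_basis_closedBall.mem_iff.1 ((hO x).mem_nhds (hxO x))
  choose r hr hrO using hr
  obtain ⟨t, -, ht⟩ := isCompact_univ.elim_nhds_subcover (fun x => ball x (r x))
    (fun x _ => ball_mem_nhds x (hr x))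
  have key : ∀ s : Finset M, Good H (⋃ x ∈ s, closedBall x (r x)) := by
    intro s
    induction s using Finset.induction_on with
    | empty => simpa using good_empty H
    | insert a s _ ih =>
      rw [Finset.set_biUnion_insert]
      exact good_step hS (hN a) (hH a) isClosed_closedBall.isCompact (hrO a)
        (s.finite_toSet.isClosed_biUnion fun x _ => isClosed_closedBall) ih
  obtain ⟨E, hE, h⟩ := key t
  have hE' : ∀ x, x ∈ E := fun x => interior_subset (hE (by
    obtain ⟨i, hi, hx⟩ := mem_iUnion₂.1 (ht (mem_univ x))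
    exact mem_iUnion₂.2 ⟨i, hi, ball_subset_closedBall hx⟩))
  obtain ⟨δ, hδ, h⟩ := h 1 one_pos
  refine ⟨δ, hδ, fun f hf => ?_⟩
  obtain ⟨g, hg, u, hgu, -, hu⟩ := h f hf
  have : u = 1 := Homeomorph.ext fun x => hu x (hE' x)
  rw [hgu, this, mul_one]
  exact hg

/-- **Small homeomorphisms are products of homeomorphisms supported in round balls.** -/
theorem small (T : Pre k) (hT : TRelT k (Men k)) [CompactSpace M] (mM : Rnd.Men k M) :
    Unk.SmallP M (Hn k M) := by
  refine small_of_nice (straightP hT mM.dim) fun x => ?_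
  obtain ⟨P, hP, hPx, -⟩ := T.base mM x Filter.univ_mem
  have hC' : MG.Chart k (2 * k + 1) M := fun y => by
    obtain ⟨U, h1, h2, V, h3, h4⟩ := T.charts mM y
    exact ⟨U, V, h1, h2, h3, h4⟩
  obtain ⟨O, oO, hxO, hO⟩ := chart_nice3 (MG.digNice3 le_rfl) hC' x
  have oI : IsOpen (O ∩ interior P) := oO.inter isOpen_interior
  refine ⟨O ∩ interior P, oI, ⟨hxO, mem_interior_iff_mem_nhds.2 hPx⟩,
    hO _ inter_subset_left oI, fun g hg => ?_⟩
  exact Swindle.mem_Hgp hP fun y hy => hg y fun h => hy (interior_subset h.2)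

end Small3

end Pool.Agent.Work.MP_017613_gt
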