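import Pool.Agent.Work.MP_017613_gt.SmallJ
import Pool.Agent.Work.MP_017613_gt.ExDefs

/-!
# SMALL-STEP: one layer

`PV k M ρ K s e`: for all nice pieces `N` of `M` and fine maps `u : N → K` with `s u` `e`-close to
the identity, small homeomorphisms supported in `N` are products of homeomorphisms supported in
sets of diameter `≤ ρ`. `step`: `PV` for `K` implies `PV` for `K ∪` cells.
-/

set_option linter.unusedSectionVars false

open Set Topology Metric

namespace Pool.Agent.Work.MP_017613_gt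

namespace Sml

open Rnd (ZIn Hom)
open Loc (MenS)
open Chi Ex

/-- the claim which is proved by induction on the layers -/
def PV (k : ℕ) (M : Type) [MetricSpace M] (ρ : ℝ) {V : Type} [MetricSpace V] (K : Set V)
    (s : V → M) (e : ℝ) : Prop :=
  ∃ d > 0, ∀ (N : Set M) (u : M → V), MenS k N → ZIn (frontier N) N → MG.IsMap u N K →
    MG.L k u N K d → (∀ x ∈ N, dist (s (u x)) x < e) →
    ∃ δ > 0, ∀ h : M ≃ₜ M, (∀ x, x ∉ N → h x = x) → (∀ x, dist (h x) x < δ) → h ∈ SmallGen M ρ

/-- the inverse image of a Menger manifold -/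
theorem menS_preimage {k : ℕ} {α β : Type} [MetricSpace α] [MetricSpace β] {P : Set α}
    {P' : Set β} {f : α → β} (hf : Hom P P' f) (cP : IsCompact P) (h : MenS k P') : MenS k P := by
  obtain ⟨θ, -⟩ := hf.exists_homeo cP
  exact h.of_homeo θ.symm

/-- Menger manifolds have the extension property -/
theorem menS_ane {k : ℕ} {α : Type} [MetricSpace α] {P : Set α} (h : MenS k P) : ANE k P := by
  obtain ⟨hc, h⟩ := h
  exact (men_ane h).ofSubtype (isCompact_iff_compactSpace.2 hc)

/-- a collar of the wall inside `range J` -/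
theorem collar_in {k : ℕ} (hk : 1 ≤ k) (hCOL : J_COL) {D0 D' : Type} [MetricSpace D0]
    [CompactSpace D0] [MetricSpace D'] [CompactSpace D'] (mD0 : Men k D0) {J : D0 → D'}
    (cJ : Continuous J) (iJ : Function.Injective J) {P : Set D'} (cP : IsClosed P)
    (mA : MenS k (range J ∩ P)) (zJ : ZIn (range J ∩ P) (range J)) {σ : ℝ} (hσ : 0 < σ) :
    ∃ T R : Set D', IsClosed T ∧ IsClosed R ∧ T ∪ R = range J ∧ P ∩ R = ∅ ∧
      (∀ y ∈ T, ∃ b ∈ P, dist y b < σ) ∧ MenS k T ∧ MenS k (T ∩ R) ∧ ZIn (T ∩ R) T := by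
  classical
  rcases isEmpty_or_nonempty D0 with h0 | h0
  · have hr : range J = ∅ := range_eq_empty J
    have mE : MenS k (∅ : Set D') := by
      rw [hr, empty_inter] at mA
      exact mA
    refine ⟨∅, ∅, isClosed_empty, isClosed_empty, ?_, ?_, ?_, mE, ?_, ?_⟩
    · rw [hr, empty_union]
    · rw [inter_empty]
    · exact fun y hy => hy.elim
    · rw [inter_empty]; exact mE
    · rw [inter_empty]; exact ZIn.empty _
  have HJ : Hom univ (range J) J := ⟨cJ.continuousOn, iJ.injOn, image_univ⟩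
  obtain ⟨j, Hj, hjJ, hJj⟩ := HJ.exists_inv isCompact_univ univ_nonempty
  let A0 : Set D0 := J ⁻¹' P
  have hA0 : J '' A0 = range J ∩ P := by
    ext y
    constructor
    · rintro ⟨x, hx, rfl⟩; exact ⟨mem_range_self x, hx⟩
    · rintro ⟨⟨x, rfl⟩, hx⟩; exact ⟨x, hx, rfl⟩
  have cA0 : IsClosed A0 := cP.preimage cJ
  have mA0 : MenS k A0 := by
    have := HJ.sub (subset_univ A0)
    rw [hA0] at this
    exact menS_preimage this cA0.isCompact mA
  have zA0 : ZS A0 := by
    have h1 := ZIn.image Hj (isCompact_range cJ) zJ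
    have h2 : j '' (range J ∩ P) = A0 := by
      rw [← hA0]
      ext x
      constructor
      · rintro ⟨_, ⟨y, hy, rfl⟩, rfl⟩
        rw [hjJ y trivial]; exact hy
      · intro hx
        exact ⟨J x, mem_image_of_mem J hx, hjJ x trivial⟩
    rw [h2] at h1
    exact Rnd.zin_univ.1 h1
  obtain ⟨σ', hσ', Hσ⟩ : ∃ σ' > 0, ∀ x y : D0, dist x y < σ' → dist (J x) (J y) < σ := by
    have := CompactSpace.uniformContinuous_of_continuous cJ
    rw [Metric.uniformContinuous_iff] at this
    obtain ⟨σ', hσ', H⟩ := this σ hσ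
    exact ⟨σ', hσ', fun x y h => H h⟩
  obtain ⟨T, R, cT, cR, hAT, hTR, hAR, hT, mT, mTR, zTR⟩ := hCOL k hk D0 A0 mD0 mA0 zA0 σ' hσ'
  have HT : Hom T (J '' T) J := HJ.sub (subset_univ T)
  refine ⟨J '' T, J '' R, cT.isCompact.image cJ |>.isClosed, cR.isCompact.image cJ |>.isClosed,
    ?_, ?_, ?_, mT.image HT, ?_, ?_⟩
  · rw [← image_union, hTR, image_univ]
  · rw [← subset_empty_iff]
    rintro _ ⟨hP, x, hx, rfl⟩
    exact absurd (show x ∈ A0 ∩ R from ⟨hP, hx⟩) (by rw [hAR]; exact fun h => h)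
  · rintro _ ⟨x, hx, rfl⟩
    obtain ⟨a, ha, hxa⟩ := hT x hx
    exact ⟨J a, ha, Hσ x a hxa⟩
  · rw [← image_inter iJ]
    exact mTR.image (HJ.sub (subset_univ _))
  · rw [← image_inter iJ]
    exact ZIn.image HT cT.isCompact zTR

/-- **SMALL-STEP** -/
theorem step {k : ℕ} (hk : 1 ≤ k) (hST : J_STRAIGHT) (hCOL : J_COL) (hT : Str.TRelT k (Men k))
    {M V : Type} [MetricSpace M] [CompactSpace M] [MetricSpace V] [CompactSpace V]
    {K K' : Set V} {d m : ℕ} {χ : Fin m → (Fin d → ℝ) → V} (cK' : IsCompact K')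
    (aK' : ANE k K') {s : V → M} (cs : Continuous s) {t e η ρ : ℝ} (ht : 0 < t)
    (hχ : ∀ i, ∃ y, ∀ x ∈ MG.Cu d, dist (s (χ i x)) y < t) (hη : 2 * t < η)
    (hρ : 2 * (t + e) < ρ)
    (hEX : ∀ ε > 0, ∃ (D0 : Type) (_ : MetricSpace D0) (_ : CompactSpace D0) (l : D0 → V)
      (D' : Type) (_ : MetricSpace D') (_ : CompactSpace D') (J : D0 → D') (B : Fin m → Set D')
      (l' : D' → V) (r : V → V), Men k D0 ∧ Soft k univ K l ∧ ExOut k K K' χ l ε J B l' r ∧
        (K'.Nonempty → Nonempty D'))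
    (hP : PV k M ρ K s (e + η)) : PV k M ρ K' s e := by
  classical
  obtain ⟨dK, hdK, HK⟩ := hP
  obtain ⟨τ, hτ, hτ1, hτ2⟩ : ∃ τ > 0, 2 * t + 2 * τ ≤ η ∧ 2 * (t + e) + 4 * τ ≤ ρ := by
    refine ⟨min ((η - 2 * t) / 2) ((ρ - 2 * (t + e)) / 4), lt_min (by linarith) (by linarith), ?_,
      ?_⟩
    · have := min_le_left ((η - 2 * t) / 2) ((ρ - 2 * (t + e)) / 4); linarith
    · have := min_le_right ((η - 2 * t) / 2) ((ρ - 2 * (t + e)) / 4); linarith
  obtain ⟨ε', hε', Hs⟩ : ∃ ε' > 0, ∀ v w : V, dist v w < ε' → dist (s v) (s w) < τ := by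
    have := CompactSpace.uniformContinuous_of_continuous cs
    rw [Metric.uniformContinuous_iff] at this
    obtain ⟨σ, hσ, H⟩ := this τ hτ
    exact ⟨σ, hσ, fun x y h => H h⟩
  obtain ⟨D0, _, _, l, D', _, _, J, B, l', r, mD0, sl, hE, neD⟩ := hEX ε' hε'
  obtain ⟨dT, hdT, HT⟩ := Str.trel_set hT cK' aK' hε'
  set P : Set D' := ⋃ i, B i with hPdef
  have cP : IsClosed P := isClosed_iUnion_of_finite hE.closedB
  have cl' : Continuous l' := continuousOn_univ.1 hE.soft.1
  -- the distance of `s l' J` and `s l`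
  have near1 : ∀ x, dist (s (l' (J x))) (s (l x)) < 2 * t + τ := by
    intro x
    have h1 := hE.near x
    rcases hE.mapsJ x with hK | hc
    · rw [hE.coll.idK _ hK] at h1
      have := Hs _ _ h1
      linarith
    · obtain ⟨i, z, ⟨hz, hz2⟩, hzx⟩ := mem_iUnion.1 hc
      rw [← hzx, hE.coll.cell i z hz hz2] at h1
      rw [← hzx]
      obtain ⟨y, hy⟩ := hχ i
      have hz0 : 0 < MG.crad z := by linarith
      have h2 : MG.chom (1 / MG.crad z) z ∈ MG.Cu d := by
        rw [MG.mem_Cu_crad, MG.crad_chom (by positivity), one_div, inv_mul_cancel₀ hz0.ne']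
      have h3 := hy _ h2
      have h4 := hy _ hz
      have h5 := Hs _ _ h1
      have h6 := dist_triangle_right (s (χ i z)) (s (χ i (MG.chom (1 / MG.crad z) z))) y
      have h7 := dist_triangle (s (χ i z)) (s (χ i (MG.chom (1 / MG.crad z) z))) (s (l x))
      linarith
  -- neighbourhoods of the `B i`
  obtain ⟨r', hr', hsep, hmod⟩ : ∃ r' > 0, (∀ i j, i ≠ j → Disjoint (cthickening r' (B i))
      (cthickening r' (B j))) ∧ ∀ y b, dist y b ≤ r' → dist (s (l' y)) (s (l' b)) < τ := by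
    have h1 : ∀ p : Fin m × Fin m, ∃ δ > 0, p.1 ≠ p.2 → Disjoint (cthickening δ (B p.1))
        (cthickening δ (B p.2)) := by
      rintro ⟨i, j⟩
      by_cases h : i = j
      · exact ⟨1, one_pos, fun h' => (h' h).elim⟩
      · obtain ⟨δ, hδ, H⟩ := (hE.disjB i j h).exists_cthickenings (hE.closedB i).isCompact
          (hE.closedB j)
        exact ⟨δ, hδ, fun _ => H⟩
    choose δ hδ H using h1
    have h2 := CompactSpace.uniformContinuous_of_continuous (cs.comp cl')
    rw [Metric.uniformContinuous_iff] at h2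
    obtain ⟨σ, hσ, Hσ⟩ := h2 τ hτ
    obtain ⟨δ0, hδ0, Hδ0⟩ : ∃ δ0 > 0, ∀ p, δ0 ≤ δ p := by
      by_cases hm : Nonempty (Fin m × Fin m)
      · refine ⟨Finset.univ.inf' Finset.univ_nonempty δ, ?_, fun p =>
          Finset.inf'_le δ (Finset.mem_univ p)⟩
        rw [gt_iff_lt, Finset.lt_inf'_iff]
        exact fun p _ => hδ p
      · exact ⟨1, one_pos, fun p => (hm ⟨p⟩).elim⟩
    refine ⟨min δ0 (σ / 2), lt_min hδ0 (by positivity), fun i j hij => ?_, fun y b hyb => ?_⟩
    · exact (H (i, j) hij).mono (cthickening_mono ((min_le_left _ _).trans (Hδ0 (i, j))) _)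
        (cthickening_mono ((min_le_left _ _).trans (Hδ0 (i, j))) _)
    · refine Hσ ?_
      have := hyb.trans (min_le_right _ _)
      linarith
  obtain ⟨T, R, cT, cR, hTR, hPR, hTP, mT, mTR, zTR⟩ := collar_in hk hCOL mD0 hE.contJ hE.injJ
    cP hE.menA hE.zJ hr'
  have hPT : P ∩ T = range J ∩ P := by
    rw [← hTR]
    ext y
    constructor
    · rintro ⟨h1, h2⟩; exact ⟨Or.inl h2, h1⟩
    · rintro ⟨h2 | h2, h1⟩
      · exact ⟨h1, h2⟩
      · exact absurd (show y ∈ P ∩ R from ⟨h1, h2⟩) (by rw [hPR]; exact fun h => h)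
  have hcov : P ∪ T ∪ R = univ := by
    rw [union_assoc, hTR, union_comm]
    exact hE.cover
  -- the main argument
  refine ⟨dT, hdT, fun N u mN zN hu Lu hus => ?_⟩
  have cN : IsClosed N := mN.isClosed
  have kN : IsCompact N := mN.isCompact
  rcases N.eq_empty_or_nonempty with hN0 | hNe
  · refine ⟨1, one_pos, fun h hh _ => ?_⟩
    have : h = 1 := by
      ext x
      exact hh x (by rw [hN0]; exact fun h => h)
    rw [this]
    exact Subgroup.one_mem _
  obtain ⟨x0, hx0⟩ := hNe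
  have : Nonempty M := ⟨x0⟩
  have : Nonempty D' := neD ⟨u x0, hu.maps hx0⟩
  obtain ⟨θ, hθ, -, hθu⟩ := HT M D' N univ mN (Loc.menS_univ.2 hE.men) u l' hu
    ⟨hE.soft.1, hE.soft.2.1⟩ Lu (MG.L_of_soft hE.soft hdT) ∅ ∅ (ZIn.empty _) (ZIn.empty _)
    (fun _ => Classical.arbitrary D') ⟨continuousOn_empty _, injOn_empty _, image_empty _⟩
    fun x hx => hx.elim
  obtain ⟨θ', hθ', hθ'θ, hθθ'⟩ := hθ.exists_inv kN ⟨x0, hx0⟩
  -- uniform continuity of `θ` and `θ'`
  have ucθ : ∀ ε > 0, ∃ δ > 0, ∀ x ∈ N, ∀ y ∈ N, dist x y < δ → dist (θ x) (θ y) < ε := by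
    intro ε hε
    have := kN.uniformContinuousOn_of_continuous hθ.cont
    rw [Metric.uniformContinuousOn_iff] at this
    exact this ε hε
  have ucθ' : ∀ ε > 0, ∃ δ > 0, ∀ x y : D', dist x y < δ → dist (θ' x) (θ' y) < ε := by
    intro ε hε
    have := (isCompact_univ (X := D')).uniformContinuousOn_of_continuous hθ'.cont
    rw [Metric.uniformContinuousOn_iff] at this
    obtain ⟨δ, hδ, H⟩ := this ε hε
    exact ⟨δ, hδ, fun x y h => H x trivial y trivial h⟩
  have hθ'N : ∀ y, θ' y ∈ N := fun y => hθ'.maps (mem_univ y)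
  have hθθ'' : ∀ y, θ (θ' y) = y := fun y => hθθ' y trivial
  -- closeness
  have hsθ : ∀ x ∈ N, dist (s (l' (θ x))) x < τ + e := by
    intro x hx
    have h1 := Hs _ _ (hθu x hx)
    have h2 := hus x hx
    have := dist_triangle (s (l' (θ x))) (s (u x)) x
    linarith
  -- the pieces
  let C : Fin m → Set M := fun i => N ∩ θ ⁻¹' (cthickening r' (B i) ∩ (P ∪ T))
  have cC : ∀ i, IsClosed (C i) := fun i =>
    hθ.cont.preimage_isClosed_of_isClosed cN (isClosed_cthickening.inter (cP.union cT))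
  have dC : ∀ i j, i ≠ j → Disjoint (C i) (C j) := by
    intro i j hij
    rw [disjoint_left]
    rintro x ⟨-, hx, -⟩ ⟨-, hx', -⟩
    exact (disjoint_left.1 (hsep i j hij)) hx hx'
  have hC : ∀ i, ∀ x ∈ C i, ∀ y ∈ C i, dist x y ≤ ρ := by
    intro i
    obtain ⟨y0, hy0⟩ := hχ i
    have key : ∀ x ∈ C i, dist x y0 < t + e + 2 * τ := by
      rintro x ⟨hxN, hx, -⟩
      rw [(hE.closedB i).isCompact.cthickening_eq_biUnion_closedBall hr'.le] at hx
      obtain ⟨b, hb, hxb⟩ := mem_iUnion₂.1 hx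
      have h1 := hmod (θ x) b hxb
      obtain ⟨z, hz, hzb⟩ := hE.mapsB i b hb
      have h2 := hy0 z (MG.mem_Cu_crad.2 (by have : MG.crad z ≤ 1 / 2 := hz; linarith))
      rw [hzb] at h2
      have h3 := hsθ x hxN
      have h4 := dist_triangle_left x (s (l' b)) (s (l' (θ x)))
      have h5 := dist_triangle x (s (l' b)) y0
      linarith
    intro x hx y hy
    have h1 := key x hx
    have h2 := key y hy
    have := dist_triangle_right x y y0
    linarith
  obtain ⟨δs, hδs, HS⟩ := split cC dC hC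
  have hPTC : ∀ y ∈ P ∪ T, ∃ i, y ∈ cthickening r' (B i) := by
    rintro y (hy | hy)
    · obtain ⟨i, hi⟩ := mem_iUnion.1 hy
      exact ⟨i, self_subset_cthickening _ hi⟩
    · obtain ⟨b, hb, hyb⟩ := hTP y hy
      obtain ⟨i, hi⟩ := mem_iUnion.1 hb
      refine ⟨i, ?_⟩
      rw [(hE.closedB i).isCompact.cthickening_eq_biUnion_closedBall hr'.le]
      exact mem_iUnion₂.2 ⟨b, hi, hyb.le⟩
  -- the frontier of `N` in `D'`
  have hhfr : ∀ h : M ≃ₜ M, (∀ x, x ∉ N → h x = x) → ∀ x ∈ frontier N, h x = x := by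
    intro h hh x hx
    rw [frontier_eq_closure_inter_closure] at hx
    exact closure_minimal (fun y hy => hh y hy) (isClosed_eq h.continuous continuous_id) hx.2
  have zS : ZIn (θ '' frontier N) (univ : Set D') := ZIn.image hθ kN zN
  -- the induction hypothesis for `N1`
  let N1 : Set M := N ∩ θ ⁻¹' range J
  obtain ⟨δK, hδK, HK1⟩ : ∃ δK > 0, ∀ h : M ≃ₜ M, (∀ x, x ∉ N1 → h x = x) →
      (∀ x, dist (h x) x < δK) → h ∈ SmallGen M ρ := by
    rcases isEmpty_or_nonempty D0 with hD0 | hD0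
    · refine ⟨1, one_pos, fun h hh _ => ?_⟩
      have : h = 1 := by
        ext x
        refine hh x ?_
        rintro ⟨-, y, -⟩
        exact hD0.false y
      rw [this]
      exact Subgroup.one_mem _
    have HJ : Hom univ (range J) J := ⟨hE.contJ.continuousOn, hE.injJ.injOn, image_univ⟩
    obtain ⟨j, Hj, hjJ, hJj⟩ := HJ.exists_inv isCompact_univ univ_nonempty
    have hN1 : θ' '' range J = N1 := by
      ext x
      constructor
      · rintro ⟨y, hy, rfl⟩
        refine ⟨hθ'N y, ?_⟩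
        change θ (θ' y) ∈ range J
        rw [hθθ'']; exact hy
      · rintro ⟨hx, hx'⟩
        exact ⟨θ x, hx', hθ'θ x hx⟩
    have HN1 : Hom (range J) N1 θ' := by
      have := hθ'.sub (subset_univ (range J))
      rw [hN1] at this
      exact this
    have mN1 : MenS k N1 := hE.menJ.image HN1
    have cN1 : IsClosed N1 := mN1.isClosed
    have hsubN : N1 ⊆ N := inter_subset_left
    refine HK N1 (fun x => l (j (θ x))) mN1 ?_ ?_ ?_ ?_
    · -- the frontier is a Z-set
      have zz : ZIn ((θ '' frontier N ∩ range J) ∪ (range J ∩ P)) (range J) := by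
        refine zcut (isCompact_range hE.contJ) cP hE.zJ ?_
        rw [hE.cover]
        exact zS
      have zz' := ZIn.image HN1 (isCompact_range hE.contJ) zz
      refine zz'.mono isClosed_frontier ?_
      intro x hx
      have hxN1 : x ∈ N1 := by
        have := frontier_subset_closure hx
        rwa [cN1.closure_eq] at this
      by_cases hxf : x ∈ frontier N
      · exact ⟨θ x, Or.inl ⟨mem_image_of_mem θ hxf, hxN1.2⟩, hθ'θ x hxN1.1⟩
      · by_cases hxP : θ x ∈ P
        · exact ⟨θ x, Or.inr ⟨hxN1.2, hxP⟩, hθ'θ x hxN1.1⟩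
        · exfalso
          have hxi : x ∈ interior N := by
            rw [← self_sdiff_frontier]
            exact ⟨hxN1.1, hxf⟩
          have hop : IsOpen (interior N ∩ θ ⁻¹' Pᶜ) :=
            (hθ.cont.mono interior_subset).isOpen_inter_preimage isOpen_interior cP.isOpen_compl
          have hsub : interior N ∩ θ ⁻¹' Pᶜ ⊆ N1 := by
            rintro y ⟨hy1, hy2⟩
            refine ⟨interior_subset hy1, ?_⟩
            have : θ y ∈ range J ∪ P := by rw [hE.cover]; trivial
            exact this.resolve_right hy2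
          have : x ∈ interior N1 := mem_interior.2 ⟨_, hsub, hop, hxi, hxP⟩
          rw [frontier_eq_closure_inter_closure, closure_compl] at hx
          exact hx.2 this
    · refine ⟨sl.1.comp ((Hj.cont.comp (hθ.cont.mono hsubN) fun x hx => hx.2)) fun x hx => ?_,
        fun x hx => ?_⟩
      · trivial
      · exact sl.2.1 trivial
    · refine MG.L_of_soft (Soft.precomp (e := fun x => j (θ x)) (e' := fun y => θ' (J y)) sl
        (Hj.cont.comp (hθ.cont.mono hsubN) fun x hx => hx.2) (fun x hx => trivial)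
        (hθ'.cont.comp hE.contJ.continuousOn fun x hx => trivial) (fun y _ => ?_) (fun x hx => ?_)
        fun y _ => ?_) hdK
      · rw [← hN1]; exact mem_image_of_mem θ' (mem_range_self y)
      · rw [hJj _ hx.2]
        exact hθ'θ x hx.1
      · rw [hθθ'']
        exact hjJ y trivial
    · intro x hx
      obtain ⟨hxN, y, hy⟩ := hx
      have hjy : j (θ x) = y := by rw [← hy]; exact hjJ y trivial
      change dist (s (l (j (θ x)))) x < e + η
      rw [hjy]
      have h1 := near1 y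
      rw [hy] at h1
      have h2 := hsθ x hxN
      have := dist_triangle_left (s (l y)) x (s (l' (θ x)))
      linarith
  -- constants
  obtain ⟨e1, he1, He1⟩ := ucθ' (min δs (δK / 2)) (lt_min hδs (by positivity))
  have hStr := hST k hk D' P T R (θ '' frontier N) hE.men cP cT cR hcov hPR mT
    (by rw [hTR]; exact hE.menJ) (by rw [hPT]; exact menS_ane hE.menA) (menS_ane mTR)
    (by rw [hPT, hTR]; exact hE.zJ) zTR (Rnd.zin_univ.1 zS) e1 he1
  obtain ⟨δD, hδD, HD⟩ := hStr
  obtain ⟨δ2, hδ2, H2⟩ := ucθ δD hδD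
  refine ⟨min (δK / 2) δ2, lt_min (by positivity) hδ2, fun h hh hhs => ?_⟩
  obtain ⟨hN, hhN⟩ := exists_restr hh
  -- the homeomorphism `Θ : N ≃ D'`
  let Θ : N ≃ₜ D' :=
    { toFun := fun x => θ x
      invFun := fun y => ⟨θ' y, hθ'N y⟩
      left_inv := fun x => Subtype.ext (hθ'θ x x.2)
      right_inv := fun y => hθθ'' y
      continuous_toFun := by
        exact continuousOn_iff_continuous_domRestrict.1 hθ.cont
      continuous_invFun := (continuousOn_univ.1 hθ'.cont).subtype_mk _ }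
  have hΘ : ∀ x : N, Θ x = θ x := fun x => rfl
  have hΘ' : ∀ y, (Θ.symm y : M) = θ' y := fun y => rfl
  let hD : D' ≃ₜ D' := Θ.symm.trans (hN.trans Θ)
  have hhD : ∀ x : N, hD (θ x) = θ (h x) := by
    intro x
    change Θ (hN (Θ.symm (Θ x))) = θ (h x)
    rw [Θ.symm_apply_apply, hΘ, hhN]
  have hD1 : ∀ y, dist (hD y) y < δD := by
    intro y
    have h1 := hhD (Θ.symm y)
    rw [hΘ', hθθ''] at h1
    rw [h1]
    have h2 : dist (h (θ' y)) (θ' y) < δ2 := (hhs _).trans_le (min_le_right _ _)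
    have h3 := H2 _ ((mem_iff_of_off hh _).2 (hθ'N y)) _ (hθ'N y) h2
    rw [hθθ''] at h3
    exact h3
  have hD2 : ∀ y ∈ θ '' frontier N, hD y = y := by
    rintro _ ⟨x, hx, rfl⟩
    rw [hhD ⟨x, zN.2.1 hx⟩, hhfr h hh x hx]
  obtain ⟨gD, g1, g2, g3, g4⟩ := HD hD hD1 hD2
  let gN : N ≃ₜ N := Θ.trans (gD.trans Θ.symm)
  have hgN : ∀ x : N, (gN x : M) = θ' (gD (θ x)) := fun x => rfl
  obtain ⟨G, hG1, hG2⟩ := exists_extend cN gN fun x hx => by
    apply Subtype.ext
    rw [hgN, g4 _ (mem_image_of_mem θ hx)]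
    exact hθ'θ x x.2
  have hG1' : ∀ x ∈ N, G x = θ' (gD (θ x)) := fun x hx => hG1 ⟨x, hx⟩
  have hGs : ∀ x, dist (G x) x < min δs (δK / 2) := by
    intro x
    by_cases hx : x ∈ N
    · rw [hG1' x hx]
      have := He1 _ _ (g1 (θ x))
      rwa [hθ'θ x hx] at this
    · rw [hG2 x hx, dist_self]
      exact lt_min hδs (by positivity)
  have hGm : G ∈ SmallGen M ρ := by
    refine HS G (fun x => (hGs x).trans_le (min_le_left _ _)) fun x hx => ?_
    by_cases hxN : x ∈ N
    · have h1 : θ x ∉ P ∪ T := by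
        intro h2
        obtain ⟨i, hi⟩ := hPTC _ h2
        exact hx (mem_iUnion.2 ⟨i, hxN, hi, h2⟩)
      have h2 : θ x ∈ R := by
        have : θ x ∈ P ∪ T ∪ R := by rw [hcov]; trivial
        exact this.resolve_left h1
      rw [hG1' x hxN, g3 _ h2, hθ'θ x hxN]
    · exact hG2 x hxN
  have hrest : G⁻¹ * h ∈ SmallGen M ρ := by
    refine HK1 _ (fun x hx => ?_) fun x => ?_
    · rw [mul_apply']
      by_cases hxN : x ∈ N
      · have h1 : θ x ∈ P := by
          have h2 : θ x ∈ range J ∪ P := by rw [hE.cover]; trivial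
          exact h2.resolve_left fun h3 => hx ⟨hxN, h3⟩
        have h3 : G x = h x := by
          rw [hG1' x hxN, g2 _ h1, hhD ⟨x, hxN⟩]
          exact hθ'θ _ ((mem_iff_of_off hh _).2 hxN)
        rw [← h3, inv_apply_self']
      · rw [hh x hxN, inv_off hG2 x hxN]
    · rw [mul_apply']
      have h1 : dist (G⁻¹ (h x)) (h x) < δK / 2 := by
        have := (hGs (G⁻¹ (h x))).trans_le (min_le_right _ _)
        rw [apply_inv_self', dist_comm] at this
        exact this
      have h2 : dist (h x) x < δK / 2 := (hhs x).trans_le (min_le_left _ _)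
      have := dist_triangle (G⁻¹ (h x)) (h x) x
      linarith
  have : h = G * (G⁻¹ * h) := by group
  rw [this]
  exact Subgroup.mul_mem _ hGm hrest

end Sml

end Pool.Agent.Work.MP_017613_gt
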