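import Pool.Agent.Work.MP_017613_gt.PushOff

/-!
Extension of maps into spheres over `k`-dimensional compacta: a zero free map to `R^(k+1)`
(hence a map to the sphere) defined on a closed subset of a compact set with `PushOff k` extends to
the whole set, exactly.
-/

open Set Topology Metric

namespace Pool.Agent.Work.MP_017613_gt

variable {α β : Type*} [MetricSpace α] [MetricSpace β]

/-- Zero free maps to `R^(k+1)` extend over compacta of dimension at most `k`. -/
theorem PushOff.extend_ne {k : ℕ} {P A : Set α} (hP : PushOff k P) (cA : IsCompact A)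
    {f : α → (Fin (k + 1) → ℝ)} (hf : ContinuousOn f A) (h0 : ∀ x ∈ A, f x ≠ 0) :
    ∃ F : α → (Fin (k + 1) → ℝ), ContinuousOn F P ∧ (∀ x ∈ P, x ∈ A → F x = f x) ∧
      ∀ x ∈ P, F x ≠ 0 := by
  obtain ⟨F₀, cF, eF⟩ := tietze cA.isClosed hf
  obtain ⟨δ, hδ, hδ'⟩ := exists_norm_lower cA hf h0
  obtain ⟨g, cg, hg, g0⟩ := hP F₀ cF.continuousOn (δ / 2) (by positivity)
  set lam : α → ℝ := fun x => max 0 (min 1 ((‖F₀ x‖ - δ / 2) / (δ / 2))) with hlam
  have clam : Continuous lam := by
    refine continuous_const.max (continuous_const.min ?_)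
    exact (cF.norm.sub continuous_const).div_const _
  have lam0 : ∀ x, 0 ≤ lam x := fun x => le_max_left _ _
  have lam1 : ∀ x, lam x ≤ 1 := fun x => max_le zero_le_one (min_le_left _ _)
  refine ⟨fun x => g x + lam x • (F₀ x - g x), ?_, ?_, ?_⟩
  · exact cg.add (clam.continuousOn.smul (cF.continuousOn.sub cg))
  · intro x _ hxA
    have h1 : lam x = 1 := by
      have h2 : δ ≤ ‖F₀ x‖ := by rw [eF hxA]; exact hδ' x hxA
      have h3 : (1:ℝ) ≤ (‖F₀ x‖ - δ / 2) / (δ / 2) := by
        rw [le_div_iff₀ (by positivity)]; linarith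
      simp only [hlam]
      rw [min_eq_left h3, max_eq_right zero_le_one]
    show g x + lam x • (F₀ x - g x) = f x
    rw [h1, one_smul, eF hxA]
    abel
  · intro x hx h
    have h : g x + lam x • (F₀ x - g x) = 0 := h
    by_cases hl : lam x = 0
    · rw [hl, zero_smul, add_zero] at h
      exact g0 x hx h
    · have hpos : 0 < lam x := lt_of_le_of_ne (lam0 x) (Ne.symm hl)
      have h2 : δ / 2 < ‖F₀ x‖ := by
        by_contra hc
        push Not at hc
        apply hl
        simp only [hlam]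
        apply max_eq_left
        refine (min_le_right _ _).trans ?_
        apply div_nonpos_of_nonpos_of_nonneg <;> linarith
      have e : F₀ x = (1 - lam x) • (F₀ x - g x) := by
        have e1 : g x = -(lam x • (F₀ x - g x)) := eq_neg_of_add_eq_zero_left h
        have e2 : F₀ x = (F₀ x - g x) + g x := by abel
        rw [sub_smul, one_smul, sub_eq_add_neg, ← e1]
        exact e2
      have h3 : ‖F₀ x‖ ≤ ‖F₀ x - g x‖ := by
        rw [e, norm_smul]
        have : F₀ x - g x = F₀ x - g x := rfl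
        calc ‖1 - lam x‖ * ‖F₀ x - g x‖ ≤ 1 * ‖F₀ x - g x‖ := by
              gcongr
              rw [Real.norm_eq_abs, abs_le]
              constructor <;> linarith [lam0 x, lam1 x]
          _ = ‖(1 - lam x) • (F₀ x - g x) - g x‖ := by rw [one_mul, ← e]
      have h4 := hg x hx
      rw [dist_comm, dist_eq_norm] at h4
      linarith

/-- Maps to the unit sphere of a `(k+1)`-dimensional normed space extend over compacta of
dimension at most `k`. -/
theorem PushOff.extend_sphere {k : ℕ} {P A : Set α} (hP : PushOff k P) (cA : IsCompact A)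
    {E : Type*} [NormedAddCommGroup E] [NormedSpace ℝ E] (e : E ≃L[ℝ] (Fin (k + 1) → ℝ))
    {f : α → E} (hf : ContinuousOn f A) (h1 : ∀ x ∈ A, ‖f x‖ = 1) :
    ∃ F : α → E, ContinuousOn F P ∧ (∀ x ∈ P, x ∈ A → F x = f x) ∧ ∀ x ∈ P, ‖F x‖ = 1 := by
  obtain ⟨G, cG, eG, hG⟩ := hP.extend_ne cA (f := fun x => e (f x))
    (e.continuous.comp_continuousOn hf) (fun x hx h => by
      have h2 : f x = 0 := by simpa using h
      have := h1 x hx
      rw [h2, norm_zero] at this
      exact zero_ne_one this)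
  have hne : ∀ x ∈ P, e.symm (G x) ≠ 0 := fun x hx h => hG x hx (by simpa using h)
  have cG' : ContinuousOn (fun x => e.symm (G x)) P := e.symm.continuous.comp_continuousOn cG
  refine ⟨fun x => ‖e.symm (G x)‖⁻¹ • e.symm (G x), ?_, ?_, ?_⟩
  · exact (cG'.norm.inv₀ fun x hx => norm_ne_zero_iff.2 (hne x hx)).smul cG'
  · intro x hx hxA
    have : e.symm (G x) = f x := by rw [eG x hx hxA]; simp
    show ‖e.symm (G x)‖⁻¹ • e.symm (G x) = f x
    rw [this, h1 x hxA, inv_one, one_smul]
  · intro x hx
    show ‖‖e.symm (G x)‖⁻¹ • e.symm (G x)‖ = 1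
    rw [norm_smul, norm_inv, norm_norm, inv_mul_cancel₀ (norm_ne_zero_iff.2 (hne x hx))]

/-- The unit sphere of a `(k+1)`-dimensional space is `(k-1)`-connected: maps of closed subsets of
a compact subset of a space of dimension at most `k` extend (e.g. maps of the boundary of `I^i`,
`i ≤ k`). -/
theorem extend_sphere_of_finrank {k : ℕ} {F : Type*} [NormedAddCommGroup F] [NormedSpace ℝ F]
    [FiniteDimensional ℝ F] (hk : Module.finrank ℝ F ≤ k) {P A : Set F} (cP : IsCompact P)
    (cA : IsCompact A) {E : Type*} [NormedAddCommGroup E] [NormedSpace ℝ E]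
    (e : E ≃L[ℝ] (Fin (k + 1) → ℝ)) {f : F → E} (hf : ContinuousOn f A) (h1 : ∀ x ∈ A, ‖f x‖ = 1) :
    ∃ G : F → E, ContinuousOn G P ∧ (∀ x ∈ P, x ∈ A → G x = f x) ∧ ∀ x ∈ P, ‖G x‖ = 1 :=
  (pushOff_of_finrank hk cP).extend_sphere cA e hf h1

end Pool.Agent.Work.MP_017613_gt
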