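import Pool.Agent.Work.MP_017613_gt.TRelS

/-!
# Straightening: preliminaries

* `near_inter`: points of `A` close to `B` are close to `A ∩ B`.
* `retr`: neighbourhood retractions of compact sets of dimension at most `k` onto `ANE k` sets.
* `zloc`: the property of being a Z-set is local; `zin_of_near`: relative to a Z-set.
-/

open Set Topology Metric

namespace Pool.Agent.Work.MP_017613_gt

namespace Str

open Rnd Chi

variable {α β γ : Type} [MetricSpace α] [MetricSpace β] [MetricSpace γ]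

/-- points of `A` close to `B` are close to `A ∩ B` -/
theorem near_inter {A B : Set α} (cA : IsCompact A) (cB : IsClosed B) {e : ℝ} (he : 0 < e) :
    ∃ δ > 0, ∀ x ∈ A, ∀ y ∈ B, dist x y < δ → ∃ z ∈ A ∩ B, dist x z < e := by
  have hd : Disjoint (A \ thickening e (A ∩ B)) B := by
    rw [Set.disjoint_left]
    rintro x ⟨hxA, hx⟩ hxB
    exact hx (self_subset_thickening he _ ⟨hxA, hxB⟩)
  obtain ⟨δ, hδ, h⟩ := hd.exists_thickenings (cA.diff isOpen_thickening) cB
  refine ⟨δ, hδ, fun x hx y hy hxy => ?_⟩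
  by_contra hcon
  have hx' : x ∈ A \ thickening e (A ∩ B) := by
    refine ⟨hx, fun hm => hcon ?_⟩
    obtain ⟨z, hz, hxz⟩ := mem_thickening_iff.1 hm
    exact ⟨z, hz, hxz⟩
  refine Set.disjoint_left.1 h (mem_thickening_iff.2 ⟨x, hx', ?_⟩)
    (self_subset_thickening hδ _ hy)
  rw [dist_comm]
  exact hxy

/-- disjoint compact sets have positive distance -/
theorem far {A B : Set α} (cA : IsCompact A) (cB : IsClosed B) (h : A ∩ B = ∅) :
    ∃ δ > 0, ∀ x ∈ A, ∀ y ∈ B, δ ≤ dist x y := by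
  obtain ⟨δ, hδ, H⟩ := near_inter cA cB one_pos
  refine ⟨δ, hδ, fun x hx y hy => ?_⟩
  by_contra hcon
  obtain ⟨z, hz, -⟩ := H x hx y hy (not_le.1 hcon)
  rw [h] at hz
  exact hz.elim

/-- neighbourhood retractions -/
theorem retr {k : ℕ} {P A : Set α} (cP : IsCompact P) (dP : PushOff k P) (cA : IsClosed A)
    (aA : ANE k A) {ε : ℝ} (hε : 0 < ε) :
    ∃ δ > 0, ∀ P' : Set α, P' ⊆ P → IsClosed P' → (∀ x ∈ P', ∃ z ∈ A, dist x z < δ) →
      ∃ ρ : α → α, MG.IsMap ρ P' A ∧ (∀ x ∈ P', x ∈ A → ρ x = x) ∧ ∀ x ∈ P', dist (ρ x) x < ε := by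
  classical
  obtain ⟨δ₀, hδ₀, H⟩ := aA (ε / 2) (half_pos hε)
  refine ⟨min (δ₀ / 4) (ε / 2), by positivity, fun P' hP' cP' hn => ?_⟩
  have h4 : min (δ₀ / 4) (ε / 2) ≤ δ₀ / 4 := min_le_left _ _
  have h5 : min (δ₀ / 4) (ε / 2) ≤ ε / 2 := min_le_right _ _
  let h : α → α := fun x => if hx : x ∈ P' then (hn x hx).choose else x
  have hh : ∀ x (hx : x ∈ P'), h x ∈ A ∧ dist x (h x) < min (δ₀ / 4) (ε / 2) := fun x hx => by
    have e1 : h x = (hn x hx).choose := dif_pos hx
    rw [e1]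
    exact (hn x hx).choose_spec
  obtain ⟨a, ha, ham, hae, had⟩ := H α P' (A ∩ P')
    ⟨cP.of_isClosed_subset cP' hP', dP.mono (cP.of_isClosed_subset cP' hP') hP', cA.inter cP',
      inter_subset_right⟩ h (fun x hx => (hh x hx).1)
    ⟨δ₀ / 4, by positivity, fun x hx y hy hxy => by
      have h1 := (hh x hx).2
      have h2 := (hh y hy).2
      have h3 := dist_triangle4 (h x) x y (h y)
      rw [dist_comm (h x) x] at h3
      linarith⟩ (fun x => x) continuousOn_id (fun x hx => hx.1)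
    (fun x hx => by
      have h1 := (hh x hx.2).2
      linarith)
  refine ⟨a, ⟨ha, ham⟩, fun x hx hxA => hae ⟨hxA, hx⟩, fun x hx => ?_⟩
  have h1 := had x hx
  have h2 := (hh x hx).2
  have h3 := dist_triangle (a x) (h x) x
  rw [dist_comm (h x) x] at h3
  linarith

/-! ## Z-sets -/

theorem ZIn.union' {A B P : Set α} (cP : IsCompact P) (hA : ZIn A P) (hB : ZIn B P) :
    ZIn (A ∪ B) P := by
  have : CompactSpace P := isCompact_iff_compactSpace.1 cP
  refine zin_of_zs (hA.1.union hB.1) (union_subset hA.2.1 hB.2.1) ?_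
  rw [preimage_union]
  exact hA.zs.union hB.zs

/-- countable unions -/
theorem zin_of_seq {P : Set α} (cP : IsCompact P) {A : ℕ → Set α} (hA : ∀ n, ZIn (A n) P)
    {B : Set α} (hB : IsClosed B) (hBP : B ⊆ P) (hBA : B ⊆ ⋃ n, A n) : ZIn B P := by
  have : CompactSpace P := isCompact_iff_compactSpace.1 cP
  refine zin_of_zs hB hBP (ZS.of_seq (A := fun n => (↑) ⁻¹' (A n)) (fun n => (hA n).zs)
    (hB.preimage continuous_subtype_val) ?_)
  intro x hx
  obtain ⟨n, hn⟩ := mem_iUnion.1 (hBA hx)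
  exact mem_iUnion.2 ⟨n, hn⟩

/-- the property of being a Z-set is local -/
theorem zloc {k : ℕ} {D : Set α} (cD : IsCompact D) (dD : PushOff k D) (aD : ANE k D)
    {W : Set α} (cW : IsClosed W) (hWD : W ⊆ D)
    (h : ∀ x ∈ W, ∃ U N Z : Set α, IsOpen U ∧ x ∈ U ∧ D ∩ U = N ∩ U ∧ ZIn Z N ∧ W ∩ U ⊆ Z) :
    ZIn W D := by
  classical
  -- local statement
  have key : ∀ x ∈ W, ∃ r > 0, ZIn (W ∩ closedBall x r) D := by
    intro x hx
    obtain ⟨U, N, Z, hU, hxU, hDN, hZ, hWZ⟩ := h x hx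
    obtain ⟨r₀, hr₀, hball⟩ := Metric.isOpen_iff.1 hU x hxU
    obtain ⟨r, hr, hr4⟩ : ∃ r > 0, 4 * r = r₀ := ⟨r₀ / 4, by positivity, by ring⟩
    refine ⟨r, hr, cW.inter isClosed_closedBall, inter_subset_left.trans hWD, fun ε hε => ?_⟩
    obtain ⟨δ, hδ, H⟩ := aD (min ε r) (by positivity)
    obtain ⟨φ, hφc, hφm, hφd, hφZ⟩ := hZ.2.2 (min δ r) (by positivity)
    have hsub : D ∩ closedBall x (2 * r) ⊆ N := by
      rintro y ⟨hyD, hy⟩
      have hyU : y ∈ U := hball (by rw [mem_ball]; rw [mem_closedBall] at hy; linarith)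
      have : y ∈ D ∩ U := ⟨hyD, hyU⟩
      rw [hDN] at this
      exact this.1
    have hφD : ∀ y ∈ D ∩ closedBall x (2 * r), φ y ∈ D := by
      intro y hy
      have h1 := hφd y (hsub hy)
      have h2 : φ y ∈ U := hball (by
        rw [mem_ball]
        have h3 := hy.2
        rw [mem_closedBall] at h3
        have h4 := dist_triangle (φ y) y x
        have h5 : min δ r ≤ r := min_le_right _ _
        linarith)
      have : φ y ∈ N ∩ U := ⟨hφm (hsub hy), h2⟩
      rw [← hDN] at this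
      exact this.1
    have cl1 : IsClosed (D ∩ closedBall x (2 * r)) := cD.isClosed.inter isClosed_closedBall
    have cl2 : IsClosed (D \ ball x (3 * r)) := by
      rw [sdiff_eq]
      exact cD.isClosed.inter isOpen_ball.isClosed_compl
    obtain ⟨b, hb, hb1, hb2⟩ := MG.IsMap.glue cl1 cl2 (B := D) (f := φ) (g := fun y => y)
      ⟨hφc.mono hsub, hφD⟩ ⟨continuousOn_id, fun y hy => hy.1⟩ (fun y hy hy' => by
        exfalso
        have h1 := hy.2
        have h2 := hy'.2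
        rw [mem_closedBall] at h1
        rw [mem_ball] at h2
        linarith)
    obtain ⟨a, ha, ham, hae, had⟩ := H α D ((D ∩ closedBall x (2 * r)) ∪ (D \ ball x (3 * r)))
      ⟨cD, dD, cl1.union cl2, union_subset inter_subset_left sdiff_subset⟩ (fun y => y)
      (fun y hy => hy) ⟨δ, hδ, fun y _ z _ hyz => hyz⟩ b hb.cont hb.maps (by
        rintro y (hy | hy)
        · rw [hb1 hy]
          exact (hφd y (hsub hy)).trans_le (min_le_left _ _)
        · rw [hb2 hy, dist_self]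
          exact hδ)
    refine ⟨a, ha, ham, fun y hy => (had y hy).trans_le (min_le_left _ _), fun y hy hyK => ?_⟩
    have hyK2 := hyK.2
    rw [mem_closedBall] at hyK2
    by_cases hy2 : y ∈ closedBall x (2 * r)
    · have e1 : a y = φ y := by rw [hae (Or.inl ⟨hy, hy2⟩), hb1 ⟨hy, hy2⟩]
      rw [e1] at hyK hyK2
      refine hφZ y (hsub ⟨hy, hy2⟩) (hWZ ⟨hyK.1, hball ?_⟩)
      rw [mem_ball]
      linarith
    · apply hy2
      rw [mem_closedBall]
      have h1 := (had y hy).trans_le (min_le_right _ _)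
      have h2 := dist_triangle y (a y) x
      rw [dist_comm y (a y)] at h2
      linarith
  -- finite cover
  choose! r hr hz using key
  have cWc : IsCompact W := cD.of_isClosed_subset cW hWD
  obtain ⟨t, ht, hcov⟩ := cWc.elim_nhds_subcover (fun x => ball x (r x))
    (fun x hx => ball_mem_nhds x (hr x hx))
  have : CompactSpace D := isCompact_iff_compactSpace.1 cD
  refine zin_of_zs cW hWD ?_
  have hu := ZS.biUnion (M := D) t (A := fun x => (↑) ⁻¹' (W ∩ closedBall x (r x)))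
    (fun x hx => (hz x (ht x hx)).zs)
  refine hu.mono (cW.preimage continuous_subtype_val) fun y hy => ?_
  obtain ⟨x, hx⟩ := mem_iUnion.1 (hcov hy)
  obtain ⟨hxt, hyx⟩ := mem_iUnion.1 hx
  exact mem_iUnion.2 ⟨x, mem_iUnion.2 ⟨hxt, hy, ball_subset_closedBall hyx⟩⟩

/-- the same, relative to a Z-set -/
theorem zin_of_near {k : ℕ} {D : Set α} (cD : IsCompact D) (dD : PushOff k D) (aD : ANE k D)
    {Z₀ W : Set α} (hZ₀ : ZIn Z₀ D) (cW : IsClosed W) (hWD : W ⊆ D)
    (h : ∀ x ∈ W, x ∉ Z₀ →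
      ∃ U N Z : Set α, IsOpen U ∧ x ∈ U ∧ D ∩ U = N ∩ U ∧ ZIn Z N ∧ W ∩ U ⊆ Z) :
    ZIn W D := by
  have hW : ∀ n : ℕ, ZIn (W \ thickening (1 / ((n : ℝ) + 1)) Z₀) D := by
    intro n
    have hn : (0 : ℝ) < 1 / ((n : ℝ) + 1) := by positivity
    refine zloc cD dD aD ?_ (sdiff_subset.trans hWD) ?_
    · rw [sdiff_eq]
      exact cW.inter isOpen_thickening.isClosed_compl
    · rintro x ⟨hxW, hx⟩
      obtain ⟨U, N, Z, h1, h2, h3, h4, h5⟩ := h x hxW fun hxZ =>
        hx (self_subset_thickening hn _ hxZ)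
      exact ⟨U, N, Z, h1, h2, h3, h4, fun y hy => h5 ⟨hy.1.1, hy.2⟩⟩
  refine zin_of_seq cD (A := fun n => Nat.casesOn n Z₀ fun n =>
    W \ thickening (1 / ((n : ℝ) + 1)) Z₀) (fun n => ?_) cW hWD fun x hx => ?_
  · cases n with
    | zero => exact hZ₀
    | succ n => exact hW n
  · by_cases hxZ : x ∈ Z₀
    · exact mem_iUnion.2 ⟨0, hxZ⟩
    · obtain ⟨ε, hε, hball⟩ := Metric.isOpen_iff.1 hZ₀.1.isOpen_compl x hxZ
      obtain ⟨n, hn⟩ := exists_nat_one_div_lt hε
      refine mem_iUnion.2 ⟨n + 1, hx, fun hm => ?_⟩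
      obtain ⟨z, hz, hxz⟩ := mem_thickening_iff.1 hm
      exact hball (mem_ball.2 (by rw [dist_comm]; linarith)) hz

end Str

end Pool.Agent.Work.MP_017613_gt
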