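import Pool.Agent.Work.MP_017613_gt.StrInst
import Pool.Agent.Work.MP_017613_gt.ChiT

/-!
# T_REL in the form needed by the straightening

`trelT`: from the inputs of `ChiT` (the approximation property and fine complexes).
-/

open Set Topology Metric

namespace Pool.Agent.Work.MP_017613_gt

namespace Str

theorem trelT {k : ℕ} {Cx : ∀ (M : Type) [MetricSpace M] [CompactSpace M], Prop}
    (hS : ∀ (X : Type) [MetricSpace X] [CompactSpace X], MG.ULC k (univ : Set X) → ∀ ε > 0,
      ∃ d, TR.SP k (Men k) Cx X ε d)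
    (hR : ∀ (M : Type) [MetricSpace M] [CompactSpace M], MG.ULC k (univ : Set M) → ∀ e > 0,
      ∃ (R : Type) (_ : MetricSpace R) (_ : CompactSpace R), Cx R ∧ ∃ s : C(R, M), TR.Lft k s e)
    (hUlC : ∀ (M : Type) [MetricSpace M] [CompactSpace M], Cx M → MG.ULC k (univ : Set M)) :
    TRelT k (Men k) := fun X _ _ hX _ hε =>
  TR.t_rel (Mg := Men k) (Ul := fun M => MG.ULC k (univ : Set M)) (fun _ _ _ hM => hM.2.1) hUlC hS
    (fun M _ _ hM => hR M hM.2.1) X hX hε

end Str

end Pool.Agent.Work.MP_017613_gt
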