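import Pool.Agent.Work.MP_017613_gt.StrA
import Pool.Agent.Work.MP_017613_gt.Kit.LP

/-!
# Straightening

`straighten`: `Q = P ∪ T ∪ R` with `P`, `R` disjoint. A homeomorphism `h` close to the identity is
replaced by a homeomorphism `g` close to the identity with `g = h` on `P` and `g = id` on `R`.
-/

set_option linter.unusedSectionVars false

open Set Topology Metric

namespace Pool.Agent.Work.MP_017613_gt

namespace Str

open Rnd Chi

/-- the properties of Menger manifolds used for the straightening -/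
structure Mth (k : ℕ) (Men : ∀ (N : Type) [MetricSpace N] [CompactSpace N], Prop) : Prop where
  dim : ∀ (N : Type) [MetricSpace N] [CompactSpace N], Men N → PushOff k (univ : Set N)
  ane : ∀ (N : Type) [MetricSpace N] [CompactSpace N], Men N → ANE k (univ : Set N)
  homeo : ∀ (N N' : Type) [MetricSpace N] [CompactSpace N] [MetricSpace N'] [CompactSpace N'],
    (N ≃ₜ N') → Men N → Men N'
  loc : ∀ (Q : Type) [MetricSpace Q] (D : Set Q), IsCompact D →
    (∀ x ∈ D, ∃ U N : Set Q, IsOpen U ∧ x ∈ U ∧ D ∩ U = N ∩ U ∧ MenS Men N) → MenS Men D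
  trel : TRelT k Men

section

variable {k : ℕ} {Men : ∀ (N : Type) [MetricSpace N] [CompactSpace N], Prop}
variable {α β : Type} [MetricSpace α] [MetricSpace β]

theorem MenS.ane (hM : Mth k Men) {D : Set α} (h : MenS Men D) : ANE k D := by
  have cD := h.isCompact
  obtain ⟨i, h⟩ := h
  exact (hM.ane D h).ofSubtype cD

theorem MenS.hom (hM : Mth k Men) {D : Set α} {D' : Set β} {f : α → β} (h : MenS Men D)
    (hf : Hom D D' f) : MenS Men D' := by
  have cD := h.isCompact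
  have cD' := hf.isCompact cD
  obtain ⟨i, h⟩ := h
  have i' : CompactSpace D' := isCompact_iff_compactSpace.1 cD'
  obtain ⟨θ, -⟩ := hf.exists_homeo cD
  exact ⟨i', hM.homeo D D' θ h⟩

end

section

variable {k : ℕ} {Men : ∀ (N : Type) [MetricSpace N] [CompactSpace N], Prop}
variable {Q : Type} [MetricSpace Q] [CompactSpace Q] {P T R S : Set Q}

theorem hom_of_homeo (h : Q ≃ₜ Q) (A : Set Q) : Hom A (h '' A) h :=
  ⟨h.continuous.continuousOn, h.injective.injOn, rfl⟩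

/-- the control map of the moved collar -/
theorem exists_v (hT : ANE k (P ∩ T)) (dQ : PushOff k (univ : Set Q)) (cP : IsClosed P)
    (cT : IsClosed T) (cR : IsClosed R) (hPR : P ∩ R = ∅) {e : ℝ} (he : 0 < e) :
    ∃ δ > 0, ∀ h : Q ≃ₜ Q, (∀ x, dist (h x) x < δ) →
      ∃ v : Q → Q, MG.IsMap v ((P ∪ T) ∩ h '' (T ∪ R)) T ∧
        (∀ x ∈ (P ∪ T) ∩ h '' (T ∪ R), x ∈ T → v x = x) ∧
        ∀ x ∈ (P ∪ T) ∩ h '' (T ∪ R), dist (v x) x < e := by
  obtain ⟨δ₁, hδ₁, H₁⟩ := retr cP.isCompact (dQ.mono cP.isCompact (subset_univ _)) (cP.inter cT)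
    hT he
  obtain ⟨δ, hδ, H₂⟩ := near_inter cP.isCompact (cT.union cR) hδ₁
  refine ⟨δ, hδ, fun h hh => ?_⟩
  have cI : IsClosed (h '' (T ∪ R)) := h.isClosedMap _ (cT.union cR)
  obtain ⟨ρ, hρ, hρi, hρd⟩ := H₁ (P ∩ h '' (T ∪ R)) inter_subset_left (cP.inter cI) (by
    rintro x ⟨hxP, y, hy, rfl⟩
    obtain ⟨z, hz, hxz⟩ := H₂ _ hxP y hy (hh y)
    rcases hz.2 with h1 | h1
    · exact ⟨z, ⟨hz.1, h1⟩, hxz⟩
    · have : z ∈ P ∩ R := ⟨hz.1, h1⟩
      rw [hPR] at this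
      exact this.elim)
  obtain ⟨v, hv, hv1, hv2⟩ := MG.IsMap.glue (cT.inter cI) (cP.inter cI) (B := T) (f := fun x => x)
    (g := ρ) ⟨continuousOn_id, fun x hx => hx.1⟩ (hρ.right inter_subset_right) (fun x hx hx' =>
      (hρi x hx' ⟨hx'.1, hx.1⟩).symm)
  have hsub : (P ∪ T) ∩ h '' (T ∪ R) ⊆ (T ∩ h '' (T ∪ R)) ∪ (P ∩ h '' (T ∪ R)) := by
    rintro x ⟨hx | hx, hxI⟩
    · exact Or.inr ⟨hx, hxI⟩
    · exact Or.inl ⟨hx, hxI⟩
  refine ⟨v, hv.left hsub, fun x hx hxT => hv1 ⟨hxT, hx.2⟩, fun x hx => ?_⟩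
  rcases hsub hx with h1 | h1
  · rw [hv1 h1, dist_self]
    exact he
  · rw [hv2 h1]
    exact hρd x h1

/-- the lifting property of the control map -/
theorem exists_L (hQ' : ANE k (T ∪ R)) (hB : ANE k (T ∩ R)) (dQ : PushOff k (univ : Set Q))
    (cP : IsClosed P) (cT : IsClosed T) (cR : IsClosed R) (hcov : P ∪ T ∪ R = univ)
    (hPR : P ∩ R = ∅) {d : ℝ} (hd : 0 < d) :
    ∃ δ > 0, ∀ h : Q ≃ₜ Q, (∀ x, dist (h x) x < δ) → ∀ v : Q → Q,
      (∀ x ∈ (P ∪ T) ∩ h '' (T ∪ R), dist (v x) x < δ) →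
      MG.L k v ((P ∪ T) ∩ h '' (T ∪ R)) T d := by
  -- retraction onto `T ∩ R`
  obtain ⟨δ₁, hδ₁, H₁⟩ := retr cR.isCompact (dQ.mono cR.isCompact (subset_univ _)) (cT.inter cR)
    hB (show (0 : ℝ) < d / 4 by positivity)
  obtain ⟨δ₂, hδ₂, H₂⟩ := near_inter cR.isCompact cT hδ₁
  obtain ⟨δ₃, hδ₃, H₃⟩ := far cP.isCompact cR hPR
  obtain ⟨δ₄, hδ₄, H₄⟩ := hQ' (min (d / 4) (δ₂ / 4)) (by positivity)
  refine ⟨min (min (d / 4) (δ₂ / 4)) (min δ₃ (δ₄ / 4)), by positivity, fun h hh v hv => ?_⟩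
  have b1 : min (min (d / 4) (δ₂ / 4)) (min δ₃ (δ₄ / 4)) ≤ d / 4 :=
    (min_le_left _ _).trans (min_le_left _ _)
  have b2 : min (min (d / 4) (δ₂ / 4)) (min δ₃ (δ₄ / 4)) ≤ δ₂ / 4 :=
    (min_le_left _ _).trans (min_le_right _ _)
  have b3 : min (min (d / 4) (δ₂ / 4)) (min δ₃ (δ₄ / 4)) ≤ δ₃ :=
    (min_le_right _ _).trans (min_le_left _ _)
  have b4 : min (min (d / 4) (δ₂ / 4)) (min δ₃ (δ₄ / 4)) ≤ δ₄ / 4 :=
    (min_le_right _ _).trans (min_le_right _ _)
  set δ := min (min (d / 4) (δ₂ / 4)) (min δ₃ (δ₄ / 4)) with hδdef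
  have hδ : 0 < δ := by positivity
  -- the retraction
  have cP2 : IsClosed (R ∩ cthickening (δ₂ / 2) T) := cR.inter isClosed_cthickening
  obtain ⟨ρ, hρ, hρi, hρd⟩ := H₁ (R ∩ cthickening (δ₂ / 2) T) inter_subset_left cP2 (by
    rintro x ⟨hxR, hx⟩
    rw [cT.isCompact.cthickening_eq_biUnion_closedBall (by positivity)] at hx
    obtain ⟨y, hx⟩ := mem_iUnion.1 hx
    obtain ⟨hy, hxy⟩ := mem_iUnion.1 hx
    rw [mem_closedBall] at hxy
    obtain ⟨z, hz, hxz⟩ := H₂ x hxR y hy (by linarith)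
    exact ⟨z, ⟨hz.2, hz.1⟩, hxz⟩)
  have hBT' : ∀ x ∈ T ∩ R, x ∈ (P ∪ T) ∩ h '' (T ∪ R) := by
    rintro x ⟨hxT, hxR⟩
    refine ⟨Or.inr hxT, h.symm x, ?_, h.apply_symm_apply x⟩
    have h1 : h.symm x ∈ P ∪ T ∪ R := by rw [hcov]; trivial
    rcases h1 with (h1 | h1) | h1
    · exfalso
      have h2 := H₃ _ h1 x hxR
      have h3 := hh (h.symm x)
      rw [h.apply_symm_apply, dist_comm] at h3
      linarith
    · exact Or.inl h1
    · exact Or.inr h1
  -- the lifting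
  intro j hj f f0 hf hf0 h0
  have hsymm : ∀ x, dist (h.symm x) x < δ := fun x => by
    have := hh (h.symm x)
    rwa [h.apply_symm_apply, dist_comm] at this
  obtain ⟨a, ha, ham, hae, had⟩ := H₄ (Fin j → ℝ) (MG.Cu j) (MG.dCu j)
    ⟨MG.isCompact_Cu j, MG.pushOff_Cu hj, MG.isClosed_dCu j, MG.dCu_subset j⟩ f
    (fun x hx => Or.inl (hf.maps hx))
    (by
      obtain ⟨r, hr, hfr⟩ := MG.unif (MG.isCompact_Cu j) hf.cont hδ₄
      exact ⟨r, hr, hfr⟩)
    (fun x => h.symm (f0 x)) (h.symm.continuous.comp_continuousOn hf0.cont)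
    (fun x hx => by
      obtain ⟨y, hy, hxy⟩ := (hf0.maps hx).2
      change h.symm (f0 x) ∈ T ∪ R
      rw [← hxy, h.symm_apply_apply]
      exact hy)
    (fun x hx => by
      have h1 := hsymm (f0 x)
      have h2 := hv _ (hf0.maps hx)
      rw [h0 x hx, dist_comm] at h2
      have h3 := dist_triangle (h.symm (f0 x)) (f0 x) (f x)
      linarith)
  have b5 : min (d / 4) (δ₂ / 4) ≤ d / 4 := min_le_left _ _
  have b6 : min (d / 4) (δ₂ / 4) ≤ δ₂ / 4 := min_le_right _ _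
  have hF1d : ∀ x ∈ MG.Cu j, dist (h (a x)) (f x) < δ + min (d / 4) (δ₂ / 4) := fun x hx => by
    have h1 := hh (a x)
    have h2 := had x hx
    linarith [dist_triangle (h (a x)) (a x) (f x)]
  have hF1c : ContinuousOn (fun x => h (a x)) (MG.Cu j) := h.continuous.comp_continuousOn ha
  -- the two closed parts of the cube
  have hcl : ∀ C : Set Q, IsClosed C → IsClosed (MG.Cu j ∩ (fun x => h (a x)) ⁻¹' C) :=
    fun C hC => hF1c.preimage_isClosed_of_isClosed (MG.isClosed_Cu j) hC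
  have hR1 : ∀ x ∈ MG.Cu j ∩ (fun x => h (a x)) ⁻¹' R, h (a x) ∈ R ∩ cthickening (δ₂ / 2) T := by
    rintro x ⟨hx, hxR⟩
    refine ⟨hxR, mem_cthickening_of_dist_le _ (f x) _ _ (hf.maps hx) ?_⟩
    have := hF1d x hx
    linarith
  obtain ⟨F, hF, hFe1, hFe2⟩ := MG.IsMap.glue (hcl (P ∪ T) (cP.union cT)) (hcl R cR)
    (B := (P ∪ T) ∩ h '' (T ∪ R)) (f := fun x => h (a x)) (g := fun x => ρ (h (a x)))
    ⟨hF1c.mono inter_subset_left, fun x hx => ⟨hx.2, mem_image_of_mem _ (ham hx.1)⟩⟩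
    ⟨hρ.cont.comp (hF1c.mono inter_subset_left) hR1, fun x hx => hBT' _ (hρ.maps (hR1 x hx))⟩
    (fun x hx hx' => by
      refine (hρi _ (hR1 x hx') ?_).symm
      rcases hx.2 with h1 | h1
      · exfalso
        have : h (a x) ∈ P ∩ R := ⟨h1, hx'.2⟩
        rw [hPR] at this
        exact this.elim
      · exact ⟨h1, hx'.2⟩)
  have hCu : MG.Cu j ⊆ (MG.Cu j ∩ (fun x => h (a x)) ⁻¹' (P ∪ T)) ∪
      (MG.Cu j ∩ (fun x => h (a x)) ⁻¹' R) := by
    intro x hx
    have h1 : h (a x) ∈ P ∪ T ∪ R := by rw [hcov]; trivial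
    rcases h1 with h1 | h1
    · exact Or.inl ⟨hx, h1⟩
    · exact Or.inr ⟨hx, h1⟩
  refine ⟨F, hF.left hCu, fun x hx => ?_, fun x hx => ?_⟩
  · have hx' : x ∈ MG.Cu j := MG.dCu_subset j hx
    have e1 : h (a x) = f0 x := by rw [hae hx, h.apply_symm_apply]
    have h2 : x ∈ MG.Cu j ∩ (fun x => h (a x)) ⁻¹' (P ∪ T) := by
      refine ⟨hx', ?_⟩
      change h (a x) ∈ P ∪ T
      rw [e1]
      exact (hf0.maps hx).1
    rw [hFe1 h2]
    exact e1
  · have h1 : dist (F x) (h (a x)) < d / 4 := by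
      rcases hCu hx with h2 | h2
      · rw [hFe1 h2, dist_self]
        positivity
      · rw [hFe2 h2]
        exact hρd _ (hR1 x h2)
    have h2 := hF1d x hx
    have h3 := hv (F x) (hF.maps (hCu hx))
    have h4 := dist_triangle4 (v (F x)) (F x) (h (a x)) (f x)
    linarith

/-- **Straightening.** -/
theorem straighten (hM : Mth k Men) (dQ : PushOff k (univ : Set Q)) (cP : IsClosed P)
    (cT : IsClosed T) (cR : IsClosed R) (hcov : P ∪ T ∪ R = univ) (hPR : P ∩ R = ∅)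
    (mT : MenS Men T) (mQ' : MenS Men (T ∪ R)) (aA : ANE k (P ∩ T)) (aB : ANE k (T ∩ R))
    (zA : ZIn (P ∩ T) (T ∪ R)) (zB : ZIn (T ∩ R) T) (zS : ZS S) {e : ℝ} (he : 0 < e) :
    ∃ δ > 0, ∀ h : Q ≃ₜ Q, (∀ x, dist (h x) x < δ) → (∀ x ∈ S, h x = x) →
      ∃ g : Q ≃ₜ Q, (∀ x, dist (g x) x < e) ∧ (∀ x ∈ P, g x = h x) ∧ (∀ x ∈ R, g x = x) ∧
        ∀ x ∈ S, g x = x := by
  classical
  rcases isEmpty_or_nonempty Q with hE | hN
  · exact ⟨1, one_pos, fun h _ _ => ⟨h, fun x => (hE.false x).elim, fun x _ => rfl,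
      fun x _ => (hE.false x).elim, fun x _ => (hE.false x).elim⟩⟩
  have aT : ANE k T := mT.ane hM
  obtain ⟨d, hd, HT⟩ := trel_set hM.trel cT.isCompact aT (show (0 : ℝ) < e / 2 by positivity)
  obtain ⟨δ₁, hδ₁, HL⟩ := exists_L (mQ'.ane hM) aB dQ cP cT cR hcov hPR hd
  obtain ⟨δ₂, hδ₂, Hv⟩ := exists_v aA dQ cP cT cR hPR
    (show 0 < min (min δ₁ (d / 2)) (e / 2) by positivity)
  obtain ⟨δ₃, hδ₃, Hf⟩ := far cP.isCompact cR hPR
  refine ⟨min (min δ₁ δ₂) (min δ₃ (min (d / 2) e)), by positivity, fun h hh hS => ?_⟩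
  have b1 : min (min δ₁ δ₂) (min δ₃ (min (d / 2) e)) ≤ δ₁ :=
    (min_le_left _ _).trans (min_le_left _ _)
  have b2 : min (min δ₁ δ₂) (min δ₃ (min (d / 2) e)) ≤ δ₂ :=
    (min_le_left _ _).trans (min_le_right _ _)
  have b3 : min (min δ₁ δ₂) (min δ₃ (min (d / 2) e)) ≤ δ₃ :=
    (min_le_right _ _).trans (min_le_left _ _)
  have b4 : min (min δ₁ δ₂) (min δ₃ (min (d / 2) e)) ≤ d / 2 :=
    (min_le_right _ _).trans ((min_le_right _ _).trans (min_le_left _ _))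
  have b5 : min (min δ₁ δ₂) (min δ₃ (min (d / 2) e)) ≤ e :=
    (min_le_right _ _).trans ((min_le_right _ _).trans (min_le_right _ _))
  obtain ⟨v, hv, hvi, hvd⟩ := Hv h fun x => (hh x).trans_le b2
  have hvd1 : ∀ x ∈ (P ∪ T) ∩ h '' (T ∪ R), dist (v x) x < δ₁ := fun x hx =>
    (hvd x hx).trans_le ((min_le_left _ _).trans (min_le_left _ _))
  have hvd2 : ∀ x ∈ (P ∪ T) ∩ h '' (T ∪ R), dist (v x) x < d / 2 := fun x hx =>
    (hvd x hx).trans_le ((min_le_left _ _).trans (min_le_right _ _))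
  have hvd3 : ∀ x ∈ (P ∪ T) ∩ h '' (T ∪ R), dist (v x) x < e / 2 := fun x hx =>
    (hvd x hx).trans_le (min_le_right _ _)
  have hLv := HL h (fun x => (hh x).trans_le b1) v hvd1
  -- positions
  have hPhR : ∀ x ∈ h '' P, x ∉ R := by
    rintro _ ⟨y, hy, rfl⟩ hxR
    have h1 := Hf y hy _ hxR
    have h2 := hh y
    rw [dist_comm] at h2
    linarith
  have hcovx : ∀ x : Q, x ∈ P ∨ x ∈ T ∨ x ∈ R := fun x => by
    have h1 : x ∈ P ∪ T ∪ R := by rw [hcov]; trivial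
    rcases h1 with (h1 | h1) | h1
    · exact Or.inl h1
    · exact Or.inr (Or.inl h1)
    · exact Or.inr (Or.inr h1)
  have hcovh : ∀ x : Q, x ∈ h '' P ∨ x ∈ h '' (T ∪ R) := fun x => by
    rcases hcovx (h.symm x) with h1 | h1 | h1
    · exact Or.inl ⟨_, h1, h.apply_symm_apply x⟩
    · exact Or.inr ⟨_, Or.inl h1, h.apply_symm_apply x⟩
    · exact Or.inr ⟨_, Or.inr h1, h.apply_symm_apply x⟩
  have hPR' : ∀ x ∈ P, x ∉ R := fun x hx hx' => by
    have : x ∈ P ∩ R := ⟨hx, hx'⟩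
    rw [hPR] at this
    exact this.elim
  have hAe : ∀ x ∈ h '' P, x ∈ h '' (T ∪ R) → x ∈ h '' (P ∩ T) := by
    rintro x ⟨y, hy, rfl⟩ ⟨z, hz, hzy⟩
    have : z = y := h.injective hzy
    subst this
    rcases hz with h1 | h1
    · exact ⟨z, ⟨hy, h1⟩, rfl⟩
    · exact (hPR' z hy h1).elim
  have cI : IsClosed (h '' (T ∪ R)) := h.isClosedMap _ (cT.union cR)
  have cJ : IsClosed (h '' P) := h.isClosedMap _ cP
  have cA' : IsClosed (h '' (P ∩ T)) := h.isClosedMap _ (cP.inter cT)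
  set T' : Set Q := (P ∪ T) ∩ h '' (T ∪ R) with hT'def
  have cT' : IsClosed T' := (cP.union cT).inter cI
  -- local structure of `T'`
  have loc1 : T' ∩ (P ∪ h '' P)ᶜ = T ∩ (P ∪ h '' P)ᶜ := by
    ext x
    constructor
    · rintro ⟨⟨h1 | h1, -⟩, hx⟩
      · exact (hx (Or.inl h1)).elim
      · exact ⟨h1, hx⟩
    · rintro ⟨h1, hx⟩
      exact ⟨⟨Or.inr h1, (hcovh x).resolve_left fun h2 => hx (Or.inr h2)⟩, hx⟩
  have loc2 : T' ∩ Rᶜ = h '' (T ∪ R) ∩ Rᶜ := by
    ext x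
    constructor
    · rintro ⟨⟨-, h1⟩, hx⟩
      exact ⟨h1, hx⟩
    · rintro ⟨h1, hx⟩
      refine ⟨⟨?_, h1⟩, hx⟩
      rcases hcovx x with h2 | h2 | h2
      · exact Or.inl h2
      · exact Or.inr h2
      · exact (hx h2).elim
  have op1 : IsOpen (P ∪ h '' P)ᶜ := (cP.union cJ).isOpen_compl
  have op2 : IsOpen Rᶜ := cR.isOpen_compl
  have mem1 : ∀ x ∈ R, x ∈ (P ∪ h '' P)ᶜ := by
    rintro x hx (h1 | h1)
    · exact hPR' x h1 hx
    · exact hPhR x h1 hx
  have mhQ' : MenS Men (h '' (T ∪ R)) := mQ'.hom hM (hom_of_homeo h _)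
  have mT' : MenS Men T' := by
    refine hM.loc Q T' cT'.isCompact fun x hx => ?_
    by_cases hxR : x ∈ R
    · exact ⟨_, T, op1, mem1 x hxR, loc1, mT⟩
    · exact ⟨_, _, op2, hxR, loc2, mhQ'⟩
  have aT' : ANE k T' := mT'.ane hM
  have dT' : PushOff k T' := dQ.mono cT'.isCompact (subset_univ _)
  have dT : PushOff k T := dQ.mono cT.isCompact (subset_univ _)
  have hBT' : T ∩ R ⊆ T' := fun x hx => by
    have : x ∈ T ∩ (P ∪ h '' P)ᶜ := ⟨hx.1, mem1 x hx.2⟩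
    rw [← loc1] at this
    exact this.1
  have hAT' : h '' (P ∩ T) ⊆ T' := by
    rintro x hx
    have h1 : x ∈ h '' P := image_mono inter_subset_left hx
    have h2 : x ∈ h '' (T ∪ R) := image_mono (inter_subset_right.trans subset_union_left) hx
    have : x ∈ h '' (T ∪ R) ∩ Rᶜ := ⟨h2, hPhR x h1⟩
    rw [← loc2] at this
    exact this.1
  have hST' : S ∩ T ⊆ T' := by
    rintro x ⟨hxS, hxT⟩
    exact ⟨Or.inr hxT, x, Or.inl hxT, hS x hxS⟩
  -- Z-sets
  have zAh : ZIn (h '' (P ∩ T)) (h '' (T ∪ R)) :=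
    ZIn.image (hom_of_homeo h _) (cT.union cR).isCompact zA
  have zS' : ZIn S univ := zin_univ.2 zS
  have z0' : ZIn (h '' (P ∩ T) ∪ (T ∩ R)) T' := by
    refine zloc cT'.isCompact dT' aT' (cA'.union (cT.inter cR)) (union_subset hAT' hBT')
      fun x hx => ?_
    by_cases hxR : x ∈ R
    · refine ⟨_, T, T ∩ R, op1, mem1 x hxR, loc1, zB, ?_⟩
      rintro y ⟨h1 | h1, hy⟩
      · exact (hy (Or.inr (image_mono inter_subset_left h1))).elim
      · exact h1
    · refine ⟨_, _, _, op2, hxR, loc2, zAh, ?_⟩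
      rintro y ⟨h1 | h1, hy⟩
      · exact h1
      · exact (hy h1.2).elim
  have zW' : ZIn (h '' (P ∩ T) ∪ ((S ∩ T) ∪ (T ∩ R))) T' := by
    refine zin_of_near cT'.isCompact dT' aT' z0'
      (cA'.union ((zS.1.inter cT).union (cT.inter cR)))
      (union_subset hAT' (union_subset hST' hBT')) fun x hx hx0 => ?_
    have hxST : x ∈ S ∩ T := by
      rcases hx with h1 | h1 | h1
      · exact (hx0 (Or.inl h1)).elim
      · exact h1
      · exact (hx0 (Or.inr h1)).elim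
    have hxR : x ∉ R := fun h1 => hx0 (Or.inr ⟨hxST.2, h1⟩)
    have hxJ : x ∉ h '' P := fun h1 => hx0 (Or.inl (hAe x h1 (hST' hxST).2))
    refine ⟨(R ∪ h '' P)ᶜ, univ, S, (cR.union cJ).isOpen_compl, fun h1 => ?_, ?_, zS', ?_⟩
    · rcases h1 with h1 | h1
      · exact hxR h1
      · exact hxJ h1
    · ext y
      constructor
      · rintro ⟨-, hy⟩
        exact ⟨trivial, hy⟩
      · rintro ⟨-, hy⟩
        refine ⟨⟨?_, (hcovh y).resolve_left fun h2 => hy (Or.inr h2)⟩, hy⟩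
        rcases hcovx y with h2 | h2 | h2
        · exact Or.inl h2
        · exact Or.inr h2
        · exact (hy (Or.inl h2)).elim
    · rintro y ⟨h1 | h1 | h1, hy⟩
      · exact (hy (Or.inr (image_mono inter_subset_left h1))).elim
      · exact h1.1
      · exact (hy (Or.inl h1.2)).elim
  have z0 : ZIn ((P ∩ T) ∪ (T ∩ R)) T := by
    refine zloc cT.isCompact dT aT ((cP.inter cT).union (cT.inter cR))
      (union_subset inter_subset_right inter_subset_left) fun x hx => ?_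
    by_cases hxR : x ∈ R
    · refine ⟨Pᶜ, T, T ∩ R, cP.isOpen_compl, fun h1 => hPR' x h1 hxR, rfl, zB, ?_⟩
      rintro y ⟨h1 | h1, hy⟩
      · exact (hy h1.1).elim
      · exact h1
    · refine ⟨Rᶜ, T ∪ R, P ∩ T, op2, hxR, ?_, zA, ?_⟩
      · ext y
        constructor
        · rintro ⟨h1, hy⟩
          exact ⟨Or.inl h1, hy⟩
        · rintro ⟨h1 | h1, hy⟩
          · exact ⟨h1, hy⟩
          · exact (hy h1).elim
      · rintro y ⟨h1 | h1, hy⟩
        · exact h1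
        · exact (hy h1.2).elim
  have zW : ZIn ((P ∩ T) ∪ ((S ∩ T) ∪ (T ∩ R))) T := by
    refine zin_of_near cT.isCompact dT aT z0
      ((cP.inter cT).union ((zS.1.inter cT).union (cT.inter cR)))
      (union_subset inter_subset_right (union_subset inter_subset_right inter_subset_left))
      fun x hx hx0 => ?_
    have hxST : x ∈ S ∩ T := by
      rcases hx with h1 | h1 | h1
      · exact (hx0 (Or.inl h1)).elim
      · exact h1
      · exact (hx0 (Or.inr h1)).elim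
    have hxR : x ∉ R := fun h1 => hx0 (Or.inr ⟨hxST.2, h1⟩)
    have hxP : x ∉ P := fun h1 => hx0 (Or.inl ⟨h1, hxST.2⟩)
    refine ⟨(P ∪ R)ᶜ, univ, S, (cP.union cR).isOpen_compl, fun h1 => ?_, ?_, zS', ?_⟩
    · rcases h1 with h1 | h1
      · exact hxP h1
      · exact hxR h1
    · ext y
      constructor
      · rintro ⟨-, hy⟩
        exact ⟨trivial, hy⟩
      · rintro ⟨-, hy⟩
        refine ⟨?_, hy⟩
        rcases hcovx y with h2 | h2 | h2
        · exact (hy (Or.inl h2)).elim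
        · exact h2
        · exact (hy (Or.inr h2)).elim
    · rintro y ⟨h1 | h1 | h1, hy⟩
      · exact (hy (Or.inl h1.1)).elim
      · exact h1.1
      · exact (hy (Or.inr h1.2)).elim
  -- the homeomorphism of the Z-sets
  obtain ⟨g₀, hg₀, hg₁, hg₂⟩ := Hom.glue (P := P ∩ T) (Q := (S ∩ T) ∪ (T ∩ R)) (f := h)
    (g := fun x => x) (cP.inter cT) ((zS.1.inter cT).union (cT.inter cR)) (hom_of_homeo h _)
    (Hom.id _) (fun x hx hx' => by
      rcases hx' with h1 | h1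
      · exact hS x h1.1
      · exact (hPR' x hx.1 h1.2).elim) (by
      rintro y ⟨⟨a, ha, hay⟩, h1 | h1⟩
      · have h2 : h y = y := hS y h1.1
        have h3 : a = y := h.injective (hay.trans h2.symm)
        subst h3
        exact ⟨a, ⟨ha, Or.inl h1⟩, hay⟩
      · exact (hPhR y ⟨a, ha.1, hay⟩ h1.2).elim)
  -- the homeomorphism of `T` onto `T'`
  obtain ⟨θ, hθ, hθe, hθd⟩ := HT Q Q T T' mT mT' (fun x => x) v (MG.IsMap.id T) hv
    (MG.L.id T hd) hLv _ _ zW zW' g₀ hg₀ (by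
      rintro x (hx | hx)
      · rw [hg₁ hx]
        have h1 := hvd2 _ (hAT' (mem_image_of_mem h hx))
        have h2 := (hh x).trans_le b4
        linarith [dist_triangle (v (h x)) (h x) x]
      · rw [hg₂ hx]
        have h1 : x ∈ T' ∧ x ∈ T := by
          rcases hx with hx | hx
          · exact ⟨hST' hx, hx.2⟩
          · exact ⟨hBT' hx, hx.1⟩
        rw [hvi x h1.1 h1.2, dist_self]
        exact hd)
  have hθA : ∀ x ∈ P ∩ T, θ x = h x := fun x hx => by rw [hθe (Or.inl hx), hg₁ hx]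
  have hθB : ∀ x ∈ (S ∩ T) ∪ (T ∩ R), θ x = x := fun x hx => by rw [hθe (Or.inr hx), hg₂ hx]
  -- gluing
  obtain ⟨F, hF, hFP, hFT⟩ := Hom.glue cP cT (hom_of_homeo h P) hθ
    (fun x hx hx' => (hθA x ⟨hx, hx'⟩).symm) (by
      rintro y ⟨h1, h2⟩
      exact hAe y h1 h2.2)
  obtain ⟨G, hG, hGF, hGR⟩ := Hom.glue (cP.union cT) cR hF (Hom.id R)
    (fun x hx hx' => by
      rcases hx with hx | hx
      · exact (hPR' x hx hx').elim
      · rw [hFT hx]
        exact hθB x (Or.inr ⟨hx, hx'⟩)) (by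
      rintro y ⟨h1 | h1, h2⟩
      · exact (hPhR y h1 h2).elim
      · have hyT : y ∈ T := by
          have : y ∈ T' ∩ (P ∪ h '' P)ᶜ := ⟨h1, mem1 y h2⟩
          rw [loc1] at this
          exact this.1
        refine ⟨y, ⟨Or.inr hyT, h2⟩, ?_⟩
        rw [hFT hyT]
        exact hθB y (Or.inr ⟨hyT, h2⟩))
  have hGu : Hom (univ : Set Q) univ G := by
    have e1 : h '' P ∪ T' ∪ R = univ := by
      rw [eq_univ_iff_forall]
      intro x
      by_cases hxR : x ∈ R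
      · exact Or.inr hxR
      · rcases hcovh x with h1 | h1
        · exact Or.inl (Or.inl h1)
        · have : x ∈ h '' (T ∪ R) ∩ Rᶜ := ⟨h1, hxR⟩
          rw [← loc2] at this
          exact Or.inl (Or.inr this.1)
    rw [hcov, e1] at hG
    exact hG
  obtain ⟨g, hg⟩ := hGu.exists_homeo_univ
  have gP : ∀ x ∈ P, g x = h x := fun x hx => by rw [hg, hGF (Or.inl hx), hFP hx]
  have gT : ∀ x ∈ T, g x = θ x := fun x hx => by rw [hg, hGF (Or.inr hx), hFT hx]
  have gR : ∀ x ∈ R, g x = x := fun x hx => by rw [hg, hGR hx]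
  refine ⟨g, fun x => ?_, gP, gR, fun x hx => ?_⟩
  · rcases hcovx x with h1 | h1 | h1
    · rw [gP x h1]
      exact (hh x).trans_le b5
    · rw [gT x h1]
      have h2 := hθd x h1
      have h3 := hvd3 (θ x) (hθ.maps h1)
      have h4 := dist_triangle (θ x) (v (θ x)) x
      rw [dist_comm (θ x) (v (θ x))] at h4
      linarith
    · rw [gR x h1, dist_self]
      exact he
  · rcases hcovx x with h1 | h1 | h1
    · rw [gP x h1]
      exact hS x hx
    · rw [gT x h1]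
      exact hθB x (Or.inl ⟨hx, h1⟩)
    · exact gR x h1

end

end Str

end Pool.Agent.Work.MP_017613_gt
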