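import Pool.Agent.Work.MP_017613_gt.Straight

/-!
# Straightening, relative form

`straighten'`: `Q = P ∪ T ∪ R`, `V` a closed neighbourhood of `P ∩ R`. A homeomorphism `h` close to
the identity, the identity on `V`, is replaced by a homeomorphism `g` close to the identity with
`g = h` on `P` and `g = id` on `R`. Only `T` has to be a Menger manifold.
-/

set_option linter.unusedSectionVars false

open Set Topology Metric

namespace Pool.Agent.Work.MP_017613_gt

namespace Str

open Rnd Chi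

/-! ## Scales -/

theorem exists_scales {α : Type} [MetricSpace α] {k : ℕ} {T : Set α} (hT : MG.ULC k T) {e : ℝ}
    (he : 0 < e) : ∃ s : ℕ → ℝ, (∀ i ≤ k + 1, 0 < s i) ∧ s (k + 1) = e ∧
      ∀ i ≤ k, s i ≤ s (i + 1) ∧ MG.UV k (fun x => x) T T (2 * s i) (s (i + 1) / 2) := by
  classical
  have h : ∀ t : ℝ, 0 < t → ∃ r : ℝ, 0 < r ∧ r ≤ t ∧ MG.UV k (fun x => x) T T (2 * r) (t / 2) := by
    intro t ht
    obtain ⟨δ, hδ, hU⟩ := hT (t / 2) (half_pos ht)
    refine ⟨min (δ / 2) t, lt_min (half_pos hδ) ht, min_le_right _ _, ?_⟩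
    refine hU.weaken ?_ le_rfl
    have := min_le_left (δ / 2) t
    linarith
  choose! φ hφ using h
  have hpos : ∀ n : ℕ, 0 < φ^[n] e := by
    intro n
    induction n with
    | zero => exact he
    | succ n ih =>
      rw [Function.iterate_succ_apply']
      exact (hφ _ ih).1
  refine ⟨fun i => φ^[k + 1 - i] e, fun i _ => hpos _, by simp, fun i hi => ?_⟩
  have e1 : k + 1 - i = (k + 1 - (i + 1)) + 1 := by omega
  have e2 : φ^[k + 1 - i] e = φ (φ^[k + 1 - (i + 1)] e) := by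
    rw [e1, Function.iterate_succ_apply']
  obtain ⟨-, h2, h3⟩ := hφ _ (hpos (k + 1 - (i + 1)))
  refine ⟨?_, ?_⟩
  · change φ^[k + 1 - i] e ≤ φ^[k + 1 - (i + 1)] e
    rw [e2]
    exact h2
  · change MG.UV k (fun x => x) T T (2 * φ^[k + 1 - i] e) (φ^[k + 1 - (i + 1)] e / 2)
    rw [e2]
    exact h3

section

variable {k : ℕ} {Men : ∀ (N : Type) [MetricSpace N] [CompactSpace N], Prop}
variable {Q : Type} [MetricSpace Q] [CompactSpace Q] {P T R S V : Set Q}

/-- the image of the collar -/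
def Tp (h : Q ≃ₜ Q) (P T R : Set Q) : Set Q := (T ∩ h '' (T ∪ R)) ∪ (P ∩ h '' T)

/-- the position of `h` -/
structure Pos (h : Q ≃ₜ Q) (P T R V : Set Q) (δ₃ δ : ℝ) : Prop where
  cP : IsClosed P
  cT : IsClosed T
  cR : IsClosed R
  cov : ∀ x, x ∈ P ∨ x ∈ T ∨ x ∈ R
  small : ∀ x, dist (h x) x < δ
  le : δ ≤ δ₃
  pos : 0 < δ
  far : ∀ x ∈ P \ interior V, ∀ y ∈ R, δ₃ ≤ dist x y
  fix : ∀ x ∈ V, h x = x

namespace Pos

variable {h : Q ≃ₜ Q} {δ₃ δ : ℝ} (H : Pos h P T R V δ₃ δ)
include H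

theorem isClosed : IsClosed (Tp h P T R) :=
  (H.cT.inter (h.isClosedMap _ (H.cT.union H.cR))).union (H.cP.inter (h.isClosedMap _ H.cT))

theorem covh (x : Q) : x ∈ h '' P ∨ x ∈ h '' T ∨ x ∈ h '' R := by
  rcases H.cov (h.symm x) with h1 | h1 | h1
  · exact Or.inl ⟨_, h1, h.apply_symm_apply x⟩
  · exact Or.inr (Or.inl ⟨_, h1, h.apply_symm_apply x⟩)
  · exact Or.inr (Or.inr ⟨_, h1, h.apply_symm_apply x⟩)

theorem fixI {x : Q} (hx : x ∈ interior V) : h x = x := H.fix x (interior_subset hx)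

/-- a point of the fixed part has only one preimage -/
theorem pre {x y : Q} (hx : x ∈ interior V) (hy : h y = x) : y = x :=
  h.injective (hy.trans (H.fixI hx).symm)

/-- the image of `P` meets `R` only in the fixed part -/
theorem hPR {x : Q} (hx : x ∈ P) (hR : h x ∈ R) : h x = x ∧ x ∈ interior V := by
  by_cases hV : x ∈ interior V
  · exact ⟨H.fixI hV, hV⟩
  · exfalso
    have h1 := H.far x ⟨hx, hV⟩ _ hR
    have h2 := H.small x
    rw [dist_comm] at h2
    have := H.le
    linarith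

/-- the image of `R` meets `P` only in the fixed part -/
theorem hRP {x : Q} (hx : x ∈ R) (hP : h x ∈ P) : h x = x ∧ x ∈ interior V := by
  by_cases hV : h x ∈ interior V
  · have := H.pre hV rfl
    exact ⟨this.symm, by rw [← this] at hV; exact hV⟩
  · exfalso
    have h1 := H.far _ ⟨hP, hV⟩ _ hx
    have h2 := H.small x
    have := H.le
    linarith

theorem locV : Tp h P T R ∩ interior V = T ∩ interior V := by
  ext x
  constructor
  · rintro ⟨⟨hx, -⟩ | ⟨-, y, hy, hyx⟩, hV⟩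
    · exact ⟨hx, hV⟩
    · have := H.pre hV hyx
      exact ⟨this ▸ hy, hV⟩
  · rintro ⟨hx, hV⟩
    exact ⟨Or.inl ⟨hx, x, Or.inl hx, H.fixI hV⟩, hV⟩

theorem loc1 : Tp h P T R ∩ (P ∪ h '' P)ᶜ = T ∩ (P ∪ h '' P)ᶜ := by
  ext x
  constructor
  · rintro ⟨⟨hx, -⟩ | ⟨hx, -⟩, hV⟩
    · exact ⟨hx, hV⟩
    · exact (hV (Or.inl hx)).elim
  · rintro ⟨hx, hV⟩
    refine ⟨Or.inl ⟨hx, ?_⟩, hV⟩
    rw [image_union]
    exact (H.covh x).resolve_left fun h1 => hV (Or.inr h1)

theorem loc2 : Tp h P T R ∩ (R ∪ h '' R)ᶜ = h '' T ∩ (R ∪ h '' R)ᶜ := by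
  ext x
  constructor
  · rintro ⟨⟨-, hx⟩ | ⟨-, hx⟩, hV⟩
    · rw [image_union] at hx
      exact ⟨hx.resolve_right fun h1 => hV (Or.inr h1), hV⟩
    · exact ⟨hx, hV⟩
  · rintro ⟨hx, hV⟩
    refine ⟨?_, hV⟩
    rcases H.cov x with h1 | h1 | h1
    · exact Or.inr ⟨h1, hx⟩
    · exact Or.inl ⟨h1, image_mono subset_union_left hx⟩
    · exact (hV (Or.inl h1)).elim

theorem tri (x : Q) : x ∈ interior V ∨ x ∈ (P ∪ h '' P)ᶜ ∨ x ∈ (R ∪ h '' R)ᶜ := by
  by_cases hV : x ∈ interior V
  · exact Or.inl hV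
  by_cases hP : x ∈ (P ∪ h '' P)ᶜ
  · exact Or.inr (Or.inl hP)
  refine Or.inr (Or.inr ?_)
  have hd := H.le
  have hpos := H.pos
  rw [notMem_compl_iff] at hP
  rcases hP with hP | ⟨p, hp, rfl⟩
  · rintro (hR | ⟨y, hy, hyx⟩)
    · have := H.far x ⟨hP, hV⟩ x hR
      rw [dist_self] at this
      linarith
    · have h1 := H.far x ⟨hP, hV⟩ y hy
      have h2 := H.small y
      rw [hyx] at h2
      linarith
  · have hpV : p ∉ interior V := fun h1 => hV (by rw [H.fixI h1]; exact h1)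
    rintro (hR | ⟨y, hy, hyx⟩)
    · exact hpV (H.hPR hp hR).2
    · have : y = p := h.injective hyx
      subst this
      have := H.far y ⟨hp, hpV⟩ y hy
      rw [dist_self] at this
      linarith

/-- uniform form of the local structure -/
theorem ball {σ : ℝ} (hσ : 0 < σ) (hσ3 : 8 * σ ≤ δ₃) (hδ : δ ≤ σ) (y : Q) :
    (∀ x, dist x y < σ → (x ∈ Tp h P T R ↔ x ∈ T)) ∨
      ∀ x, dist x y < σ → (x ∈ Tp h P T R ↔ x ∈ h '' T) := by
  by_cases hy : ∃ p ∈ P \ interior V, dist y p < 2 * σ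
  · right
    obtain ⟨p, hp, hyp⟩ := hy
    intro x hx
    have hxp : dist x p < 3 * σ := by linarith [dist_triangle x y p]
    have hxR : x ∈ (R ∪ h '' R)ᶜ := by
      rintro (hR | ⟨z, hz, rfl⟩)
      · have h1 := H.far p hp x hR
        rw [dist_comm] at h1
        linarith
      · have h1 := H.far p hp z hz
        have h2 := H.small z
        have h3 := dist_triangle p (h z) z
        rw [dist_comm p (h z)] at h3
        linarith
    have h1 := H.loc2
    constructor
    · intro h2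
      have : x ∈ Tp h P T R ∩ (R ∪ h '' R)ᶜ := ⟨h2, hxR⟩
      rw [h1] at this
      exact this.1
    · intro h2
      have : x ∈ h '' T ∩ (R ∪ h '' R)ᶜ := ⟨h2, hxR⟩
      rw [← h1] at this
      exact this.1
  · left
    push Not at hy
    intro x hx
    constructor
    · rintro (⟨h1, -⟩ | ⟨h1, z, hz, hzx⟩)
      · exact h1
      · by_cases hV : x ∈ interior V
        · have := H.pre hV hzx
          exact this ▸ hz
        · have h2 := hy x ⟨h1, hV⟩
          rw [dist_comm] at h2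
          linarith
    · intro h1
      rcases H.covh x with h2 | h2 | h2
      · obtain ⟨p, hp, hpx⟩ := h2
        by_cases hV : p ∈ interior V
        · have h3 : x = p := by rw [← hpx]; exact H.fixI hV
          refine Or.inl ⟨h1, x, Or.inl h1, ?_⟩
          rw [h3]
          exact H.fixI hV
        · exfalso
          have h3 := hy p ⟨hp, hV⟩
          have h4 := H.small p
          rw [hpx] at h4
          have h5 := dist_triangle y x p
          rw [dist_comm y x] at h5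
          linarith
      · exact Or.inl ⟨h1, image_mono subset_union_left h2⟩
      · exact Or.inl ⟨h1, image_mono subset_union_right h2⟩

/-- the `UV` property of the control map of the moved collar -/
theorem uv {σ s t : ℝ} (hσ3 : 8 * σ ≤ δ₃) (hs : 0 < s) (hst : s ≤ t) (ht : 2 * t ≤ σ)
    (hδ : δ ≤ s / 8) (hT : MG.UV k (fun x => x) T T (2 * s) (t / 2)) {v : Q → Q}
    (hv : ∀ x ∈ Tp h P T R, dist (v x) x < s / 8) :
    MG.UV k v (Tp h P T R) T s (t * (3 / 4)) := by
  have hσ : 0 < σ := by linarith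
  intro j hj y hy a ha had
  have had' : ∀ x ∈ MG.dCu j, dist (a x) y < s + s / 8 := fun x hx => by
    have h1 := had x hx
    have h2 := hv _ (ha.maps hx)
    have h3 := dist_triangle (a x) (v (a x)) y
    rw [dist_comm (a x) (v (a x))] at h3
    linarith
  rcases H.ball hσ hσ3 (by linarith) y with hb | hb
  · obtain ⟨F, hF, hFe, hFd⟩ := hT j hj y hy a ⟨ha.cont, fun x hx =>
      (hb _ (by linarith [had' x hx])).1 (ha.maps hx)⟩ (fun x hx => by
        have := had' x hx
        linarith)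
    have hFm : MapsTo F (MG.Cu j) (Tp h P T R) := fun x hx =>
      (hb _ (by linarith [hFd x hx])).2 (hF.maps hx)
    refine ⟨F, ⟨hF.cont, hFm⟩, hFe, fun x hx => ?_⟩
    have h1 := hv _ (hFm hx)
    have h2 := hFd x hx
    linarith [dist_triangle (v (F x)) (F x) y]
  · have ha2 : MapsTo (fun x => h.symm (a x)) (MG.dCu j) T := fun x hx => by
      obtain ⟨z, hz, hzx⟩ := (hb _ (by linarith [had' x hx])).1 (ha.maps hx)
      change h.symm (a x) ∈ T
      rw [← hzx, h.symm_apply_apply]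
      exact hz
    obtain ⟨F, hF, hFe, hFd⟩ := hT j hj y hy (fun x => h.symm (a x))
      ⟨h.symm.continuous.comp_continuousOn ha.cont, ha2⟩ (fun x hx => by
        have h1 := had' x hx
        have h2 := H.small (h.symm (a x))
        rw [h.apply_symm_apply, dist_comm] at h2
        change dist (h.symm (a x)) y < 2 * s
        linarith [dist_triangle (h.symm (a x)) (a x) y])
    have hFd' : ∀ x ∈ MG.Cu j, dist (h (F x)) y < t / 2 + s / 8 := fun x hx => by
      have h1 := H.small (F x)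
      have h2 := hFd x hx
      have h2' : dist (F x) y < t / 2 := h2
      linarith [dist_triangle (h (F x)) (F x) y]
    have hFm : MapsTo (fun x => h (F x)) (MG.Cu j) (Tp h P T R) := fun x hx =>
      (hb _ (by linarith [hFd' x hx])).2 (mem_image_of_mem h (hF.maps hx))
    refine ⟨fun x => h (F x), ⟨h.continuous.comp_continuousOn hF.cont, hFm⟩, fun x hx => ?_,
      fun x hx => ?_⟩
    · change h (F x) = a x
      rw [hFe hx, h.apply_symm_apply]
    · have h1 := hv _ (hFm hx)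
      have h2 := hFd' x hx
      change dist (v (h (F x))) y < _
      have h1' : dist (v (h (F x))) (h (F x)) < s / 8 := h1
      linarith [dist_triangle (v (h (F x))) (h (F x)) y]

end Pos

/-- the Z-sets of the moved collar, and the moved collar is a Menger manifold -/
theorem Pos.zsets (hM : Mth k Men) (dQ : PushOff k (univ : Set Q)) {h : Q ≃ₜ Q} {δ₃ δ : ℝ}
    (H : Pos h P T R V δ₃ δ) (mT : MenS Men T)
    (zA : ZIn (P ∩ T) T) (zB : ZIn (T ∩ R) T) (zS : ZS S) (hS : ∀ x ∈ S, h x = x) :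
    MenS Men (Tp h P T R) ∧ ZIn ((P ∩ T) ∪ ((S ∩ T) ∪ (T ∩ R))) T ∧
      ZIn (h '' (P ∩ T) ∪ ((S ∩ T) ∪ (T ∩ R))) (Tp h P T R) := by
  have cP := H.cP
  have cT := H.cT
  have cR := H.cR
  have cJ : IsClosed (h '' P) := h.isClosedMap _ cP
  have cJR : IsClosed (h '' R) := h.isClosedMap _ cR
  have cA' : IsClosed (h '' (P ∩ T)) := h.isClosedMap _ (cP.inter cT)
  have cT' : IsClosed (Tp h P T R) := H.isClosed
  have op1 : IsOpen (P ∪ h '' P)ᶜ := (cP.union cJ).isOpen_compl
  have op2 : IsOpen (R ∪ h '' R)ᶜ := (cR.union cJR).isOpen_compl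
  have mhT : MenS Men (h '' T) := mT.hom hM (hom_of_homeo h _)
  have mT' : MenS Men (Tp h P T R) := by
    refine hM.loc Q _ cT'.isCompact fun x hx => ?_
    rcases H.tri x with h1 | h1 | h1
    · exact ⟨_, T, isOpen_interior, h1, H.locV, mT⟩
    · exact ⟨_, T, op1, h1, H.loc1, mT⟩
    · exact ⟨_, _, op2, h1, H.loc2, mhT⟩
  have aT : ANE k T := mT.ane hM
  have aT' : ANE k (Tp h P T R) := mT'.ane hM
  have dT' : PushOff k (Tp h P T R) := dQ.mono cT'.isCompact (subset_univ _)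
  have dT : PushOff k T := dQ.mono cT.isCompact (subset_univ _)
  have zAB : ZIn ((P ∩ T) ∪ (T ∩ R)) T := ZIn.union' cT.isCompact zA zB
  have zS' : ZIn S univ := zin_univ.2 zS
  have hST' : S ∩ T ⊆ Tp h P T R := by
    rintro x ⟨hxS, hxT⟩
    exact Or.inl ⟨hxT, x, Or.inl hxT, hS x hxS⟩
  have hBT' : T ∩ R ⊆ Tp h P T R := by
    rintro x ⟨hxT, hxR⟩
    refine Or.inl ⟨hxT, ?_⟩
    rcases H.covh x with ⟨p, hp, hpx⟩ | ⟨p, hp, hpx⟩ | ⟨p, hp, hpx⟩
    · have h1 := (H.hPR hp (by rw [hpx]; exact hxR)).1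
      have h2 : p = x := h1.symm.trans hpx
      exact ⟨x, Or.inl hxT, by rw [← h2]; exact h1⟩
    · exact ⟨p, Or.inl hp, hpx⟩
    · exact ⟨p, Or.inr hp, hpx⟩
  have hAT' : h '' (P ∩ T) ⊆ Tp h P T R := by
    rintro _ ⟨a, ⟨haP, haT⟩, rfl⟩
    rcases H.cov (h a) with h1 | h1 | h1
    · exact Or.inr ⟨h1, a, haT, rfl⟩
    · exact Or.inl ⟨h1, a, Or.inl haT, rfl⟩
    · have h2 := (H.hPR haP h1).1
      refine Or.inl ⟨?_, a, Or.inl haT, rfl⟩
      rw [h2]
      exact haT
  have zABh : ZIn (h '' ((P ∩ T) ∪ (T ∩ R))) (h '' T) :=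
    ZIn.image (hom_of_homeo h _) cT.isCompact zAB
  refine ⟨mT', ?_, ?_⟩
  · refine zin_of_near cT.isCompact dT aT zAB
      ((cP.inter cT).union ((zS.1.inter cT).union (cT.inter cR)))
      (union_subset inter_subset_right (union_subset inter_subset_right inter_subset_left))
      fun x hx hx0 => ?_
    have hxST : x ∈ S ∩ T := by
      rcases hx with h1 | h1 | h1
      · exact (hx0 (Or.inl h1)).elim
      · exact h1
      · exact (hx0 (Or.inr h1)).elim
    have hxR : x ∉ R := fun h1 => hx0 (Or.inr ⟨hxST.2, h1⟩)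
    have hxP : x ∉ P := fun h1 => hx0 (Or.inl ⟨h1, hxST.2⟩)
    refine ⟨(P ∪ R)ᶜ, univ, S, (cP.union cR).isOpen_compl, fun h1 => ?_, ?_, zS', ?_⟩
    · rcases h1 with h1 | h1
      · exact hxP h1
      · exact hxR h1
    · ext y
      constructor
      · rintro ⟨-, hy⟩
        exact ⟨trivial, hy⟩
      · rintro ⟨-, hy⟩
        refine ⟨?_, hy⟩
        rcases H.cov y with h2 | h2 | h2
        · exact (hy (Or.inl h2)).elim
        · exact h2
        · exact (hy (Or.inr h2)).elim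
    · rintro y ⟨h1 | h1 | h1, hy⟩
      · exact (hy (Or.inl h1.1)).elim
      · exact h1.1
      · exact (hy (Or.inr h1.2)).elim
  · have z0' : ZIn (h '' (P ∩ T) ∪ (T ∩ R)) (Tp h P T R) := by
      refine zloc cT'.isCompact dT' aT' (cA'.union (cT.inter cR)) (union_subset hAT' hBT')
        fun x _ => ?_
      rcases H.tri x with h1 | h1 | h1
      · refine ⟨_, T, _, isOpen_interior, h1, H.locV, zAB, ?_⟩
        rintro y ⟨⟨a, ha, hay⟩ | h2, hy⟩
        · have := H.pre hy hay
          exact Or.inl (this ▸ ha)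
        · exact Or.inr h2
      · refine ⟨_, T, _, op1, h1, H.loc1, zAB, ?_⟩
        rintro y ⟨h2 | h2, hy⟩
        · exact (hy (Or.inr (image_mono inter_subset_left h2))).elim
        · exact Or.inr h2
      · refine ⟨_, _, _, op2, h1, H.loc2, zABh, ?_⟩
        rintro y ⟨h2 | h2, hy⟩
        · exact image_mono subset_union_left h2
        · exact (hy (Or.inl h2.2)).elim
    refine zin_of_near cT'.isCompact dT' aT' z0'
      (cA'.union ((zS.1.inter cT).union (cT.inter cR)))
      (union_subset hAT' (union_subset hST' hBT')) fun x hx hx0 => ?_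
    have hxST : x ∈ S ∩ T := by
      rcases hx with h1 | h1 | h1
      · exact (hx0 (Or.inl h1)).elim
      · exact h1
      · exact (hx0 (Or.inr h1)).elim
    have hxR : x ∉ R := fun h1 => hx0 (Or.inr ⟨hxST.2, h1⟩)
    have hxP : x ∉ P := fun h1 => hx0 (Or.inl ⟨x, ⟨h1, hxST.2⟩, hS x hxST.1⟩)
    have hxJ : x ∉ h '' P := by
      rintro ⟨p, hp, hpx⟩
      have : p = x := h.injective (hpx.trans (hS x hxST.1).symm)
      exact hxP (this ▸ hp)
    refine ⟨(P ∪ (R ∪ h '' P))ᶜ, univ, S, (cP.union (cR.union cJ)).isOpen_compl, fun h1 => ?_, ?_,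
      zS', ?_⟩
    · rcases h1 with h1 | h1 | h1
      · exact hxP h1
      · exact hxR h1
      · exact hxJ h1
    · ext y
      constructor
      · rintro ⟨-, hy⟩
        exact ⟨trivial, hy⟩
      · rintro ⟨-, hy⟩
        refine ⟨?_, hy⟩
        rcases H.cov y with h2 | h2 | h2
        · exact (hy (Or.inl h2)).elim
        · refine Or.inl ⟨h2, ?_⟩
          rw [image_union]
          exact (H.covh y).resolve_left fun h3 => hy (Or.inr (Or.inr h3))
        · exact (hy (Or.inr (Or.inl h2))).elim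
    · rintro y ⟨h1 | h1 | h1, hy⟩
      · exact (hy (Or.inr (Or.inr (image_mono inter_subset_left h1)))).elim
      · exact h1.1
      · exact (hy (Or.inr (Or.inl h1.2))).elim

/-- the control map of the moved collar exists -/
theorem exists_control (aT : ANE k T) (dQ : PushOff k (univ : Set Q)) (cT : IsClosed T) {e : ℝ}
    (he : 0 < e) :
    ∃ δ > 0, ∀ h : Q ≃ₜ Q, (∀ x, dist (h x) x < δ) → IsClosed (Tp h P T R) →
      ∃ v : Q → Q, MG.IsMap v (Tp h P T R) T ∧ (∀ x ∈ Tp h P T R, x ∈ T → v x = x) ∧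
        ∀ x ∈ Tp h P T R, dist (v x) x < e := by
  obtain ⟨δ, hδ, H⟩ := retr isCompact_univ dQ cT aT he
  refine ⟨δ, hδ, fun h hh hc => H _ (subset_univ _) hc ?_⟩
  rintro x (⟨h1, -⟩ | ⟨-, y, hy, hyx⟩)
  · exact ⟨x, h1, by rw [dist_self]; exact hδ⟩
  · refine ⟨y, hy, ?_⟩
    rw [← hyx]
    exact hh y

/-- **Straightening**, relative form. -/
theorem straighten' (hM : Mth k Men) (dQ : PushOff k (univ : Set Q)) (cP : IsClosed P)
    (cT : IsClosed T) (cR : IsClosed R) (hcov : P ∪ T ∪ R = univ) (hPRV : P ∩ R ⊆ interior V)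
    (mT : MenS Men T) (zA : ZIn (P ∩ T) T) (zB : ZIn (T ∩ R) T) (zS : ZS S) {e : ℝ}
    (he : 0 < e) :
    ∃ δ > 0, ∀ h : Q ≃ₜ Q, (∀ x, dist (h x) x < δ) → (∀ x ∈ V, h x = x) → (∀ x ∈ S, h x = x) →
      ∃ g : Q ≃ₜ Q, (∀ x, dist (g x) x < e) ∧ (∀ x ∈ P, g x = h x) ∧ (∀ x ∈ R, g x = x) ∧
        ∀ x ∈ S, g x = x := by
  classical
  rcases isEmpty_or_nonempty Q with hE | hN
  · exact ⟨1, one_pos, fun h _ _ _ => ⟨h, fun x => (hE.false x).elim, fun x _ => rfl,
      fun x _ => (hE.false x).elim, fun x _ => (hE.false x).elim⟩⟩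
  have aT : ANE k T := mT.ane hM
  obtain ⟨d, hd, HT⟩ := trel_set hM.trel cT.isCompact aT (show (0 : ℝ) < e / 2 by positivity)
  have hcovx : ∀ x : Q, x ∈ P ∨ x ∈ T ∨ x ∈ R := fun x => by
    have h1 : x ∈ P ∪ T ∪ R := by rw [hcov]; trivial
    rcases h1 with (h1 | h1) | h1
    · exact Or.inl h1
    · exact Or.inr (Or.inl h1)
    · exact Or.inr (Or.inr h1)
  obtain ⟨δ₃, hδ₃, Hf⟩ := far (A := P \ interior V) (B := R)
    (cP.isCompact.diff isOpen_interior) cR (by
      rw [eq_empty_iff_forall_notMem]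
      rintro x ⟨⟨h1, h2⟩, h3⟩
      exact h2 (hPRV ⟨h1, h3⟩))
  -- scales
  obtain ⟨s, hspos, hslast, hs⟩ := exists_scales (k := k) (MG.ulc_of_ane aT)
    (show (0 : ℝ) < min d (δ₃ / 16) by positivity)
  have hmono : ∀ i ≤ k + 1, s 0 ≤ s i := by
    intro i
    induction i with
    | zero => exact fun _ => le_rfl
    | succ i ih => exact fun hi => (ih (by omega)).trans (hs i (by omega)).1
  have hs0 : 0 < s 0 := hspos 0 (by omega)
  have hlast : s (k + 1) ≤ d := hslast.le.trans (min_le_left _ _)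
  have hlast' : s (k + 1) ≤ δ₃ / 16 := hslast.le.trans (min_le_right _ _)
  have hle : ∀ i ≤ k + 1, s i ≤ s (k + 1) := by
    intro i hi
    induction hj : k + 1 - i generalizing i with
    | zero =>
      have : i = k + 1 := by omega
      rw [this]
    | succ n ih => exact (hs i (by omega)).1.trans (ih (i + 1) (by omega) (by omega))
  obtain ⟨δ₂, hδ₂, Hv⟩ := exists_control (P := P) (R := R) aT dQ cT
    (show 0 < min (s 0 / 8) (min (d / 2) (e / 2)) by positivity)
  refine ⟨min (min (s 0 / 8) δ₂) (min δ₃ (min (d / 2) e)), by positivity, fun h hh hV hS => ?_⟩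
  have b1 : min (min (s 0 / 8) δ₂) (min δ₃ (min (d / 2) e)) ≤ s 0 / 8 :=
    (min_le_left _ _).trans (min_le_left _ _)
  have b2 : min (min (s 0 / 8) δ₂) (min δ₃ (min (d / 2) e)) ≤ δ₂ :=
    (min_le_left _ _).trans (min_le_right _ _)
  have b3 : min (min (s 0 / 8) δ₂) (min δ₃ (min (d / 2) e)) ≤ δ₃ :=
    (min_le_right _ _).trans (min_le_left _ _)
  have b4 : min (min (s 0 / 8) δ₂) (min δ₃ (min (d / 2) e)) ≤ d / 2 :=
    (min_le_right _ _).trans ((min_le_right _ _).trans (min_le_left _ _))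
  have b5 : min (min (s 0 / 8) δ₂) (min δ₃ (min (d / 2) e)) ≤ e :=
    (min_le_right _ _).trans ((min_le_right _ _).trans (min_le_right _ _))
  set δ := min (min (s 0 / 8) δ₂) (min δ₃ (min (d / 2) e)) with hδdef
  have hδ : 0 < δ := by positivity
  have H : Pos h P T R V δ₃ δ := ⟨cP, cT, cR, hcovx, hh, b3, hδ, Hf, hV⟩
  obtain ⟨v, hv, hvi, hvd⟩ := Hv h (fun x => (hh x).trans_le b2) H.isClosed
  have hvd1 : ∀ x ∈ Tp h P T R, dist (v x) x < s 0 / 8 := fun x hx =>
    (hvd x hx).trans_le (min_le_left _ _)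
  have hvd2 : ∀ x ∈ Tp h P T R, dist (v x) x < d / 2 := fun x hx =>
    (hvd x hx).trans_le ((min_le_right _ _).trans (min_le_left _ _))
  have hvd3 : ∀ x ∈ Tp h P T R, dist (v x) x < e / 2 := fun x hx =>
    (hvd x hx).trans_le ((min_le_right _ _).trans (min_le_right _ _))
  -- lifting property
  have hLv : MG.L k v (Tp h P T R) T d := by
    have hLP : MG.LP k v (Tp h P T R) T (s 0 / 2) d := by
      refine MG.LP.of_uv (s := s) (u := fun i => s (i + 1) * (3 / 4)) (fun i hi => ?_)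
        (fun i hi => (hs i hi).1) (fun i hi => ?_) (by linarith) hlast
      · have h1 := hmono i (by omega)
        have h2 := hle (i + 1) (by omega)
        exact H.uv (σ := δ₃ / 8) (by linarith) (hspos i (by omega)) (hs i hi).1 (by linarith)
          (by linarith) (hs i hi).2 (fun x hx => (hvd1 x hx).trans_le (by linarith))
      · have := hspos (i + 1) (by omega)
        linarith
    exact hLP.toL (by positivity)
  obtain ⟨mT', zW, zW'⟩ := H.zsets hM dQ mT zA zB zS hS
  have hST' : S ∩ T ⊆ Tp h P T R := fun x hx => zW'.2.1 (Or.inr (Or.inl hx))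
  have hBT' : T ∩ R ⊆ Tp h P T R := fun x hx => zW'.2.1 (Or.inr (Or.inr hx))
  have hAT' : h '' (P ∩ T) ⊆ Tp h P T R := fun x hx => zW'.2.1 (Or.inl hx)
  -- the homeomorphism of the Z-sets
  obtain ⟨g₀, hg₀, hg₁, hg₂⟩ := Hom.glue (P := P ∩ T) (Q := (S ∩ T) ∪ (T ∩ R)) (f := h)
    (g := fun x => x) (cP.inter cT) ((zS.1.inter cT).union (cT.inter cR)) (hom_of_homeo h _)
    (Hom.id _) (fun x hx hx' => by
      rcases hx' with h1 | h1
      · exact hS x h1.1
      · exact H.fixI (hPRV ⟨hx.1, h1.2⟩)) (by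
      rintro y ⟨⟨a, ha, hay⟩, h1⟩
      have h2 : a = y := by
        rcases h1 with h1 | h1
        · exact h.injective (hay.trans (hS y h1.1).symm)
        · have h3 := (H.hPR ha.1 (by rw [hay]; exact h1.2)).1
          exact h3.symm.trans hay
      subst h2
      exact ⟨a, ⟨ha, h1⟩, hay⟩)
  -- the homeomorphism of `T` onto the moved collar
  obtain ⟨θ, hθ, hθe, hθd⟩ := HT Q Q T (Tp h P T R) mT mT' (fun x => x) v (MG.IsMap.id T) hv
    (MG.L.id T hd) hLv _ _ zW zW' g₀ hg₀ (by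
      rintro x (hx | hx)
      · rw [hg₁ hx]
        have h1 := hvd2 _ (hAT' (mem_image_of_mem h hx))
        have h2 := (hh x).trans_le b4
        linarith [dist_triangle (v (h x)) (h x) x]
      · rw [hg₂ hx]
        have h1 : x ∈ Tp h P T R ∧ x ∈ T := by
          rcases hx with hx | hx
          · exact ⟨hST' hx, hx.2⟩
          · exact ⟨hBT' hx, hx.1⟩
        rw [hvi x h1.1 h1.2, dist_self]
        exact hd)
  have hθA : ∀ x ∈ P ∩ T, θ x = h x := fun x hx => by rw [hθe (Or.inl hx), hg₁ hx]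
  have hθB : ∀ x ∈ (S ∩ T) ∪ (T ∩ R), θ x = x := fun x hx => by rw [hθe (Or.inr hx), hg₂ hx]
  -- gluing
  obtain ⟨F, hF, hFP, hFT⟩ := Hom.glue cP cT (hom_of_homeo h P) hθ
    (fun x hx hx' => (hθA x ⟨hx, hx'⟩).symm) (by
      rintro y ⟨⟨p, hp, hpy⟩, h2 | h2⟩
      · obtain ⟨q, hq, hqy⟩ := h2.2
        have hpq : q = p := h.injective (hqy.trans hpy.symm)
        subst hpq
        rcases hq with h3 | h3
        · exact ⟨q, ⟨hp, h3⟩, hpy⟩
        · have h4 := H.fixI (hPRV ⟨hp, h3⟩)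
          have h5 : q = y := h4.symm.trans hpy
          refine ⟨q, ⟨hp, ?_⟩, hpy⟩
          rw [h5]
          exact h2.1
      · obtain ⟨q, hq, hqy⟩ := h2.2
        have hpq : q = p := h.injective (hqy.trans hpy.symm)
        subst hpq
        exact ⟨q, ⟨hp, hq⟩, hpy⟩)
  have hT'R : ∀ y ∈ Tp h P T R, y ∈ R → y ∈ T := by
    rintro y (h1 | ⟨h1, q, hq, hqy⟩) hR
    · exact h1.1
    · have := H.pre (hPRV ⟨h1, hR⟩) hqy
      exact this ▸ hq
  obtain ⟨G, hG, hGF, hGR⟩ := Hom.glue (cP.union cT) cR hF (Hom.id R)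
    (fun x hx hx' => by
      rcases hx with hx | hx
      · rw [hFP hx]
        exact H.fixI (hPRV ⟨hx, hx'⟩)
      · rw [hFT hx]
        exact hθB x (Or.inr ⟨hx, hx'⟩)) (by
      rintro y ⟨⟨p, hp, hpy⟩ | h1, h2⟩
      · have h3 := (H.hPR hp (by rw [hpy]; exact h2)).1
        have h4 : p = y := h3.symm.trans hpy
        subst h4
        refine ⟨p, ⟨Or.inl hp, h2⟩, ?_⟩
        rw [hFP hp]
        exact hpy
      · have hyT : y ∈ T := hT'R y h1 h2
        refine ⟨y, ⟨Or.inr hyT, h2⟩, ?_⟩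
        rw [hFT hyT]
        exact hθB y (Or.inr ⟨hyT, h2⟩))
  have hGu : Hom (univ : Set Q) univ G := by
    have e1 : h '' P ∪ Tp h P T R ∪ R = univ := by
      rw [eq_univ_iff_forall]
      intro x
      by_cases hxR : x ∈ R
      · exact Or.inr hxR
      refine Or.inl ?_
      rcases H.covh x with h1 | h1 | h1
      · exact Or.inl h1
      · rcases hcovx x with h2 | h2 | h2
        · exact Or.inr (Or.inr ⟨h2, h1⟩)
        · exact Or.inr (Or.inl ⟨h2, image_mono subset_union_left h1⟩)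
        · exact (hxR h2).elim
      · rcases hcovx x with h2 | h2 | h2
        · exfalso
          obtain ⟨q, hq, hqx⟩ := h1
          have h3 := (H.hRP hq (by rw [hqx]; exact h2)).1
          have h4 : q = x := h3.symm.trans hqx
          exact hxR (h4 ▸ hq)
        · exact Or.inr (Or.inl ⟨h2, image_mono subset_union_right h1⟩)
        · exact (hxR h2).elim
    rw [hcov, e1] at hG
    exact hG
  obtain ⟨g, hg⟩ := hGu.exists_homeo_univ
  have gP : ∀ x ∈ P, g x = h x := fun x hx => by rw [hg, hGF (Or.inl hx), hFP hx]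
  have gT : ∀ x ∈ T, g x = θ x := fun x hx => by rw [hg, hGF (Or.inr hx), hFT hx]
  have gR : ∀ x ∈ R, g x = x := fun x hx => by rw [hg, hGR hx]
  refine ⟨g, fun x => ?_, gP, gR, fun x hx => ?_⟩
  · rcases hcovx x with h1 | h1 | h1
    · rw [gP x h1]
      exact (hh x).trans_le b5
    · rw [gT x h1]
      have h2 := hθd x h1
      have h3 := hvd3 (θ x) (hθ.maps h1)
      have h4 := dist_triangle (θ x) (v (θ x)) x
      rw [dist_comm (θ x) (v (θ x))] at h4
      linarith
    · rw [gR x h1, dist_self]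
      exact he
  · rcases hcovx x with h1 | h1 | h1
    · rw [gP x h1]
      exact hS x hx
    · rw [gT x h1]
      exact hθB x (Or.inl ⟨hx, h1⟩)
    · exact gR x h1

end

end Str

end Pool.Agent.Work.MP_017613_gt
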