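import Mathlib

/-!
Tools for supports of homeomorphisms: splitting over disjoint closed sets, extension by the
identity, restriction, Lebesgue numbers, transport.
-/

set_option linter.unusedSectionVars false

open Set Topology Metric Filter

namespace Pool.Agent.Work.MP_017613_gt

namespace Supp

/-! ### (a) splitting -/

section Split

variable {M : Type*} [MetricSpace M] [CompactSpace M]

/-- pairwise disjoint closed sets of a compact space have positive distance -/
theorem exists_dist {ι : Type*} [Finite ι] {C : ι → Set M} (hC : ∀ i, IsClosed (C i))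
    (hd : Pairwise fun i j => Disjoint (C i) (C j)) :
    ∃ δ > 0, ∀ i j, i ≠ j → ∀ x ∈ C i, ∀ y ∈ C j, δ ≤ dist x y := by
  have h : ∀ i j, ∀ᶠ δ in 𝓝[>] (0 : ℝ), i ≠ j → ∀ x ∈ C i, ∀ y ∈ C j, δ ≤ dist x y := by
    intro i j
    by_cases hij : i = j
    · exact Eventually.of_forall fun δ h => (h hij).elim
    · obtain ⟨δ, hδ, h⟩ := (hd hij).exists_thickenings (hC i).isCompact (hC j)
      filter_upwards [Ioo_mem_nhdsGT hδ] with t ht _ x hx y hy
      by_contra hcon
      push Not at hcon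
      have h1 : x ∈ thickening δ (C i) := self_subset_thickening hδ _ hx
      have h2 : x ∈ thickening δ (C j) := mem_thickening_iff.2 ⟨y, hy, hcon.trans ht.2⟩
      exact disjoint_left.1 h h1 h2
  obtain ⟨δ, h1, h2⟩ := ((eventually_all.2 fun i => eventually_all.2 fun j => h i j).and
    self_mem_nhdsWithin).exists
  exact ⟨δ, h2, h1⟩

/-- **(a)** a small homeomorphism supported in a finite disjoint union of closed sets is a product
of homeomorphisms supported in the single sets -/
theorem split_disjoint {ι : Type*} [Finite ι] {C : ι → Set M} (hC : ∀ i, IsClosed (C i))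
    (hd : Pairwise fun i j => Disjoint (C i) (C j)) :
    ∃ δ > 0, ∀ g : M ≃ₜ M, (∀ x, dist (g x) x < δ) → (∀ x ∉ ⋃ i, C i, g x = x) →
      ∃ G : ι → (M ≃ₜ M), (∀ i, ∀ x ∉ C i, G i x = x) ∧ (∀ i, ∀ x ∈ C i, G i x = g x) ∧
        (∀ i, ∀ x ∈ C i, g x ∈ C i) ∧ g ∈ Subgroup.closure (range G) := by
  classical
  obtain ⟨δ, hδ, hdist⟩ := exists_dist hC hd
  refine ⟨δ, hδ, fun g hg hs => ?_⟩
  have hmem : ∀ i, ∀ x ∈ C i, g x ∈ C i := by
    intro i x hx
    have h1 : g x ∈ ⋃ i, C i := by
      by_contra hcon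
      have h2 : g (g x) = g x := hs _ hcon
      have h3 : g x = x := g.injective h2
      exact hcon (by rw [h3]; exact mem_iUnion.2 ⟨i, hx⟩)
    obtain ⟨j, hj⟩ := mem_iUnion.1 h1
    by_cases hij : j = i
    · rw [← hij]; exact hj
    · exact absurd (hg x) (not_lt.2 (hdist j i hij _ hj _ hx))
  have hmem' : ∀ i, ∀ x ∈ C i, g.symm x ∈ C i := by
    intro i x hx
    have h1 : g.symm x ∈ ⋃ i, C i := by
      by_contra hcon
      have h2 : g (g.symm x) = g.symm x := hs _ hcon
      rw [g.apply_symm_apply] at h2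
      exact hcon (by rw [← h2]; exact mem_iUnion.2 ⟨i, hx⟩)
    obtain ⟨j, hj⟩ := mem_iUnion.1 h1
    by_cases hij : j = i
    · rw [← hij]; exact hj
    · have h2 := hg (g.symm x)
      rw [g.apply_symm_apply, dist_comm] at h2
      exact absurd h2 (not_lt.2 (hdist j i hij _ hj _ hx))
  have hfr : ∀ i, ∀ x ∈ frontier (C i), g x = x := by
    intro i x hx
    have hxC : x ∈ C i := (hC i).frontier_subset hx
    have hO : IsOpen (⋃ j ∈ ({i}ᶜ : Set ι), C j)ᶜ :=
      ((Set.toFinite _).isClosed_biUnion fun j _ => hC j).isOpen_compl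
    have hxO : x ∈ (⋃ j ∈ ({i}ᶜ : Set ι), C j)ᶜ := by
      intro h
      obtain ⟨j, hj, hxj⟩ := mem_iUnion₂.1 h
      exact disjoint_left.1 (hd hj) hxj hxC
    have h1 : x ∈ closure ((C i)ᶜ) := by
      rw [frontier_eq_closure_inter_closure] at hx
      exact hx.2
    have h2 : x ∈ closure ((⋃ j ∈ ({i}ᶜ : Set ι), C j)ᶜ ∩ (C i)ᶜ) :=
      hO.inter_closure ⟨hxO, h1⟩
    have h3 : IsClosed {y | g y = y} := isClosed_eq g.continuous continuous_id
    refine (closure_minimal ?_ h3) h2
    rintro y ⟨hy1, hy2⟩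
    refine hs y fun h => ?_
    obtain ⟨j, hj⟩ := mem_iUnion.1 h
    by_cases hij : j = i
    · exact hy2 (by rw [← hij]; exact hj)
    · exact hy1 (mem_iUnion₂.2 ⟨j, hij, hj⟩)
  have hfr' : ∀ i, ∀ x ∈ frontier (C i), g.symm x = x := fun i x hx => by
    rw [Homeomorph.symm_apply_eq, hfr i x hx]
  let G : ι → (M ≃ₜ M) := fun i =>
    { toFun := (C i).piecewise g id
      invFun := (C i).piecewise g.symm id
      left_inv := fun x => by
        by_cases hx : x ∈ C i
        · rw [piecewise_eq_of_mem _ _ _ hx, piecewise_eq_of_mem _ _ _ (hmem i x hx),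
            g.symm_apply_apply]
        · rw [piecewise_eq_of_notMem _ _ _ hx, id, piecewise_eq_of_notMem _ _ _ hx, id]
      right_inv := fun x => by
        by_cases hx : x ∈ C i
        · rw [piecewise_eq_of_mem _ _ _ hx, piecewise_eq_of_mem _ _ _ (hmem' i x hx),
            g.apply_symm_apply]
        · rw [piecewise_eq_of_notMem _ _ _ hx, id, piecewise_eq_of_notMem _ _ _ hx, id]
      continuous_toFun := Continuous.piecewise (hfr i) g.continuous continuous_id
      continuous_invFun := Continuous.piecewise (hfr' i) g.symm.continuous continuous_id }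
  have hG1 : ∀ i, ∀ x ∉ C i, G i x = x := fun i x hx => piecewise_eq_of_notMem _ _ _ hx
  have hG2 : ∀ i, ∀ x ∈ C i, G i x = g x := fun i x hx => piecewise_eq_of_mem _ _ _ hx
  refine ⟨G, hG1, hG2, hmem, ?_⟩
  have key : ∀ s : Finset ι, ∃ f ∈ Subgroup.closure (range G), (∀ i ∈ s, ∀ x ∈ C i, f x = g x) ∧
      ∀ x, (∀ i ∈ s, x ∉ C i) → f x = x := by
    intro s
    induction s using Finset.induction_on with
    | empty => exact ⟨1, Subgroup.one_mem _, fun i hi => (Finset.notMem_empty i hi).elim,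
        fun x _ => rfl⟩
    | insert i s hi ih =>
      obtain ⟨f, f1, f2, f3⟩ := ih
      refine ⟨G i * f, Subgroup.mul_mem _ (Subgroup.subset_closure (mem_range_self i)) f1, ?_, ?_⟩
      · intro j hj x hx
        change G i (f x) = g x
        rcases Finset.mem_insert.1 hj with rfl | hj
        · rw [f3 x fun l hl hxl => ?_]
          · exact hG2 j x hx
          · refine disjoint_left.1 (hd (i := l) (j := j) ?_) hxl hx
            rintro rfl
            exact hi hl
        · rw [f2 j hj x hx]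
          refine hG1 i _ fun h => ?_
          refine disjoint_left.1 (hd (i := i) (j := j) ?_) h (hmem j x hx)
          rintro rfl
          exact hi hj
      · intro x hx
        change G i (f x) = x
        rw [f3 x fun j hj => hx j (Finset.mem_insert_of_mem hj)]
        exact hG1 i x (hx i (Finset.mem_insert_self i s))
  have := Fintype.ofFinite ι
  obtain ⟨f, f1, f2, f3⟩ := key Finset.univ
  have : f = g := by
    ext x
    by_cases hx : x ∈ ⋃ i, C i
    · obtain ⟨i, hi⟩ := mem_iUnion.1 hx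
      exact f2 i (Finset.mem_univ i) x hi
    · rw [f3 x fun i _ hxi => hx (mem_iUnion.2 ⟨i, hxi⟩), hs x hx]
  rw [← this]
  exact f1

/-- **(a)**, for subgroups -/
theorem mem_of_split {ι : Type*} [Finite ι] {C : ι → Set M} (hC : ∀ i, IsClosed (C i))
    (hd : Pairwise fun i j => Disjoint (C i) (C j)) :
    ∃ δ > 0, ∀ H : Subgroup (M ≃ₜ M), ∀ g : M ≃ₜ M, (∀ x, dist (g x) x < δ) →
      (∀ x ∉ ⋃ i, C i, g x = x) →
      (∀ i, ∀ f : M ≃ₜ M, (∀ x ∉ C i, f x = x) → (∀ x ∈ C i, f x = g x) → f ∈ H) → g ∈ H := by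
  obtain ⟨δ, hδ, h⟩ := split_disjoint hC hd
  refine ⟨δ, hδ, fun H g hg hs hH => ?_⟩
  obtain ⟨G, h1, h2, -, h4⟩ := h g hg hs
  refine (Subgroup.closure_le H).2 ?_ h4
  rintro _ ⟨i, rfl⟩
  exact hH i _ (h1 i) (h2 i)

end Split

/-! ### (b) extension by the identity and restriction -/

section Ext

variable {M : Type*} [TopologicalSpace M]

/-- homeomorphisms of `Q` which are the identity on `P ∩ Q` -/
def fixS (P Q : Set M) : Subgroup (Q ≃ₜ Q) where
  carrier := {h | ∀ x : Q, (x : M) ∈ P → h x = x}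
  mul_mem' := fun {a b} ha hb x hx => by
    change a (b x) = x
    rw [hb x hx, ha x hx]
  one_mem' := fun x _ => rfl
  inv_mem' := fun {a} ha x hx => by
    change a.symm x = x
    rw [Homeomorph.symm_apply_eq, ha x hx]

/-- homeomorphisms of `M` which are the identity on `P` -/
def fixM (P : Set M) : Subgroup (M ≃ₜ M) where
  carrier := {h | ∀ x ∈ P, h x = x}
  mul_mem' := fun {a b} ha hb x hx => by
    change a (b x) = x
    rw [hb x hx, ha x hx]
  one_mem' := fun x _ => rfl
  inv_mem' := fun {a} ha x hx => by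
    change a.symm x = x
    rw [Homeomorph.symm_apply_eq, ha x hx]

theorem mem_fixS {P Q : Set M} {h : Q ≃ₜ Q} : h ∈ fixS P Q ↔ ∀ x : Q, (x : M) ∈ P → h x = x :=
  Iff.rfl

theorem mem_fixM {P : Set M} {h : M ≃ₜ M} : h ∈ fixM P ↔ ∀ x ∈ P, h x = x := Iff.rfl

open Classical in
/-- extension by the identity, as a function -/
noncomputable def extF {Q : Set M} (h : Q → Q) (x : M) : M := if hx : x ∈ Q then h ⟨x, hx⟩ else x

theorem extF_mem {Q : Set M} (h : Q → Q) (x : Q) : extF h x = h x := dif_pos x.2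

theorem extF_mem' {Q : Set M} (h : Q → Q) {x : M} (hx : x ∈ Q) : extF h x = h ⟨x, hx⟩ := dif_pos hx

theorem extF_notMem {Q : Set M} (h : Q → Q) {x : M} (hx : x ∉ Q) : extF h x = x := dif_neg hx

theorem extF_id {P Q : Set M} {h : Q → Q} (hh : ∀ x : Q, (x : M) ∈ P → h x = x) {x : M}
    (hx : x ∈ P) : extF h x = x := by
  by_cases hQ : x ∈ Q
  · rw [extF_mem' h hQ, hh ⟨x, hQ⟩ hx]
  · exact extF_notMem h hQ

theorem continuous_extF {P Q : Set M} (hP : IsClosed P) (hQ : IsClosed Q) (hPQ : P ∪ Q = univ)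
    {h : Q → Q} (hc : Continuous h) (hh : ∀ x : Q, (x : M) ∈ P → h x = x) :
    Continuous (extF h) := by
  rw [← continuousOn_univ, ← hPQ]
  refine ContinuousOn.union_of_isClosed ?_ ?_ hP hQ
  · exact continuousOn_id.congr fun x hx => extF_id hh hx
  · rw [continuousOn_iff_continuous_domRestrict]
    have : Q.domRestrict (extF h) = fun x : Q => (h x : M) := by
      funext x
      exact extF_mem h x
    rw [this]
    exact continuous_subtype_val.comp hc

theorem extF_comp {Q : Set M} (f g : Q → Q) (x : M) : extF f (extF g x) = extF (fun x => f (g x)) x := by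
  by_cases hx : x ∈ Q
  · rw [extF_mem' g hx, extF_mem' _ hx, extF_mem]
  · rw [extF_notMem g hx, extF_notMem _ hx, extF_notMem _ hx]

theorem extF_self {Q : Set M} (x : M) : extF (fun x : Q => x) x = x := by
  by_cases hx : x ∈ Q
  · rw [extF_mem' _ hx]
  · exact extF_notMem _ hx

/-- **(b)** extension by the identity -/
noncomputable def extHom {P Q : Set M} (hP : IsClosed P) (hQ : IsClosed Q) (hPQ : P ∪ Q = univ) :
    fixS P Q →* (M ≃ₜ M) where
  toFun h :=
    { toFun := extF h.1
      invFun := extF h.1.symm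
      left_inv := fun x => by
        rw [extF_comp]
        simp only [Homeomorph.symm_apply_apply]
        exact extF_self x
      right_inv := fun x => by
        rw [extF_comp]
        simp only [Homeomorph.apply_symm_apply]
        exact extF_self x
      continuous_toFun := continuous_extF hP hQ hPQ h.1.continuous h.2
      continuous_invFun := continuous_extF hP hQ hPQ h.1.symm.continuous fun x hx => by
        rw [Homeomorph.symm_apply_eq]
        exact (h.2 x hx).symm }
  map_one' := by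
    ext x
    exact extF_self x
  map_mul' f g := by
    ext x
    exact (extF_comp f.1 g.1 x).symm

theorem extHom_apply {P Q : Set M} (hP : IsClosed P) (hQ : IsClosed Q) (hPQ : P ∪ Q = univ)
    (h : fixS P Q) (x : Q) : extHom hP hQ hPQ h x = h.1 x := extF_mem _ x

theorem extHom_apply' {P Q : Set M} (hP : IsClosed P) (hQ : IsClosed Q) (hPQ : P ∪ Q = univ)
    (h : fixS P Q) {x : M} (hx : x ∈ P) : extHom hP hQ hPQ h x = x := extF_id h.2 hx

theorem exists_ext {P Q : Set M} (hP : IsClosed P) (hQ : IsClosed Q) (hPQ : P ∪ Q = univ)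
    (h : Q ≃ₜ Q) (hh : ∀ x : Q, (x : M) ∈ P → h x = x) :
    ∃ H : M ≃ₜ M, (∀ x : Q, H x = h x) ∧ ∀ x ∈ P, H x = x :=
  ⟨extHom hP hQ hPQ ⟨h, hh⟩, fun x => extHom_apply hP hQ hPQ _ x,
    fun _ hx => extHom_apply' hP hQ hPQ _ hx⟩

theorem maps_of_fix {P Q : Set M} (hPQ : P ∪ Q = univ) {H : M ≃ₜ M} (hH : ∀ x ∈ P, H x = x)
    {x : M} (hx : x ∈ Q) : H x ∈ Q := by
  by_contra hcon
  have h1 : H x ∈ P := by
    have : H x ∈ P ∪ Q := by rw [hPQ]; trivial
    exact this.resolve_right hcon
  have h2 : H x = x := H.injective (hH _ h1)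
  exact hcon (by rw [h2]; exact hx)

/-- **(b)** restriction -/
def restrHom {P Q : Set M} (hPQ : P ∪ Q = univ) : fixM P →* (Q ≃ₜ Q) where
  toFun H :=
    { toFun := fun x => ⟨H.1 x, maps_of_fix hPQ H.2 x.2⟩
      invFun := fun x => ⟨H.1.symm x, maps_of_fix hPQ ((fixM P).inv_mem H.2) x.2⟩
      left_inv := fun x => Subtype.ext (H.1.symm_apply_apply x)
      right_inv := fun x => Subtype.ext (H.1.apply_symm_apply x)
      continuous_toFun := by fun_prop
      continuous_invFun := by fun_prop }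
  map_one' := rfl
  map_mul' _ _ := rfl

theorem restrHom_apply {P Q : Set M} (hPQ : P ∪ Q = univ) (H : fixM P) (x : Q) :
    (restrHom hPQ H x : M) = H.1 x := rfl

theorem exists_restr {P Q : Set M} (hPQ : P ∪ Q = univ) (H : M ≃ₜ M) (hH : ∀ x ∈ P, H x = x) :
    ∃ h : Q ≃ₜ Q, (∀ x : Q, (h x : M) = H x) ∧ ∀ x : Q, (x : M) ∈ P → h x = x :=
  ⟨restrHom hPQ ⟨H, hH⟩, fun _ => rfl, fun x hx => Subtype.ext (hH x hx)⟩

theorem restr_ext {P Q : Set M} (hP : IsClosed P) (hQ : IsClosed Q) (hPQ : P ∪ Q = univ)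
    (H : fixM P) (h : fixS P Q) (hh : h.1 = restrHom hPQ H) : extHom hP hQ hPQ h = H := by
  ext x
  have hx : x ∈ P ∪ Q := by rw [hPQ]; trivial
  rcases hx with hx | hx
  · rw [extHom_apply' hP hQ hPQ h hx]
    exact (H.2 x hx).symm
  · rw [show (extHom hP hQ hPQ h) x = h.1 ⟨x, hx⟩ from extHom_apply hP hQ hPQ h ⟨x, hx⟩, hh]
    rfl

end Ext

/-! ### (c) Lebesgue numbers -/

section Leb

variable {M : Type*} [MetricSpace M] [CompactSpace M]

/-- **(c)** small sets are contained in a member of a family whose interiors cover -/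
theorem small_supp {Rb : Set (Set M)} (hR : ∀ x, ∃ P ∈ Rb, x ∈ interior P) :
    ∃ ρ > 0, ∀ S : Set M, S.Nonempty → (∀ x ∈ S, ∀ y ∈ S, dist x y < ρ) →
      ∃ P ∈ Rb, S ⊆ interior P := by
  obtain ⟨δ, hδ, h⟩ := lebesgue_number_lemma_of_metric (s := (univ : Set M))
    (c := fun P : Rb => interior (P : Set M)) isCompact_univ (fun P => isOpen_interior)
    (fun x _ => by
      obtain ⟨P, hP, hx⟩ := hR x
      exact mem_iUnion.2 ⟨⟨P, hP⟩, hx⟩)
  refine ⟨δ, hδ, fun S ⟨x, hx⟩ hS => ?_⟩
  obtain ⟨P, hP⟩ := h x (mem_univ x)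
  exact ⟨P, P.2, fun y hy => hP (mem_ball.2 (hS y hy x hx))⟩

/-- **(c)**, for homeomorphisms; the family must be non-empty -/
theorem small_supp_homeo {Rb : Set (Set M)} (hne : Rb.Nonempty)
    (hR : ∀ x, ∃ P ∈ Rb, x ∈ interior P) :
    ∃ ρ > 0, ∀ (g : M ≃ₜ M) (S : Set M), (∀ x ∉ S, g x = x) →
      (∀ x ∈ S, ∀ y ∈ S, dist x y < ρ) → ∃ P ∈ Rb, ∀ x ∉ P, g x = x := by
  obtain ⟨ρ, hρ, h⟩ := small_supp hR
  refine ⟨ρ, hρ, fun g S hg hS => ?_⟩
  rcases S.eq_empty_or_nonempty with rfl | hSn
  · exact ⟨hne.choose, hne.choose_spec, fun x _ => hg x (notMem_empty x)⟩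
  · obtain ⟨P, hP, hSP⟩ := h S hSn hS
    exact ⟨P, hP, fun x hx => hg x fun hxS => hx (interior_subset (hSP hxS))⟩

end Leb

/-! ### (d) transport -/

section Transport

variable {M N : Type*} [MetricSpace M] [CompactSpace M] [MetricSpace N] [CompactSpace N]

/-- **(d)** conjugates of small homeomorphisms are small -/
theorem conj_small (e : M ≃ₜ N) {ε : ℝ} (hε : 0 < ε) : ∃ δ > 0, ∀ g : N ≃ₜ N,
    (∀ y, dist (g y) y < δ) → ∀ x, dist (((e.trans g).trans e.symm) x) x < ε := by
  obtain ⟨δ, hδ, h⟩ := Metric.uniformContinuous_iff.1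
    (CompactSpace.uniformContinuous_of_continuous e.symm.continuous) ε hε
  refine ⟨δ, hδ, fun g hg x => ?_⟩
  have := h (hg (e x))
  rw [e.symm_apply_apply] at this
  exact this

/-- conjugation with a homeomorphism, as an isomorphism of groups -/
def conjE {M N : Type*} [TopologicalSpace M] [TopologicalSpace N] (e : M ≃ₜ N) :
    (M ≃ₜ M) ≃* (N ≃ₜ N) where
  toFun g := (e.symm.trans g).trans e
  invFun g := (e.trans g).trans e.symm
  left_inv g := by
    ext x
    simp
  right_inv g := by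
    ext x
    simp
  map_mul' f g := by
    ext x
    change e (f (g (e.symm x))) = e (f (e.symm (e (g (e.symm x)))))
    rw [e.symm_apply_apply]

theorem conjE_apply {M N : Type*} [TopologicalSpace M] [TopologicalSpace N] (e : M ≃ₜ N)
    (g : M ≃ₜ M) (y : N) : conjE e g y = e (g (e.symm y)) := rfl

theorem conjE_symm_apply {M N : Type*} [TopologicalSpace M] [TopologicalSpace N] (e : M ≃ₜ N)
    (g : N ≃ₜ N) (x : M) : (conjE e).symm g x = e.symm (g (e x)) := rfl

/-- small homeomorphisms of a closed subset, extended by the identity, are small -/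
theorem ext_small {M : Type*} [MetricSpace M] {P Q : Set M} (hP : IsClosed P) (hQ : IsClosed Q)
    (hPQ : P ∪ Q = univ) (h : fixS P Q) {δ : ℝ} (hδ : 0 < δ) (hh : ∀ x : Q, dist (h.1 x) x < δ)
    (x : M) : dist (extHom hP hQ hPQ h x) x < δ := by
  have hx : x ∈ P ∪ Q := by rw [hPQ]; trivial
  rcases hx with hx | hx
  · rw [extHom_apply' hP hQ hPQ h hx, dist_self]
    exact hδ
  · rw [show (extHom hP hQ hPQ h) x = h.1 ⟨x, hx⟩ from extHom_apply hP hQ hPQ h ⟨x, hx⟩]
    exact hh ⟨x, hx⟩

/-- inverses of small homeomorphisms are small -/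
theorem symm_small {M : Type*} [MetricSpace M] {g : M ≃ₜ M} {δ : ℝ}
    (hg : ∀ x, dist (g x) x < δ) (x : M) : dist (g.symm x) x < δ := by
  have := hg (g.symm x)
  rw [g.apply_symm_apply, dist_comm] at this
  exact this

/-- products of small homeomorphisms -/
theorem mul_small {M : Type*} [MetricSpace M] {f g : M ≃ₜ M} {δ δ' : ℝ}
    (hf : ∀ x, dist (f x) x < δ) (hg : ∀ x, dist (g x) x < δ') (x : M) :
    dist ((f * g) x) x < δ + δ' := by
  change dist (f (g x)) x < δ + δ'
  calc dist (f (g x)) x ≤ dist (f (g x)) (g x) + dist (g x) x := dist_triangle _ _ _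
    _ < δ + δ' := add_lt_add (hf _) (hg _)

end Transport

end Supp

end Pool.Agent.Work.MP_017613_gt
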