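import Pool.Agent.Work.MP_017613_gt.Defs
import Pool.Agent.Work.MP_017613_gt.Sph

/-!
Toolkit (T6): connectedness and uniform local connectedness of convex sets, cubes, boundaries of
cubes, and boundaries of cubes without one open facet.
-/

open Set Topology Metric

namespace Pool.Agent.Work.MP_017613_gt.T6

variable {α β : Type*} [MetricSpace α] [MetricSpace β]

/-! ### Cubes -/

lemma mem_Cb {j : ℕ} {x : Fin j → ℝ} : x ∈ Cb j ↔ ∀ i, 0 ≤ x i ∧ x i ≤ 1 := by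
  simp only [Cb, mem_Icc, Pi.le_def, Pi.zero_apply, Pi.one_apply]
  exact ⟨fun h i => ⟨h.1 i, h.2 i⟩, fun h => ⟨fun i => (h i).1, fun i => (h i).2⟩⟩

lemma Bd_subset (j : ℕ) : Bd j ⊆ Cb j := fun _ hx => hx.1

lemma isCompact_Cb (j : ℕ) : IsCompact (Cb j) := isCompact_Icc

lemma isClosed_Bd (j : ℕ) : IsClosed (Bd j) := by
  have : Bd j = Cb j ∩ ⋃ i : Fin j, ({x : Fin j → ℝ | x i = 0} ∪ {x : Fin j → ℝ | x i = 1}) := by
    ext x
    simp only [Bd, mem_ofPred_eq, mem_inter_iff, mem_iUnion, mem_union]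
  rw [this]
  refine isClosed_Icc.inter (isClosed_iUnion_of_finite fun i => IsClosed.union ?_ ?_)
  · exact isClosed_eq (continuous_apply i) continuous_const
  · exact isClosed_eq (continuous_apply i) continuous_const

lemma isCompact_Bd (j : ℕ) : IsCompact (Bd j) :=
  (isCompact_Cb j).of_isClosed_subset (isClosed_Bd j) (Bd_subset j)

/-- The centre of the cube. -/
noncomputable def ce (j : ℕ) : Fin j → ℝ := fun _ => 1 / 2

lemma mem_Cb_iff_norm {j : ℕ} {x : Fin j → ℝ} : x ∈ Cb j ↔ ‖x - ce j‖ ≤ 1 / 2 := by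
  rw [mem_Cb, pi_norm_le_iff_of_nonneg (by norm_num)]
  refine forall_congr' fun i => ?_
  simp only [Pi.sub_apply, ce, Real.norm_eq_abs, abs_le]
  constructor
  · rintro ⟨h1, h2⟩; constructor <;> linarith
  · rintro ⟨h1, h2⟩; constructor <;> linarith

lemma mem_Bd_iff_norm {j : ℕ} (_hj : 1 ≤ j) {x : Fin j → ℝ} : x ∈ Bd j ↔ ‖x - ce j‖ = 1 / 2 := by
  constructor
  · rintro ⟨hx, i, hi⟩
    refine le_antisymm (mem_Cb_iff_norm.1 hx) ?_
    refine le_trans ?_ (norm_le_pi_norm (x - ce j) i)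
    rcases hi with hi | hi
    · simp only [Pi.sub_apply, ce, hi, Real.norm_eq_abs]
      norm_num [abs_of_pos]
    · simp only [Pi.sub_apply, ce, hi, Real.norm_eq_abs]
      norm_num [abs_of_pos]
  · intro h
    have hx : x ∈ Cb j := mem_Cb_iff_norm.2 h.le
    refine ⟨hx, ?_⟩
    by_contra hc
    push Not at hc
    have : ‖x - ce j‖ < 1 / 2 := by
      rw [pi_norm_lt_iff (by norm_num)]
      intro i
      have h1 := mem_Cb.1 hx i
      have h2 := hc i
      have h3 : 0 < x i := lt_of_le_of_ne h1.1 (Ne.symm h2.1)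
      have h4 : x i < 1 := lt_of_le_of_ne h1.2 h2.2
      simp only [Pi.sub_apply, ce, Real.norm_eq_abs, abs_lt]
      constructor <;> linarith
    linarith

/-- The radial projection to the boundary. -/
noncomputable def rad (j : ℕ) (x : Fin j → ℝ) : Fin j → ℝ :=
  ce j + (2 * ‖x - ce j‖)⁻¹ • (x - ce j)

lemma rad_mem {j : ℕ} (hj : 1 ≤ j) {x : Fin j → ℝ} (hx : x ≠ ce j) : rad j x ∈ Bd j := by
  rw [mem_Bd_iff_norm hj]
  have h : 0 < ‖x - ce j‖ := norm_pos_iff.2 (sub_ne_zero.2 hx)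
  simp only [rad, add_sub_cancel_left, norm_smul, norm_inv, norm_mul, Real.norm_eq_abs, abs_norm]
  rw [abs_of_pos (by norm_num : (0:ℝ) < 2)]
  field_simp

lemma rad_of_mem {j : ℕ} (hj : 1 ≤ j) {x : Fin j → ℝ} (hx : x ∈ Bd j) : rad j x = x := by
  rw [mem_Bd_iff_norm hj] at hx
  simp only [rad, hx]
  norm_num

lemma continuousOn_rad (j : ℕ) : ContinuousOn (rad j) {ce j}ᶜ := by
  intro x hx
  have h : 0 < ‖x - ce j‖ := norm_pos_iff.2 (sub_ne_zero.2 hx)
  have h2 : 2 * ‖x - ce j‖ ≠ 0 := by positivity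
  have : ContinuousAt (rad j) x := by
    unfold rad
    fun_prop (disch := exact h2)
  exact this.continuousWithinAt

lemma dist_rad {j : ℕ} (hj : 1 ≤ j) {x y : Fin j → ℝ} (hy : y ∈ Bd j) (hx : x ≠ ce j) :
    dist (rad j x) y ≤ 2 * dist x y := by
  have h : 0 < ‖x - ce j‖ := norm_pos_iff.2 (sub_ne_zero.2 hx)
  have h1 : dist (rad j x) x = |1 / 2 - ‖x - ce j‖| := by
    rw [dist_eq_norm]
    have : rad j x - x = ((2 * ‖x - ce j‖)⁻¹ - 1) • (x - ce j) := by
      rw [rad, sub_smul, one_smul]; abel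
    rw [this, norm_smul, Real.norm_eq_abs]
    nth_rw 2 [← abs_of_pos h]
    rw [← abs_mul]
    congr 1
    field_simp
  have h2 : |1 / 2 - ‖x - ce j‖| ≤ dist x y := by
    rw [← (mem_Bd_iff_norm hj).1 hy, dist_comm, dist_eq_norm]
    refine (abs_norm_sub_norm_le _ _).trans ?_
    rw [sub_sub_sub_cancel_right]
  calc dist (rad j x) y ≤ dist (rad j x) x + dist x y := dist_triangle _ _ _
    _ ≤ dist x y + dist x y := by rw [h1]; gcongr
    _ = 2 * dist x y := by ring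

lemma Bd_nonempty {j : ℕ} (hj : 1 ≤ j) : (Bd j).Nonempty :=
  ⟨0, by rw [Bd]; exact ⟨mem_Cb.2 fun i => by simp, ⟨0, hj⟩, Or.inl rfl⟩⟩

lemma ce_not_mem_Bd {j : ℕ} (hj : 1 ≤ j) : ce j ∉ Bd j := by
  rw [mem_Bd_iff_norm hj]
  simp

/-! ### Cone extension -/

/-- Cone extension into a convex set. -/
theorem exists_cone {j : ℕ} (hj : 1 ≤ j) {E : Type*} [NormedAddCommGroup E] [NormedSpace ℝ E]
    {K : Set E} (hK : Convex ℝ K) {p : E} (hp : p ∈ K) {a : (Fin j → ℝ) → E}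
    (ha : ContinuousOn a (Bd j)) (haK : ∀ x ∈ Bd j, a x ∈ K) :
    ∃ A : (Fin j → ℝ) → E, ContinuousOn A (Cb j) ∧ EqOn A a (Bd j) ∧ (∀ x ∈ Cb j, A x ∈ K) ∧
      ∀ x ∈ Cb j, ∃ x' ∈ Bd j, dist (A x) p ≤ dist (a x') p := by
  set A : (Fin j → ℝ) → E := fun x => p + (2 * ‖x - ce j‖) • (a (rad j x) - p) with hA
  have hce : A (ce j) = p := by simp [hA]
  obtain ⟨C, hC⟩ := (isCompact_Bd j).exists_bound_of_continuousOn (ha.sub continuousOn_const)
    (f := fun x => a x - p)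
  have hC0 : 0 ≤ C := by
    obtain ⟨x, hx⟩ := Bd_nonempty hj
    exact (norm_nonneg _).trans (hC x hx)
  have cA1 : ContinuousOn A {ce j}ᶜ := by
    refine continuousOn_const.add (ContinuousOn.smul ?_ (ContinuousOn.sub ?_ continuousOn_const))
    · fun_prop
    · exact ha.comp (continuousOn_rad j) fun x hx => rad_mem hj hx
  have cA2 : ContinuousAt A (ce j) := by
    rw [Metric.continuousAt_iff]
    intro ε hε
    refine ⟨ε / (2 * (C + 1)), by positivity, fun {x} hx => ?_⟩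
    rw [hce]
    by_cases hxc : x = ce j
    · rw [hxc, hce, dist_self]; exact hε
    · have h1 : dist (A x) p = 2 * ‖x - ce j‖ * ‖a (rad j x) - p‖ := by
        rw [dist_eq_norm, hA]
        simp only [add_sub_cancel_left]
        rw [norm_smul, Real.norm_eq_abs, abs_of_nonneg (by positivity)]
      rw [h1]
      rw [dist_eq_norm] at hx
      have h2 := hC _ (rad_mem hj hxc)
      have h3 : 0 ≤ ‖x - ce j‖ := norm_nonneg _
      calc 2 * ‖x - ce j‖ * ‖a (rad j x) - p‖ ≤ 2 * ‖x - ce j‖ * (C + 1) := by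
            gcongr
            have h2' : ‖a (rad j x) - p‖ ≤ C := h2
            linarith
        _ < 2 * (ε / (2 * (C + 1))) * (C + 1) := by gcongr
        _ = ε := by field_simp
  have cA : Continuous A := by
    rw [continuous_iff_continuousAt]
    intro x
    by_cases hxc : x = ce j
    · rw [hxc]; exact cA2
    · exact cA1.continuousAt (isOpen_compl_singleton.mem_nhds hxc)
  have hle : ∀ x ∈ Cb j, 2 * ‖x - ce j‖ ≤ 1 := fun x hx => by
    have := mem_Cb_iff_norm.1 hx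
    linarith
  refine ⟨A, cA.continuousOn, ?_, ?_, ?_⟩
  · intro x hx
    have h1 := (mem_Bd_iff_norm hj).1 hx
    simp only [hA]
    rw [rad_of_mem hj hx, h1]
    norm_num
  · intro x hx
    by_cases hxc : x = ce j
    · rw [hxc, hce]; exact hp
    · have h1 := haK _ (rad_mem hj hxc)
      have h2 : A x = (1 - 2 * ‖x - ce j‖) • p + (2 * ‖x - ce j‖) • a (rad j x) := by
        simp only [hA]
        rw [sub_smul, smul_sub, one_smul]
        abel
      rw [h2]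
      exact hK hp h1 (by linarith [hle x hx]) (by positivity) (by ring)
  · intro x hx
    by_cases hxc : x = ce j
    · obtain ⟨x', hx'⟩ := Bd_nonempty hj
      exact ⟨x', hx', by rw [hxc, hce, dist_self]; exact dist_nonneg⟩
    · refine ⟨rad j x, rad_mem hj hxc, ?_⟩
      have h1 : dist (A x) p = 2 * ‖x - ce j‖ * ‖a (rad j x) - p‖ := by
        rw [dist_eq_norm, hA]
        simp only [add_sub_cancel_left]
        rw [norm_smul, Real.norm_eq_abs, abs_of_nonneg (by positivity)]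
      rw [h1, dist_eq_norm]
      have := hle x hx
      nlinarith [norm_nonneg (a (rad j x) - p)]

/-! ### Set versions of the properties -/

/-- Small spheres of any dimension in `R` bound small balls in `R`. -/
def UL (R : Set α) : Prop :=
  ∀ ε > 0, ∃ δ > 0, ∀ j, 1 ≤ j → ∀ y ∈ R, ∀ a : (Fin j → ℝ) → α, ContinuousOn a (Bd j) →
    (∀ x ∈ Bd j, a x ∈ R) → (∀ x ∈ Bd j, dist (a x) y < δ) →
    ∃ A : (Fin j → ℝ) → α, ContinuousOn A (Cb j) ∧ EqOn A a (Bd j) ∧
      ∀ x ∈ Cb j, A x ∈ R ∧ dist (A x) y < ε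

/-- Spheres of dimension `< m` in `R` bound balls in `R`. -/
def CN (m : ℕ) (R : Set α) : Prop :=
  R.Nonempty ∧ ∀ j, 1 ≤ j → j ≤ m → ∀ a : (Fin j → ℝ) → α, ContinuousOn a (Bd j) →
    (∀ x ∈ Bd j, a x ∈ R) →
    ∃ A : (Fin j → ℝ) → α, ContinuousOn A (Cb j) ∧ EqOn A a (Bd j) ∧ ∀ x ∈ Cb j, A x ∈ R

/-- Restriction of the codomain. -/
lemma exists_codRestrict {γ : Type*} [TopologicalSpace γ] {R : Set α} (hR : R.Nonempty)
    {s : Set γ} {A : γ → α} (hA : ContinuousOn A s) (h : ∀ x ∈ s, A x ∈ R) :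
    ∃ B : γ → R, ContinuousOn B s ∧ ∀ x ∈ s, (B x : α) = A x := by
  classical
  obtain ⟨p, hp⟩ := hR
  refine ⟨fun x => if h : A x ∈ R then ⟨A x, h⟩ else ⟨p, hp⟩, ?_, ?_⟩
  · rw [IsInducing.subtypeVal.continuousOn_iff]
    refine hA.congr fun x hx => ?_
    simp [h x hx]
  · intro x hx
    simp [h x hx]

theorem UL.ulc {R : Set α} (h : UL R) (k : ℕ) : ULC k R := by
  intro ε hε
  obtain ⟨δ, hδ, H⟩ := h ε hε
  refine ⟨δ, hδ, fun j hj _ y a ha hay => ?_⟩
  obtain ⟨A, cA, eA, hA⟩ := H j hj y y.2 (fun x => (a x : α))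
    (continuous_subtype_val.comp_continuousOn ha) (fun x _ => (a x).2) fun x hx => hay x hx
  obtain ⟨B, cB, hB⟩ := exists_codRestrict (R := R) ⟨y, y.2⟩ cA fun x hx => (hA x hx).1
  refine ⟨B, cB, fun x hx => ?_, fun x hx => ?_⟩
  · exact Subtype.ext (by rw [hB x (Bd_subset j hx), eA hx])
  · rw [Subtype.dist_eq, hB x hx]; exact (hA x hx).2

theorem CN.conn {m : ℕ} {R : Set α} (h : CN m R) : Conn m R := by
  refine ⟨h.1.to_subtype, fun j hj hjm a ha => ?_⟩
  obtain ⟨A, cA, eA, hA⟩ := h.2 j hj hjm (fun x => (a x : α))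
    (continuous_subtype_val.comp_continuousOn ha) (fun x _ => (a x).2)
  obtain ⟨B, cB, hB⟩ := exists_codRestrict h.1 cA fun x hx => hA x hx
  exact ⟨B, cB, fun x hx => Subtype.ext (by rw [hB x (Bd_subset j hx), eA hx])⟩

theorem CN.mono {m m' : ℕ} {R : Set α} (h : CN m R) (hm : m' ≤ m) : CN m' R :=
  ⟨h.1, fun j hj hjm => h.2 j hj (hjm.trans hm)⟩

/-- Connectedness of retracts. -/
theorem CN.retract {m : ℕ} {K : Set α} {R : Set β} (h : CN m K) {i : β → α} {r : α → β}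
    (hi : ContinuousOn i R) (hiK : ∀ x ∈ R, i x ∈ K) (hr : ContinuousOn r K)
    (hrR : ∀ x ∈ K, r x ∈ R) (hri : ∀ x ∈ R, r (i x) = x) : CN m R := by
  obtain ⟨p, hp⟩ := h.1
  refine ⟨⟨r p, hrR p hp⟩, fun j hj hjm a ha haR => ?_⟩
  obtain ⟨A, cA, eA, hA⟩ := h.2 j hj hjm (fun x => i (a x)) (hi.comp ha haR)
    fun x hx => hiK _ (haR x hx)
  refine ⟨fun x => r (A x), hr.comp cA hA, fun x hx => ?_, fun x hx => hrR _ (hA x hx)⟩
  show r (A x) = a x
  rw [eA hx]
  exact hri _ (haR x hx)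

/-- Uniform local connectedness of uniform retracts. -/
theorem UL.retract {K : Set α} {R : Set β} (h : UL K) {i : β → α} {r : α → β}
    (hi : UniformContinuousOn i R) (hiK : ∀ x ∈ R, i x ∈ K) (hr : UniformContinuousOn r K)
    (hrR : ∀ x ∈ K, r x ∈ R) (hri : ∀ x ∈ R, r (i x) = x) : UL R := by
  intro ε hε
  obtain ⟨ε', hε', h1⟩ := Metric.uniformContinuousOn_iff.1 hr ε hε
  obtain ⟨δ', hδ', h2⟩ := h ε' hε'
  obtain ⟨δ, hδ, h3⟩ := Metric.uniformContinuousOn_iff.1 hi δ' hδ'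
  refine ⟨δ, hδ, fun j hj y hy a ha haR hay => ?_⟩
  obtain ⟨A, cA, eA, hA⟩ := h2 j hj (i y) (hiK y hy) (fun x => i (a x))
    (hi.continuousOn.comp ha haR) (fun x hx => hiK _ (haR x hx))
    fun x hx => h3 _ (haR x hx) _ hy (hay x hx)
  refine ⟨fun x => r (A x), hr.continuousOn.comp cA fun x hx => (hA x hx).1, fun x hx => ?_,
    fun x hx => ⟨hrR _ (hA x hx).1, ?_⟩⟩
  · show r (A x) = a x
    rw [eA hx]
    exact hri _ (haR x hx)
  · have := h1 _ (hA x hx).1 _ (hiK y hy) (hA x hx).2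
    rwa [hri y hy] at this

/-- Convex sets. -/
theorem cn_convex {E : Type*} [NormedAddCommGroup E] [NormedSpace ℝ E] {K : Set E}
    (hK : Convex ℝ K) (hne : K.Nonempty) (m : ℕ) : CN m K := by
  obtain ⟨p, hp⟩ := hne
  refine ⟨⟨p, hp⟩, fun j hj _ a ha haK => ?_⟩
  obtain ⟨A, h1, h2, h3, -⟩ := exists_cone hj hK hp ha haK
  exact ⟨A, h1, h2, h3⟩

theorem ul_convex {E : Type*} [NormedAddCommGroup E] [NormedSpace ℝ E] {K : Set E}
    (hK : Convex ℝ K) : UL K := by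
  intro ε hε
  refine ⟨ε, hε, fun j hj y hy a ha haK hay => ?_⟩
  obtain ⟨A, h1, h2, h3, h4⟩ := exists_cone hj hK hy ha haK
  refine ⟨A, h1, h2, fun x hx => ⟨h3 x hx, ?_⟩⟩
  obtain ⟨x', hx', h5⟩ := h4 x hx
  exact h5.trans_lt (hay x' hx')

/-- Compact neighbourhood retracts of convex sets. -/
theorem ul_nbhd_retract {E : Type*} [NormedAddCommGroup E] [NormedSpace ℝ E] {C R V : Set E}
    (hC : Convex ℝ C) (hR : IsCompact R) (hRC : R ⊆ C) (hV : IsOpen V) (hRV : R ⊆ V) {r : E → E}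
    (hr : ContinuousOn r (V ∩ C)) (hrR : ∀ x ∈ V ∩ C, r x ∈ R) (hrr : ∀ x ∈ R, r x = x) :
    UL R := by
  intro ε hε
  -- a uniform modulus
  obtain ⟨δ, hδ, H⟩ : ∃ δ > 0, ∀ y ∈ R, ∀ z ∈ C, dist z y < δ → z ∈ V ∧ dist (r z) y < ε := by
    have h1 : ∀ y ∈ R, ∃ t > 0, ∀ z ∈ C, dist z y < 2 * t → z ∈ V ∧ dist (r z) y < ε / 2 := by
      intro y hy
      obtain ⟨t1, ht1, h2⟩ := Metric.isOpen_iff.1 hV y (hRV hy)
      have h3 := Metric.continuousWithinAt_iff.1 (hr y ⟨hRV hy, hRC hy⟩) (ε / 2) (by positivity)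
      obtain ⟨t2, ht2, h3⟩ := h3
      refine ⟨min t1 t2 / 2, by positivity, fun z hz hzy => ?_⟩
      have h4 : dist z y < t1 := by
        have := min_le_left t1 t2
        linarith
      have h5 : dist z y < t2 := by
        have := min_le_right t1 t2
        linarith
      have h6 := h3 ⟨h2 h4, hz⟩ h5
      rw [hrr y hy] at h6
      exact ⟨h2 h4, h6⟩
    choose! t ht h2 using h1
    obtain ⟨s, hs, hcov⟩ := hR.elim_finite_subcover_image (b := R)
      (c := fun y => ball y (min (t y) (ε / 2))) (fun y _ => isOpen_ball) (by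
        intro y hy
        exact mem_biUnion hy (mem_ball_self (lt_min (ht y hy) (by positivity))))
    obtain ⟨hfin, hcov⟩ := hcov
    rcases s.eq_empty_or_nonempty with rfl | hne
    · refine ⟨1, one_pos, fun y hy => ?_⟩
      have := hcov hy
      simp at this
    · obtain ⟨y0, hy0, hmin⟩ := hfin.exists_minimalFor t s hne
      refine ⟨t y0, ht y0 (hs hy0), fun y hy z hz hzy => ?_⟩
      obtain ⟨y1, hy1, hyy⟩ := mem_iUnion₂.1 (hcov hy)
      have h3 : t y0 ≤ t y1 := by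
        by_contra hc
        push Not at hc
        exact absurd (hmin hy1 hc.le) (not_le.2 hc)
      have h4 : dist y y1 < t y1 := lt_of_lt_of_le hyy (min_le_left _ _)
      have h5 : dist y y1 < ε / 2 := lt_of_lt_of_le hyy (min_le_right _ _)
      have h6 : dist z y1 < 2 * t y1 := by
        calc dist z y1 ≤ dist z y + dist y y1 := dist_triangle _ _ _
          _ < 2 * t y1 := by linarith
      obtain ⟨h7, h8⟩ := h2 y1 (hs hy1) z hz h6
      refine ⟨h7, ?_⟩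
      calc dist (r z) y ≤ dist (r z) y1 + dist y1 y := dist_triangle _ _ _
        _ < ε / 2 + ε / 2 := by rw [dist_comm y1 y]; linarith
        _ = ε := by ring
  refine ⟨δ, hδ, fun j hj y hy a ha haR hay => ?_⟩
  obtain ⟨A, h1, h2, h3, h4⟩ := exists_cone hj hC (hRC hy) ha fun x hx => hRC (haR x hx)
  have h5 : ∀ x ∈ Cb j, A x ∈ V ∧ dist (r (A x)) y < ε := by
    intro x hx
    obtain ⟨x', hx', h6⟩ := h4 x hx
    exact H y hy _ (h3 x hx) (h6.trans_lt (hay x' hx'))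
  refine ⟨fun x => r (A x), hr.comp h1 fun x hx => ⟨(h5 x hx).1, h3 x hx⟩, fun x hx => ?_,
    fun x hx => ⟨hrR _ ⟨(h5 x hx).1, h3 x hx⟩, (h5 x hx).2⟩⟩
  show r (A x) = a x
  rw [h2 hx]
  exact hrr _ (haR x hx)

/-! ### The cube and its boundary -/

theorem cn_Cb (m j : ℕ) : CN m (Cb j) :=
  cn_convex (convex_Icc 0 1) ⟨0, mem_Cb.2 fun i => by simp⟩ m

theorem ul_Cb (j : ℕ) : UL (Cb j) := ul_convex (convex_Icc 0 1)

theorem ul_Bd (n : ℕ) : UL (Bd n) := by
  rcases Nat.eq_zero_or_pos n with rfl | hn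
  · intro ε hε
    refine ⟨1, one_pos, fun j hj y hy => ?_⟩
    obtain ⟨-, i, -⟩ := hy
    exact i.elim0
  · refine ul_nbhd_retract (C := univ) (V := {ce n}ᶜ) convex_univ (isCompact_Bd n) (subset_univ _)
      isOpen_compl_singleton ?_ (r := rad n) ?_ ?_ ?_
    · intro x hx h
      rw [mem_singleton_iff] at h
      exact ce_not_mem_Bd hn (h ▸ hx)
    · rw [inter_univ]; exact continuousOn_rad n
    · rintro x ⟨hx, -⟩
      exact rad_mem hn hx
    · intro x hx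
      exact rad_of_mem hn hx

/-- The boundary of the `(k+1)`-cube is `(k-1)`-connected. -/
theorem cn_Bd (k : ℕ) : CN k (Bd (k + 1)) := by
  refine ⟨Bd_nonempty (by omega), fun j hj hjk a ha haB => ?_⟩
  have hn : ∀ x ∈ Bd j, ‖(2 : ℝ) • (a x - ce (k + 1))‖ = 1 := by
    intro x hx
    rw [norm_smul, (mem_Bd_iff_norm (by omega)).1 (haB x hx)]
    norm_num
  obtain ⟨G, cG, eG, hG⟩ := extend_sphere_of_finrank (k := k) (F := Fin j → ℝ)
    (by rw [Module.finrank_fin_fun]; exact hjk) (P := Cb j) (A := Bd j) (isCompact_Cb j)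
    (isCompact_Bd j) (ContinuousLinearEquiv.refl ℝ (Fin (k + 1) → ℝ))
    (f := fun x => (2 : ℝ) • (a x - ce (k + 1)))
    (ContinuousOn.const_smul (g := fun x => a x - ce (k + 1)) (ha.sub continuousOn_const) (2 : ℝ)) hn
  refine ⟨fun x => ce (k + 1) + (1 / 2 : ℝ) • G x, ?_, ?_, ?_⟩
  · exact continuousOn_const.add (ContinuousOn.const_smul (g := G) cG (1 / 2 : ℝ))
  · intro x hx
    show ce (k + 1) + (1 / 2 : ℝ) • G x = a x
    rw [eG x (Bd_subset j hx) hx, smul_smul]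
    norm_num
  · intro x hx
    rw [mem_Bd_iff_norm (by omega), add_sub_cancel_left, norm_smul, hG x hx]
    norm_num

/-! ### The boundary of the cube without one open facet -/

/-- The boundary of the cube without the open facet `x i₀ = 1`. -/
def Jn {n : ℕ} (i₀ : Fin n) : Set (Fin n → ℝ) :=
  {x | x ∈ Cb n ∧ ((∃ i, x i = 0) ∨ ∃ i, i ≠ i₀ ∧ x i = 1)}

lemma Jn_subset {n : ℕ} (i₀ : Fin n) : Jn i₀ ⊆ Bd n := by
  rintro x ⟨hx, ⟨i, hi⟩ | ⟨i, -, hi⟩⟩
  · exact ⟨hx, i, Or.inl hi⟩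
  · exact ⟨hx, i, Or.inr hi⟩

/-- The apex. -/
noncomputable def apx {n : ℕ} (i₀ : Fin n) : Fin n → ℝ := fun i => if i = i₀ then 2 else 1 / 2

/-- The weights: the cube is `{N ≤ 1}` below the apex, `Jn` is `{N = 1}`. -/
noncomputable def wt {n : ℕ} (i₀ i : Fin n) (x : Fin n → ℝ) : ℝ :=
  if i = i₀ then (2 - x i) / 2 else 2 * |x i - 1 / 2|

/-- The gauge. -/
noncomputable def ga {n : ℕ} (i₀ : Fin n) (x : Fin n → ℝ) : ℝ :=
  Finset.univ.sup' ⟨i₀, Finset.mem_univ _⟩ fun i => wt i₀ i x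

/-- The retraction of the cube onto `Jn`. -/
noncomputable def ret {n : ℕ} (i₀ : Fin n) (x : Fin n → ℝ) : Fin n → ℝ :=
  apx i₀ + (ga i₀ x)⁻¹ • (x - apx i₀)

lemma le_ga {n : ℕ} (i₀ i : Fin n) (x : Fin n → ℝ) : wt i₀ i x ≤ ga i₀ x :=
  Finset.le_sup' (fun i => wt i₀ i x) (Finset.mem_univ i)

lemma exists_ga {n : ℕ} (i₀ : Fin n) (x : Fin n → ℝ) : ∃ i, ga i₀ x = wt i₀ i x := by
  obtain ⟨i, -, hi⟩ := Finset.exists_mem_eq_sup' ⟨i₀, Finset.mem_univ _⟩ fun i => wt i₀ i x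
  exact ⟨i, hi⟩

lemma ga_pos {n : ℕ} {i₀ : Fin n} {x : Fin n → ℝ} (hx : x ∈ Cb n) : 1 / 2 ≤ ga i₀ x := by
  refine le_trans ?_ (le_ga i₀ i₀ x)
  have := (mem_Cb.1 hx i₀).2
  simp only [wt, if_true]
  linarith

lemma ga_le {n : ℕ} {i₀ : Fin n} {x : Fin n → ℝ} (hx : x ∈ Cb n) : ga i₀ x ≤ 1 := by
  obtain ⟨i, hi⟩ := exists_ga i₀ x
  rw [hi]
  have h := mem_Cb.1 hx i
  unfold wt
  split_ifs
  · linarith
  · have : |x i - 1 / 2| ≤ 1 / 2 := abs_le.2 ⟨by linarith, by linarith⟩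
    linarith

lemma continuous_wt {n : ℕ} (i₀ i : Fin n) : Continuous (wt i₀ i) := by
  unfold wt
  split_ifs
  · fun_prop
  · fun_prop

lemma continuous_ga {n : ℕ} (i₀ : Fin n) : Continuous (ga i₀) := by
  unfold ga
  exact Continuous.finset_sup'_apply _ fun i _ => continuous_wt i₀ i

lemma continuousOn_ret {n : ℕ} (i₀ : Fin n) : ContinuousOn (ret i₀) (Cb n) := by
  intro x hx
  have h : ga i₀ x ≠ 0 := by
    have := ga_pos (i₀ := i₀) hx
    linarith
  have h1 : ContinuousAt (fun x => (ga i₀ x)⁻¹) x := (continuous_ga i₀).continuousAt.inv₀ h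
  have : ContinuousAt (ret i₀) x := by
    unfold ret
    exact continuousAt_const.add (ContinuousAt.smul (f := fun x => (ga i₀ x)⁻¹)
      (g := fun x => x - apx i₀) h1 (by fun_prop))
  exact this.continuousWithinAt

lemma ret_apply_same {n : ℕ} (i₀ : Fin n) (x : Fin n → ℝ) :
    ret i₀ x i₀ = 2 - 2 * ((ga i₀ x)⁻¹ * wt i₀ i₀ x) := by
  simp only [ret, apx, wt, if_true, Pi.add_apply, Pi.smul_apply, Pi.sub_apply, smul_eq_mul]
  ring

lemma ret_apply_ne {n : ℕ} {i₀ i : Fin n} (h : i ≠ i₀) (x : Fin n → ℝ) :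
    ret i₀ x i = 1 / 2 + (ga i₀ x)⁻¹ * (x i - 1 / 2) := by
  simp only [ret, apx, if_neg h, Pi.add_apply, Pi.smul_apply, Pi.sub_apply, smul_eq_mul]

lemma ret_mem {n : ℕ} {i₀ : Fin n} {x : Fin n → ℝ} (hx : x ∈ Cb n) : ret i₀ x ∈ Jn i₀ := by
  have h0 := ga_pos (i₀ := i₀) hx
  have h1 := ga_le (i₀ := i₀) hx
  have hpos : 0 < ga i₀ x := by linarith
  have hinv : 1 ≤ (ga i₀ x)⁻¹ := (one_le_inv₀ hpos).2 h1
  have hle : ∀ i, (ga i₀ x)⁻¹ * wt i₀ i x ≤ 1 := fun i => by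
    rw [inv_mul_le_iff₀ hpos, mul_one]
    exact le_ga i₀ i x
  have hC : ret i₀ x ∈ Cb n := by
    rw [mem_Cb]
    intro i
    by_cases hi : i = i₀
    · subst hi
      rw [ret_apply_same]
      have h2 := hle i
      have h3 : wt i i x = (2 - x i) / 2 := by simp [wt]
      have h4 := (mem_Cb.1 hx i).2
      have h5 : 1 / 2 ≤ (ga i x)⁻¹ * wt i i x := by
        rw [h3]
        nlinarith
      constructor <;> linarith
    · rw [ret_apply_ne hi]
      have h2 := hle i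
      have h3 : wt i₀ i x = 2 * |x i - 1 / 2| := by simp [wt, hi]
      rw [h3] at h2
      have h4 : |(ga i₀ x)⁻¹ * (x i - 1 / 2)| ≤ 1 / 2 := by
        rw [abs_mul, abs_of_pos (by linarith : 0 < (ga i₀ x)⁻¹)]
        linarith
      obtain ⟨h5, h6⟩ := abs_le.1 h4
      constructor <;> linarith
  refine ⟨hC, ?_⟩
  obtain ⟨i, hi⟩ := exists_ga i₀ x
  have h2 : (ga i₀ x)⁻¹ * wt i₀ i x = 1 := by
    rw [← hi]; exact inv_mul_cancel₀ hpos.ne'
  by_cases hii : i = i₀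
  · subst hii
    left
    refine ⟨i, ?_⟩
    rw [ret_apply_same, h2]
    norm_num
  · have h3 : wt i₀ i x = 2 * |x i - 1 / 2| := by simp [wt, hii]
    rw [h3] at h2
    have h4 : |(ga i₀ x)⁻¹ * (x i - 1 / 2)| = 1 / 2 := by
      rw [abs_mul, abs_of_pos (by linarith : 0 < (ga i₀ x)⁻¹)]
      linarith
    rcases (abs_eq (by norm_num : (0:ℝ) ≤ 1 / 2)).1 h4 with h5 | h5
    · right
      refine ⟨i, hii, ?_⟩
      rw [ret_apply_ne hii, h5]
      norm_num
    · left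
      refine ⟨i, ?_⟩
      rw [ret_apply_ne hii, h5]
      norm_num

lemma ga_of_mem {n : ℕ} {i₀ : Fin n} {x : Fin n → ℝ} (hx : x ∈ Jn i₀) : ga i₀ x = 1 := by
  refine le_antisymm (ga_le hx.1) ?_
  obtain ⟨i, hi⟩ | ⟨i, hii, hi⟩ := hx.2
  · refine le_trans ?_ (le_ga i₀ i x)
    unfold wt
    split_ifs
    · rw [hi]; norm_num
    · rw [hi]; norm_num [abs_of_pos]
  · refine le_trans ?_ (le_ga i₀ i x)
    unfold wt
    rw [if_neg hii, hi]
    norm_num [abs_of_pos]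

lemma ret_of_mem {n : ℕ} {i₀ : Fin n} {x : Fin n → ℝ} (hx : x ∈ Jn i₀) : ret i₀ x = x := by
  unfold ret
  rw [ga_of_mem hx, inv_one, one_smul]
  abel

lemma isClosed_Jn {n : ℕ} (i₀ : Fin n) : IsClosed (Jn i₀) := by
  have : Jn i₀ = Cb n ∩ ((⋃ i : Fin n, {x : Fin n → ℝ | x i = 0}) ∪
      ⋃ i : Fin n, ({x : Fin n → ℝ | x i = 1} ∩ {_x | i ≠ i₀})) := by
    ext x
    simp only [Jn, mem_ofPred_eq, mem_inter_iff, mem_iUnion, mem_union]
    constructor
    · rintro ⟨h, h' | ⟨i, h1, h2⟩⟩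
      · exact ⟨h, Or.inl h'⟩
      · exact ⟨h, Or.inr ⟨i, h2, h1⟩⟩
    · rintro ⟨h, h' | ⟨i, h1, h2⟩⟩
      · exact ⟨h, Or.inl h'⟩
      · exact ⟨h, Or.inr ⟨i, h2, h1⟩⟩
  rw [this]
  refine isClosed_Icc.inter ((isClosed_iUnion_of_finite fun i => ?_).union
    (isClosed_iUnion_of_finite fun i => ?_))
  · exact isClosed_eq (continuous_apply i) continuous_const
  · by_cases h : i = i₀
    · simp [h]
    · simp only [ne_eq, h, not_false_eq_true]
      have : ({x : Fin n → ℝ | x i = 1} ∩ {_x | True}) = {x : Fin n → ℝ | x i = 1} := by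
        ext x; simp
      rw [this]
      exact isClosed_eq (continuous_apply i) continuous_const

lemma isCompact_Jn {n : ℕ} (i₀ : Fin n) : IsCompact (Jn i₀) :=
  (isCompact_Cb n).of_isClosed_subset (isClosed_Jn i₀) fun _ hx => hx.1

theorem cn_Jn {n : ℕ} (i₀ : Fin n) (m : ℕ) : CN m (Jn i₀) :=
  (cn_Cb m n).retract (i := fun x => x) (r := ret i₀) continuousOn_id (fun _ hx => hx.1)
    (continuousOn_ret i₀) (fun _ hx => ret_mem hx) fun _ hx => ret_of_mem hx

theorem ul_Jn {n : ℕ} (i₀ : Fin n) : UL (Jn i₀) :=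
  (ul_Cb n).retract (i := fun x => x) (r := ret i₀) uniformContinuous_id.uniformContinuousOn (fun _ hx => hx.1)
    ((isCompact_Cb n).uniformContinuousOn_of_continuous (continuousOn_ret i₀))
    (fun _ hx => ret_mem hx) fun _ hx => ret_of_mem hx

/-! ### The statements for the types -/

theorem conn_Cb (k j : ℕ) : Conn k (Cb j) := (cn_Cb k j).conn

theorem ulc_Cb (k j : ℕ) : ULC k (Cb j) := (ul_Cb j).ulc k

theorem conn_Bd (k : ℕ) : Conn k (Bd (k + 1)) := (cn_Bd k).conn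

theorem conn_Bd' {k n : ℕ} (h : k < n) : Conn k (Bd n) := by
  obtain ⟨m, rfl⟩ : ∃ m, n = m + 1 := ⟨n - 1, by omega⟩
  exact ((cn_Bd m).mono (by omega)).conn

theorem ulc_Bd (k n : ℕ) : ULC k (Bd n) := (ul_Bd n).ulc k

theorem conn_Jn (k : ℕ) {n : ℕ} (i₀ : Fin n) : Conn k (Jn i₀) := (cn_Jn i₀ k).conn

theorem ulc_Jn (k : ℕ) {n : ℕ} (i₀ : Fin n) : ULC k (Jn i₀) := (ul_Jn i₀).ulc k

/-! ### Invariance for types -/

theorem Conn_mono {k k' : ℕ} (h : Conn k α) (hk : k' ≤ k) : Conn k' α :=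
  ⟨h.1, fun j hj hjk => h.2 j hj (hjk.trans hk)⟩

theorem ULC_mono {k k' : ℕ} (h : ULC k α) (hk : k' ≤ k) : ULC k' α := by
  intro ε hε
  obtain ⟨δ, hδ, H⟩ := h ε hε
  exact ⟨δ, hδ, fun j hj hjk => H j hj (hjk.trans hk)⟩

/-- Retracts of `(k-1)`-connected spaces. -/
theorem Conn_retract {k : ℕ} (h : Conn k α) {i : β → α} {r : α → β} (hi : Continuous i)
    (hr : Continuous r) (hri : ∀ x, r (i x) = x) : Conn k β := by
  obtain ⟨p⟩ := h.1
  refine ⟨⟨r p⟩, fun j hj hjk a ha => ?_⟩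
  obtain ⟨A, cA, eA⟩ := h.2 j hj hjk (fun x => i (a x)) (hi.comp_continuousOn ha)
  refine ⟨fun x => r (A x), hr.comp_continuousOn cA, fun x hx => ?_⟩
  show r (A x) = a x
  rw [eA hx]
  exact hri _

/-- Uniform retracts of `ULC` spaces. -/
theorem ULC_retract {k : ℕ} (h : ULC k α) {i : β → α} {r : α → β} (hi : UniformContinuous i)
    (hr : UniformContinuous r) (hri : ∀ x, r (i x) = x) : ULC k β := by
  intro ε hε
  obtain ⟨ε', hε', h1⟩ := Metric.uniformContinuous_iff.1 hr ε hε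
  obtain ⟨δ', hδ', h2⟩ := h ε' hε'
  obtain ⟨δ, hδ, h3⟩ := Metric.uniformContinuous_iff.1 hi δ' hδ'
  refine ⟨δ, hδ, fun j hj hjk y a ha hay => ?_⟩
  obtain ⟨A, cA, eA, hA⟩ := h2 j hj hjk (i y) (fun x => i (a x))
    (hi.continuous.comp_continuousOn ha) fun x hx => h3 (hay x hx)
  refine ⟨fun x => r (A x), hr.continuous.comp_continuousOn cA, fun x hx => ?_, fun x hx => ?_⟩
  · show r (A x) = a x
    rw [eA hx]
    exact hri _
  · have := h1 (hA x hx)
    rwa [hri y] at this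

/-- Retracts of compact `ULC` spaces. -/
theorem ULC_retract' [CompactSpace α] {k : ℕ} (h : ULC k α) {i : β → α} {r : α → β}
    (hi : Continuous i) (hr : Continuous r) (hri : ∀ x, r (i x) = x) : ULC k β := by
  have hβ : CompactSpace β := by
    have h1 : range r = univ := range_eq_univ.2 fun x => ⟨i x, hri x⟩
    exact ⟨h1 ▸ isCompact_range hr⟩
  exact ULC_retract h (CompactSpace.uniformContinuous_of_continuous hi)
    (CompactSpace.uniformContinuous_of_continuous hr) hri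

theorem Conn_homeo {k : ℕ} (h : Conn k α) (e : α ≃ₜ β) : Conn k β :=
  Conn_retract h e.symm.continuous e.continuous fun x => e.apply_symm_apply x

theorem ULC_homeo [CompactSpace α] {k : ℕ} (h : ULC k α) (e : α ≃ₜ β) : ULC k β :=
  ULC_retract' h e.symm.continuous e.continuous fun x => e.apply_symm_apply x

theorem Conn_prod {k : ℕ} (h : Conn k α) (h' : Conn k β) : Conn k (α × β) := by
  obtain ⟨p⟩ := h.1
  obtain ⟨q⟩ := h'.1
  refine ⟨⟨(p, q)⟩, fun j hj hjk a ha => ?_⟩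
  obtain ⟨A, cA, eA⟩ := h.2 j hj hjk (fun x => (a x).1) (continuous_fst.comp_continuousOn ha)
  obtain ⟨A', cA', eA'⟩ := h'.2 j hj hjk (fun x => (a x).2) (continuous_snd.comp_continuousOn ha)
  exact ⟨fun x => (A x, A' x), cA.prodMk cA', fun x hx => Prod.ext (eA hx) (eA' hx)⟩

theorem ULC_prod {k : ℕ} (h : ULC k α) (h' : ULC k β) : ULC k (α × β) := by
  intro ε hε
  obtain ⟨δ, hδ, H⟩ := h ε hε
  obtain ⟨δ', hδ', H'⟩ := h' ε hε
  refine ⟨min δ δ', lt_min hδ hδ', fun j hj hjk y a ha hay => ?_⟩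
  have hay' : ∀ x ∈ Bd j, dist (a x).1 y.1 < δ ∧ dist (a x).2 y.2 < δ' := fun x hx => by
    have h1 := hay x hx
    rw [Prod.dist_eq] at h1
    exact ⟨(le_max_left _ _).trans_lt (h1.trans_le (min_le_left _ _)),
      (le_max_right _ _).trans_lt (h1.trans_le (min_le_right _ _))⟩
  obtain ⟨A, cA, eA, hA⟩ := H j hj hjk y.1 (fun x => (a x).1)
    (continuous_fst.comp_continuousOn ha) fun x hx => (hay' x hx).1
  obtain ⟨A', cA', eA', hA'⟩ := H' j hj hjk y.2 (fun x => (a x).2)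
    (continuous_snd.comp_continuousOn ha) fun x hx => (hay' x hx).2
  refine ⟨fun x => (A x, A' x), cA.prodMk cA', fun x hx => Prod.ext (eA hx) (eA' hx),
    fun x hx => ?_⟩
  rw [Prod.dist_eq]
  exact max_lt (hA x hx) (hA' x hx)

theorem conn_convex {E : Type*} [NormedAddCommGroup E] [NormedSpace ℝ E] {K : Set E}
    (hK : Convex ℝ K) (hne : K.Nonempty) (k : ℕ) : Conn k K := (cn_convex hK hne k).conn

theorem ulc_convex {E : Type*} [NormedAddCommGroup E] [NormedSpace ℝ E] {K : Set E}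
    (hK : Convex ℝ K) (k : ℕ) : ULC k K := (ul_convex hK).ulc k

end Pool.Agent.Work.MP_017613_gt.T6
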