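import Pool.Agent.Work.MP_017613_gt.ZSet
import Pool.Agent.Work.MP_017613_gt.Rel

/-!
The extension theorem for homeomorphisms of Z-sets (relative to a control space), from the
approximation theorem and the existence of fine complexes.
-/

set_option linter.unusedSectionVars false

open Set Topology Metric

namespace Pool.Agent.Work.MP_017613_gt

namespace TR

/-- the cube -/
abbrev Cb (j : ℕ) := Fin j → unitInterval

/-- the boundary of the cube -/
def bd (j : ℕ) : Set (Cb j) := {x | ∃ i, x i = 0 ∨ x i = 1}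

section
variable {M K X : Type*} [MetricSpace M] [MetricSpace K] [MetricSpace X]

/-- approximate lifting of cubes rel boundary -/
def Lft (k : ℕ) (g : M → K) (e : ℝ) : Prop :=
  ∀ j ≤ k, ∀ (f : C(Cb j, K)) (f0 : C(bd j, M)), (∀ x : bd j, g (f0 x) = f x) →
    ∃ F : C(Cb j, M), (∀ x : bd j, F x = f0 x) ∧ ∀ x, dist (g (F x)) (f x) < e

variable {k : ℕ}

theorem Lft.mono {g : M → K} {e e' : ℝ} (h : Lft k g e) (he : e ≤ e') : Lft k g e' := by
  intro j hj f f0 h0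
  obtain ⟨F, h1, h2⟩ := h j hj f f0 h0
  exact ⟨F, h1, fun x => (h2 x).trans_le he⟩

theorem Lft.id {e : ℝ} (he : 0 < e) : Lft k (fun x : M => x) e := by
  intro j hj f f0 h0
  exact ⟨f, fun x => (h0 x).symm, fun x => by simpa using he⟩

theorem Lft.dense {g : M → K} {e : ℝ} (h : Lft k g e) (y : K) : ∃ x, dist (g x) y < e := by
  obtain ⟨F, -, h2⟩ := h 0 (Nat.zero_le k) (ContinuousMap.const _ y)
    ⟨fun x => (x.2.choose.elim0 : M), by
      have : IsEmpty (bd 0) := ⟨fun x => x.2.choose.elim0⟩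
      exact continuous_of_const fun x => (this.false x).elim⟩ fun x => x.2.choose.elim0
  exact ⟨F (fun i => i.elim0), h2 _⟩

/-- composition -/
theorem Lft.comp {h : K → X} {g : M → K} (gc : Continuous g) {a e c : ℝ}
    (hh : Lft k h a) (hg : Lft k g e) (hu : ∀ x y, dist x y < e → dist (h x) (h y) ≤ c) :
    Lft k (fun x => h (g x)) (a + c) := by
  intro j hj f f0 h0
  obtain ⟨F, h1, h2⟩ := hh j hj f ⟨fun x => g (f0 x), by fun_prop⟩ h0
  obtain ⟨G, h3, h4⟩ := hg j hj F f0 fun x => (h1 x).symm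
  refine ⟨G, h3, fun x => ?_⟩
  calc dist (h (g (G x))) (f x) ≤ dist (h (g (G x))) (h (F x)) + dist (h (F x)) (f x) :=
        dist_triangle _ _ _
    _ < a + c := by linarith [hu _ _ (h4 x), h2 x]

end

/-- the approximation property of the space `X` at the tolerance `ε`: `d` is fine enough -/
def SP (k : ℕ) (Mg Cx : ∀ (M : Type) [MetricSpace M] [CompactSpace M], Prop) (X : Type)
    [MetricSpace X] [CompactSpace X] (ε d : ℝ) : Prop :=
  0 < d ∧ ∀ (M F : Type) [MetricSpace M] [CompactSpace M] [MetricSpace F] [CompactSpace F],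
    Mg M → Cx F → ∀ (u : C(M, X)) (p : C(F, X)), Lft k u d → Lft k p d →
    ∀ W : Set M, ZS W → ∀ w₀ : C(W, F), (∀ x : W, dist (p (w₀ x)) (u x) < d) →
    ∀ r > 0, ∃ w : C(M, F), Lft k w r ∧ (∀ x, dist (p (w x)) (u x) < ε) ∧ ∀ x : W, w x = w₀ x

section
variable {k : ℕ} {Mg Cx Ul : ∀ (M : Type) [MetricSpace M] [CompactSpace M], Prop}
variable {M N : Type} [MetricSpace M] [CompactSpace M] [MetricSpace N] [CompactSpace N]

/-- a good relation -/
def Gd (k : ℕ) (Mg Cx : ∀ (M : Type) [MetricSpace M] [CompactSpace M], Prop)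
    {M N : Type} [MetricSpace M] [CompactSpace M] [MetricSpace N] [CompactSpace N]
    {W : Set M} {W' : Set N} (g : W ≃ₜ W') (C : Set (M × N)) : Prop :=
  ∃ (R : Type) (_ : MetricSpace R) (_ : CompactSpace R) (a : C(M, R)) (b : C(N, R)) (η δ : ℝ),
    0 < η ∧ δ < η ∧ SP k Mg Cx R (η / 3) δ ∧ Lft k a (δ / 2) ∧ Lft k b (δ / 2) ∧
    (∀ x : W, a x = b (g x)) ∧ C = {z | dist (a z.1) (b z.2) ≤ η}

theorem Gd.isClosed {W : Set M} {W' : Set N} {g : W ≃ₜ W'} {C : Set (M × N)}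
    (h : Gd k Mg Cx g C) : IsClosed C := by
  obtain ⟨R, _, _, a, b, η, δ, -, -, -, -, -, -, rfl⟩ := h
  exact isClosed_le (by fun_prop) continuous_const

theorem Gd.total {W : Set M} {W' : Set N} {g : W ≃ₜ W'} {C : Set (M × N)}
    (h : Gd k Mg Cx g C) (x : M) : ∃ y, (x, y) ∈ C := by
  obtain ⟨R, _, _, a, b, η, δ, h1, h2, h3, h4, h5, h6, rfl⟩ := h
  obtain ⟨y, hy⟩ := h5.dense (a x)
  refine ⟨y, ?_⟩
  change dist (a x) (b y) ≤ η
  rw [dist_comm]
  have := h3.1
  linarith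

theorem Gd.graph {W : Set M} {W' : Set N} {g : W ≃ₜ W'} {C : Set (M × N)}
    (h : Gd k Mg Cx g C) (x : W) : ((x : M), ((g x : W') : N)) ∈ C := by
  obtain ⟨R, _, _, a, b, η, δ, h1, h2, h3, h4, h5, h6, rfl⟩ := h
  change dist (a x) (b (g x)) ≤ η
  rw [h6, dist_self]
  exact h1.le

theorem Gd.swap {W : Set M} {W' : Set N} {g : W ≃ₜ W'} {C : Set (M × N)}
    (h : Gd k Mg Cx g C) : Gd k Mg Cx g.symm (Prod.swap ⁻¹' C) := by
  obtain ⟨R, i1, i2, a, b, η, δ, h1, h2, h3, h4, h5, h6, rfl⟩ := h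
  refine ⟨R, i1, i2, b, a, η, δ, h1, h2, h3, h5, h4, fun y => ?_, ?_⟩
  · rw [h6, g.apply_symm_apply]
  · ext z
    change dist (a z.2) (b z.1) ≤ η ↔ dist (b z.1) (a z.2) ≤ η
    rw [dist_comm]

/-- uniform continuity, in the form needed -/
theorem uc {A B : Type*} [MetricSpace A] [CompactSpace A] [MetricSpace B] (f : C(A, B)) {ε : ℝ}
    (hε : 0 < ε) : ∃ δ > 0, ∀ x y, dist x y < δ → dist (f x) (f y) < ε := by
  obtain ⟨δ, hδ, h⟩ := Metric.uniformContinuous_iff.1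
    (CompactSpace.uniformContinuous_of_continuous f.continuous) ε hε
  exact ⟨δ, hδ, fun x y hxy => h hxy⟩

variable (hUlM : ∀ (M : Type) [MetricSpace M] [CompactSpace M], Mg M → Ul M)
  (hUlC : ∀ (M : Type) [MetricSpace M] [CompactSpace M], Cx M → Ul M)
  (hS : ∀ (X : Type) [MetricSpace X] [CompactSpace X], Ul X → ∀ ε > 0, ∃ d, SP k Mg Cx X ε d)
  (hR : ∀ (M : Type) [MetricSpace M] [CompactSpace M], Mg M → ∀ e > 0,
    ∃ (R : Type) (_ : MetricSpace R) (_ : CompactSpace R), Cx R ∧ ∃ s : C(R, M), Lft k s e)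

theorem SP.mono {X : Type} [MetricSpace X] [CompactSpace X] {ε d d' : ℝ}
    (h : SP k Mg Cx X ε d) (hd : 0 < d') (hdd : d' ≤ d) : SP k Mg Cx X ε d' :=
  ⟨hd, fun M F _ _ _ _ hM hF u p hu hp W hW w₀ h₀ r hr =>
    h.2 M F hM hF u p (hu.mono hdd) (hp.mono hdd) W hW w₀ (fun x => (h₀ x).trans_le hdd) r hr⟩

include hUlM hUlC hS hR in
/-- a relation controlled by a space `X` is refined to a good relation which is thin in the second
variable -/
theorem refine_aux {X : Type} [MetricSpace X] [CompactSpace X] {ε δ : ℝ} (hX : SP k Mg Cx X ε δ)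
    (hM : Mg M) (hN : Mg N) {W : Set M} {W' : Set N} (g : W ≃ₜ W') (hW : ZS W)
    (a : C(M, X)) (b : C(N, X)) (ha : Lft k a (δ / 2)) (hb : Lft k b (δ / 2))
    (hg : ∀ x : W, dist (b (g x)) (a x) < δ / 2) {σ : ℝ} (hσ : 0 < σ) {ρ : ℝ} (hρ : 0 < ρ) :
    ∃ C, Gd k Mg Cx g C ∧ (∀ x y, (x, y) ∈ C → dist (a x) (b y) < ε + σ) ∧
      ∀ x y y', (x, y) ∈ C → (x, y') ∈ C → dist y y' < ρ := by
  have hδ := hX.1
  -- closeness of the approximation of the identity of `N`
  obtain ⟨τ, hτ, hbτ⟩ := uc b (ε := min (δ / 2) (σ / 2)) (by positivity)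
  set ε₁ : ℝ := min τ (ρ / 4) with hε₁
  have hε₁0 : 0 < ε₁ := by positivity
  obtain ⟨d₁, hd₁⟩ := hS N (hUlM N hN) ε₁ hε₁0
  obtain ⟨R, iR, iR', hRC, s, hs⟩ := hR N hN (min d₁ τ) (by
    have := hd₁.1
    positivity)
  have hsd : Lft k s d₁ := hs.mono (min_le_left _ _)
  have hsτ : Lft k s τ := hs.mono (min_le_right _ _)
  let p : C(R, X) := b.comp s
  have hp : Lft k p δ := by
    have := Lft.comp (k := k) s.continuous hb hsτ
      (c := δ / 2) fun x y hxy => ((hbτ x y hxy).trans_le (min_le_left _ _)).le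
    have h2 : δ / 2 + δ / 2 = δ := by ring
    rw [h2] at this
    exact this
  -- the scale of the new relation
  obtain ⟨η₁, hη₁, hp1⟩ := uc p (ε := σ / 2) (by positivity)
  obtain ⟨η₂, hη₂, hs1⟩ := uc s (ε := ρ / 4) (by positivity)
  set η : ℝ := min (η₁ / 2) (η₂ / 3) with hη
  have hη0 : 0 < η := by positivity
  obtain ⟨δ₁, hδ₁⟩ := hS R (hUlC R hRC) (η / 3) (by positivity)
  have hδ₁' := hδ₁.1
  set δ' : ℝ := min δ₁ (η / 2) with hδ'
  have hδ'0 : 0 < δ' := by positivity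
  have hδ'η : δ' < η := (min_le_right _ _).trans_lt (by linarith)
  have hSP : SP k Mg Cx R (η / 3) δ' := hδ₁.mono hδ'0 (min_le_left _ _)
  -- the map of `N`
  obtain ⟨b', hb'1, hb'2, -⟩ := hd₁.2 N R hN hRC (ContinuousMap.id N) s
    (Lft.id hd₁.1) hsd ∅ ZS.empty ⟨fun x => (x.2.elim : R), continuous_of_const
      fun x => x.2.elim⟩ (fun x => x.2.elim) (δ' / 2) (by positivity)
  have hb'3 : ∀ y, dist (s (b' y)) y < ε₁ := hb'2
  -- the map of `M`
  obtain ⟨a', ha'1, ha'2, ha'3⟩ := hX.2 M R hM hRC a p (ha.mono (by linarith)) hp W hW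
    ⟨fun x => b' (g x), by fun_prop⟩ (fun x => by
      change dist (b (s (b' (g x)))) (a x) < δ
      have h1 := hbτ _ _ ((hb'3 (g x)).trans_le (min_le_left _ _))
      have h2 := h1.trans_le (min_le_left _ _)
      linarith [dist_triangle (b (s (b' (g x)))) (b (g x)) (a x), hg x]) (δ' / 2) (by positivity)
  refine ⟨{z | dist (a' z.1) (b' z.2) ≤ η}, ⟨R, iR, iR', a', b', η, δ', hη0, hδ'η, hSP, ha'1,
    hb'1, fun x => ha'3 x, rfl⟩, ?_, ?_⟩
  · intro x y hxy
    have h0 : dist (a' x) (b' y) ≤ η := hxy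
    have h1 : dist (p (a' x)) (p (b' y)) < σ / 2 := hp1 _ _ (by
      have : η ≤ η₁ / 2 := min_le_left _ _
      linarith)
    have h2 : dist (p (a' x)) (a x) < ε := ha'2 x
    have h3 : dist (p (b' y)) (b y) < σ / 2 :=
      (hbτ _ _ ((hb'3 y).trans_le (min_le_left _ _))).trans_le (min_le_right _ _)
    have h4 := dist_triangle (a x) (p (a' x)) (b y)
    have h5 := dist_triangle (p (a' x)) (p (b' y)) (b y)
    rw [dist_comm (a x) (p (a' x))] at h4
    linarith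
  · intro x y y' hy hy'
    have h0 : dist (a' x) (b' y) ≤ η := hy
    have h0' : dist (a' x) (b' y') ≤ η := hy'
    have h1 : dist (b' y) (b' y') < η₂ := by
      have : η ≤ η₂ / 3 := min_le_right _ _
      have := dist_triangle_left (b' y) (b' y') (a' x)
      linarith
    have h2 := hs1 _ _ h1
    have h3 : dist (s (b' y)) y < ρ / 4 := (hb'3 y).trans_le (min_le_right _ _)
    have h4 : dist (s (b' y')) y' < ρ / 4 := (hb'3 y').trans_le (min_le_right _ _)
    have h5 := dist_triangle y (s (b' y)) y'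
    have h6 := dist_triangle (s (b' y)) (s (b' y')) y'
    rw [dist_comm y (s (b' y))] at h5
    linarith

include hUlM hUlC hS hR in
/-- good relations are refined to good relations which are thin in the second variable -/
theorem Gd.refine_right (hM : Mg M) (hN : Mg N) {W : Set M} {W' : Set N} {g : W ≃ₜ W'}
    (hW : ZS W) {C : Set (M × N)} (hC : Gd k Mg Cx g C) {ρ : ℝ} (hρ : 0 < ρ) :
    ∃ C', Gd k Mg Cx g C' ∧ C' ⊆ C ∧ ∀ x y y', (x, y) ∈ C' → (x, y') ∈ C' → dist y y' < ρ := by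
  obtain ⟨R, _, _, a, b, η, δ, h1, h2, h3, h4, h5, h6, rfl⟩ := hC
  have h30 := h3.1
  obtain ⟨C', h7, h8, h9⟩ := refine_aux hUlM hUlC hS hR h3 hM hN g hW a b h4 h5 (fun x => by
    rw [h6, dist_self]; positivity) (σ := η / 3) (by positivity) hρ
  refine ⟨C', h7, fun z hz => ?_, h9⟩
  have := h8 z.1 z.2 hz
  change dist (a z.1) (b z.2) ≤ η
  linarith

include hUlM hUlC hS hR in
/-- good relations are refined to thin good relations -/
theorem Gd.refine (hM : Mg M) (hN : Mg N) {W : Set M} {W' : Set N} {g : W ≃ₜ W'}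
    (hW : ZS W) (hW' : ZS W') {C : Set (M × N)} (hC : Gd k Mg Cx g C) {ρ : ℝ} (hρ : 0 < ρ) :
    ∃ C', Gd k Mg Cx g C' ∧ C' ⊆ C ∧
      (∀ x y y', (x, y) ∈ C' → (x, y') ∈ C' → dist y y' < ρ) ∧
      ∀ x x' y, (x, y) ∈ C' → (x', y) ∈ C' → dist x x' < ρ := by
  obtain ⟨C₁, h1, h2, h3⟩ := hC.refine_right hUlM hUlC hS hR hM hN hW hρ
  obtain ⟨C₂, h4, h5, h6⟩ := h1.swap.refine_right hUlM hUlC hS hR hN hM hW' hρ
  have h7 := h4.swap
  rw [Homeomorph.symm_symm] at h7
  have h8 : Prod.swap ⁻¹' C₂ ⊆ C₁ := fun z hz => by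
    have := h5 hz
    simpa using this
  exact ⟨_, h7, h8.trans h2, fun x y y' hy hy' => h3 x y y' (h8 hy) (h8 hy'),
    fun x x' y hx hx' => h6 y x x' hx hx'⟩

include hUlM hUlC hS hR in
/-- **Extension of homeomorphisms of Z-sets**, controlled over `X`. -/
theorem t_rel (X : Type) [MetricSpace X] [CompactSpace X] (hX : Ul X) {ε : ℝ} (hε : 0 < ε) :
    ∃ d > 0, ∀ (M N : Type) [MetricSpace M] [CompactSpace M] [MetricSpace N] [CompactSpace N],
      Mg M → Mg N → ∀ (u : C(M, X)) (v : C(N, X)), Lft k u d → Lft k v d →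
      ∀ (W : Set M) (W' : Set N), ZS W → ZS W' → ∀ g : W ≃ₜ W',
      (∀ x : W, dist (v (g x)) (u x) < d) →
      ∃ h : M ≃ₜ N, (∀ x : W, h x = g x) ∧ ∀ x, dist (v (h x)) (u x) < ε := by
  obtain ⟨δ, hδ⟩ := hS X hX (ε / 3) (by positivity)
  have hδ0 := hδ.1
  refine ⟨δ / 2, by positivity, ?_⟩
  intro M N _ _ _ _ hM hN u v hu hv W W' hW hW' g hg
  obtain ⟨C₀, h1, h2, -⟩ := refine_aux hUlM hUlC hS hR hδ hM hN g hW u v hu hv hg
    (σ := ε / 3) (by positivity) one_pos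
  obtain ⟨h, h3, h4⟩ := exists_homeo_of_relations {C | Gd k Mg Cx g C} (fun C hC => Gd.isClosed hC)
    (fun C hC => Gd.total hC) (fun C hC y => Gd.total (Gd.swap hC) y)
    (fun C hC ρ hρ => Gd.refine hUlM hUlC hS hR hM hN hW hW' hC hρ) h1
  refine ⟨h, fun x => h4 _ _ fun C hC => Gd.graph hC x, fun x => ?_⟩
  have := h2 x (h x) (h3 x)
  rw [dist_comm]
  linarith

end

end TR

end Pool.Agent.Work.MP_017613_gt
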