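import Pool.Agent.Work.MP_017613_gt.Statement
import Pool.Agent.Work.MP_017613_gt.TopPoly
import Pool.Agent.Work.MP_017613_gt.DiscC

/-!
# Close maps of polyhedra and CW complexes

`near_poly`, `near_cw`: if `M` is compact and `ULC (n + 1)`, then close maps `P → M` are homotopic
for all compact polyhedra and for all CW complexes `P` of dimension at most `n`.

`cw_of_min`: if `Auth0 n M` (defined by compact polyhedra) is contained in every non-trivial normal
subgroup of the homeomorphism group and there are arbitrarily small homeomorphisms, then every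
element of `Auth0 n M` is `n`-homotopic to the identity with respect to ALL CW complexes of
dimension at most `n`.
-/

set_option autoImplicit false

open Set Topology Metric
open Pool.Agent.Work.MP_017613_gt (PushOff pushOff_of_finrank)

namespace MG

universe u

/-! ## Gluing -/

/-- a function on the image of a compact set is continuous if the composite is -/
lemma continuousOn_image {α : Type*} {β Z : Type*} [TopologicalSpace α] [T2Space α]
    [TopologicalSpace β] [T2Space β] [TopologicalSpace Z] {K : Set α} (cK : IsCompact K)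
    {Ψ : α → β} (cΨ : ContinuousOn Ψ K) {G : β → Z} (hG : ContinuousOn (fun x => G (Ψ x)) K) :
    ContinuousOn G (Ψ '' K) := by
  rw [continuousOn_iff_isClosed]
  intro t ht
  have h1 : IsClosed (K ∩ (fun x => G (Ψ x)) ⁻¹' t) :=
    hG.preimage_isClosed_of_isClosed cK.isClosed ht
  have h2 : IsCompact (K ∩ (fun x => G (Ψ x)) ⁻¹' t) :=
    cK.of_isClosed_subset h1 inter_subset_left
  refine ⟨Ψ '' (K ∩ (fun x => G (Ψ x)) ⁻¹' t),
    (h2.image_of_continuousOn (cΨ.mono inter_subset_left)).isClosed, ?_⟩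
  ext y
  constructor
  · rintro ⟨hy, x, hx, rfl⟩
    exact ⟨⟨x, ⟨hx, hy⟩, rfl⟩, ⟨x, hx, rfl⟩⟩
  · rintro ⟨⟨x, ⟨hx, hxt⟩, rfl⟩, -⟩
    exact ⟨hxt, ⟨x, hx, rfl⟩⟩

section CW

open Topology.RelCWComplex (cell closedCell openCell cellFrontier map)

variable {P : Type u} [TopologicalSpace P] [T2Space P] [CWComplex (univ : Set P)]

/-- a function on a CW complex is continuous if it is continuous on every closed cell -/
lemma cw_continuous {Z : Type*} [TopologicalSpace Z] {F : P → Z}
    (h : ∀ m (e : cell (univ : Set P) m), ContinuousOn F (closedCell m e)) : Continuous F := by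
  rw [continuous_iff_isClosed]
  intro s hs
  rw [CWComplex.closed (univ : Set P) _ (subset_univ _)]
  intro m e
  rw [inter_comm]
  exact (h m e).preimage_isClosed_of_isClosed CWComplex.isClosed_closedCell hs

/-- a function on `P × I` is continuous if it is continuous on every `e × I` -/
lemma cw_continuous_prod {Z : Type*} [TopologicalSpace Z] {F : P × unitInterval → Z}
    (h : ∀ m (e : cell (univ : Set P) m),
      ContinuousOn F (closedCell m e ×ˢ (univ : Set unitInterval))) : Continuous F := by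
  have hc : ∀ x : P, Continuous fun t : unitInterval => F (x, t) := by
    intro x
    have hx : x ∈ ⋃ (m : ℕ) (e : cell (univ : Set P) m), closedCell m e := by
      rw [CWComplex.union]
      exact mem_univ x
    obtain ⟨m, e, hx⟩ := by simpa only [mem_iUnion] using hx
    exact (h m e).comp_continuous (by fun_prop) fun t => ⟨hx, mem_univ t⟩
  have h2 : Continuous fun x : P => (⟨fun t => F (x, t), hc x⟩ : C(unitInterval, Z)) := by
    apply cw_continuous
    intro m e
    rw [continuousOn_iff_continuous_domRestrict]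
    have h3 : Continuous fun p : closedCell m e × unitInterval => F (p.1.1, p.2) :=
      (h m e).comp_continuous (by fun_prop) fun p => ⟨p.1.2, mem_univ _⟩
    exact (ContinuousMap.curry ⟨_, h3⟩).continuous
  exact ContinuousMap.continuous_uncurry_of_continuous ⟨_, h2⟩

/-- `F` is continuous on `e × I` for all cells `e` of dimension `< m`; then it is continuous on
the boundary of an `m`-cell, times `I`. -/
lemma cw_frontier_prod {Z : Type*} [TopologicalSpace Z] {F : P × ℝ → Z} {m : ℕ}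
    (h : ∀ j < m, ∀ e : cell (univ : Set P) j, ContinuousOn F (closedCell j e ×ˢ Icc (0 : ℝ) 1))
    (e : cell (univ : Set P) m) :
    ContinuousOn (fun p : (Fin m → ℝ) × ℝ => F (map m e p.1, p.2))
      (sphere (0 : Fin m → ℝ) 1 ×ˢ Icc (0 : ℝ) 1) := by
  obtain ⟨I, hI⟩ := CWComplex.mapsTo (C := (univ : Set P)) m e
  have h1 : ContinuousOn F (⋃ i : (Σ j : Fin m, I j), closedCell i.1.1 i.2.1 ×ˢ Icc (0 : ℝ) 1) := by
    apply (locallyFinite_of_finite _).continuousOn_iUnion
    · exact fun i => CWComplex.isClosed_closedCell.prod isClosed_Icc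
    · exact fun i => h i.1.1 i.1.2 i.2.1
  refine h1.comp ?_ ?_
  · refine ContinuousOn.prodMk ?_ continuousOn_snd
    exact (RelCWComplex.continuousOn m e).comp continuousOn_fst
      fun p hp => sphere_subset_closedBall hp.1
  · rintro ⟨y, t⟩ ⟨hy, ht⟩
    have h2 := hI hy
    simp only [mem_iUnion, exists_prop] at h2
    obtain ⟨j, hj, e', he', h3⟩ := h2
    exact mem_iUnion.2 ⟨⟨⟨j, hj⟩, ⟨e', he'⟩⟩, h3, ht⟩

/-- continuity on `e × I` from continuity on `ball × I` -/
lemma cw_cell_prod {Z : Type*} [TopologicalSpace Z] {F : P × ℝ → Z} {m : ℕ}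
    (e : cell (univ : Set P) m)
    (h : ContinuousOn (fun p : (Fin m → ℝ) × ℝ => F (map m e p.1, p.2))
      (closedBall (0 : Fin m → ℝ) 1 ×ˢ Icc (0 : ℝ) 1)) :
    ContinuousOn F (closedCell m e ×ˢ Icc (0 : ℝ) 1) := by
  have h1 : ContinuousOn (fun p : (Fin m → ℝ) × ℝ => (map m e p.1, p.2))
      (closedBall (0 : Fin m → ℝ) 1 ×ˢ Icc (0 : ℝ) 1) := by
    refine ContinuousOn.prodMk ?_ continuousOn_snd
    exact (RelCWComplex.continuousOn m e).comp continuousOn_fst fun p hp => hp.1
  have h2 := continuousOn_image ((isCompact_closedBall (0 : Fin m → ℝ) 1).prod isCompact_Icc) h1 h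
  refine h2.mono ?_
  rintro ⟨x, t⟩ ⟨⟨y, hy, rfl⟩, ht⟩
  exact ⟨(y, t), ⟨hy, ht⟩, rfl⟩

end CW

/-! ## Close maps are homotopic -/

section Near

open Topology.RelCWComplex (cell closedCell openCell cellFrontier map skeletonLT)

variable {M : Type*} [MetricSpace M] [CompactSpace M] {n : ℕ}

/-- extension over one cell -/
lemma near_cell (hM : ULC (n + 1) (univ : Set M)) {ε : ℝ} (hε : 0 < ε) : ∃ δ > 0,
    ∀ m ≤ n, ∀ a b : (Fin m → ℝ) → M, ContinuousOn a (closedBall 0 1) →
      ContinuousOn b (closedBall 0 1) → (∀ y ∈ closedBall (0 : Fin m → ℝ) 1, dist (a y) (b y) < δ) →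
      ∀ h : (Fin m → ℝ) × ℝ → M, ContinuousOn h (sphere (0 : Fin m → ℝ) 1 ×ˢ Icc (0 : ℝ) 1) →
      (∀ y ∈ sphere (0 : Fin m → ℝ) 1, h (y, 0) = a y ∧ h (y, 1) = b y ∧
        ∀ t ∈ Icc (0 : ℝ) 1, dist (h (y, t)) (a y) < δ) →
      ∃ F : (Fin m → ℝ) × ℝ → M, ContinuousOn F (closedBall (0 : Fin m → ℝ) 1 ×ˢ Icc (0 : ℝ) 1) ∧
        EqOn F h (sphere (0 : Fin m → ℝ) 1 ×ˢ Icc (0 : ℝ) 1) ∧
        ∀ y ∈ closedBall (0 : Fin m → ℝ) 1, F (y, 0) = a y ∧ F (y, 1) = b y ∧
          ∀ t ∈ Icc (0 : ℝ) 1, dist (F (y, t)) (a y) < ε := by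
  obtain ⟨δ, hδ, ext⟩ := close_ext_set.{0} isCompact_univ hM hε
  refine ⟨δ, hδ, fun m hm a b ca cb hab h ch hh => ?_⟩
  set D : Set (Fin m → ℝ) := closedBall 0 1 with hD
  set S : Set (Fin m → ℝ) := sphere 0 1 with hS
  have hSD : S ⊆ D := sphere_subset_closedBall
  have cD : IsClosed D := isClosed_closedBall
  have cS : IsClosed S := isClosed_sphere
  have c0 : IsClosed {p : (Fin m → ℝ) × ℝ | p.2 = 0} := isClosed_eq continuous_snd continuous_const
  have c1 : IsClosed {p : (Fin m → ℝ) × ℝ | p.2 = 1} := isClosed_eq continuous_snd continuous_const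
  set Q : Set ((Fin m → ℝ) × ℝ) := D ×ˢ Icc (0 : ℝ) 1 with hQ
  have cQ : IsCompact Q := (isCompact_closedBall _ _).prod isCompact_Icc
  set A0 : Set ((Fin m → ℝ) × ℝ) := Q ∩ {p | p.2 = 0} with hA0
  set A1 : Set ((Fin m → ℝ) × ℝ) := Q ∩ {p | p.2 = 1} with hA1
  set A2 : Set ((Fin m → ℝ) × ℝ) := S ×ˢ Icc (0 : ℝ) 1 with hA2
  have cA0 : IsClosed A0 := cQ.isClosed.inter c0
  have cA1 : IsClosed A1 := cQ.isClosed.inter c1
  have cA2 : IsClosed A2 := cS.prod isClosed_Icc
  let β : (Fin m → ℝ) × ℝ → M := fun p =>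
    if p.2 = 0 then a p.1 else if p.2 = 1 then b p.1 else h p
  have e0 : EqOn β (fun p => a p.1) A0 := fun p hp => if_pos hp.2
  have e1 : EqOn β (fun p => b p.1) A1 := by
    intro p hp
    have h1 : p.2 = 1 := hp.2
    show (if p.2 = 0 then a p.1 else if p.2 = 1 then b p.1 else h p) = b p.1
    rw [if_neg (by rw [h1]; norm_num), if_pos h1]
  have e2 : EqOn β h A2 := by
    rintro ⟨y, t⟩ ⟨hy, ht⟩
    show (if t = 0 then a y else if t = 1 then b y else h (y, t)) = h (y, t)
    obtain ⟨h1, h2, -⟩ := hh y hy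
    by_cases h3 : t = 0
    · rw [if_pos h3, h3, h1]
    · rw [if_neg h3]
      by_cases h4 : t = 1
      · rw [if_pos h4, h4, h2]
      · rw [if_neg h4]
  have caQ : ContinuousOn (fun p : (Fin m → ℝ) × ℝ => a p.1) Q :=
    ca.comp continuousOn_fst fun p hp => hp.1
  have cbQ : ContinuousOn (fun p : (Fin m → ℝ) × ℝ => b p.1) Q :=
    cb.comp continuousOn_fst fun p hp => hp.1
  have cβ : ContinuousOn β (A0 ∪ A1 ∪ A2) := by
    refine ContinuousOn.union_of_isClosed (ContinuousOn.union_of_isClosed ?_ ?_ cA0 cA1) ?_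
      (cA0.union cA1) cA2
    · exact (caQ.mono inter_subset_left).congr e0
    · exact (cbQ.mono inter_subset_left).congr e1
    · exact ch.congr e2
  have hsub : A0 ∪ A1 ∪ A2 ⊆ Q :=
    union_subset (union_subset inter_subset_left inter_subset_left) (prod_mono hSD le_rfl)
  have hdim : PushOff (n + 1) Q := by
    apply pushOff_of_finrank _ cQ
    rw [Module.finrank_prod, Module.finrank_fin_fun, Module.finrank_self]
    omega
  obtain ⟨F, hF, hFβ, hFd⟩ := ext _ Q (A0 ∪ A1 ∪ A2) cQ hdim ((cA0.union cA1).union cA2) hsub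
    (fun p => a p.1) β ⟨caQ, fun _ _ => mem_univ _⟩ ⟨cβ, fun _ _ => mem_univ _⟩ (by
      rintro p ((hp | hp) | hp)
      · rw [e0 hp, dist_self]; exact hδ
      · rw [e1 hp, dist_comm]; exact hab _ hp.1.1
      · rw [e2 hp]; exact (hh _ hp.1).2.2 _ hp.2)
  refine ⟨F, hF.cont, fun p hp => (hFβ (Or.inr hp)).trans (e2 hp), fun y hy => ⟨?_, ?_, ?_⟩⟩
  · have h1 : ((y, 0) : (Fin m → ℝ) × ℝ) ∈ A0 := ⟨⟨hy, by simp⟩, rfl⟩
    rw [hFβ (Or.inl (Or.inl h1)), e0 h1]
  · have h1 : ((y, 1) : (Fin m → ℝ) × ℝ) ∈ A1 := ⟨⟨hy, by simp⟩, rfl⟩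
    rw [hFβ (Or.inl (Or.inr h1)), e1 h1]
  · exact fun t ht => hFd (y, t) ⟨hy, ht⟩

/-- induction over the skeleta -/
lemma near_cw_aux (hM : ULC (n + 1) (univ : Set M)) : ∀ m ≤ n + 1, ∀ ε > 0, ∃ δ > 0,
    ∀ (P : Type u) [TopologicalSpace P] [T2Space P] [CWComplex (univ : Set P)] (a b : C(P, M)),
      (∀ x, dist (a x) (b x) < δ) → ∃ H : P → ℝ → M,
        (∀ x ∈ (skeletonLT (univ : Set P) m : Set P), H x 0 = a x ∧ H x 1 = b x ∧
          ∀ t ∈ Icc (0 : ℝ) 1, dist (H x t) (a x) < ε) ∧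
        ∀ j < m, ∀ e : cell (univ : Set P) j,
          ContinuousOn (fun p : P × ℝ => H p.1 p.2) (closedCell j e ×ˢ Icc (0 : ℝ) 1) := by
  classical
  intro m
  induction m with
  | zero =>
    intro _ ε hε
    refine ⟨1, one_pos, fun P _ _ _ a b _ => ⟨fun x _ => a x, ?_, ?_⟩⟩
    · intro x hx
      rw [Nat.cast_zero, CWComplex.skeletonLT_zero_eq_empty] at hx
      exact hx.elim
    · intro j hj
      exact absurd hj (Nat.not_lt_zero j)
  | succ m ih =>
    intro hm ε hε
    obtain ⟨δ₁, hδ₁, ext⟩ := near_cell (n := n) hM hε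
    obtain ⟨δ₂, hδ₂, ih⟩ := ih (by omega) (min δ₁ ε) (lt_min hδ₁ hε)
    refine ⟨min δ₁ δ₂, lt_min hδ₁ hδ₂, fun P _ _ _ a b hab => ?_⟩
    obtain ⟨H, hH, cH⟩ := ih P a b fun x => (hab x).trans_le (min_le_right _ _)
    have hfr : ∀ (e : cell (univ : Set P) m), ∀ y ∈ sphere (0 : Fin m → ℝ) 1,
        map m e y ∈ (skeletonLT (univ : Set P) m : Set P) := fun e y hy =>
      CWComplex.cellFrontier_subset_skeletonLT m e ⟨y, hy, rfl⟩
    choose F cF hF1 hF2 using fun e : cell (univ : Set P) m => ext m (by omega)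
      (fun y => a (map m e y)) (fun y => b (map m e y))
      (a.continuous.comp_continuousOn (RelCWComplex.continuousOn m e))
      (b.continuous.comp_continuousOn (RelCWComplex.continuousOn m e))
      (fun y _ => (hab _).trans_le (min_le_left _ _))
      (fun p => H (map m e p.1) p.2) (cw_frontier_prod cH e)
      (fun y hy => ⟨(hH _ (hfr e y hy)).1, (hH _ (hfr e y hy)).2.1,
        fun t ht => ((hH _ (hfr e y hy)).2.2 t ht).trans_le (min_le_left _ _)⟩)
    let G : P → ℝ → M := fun x t =>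
      if x ∈ (skeletonLT (univ : Set P) m : Set P) then H x t
      else if h : ∃ e : cell (univ : Set P) m, x ∈ openCell m e then
        F h.choose ((map m h.choose).symm x, t)
      else a x
    have hG1 : ∀ x ∈ (skeletonLT (univ : Set P) m : Set P), ∀ t, G x t = H x t :=
      fun x hx t => if_pos hx
    have hG2 : ∀ (e : cell (univ : Set P) m), ∀ y ∈ closedBall (0 : Fin m → ℝ) 1,
        ∀ t ∈ Icc (0 : ℝ) 1, G (map m e y) t = F e (y, t) := by
      intro e y hy t ht
      rw [← sphere_union_ball] at hy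
      rcases hy with hy | hy
      · rw [hG1 _ (hfr e y hy)]
        exact (hF1 e (show (y, t) ∈ _ from ⟨hy, ht⟩)).symm
      · have hx : map m e y ∈ openCell m e := ⟨y, hy, rfl⟩
        have h1 : map m e y ∉ (skeletonLT (univ : Set P) m : Set P) := fun h =>
          (CWComplex.disjoint_skeletonLT_openCell (n := (m : ℕ∞)) (j := e) le_rfl).le_bot ⟨h, hx⟩
        have h2 : ∃ e' : cell (univ : Set P) m, map m e y ∈ openCell m e' := ⟨e, hx⟩
        have h3 : h2.choose = e := by
          by_contra h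
          have h4 : (⟨m, h2.choose⟩ : Σ n, cell (univ : Set P) n) ≠ ⟨m, e⟩ := by
            intro h5
            apply h
            simpa using h5
          exact (CWComplex.disjoint_openCell_of_ne h4).le_bot ⟨h2.choose_spec, hx⟩
        show (if map m e y ∈ (skeletonLT (univ : Set P) m : Set P) then H (map m e y) t
          else if h : ∃ e' : cell (univ : Set P) m, map m e y ∈ openCell m e' then
            F h.choose ((map m h.choose).symm (map m e y), t)
          else a (map m e y)) = F e (y, t)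
        rw [if_neg h1, dif_pos h2, h3, (map m e).left_inv]
        rw [RelCWComplex.source_eq]
        exact hy
    refine ⟨G, ?_, ?_⟩
    · intro x hx
      rw [Nat.cast_succ, ← CWComplex.skeletonLT_union_iUnion_closedCell_eq_skeletonLT_succ] at hx
      rcases hx with hx | hx
      · obtain ⟨h1, h2, h3⟩ := hH x hx
        rw [hG1 x hx, hG1 x hx]
        refine ⟨h1, h2, fun t ht => ?_⟩
        rw [hG1 x hx]
        exact (h3 t ht).trans_le (min_le_right _ _)
      · obtain ⟨e, y, hy, rfl⟩ := mem_iUnion.1 hx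
        obtain ⟨h1, h2, h3⟩ := hF2 e y hy
        rw [hG2 e y hy 0 (by simp), hG2 e y hy 1 (by simp)]
        refine ⟨h1, h2, fun t ht => ?_⟩
        rw [hG2 e y hy t ht]
        exact h3 t ht
    · intro j hj e
      rcases Nat.lt_succ_iff_lt_or_eq.1 hj with hj | rfl
      · refine (cH j hj e).congr ?_
        rintro ⟨x, t⟩ ⟨hx, -⟩
        apply hG1
        have h1 := CWComplex.closedCell_subset_skeletonLT j e hx
        refine CWComplex.skeletonLT_mono ?_ h1
        exact_mod_cast hj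
      · apply cw_cell_prod
        exact (cF e).congr fun p hp => hG2 e p.1 hp.1 p.2 hp.2

/-- **Close maps of CW complexes of dimension at most `n` are homotopic.** -/
theorem near_cw (hM : ULC (n + 1) (univ : Set M)) : ∃ δ > 0,
    ∀ (P : Type u) [TopologicalSpace P] [T2Space P] [CWComplex (univ : Set P)],
      (∀ m, n < m → IsEmpty (cell (univ : Set P) m)) → ∀ a b : C(P, M),
      (∀ x, dist (a x) (b x) < δ) → a.Homotopic b := by
  obtain ⟨δ, hδ, h⟩ := near_cw_aux.{u} hM (n + 1) le_rfl 1 one_pos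
  refine ⟨δ, hδ, fun P _ _ _ hP a b hab => ?_⟩
  obtain ⟨H, hH, cH⟩ := h P a b hab
  have hsk : ∀ x : P, x ∈ (skeletonLT (univ : Set P) (n + 1 : ℕ) : Set P) := by
    intro x
    have hx : x ∈ ⋃ (m : ℕ) (e : cell (univ : Set P) m), closedCell m e := by
      rw [CWComplex.union]
      exact mem_univ x
    obtain ⟨m, e, hx⟩ := by simpa only [mem_iUnion] using hx
    have hm : m ≤ n := by
      by_contra h
      exact (hP m (by omega)).false e
    have h1 := CWComplex.closedCell_subset_skeletonLT m e hx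
    refine CWComplex.skeletonLT_mono ?_ h1
    exact_mod_cast Nat.succ_le_succ hm
  have hc : Continuous fun p : P × unitInterval => H p.1 p.2 := by
    apply cw_continuous_prod
    intro m e
    have hm : m < n + 1 := by
      by_contra h
      exact (hP m (by omega)).false e
    refine (cH m hm e).comp (f := fun p : P × unitInterval => (p.1, (p.2 : ℝ))) (by fun_prop) ?_
    exact fun p hp => ⟨hp.1, p.2.2⟩
  refine ⟨⟨⟨fun p => H p.2 p.1, hc.comp continuous_swap⟩, fun x => ?_, fun x => ?_⟩⟩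
  · exact (hH x (hsk x)).1
  · exact (hH x (hsk x)).2.1

end Near

/-- **Close maps of compact polyhedra of dimension at most `n` are homotopic.** -/
theorem near_poly {M : Type} [MetricSpace M] [CompactSpace M] {n : ℕ}
    (hM : ULC (n + 1) (univ : Set M)) : ∃ δ > 0,
    ∀ (m : ℕ) (P : Set (Fin m → ℝ)), IsPoly n P → ∀ a b : C(P, M),
      (∀ x, dist (a x) (b x) < δ) → a.Homotopic b := by
  classical
  obtain ⟨δ, hδ, ext⟩ := close_ext_set.{0} isCompact_univ hM one_pos
  refine ⟨δ, hδ, fun m P hP a b hab => ?_⟩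
  rcases P.eq_empty_or_nonempty with rfl | ⟨x₀, hx₀⟩
  · have h : a = b := by
      ext x
      exact x.2.elim
    rw [h]
  have cP := hP.isCompact
  have hMn : Nonempty M := ⟨a ⟨x₀, hx₀⟩⟩
  set Q : Set ((Fin m → ℝ) × ℝ) := P ×ˢ Icc (0 : ℝ) 1 with hQ
  have cQ : IsCompact Q := cP.prod isCompact_Icc
  have c0 : IsClosed {p : (Fin m → ℝ) × ℝ | p.2 = 0} := isClosed_eq continuous_snd continuous_const
  have c1 : IsClosed {p : (Fin m → ℝ) × ℝ | p.2 = 1} := isClosed_eq continuous_snd continuous_const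
  set A0 : Set ((Fin m → ℝ) × ℝ) := Q ∩ {p | p.2 = 0} with hA0
  set A1 : Set ((Fin m → ℝ) × ℝ) := Q ∩ {p | p.2 = 1} with hA1
  have cA0 : IsClosed A0 := cQ.isClosed.inter c0
  have cA1 : IsClosed A1 := cQ.isClosed.inter c1
  let a' : (Fin m → ℝ) → M := extS P a fun _ => hMn.some
  let b' : (Fin m → ℝ) → M := extS P b fun _ => hMn.some
  have ca : ContinuousOn a' P := extS_cont a.continuous _
  have cb : ContinuousOn b' P := extS_cont b.continuous _
  have ea : ∀ x : P, a' x = a x := fun x => extS_eq _ _ x.2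
  have eb : ∀ x : P, b' x = b x := fun x => extS_eq _ _ x.2
  let β : (Fin m → ℝ) × ℝ → M := fun p => if p.2 = 0 then a' p.1 else b' p.1
  have e0 : EqOn β (fun p => a' p.1) A0 := fun p hp => if_pos hp.2
  have e1 : EqOn β (fun p => b' p.1) A1 := by
    intro p hp
    have h1 : p.2 = 1 := hp.2
    show (if p.2 = 0 then a' p.1 else b' p.1) = b' p.1
    rw [if_neg (by rw [h1]; norm_num)]
  have caQ : ContinuousOn (fun p : (Fin m → ℝ) × ℝ => a' p.1) Q :=
    ca.comp continuousOn_fst fun p hp => hp.1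
  have cbQ : ContinuousOn (fun p : (Fin m → ℝ) × ℝ => b' p.1) Q :=
    cb.comp continuousOn_fst fun p hp => hp.1
  obtain ⟨F, hF, hFβ, -⟩ := ext _ Q (A0 ∪ A1) cQ hP.pushOff_prod (cA0.union cA1)
    (union_subset inter_subset_left inter_subset_left)
    (fun p => a' p.1) β ⟨caQ, fun _ _ => mem_univ _⟩
    ⟨((caQ.mono inter_subset_left).congr e0).union_of_isClosed
      ((cbQ.mono inter_subset_left).congr e1) cA0 cA1, fun _ _ => mem_univ _⟩ (by
      rintro p (hp | hp)
      · rw [e0 hp, dist_self]; exact hδ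
      · have h1 := hab ⟨p.1, hp.1.1⟩
        rw [← ea, ← eb] at h1
        rw [e1 hp, dist_comm]
        exact h1)
  refine ⟨⟨⟨fun p => F (p.2.1, p.1.1), ?_⟩, fun x => ?_, fun x => ?_⟩⟩
  · exact hF.cont.comp_continuous ((continuous_subtype_val.comp continuous_snd).prodMk
      (continuous_subtype_val.comp continuous_fst)) fun p => ⟨p.2.2, p.1.2⟩
  · have h1 : ((x.1, 0) : (Fin m → ℝ) × ℝ) ∈ A0 := ⟨⟨x.2, by simp⟩, rfl⟩
    show F (x.1, 0) = a x
    rw [hFβ (Or.inl h1), e0 h1]
    exact ea x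
  · have h1 : ((x.1, 1) : (Fin m → ℝ) × ℝ) ∈ A1 := ⟨⟨x.2, by simp⟩, rfl⟩
    show F (x.1, 1) = b x
    rw [hFβ (Or.inr h1), e1 h1]
    exact eb x

/-! ## All CW complexes -/

/-- `f` and `g` are `n`-homotopic with respect to all CW complexes: for every CW complex `P` of
dimension at most `n` (of any size, Hausdorff, with the weak topology) and every map `φ : P → X` the
composites `f ∘ φ` and `g ∘ φ` are homotopic. -/
def NHomotopicCW (n : ℕ) {X Y : Type} [TopologicalSpace X] [TopologicalSpace Y] (f g : C(X, Y)) :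
    Prop :=
  ∀ (P : Type u) [TopologicalSpace P] [T2Space P] [CWComplex (univ : Set P)],
    (∀ m, n < m → IsEmpty (RelCWComplex.cell (univ : Set P) m)) → ∀ φ : C(P, X),
    (f.comp φ).Homotopic (g.comp φ)

/-- The homeomorphisms which are `n`-homotopic to the identity with respect to compact polyhedra and
to all CW complexes. -/
def Auth0CW (n : ℕ) (M : Type) [TopologicalSpace M] : Subgroup (M ≃ₜ M) where
  carrier := {h | h ∈ Auth0 n M ∧ NHomotopicCW.{u} n (toMap h) (ContinuousMap.id M)}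
  one_mem' := ⟨(Auth0 n M).one_mem, fun P _ _ _ _ φ => ContinuousMap.Homotopic.refl _⟩
  mul_mem' := by
    rintro f g ⟨hf', hf⟩ ⟨hg', hg⟩
    refine ⟨(Auth0 n M).mul_mem hf' hg', fun P _ _ _ hP φ => ?_⟩
    have h1 : ((toMap f).comp ((toMap g).comp φ)).Homotopic
        ((ContinuousMap.id M).comp ((toMap g).comp φ)) := hf P hP ((toMap g).comp φ)
    exact h1.trans (hg P hP φ)
  inv_mem' := by
    rintro f ⟨hf', hf⟩
    refine ⟨(Auth0 n M).inv_mem hf', fun P _ _ _ hP φ => ?_⟩
    have h1 : ((toMap f).comp ((toMap f⁻¹).comp φ)).Homotopic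
        ((ContinuousMap.id M).comp ((toMap f⁻¹).comp φ)) := hf P hP ((toMap f⁻¹).comp φ)
    have h2 : (toMap f).comp ((toMap f⁻¹).comp φ) = (ContinuousMap.id M).comp φ := by
      ext x
      exact f.apply_symm_apply (φ x)
    rw [h2] at h1
    exact h1.symm

theorem Auth0CW_le (n : ℕ) (M : Type) [TopologicalSpace M] : Auth0CW.{u} n M ≤ Auth0 n M :=
  fun _ h => h.1

theorem normal_Auth0CW (n : ℕ) (M : Type) [TopologicalSpace M] : (Auth0CW.{u} n M).Normal := by
  refine ⟨fun f hf g => ⟨(normal_Auth0 n M).conj_mem f hf.1 g, fun P _ _ _ hP φ => ?_⟩⟩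
  have h1 := hf.2 P hP ((toMap g⁻¹).comp φ)
  have h2 : ((toMap g).comp ((toMap f).comp ((toMap g⁻¹).comp φ))).Homotopic
      ((toMap g).comp ((ContinuousMap.id M).comp ((toMap g⁻¹).comp φ))) :=
    ContinuousMap.Homotopic.comp (ContinuousMap.Homotopic.refl _) h1
  have h3 : (toMap g).comp ((ContinuousMap.id M).comp ((toMap g⁻¹).comp φ)) =
      (ContinuousMap.id M).comp φ := by
    ext x
    exact g.apply_symm_apply (φ x)
  rw [h3] at h2
  exact h2

/-- Small homeomorphisms are `n`-homotopic to the identity. -/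
theorem small_mem_Auth0CW {n : ℕ} {M : Type} [MetricSpace M] [CompactSpace M]
    (hM : ULC (n + 1) (univ : Set M)) :
    ∃ δ > 0, ∀ h : M ≃ₜ M, (∀ x, dist (h x) x < δ) → h ∈ Auth0CW.{u} n M := by
  obtain ⟨δ₁, hδ₁, h1⟩ := near_poly hM
  obtain ⟨δ₂, hδ₂, h2⟩ := near_cw.{u} hM
  refine ⟨min δ₁ δ₂, lt_min hδ₁ hδ₂, fun h hh => ⟨?_, ?_⟩⟩
  · intro m P hP φ
    exact h1 m P hP _ _ fun x => (hh (φ x)).trans_le (min_le_left _ _)
  · intro P _ _ _ hP φ
    exact h2 P hP _ _ fun x => (hh (φ x)).trans_le (min_le_right _ _)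

/-- **Compact polyhedra suffice.** If `Auth0 n M` is contained in every non-trivial normal subgroup
and there are arbitrarily small homeomorphisms, then `Auth0 n M` is non-trivial and all its elements
are `n`-homotopic to the identity with respect to all CW complexes. -/
theorem cw_of_min {n : ℕ} {M : Type} [MetricSpace M] [CompactSpace M]
    (hM : ULC (n + 1) (univ : Set M))
    (hmin : ∀ N : Subgroup (M ≃ₜ M), N.Normal → N ≠ ⊥ → Auth0 n M ≤ N)
    (hsm : ∀ δ > 0, ∃ h : M ≃ₜ M, h ≠ 1 ∧ ∀ x, dist (h x) x < δ) :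
    Auth0CW.{u} n M = Auth0 n M ∧ Auth0 n M ≠ ⊥ := by
  obtain ⟨δ, hδ, h⟩ := small_mem_Auth0CW.{u} hM
  obtain ⟨f, hf1, hf⟩ := hsm δ hδ
  have hne : Auth0CW.{u} n M ≠ ⊥ := fun h0 => hf1 (by
    have := h f hf
    rw [h0] at this
    exact Subgroup.mem_bot.1 this)
  have heq : Auth0CW.{u} n M = Auth0 n M :=
    le_antisymm (Auth0CW_le n M) (hmin _ (normal_Auth0CW n M) hne)
  exact ⟨heq, heq ▸ hne⟩

end MG
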