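import Pool.Agent.Work.MP_017613_gt.ChiT
import Pool.Agent.Work.MP_017613_gt.Skel24
import Pool.Agent.Work.MP_017613_gt.LemRF
import Pool.Agent.Work.MP_017613_gt.TrDim
import Pool.Agent.Work.MP_017613_gt.TheoryOf
import Pool.Agent.Work.MP_017613_gt.MenBridge
import Pool.Agent.Work.MP_017613_gt.TRelS

/-!
# From S_APPROX (`J_S`) to `trel`, `srel` and the collars

The class of complexes is `CX k F := MG.TP k ∅ (univ : Set F)`.
-/

set_option linter.unusedSectionVars false

open Set Topology Metric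

namespace Pool.Agent.Work.MP_017613_gt

namespace TrB

open MG (IsMap)

/-- compact spaces with a finite cell structure of dimension at most `k` -/
def CX (k : ℕ) (F : Type) [MetricSpace F] [CompactSpace F] : Prop := MG.TP k ∅ (univ : Set F)

/-- a point can be absorbed in the layer of dimension `0` -/
theorem tp_point {α : Type} [MetricSpace α] {k : ℕ} {x₀ : α} {P : Set α}
    (h : MG.TP k {x₀} P) : MG.TP k ∅ P := by
  obtain ⟨-, S, h0, h1, h2⟩ := h
  refine ⟨isCompact_empty, fun d => if d = 0 then ∅ else S d, by simp, by simpa using h1,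
    fun d hd => ?_⟩
  rcases Nat.eq_zero_or_pos d with rfl | hd0
  · simp only [if_true, Nat.zero_add, Nat.one_ne_zero, if_false]
    obtain ⟨m, χ, hF⟩ := h2 0 hd
    rw [Nat.zero_add, h0] at hF
    refine ⟨m + 1, Fin.cons (fun _ => x₀) χ, ?_⟩
    have h00 : ∀ x : Fin 0 → ℝ, x ∉ MG.dCu 0 := fun x hx => by
      rw [MG.dCu_zero] at hx
      exact hx
    constructor
    · intro i
      exact (Set.subsingleton_of_subsingleton (s := MG.Cu 0)).continuousOn _
    · intro i x hx
      exact (h00 x hx).elim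
    · intro i x _ _ hx
      exact hx
    · intro i i' x x' hx _ hx' _ hxx
      refine ⟨?_, Subsingleton.elim _ _⟩
      induction i using Fin.cases with
      | zero =>
        induction i' using Fin.cases with
        | zero => rfl
        | succ i' =>
          exact (hF.off i' x' hx' (h00 x') (by simpa using hxx.symm)).elim
      | succ i =>
        induction i' using Fin.cases with
        | zero => exact (hF.off i x hx (h00 x) (by simpa using hxx)).elim
        | succ i' =>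
          have := (hF.inj i i' x x' hx (h00 x) hx' (h00 x') (by simpa using hxx)).1
          rw [this]
    · rw [hF.union, empty_union]
      ext y
      simp only [mem_union, mem_singleton_iff, mem_iUnion, mem_image]
      constructor
      · rintro (rfl | ⟨i, x, hx, rfl⟩)
        · exact ⟨0, 0, by rw [MG.mem_Cu]; exact fun i => i.elim0, rfl⟩
        · exact ⟨i.succ, x, hx, rfl⟩
      · rintro ⟨i, x, hx, rfl⟩
        induction i using Fin.cases with
        | zero => exact Or.inl rfl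
        | succ i => exact Or.inr ⟨i, x, hx, rfl⟩
  · have h3 := h2 d hd
    simp only [Nat.pos_iff_ne_zero.1 hd0, if_false, Nat.succ_ne_zero]
    exact h3

variable {k : ℕ}

theorem hUlC (M : Type) [MetricSpace M] [CompactSpace M] (h : CX k M) :
    MG.ULC k (univ : Set M) :=
  (MG.Tr.j_DIM k M ∅ univ h PushOff.empty fun _ _ => ⟨1, one_pos, fun _ _ _ hy => hy.elim⟩).2

theorem dim_CX (M : Type) [MetricSpace M] [CompactSpace M] (h : CX k M) :
    PushOff k (univ : Set M) :=
  (MG.Tr.j_DIM k M ∅ univ h PushOff.empty fun _ _ => ⟨1, one_pos, fun _ _ _ hy => hy.elim⟩).1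

/-- fine complexes over all `ULC` spaces -/
theorem hR (M : Type) [MetricSpace M] [CompactSpace M] (hM : MG.ULC k (univ : Set M)) (e : ℝ)
    (he : 0 < e) : ∃ (R : Type) (_ : MetricSpace R) (_ : CompactSpace R), CX k R ∧
      ∃ s : C(R, M), TR.Lft k s e := by
  rcases isEmpty_or_nonempty M with hE | ⟨⟨y₀⟩⟩
  · refine ⟨M, inferInstance, inferInstance, ?_, ContinuousMap.id M, TR.Lft.id he⟩
    have : (univ : Set M) = ∅ := univ_eq_empty_iff.2 hE
    unfold CX
    rw [this]
    exact MG.TP.refl k isCompact_empty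
  · obtain ⟨R, _, _, i, s, h1, h2, h3, h4, -, h6⟩ := MG.LR.lemR (L0 := Unit)
      (σ := fun _ => y₀) hM (fun ε hε => ⟨1, one_pos, fun j _ y _ a _ _ =>
        ⟨fun _ => (), ⟨continuousOn_const, fun _ _ => mem_univ _⟩, fun _ _ => rfl,
          fun x _ => by rw [Subsingleton.elim () y, dist_self]; exact hε⟩⟩) continuous_const he
    have : Nonempty R := ⟨i ()⟩
    refine ⟨R, inferInstance, inferInstance, ?_, ⟨s, h2⟩, ChiT.lft_of_L' h6⟩
    have h5 : range i = {i ()} := by
      ext y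
      constructor
      · rintro ⟨⟨⟩, rfl⟩
        rfl
      · rintro rfl
        exact mem_range_self _
    rw [h5] at h4
    exact tp_point h4

/-- the approximation property of all `ULC` spaces, from `J_S` -/
theorem hS (h : MG.Tr.J_S) (hk : 1 ≤ k) (X : Type) [MetricSpace X] [CompactSpace X]
    (hX : MG.ULC k (univ : Set X)) (ε : ℝ) (hε : 0 < ε) :
    ∃ d, TR.SP k (Men k) (CX k) X ε d := by
  obtain ⟨d, hd, H⟩ := h k X hk hX ε hε
  refine ⟨d, hd, ?_⟩
  intro M F _ _ _ _ hM hF u p hu hp W hW w₀ h₀ r hr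
  rcases isEmpty_or_nonempty M with hMe | hMe
  · have hXe : IsEmpty X := ⟨fun y => by
      obtain ⟨x, -⟩ := hu.dense y
      exact hMe.elim x⟩
    have hFe : IsEmpty F := ⟨fun y => hXe.elim (p y)⟩
    refine ⟨⟨fun x => hMe.elim x, continuous_of_const fun x => hMe.elim x⟩, ?_,
      fun x => hMe.elim x, fun x => hMe.elim x.1⟩
    intro j hj f f0 hf0
    exact hFe.elim (f fun _ => 0)
  · obtain ⟨y, -⟩ := hp.dense (u hMe.some)
    obtain ⟨w, h1, h2, h3, h4⟩ := H M F u p W (MG.extS W w₀ fun _ => y)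
      ⟨hM.2.1, hM.1, hM.2.2.dd⟩ hF u.continuous p.continuous (ChiT.L_of_lft' hu)
      (ChiT.L_of_lft' hp) hW (MG.extS_cont w₀.continuous _) (fun x hx => by
        rw [MG.extS_eq _ _ hx]
        exact h₀ ⟨x, hx⟩) r hr
    exact ⟨⟨w, h1⟩, ChiT.lft_of_L' h2, h3, fun x => (h4 x.2).trans (MG.extS_eq _ _ x.2)⟩

/-! ## Results -/

/-- T_REL in the form of types -/
theorem trelT (h : MG.Tr.J_S) (hk : 1 ≤ k) : Str.TRelT k (Men k) := by
  intro X _ _ hX ε hε
  exact TR.t_rel (Mg := Men k) (Ul := fun M => MG.ULC k (univ : Set M))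
    (fun M _ _ hM => hM.2.1) hUlC (hS h hk) (fun M _ _ hM => hR M hM.2.1) X hX hε

theorem trelP (h : MG.Tr.J_S) (hk : 1 ≤ k) : Chi.TRelP k (Chi.MenC k) := by
  intro β _ X cX hX ε hε
  obtain ⟨d, hd, H⟩ := ChiT.trel_field hUlC (hS h hk) hR β X cX hX ε hε
  exact ⟨d, hd, fun N N' _ _ _ _ hN hN' => H N N' hN.1 hN'.1 hN.2 hN'.2⟩

theorem srelP (h : MG.Tr.J_S) (hk : 1 ≤ k) : Chi.SRelP k (Chi.MenC k) := by
  intro β β' _ _ X B cX cB hX hB ε hε
  obtain ⟨d, hd, H⟩ := ChiT.srel_field (hS h hk) hR β β' X B cX cB hX hB ε hε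
  exact ⟨d, hd, fun p hp N _ _ hN => H p hp N hN.2⟩

theorem trelP_rnd (h : MG.Tr.J_S) (hk : 1 ≤ k) : Chi.TRelP k (Rnd.Men k) := by
  intro β _ X cX hX ε hε
  obtain ⟨d, hd, H⟩ := ChiT.trel_field hUlC (hS h hk) hR β X cX hX ε hε
  exact ⟨d, hd, fun N N' _ _ _ _ hN hN' => H N N' hN.ne hN'.ne (rnd_men_iff.1 hN).2
    (rnd_men_iff.1 hN').2⟩

theorem srelP_rnd (h : MG.Tr.J_S) (hk : 1 ≤ k) : Chi.SRelP k (Rnd.Men k) := by
  intro β β' _ _ X B cX cB hX hB ε hε
  obtain ⟨d, hd, H⟩ := ChiT.srel_field (hS h hk) hR β β' X B cX cB hX hB ε hε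
  exact ⟨d, hd, fun p hp N _ _ hN => H p hp N (rnd_men_iff.1 hN).2⟩

/-- two disjoint Z-copies near the identity, with one soft retraction -/
theorem collar_two (h : MG.Tr.J_S) (hk : 1 ≤ k) (M : Type) [MetricSpace M] [CompactSpace M]
    (hne : Nonempty M) (hM : Men k M) {ε : ℝ} (hε : 0 < ε) :
    ∃ i₀ i₁ r : C(M, M), Function.Injective i₀ ∧ Function.Injective i₁ ∧
      ZS (range i₀) ∧ ZS (range i₁) ∧ Disjoint (range i₀) (range i₁) ∧
      (∀ x, dist (i₀ x) x < ε) ∧ (∀ x, dist (i₁ x) x < ε) ∧ (∀ x, dist (r x) x < ε) ∧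
      Chi.Soft k univ univ r ∧ (∀ x, r (i₀ x) = x) ∧ ∀ x, r (i₁ x) = x :=
  ChiT.collar_two (hS h hk) hR M hne hM hε

end TrB

end Pool.Agent.Work.MP_017613_gt
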