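import Pool.Agent.Work.MP_017613_gt.Skel24
import Pool.Agent.Work.MP_017613_gt.Kit.PushCells

/-!
# Block (2): slides (helper19)

`j_slidecell : J_SLIDECELL`, `j_slideblk : J_SLIDEBLK`, `j_ulcblk : J_ULCBLK`.
-/

open Set Metric Topology

namespace MG.Tr

open Pool.Agent.Work.MP_017613_gt.T6 (ret ret_mem ret_of_mem continuousOn_ret)

theorem j_slidecell : J_SLIDECELL := by
  intro k d X V _ _ c K K' t hkd hc hK ht hl j hj a ha
  obtain ⟨m, χ, h, hsm⟩ := hl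
  obtain ⟨H, h1, h2, h3, -, h5⟩ := h.push_ctrl hK (isCompact_dCu j) (dimLT_dCu (hj.trans hkd)) ha
    (c := c) (e := 2 * t) (by linarith) (by
      intro i z hz z' hz'
      obtain ⟨y, hy⟩ := hsm i
      have e1 := hy z hz
      have e2 := hy z' hz'
      have := dist_triangle_right (c (χ i z)) (c (χ i z')) y
      linarith)
  exact ⟨H, h1, fun x hx => ⟨h2 x hx, h3 x hx⟩, h5⟩

/-- the retraction of the cube onto `J0` -/
noncomputable def rJ {n : ℕ} (i₀ : Fin n) (x : Fin n → ℝ) : Fin n → ℝ := jr i₀ (ret i₀ (jr i₀ x))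

lemma continuousOn_rJ {n : ℕ} (i₀ : Fin n) : ContinuousOn (rJ i₀) (Cu n) := by
  unfold rJ
  exact (continuous_jr i₀).comp_continuousOn
    ((continuousOn_ret i₀).comp (continuous_jr i₀).continuousOn fun x hx => jr_mem_Cu hx)

lemma rJ_mem {n : ℕ} {i₀ : Fin n} {x : Fin n → ℝ} (hx : x ∈ Cu n) : rJ i₀ x ∈ J0 i₀ :=
  jr_mem_J0 (ret_mem (jr_mem_Cu hx))

lemma rJ_of_mem {n : ℕ} {i₀ : Fin n} {x : Fin n → ℝ} (hx : x ∈ J0 i₀) : rJ i₀ x = x := by
  unfold rJ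
  rw [ret_of_mem (jr_mem_Jn hx), jr_jr]

/-- a convex compact set has thin collars around every retract -/
theorem coll_of_retract {E : Type*} [NormedAddCommGroup E] [NormedSpace ℝ E] {B A : Set E}
    (hB : IsCompact B) (hcB : Convex ℝ B) (hAB : A ⊆ B) {r : E → E} (hr : ContinuousOn r B)
    (hrA : ∀ x ∈ B, r x ∈ A) (hr1 : ∀ x ∈ A, r x = x) : Coll B A := by
  intro κ hκ
  have hd : ContinuousOn (fun x => dist (r x) x) B :=
    continuous_dist.comp_continuousOn (hr.prodMk continuousOn_id)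
  have cB1 : IsCompact (B ∩ (fun x => dist (r x) x) ⁻¹' Iic (κ / 2)) :=
    hB.of_isClosed_subset (hd.preimage_isClosed_of_isClosed hB.isClosed isClosed_Iic)
      inter_subset_left
  have cB2 : IsCompact (B ∩ (fun x => dist (r x) x) ⁻¹' Ici (κ / 2)) :=
    hB.of_isClosed_subset (hd.preimage_isClosed_of_isClosed hB.isClosed isClosed_Ici)
      inter_subset_left
  refine ⟨_, _, fun p => p.1 + p.2 • (r p.1 - p.1), cB1, ?_, cB2, ?_, ?_, ⟨?_, ?_⟩, ?_, ?_, ?_, ?_⟩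
  · intro x hx
    refine ⟨hAB hx, ?_⟩
    show dist (r x) x ≤ κ / 2
    rw [hr1 x hx, dist_self]
    positivity
  · intro x hx hxA
    have h1 : κ / 2 ≤ dist (r x) x := hx.2
    rw [hr1 x hxA, dist_self] at h1
    linarith
  · ext x
    constructor
    · intro hx
      rcases le_total (dist (r x) x) (κ / 2) with h1 | h1
      · exact Or.inl ⟨hx, h1⟩
      · exact Or.inr ⟨hx, h1⟩
    · rintro (h | h)
      · exact h.1
      · exact h.1
  · have h1 : ContinuousOn (fun p : E × ℝ => r p.1)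
        ((B ∩ (fun x => dist (r x) x) ⁻¹' Iic (κ / 2)) ×ˢ Icc (0 : ℝ) 1) :=
      hr.comp continuousOn_fst fun p hp => hp.1.1
    exact continuousOn_fst.add (continuousOn_snd.smul (h1.sub continuousOn_fst))
  · rintro ⟨x, t⟩ ⟨hx, ht⟩
    exact hcB.add_smul_sub_mem hx.1 (hAB (hrA x hx.1)) ht
  · intro x _
    simp
  · intro x hx
    show x + (1 : ℝ) • (r x - x) ∈ A
    rw [one_smul, add_sub_cancel]
    exact hrA x hx.1
  · intro x hx t _
    show x + t • (r x - x) = x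
    rw [hr1 x hx, sub_self, smul_zero, add_zero]
  · intro x hx t ht
    show dist (x + t • (r x - x)) x < κ
    have h1 : dist (r x) x ≤ κ / 2 := hx.2
    rw [dist_eq_norm] at h1 ⊢
    rw [add_sub_cancel_left, norm_smul, Real.norm_eq_abs, abs_of_nonneg ht.1]
    calc t * ‖r x - x‖ ≤ 1 * ‖r x - x‖ := mul_le_mul_of_nonneg_right ht.2 (norm_nonneg _)
      _ ≤ κ / 2 := by rw [one_mul]; exact h1
      _ < κ := by linarith

theorem coll_J0 {n : ℕ} (i₀ : Fin n) : Coll (Cu n) (J0 i₀) :=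
  coll_of_retract (isCompact_Cu n) (convex_Cu n) (fun _ hx => hx.1.1) (continuousOn_rJ i₀)
    (fun _ hx => rJ_mem hx) fun _ hx => rJ_of_mem hx

theorem j_ulcblk : J_ULCBLK := by
  intro k n V _ K K1 m χ hK h hu
  exact h.ulc (isCompact_Cu (n + 1)) hK (coll_J0 0)
    (Pool.Agent.Work.MP_017613_gt.T6.kit_ulc_Cu k (n + 1)) hu

/-- the strong deformation retraction of `K ∪` blocks onto `K`, inside the blocks -/
theorem blk_defo {V ι : Type*} [MetricSpace V] [Finite ι] {n : ℕ} {i₀ : Fin n} {K K1 : Set V}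
    {χ : ι → (Fin n → ℝ) → V} (h : Fam (Cu n) (J0 i₀) K K1 χ) (hK : IsClosed K) :
    ∃ F : V × ℝ → V, IsMap F (K1 ×ˢ Icc (0 : ℝ) 1) K1 ∧
      (∀ v ∈ K, ∀ t ∈ Icc (0 : ℝ) 1, F (v, t) = v) ∧ (∀ v ∈ K1, F (v, 0) = v) ∧
      (∀ v ∈ K1, F (v, 1) ∈ K) ∧
      ∀ i, ∀ z ∈ Cu n, ∀ t ∈ Icc (0 : ℝ) 1, F (χ i z, t) ∈ χ i '' Cu n := by
  have hD : IsMap (fun p : (Fin n → ℝ) × ℝ => p.1 + p.2 • (rJ i₀ p.1 - p.1))
      (Cu n ×ˢ Icc (0 : ℝ) 1) (Cu n) := by
    constructor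
    · have h1 : ContinuousOn (fun p : (Fin n → ℝ) × ℝ => rJ i₀ p.1) (Cu n ×ˢ Icc (0 : ℝ) 1) :=
        (continuousOn_rJ i₀).comp continuousOn_fst fun p hp => hp.1
      exact continuousOn_fst.add (continuousOn_snd.smul (h1.sub continuousOn_fst))
    · rintro ⟨x, t⟩ ⟨hx, ht⟩
      exact (convex_Cu n).add_smul_sub_mem hx (rJ_mem hx).1.1 ht
  obtain ⟨F, hF, hFK, hFχ, hF0, hF1⟩ := h.glueDef hK (isCompact_Cu n) le_rfl hD
    (fun x _ => by simp) (fun x hx => by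
      show x + (1 : ℝ) • (rJ i₀ x - x) ∈ J0 i₀
      rw [one_smul, add_sub_cancel]
      exact rJ_mem hx) (fun x hx t _ => by
      show x + t • (rJ i₀ x - x) = x
      rw [rJ_of_mem hx, sub_self, smul_zero, add_zero])
  rw [← h.union] at hF hF0 hF1
  exact ⟨F, hF, hFK, hF0, hF1, fun i z hz t ht => ⟨_, hD.maps ⟨hz, ht⟩, (hFχ i z hz t ht).symm⟩⟩

theorem j_slideblk : J_SLIDEBLK := by
  intro k n X V _ _ c K K1 t m χ hc hK h hsm ht j hj a ha
  obtain ⟨F, hF, hFK, hF0, hF1, hFχ⟩ := blk_defo h hK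
  have h2 : IsMap (fun p : (Fin j → ℝ) × ℝ => (a p.1, p.2)) (dCu j ×ˢ Icc (0 : ℝ) 1)
      (K1 ×ˢ Icc (0 : ℝ) 1) :=
    ⟨(ha.cont.comp continuousOn_fst fun p hp => hp.1).prodMk continuousOn_snd,
      fun p hp => ⟨ha.maps hp.1, hp.2⟩⟩
  refine ⟨fun p => F (a p.1, p.2), hF.comp h2,
    fun x hx => ⟨hF0 _ (ha.maps hx), hF1 _ (ha.maps hx)⟩, fun x hx s hs => ?_⟩
  by_cases hxK : a x ∈ K
  · show dist (c (F (a x, s))) (c (a x)) < 2 * t
    rw [hFK _ hxK s hs, dist_self]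
    linarith
  · obtain ⟨i, z, hz, -, hzx⟩ := h.exists_rep (ha.maps hx) hxK
    obtain ⟨z', hz', he⟩ := hFχ i z hz s hs
    obtain ⟨y, hy⟩ := hsm i
    show dist (c (F (a x, s))) (c (a x)) < 2 * t
    rw [← hzx, ← he]
    have e1 := hy z hz
    have e2 := hy z' hz'
    have := dist_triangle_right (c (χ i z')) (c (χ i z)) y
    linarith

end MG.Tr
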