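import Pool.Agent.Work.MP_017613_gt.Skel24
import Pool.Agent.Work.MP_017613_gt.AbsFin
import Pool.Agent.Work.MP_017613_gt.DiscC
import Pool.Agent.Work.MP_017613_gt.TrSlide

/-!
# The joint `J_ABS` from absorption (block (1))
-/

open Set Metric Topology

namespace MG.Tr

open Pool.Agent.Work.MP_017613_gt (ZS ZD DD PushOff)

/-- absorption of blocks and of `(k+1)`-cells -/
theorem j_abs_of (hB : J_ULCBLK) : J_ABS := by
  intro k M _ _ hk hM
  obtain ⟨hU, hP, hD⟩ := hM
  refine ⟨fun n hn => ?_, ?_⟩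
  · intro V _ _ K K1 m χ hK hKu hF ε hε
    have hKc : IsCompact K := hK.isCompact
    have hK1c : IsCompact K1 := hF.isCompact (isCompact_Cu _) hKc
    have hK1u : ULC k K1 := hB k n V K K1 m χ hKc hF hKu
    exact absorb_block (by omega) 0 hk hU hD.zd hKc hKu hF
      (disc_set hK1c hK1u isCompact_univ hP) hε
  · intro V _ _ K K1 m χ hK hKu hF ε hε
    have hKc : IsCompact K := hK.isCompact
    have hK1c : IsCompact K1 := hF.isCompact (isCompact_Cu _) hKc
    have hK1u : ULC k K1 := Layer.ulc ⟨m, χ, hF⟩ hKc hKu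
    exact absorb_cell hk hU hD.zd hKc hKu hF (disc_set hK1c hK1u isCompact_univ hP) hε

theorem j_abs : J_ABS := j_abs_of j_ulcblk

end MG.Tr
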