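import Pool.Agent.Work.MP_017613_gt.Abs2Incl

/-!
# The joint `J_ABS2`: assembly
-/

open Set Metric Topology

namespace MG.Abs2

open Pool.Agent.Work.MP_017613_gt (PushOff ZS)
open Pool.Agent.Work.MP_017613_gt.T6

/-- composition of a fine map with a fine inclusion -/
lemma L_incl {α β : Type*} [MetricSpace α] [MetricSpace β] {k : ℕ} {g : α → β} {A : Set α}
    {K' K : Set β} {e e' : ℝ} (hg : IsMap g A K') (h1 : L k (fun v => v) K' K e)
    (h2 : L k g A K' e') : L k g A K (e + e') := by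
  intro j hj f f₀ hf hf₀ hff
  obtain ⟨F₁, hF₁, hF₁e, hF₁d⟩ := h1 j hj f (fun x => g (f₀ x)) hf (hg.comp hf₀) hff
  obtain ⟨F, hF, hFe, hFd⟩ := h2 j hj F₁ f₀ hF₁ hf₀ (fun x hx => (hF₁e hx).symm)
  refine ⟨F, hF, hFe, fun x hx => ?_⟩
  have h3 := dist_triangle (g (F x)) (F₁ x) (f x)
  have h4 := hF₁d x hx
  have h5 := hFd x hx
  linarith

/-- absorption of the cones over the skeleta: input of `j_abs2` -/
def AbsSkel (k : ℕ) (M : Type) [MetricSpace M] : Prop :=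
  ∀ (V : Type) [MetricSpace V] [CompactSpace V] (K K1 : Set V) (p : ℕ)
    (χ : Fin p → (Fin (k + 2) → ℝ) → V), IsClosed K → ULC k K →
    Fam (Cu (k + 2)) (dCu (k + 2)) K K1 χ → ∀ m : ℕ, 0 < m →
    ∀ ε > 0, ∃ δ > 0, ∀ g : M → V, IsMap g univ K → L k g univ K δ → ∀ W : Set M, ZS W →
      ∃ g' : M → V, IsMap g' univ (KA k m K χ) ∧ L k g' univ (KA k m K χ) ε ∧
        (∀ x ∈ W, dist (g' x) (g x) < ε) ∧
        ∀ x, dist (g' x) (g x) < ε ∨ ∃ i, ∃ z ∈ Cu (k + 2), ∃ z' ∈ dCu (k + 2),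
          dist (g' x) (χ i z) < ε ∧ dist (g x) (χ i z') < ε

theorem absAt_of_skel {k : ℕ} {M : Type} [MetricSpace M] (h : AbsSkel k M) :
    Tr.AbsAt k (k + 2) (dCu (k + 2)) M := by
  intro V _ _ K K1 p χ hK hKu hF ε hε
  obtain ⟨m, hm, hL⟩ := incl (k := k) (by omega) hK hF (show (0:ℝ) < ε / 2 by positivity)
  obtain ⟨δ, hδ, hg⟩ := h V K K1 p χ hK hKu hF m hm (ε / 2) (by positivity)
  refine ⟨δ, hδ, ?_⟩
  intro g hgK hgL W hW
  obtain ⟨g', h1, h2, h3, h4⟩ := hg g hgK hgL W hW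
  have hsub : KA k m K χ ⊆ K1 := by
    rintro v (hv | ⟨i, a, ha, t, ht0, ht1, rfl⟩)
    · exact hF.subset hv
    · refine hF.maps i ?_
      rw [ccn_eq_chom, mem_Cu_crad, crad_chom (by linarith), mem_dCu_crad.1 ha.1]
      linarith
  refine ⟨g', h1.right hsub, ?_, ?_, ?_⟩
  · have := L_incl h1 hL h2
    rwa [add_halves] at this
  · intro x hx
    have := h3 x hx
    linarith
  · intro x
    rcases h4 x with h5 | ⟨i, z, hz, z', hz', h5, h6⟩
    · left; linarith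
    · exact Or.inr ⟨i, z, hz, z', hz', by linarith, by linarith⟩

end MG.Abs2

namespace MG.Tr

/-- `J_ABS2` from the absorption of the cones over the skeleta -/
theorem j_abs2_of (h : ∀ (k : ℕ) (M : Type) [MetricSpace M] [CompactSpace M], 1 ≤ k → MenT k M →
    Abs2.AbsSkel k M) : J_ABS2 := by
  intro k M _ _ hk hM
  exact Abs2.absAt_of_skel (h k M hk hM)

end MG.Tr
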