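import Pool.Agent.Work.MP_017613_gt.Skel24

/-!
# Joint J_BLOCK: the block construction
-/

open Set Metric Topology

namespace MG.Tr

namespace TB

lemma mem_J0_succ {d : ℕ} {x : Fin (d + 1) → ℝ} :
    x ∈ J0 (0 : Fin (d + 1)) ↔ x ∈ Cu (d + 1) ∧ (x 0 = 1 ∨ (cuSplit x).1 ∈ dCu d) := by
  constructor
  · rintro ⟨⟨hx, i, hi⟩, hn⟩
    refine ⟨hx, ?_⟩
    have hx' := mem_Cu_succ.1 hx
    have hc := mem_Cu.1 hx
    revert hi
    refine Fin.cases ?_ (fun i => ?_) i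
    · rintro (hi | hi)
      · by_contra hcon
        push Not at hcon
        refine hn ⟨hi, ?_⟩
        intro i
        refine Fin.cases ?_ (fun i => ?_) i
        · intro h; exact absurd rfl h
        · intro _
          have h0 := hc i.succ
          have h1 : ¬ (x i.succ = 0 ∨ x i.succ = 1) := fun h => hcon.2 ⟨hx'.1, i, h⟩
          push Not at h1
          exact ⟨lt_of_le_of_ne h0.1 (Ne.symm h1.1), lt_of_le_of_ne h0.2 h1.2⟩
      · exact Or.inl hi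
    · intro hi
      exact Or.inr ⟨hx'.1, i, hi⟩
  · rintro ⟨hx, h⟩
    have hx' := mem_Cu_succ.1 hx
    rcases h with h | h
    · refine ⟨⟨hx, 0, Or.inr h⟩, ?_⟩
      rintro ⟨h0, -⟩
      rw [h] at h0
      exact one_ne_zero h0
    · obtain ⟨h1, i, hi⟩ := h
      refine ⟨⟨hx, i.succ, hi⟩, ?_⟩
      rintro ⟨-, h0⟩
      have := h0 i.succ (Fin.succ_ne_zero i)
      change x i.succ = 0 ∨ x i.succ = 1 at hi
      rcases hi with hi | hi
      · exact absurd hi this.1.ne'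
      · exact absurd hi this.2.ne

lemma cons_mem_Cu {d : ℕ} {y : Fin d → ℝ} (hy : y ∈ Cu d) {t : ℝ} (h0 : 0 ≤ t) (h1 : t ≤ 1) :
    (Fin.cons t y : Fin (d + 1) → ℝ) ∈ Cu (d + 1) := by
  rw [mem_Cu_succ, cuSplit_cons]; exact ⟨hy, h0, h1⟩

lemma cons_mem_J0 {d : ℕ} {y : Fin d → ℝ} (hy : y ∈ Cu d) :
    (Fin.cons 0 y : Fin (d + 1) → ℝ) ∈ J0 (0 : Fin (d + 1)) ↔ y ∈ dCu d := by
  rw [mem_J0_succ, cuSplit_cons]
  constructor
  · rintro ⟨-, h | h⟩
    · simp at h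
    · exact h
  · intro h
    exact ⟨cons_mem_Cu hy le_rfl zero_le_one, Or.inr h⟩

lemma continuous_cons {d : ℕ} (t : ℝ) :
    Continuous (fun y : Fin d → ℝ => (Fin.cons t y : Fin (d + 1) → ℝ)) := by
  refine continuous_pi fun i => ?_
  refine Fin.cases ?_ (fun i => ?_) i
  · simpa using continuous_const
  · simpa using continuous_apply i

section Lay

variable {V V1 X : Type} [MetricSpace V] [MetricSpace V1] [MetricSpace X]

lemma fam_image {ε κ : Type*} [TopologicalSpace ε] {ι : V → V1} (hι : Isometry ι) {Q : Set V1}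
    {B A : Set ε} {K' K'' : Set V} {χ : κ → ε → V} (h : Fam B A K' K'' χ)
    (hQ : ∀ v, ι v ∈ Q → v ∈ K') :
    Fam B A (Q ∪ ι '' K') (Q ∪ ι '' K'') (fun i x => ι (χ i x)) := by
  refine ⟨fun i => hι.continuous.comp_continuousOn (h.cont i), ?_, ?_, ?_, ?_⟩
  · intro i x hx
    exact Or.inr ⟨_, h.bdry i hx, rfl⟩
  · rintro i x hx hxA (hq | ⟨v, hv, heq⟩)
    · exact h.off i x hx hxA (hQ _ hq)
    · exact h.off i x hx hxA (hι.injective heq ▸ hv)
  · intro i i' x x' hx hxA hx' hxA' heq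
    exact h.inj _ _ _ _ hx hxA hx' hxA' (hι.injective heq)
  · rw [h.union, image_union, ← union_assoc]
    congr 1
    rw [image_iUnion]
    refine iUnion_congr fun i => ?_
    rw [image_image]

lemma lays_image {ι : V → V1} (hι : Isometry ι) {ret : V1 → V} (hret : ∀ v, ret (ι v) = v)
    {c : V → X} {Q : Set V1} {t0 t1 : ℝ} (ht : t0 ≤ t1) :
    ∀ (ds : List ℕ) (K' K'' : Set V), Lays c t0 ds K' K'' → (∀ v, ι v ∈ Q → v ∈ K') →
      Lays (fun v => c (ret v)) t1 ds (Q ∪ ι '' K') (Q ∪ ι '' K'') := by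
  intro ds
  induction ds with
  | nil =>
    intro K' K'' h _
    have h' : K' = K'' := h
    subst h'
    rfl
  | cons d ds ih =>
    rintro K' K'' ⟨K1, ⟨m, χ, hf, hs⟩, hl⟩ hQ
    refine ⟨Q ∪ ι '' K1, ⟨m, fun i x => ι (χ i x), fam_image hι hf hQ, ?_⟩,
      ih K1 K'' hl fun v hv => hf.subset (hQ v hv)⟩
    intro i
    obtain ⟨y, hy⟩ := hs i
    refine ⟨y, fun x hx => ?_⟩
    change dist (c (ret (ι (χ i x)))) y < t1
    rw [hret]
    exact (hy x hx).trans_le ht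

lemma lays_append {c : V → X} {t : ℝ} {d : ℕ} {V' V'' : Set V} (hs : SLayer c t d V' V'') :
    ∀ (ds : List ℕ) (K : Set V), Lays c t ds K V' → Lays c t (ds ++ [d]) K V'' := by
  intro ds
  induction ds with
  | nil =>
    intro K h
    have h' : K = V' := h
    subst h'
    exact ⟨V'', hs, rfl⟩
  | cons e ds ih =>
    rintro K ⟨K1, h1, h2⟩
    exact ⟨K1, h1, ih K1 h2⟩

end Lay

end TB

open TB

theorem j_block : J_BLOCK := by
  intro k j X V _ _ _ c K K' t0 t1 ds hjk hc hK ht hlay hlays hruv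
  classical
  obtain ⟨m, χ, hf, hs⟩ := hlay
  choose yy hyy using hs
  have hH : ∀ i, ∃ H : (Fin j → ℝ) × ℝ → V, IsMap H (Cu j ×ˢ Icc (0:ℝ) 1) univ ∧
      (∀ x ∈ Cu j, H (x, 0) = χ i x ∧ H (x, 1) ∈ K) ∧
      (∀ x ∈ dCu j, ∀ s ∈ Icc (0:ℝ) 1, H (x, s) = χ i x) ∧
      ∀ x ∈ Cu j, ∀ s ∈ Icc (0:ℝ) 1, dist (c (H (x, s))) (yy i) < t1 := fun i =>
    hruv j hjk (yy i) (χ i) ⟨hf.cont i, fun _ _ => mem_univ _⟩ (hf.bdry i) (hyy i)
  choose H hH1 hH2 hH3 hH4 using hH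
  -- the attaching maps
  let Φ : Fin m → (Fin (j + 1) → ℝ) → V := fun i y => H i (cuSplit y)
  have hΦc : ∀ i, ContinuousOn (Φ i) (Cu (j + 1)) := fun i =>
    (hH1 i).cont.comp continuous_cuSplit.continuousOn fun y hy => mem_Cu_succ.1 hy
  have hΦs : ∀ i, ∀ y ∈ Cu (j + 1), dist (c (Φ i y)) (yy i) < t1 := fun i y hy =>
    hH4 i _ (mem_Cu_succ.1 hy).1 _ (mem_Cu_succ.1 hy).2
  have hΦJ : ∀ i, ∀ y ∈ J0 (0 : Fin (j + 1)), Φ i y ∈ K := by
    intro i y hy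
    obtain ⟨hy1, hy2⟩ := mem_J0_succ.1 hy
    have hy3 := mem_Cu_succ.1 hy1
    rcases hy2 with h | h
    · have : Φ i y = H i ((cuSplit y).1, 1) := by
        change H i ((cuSplit y).1, y 0) = _
        rw [h]
      rw [this]
      exact (hH2 i _ hy3.1).2
    · have : Φ i y = χ i (cuSplit y).1 := hH3 i _ h _ hy3.2
      rw [this]
      exact hf.bdry i h
  have hΦ0 : ∀ i, ∀ y ∈ Cu (j + 1), y 0 = 0 → Φ i y = χ i (cuSplit y).1 := by
    intro i y hy h0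
    have : Φ i y = H i ((cuSplit y).1, 0) := by
      change H i ((cuSplit y).1, y 0) = _
      rw [h0]
    rw [this]
    exact (hH2 i _ (mem_Cu_succ.1 hy).1).1
  have hΦd : ∀ i, ∀ y ∈ dCu (j + 1), Φ i y ∈ K' := by
    intro i y hy
    by_cases hyJ : y ∈ J0 (0 : Fin (j + 1))
    · exact hf.subset (hΦJ i y hyJ)
    · have hy1 := dCu_subset _ hy
      have h0 : y 0 = 0 := by
        by_contra h0
        exact hyJ ⟨hy, fun h => h0 h.1⟩
      rw [hΦ0 i y hy1 h0]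
      exact hf.maps i (mem_Cu_succ.1 hy1).1
  let ψ : Fin m → (Fin (j + 2) → ℝ) → V := fun i z => Φ i (cuSplit z).1
  have hψc : ∀ i, ContinuousOn (ψ i) (Cu (j + 2)) := fun i =>
    (hΦc i).comp (continuous_fst.comp continuous_cuSplit).continuousOn
      fun z hz => (mem_Cu_succ.1 hz).1
  have hJsub : J0 (0 : Fin (j + 2)) ⊆ Cu (j + 2) := (J0_subset _).trans (dCu_subset _)
  obtain ⟨V1, mV1, cV1, ι, χ1, hι, hF, hb⟩ := exists_attach (isCompact_Cu (j + 2))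
    (Cu_nonempty (j + 2)) (isCompact_J0 (0 : Fin (j + 2))).isClosed ψ
    (fun i => (hψc i).mono hJsub) hJsub
  have hrc : IsClosed (range ι) := (isCompact_range hι.continuous).isClosed
  -- inverse of ι
  have hinv : ∀ w : V1, ∃ v : V, ∀ v', ι v' = w → v = v' := by
    intro w
    by_cases hw : w ∈ range ι
    · obtain ⟨v, rfl⟩ := hw
      exact ⟨v, fun v' h => (hι.injective h).symm⟩
    · obtain ⟨i, x, hx, -, -⟩ := hF.exists_rep (mem_univ w) hw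
      exact ⟨ψ i x, fun v' h => absurd ⟨v', h⟩ hw⟩
  choose F0 hF0 using hinv
  have hF0' : ∀ v, F0 (ι v) = v := fun v => hF0 (ι v) v rfl
  have hF0c : ContinuousOn F0 (range ι) := by
    refine LipschitzOnWith.continuousOn (K := 1) (LipschitzOnWith.of_dist_le_mul ?_)
    rintro _ ⟨v, rfl⟩ _ ⟨v', rfl⟩
    rw [hF0', hF0', hι.dist_eq]
    simp
  obtain ⟨ret, hret1, hret2, hret3⟩ := hF.glue (isCompact_Cu _) hrc hF0c hψc
    (fun i z hz => by rw [hb i z hz, hF0'])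
  have hretι : ∀ v, ret (ι v) = v := fun v => by rw [hret2 ⟨v, rfl⟩, hF0']
  -- the deformation
  let mv : (Fin (j + 2) → ℝ) × ℝ → (Fin (j + 2) → ℝ) := fun p =>
    Fin.cons (p.1 0 + p.2 * (1 - p.1 0)) (cuSplit p.1).1
  have hmvc : Continuous mv := by
    refine continuous_pi fun i => ?_
    refine Fin.cases ?_ (fun i => ?_) i
    · simp only [mv, Fin.cons_zero]
      fun_prop
    · simp only [mv, Fin.cons_succ]
      exact (continuous_apply i.succ).comp continuous_fst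
  have hmvm : ∀ p ∈ Cu (j + 2) ×ˢ Icc (0:ℝ) 1, mv p ∈ Cu (j + 2) := by
    rintro ⟨z, s⟩ ⟨hz, hs0, hs1⟩
    have hz' := mem_Cu_succ.1 hz
    have h0 : 0 ≤ z 0 := hz'.2.1
    have h1 : z 0 ≤ 1 := hz'.2.2
    refine cons_mem_Cu hz'.1 ?_ ?_
    · have : 0 ≤ s * (1 - z 0) := mul_nonneg hs0 (by linarith)
      change 0 ≤ z 0 + s * (1 - z 0)
      linarith
    · have : s * (1 - z 0) ≤ 1 * (1 - z 0) := mul_le_mul_of_nonneg_right hs1 (by linarith)
      change z 0 + s * (1 - z 0) ≤ 1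
      linarith
  have hmvψ : ∀ i p, ψ i (mv p) = ψ i p.1 := fun i p => rfl
  have hmvJ : ∀ p ∈ J0 (0 : Fin (j + 2)) ×ˢ Icc (0:ℝ) 1, mv p ∈ J0 (0 : Fin (j + 2)) := by
    rintro ⟨z, s⟩ ⟨hz, hs⟩
    obtain ⟨hz1, hz2⟩ := mem_J0_succ.1 hz
    refine mem_J0_succ.2 ⟨hmvm _ ⟨hz1, hs⟩, ?_⟩
    rcases hz2 with h | h
    · left
      have h' : z 0 = 1 := h
      change z 0 + s * (1 - z 0) = 1
      rw [h']; ring
    · right
      exact h
  obtain ⟨D, hD1, hD2, hD3⟩ := (hF.prodSet (Icc (0:ℝ) 1)).glue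
    ((isCompact_Cu (j + 2)).prod isCompact_Icc) (hrc.prod isClosed_Icc)
    (F0 := fun p : V1 × ℝ => p.1) continuous_fst.continuousOn
    (G := fun i p => χ1 i (mv p))
    (fun i => (hF.cont i).comp hmvc.continuousOn hmvm)
    (fun i p hp => by
      change χ1 i (mv p) = χ1 i p.1
      rw [hb i _ (hmvJ p hp), hb i _ hp.1, hmvψ])
  have hDι : ∀ v, ∀ t ∈ Icc (0:ℝ) 1, D (ι v, t) = ι v := fun v t ht =>
    hD2 (⟨⟨v, rfl⟩, ht⟩ : ((ι v, t) : V1 × ℝ) ∈ range ι ×ˢ Icc (0:ℝ) 1)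
  have hDχ : ∀ i, ∀ z ∈ Cu (j + 2), ∀ t ∈ Icc (0:ℝ) 1, D (χ1 i z, t) = χ1 i (mv (z, t)) :=
    fun i z hz t ht => hD3 i (z, t) ⟨hz, ht⟩
  -- the set K1
  let χ' : Fin m → (Fin (j + 1) → ℝ) → V1 := fun i y => χ1 i (Fin.cons 0 y)
  let K1 : Set V1 := ι '' K ∪ ⋃ i, χ' i '' Cu (j + 1)
  have hχ'c : ∀ i, ContinuousOn (χ' i) (Cu (j + 1)) := fun i =>
    (hF.cont i).comp (continuous_cons 0).continuousOn
      fun y hy => cons_mem_Cu hy le_rfl zero_le_one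
  have hχ'd : ∀ i, ∀ y ∈ dCu (j + 1), χ' i y = ι (Φ i y) := by
    intro i y hy
    exact hb i _ ((cons_mem_J0 (dCu_subset _ hy)).2 hy)
  have hχ'o : ∀ i, ∀ y ∈ Cu (j + 1), y ∉ dCu (j + 1) → χ' i y ∉ range ι := by
    intro i y hy hyd
    exact hF.off i _ (cons_mem_Cu hy le_rfl zero_le_one)
      (fun h => hyd ((cons_mem_J0 hy).1 h))
  have hχ'b : ∀ i, ∀ y ∈ Cu (j + 1), y ∉ J0 (0 : Fin (j + 1)) → y ∈ dCu (j + 1) →
      y 0 = 0 ∧ (cuSplit y).1 ∈ Cu j ∧ (cuSplit y).1 ∉ dCu j ∧ χ' i y = ι (χ i (cuSplit y).1) := by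
    intro i y hy hyJ hyd
    have h0 : y 0 = 0 := by
      by_contra h0
      exact hyJ ⟨hyd, fun h => h0 h.1⟩
    refine ⟨h0, (mem_Cu_succ.1 hy).1, fun h => hyJ (mem_J0_succ.2 ⟨hy, Or.inr h⟩), ?_⟩
    rw [hχ'd i y hyd, hΦ0 i y hy h0]
  have hfam : Fam (Cu (j + 1)) (J0 0) (ι '' K) K1 χ' := by
    refine ⟨hχ'c, ?_, ?_, ?_, rfl⟩
    · intro i y hy
      rw [hχ'd i y (J0_subset _ hy)]
      exact ⟨_, hΦJ i y hy, rfl⟩
    · intro i y hy hyJ
      by_cases hyd : y ∈ dCu (j + 1)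
      · obtain ⟨-, h1, h2, h3⟩ := hχ'b i y hy hyJ hyd
        rw [h3]
        rintro ⟨v, hv, heq⟩
        exact hf.off i _ h1 h2 (hι.injective heq ▸ hv)
      · rintro ⟨v, -, heq⟩
        exact hχ'o i y hy hyd ⟨v, heq⟩
    · intro i i' y y' hy hyJ hy' hyJ' heq
      by_cases hyd : y ∈ dCu (j + 1)
      · obtain ⟨h0, h1, h2, h3⟩ := hχ'b i y hy hyJ hyd
        by_cases hyd' : y' ∈ dCu (j + 1)
        · obtain ⟨g0, g1, g2, g3⟩ := hχ'b i' y' hy' hyJ' hyd'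
          rw [h3, g3] at heq
          obtain ⟨e1, e2⟩ := hf.inj _ _ _ _ h1 h2 g1 g2 (hι.injective heq)
          refine ⟨e1, cuSplit_inj (Prod.ext e2 ?_)⟩
          change y 0 = y' 0
          rw [h0, g0]
        · exact absurd ⟨_, (h3 ▸ heq : ι (χ i (cuSplit y).1) = χ' i' y')⟩ (hχ'o i' y' hy' hyd')
      · by_cases hyd' : y' ∈ dCu (j + 1)
        · obtain ⟨g0, g1, g2, g3⟩ := hχ'b i' y' hy' hyJ' hyd'
          exact absurd ⟨_, (g3 ▸ heq.symm : ι (χ i' (cuSplit y').1) = χ' i y)⟩ (hχ'o i y hy hyd)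
        · obtain ⟨e1, e2⟩ := hF.inj i i' (Fin.cons 0 y) (Fin.cons 0 y')
            (cons_mem_Cu hy le_rfl zero_le_one)
            (fun h => hyd ((cons_mem_J0 hy).1 h)) (cons_mem_Cu hy' le_rfl zero_le_one)
            (fun h => hyd' ((cons_mem_J0 hy').1 h)) heq
          exact ⟨e1, Fin.cons_right_injective (α := fun _ => ℝ) 0 e2⟩
  have hχ's : ∀ i, ∀ y ∈ Cu (j + 1), dist (c (ret (χ' i y))) (yy i) < t1 := by
    intro i y hy
    have : ret (χ' i y) = Φ i y := hret3 i _ (cons_mem_Cu hy le_rfl zero_le_one)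
    rw [this]
    exact hΦs i y hy
  have hK1c : IsClosed K1 := by
    refine IsClosed.union ?_ (isClosed_iUnion_of_finite fun i =>
      hfam.isClosed_image (isCompact_Cu _) i)
    exact (hK.isCompact.image hι.continuous).isClosed
  have hQ : ∀ v, ι v ∈ K1 → v ∈ K' := by
    rintro v (⟨w, hw, heq⟩ | hv)
    · exact hι.injective heq ▸ hf.subset hw
    · obtain ⟨i, y, hy, heq⟩ := mem_iUnion.1 hv
      by_cases hyd : y ∈ dCu (j + 1)
      · rw [hχ'd i y hyd] at heq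
        exact hι.injective heq ▸ hΦd i y hyd
      · exact absurd ⟨v, heq.symm⟩ (hχ'o i y hy hyd)
  have hK'1 : ι '' K' ⊆ K1 := by
    rintro _ ⟨v, hv, rfl⟩
    rw [hf.union] at hv
    rcases hv with hv | hv
    · exact Or.inl ⟨v, hv, rfl⟩
    · obtain ⟨i, x, hx, rfl⟩ := mem_iUnion.1 hv
      have h1 : (Fin.cons 0 x : Fin (j + 1) → ℝ) ∈ Cu (j + 1) := cons_mem_Cu hx le_rfl zero_le_one
      refine Or.inr (mem_iUnion.2 ⟨i, Fin.cons 0 x, h1, ?_⟩)
      have h2 : (Fin.cons 0 x : Fin (j + 1) → ℝ) ∈ dCu (j + 1) := ⟨h1, 0, Or.inl rfl⟩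
      rw [hχ'd i _ h2, hΦ0 i _ h1 rfl, cuSplit_cons]
  have hlast : SLayer (fun v => c (ret v)) t1 (j + 2) (K1 ∪ ι '' univ) univ := by
    refine ⟨m, χ1, ⟨hF.cont, ?_, ?_, ?_, ?_⟩, ?_⟩
    · intro i z hz
      by_cases hzJ : z ∈ J0 (0 : Fin (j + 2))
      · rw [hb i z hzJ]
        exact Or.inr ⟨_, mem_univ _, rfl⟩
      · have h0 : z 0 = 0 := by
          by_contra h0
          exact hzJ ⟨hz, fun h => h0 h.1⟩
        have hz' := mem_Cu_succ.1 (dCu_subset _ hz)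
        have hz0 : (Fin.cons 0 (cuSplit z).1 : Fin (j + 2) → ℝ) = z := by
          refine cuSplit_inj ?_
          rw [cuSplit_cons]
          exact Prod.ext rfl h0.symm
        refine Or.inl (Or.inr (mem_iUnion.2 ⟨i, (cuSplit z).1, hz'.1, ?_⟩))
        change χ1 i (Fin.cons 0 (cuSplit z).1) = χ1 i z
        rw [hz0]
    · rintro i z hz hzd hmem
      have hzJ : z ∉ J0 (0 : Fin (j + 2)) := fun h => hzd (J0_subset _ h)
      have hzr := hF.off i z hz hzJ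
      rcases hmem with (⟨v, -, heq⟩ | hv) | ⟨v, -, heq⟩
      · exact hzr ⟨v, heq⟩
      · obtain ⟨i', y, hy, heq⟩ := mem_iUnion.1 hv
        by_cases hyd : y ∈ dCu (j + 1)
        · rw [hχ'd i' y hyd] at heq
          exact hzr ⟨_, heq⟩
        · obtain ⟨-, e2⟩ := hF.inj i' i (Fin.cons 0 y) z (cons_mem_Cu hy le_rfl zero_le_one)
            (fun h => hyd ((cons_mem_J0 hy).1 h)) hz hzJ heq
          refine hzd ⟨hz, 0, Or.inl ?_⟩
          rw [← e2]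
          rfl
      · exact hzr ⟨v, heq⟩
    · intro i i' z z' hz hzd hz' hzd' heq
      exact hF.inj i i' z z' hz (fun h => hzd (J0_subset _ h)) hz' (fun h => hzd' (J0_subset _ h))
        heq
    · rw [image_univ]
      refine (eq_univ_iff_forall.2 fun w => ?_).symm
      have hw : w ∈ range ι ∪ ⋃ i, χ1 i '' Cu (j + 2) := hF.union ▸ mem_univ w
      rcases hw with hw | hw
      · exact Or.inl (Or.inr hw)
      · exact Or.inr hw
    · intro i
      refine ⟨yy i, fun z hz => ?_⟩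
      change dist (c (ret (χ1 i z))) (yy i) < t1
      rw [hret3 i z hz]
      exact hΦs i _ (mem_Cu_succ.1 hz).1
  refine ⟨V1, mV1, cV1, ι, ret, K1, ⟨hι, continuousOn_univ.1 hret1, hretι, hK1c,
    fun _ h => Or.inl h, ⟨m, χ', hfam, fun i => ⟨yy i, hχ's i⟩⟩, ⟨D, hD1, ?_, ?_, hDι⟩⟩, ?_⟩
  · intro x
    by_cases hx : x ∈ range ι
    · obtain ⟨v, rfl⟩ := hx
      exact ⟨hDι v 0 ⟨le_rfl, zero_le_one⟩, by rw [hDι v 1 ⟨zero_le_one, le_rfl⟩, hretι]⟩
    · obtain ⟨i, z, hz, -, rfl⟩ := hF.exists_rep (mem_univ x) hx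
      refine ⟨?_, ?_⟩
      · rw [hDχ i z hz 0 ⟨le_rfl, zero_le_one⟩]
        congr 1
        refine cuSplit_inj (Prod.ext rfl ?_)
        change z 0 + 0 * (1 - z 0) = z 0
        ring
      · rw [hDχ i z hz 1 ⟨zero_le_one, le_rfl⟩, hret3 i z hz]
        have h1 : mv (z, 1) ∈ J0 (0 : Fin (j + 2)) := by
          refine mem_J0_succ.2 ⟨hmvm _ ⟨hz, zero_le_one, le_rfl⟩, Or.inl ?_⟩
          change z 0 + 1 * (1 - z 0) = 1
          ring
        rw [hb i _ h1, hmvψ]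
  · intro x t ht
    by_cases hx : x ∈ range ι
    · obtain ⟨v, rfl⟩ := hx
      rw [hDι v t ht]
    · obtain ⟨i, z, hz, -, rfl⟩ := hF.exists_rep (mem_univ x) hx
      rw [hDχ i z hz t ht, hret3 i z hz, hret3 i _ (hmvm _ ⟨hz, ht⟩), hmvψ]
  · refine lays_append hlast ds K1 ?_
    have h := lays_image (c := c) hι hretι (Q := K1) ht ds K' univ hlays hQ
    rwa [union_eq_left.2 hK'1] at h

end MG.Tr
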