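import Pool.Agent.Work.MP_017613_gt.Kit.Radial
import Pool.Agent.Work.MP_017613_gt.Kit.Hep
import Pool.Agent.Work.MP_017613_gt.Kit.Glue

/-!
# Homotopies on cubes: concatenation, change of the boundary track, path spaces (helper80)

* `concat_hty`: concatenation.
* `retrack_hty`: boundary tracks `Q (x, σ s)` can be replaced by `Q (x, σ' s)`, rel ends.
* `cancel_hty`: a boundary track which is a path followed by its inverse is cancelled.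
* `hty_of_paths`, `paths_of_hty`: homotopies and maps into path spaces.
-/

open Set Metric Topology

namespace MG.Tr

lemma continuous_consI {j : ℕ} :
    Continuous fun p : (Fin j → ℝ) × ℝ => (Fin.cons p.2 p.1 : Fin (j + 1) → ℝ) := by
  refine continuous_pi fun i => ?_
  refine Fin.cases ?_ (fun i => ?_) i
  · show Continuous fun p : (Fin j → ℝ) × ℝ => p.2
    exact continuous_snd
  · show Continuous fun p : (Fin j → ℝ) × ℝ => p.1 i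
    exact (continuous_apply i).comp continuous_fst

section

variable {Y γ : Type*} [TopologicalSpace Y] [MetricSpace γ]

/-- concatenation of homotopies -/
theorem concat_hty {ε : Type*} [TopologicalSpace ε] {A : Set ε} (hA : IsClosed A) {T : Set Y}
    {H₁ H₂ : ε × ℝ → Y} (h1 : IsMap H₁ (A ×ˢ Icc (0:ℝ) 1) T) (h2 : IsMap H₂ (A ×ˢ Icc (0:ℝ) 1) T)
    (h12 : ∀ x ∈ A, H₁ (x, 1) = H₂ (x, 0)) :
    ∃ H : ε × ℝ → Y, IsMap H (A ×ˢ Icc (0:ℝ) 1) T ∧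
      (∀ x ∈ A, ∀ s : ℝ, 0 ≤ s → s ≤ 1 / 2 → H (x, s) = H₁ (x, 2 * s)) ∧
      ∀ x ∈ A, ∀ s : ℝ, 1 / 2 ≤ s → s ≤ 1 → H (x, s) = H₂ (x, 2 * s - 1) := by
  have e : (A ×ˢ Icc (0:ℝ) 1) = A ×ˢ Icc (0:ℝ) (1 / 2) ∪ A ×ˢ Icc (1 / 2 : ℝ) 1 := by
    rw [← prod_union, Icc_union_Icc_eq_Icc (by norm_num) (by norm_num)]
  have m1 : IsMap (fun p : ε × ℝ => H₁ (p.1, 2 * p.2)) (A ×ˢ Icc (0:ℝ) (1 / 2)) T := by
    refine h1.comp (f := fun p : ε × ℝ => (p.1, 2 * p.2)) ⟨by fun_prop, ?_⟩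
    rintro p ⟨hp1, hp2, hp3⟩
    exact ⟨hp1, by simp only; linarith, by simp only; linarith⟩
  have m2 : IsMap (fun p : ε × ℝ => H₂ (p.1, 2 * p.2 - 1)) (A ×ˢ Icc (1 / 2 : ℝ) 1) T := by
    refine h2.comp (f := fun p : ε × ℝ => (p.1, 2 * p.2 - 1)) ⟨by fun_prop, ?_⟩
    rintro p ⟨hp1, hp2, hp3⟩
    exact ⟨hp1, by simp only; linarith, by simp only; linarith⟩
  obtain ⟨H, hH, e1, e2⟩ := IsMap.glue (hA.prod isClosed_Icc) (hA.prod isClosed_Icc) m1 m2 (by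
    rintro p ⟨hp1, hp2, hp3⟩ ⟨-, hp5, hp6⟩
    have hp : p.2 = 1 / 2 := le_antisymm hp3 hp5
    show H₁ (p.1, 2 * p.2) = H₂ (p.1, 2 * p.2 - 1)
    rw [hp]
    norm_num
    exact h12 _ hp1)
  rw [← e] at hH
  exact ⟨H, hH, fun x hx s hs hs' => e1 (⟨hx, hs, hs'⟩ : (x, s) ∈ A ×ˢ Icc (0:ℝ) (1 / 2)),
    fun x hx s hs hs' => e2 (⟨hx, hs, hs'⟩ : (x, s) ∈ A ×ˢ Icc (1 / 2 : ℝ) 1)⟩

/-- boundary tracks can be reparametrised, rel ends -/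
theorem retrack_hty {j : ℕ} {T : Set Y} {Φ Q : (Fin j → ℝ) × ℝ → Y} {σ σ' : ℝ → ℝ}
    (hΦ : IsMap Φ (Cu j ×ˢ Icc (0:ℝ) 1) T) (hQ : IsMap Q (dCu j ×ˢ Icc (0:ℝ) 1) T)
    (hσ : Continuous σ) (hσm : ∀ s ∈ Icc (0:ℝ) 1, σ s ∈ Icc (0:ℝ) 1)
    (hσ' : Continuous σ') (hσm' : ∀ s ∈ Icc (0:ℝ) 1, σ' s ∈ Icc (0:ℝ) 1) (hσ0 : σ' 0 = σ 0)
    (hσ1 : σ' 1 = σ 1) (hb : ∀ x ∈ dCu j, ∀ s ∈ Icc (0:ℝ) 1, Φ (x, s) = Q (x, σ s))
    {c : Y → γ} (hc : ContinuousOn c T) {ρ : ℝ} (hρ : 0 < ρ)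
    (htr : ∀ x ∈ dCu j, ∀ v ∈ Icc (0:ℝ) 1, ∀ v' ∈ Icc (0:ℝ) 1,
      dist (c (Q (x, v))) (c (Q (x, v'))) < ρ) :
    ∃ Ψ : (Fin j → ℝ) × ℝ → Y, IsMap Ψ (Cu j ×ˢ Icc (0:ℝ) 1) T ∧
      (∀ x ∈ Cu j, Ψ (x, 0) = Φ (x, 0) ∧ Ψ (x, 1) = Φ (x, 1)) ∧
      (∀ x ∈ dCu j, ∀ s ∈ Icc (0:ℝ) 1, Ψ (x, s) = Q (x, σ' s)) ∧
      ∀ x ∈ Cu j, ∀ s ∈ Icc (0:ℝ) 1, dist (c (Ψ (x, s))) (c (Φ (x, s))) < ρ := by
  have ha : IsMap (fun z : Fin (j + 1) → ℝ => Φ (cuSplit z)) (Cu (j + 1)) T :=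
    hΦ.comp ⟨continuous_cuSplit.continuousOn, fun z hz => mem_Cu_succ.1 hz⟩
  -- the homotopy on the boundary
  set A₁ : Set ((Fin (j + 1) → ℝ) × ℝ) :=
    {p | cuSplit p.1 ∈ Cu j ×ˢ ({0, 1} : Set ℝ) ∧ p.2 ∈ Icc (0:ℝ) 1} with hA₁
  set A₂ : Set ((Fin (j + 1) → ℝ) × ℝ) :=
    {p | cuSplit p.1 ∈ dCu j ×ˢ Icc (0:ℝ) 1 ∧ p.2 ∈ Icc (0:ℝ) 1} with hA₂
  have cs : Continuous fun p : (Fin (j + 1) → ℝ) × ℝ => cuSplit p.1 :=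
    continuous_cuSplit.comp continuous_fst
  have cA₁ : IsClosed A₁ :=
    (((isClosed_Cu j).prod (Set.toFinite _).isClosed).preimage cs).inter
      (isClosed_Icc.preimage continuous_snd)
  have cA₂ : IsClosed A₂ :=
    (((isClosed_dCu j).prod isClosed_Icc).preimage cs).inter (isClosed_Icc.preimage continuous_snd)
  have hU : dCu (j + 1) ×ˢ Icc (0:ℝ) 1 = A₁ ∪ A₂ := by
    ext p
    constructor
    · rintro ⟨h1, h2⟩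
      rcases mem_dCu_succ.1 h1 with h | h
      · exact Or.inl ⟨h, h2⟩
      · exact Or.inr ⟨h, h2⟩
    · rintro (⟨h1, h2⟩ | ⟨h1, h2⟩)
      · exact ⟨mem_dCu_succ.2 (Or.inl h1), h2⟩
      · exact ⟨mem_dCu_succ.2 (Or.inr h1), h2⟩
  have m1 : IsMap (fun p : (Fin (j + 1) → ℝ) × ℝ => Φ (cuSplit p.1)) A₁ T := by
    refine hΦ.comp (f := fun p : (Fin (j + 1) → ℝ) × ℝ => cuSplit p.1) ⟨cs.continuousOn, ?_⟩
    rintro p ⟨⟨h1, h2⟩, -⟩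
    refine ⟨h1, ?_⟩
    rcases h2 with h2 | h2
    · rw [h2]; exact ⟨le_rfl, zero_le_one⟩
    · rw [mem_singleton_iff.1 h2]; exact ⟨zero_le_one, le_rfl⟩
  have hmul : ∀ s ∈ Icc (0:ℝ) 1, ∀ u ∈ Icc (0:ℝ) 1, σ s * (1 - u) + σ' s * u ∈ Icc (0:ℝ) 1 := by
    intro s hs u hu
    have h1 := hσm s hs
    have h2 := hσm' s hs
    have h3 : 0 ≤ 1 - u := by linarith [hu.2]
    have h4 := mul_nonneg h1.1 h3
    have h5 := mul_nonneg h2.1 hu.1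
    have h6 := mul_nonneg (sub_nonneg.2 h1.2) h3
    have h7 := mul_nonneg (sub_nonneg.2 h2.2) hu.1
    exact ⟨by linarith, by linarith⟩
  have m2 : IsMap (fun p : (Fin (j + 1) → ℝ) × ℝ =>
      Q ((cuSplit p.1).1, σ (cuSplit p.1).2 * (1 - p.2) + σ' (cuSplit p.1).2 * p.2)) A₂ T := by
    refine hQ.comp (f := fun p : (Fin (j + 1) → ℝ) × ℝ =>
      ((cuSplit p.1).1, σ (cuSplit p.1).2 * (1 - p.2) + σ' (cuSplit p.1).2 * p.2)) ⟨?_, ?_⟩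
    · refine Continuous.continuousOn ?_
      refine (continuous_fst.comp cs).prodMk ?_
      exact ((hσ.comp (continuous_snd.comp cs)).mul (continuous_const.sub continuous_snd)).add
        ((hσ'.comp (continuous_snd.comp cs)).mul continuous_snd)
    · rintro p ⟨⟨h1, h2⟩, h3⟩
      exact ⟨h1, hmul _ h2 _ h3⟩
  obtain ⟨h, hh, e1, e2⟩ := IsMap.glue cA₁ cA₂ m1 m2 (by
    rintro p ⟨⟨h1, h2⟩, -⟩ ⟨⟨h3, h4⟩, -⟩
    have h5 : σ' (cuSplit p.1).2 = σ (cuSplit p.1).2 := by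
      rcases h2 with h2 | h2
      · rw [h2, hσ0]
      · rw [mem_singleton_iff.1 h2, hσ1]
    have h6 := hb _ h3 _ h4
    show Φ ((cuSplit p.1).1, (cuSplit p.1).2) =
      Q ((cuSplit p.1).1, σ (cuSplit p.1).2 * (1 - p.2) + σ' (cuSplit p.1).2 * p.2)
    rw [h6, h5]
    congr 2
    ring)
  rw [← hU] at hh
  have h0 : ∀ z ∈ dCu (j + 1), h (z, 0) = Φ (cuSplit z) := by
    intro z hz
    have h00 : (0:ℝ) ∈ Icc (0:ℝ) 1 := ⟨le_rfl, zero_le_one⟩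
    rcases mem_dCu_succ.1 hz with h1 | h1
    · exact e1 (⟨h1, h00⟩ : (z, (0:ℝ)) ∈ A₁)
    · have h2 := e2 (⟨h1, h00⟩ : (z, (0:ℝ)) ∈ A₂)
      rw [h2]
      show Q ((cuSplit z).1, σ (cuSplit z).2 * (1 - 0) + σ' (cuSplit z).2 * 0) =
        Φ ((cuSplit z).1, (cuSplit z).2)
      rw [sub_zero, mul_one, mul_zero, add_zero, hb _ h1.1 _ h1.2]
  obtain ⟨G, hG, g1, g2, g3⟩ := cell_hep ha hh h0 hc hρ (by
    intro z hz u hu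
    rcases mem_dCu_succ.1 hz with h1 | h1
    · have h2 := e1 (⟨h1, hu⟩ : (z, u) ∈ A₁)
      rw [h2]
      show dist (c (Φ (cuSplit z))) (c (Φ (cuSplit z))) < ρ
      rw [dist_self]; exact hρ
    · have h2 := e2 (⟨h1, hu⟩ : (z, u) ∈ A₂)
      rw [h2]
      show dist (c (Q ((cuSplit z).1, σ (cuSplit z).2 * (1 - u) + σ' (cuSplit z).2 * u)))
        (c (Φ ((cuSplit z).1, (cuSplit z).2))) < ρ
      rw [hb _ h1.1 _ h1.2]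
      exact htr _ h1.1 _ (hmul _ h1.2 _ hu) _ (hσm _ h1.2))
  have hcons : ∀ {x : Fin j → ℝ} {s : ℝ}, x ∈ Cu j → s ∈ Icc (0:ℝ) 1 →
      (Fin.cons s x : Fin (j + 1) → ℝ) ∈ Cu (j + 1) := fun hx hs =>
    mem_Cu_succ.2 (by rw [cuSplit_cons]; exact ⟨hx, hs⟩)
  have h11 : (1:ℝ) ∈ Icc (0:ℝ) 1 := ⟨zero_le_one, le_rfl⟩
  have h01 : (0:ℝ) ∈ Icc (0:ℝ) 1 := ⟨le_rfl, zero_le_one⟩
  have ccons : Continuous fun p : (Fin j → ℝ) × ℝ => ((Fin.cons p.2 p.1 : Fin (j + 1) → ℝ), (1:ℝ)) :=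
    continuous_consI.prodMk continuous_const
  refine ⟨fun p => G ((Fin.cons p.2 p.1 : Fin (j + 1) → ℝ), 1),
    hG.comp (f := fun p : (Fin j → ℝ) × ℝ => ((Fin.cons p.2 p.1 : Fin (j + 1) → ℝ), (1:ℝ)))
      ⟨ccons.continuousOn, fun p hp => ⟨hcons hp.1 hp.2, h11⟩⟩, ?_, ?_, ?_⟩
  · intro x hx
    have key : ∀ s : ℝ, s = 0 ∨ s = 1 → G ((Fin.cons s x : Fin (j + 1) → ℝ), 1) = Φ (x, s) := by
      intro s hs
      have hz : cuSplit (Fin.cons s x : Fin (j + 1) → ℝ) ∈ Cu j ×ˢ ({0, 1} : Set ℝ) := by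
        rw [cuSplit_cons]; exact ⟨hx, hs⟩
      rw [g1 _ (mem_dCu_succ.2 (Or.inl hz)) _ h11]
      have h2 := e1 (⟨hz, h11⟩ : ((Fin.cons s x : Fin (j + 1) → ℝ), (1:ℝ)) ∈ A₁)
      rw [h2]
      show Φ (cuSplit (Fin.cons s x : Fin (j + 1) → ℝ)) = Φ (x, s)
      rw [cuSplit_cons]
    exact ⟨key 0 (Or.inl rfl), key 1 (Or.inr rfl)⟩
  · intro x hx s hs
    have hz : cuSplit (Fin.cons s x : Fin (j + 1) → ℝ) ∈ dCu j ×ˢ Icc (0:ℝ) 1 := by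
      rw [cuSplit_cons]; exact ⟨hx, hs⟩
    show G ((Fin.cons s x : Fin (j + 1) → ℝ), 1) = Q (x, σ' s)
    rw [g1 _ (mem_dCu_succ.2 (Or.inr hz)) _ h11]
    have h2 := e2 (⟨hz, h11⟩ : ((Fin.cons s x : Fin (j + 1) → ℝ), (1:ℝ)) ∈ A₂)
    rw [h2]
    show Q ((cuSplit (Fin.cons s x : Fin (j + 1) → ℝ)).1,
      σ (cuSplit (Fin.cons s x : Fin (j + 1) → ℝ)).2 * (1 - 1) +
        σ' (cuSplit (Fin.cons s x : Fin (j + 1) → ℝ)).2 * 1) = Q (x, σ' s)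
    rw [cuSplit_cons, sub_self, mul_zero, zero_add, mul_one]
  · intro x hx s hs
    have := g3 _ (hcons hx hs) 1 h11
    rwa [cuSplit_cons] at this

/-- a boundary track which is a path followed by its inverse can be cancelled, rel ends -/
theorem cancel_hty {j : ℕ} {T : Set Y} {Φ Q : (Fin j → ℝ) × ℝ → Y} {σ : ℝ → ℝ}
    (hΦ : IsMap Φ (Cu j ×ˢ Icc (0:ℝ) 1) T) (hQ : IsMap Q (dCu j ×ˢ Icc (0:ℝ) 1) T)
    (hσ : Continuous σ) (hσm : ∀ s ∈ Icc (0:ℝ) 1, σ s ∈ Icc (0:ℝ) 1) (hσ0 : σ 0 = 0)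
    (hσ1 : σ 1 = 0) (hb : ∀ x ∈ dCu j, ∀ s ∈ Icc (0:ℝ) 1, Φ (x, s) = Q (x, σ s))
    {c : Y → γ} (hc : ContinuousOn c T) {ρ : ℝ} (hρ : 0 < ρ)
    (htr : ∀ x ∈ dCu j, ∀ v ∈ Icc (0:ℝ) 1, ∀ v' ∈ Icc (0:ℝ) 1,
      dist (c (Q (x, v))) (c (Q (x, v'))) < ρ) :
    ∃ Ψ : (Fin j → ℝ) × ℝ → Y, IsMap Ψ (Cu j ×ˢ Icc (0:ℝ) 1) T ∧
      (∀ x ∈ Cu j, Ψ (x, 0) = Φ (x, 0) ∧ Ψ (x, 1) = Φ (x, 1)) ∧
      (∀ x ∈ dCu j, ∀ s ∈ Icc (0:ℝ) 1, Ψ (x, s) = Q (x, 0)) ∧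
      ∀ x ∈ Cu j, ∀ s ∈ Icc (0:ℝ) 1, dist (c (Ψ (x, s))) (c (Φ (x, s))) < ρ :=
  retrack_hty (σ' := fun _ => 0) hΦ hQ hσ hσm continuous_const
    (fun _ _ => ⟨le_rfl, zero_le_one⟩) hσ0.symm hσ1.symm hb hc hρ htr

end

/-! ## Path spaces -/

section

variable {E Y : Type*} [TopologicalSpace E] [TopologicalSpace Y]

/-- from a family of paths to a homotopy -/
theorem hty_of_paths {A : Set E} {f : E → C(Icc (0:ℝ) 1, Y)} (hf : ContinuousOn f A) :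
    ∃ S : E × ℝ → Y, ContinuousOn S (A ×ˢ Icc (0:ℝ) 1) ∧
      ∀ v, ∀ u, ∀ hu : u ∈ Icc (0:ℝ) 1, S (v, u) = f v ⟨u, hu⟩ := by
  refine ⟨fun p => f p.1 (projIcc 0 1 zero_le_one p.2), ?_, ?_⟩
  · have h5 : ContinuousOn (fun p : E × ℝ => ((f p.1 : C(Icc (0:ℝ) 1, Y)),
          projIcc (0:ℝ) 1 zero_le_one p.2)) (A ×ˢ Icc (0:ℝ) 1) :=
        (hf.comp continuousOn_fst fun p hp => hp.1).prodMk
          (continuous_projIcc.comp continuous_snd).continuousOn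
    exact (ContinuousEval.continuous_eval (F := C(Icc (0:ℝ) 1, Y))).comp_continuousOn h5
  · intro v u hu
    simp only [projIcc_of_mem zero_le_one hu]

/-- from a homotopy to a family of paths -/
theorem paths_of_hty [Nonempty Y] {A : Set E} {H : E × ℝ → Y}
    (hH : ContinuousOn H (A ×ˢ Icc (0:ℝ) 1)) :
    ∃ G : E → C(Icc (0:ℝ) 1, Y), ContinuousOn G A ∧
      ∀ x ∈ A, ∀ s : Icc (0:ℝ) 1, G x s = H (x, s) := by
  classical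
  have hx1 : ∀ x ∈ A, Continuous fun s : Icc (0:ℝ) 1 => H (x, (s : ℝ)) := fun x hx =>
    hH.comp_continuous (by fun_prop) fun s => ⟨hx, s.2⟩
  refine ⟨fun x => if hx : x ∈ A then ⟨fun s => H (x, s), hx1 x hx⟩ else
    ContinuousMap.const _ (Classical.arbitrary Y), ?_, fun x hx s => by
      simp only [dif_pos hx, ContinuousMap.coe_mk]⟩
  have h6 : Continuous fun q : A × Icc (0:ℝ) 1 => H ((q.1 : E), (q.2 : ℝ)) :=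
    hH.comp_continuous (by fun_prop) fun q => ⟨q.1.2, q.2.2⟩
  have h7 := (ContinuousMap.curry ⟨_, h6⟩).continuous
  rw [continuousOn_iff_continuous_domRestrict]
  refine h7.congr fun q => ?_
  ext u
  simp only [ContinuousMap.curry_apply, ContinuousMap.coe_mk, Set.domRestrict_apply,
    dif_pos q.2]

end

end MG.Tr
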