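import Pool.Agent.Work.MP_017613_gt.TrDmc
import Pool.Agent.Work.MP_017613_gt.TrHty
import Pool.Agent.Work.MP_017613_gt.Kit.LP

/-!
# Block (4): the mapping cylinder of a retraction (helper80)

`j_ckcyl : J_CKCYL`.
-/

open Set Metric Topology

namespace MG.Tr

/-- the coordinates of the cylinder away from its ends -/
theorem DMC.coord {M F R V : Type} [MetricSpace M] [MetricSpace F] [MetricSpace R] [MetricSpace V]
    [CompactSpace M] [CompactSpace F] [CompactSpace R] [Nonempty R]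
    {s : R → M} {w : R → F} {iM : M → V} {iF : F → V} {cyl : R × ℝ → V}
    (h : DMC s w iM iF cyl) {a b : ℝ} (ha : 0 < a) (hb : b < 1) :
    ∃ q : V → R, ContinuousOn q (cy cyl a b) ∧ ∀ r, ∀ t ∈ Icc a b, q (cyl (r, t)) = r := by
  classical
  let q : V → R := fun v => if hc : ∃ p : R × ℝ, p.2 ∈ Icc a b ∧ cyl p = v then hc.choose.1 else
      Classical.arbitrary R
  have e3 : ∀ r, ∀ t ∈ Icc a b, q (cyl (r, t)) = r := by
    intro r t ht
    have hc : ∃ p : R × ℝ, p.2 ∈ Icc a b ∧ cyl p = cyl (r, t) := ⟨(r, t), ht, rfl⟩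
    simp only [q, dif_pos hc]
    obtain ⟨hc1, hc2⟩ := hc.choose_spec
    obtain ⟨q1, -⟩ := h.inj hc.choose.1 r hc.choose.2 t (ha.trans_le hc1.1) (hc1.2.trans_lt hb)
      (ha.trans_le ht.1) (ht.2.trans_lt hb) hc2
    exact q1
  refine ⟨q, ?_, e3⟩
  rw [cy_eq]
  refine continuousOn_image_of_compact (isCompact_univ.prod isCompact_Icc)
    (h.cont.mono (prod_mono le_rfl (Icc_subset_Icc ha.le hb.le))) ?_
  exact continuousOn_fst.congr fun p hp => e3 p.1 p.2 hp.2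

theorem j_ckcyl : J_CKCYL := by
  intro k X _ _ hk hX t' ht'
  obtain ⟨d, hd, hlift⟩ := lift_cub_pair hX (ε := t' / 8) (by positivity)
  refine ⟨min d (t' / 2), by positivity, (min_le_right _ _).trans (by linarith), ?_⟩
  intro M F R V _ _ _ _ _ _ _ _ s w i iM iF cyl c hD cw ci hwi cc hcc hL
  intro j hj y f hf hfK hfy
  -- notation
  set T : Set V := {v | ∃ r, ∃ a ∈ Icc (1 / 3 : ℝ) 1, cyl (r, a) = v} ∪ range iF with hT
  have hT' : T = cy cyl (1 / 3) 1 ∪ range iF := rfl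
  have h0 : (0 : Fin j → ℝ) ∈ Cu j := by rw [mem_Cu]; intro i; simp
  have hR : Nonempty R := by
    rcases hf.maps h0 with ⟨r, -⟩ | ⟨y', -⟩
    · exact ⟨r⟩
    · exact ⟨i y'⟩
  have hF : Nonempty F := hR.map w
  have hV : Nonempty V := ⟨f 0⟩
  have h13 : (1 / 3 : ℝ) ∈ Icc (0:ℝ) 1 := by constructor <;> norm_num
  obtain ⟨ρ, hρ, ρF, ρC⟩ := hD.glueUp (Y := F) h13 (Or.inl (by norm_num)) (fF := fun y => y)
    (fC := fun p => w p.1) continuous_id (cw.comp continuous_fst).continuousOn (fun r => rfl)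
  obtain ⟨S, hS, SF, SC⟩ := hD.slideUp h13 (Or.inl (by norm_num))
  obtain ⟨τ, cτ, -, τF, τC⟩ := hD.level
  obtain ⟨q, hq, qC⟩ := hD.coord (a := 1 / 3) (b := 2 / 3) (by norm_num) (by norm_num)
  rw [← hT'] at hρ hS
  have h01 : (0:ℝ) ∈ Icc (0:ℝ) 1 := ⟨le_rfl, zero_le_one⟩
  have h11 : (1:ℝ) ∈ Icc (0:ℝ) 1 := ⟨zero_le_one, le_rfl⟩
  -- facts on points of `T`
  have cylT : ∀ (r : R) (t : ℝ), 1 / 3 ≤ t → t ≤ 1 → cyl (r, t) ∈ T := fun r t h1 h2 =>
    Or.inl ⟨r, t, ⟨h1, h2⟩, rfl⟩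
  have FT : ∀ y', iF y' ∈ T := fun y' => Or.inr ⟨y', rfl⟩
  have S0 : ∀ v ∈ T, S (v, 0) = v := by
    rintro v (⟨r, t, ht, rfl⟩ | ⟨y', rfl⟩)
    · rw [SC r t ht 0 h01]; simp
    · exact SF y' 0 h01
  have S1 : ∀ v ∈ T, S (v, 1) = iF (ρ v) := by
    rintro v (⟨r, t, ht, rfl⟩ | ⟨y', rfl⟩)
    · rw [SC r t ht 1 h11, ρC r t ht, ← hD.one]
      congr 2
      ring
    · rw [SF y' 1 h11, ρF]
  have ST : ∀ v ∈ T, ∀ u ∈ Icc (0:ℝ) 1, S (v, u) ∈ T := by
    rintro v (⟨r, t, ht, rfl⟩ | ⟨y', rfl⟩) u hu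
    · rw [SC r t ht u hu]
      have h1 := ht.1; have h2 := ht.2; have h3 := hu.1; have h4 := hu.2
      exact cylT _ _ (by nlinarith) (by nlinarith)
    · rw [SF y' u hu]; exact FT _
  have Sc : ∀ v ∈ T, ∀ u ∈ Icc (0:ℝ) 1, c (S (v, u)) = c v := by
    rintro v (⟨r, t, ht, rfl⟩ | ⟨y', rfl⟩) u hu
    · have h1 := ht.1; have h2 := ht.2; have h3 := hu.1; have h4 := hu.2
      rw [SC r t ht u hu, hcc _ _ ⟨by nlinarith, by nlinarith⟩, hcc _ _ ⟨by linarith, h2⟩]
    · rw [SF y' u hu]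
  have ρc : ∀ v ∈ T, c (iF (ρ v)) = c v := fun v hv => by rw [← S1 v hv, Sc v hv 1 h11]
  have τT : ∀ v ∈ T, 1 / 3 ≤ τ v ∧ τ v ≤ 1 := by
    rintro v (⟨r, t, ht, rfl⟩ | ⟨y', rfl⟩)
    · rw [τC r t ⟨by linarith [ht.1], ht.2⟩]; exact ⟨ht.1, ht.2⟩
    · rw [τF]; norm_num
  -- the map `h`
  set h : R → X := fun r => c (iF (w r)) with hh
  have ch : Continuous h := cc.comp (hD.isoF.continuous.comp cw)
  have hiw : ∀ y', h (i y') = c (iF y') := fun y' => by rw [hh]; simp only [hwi]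
  -- the boundary
  have hKT : ∀ {v}, v ∈ cy cyl (1 / 3 : ℝ) (2 / 3) → v ∈ T := by
    rintro v ⟨r, t, ht, rfl⟩
    exact cylT r t ht.1 (ht.2.trans (by norm_num))
  have Kc : ∀ {v}, v ∈ cy cyl (1 / 3 : ℝ) (2 / 3) → cyl (q v, τ v) = v ∧ ρ v = w (q v) ∧
      h (q v) = c v ∧ τ v ∈ Icc (1 / 3 : ℝ) (2 / 3) := by
    rintro v ⟨r, t, ht, rfl⟩
    have h1 : t ∈ Icc (0:ℝ) 1 := ⟨by linarith [ht.1], by linarith [ht.2]⟩
    have h2 : t ∈ Icc (1 / 3 : ℝ) 1 := ⟨ht.1, h1.2⟩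
    rw [qC r t ht, τC r t h1, ρC r t h2]
    exact ⟨rfl, rfl, (hcc r t h1).symm, ht⟩
  have hfK' : ∀ x ∈ dCu j, f x ∈ cy cyl (1 / 3 : ℝ) (2 / 3) := fun x hx => hfK hx
  have cr : ContinuousOn (fun x => q (f x)) (dCu j) :=
    hq.comp (hf.cont.mono (dCu_subset j)) hfK'
  -- the homotopy from `r` to `i w r`
  obtain ⟨Hr, hHr, Hr0, Hr1, Hrc⟩ : ∃ Hr : (Fin j → ℝ) × ℝ → R,
      ContinuousOn Hr (dCu j ×ˢ Icc (0:ℝ) 1) ∧ (∀ x ∈ dCu j, Hr (x, 0) = q (f x)) ∧
      (∀ x ∈ dCu j, Hr (x, 1) = i (w (q (f x)))) ∧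
      ∀ x ∈ dCu j, ∀ a ∈ Icc (0:ℝ) 1, dist (h (Hr (x, a))) (h (q (f x))) < t' / 8 := by
    have cub := isCub_dCu one_pos j
    have ctail : Continuous fun z : Fin (j + 1) → ℝ => (Fin.tail z : Fin j → ℝ) :=
      continuous_pi fun i => continuous_apply i.succ
    -- the map on the ends
    have m1 : IsMap (fun z : Fin (j + 1) → ℝ => q (f (Fin.tail z)))
        {z : Fin (j + 1) → ℝ | z 0 = 0 ∧ Fin.tail z ∈ dCu j} (univ : Set R) :=
      ⟨cr.comp ctail.continuousOn fun z hz => hz.2, fun _ _ => trivial⟩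
    have m2 : IsMap (fun z : Fin (j + 1) → ℝ => i (w (q (f (Fin.tail z)))))
        {z : Fin (j + 1) → ℝ | z 0 = 1 ∧ Fin.tail z ∈ dCu j} (univ : Set R) :=
      ⟨(ci.comp cw).comp_continuousOn (cr.comp ctail.continuousOn fun z hz => hz.2),
        fun _ _ => trivial⟩
    obtain ⟨f₀, hf₀, e1, e2⟩ := IsMap.glue
      ((isClosed_eq (continuous_apply 0) continuous_const).inter
        ((isClosed_dCu j).preimage ctail))
      ((isClosed_eq (continuous_apply 0) continuous_const).inter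
        ((isClosed_dCu j).preimage ctail)) m1 m2 (by
        rintro z ⟨h1, -⟩ ⟨h2, -⟩
        exact absurd (h1.symm.trans h2) zero_ne_one)
    have hE : endsI (dCu j) = {z : Fin (j + 1) → ℝ | z 0 = 0 ∧ Fin.tail z ∈ dCu j} ∪
        {z : Fin (j + 1) → ℝ | z 0 = 1 ∧ Fin.tail z ∈ dCu j} := by
      ext z
      constructor
      · rintro ⟨h1 | h1, h2⟩
        · exact Or.inl ⟨h1, h2⟩
        · exact Or.inr ⟨h1, h2⟩
      · rintro (⟨h1, h2⟩ | ⟨h1, h2⟩)
        · exact ⟨Or.inl h1, h2⟩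
        · exact ⟨Or.inr h1, h2⟩
    have hf₀' : IsMap f₀ (endsI (dCu j)) univ := by rw [hE]; exact hf₀
    obtain ⟨G, hG, g1, g2⟩ := hlift (g := h) (A := univ) ⟨ch.continuousOn, fun _ _ => trivial⟩
      (hL.mono (min_le_left _ _)) one_pos (cub.prodI one_pos) (cub.endsI one_pos)
      (endsI_subset _) (fun z hz _ => by
        have h1 : dm (Fin.tail (car 1 z)) < j := by
          rw [car_tail]; exact dm_car_Bd hz.2.2
        have h2 := dm_le_succ_tail (car 1 z)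
        omega)
      (f := fun z => h (q (f (Fin.tail z))))
      ⟨ch.comp_continuousOn (cr.comp ctail.continuousOn fun z hz => hz.2.2), fun _ _ => trivial⟩
      hf₀' (by
        rintro z ⟨hz | hz, hz'⟩
        · rw [e1 (⟨hz, hz'⟩ : z ∈ {z : Fin (j + 1) → ℝ | z 0 = 0 ∧ Fin.tail z ∈ dCu j}), dist_self]
          exact hd
        · rw [e2 (⟨hz, hz'⟩ : z ∈ {z : Fin (j + 1) → ℝ | z 0 = 1 ∧ Fin.tail z ∈ dCu j})]
          simp only
          rw [hiw, dist_self]
          exact hd)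
    have hmem : ∀ {x : Fin j → ℝ} {a : ℝ}, x ∈ dCu j → a ∈ Icc (0:ℝ) 1 →
        (Fin.cons a x : Fin (j + 1) → ℝ) ∈ prodI (dCu j) := fun hx ha =>
      ⟨by simpa using ha.1, by simpa using ha.2, by simpa using hx⟩
    refine ⟨fun p => G (Fin.cons p.2 p.1), hG.cont.comp continuous_consI.continuousOn fun p hp =>
      hmem hp.1 hp.2, ?_, ?_, ?_⟩
    · intro x hx
      have hz : (Fin.cons 0 x : Fin (j + 1) → ℝ) ∈ {z : Fin (j + 1) → ℝ | z 0 = 0 ∧
          Fin.tail z ∈ dCu j} := ⟨by simp, by simpa using hx⟩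
      show G (Fin.cons 0 x) = _
      rw [g1 (by rw [hE]; exact Or.inl hz), e1 hz]
      simp
    · intro x hx
      have hz : (Fin.cons 1 x : Fin (j + 1) → ℝ) ∈ {z : Fin (j + 1) → ℝ | z 0 = 1 ∧
          Fin.tail z ∈ dCu j} := ⟨by simp, by simpa using hx⟩
      show G (Fin.cons 1 x) = _
      rw [g1 (by rw [hE]; exact Or.inr hz), e2 hz]
      simp
    · intro x hx a ha
      have := g2 _ (hmem hx ha)
      simpa using this
  -- the track from `i w r` to `r`
  obtain ⟨P, hP, P1, P2⟩ := concat_hty (isClosed_dCu j) (T := (univ : Set R))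
    (H₁ := fun p => i (w (Hr p))) (H₂ := fun p => Hr (p.1, 1 - p.2))
    ⟨(ci.comp cw).comp_continuousOn hHr, fun _ _ => trivial⟩
    ⟨hHr.comp (by fun_prop) fun p hp => ⟨hp.1, by
      have := hp.2.1; have := hp.2.2; constructor <;> linarith⟩, fun _ _ => trivial⟩ (by
      intro x hx
      show i (w (Hr (x, 1))) = Hr (x, 1 - 0)
      rw [sub_zero, Hr1 x hx, hwi])
  have hP0 : ∀ x ∈ dCu j, P (x, 0) = i (ρ (f x)) := by
    intro x hx
    rw [P1 x hx 0 le_rfl (by norm_num), mul_zero]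
    show i (w (Hr (x, 0))) = _
    rw [Hr0 x hx, (Kc (hfK' x hx)).2.1]
  have hP1 : ∀ x ∈ dCu j, P (x, 1) = q (f x) := by
    intro x hx
    rw [P2 x hx 1 (by norm_num) le_rfl]
    show Hr (x, 1 - (2 * 1 - 1)) = _
    norm_num
    exact Hr0 x hx
  have hwP : ∀ x ∈ dCu j, ∀ a ∈ Icc (0:ℝ) 1, w (P (x, a)) = w (Hr (x, min (2 * a) (2 - 2 * a))) := by
    intro x hx a ha
    rcases le_total a (1 / 2) with h1 | h1
    · rw [P1 x hx a ha.1 h1, min_eq_left (by linarith), hwi]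
    · rw [P2 x hx a h1 ha.2, min_eq_right (by linarith)]
      show w (Hr (x, 1 - (2 * a - 1))) = _
      congr 3
      ring
  have htent : ∀ a ∈ Icc (0:ℝ) 1, min (2 * a) (2 - 2 * a) ∈ Icc (0:ℝ) 1 := by
    intro a ha
    have h1 := ha.1; have h2 := ha.2
    refine ⟨le_min (by linarith) (by linarith), ?_⟩
    rcases le_total a (1 / 2) with h1 | h1
    · exact (min_le_left _ _).trans (by linarith)
    · exact (min_le_right _ _).trans (by linarith)
  -- the extension to the cube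
  obtain ⟨G, hG, G1, G0, Gc⟩ := cell_hep (T := (univ : Set R)) (a := fun x => i (ρ (f x))) (h := P)
    ⟨ci.comp_continuousOn (hρ.comp hf.cont hf.maps), fun _ _ => trivial⟩ hP hP0 (c := h)
    ch.continuousOn (ρ := t' / 8) (by positivity) (by
      intro x hx a ha
      have h1 : h (P (x, a)) = h (Hr (x, min (2 * a) (2 - 2 * a))) := by
        show c (iF (w _)) = c (iF (w _))
        rw [hwP x hx a ha]
      rw [h1, hiw, (Kc (hfK' x hx)).2.1]
      exact Hrc x hx _ (htent a ha))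
  have Gc' : ∀ x ∈ Cu j, ∀ a ∈ Icc (0:ℝ) 1, dist (h (G (x, a))) (c (f x)) < t' / 8 := by
    intro x hx a ha
    have := Gc x hx a ha
    rwa [hiw, ρc _ (hf.maps hx)] at this
  -- stage 2, made constant on the boundary
  obtain ⟨Ψ, hΨ, Ψ01, Ψb, Ψc⟩ := cancel_hty (T := T) (Φ := fun p => iF (w (G p)))
    (Q := fun p => iF (w (Hr p))) (σ := fun a => min (2 * a) (2 - 2 * a))
    ⟨(hD.isoF.continuous.comp cw).comp_continuousOn hG.cont, fun _ _ => FT _⟩
    ⟨(hD.isoF.continuous.comp cw).comp_continuousOn hHr, fun _ _ => FT _⟩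
    (by fun_prop) htent (by norm_num) (by norm_num) (by
      intro x hx a ha
      show iF (w (G (x, a))) = iF (w (Hr (x, _)))
      rw [G1 x hx a ha, hwP x hx a ha]) cc.continuousOn (ρ := t' / 4) (by positivity) (by
      intro x hx v hv v' hv'
      have h1 := Hrc x hx v hv
      have h2 := Hrc x hx v' hv'
      have h3 := dist_triangle_right (h (Hr (x, v))) (h (Hr (x, v'))) (h (q (f x)))
      show dist (h (Hr (x, v))) (h (Hr (x, v'))) < t' / 4
      linarith)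
  -- stages 1 and 3
  have m1 : IsMap (fun p : (Fin j → ℝ) × ℝ => S (f p.1, p.2)) (Cu j ×ˢ Icc (0:ℝ) 1) T := by
    refine ⟨hS.comp ((hf.cont.comp continuousOn_fst fun p hp => hp.1).prodMk continuousOn_snd)
      fun p hp => ⟨hf.maps hp.1, hp.2⟩, fun p hp => ST _ (hf.maps hp.1) _ hp.2⟩
  set lam : (Fin j → ℝ) → ℝ := fun x => min (2 / 3) (τ (f x)) with hlam
  have clam : ContinuousOn lam (Cu j) :=
    (continuous_const.min continuous_id).comp_continuousOn (cτ.comp_continuousOn hf.cont)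
  have lamT : ∀ x ∈ Cu j, lam x ∈ Icc (1 / 3 : ℝ) (2 / 3) := fun x hx =>
    ⟨le_min (by norm_num) (τT _ (hf.maps hx)).1, min_le_left _ _⟩
  have lamB : ∀ x ∈ dCu j, lam x = τ (f x) := fun x hx =>
    min_eq_right (Kc (hfK' x hx)).2.2.2.2
  have key3 : ∀ x ∈ Cu j, ∀ u ∈ Icc (0:ℝ) 1, 1 - u * (1 - lam x) ∈ Icc (1 / 3 : ℝ) 1 := by
    intro x hx u hu
    have h1 := (lamT x hx).1; have h2 := (lamT x hx).2; have h3 := hu.1; have h4 := hu.2
    constructor <;> nlinarith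
  have m3 : IsMap (fun p : (Fin j → ℝ) × ℝ => cyl (G (p.1, 1), 1 - p.2 * (1 - lam p.1)))
      (Cu j ×ˢ Icc (0:ℝ) 1) T := by
    refine ⟨?_, fun p hp => cylT _ _ (key3 _ hp.1 _ hp.2).1 (key3 _ hp.1 _ hp.2).2⟩
    have h1 : ContinuousOn (fun p : (Fin j → ℝ) × ℝ => (G (p.1, 1), 1 - p.2 * (1 - lam p.1)))
        (Cu j ×ˢ Icc (0:ℝ) 1) := by
      refine ContinuousOn.prodMk ?_ ?_
      · exact hG.cont.comp (by fun_prop) fun p hp => ⟨hp.1, h11⟩
      · refine continuousOn_const.sub (continuousOn_snd.mul (continuousOn_const.sub ?_))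
        exact clam.comp continuousOn_fst fun p hp => hp.1
    exact hD.cont.comp h1 fun p hp => ⟨mem_univ _, by
      have := key3 _ hp.1 _ hp.2
      exact ⟨by linarith [this.1], this.2⟩⟩
  obtain ⟨A, hA, A1, A2⟩ := concat_hty (isClosed_Cu j) m1 hΨ (by
    intro x hx
    show S (f x, 1) = Ψ (x, 0)
    rw [(Ψ01 x hx).1, S1 _ (hf.maps hx)]
    show iF (ρ (f x)) = iF (w (G (x, 0)))
    rw [G0 x hx, hwi])
  obtain ⟨B, hB, B1, B2⟩ := concat_hty (isClosed_Cu j) hA m3 (by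
    intro x hx
    rw [A2 x hx 1 (by norm_num) le_rfl]
    norm_num
    rw [(Ψ01 x hx).2, hD.one])
  -- the tracks on the boundary
  have hσ : ∀ s ∈ Icc (0:ℝ) 1, min (4 * s) (min 1 (2 - 2 * s)) ∈ Icc (0:ℝ) 1 := by
    intro s hs
    have h1 := hs.1; have h2 := hs.2
    exact ⟨le_min (by linarith) (le_min zero_le_one (by linarith)),
      (min_le_right _ _).trans (min_le_left _ _)⟩
  have hb : ∀ x ∈ dCu j, ∀ s ∈ Icc (0:ℝ) 1, B (x, s) = S (f x, min (4 * s) (min 1 (2 - 2 * s))) := by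
    intro x hx s hs
    have hxC := dCu_subset j hx
    have hx1 := Kc (hfK' x hx)
    rcases le_total s (1 / 2) with h1 | h1
    · rw [B1 x hxC s hs.1 h1]
      rcases le_total s (1 / 4) with h2 | h2
      · rw [A1 x hxC (2 * s) (by linarith [hs.1]) (by linarith)]
        show S (f x, 2 * (2 * s)) = _
        rw [min_eq_left (le_min (by linarith) (by linarith))]
        congr 2
        ring
      · rw [A2 x hxC (2 * s) (by linarith) (by linarith), Ψb x hx _ ⟨by linarith, by linarith⟩,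
          min_eq_right ((min_le_left _ _).trans (by linarith)), min_eq_left (by linarith),
          S1 _ (hf.maps hxC)]
        show iF (w (Hr (x, 0))) = _
        rw [Hr0 x hx, hx1.2.1]
    · rw [B2 x hxC s h1 hs.2, min_eq_right ((min_le_right _ _).trans (by linarith)),
        min_eq_right (by linarith)]
      show cyl (G (x, 1), 1 - (2 * s - 1) * (1 - lam x)) = _
      rw [G1 x hx 1 h11, hP1 x hx, lamB x hx]
      obtain ⟨r, t, ht, hrt⟩ := hfK' x hx
      rw [← hrt, qC r t ht, τC r t ⟨by linarith [ht.1], by linarith [ht.2]⟩,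
        SC r t ⟨ht.1, by linarith [ht.2]⟩ _ ⟨by linarith [hs.2], by linarith⟩]
      congr 2
      ring
  have mQ : IsMap (fun p : (Fin j → ℝ) × ℝ => S (f p.1, p.2)) (dCu j ×ˢ Icc (0:ℝ) 1) T :=
    m1.left (prod_mono (dCu_subset j) le_rfl)
  obtain ⟨H, hH, H01, Hb, Hc⟩ := cancel_hty hB mQ (σ := fun s => min (4 * s) (min 1 (2 - 2 * s)))
    (by fun_prop) hσ (by norm_num) (by norm_num) hb cc.continuousOn (ρ := t' / 8) (by positivity)
    (by
      intro x hx v hv v' hv'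
      have hxT := hf.maps (dCu_subset j hx)
      show dist (c (S (f x, v))) (c (S (f x, v'))) < t' / 8
      rw [Sc _ hxT _ hv, Sc _ hxT _ hv', dist_self]
      positivity)
  have Bc : ∀ x ∈ Cu j, ∀ s ∈ Icc (0:ℝ) 1, dist (c (B (x, s))) (c (f x)) < 3 * (t' / 8) := by
    intro x hx s hs
    rcases le_total s (1 / 2) with h1 | h1
    · rw [B1 x hx s hs.1 h1]
      rcases le_total s (1 / 4) with h2 | h2
      · rw [A1 x hx (2 * s) (by linarith [hs.1]) (by linarith)]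
        show dist (c (S (f x, _))) _ < _
        rw [Sc _ (hf.maps hx) _ ⟨by linarith [hs.1], by linarith⟩, dist_self]
        positivity
      · rw [A2 x hx (2 * s) (by linarith) (by linarith)]
        have hu : 2 * (2 * s) - 1 ∈ Icc (0:ℝ) 1 := ⟨by linarith, by linarith⟩
        have h3 := Ψc x hx _ hu
        have h4 := Gc' x hx _ hu
        have h5 := dist_triangle (c (Ψ (x, 2 * (2 * s) - 1))) (h (G (x, 2 * (2 * s) - 1))) (c (f x))
        have h6 : dist (c (Ψ (x, 2 * (2 * s) - 1))) (h (G (x, 2 * (2 * s) - 1))) < t' / 4 := h3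
        linarith
    · rw [B2 x hx s h1 hs.2]
      show dist (c (cyl (G (x, 1), 1 - (2 * s - 1) * (1 - lam x)))) _ < _
      have h2 := key3 x hx (2 * s - 1) ⟨by linarith, by linarith [hs.2]⟩
      rw [hcc _ _ ⟨by linarith [h2.1], h2.2⟩]
      have := Gc' x hx 1 h11
      have h4 : dist (c (iF (w (G (x, 1))))) (c (f x)) < t' / 8 := this
      linarith
  refine ⟨H, hH, ?_, ?_, ?_⟩
  · intro x hx
    refine ⟨?_, ?_⟩
    · rw [(H01 x hx).1, B1 x hx 0 le_rfl (by norm_num), mul_zero,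
        A1 x hx 0 le_rfl (by norm_num), mul_zero]
      exact S0 _ (hf.maps hx)
    · rw [(H01 x hx).2, B2 x hx 1 (by norm_num) le_rfl]
      show cyl (G (x, 1), 1 - (2 * 1 - 1) * (1 - lam x)) ∈ _
      exact ⟨_, _, by
        have := lamT x hx
        have e : 1 - (2 * 1 - 1) * (1 - lam x) = lam x := by ring
        rw [e]; exact this, rfl⟩
  · intro x hx s hs
    rw [Hb x hx s hs]
    exact S0 _ (hf.maps (dCu_subset j hx))
  · intro x hx s hs
    have h1 := Hc x hx s hs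
    have h2 := Bc x hx s hs
    have h3 := hfy x hx
    have h4 : min d (t' / 2) ≤ t' / 2 := min_le_right _ _
    have h5 := dist_triangle (c (H (x, s))) (c (B (x, s))) y
    have h6 := dist_triangle (c (B (x, s))) (c (f x)) y
    linarith

end MG.Tr
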