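import Pool.Agent.Work.MP_017613_gt.Skel24
import Pool.Agent.Work.MP_017613_gt.TrHty
import Pool.Agent.Work.MP_017613_gt.Kit.CubExt

/-!
# Block (4): excision (helper80)

`RUV.hep`: the cell step (homotopy extension with end in `K'`); `j_exc : J_EXC`.
-/

open Set Metric Topology

namespace MG.Tr

/-- homotopy extension into `K'`: `RUV` in the form needed for cell by cell constructions -/
theorem RUV.hep {k : ℕ} {X V : Type} [MetricSpace X] [MetricSpace V] {c : V → X} {V' K' : Set V}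
    {t t' : ℝ} (hR : RUV k c V' K' t t') (htt : t ≤ t') {d : ℕ} (hd : d ≤ k) {y : X}
    {f : (Fin d → ℝ) → V} {h : (Fin d → ℝ) × ℝ → V} (hf : IsMap f (Cu d) V')
    (hh : IsMap h (dCu d ×ˢ Icc (0:ℝ) 1) V') (h0 : ∀ x ∈ dCu d, h (x, 0) = f x)
    (h1 : ∀ x ∈ dCu d, h (x, 1) ∈ K') (hfy : ∀ x ∈ Cu d, dist (c (f x)) y < t)
    (hhy : ∀ x ∈ dCu d, ∀ s ∈ Icc (0:ℝ) 1, dist (c (h (x, s))) y < t) :
    ∃ H : (Fin d → ℝ) × ℝ → V, IsMap H (Cu d ×ˢ Icc (0:ℝ) 1) V' ∧ (∀ x ∈ Cu d, H (x, 0) = f x) ∧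
      (∀ x ∈ Cu d, H (x, 1) ∈ K') ∧ (∀ x ∈ dCu d, ∀ s ∈ Icc (0:ℝ) 1, H (x, s) = h (x, s)) ∧
      ∀ x ∈ Cu d, ∀ s ∈ Icc (0:ℝ) 1, dist (c (H (x, s))) y < t' := by
  set T : Set V := {v | v ∈ V' ∧ dist (c v) y < t} with hT
  set T' : Set V := {v | v ∈ V' ∧ dist (c v) y < t'} with hT'
  have hTT : T ⊆ T' := fun v hv => ⟨hv.1, hv.2.trans_le htt⟩
  have h11 : (1:ℝ) ∈ Icc (0:ℝ) 1 := ⟨zero_le_one, le_rfl⟩
  have h01 : (0:ℝ) ∈ Icc (0:ℝ) 1 := ⟨le_rfl, zero_le_one⟩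
  have hfT : IsMap f (Cu d) T := ⟨hf.cont, fun x hx => ⟨hf.maps hx, hfy x hx⟩⟩
  have hhT : IsMap h (dCu d ×ˢ Icc (0:ℝ) 1) T :=
    ⟨hh.cont, fun p hp => ⟨hh.maps hp, hhy p.1 hp.1 p.2 hp.2⟩⟩
  obtain ⟨G, hG, G1, G0, -⟩ := cell_hep hfT hhT h0 (c := fun _ : V => (0:ℝ))
    continuousOn_const one_pos (fun _ _ _ _ => by rw [dist_self]; exact one_pos)
  have c1 : Continuous fun x : Fin d → ℝ => (x, (1:ℝ)) := by fun_prop
  obtain ⟨H₁, k1, k2, k3, k4⟩ := hR d hd y (fun x => G (x, 1))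
    ⟨hG.cont.comp c1.continuousOn fun x hx => ⟨hx, h11⟩, fun x hx => (hG.maps ⟨hx, h11⟩).1⟩
    (fun x hx => by
      show G (x, 1) ∈ K'
      rw [G1 x hx 1 h11]; exact h1 x hx) (fun x hx => (hG.maps ⟨hx, h11⟩).2)
  obtain ⟨Φ, hΦ, Φ1, Φ2⟩ := concat_hty (isClosed_Cu d) (T := T') (hG.right hTT)
    ⟨k1.cont, fun p hp => ⟨k1.maps hp, k4 p.1 hp.1 p.2 hp.2⟩⟩ fun x hx => ((k2 x hx).1).symm
  obtain ⟨Ψ, hΨ, Ψ01, Ψb, -⟩ := retrack_hty (T := T') (σ := fun s => min (2 * s) 1)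
    (σ' := fun s => s) hΦ (hhT.right hTT) (by fun_prop)
    (fun s hs => ⟨le_min (by linarith [hs.1]) zero_le_one, min_le_right _ _⟩) (by fun_prop)
    (fun s hs => hs) (by norm_num) (by norm_num) (by
      intro x hx s hs
      rcases le_total s (1 / 2) with h2 | h2
      · rw [Φ1 x (dCu_subset d hx) s hs.1 h2, min_eq_left (by linarith)]
        exact G1 x hx _ ⟨by linarith [hs.1], by linarith⟩
      · rw [Φ2 x (dCu_subset d hx) s h2 hs.2, min_eq_right (by linarith),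
          k3 x hx _ ⟨by linarith, by linarith [hs.2]⟩]
        exact G1 x hx 1 h11) (c := fun _ : V => (0:ℝ)) continuousOn_const one_pos
    (fun _ _ _ _ _ _ => by rw [dist_self]; exact one_pos)
  refine ⟨Ψ, ⟨hΨ.cont, fun p hp => (hΨ.maps hp).1⟩, ?_, ?_, Ψb,
    fun x hx s hs => (hΨ.maps ⟨hx, hs⟩).2⟩
  · intro x hx
    rw [(Ψ01 x hx).1, Φ1 x hx 0 le_rfl (by norm_num), mul_zero, G0 x hx]
  · intro x hx
    rw [(Ψ01 x hx).2, Φ2 x hx 1 (by norm_num) le_rfl]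
    norm_num
    exact (k2 x hx).2

theorem j_exc : J_EXC := by
  intro k X V _ _ c τ t hc hτ ht htm hR j hj y f hf hfK hfy
  have hV : Nonempty V := ⟨f 0⟩
  -- the grid
  have hfc : ContinuousOn (fun x => τ (f x)) (Cu j) := hτ.comp_continuousOn hf.cont
  obtain ⟨δ, hδ, hδ'⟩ := Metric.uniformContinuousOn_iff.1
    ((isCompact_Cu j).uniformContinuousOn_of_continuous hfc) (1 / 3) (by norm_num)
  obtain ⟨m, hm⟩ := exists_nat_gt (1 / δ)
  have hm0 : 0 < m := by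
    have : (0:ℝ) < m := (by positivity : (0:ℝ) < 1 / δ).trans hm
    exact_mod_cast this
  have hmR : (0:ℝ) < m := by exact_mod_cast hm0
  have hmδ : 1 / (m:ℝ) < δ := by
    rw [div_lt_iff₀ hmR]
    rw [div_lt_iff₀ hδ] at hm
    linarith
  have hC := isCub_Cu hm0 j
  set P₀ : Set (Fin j → ℝ) := {x | x ∈ Cu j ∧ ∀ z ∈ cube m (car m x), τ (f z) ≤ 2 / 3} with hP₀
  have hP₀c : IsCub m P₀ := by
    refine hC.sub (fun x hx => hx.1) fun x hx z hz => ⟨hC.sat x hx.1 hz, fun z' hz' => ?_⟩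
    exact hx.2 z' (cube_subset (mem_cube_iff.1 hz) hz')
  have hbd : dCu j ⊆ P₀ := fun x hx =>
    ⟨dCu_subset j hx, fun z hz => hfK ((isCub_dCu hm0 j).sat x hx hz)⟩
  -- the constant paths on `P₀`
  obtain ⟨G₀, hG₀, hG₀e⟩ := paths_of_hty (A := P₀) (H := fun p : (Fin j → ℝ) × ℝ => f p.1)
    (hf.cont.comp continuousOn_fst fun p hp => hp.1.1)
  obtain ⟨F, hF, hFe, hFR⟩ := cub_extend (k := k) hm0 hC hP₀c (fun x hx => hx.1)
    (fun x _ _ => (dm_le _).trans hj) (T := (univ : Set C(Icc (0:ℝ) 1, V)))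
    (f₀ := G₀) ⟨hG₀, fun _ _ => trivial⟩
    (fun d x p => p ⟨0, ⟨le_rfl, zero_le_one⟩⟩ = f x ∧ τ (p ⟨1, ⟨zero_le_one, le_rfl⟩⟩) ≤ 2 / 3 ∧
      (∀ s, dist (c (p s)) y < t d) ∧ (1 / 3 ≤ τ (f x) → ∀ s, 1 / 3 ≤ τ (p s))) (by
      intro x hx
      refine ⟨hG₀e x hx _, ?_, fun s => ?_, fun h s => ?_⟩
      · rw [hG₀e x hx]
        exact hx.2 x (mem_cube_car m x)
      · rw [hG₀e x hx]
        exact hfy x hx.1
      · rw [hG₀e x hx]
        exact h) (fun d _ x _ p hp => ⟨hp.1, hp.2.1, fun s => (hp.2.2.1 s).trans_le (htm d),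
        hp.2.2.2⟩) (by
      rintro w hw hwP ⟨x₀, hx₀, hx₀P, rfl⟩ φ hφ hφR
      -- the cube lies in `{1/3 ≤ τ f}`
      have hcube : ∀ z ∈ cube m (car m x₀), 1 / 3 ≤ τ (f z) := by
        intro z hz
        obtain ⟨z', hz', hz'2⟩ : ∃ z' ∈ cube m (car m x₀), 2 / 3 < τ (f z') := by
          by_contra hne
          push Not at hne
          exact hx₀P ⟨hx₀, hne⟩
        have h1 := hδ' z (hwP hz) z' (hwP hz') ((dist_le_of_mem_cube hm0 hz hz').trans_lt hmδ)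
        rw [Real.dist_eq, abs_lt] at h1
        linarith [h1.1]
      set w := car m x₀ with hwdef
      have hemb : ∀ x ∈ Cu (dm w), emb m w x ∈ cube m w := fun x hx => emb_mem hm0 hx
      obtain ⟨h, hh, hhe⟩ := hty_of_paths hφ.cont
      obtain ⟨H, H1, H2, H3, H4, H5⟩ := (hR (dm w) hw).hep (htm _) hw (y := y)
        (f := fun x => f (emb m w x)) (h := h)
        ⟨hf.cont.comp (continuous_emb m w).continuousOn fun x hx => hwP (hemb x hx),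
          fun x hx => hcube _ (hemb x hx)⟩
        ⟨hh, by
          rintro ⟨x, s⟩ ⟨hx, hs⟩
          show 1 / 3 ≤ τ (h (x, s))
          rw [hhe x s hs]
          exact (hφR x hx).2.2.2 (hcube _ (hemb x (dCu_subset _ hx))) _⟩
        (fun x hx => by
          rw [hhe x 0 ⟨le_rfl, zero_le_one⟩]
          exact (hφR x hx).1)
        (fun x hx => by
          rw [hhe x 1 ⟨zero_le_one, le_rfl⟩]
          exact ⟨(hφR x hx).2.2.2 (hcube _ (hemb x (dCu_subset _ hx))) _, (hφR x hx).2.1⟩)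
        (fun x hx => (hfy _ (hwP (hemb x hx))).trans_le (monotone_nat_of_le_succ htm (Nat.zero_le _)))
        (fun x hx s hs => by
          rw [hhe x s hs]
          exact (hφR x hx).2.2.1 _)
      obtain ⟨G, hG, hGe⟩ := paths_of_hty H1.cont
      refine ⟨G, ⟨hG, fun _ _ => trivial⟩, ?_, ?_⟩
      · intro x hx
        ext s
        rw [hGe x (dCu_subset _ hx) s, H4 x hx s s.2, hhe x s s.2]
      · intro x hx
        refine ⟨?_, ?_, fun s => ?_, fun _ s => ?_⟩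
        · rw [hGe x hx]; exact H2 x hx
        · rw [hGe x hx]; exact (H3 x hx).2
        · rw [hGe x hx]; exact H5 x hx s s.2
        · rw [hGe x hx]; exact H1.maps ⟨hx, s.2⟩)
  obtain ⟨S, hS, hSe⟩ := hty_of_paths hF.cont
  refine ⟨S, ⟨hS, fun _ _ => trivial⟩, ?_, ?_, ?_⟩
  · intro x hx
    rw [hSe x 0 ⟨le_rfl, zero_le_one⟩, hSe x 1 ⟨zero_le_one, le_rfl⟩]
    exact ⟨(hFR x hx).1, (hFR x hx).2.1⟩
  · intro x hx s hs
    rw [hSe x s hs, hFe (hbd hx), hG₀e x (hbd hx)]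
  · intro x hx s hs
    rw [hSe x s hs]
    exact (hFR x hx).2.2.1 _

end MG.Tr
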