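import Pool.Agent.Work.MP_017613_gt.Skel24
import Pool.Agent.Work.MP_017613_gt.Double
import Pool.Agent.Work.MP_017613_gt.Gp

/-!
The joint `J_GP`: general position in Menger spaces.
-/

open Set Topology Metric
open Pool.Agent.Work.MP_017613_gt (ZS DD PushOff)

namespace MG.Tr

theorem j_GP : J_GP := by
  intro k M R _ _ _ _ s A W ε hM hR hs hA hinj hZ hW hdis hε
  have aM : Pool.Agent.Work.MP_017613_gt.Chi.ANE k (univ : Set M) :=
    Pool.Agent.Work.MP_017613_gt.Chi.ane_of_ulc_type hM.1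
  obtain ⟨f', h1, h2, h3, h4, h5⟩ := Pool.Agent.Work.MP_017613_gt.gp (P := R) aM
    (Pool.Agent.Work.MP_017613_gt.DD.zd hM.2.2) hR hA (⟨s, hs⟩ : C(R, M)) hinj hZ hW hε
  refine ⟨f', f'.continuous, h3, h4, fun x hx => h2 x hx, ?_, h1⟩
  rw [Set.disjoint_left]
  rintro _ ⟨x, rfl⟩ hx
  by_cases hxA : x ∈ A
  · refine Set.disjoint_left.1 hdis ?_ hx
    exact ⟨x, hxA, (h2 x hxA).symm⟩
  · exact h5 x hxA hx

end MG.Tr
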