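import Pool.Agent.Work.MP_017613_gt.Skel24
import Pool.Agent.Work.MP_017613_gt.LemRF

/-!
# Joint `J_LEMR` (Lemma R)
-/

namespace MG.Tr

theorem j_lemr : J_LEMR := by
  intro k M F _ _ _ _ σ e _ hM hF hσ he
  obtain ⟨R, mR, cR, i, s, h1, h2, h3, h4, -, h6⟩ := MG.LR.lemR hM hF hσ he
  exact ⟨R, mR, cR, i, s, h1, h2, h3, h4, h6⟩

end MG.Tr
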