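import Pool.Agent.Work.MP_017613_gt.Skel24
import Pool.Agent.Work.MP_017613_gt.Kit.CollarSet

/-!
# Moving the boundary of relative cubes: J_RUVMOVE, J_RUVRET, J_RUVSHRINK, J_SLIDE
-/

open Set Metric Topology

namespace MG.Tr

section

variable {Y E : Type*} [TopologicalSpace Y] [TopologicalSpace E]

/-- concatenation of homotopies -/
theorem concat {A : Set E} (hA : IsClosed A) {T : Set Y} {H1 H2 : E × ℝ → Y}
    (h1 : IsMap H1 (A ×ˢ Icc (0:ℝ) 1) T) (h2 : IsMap H2 (A ×ˢ Icc (0:ℝ) 1) T)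
    (h : ∀ x ∈ A, H1 (x, 1) = H2 (x, 0)) :
    ∃ H : E × ℝ → Y, IsMap H (A ×ˢ Icc (0:ℝ) 1) T ∧
      (∀ x ∈ A, H (x, 0) = H1 (x, 0) ∧ H (x, 1) = H2 (x, 1)) ∧
      ∀ x ∈ A, ∀ s ∈ Icc (0:ℝ) 1, (∃ s' ∈ Icc (0:ℝ) 1, H (x, s) = H1 (x, s')) ∨
        ∃ s' ∈ Icc (0:ℝ) 1, H (x, s) = H2 (x, s') := by
  have c1 : IsClosed (A ×ˢ Icc (0:ℝ) (1/2)) := hA.prod isClosed_Icc
  have c2 : IsClosed (A ×ˢ Icc (1/2:ℝ) 1) := hA.prod isClosed_Icc
  have k1 : Continuous fun p : E × ℝ => (p.1, 2 * p.2) := by fun_prop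
  have k2 : Continuous fun p : E × ℝ => (p.1, 2 * p.2 - 1) := by fun_prop
  have m1 : MapsTo (fun p : E × ℝ => (p.1, 2 * p.2)) (A ×ˢ Icc (0:ℝ) (1/2))
      (A ×ˢ Icc (0:ℝ) 1) := by
    rintro ⟨x, s⟩ ⟨hx, hs0, hs1⟩
    simp only at hs0 hs1
    exact ⟨hx, by simp only; linarith, by simp only; linarith⟩
  have m2 : MapsTo (fun p : E × ℝ => (p.1, 2 * p.2 - 1)) (A ×ˢ Icc (1/2:ℝ) 1)
      (A ×ˢ Icc (0:ℝ) 1) := by
    rintro ⟨x, s⟩ ⟨hx, hs0, hs1⟩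
    simp only at hs0 hs1
    exact ⟨hx, by simp only; linarith, by simp only; linarith⟩
  have g1 : IsMap (fun p : E × ℝ => H1 (p.1, 2 * p.2)) (A ×ˢ Icc (0:ℝ) (1/2)) T :=
    ⟨h1.cont.comp k1.continuousOn m1, fun p hp => h1.maps (m1 hp)⟩
  have g2 : IsMap (fun p : E × ℝ => H2 (p.1, 2 * p.2 - 1)) (A ×ˢ Icc (1/2:ℝ) 1) T :=
    ⟨h2.cont.comp k2.continuousOn m2, fun p hp => h2.maps (m2 hp)⟩
  obtain ⟨H, hH, e1, e2⟩ := IsMap.glue c1 c2 g1 g2 (by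
    rintro ⟨x, s⟩ hp hp'
    have hs : s = 1/2 := le_antisymm hp.2.2 hp'.2.1
    subst hs
    simp only
    rw [show (2:ℝ) * (1/2) = 1 by norm_num, show (1:ℝ) - 1 = 0 by norm_num]
    exact h x hp.1)
  have hun : A ×ˢ Icc (0:ℝ) (1/2) ∪ A ×ˢ Icc (1/2:ℝ) 1 = A ×ˢ Icc (0:ℝ) 1 := by
    rw [← prod_union, Icc_union_Icc_eq_Icc (by norm_num) (by norm_num)]
  rw [hun] at hH
  refine ⟨H, hH, fun x hx => ⟨?_, ?_⟩, fun x hx s hs => ?_⟩
  · have := e1 (show (x, (0:ℝ)) ∈ A ×ˢ Icc (0:ℝ) (1/2) from ⟨hx, by constructor <;> norm_num⟩)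
    rw [this]
    simp
  · have := e2 (show (x, (1:ℝ)) ∈ A ×ˢ Icc (1/2:ℝ) 1 from ⟨hx, by constructor <;> norm_num⟩)
    rw [this]
    norm_num
  · rcases le_total s (1/2) with hs' | hs'
    · have hp : (x, s) ∈ A ×ˢ Icc (0:ℝ) (1/2) := ⟨hx, hs.1, hs'⟩
      exact Or.inl ⟨2 * s, ⟨by linarith [hs.1], by linarith⟩, e1 hp⟩
    · have hp : (x, s) ∈ A ×ˢ Icc (1/2:ℝ) 1 := ⟨hx, hs', hs.2⟩
      exact Or.inr ⟨2 * s - 1, ⟨by linarith, by linarith [hs.2]⟩, e2 hp⟩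

/-- a homotopy whose sides and top lie in `K` gives a homotopy rel boundary into `K` -/
theorem box_push {j : ℕ} {T K : Set Y} {B : (Fin j → ℝ) × ℝ → Y}
    (hB : IsMap B (Cu j ×ˢ Icc (0:ℝ) 1) T) (hside : ∀ x ∈ dCu j, ∀ s ∈ Icc (0:ℝ) 1, B (x, s) ∈ K)
    (htop : ∀ x ∈ Cu j, B (x, 1) ∈ K) :
    ∃ H : (Fin j → ℝ) × ℝ → Y, IsMap H (Cu j ×ˢ Icc (0:ℝ) 1) T ∧
      (∀ x ∈ Cu j, H (x, 0) = B (x, 0) ∧ H (x, 1) ∈ K) ∧
      (∀ x ∈ dCu j, ∀ s ∈ Icc (0:ℝ) 1, H (x, s) = B (x, 0)) ∧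
      ∀ x ∈ Cu j, ∀ s ∈ Icc (0:ℝ) 1, ∃ x' ∈ Cu j, ∃ s' ∈ Icc (0:ℝ) 1, H (x, s) = B (x', s') := by
  let m : (Fin j → ℝ) → ℝ := fun x => max (crad x) (1/2)
  have hm : Continuous m := continuous_crad.max continuous_const
  have hm0 : ∀ x, 0 < m x := fun x => lt_of_lt_of_le (by norm_num) (le_max_right _ _)
  have hcm : ∀ x, crad x ≤ m x := fun x => le_max_left _ _
  let μ : (Fin j → ℝ) × ℝ → ℝ := fun p => (1 - p.2) + p.2 / m p.1
  have hμ : Continuous μ := by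
    refine (continuous_const.sub continuous_snd).add ?_
    exact continuous_snd.div (hm.comp continuous_fst) fun p => (hm0 p.1).ne'
  let σ : (Fin j → ℝ) × ℝ → ℝ := fun p => p.2 * min 1 (2 * (1 - crad p.1))
  have hσ : Continuous σ := by
    refine continuous_snd.mul (continuous_const.min ?_)
    exact continuous_const.mul (continuous_const.sub (continuous_crad.comp continuous_fst))
  let Θ : (Fin j → ℝ) × ℝ → (Fin j → ℝ) × ℝ := fun p => (chom (μ p) p.1, σ p)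
  have hΘ : Continuous Θ :=
    (continuous_chom_uncurry.comp (hμ.prodMk continuous_fst)).prodMk hσ
  have hμ0 : ∀ p ∈ Cu j ×ˢ Icc (0:ℝ) 1, 0 ≤ μ p := by
    intro p hp
    have h1 := hp.2.1
    have h2 := hp.2.2
    have h3 : 0 ≤ p.2 / m p.1 := div_nonneg h1 (hm0 _).le
    simp only [μ]; linarith
  have mΘ : MapsTo Θ (Cu j ×ˢ Icc (0:ℝ) 1) (Cu j ×ˢ Icc (0:ℝ) 1) := by
    intro p hp
    have h1 := hp.2.1
    have h2 := hp.2.2
    have h3 : crad p.1 ≤ 1 := mem_Cu_crad.1 hp.1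
    have h0 := crad_nonneg p.1
    refine ⟨?_, ?_, ?_⟩
    · change chom (μ p) p.1 ∈ Cu j
      rw [mem_Cu_crad, crad_chom (hμ0 p hp)]
      have h4 : crad p.1 / m p.1 ≤ 1 := (div_le_one (hm0 _)).2 (hcm _)
      have h5 : μ p * crad p.1 = (1 - p.2) * crad p.1 + p.2 * (crad p.1 / m p.1) := by
        simp only [μ]; ring
      rw [h5]
      have h6 : (1 - p.2) * crad p.1 ≤ (1 - p.2) * 1 :=
        mul_le_mul_of_nonneg_left h3 (by linarith)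
      have h7 : p.2 * (crad p.1 / m p.1) ≤ p.2 * 1 := mul_le_mul_of_nonneg_left h4 h1
      linarith
    · change 0 ≤ σ p
      exact mul_nonneg h1 (le_min zero_le_one (by linarith))
    · change σ p ≤ 1
      have h4 : min 1 (2 * (1 - crad p.1)) ≤ 1 := min_le_left _ _
      have h5 : 0 ≤ min 1 (2 * (1 - crad p.1)) := le_min zero_le_one (by linarith)
      exact mul_le_one₀ h2 h5 h4
  refine ⟨fun p => B (Θ p), ⟨hB.cont.comp hΘ.continuousOn mΘ, fun p hp => hB.maps (mΘ hp)⟩,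
    fun x hx => ⟨?_, ?_⟩, fun x hx s hs => ?_, fun x hx s hs => ?_⟩
  · simp only [Θ, μ, σ]
    simp [chom_one]
  · have h1 : crad x ≤ 1 := mem_Cu_crad.1 hx
    have hΘx : Θ (x, 1) = (chom (1 / m x) x, min 1 (2 * (1 - crad x))) := by
      simp [Θ, μ, σ]
    change B (Θ (x, 1)) ∈ K
    rw [hΘx]
    rcases le_total (crad x) (1/2) with h2 | h2
    · have h3 : min 1 (2 * (1 - crad x)) = 1 := min_eq_left (by linarith)
      rw [h3]
      apply htop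
      rw [mem_Cu_crad, crad_chom (by have := hm0 x; positivity), one_div, inv_mul_le_iff₀ (hm0 x)]
      linarith [hcm x]
    · have h3 : m x = crad x := max_eq_left h2
      apply hside
      · rw [mem_dCu_crad, crad_chom (by have := hm0 x; positivity), h3, one_div,
          inv_mul_cancel₀ (by linarith)]
      · exact ⟨le_min zero_le_one (by linarith), min_le_left _ _⟩
  · have h1 : crad x = 1 := mem_dCu_crad.1 hx
    have h2 : m x = 1 := by simp only [m, h1]; norm_num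
    simp only [Θ, μ, σ, h1, h2]
    simp [chom_one]
  · exact ⟨(Θ (x, s)).1, (mΘ (⟨hx, hs⟩ : (x, s) ∈ Cu j ×ˢ Icc (0:ℝ) 1)).1, (Θ (x, s)).2,
      (mΘ (⟨hx, hs⟩ : (x, s) ∈ Cu j ×ˢ Icc (0:ℝ) 1)).2, rfl⟩

end

theorem j_ruvmove : J_RUVMOVE := by
  intro k X V _ _ c K K' t t' τ hc hKK' htt hτ hS hR j hj y f hf hfb hfy
  have h1mem : (1:ℝ) ∈ Icc (0:ℝ) 1 := ⟨zero_le_one, le_rfl⟩
  obtain ⟨S, hS1, hS2, hS3⟩ := hS j hj f ⟨hf.cont.mono (dCu_subset j), hfb⟩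
  obtain ⟨G, hG, hG1, hG2, hG3⟩ := cell_hep (T := (univ : Set V)) hf
    (hS1.right (subset_univ _)) (fun x hx => (hS2 x hx).1) hc.continuousOn hτ hS3
  have hf1 : IsMap (fun x => G (x, 1)) (Cu j) univ := by
    refine ⟨hG.cont.comp (by fun_prop) fun x hx => ⟨hx, h1mem⟩, fun _ _ => mem_univ _⟩
  obtain ⟨H1, g1, g2, g3, g4⟩ := hR j hj y (fun x => G (x, 1)) hf1
    (fun x hx => by simp only [hG1 x hx 1 h1mem]; exact (hS2 x hx).2)
    (fun x hx => by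
      have a1 := hG3 x hx 1 h1mem
      have a2 := hfy x hx
      have a3 := dist_triangle (c (G (x, 1))) (c (f x)) y
      linarith)
  obtain ⟨B, b1, b2, b3⟩ := concat (isClosed_Cu j) hG g1 (fun x hx => ((g2 x hx).1).symm)
  obtain ⟨H, e1, e2, e3, e4⟩ := box_push (K := K') b1 (fun x hx s hs => by
      rcases b3 x (dCu_subset j hx) s hs with ⟨s', hs', he⟩ | ⟨s', hs', he⟩
      · rw [he, hG1 x hx s' hs']; exact hS1.maps ⟨hx, hs'⟩
      · rw [he, g3 x hx s' hs', hG1 x hx 1 h1mem]; exact hKK' (hS2 x hx).2)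
    (fun x hx => by rw [(b2 x hx).2]; exact hKK' (g2 x hx).2)
  have hB0 : ∀ x ∈ Cu j, B (x, 0) = f x := fun x hx => by rw [(b2 x hx).1, hG2 x hx]
  refine ⟨H, e1, fun x hx => ⟨by rw [(e2 x hx).1, hB0 x hx], (e2 x hx).2⟩,
    fun x hx s hs => by rw [e3 x hx s hs, hB0 x (dCu_subset j hx)], fun x hx s hs => ?_⟩
  obtain ⟨x', hx', s', hs', he⟩ := e4 x hx s hs
  rw [he]
  rcases b3 x' hx' s' hs' with ⟨s'', hs'', he'⟩ | ⟨s'', hs'', he'⟩
  · rw [he']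
    have a1 := hG3 x' hx' s'' hs''
    have a2 := hfy x' hx'
    have a3 := dist_triangle (c (G (x', s''))) (c (f x')) y
    linarith
  · rw [he']; exact g4 x' hx' s'' hs''

theorem j_ruvret : J_RUVRET := by
  intro k j X V V1 _ _ _ c K t t1 t' ι ret K1 hc htt hB hR n hn y f hf hfb hfy
  obtain ⟨D, hD, hD1, hD2, hD3⟩ := hB.defo
  have hbd : ∀ x ∈ dCu n, ι (ret (f x)) = f x ∧ ret (f x) ∈ K := by
    intro x hx
    obtain ⟨v, hv, he⟩ := hfb hx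
    rw [← he, hB.ret_ι]
    exact ⟨rfl, hv⟩
  have hf' : IsMap (fun x => ret (f x)) (Cu n) univ :=
    ⟨hB.ret_cont.comp_continuousOn hf.cont, fun _ _ => mem_univ _⟩
  obtain ⟨H', g1, g2, g3, g4⟩ := hR n hn y (fun x => ret (f x)) hf' (fun x hx => (hbd x hx).2) hfy
  have k1 : IsMap (fun p : (Fin n → ℝ) × ℝ => D (f p.1, p.2)) (Cu n ×ˢ Icc (0:ℝ) 1)
      (univ : Set V1) := by
    refine ⟨hD.comp ?_ fun p hp => ⟨mem_univ _, hp.2⟩, fun _ _ => mem_univ _⟩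
    exact (hf.cont.comp continuousOn_fst fun p hp => hp.1).prodMk continuousOn_snd
  have k2 : IsMap (fun p : (Fin n → ℝ) × ℝ => ι (H' p)) (Cu n ×ˢ Icc (0:ℝ) 1) (univ : Set V1) :=
    ⟨hB.iso.continuous.comp_continuousOn g1.cont, fun _ _ => mem_univ _⟩
  obtain ⟨H, b1, b2, b3⟩ := concat (isClosed_Cu n) k1 k2 (fun x hx => by
    simp only
    rw [(hD1 (f x)).2, (g2 x hx).1])
  refine ⟨H, b1, fun x hx => ⟨?_, ?_⟩, fun x hx s hs => ?_, fun x hx s hs => ?_⟩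
  · rw [(b2 x hx).1]; exact (hD1 (f x)).1
  · rw [(b2 x hx).2]; exact ⟨_, (g2 x hx).2, rfl⟩
  · obtain ⟨h1, h2⟩ := hbd x hx
    rcases b3 x (dCu_subset n hx) s hs with ⟨s', hs', he⟩ | ⟨s', hs', he⟩
    · rw [he]
      simp only
      rw [← h1]
      exact hD3 _ s' hs'
    · rw [he, g3 x hx s' hs', h1]
  · rcases b3 x hx s hs with ⟨s', hs', he⟩ | ⟨s', hs', he⟩
    · rw [he]
      simp only
      rw [hD2 _ s' hs']
      exact lt_of_lt_of_le (hfy x hx) htt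
    · rw [he]
      simp only
      rw [hB.ret_ι]
      exact g4 x hx s' hs'

theorem j_ruvshrink : J_RUVSHRINK := by
  intro k X V _ _ c K K' S t t' hKK' hS hS1 hS2 hS3 hR j hj y f hf hfb hfy
  have h1mem : (1:ℝ) ∈ Icc (0:ℝ) 1 := ⟨zero_le_one, le_rfl⟩
  obtain ⟨H', g1, g2, g3, g4⟩ := hR j hj y f hf (fun x hx => hKK' (hfb hx)) hfy
  have k2 : IsMap (fun p : (Fin j → ℝ) × ℝ => S (H' (p.1, 1), p.2)) (Cu j ×ˢ Icc (0:ℝ) 1)
      (univ : Set V) := by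
    refine ⟨hS.cont.comp ?_ fun p hp => ⟨(g2 p.1 hp.1).2, hp.2⟩, fun _ _ => mem_univ _⟩
    refine ContinuousOn.prodMk ?_ continuousOn_snd
    exact g1.cont.comp (by fun_prop) fun p hp => ⟨hp.1, h1mem⟩
  obtain ⟨H, b1, b2, b3⟩ := concat (isClosed_Cu j) g1 k2 (fun x hx => by
    simp only
    rw [(hS1 _ (g2 x hx).2).1])
  refine ⟨H, b1, fun x hx => ⟨?_, ?_⟩, fun x hx s hs => ?_, fun x hx s hs => ?_⟩
  · rw [(b2 x hx).1]; exact (g2 x hx).1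
  · rw [(b2 x hx).2]; exact (hS1 _ (g2 x hx).2).2
  · rcases b3 x (dCu_subset j hx) s hs with ⟨s', hs', he⟩ | ⟨s', hs', he⟩
    · rw [he]; exact g3 x hx s' hs'
    · rw [he]
      simp only
      rw [g3 x hx 1 h1mem]
      exact hS2 _ (hfb hx) s' hs'
  · rcases b3 x hx s hs with ⟨s', hs', he⟩ | ⟨s', hs', he⟩
    · rw [he]; exact g4 x hx s' hs'
    · rw [he]
      simp only
      rw [hS3 _ (g2 x hx).2 s' hs']
      exact g4 x hx 1 h1mem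

/-- SLIDE -/
theorem slide (k : ℕ) {α β : Type} [MetricSpace α] [MetricSpace β] {A : Set α} {K : Set β}
    {g : α → β} {i : β → α} {e e' : ℝ} (_hg : IsMap g A K) (hi : IsMap i K A)
    (hgi : ∀ y ∈ K, g (i y) = y) (he : e < e') (he' : 0 < e')
    (hH : ∀ j ≤ k, ∀ a : (Fin j → ℝ) → α, IsMap a (dCu j) A →
      ∃ H : (Fin j → ℝ) × ℝ → α, IsMap H (dCu j ×ˢ Icc (0:ℝ) 1) A ∧
        (∀ x ∈ dCu j, H (x, 0) = a x ∧ H (x, 1) = i (g (a x))) ∧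
        ∀ x ∈ dCu j, ∀ t ∈ Icc (0:ℝ) 1, dist (g (H (x, t))) (g (a x)) < e) :
    L k g A K e' := by
  intro j hj f f0 hf hf0 hff
  obtain ⟨H, h1, h2, h3⟩ := hH j hj f0 hf0
  have huc : UniformContinuousOn f (Cu j) :=
    (isCompact_Cu j).uniformContinuousOn_of_continuous hf.cont
  obtain ⟨w, hw, hw'⟩ := Metric.uniformContinuousOn_iff.1 huc (min (e' - e) e')
    (lt_min (by linarith) he')
  obtain ⟨F, hF, hF0, hF1⟩ := collar (hi.comp hf) h1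
    (fun x hx => by simp only [(h2 x hx).2, hff x hx]) hw
  refine ⟨F, hF, fun x hx => ?_, fun x hx => ?_⟩
  · rw [hF0 x hx]; exact (h2 x hx).1
  · rcases hF1 x hx with ⟨x', hx', t, ht, heq, hd⟩ | ⟨x', hx', heq, hd⟩
    · rw [heq]
      have a1 := h3 x' hx' t ht
      rw [hff x' hx'] at a1
      have a2 := hw' _ (dCu_subset j hx') _ hx (by rwa [dist_comm])
      have a3 := dist_triangle (g (H (x', t))) (f x') (f x)
      have a4 := min_le_left (e' - e) e'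
      linarith
    · rw [heq, hgi _ (hf.maps hx')]
      have a2 := hw' _ hx' _ hx (by rwa [dist_comm])
      exact lt_of_lt_of_le a2 (min_le_right _ _)

theorem j_slide : J_SLIDE :=
  fun k _ _ _ _ _ _ _ _ _ _ hg hi hgi he he' hH => slide k hg hi hgi he he' hH

end MG.Tr
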