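import Pool.Agent.Work.MP_017613_gt.TrDmc
import Pool.Agent.Work.MP_017613_gt.Kit.PushCells
import Pool.Agent.Work.MP_017613_gt.DiscC

/-!
# Block (4): the retraction of the double mapping cylinder onto `F` is fine (helper19)
-/

open Set Metric Topology

namespace MG.Tr

open Pool.Agent.Work.MP_017613_gt (ZS DD PushOff)

theorem j_retl (h1 : J_LPC) (h2 : J_SLIDE) : J_RETL := by
  classical
  intro k M F _ _ _ _ φ hk hφ uM uF ε hε
  obtain ⟨ε2, hε2, hε2'⟩ := Metric.uniformContinuous_iff.1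
    (CompactSpace.uniformContinuous_of_continuous hφ) (ε / 2) (by positivity)
  obtain ⟨δ3, hδ3, hext⟩ := close_ext_set.{0} (X := (univ : Set M)) isCompact_univ uM hε2
  obtain ⟨e, he, hlpc⟩ := h1 k M uM δ3 hδ3
  refine ⟨e, he, ?_⟩
  intro R V _ _ _ _ hR s iM iF cyl ret hs hsi uR hL hD hret hretM hretF hretC
  obtain ⟨r0⟩ := hR
  have h0I : (0 : ℝ) ∈ Icc (0 : ℝ) 1 := ⟨le_rfl, zero_le_one⟩
  have h1I : (1 : ℝ) ∈ Icc (0 : ℝ) 1 := ⟨zero_le_one, le_rfl⟩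
  refine h2 k V F univ univ ret iF (ε / 2) ε ⟨hret.continuousOn, fun _ _ => mem_univ _⟩
    ⟨hD.isoF.continuous.continuousOn, fun _ _ => mem_univ _⟩ (fun y _ => hretF y) (by linarith) hε ?_
  intro j hj a ha
  have hV : Nonempty V := ⟨a 0⟩
  -- the two parts
  set PM : Set (Fin j → ℝ) := dCu j ∩ a ⁻¹' (range iM) with hPM
  set PC : Set (Fin j → ℝ) := dCu j ∩ a ⁻¹' (cy cyl 0 1 ∪ range iF) with hPC
  have cPM : IsClosed PM :=
    ha.cont.preimage_isClosed_of_isClosed (isClosed_dCu j) hD.isClosed_M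
  have cPC : IsClosed PC := ha.cont.preimage_isClosed_of_isClosed (isClosed_dCu j)
    ((hD.isClosed_cy le_rfl le_rfl).union hD.isClosed_F)
  have kPM : IsCompact PM := (isCompact_dCu j).of_isClosed_subset cPM inter_subset_left
  have hcov : ∀ x ∈ dCu j, x ∈ PM ∨ x ∈ PC := by
    intro x hx
    rcases hD.cover (a x) with hv | hv | ⟨r, t, ht, he'⟩
    · exact Or.inl ⟨hx, hv⟩
    · exact Or.inr ⟨hx, Or.inr hv⟩
    · exact Or.inr ⟨hx, Or.inl ⟨r, t, ht, he'⟩⟩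
  -- the lift to `M`
  let α : (Fin j → ℝ) → M := fun x => if h : ∃ y, iM y = a x then h.choose else s r0
  have hα : ∀ x ∈ PM, iM (α x) = a x := by
    intro x hx
    have h : ∃ y, iM y = a x := hx.2
    simp only [α, dif_pos h]
    exact h.choose_spec
  have cα : ContinuousOn α PM := by
    rw [hD.isoM.isEmbedding.isInducing.continuousOn_iff]
    exact (ha.cont.mono inter_subset_left).congr hα
  -- the lift to `R`
  have hrep : ∀ x ∈ PM, x ∈ PC → ∃ r, s r = α x := by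
    intro x hx hx'
    rcases hx'.2 with ⟨r, t, ht, he'⟩ | hF
    · rcases ht.1.lt_or_eq with h0 | h0
      · exact absurd (he' ▸ hx.2 : cyl (r, t) ∈ range iM) (hD.cyl_not_M h0 ht.2)
      · subst h0
        refine ⟨r, hD.isoM.injective ?_⟩
        rw [← hD.zero, he', hα x hx]
    · exact absurd hF (disjoint_left.1 hD.disj hx.2)
  let β : (Fin j → ℝ) → R := fun x => if h : ∃ r, s r = α x then h.choose else r0
  have hβ : ∀ x ∈ PM ∩ PC, s (β x) = α x := by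
    intro x hx
    have h := hrep x hx.1 hx.2
    simp only [β, dif_pos h]
    exact h.choose_spec
  have cβ : ContinuousOn β (PM ∩ PC) := by
    rw [(hs.isClosedEmbedding hsi).isEmbedding.isInducing.continuousOn_iff]
    exact (cα.mono inter_subset_left).congr hβ
  -- the lift of `α`
  have : CompactSpace PM := isCompact_iff_compactSpace.1 kPM
  have dPM : PushOff k PM := ((dimLT_dCu (show j ≤ k + 1 by omega)).2 k rfl).mono kPM
    inter_subset_left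
  obtain ⟨G, cG, eG, dG⟩ := hlpc R uR s hs hL PM (pushOff_subtype dPM) (Subtype.val ⁻¹' PC)
    (fun x => α x) (fun x => β x) (cPC.preimage continuous_subtype_val)
    (continuousOn_iff_continuous_domRestrict.1 cα)
    (cβ.comp continuous_subtype_val.continuousOn fun x hx => ⟨x.2, hx⟩) (fun x hx => by
      rw [hβ x ⟨x.2, hx⟩, dist_self]; exact he)
  let g : (Fin j → ℝ) → R := extS PM G fun _ => r0
  have cg : ContinuousOn g PM := extS_cont cG _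
  have hg : ∀ x (hx : x ∈ PM), g x = G ⟨x, hx⟩ := fun x hx => extS_eq G _ hx
  have hgC : ∀ x ∈ PM ∩ PC, s (g x) = α x := by
    intro x hx
    rw [hg x hx.1, eG (show (⟨x, hx.1⟩ : PM) ∈ Subtype.val ⁻¹' PC from hx.2)]
    exact hβ x hx
  have hgd : ∀ x ∈ PM, dist (s (g x)) (α x) < δ3 := fun x hx => by
    rw [hg x hx]; exact dG ⟨x, hx⟩
  have csg : ContinuousOn (fun x => s (g x)) PM := hs.comp_continuousOn cg
  -- the homotopy in `M`
  let b : (Fin j → ℝ) × ℝ → M := fun p => if p.2 = 1 then s (g p.1) else α p.1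
  have hαI : ContinuousOn (fun p : (Fin j → ℝ) × ℝ => α p.1) (PM ×ˢ Icc (0 : ℝ) 1) :=
    cα.comp continuousOn_fst fun p hp => hp.1
  have kI : IsCompact (PM ×ˢ Icc (0 : ℝ) 1) := kPM.prod isCompact_Icc
  have dI : PushOff k (PM ×ˢ Icc (0 : ℝ) 1) :=
    ((dimLT_dCu_prod (show j < k + 1 by omega)).2 k rfl).mono kI (prod_mono inter_subset_left le_rfl)
  have c1 : IsClosed (PM ×ˢ ({0} : Set ℝ)) := cPM.prod isClosed_singleton
  have c2 : IsClosed (PM ×ˢ ({1} : Set ℝ)) := cPM.prod isClosed_singleton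
  have c3 : IsClosed ((PM ∩ PC) ×ˢ Icc (0 : ℝ) 1) := (cPM.inter cPC).prod isClosed_Icc
  have e1 : EqOn b (fun p => α p.1) (PM ×ˢ ({0} : Set ℝ)) := by
    rintro ⟨x, t⟩ ⟨hx, ht⟩
    have ht : t = 0 := ht
    subst ht
    exact if_neg zero_ne_one
  have e2 : EqOn b (fun p => s (g p.1)) (PM ×ˢ ({1} : Set ℝ)) := by
    rintro ⟨x, t⟩ ⟨hx, ht⟩
    have ht : t = 1 := ht
    subst ht
    exact if_pos rfl
  have e3 : EqOn b (fun p => α p.1) ((PM ∩ PC) ×ˢ Icc (0 : ℝ) 1) := by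
    rintro ⟨x, t⟩ ⟨hx, ht⟩
    by_cases h : t = 1
    · simp only [b, if_pos h]
      exact hgC x hx
    · exact if_neg h
  have cb : ContinuousOn b (PM ×ˢ ({0} : Set ℝ) ∪ (PM ×ˢ ({1} : Set ℝ) ∪
      (PM ∩ PC) ×ˢ Icc (0 : ℝ) 1)) := by
    refine ContinuousOn.union_of_isClosed ?_ (ContinuousOn.union_of_isClosed ?_ ?_ c2 c3) c1
      (c2.union c3)
    · exact (cα.comp continuousOn_fst fun p hp => hp.1).congr e1
    · exact (csg.comp continuousOn_fst fun p hp => hp.1).congr e2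
    · exact (cα.comp continuousOn_fst fun p hp => hp.1.1).congr e3
  obtain ⟨h, hh, hhb, hhd⟩ := hext ((Fin j → ℝ) × ℝ) (PM ×ˢ Icc (0 : ℝ) 1)
    (PM ×ˢ ({0} : Set ℝ) ∪ (PM ×ˢ ({1} : Set ℝ) ∪ (PM ∩ PC) ×ˢ Icc (0 : ℝ) 1)) kI dI
    (c1.union (c2.union c3)) (by
      rintro ⟨x, t⟩ (⟨hx, ht⟩ | ⟨hx, ht⟩ | ⟨hx, ht⟩)
      · have ht : t = 0 := ht
        subst ht
        exact ⟨hx, h0I⟩
      · have ht : t = 1 := ht
        subst ht
        exact ⟨hx, h1I⟩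
      · exact ⟨hx.1, ht⟩) (fun p => α p.1) b ⟨hαI, fun _ _ => mem_univ _⟩
    ⟨cb, fun _ _ => mem_univ _⟩ (by
      rintro ⟨x, t⟩ hp
      by_cases ht : t = 1
      · simp only [b, if_pos ht]
        refine hgd x ?_
        rcases hp with hp | hp | hp
        · exact hp.1
        · exact hp.1
        · exact hp.1.1
      · simp only [b, if_neg ht, dist_self]
        exact hδ3)
  have hh0 : ∀ x ∈ PM, h (x, 0) = α x := fun x hx => by
    have hx' : (x, (0 : ℝ)) ∈ PM ×ˢ ({0} : Set ℝ) := ⟨hx, rfl⟩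
    rw [hhb (Or.inl hx'), e1 hx']
  have hh1 : ∀ x ∈ PM, h (x, 1) = s (g x) := fun x hx => by
    have hx' : (x, (1 : ℝ)) ∈ PM ×ˢ ({1} : Set ℝ) := ⟨hx, rfl⟩
    rw [hhb (Or.inr (Or.inl hx')), e2 hx']
  have hhC : ∀ x ∈ PM ∩ PC, ∀ t ∈ Icc (0 : ℝ) 1, h (x, t) = α x := fun x hx t ht => by
    have hx' : (x, t) ∈ (PM ∩ PC) ×ˢ Icc (0 : ℝ) 1 := ⟨hx, ht⟩
    rw [hhb (Or.inr (Or.inr hx')), e3 hx']
  -- first homotopy
  have m1 : IsMap (fun p : (Fin j → ℝ) × ℝ => iM (h p)) (PM ×ˢ Icc (0 : ℝ) 1) univ :=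
    ⟨hD.isoM.continuous.comp_continuousOn hh.cont, fun _ _ => mem_univ _⟩
  have m2 : IsMap (fun p : (Fin j → ℝ) × ℝ => a p.1) (PC ×ˢ Icc (0 : ℝ) 1) univ :=
    ⟨ha.cont.comp continuousOn_fst fun p hp => hp.1.1, fun _ _ => mem_univ _⟩
  obtain ⟨H1, hH1, hH1M, hH1C⟩ := IsMap.glue (cPM.prod isClosed_Icc) (cPC.prod isClosed_Icc) m1 m2
    (by
      rintro ⟨x, t⟩ ⟨hx, ht⟩ ⟨hx', -⟩
      show iM (h (x, t)) = a x
      rw [hhC x ⟨hx, hx'⟩ t ht, hα x hx])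
  have hun : PM ×ˢ Icc (0 : ℝ) 1 ∪ PC ×ˢ Icc (0 : ℝ) 1 = dCu j ×ˢ Icc (0 : ℝ) 1 := by
    ext ⟨x, t⟩
    constructor
    · rintro (hp | hp)
      · exact ⟨hp.1.1, hp.2⟩
      · exact ⟨hp.1.1, hp.2⟩
    · rintro ⟨hx, ht⟩
      rcases hcov x hx with h' | h'
      · exact Or.inl ⟨h', ht⟩
      · exact Or.inr ⟨h', ht⟩
  rw [hun] at hH1
  have kM : ∀ x ∈ PM, ∀ t ∈ Icc (0 : ℝ) 1, H1 (x, t) = iM (h (x, t)) := fun x hx t ht =>
    hH1M (⟨hx, ht⟩ : (x, t) ∈ PM ×ˢ Icc (0 : ℝ) 1)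
  have kC : ∀ x ∈ PC, ∀ t ∈ Icc (0 : ℝ) 1, H1 (x, t) = a x := fun x hx t ht =>
    hH1C (⟨hx, ht⟩ : (x, t) ∈ PC ×ˢ Icc (0 : ℝ) 1)
  have H10 : ∀ x ∈ dCu j, H1 (x, 0) = a x := by
    intro x hx
    rcases hcov x hx with h' | h'
    · rw [kM x h' 0 h0I, hh0 x h', hα x h']
    · exact kC x h' 0 h0I
  have H11 : ∀ x ∈ dCu j, H1 (x, 1) ∈ cy cyl 0 1 ∪ range iF := by
    intro x hx
    rcases hcov x hx with h' | h'
    · rw [kM x h' 1 h1I, hh1 x h', ← hD.zero]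
      exact Or.inl (mem_cy _ le_rfl zero_le_one)
    · rw [kC x h' 1 h1I]
      exact h'.2
  have H1d : ∀ x ∈ dCu j, ∀ t ∈ Icc (0 : ℝ) 1, dist (ret (H1 (x, t))) (ret (a x)) < ε / 2 := by
    intro x hx t ht
    rcases hcov x hx with h' | h'
    · rw [kM x h' t ht, ← hα x h', hretM, hretM]
      exact hε2' (hhd (x, t) ⟨h', ht⟩)
    · rw [kC x h' t ht, dist_self]
      positivity
  -- second homotopy
  obtain ⟨S, cS, SF, SC⟩ := hD.slideUp (a := 0) h0I (Or.inr hsi)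
  have S0 : ∀ v ∈ cy cyl 0 1 ∪ range iF, S (v, 0) = v := by
    rintro v (⟨r, t, ht, rfl⟩ | ⟨y, rfl⟩)
    · rw [SC r t ht 0 h0I, zero_mul, add_zero]
    · exact SF y 0 h0I
  have S1 : ∀ v ∈ cy cyl 0 1 ∪ range iF, S (v, 1) = iF (ret v) := by
    rintro v (⟨r, t, ht, rfl⟩ | ⟨y, rfl⟩)
    · rw [SC r t ht 1 h1I, one_mul, add_sub_cancel, hD.one, hretC r t ht]
    · rw [SF y 1 h1I, hretF]
  have Sr : ∀ v ∈ cy cyl 0 1 ∪ range iF, ∀ u ∈ Icc (0 : ℝ) 1, ret (S (v, u)) = ret v := by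
    rintro v (⟨r, t, ht, rfl⟩ | ⟨y, rfl⟩) u hu
    · rw [SC r t ht u hu, hretC r t ht, hretC]
      have h3 := ht.1; have h4 := ht.2; have h5 := hu.1; have h6 := hu.2
      constructor
      · nlinarith
      · nlinarith
    · rw [SF y u hu]
  have m3 : IsMap (fun p : (Fin j → ℝ) × ℝ => S (H1 (p.1, 1), p.2)) (dCu j ×ˢ Icc (0 : ℝ) 1)
      univ := by
    have h5 : ContinuousOn (fun p : (Fin j → ℝ) × ℝ => (H1 (p.1, 1), p.2))
        (dCu j ×ˢ Icc (0 : ℝ) 1) :=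
      (hH1.cont.comp (by fun_prop) fun p hp => ⟨hp.1, h1I⟩).prodMk continuousOn_snd
    exact ⟨cS.comp h5 fun p hp => ⟨H11 _ hp.1, hp.2⟩, fun _ _ => mem_univ _⟩
  have m4 : IsMap (fun p : (Fin j → ℝ) × ℝ => iF (ret (H1 (p.1, 1 - p.2))))
      (dCu j ×ˢ Icc (0 : ℝ) 1) univ := by
    refine ⟨(hD.isoF.continuous.comp hret).comp_continuousOn (hH1.cont.comp (by fun_prop) ?_),
      fun _ _ => mem_univ _⟩
    rintro ⟨x, t⟩ ⟨hx, ht⟩
    exact ⟨hx, by have := ht.2; simp only at this ⊢; linarith,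
      by have := ht.1; simp only at this ⊢; linarith⟩
  obtain ⟨H2, hH2, H20, H21, H2t⟩ := hcat (isClosed_dCu j) m3 m4 (fun x hx => by
    show S (H1 (x, 1), 1) = iF (ret (H1 (x, 1 - 0)))
    rw [S1 _ (H11 x hx), sub_zero])
  obtain ⟨H, hH, H0, HH1, Ht⟩ := hcat (isClosed_dCu j) hH1 hH2 (fun x hx => by
    rw [H20 x hx]
    show H1 (x, 1) = S (H1 (x, 1), 0)
    rw [S0 _ (H11 x hx)])
  refine ⟨H, hH, fun x hx => ⟨by rw [H0 x hx, H10 x hx], ?_⟩, fun x hx t ht => ?_⟩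
  · rw [HH1 x hx, H21 x hx]
    show iF (ret (H1 (x, 1 - 1))) = iF (ret (a x))
    rw [sub_self, H10 x hx]
  · rcases Ht x hx t ht with ⟨u, hu, he'⟩ | ⟨u, hu, he'⟩
    · rw [he']; exact H1d x hx u hu
    · rcases H2t x hx u hu with ⟨u', hu', he''⟩ | ⟨u', hu', he''⟩
      · rw [he', he'']
        show dist (ret (S (H1 (x, 1), u'))) (ret (a x)) < ε / 2
        rw [Sr _ (H11 x hx) u' hu']
        exact H1d x hx 1 h1I
      · rw [he', he'']
        show dist (ret (iF (ret (H1 (x, 1 - u'))))) (ret (a x)) < ε / 2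
        rw [hretF]
        exact H1d x hx _ ⟨by linarith [hu'.2], by linarith [hu'.1]⟩

end MG.Tr
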