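import Pool.Agent.Work.MP_017613_gt.TrDmc

/-!
# `(V_0, M)` is `k`-connected with control: `J_RUV0` from `J_CKCYL`, `J_EXC`, `J_RUVSHRINK`
(helper27)
-/

set_option linter.unusedSectionVars false

open Set Metric Topology

namespace MG.Tr

lemma RUV.mono {k : ℕ} {α X : Type} [MetricSpace α] [MetricSpace X] {c : α → X} {V K : Set α}
    {t t' s s' : ℝ} (h : RUV k c V K t t') (h1 : s ≤ t) (h2 : t' ≤ s') : RUV k c V K s s' := by
  intro j hj y f hf hfK hfc
  obtain ⟨H, hH, hH1, hH2, hH3⟩ := h j hj y f hf hfK fun x hx => (hfc x hx).trans_le h1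
  exact ⟨H, hH, hH1, hH2, fun x hx s hs => (hH3 x hx s hs).trans_le h2⟩

theorem j_ruv0 (hC : J_CKCYL) (hE : J_EXC) (hS : J_RUVSHRINK) : J_RUV0 := by
  intro k X _ _ hk hX t' ht'
  -- the chain of scales
  obtain ⟨t, ht1, ht2, ht3, ht4, ht5⟩ := iterate_mod
    (Q := fun a b => ∀ (M F R V : Type) [MetricSpace M] [MetricSpace F]
      [MetricSpace R] [MetricSpace V] [CompactSpace M] [CompactSpace F] [CompactSpace R]
      [CompactSpace V] (s : R → M) (w : R → F) (i : F → R) (iM : M → V) (iF : F → V)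
      (cyl : R × ℝ → V) (c : V → X), DMC s w iM iF cyl → Continuous w → Continuous i →
      (∀ y, w (i y) = y) → Continuous c → (∀ r, ∀ a ∈ Icc (0:ℝ) 1, c (cyl (r, a)) = c (iF (w r))) →
      L k (fun r => c (iF (w r))) univ univ a →
      RUV k c ({v | ∃ r, ∃ a ∈ Icc (1 / 3 : ℝ) 1, cyl (r, a) = v} ∪ range iF)
        {v | ∃ r, ∃ a ∈ Icc (1 / 3 : ℝ) (2 / 3), cyl (r, a) = v} a b)
    (fun b hb => hC k X hk hX b hb) (k + 1) t' ht'
  refine ⟨t 0, ht2 0, ht3 0, ?_⟩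
  intro M F R V _ _ _ _ _ _ _ _ s w i iM iF cyl c h hw hi hwi hc hcc hL
  rcases isEmpty_or_nonempty V with hV | hV
  · intro j hj y f
    exact (hV.false (f 0)).elim
  obtain ⟨τ, hτ, hτM, hτF, hτC⟩ := h.level
  -- the upper part and the middle part
  have e1 : {v | 1 / 3 ≤ τ v} = {v | ∃ r, ∃ a ∈ Icc (1 / 3 : ℝ) 1, cyl (r, a) = v} ∪ range iF := by
    ext v
    constructor
    · intro hv
      rcases h.cover v with ⟨x, rfl⟩ | hv' | ⟨r, a, ha, rfl⟩
      · simp only [mem_ofPred_eq, hτM] at hv; norm_num at hv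
      · exact Or.inr hv'
      · simp only [mem_ofPred_eq, hτC r a ha] at hv
        exact Or.inl ⟨r, a, ⟨hv, ha.2⟩, rfl⟩
    · rintro (⟨r, a, ha, rfl⟩ | ⟨y, rfl⟩)
      · simp only [mem_ofPred_eq]
        rw [hτC r a ⟨by linarith [ha.1], ha.2⟩]
        exact ha.1
      · simp only [mem_ofPred_eq, hτF]; norm_num
  have e2 : {v | 1 / 3 ≤ τ v ∧ τ v ≤ 2 / 3} =
      {v | ∃ r, ∃ a ∈ Icc (1 / 3 : ℝ) (2 / 3), cyl (r, a) = v} := by
    ext v
    constructor
    · rintro ⟨hv, hv2⟩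
      rcases h.cover v with ⟨x, rfl⟩ | ⟨y, rfl⟩ | ⟨r, a, ha, rfl⟩
      · rw [hτM] at hv; norm_num at hv
      · rw [hτF] at hv2; norm_num at hv2
      · rw [hτC r a ha] at hv hv2
        exact ⟨r, a, ⟨hv, hv2⟩, rfl⟩
    · rintro ⟨r, a, ha, rfl⟩
      simp only [mem_ofPred_eq]
      rw [hτC r a ⟨by linarith [ha.1], by linarith [ha.2]⟩]
      exact ha
  have e3 : {v | τ v ≤ 2 / 3} = range iM ∪ cy cyl 0 (2 / 3) := by
    ext v
    constructor
    · intro hv
      rcases h.cover v with hv' | ⟨y, rfl⟩ | ⟨r, a, ha, rfl⟩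
      · exact Or.inl hv'
      · simp only [mem_ofPred_eq, hτF] at hv; norm_num at hv
      · simp only [mem_ofPred_eq, hτC r a ha] at hv
        exact Or.inr ⟨r, a, ⟨ha.1, hv⟩, rfl⟩
    · rintro (⟨y, rfl⟩ | ⟨r, a, ha, rfl⟩)
      · simp only [mem_ofPred_eq, hτM]; norm_num
      · simp only [mem_ofPred_eq]
        rw [hτC r a ⟨ha.1, by linarith [ha.2]⟩]
        exact ha.2
  -- the chain as a monotone sequence
  let T : ℕ → ℝ := fun l => if l ≤ k + 1 then t l else t' + (l - (k + 1) : ℝ)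
  have hT : ∀ l ≤ k + 1, T l = t l := fun l hl => by simp only [T, if_pos hl]
  have hTpos : ∀ l, 0 < T l := by
    intro l
    by_cases hl : l ≤ k + 1
    · rw [hT l hl]; exact ht2 l
    · simp only [T, if_neg hl]
      have : (k + 1 : ℝ) < l := by
        have : k + 1 < l := by omega
        exact_mod_cast this
      linarith
  have hTmono : ∀ l, T l ≤ T (l + 1) := by
    intro l
    by_cases hl : l + 1 ≤ k + 1
    · rw [hT l (by omega), hT (l + 1) hl]
      exact (ht5 l (by omega)).1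
    · by_cases hl2 : l ≤ k + 1
      · have h3 : l = k + 1 := by omega
        subst h3
        rw [hT _ le_rfl, ht1]
        simp only [T, if_neg (show ¬ (k + 1 + 1 ≤ k + 1) by omega)]
        push_cast
        linarith
      · simp only [T, if_neg hl2, if_neg hl]
        push_cast
        linarith
  have hR := hE k X V c τ T hc hτ hTpos hTmono (by
    intro l hl
    rw [hT l (by omega), hT (l + 1) (by omega), e1, e2]
    exact (ht5 l (by omega)).2 M F R V s w i iM iF cyl c h hw hi hwi hc hcc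
      (hL.mono (ht4 l)))
  rw [hT 0 (by omega), hT (k + 1) le_rfl, ht1, e3] at hR
  -- slide down to `M`
  obtain ⟨S, hS1, hS2, hS3⟩ := h.slideLow (a := 2 / 3) ⟨by norm_num, by norm_num⟩
    (Or.inl (by norm_num))
  refine hS k X V c (range iM) (range iM ∪ cy cyl 0 (2 / 3)) S (t 0) t' subset_union_left
    ⟨hS1, ?_⟩ ?_ ?_ ?_ hR
  · rintro ⟨v, u⟩ ⟨hv | ⟨r, a, ha, rfl⟩, hu⟩
    · obtain ⟨x, rfl⟩ := hv
      simp only [hS2 x u hu]
      exact Or.inl ⟨x, rfl⟩
    · simp only [hS3 r a ha u hu]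
      refine Or.inr ⟨r, _, ⟨mul_nonneg ha.1 (by linarith [hu.2]), ?_⟩, rfl⟩
      have h1 := ha.1; have h2 := ha.2; have h3 := hu.1
      nlinarith
  · rintro v (⟨x, rfl⟩ | ⟨r, a, ha, rfl⟩)
    · exact ⟨hS2 x 0 ⟨le_rfl, zero_le_one⟩, by
        rw [hS2 x 1 ⟨zero_le_one, le_rfl⟩]; exact ⟨x, rfl⟩⟩
    · refine ⟨?_, ?_⟩
      · rw [hS3 r a ha 0 ⟨le_rfl, zero_le_one⟩]; simp
      · rw [hS3 r a ha 1 ⟨zero_le_one, le_rfl⟩]
        simp only [sub_self, mul_zero, h.zero]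
        exact ⟨_, rfl⟩
  · rintro v ⟨x, rfl⟩ u hu
    exact hS2 x u hu
  · rintro v (⟨x, rfl⟩ | ⟨r, a, ha, rfl⟩) u hu
    · rw [hS2 x u hu]
    · rw [hS3 r a ha u hu, hcc r _ ⟨mul_nonneg ha.1 (by linarith [hu.2]), ?_⟩,
        hcc r a ⟨ha.1, by linarith [ha.2]⟩]
      have h1 := ha.1; have h2 := ha.2; have h3 := hu.1
      nlinarith

end MG.Tr
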