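import Pool.Agent.Work.MP_017613_gt.Skel24
import Pool.Agent.Work.MP_017613_gt.Kit.Subdiv

/-!
# SUBDIV: the layers of a test pair are subdivided into layers of small cells
-/

open Set Metric Topology

namespace MG.Tr

section
variable {α X : Type} [MetricSpace α] [MetricSpace X]

theorem Lays.append {c : α → X} {t : ℝ} : ∀ {ds ds' : List ℕ} {K K' V : Set α},
    Lays c t ds K K' → Lays c t ds' K' V → Lays c t (ds ++ ds') K V
  | [], _, _, _, _, h, h' => by
    have h : _ = _ := h
    subst h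
    exact h'
  | _ :: _, _, _, _, _, ⟨K'', h1, h2⟩, h' => ⟨K'', h1, Lays.append h2 h'⟩

theorem Lays.single {c : α → X} {t : ℝ} {d : ℕ} {K V : Set α} (h : SLayer c t d K V) :
    Lays c t [d] K V := ⟨V, h, rfl⟩

theorem lays_range {c : α → X} {t : ℝ} {S : ℕ → Set α} : ∀ {n : ℕ},
    (∀ i < n, SLayer c t i (S i) (S (i + 1))) → Lays c t (List.range n) (S 0) (S n)
  | 0, _ => by
    rw [List.range_zero]
    exact rfl
  | n + 1, h => by
    rw [List.range_succ]
    exact (lays_range fun i hi => h i (by omega)).append (Lays.single (h n (by omega)))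

theorem lays_flatMap {c : α → X} {t : ℝ} {S : ℕ → Set α} {f : ℕ → List ℕ} : ∀ {n : ℕ},
    (∀ i < n, Lays c t (f i) (S i) (S (i + 1))) →
      Lays c t ((List.range n).flatMap f) (S 0) (S n)
  | 0, _ => by
    rw [List.range_zero]
    exact rfl
  | n + 1, h => by
    rw [List.range_succ, List.flatMap_append]
    refine (lays_flatMap fun i hi => h i (by omega)).append ?_
    have h1 : ([n] : List ℕ).flatMap f = f n := by simp
    rw [h1]
    exact h n (by omega)

end

theorem j_SUBDIV : J_SUBDIV := by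
  intro α X _ _ k K V c t ht hc hT
  obtain ⟨h0, S, hS0, hS1, hS⟩ := hT
  have hmono := TP.skel_mono hS
  subst hS0 hS1
  refine lays_flatMap (n := k + 1) fun d hd => ?_
  obtain ⟨m, χ, h⟩ := hS d (by omega)
  have hc' : ContinuousOn c (S (d + 1)) := hc.mono (hmono (k + 1) le_rfl (d + 1) (by omega))
  obtain ⟨T, hT0, hT1, hT⟩ := h.subdiv hc' ht
  rw [← hT0, ← hT1]
  refine lays_range (n := d + 1) fun i hi => ?_
  obtain ⟨n, χ', h1, h2⟩ := hT i (by omega)
  refine ⟨n, χ', h1, fun b => ⟨c (χ' b 0), fun x hx => h2 b x hx 0 ?_⟩⟩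
  rw [mem_Cu]
  intro i
  simp

end MG.Tr
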