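import Pool.Agent.Work.MP_017613_gt.TrRuv0
import Pool.Agent.Work.MP_017613_gt.TrSubdiv
import Pool.Agent.Work.MP_017613_gt.DiscC

/-!
# Assembly of S_APPROX (`J_S`) from the joints (helper27)
-/

set_option linter.unusedSectionVars false

open Set Metric Topology

namespace MG.Tr

open Pool.Agent.Work.MP_017613_gt (ZS DD PushOff)

/-! ## Isometric copies -/

section
variable {α β : Type*} [MetricSpace α] [MetricSpace β]

lemma exists_inv_iso {ι : α → β} (hι : Isometry ι) {γ : Type*} [TopologicalSpace γ] {f : γ → β}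
    {P : Set γ} (hf : IsMap f P (range ι)) [Nonempty α] :
    ∃ F : γ → α, ContinuousOn F P ∧ ∀ x ∈ P, ι (F x) = f x := by
  classical
  have hc : ∀ x ∈ P, ∃ a, ι a = f x := fun x hx => hf.maps hx
  choose! F hF using hc
  refine ⟨F, ?_, hF⟩
  have h1 : ContinuousOn (fun x => ι (F x)) P := hf.cont.congr hF
  exact hι.isEmbedding.continuousOn_iff.2 h1

lemma l_range {k : ℕ} {ι : α → β} (hι : Isometry ι) {r : ℝ} (hr : 0 < r) :
    L k ι univ (range ι) r := by
  intro j hj f f0 hf hf0 h0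
  have : Nonempty α := by
    obtain ⟨x, hx⟩ := Cu_nonempty j
    obtain ⟨a, -⟩ := hf.maps hx
    exact ⟨a⟩
  obtain ⟨F, hF, hF1⟩ := exists_inv_iso hι hf
  refine ⟨F, ⟨hF, fun _ _ => mem_univ _⟩, fun x hx => ?_, fun x hx => ?_⟩
  · apply hι.injective
    rw [hF1 x (dCu_subset j hx), h0 x hx]
  · rw [hF1 x hx, dist_self]; exact hr

lemma ulc_range {k : ℕ} {ι : α → β} (hι : Isometry ι) (h : ULC k (univ : Set α)) :
    ULC k (range ι) := by
  intro ε hε
  obtain ⟨δ, hδ, hu⟩ := h ε hε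
  refine ⟨δ, hδ, ?_⟩
  rintro j hj _ ⟨y, rfl⟩ a ha hd
  have : Nonempty α := ⟨y⟩
  obtain ⟨a', ha', ha1⟩ := exists_inv_iso hι ha
  obtain ⟨F, hF, hF1, hF2⟩ := hu j hj y (mem_univ _) a' ⟨ha', fun _ _ => mem_univ _⟩
    (fun x hx => by
      have := hd x hx
      rwa [← ha1 x hx, hι.dist_eq] at this)
  refine ⟨fun x => ι (F x), ⟨hι.continuous.comp_continuousOn hF.cont, fun x _ => ⟨_, rfl⟩⟩,
    fun x hx => ?_, fun x hx => ?_⟩
  · show ι (F x) = a x
    rw [hF1 hx, ha1 x hx]
  · show dist (ι (F x)) (ι y) < ε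
    rw [hι.dist_eq]
    exact hF2 x hx

lemma ulc_empty {k : ℕ} : ULC k (∅ : Set α) := fun ε _ => ⟨1, one_pos, fun j _ y hy => hy.elim⟩

end

lemma dl_le (k : ℕ) : ∀ d ∈ dl k, d ≤ k := by
  intro d hd
  simp only [dl, List.mem_flatMap, List.mem_range] at hd
  obtain ⟨a, ha, hb⟩ := hd
  omega

theorem j_s (hLPC : J_LPC) (hLEM : J_LEMR) (hGP : J_GP) (hV0 : J_V0) (hDIM : J_DIM)
    (hTR : J_TRADE) (hR0 : J_RUV0) (hRET : J_RETL) : J_S := by
  intro k X _ _ hk hX ε hε
  -- the list of dimensions and the scales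
  set ds : List ℕ := dl k ++ (dl (k + 1) ++ dl (k + 1)) with hds
  have hdsle : ∀ d ∈ ds, d ≤ k + 2 := by
    intro d hd
    simp only [hds, List.mem_append] at hd
    rcases hd with hd | hd | hd
    · exact (dl_le k d hd).trans (by omega)
    · exact (dl_le (k + 1) d hd).trans (by omega)
    · exact (dl_le (k + 1) d hd).trans (by omega)
  set N : ℕ := 8 ^ wt k ds with hN
  obtain ⟨t, ht1, ht2, ht3, ht4, ht5⟩ := iterate_mod
    (Q := fun a b => 4 * a ≤ b ∧ ∀ (M F R V : Type) [MetricSpace M] [MetricSpace F]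
      [MetricSpace R] [MetricSpace V] [CompactSpace M] [CompactSpace F] [CompactSpace R]
      [CompactSpace V] (s : R → M) (w : R → F) (i : F → R) (iM : M → V) (iF : F → V)
      (cyl : R × ℝ → V) (c : V → X), DMC s w iM iF cyl → Continuous w → Continuous i →
      (∀ y, w (i y) = y) → Continuous c → (∀ r, ∀ a ∈ Icc (0:ℝ) 1, c (cyl (r, a)) = c (iF (w r))) →
      L k (fun r => c (iF (w r))) univ univ a → RUV k c univ (range iM) a b)
    (fun b hb => by
      obtain ⟨a, ha, hab, h⟩ := hR0 k X hk hX b hb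
      refine ⟨min a (b / 4), by positivity, (min_le_left _ _).trans hab, ?_, ?_⟩
      · have := min_le_right a (b / 4)
        linarith
      · intro M F R V _ _ _ _ _ _ _ _ s w i iM iF cyl c h1 h2 h3 h4 h5 h6 h7
        exact (h M F R V s w i iM iF cyl c h1 h2 h3 h4 h5 h6
          (h7.mono (min_le_left _ _))).mono (min_le_left _ _) le_rfl) N (ε / 4) (by positivity)
  let T : ℕ → ℝ := fun l => if l ≤ N then t l else 4 ^ (l - N) * (ε / 4)
  have hT : ∀ l ≤ N, T l = t l := fun l hl => by simp only [T, if_pos hl]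
  have hTN : T N = ε / 4 := by rw [hT N le_rfl, ht1]
  have hT4 : ∀ l, 4 * T l ≤ T (l + 1) := by
    intro l
    by_cases hl : l + 1 ≤ N
    · rw [hT l (by omega), hT (l + 1) hl]
      exact (ht5 l (by omega)).2.1
    · by_cases hl2 : l ≤ N
      · have h3 : l = N := by omega
        rw [h3, hTN]
        simp only [T, if_neg (show ¬ (N + 1 ≤ N) by omega)]
        rw [show N + 1 - N = 1 by omega]
        linarith
      · simp only [T, if_neg hl2, if_neg hl]
        rw [show l + 1 - N = (l - N) + 1 by omega, pow_succ]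
        linarith
  have hT0 : 0 < T 0 := by rw [hT 0 (Nat.zero_le _)]; exact ht2 0
  -- constants
  obtain ⟨ρ, hρ, hpert⟩ := L.perturb.{0, 0} hX (ε := t 0 / 2) (by have := ht2 0; positivity)
  obtain ⟨δ2, hδ2, hlift2⟩ := hLPC k X hX (min ρ (ε / 4)) (by positivity)
  obtain ⟨δ1, hδ1, hlift1⟩ := hLPC k X hX (δ2 / 2) (by positivity)
  have ht0 := ht2 0
  refine ⟨min (min (t 0 / 4) δ2) δ1, by positivity, ?_⟩
  set d : ℝ := min (min (t 0 / 4) δ2) δ1 with hd
  have hda : d ≤ t 0 / 4 := (min_le_left _ _).trans (min_le_left _ _)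
  have hdb : d ≤ δ2 := (min_le_left _ _).trans (min_le_right _ _)
  have hdc : d ≤ δ1 := min_le_right _ _
  intro M F _ _ _ _ u p W w0 hM hF hu hp hLu hLp hW hw0 hpw r hr
  obtain ⟨hMu, hMd, hMD⟩ := hM
  -- the case of an empty `M`
  rcases isEmpty_or_nonempty M with hMe | ⟨⟨x0⟩⟩
  · refine ⟨w0, continuous_of_const fun x => (hMe.false x).elim, ?_, fun x => (hMe.false x).elim,
      fun x _ => rfl⟩
    intro j _ f f0
    exact (hMe.false (f0 0)).elim
  have hFn : Nonempty F := ⟨w0 x0⟩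
  have hMn : Nonempty M := ⟨x0⟩
  -- `F` is a good space
  obtain ⟨hFd, hFu⟩ := hDIM k F ∅ univ hF PushOff.empty ulc_empty
  -- the lift `σ : F → M`
  obtain ⟨σ1, hσ1, -, hσ1p⟩ := hlift1 M hMu u hu (hLu.mono hdc) F hFd ∅ p
    (fun _ => x0) isClosed_empty hp (continuousOn_empty _) (by simp)
  obtain ⟨η1, hη1, hη1u⟩ := Metric.uniformContinuous_iff.1
    (CompactSpace.uniformContinuous_of_continuous hu) (δ2 / 2) (by positivity)
  obtain ⟨σ, hσ, hσi, hσZ, -, hσW, hσd⟩ := hGP k M F σ1 ∅ W η1 ⟨hMu, hMd, hMD⟩ hFd hσ1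
    isClosed_empty (by simp) (by rw [image_empty]; exact Pool.Agent.Work.MP_017613_gt.ZS.empty) hW
    (by simp) hη1
  have hσp : ∀ y, dist (u (σ y)) (p y) < δ2 := by
    intro y
    have h1 := hη1u (hσd y)
    have h2 := hσ1p y
    have h3 := dist_triangle (u (σ y)) (u (σ1 y)) (p y)
    linarith
  -- the map `φ : M → F`
  classical
  let φ0 : M → F := fun x => if hx : ∃ y, σ y = x then hx.choose else w0 x
  have hφ0σ : ∀ y, φ0 (σ y) = y := by
    intro y
    have hx : ∃ y', σ y' = σ y := ⟨y, rfl⟩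
    simp only [φ0, dif_pos hx]
    exact hσi hx.choose_spec
  have hφ0W : EqOn φ0 w0 W := by
    intro x hx
    have hn : ¬ ∃ y, σ y = x := fun ⟨y, hy⟩ => disjoint_left.1 hσW ⟨y, rfl⟩ (hy ▸ hx)
    simp only [φ0, dif_neg hn]
  have hσcl : IsClosed (range σ) := (isCompact_range hσ).isClosed
  have hφ0c : ContinuousOn φ0 (W ∪ range σ) := by
    refine (hw0.congr hφ0W).union_of_isClosed ?_ hW.isClosed hσcl
    rw [← image_univ]
    refine continuousOn_image_of_compact isCompact_univ hσ.continuousOn ?_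
    exact continuousOn_id.congr fun y _ => hφ0σ y
  obtain ⟨φ, hφ, hφe, hφp⟩ := hlift2 F hFu p hp (hLp.mono hdb) M hMd (W ∪ range σ) u φ0
    (hW.isClosed.union hσcl) hu hφ0c (by
      rintro x (hx | ⟨y, rfl⟩)
      · rw [hφ0W hx]; exact (hpw x hx).trans_le hdb
      · rw [hφ0σ, dist_comm]; exact hσp y)
  have hφσ : ∀ y, φ (σ y) = y := fun y => by rw [hφe (Or.inr ⟨y, rfl⟩), hφ0σ]
  have hφW : EqOn φ w0 W := fun x hx => by rw [hφe (Or.inl hx), hφ0W hx]
  have hφρ : ∀ x, dist (p (φ x)) (u x) < ρ := fun x => (hφp x).trans_le (min_le_left _ _)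
  have hφε : ∀ x, dist (p (φ x)) (u x) < ε / 4 := fun x => (hφp x).trans_le (min_le_right _ _)
  -- fine constants
  obtain ⟨e1, he1, hret⟩ := hRET k M F φ hk hφ hMu hFu (r / 4) (by positivity)
  obtain ⟨e2, he2, hcomp⟩ := L.comp'.{0, 0} (k := k) (K := (univ : Set M)) (X := (univ : Set X))
    (h := u) (b := d) (ε := t 0 / 4) isCompact_univ ⟨hu.continuousOn, fun _ _ => mem_univ _⟩ hLu
    (by positivity)
  set e : ℝ := min e1 e2 with he
  have he0 : 0 < e := by positivity
  obtain ⟨η2, hη2, hpertM⟩ := L.perturb.{0, 0} hMu (ε := e / 2) (by positivity)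
  obtain ⟨R, _, _, i, s1, hi, hs1, hs1σ, hTP, hLs1⟩ := hLEM k M F σ (e / 2) hk hMu hFu hσ
    (by positivity)
  have hicl : IsClosed (range i) := (isCompact_range hi.continuous).isClosed
  have hPi : PushOff k (range i) := by
    rw [← image_univ]
    exact hFd.image isCompact_univ hi.continuous.continuousOn hi.injective.injOn
  obtain ⟨hRd, hRu⟩ := hDIM k R (range i) univ hTP hPi (ulc_range hi hFu)
  have hs1i : s1 '' range i = range σ := by
    ext x
    constructor
    · rintro ⟨_, ⟨y, rfl⟩, rfl⟩; exact ⟨y, (hs1σ y).symm⟩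
    · rintro ⟨y, rfl⟩; exact ⟨i y, ⟨y, rfl⟩, hs1σ y⟩
  obtain ⟨s, hs, hsi, hsZ, hse, hsW, hsd⟩ := hGP k M R s1 (range i) W η2 ⟨hMu, hMd, hMD⟩ hRd hs1
    hicl (by
      rintro _ ⟨y, rfl⟩ _ ⟨y', rfl⟩ h
      rw [hs1σ, hs1σ] at h
      rw [hσi h]) (by rw [hs1i]; exact hσZ) hW (by rw [hs1i]; exact hσW) hη2
  have hsσ : ∀ y, s (i y) = σ y := fun y => by rw [hse ⟨y, rfl⟩, hs1σ]
  have hLs : L k s univ univ e := by
    have := hpertM (A := univ) (g := s1) (g' := s) ⟨hs1.continuousOn, fun _ _ => mem_univ _⟩ hLs1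
      fun x _ => hsd x
    rwa [add_halves] at this
  -- the double mapping cylinder
  obtain ⟨V, _, _, iM, iF, cyl, hDMC, K1, K2, hT1, hT2, hT3⟩ := hV0 k M F R s
    (fun x => φ (s x)) i hs (hφ.comp hs) hi hMu hF hTP
  obtain ⟨ret, hretc, hretM, hretF, hretC⟩ := hDMC.glue (fM := φ) (fF := fun y => y)
    (fC := fun q => φ (s q.1)) hφ continuous_id
    (hφ.comp (hs.comp continuous_fst)).continuousOn (fun _ => rfl) (fun _ => rfl)
  have hLret : L k ret univ univ (r / 4) := hret R V ⟨i (w0 x0)⟩ s iM iF cyl ret hs hsi hRu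
    (hLs.mono (min_le_left _ _)) hDMC hretc hretM hretF hretC
  have hVn : Nonempty V := ⟨iM x0⟩
  set c : V → X := fun v => p (ret v) with hc
  have hcc : Continuous c := hp.comp hretc
  have hcC : ∀ x, ∀ a ∈ Icc (0:ℝ) 1, c (cyl (x, a)) = c (iF (φ (s x))) := by
    intro x a ha
    simp only [hc, hretC x a ha, hretF]
  have hLc : L k (fun x => c (iF (φ (s x)))) univ univ (t 0) := by
    have h1 := hcomp (A := univ) (g := s) ⟨hs.continuousOn, fun _ _ => mem_univ _⟩
      (hLs.mono (min_le_right _ _))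
    have h2 := hpert (A := univ) (g := fun x => u (s x)) (g' := fun x => c (iF (φ (s x))))
      ⟨(hu.comp hs).continuousOn, fun _ _ => mem_univ _⟩ h1 (fun x _ => by
        simp only [hc, hretF]
        exact hφρ (s x))
    exact h2.mono (by linarith)
  -- trading
  have hAtt0 : Att k u W iM c (range iM) (ε / 4) := by
    intro r' hr'
    refine ⟨iM, ⟨hDMC.isoM.continuous.continuousOn, fun x _ => ⟨x, rfl⟩⟩, l_range hDMC.isoM hr',
      fun x => ?_, fun x _ => by rw [dist_self]; exact hr'⟩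
    simp only [hc, hretM]
    exact hφε x
  have hLays : Lays c (T 0) ds (range iM) univ :=
    (j_SUBDIV V X k _ _ c (T 0) hT0 hcc.continuousOn hT1).append
      ((j_SUBDIV V X (k + 1) _ _ c (T 0) hT0 hcc.continuousOn hT2).append
        (j_SUBDIV V X (k + 1) _ _ c (T 0) hT0 hcc.continuousOn hT3))
  have hAtt := hTR k M X u W hk ⟨hMu, hMd, hMD⟩ hW (wt k ds) V (range iM) c iM T ds (ε / 4) hcc
    hDMC.isClosed_M (ulc_range hDMC.isoM hMu) hdsle le_rfl hT0 hT4 (by
      intro l hl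
      rw [hT l (le_of_lt hl), hT (l + 1) hl]
      exact (ht5 l hl).2.2 M F R V s (fun x => φ (s x)) i iM iF cyl c hDMC (hφ.comp hs)
        hi.continuous (fun y => by rw [hsσ, hφσ]) hcc hcC (hLc.mono (ht4 l)))
    hLays hAtt0
  rw [← hN, hTN] at hAtt
  -- back to `F`
  obtain ⟨e3, he3, hcompR⟩ := L.comp'.{0, 0} (k := k) (K := (univ : Set V)) (X := (univ : Set F))
    (h := ret) (b := r / 4) (ε := r / 4) isCompact_univ
    ⟨hretc.continuousOn, fun _ _ => mem_univ _⟩ hLret (by positivity)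
  obtain ⟨η3, hη3, hpertF⟩ := L.perturb.{0, 0} hFu (ε := r / 4) (by positivity)
  obtain ⟨η4, hη4, hη4p⟩ := Metric.uniformContinuous_iff.1
    (CompactSpace.uniformContinuous_of_continuous hp) (ε / 4) (by positivity)
  obtain ⟨δ5, hδ5, hext⟩ := close_ext_set.{0} (X := (univ : Set F)) isCompact_univ hFu
    (ε := min η3 η4) (by positivity)
  obtain ⟨η6, hη6, hη6r⟩ := Metric.uniformContinuous_iff.1
    (CompactSpace.uniformContinuous_of_continuous hretc) δ5 hδ5
  obtain ⟨g, hg, hLg, hgu, hgW⟩ := hAtt (min e3 η6) (by positivity)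
  have hw1 : L k (fun x => ret (g x)) univ univ (r / 4 + r / 4) :=
    hcompR (A := univ) (g := g) hg (hLg.mono (min_le_left _ _))
  have hw1c : IsMap (fun x => ret (g x)) univ univ :=
    ⟨hretc.comp_continuousOn hg.cont, fun _ _ => mem_univ _⟩
  obtain ⟨w, hw, hwW, hwd⟩ := hext M univ W isCompact_univ hMd hW.isClosed (subset_univ _)
    (fun x => ret (g x)) w0 hw1c ⟨hw0, fun _ _ => mem_univ _⟩ (by
      intro x hx
      have h1 := hη6r ((hgW x hx).trans_le (min_le_right _ _))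
      rw [hretM, hφW hx, dist_comm] at h1
      exact h1)
  refine ⟨w, continuousOn_univ.1 hw.cont, ?_, ?_, hwW⟩
  · have h1 := hpertF (A := univ) (g := fun x => ret (g x)) (g' := w) hw1c hw1
      fun x hx => (hwd x hx).trans_le (min_le_left _ _)
    exact h1.mono (by linarith)
  · intro x
    have h1 := hη4p ((hwd x (mem_univ _)).trans_le (min_le_right _ _))
    have h2 := hgu x
    have h3 := dist_triangle (p (w x)) (p (ret (g x))) (u x)
    have h4 : dist (p (ret (g x))) (u x) < ε / 4 + ε / 4 := h2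
    linarith

end MG.Tr
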