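import Pool.Agent.Work.MP_017613_gt.TrTrade
import Pool.Agent.Work.MP_017613_gt.TrRuv0
import Pool.Agent.Work.MP_017613_gt.TrRet
import Pool.Agent.Work.MP_017613_gt.TrS
import Pool.Agent.Work.MP_017613_gt.TrAbs
import Pool.Agent.Work.MP_017613_gt.TrMove
import Pool.Agent.Work.MP_017613_gt.TrCyl
import Pool.Agent.Work.MP_017613_gt.TrGp
import Pool.Agent.Work.MP_017613_gt.TrLemR
import Pool.Agent.Work.MP_017613_gt.TrDim
import Pool.Agent.Work.MP_017613_gt.TrV0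
import Pool.Agent.Work.MP_017613_gt.TrBlock
import Pool.Agent.Work.MP_017613_gt.TrSlide
import Pool.Agent.Work.MP_017613_gt.TrLpc
import Pool.Agent.Work.MP_017613_gt.TrExc
import Pool.Agent.Work.MP_017613_gt.TrAbs2
import Pool.Agent.Work.MP_017613_gt.AbsSkel

/-!
# S_APPROX, final assembly (helper27)
-/

open Set Metric Topology

namespace MG.Tr

open Pool.Agent.Work.MP_017613_gt (ZS ZD PushOff)

theorem ka_eq {α ι : Type*} {k n m : ℕ} {K : Set α} {χ : ι → (Fin n → ℝ) → α} :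
    Abs2.KA k m K χ = K ∪ ⋃ i, χ i '' skC n k m := by
  unfold Abs2.KA
  congr 1
  ext v
  simp only [skC, mem_ofPred_eq, mem_iUnion, mem_image]
  constructor
  · rintro ⟨a, x, hx, t, h0, h1, rfl⟩
    exact ⟨a, _, ⟨x, hx, t, h0, h1, rfl⟩, rfl⟩
  · rintro ⟨a, _, ⟨x, hx, t, h0, h1, rfl⟩, rfl⟩
    exact ⟨a, x, hx, t, h0, h1, rfl⟩

theorem j_abs2 : J_ABS2 := by
  refine j_abs2_of fun k M _ _ hk hM => ?_
  obtain ⟨hU, hP, hD⟩ := hM
  intro V _ _ K K1 p χ hK hKu hF m hm ε hε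
  rw [ka_eq]
  exact absorb_skel hk (by omega) hm hU hP hD.zd hK.isCompact hKu hF hε

theorem j_trade_all : J_TRADE :=
  j_trade j_block j_ruvret j_slideblk j_ruvmove j_abs j_abs2 j_slide j_slidecell j_ulcblk

/-- **S_APPROX.** -/
theorem j_s_all : J_S :=
  j_s j_lpc j_lemr j_GP j_V0 j_DIM j_trade_all (j_ruv0 j_ckcyl j_exc j_ruvshrink)
    (j_retl j_lpc j_slide)

end MG.Tr
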