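import Pool.Agent.Work.MP_017613_gt.Inst
import Pool.Agent.Work.MP_017613_gt.Small3
import Pool.Agent.Work.MP_017613_gt.TrBridge
import Pool.Agent.Work.MP_017613_gt.TrFinal
import Pool.Agent.Work.MP_017613_gt.TopCW

/-!
# The main theorem (problem 017613)
-/

set_option autoImplicit false

open Set Topology Metric
open Pool.Agent.Work.MP_017613_gt
open Pool.Agent.Work.MP_017613_gt.Swindle (SuppIn)

namespace MG

/-- **The main theorem.** -/
theorem main : MainStatement :=
  main_of_core (fun _ _ => TrB.trelP_rnd Tr.j_s_all (by omega))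
    (fun _ _ => TrB.srelP Tr.j_s_all (by omega))
    fun n _ M _ _ _ hM => Small3.small
      (pre_of (TrB.trelP_rnd Tr.j_s_all (by omega)) (TrB.srelP Tr.j_s_all (by omega)))
      (TrB.trelT Tr.j_s_all (by omega)) (men_of_manifold hM)

/-- a manifold has arbitrarily small non-trivial homeomorphisms -/
theorem exists_small {k : ℕ} (hk : 1 ≤ k) {M : Type} [MetricSpace M] [CompactSpace M]
    [Nonempty M] (hM : IsMuManifold k M) {δ : ℝ} (hδ : 0 < δ) :
    ∃ h : M ≃ₜ M, h ≠ 1 ∧ ∀ x, dist (h x) x < δ := by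
  obtain ⟨x₀⟩ := (inferInstance : Nonempty M)
  obtain ⟨φ, D, p, h1, S, ⟨x, hx⟩, h3, -⟩ := exists_swin_open
    (tpt_of (TrB.trelP_rnd Tr.j_s_all hk)) le_rfl hM (isOpen_ball (x := x₀) (ε := δ / 2))
    ⟨x₀, mem_ball_self (half_pos hδ)⟩
  refine ⟨φ, fun h0 => ?_, fun y => ?_⟩
  · have hxD : x ∈ D := interior_subset hx
    have h2 : (φ ^ 0)⁻¹ x ∈ D := by simpa using hxD
    have h3 : (φ ^ 1)⁻¹ x ∈ D := by rw [h0]; simpa using hxD
    have := S.disj _ _ _ h2 h3
    omega
  · by_cases hy : φ y = y
    · rw [hy, dist_self]; exact hδ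
    · have hyO : y ∈ ball x₀ (δ / 2) := by
        by_contra h
        exact hy (h1 y h)
      have hφO : φ y ∈ ball x₀ (δ / 2) := by
        by_contra h
        exact hy (φ.injective (h1 _ h))
      have e1 := mem_ball.1 hyO
      have e2 := mem_ball.1 hφO
      have e3 := dist_triangle_right (φ y) y x₀
      linarith

/-- For compact connected manifolds the group `Auth₀` defined by compact polyhedra agrees with the
group defined by all CW complexes of dimension at most `n`. -/
theorem auth0CW_eq.{u} {n : ℕ} (hn : 1 ≤ n) (M : Type) [TopologicalSpace M] [CompactSpace M]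
    [TopologicalSpace.MetrizableSpace M] [ConnectedSpace M] (hM : IsMuManifold (n + 1) M) :
    Auth0CW.{u} n M = Auth0 n M := by
  obtain ⟨-, -, hmin, -⟩ := main n hn M hM
  let _ : MetricSpace M := TopologicalSpace.metrizableSpaceMetric M
  exact (cw_of_min.{u} (men_of_rnd (men_of_manifold hM)).2.2.1 hmin
    fun δ hδ => exists_small (by omega) hM hδ).1

end MG
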