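import Pool.Agent.Work.MP_017613_gt.Top
import Pool.Agent.Work.MP_017613_gt.Literal

/-!
# Menger manifolds with the literal definition of the Menger compactum
-/

set_option autoImplicit false

open Set Topology

namespace MG

/-- `M` is a `μ^k`-manifold: every point has an open neighbourhood which is homeomorphic to an
open subset of the universal `k`-dimensional Menger compactum `menger k (2 * k + 1)`. -/
def IsMengerManifold (k : ℕ) (M : Type) [TopologicalSpace M] : Prop :=
  ∀ x : M, ∃ U : Set M, IsOpen U ∧ x ∈ U ∧
    ∃ V : Set (menger k (2 * k + 1) : Set (Fin (2 * k + 1) → ℝ)), IsOpen V ∧ Nonempty (U ≃ₜ V)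

theorem isMengerManifold_iff {k : ℕ} {M : Type} [TopologicalSpace M] :
    IsMengerManifold k M ↔ IsMuManifold k M := by
  unfold IsMengerManifold IsMuManifold
  rw [menger_eq_mu]

/-- The universal Menger compactum is a `μ^k`-manifold. -/
theorem isMengerManifold_menger (k : ℕ) :
    IsMengerManifold k (menger k (2 * k + 1) : Set (Fin (2 * k + 1) → ℝ)) := fun _ =>
  ⟨univ, isOpen_univ, mem_univ _, univ, isOpen_univ, ⟨Homeomorph.refl _⟩⟩

end MG
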