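import Pool.Agent.Work.MP_017613_gt.ChartsP
import Pool.Agent.Work.MP_017613_gt.ChiT
import Pool.Agent.Work.MP_017613_gt.TrLemR
import Pool.Agent.Work.MP_017613_gt.TrDim
import Pool.Agent.Work.MP_017613_gt.TheoryOf

/-!
# The basic properties of compact Menger spaces, from `J_S`

`Rnd.pre`: the structure `Rnd.Pre k` (`T_REL`, `S_REL`, collars, existence), for `k ≥ 1`.
-/

set_option linter.unusedSectionVars false

open Set Topology Metric

namespace Pool.Agent.Work.MP_017613_gt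

namespace TopPre

open MG (IsMap)

/-- finite complexes -/
def Cx (k : ℕ) (R : Type) [MetricSpace R] [CompactSpace R] : Prop := MG.TP k ∅ (univ : Set R)

theorem ulc_empty (k : ℕ) {α : Type} [MetricSpace α] : MG.ULC k (∅ : Set α) :=
  fun _ _ => ⟨1, one_pos, fun _ _ y hy => hy.elim⟩

theorem pushOff_empty (k : ℕ) {α : Type} [MetricSpace α] : PushOff k (∅ : Set α) := by
  intro f hf ε hε
  exact ⟨f, hf, fun x hx => hx.elim, fun x hx => hx.elim⟩

theorem Cx.ulc {k : ℕ} {R : Type} [MetricSpace R] [CompactSpace R] (h : Cx k R) :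
    MG.ULC k (univ : Set R) :=
  (MG.Tr.j_DIM k R ∅ univ h (pushOff_empty k) (ulc_empty k)).2

/-- the approximation property of `ULC k` spaces -/
theorem exists_sp {k : ℕ} (hk : 1 ≤ k) (hS : MG.Tr.J_S) (X : Type) [MetricSpace X] [CompactSpace X]
    (uX : MG.ULC k (univ : Set X)) (ε : ℝ) (hε : 0 < ε) : ∃ d, TR.SP k (Men k) (Cx k) X ε d := by
  classical
  obtain ⟨d, hd, H⟩ := hS k X hk uX ε hε
  refine ⟨d, hd, ?_⟩
  intro M F _ _ _ _ hM hF u p hu hp W hW w₀ hw₀ r hr
  rcases isEmpty_or_nonempty M with eM | nM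
  · have eX : IsEmpty X := ⟨fun y => by
      obtain ⟨x, -⟩ := hu.dense y
      exact eM.false x⟩
    have eF : IsEmpty F := ⟨fun y => eX.false (p y)⟩
    refine ⟨⟨fun x => (eM.false x).elim, continuous_of_const fun x => (eM.false x).elim⟩, ?_,
      fun x => (eM.false x).elim, fun x => (eM.false x.1).elim⟩
    intro j _ f
    exact (eF.false (f fun _ => 0)).elim
  · obtain ⟨m⟩ := nM
    obtain ⟨y, -⟩ := hp.dense (u m)
    obtain ⟨w, h1, h2, h3, h4⟩ := H M F u p W (MG.extS W w₀ fun _ => y)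
      ⟨hM.2.1, hM.1, hM.2.2.dd⟩ hF u.continuous p.continuous (ChiT.L_of_lft' hu)
      (ChiT.L_of_lft' hp) hW (MG.extS_cont w₀.continuous _) (fun x hx => by
        rw [MG.extS_eq _ _ hx]
        exact hw₀ ⟨x, hx⟩) r hr
    have : Nonempty M := ⟨m⟩
    refine ⟨⟨w, h1⟩, ChiT.lft_of_L' h2, h3, fun x => ?_⟩
    exact (h4 x.2).trans (MG.extS_eq _ _ x.2)

/-- fine complexes -/
theorem exists_fine {k : ℕ} (M : Type) [MetricSpace M] [CompactSpace M]
    (uM : MG.ULC k (univ : Set M)) (e : ℝ) (he : 0 < e) :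
    ∃ (R : Type) (_ : MetricSpace R) (_ : CompactSpace R), Cx k R ∧
      ∃ s : C(R, M), TR.Lft k s e := by
  have cE : CompactSpace (∅ : Set ℝ) := isCompact_iff_compactSpace.1 isCompact_empty
  have uE : MG.ULC k (univ : Set (∅ : Set ℝ)) := fun _ _ => ⟨1, one_pos, fun _ _ y => y.2.elim⟩
  obtain ⟨R, mR, cR, i, s, h1, h2, h3, h4, -, h6, h7⟩ := MG.LR.lemR' (k := k) (M := M)
    (L0 := (∅ : Set ℝ)) (σ := fun x => x.2.elim) uM uE (continuous_of_const fun x => x.2.elim) he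
  have hi : range i = ∅ := range_eq_empty i
  rw [hi] at h4
  refine ⟨R, mR, cR, h4, ⟨s, h2⟩, ?_⟩
  rcases isEmpty_or_nonempty R with eR | nR
  · intro j _ f
    have : IsEmpty M := ⟨fun x => (h7 ⟨x⟩).elim fun y => eR.false y⟩
    exact (this.false (f fun _ => 0)).elim
  · exact ChiT.lft_of_L' h6

end TopPre

namespace Rnd

/-- **The basic properties of compact Menger spaces.** -/
theorem pre (hS : MG.Tr.J_S) {k : ℕ} (hk : 1 ≤ k) : Pre k where
  trel β _ X cX aX ε hε := by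
    obtain ⟨δ, hδ, h⟩ := ChiT.trel_field (Cx := TopPre.Cx k) (fun R _ _ hR => hR.ulc)
      (fun X _ _ uX ε hε => TopPre.exists_sp hk hS X uX ε hε)
      (fun M _ _ uM e he => TopPre.exists_fine M uM e he) β X cX aX ε hε
    exact ⟨δ, hδ, fun N N' _ _ _ _ mN mN' => h N N' mN.ne mN'.ne (rnd_men_iff.1 mN).2
      (rnd_men_iff.1 mN').2⟩
  srel β β' _ _ X B cX cB aX aB ε hε := by
    obtain ⟨δ, hδ, h⟩ := ChiT.srel_field (Cx := TopPre.Cx k)
      (fun X _ _ uX ε hε => TopPre.exists_sp hk hS X uX ε hε)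
      (fun M _ _ uM e he => TopPre.exists_fine M uM e he) β β' X B cX cB aX aB ε hε
    exact ⟨δ, hδ, fun p hp N _ _ mN => h p hp N (rnd_men_iff.1 mN).2⟩
  collar M _ _ mM := by
    obtain ⟨i, r, h⟩ := ChiT.collar_field (Cx := TopPre.Cx k)
      (fun X _ _ uX ε hε => TopPre.exists_sp hk hS X uX ε hε)
      (fun M _ _ uM e he => TopPre.exists_fine M uM e he) M mM.ne (rnd_men_iff.1 mM).2
    exact ⟨M, inferInstance, inferInstance, i, r, mM, h⟩
  mu := ⟨MG.mu k (2 * k + 1), inferInstance, inferInstance, men_mu le_rfl, aek_mu _ _⟩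

end Rnd

end Pool.Agent.Work.MP_017613_gt
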