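import Pool.Agent.Work.MP_017613_gt.Skel24

/-!
# The double mapping cylinder: gluing, level function, slides (helper27)
-/

set_option linter.unusedSectionVars false

open Set Metric Topology

namespace MG.Tr

section

variable {M F R V Y : Type} [MetricSpace M] [MetricSpace F] [MetricSpace R] [MetricSpace V]
  [CompactSpace M] [CompactSpace F] [CompactSpace R]
  [TopologicalSpace Y]
  {s : R → M} {w : R → F} {iM : M → V} {iF : F → V} {cyl : R × ℝ → V}

/-- the part `cyl (R × [a, b])` -/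
def cy (cyl : R × ℝ → V) (a b : ℝ) : Set V := {v | ∃ r, ∃ t ∈ Icc a b, cyl (r, t) = v}

omit [MetricSpace R] [MetricSpace V] [CompactSpace R] in
lemma cy_eq (cyl : R × ℝ → V) (a b : ℝ) : cy cyl a b = cyl '' (univ ×ˢ Icc a b) := by
  ext v
  constructor
  · rintro ⟨r, t, ht, rfl⟩
    exact ⟨(r, t), ⟨mem_univ _, ht⟩, rfl⟩
  · rintro ⟨⟨r, t⟩, ⟨-, ht⟩, rfl⟩
    exact ⟨r, t, ht, rfl⟩

omit [MetricSpace R] [MetricSpace V] [CompactSpace R] in
lemma mem_cy {cyl : R × ℝ → V} {a b : ℝ} (r : R) {t : ℝ} (h1 : a ≤ t) (h2 : t ≤ b) :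
    cyl (r, t) ∈ cy cyl a b := ⟨r, t, ⟨h1, h2⟩, rfl⟩

omit [MetricSpace R] [MetricSpace V] [CompactSpace R] in
lemma cy_mono {cyl : R × ℝ → V} {a b a' b' : ℝ} (h1 : a' ≤ a) (h2 : b ≤ b') :
    cy cyl a b ⊆ cy cyl a' b' := by
  rintro v ⟨r, t, ht, rfl⟩
  exact ⟨r, t, ⟨h1.trans ht.1, ht.2.trans h2⟩, rfl⟩

lemma DMC.isClosed_cy (h : DMC s w iM iF cyl) {a b : ℝ} (ha : 0 ≤ a) (hb : b ≤ 1) :
    IsClosed (cy cyl a b) := by
  rw [cy_eq]
  exact ((isCompact_univ.prod isCompact_Icc).image_of_continuousOn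
    (h.cont.mono (prod_mono le_rfl (Icc_subset_Icc ha hb)))).isClosed

omit [CompactSpace F] [CompactSpace R] in
lemma DMC.isClosed_M (h : DMC s w iM iF cyl) : IsClosed (range iM) :=
  (isCompact_range h.isoM.continuous).isClosed

omit [CompactSpace M] [CompactSpace R] in
lemma DMC.isClosed_F (h : DMC s w iM iF cyl) : IsClosed (range iF) :=
  (isCompact_range h.isoF.continuous).isClosed

omit [CompactSpace M] [CompactSpace F] [CompactSpace R] in
lemma DMC.cyl_not_M (h : DMC s w iM iF cyl) {r : R} {t : ℝ} (h0 : 0 < t) (h1 : t ≤ 1) :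
    cyl (r, t) ∉ range iM := by
  intro hm
  rcases h1.lt_or_eq with h1 | rfl
  · exact h.off r t h0 h1 (Or.inl hm)
  · rw [h.one] at hm
    exact disjoint_left.1 h.disj hm ⟨w r, rfl⟩

omit [CompactSpace M] [CompactSpace F] [CompactSpace R] in
lemma DMC.cyl_not_F (h : DMC s w iM iF cyl) {r : R} {t : ℝ} (h0 : 0 ≤ t) (h1 : t < 1) :
    cyl (r, t) ∉ range iF := by
  intro hm
  rcases h0.lt_or_eq with h0 | rfl
  · exact h.off r t h0 h1 (Or.inr hm)
  · rw [h.zero] at hm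
    exact disjoint_left.1 h.disj ⟨s r, rfl⟩ hm

omit [CompactSpace M] [CompactSpace F] [CompactSpace R] in
/-- equality of two points of the cylinder -/
lemma DMC.cyl_eq (h : DMC s w iM iF cyl) {r r' : R} {t t' : ℝ} (ht : t ∈ Icc (0:ℝ) 1)
    (ht' : t' ∈ Icc (0:ℝ) 1) (e : cyl (r, t) = cyl (r', t')) :
    t = t' ∧ (0 < t → t < 1 → r = r') ∧ (t = 0 → s r = s r') ∧ (t = 1 → w r = w r') := by
  rcases ht.1.lt_or_eq with h0 | rfl
  · rcases ht.2.lt_or_eq with h1 | rfl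
    · -- interior
      have h0' : 0 < t' := by
        rcases ht'.1.lt_or_eq with h0' | rfl
        · exact h0'
        · exact absurd (e.trans (h.zero r') ▸ ⟨s r', rfl⟩ : cyl (r, t) ∈ range iM)
            (h.cyl_not_M h0 h1.le)
      have h1' : t' < 1 := by
        rcases ht'.2.lt_or_eq with h1' | rfl
        · exact h1'
        · exact absurd (e.trans (h.one r') ▸ ⟨w r', rfl⟩ : cyl (r, t) ∈ range iF)
            (h.cyl_not_F h0.le h1)
      obtain ⟨e1, e2⟩ := h.inj r r' t t' h0 h1 h0' h1' e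
      exact ⟨e2, fun _ _ => e1, fun h => absurd h h0.ne', fun h => absurd h h1.ne⟩
    · -- t = 1
      have h1' : t' = 1 := by
        by_contra hne
        have : t' < 1 := lt_of_le_of_ne ht'.2 hne
        exact h.cyl_not_F ht'.1 this (by rw [← e, h.one]; exact ⟨_, rfl⟩)
      subst h1'
      rw [h.one, h.one] at e
      exact ⟨rfl, fun _ hl => absurd hl (lt_irrefl _), fun h => absurd h one_ne_zero,
        fun _ => h.isoF.injective e⟩
  · have h0' : t' = 0 := by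
      by_contra hne
      have : 0 < t' := lt_of_le_of_ne ht'.1 (Ne.symm hne)
      exact h.cyl_not_M this ht'.2 (by rw [← e, h.zero]; exact ⟨_, rfl⟩)
    subst h0'
    rw [h.zero, h.zero] at e
    exact ⟨rfl, fun hl _ => absurd hl (lt_irrefl _), fun _ => h.isoM.injective e,
      fun h => absurd h.symm one_ne_zero⟩

/-- gluing on the whole double mapping cylinder -/
theorem DMC.glue [Nonempty Y] (h : DMC s w iM iF cyl) {fM : M → Y} {fF : F → Y} {fC : R × ℝ → Y}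
    (hM : Continuous fM) (hF : Continuous fF) (hC : ContinuousOn fC (univ ×ˢ Icc (0:ℝ) 1))
    (h0 : ∀ r, fC (r, 0) = fM (s r)) (h1 : ∀ r, fC (r, 1) = fF (w r)) :
    ∃ f : V → Y, Continuous f ∧ (∀ x, f (iM x) = fM x) ∧ (∀ y, f (iF y) = fF y) ∧
      ∀ r, ∀ t ∈ Icc (0:ℝ) 1, f (cyl (r, t)) = fC (r, t) := by
  classical
  let f : V → Y := fun v => if hm : ∃ x, iM x = v then fM hm.choose else
    if hf : ∃ y, iF y = v then fF hf.choose else
    if hc : ∃ p : R × ℝ, p.2 ∈ Icc (0:ℝ) 1 ∧ cyl p = v then fC hc.choose else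
      Classical.arbitrary Y
  have e1 : ∀ x, f (iM x) = fM x := by
    intro x
    have hm : ∃ x', iM x' = iM x := ⟨x, rfl⟩
    simp only [f, dif_pos hm]
    rw [h.isoM.injective hm.choose_spec]
  have e2 : ∀ y, f (iF y) = fF y := by
    intro y
    have hm : ¬ ∃ x, iM x = iF y := fun ⟨x, hx⟩ =>
      disjoint_left.1 h.disj ⟨x, rfl⟩ (by rw [hx]; exact ⟨y, rfl⟩)
    have hf : ∃ y', iF y' = iF y := ⟨y, rfl⟩
    simp only [f, dif_neg hm, dif_pos hf]
    rw [h.isoF.injective hf.choose_spec]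
  have e3 : ∀ r, ∀ t ∈ Icc (0:ℝ) 1, f (cyl (r, t)) = fC (r, t) := by
    intro r t ht
    rcases ht.1.lt_or_eq with h0t | rfl
    · rcases ht.2.lt_or_eq with h1t | rfl
      · have hm : ¬ ∃ x, iM x = cyl (r, t) := fun ⟨x, hx⟩ => h.cyl_not_M h0t ht.2 ⟨x, hx⟩
        have hf : ¬ ∃ y, iF y = cyl (r, t) := fun ⟨x, hx⟩ => h.cyl_not_F ht.1 h1t ⟨x, hx⟩
        have hc : ∃ p : R × ℝ, p.2 ∈ Icc (0:ℝ) 1 ∧ cyl p = cyl (r, t) := ⟨(r, t), ht, rfl⟩
        simp only [f, dif_neg hm, dif_neg hf, dif_pos hc]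
        obtain ⟨hc1, hc2⟩ := hc.choose_spec
        obtain ⟨q1, q2, -, -⟩ := h.cyl_eq ht hc1 hc2.symm
        exact congrArg fC (Prod.ext (q2 h0t h1t).symm q1.symm)
      · rw [h.one, e2, h1]
    · rw [h.zero, e1, h0]
  refine ⟨f, ?_, e1, e2, e3⟩
  have hcov : (univ : Set V) = range iM ∪ (range iF ∪ cy cyl 0 1) := by
    refine (eq_univ_of_forall fun v => ?_).symm
    rcases h.cover v with hv | hv | ⟨r, t, ht, rfl⟩
    · exact Or.inl hv
    · exact Or.inr (Or.inl hv)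
    · exact Or.inr (Or.inr ⟨r, t, ht, rfl⟩)
  rw [← continuousOn_univ, hcov]
  have c1 : ContinuousOn f (range iM) := by
    rw [← image_univ]
    refine continuousOn_image_of_compact isCompact_univ h.isoM.continuous.continuousOn ?_
    exact (hM.continuousOn (s := univ)).congr fun x _ => e1 x
  have c2 : ContinuousOn f (range iF) := by
    rw [← image_univ]
    refine continuousOn_image_of_compact isCompact_univ h.isoF.continuous.continuousOn ?_
    exact (hF.continuousOn (s := univ)).congr fun x _ => e2 x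
  have c3 : ContinuousOn f (cy cyl 0 1) := by
    rw [cy_eq]
    refine continuousOn_image_of_compact (isCompact_univ.prod isCompact_Icc) h.cont ?_
    exact hC.congr fun p hp => e3 p.1 p.2 hp.2
  exact c1.union_of_isClosed (c2.union_of_isClosed c3 h.isClosed_F
    (h.isClosed_cy le_rfl le_rfl)) h.isClosed_M (h.isClosed_F.union (h.isClosed_cy le_rfl le_rfl))

/-- the level function -/
theorem DMC.level (h : DMC s w iM iF cyl) : ∃ τ : V → ℝ, Continuous τ ∧ (∀ x, τ (iM x) = 0) ∧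
    (∀ y, τ (iF y) = 1) ∧ ∀ r, ∀ t ∈ Icc (0:ℝ) 1, τ (cyl (r, t)) = t :=
  h.glue (fM := fun _ => 0) (fF := fun _ => 1) (fC := fun p => p.2) continuous_const
    continuous_const continuous_snd.continuousOn (fun _ => rfl) fun _ => rfl

/-- gluing on the upper part `cyl (R × [a, 1]) ∪ F` -/
theorem DMC.glueUp [Nonempty Y] (h : DMC s w iM iF cyl) {a : ℝ} (ha : a ∈ Icc (0:ℝ) 1)
    (ha' : 0 < a ∨ Function.Injective s) {fF : F → Y} {fC : R × ℝ → Y}
    (hF : Continuous fF) (hC : ContinuousOn fC (univ ×ˢ Icc a 1)) (h1 : ∀ r, fC (r, 1) = fF (w r)) :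
    ∃ f : V → Y, ContinuousOn f (cy cyl a 1 ∪ range iF) ∧ (∀ y, f (iF y) = fF y) ∧
      ∀ r, ∀ t ∈ Icc a 1, f (cyl (r, t)) = fC (r, t) := by
  classical
  let f : V → Y := fun v =>
    if hf : ∃ y, iF y = v then fF hf.choose else
    if hc : ∃ p : R × ℝ, p.2 ∈ Icc a 1 ∧ cyl p = v then fC hc.choose else
      Classical.arbitrary Y
  have e2 : ∀ y, f (iF y) = fF y := by
    intro y
    have hf : ∃ y', iF y' = iF y := ⟨y, rfl⟩
    simp only [f, dif_pos hf]
    rw [h.isoF.injective hf.choose_spec]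
  have e3 : ∀ r, ∀ t ∈ Icc a 1, f (cyl (r, t)) = fC (r, t) := by
    intro r t ht
    have ht0 : t ∈ Icc (0:ℝ) 1 := ⟨ha.1.trans ht.1, ht.2⟩
    rcases ht.2.lt_or_eq with h1t | rfl
    · have hf : ¬ ∃ y, iF y = cyl (r, t) := fun ⟨x, hx⟩ => h.cyl_not_F ht0.1 h1t ⟨x, hx⟩
      have hc : ∃ p : R × ℝ, p.2 ∈ Icc a 1 ∧ cyl p = cyl (r, t) := ⟨(r, t), ht, rfl⟩
      simp only [f, dif_neg hf, dif_pos hc]
      obtain ⟨hc1, hc2⟩ := hc.choose_spec
      obtain ⟨q1, q2, q3, -⟩ := h.cyl_eq ht0 ⟨ha.1.trans hc1.1, hc1.2⟩ hc2.symm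
      have q4 : r = hc.choose.1 := by
        rcases ht0.1.lt_or_eq with h0t | h0t
        · exact q2 h0t h1t
        · rcases ha' with ha' | ha'
          · exact absurd (ha'.trans_le ht.1) (by rw [← h0t]; exact lt_irrefl _)
          · exact ha' (q3 h0t.symm)
      exact congrArg fC (Prod.ext q4.symm q1.symm)
    · rw [h.one, e2, h1]
  refine ⟨f, ?_, e2, e3⟩
  have c2 : ContinuousOn f (range iF) := by
    rw [← image_univ]
    refine continuousOn_image_of_compact isCompact_univ h.isoF.continuous.continuousOn ?_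
    exact (hF.continuousOn (s := univ)).congr fun x _ => e2 x
  have c3 : ContinuousOn f (cy cyl a 1) := by
    rw [cy_eq]
    refine continuousOn_image_of_compact (isCompact_univ.prod isCompact_Icc)
      (h.cont.mono (prod_mono le_rfl (Icc_subset_Icc ha.1 le_rfl))) ?_
    exact hC.congr fun p hp => e3 p.1 p.2 hp.2
  exact c3.union_of_isClosed c2 (h.isClosed_cy ha.1 le_rfl) h.isClosed_F

/-- gluing on the lower part `M ∪ cyl (R × [0, a])` -/
theorem DMC.glueLow [Nonempty Y] (h : DMC s w iM iF cyl) {a : ℝ} (ha : a ∈ Icc (0:ℝ) 1)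
    (ha' : a < 1 ∨ Function.Injective w) {fM : M → Y} {fC : R × ℝ → Y}
    (hM : Continuous fM) (hC : ContinuousOn fC (univ ×ˢ Icc 0 a)) (h0 : ∀ r, fC (r, 0) = fM (s r)) :
    ∃ f : V → Y, ContinuousOn f (range iM ∪ cy cyl 0 a) ∧ (∀ y, f (iM y) = fM y) ∧
      ∀ r, ∀ t ∈ Icc 0 a, f (cyl (r, t)) = fC (r, t) := by
  classical
  let f : V → Y := fun v =>
    if hf : ∃ y, iM y = v then fM hf.choose else
    if hc : ∃ p : R × ℝ, p.2 ∈ Icc 0 a ∧ cyl p = v then fC hc.choose else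
      Classical.arbitrary Y
  have e2 : ∀ y, f (iM y) = fM y := by
    intro y
    have hf : ∃ y', iM y' = iM y := ⟨y, rfl⟩
    simp only [f, dif_pos hf]
    rw [h.isoM.injective hf.choose_spec]
  have e3 : ∀ r, ∀ t ∈ Icc 0 a, f (cyl (r, t)) = fC (r, t) := by
    intro r t ht
    have ht0 : t ∈ Icc (0:ℝ) 1 := ⟨ht.1, ht.2.trans ha.2⟩
    rcases ht.1.lt_or_eq with h0t | rfl
    · have hf : ¬ ∃ y, iM y = cyl (r, t) := fun ⟨x, hx⟩ => h.cyl_not_M h0t ht0.2 ⟨x, hx⟩
      have hc : ∃ p : R × ℝ, p.2 ∈ Icc 0 a ∧ cyl p = cyl (r, t) := ⟨(r, t), ht, rfl⟩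
      simp only [f, dif_neg hf, dif_pos hc]
      obtain ⟨hc1, hc2⟩ := hc.choose_spec
      obtain ⟨q1, q2, -, q3⟩ := h.cyl_eq ht0 ⟨hc1.1, hc1.2.trans ha.2⟩ hc2.symm
      have q4 : r = hc.choose.1 := by
        rcases ht0.2.lt_or_eq with h1t | h1t
        · exact q2 h0t h1t
        · rcases ha' with ha' | ha'
          · exact absurd (ht.2.trans_lt ha') (by rw [← h1t]; exact lt_irrefl _)
          · exact ha' (q3 h1t)
      exact congrArg fC (Prod.ext q4.symm q1.symm)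
    · rw [h.zero, e2, h0]
  refine ⟨f, ?_, e2, e3⟩
  have c2 : ContinuousOn f (range iM) := by
    rw [← image_univ]
    refine continuousOn_image_of_compact isCompact_univ h.isoM.continuous.continuousOn ?_
    exact (hM.continuousOn (s := univ)).congr fun x _ => e2 x
  have c3 : ContinuousOn f (cy cyl 0 a) := by
    rw [cy_eq]
    refine continuousOn_image_of_compact (isCompact_univ.prod isCompact_Icc)
      (h.cont.mono (prod_mono le_rfl (Icc_subset_Icc le_rfl ha.2))) ?_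
    exact hC.congr fun p hp => e3 p.1 p.2 hp.2
  exact c2.union_of_isClosed c3 h.isClosed_M (h.isClosed_cy le_rfl ha.2)

/-- from a family of paths to a homotopy -/
lemma exists_of_paths {A : Set V} [Nonempty V] {f : V → C(Icc (0:ℝ) 1, V)}
    (hf : ContinuousOn f A) : ∃ S : V × ℝ → V, ContinuousOn S (A ×ˢ Icc (0:ℝ) 1) ∧
      ∀ v, ∀ u, ∀ hu : u ∈ Icc (0:ℝ) 1, S (v, u) = f v ⟨u, hu⟩ := by
  refine ⟨fun p => if hp : p.2 ∈ Icc (0:ℝ) 1 then f p.1 ⟨p.2, hp⟩ else Classical.arbitrary V,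
      ?_, ?_⟩
  · have h4 : ContinuousOn (fun p : V × ℝ => f p.1 (projIcc 0 1 zero_le_one p.2))
        (A ×ˢ Icc (0:ℝ) 1) := by
      have h5 : ContinuousOn (fun p : V × ℝ => ((f p.1 : C(Icc (0:ℝ) 1, V)),
          projIcc (0:ℝ) 1 zero_le_one p.2)) (A ×ˢ Icc (0:ℝ) 1) :=
        (hf.comp continuousOn_fst fun p hp => hp.1).prodMk
          (continuous_projIcc.comp continuous_snd).continuousOn
      exact (ContinuousEval.continuous_eval (F := C(Icc (0:ℝ) 1, V))).comp_continuousOn h5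
    refine h4.congr fun p hp => ?_
    simp only [dif_pos hp.2, projIcc_of_mem zero_le_one hp.2]
  · intro v u hu
    simp only [dif_pos hu]

/-- the slide of the upper part towards `F` -/
theorem DMC.slideUp (h : DMC s w iM iF cyl) [Nonempty V] {a : ℝ} (ha : a ∈ Icc (0:ℝ) 1)
    (ha' : 0 < a ∨ Function.Injective s) :
    ∃ S : V × ℝ → V, ContinuousOn S ((cy cyl a 1 ∪ range iF) ×ˢ Icc (0:ℝ) 1) ∧
      (∀ y, ∀ u ∈ Icc (0:ℝ) 1, S (iF y, u) = iF y) ∧
      ∀ r, ∀ t ∈ Icc a 1, ∀ u ∈ Icc (0:ℝ) 1, S (cyl (r, t), u) = cyl (r, t + u * (1 - t)) := by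
  have : Nonempty C(Icc (0:ℝ) 1, V) := ⟨ContinuousMap.const _ (Classical.arbitrary V)⟩
  have key : ∀ t ∈ Icc a 1, ∀ u ∈ Icc (0:ℝ) 1, t + u * (1 - t) ∈ Icc (0:ℝ) 1 := by
    intro t ht u hu
    have h1 := ht.1; have h2 := ht.2; have h3 := hu.1; have h4 := hu.2; have h5 := ha.1
    constructor <;> nlinarith
  let fC : R × ℝ → C(Icc (0:ℝ) 1, V) := fun p => if hp : p.2 ∈ Icc a 1 then
      ⟨fun u => cyl (p.1, p.2 + u * (1 - p.2)),
        h.cont.comp_continuous (by fun_prop) fun u => ⟨mem_univ _, key _ hp _ u.2⟩⟩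
      else ContinuousMap.const _ (Classical.arbitrary V)
  have hC : ContinuousOn fC (univ ×ˢ Icc a 1) := by
    have h6 : Continuous fun q : (R × Icc a 1) × Icc (0:ℝ) 1 =>
        cyl (q.1.1, (q.1.2 : ℝ) + q.2 * (1 - q.1.2)) :=
      h.cont.comp_continuous (by fun_prop) fun q => ⟨mem_univ _, key _ q.1.2.2 _ q.2.2⟩
    have h7 := (ContinuousMap.curry ⟨_, h6⟩).continuous
    rw [continuousOn_iff_continuous_domRestrict]
    have h8 : Continuous fun q : (univ ×ˢ Icc a 1 : Set (R × ℝ)) =>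
        ((q.1.1, ⟨q.1.2, q.2.2⟩) : R × Icc a 1) := by fun_prop
    refine (h7.comp h8).congr fun q => ?_
    have hq : q.1.2 ∈ Icc a 1 := q.2.2
    ext u
    simp only [Function.comp_apply, ContinuousMap.curry_apply, ContinuousMap.coe_mk,
      Set.domRestrict_apply, fC, dif_pos hq]
  have h1 : ∀ r, fC (r, 1) = ContinuousMap.const _ (iF (w r)) := by
    intro r
    have : (1:ℝ) ∈ Icc a 1 := ⟨ha.2, le_rfl⟩
    simp only [fC, dif_pos this]
    ext u
    simp [h.one]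
  have hF : Continuous fun y : F => (ContinuousMap.const (Icc (0:ℝ) 1) (iF y)) := by
    have : Continuous fun p : F × Icc (0:ℝ) 1 => iF p.1 := h.isoF.continuous.comp continuous_fst
    exact (ContinuousMap.curry ⟨_, this⟩).continuous
  obtain ⟨f, hf, h2, h3⟩ := h.glueUp ha ha' hF hC h1
  obtain ⟨S, hS, hS1⟩ := exists_of_paths hf
  refine ⟨S, hS, fun y u hu => ?_, fun r t ht u hu => ?_⟩
  · rw [hS1 _ _ hu, h2]; rfl
  · rw [hS1 _ _ hu, h3 r t ht]
    simp only [fC, dif_pos ht, ContinuousMap.coe_mk]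

/-- the slide of the lower part towards `M` -/
theorem DMC.slideLow (h : DMC s w iM iF cyl) [Nonempty V] {a : ℝ} (ha : a ∈ Icc (0:ℝ) 1)
    (ha' : a < 1 ∨ Function.Injective w) :
    ∃ S : V × ℝ → V, ContinuousOn S ((range iM ∪ cy cyl 0 a) ×ˢ Icc (0:ℝ) 1) ∧
      (∀ y, ∀ u ∈ Icc (0:ℝ) 1, S (iM y, u) = iM y) ∧
      ∀ r, ∀ t ∈ Icc 0 a, ∀ u ∈ Icc (0:ℝ) 1, S (cyl (r, t), u) = cyl (r, t * (1 - u)) := by
  have : Nonempty C(Icc (0:ℝ) 1, V) := ⟨ContinuousMap.const _ (Classical.arbitrary V)⟩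
  have key : ∀ t ∈ Icc 0 a, ∀ u ∈ Icc (0:ℝ) 1, t * (1 - u) ∈ Icc (0:ℝ) 1 := by
    intro t ht u hu
    have h1 := ht.1; have h2 := ht.2; have h3 := hu.1; have h4 := hu.2; have h5 := ha.2
    constructor <;> nlinarith
  let fC : R × ℝ → C(Icc (0:ℝ) 1, V) := fun p => if hp : p.2 ∈ Icc 0 a then
      ⟨fun u => cyl (p.1, p.2 * (1 - u)),
        h.cont.comp_continuous (by fun_prop) fun u => ⟨mem_univ _, key _ hp _ u.2⟩⟩
      else ContinuousMap.const _ (Classical.arbitrary V)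
  have hC : ContinuousOn fC (univ ×ˢ Icc 0 a) := by
    have h6 : Continuous fun q : (R × Icc 0 a) × Icc (0:ℝ) 1 =>
        cyl (q.1.1, (q.1.2 : ℝ) * (1 - q.2)) :=
      h.cont.comp_continuous (by fun_prop) fun q => ⟨mem_univ _, key _ q.1.2.2 _ q.2.2⟩
    have h7 := (ContinuousMap.curry ⟨_, h6⟩).continuous
    rw [continuousOn_iff_continuous_domRestrict]
    have h8 : Continuous fun q : (univ ×ˢ Icc 0 a : Set (R × ℝ)) =>
        ((q.1.1, ⟨q.1.2, q.2.2⟩) : R × Icc 0 a) := by fun_prop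
    refine (h7.comp h8).congr fun q => ?_
    have hq : q.1.2 ∈ Icc 0 a := q.2.2
    ext u
    simp only [Function.comp_apply, ContinuousMap.curry_apply, ContinuousMap.coe_mk,
      Set.domRestrict_apply, fC, dif_pos hq]
  have h1 : ∀ r, fC (r, 0) = ContinuousMap.const _ (iM (s r)) := by
    intro r
    have : (0:ℝ) ∈ Icc 0 a := ⟨le_rfl, ha.1⟩
    simp only [fC, dif_pos this]
    ext u
    simp [h.zero]
  have hF : Continuous fun y : M => (ContinuousMap.const (Icc (0:ℝ) 1) (iM y)) := by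
    have : Continuous fun p : M × Icc (0:ℝ) 1 => iM p.1 := h.isoM.continuous.comp continuous_fst
    exact (ContinuousMap.curry ⟨_, this⟩).continuous
  obtain ⟨f, hf, h2, h3⟩ := h.glueLow ha ha' hF hC h1
  obtain ⟨S, hS, hS1⟩ := exists_of_paths hf
  refine ⟨S, hS, fun y u hu => ?_, fun r t ht u hu => ?_⟩
  · rw [hS1 _ _ hu, h2]; rfl
  · rw [hS1 _ _ hu, h3 r t ht]
    simp only [fC, dif_pos ht, ContinuousMap.coe_mk]

end

end MG.Tr
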