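import Pool.Agent.Work.MP_017613_gt.Skel24

/-!
# TRADE: induction over the layers (joint `J_TRADE`)
-/

open Set Metric Topology

namespace MG.Tr

open Pool.Agent.Work.MP_017613_gt (ZS DD PushOff)

section Basic

variable {α X : Type} [MetricSpace α] [MetricSpace X]

theorem SLayer.mono {c : α → X} {t t' : ℝ} {d : ℕ} {K V : Set α} (h : SLayer c t d K V)
    (ht : t ≤ t') : SLayer c t' d K V := by
  obtain ⟨m, χ, h1, h2⟩ := h
  refine ⟨m, χ, h1, fun i => ?_⟩
  obtain ⟨y, hy⟩ := h2 i
  exact ⟨y, fun x hx => (hy x hx).trans_le ht⟩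

theorem SLayer.layer {c : α → X} {t : ℝ} {d : ℕ} {K V : Set α} (h : SLayer c t d K V) :
    Layer d K V := by
  obtain ⟨m, χ, h1, _⟩ := h
  exact ⟨m, χ, h1⟩

theorem Lays.mono {c : α → X} {t t' : ℝ} {ds : List ℕ} {K V : Set α} (h : Lays c t ds K V)
    (ht : t ≤ t') : Lays c t' ds K V := by
  induction ds generalizing K with
  | nil => exact h
  | cons d ds ih =>
    obtain ⟨K', h1, h2⟩ := h
    exact ⟨K', h1.mono ht, ih h2⟩

theorem RUV.weaken {k : ℕ} {c : α → X} {V K : Set α} {t t' s s' : ℝ} (h : RUV k c V K t t')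
    (hs : s ≤ t) (hs' : t' ≤ s') : RUV k c V K s s' := by
  intro j hj y f hf hb hd
  obtain ⟨H, h1, h2, h3, h4⟩ := h j hj y f hf hb fun x hx => (hd x hx).trans_le hs
  exact ⟨H, h1, h2, h3, fun x hx s hs => (h4 x hx s hs).trans_le hs'⟩

end Basic

section Iso

variable {V V1 : Type} [MetricSpace V] [MetricSpace V1] {ι : V → V1} {K : Set V}

/-- the inverse of an isometry is continuous on the image -/
lemma exists_inv (hι : Isometry ι) [Nonempty V] : ∃ κ : V1 → V, (∀ v, κ (ι v) = v) ∧
    IsMap κ (ι '' K) K := by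
  refine ⟨Function.invFun ι, Function.leftInverse_invFun hι.injective, ?_, ?_⟩
  · rw [Metric.continuousOn_iff]
    rintro _ ⟨v, hv, rfl⟩ ε hε
    refine ⟨ε, hε, ?_⟩
    rintro _ ⟨w, hw, rfl⟩ hd
    rw [Function.leftInverse_invFun hι.injective, Function.leftInverse_invFun hι.injective]
    rwa [hι.dist_eq] at hd
  · rintro _ ⟨v, hv, rfl⟩
    rw [Function.leftInverse_invFun hι.injective]
    exact hv

lemma isMap_iso (hι : Isometry ι) : IsMap ι K (ι '' K) :=
  ⟨hι.continuous.continuousOn, fun _ hx => mem_image_of_mem _ hx⟩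

theorem ulc_image (hι : Isometry ι) {k : ℕ} (h : ULC k K) : ULC k (ι '' K) := by
  intro ε hε
  obtain ⟨δ, hδ, hU⟩ := h ε hε
  refine ⟨δ, hδ, ?_⟩
  intro j hj y hy a ha hay
  obtain ⟨v, hv, rfl⟩ := hy
  have : Nonempty V := ⟨v⟩
  obtain ⟨κ, hκ, hκm⟩ := exists_inv (K := K) hι
  have hικ : ∀ z ∈ ι '' K, ι (κ z) = z := by
    rintro _ ⟨w, hw, rfl⟩
    rw [hκ]
  obtain ⟨F, h1, h2, h3⟩ := hU j hj v hv (fun x => κ (a x)) (hκm.comp ha) (fun x hx => by
    have := hay x hx
    show dist (κ (a x)) v < δ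
    rw [← hι.dist_eq, hικ _ (ha.maps hx)]
    exact this)
  refine ⟨fun x => ι (F x), (isMap_iso hι).comp h1, fun x hx => ?_, fun x hx => ?_⟩
  · show ι (F x) = a x
    rw [h2 hx, hικ _ (ha.maps hx)]
  · show dist (ι (F x)) (ι v) < ε
    rw [hι.dist_eq]
    exact h3 x hx

theorem l_image (hι : Isometry ι) {M : Type} [MetricSpace M] {k : ℕ} {g : M → V} {A : Set M}
    {δ : ℝ} (h : L k g A K δ) : L k (fun x => ι (g x)) A (ι '' K) δ := by
  intro j hj f f0 hf hf0 hc
  obtain ⟨x0, hx0⟩ := Cu_nonempty j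
  obtain ⟨v, hv, -⟩ := hf.maps hx0
  have : Nonempty V := ⟨v⟩
  obtain ⟨κ, hκ, hκm⟩ := exists_inv (K := K) hι
  have hικ : ∀ z ∈ ι '' K, ι (κ z) = z := by
    rintro _ ⟨w, hw, rfl⟩
    rw [hκ]
  obtain ⟨F, h1, h2, h3⟩ := h j hj (fun x => κ (f x)) f0 (hκm.comp hf) hf0 (fun x hx => by
    show g (f0 x) = κ (f x)
    rw [← hc x hx, hκ])
  refine ⟨F, h1, h2, fun x hx => ?_⟩
  have := h3 x hx
  show dist (ι (g (F x))) (f x) < δ
  rw [← hικ _ (hf.maps hx), hι.dist_eq]
  exact this

end Iso

section AttLemmas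

variable {k : ℕ} {M V X : Type} [MetricSpace M] [MetricSpace V] [CompactSpace V] [MetricSpace X]
  {u : M → X} {W : Set M} {i : M → V} {c : V → X}

omit [CompactSpace V] in
theorem Att.mono {K : Set V} {b b' : ℝ} (h : Att k u W i c K b) (hb : b ≤ b') :
    Att k u W i c K b' := by
  intro r hr
  obtain ⟨g, h1, h2, h3, h4⟩ := h r hr
  exact ⟨g, h1, h2, fun x => (h3 x).trans_le hb, h4⟩

/-- absorption of a family of small models -/
theorem Att.absorb {n : ℕ} {A : Set (Fin n → ℝ)} (hA : AbsAt k n A M) (hAn : A ⊆ Cu n)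
    {K K1 : Set V} {m : ℕ} {χ : Fin m → (Fin n → ℝ) → V} (hK : IsClosed K) (hU : ULC k K)
    (hF : Fam (Cu n) A K K1 χ) (hc : Continuous c) {t b : ℝ} (ht : 0 < t)
    (hs : ∀ i, ∃ y, ∀ x ∈ Cu n, dist (c (χ i x)) y < t) (hW : ZS W)
    (h : Att k u W i c K b) : Att k u W i c K1 (b + 3 * t) := by
  intro r hr
  have huc := CompactSpace.uniformContinuous_of_continuous hc
  rw [Metric.uniformContinuous_iff] at huc
  obtain ⟨ε1, hε1, hε1'⟩ := huc (t / 2) (by positivity)
  obtain ⟨δ, hδ, hδ'⟩ := hA V K K1 m χ hK hU hF (min (r / 2) ε1) (by positivity)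
  obtain ⟨g, hg, hgL, hgu, hgi⟩ := h (min δ (r / 2)) (by positivity)
  obtain ⟨g', hg', hgL', hgW', hgc'⟩ := hδ' g hg (hgL.mono (min_le_left _ _)) W hW
  refine ⟨g', hg', hgL'.mono ((min_le_left _ _).trans (by linarith)), fun x => ?_,
    fun x hx => ?_⟩
  · have h0 := hgu x
    rcases hgc' x with h1 | ⟨a, z, hz, z', hz', h1, h2⟩
    · have h3 := hε1' (h1.trans_le (min_le_right _ _))
      have h4 := dist_triangle (c (g' x)) (c (g x)) (u x)
      linarith
    · have h3 := hε1' (h1.trans_le (min_le_right _ _))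
      have h4 := hε1' (h2.trans_le (min_le_right _ _))
      obtain ⟨y, hy⟩ := hs a
      have h5 := hy z hz
      have h6 := hy z' (hAn hz')
      have h7 := dist_triangle (c (g' x)) (c (χ a z)) (u x)
      have h8 := dist_triangle (c (χ a z)) y (u x)
      have h9 := dist_triangle y (c (χ a z')) (u x)
      have h10 := dist_triangle (c (χ a z')) (c (g x)) (u x)
      rw [dist_comm y (c (χ a z'))] at h9
      rw [dist_comm (c (g x))] at h4
      linarith
  · have h1 := hgW' x hx
    have h2 := hgi x hx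
    have h3 := dist_triangle (g' x) (g x) (i x)
    have h4 := min_le_left (r / 2) ε1
    have h5 := min_le_right δ (r / 2)
    linarith

omit [CompactSpace V] in
theorem Att.iso {V1 : Type} [MetricSpace V1] {ι : V → V1} (hι : Isometry ι) {c1 : V1 → X}
    (hc1 : ∀ v, c1 (ι v) = c v) {K : Set V} {b : ℝ} (h : Att k u W i c K b) :
    Att k u W (fun x => ι (i x)) c1 (ι '' K) b := by
  intro r hr
  obtain ⟨g, h1, h2, h3, h4⟩ := h r hr
  refine ⟨fun x => ι (g x), (isMap_iso hι).comp h1, l_image hι h2, fun x => ?_, fun x hx => ?_⟩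
  · show dist (c1 (ι (g x))) (u x) < b
    rw [hc1]
    exact h3 x
  · show dist (ι (g x)) (ι (i x)) < r
    rw [hι.dist_eq]
    exact h4 x hx

omit [CompactSpace V] in
theorem Att.ret {V1 : Type} [MetricSpace V1] [CompactSpace V1] {ι : V → V1} {ret : V1 → V}
    (hr : Continuous ret) (hri : ∀ v, ret (ι v) = v)
    (hL : ∀ e > 0, L k ret (univ : Set V1) (univ : Set V) e) {b : ℝ}
    (h : Att k u W (fun x => ι (i x)) (fun v => c (ret v)) univ b) :
    Att k u W i c univ b := by
  intro r hr0
  obtain ⟨e, he, hcomp⟩ := L.comp'.{0} (isCompact_univ (X := V1))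
    (⟨hr.continuousOn, mapsTo_univ _ _⟩ : IsMap ret univ univ) (hL (r / 2) (by positivity))
    (ε := r / 2) (by positivity)
  have huc := CompactSpace.uniformContinuous_of_continuous hr
  rw [Metric.uniformContinuous_iff] at huc
  obtain ⟨ε1, hε1, hε1'⟩ := huc r hr0
  obtain ⟨g, h1, h2, h3, h4⟩ := h (min e ε1) (by positivity)
  refine ⟨fun x => ret (g x), ⟨(hr.comp_continuousOn h1.cont), mapsTo_univ _ _⟩, ?_, h3,
    fun x hx => ?_⟩
  · have := hcomp h1 (h2.mono (min_le_left _ _))
    exact this.mono (by linarith)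
  · have := hε1' ((h4 x hx).trans_le (min_le_right _ _))
    rwa [hri] at this

end AttLemmas

/-! ## Numbers -/

lemma wt_cons (k d : ℕ) (ds : List ℕ) : wt k (d :: ds) = (k + 3 - d) + wt k ds := by
  simp [wt]

lemma wt_snoc (k d : ℕ) (ds : List ℕ) : wt k (ds ++ [d]) = wt k ds + (k + 3 - d) := by
  simp [wt]

section Scales

variable {t : ℕ → ℝ} (h0 : 0 < t 0) (h4 : ∀ l, 4 * t l ≤ t (l + 1))

include h0 h4

lemma scale_pos (l : ℕ) : 0 < t l := by
  induction l with
  | zero => exact h0
  | succ l ih => have := h4 l; linarith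

lemma scale_mono : Monotone t := by
  refine monotone_nat_of_le_succ fun l => ?_
  have h1 := scale_pos h0 h4 l
  have h2 := h4 l
  linarith

end Scales

lemma pow_facts (n : ℕ) : 1 ≤ 8 ^ n ∧ 8 ^ (n + 1) = 8 * 8 ^ n :=
  ⟨Nat.one_le_pow _ _ (by norm_num), by rw [pow_succ]; ring⟩

/-! ## The theorem -/

theorem j_trade (hB : J_BLOCK) (hRR : J_RUVRET) (hSB : J_SLIDEBLK) (hRM : J_RUVMOVE) (hA : J_ABS)
    (hA2 : J_ABS2) (hS : J_SLIDE) (hSC : J_SLIDECELL) (hU : J_ULCBLK) : J_TRADE := by
  intro k M X _ _ _ u W hk hM hW n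
  induction n with
  | zero =>
    intro V _ _ K c i t ds b hc hK hUK hds hwt ht0 ht4 hruv hlays hatt
    cases ds with
    | nil =>
      have hKu : K = univ := hlays
      subst hKu
      exact hatt.mono (by have := scale_pos ht0 ht4 (8 ^ 0); linarith)
    | cons d ds =>
      rw [wt_cons] at hwt
      have := hds d (by simp)
      omega
  | succ n ih =>
    intro V _ _ K c i t ds b hc hK hUK hds hwt ht0 ht4 hruv hlays hatt
    have hpos := scale_pos ht0 ht4
    have hmono := scale_mono ht0 ht4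
    obtain ⟨hp1, hp2⟩ := pow_facts n
    cases ds with
    | nil =>
      have hKu : K = univ := hlays
      subst hKu
      exact hatt.mono (by have := hpos (8 ^ (n + 1)); linarith)
    | cons d ds =>
      rw [wt_cons] at hwt
      have hd2 := hds d (by simp)
      obtain ⟨K', hsl, hlays'⟩ := hlays
      -- the new scales
      have hs0 : 0 < t (2 * 0 + 2) := hpos _
      have hs4 : ∀ l, 4 * t (2 * l + 2) ≤ t (2 * (l + 1) + 2) := fun l =>
        (ht4 _).trans (hmono (by omega))
      have hfin : b + 3 * t 1 + t (2 * 8 ^ n + 2) ≤ b + t (8 ^ (n + 1)) := by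
        have h1 : t 1 ≤ t (2 * 8 ^ n + 2) := hmono (by omega)
        have h2 := ht4 (2 * 8 ^ n + 2)
        have h3 : t (2 * 8 ^ n + 2 + 1) ≤ t (8 ^ (n + 1)) := hmono (by omega)
        linarith
      by_cases hdk : d ≤ k
      · -- trade
        obtain ⟨V1, _, _, ι, ret, K1, hblk, hlays1⟩ := hB k d X V c K K' (t 0) (t 1) ds hdk hc hK
          (hmono (by omega)) hsl hlays' (hruv 0 (by omega))
        obtain ⟨m, χ, hfam, hsm⟩ := hblk.fam
        have hKc : IsClosed (ι '' K) := (hK.isCompact.image hblk.iso.continuous).isClosed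
        have hc1 : Continuous fun v => c (ret v) := hc.comp hblk.ret_cont
        have hUK1 : ULC k K1 := hU k d V1 (ι '' K) K1 m χ (hK.isCompact.image hblk.iso.continuous)
          hfam (ulc_image hblk.iso hUK)
        have hslide : Slides k (fun v => c (ret v)) K1 (ι '' K) (2 * t 1) :=
          hSB k d X V1 (fun v => c (ret v)) (ι '' K) K1 (t 1) m χ hc1 hKc hfam hsm (hpos 1)
        have hruv1 : ∀ l < 8 ^ n, RUV k (fun v => c (ret v)) (univ : Set V1) K1 (t (2 * l + 2))
            (t (2 * (l + 1) + 2)) := by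
          intro l hl
          have hτ : t (2 * l + 2) + 2 * t 1 ≤ t (2 * l + 3) := by
            have h1 := ht4 (2 * l + 2)
            have h2 : t 1 ≤ t (2 * l + 2) := hmono (by omega)
            have h3 := hpos (2 * l + 2)
            linarith
          have hm : t (2 * l + 3) ≤ t (2 * (l + 1) + 2) := hmono (by omega)
          have h1 : RUV k c (univ : Set V) K (t (2 * l + 2) + 2 * t 1) (t (2 * (l + 1) + 2)) :=
            (hruv (2 * l + 3) (by omega)).weaken hτ (hmono (by omega))
          exact hRM k X V1 (fun v => c (ret v)) (ι '' K) K1 _ _ (2 * t 1) hc1 hblk.sub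
            (hτ.trans hm) (by have := hpos 1; linarith) hslide
            (hRR k d X V V1 c K _ (t 1) _ ι ret K1 hc (hτ.trans hm) hblk h1)
        have hatt1 : Att k u W (fun x => ι (i x)) (fun v => c (ret v)) K1 (b + 3 * t 1) :=
          Att.absorb ((hA k M hk hM).1 d hdk) ((J0_subset 0).trans (dCu_subset _)) hKc
            (ulc_image hblk.iso hUK) hfam hc1 (hpos 1) hsm hW
            (hatt.iso hblk.iso (c1 := fun v => c (ret v)) (fun v => by
              show c (ret (ι v)) = c v
              rw [hblk.ret_ι]))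
        have hfinal := ih V1 K1 (fun v => c (ret v)) (fun x => ι (i x)) (fun l => t (2 * l + 2))
          (ds ++ [d + 2]) (b + 3 * t 1) hc1 hblk.closed hUK1 (by
            intro d' hd'
            simp only [List.mem_append, List.mem_singleton] at hd'
            rcases hd' with hd' | rfl
            · exact hds d' (by simp [hd'])
            · omega)
          (by rw [wt_snoc]; omega) hs0 hs4 hruv1 (hlays1.mono (hmono (by omega))) hatt1
        obtain ⟨D, hD, hD01, hDr, hDι⟩ := hblk.defo
        have hLret : ∀ e > 0, L k ret (univ : Set V1) (univ : Set V) e := by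
          intro e he
          refine hS k V1 V univ univ ret ι (e / 2) e ⟨hblk.ret_cont.continuousOn, mapsTo_univ _ _⟩
            ⟨hblk.iso.continuous.continuousOn, mapsTo_univ _ _⟩ (fun y _ => hblk.ret_ι y)
            (by linarith) he ?_
          intro j hj a ha
          refine ⟨fun p => D (a p.1, p.2), ⟨?_, mapsTo_univ _ _⟩, fun x hx => ?_,
            fun x hx s hs => ?_⟩
          · refine hD.comp ((ha.cont.comp continuousOn_fst fun p hp => hp.1).prodMk
              continuousOn_snd) ?_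
            intro p hp
            exact ⟨mem_univ _, hp.2⟩
          · exact ⟨(hD01 _).1, (hD01 _).2⟩
          · show dist (ret (D (a x, s))) (ret (a x)) < e / 2
            rw [hDr _ s hs, dist_self]
            positivity
        exact (Att.ret hblk.ret_cont hblk.ret_ι hLret hfinal).mono hfin
      · -- free cells
        obtain ⟨m, χ, hfam, hsm⟩ := hsl
        have habs : AbsAt k d (dCu d) M := by
          have hd3 : d = k + 1 ∨ d = k + 2 := by omega
          rcases hd3 with rfl | rfl
          · exact (hA k M hk hM).2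
          · exact hA2 k M hk hM
        have hK'c : IsClosed K' := hfam.isClosed (isCompact_Cu d) hK
        have hUK' : ULC k K' := Layer.ulc ⟨m, χ, hfam⟩ hK.isCompact hUK
        have hslide : Slides k c K' K (2 * t 0) :=
          hSC k d X V c K K' (t 0) (by omega) hc hK.isCompact ht0 ⟨m, χ, hfam, hsm⟩
        have hruv1 : ∀ l < 8 ^ n, RUV k c (univ : Set V) K' (t (2 * l + 2))
            (t (2 * (l + 1) + 2)) := by
          intro l hl
          have hτ : t (2 * l + 2) + 2 * t 0 ≤ t (2 * l + 3) := by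
            have h1 := ht4 (2 * l + 2)
            have h2 : t 0 ≤ t (2 * l + 2) := hmono (by omega)
            have h3 := hpos (2 * l + 2)
            linarith
          have hm : t (2 * l + 3) ≤ t (2 * (l + 1) + 2) := hmono (by omega)
          exact hRM k X V c K K' _ _ (2 * t 0) hc hfam.subset (hτ.trans hm)
            (by linarith) hslide
            ((hruv (2 * l + 3) (by omega)).weaken hτ (hmono (by omega)))
        have hatt1 : Att k u W i c K' (b + 3 * t 1) :=
          (Att.absorb habs (dCu_subset d) hK hUK hfam hc ht0 hsm hW hatt).mono (by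
            have : t 0 ≤ t 1 := hmono (by omega)
            linarith)
        have hfinal := ih V K' c i (fun l => t (2 * l + 2)) ds (b + 3 * t 1) hc hK'c hUK'
          (fun d' hd' => hds d' (by simp [hd'])) (by omega) hs0 hs4 hruv1
          (hlays'.mono (hmono (by omega))) hatt1
        exact hfinal.mono hfin

end MG.Tr
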