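import Pool.Agent.Work.MP_017613_gt.Skel24
import Pool.Agent.Work.MP_017613_gt.Kit.Hep
import Mathlib.Topology.MetricSpace.Gluing

/-!
# Joints `J_V0` (the double mapping cylinder and its layers) and `J_DIM`
-/

open Set Metric Topology

namespace MG

/-! ## Single models -/

section

variable {ε α : Type*} [TopologicalSpace ε] [TopologicalSpace α]

lemma fam_single {B A : Set ε} {K : Set α} {φ : ε → α} (hc : ContinuousOn φ B)
    (hA : MapsTo φ A K) (hoff : ∀ x ∈ B, x ∉ A → φ x ∉ K)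
    (hinj : ∀ x x', x ∈ B → x ∉ A → x' ∈ B → x' ∉ A → φ x = φ x' → x = x') :
    Fam B A K (K ∪ φ '' B) (fun _ : Unit => φ) where
  cont := fun _ => hc
  bdry := fun _ => hA
  off := fun _ => hoff
  inj := fun _ _ x x' h1 h2 h3 h4 h5 => ⟨rfl, hinj x x' h1 h2 h3 h4 h5⟩
  union := congrArg (K ∪ ·) (iUnion_const (ι := Unit) (φ '' B)).symm

/-- a test pair structure of the model pair gives one of the attached space -/
theorem Fam.push_tp {ι : Type*} [Finite ι] {k : ℕ} {B A : Set ε} {K V : Set α}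
    {χ : ι → ε → α} (h : Fam B A K V χ) (hTP : TP k A B) (hK : IsCompact K) : TP k K V := by
  obtain ⟨hc, S, hS0, hS1, hS⟩ := hTP
  have hsm := TP.skel_mono hS
  refine ⟨hK, fun d => K ∪ ⋃ i, χ i '' S d, ?_, ?_, ?_⟩
  · simp only [hS0]
    refine union_eq_left.2 (iUnion_subset fun i => ?_)
    rintro _ ⟨x, hx, rfl⟩
    exact h.bdry i hx
  · simp only [hS1, h.union]
  · intro d hd
    refine h.push_layer (hS d hd) ?_ ?_
    · rw [← hS0]; exact hsm d (by omega) 0 (Nat.zero_le _)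
    · rw [← hS1]; exact hsm (k + 1) le_rfl _ (by omega)

end

namespace Tr

/-- `J_V0` -/
theorem j_V0 : J_V0 := by
  classical
  intro k M F R _ _ _ _ _ _ s w i hs hw hi hM hF hR
  let mS : MetricSpace (M ⊕ F) := Metric.metricSpaceSum
  have hinl : Isometry (Sum.inl : M → M ⊕ F) := Metric.isometry_inl
  have hinr : Isometry (Sum.inr : F → M ⊕ F) := Metric.isometry_inr
  -- the compact metric space `V`
  obtain ⟨V, mV, cV, j, cyl, hj, hfam, hcyl⟩ : ∃ (V : Type) (_ : MetricSpace V)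
      (_ : CompactSpace V) (j : M ⊕ F → V) (cyl : R × ℝ → V), Isometry j ∧
      Fam ((univ : Set R) ×ˢ Icc (0:ℝ) 1) ((univ : Set R) ×ˢ ({0, 1} : Set ℝ)) (range j) univ
        (fun _ : Unit => cyl) ∧
      (∀ r, cyl (r, 0) = j (Sum.inl (s r)) ∧ cyl (r, 1) = j (Sum.inr (w r))) := by
    rcases isEmpty_or_nonempty R with hRe | hRn
    · refine ⟨M ⊕ F, mS, inferInstance, fun x => x, fun p => (hRe.false p.1).elim, isometry_id,
        ⟨?_, ?_, ?_, ?_, ?_⟩, fun r => (hRe.false r).elim⟩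
      · exact fun _ x => (hRe.false x.1).elim
      · exact fun _ x => (hRe.false x.1).elim
      · exact fun _ x => (hRe.false x.1).elim
      · exact fun _ _ x => (hRe.false x.1).elim
      · have : range (fun x : M ⊕ F => x) = univ := range_id
        rw [this, univ_union]
    · obtain ⟨r0⟩ := hRn
      obtain ⟨V, mV, cV, j, χ, hj, hfam, hχ⟩ := exists_attach (V := M ⊕ F) (ε := R × ℝ)
        (ι := Unit) (B := (univ : Set R) ×ˢ Icc (0:ℝ) 1)
        (A := (univ : Set R) ×ˢ ({0, 1} : Set ℝ)) (isCompact_univ.prod isCompact_Icc)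
        ⟨(r0, 0), mem_univ _, le_rfl, zero_le_one⟩ (isClosed_univ.prod (Set.toFinite _).isClosed)
        (fun _ p => if p.2 = 0 then Sum.inl (s p.1) else Sum.inr (w p.1)) (by
          intro _
          have h1 : ((univ : Set R) ×ˢ ({0, 1} : Set ℝ))
              = (univ : Set R) ×ˢ ({0} : Set ℝ) ∪ (univ : Set R) ×ˢ ({1} : Set ℝ) := by
            rw [← prod_union]; rfl
          rw [h1]
          refine ContinuousOn.union_of_isClosed ?_ ?_ (isClosed_univ.prod isClosed_singleton)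
            (isClosed_univ.prod isClosed_singleton)
          · have h2 : Continuous fun p : R × ℝ => (Sum.inl (s p.1) : M ⊕ F) :=
              hinl.continuous.comp (hs.comp continuous_fst)
            refine h2.continuousOn.congr ?_
            rintro ⟨r, t⟩ ⟨-, ht⟩
            have ht' : t = 0 := ht
            simp [ht']
          · have h2 : Continuous fun p : R × ℝ => (Sum.inr (w p.1) : M ⊕ F) :=
              hinr.continuous.comp (hw.comp continuous_fst)
            refine h2.continuousOn.congr ?_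
            rintro ⟨r, t⟩ ⟨-, ht⟩
            have ht' : t = 1 := ht
            simp [ht'])
        (prod_mono le_rfl (by
          rintro t (rfl | rfl)
          · exact ⟨le_rfl, zero_le_one⟩
          · exact ⟨zero_le_one, le_rfl⟩))
      refine ⟨V, mV, cV, j, χ (), hj, hfam, fun r => ⟨?_, ?_⟩⟩
      · rw [hχ () (r, 0) ⟨mem_univ _, Or.inl rfl⟩]; simp
      · rw [hχ () (r, 1) ⟨mem_univ _, Or.inr rfl⟩]; simp
  have h01 : ∀ t ∈ ({0, 1} : Set ℝ), t ∈ Icc (0:ℝ) 1 := by
    rintro t (rfl | rfl)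
    · exact ⟨le_rfl, zero_le_one⟩
    · exact ⟨zero_le_one, le_rfl⟩
  have hA : ∀ {r : R} {t : ℝ}, 0 < t → t < 1 →
      (r, t) ∉ ((univ : Set R) ×ˢ ({0, 1} : Set ℝ)) := by
    rintro r t h0 h1 ⟨-, h⟩
    rcases h with h | h
    · exact h0.ne' h
    · exact h1.ne h
  have hsub : ∀ v, v ∈ range j ↔ v ∈ range (fun x => j (Sum.inl x)) ∪
      range (fun y => j (Sum.inr y)) := by
    intro v
    constructor
    · rintro ⟨x | y, rfl⟩
      · exact Or.inl ⟨x, rfl⟩
      · exact Or.inr ⟨y, rfl⟩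
    · rintro (⟨x, rfl⟩ | ⟨y, rfl⟩)
      · exact ⟨_, rfl⟩
      · exact ⟨_, rfl⟩
  have hsub' : range j = range (fun x => j (Sum.inl x)) ∪ range (fun y => j (Sum.inr y)) :=
    ext hsub
  have hD : DMC s w (fun x => j (Sum.inl x)) (fun y => j (Sum.inr y)) cyl := by
    refine ⟨hj.comp hinl, hj.comp hinr, hfam.cont (), fun r => (hcyl r).1, fun r => (hcyl r).2,
      ?_, ?_, ?_, ?_⟩
    · rw [Set.disjoint_left]
      rintro v ⟨x, hx⟩ ⟨y, hy⟩
      have := hj.injective (hx.trans hy.symm)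
      exact absurd this (by simp)
    · intro r t h0 h1
      rw [← hsub']
      exact hfam.off () (r, t) ⟨mem_univ _, h0.le, h1.le⟩ (hA h0 h1)
    · intro r r' t t' h0 h1 h0' h1' he
      have := (hfam.inj () () (r, t) (r', t') ⟨mem_univ _, h0.le, h1.le⟩ (hA h0 h1)
        ⟨mem_univ _, h0'.le, h1'.le⟩ (hA h0' h1') he).2
      exact Prod.mk.inj this
    · intro v
      have hv : v ∈ (univ : Set V) := mem_univ v
      rw [hfam.union, hsub'] at hv
      rcases hv with (hv | hv) | hv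
      · exact Or.inl hv
      · exact Or.inr (Or.inl hv)
      · obtain ⟨-, ⟨r, t⟩, hrt, he⟩ := mem_iUnion.1 hv
        exact Or.inr (Or.inr ⟨r, t, hrt.2, he⟩)
  refine ⟨V, mV, cV, fun x => j (Sum.inl x), fun y => j (Sum.inr y), cyl, hD, ?_⟩
  -- the layers
  set RM := range (fun x => j (Sum.inl x)) with hRM
  set RF := range (fun y => j (Sum.inr y)) with hRF
  have cRM : IsCompact RM := isCompact_range (hj.comp hinl).continuous
  have cRF : IsCompact RF := isCompact_range (hj.comp hinr).continuous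
  have hK1 : TP k RM (RM ∪ RF) := by
    have h1 : Fam (univ : Set F) ∅ RM (RM ∪ (fun y => j (Sum.inr y)) '' univ)
        (fun _ : Unit => fun y => j (Sum.inr y)) :=
      fam_single (hj.comp hinr).continuous.continuousOn (mapsTo_empty _ _)
        (fun y _ _ hy => by
          obtain ⟨x, hx⟩ := hy
          have := hj.injective hx
          exact absurd this (by simp))
        (fun y y' _ _ _ _ he => (hj.comp hinr).injective he)
    have h2 := h1.push_tp hF cRM
    rwa [image_univ] at h2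
  have hi' : TP k ∅ (range i) := by
    have h1 : Fam (univ : Set F) ∅ (∅ : Set R) (∅ ∪ i '' univ) (fun _ : Unit => i) :=
      fam_single hi.continuous.continuousOn (mapsTo_empty _ _) (fun _ _ _ h => h)
        (fun y y' _ _ _ _ he => hi.injective he)
    have h2 := h1.push_tp hF isCompact_empty
    rwa [empty_union, image_univ] at h2
  have hp1 := hi'.prod
  have hp2 := hR.prod
  rw [empty_prod, union_empty] at hp1
  have hcont : ContinuousOn cyl ((univ : Set R) ×ˢ Icc (0:ℝ) 1) := hfam.cont ()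
  have hends : ∀ r, ∀ t ∈ ({0, 1} : Set ℝ), cyl (r, t) ∈ RM ∪ RF := by
    rintro r t (rfl | rfl)
    · exact Or.inl ⟨s r, ((hcyl r).1).symm⟩
    · exact Or.inr ⟨w r, ((hcyl r).2).symm⟩
  have hFam2 : Fam (range i ×ˢ Icc (0:ℝ) 1) (range i ×ˢ ({0, 1} : Set ℝ)) (RM ∪ RF)
      ((RM ∪ RF) ∪ cyl '' (range i ×ˢ Icc (0:ℝ) 1)) (fun _ : Unit => cyl) := by
    refine fam_single (hcont.mono (prod_mono (subset_univ _) le_rfl))
      (fun p hp => hends p.1 p.2 hp.2) ?_ ?_
    · rintro p ⟨hp1, hp2⟩ hpA hK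
      rw [← hsub'] at hK
      exact hfam.off () p ⟨mem_univ _, hp2⟩ (fun h => hpA ⟨hp1, h.2⟩) hK
    · rintro p p' ⟨hp1, hp2⟩ hpA ⟨hp1', hp2'⟩ hpA' he
      exact (hfam.inj () () p p' ⟨mem_univ _, hp2⟩ (fun h => hpA ⟨hp1, h.2⟩)
        ⟨mem_univ _, hp2'⟩ (fun h => hpA' ⟨hp1', h.2⟩) he).2
  have hK2 : TP (k + 1) (RM ∪ RF) ((RM ∪ RF) ∪ cyl '' (range i ×ˢ Icc (0:ℝ) 1)) :=
    hFam2.push_tp hp1 (cRM.union cRF)
  refine ⟨RM ∪ RF, (RM ∪ RF) ∪ cyl '' (range i ×ˢ Icc (0:ℝ) 1), hK1, hK2, ?_⟩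
  have hFam3 : Fam ((univ : Set R) ×ˢ Icc (0:ℝ) 1)
      ((univ : Set R) ×ˢ ({0, 1} : Set ℝ) ∪ range i ×ˢ Icc (0:ℝ) 1)
      ((RM ∪ RF) ∪ cyl '' (range i ×ˢ Icc (0:ℝ) 1))
      (((RM ∪ RF) ∪ cyl '' (range i ×ˢ Icc (0:ℝ) 1)) ∪ cyl '' ((univ : Set R) ×ˢ Icc (0:ℝ) 1))
      (fun _ : Unit => cyl) := by
    refine fam_single hcont ?_ ?_ ?_
    · rintro p (hp | hp)
      · exact Or.inl (hends p.1 p.2 hp.2)
      · exact Or.inr ⟨p, hp, rfl⟩
    · rintro p hp hpA (hK | ⟨q, hq, he⟩)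
      · rw [← hsub'] at hK
        exact hfam.off () p hp (fun h => hpA (Or.inl h)) hK
      · by_cases hqA : q ∈ (univ : Set R) ×ˢ ({0, 1} : Set ℝ)
        · have h1 := hends q.1 q.2 hqA.2
          rw [← hsub'] at h1
          have h2 : cyl p ∈ range j := by rw [← he]; exact h1
          exact hfam.off () p hp (fun h => hpA (Or.inl h)) h2
        · have h1 := (hfam.inj () () q p ⟨mem_univ _, hq.2⟩ hqA hp
            (fun h => hpA (Or.inl h)) he).2
          exact hpA (Or.inr (h1 ▸ hq))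
    · rintro p p' hp hpA hp' hpA' he
      exact (hfam.inj () () p p' hp (fun h => hpA (Or.inl h)) hp'
        (fun h => hpA' (Or.inl h)) he).2
  have hV : (((RM ∪ RF) ∪ cyl '' (range i ×ˢ Icc (0:ℝ) 1)) ∪ cyl '' ((univ : Set R) ×ˢ
      Icc (0:ℝ) 1)) = univ := by
    have h1 := hfam.union
    rw [hsub'] at h1
    rw [eq_univ_iff_forall]
    intro v
    have hv : v ∈ (univ : Set V) := mem_univ v
    rw [h1] at hv
    rcases hv with hv | hv
    · exact Or.inl (Or.inl hv)
    · obtain ⟨-, hv⟩ := mem_iUnion.1 hv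
      exact Or.inr hv
  rw [hV] at hFam3
  exact hFam3.push_tp hp2 hK2.isCompact

end Tr

end MG
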